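import Pool.Agent.MP_f3836a_nt.PK.SpecA

set_option autoImplicit false

/-! Existential systems: rarity of an event missing the generic point, and the Nullstellensatz. -/

namespace Pool.Agent.MP_f3836a_nt.PK

open MvPolynomial TensorProduct

universe u

namespace ExC

theorem amalg {R A B : Type u} [CommRing R] [CommRing A] [CommRing B] [IsDomain A] [IsDomain B]
    (f : R →+* A) (g : R →+* B) (h : RingHom.ker f = RingHom.ker g) :
    ∃ (Ω : Type u) (_ : Field Ω) (α : A →+* Ω) (β : B →+* Ω),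
      Function.Injective α ∧ ∀ r, α (f r) = β (g r) := by
  let K := FractionRing A
  let _ : Algebra (R ⧸ RingHom.ker f) K :=
    ((algebraMap A K).comp (RingHom.kerLift f)).toAlgebra
  let _ : Algebra (R ⧸ RingHom.ker f) B :=
    (Ideal.Quotient.lift _ g fun a ha => by rwa [h] at ha).toAlgebra
  have := Algebra.TensorProduct.nontrivial_of_algebraMap_injective_of_isDomain
    (R ⧸ RingHom.ker f) K B ((IsFractionRing.injective A K).comp (RingHom.kerLift_injective f))
    (RingHom.lift_injective_of_ker_le_ideal _ _ h.ge)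
  obtain ⟨M, hM⟩ := Ideal.exists_maximal (K ⊗[R ⧸ RingHom.ker f] B)
  let _ := Ideal.Quotient.field M
  let l : K →+* (K ⊗[R ⧸ RingHom.ker f] B) ⧸ M :=
    (Ideal.Quotient.mk M).comp Algebra.TensorProduct.includeLeftRingHom
  refine ⟨_, inferInstance, l.comp (algebraMap A K), (Ideal.Quotient.mk M).comp
    (Algebra.TensorProduct.includeRight (R := R ⧸ RingHom.ker f) (A := K)).toRingHom,
    l.injective.comp (IsFractionRing.injective A K), fun r => congrArg (Ideal.Quotient.mk M) ?_⟩
  change algebraMap (R ⧸ RingHom.ker f) K (Ideal.Quotient.mk _ r) ⊗ₜ (1 : B) =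
    (1 : K) ⊗ₜ algebraMap (R ⧸ RingHom.ker f) B (Ideal.Quotient.mk _ r)
  rw [Algebra.algebraMap_eq_smul_one, Algebra.algebraMap_eq_smul_one, smul_tmul]

theorem deg_le {k : Type u} [Field k] {σ τ : Type} (ι : σ → MvPolynomial τ k)
    (h : ∀ s, (ι s).totalDegree ≤ 1) (g : MvPolynomial σ k) :
    (aeval ι g).totalDegree ≤ g.totalDegree := by
  conv_lhs => rw [g.as_sum, map_sum]
  refine totalDegree_finsetSum_le fun d hd => le_trans ?_ (le_totalDegree hd)
  rw [aeval_monomial, algebraMap_eq]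
  refine (totalDegree_mul _ _).trans ?_
  rw [totalDegree_C, zero_add]
  refine (totalDegree_finsetProd _ _).trans (Finset.sum_le_sum fun s _ => ?_)
  exact (totalDegree_pow _ _).trans (by simpa using Nat.mul_le_mul_left (d s) (h s))

open Classical in
theorem sz {k : Type u} [Field k] {m : ℕ} (p : MvPolynomial (Fin m) k) (S : Finset k) :
    ((Fintype.piFinset fun _ : Fin m => S).filter fun a => p ≠ 0 ∧ eval a p = 0).card * S.card ≤
      p.totalDegree * S.card ^ m := by
  by_cases hp : p = 0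
  · simp [hp]
  rcases S.eq_empty_or_nonempty with rfl | hS
  · simp
  have h := schwartz_zippel_totalDegree hp S
  have h0 : (0 : ℚ≥0) < S.card := by exact_mod_cast hS.card_pos
  rw [div_le_div_iff₀ (pow_pos h0 m) h0] at h
  simp only [hp, ne_eq, not_false_eq_true, true_and]
  exact_mod_cast h

end ExC

theorem rExC : RExC.{u} := by
  classical
  rintro k _ σ _ q ⟨n, E, hE⟩
  let I : Ideal (MvPolynomial (σ ⊕ Fin n) k) := Ideal.span E
  let ψ : MvPolynomial σ k →ₐ[k] MvPolynomial (σ ⊕ Fin n) k ⧸ I :=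
    (Ideal.Quotient.mkₐ k I).comp (rename Sum.inl)
  have hψ : ψ.toRingHom.FinitePresentation := by
    refine RingHom.FinitePresentation.of_finiteType.1
      (RingHom.FiniteType.of_comp_finiteType (f := algebraMap k _) ?_)
    rw [show ψ.toRingHom.comp (algebraMap k _) = algebraMap k _ from ψ.comp_algebraMap]
    exact RingHom.finiteType_algebraMap.2 inferInstance
  obtain ⟨T, hT⟩ := PrimeSpectrum.exists_constructibleSetData_iff.2
    (PrimeSpectrum.isConstructible_range_comap hψ)
  refine ⟨∑ C ∈ T, ∑ i, (C.g i).totalDegree, fun m ι hι hq S => ?_⟩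
  have h0 : ∀ C ∈ T, (∀ i, aeval ι (C.g i) = 0) → aeval ι C.f = 0 := by
    intro C hC h1
    by_contra h2
    have h3 : (⟨RingHom.ker (aeval (R := k) ι), RingHom.ker_isPrime _⟩ : PrimeSpectrum _) ∈
        T.toSet := Set.mem_biUnion hC ⟨by
          rintro _ ⟨i, rfl⟩
          exact h1 i, fun h => h2 (h rfl)⟩
    rw [hT] at h3
    obtain ⟨P, hP⟩ := h3
    obtain ⟨Ω, _, α, β, h4, h5⟩ := ExC.amalg (aeval (R := k) ι).toRingHom
      ((Ideal.Quotient.mk P.asIdeal).comp ψ.toRingHom) (by
        rw [← RingHom.comap_ker, Ideal.mk_ker]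
        exact (congrArg PrimeSpectrum.asIdeal hP).symm)
    let _ : Algebra k Ω := (α.comp MvPolynomial.C).toAlgebra
    have h6 : ∀ p, aeval (fun j => α (X j)) p = α p := fun p =>
      RingHom.congr_fun (f := (aeval (R := k) fun j => α (X j)).toRingHom)
        (MvPolynomial.ringHom_ext (fun c => aeval_C _ c) fun j => aeval_X _ j) p
    refine hq Ω (fun j => α (X j)) (algebraicIndependent_iff_injective_aeval.2
      (by rwa [funext h6])) ((hE _ _).2 ⟨fun i => β (Ideal.Quotient.mk _
        (Ideal.Quotient.mk I (X (.inr i)))), fun e he => ?_⟩)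
    have h7 := RingHom.congr_fun (f := (aeval (R := k) (Sum.elim (fun s => aeval
      (fun j => α (X j)) (ι s)) fun i => β (Ideal.Quotient.mk _
        (Ideal.Quotient.mk I (X (.inr i)))))).toRingHom)
      (g := β.comp ((Ideal.Quotient.mk P.asIdeal).comp (Ideal.Quotient.mk I)))
      (MvPolynomial.ringHom_ext (fun c => (aeval_C _ c).trans
        (show α (MvPolynomial.C c) = _ by simpa [ψ] using h5 (MvPolynomial.C c))) fun j => (aeval_X _ j).trans (by
          rcases j with s | i
          · simpa [ψ, h6] using h5 (X s)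
          · rfl)) e
    refine h7.trans ?_
    simp only [RingHom.comp_apply]
    rw [Ideal.Quotient.eq_zero_iff_mem.2 (Ideal.subset_span he), map_zero, map_zero]
  have h1 : {a : Fin m → k | (∀ j, a j ∈ S) ∧ q k fun s => aeval a (ι s)} ⊆
      ((T.biUnion fun C => Finset.univ.biUnion fun i => (Fintype.piFinset fun _ : Fin m => S).filter
        fun a => aeval ι (C.g i) ≠ 0 ∧ eval a (aeval ι (C.g i)) = 0 : Finset _) : Set _) := by
    rintro a ⟨ha, hq⟩
    obtain ⟨v, hv⟩ := (hE _ _).1 hq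
    let χ : (MvPolynomial (σ ⊕ Fin n) k ⧸ I) →ₐ[k] k := Ideal.Quotient.liftₐ I
      (aeval (Sum.elim (fun s => aeval a (ι s)) v)) fun e he =>
        (Ideal.span_le (I := RingHom.ker _)).2 hv he
    have h2 : ∀ p, χ (ψ p) = eval a (aeval ι p) := fun p =>
      AlgHom.congr_fun (φ₁ := χ.comp ψ) (φ₂ := (aeval a).comp (aeval ι))
        (algHom_ext fun s => by simp [χ, ψ]) p
    have h3 : PrimeSpectrum.comap ψ.toRingHom ⟨RingHom.ker χ, RingHom.ker_isPrime _⟩ ∈ T.toSet :=
      hT ▸ ⟨_, rfl⟩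
    obtain ⟨C, hC, h4, h5⟩ := Set.mem_iUnion₂.1 h3
    have h6 : ¬ ∀ i, aeval ι (C.g i) = 0 := fun h => h5 (by
      rintro _ rfl
      change χ (ψ C.f) = 0
      rw [h2, h0 C hC h, map_zero])
    obtain ⟨i, hi⟩ := not_forall.1 h6
    refine Finset.mem_coe.2 (Finset.mem_biUnion.2 ⟨C, hC, Finset.mem_biUnion.2 ⟨i, Finset.mem_univ _,
      Finset.mem_filter.2 ⟨Fintype.mem_piFinset.2 ha, hi, ?_⟩⟩⟩)
    rw [← h2]
    exact h4 ⟨i, rfl⟩
  refine (Nat.mul_le_mul_right _ ((Set.ncard_le_ncard h1 (Finset.finite_toSet _)).trans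
    ((Set.ncard_coe_finset _).le.trans (Finset.card_biUnion_le.trans
      (Finset.sum_le_sum fun C _ => Finset.card_biUnion_le))))).trans ?_
  simp only [Finset.sum_mul]
  exact Finset.sum_le_sum fun C _ => Finset.sum_le_sum fun i _ =>
    (ExC.sz _ S).trans (Nat.mul_le_mul_right _ (ExC.deg_le ι hι _))

theorem rExD : RExD.{u} := by
  rintro k _ _ σ _ q ⟨n, E, hE⟩ Ω _ _ a h
  obtain ⟨v, hv⟩ := (hE _ _).1 h
  let s : MvPolynomial (σ ⊕ Fin n) k →ₐ[k] MvPolynomial (Fin n) k :=
    aeval (Sum.elim (fun s => C (a s)) X)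
  obtain ⟨M, hM, hle⟩ := Ideal.exists_le_maximal _ (RingHom.ker_ne_top (aeval (R := k) v))
  obtain ⟨x, rfl⟩ := isMaximal_iff_eq_vanishingIdeal_singleton.1 hM
  refine (hE _ _).2 ⟨x, fun e he => ?_⟩
  have h1 : aeval v (s e) = aeval (Sum.elim (fun s => algebraMap k Ω (a s)) v) e :=
    AlgHom.congr_fun (φ₁ := (aeval v).comp s) (algHom_ext fun j => by
      rcases j with j | j <;> simp [s]) e
  have h2 : aeval x (s e) = aeval (Sum.elim a x) e :=
    AlgHom.congr_fun (φ₁ := (aeval x).comp s) (algHom_ext fun j => by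
      rcases j with j | j <;> simp [s]) e
  rw [← h2]
  exact (mem_vanishingIdeal_singleton_iff x _).1 (hle (h1.trans (hv e he)))

end Pool.Agent.MP_f3836a_nt.PK
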