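import Pool.Agent.MP_f3836a_nt.PK.SpecA

set_option autoImplicit false

/-! Closure properties of existential systems of polynomial equations. -/

namespace Pool.Agent.MP_f3836a_nt.PK

open MvPolynomial

universe u w

namespace ExL

variable {k : Type u} [Field k]

theorem mkEx {σ : Type} (τ : Type) [Finite τ] (E : Set (MvPolynomial (σ ⊕ τ) k)) (hE : E.Finite)
    (q : ∀ (Ω : Type u) [Field Ω] [Algebra k Ω], (σ → Ω) → Prop)
    (h : ∀ (Ω : Type u) [Field Ω] [Algebra k Ω] (a : σ → Ω),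
      q Ω a ↔ ∃ v : τ → Ω, ∀ e ∈ E, aeval (Sum.elim a v) e = 0) : IsEx k σ q := by
  classical
  obtain ⟨m, ⟨ε⟩⟩ := Finite.exists_equiv_fin τ
  refine ⟨m, hE.toFinset.image (rename (Sum.map id ε)), fun Ω _ _ a => ?_⟩
  have key : ∀ (v : Fin m → Ω) (e : MvPolynomial (σ ⊕ τ) k),
      aeval (Sum.elim a v) (rename (Sum.map id ε) e) = aeval (Sum.elim a (v ∘ ε)) e := by
    intro v e
    rw [aeval_rename]
    congr 2
    ext x
    cases x <;> rfl
  rw [h]
  constructor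
  · rintro ⟨v, hv⟩
    refine ⟨v ∘ ε.symm, fun e he => ?_⟩
    obtain ⟨e', he', rfl⟩ := Finset.mem_image.mp he
    rw [key]
    have : (v ∘ ε.symm) ∘ ε = v := by
      ext x
      simp
    rw [this]
    exact hv e' (hE.mem_toFinset.mp he')
  · rintro ⟨v, hv⟩
    refine ⟨v ∘ ε, fun e he => ?_⟩
    rw [← key]
    exact hv _ (Finset.mem_image_of_mem _ (hE.mem_toFinset.mpr he))

theorem ren_inl {σ τ : Type} {Ω : Type u} [Field Ω] [Algebra k Ω] (a : σ → Ω) (v : τ → Ω)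
    (e : MvPolynomial σ k) :
    aeval (Sum.elim a v) (rename (Sum.inl : σ → σ ⊕ τ) e) = aeval a e := by
  rw [aeval_rename]
  rfl

theorem ren_map {σ τ τ' : Type} {Ω : Type u} [Field Ω] [Algebra k Ω] (a : σ → Ω) (v : τ' → Ω)
    (j : τ → τ') (e : MvPolynomial (σ ⊕ τ) k) :
    aeval (Sum.elim a v) (rename (Sum.map id j) e) = aeval (Sum.elim a (v ∘ j)) e := by
  rw [aeval_rename]
  congr 2
  ext x
  cases x <;> rfl

theorem exCongr {σ : Type} {q q' : ∀ (Ω : Type u) [Field Ω] [Algebra k Ω], (σ → Ω) → Prop}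
    (h : IsEx k σ q)
    (e : ∀ (Ω : Type u) [Field Ω] [Algebra k Ω] (a : σ → Ω), q Ω a ↔ q' Ω a) : IsEx k σ q' := by
  obtain ⟨m, E, hE⟩ := h
  exact ⟨m, E, fun Ω _ _ a => (e Ω a).symm.trans (hE Ω a)⟩

theorem exEq (σ : Type) (e : MvPolynomial σ k) : IsEx k σ fun _ _ _ a => aeval a e = 0 := by
  refine mkEx Empty {rename Sum.inl e} (Set.finite_singleton _) _ fun Ω _ _ a => ?_
  simp only [Set.mem_singleton_iff, forall_eq, ren_inl]
  exact ⟨fun h => ⟨Empty.elim, h⟩, fun ⟨_, h⟩ => h⟩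

theorem exNe (σ : Type) (e : MvPolynomial σ k) : IsEx k σ fun _ _ _ a => aeval a e ≠ 0 := by
  refine mkEx Unit {rename Sum.inl e * X (Sum.inr ()) - 1} (Set.finite_singleton _) _
    fun Ω _ _ a => ?_
  simp only [Set.mem_singleton_iff, forall_eq, map_sub, map_mul, ren_inl, aeval_X, Sum.elim_inr,
    map_one]
  constructor
  · intro h
    exact ⟨fun _ => (aeval a e)⁻¹, by rw [mul_inv_cancel₀ h, sub_self]⟩
  · rintro ⟨v, hv⟩ h
    rw [h, zero_mul, zero_sub, neg_eq_zero] at hv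
    exact one_ne_zero hv

theorem exAnd {σ : Type} {q q' : ∀ (Ω : Type u) [Field Ω] [Algebra k Ω], (σ → Ω) → Prop}
    (h : IsEx k σ q) (h' : IsEx k σ q') : IsEx k σ fun Ω _ _ a => q Ω a ∧ q' Ω a := by
  obtain ⟨m, E, hE⟩ := h
  obtain ⟨m', E', hE'⟩ := h'
  refine mkEx (Fin m ⊕ Fin m')
    (rename (Sum.map id Sum.inl) '' (E : Set _) ∪ rename (Sum.map id Sum.inr) '' (E' : Set _))
    ((E.finite_toSet.image _).union (E'.finite_toSet.image _)) _ fun Ω _ _ a => ?_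
  rw [hE, hE']
  constructor
  · rintro ⟨⟨v, hv⟩, v', hv'⟩
    refine ⟨Sum.elim v v', ?_⟩
    rintro _ (⟨e, he, rfl⟩ | ⟨e, he, rfl⟩)
    · rw [ren_map]
      exact hv e he
    · rw [ren_map]
      exact hv' e he
  · rintro ⟨v, hv⟩
    refine ⟨⟨v ∘ Sum.inl, fun e he => ?_⟩, v ∘ Sum.inr, fun e he => ?_⟩
    · rw [← ren_map]
      exact hv _ (Or.inl ⟨e, he, rfl⟩)
    · rw [← ren_map]
      exact hv _ (Or.inr ⟨e, he, rfl⟩)

theorem exOr {σ : Type} {q q' : ∀ (Ω : Type u) [Field Ω] [Algebra k Ω], (σ → Ω) → Prop}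
    (h : IsEx k σ q) (h' : IsEx k σ q') : IsEx k σ fun Ω _ _ a => q Ω a ∨ q' Ω a := by
  obtain ⟨m, E, hE⟩ := h
  obtain ⟨m', E', hE'⟩ := h'
  refine mkEx (Fin m ⊕ Fin m')
    (Set.image2 (fun e e' => rename (Sum.map id Sum.inl) e * rename (Sum.map id Sum.inr) e')
      (E : Set _) (E' : Set _))
    (E.finite_toSet.image2 _ E'.finite_toSet) _ fun Ω _ _ a => ?_
  rw [hE, hE']
  constructor
  · rintro (⟨v, hv⟩ | ⟨v', hv'⟩)
    · refine ⟨Sum.elim v 0, ?_⟩
      rintro _ ⟨e, he, e', -, rfl⟩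
      rw [map_mul, ren_map]
      exact mul_eq_zero_of_left (hv e he) _
    · refine ⟨Sum.elim 0 v', ?_⟩
      rintro _ ⟨e, -, e', he', rfl⟩
      rw [map_mul, ren_map, ren_map]
      exact mul_eq_zero_of_right _ (hv' e' he')
  · rintro ⟨v, hv⟩
    by_contra hn
    push Not at hn
    obtain ⟨e, he, h1⟩ := hn.1 (v ∘ Sum.inl)
    obtain ⟨e', he', h2⟩ := hn.2 (v ∘ Sum.inr)
    have := hv _ ⟨e, he, e', he', rfl⟩
    rw [map_mul, ren_map, ren_map] at this
    exact mul_ne_zero h1 h2 this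

theorem exAllS {σ : Type} {β : Type w} (s : Finset β)
    (q : β → ∀ (Ω : Type u) [Field Ω] [Algebra k Ω], (σ → Ω) → Prop) :
    (∀ i ∈ s, IsEx k σ (q i)) → IsEx k σ fun Ω _ _ a => ∀ i ∈ s, q i Ω a := by
  classical
  induction s using Finset.induction_on with
  | empty => exact fun _ => exCongr (exEq σ 0) fun Ω _ _ a => by simp
  | insert b s hb ih =>
    intro h
    refine exCongr (exAnd (h b (Finset.mem_insert_self _ _))
      (ih fun i hi => h i (Finset.mem_insert_of_mem hi))) fun Ω _ _ a => ?_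
    simp

theorem exAnyS {σ : Type} {β : Type w} (s : Finset β)
    (q : β → ∀ (Ω : Type u) [Field Ω] [Algebra k Ω], (σ → Ω) → Prop) :
    (∀ i ∈ s, IsEx k σ (q i)) → IsEx k σ fun Ω _ _ a => ∃ i ∈ s, q i Ω a := by
  classical
  induction s using Finset.induction_on with
  | empty => exact fun _ => exCongr (exEq σ 1) fun Ω _ _ a => by simp
  | insert b s hb ih =>
    intro h
    refine exCongr (exOr (h b (Finset.mem_insert_self _ _))
      (ih fun i hi => h i (Finset.mem_insert_of_mem hi))) fun Ω _ _ a => ?_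
    simp

theorem exEx {σ τ : Type} [Finite τ]
    {q : ∀ (Ω : Type u) [Field Ω] [Algebra k Ω], (σ ⊕ τ → Ω) → Prop} (h : IsEx k (σ ⊕ τ) q) :
    IsEx k σ fun Ω _ _ a => ∃ v : τ → Ω, q Ω (Sum.elim a v) := by
  obtain ⟨m, E, hE⟩ := h
  refine mkEx (τ ⊕ Fin m) (rename (Equiv.sumAssoc σ τ (Fin m)) '' (E : Set _))
    (E.finite_toSet.image _) _ fun Ω _ _ a => ?_
  have key : ∀ (v : τ ⊕ Fin m → Ω) (e : MvPolynomial ((σ ⊕ τ) ⊕ Fin m) k),
      aeval (Sum.elim a v) (rename (Equiv.sumAssoc σ τ (Fin m)) e) =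
        aeval (Sum.elim (Sum.elim a (v ∘ Sum.inl)) (v ∘ Sum.inr)) e := by
    intro v e
    rw [aeval_rename]
    congr 2
    ext x
    rcases x with (x | x) | x <;> rfl
  constructor
  · rintro ⟨v, hv⟩
    obtain ⟨v', hv'⟩ := (hE Ω _).mp hv
    refine ⟨Sum.elim v v', ?_⟩
    rintro _ ⟨e, he, rfl⟩
    rw [key]
    exact hv' e he
  · rintro ⟨v, hv⟩
    refine ⟨v ∘ Sum.inl, (hE Ω _).mpr ⟨v ∘ Sum.inr, fun e he => ?_⟩⟩
    rw [← key]
    exact hv _ ⟨e, he, rfl⟩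

theorem exComp {σ τ : Type} (g : τ → MvPolynomial σ k)
    {q : ∀ (Ω : Type u) [Field Ω] [Algebra k Ω], (τ → Ω) → Prop} (h : IsEx k τ q) :
    IsEx k σ fun Ω _ _ a => q Ω fun t => aeval a (g t) := by
  obtain ⟨m, E, hE⟩ := h
  let ψ : MvPolynomial (τ ⊕ Fin m) k →ₐ[k] MvPolynomial (σ ⊕ Fin m) k :=
    aeval (Sum.elim (fun t => rename Sum.inl (g t)) fun j => X (Sum.inr j))
  refine mkEx (Fin m) (ψ '' (E : Set _)) (E.finite_toSet.image _) _ fun Ω _ _ a => ?_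
  have key : ∀ (v : Fin m → Ω) (e : MvPolynomial (τ ⊕ Fin m) k),
      aeval (Sum.elim a v) (ψ e) = aeval (Sum.elim (fun t => aeval a (g t)) v) e := by
    intro v e
    have : (aeval (Sum.elim a v)).comp ψ = aeval (Sum.elim (fun t => aeval a (g t)) v) := by
      ext x
      cases x <;> simp [ψ, ren_inl]
    exact DFunLike.congr_fun this e
  rw [hE]
  constructor
  · rintro ⟨v, hv⟩
    refine ⟨v, ?_⟩
    rintro _ ⟨e, he, rfl⟩
    rw [key]
    exact hv e he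
  · rintro ⟨v, hv⟩
    refine ⟨v, fun e he => ?_⟩
    rw [← key]
    exact hv _ ⟨e, he, rfl⟩

end ExL

open ExL in
theorem rExL : RExL.{u} := by
  intro k _
  refine ⟨exEq, exNe, fun _ _ _ => exAnd, fun _ _ _ => exOr, fun σ ι _ q h => ?_,
    fun σ ι _ q h => ?_, fun _ _ s q => exAllS s q, fun _ _ _ _ => exEx,
    fun _ _ g _ => exComp g, fun _ _ _ => exCongr⟩
  · have := Fintype.ofFinite ι
    exact exCongr (exAllS Finset.univ q fun i _ => h i) fun Ω _ _ a => by simp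
  · have := Fintype.ofFinite ι
    exact exCongr (exAnyS Finset.univ q fun i _ => h i) fun Ω _ _ a => by simp

end Pool.Agent.MP_f3836a_nt.PK
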