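import Pool.Agent.MP_f3836a_nt.PK.SpecB
import Pool.Agent.MP_f3836a_nt.PK.ExC
import Pool.Agent.MP_f3836a_nt.PK.ExL

set_option autoImplicit false

/-! The geometric events are existential systems. -/

namespace Pool.Agent.MP_f3836a_nt.PK

open MvPolynomial

universe u

namespace BExS

variable {k : Type u} [Field k] {σ : Type} {N : ℕ}

/-- specialization of the parameters -/
noncomputable def ph (k : Type u) [Field k] {Ω : Type u} [Field Ω] [Algebra k Ω] (a : σ → Ω) :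
    MvPolynomial σ k →+* Ω := (aeval a : MvPolynomial σ k →ₐ[k] Ω)

theorem ph_apply {Ω : Type u} [Field Ω] [Algebra k Ω] (a : σ → Ω) (e : MvPolynomial σ k) :
    ph k a e = aeval a e := rfl

abbrev Sc (k : Type u) [Field k] (σ : Type) :=
  ∀ (Ω : Type u) [Field Ω] [Algebra k Ω], (σ → Ω) → Ω

abbrev Ve (k : Type u) [Field k] (σ ι : Type) :=
  ∀ (Ω : Type u) [Field Ω] [Algebra k Ω], (σ → Ω) → ι → Ω

abbrev Po (k : Type u) [Field k] (σ : Type) (N : ℕ) :=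
  ∀ (Ω : Type u) [Field Ω] [Algebra k Ω], (σ → Ω) → Pol Ω N

abbrev Se (k : Type u) [Field k] (σ : Type) (N : ℕ) :=
  ∀ (Ω : Type u) [Field Ω] [Algebra k Ω], (σ → Ω) → Set (Pol Ω N)

/-- polynomial functions of the parameters -/
def IsP (k : Type u) [Field k] {σ : Type} (f : Sc k σ) : Prop :=
  ∃ e : MvPolynomial σ k, ∀ (Ω : Type u) [Field Ω] [Algebra k Ω] (a : σ → Ω), f Ω a = ph k a e

def IsV (k : Type u) [Field k] {σ ι : Type} (z : Ve k σ ι) : Prop :=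
  ∀ j, IsP k fun Ω _ _ a => z Ω a j

def IsH (k : Type u) [Field k] {σ : Type} {N : ℕ} (h : Po k σ N) : Prop :=
  ∃ H : MvPolynomial (Fin (N + 1)) (MvPolynomial σ k),
    ∀ (Ω : Type u) [Field Ω] [Algebra k Ω] (a : σ → Ω), h Ω a = map (ph k a) H

def IsS (k : Type u) [Field k] {σ : Type} {N : ℕ} (𝒮 : Se k σ N) : Prop :=
  ∃ (ι : Type) (_ : Fintype ι) (g : ι → Po k σ N), (∀ j, IsH k (g j)) ∧
    ∀ (Ω : Type u) [Field Ω] [Algebra k Ω] (a : σ → Ω), 𝒮 Ω a = Set.range fun j => g j Ω a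

theorem pVar (s : σ) : IsP k fun _ _ _ a => a s :=
  ⟨X s, fun _ _ _ _ => by simp [ph_apply]⟩

theorem pConst (c : k) : IsP k (σ := σ) fun Ω _ _ _ => algebraMap k Ω c :=
  ⟨C c, fun _ _ _ _ => by simp [ph_apply]⟩

theorem pOne : IsP k (σ := σ) fun _ _ _ _ => 1 := ⟨1, fun _ _ _ _ => by simp⟩

theorem pZero : IsP k (σ := σ) fun _ _ _ _ => 0 := ⟨0, fun _ _ _ _ => by simp⟩

theorem IsP.mul {f g : Sc k σ} (hf : IsP k f) (hg : IsP k g) : IsP k fun Ω _ _ a => f Ω a * g Ω a := by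
  obtain ⟨e, he⟩ := hf
  obtain ⟨e', he'⟩ := hg
  exact ⟨e * e', fun Ω _ _ a => by simp only [he, he', map_mul]⟩

theorem pSum {ι : Type} [Fintype ι] {f : ι → Sc k σ} (hf : ∀ j, IsP k (f j)) :
    IsP k fun Ω _ _ a => ∑ j, f j Ω a := by
  choose e he using hf
  exact ⟨∑ j, e j, fun Ω _ _ a => by simp only [he, map_sum]⟩

theorem ph_comp {τ : Type} (ρ : σ → τ) {Ω : Type u} [Field Ω] [Algebra k Ω] (b : τ → Ω) :
    ph k (b ∘ ρ) = (ph k b).comp (rename ρ : MvPolynomial σ k →ₐ[k] MvPolynomial τ k) :=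
  RingHom.ext fun e => (aeval_rename ρ b e).symm

theorem IsP.lift {τ : Type} {f : Sc k σ} (hf : IsP k f) :
    IsP k (σ := σ ⊕ τ) fun Ω _ _ b => f Ω (b ∘ Sum.inl) := by
  obtain ⟨e, he⟩ := hf
  exact ⟨rename Sum.inl e, fun Ω _ _ b => by simp only [he, ph_comp]; rfl⟩

theorem IsV.lift {τ ι : Type} {z : Ve k σ ι} (hz : IsV k z) :
    IsV k (σ := σ ⊕ τ) fun Ω _ _ b => z Ω (b ∘ Sum.inl) := fun j => (hz j).lift

theorem IsH.lift {τ : Type} {h : Po k σ N} (hh : IsH k h) :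
    IsH k (σ := σ ⊕ τ) fun Ω _ _ b => h Ω (b ∘ Sum.inl) := by
  obtain ⟨H, hH⟩ := hh
  exact ⟨map (rename Sum.inl : MvPolynomial σ k →ₐ[k] MvPolynomial (σ ⊕ τ) k) H,
    fun Ω _ _ b => by simp only [hH, ph_comp, map_map]⟩

theorem IsS.lift {τ : Type} {𝒮 : Se k σ N} (hS : IsS k 𝒮) :
    IsS k (σ := σ ⊕ τ) fun Ω _ _ b => 𝒮 Ω (b ∘ Sum.inl) := by
  obtain ⟨ι, _, g, hg, h⟩ := hS
  exact ⟨ι, inferInstance, fun j Ω _ _ b => g j Ω (b ∘ Sum.inl), fun j => (hg j).lift,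
    fun Ω _ _ b => h Ω _⟩

theorem hConst (G : Pol k N) : IsH k (σ := σ) fun Ω _ _ _ => map (algebraMap k Ω) G :=
  ⟨map C G, fun Ω _ _ a => by
    have e : (ph k a).comp C = algebraMap k Ω := RingHom.ext fun c => by simp [ph_apply]
    rw [map_map, e]⟩

theorem hX (i : Fin (N + 1)) : IsH k (σ := σ) fun _ _ _ _ => X i :=
  ⟨X i, fun _ _ _ _ => by simp⟩

theorem hFrm {n : ℕ} {c : Ve k σ (Mon N n)} (hc : IsV k c) : IsH k fun Ω _ _ a => frm (c Ω a) := by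
  choose e he using hc
  exact ⟨∑ d, monomial d.1 (e d), fun Ω _ _ a => by
    simp only [frm, map_sum, map_monomial, ← he]⟩

theorem hCmb {α β : Sc k σ} {h h' : Po k σ N} (hα : IsP k α) (hβ : IsP k β) (hh : IsH k h)
    (hh' : IsH k h') : IsH k fun Ω _ _ a => C (α Ω a) * h Ω a + C (β Ω a) * h' Ω a := by
  obtain ⟨e, he⟩ := hα
  obtain ⟨e', he'⟩ := hβ
  obtain ⟨H, hH⟩ := hh
  obtain ⟨H', hH'⟩ := hh'
  exact ⟨C e * H + C e' * H', fun Ω _ _ a => by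
    simp only [he, he', hH, hH', map_add, map_mul, map_C]⟩

theorem IsH.pderiv {h : Po k σ N} (hh : IsH k h) (j : Fin (N + 1)) :
    IsH k fun Ω _ _ a => pderiv j (h Ω a) := by
  obtain ⟨H, hH⟩ := hh
  exact ⟨MvPolynomial.pderiv j H, fun Ω _ _ a => by simp only [hH, pderiv_map]⟩

theorem IsH.eval {h : Po k σ N} {z : Ve k σ (Fin (N + 1))} (hh : IsH k h) (hz : IsV k z) :
    IsP k fun Ω _ _ a => eval (z Ω a) (h Ω a) := by
  obtain ⟨H, hH⟩ := hh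
  choose e he using hz
  refine ⟨MvPolynomial.eval e H, fun Ω _ _ a => ?_⟩
  have : z Ω a = ph k a ∘ e := funext fun j => he j Ω a
  simp only [hH, this, map_eval]

theorem IsH.dEv {h : Po k σ N} {z τ : Ve k σ (Fin (N + 1))} (hh : IsH k h) (hz : IsV k z)
    (hτ : IsV k τ) : IsP k fun Ω _ _ a => dEv (z Ω a) (h Ω a) (τ Ω a) :=
  pSum fun j => ((hh.pderiv j).eval hz).mul (hτ j)

theorem IsH.coeff {h : Po k σ N} {z τ υ : Ve k σ (Fin (N + 1))} (hh : IsH k h) (hz : IsV k z)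
    (hτ : IsV k τ) (hυ : IsV k υ) (d : ℕ) :
    IsP k fun Ω _ _ a => (aeval (arc (z Ω a) (τ Ω a) (υ Ω a)) (h Ω a)).coeff d := by
  obtain ⟨H, hH⟩ := hh
  choose e he using hz
  choose e' he' using hτ
  choose e'' he'' using hυ
  let γ : Fin (N + 1) → Polynomial (MvPolynomial σ k) := fun j =>
    Polynomial.C (e j) + Polynomial.C (e' j) * Polynomial.X + Polynomial.C (e'' j) * Polynomial.X ^ 2
  refine ⟨(eval₂ Polynomial.C γ H).coeff d, fun Ω _ _ a => ?_⟩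
  rw [← Polynomial.coeff_map, ← Polynomial.coe_mapRingHom, hom_eval₂]
  simp only [hH]
  rw [aeval_def, eval₂_map]
  congr 2
  · exact RingHom.ext fun c => by simp
  · funext j
    simp [arc, γ, he j Ω a, he' j Ω a, he'' j Ω a]

theorem sExt (𝒢 : Finset (Pol k N)) : IsS k (σ := σ) fun Ω _ _ _ => ext Ω 𝒢 := by
  refine ⟨Fin 𝒢.card, inferInstance,
    fun j Ω _ _ _ => map (algebraMap k Ω) (𝒢.equivFin.symm j : Pol k N), fun j => hConst _,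
    fun Ω _ _ _ => Set.ext fun G => ⟨?_, ?_⟩⟩
  · rintro ⟨G, hG, rfl⟩
    exact ⟨𝒢.equivFin ⟨G, hG⟩, by simp⟩
  · rintro ⟨j, rfl⟩
    exact ⟨_, (𝒢.equivFin.symm j).2, rfl⟩

theorem IsS.ins {𝒮 : Se k σ N} {h : Po k σ N} (hS : IsS k 𝒮) (hh : IsH k h) :
    IsS k fun Ω _ _ a => insert (h Ω a) (𝒮 Ω a) := by
  obtain ⟨ι, _, g, hg, e⟩ := hS
  refine ⟨Option ι, inferInstance, fun o => o.elim h g, fun o => ?_, fun Ω _ _ a => ?_⟩
  · cases o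
    · exact hh
    · exact hg _
  · simp only [e]
    ext G
    constructor
    · rintro (rfl | ⟨j, rfl⟩)
      · exact ⟨none, rfl⟩
      · exact ⟨some j, rfl⟩
    · rintro ⟨_ | j, rfl⟩
      · exact Or.inl rfl
      · exact Or.inr ⟨j, rfl⟩

theorem eEq {f g : Sc k σ} (hf : IsP k f) (hg : IsP k g) : IsEx k σ fun Ω _ _ a => f Ω a = g Ω a := by
  obtain ⟨e, he⟩ := hf
  obtain ⟨e', he'⟩ := hg
  refine ExL.exCongr (ExL.exEq σ (e - e')) fun Ω _ _ a => ?_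
  simp only [he, he', map_sub, sub_eq_zero, ph_apply]

theorem eNe {f g : Sc k σ} (hf : IsP k f) (hg : IsP k g) : IsEx k σ fun Ω _ _ a => f Ω a ≠ g Ω a := by
  obtain ⟨e, he⟩ := hf
  obtain ⟨e', he'⟩ := hg
  refine ExL.exCongr (ExL.exNe σ (e - e')) fun Ω _ _ a => ?_
  simp only [he, he', map_sub, ne_eq, sub_eq_zero, ph_apply]

theorem eAll {ι : Type} [Finite ι]
    {q : ι → ∀ (Ω : Type u) [Field Ω] [Algebra k Ω], (σ → Ω) → Prop} (h : ∀ i, IsEx k σ (q i)) :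
    IsEx k σ fun Ω _ _ a => ∀ i, q i Ω a := (rExL k).all σ ι q h

theorem eAny {ι : Type} [Finite ι]
    {q : ι → ∀ (Ω : Type u) [Field Ω] [Algebra k Ω], (σ → Ω) → Prop} (h : ∀ i, IsEx k σ (q i)) :
    IsEx k σ fun Ω _ _ a => ∃ i, q i Ω a := (rExL k).any σ ι q h

theorem eEx {τ : Type} [Finite τ]
    {q : ∀ (Ω : Type u) [Field Ω] [Algebra k Ω], (σ → Ω) → (τ → Ω) → Prop}
    (h : IsEx k (σ ⊕ τ) fun Ω _ _ b => q Ω (b ∘ Sum.inl) fun t => b (Sum.inr t)) :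
    IsEx k σ fun Ω _ _ a => ∃ v, q Ω a v := ExL.exEx h

theorem eExm (m : ℕ) {τ : Type} [Finite τ]
    {q : ∀ (Ω : Type u) [Field Ω] [Algebra k Ω], (σ → Ω) → (Fin m → τ → Ω) → Prop}
    (h : IsEx k (σ ⊕ Fin m × τ) fun Ω _ _ b => q Ω (b ∘ Sum.inl) fun s t => b (Sum.inr (s, t))) :
    IsEx k σ fun Ω _ _ a => ∃ v, q Ω a v :=
  ExL.exCongr (ExL.exEx h) fun _ _ _ _ =>
    ⟨fun ⟨v, hv⟩ => ⟨fun s t => v (s, t), hv⟩, fun ⟨v, hv⟩ => ⟨fun p => v p.1 p.2, hv⟩⟩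

theorem eVne {ι : Type} [Finite ι] {z z' : Ve k σ ι} (hz : IsV k z) (hz' : IsV k z') :
    IsEx k σ fun Ω _ _ a => z Ω a ≠ z' Ω a :=
  ExL.exCongr (eAny fun j => eNe (hz j) (hz' j)) fun _ _ _ _ => Function.ne_iff.symm

theorem eMem {𝒮 : Se k σ N} (hS : IsS k 𝒮)
    {q : ∀ (Ω : Type u) [Field Ω] [Algebra k Ω], (σ → Ω) → Pol Ω N → Prop}
    (h : ∀ g : Po k σ N, IsH k g → IsEx k σ fun Ω _ _ a => q Ω a (g Ω a)) :
    IsEx k σ fun Ω _ _ a => ∀ G ∈ 𝒮 Ω a, q Ω a G := by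
  obtain ⟨ι, _, g, hg, e⟩ := hS
  refine ExL.exCongr (eAll fun j => h (g j) (hg j)) fun Ω _ _ a => ?_
  rw [e, Set.forall_mem_range]

theorem eNrm {z : Ve k σ (Fin (N + 1))} (hz : IsV k z) (i : Fin (N + 1)) :
    IsEx k σ fun Ω _ _ a => Nrm (z Ω a) i :=
  ExL.exAnd (eEq (hz i) pOne) (ExL.exCongr (eAll fun j : {j // j < i} => eEq (hz j) pZero)
    fun _ _ _ _ => Subtype.forall)

theorem eOnV {𝒮 : Se k σ N} {z : Ve k σ (Fin (N + 1))} (hS : IsS k 𝒮) (hz : IsV k z) :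
    IsEx k σ fun Ω _ _ a => OnV (𝒮 Ω a) (z Ω a) :=
  eMem hS (q := fun Ω _ _ a G => eval (z Ω a) G = 0) fun _ hg => eEq (hg.eval hz) pZero

theorem eTan {𝒮 : Se k σ N} {z τ : Ve k σ (Fin (N + 1))} (hS : IsS k 𝒮) (hz : IsV k z) (hτ : IsV k τ)
    (i : Fin (N + 1)) : IsEx k σ fun Ω _ _ a => Tan (𝒮 Ω a) (z Ω a) i (τ Ω a) :=
  ExL.exAnd (eEq (hτ i) pZero)
    (eMem hS (q := fun Ω _ _ a G => dEv (z Ω a) G (τ Ω a) = 0) fun _ hg =>
      eEq (hg.dEv hz hτ) pZero)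

theorem eVan (j : ℕ) {h : Po k σ N} {z τ υ : Ve k σ (Fin (N + 1))} (hh : IsH k h) (hz : IsV k z)
    (hτ : IsV k τ) (hυ : IsV k υ) :
    IsEx k σ fun Ω _ _ a => Van j (h Ω a) (z Ω a) (τ Ω a) (υ Ω a) := by
  refine ExL.exCongr (eAll fun d : Fin j => eEq (hh.coeff hz hτ hυ d) pZero) fun Ω _ _ a => ?_
  unfold Van
  rw [Polynomial.X_pow_dvd_iff]
  exact ⟨fun h d hd => h ⟨d, hd⟩, fun h d => h d d.2⟩

theorem eJet {𝒮 : Se k σ N} {z τ υ : Ve k σ (Fin (N + 1))} (hS : IsS k 𝒮) (hz : IsV k z) (hτ : IsV k τ)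
    (hυ : IsV k υ) (i l : Fin (N + 1)) :
    IsEx k σ fun Ω _ _ a => IsJet (𝒮 Ω a) i l (z Ω a) (τ Ω a) (υ Ω a) :=
  ExL.exAnd (eNrm hz i) <| ExL.exAnd (eEq (hτ i) pZero) <| ExL.exAnd (eEq (hυ i) pZero) <|
    ExL.exAnd (eEq (hτ l) pOne) <| ExL.exAnd (eEq (hυ l) pZero) <|
      eMem hS (q := fun Ω _ _ a G => Van 3 G (z Ω a) (τ Ω a) (υ Ω a)) fun _ hg =>
        eVan 3 hg hz hτ hυ

theorem dual_iff {Ω : Type u} [Field Ω] {ι : Type} [Fintype ι] {n : ℕ} (v : Fin n → Ω)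
    (w : ι → Fin n → Ω) :
    (∀ τ : Fin n → Ω, (∀ s, ∑ j, w s j * τ j = 0) → ∑ j, v j * τ j = 0) ↔
      ∃ c : ι → Ω, ∀ j, v j = ∑ s, c s * w s j := by
  constructor
  · intro h
    let F : (Fin n → Ω) → (Fin n → Ω) →ₗ[Ω] Ω := fun y => Fintype.linearCombination Ω y
    have hF : ∀ y τ, F y τ = ∑ j, y j * τ j := fun y τ => by
      simp only [F, Fintype.linearCombination_apply, smul_eq_mul, mul_comm]
    have key : F v ∈ Submodule.span Ω (Set.range fun s => F (w s)) := by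
      refine mem_span_of_iInf_ker_le_ker fun τ hτ => ?_
      rw [LinearMap.mem_ker, hF]
      refine h τ fun s => ?_
      rw [← hF]
      exact (Submodule.mem_iInf _).mp hτ s
    obtain ⟨c, hc⟩ := (Submodule.mem_span_range_iff_exists_fun Ω).mp key
    refine ⟨c, fun j => ?_⟩
    have := LinearMap.congr_fun hc (Pi.single j 1)
    simpa [hF, Pi.single_apply] using this.symm
  · rintro ⟨c, hc⟩ τ hτ
    simp only [hc, Finset.sum_mul, mul_assoc]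
    rw [Finset.sum_comm]
    exact Finset.sum_eq_zero fun s _ => by rw [← Finset.mul_sum, hτ s, mul_zero]

theorem eKer {𝒮 : Se k σ N} {h : Po k σ N} {z : Ve k σ (Fin (N + 1))} (hS : IsS k 𝒮) (hh : IsH k h)
    (hz : IsV k z) : IsEx k σ fun Ω _ _ a =>
      ∀ τ, (∀ G ∈ 𝒮 Ω a, dEv (z Ω a) G τ = 0) → dEv (z Ω a) (h Ω a) τ = 0 := by
  obtain ⟨ι, _, g, hg, e⟩ := hS
  refine ExL.exCongr (eEx (τ := ι) (q := fun Ω _ _ a c => ∀ j,
    eval (z Ω a) (pderiv j (h Ω a)) = ∑ s, c s * eval (z Ω a) (pderiv j (g s Ω a)))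
    (eAll fun j => eEq ((hh.pderiv j).eval hz).lift
      (pSum fun s => (pVar (Sum.inr s)).mul (((hg s).pderiv j).eval hz).lift))) fun Ω _ _ a => ?_
  simp only [e, Set.forall_mem_range]
  exact (dual_iff _ _).symm

theorem dEv_X {Ω : Type u} [Field Ω] (z τ : Fin (N + 1) → Ω) (i : Fin (N + 1)) :
    dEv z (X i : Pol Ω N) τ = τ i := by
  simp [dEv, pderiv_X, Pi.single_apply, apply_ite]

theorem vInr {m : ℕ} {τ : Type} (s : Fin m) :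
    IsV k (σ := σ ⊕ Fin m × τ) fun _ _ _ b t => b (Sum.inr (s, t)) := fun _ => pVar _

theorem eSing {𝒮 : Se k σ N} {h : Po k σ N} (hS : IsS k 𝒮) (hh : IsH k h) :
    IsEx k σ fun Ω _ _ a => Sing (𝒮 Ω a) (h Ω a) := by
  refine eAny fun i => eEx (q := fun Ω _ _ a z => Nrm z i ∧ OnV (𝒮 Ω a) z ∧ eval z (h Ω a) = 0 ∧
    ∀ τ, Tan (𝒮 Ω a) z i τ → dEv z (h Ω a) τ = 0) ?_
  have hz : IsV k (σ := σ ⊕ Fin (N + 1)) fun _ _ _ b t => b (Sum.inr t) := fun _ => pVar _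
  refine ExL.exAnd (eNrm hz i) <| ExL.exAnd (eOnV hS.lift hz) <|
    ExL.exAnd (eEq (hh.lift.eval hz) pZero) <|
      ExL.exCongr (eKer (hS.lift.ins (hX i)) hh.lift hz) fun Ω _ _ b => ?_
  simp only [Set.forall_mem_insert, dEv_X, Tan]

theorem eBad1 {𝒮 : Se k σ N} {h h' : Po k σ N} (hS : IsS k 𝒮) (hh : IsH k h) (hh' : IsH k h') :
    IsEx k σ fun Ω _ _ a => Bad1 (𝒮 Ω a) (h Ω a) (h' Ω a) := by
  refine ExL.exCongr (eAny fun i => eAny fun l => eExm 5 (q := fun Ω _ _ a v =>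
    (v 3 0 = 1 ∨ v 4 0 = 1) ∧ IsJet (𝒮 Ω a) i l (v 0) (v 1) (v 2) ∧
      Van 3 (C (v 3 0) * h Ω a + C (v 4 0) * h' Ω a) (v 0) (v 1) (v 2)) ?_) fun Ω _ _ a => ?_
  · exact ExL.exAnd (ExL.exOr (eEq (pVar _) pOne) (eEq (pVar _) pOne)) <|
      ExL.exAnd (eJet hS.lift (vInr 0) (vInr 1) (vInr 2) i l)
        (eVan 3 (hCmb (pVar _) (pVar _) hh.lift hh'.lift) (vInr 0) (vInr 1) (vInr 2))
  · constructor
    · rintro ⟨i, l, v, h1, h2⟩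
      exact ⟨_, _, h1, i, l, _, _, _, h2⟩
    · rintro ⟨α, β, h1, i, l, z, τ, υ, h2⟩
      exact ⟨i, l, ![z, τ, υ, fun _ => α, fun _ => β], h1, h2⟩

theorem eBad2 {r : ℕ} {𝒮 : Se k σ N} {h h' : Po k σ N} {w : Fin r → Ve k σ (Fin (N + 1))}
    (hS : IsS k 𝒮) (hw : ∀ s, IsV k (w s)) (hh : IsH k h) (hh' : IsH k h') :
    IsEx k σ fun Ω _ _ a => Bad2 (𝒮 Ω a) (fun s => w s Ω a) (h Ω a) (h' Ω a) := by
  refine ExL.exCongr (eAny fun i => eAny fun l => eAny fun i' => eAny fun l' =>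
    eExm 8 (q := fun Ω _ _ a v =>
    (v 6 0 = 1 ∨ v 7 0 = 1) ∧ IsJet (𝒮 Ω a) i l (v 0) (v 1) (v 2) ∧
      IsJet (𝒮 Ω a) i' l' (v 3) (v 4) (v 5) ∧ v 0 ≠ v 3 ∧ (∀ s, v 0 ≠ w s Ω a) ∧
      (∀ s, v 3 ≠ w s Ω a) ∧
      Van 2 (C (v 6 0) * h Ω a + C (v 7 0) * h' Ω a) (v 0) (v 1) (v 2) ∧
      Van 2 (C (v 6 0) * h Ω a + C (v 7 0) * h' Ω a) (v 3) (v 4) (v 5)) ?_) fun Ω _ _ a => ?_
  · exact ExL.exAnd (ExL.exOr (eEq (pVar _) pOne) (eEq (pVar _) pOne)) <|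
      ExL.exAnd (eJet hS.lift (vInr 0) (vInr 1) (vInr 2) i l) <|
      ExL.exAnd (eJet hS.lift (vInr 3) (vInr 4) (vInr 5) i' l') <|
      ExL.exAnd (eVne (vInr 0) (vInr 3)) <|
      ExL.exAnd (eAll fun s => eVne (vInr 0) (hw s).lift) <|
      ExL.exAnd (eAll fun s => eVne (vInr 3) (hw s).lift) <|
      ExL.exAnd (eVan 2 (hCmb (pVar _) (pVar _) hh.lift hh'.lift) (vInr 0) (vInr 1) (vInr 2))
        (eVan 2 (hCmb (pVar _) (pVar _) hh.lift hh'.lift) (vInr 3) (vInr 4) (vInr 5))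
  · constructor
    · rintro ⟨i, l, i', l', v, h1, h2⟩
      exact ⟨_, _, h1, i, l, _, _, _, i', l', _, _, _, h2⟩
    · rintro ⟨α, β, h1, i, l, z, τ, υ, i', l', z', τ', υ', h2⟩
      exact ⟨i, l, i', l', ![z, τ, υ, z', τ', υ', fun _ => α, fun _ => β], h1, h2⟩

theorem eBad3 {r : ℕ} {𝒮 : Se k σ N} {h h' : Po k σ N} {w : Fin r → Ve k σ (Fin (N + 1))}
    (hS : IsS k 𝒮) (hw : ∀ s, IsV k (w s)) (hh : IsH k h) (hh' : IsH k h') :
    IsEx k σ fun Ω _ _ a => Bad3 (𝒮 Ω a) (fun s => w s Ω a) (h Ω a) (h' Ω a) := by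
  refine eAny fun i => eEx (q := fun Ω _ _ a z => Nrm z i ∧ OnV (𝒮 Ω a) z ∧
    (∀ s, z ≠ w s Ω a) ∧ eval z (h Ω a) = 0 ∧ eval z (h' Ω a) = 0) ?_
  have hz : IsV k (σ := σ ⊕ Fin (N + 1)) fun _ _ _ b t => b (Sum.inr t) := fun _ => pVar _
  exact ExL.exAnd (eNrm hz i) <| ExL.exAnd (eOnV hS.lift hz) <|
    ExL.exAnd (eAll fun s => eVne hz (hw s).lift) <|
    ExL.exAnd (eEq (hh.lift.eval hz) pZero) (eEq (hh'.lift.eval hz) pZero)

theorem eLine {𝒮 : Se k σ N} (hS : IsS k 𝒮) : IsEx k σ fun Ω _ _ a => ¬ Line (𝒮 Ω a) := by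
  refine ExL.exCongr (eAny fun i => eExm 3 (q := fun Ω _ _ a v => Nrm (v 0) i ∧
    OnV (𝒮 Ω a) (v 0) ∧ Tan (𝒮 Ω a) (v 0) i (v 1) ∧ Tan (𝒮 Ω a) (v 0) i (v 2) ∧
    ∃ s t, v 1 s * v 2 t ≠ v 1 t * v 2 s) ?_) fun Ω _ _ a => ?_
  · exact ExL.exAnd (eNrm (vInr 0) i) <| ExL.exAnd (eOnV hS.lift (vInr 0)) <|
      ExL.exAnd (eTan hS.lift (vInr 0) (vInr 1) i) <|
      ExL.exAnd (eTan hS.lift (vInr 0) (vInr 2) i) <|
      eAny fun s => eAny fun t => eNe ((pVar _).mul (pVar _)) ((pVar _).mul (pVar _))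
  · constructor
    · rintro ⟨i, v, h1, h2, h3, h4, s, t, h5⟩ hL
      exact h5 (hL i _ _ _ h1 h2 h3 h4 s t)
    · intro hL
      unfold Line at hL
      push Not at hL
      obtain ⟨i, z, τ, τ', h⟩ := hL
      exact ⟨i, ![z, τ, τ'], h⟩

theorem ext_self (𝒢 : Finset (Pol k N)) : ext k 𝒢 = (𝒢 : Set (Pol k N)) := by
  unfold ext
  rw [Algebra.algebraMap_self]
  ext G
  simp [map_id]

end BExS

open BExS in
theorem rExS : RExS.{u} := fun _ _ _ _ 𝒢 => eSing (sExt 𝒢) (hFrm fun d => pVar d)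

open BExS in
theorem rExM : RExM.{u} := by
  intro k _ N w n r 𝒢
  have hS := (sExt (σ := Mon N w ⊕ (Fin r × Fin (N + 1)) ⊕ Mon N n ⊕ Mon N n) 𝒢).ins
    (hFrm (c := fun _ _ _ a d => a (.inl d)) fun _ => pVar _)
  have h1 : IsH k (σ := Mon N w ⊕ (Fin r × Fin (N + 1)) ⊕ Mon N n ⊕ Mon N n) _ :=
    hFrm (c := fun _ _ _ a d => a (.inr (.inr (.inl d)))) fun _ => pVar _
  have h2 : IsH k (σ := Mon N w ⊕ (Fin r × Fin (N + 1)) ⊕ Mon N n ⊕ Mon N n) _ :=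
    hFrm (c := fun _ _ _ a d => a (.inr (.inr (.inr d)))) fun _ => pVar _
  have hw : ∀ s : Fin r, IsV k (σ := Mon N w ⊕ (Fin r × Fin (N + 1)) ⊕ Mon N n ⊕ Mon N n)
      fun _ _ _ a j => a (.inr (.inl (s, j))) := fun _ _ => pVar _
  exact ExL.exOr (eBad1 hS h1 h2) (ExL.exOr (eBad2 hS hw h1 h2) (eBad3 hS hw h1 h2))

open BExS in
theorem rExN : RExN.{u} := by
  intro k _ _ N 𝒢 Ω _ _
  refine ⟨fun hL => ?_, fun Z hZ i z h1 h2 => ?_⟩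
  · by_contra hn
    have := rExD k Empty _ (eLine (sExt 𝒢)) Ω Empty.elim hn
    rw [ext_self] at this
    exact this hL
  · by_contra hn
    have hz : IsV k (σ := Empty ⊕ Fin (N + 1)) fun _ _ _ b t => b (Sum.inr t) :=
      fun _ => pVar _
    have hE : IsEx k Empty fun Ω _ _ _ => ∃ i z, Nrm z i ∧ OnV (ext Ω 𝒢) z ∧
        ∀ w ∈ Z, z ≠ fun j => algebraMap k Ω (w j) :=
      eAny fun i => eEx (q := fun Ω _ _ _ z => Nrm z i ∧ OnV (ext Ω 𝒢) z ∧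
        ∀ w ∈ Z, z ≠ fun j => algebraMap k Ω (w j)) <|
        ExL.exAnd (eNrm hz i) <| ExL.exAnd (eOnV (sExt 𝒢) hz) <|
          ExL.exAllS Z _ fun w _ => eVne hz fun j => pConst (w j)
    obtain ⟨i', z', h3, h4, h5⟩ := rExD k Empty _ hE Ω Empty.elim
      ⟨i, z, h1, h2, fun w hw e => hn ⟨w, hw, e⟩⟩
    rw [ext_self] at h4
    exact h5 z' (hZ i' z' h3 h4) rfl

end Pool.Agent.MP_f3836a_nt.PK
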