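import Pool.Agent.MP_f3836a_nt.PK.SpecA

set_option autoImplicit false

/-! Coordinates that separate tangent vectors contain a transcendence basis. -/

namespace Pool.Agent.MP_f3836a_nt.PK

open MvPolynomial IntermediateField

universe u

namespace Tr

theorem chain {k K L : Type u} [Field k] [Field K] [Field L] [Algebra k K] [Algebra k L]
    [Algebra K L] [IsScalarTower k K L] (δ : Derivation K L L) {n : ℕ} (z : Fin n → L)
    (G : MvPolynomial (Fin n) k) :
    δ (aeval z G) = ∑ j, aeval z (pderiv j G) * δ (z j) := by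
  induction G using MvPolynomial.induction_on with
  | C a =>
    rw [aeval_C, IsScalarTower.algebraMap_apply k K L, δ.map_algebraMap]
    simp
  | add p q hp hq => simp only [map_add, hp, hq, add_mul, Finset.sum_add_distrib]
  | mul_X p i hp =>
    simp only [map_mul, aeval_X, Derivation.leibniz, hp, smul_eq_mul, map_add, add_mul,
      Finset.sum_add_distrib, Finset.mul_sum, mul_assoc]
    congr 1
    rw [Finset.sum_eq_single i (fun j _ hj => by rw [pderiv_X_of_ne hj.symm]; simp)
      fun h => absurd (Finset.mem_univ i) h]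
    simp

theorem alg {K L : Type u} [Field K] [Field L] [Algebra K L] {n : ℕ} (z : Fin n → L)
    (hz : adjoin K (Set.range z) = ⊤) (h : ∀ (δ : Derivation K L L) j, δ (z j) = 0) :
    Algebra.IsAlgebraic K L := by
  have : Algebra.EssFiniteType K L :=
    fg_top_iff.1 (hz ▸ fg_adjoin_of_finite (Set.finite_range z))
  have h1 : ∀ j, KaehlerDifferential.D K L (z j) = 0 := fun j =>
    (Module.forall_dual_apply_eq_zero_iff L _).1 fun φ =>
      h (φ.compDer (KaehlerDifferential.D K L)) j
  have h2 : ∀ x ∈ adjoin K (Set.range z), KaehlerDifferential.D K L x = 0 := by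
    intro x hx
    induction hx using adjoin_induction with
    | mem x hx =>
      obtain ⟨j, rfl⟩ := hx
      exact h1 j
    | algebraMap a => exact Derivation.map_algebraMap _ a
    | add x y hx hy h h' => rw [map_add, h, h', add_zero]
    | inv x hx h => rw [Derivation.leibniz_inv, h, smul_zero]
    | mul x y hx hy h h' => rw [Derivation.leibniz, h, h', smul_zero, smul_zero, add_zero]
  have : Algebra.FormallyUnramified K L := ⟨subsingleton_of_forall_eq 0 fun w => by
    have h3 : (⊤ : Submodule L Ω[L⁄K]) ≤ ⊥ := by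
      rw [← KaehlerDifferential.span_range_derivation, Submodule.span_le]
      rintro _ ⟨x, rfl⟩
      exact h2 x (hz ▸ mem_top)
    exact h3 Submodule.mem_top⟩
  have := Algebra.FormallyUnramified.finite_of_free K L
  infer_instance

theorem alg' {K Ω : Type u} [Field K] [Field Ω] [Algebra K Ω] {n : ℕ} (z : Fin n → Ω)
    (h : ∀ (L : Type u) [Field L] [Algebra K L] (ι : L →ₐ[K] Ω) (z' : Fin n → L),
      (∀ j, ι (z' j) = z j) → ∀ (δ : Derivation K L L) j, δ (z' j) = 0) (j : Fin n) :
    IsAlgebraic K (z j) := by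
  let L := adjoin K (Set.range z)
  let z' : Fin n → L := fun j => ⟨z j, subset_adjoin _ _ ⟨j, rfl⟩⟩
  have := alg z' (lift_injective L (by
    rw [lift_adjoin, lift_top, ← Set.range_comp]
    rfl)) (h L L.val z' fun _ => rfl)
  exact (Algebra.IsAlgebraic.isAlgebraic (R := K) (z' j)).algHom L.val

theorem main {k K Ω : Type u} [Field k] [Field K] [Field Ω] [Algebra k K] [Algebra k Ω]
    [Algebra K Ω] [IsScalarTower k K Ω] {n : ℕ} {𝒢 : Set (MvPolynomial (Fin n) k)}
    {z : Fin n → Ω} {i : Fin n} {J : Finset (Fin n)} (hi : z i = 1) (hG : ∀ G ∈ 𝒢, aeval z G = 0)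
    (hτ : ∀ τ : Fin n → Ω, τ i = 0 → (∀ j ∈ J, τ j = 0) →
      (∀ G ∈ 𝒢, dEv z (map (algebraMap k Ω) G) τ = 0) → τ = 0)
    (hJ : ∀ j ∈ J, ∃ a, algebraMap K Ω a = z j) : ∀ x ∈ adjoin k (Set.range z), IsAlgebraic K x := by
  have h1 : ∀ j, IsAlgebraic K (z j) := by
    refine alg' z fun L _ _ ι z' hz δ j => ?_
    let _ : Algebra k L := ((algebraMap K L).comp (algebraMap k K)).toAlgebra
    have : IsScalarTower k K L := IsScalarTower.of_algebraMap_eq fun _ => rfl
    have hι : Function.Injective ι := ι.injective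
    have hv : ∀ G : MvPolynomial (Fin n) k, ι (aeval z' G) = aeval z G := fun G => by
      rw [← funext hz]
      exact DFunLike.congr_fun (comp_aeval z' (ι.restrictScalars k)) G
    have h2 := hτ (fun j => ι (δ (z' j))) (by
        rw [show z' i = 1 from hι (by rw [hz, hi, map_one]), δ.map_one_eq_zero, map_zero])
      (fun j hj => by
        obtain ⟨a, ha⟩ := hJ j hj
        rw [show z' j = algebraMap K L a from hι (by rw [hz, ← ha, ι.commutes]),
          δ.map_algebraMap, map_zero])
      fun G hg => by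
        have h3 := chain δ z' G
        rw [show aeval z' G = 0 from hι (by rw [hv, hG G hg, map_zero]), map_zero] at h3
        have h4 := congrArg ι h3
        rw [map_zero, map_sum] at h4
        rw [dEv, h4]
        refine Finset.sum_congr rfl fun j _ => ?_
        rw [pderiv_map, eval_map, ← aeval_def, map_mul, hv]
    exact hι ((congrFun h2 j).trans (map_zero ι).symm)
  intro x hx
  refine mem_algebraicClosure_iff.1
    ((adjoin_le_iff (T := (algebraicClosure K Ω).restrictScalars k)).2 ?_ hx)
  rintro _ ⟨j, rfl⟩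
  exact mem_algebraicClosure_iff.2 (h1 j)

end Tr

theorem rTr : RTr.{u} := by
  intro k Ω _ _ _ n 𝒢 z i J hi hG hτ x hx
  rw [← isAlgebraic_adjoin_iff]
  exact Tr.main hi hG hτ (fun j hj => ⟨⟨z j, subset_adjoin _ _ ⟨j, hj, rfl⟩⟩, rfl⟩) x hx

end Pool.Agent.MP_f3836a_nt.PK
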