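import Pool.Agent.MP_f3836a_nt.PK.SpecB
import Pool.Agent.MP_f3836a_nt.PK.Tr

set_option autoImplicit false

/-! The field of definition of a jet. -/

namespace Pool.Agent.MP_f3836a_nt.PK

open MvPolynomial IntermediateField

universe u

namespace BJetF

variable {Ω : Type u} [Field Ω] {N : ℕ}

theorem dEv_C (z τ : Fin (N + 1) → Ω) (a : Ω) : dEv z (C a) τ = 0 := by simp [dEv]

theorem dEv_add (z τ : Fin (N + 1) → Ω) (p q : Pol Ω N) :
    dEv z (p + q) τ = dEv z p τ + dEv z q τ := by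
  simp [dEv, add_mul, Finset.sum_add_distrib]

theorem dEv_mul_X (z τ : Fin (N + 1) → Ω) (p : Pol Ω N) (j : Fin (N + 1)) :
    dEv z (p * X j) τ = dEv z p τ * z j + eval z p * τ j := by
  simp only [dEv, Derivation.leibniz, smul_eq_mul, map_add, map_mul, eval_X, pderiv_X, add_mul,
    Finset.sum_add_distrib, Finset.sum_mul]
  rw [Finset.sum_eq_single j (fun b _ hb => by simp [hb.symm]) (by simp), add_comm]
  simp only [Pi.single_eq_same, map_one, mul_one, add_left_inj]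
  exact Finset.sum_congr rfl fun _ _ => by ring

theorem dEv_sub (z τ τ' : Fin (N + 1) → Ω) (p : Pol Ω N) :
    dEv z p (τ - τ') = dEv z p τ - dEv z p τ' := by
  simp [dEv, mul_sub, Finset.sum_sub_distrib]

theorem co (A : Polynomial Ω) (z τ υ : Fin (N + 1) → Ω) (j : Fin (N + 1)) :
    (A * arc z τ υ j).coeff 0 = A.coeff 0 * z j ∧
    (A * arc z τ υ j).coeff 1 = A.coeff 1 * z j + A.coeff 0 * τ j ∧
    (A * arc z τ υ j).coeff 2 = A.coeff 2 * z j + A.coeff 1 * τ j + A.coeff 0 * υ j := by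
  simp [arc, mul_add, ← mul_assoc, Polynomial.coeff_mul_X_pow', Polynomial.coeff_mul_X]

theorem c0 (z τ υ : Fin (N + 1) → Ω) (p : Pol Ω N) :
    (aeval (arc z τ υ) p).coeff 0 = eval z p := by
  induction p using MvPolynomial.induction_on with
  | C a => simp
  | add p q hp hq => simp [hp, hq]
  | mul_X p j hp => rw [map_mul, aeval_X, (co _ z τ υ j).1, hp, map_mul, eval_X]

theorem c1 (z τ υ : Fin (N + 1) → Ω) (p : Pol Ω N) :
    (aeval (arc z τ υ) p).coeff 1 = dEv z p τ := by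
  induction p using MvPolynomial.induction_on with
  | C a => simp [dEv_C]
  | add p q hp hq => simp [hp, hq, dEv_add]
  | mul_X p j hp => rw [map_mul, aeval_X, (co _ z τ υ j).2.1, hp, c0, dEv_mul_X]

variable {k : Type u} [Field k] [Algebra k Ω] (L : IntermediateField k Ω)

theorem pd_mem {z : Fin (N + 1) → Ω} (hz : ∀ j, z j ∈ L) (p : Pol k N) (j : Fin (N + 1)) :
    eval z (pderiv j (map (algebraMap k Ω) p)) ∈ L := by
  rw [pderiv_map, eval_map]
  exact eval₂_mem (fun _ _ => L.algebraMap_mem _) hz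

theorem c2 {z τ : Fin (N + 1) → Ω} (hz : ∀ j, z j ∈ L) (hτ : ∀ j, τ j ∈ L)
    (υ : Fin (N + 1) → Ω) (p : Pol k N) : ∃ q ∈ L,
    (aeval (arc z τ υ) (map (algebraMap k Ω) p)).coeff 2 =
      dEv z (map (algebraMap k Ω) p) υ + q := by
  induction p using MvPolynomial.induction_on with
  | C a => exact ⟨0, zero_mem _, by simp [dEv_C]⟩
  | add p q hp hq =>
    obtain ⟨a, ha, h1⟩ := hp
    obtain ⟨b, hb, h2⟩ := hq
    exact ⟨a + b, add_mem ha hb, by
      rw [map_add, map_add, Polynomial.coeff_add, h1, h2, dEv_add]; ring⟩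
  | mul_X p j hp =>
    obtain ⟨a, ha, h1⟩ := hp
    refine ⟨a * z j + dEv z (map (algebraMap k Ω) p) τ * τ j, add_mem (mul_mem ha (hz j))
      (mul_mem (sum_mem fun i _ => mul_mem (pd_mem L hz p i) (hτ i)) (hτ j)), ?_⟩
    rw [map_mul, map_X, map_mul, aeval_X, (co _ z τ υ j).2.2, h1, c0, c1, dEv_mul_X]
    ring

theorem retr : ∃ g : Ω →+ Ω, (∀ x, g x ∈ L) ∧ (∀ x ∈ L, g x = x) ∧
    ∀ c ∈ L, ∀ x, g (c * x) = c * g x := by
  obtain ⟨g, hg⟩ := (Algebra.linearMap L Ω).exists_leftInverse_of_injective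
    (LinearMap.ker_eq_bot.2 (algebraMap L Ω).injective)
  refine ⟨((Algebra.linearMap L Ω).comp g).toAddMonoidHom, fun x => (g x).2, fun x hx => ?_,
    fun c hc x => ((Algebra.linearMap L Ω).comp g).map_smul ⟨c, hc⟩ x⟩
  exact congrArg Subtype.val (LinearMap.congr_fun hg ⟨x, hx⟩)

end BJetF

open BJetF in
theorem rJetF : RJetF.{u} := by
  intro k _ N 𝒢 Ω _ _ hL
  refine ⟨fun i z hi hz => ?_, fun i l z τ υ ⟨hi, τi, υi, τl, υl, hV⟩ => ?_⟩
  · obtain ⟨l, hl⟩ : ∃ l, ∀ τ, Tan (ext Ω 𝒢) z i τ → τ l = 0 → τ = 0 := by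
      by_cases h : ∃ τ l, Tan (ext Ω 𝒢) z i τ ∧ τ l ≠ 0
      · obtain ⟨τ', l, h1, h2⟩ := h
        refine ⟨l, fun τ h3 h4 => funext fun a => ?_⟩
        have := hL i z τ τ' hi hz h3 h1 a l
        rw [h4, zero_mul] at this
        exact (mul_eq_zero.1 this).resolve_right h2
      · exact ⟨i, fun τ h3 _ => funext fun a => by_contra fun h4 => h ⟨τ, a, h3, h4⟩⟩
    refine ⟨l, fun j => ?_⟩
    have := rTr k Ω (N + 1) 𝒢 z i {l} hi.1
      (fun G hG => by rw [aeval_def, ← eval_map]; exact hz _ ⟨G, hG, rfl⟩)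
      (fun τ h1 h2 h3 => hl τ ⟨h1, by rintro _ ⟨G, hG, rfl⟩; exact h3 G hG⟩
        (h2 l (Finset.mem_singleton_self l))) (z j) (subset_adjoin _ _ ⟨j, rfl⟩)
    rwa [Finset.coe_singleton, Set.image_singleton] at this
  · have hc : ∀ G ∈ ext Ω 𝒢, ∀ d < 3, (aeval (arc z τ υ) G).coeff d = 0 := fun G hG =>
      Polynomial.X_pow_dvd_iff.1 (hV G hG)
    have hz : OnV (ext Ω 𝒢) z := fun G hG => (c0 z τ υ G).symm.trans (hc G hG 0 (by decide))
    have hτ : Tan (ext Ω 𝒢) z i τ :=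
      ⟨τi, fun G hG => (c1 z τ υ G).symm.trans (hc G hG 1 (by decide))⟩
    have zL : ∀ j, z j ∈ adjoin k (Set.range z) := fun j => subset_adjoin _ _ ⟨j, rfl⟩
    obtain ⟨g, g1, g2, g3⟩ := retr (adjoin k (Set.range z))
    have hg : ∀ (G : Pol k N) (σ : Fin (N + 1) → Ω),
        dEv z (map (algebraMap k Ω) G) (fun j => g (σ j)) =
          g (dEv z (map (algebraMap k Ω) G) σ) := fun G σ => by
      rw [dEv, dEv, map_sum]
      exact Finset.sum_congr rfl fun j _ => (g3 _ (pd_mem _ zL G j) _).symm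
    have key : ∀ σ : Fin (N + 1) → Ω, σ i = 0 → σ l ∈ adjoin k (Set.range z) →
        (∀ G ∈ 𝒢, dEv z (map (algebraMap k Ω) G) σ ∈ adjoin k (Set.range z)) →
        ∀ j, σ j ∈ adjoin k (Set.range z) := fun σ h1 h2 h3 j => by
      have := hL i z (σ - fun j => g (σ j)) τ hi hz ⟨by simp [h1], by
        rintro _ ⟨G, hG, rfl⟩
        rw [dEv_sub, hg, g2 _ (h3 G hG), sub_self]⟩ hτ j l
      simp only [Pi.sub_apply, τl, mul_one, g2 _ h2, sub_self, zero_mul, sub_eq_zero] at this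
      exact this ▸ g1 _
    have τL := key τ τi (τl ▸ one_mem _) fun G hG => (hτ.2 _ ⟨G, hG, rfl⟩).symm ▸ zero_mem _
    refine ⟨hz, fun j => ⟨τL j, key υ υi (υl ▸ zero_mem _) (fun G hG => ?_) j⟩⟩
    obtain ⟨q, hq, h⟩ := c2 _ zL τL υ G
    rw [hc _ ⟨G, hG, rfl⟩ 2 (by decide)] at h
    rw [eq_neg_of_add_eq_zero_left h.symm]
    exact neg_mem hq

end Pool.Agent.MP_f3836a_nt.PK
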