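import Pool.Agent.MP_f3836a_nt.PK.SpecA

set_option autoImplicit false

namespace Pool.Agent.MP_f3836a_nt.PK

universe u

namespace Bomb

variable {k L : Type u} [Field k] [Field L] [Algebra k L]

theorem ord_one (h : PlA k L) (P : Place k L) : P.ord 1 = 0 := by
  simpa using h.con P 1

theorem ord_neg (h : PlA k L) (P : Place k L) {f : L} (hf : f ≠ 0) : P.ord (-f) = P.ord f := by
  have h1 : P.ord (-1 : L) = 0 := by simpa using h.con P (-1)
  have := h.mul P (-1) f (by simp) hf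
  rw [neg_one_mul] at this
  omega

theorem ord_pow (h : PlA k L) (P : Place k L) {f : L} (hf : f ≠ 0) (s : ℕ) :
    P.ord (f ^ s) = s * P.ord f := by
  induction s with
  | zero => simpa using ord_one h P
  | succ s ih =>
    rw [pow_succ, h.mul P _ _ (pow_ne_zero _ hf) hf, ih]
    push_cast
    ring

theorem ord_smul (h : PlA k L) (P : Place k L) {f : L} (hf : f ≠ 0) {a : k} (ha : a ≠ 0) :
    P.ord (a • f) = P.ord f := by
  rw [Algebra.smul_def, h.mul P _ _ (by simpa using ha) hf, h.con, zero_add]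

/-- zero or of order above `μ` -/
def Gt (P : Place k L) (μ : ℤ) (f : L) : Prop := f = 0 ∨ μ < P.ord f

theorem Gt.add (h : PlA k L) {P : Place k L} {μ : ℤ} {f g : L} (hf : Gt P μ f) (hg : Gt P μ g) :
    Gt P μ (f + g) := by
  by_cases h0 : f = 0
  · simpa [h0] using hg
  by_cases h1 : g = 0
  · simpa [h1] using hf
  by_cases h2 : f + g = 0
  · exact Or.inl h2
  have h3 := h.add P f g h0 h1 h2
  have h4 := hf.resolve_left h0
  have h5 := hg.resolve_left h1
  exact Or.inr (lt_of_lt_of_le (lt_min h4 h5) h3)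

theorem Gt.sum (h : PlA k L) {P : Place k L} {μ : ℤ} {ι : Type*} (s : Finset ι) (f : ι → L)
    (hf : ∀ j ∈ s, Gt P μ (f j)) : Gt P μ (∑ j ∈ s, f j) :=
  Finset.sum_induction f (Gt P μ) (fun _ _ ha hb => ha.add h hb) (Or.inl rfl) hf

theorem sum_ne_zero (h : PlA k L) (P : Place k L) {ι : Type*} [Fintype ι] (f : ι → L)
    (hinj : ∀ i j, f i ≠ 0 → f j ≠ 0 → P.ord (f i) = P.ord (f j) → i = j)
    (hne : ∃ i, f i ≠ 0) : ∑ j, f j ≠ 0 := by
  classical
  obtain ⟨i₁, hi₁⟩ := hne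
  obtain ⟨i, hi, hmin⟩ := Finset.exists_min_image (Finset.univ.filter fun j => f j ≠ 0)
    (fun j => P.ord (f j)) ⟨i₁, by simpa using hi₁⟩
  have hi0 : f i ≠ 0 := by simpa using hi
  have hg : Gt P (P.ord (f i)) (∑ j ∈ Finset.univ.erase i, f j) := by
    refine Gt.sum h _ _ fun j hj => ?_
    by_cases hj0 : f j = 0
    · exact Or.inl hj0
    · refine Or.inr (lt_of_le_of_ne (hmin j (by simpa using hj0)) fun he => ?_)
      exact (Finset.ne_of_mem_erase hj) (hinj i j hi0 hj0 he).symm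
  intro h0
  rw [← Finset.add_sum_erase _ _ (Finset.mem_univ i)] at h0
  have he : ∑ j ∈ Finset.univ.erase i, f j = -f i := by linear_combination h0
  rw [he] at hg
  rcases hg with hg | hg
  · exact hi0 (neg_eq_zero.mp hg)
  · rw [ord_neg h P hi0] at hg
    exact lt_irrefl _ hg

/-- the elements of `W` of order above `μ` -/
def above (h : PlA k L) (P : Place k L) (μ : ℤ) (W : Submodule k L) : Submodule k L where
  carrier := {g | g ∈ W ∧ Gt P μ g}
  zero_mem' := ⟨W.zero_mem, Or.inl rfl⟩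
  add_mem' := fun ha hb => ⟨W.add_mem ha.1 hb.1, ha.2.add h hb.2⟩
  smul_mem' := fun a g hg => by
    refine ⟨W.smul_mem a hg.1, ?_⟩
    by_cases ha : a = 0
    · exact Or.inl (by simp [ha])
    by_cases h0 : g = 0
    · exact Or.inl (by simp [h0])
    refine Or.inr ?_
    rw [ord_smul h P h0 ha]
    exact hg.2.resolve_left h0

theorem le_above_sup (h : PlA k L) (P : Place k L) (W : Submodule k L) {f : L} (hfW : f ∈ W)
    (hf : f ≠ 0) (hmin : ∀ g ∈ W, g ≠ 0 → P.ord f ≤ P.ord g) :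
    W ≤ above h P (P.ord f) W ⊔ Submodule.span k {f} := by
  intro g hg
  by_cases h0 : g = 0
  · rw [h0]; exact Submodule.zero_mem _
  have hq : g / f ≠ 0 := div_ne_zero h0 hf
  have h1 : P.ord g = P.ord (g / f) + P.ord f := by
    rw [← h.mul P _ _ hq hf, div_mul_cancel₀ _ hf]
  have h2 : g / f ∈ P.V := (h.mem P _ hq).2 (by have := hmin g hg h0; omega)
  have h3 := (h.val P _ h2 (P.val (g / f))).2 rfl
  set a := P.val (g / f)
  have h4 : g - a • f = (g / f - algebraMap k L a) * f := by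
    rw [Algebra.smul_def]; field_simp
  have h5 : g - a • f ∈ above h P (P.ord f) W := by
    refine ⟨W.sub_mem hg (W.smul_mem a hfW), ?_⟩
    rw [h4]
    by_cases h6 : g / f - algebraMap k L a = 0
    · exact Or.inl (by rw [h6, zero_mul])
    · refine Or.inr ?_
      rw [h.mul P _ _ h6 hf]
      have := h3.resolve_left h6
      omega
  have h7 : g = (g - a • f) + a • f := by abel
  rw [h7]
  exact Submodule.add_mem_sup h5 (Submodule.smul_mem _ a (Submodule.mem_span_singleton_self f))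

theorem orders (h : PlA k L) (P : Place k L) (N : ℕ) : ∀ (W : Submodule k L),
    FiniteDimensional k W → (∀ g ∈ W, g ≠ 0 → 0 ≤ P.ord g) → N ≤ Module.finrank k W →
    ∃ S : Finset ℤ, S.card = N ∧ ∀ s ∈ S, ∃ g ∈ W, g ≠ 0 ∧ P.ord g = s := by
  induction N with
  | zero => exact fun W _ _ _ => ⟨∅, rfl, by simp⟩
  | succ N ih =>
    intro W hW h0 hN
    have hne : W ≠ ⊥ := by
      rintro rfl
      simp at hN
    obtain ⟨g₀, hg₀, hg₀0⟩ := Submodule.exists_mem_ne_zero_of_ne_bot hne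
    obtain ⟨μ, ⟨f, hfW, hf, hμ⟩, hmin⟩ := Int.exists_least_of_bdd
      (P := fun s => ∃ g ∈ W, g ≠ 0 ∧ P.ord g = s)
      ⟨0, by rintro s ⟨g, hg, hg0, rfl⟩; exact h0 g hg hg0⟩ ⟨_, g₀, hg₀, hg₀0, rfl⟩
    have hle : above h P (P.ord f) W ≤ W := fun g hg => hg.1
    have : FiniteDimensional k (above h P (P.ord f) W) := Submodule.finiteDimensional_of_le hle
    have h1 := le_above_sup h P W hfW hf fun g hg hg0 => hμ ▸ hmin _ ⟨g, hg, hg0, rfl⟩
    have h2 := Submodule.finrank_mono h1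
    have h3 := Submodule.finrank_add_le_finrank_add_finrank (above h P (P.ord f) W)
      (Submodule.span k {f})
    rw [finrank_span_singleton hf] at h3
    obtain ⟨S, hS, hS'⟩ := ih (above h P (P.ord f) W) inferInstance
      (fun g hg hg0 => h0 g hg.1 hg0) (by omega)
    have hn : P.ord f ∉ S := by
      intro hm
      obtain ⟨g, hg, hg0, he⟩ := hS' _ hm
      have := hg.2.resolve_left hg0
      omega
    refine ⟨insert (P.ord f) S, by rw [Finset.card_insert_of_notMem hn, hS], fun s hs => ?_⟩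
    rcases Finset.mem_insert.mp hs with rfl | hs
    · exact ⟨f, hfW, hf, rfl⟩
    · obtain ⟨g, hg, hg0, he⟩ := hS' s hs
      exact ⟨g, hg.1, hg0, he⟩

theorem pow_mem (R : ℕ → Submodule k L) (h1 : (1 : L) ∈ R 0)
    (hm : ∀ a b, ∀ f ∈ R a, ∀ g ∈ R b, f * g ∈ R (a + b)) {n : ℕ} {f : L} (hf : f ∈ R n) (s : ℕ) :
    f ^ s ∈ R (n * s) := by
  induction s with
  | zero => simpa using h1
  | succ s ih => rw [pow_succ, Nat.mul_succ]; exact hm _ _ _ ih _ hf

theorem count {d c q A B M N : ℕ} (hq : (d + 2 * c + 1) * (d + c + 1) + c + d + c + 2 ≤ q)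
    (hM : M + 1 ≤ q) (hM' : q ≤ M + d) (hN : q + (d + 2 * c + 1) ≤ N)
    (hA : M ≤ A + c) (hB : N ≤ B + c) : M * q + N + c < A * B := by
  obtain ⟨t, rfl⟩ : ∃ t, q = t + (d + c + 1) := ⟨q - (d + c + 1), by omega⟩
  obtain ⟨s, rfl⟩ : ∃ s, N = s + c := ⟨N - c, by omega⟩
  have h1 : t + 1 ≤ A := by omega
  have h2 : s ≤ B := by omega
  have h3 : (t + 1) * s ≤ A * B := Nat.mul_le_mul h1 h2
  have h4 : t * (t + (d + c + 1) + d + c + 1) ≤ t * s := Nat.mul_le_mul_left _ (by omega)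
  have h5 : (M + 1) * (t + (d + c + 1)) ≤ (t + (d + c + 1)) * (t + (d + c + 1)) :=
    Nat.mul_le_mul_right _ hM
  nlinarith

theorem val_zero (h : PlA k L) (P : Place k L) : P.val (0 : L) = 0 := by
  obtain ⟨χ, -, h2⟩ := h.hom P
  simpa using h2 0

theorem val_add (h : PlA k L) (P : Place k L) {f g : L} (hf : f ∈ P.V) (hg : g ∈ P.V) :
    P.val (f + g) = P.val f + P.val g := by
  obtain ⟨χ, h1, -⟩ := h.hom P
  have := map_add χ ⟨f, hf⟩ ⟨g, hg⟩
  rwa [h1, h1, h1] at this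

theorem val_mul (h : PlA k L) (P : Place k L) {f g : L} (hf : f ∈ P.V) (hg : g ∈ P.V) :
    P.val (f * g) = P.val f * P.val g := by
  obtain ⟨χ, h1, -⟩ := h.hom P
  have := map_mul χ ⟨f, hf⟩ ⟨g, hg⟩
  rwa [h1, h1, h1] at this

theorem val_pow (h : PlA k L) (P : Place k L) {f : L} (hf : f ∈ P.V) (s : ℕ) :
    P.val (f ^ s) = P.val f ^ s := by
  obtain ⟨χ, h1, -⟩ := h.hom P
  have := map_pow χ ⟨f, hf⟩ s
  rwa [h1, h1] at this

theorem smul_mem (P : Place k L) {f : L} (hf : f ∈ P.V) (a : k) : a • f ∈ P.V := by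
  rw [Algebra.smul_def]
  exact P.V.mul_mem _ _ (P.const a) hf

theorem val_smul (h : PlA k L) (P : Place k L) {f : L} (hf : f ∈ P.V) (a : k) :
    P.val (a • f) = a * P.val f := by
  rw [Algebra.smul_def, val_mul h P (P.const a) hf]
  obtain ⟨χ, -, h2⟩ := h.hom P
  rw [h2]

theorem val_sum (h : PlA k L) (P : Place k L) {ι : Type*} (s : Finset ι) (f : ι → L)
    (hf : ∀ j, f j ∈ P.V) : P.val (∑ j ∈ s, f j) = ∑ j ∈ s, P.val (f j) := by
  classical
  induction s using Finset.induction_on with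
  | empty => simpa using val_zero h P
  | insert a s ha ih =>
    rw [Finset.sum_insert ha, Finset.sum_insert ha, val_add h P (hf a) (sum_mem fun j _ => hf j),
      ih]

/-- the auxiliary function vanishes on the chosen places -/
theorem vanish (h : PlA k L) (p : ℕ) [Fact p.Prime] [CharP k p] (r : ℕ) (P : Place k L)
    {ι κ : Type*} [Fintype ι] [Fintype κ] (u : ι → L) (w w' : κ → L) (c : ι × κ → k)
    (hu : ∀ j, u j ∈ P.V) (hw : ∀ i, w i ∈ P.V) (hw' : ∀ i, w' i ∈ P.V)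
    (hv : ∀ i, P.val (w i) ^ (p ^ r) ^ 2 = P.val (w' i))
    (h0 : ∑ a : ι × κ, c a ^ p ^ r • (u a.1 ^ p ^ r * w' a.2) = 0) :
    P.val (∑ a : ι × κ, c a • (u a.1 * w a.2 ^ p ^ r)) = 0 := by
  have hp : p ^ r ≠ 0 := pow_ne_zero _ (Fact.out : p.Prime).ne_zero
  have h1 : ∀ a : ι × κ, u a.1 * w a.2 ^ p ^ r ∈ P.V := fun a =>
    P.V.mul_mem _ _ (hu _) (_root_.pow_mem (hw _) _)
  have h2 : ∀ a : ι × κ, u a.1 ^ p ^ r * w' a.2 ∈ P.V := fun a =>
    P.V.mul_mem _ _ (_root_.pow_mem (hu _) _) (hw' _)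
  refine (pow_eq_zero_iff hp).mp ?_
  rw [val_sum h P _ _ fun a => smul_mem P (h1 a) _, sum_pow_char_pow, ← val_zero h P, ← h0,
    val_sum h P _ _ fun a => smul_mem P (h2 a) _]
  refine Finset.sum_congr rfl fun a _ => ?_
  rw [val_smul h P (h1 a), val_smul h P (h2 a), val_mul h P (hu _) (_root_.pow_mem (hw _) _),
    val_mul h P (_root_.pow_mem (hu _) _) (hw' _), val_pow h P (hw _), val_pow h P (hu _), ← hv,
    mul_pow, mul_pow, ← pow_mul, ← sq]

/-- the auxiliary function is not zero -/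
theorem aux_ne (h : PlA k L) (p : ℕ) [Fact p.Prime] [CharP k p] (r : ℕ) (P : Place k L)
    {ι κ : Type*} [Fintype ι] [Fintype κ] (u : ι → L) (w : κ → L) (e : ι × κ → k)
    (hu : ∀ j, u j ≠ 0 ∧ 0 ≤ P.ord (u j) ∧ P.ord (u j) < (p ^ r : ℕ))
    (hinj : ∀ i j, P.ord (u i) = P.ord (u j) → i = j) (hw : LinearIndependent k w)
    (he : ∃ a, e a ≠ 0) : ∑ a : ι × κ, e a ^ p ^ r • (u a.1 * w a.2 ^ p ^ r) ≠ 0 := by
  have : CharP L p := charP_of_injective_algebraMap (algebraMap k L).injective p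
  have hp : p ^ r ≠ 0 := pow_ne_zero _ (Fact.out : p.Prime).ne_zero
  have h1 : ∑ a : ι × κ, e a ^ p ^ r • (u a.1 * w a.2 ^ p ^ r) =
      ∑ j, u j * (∑ i, e (j, i) • w i) ^ p ^ r := by
    rw [Fintype.sum_prod_type]
    refine Finset.sum_congr rfl fun j _ => ?_
    rw [sum_pow_char_pow, Finset.mul_sum]
    refine Finset.sum_congr rfl fun i _ => ?_
    rw [smul_pow, mul_smul_comm]
  rw [h1]
  refine sum_ne_zero h P _ (fun i j hi hj hij => hinj i j ?_) ?_
  · have hi' : ∑ l, e (i, l) • w l ≠ 0 := fun h0 => hi (by rw [h0, zero_pow hp, mul_zero])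
    have hj' : ∑ l, e (j, l) • w l ≠ 0 := fun h0 => hj (by rw [h0, zero_pow hp, mul_zero])
    rw [h.mul P _ _ (hu i).1 (pow_ne_zero _ hi'), h.mul P _ _ (hu j).1 (pow_ne_zero _ hj'),
      ord_pow h P hi', ord_pow h P hj'] at hij
    have h2 := congrArg (fun t : ℤ => t % ((p ^ r : ℕ) : ℤ)) hij
    simp only [Int.add_mul_emod_self_left] at h2
    rwa [Int.emod_eq_of_lt (hu i).2.1 (hu i).2.2, Int.emod_eq_of_lt (hu j).2.1 (hu j).2.2] at h2
  · obtain ⟨⟨j, i⟩, ha⟩ := he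
    refine ⟨j, mul_ne_zero (hu j).1 (pow_ne_zero _ fun h0 => ha ?_)⟩
    exact Fintype.linearIndependent_iff.mp hw (fun l => e (j, l)) h0 i

theorem div_facts {d q K : ℕ} (hd : 1 ≤ d) (hq : 1 ≤ q) :
    d * ((q - 1) / d) + 1 ≤ q ∧ q ≤ d * ((q - 1) / d) + d ∧ q + K ≤ d * ((q + K) / d + 1) ∧
      d * ((q + K) / d + 1) ≤ q + K + d := by
  have h1 := Nat.div_add_mod (q - 1) d
  have h2 := Nat.mod_lt (q - 1) hd
  have h3 := Nat.div_add_mod (q + K) d
  have h4 := Nat.mod_lt (q + K) hd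
  rw [Nat.mul_succ]
  omega

end Bomb

open Bomb in
theorem rBomb : RBomb.{u} := by
  intro k _ _ p _ _ d c hd
  refine ⟨d + 2 * c + 1 + d + 1, (d + 2 * c + 1) * (d + c + 1) + c + d + c + 2, ?_⟩
  intro r hQ L _ _ h _ R X _ hone hmul hfd hlo hup hreg hzer ⟨P₀, hP₀⟩ hspan
  have hp : 0 < p ^ r := pow_pos (Fact.out : p.Prime).pos _
  obtain ⟨e1, e2, e3, e4⟩ := div_facts (K := d + 2 * c + 1) hd hp
  set m := (p ^ r - 1) / d
  set n := (p ^ r + (d + 2 * c + 1)) / d + 1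
  obtain ⟨S, hS, hS'⟩ := orders h P₀ _ (R m) (hfd m) (fun g hg h0 => (hP₀ m g hg h0).1) le_rfl
  choose u huR hu0 huo using fun s : S => hS' s.1 s.2
  set t : Set L := {w | w ∈ R n ∧ ∃ w' ∈ R n, ∀ P ∈ X, P.val w ^ (p ^ r) ^ 2 = P.val w'} with ht
  have hsp : Submodule.span k t = R n :=
    le_antisymm (Submodule.span_le.mpr fun w hw => hw.1) (hspan n)
  have : Module.Finite k (Submodule.span k t) := by rw [hsp]; exact hfd n
  obtain ⟨w, hwt, -, hwi⟩ := Submodule.exists_fun_fin_finrank_span_eq k t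
  choose w' hw'R hw'v using fun i => (hwt i).2
  have hwR : ∀ i, w i ∈ R n := fun i => (hwt i).1
  have hmem : ∀ a : S × Fin (Module.finrank k (Submodule.span k t)),
      u a.1 ^ p ^ r * w' a.2 ∈ R (m * p ^ r + n) := fun a =>
    hmul _ _ _ (Bomb.pow_mem R hone hmul (huR _) _) _ (hw'R _)
  have hdep : ¬ LinearIndependent k fun a => (⟨_, hmem a⟩ : R (m * p ^ r + n)) := by
    intro hli
    have := hfd (m * p ^ r + n)
    have h1 := hli.fintype_card_le_finrank
    rw [Fintype.card_prod, Fintype.card_coe, Fintype.card_fin, hS, hsp] at h1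
    have h2 := hup (m * p ^ r + n)
    have h3 := count hQ e1 e2 e3 (hlo m) (hlo n)
    rw [Nat.mul_add, ← Nat.mul_assoc] at h2
    omega
  obtain ⟨g, hg, a₀, ha₀⟩ := Fintype.not_linearIndependent_iff.mp hdep
  have hg' : ∑ a, g a • (u a.1 ^ p ^ r * w' a.2) = 0 := by
    simpa using congrArg Subtype.val hg
  choose c₁ hc₁ using fun a => IsAlgClosed.exists_pow_nat_eq (g a) hp
  choose e he using fun a => IsAlgClosed.exists_pow_nat_eq (c₁ a) hp
  have hx0 : ∑ a, c₁ a • (u a.1 * w a.2 ^ p ^ r) ≠ 0 := by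
    have := aux_ne h p r P₀ u w e (fun j => ⟨hu0 j, (hP₀ m _ (huR j) (hu0 j)).1, ?_⟩)
      (fun i j hij => Subtype.ext (by rw [← huo, ← huo, hij])) hwi
      ⟨a₀, fun h0 => ha₀ (by rw [← hc₁, ← he, h0, zero_pow hp.ne', zero_pow hp.ne'])⟩
    · simpa only [he] using this
    · have h1 := (hP₀ m _ (huR j) (hu0 j)).2
      have h2 : ((d * m + 1 : ℕ) : ℤ) ≤ (p ^ r : ℕ) := Int.ofNat_le.mpr e1
      push_cast at h1 h2 ⊢
      omega
  have hxR : ∑ a, c₁ a • (u a.1 * w a.2 ^ p ^ r) ∈ R (m + n * p ^ r) :=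
    Submodule.sum_mem _ fun a _ => Submodule.smul_mem _ _
      (hmul _ _ _ (huR _) _ (Bomb.pow_mem R hone hmul (hwR _) _))
  obtain ⟨hfin, hcard⟩ := hzer _ _ hxR hx0
  have hsub : (X : Set (Place k L)) ⊆
      {P : Place k L | 0 < P.ord (∑ a, c₁ a • (u a.1 * w a.2 ^ p ^ r))} := by
    intro P hP
    have h1 := vanish h p r P u w w' c₁ (fun j => hreg _ _ (huR j) P hP)
      (fun i => hreg _ _ (hwR i) P hP) (fun i => hreg _ _ (hw'R i) P hP)
      (fun i => hw'v i P hP) (by simpa only [hc₁] using hg')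
    have h2 := (h.val P _ (hreg _ _ hxR P hP) 0).2 h1
    rw [map_zero, sub_zero] at h2
    exact h2.resolve_left hx0
  have h1 := Set.ncard_le_ncard hsub hfin
  rw [Set.ncard_coe_finset] at h1
  have h2 : d * n * p ^ r ≤ (p ^ r + (d + 2 * c + 1) + d) * p ^ r := Nat.mul_le_mul_right _ e4
  rw [Nat.mul_add, ← Nat.mul_assoc] at hcard
  nlinarith

end Pool.Agent.MP_f3836a_nt.PK
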