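import Pool.Agent.MP_f3836a_nt.PK.SpecA

set_option autoImplicit false

/-! Chebotarev for a Morse function. -/

namespace Pool.Agent.MP_f3836a_nt.PK

open IntermediateField

universe u

namespace Cheb

/-! ### Sums of positive parts -/

theorem sum_eq {X : Type u} (g : X → ℤ) (h : {x | 0 < g x}.Finite) :
    ∑ᶠ x, max (g x) 0 = ∑ x ∈ h.toFinset, g x := by
  rw [finsum_eq_sum_of_support_subset (s := h.toFinset)]
  · exact Finset.sum_congr rfl fun x hx => max_eq_left (h.mem_toFinset.1 hx).le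
  · intro x hx
    rw [Set.Finite.coe_toFinset]
    by_contra h1
    exact hx (max_eq_right (not_lt.1 h1))

theorem card_le {X : Type u} (g : X → ℤ) (h : {x | 0 < g x}.Finite) (m : ℤ)
    (hm : ∀ x, 0 < g x → m ≤ g x) : ({x | 0 < g x}.ncard : ℤ) * m ≤ ∑ᶠ x, max (g x) 0 := by
  rw [sum_eq g h, Set.ncard_eq_toFinset_card _ h, ← nsmul_eq_mul]
  exact Finset.card_nsmul_le_sum _ _ _ fun x hx => hm x (h.mem_toFinset.1 hx)

theorem single_le {X : Type u} (g : X → ℤ) (h : {x | 0 < g x}.Finite) {x : X} (hx : 0 < g x) :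
    g x ≤ ∑ᶠ x, max (g x) 0 := by
  rw [sum_eq g h]
  exact Finset.single_le_sum (fun y hy => (h.mem_toFinset.1 hy).le) (h.mem_toFinset.2 hx)

/-! ### Places -/

variable {k F L : Type u} [Field k] [Field F] [Algebra k F] [Field L] [Algebra k L]

theorem ord_zero (P : Place k F) : P.ord 0 = 0 := by simp [Place.ord, ordR]

theorem ord_one (h : PlA k F) (P : Place k F) : P.ord 1 = 0 := by simpa using h.con P 1

theorem ord_inv (h : PlA k F) (P : Place k F) {f : F} (hf : f ≠ 0) : P.ord f⁻¹ = -P.ord f := by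
  have := h.mul P f f⁻¹ hf (inv_ne_zero hf)
  rw [mul_inv_cancel₀ hf, ord_one h] at this
  omega

theorem ord_pow (h : PlA k F) (P : Place k F) {f : F} (hf : f ≠ 0) (m : ℕ) :
    P.ord (f ^ m) = m * P.ord f := by
  induction m with
  | zero => simpa using ord_one h P
  | succ m ih => rw [pow_succ, h.mul P _ _ (pow_ne_zero _ hf) hf, ih]; push_cast; ring

theorem ord_neg (h : PlA k F) (P : Place k F) (f : F) : P.ord f < 0 ↔ f ∉ P.V := by
  by_cases hf : f = 0
  · subst hf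
    simp [ord_zero]
  · rw [h.mem P f hf, not_le]

theorem zero_iff (h : PlA k F) (P : Place k F) (f : F) : P.Zero f ↔ f = 0 ∨ f⁻¹ ∉ P.V := by
  rw [h.zero, ValuationSubring.mem_nonunits_iff_or]

theorem sub_ne {T : F} (hT : Transcendental k T) (t : k) : T - algebraMap k F t ≠ 0 := fun h =>
  hT (sub_eq_zero.1 h ▸ isAlgebraic_algebraMap t)

theorem over_iff (h : PlA k F) (P : Place k F) {T : F} (hT : Transcendental k T) (t : k) :
    0 < P.ord (T - algebraMap k F t) ↔ T ∈ P.V ∧ P.val T = t := by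
  constructor
  · intro h1
    have h2 : T ∈ P.V := by
      have := add_mem ((h.mem P _ (sub_ne hT t)).2 h1.le) (P.const t)
      rwa [sub_add_cancel] at this
    exact ⟨h2, (h.val P T h2 t).1 (Or.inr h1)⟩
  · rintro ⟨h1, h2⟩
    exact ((h.val P T h1 t).2 h2).resolve_left (sub_ne hT t)

theorem exists_cm (Q : Place k L) (j : F →+* L) (ψ : k → k)
    (hψ : ∀ a, j (algebraMap k F a) = algebraMap k L (ψ a)) (h : ∃ f, j f ∉ Q.V) :
    ∃ P : Place k F, ∀ f, f ∈ P.V ↔ j f ∈ Q.V := by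
  refine ⟨⟨Q.V.comap j, fun h1 => ?_, fun a => ?_⟩, fun _ => Iff.rfl⟩
  · obtain ⟨f, hf⟩ := h
    exact hf (ValuationSubring.mem_comap.1 (h1 ▸ ValuationSubring.mem_top f))
  · rw [ValuationSubring.mem_comap, hψ]
    exact Q.const _

theorem val_cm (hF : PlA k F) (hL : PlA k L) {P : Place k F} {Q : Place k L} (j : F →+* L)
    (ψ : k → k) (hψ : ∀ a, j (algebraMap k F a) = algebraMap k L (ψ a))
    (h : ∀ f, f ∈ P.V ↔ j f ∈ Q.V) {f : F} (hf : f ∈ P.V) : Q.val (j f) = ψ (P.val f) := by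
  rw [← hL.val Q _ ((h f).1 hf), ← hψ, ← map_sub, zero_iff hL, ← map_inv₀, ← h, map_eq_zero,
    ← zero_iff hF, hF.val P f hf]

theorem cm_equiv (P : Place k F) (σ : F ≃+* F) (ψ : k → k)
    (hψ : ∀ a, σ (algebraMap k F a) = algebraMap k F (ψ a)) :
    ∃ P' : Place k F, ∀ f, f ∈ P'.V ↔ σ f ∈ P.V := by
  refine exists_cm P (σ : F →+* F) ψ hψ ?_
  by_contra h
  push Not at h
  refine P.ne (eq_top_iff.2 fun f _ => ?_)
  simpa using h (σ.symm f)

theorem cm_alg (hL : PlA k L) (Q : Place k L) (j : F →ₐ[k] L) {T : F}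
    (hT : Transcendental k (j T)) : ∃ P : Place k F, ∀ f, f ∈ P.V ↔ j f ∈ Q.V := by
  refine exists_cm Q (j : F →+* L) id j.commutes ?_
  by_cases h : j T ∈ Q.V
  · refine ⟨(T - algebraMap k F (Q.val (j T)))⁻¹, ?_⟩
    have h1 := (zero_iff hL Q _).1 ((hL.val Q _ h _).2 rfl)
    simpa using h1.resolve_left (sub_ne hT _)
  · exact ⟨T, h⟩

theorem fib_fin (hB : PlB k F) (f : F) : {P : Place k F | 0 < P.ord f}.Finite :=
  (hB.fin f).subset fun _ h => h.ne'

theorem fib_deg (hB : PlB k F) {T : F} (hT : Transcendental k T) (t : k) :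
    ∑ᶠ P : Place k F, max (P.ord (T - algebraMap k F t)) 0 =
      (Module.finrank (adjoin k {T}) F : ℤ) := by
  have h1 : adjoin k {T - algebraMap k F t} = adjoin k {T} := by
    apply le_antisymm <;> rw [adjoin_simple_le_iff]
    · exact sub_mem (mem_adjoin_simple_self k T) (IntermediateField.algebraMap_mem _ t)
    · have := add_mem (mem_adjoin_simple_self k (T - algebraMap k F t))
        (IntermediateField.algebraMap_mem (adjoin k {T - algebraMap k F t}) t)
      rwa [sub_add_cancel] at this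
  rw [hB.deg _ fun h => hT (by simpa using h.add (isAlgebraic_algebraMap t)), h1]

theorem fib_le (hB : PlB k F) {T : F} (hT : Transcendental k T) (t : k) :
    {P : Place k F | 0 < P.ord (T - algebraMap k F t)}.ncard ≤
      Module.finrank (adjoin k {T}) F := by
  have := card_le (fun P : Place k F => P.ord (T - algebraMap k F t)) (fib_fin hB _) 1
    fun _ h => h
  rw [fib_deg hB hT, mul_one] at this
  exact_mod_cast this

theorem fib_ne (hB : PlB k F) {T : F} (hT : Transcendental k T) (t : k) :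
    ∃ P : Place k F, 0 < P.ord (T - algebraMap k F t) := by
  by_contra h
  push Not at h
  have h1 := fib_deg hB hT t
  rw [finsum_congr fun P => max_eq_right (h P), finsum_zero] at h1
  have := hB.fd T hT
  have h2 : 0 < Module.finrank (adjoin k {T}) F := Module.finrank_pos
  omega

theorem not_pow (hA : PlA k F) (hB : PlB k F) {T : F} (hT : Transcendental k T) {n p : ℕ}
    (hn : 3 ≤ n) (hp : 2 ≤ p) (h1 : Module.finrank (adjoin k {T}) F = n) (hM : Morse k T n)
    (g : F) : g ^ p ≠ T := by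
  intro h
  have h0 : T - algebraMap k F 0 = g ^ p := by simp [h]
  have hg : g ≠ 0 := fun h2 => sub_ne hT 0 (by rw [h0, h2, zero_pow (by omega)])
  have h2 := card_le (fun P : Place k F => P.ord (T - algebraMap k F 0)) (fib_fin hB _) 2
    fun P hP => by
      simp only [h0, ord_pow hA P hg] at hP ⊢
      have : (2 : ℤ) ≤ p := by exact_mod_cast hp
      have h3 : 0 < P.ord g := (pos_iff_pos_of_mul_pos hP).1 (by omega)
      nlinarith
  rw [fib_deg hB hT, h1] at h2
  have h3 := hM.1 0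
  omega

/-- A better primitive element. -/
theorem better (hA : PlA k F) (hB : PlB k F) {T Y : F} (hT : Transcendental k T) {d : ℕ}
    (hY : adjoin k {T, Y} = ⊤) (hd : ∑ᶠ P : Place k F, max (-P.ord Y) 0 ≤ d) (φ : k ≃+* k)
    (σ : F ≃+* F) (hσ : ∀ a, σ (algebraMap k F a) = algebraMap k F (φ a)) (hσT : σ T = T)
    (hσY : σ Y = Y) : ∃ Z : F, adjoin k {T, Z} = ⊤ ∧ σ Z = Z ∧
      (∀ P : Place k F, T ∈ P.V → Z ∈ P.V) ∧
      ∀ P : Place k F, T ∉ P.V → Z * T⁻¹ ^ (d ^ 2 + d) ∈ P.V := by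
  classical
  have hf : {P : Place k F | 0 < -P.ord Y}.Finite := (hB.fin Y).subset fun P h => by
    simp only [Set.mem_ofPred_eq] at h ⊢
    omega
  have h1 : ∀ P : Place k F, -(d : ℤ) ≤ P.ord Y := fun P => by
    by_cases h : 0 < -P.ord Y
    · have := (single_le (fun P : Place k F => -P.ord Y) hf h).trans hd
      omega
    · omega
  have h2 : hf.toFinset.card ≤ d := by
    have := (card_le (fun P : Place k F => -P.ord Y) hf 1 fun _ h => h).trans hd
    rw [mul_one, Set.ncard_eq_toFinset_card _ hf] at this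
    exact_mod_cast this
  set A : Finset k := (hf.toFinset.filter fun P => T ∈ P.V).image fun P => P.val T with hAdef
  have hA1 : ∀ a, a ∈ A ↔ ∃ P : Place k F, Y ∉ P.V ∧ T ∈ P.V ∧ P.val T = a := fun a => by
    simp only [hAdef, Finset.mem_image, Finset.mem_filter, Set.Finite.mem_toFinset,
      Set.mem_ofPred_eq, neg_pos, ord_neg hA, and_assoc]
  have hA2 : A.card ≤ d := Finset.card_image_le.trans ((Finset.card_filter_le _ _).trans h2)
  have hA3 : A.image φ = A := by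
    refine Finset.eq_of_subset_of_card_le (fun b hb => ?_)
      (Finset.card_image_of_injective _ φ.injective).ge
    obtain ⟨a, ha, rfl⟩ := Finset.mem_image.1 hb
    obtain ⟨P, h3, h4, rfl⟩ := (hA1 a).1 ha
    have h5 : ∀ a, σ.symm (algebraMap k F a) = algebraMap k F (φ.symm a) := fun a => by
      rw [RingEquiv.symm_apply_eq, hσ, RingEquiv.apply_symm_apply]
    have hT' : σ.symm T = T := by rw [RingEquiv.symm_apply_eq, hσT]
    have hY' : σ.symm Y = Y := by rw [RingEquiv.symm_apply_eq, hσY]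
    obtain ⟨P', hP'⟩ := cm_equiv P σ.symm φ.symm h5
    have h6 : T ∈ P'.V := by rw [hP', hT']; exact h4
    refine (hA1 _).2 ⟨P', by rw [hP', hY']; exact h3, h6, ?_⟩
    have h7 := val_cm hA hA (σ.symm : F →+* F) φ.symm h5 hP' h6
    rw [RingHom.coe_coe, hT'] at h7
    rw [h7, RingEquiv.apply_symm_apply]
  set W : F := ∏ a ∈ A, (T - algebraMap k F a) with hW
  have hW0 : W ≠ 0 := Finset.prod_ne_zero_iff.2 fun a _ => sub_ne hT a
  have hσW : σ W = W := by
    conv_rhs => rw [hW, ← hA3, Finset.prod_image fun _ _ _ _ h => φ.injective h]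
    rw [hW, map_prod]
    exact Finset.prod_congr rfl fun a _ => by rw [map_sub, hσT, hσ]
  refine ⟨Y * W ^ d, ?_, by rw [map_mul, map_pow, hσY, hσW], fun P hP => ?_, fun P hP => ?_⟩
  · rw [eq_top_iff, ← hY, adjoin_le_iff]
    have h3 : T ∈ adjoin k {T, Y * W ^ d} := subset_adjoin _ _ (by simp)
    have h4 : Y * W ^ d ∈ adjoin k {T, Y * W ^ d} := subset_adjoin _ _ (by simp)
    have h5 : W ∈ adjoin k {T, Y * W ^ d} :=
      prod_mem fun a _ => sub_mem h3 (IntermediateField.algebraMap_mem _ a)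
    have h6 := div_mem h4 (pow_mem h5 d)
    rw [mul_div_cancel_right₀ _ (pow_ne_zero d hW0)] at h6
    rintro x (rfl | rfl)
    · exact h3
    · exact h6
  · have h3 : ∀ B : Finset k, ∏ a ∈ B, (T - algebraMap k F a) ∈ P.V := fun B =>
      prod_mem fun a _ => sub_mem hP (P.const a)
    by_cases h4 : Y ∈ P.V
    · exact mul_mem h4 (pow_mem (h3 A) d)
    have h5 : Y ≠ 0 := fun h => h4 (h ▸ zero_mem _)
    rw [hW, ← Finset.mul_prod_erase A _ ((hA1 _).2 ⟨P, h4, hP, rfl⟩), mul_pow, ← mul_assoc]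
    refine mul_mem ?_ (pow_mem (h3 _) d)
    have h6 := (over_iff hA P hT _).2 ⟨hP, rfl⟩
    have h7 := pow_ne_zero d (sub_ne hT (P.val T))
    rw [hA.mem P _ (mul_ne_zero h5 h7), hA.mul P _ _ h5 h7, ord_pow hA P (sub_ne hT _)]
    have := h1 P
    nlinarith
  · have hT0 : T ≠ 0 := fun h => hP (h ▸ zero_mem _)
    have h3 : T⁻¹ ∈ P.V := (P.V.mem_or_inv_mem T).resolve_left hP
    have h4 : W * T⁻¹ ^ d ∈ P.V := by
      obtain ⟨c, hc⟩ := Nat.exists_eq_add_of_le hA2
      rw [hc, pow_add, ← mul_assoc, hW, ← Finset.prod_const, ← Finset.prod_mul_distrib]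
      refine mul_mem (prod_mem fun a _ => ?_) (pow_mem h3 c)
      rw [sub_mul, mul_inv_cancel₀ hT0]
      exact sub_mem (one_mem _) (mul_mem (P.const a) h3)
    have h5 : Y * T⁻¹ ^ d ∈ P.V := by
      by_cases h5 : Y = 0
      · rw [h5, zero_mul]; exact zero_mem _
      have h7 := pow_ne_zero d (inv_ne_zero hT0)
      rw [hA.mem P _ (mul_ne_zero h5 h7), hA.mul P _ _ h5 h7, ord_pow hA P (inv_ne_zero hT0),
        ord_inv hA P hT0]
      have := h1 P
      have := (ord_neg hA P T).2 hP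
      nlinarith
    have h6 := mul_mem h5 (pow_mem h4 d)
    have h7 : Y * T⁻¹ ^ d * (W * T⁻¹ ^ d) ^ d = Y * W ^ d * T⁻¹ ^ (d ^ 2 + d) := by ring
    rwa [h7] at h6

/-- Comparison of the two conditions at a good value. -/
theorem compare (hA : PlA k F) (hB : PlB k F) (hA' : PlA k L) {T Z : F} {T' : L} {n : ℕ}
    (hT : Transcendental k T) (hT' : Transcendental k T')
    (hn : Module.finrank (adjoin k {T}) F = n) (e : Fin n → F →ₐ[k] L) (he : ∀ i, e i T = T')
    (hZ : ∀ P : Place k F, T ∈ P.V → Z ∈ P.V) (φ : k ≃+* k) (σ : F ≃+* F)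
    (hσ : ∀ a, σ (algebraMap k F a) = algebraMap k F (φ a)) (hσT : σ T = T) (hσZ : σ Z = Z)
    {t : k} (ht : φ t = t) (Q : Place k L) (hQ : 0 < Q.ord (T' - algebraMap k L t))
    (hinj : Function.Injective fun i => Q.val (e i Z)) :
    (∀ i, φ (Q.val (e i Z)) = Q.val (e i Z)) ↔
      {P : Place k F | 0 < P.ord (T - algebraMap k F t) ∧ P.Fix σ}.ncard = n := by
  choose P hP using fun i => cm_alg hA' Q (e i) (T := T) (by rw [he]; exact hT')
  rw [over_iff hA' Q hT'] at hQ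
  have hv : ∀ i f, f ∈ (P i).V → Q.val (e i f) = (P i).val f := fun i f hf =>
    val_cm hA hA' (e i : F →+* L) id (e i).commutes (hP i) hf
  have h1 : ∀ i, T ∈ (P i).V := fun i => by rw [hP, he]; exact hQ.1
  have h2 : ∀ i, (P i).val T = t := fun i => by rw [← hv i T (h1 i), he, hQ.2]
  have h3 : ∀ i, Q.val (e i Z) = (P i).val Z := fun i => hv i Z (hZ _ (h1 i))
  have hPi : Function.Injective P := fun i j h => hinj (by simp only [h3, h])
  have hr : (Set.range P).ncard = n := by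
    rw [Set.ncard_range_of_injective hPi, Nat.card_eq_fintype_card, Fintype.card_fin]
  have hle := fib_le hB hT t
  rw [hn] at hle
  have hS : Set.range P = {P : Place k F | 0 < P.ord (T - algebraMap k F t)} := by
    refine Set.eq_of_subset_of_ncard_le ?_ (hle.trans hr.ge) (fib_fin hB _)
    rintro _ ⟨i, rfl⟩
    exact (over_iff hA _ hT t).2 ⟨h1 i, h2 i⟩
  constructor
  · intro H
    rw [← hr]
    congr 1
    refine subset_antisymm (fun R hR => hS ▸ hR.1) ?_
    rintro _ ⟨i, rfl⟩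
    refine ⟨(over_iff hA _ hT t).2 ⟨h1 i, h2 i⟩, ?_⟩
    obtain ⟨R, hR⟩ := cm_equiv (P i) σ φ hσ
    have h4 : T ∈ R.V := by rw [hR, hσT]; exact h1 i
    have h5 := val_cm hA hA (σ : F →+* F) φ hσ hR h4
    have h6 := val_cm hA hA (σ : F →+* F) φ hσ hR (hZ R h4)
    rw [RingHom.coe_coe, hσT, h2, ← ht] at h5
    rw [RingHom.coe_coe, hσZ] at h6
    have h7 : R ∈ Set.range P := hS ▸ (over_iff hA _ hT t).2 ⟨h4, (φ.injective h5).symm⟩
    obtain ⟨j, rfl⟩ := h7
    rw [← h3, ← h3, H] at h6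
    obtain rfl : i = j := hinj h6
    exact hR
  · intro H i
    have h4 : {P : Place k F | 0 < P.ord (T - algebraMap k F t) ∧ P.Fix σ} =
        {P : Place k F | 0 < P.ord (T - algebraMap k F t)} :=
      Set.eq_of_subset_of_ncard_le (fun _ h => h.1) (hle.trans H.ge) (fib_fin hB _)
    have h5 : P i ∈ {P : Place k F | 0 < P.ord (T - algebraMap k F t) ∧ P.Fix σ} := by
      rw [h4, ← hS]; exact ⟨i, rfl⟩
    have h6 := val_cm hA hA (σ : F →+* F) φ hσ h5.2 (hZ _ (h1 i))
    rw [RingHom.coe_coe, hσZ] at h6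
    rw [h3, ← h6]

theorem near {X : Type u} {U V B : Set X} (hV : V.Finite) (hB : B.Finite)
    (h : ∀ x ∈ U, x ∉ B → x ∈ V) : U.ncard ≤ V.ncard + B.ncard :=
  (Set.ncard_le_ncard (t := V ∪ B) (fun x hx => (em (x ∈ B)).elim Or.inr fun h1 =>
    Or.inl (h x hx h1)) (hV.union hB)).trans (Set.ncard_union_le _ _)

end Cheb

open Cheb in
theorem rCheb : RPlA.{u} → RPlB.{u} → RSep.{u} → RClo1.{u} → RClo2.{u} → RCheb0.{u} →
    RCheb.{u} := by
  intro rA rB rS r1 r2 r0 k _ _ p hp _ n d hn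
  obtain ⟨C, Q₀, hC⟩ := r0 k p n (d ^ 2 + d)
  refine ⟨C + n.factorial * C, max Q₀ 2, fun r hr F _ _ T Y σ hF hT hfr hY hM hd hσ hσT hσY => ?_⟩
  have hA := rA k F hF
  have hB := rB k F p hF
  let φ : k ≃+* k := iterateFrobeniusEquiv k p (r * 2)
  have hφ : ∀ a, φ a = a ^ (p ^ r) ^ 2 := fun a => by
    rw [← pow_mul p]; rfl
  have hσ' : ∀ a, σ (algebraMap k F a) = algebraMap k F (φ a) := fun a => by rw [hσ, hφ]
  obtain ⟨-, hfd, hsep, -⟩ := rS k F p hF T (not_pow hA hB hT hn hp.out.two_le hfr hM)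
  obtain ⟨Z, hZ, hσZ, hZ1, hZ2⟩ := better hA hB hT hY hd φ σ hσ' hσT hσY
  obtain ⟨L, _, _, T', e, hc, hτ⟩ := r1 k F T Z n hT hfd hsep hfr hZ
  obtain ⟨τ, t1, t2, π, t3⟩ := hτ φ σ hσ' hσT hσZ
  obtain ⟨hg, hfr'⟩ := r2 k F L p T Z n T' e hF (by omega) hZ hc hM
  obtain ⟨g, hgπ⟩ := hg π⁻¹
  have hA' := rA k L hc.ff
  have hB' := rB k L p hc.ff
  have hcm := fun (Q : Place k L) i => cm_alg hA' Q (e i) (T := T) (by rw [hc.eT]; exact hc.tr)
  have hg1 : ∀ (g : L ≃ₐ[adjoin k {T'}] L), g T' = T' := fun g =>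
    g.commutes ⟨T', mem_adjoin_simple_self k T'⟩
  obtain ⟨b1, b2, b3⟩ := hC r ((le_max_left _ _).trans hr) L T' (fun i => e i Z)
    (τ.trans g.toRingEquiv) hc.ff hc.tr hc.gal hfr' hc.inj hc.gen hg
    (fun g i => by
      obtain ⟨j, hj⟩ := hc.all ((g.restrictScalars k).toAlgHom.comp (e i)) (by
        change g (e i T) = T'
        rw [hc.eT, hg1])
      exact ⟨j, by rw [← hj]; rfl⟩)
    (fun a => by
      change g (τ _) = _
      rw [t1, hφ]
      exact g.commutes ⟨_, IntermediateField.algebraMap_mem _ _⟩)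
    (by change g (τ _) = _; rw [t2, hg1])
    (fun i => by change g (τ _) = _; rw [t3, hgπ]; simp)
    (fun Q i h => by
      obtain ⟨P, hP⟩ := hcm Q i
      exact (hP Z).1 (hZ1 P (by rw [hP, hc.eT]; exact h)))
    (fun Q i h h0 => by
      obtain ⟨P, hP⟩ := hcm Q i
      have h1 := (ord_neg hA' Q T').1 h
      have h2 := (hP _).1 (hZ2 P (by rw [hP, hc.eT]; exact h1))
      have h3 : T' ≠ 0 := fun h4 => h1 (h4 ▸ zero_mem _)
      have h4 := pow_ne_zero (d ^ 2 + d) (inv_ne_zero h3)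
      rw [map_mul, map_pow, map_inv₀, hc.eT, hA'.mem Q _ (mul_ne_zero h0 h4),
        hA'.mul Q _ _ h0 h4, ord_pow hA' Q (inv_ne_zero h3), ord_inv hA' Q h3] at h2
      linarith)
  have hq : 2 ≤ p ^ r := (le_max_right _ _).trans hr
  have hfin : {t : k | t ^ (p ^ r) ^ 2 = t}.Finite := by
    refine (Polynomial.finite_setOfPred_isRoot
      (FiniteField.X_pow_card_sub_X_ne_zero k (p := (p ^ r) ^ 2) (by nlinarith))).subset ?_
    intro t ht
    simpa [sub_eq_zero] using ht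
  set U := {t : k | t ^ (p ^ r) ^ 2 = t ∧ ∃ P : Place k L, 0 < P.ord (T' - algebraMap k L t) ∧
    ∀ i, P.val (e i Z) ^ (p ^ r) ^ 2 = P.val (e i Z)} with hU
  set V := {t : k | t ^ (p ^ r) ^ 2 = t ∧
    {P : Place k F | 0 < P.ord (T - algebraMap k F t) ∧ P.Fix σ}.ncard = n} with hV
  have key := fun (t : k) (ht : t ^ (p ^ r) ^ 2 = t) Q hQ hi =>
    compare hA hB hA' hT hc.tr hfr e hc.eT hZ1 φ σ hσ' hσT hσZ ((hφ t).trans ht) Q hQ hi
  simp only [hφ] at key
  have c1 : U.ncard ≤ V.ncard + C := by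
    refine (near (hfin.subset fun _ h => h.1) b1 ?_).trans (Nat.add_le_add_left b2 _)
    rintro t ⟨h1, Q, h2, h3⟩ h4
    exact ⟨h1, (key t h1 Q h2 (by by_contra h5; exact h4 ⟨Q, h2, h5⟩)).1 h3⟩
  have c2 : V.ncard ≤ U.ncard + C := by
    refine (near (hfin.subset fun _ h => h.1) b1 ?_).trans (Nat.add_le_add_left b2 _)
    rintro t ⟨h1, h3⟩ h4
    obtain ⟨Q, h2⟩ := fib_ne hB' hc.tr t
    exact ⟨h1, Q, h2, (key t h1 Q h2 (by by_contra h5; exact h4 ⟨Q, h2, h5⟩)).2 h3⟩
  have d1 : (U.ncard : ℤ) ≤ V.ncard + C := by exact_mod_cast c1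
  have d2 : (V.ncard : ℤ) ≤ U.ncard + C := by exact_mod_cast c2
  have d3 : (1 : ℤ) ≤ (p : ℤ) ^ r := by exact_mod_cast (by omega : 1 ≤ p ^ r)
  have d4 : (0 : ℤ) ≤ n.factorial := Nat.cast_nonneg _
  have d5 : (0 : ℤ) ≤ n.factorial * C := by positivity
  have e1 := mul_le_mul_of_nonneg_left d1 d4
  have e2 := mul_le_mul_of_nonneg_left d2 d4
  have e3 := mul_le_mul_of_nonneg_left d3 d5
  rw [abs_le] at b3 ⊢
  push_cast
  constructor <;> linarith [b3.1, b3.2]

end Pool.Agent.MP_f3836a_nt.PK
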