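import Pool.Agent.MP_f3836a_nt.PK.SpecA

set_option autoImplicit false

/-! Existence of the Galois closure of `F / k(T)` and extension of semilinear automorphisms. -/

namespace Pool.Agent.MP_f3836a_nt.PK

open IntermediateField

universe u

namespace Clo1

variable {k E F L : Type u} [Field k] [Field E] [Field F] [Field L] [Algebra k E] [Algebra k F]
  [Algebra k L]

theorem hext {s : Set F} (hs : adjoin k s = ⊤) (f g : F →ₐ[k] L) (h : ∀ x ∈ s, f x = g x) :
    f = g := by
  refine AlgHom.ext fun x => ?_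
  have hx : x ∈ adjoin k s := hs ▸ mem_top
  induction hx using adjoin_induction with
  | mem x hx => exact h x hx
  | algebraMap x => simp
  | add x y _ _ hx hy => simp [hx, hy]
  | inv x _ hx => simp [hx]
  | mul x y _ _ hx hy => simp [hx, hy]

theorem mem_img {s : Set F} (hs : adjoin k s = ⊤) (f : F →ₐ[k] L) (M : IntermediateField k L)
    (h : ∀ x ∈ s, f x ∈ M) (x : F) : f x ∈ M := by
  have h1 : adjoin k s ≤ M.comap f := adjoin_le_iff.2 h
  exact h1 (hs ▸ mem_top)

/-- conjugation of an embedding by semilinear automorphisms -/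
def conj (φ : k ≃+* k) (σ : F ≃+* F) (τ : L ≃+* L)
    (hσ : ∀ a, σ (algebraMap k F a) = algebraMap k F (φ a))
    (hτ : ∀ a, τ (algebraMap k L a) = algebraMap k L (φ a)) (j : F →ₐ[k] L) : F →ₐ[k] L :=
  { (τ : L →+* L).comp ((j : F →+* L).comp (σ.symm : F →+* F)) with
    commutes' := fun a => by
      have h : σ.symm (algebraMap k F a) = algebraMap k F (φ.symm a) := by
        rw [RingEquiv.symm_apply_eq, hσ, RingEquiv.apply_symm_apply]
      show τ (j (σ.symm (algebraMap k F a))) = _
      rw [h, AlgHom.commutes, hτ, RingEquiv.apply_symm_apply] }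

theorem conj_apply (φ : k ≃+* k) (σ : F ≃+* F) (τ : L ≃+* L)
    (hσ : ∀ a, σ (algebraMap k F a) = algebraMap k F (φ a))
    (hτ : ∀ a, τ (algebraMap k L a) = algebraMap k L (φ a)) (j : F →ₐ[k] L) (x : F) :
    conj φ σ τ hσ hτ j (σ x) = τ (j x) := by
  show τ (j (σ.symm (σ x))) = _
  rw [RingEquiv.symm_apply_apply]

theorem perm {T Y : F} {n : ℕ} {T' : L} {e : Fin n → F →ₐ[k] L} (c : Clo k F L T Y n T' e)
    (φ : k ≃+* k) (σ : F ≃+* F) (τ : L ≃+* L)
    (hσ : ∀ a, σ (algebraMap k F a) = algebraMap k F (φ a))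
    (hτ : ∀ a, τ (algebraMap k L a) = algebraMap k L (φ a)) (h1 : σ T = T) (h2 : σ Y = Y)
    (h3 : τ T' = T') : ∃ π : Equiv.Perm (Fin n), ∀ i, τ (e i Y) = e (π i) Y := by
  have h : ∀ i, ∃ i', τ (e i Y) = e i' Y := fun i => by
    obtain ⟨i', hi⟩ := c.all (conj φ σ τ hσ hτ (e i)) (by
      rw [← h1, conj_apply, c.eT, h3])
    exact ⟨i', by rw [← hi, ← conj_apply φ σ τ hσ hτ, h2]⟩
  choose p hp using h
  have hi : Function.Injective p := fun i j hij =>
    c.inj (τ.injective (by rw [hp, hp, hij]))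
  exact ⟨Equiv.ofBijective p (Finite.injective_iff_bijective.1 hi), hp⟩

variable [Algebra E F] [Algebra E L] [IsScalarTower k E F] [IsScalarTower k E L]

theorem toE {t : E} (ht : adjoin k {t} = ⊤) (j : F →ₐ[k] L)
    (h : j (algebraMap E F t) = algebraMap E L t) : ∃ j' : F →ₐ[E] L, ∀ x, j' x = j x := by
  have h1 := hext ht (j.comp (IsScalarTower.toAlgHom k E F)) (IsScalarTower.toAlgHom k E L)
    (by rintro x rfl; exact h)
  exact ⟨{ (j : F →+* L) with commutes' := fun y => DFunLike.congr_fun h1 y }, fun _ => rfl⟩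

theorem psi {t : E} (ht : adjoin k {t} = ⊤) :
    ∃ ψ : E ≃+* adjoin k {algebraMap E L t}, ∀ y, (ψ y : L) = algebraMap E L y := by
  have h : (IsScalarTower.toAlgHom k E L).fieldRange = adjoin k {algebraMap E L t} := by
    rw [AlgHom.fieldRange_eq_map, ← ht, adjoin_map, Set.image_singleton]
    rfl
  exact ⟨((IsScalarTower.toAlgHom k E L).equivFieldRange.trans (equivOfEq h)).toRingEquiv,
    fun _ => rfl⟩

theorem clo [IsGalois E L] [FiniteDimensional E L] {t : E} (ht : adjoin k {t} = ⊤)
    (htr : Transcendental k t) {Y : F} (hY : adjoin k {algebraMap E F t, Y} = ⊤) {n : ℕ}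
    (e : Fin n ≃ (F →ₐ[E] L))
    (hg : ∀ M : IntermediateField E L, (∀ (j : F →ₐ[E] L) x, j x ∈ M) → M = ⊤) :
    Clo k F L (algebraMap E F t) Y n (algebraMap E L t) fun i => (e i).restrictScalars k := by
  obtain ⟨ψ, hψ⟩ := psi (L := L) ht
  have hc : (algebraMap (adjoin k {algebraMap E L t}) L).comp (ψ : E →+* _) =
      ((RingEquiv.refl L : L ≃+* L) : L →+* L).comp (algebraMap E L) := RingHom.ext hψ
  have tr : Transcendental k (algebraMap E L t) :=
    (transcendental_algebraMap_iff (algebraMap E L).injective).2 htr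
  have fd : FiniteDimensional (adjoin k {algebraMap E L t}) L :=
    Module.Finite.of_equiv_equiv ψ (RingEquiv.refl L) hc
  have eT : ∀ i, (e i).restrictScalars k (algebraMap E F t) = algebraMap E L t := fun i =>
    (e i).commutes t
  refine ⟨⟨_, tr, fd⟩, tr, fd, IsGalois.of_equiv_equiv hc, eT, fun i j hij => ?_,
    fun j hj => ?_, ?_, fun i j => ?_⟩
  · have := hext hY ((e i).restrictScalars k) ((e j).restrictScalars k) (by
      rintro x (rfl | rfl)
      · rw [eT, eT]
      · exact hij)
    exact e.injective (AlgHom.ext fun x => DFunLike.congr_fun this x)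
  · obtain ⟨j', hj'⟩ := toE ht j hj
    refine ⟨e.symm j', AlgHom.ext fun x => ?_⟩
    rw [Equiv.apply_symm_apply]
    exact (hj' x).symm
  · set M := adjoin k (insert (algebraMap E L t)
      (Set.range fun i => (e i).restrictScalars k Y)) with hM
    have h0 : algebraMap E L t ∈ M := subset_adjoin _ _ (Set.mem_insert _ _)
    have h1 : ∀ y : E, algebraMap E L y ∈ M :=
      mem_img ht (IsScalarTower.toAlgHom k E L) M (by rintro x rfl; exact h0)
    have h2 := hg (M.toSubfield.toIntermediateField h1) fun j x => by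
      obtain ⟨i, rfl⟩ := e.surjective j
      refine mem_img hY ((e i).restrictScalars k) M ?_ x
      rintro x (rfl | rfl)
      · rw [eT]; exact h0
      · exact subset_adjoin _ _ (Set.mem_insert_of_mem _ ⟨i, rfl⟩)
    refine eq_top_iff.2 fun x _ => ?_
    have h3 : x ∈ M.toSubfield.toIntermediateField h1 := h2 ▸ mem_top
    exact h3
  · letI : Algebra F L := (e i).toRingHom.toAlgebra
    haveI : IsScalarTower E F L := IsScalarTower.of_algebraMap_eq fun x => ((e i).commutes x).symm
    let g : L →ₐ[E] L := (e j).liftNormal L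
    have hb : Function.Bijective g := Algebra.IsAlgebraic.algHom_bijective g
    refine ⟨AlgEquiv.ofRingEquiv (f := RingEquiv.ofBijective (g : L →+* L) hb) fun x => ?_,
      fun f => (e j).liftNormal_commutes L f⟩
    obtain ⟨y, rfl⟩ := ψ.surjective x
    show g (ψ y : L) = (ψ y : L)
    rw [hψ, g.commutes]

theorem stab [Algebra F L] [IsScalarTower k F L] [IsScalarTower E F L] {t : E}
    (ht : adjoin k {t} = ⊤) (φ : k ≃+* k) (σ : F ≃+* F) (S : L ≃+* L)
    (hσ : ∀ a, σ (algebraMap k F a) = algebraMap k F (φ a))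
    (hS : ∀ x, S (algebraMap F L x) = algebraMap F L (σ x))
    (h1 : σ (algebraMap E F t) = algebraMap E F t) (x : L) (hx : x ∈ normalClosure E F L) :
    S x ∈ normalClosure E F L := by
  have hτ : ∀ a, S (algebraMap k L a) = algebraMap k L (φ a) := fun a => by
    rw [IsScalarTower.algebraMap_apply k F L, hS, hσ, ← IsScalarTower.algebraMap_apply]
  have key : ∀ (j : F →ₐ[E] L) (y : F), S (j y) ∈ normalClosure E F L := fun j y => by
    obtain ⟨j', hj'⟩ := toE ht (conj φ σ S hσ hτ (j.restrictScalars k)) (by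
      rw [← h1, conj_apply]
      show S (j _) = _
      rw [j.commutes, IsScalarTower.algebraMap_apply E F L, hS, h1])
    have := j'.fieldRange_le_normalClosure ⟨σ y, rfl⟩
    have e : j'.toRingHom (σ y) = S (j y) := (hj' _).trans (conj_apply φ σ S hσ hτ _ y)
    rwa [e] at this
  have h2 : ∀ y : E, algebraMap E L y ∈
      (normalClosure E F L).toSubfield.comap (S : L →+* L) := fun y => by
    have := key (IsScalarTower.toAlgHom E F L) (algebraMap E F y)
    rwa [AlgHom.commutes] at this
  have h3 : normalClosure E F L ≤ Subfield.toIntermediateField _ h2 :=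
    normalClosure_le_iff.2 (by rintro j _ ⟨y, rfl⟩; exact key j y)
  exact h3 hx

theorem main [FiniteDimensional E F] [Algebra.IsSeparable E F] {t : E} (ht : adjoin k {t} = ⊤)
    (htr : Transcendental k t) {Y : F} (hY : adjoin k {algebraMap E F t, Y} = ⊤) :
    ∃ (L : Type u) (_ : Field L) (_ : Algebra k L) (T' : L)
      (e : Fin (Module.finrank E F) → F →ₐ[k] L),
    Clo k F L (algebraMap E F t) Y (Module.finrank E F) T' e ∧
    ∀ (φ : k ≃+* k) (σ : F ≃+* F), (∀ a, σ (algebraMap k F a) = algebraMap k F (φ a)) →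
      σ (algebraMap E F t) = algebraMap E F t → σ Y = Y →
      ∃ τ : L ≃+* L, (∀ a, τ (algebraMap k L a) = algebraMap k L (φ a)) ∧ τ T' = T' ∧
        ∃ π : Equiv.Perm (Fin (Module.finrank E F)), ∀ i, τ (e i Y) = e (π i) Y := by
  let Ω := AlgebraicClosure F
  haveI : Algebra.IsAlgebraic E Ω := Algebra.IsAlgebraic.trans E F Ω
  haveI : IsAlgClosure E Ω := ⟨inferInstance, inferInstance⟩
  let N := normalClosure E F Ω
  haveI : Algebra.IsSeparable E N := by
    haveI : ∀ j : F →ₐ[E] Ω, Algebra.IsSeparable E j.fieldRange := fun j =>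
      AlgEquiv.Algebra.isSeparable j.equivFieldRange
    exact isSeparable_iSup E Ω
  haveI : IsGalois E N := {}
  let e : Fin (Module.finrank E F) ≃ (F →ₐ[E] N) :=
    (Fintype.equivFinOfCardEq (AlgHom.card E F Ω)).symm.trans
      (normalClosure.algHomEquiv E F Ω).symm
  have c := clo (k := k) (L := N) ht htr hY e fun M hM => by
    refine eq_top_iff.2 fun x _ => ?_
    have h1 : N ≤ M.map N.val := normalClosure_le_iff.2 (by
      rintro j _ ⟨y, rfl⟩
      exact ⟨_, hM ((normalClosure.algHomEquiv E F Ω).symm j) y, rfl⟩)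
    obtain ⟨y, hy, h⟩ := h1 x.2
    rwa [← Subtype.ext h]
  refine ⟨N, inferInstance, inferInstance, _, _, c, fun φ σ hσ h1 h2 => ?_⟩
  let S : Ω ≃+* Ω := IsAlgClosure.equivOfEquiv Ω Ω σ
  have hS : ∀ x, S (algebraMap F Ω x) = algebraMap F Ω (σ x) :=
    IsAlgClosure.equivOfEquiv_algebraMap Ω Ω σ
  have a1 := stab ht φ σ S hσ hS h1
  have a2 := stab ht φ.symm σ.symm S.symm
    (fun a => by rw [RingEquiv.symm_apply_eq, hσ, RingEquiv.apply_symm_apply])
    (fun x => by rw [RingEquiv.symm_apply_eq, hS, RingEquiv.apply_symm_apply])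
    (by rw [RingEquiv.symm_apply_eq, h1])
  let τ : N ≃+* N :=
    { toFun := fun x => ⟨S x, a1 x x.2⟩
      invFun := fun x => ⟨S.symm x, a2 x x.2⟩
      left_inv := fun x => Subtype.ext (S.symm_apply_apply x)
      right_inv := fun x => Subtype.ext (S.apply_symm_apply x)
      map_mul' := fun x y => Subtype.ext (map_mul S (x : Ω) y)
      map_add' := fun x y => Subtype.ext (map_add S (x : Ω) y) }
  have b1 : ∀ a, τ (algebraMap k N a) = algebraMap k N (φ a) := fun a => Subtype.ext (by
    show S (algebraMap k Ω a) = algebraMap k Ω (φ a)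
    rw [IsScalarTower.algebraMap_apply k F Ω, hS, hσ, ← IsScalarTower.algebraMap_apply])
  have b2 : τ (algebraMap E N t) = algebraMap E N t := Subtype.ext (by
    show S (algebraMap E Ω t) = algebraMap E Ω t
    rw [IsScalarTower.algebraMap_apply E F Ω, hS, h1])
  exact ⟨τ, b1, b2, perm c φ σ τ hσ b1 h1 h2 b2⟩

end Clo1

theorem rClo1 : RClo1.{u} := by
  intro k F _ _ _ T Y n hT _ _ hn hY
  subst hn
  have ht : adjoin k {AdjoinSimple.gen k T} = ⊤ := by
    apply lift_injective
    rw [lift_adjoin_simple, lift_top]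
    rfl
  exact Clo1.main (E := adjoin k {T}) ht
    ((transcendental_algebraMap_iff (algebraMap (adjoin k {T}) F).injective).1 hT) hY

end Pool.Agent.MP_f3836a_nt.PK
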