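import Pool.Agent.MP_f3836a_nt.PK.SpecA

set_option autoImplicit false

/-! A Morse function has the full symmetric group as Galois group. -/

namespace Pool.Agent.MP_f3836a_nt.PK

open IntermediateField

universe u

namespace Clo2

theorem swap_of {n : ℕ} {β : Type u} (σ : Equiv.Perm (Fin n)) (r : Fin n → β)
    (h : ∀ i, r (σ i) = r i) (hn : n ≤ (Set.range r).ncard + 1) : σ = 1 ∨ σ.IsSwap := by
  by_contra h0
  rw [not_or, ← Equiv.Perm.card_support_eq_zero, ← Equiv.Perm.card_support_eq_two] at h0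
  have h1 := σ.card_support_ne_one
  obtain ⟨a, ha⟩ := Finset.card_pos.1 (show 0 < σ.support.card by omega)
  obtain ⟨c, hc, hc'⟩ := Finset.exists_mem_notMem_of_card_lt_card
    (show ({a, σ a} : Finset (Fin n)).card < σ.support.card from
      lt_of_le_of_lt Finset.card_le_two (by omega))
  rw [Finset.mem_insert, Finset.mem_singleton, not_or] at hc'
  rw [Equiv.Perm.mem_support] at ha hc
  have h2 : Set.range r ⊆ r '' (({a, c} : Finset (Fin n))ᶜ : Finset (Fin n)) := by
    have e : σ a ∈ (({a, c} : Finset (Fin n))ᶜ : Finset (Fin n)) := by simp [ha, Ne.symm hc'.2]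
    rintro _ ⟨i, rfl⟩
    by_cases h3 : i = a
    · exact ⟨σ a, e, by rw [h, h3]⟩
    by_cases h4 : i = c
    · by_cases h5 : σ c = a
      · exact ⟨σ a, e, by rw [h, h4, ← h c, h5]⟩
      · exact ⟨σ c, by simp [hc, h5], by rw [h, h4]⟩
    · exact ⟨i, by simp [h3, h4], rfl⟩
  have h3 := (Set.ncard_le_ncard h2).trans (Set.ncard_image_le (Finset.finite_toSet _))
  have h4 := Finset.card_le_univ σ.support
  rw [Set.ncard_coe_finset, Finset.card_compl, Finset.card_pair (Ne.symm hc'.1)] at h3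
  rw [Fintype.card_fin] at h3 h4
  omega

theorem le_one {α : Type u} (f : α → ℤ) (hf : {P | 0 < f P}.Finite) {d : ℕ}
    (hs : ∑ᶠ P, max (f P) 0 = d) (hd : d ≤ {P | 0 < f P}.ncard) (P : α) : f P ≤ 1 := by
  by_contra h
  rw [finsum_eq_sum_of_support_subset (s := hf.toFinset) _ fun Q hQ => by
    simpa using hQ] at hs
  have h1 : ∑ _Q ∈ hf.toFinset, (1 : ℤ) < ∑ Q ∈ hf.toFinset, max (f Q) 0 :=
    Finset.sum_lt_sum (fun Q hQ => le_max_of_le_left (hf.mem_toFinset.1 hQ))
      ⟨P, hf.mem_toFinset.2 (show 0 < f P by omega), lt_max_of_lt_left (by omega)⟩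
  rw [hs, Finset.sum_const, ← Set.ncard_eq_toFinset_card _ hf, nsmul_eq_mul, mul_one] at h1
  omega

variable {k F L : Type u} [Field k] [Field F] [Algebra k F] [Field L] [Algebra k L]

/-- The local coordinate at a point of the projective line. -/
def uu (T : F) : Option k → F
  | some a => T - algebraMap k F a
  | none => T⁻¹

theorem map_uu (j : F →ₐ[k] L) (T : F) (t : Option k) : j (uu T t) = uu (j T) t := by
  cases t <;> simp [uu]

theorem adj_uu (T : F) (t : Option k) : adjoin k {uu T t} = adjoin k {T} := by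
  have h := mem_adjoin_simple_self k (uu T t)
  have h' := mem_adjoin_simple_self k T
  refine le_antisymm (adjoin_simple_le_iff.2 ?_) (adjoin_simple_le_iff.2 ?_)
  · cases t
    · exact inv_mem h'
    · exact sub_mem h' (IntermediateField.algebraMap_mem _ _)
  · cases t with
    | none => exact inv_mem_iff.1 h
    | some a => simpa [uu] using add_mem h (IntermediateField.algebraMap_mem _ a)

theorem tr_uu {T : F} (hT : Transcendental k T) (t : Option k) : Transcendental k (uu T t) := by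
  cases t with
  | none => exact fun h => hT (IsAlgebraic.inv_iff.1 h)
  | some a =>
    intro h
    have h1 := h.isIntegral.add (isIntegral_algebraMap (x := a))
    exact hT (by simpa [uu] using h1.isAlgebraic)

theorem ne_uu {T : F} (hT : Transcendental k T) (t : Option k) : uu T t ≠ 0 := fun h =>
  tr_uu hT t (h ▸ isAlgebraic_zero)

theorem ord_inv (A : PlA k F) (P : Place k F) {x : F} (hx : x ≠ 0) : P.ord x⁻¹ = -P.ord x := by
  have h := A.mul P x x⁻¹ hx (inv_ne_zero hx)
  have h1 := A.con P 1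
  rw [map_one] at h1
  rw [mul_inv_cancel₀ hx, h1] at h
  omega

theorem pos_iff (A : PlA k F) (P : Place k F) {x : F} (hx : x ≠ 0) : 0 < P.ord x ↔ x⁻¹ ∉ P.V := by
  rw [A.mem P _ (inv_ne_zero hx), ord_inv A P hx]
  omega

theorem exists_over (A : PlA k F) (P : Place k F) {T : F} (hT : Transcendental k T) :
    ∃ t : Option k, (uu T t)⁻¹ ∉ P.V := by
  by_cases h : T ∈ P.V
  · exact ⟨some (P.val T), (pos_iff A P (ne_uu hT _)).1
      (((A.val P T h _).2 rfl).resolve_left (ne_uu hT (some _)))⟩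
  · exact ⟨none, by rwa [uu, inv_inv]⟩

/-- Restriction of a place. -/
def res (Q : Place k L) (j : F →ₐ[k] L) {x : F} (h : j x ∉ Q.V) : Place k F :=
  ⟨Q.V.comap j.toRingHom, fun e => h (show x ∈ Q.V.comap j.toRingHom by rw [e]; trivial),
    fun a => show j _ ∈ Q.V by rw [j.commutes]; exact Q.const a⟩

theorem extend (P : Place k F) (j : F →ₐ[k] L) : ∃ Q : Place k L, ∀ f, f ∈ P.V ↔ j f ∈ Q.V := by
  obtain ⟨A, h, hl⟩ := IsLocalRing.exists_factor_valuationRing (j.toRingHom.comp P.V.subtype)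
  have key : ∀ f, f ∈ P.V ↔ j f ∈ A := fun f => ⟨fun hf => h ⟨f, hf⟩, fun hf => by
    by_contra h1
    have h2 := (P.V.mem_or_inv_mem f).resolve_left h1
    have h3 : f ≠ 0 := fun e => h1 (e ▸ zero_mem _)
    obtain ⟨y, hy⟩ := (hl.map_nonunit ⟨f⁻¹, h2⟩ (IsUnit.of_mul_eq_one ⟨j f, hf⟩ (Subtype.ext (by
      change j f⁻¹ * j f = 1
      rw [← map_mul, inv_mul_cancel₀ h3, map_one])))).exists_right_inv
    have h4 : f⁻¹ * y.1 = 1 := congrArg Subtype.val hy
    exact h1 ((inv_mul_eq_one₀ h3).1 h4 ▸ y.2)⟩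
  refine ⟨⟨A, fun e => P.ne (eq_top_iff.2 fun f _ => (key f).2 (by rw [e]; trivial)),
    fun a => ?_⟩, key⟩
  rw [← j.commutes]
  exact (key _).1 (P.const a)

/-- The automorphisms that fix some place generate the Galois group. -/
theorem closure_top [IsAlgClosed k] (hA : RPlA.{u}) (hB : RPlB.{u}) (hE : RTransE.{u})
    (hU : RUnr.{u}) (p : ℕ) [Fact p.Prime] [CharP k p] (hL : IsFF k L) {T : L}
    (hT : Transcendental k T) [FiniteDimensional (adjoin k {T}) L] [IsGalois (adjoin k {T}) L] :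
    Subgroup.closure {g : L ≃ₐ[adjoin k {T}] L | ∃ Q : Place k L, ∀ f, f ∈ Q.V ↔ g f ∈ Q.V} =
      ⊤ := by
  set H := Subgroup.closure
    {g : L ≃ₐ[adjoin k {T}] L | ∃ Q : Place k L, ∀ f, f ∈ Q.V ↔ g f ∈ Q.V} with hH
  let E : IntermediateField k L := (fixedField H).restrictScalars k
  have hle : adjoin k {T} ≤ E := fun x hx => (fixedField H).algebraMap_mem ⟨x, hx⟩
  let T' : E := ⟨T, hle (mem_adjoin_simple_self k T)⟩
  have hT' : Transcendental k T' := fun h => hT (h.algHom E.val)
  have hK : adjoin k {T'} = (adjoin k {T}).comap E.val := by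
    rw [← comap_map E.val (adjoin k {T'}), adjoin_map, Set.image_singleton]
    rfl
  have hd : Module.finrank (adjoin k {T'}) E = H.index := by
    rw [hK, finrank_comap, fieldRange_val, relfinrank_eq_finrank_of_le hle]
    have h1 := Module.finrank_mul_finrank (adjoin k {T}) (fixedField H) L
    rw [finrank_fixedField_eq_card, ← IsGalois.card_aut_eq_finrank (adjoin k {T}) L,
      ← H.index_mul_card] at h1
    exact Nat.eq_of_mul_eq_mul_right Nat.card_pos h1
  have hF : IsFF k E := ⟨T', hT', Module.finite_of_finrank_pos (by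
    rw [hd]
    exact Nat.pos_of_ne_zero H.index_ne_zero_of_finite)⟩
  have A := hA k E hF
  have B := hB k E p hF
  have key : ∀ (t : Option k) (P : Place k E), P.ord (uu T' t) ≤ 1 := by
    intro t P
    by_cases hP : 0 < P.ord (uu T' t)
    swap
    · omega
    have hf : {P : Place k E | 0 < P.ord (uu T' t)}.Finite := (B.fin _).subset fun _ h => ne_of_gt h
    refine le_one (fun P : Place k E => P.ord (uu T' t)) hf (d := H.index)
      (by rw [B.deg _ (tr_uu hT' t), adj_uu, hd]) ?_ P
    obtain ⟨Q, hQ⟩ := extend P E.val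
    have h0 : ∀ g : L ≃ₐ[adjoin k {T}] L,
        (g.restrictScalars k : L →ₐ[k] L) (E.val (uu T' t)⁻¹) ∉ Q.V := fun g => by
      have h1 : (g.restrictScalars k : L →ₐ[k] L) T = T :=
        g.commutes ⟨T, mem_adjoin_simple_self k T⟩
      have h2 := mt (hQ _).2 ((pos_iff A P (ne_uu hT' t)).1 hP)
      rw [map_inv₀, map_uu] at h2
      rw [map_inv₀, map_inv₀, map_uu, map_uu]
      exact h1.symm ▸ h2
    rw [Subgroup.index, ← Set.ncard_univ]
    refine Set.ncard_le_ncard_of_injOn (fun c => res (res Q _ (h0 c.out)) E.val (h0 c.out))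
      (fun c _ => (pos_iff A _ (ne_uu hT' t)).2 (h0 c.out)) (fun c _ c' _ e => ?_) hf
    obtain ⟨h, hh⟩ := hE k L (hA k L hL) E
      (inferInstanceAs (FiniteDimensional (fixedField H) L))
      (inferInstanceAs (IsGalois (fixedField H) L)) (res Q _ (h0 c.out)) (res Q _ (h0 c'.out))
      fun f hf => SetLike.ext_iff.1 (congrArg Place.V e) ⟨f, hf⟩
    let h' : L ≃ₐ[adjoin k {T}] L :=
      AlgEquiv.ofRingEquiv (f := h.toRingEquiv) fun x => h.commutes ⟨x, hle x.2⟩
    have h1 : h' ∈ H := by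
      rw [← fixingSubgroup_fixedField H, IntermediateField.mem_fixingSubgroup_iff]
      exact fun x hx => h.commutes ⟨x, hx⟩
    have h2 : c'.out⁻¹ * c.out * h' ∈ H :=
      Subgroup.subset_closure ⟨res Q _ (h0 c'.out), fun f => (hh f).trans (by
        change c.out (h f) ∈ Q.V ↔ c'.out (c'.out.symm (c.out (h f))) ∈ Q.V
        rw [AlgEquiv.apply_symm_apply])⟩
    rw [← c.out_eq, ← c'.out_eq]
    exact (QuotientGroup.eq.2 ((H.mul_mem_cancel_right h1).1 h2)).symm
  have h := hU k E p hF T' hT' (fun P a => key (some a) P) fun P => by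
    have h1 := key none P
    rw [uu, ord_inv A P (x := T') fun e => hT' (e ▸ isAlgebraic_zero)] at h1
    omega
  rw [← fixingSubgroup_fixedField H, eq_top_iff]
  intro g _
  rw [IntermediateField.mem_fixingSubgroup_iff]
  intro x hx
  have h1 : (⟨x, hx⟩ : E) ∈ (adjoin k {T}).comap E.val := by
    rw [← hK, h]
    trivial
  exact g.commutes ⟨x, h1⟩

end Clo2

open Clo2

theorem rClo2 : RPlA.{u} → RPlB.{u} → RTransE.{u} → RTrans.{u} → RUnr.{u} → RClo2.{u} := by
  intro hA hB hE hT hU k F L _ _ _ _ _ _ p _ _ T Y n T' e hF hn _ hC hM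
  have := hC.fd
  have := hC.gal
  have A := hA k F hF
  have A' := hA k L hC.ff
  have hfix : ∀ g : L ≃ₐ[adjoin k {T'}] L, g T' = T' := fun g =>
    g.commutes ⟨T', mem_adjoin_simple_self k T'⟩
  have h0 : ∀ (g : L ≃ₐ[adjoin k {T'}] L) i, ∃ j, ∀ f, g (e i f) = e j f := fun g i => by
    obtain ⟨j, hj⟩ := hC.all ((g.restrictScalars k : L →ₐ[k] L).comp (e i))
      ((congrArg g (hC.eT i)).trans (hfix g))
    exact ⟨j, fun f => AlgHom.congr_fun hj f⟩
  choose act hact using h0
  let _ : MulAction (L ≃ₐ[adjoin k {T'}] L) (Fin n) :=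
    { smul := act
      one_smul := fun i => hC.inj (hact 1 i Y).symm
      mul_smul := fun g g' i => hC.inj
        ((hact (g * g') i Y).symm.trans ((congrArg g (hact g' i Y)).trans (hact g _ Y))) }
  have htr : MulAction.IsPretransitive (L ≃ₐ[adjoin k {T'}] L) (Fin n) := ⟨fun i j => by
    obtain ⟨g, hg⟩ := hC.tra i j
    exact ⟨g, hC.inj ((hact g i Y).symm.trans (hg Y))⟩⟩
  have hu : ∀ i (t : Option k), e i (uu T t)⁻¹ = (uu T' t)⁻¹ := fun i t => by
    rw [map_inv₀, map_uu, hC.eT]
  have hTT : Transcendental k T := fun h => hC.tr (hC.eT ⟨0, hn⟩ ▸ h.algHom (e ⟨0, hn⟩))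
  have hs := surjective_of_isSwap_of_isPretransitive' (α := Fin n) _ (fun g hg => ?_)
    (closure_top hA hB hE hU p hC.ff hC.tr)
  · have hi : Function.Injective (MulAction.toPermHom (L ≃ₐ[adjoin k {T'}] L) (Fin n)) := by
      refine (injective_iff_map_eq_one _).2 fun g hg => AlgEquiv.ext fun x => ?_
      have hx : x ∈ adjoin k (insert T' (Set.range fun i => e i Y)) := by
        rw [hC.gen]
        trivial
      change g x = x
      induction hx using adjoin_induction with
      | mem x hx =>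
        rcases hx with rfl | ⟨i, rfl⟩
        · exact hfix g
        · exact (hact g i Y).trans (congrArg (fun j => e j Y) (Equiv.congr_fun hg i))
      | algebraMap a => exact (g.restrictScalars k).commutes a
      | add x y _ _ h1 h2 => rw [map_add, h1, h2]
      | inv x _ h1 => rw [map_inv₀, h1]
      | mul x y _ _ h1 h2 => rw [map_mul, h1, h2]
    refine ⟨fun π => ?_, ?_⟩
    · obtain ⟨g, rfl⟩ := hs π
      exact ⟨g, fun i => hact g i Y⟩
    · rw [← IsGalois.card_aut_eq_finrank, Nat.card_eq_of_bijective _ ⟨hi, hs⟩, Nat.card_perm,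
        Nat.card_eq_fintype_card, Fintype.card_fin]
  · obtain ⟨Q, hQ⟩ := hg
    obtain ⟨t, ht⟩ := exists_over A' Q hC.tr
    have h1 : ∀ i, e i (uu T t)⁻¹ ∉ Q.V := fun i => by rwa [hu]
    refine swap_of _ (fun i => res Q (e i) (h1 i))
      (fun i => Place.ext (SetLike.ext fun f => ?_)) ?_
    · change e (act g i) f ∈ Q.V ↔ e i f ∈ Q.V
      rw [← hact, ← hQ]
    · have h2 : n ≤ {P : Place k F | 0 < P.ord (uu T t)}.ncard + 1 := by
        cases t with
        | some a => exact hM.1 a
        | none =>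
          have h3 : T ≠ 0 := fun e => hTT (e ▸ isAlgebraic_zero)
          simp only [uu, ord_inv A _ h3, neg_pos]
          exact hM.2
      refine h2.trans (Nat.succ_le_succ (Set.ncard_le_ncard fun P hP => ?_))
      obtain ⟨Q', hQ'⟩ := extend P (e ⟨0, hn⟩)
      have h3 := mt (hQ' _).2 ((pos_iff A P (ne_uu hTT t)).1 hP)
      rw [hu, ← pos_iff A' _ (ne_uu hC.tr t)] at h3
      rw [← pos_iff A' _ (ne_uu hC.tr t)] at ht
      obtain ⟨g', hg'⟩ := hT k L A' T' hC.tr hC.fd hC.gal Q Q' (by
        cases t with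
        | some a => exact Or.inl ⟨a, ht, h3⟩
        | none =>
          have h4 : T' ≠ 0 := fun e => hC.tr (e ▸ isAlgebraic_zero)
          rw [uu, ord_inv A' _ h4, neg_pos] at ht h3
          exact Or.inr ⟨ht, h3⟩)
      refine ⟨act g' ⟨0, hn⟩, Place.ext (SetLike.ext fun f => ?_)⟩
      change e (act g' _) f ∈ Q.V ↔ _
      rw [← hact, ← hg', ← hQ']

end Pool.Agent.MP_f3836a_nt.PK
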