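import Pool.Agent.MP_f3836a_nt.PK.SpecA

set_option autoImplicit false

/-! Two counting inequalities: an incidence quadratic form and an average over lines. -/

namespace Pool.Agent.MP_f3836a_nt.PK

open Finset

universe u

namespace Comb

theorem sum_ind {Y : Type u} [DecidableEq Y] {s Z : Finset Y} (h : Z ⊆ s) (φ : Y → ℝ) :
    ∑ y ∈ Z, φ y = ∑ y ∈ s, (if y ∈ Z then (1 : ℝ) else 0) * φ y := by
  simp only [ite_mul, one_mul, zero_mul]
  rw [← sum_filter, filter_mem_eq_inter, inter_eq_right.2 h]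

theorem expand {Y H : Type u} [DecidableEq Y] (s : Finset Y) (A : Finset H) (Z : H → Finset Y)
    (φ : Y → ℝ) (hZ : ∀ h ∈ A, Z h ⊆ s) :
    ∑ h ∈ A, (∑ y ∈ Z h, φ y) ^ 2 = ∑ y ∈ s, ∑ y' ∈ s,
      ((A.filter fun h => y ∈ Z h ∧ y' ∈ Z h).card : ℝ) * (φ y * φ y') := by
  have h1 : ∀ h ∈ A, (∑ y ∈ Z h, φ y) ^ 2 = ∑ y ∈ s, ∑ y' ∈ s,
      (if y ∈ Z h ∧ y' ∈ Z h then (1 : ℝ) else 0) * (φ y * φ y') := by
    intro h hh
    rw [sum_ind (hZ h hh) φ, sq, sum_mul_sum]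
    refine sum_congr rfl fun y _ => sum_congr rfl fun y' _ => ?_
    by_cases h1 : y ∈ Z h <;> by_cases h2 : y' ∈ Z h <;> simp [h1, h2]
  rw [sum_congr rfl h1, sum_comm]
  refine sum_congr rfl fun y _ => ?_
  rw [sum_comm]
  refine sum_congr rfl fun y' _ => ?_
  rw [← sum_mul, sum_boole]

theorem lower {Y : Type u} [DecidableEq Y] (s : Finset Y) (N : Y → Y → ℝ) (a b θ : ℝ)
    (φ : Y → ℝ) (hb : 0 ≤ b) (hθ : 0 ≤ θ) (h1 : ∀ y ∈ s, a ≤ N y y)
    (h2 : ∀ y ∈ s, ∀ y' ∈ s, y ≠ y' → |N y y' - b| ≤ θ) :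
    (a - b - θ * s.card) * ∑ y ∈ s, φ y ^ 2 ≤ ∑ y ∈ s, ∑ y' ∈ s, N y y' * (φ y * φ y') := by
  have key : ∀ y ∈ s, ∀ y' ∈ s, b * (φ y * φ y') + (if y = y' then (a - b) * φ y ^ 2 else 0)
      - θ * ((φ y ^ 2 + φ y' ^ 2) / 2) ≤ N y y' * (φ y * φ y') := by
    intro y hy y' hy'
    by_cases h : y = y'
    · subst h
      rw [if_pos rfl]
      have := h1 y hy
      nlinarith [mul_nonneg (sub_nonneg.2 this) (sq_nonneg (φ y)), mul_nonneg hθ (sq_nonneg (φ y))]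
    · rw [if_neg h]
      obtain ⟨h3, h4⟩ := abs_le.1 (h2 y hy y' hy' h)
      nlinarith [mul_nonneg (sub_nonneg.2 h3) (sq_nonneg (φ y + φ y')),
        mul_nonneg (sub_nonneg.2 h4) (sq_nonneg (φ y - φ y'))]
  refine le_trans ?_ (sum_le_sum fun y hy => sum_le_sum fun y' hy' => key y hy y' hy')
  have e1 : ∑ y ∈ s, ∑ y' ∈ s, b * (φ y * φ y') = b * (∑ y ∈ s, φ y) ^ 2 := by
    rw [sq, sum_mul_sum, mul_sum]
    exact sum_congr rfl fun y _ => (mul_sum _ _ _).symm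
  have e2 : ∑ y ∈ s, ∑ y' ∈ s, (if y = y' then (a - b) * φ y ^ 2 else 0) =
      (a - b) * ∑ y ∈ s, φ y ^ 2 := by
    rw [mul_sum]
    refine sum_congr rfl fun y hy => ?_
    rw [sum_ite_eq, if_pos hy]
  have e3 : ∑ y ∈ s, ∑ y' ∈ s, θ * ((φ y ^ 2 + φ y' ^ 2) / 2) =
      θ * s.card * ∑ y ∈ s, φ y ^ 2 := by
    simp only [← mul_sum, ← sum_div, sum_add_distrib, sum_const, nsmul_eq_mul]
    ring
  simp only [sum_sub_distrib, sum_add_distrib]
  rw [e1, e2, e3]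
  nlinarith [mul_nonneg hb (sq_nonneg (∑ y ∈ s, φ y))]

theorem discard {Y H : Type u} [DecidableEq Y] (s : Finset Y) (B : Finset H) (Z : H → Finset Y)
    (e : ℕ) (κ : ℝ) (φ : Y → ℝ) (hZ : ∀ h ∈ B, Z h ⊆ s ∧ (Z h).card ≤ e)
    (hκ : ∀ y ∈ s, ((B.filter fun h => y ∈ Z h).card : ℝ) ≤ κ) :
    ∑ h ∈ B, (∑ y ∈ Z h, φ y) ^ 2 ≤ e * κ * ∑ y ∈ s, φ y ^ 2 := by
  have h1 : ∀ h ∈ B, (∑ y ∈ Z h, φ y) ^ 2 ≤
      e * ∑ y ∈ s, (if y ∈ Z h then (1 : ℝ) else 0) * φ y ^ 2 := by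
    intro h hh
    rw [← sum_ind (hZ h hh).1 fun y => φ y ^ 2]
    refine sq_sum_le_card_mul_sum_sq.trans ?_
    exact mul_le_mul_of_nonneg_right (by exact_mod_cast (hZ h hh).2)
      (sum_nonneg fun y _ => sq_nonneg _)
  refine (sum_le_sum h1).trans ?_
  rw [← mul_sum, mul_assoc, sum_comm, mul_sum _ _ κ]
  refine mul_le_mul_of_nonneg_left (sum_le_sum fun y hy => ?_) (Nat.cast_nonneg e)
  rw [← sum_mul, sum_boole]
  exact mul_le_mul_of_nonneg_right (hκ y hy) (sq_nonneg _)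

theorem pair {S V : Type u} [Field S] [AddCommGroup V] [Module S V] [Fintype V] (φ : V → ℝ)
    {t t' : S} (h : t ≠ t') :
    ∑ v : V, ∑ w : V, φ (v + t • w) * φ (v + t' • w) = (∑ v, φ v) * ∑ v, φ v := by
  have h0 : t' - t ≠ 0 := sub_ne_zero.2 h.symm
  rw [sum_comm]
  have h1 : ∀ w : V, ∑ v : V, φ (v + t • w) * φ (v + t' • w) =
      ∑ v : V, φ v * φ (v + (t' - t) • w) := by
    intro w
    refine Fintype.sum_equiv (Equiv.addRight (t • w)) _ _ fun v => ?_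
    simp only [Equiv.coe_addRight, sub_smul]
    rw [show v + t • w + (t' • w - t • w) = v + t' • w by abel]
  rw [sum_congr rfl fun w _ => h1 w, sum_comm, sum_mul]
  refine sum_congr rfl fun v _ => ?_
  rw [← mul_sum]
  congr 1
  refine Fintype.sum_bijective (fun w : V => v + (t' - t) • w) ?_ _ _ fun _ => rfl
  refine Finite.injective_iff_bijective.1 fun w w' hw => ?_
  exact smul_right_injective V h0 (add_left_cancel hw)

theorem diag {S V : Type u} [Field S] [AddCommGroup V] [Module S V] [Fintype V] (φ : V → ℝ)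
    (t : S) : ∑ v : V, ∑ w : V, φ (v + t • w) * φ (v + t • w) =
      Fintype.card V * ∑ v, φ v ^ 2 := by
  rw [sum_comm]
  have h1 : ∀ w : V, ∑ v : V, φ (v + t • w) * φ (v + t • w) = ∑ v : V, φ v ^ 2 := fun w =>
    Fintype.sum_equiv (Equiv.addRight (t • w)) _ _ fun v => by
      simp only [Equiv.coe_addRight, sq]
  rw [sum_congr rfl fun w _ => h1 w, sum_const, card_univ, nsmul_eq_mul]

end Comb

theorem rComb : RComb.{u} := by
  intro Y H _ _ s A E Z e a b θ κ φ hZ hb hθ _ h1 h2 h3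
  have e1 := Comb.expand s A Z φ fun h hh => (hZ h hh).1
  have e2 := Comb.lower s (fun y y' => ((A.filter fun h => y ∈ Z h ∧ y' ∈ Z h).card : ℝ)) a b θ φ
    hb hθ (fun y hy => by simpa only [and_self] using h1 y hy) h2
  have e3 := Comb.discard s (A ∩ E) Z e κ φ (fun h hh => hZ h (mem_inter.1 hh).1) h3
  have e4 := sum_inter_add_sum_sdiff A E fun h => (∑ y ∈ Z h, φ y) ^ 2
  rw [← e1] at e2
  linarith

theorem rAvg : RAvg.{u} := by
  classical
  intro S V _ _ _ _ _ φ h0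
  have h1 : ∑ h : V, ∑ h' : V, (∑ t : S, φ (h + t • h')) ^ 2 =
      ∑ t : S, ∑ t' : S, ∑ h : V, ∑ h' : V, φ (h + t • h') * φ (h + t' • h') := by
    simp only [sq, sum_mul_sum]
    calc ∑ h : V, ∑ h' : V, ∑ t : S, ∑ t' : S, φ (h + t • h') * φ (h + t' • h')
        = ∑ h : V, ∑ t : S, ∑ t' : S, ∑ h' : V, φ (h + t • h') * φ (h + t' • h') := by
          refine sum_congr rfl fun h _ => ?_
          rw [sum_comm]
          exact sum_congr rfl fun t _ => sum_comm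
      _ = _ := by
          rw [sum_comm]
          exact sum_congr rfl fun t _ => sum_comm
  have h2 : ∀ t : S, ∑ t' : S, ∑ h : V, ∑ h' : V, φ (h + t • h') * φ (h + t' • h') =
      Fintype.card V * ∑ v, φ v ^ 2 := by
    intro t
    rw [sum_eq_single t (fun t' _ ht => ?_) fun h => absurd (mem_univ t) h, Comb.diag]
    rw [Comb.pair φ ht.symm, h0, mul_zero]
  rw [h1, sum_congr rfl fun t _ => h2 t, sum_const, card_univ, nsmul_eq_mul, mul_assoc]

end Pool.Agent.MP_f3836a_nt.PK
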