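import Pool.Agent.MP_f3836a_nt.PK.SpecA

set_option autoImplicit false

/-! The degree of the zero divisor of a separating element. -/

namespace Pool.Agent.MP_f3836a_nt.PK

open Polynomial IntermediateField IsDedekindDomain WithZero

universe u

namespace Deg

variable {k F : Type u} [Field k] [Field F] [Algebra k F]

theorem ord_one (A : PlA k F) (P : Place k F) : P.ord 1 = 0 := by
  simpa using A.con P 1

theorem ord_zpow (A : PlA k F) (P : Place k F) {f : F} (hf : f ≠ 0) (n : ℤ) :
    P.ord (f ^ n) = n * P.ord f := by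
  have hi : P.ord f⁻¹ = -P.ord f := by
    have := A.mul P f f⁻¹ hf (inv_ne_zero hf)
    rw [mul_inv_cancel₀ hf, ord_one A] at this
    linarith
  induction n using Int.induction_on with
  | zero => simp [ord_one A]
  | succ n ih => rw [zpow_add_one₀ hf, A.mul P _ _ (zpow_ne_zero _ hf) hf, ih]; ring
  | pred n ih =>
    rw [zpow_sub_one₀ hf, A.mul P _ _ (zpow_ne_zero _ hf) (inv_ne_zero hf), ih, hi]; ring

/-- The order is the logarithm of a normalized valuation with the same ring. -/
theorem ord_eq (A : PlA k F) (P : Place k F) (w : Valuation F ℤᵐ⁰) (hw : P.V = w.valuationSubring)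
    {π : F} (hπ : w π = exp (-1)) {f : F} (hf : f ≠ 0) : w f = exp (-P.ord f) := by
  have hm : ∀ g, g ∈ P.V ↔ w g ≤ 1 := fun g => by rw [hw]; rfl
  have π0 : π ≠ 0 := by
    rintro rfl
    exact exp_ne_zero (hπ.symm.trans (map_zero w))
  have key : ∀ g : F, g ≠ 0 → ∃ n : ℤ, w g = exp (-n) ∧ P.ord g = n * P.ord π := fun g hg => by
    have h0 : w g ≠ 0 := by simpa using hg
    refine ⟨-log (w g), by rw [neg_neg, exp_log h0], ?_⟩
    have hu : g * π ^ log (w g) ≠ 0 := mul_ne_zero hg (zpow_ne_zero _ π0)
    have h1 : w (g * π ^ log (w g)) = 1 := by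
      rw [map_mul, map_zpow₀, hπ, ← exp_zsmul, ← exp_log h0, ← exp_add, log_exp]
      simp
    have h2 := (A.mem P _ hu).1 ((hm _).2 h1.le)
    have h3 := (A.mem P _ (inv_ne_zero hu)).1 ((hm _).2 (by rw [map_inv₀, h1, inv_one]))
    rw [← zpow_neg_one, ord_zpow A P hu] at h3
    rw [A.mul P _ _ hg (zpow_ne_zero _ π0), ord_zpow A P π0] at h2 h3
    linarith
  have h1 : P.ord π = 1 := by
    obtain ⟨ϖ, h0, h1⟩ := A.uni P
    obtain ⟨n, -, hn⟩ := key ϖ h0
    have h2 : 0 ≤ P.ord π := (A.mem P π π0).1 ((hm π).2 (by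
      rw [hπ, ← exp_zero, exp_le_exp]; norm_num))
    exact Int.eq_one_of_mul_eq_one_left h2 (hn.symm.trans h1)
  obtain ⟨n, h2, h3⟩ := key f hf
  rw [h2, h3, h1, mul_one]

section

variable {S : Type u} [CommRing S] [IsDedekindDomain S] [Algebra S F] [IsFractionRing S F]
  [Algebra k S] [IsScalarTower k S F]

/-- The place of a prime. -/
noncomputable def pl (k F : Type u) [Field k] [Field F] [Algebra k F] [Algebra S F]
    [IsFractionRing S F] [Algebra k S] [IsScalarTower k S F] (v : HeightOneSpectrum S) :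
    Place k F where
  V := (v.valuation F).valuationSubring
  ne := by
    simp only [ne_eq, Valuation.valuationSubring_eq_top_iff, not_not]
    infer_instance
  const a := by
    rw [IsScalarTower.algebraMap_apply k S F]
    exact v.valuation_le_one _

theorem mem_pow (A : PlA k F) (v : HeightOneSpectrum S) {s : S} (hs : s ≠ 0) (j : ℕ) :
    s ∈ v.asIdeal ^ j ↔ (j : ℤ) ≤ (pl k F v).ord (algebraMap S F s) := by
  obtain ⟨π, hπ⟩ := v.valuation_exists_uniformizer F
  rw [← v.intValuation_le_pow_iff_mem, ← v.valuation_of_algebraMap (K := F),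
    ord_eq A (pl k F v) _ rfl hπ ((map_ne_zero_iff _ (IsFractionRing.injective S F)).2 hs),
    exp_le_exp, neg_le_neg_iff]

theorem mem_iff (A : PlA k F) (v : HeightOneSpectrum S) (s : S) :
    s ∈ v.asIdeal ↔ (pl k F v).Zero (algebraMap S F s) := by
  by_cases hs : s = 0
  · simp [hs, Place.Zero]
  · have := mem_pow A v hs 1
    rw [pow_one] at this
    rw [this, Place.Zero, or_iff_right ((map_ne_zero_iff _ (IsFractionRing.injective S F)).2 hs)]
    exact Iff.rfl

theorem pl_inj (A : PlA k F) : Function.Injective (pl k F : HeightOneSpectrum S → _) :=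
  fun v w h => HeightOneSpectrum.ext (Ideal.ext fun s => by rw [mem_iff A, mem_iff A, h])

theorem pl_surj (P : Place k F) (hP : ∀ s : S, algebraMap S F s ∈ P.V) {t : S} (ht : t ≠ 0)
    (h : algebraMap S F t ∈ P.V.nonunits) : ∃ v : HeightOneSpectrum S, pl k F v = P := by
  let φ : S →+* P.V := (algebraMap S F).codRestrict P.V.toSubring hP
  let v : HeightOneSpectrum S := ⟨(IsLocalRing.maximalIdeal P.V).comap φ, inferInstance, by
    intro h0
    have : t ∈ (IsLocalRing.maximalIdeal P.V).comap φ :=
      (ValuationSubring.coe_mem_nonunits_iff (a := φ t)).1 h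
    rw [h0] at this
    exact ht this⟩
  refine ⟨v, Place.ext ?_⟩
  change (v.valuation F).valuationSubring = _
  rw [← v.valuationSubringAtPrime_eq_valuationSubring]
  refine ValuationSubring.eq_of_le_of_ne_top _ ?_ P.ne
  rintro x ⟨a, s, hs, rfl⟩
  refine mul_mem (hP a) ?_
  have h1 : algebraMap S F s ∉ P.V.nonunits := fun h =>
    hs ((ValuationSubring.coe_mem_nonunits_iff (a := φ s)).1 h)
  rw [ValuationSubring.mem_nonunits_iff_or, not_or, not_not] at h1
  exact h1.2

end

end Deg

open Deg in
theorem rDeg : RDeg.{u} := by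
  intro k F _ _ _ _ A T hT hfd hsep
  classical
  let K := adjoin k {T}
  let _ : Algebra k[X] F := (aeval T : k[X] →ₐ[k] F).toRingHom.toAlgebra
  let _ : Algebra k[X] K := (aeval (AdjoinSimple.gen k T) : k[X] →ₐ[k] K).toRingHom.toAlgebra
  have hF : ∀ q : k[X], algebraMap k[X] F q = aeval T q := fun _ => rfl
  have _ : IsScalarTower k[X] K F := .of_algebraMap_eq fun q =>
    (aeval_algebraMap_apply F (AdjoinSimple.gen k T) q)
  have _ : IsScalarTower k k[X] F := .of_algebraMap_eq fun a => (aeval_C T a).symm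
  have hinj : Function.Injective (algebraMap k[X] F) := transcendental_iff_injective.1 hT
  have _ : FaithfulSMul k[X] K := (faithfulSMul_iff_algebraMap_injective _ _).2
    (Function.Injective.of_comp (f := algebraMap K F) (by
      rwa [IsScalarTower.algebraMap_eq k[X] K F] at hinj))
  have _ : IsFractionRing k[X] K := IsFractionRing.of_field _ _ fun z => by
    obtain ⟨r, s, h⟩ := (mem_adjoin_simple_iff k z.1).1 z.2
    refine ⟨r, s, (algebraMap K F).injective ?_⟩
    rw [map_div₀, ← IsScalarTower.algebraMap_apply, ← IsScalarTower.algebraMap_apply]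
    exact h
  let S := integralClosure k[X] F
  have _ : IsDedekindDomain S := integralClosure.isDedekindDomain k[X] K F
  have _ : IsFractionRing S F := integralClosure.isFractionRing_of_finite_extension K F
  have _ : Module.Finite k[X] S := IsIntegralClosure.finite k[X] K F S
  have _ : FaithfulSMul k[X] S := (faithfulSMul_iff_algebraMap_injective _ _).2
    (Function.Injective.of_comp (f := algebraMap S F) (by
      rwa [IsScalarTower.algebraMap_eq k[X] S F] at hinj))
  let p : Ideal k[X] := Ideal.span {X}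
  have hp : p.IsMaximal := PrincipalIdealRing.isMaximal_of_irreducible irreducible_X
  have hp0 : p ≠ ⊥ := by simp [p]
  let t : S := algebraMap k[X] S X
  have htT : algebraMap S F t = T := aeval_X T
  have T0 : T ≠ 0 := fun h => hT (h ▸ isAlgebraic_zero)
  have t0 : t ≠ 0 := fun h => T0 (by rw [← htT, h, map_zero])
  have hmap : p.map (algebraMap k[X] S) = Ideal.span {t} := by
    rw [Ideal.map_span, Set.image_singleton]
  have hpos : ∀ v : HeightOneSpectrum S, t ∈ v.asIdeal ↔ 0 < (pl k F v).ord T := fun v => by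
    rw [mem_iff A, htT, Place.Zero, or_iff_right T0]
  have hover : ∀ v : HeightOneSpectrum S,
      v.asIdeal ∈ IsDedekindDomain.primesOverFinset p S ↔ t ∈ v.asIdeal := fun v => by
    rw [IsDedekindDomain.mem_primesOverFinset_iff hp0]
    refine ⟨fun h => ?_, fun h => ⟨v.isPrime, ⟨hp.eq_of_le (Ideal.comap_ne_top _ v.isPrime.ne_top)
      ((Ideal.span_singleton_le_iff_mem _).2 h)⟩⟩⟩
    have h1 : X ∈ p := Ideal.mem_span_singleton_self _
    rwa [h.2.over] at h1
  have hsurj : ∀ P : Place k F, 0 < P.ord T → ∃ v : HeightOneSpectrum S, pl k F v = P := by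
    intro P hP
    have hTV : T ∈ P.V := (A.mem P T T0).2 hP.le
    have hq : ∀ q : k[X], algebraMap k[X] F q ∈ P.V := fun q => by
      rw [hF, aeval_eq_sum_range]
      refine sum_mem fun i _ => ?_
      rw [Algebra.smul_def]
      exact mul_mem (P.const _) (pow_mem hTV i)
    refine pl_surj P (fun s => ?_) t0 (by rw [htT, ← A.zero]; exact Or.inr hP)
    let _ : Algebra k[X] P.V := ((algebraMap k[X] F).codRestrict P.V.toSubring hq).toAlgebra
    have _ : IsScalarTower k[X] P.V F := .of_algebraMap_eq fun _ => rfl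
    obtain ⟨y, hy⟩ := IsIntegrallyClosed.isIntegral_iff.1
      (IsIntegral.tower_top (A := P.V) (x := (s : F)) s.2)
    exact (show (y : F) = algebraMap S F s from hy) ▸ y.2
  have hZ : {v : HeightOneSpectrum S | t ∈ v.asIdeal}.Finite :=
    Set.Finite.of_finite_image (f := HeightOneSpectrum.asIdeal)
      ((IsDedekindDomain.primesOverFinset p S).finite_toSet.subset (by
        rintro _ ⟨v, hv, rfl⟩
        exact (hover v).2 hv)) fun v _ w _ h => HeightOneSpectrum.ext h
  have him : {P : Place k F | 0 < P.ord T} = pl k F '' {v : HeightOneSpectrum S | t ∈ v.asIdeal} := by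
    ext P
    constructor
    · intro h
      obtain ⟨v, rfl⟩ := hsurj P h
      exact ⟨v, (hpos v).2 h, rfl⟩
    · rintro ⟨v, h, rfl⟩
      exact (hpos v).1 h
  refine ⟨him ▸ hZ.image _, ?_⟩
  rw [finsum_eq_sum_of_support_subset (s := hZ.toFinset.image (pl k F)) _ (fun P hP => by
    have h1 : P ∈ {P : Place k F | 0 < P.ord T} := by
      by_contra h
      exact hP (max_eq_right (not_lt.1 h))
    rw [him] at h1
    simpa using h1), Finset.sum_image fun v _ w _ h => pl_inj A h,
    ← Ideal.sum_ramification_inertia S K F hp0, Nat.cast_sum]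
  refine Finset.sum_bij (fun v _ => v.asIdeal) (fun v hv => (hover v).2 (by simpa using hv))
    (fun v _ w _ h => HeightOneSpectrum.ext h) (fun Q hQ => ?_) fun v hv => ?_
  · have h1 := (IsDedekindDomain.mem_primesOverFinset_iff hp0 _).1 hQ
    have := h1.1
    have := h1.2
    let v : HeightOneSpectrum S := ⟨Q, h1.1, Ideal.ne_bot_of_liesOver_of_ne_bot hp0 Q⟩
    exact ⟨v, by simpa using (hover v).1 hQ, rfl⟩
  · have hv' : t ∈ v.asIdeal := by simpa using hv
    have h0 := (hpos v).1 hv'
    have h1 := (IsDedekindDomain.mem_primesOverFinset_iff hp0 _).1 ((hover v).2 hv')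
    have := h1.2
    have he : Ideal.ramificationIdx' p v.asIdeal = ((pl k F v).ord T).toNat := by
      refine Ideal.ramificationIdx'_spec ?_ ?_ <;>
        rw [hmap, Ideal.span_singleton_le_iff_mem, mem_pow A v t0, htT] <;> omega
    have hf : Ideal.inertiaDeg' p v.asIdeal = 1 := by
      rw [Ideal.inertiaDeg'_algebraMap]
      have := v.isPrime
      let _ := Ideal.Quotient.field p
      refine Algebra.finrank_eq_one_iff_bijective_algebraMap.2
        ⟨(algebraMap (k[X] ⧸ p) (S ⧸ v.asIdeal)).injective, fun z => ?_⟩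
      obtain ⟨s, rfl⟩ := Ideal.Quotient.mk_surjective z
      have hs : algebraMap S F s ∈ (pl k F v).V := v.valuation_le_one s
      refine ⟨Ideal.Quotient.mk p (C ((pl k F v).val (algebraMap S F s))), ?_⟩
      refine (Ideal.Quotient.eq.2 ((mem_iff A v _).2 ?_)).symm
      rw [map_sub, ← IsScalarTower.algebraMap_apply, hF, aeval_C]
      exact (A.val _ _ hs _).2 rfl
    rw [he, hf, mul_one, max_eq_left h0.le, Int.toNat_of_nonneg h0.le]

end Pool.Agent.MP_f3836a_nt.PK
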