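import Pool.Agent.MP_f3836a_nt.PK.SpecA

set_option autoImplicit false

/-! The elementary bound for the dimension of the space attached to a divisor. -/

namespace Pool.Agent.MP_f3836a_nt.PK

open IntermediateField

universe u

namespace LE

variable {k F : Type u} [Field k] [Field F] [Algebra k F]

theorem exists_ord (hA : PlA k F) (P : Place k F) (n : ℤ) : ∃ w : F, w ≠ 0 ∧ P.ord w = n := by
  obtain ⟨π, hπ, h1⟩ := hA.uni P
  have h0 : P.ord (1 : F) = 0 := by simpa using hA.con P 1
  have h2 : P.ord π⁻¹ = -1 := by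
    have := hA.mul P π π⁻¹ hπ (inv_ne_zero hπ)
    rw [mul_inv_cancel₀ hπ, h0, h1] at this
    omega
  induction n using Int.induction_on with
  | zero => exact ⟨1, one_ne_zero, h0⟩
  | succ n ih =>
    obtain ⟨w, hw, e⟩ := ih
    exact ⟨w * π, mul_ne_zero hw hπ, by rw [hA.mul P w π hw hπ, e, h1]⟩
  | pred n ih =>
    obtain ⟨w, hw, e⟩ := ih
    exact ⟨w * π⁻¹, mul_ne_zero hw (inv_ne_zero hπ),
      by rw [hA.mul P w π⁻¹ hw (inv_ne_zero hπ), e, h2]; ring⟩

theorem nonempty (hF : IsFF k F) (hB : PlB k F) : Nonempty (Place k F) := by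
  obtain ⟨t, ht, hd⟩ := hF
  by_contra h
  have : IsEmpty (Place k F) := not_nonempty_iff.1 h
  have h1 := hB.deg t ht
  rw [finsum_of_isEmpty] at h1
  have h2 : 0 < Module.finrank (adjoin k {t}) F := Module.finrank_pos
  omega

theorem neg (hB : PlB k F) (E : Place k F →₀ ℤ) (W : Submodule k F)
    (h : ∀ f ∈ W, f ≠ 0 → ∀ P, -E P ≤ P.ord f) (hE : ∑ᶠ P, E P < 0) : W = ⊥ := by
  rw [eq_bot_iff]
  intro f hf
  by_contra h0
  have h1 : ∑ᶠ P, -E P ≤ ∑ᶠ P : Place k F, P.ord f :=
    finsum_le_finsum' (-E).hasFiniteSupport (hB.fin f) (h f hf h0)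
  rw [hB.sum, finsum_neg_distrib] at h1
  omega

theorem bound (hF : IsFF k F) (hA : PlA k F) (hB : PlB k F) (n : ℕ) :
    ∀ (E : Place k F →₀ ℤ) (W : Submodule k F), (∀ f ∈ W, f ≠ 0 → ∀ P, -E P ≤ P.ord f) →
      ∑ᶠ P, E P < n → FiniteDimensional k W ∧ Module.finrank k W ≤ n := by
  classical
  induction n with
  | zero =>
    intro E W h hE
    rw [neg hB E W h (by simpa using hE)]
    exact ⟨inferInstance, by simp⟩
  | succ n ih =>
    intro E W h hE
    obtain ⟨P⟩ := nonempty hF hB
    obtain ⟨w, hw, ew⟩ := exists_ord hA P (E P)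
    obtain ⟨χ, hχ, hc⟩ := hA.hom P
    have hm : ∀ f : W, (f : F) * w ∈ P.V := fun f => by
      by_cases h0 : (f : F) = 0
      · rw [h0, zero_mul]
        exact zero_mem _
      · rw [hA.mem P _ (mul_ne_zero h0 hw), hA.mul P _ _ h0 hw, ew]
        have := h f f.2 h0 P
        omega
    let l : W →ₗ[k] k :=
      { toFun := fun f => χ ⟨f * w, hm f⟩
        map_add' := fun f g => by
          rw [← map_add]
          exact congrArg χ (Subtype.ext (add_mul _ _ _))
        map_smul' := fun a f => by
          have e : χ ⟨algebraMap k F a, P.const a⟩ = a := (hχ _).trans (hc a)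
          rw [RingHom.id_apply, smul_eq_mul]
          refine Eq.trans ?_ ((map_mul χ ⟨algebraMap k F a, P.const a⟩ ⟨f * w, hm f⟩).trans
            (by rw [e]))
          refine congrArg χ (Subtype.ext ?_)
          change ((a • f : W) : F) * w = algebraMap k F a * (f * w)
          rw [Submodule.coe_smul, Algebra.smul_def, mul_assoc] }
    have hs : ∑ᶠ Q, (E - Finsupp.single P 1 : Place k F →₀ ℤ) Q = ∑ᶠ Q, E Q - 1 := by
      simp only [Finsupp.sub_apply]
      rw [finsum_sub_distrib E.hasFiniteSupport (Finsupp.single P (1 : ℤ)).hasFiniteSupport,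
        finsum_eq_single _ P fun Q hQ => Finsupp.single_eq_of_ne hQ, Finsupp.single_eq_same]
    obtain ⟨i1, i2⟩ := ih (E - Finsupp.single P 1) ((LinearMap.ker l).map W.subtype) (by
      rintro _ ⟨f, hf, rfl⟩ h0 Q
      have h1 := h f f.2 h0 Q
      rw [Finsupp.sub_apply]
      by_cases hQ : Q = P
      · subst hQ
        have h2 : Q.val ((f : F) * w) = 0 := (hχ ⟨f * w, hm f⟩).symm.trans hf
        have h3 := (hA.val Q _ (hm f) 0).2 h2
        rw [map_zero, sub_zero] at h3
        rcases h3 with h3 | h3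
        · exact absurd h3 (mul_ne_zero h0 hw)
        · rw [hA.mul Q (f : F) w h0 hw, ew] at h3
          rw [Finsupp.single_eq_same]
          change _ ≤ Q.ord (f : F)
          omega
      · rw [Finsupp.single_eq_of_ne hQ, sub_zero]
        exact h1) (by rw [hs]; push_cast at hE; omega)
    have e := Submodule.equivMapOfInjective W.subtype W.injective_subtype (LinearMap.ker l)
    have i3 : FiniteDimensional k (LinearMap.ker l) := e.symm.finiteDimensional
    have i4 : FiniteDimensional k W := Module.finite_def.2 <|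
      Submodule.fg_of_fg_map_of_fg_inf_ker l (IsNoetherian.noetherian _)
        (by rw [top_inf_eq]; exact Module.Finite.iff_fg.1 i3)
    refine ⟨i4, ?_⟩
    have h1 := l.finrank_range_add_finrank_ker
    have h2 := (LinearMap.range l).finrank_le
    rw [Module.finrank_self] at h2
    rw [e.finrank_eq] at h1
    omega

end LE

theorem rLE : RLE.{u} := by
  intro k F _ _ _ _ hF hA hB E W h
  refine ⟨LE.neg hB E W h, LE.bound hF hA hB _ E W h ?_⟩
  push_cast
  omega

end Pool.Agent.MP_f3836a_nt.PK
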