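import Pool.Agent.MP_f3836a_nt.PK.SpecA

set_option autoImplicit false

/-! Linear conditions at a generic point; descent of forms to a subfield. -/

namespace Pool.Agent.MP_f3836a_nt.PK

open MvPolynomial

universe u

namespace Lin

theorem card_le {k Ω : Type u} [Field k] [Field Ω] [Algebra k Ω] {m : ℕ} {a : Fin m → Ω}
    (ha : AlgebraicIndependent k a) (T : Set Ω)
    (h : ∀ j, IsAlgebraic (Algebra.adjoin k T) (a j)) : (m : ℕ∞) ≤ T.encard := by
  have hI : (AlgebraicIndependent.matroid k Ω).Indep (Set.range a) := ha.to_subtype_range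
  have h1 : Set.range a ⊆ (AlgebraicIndependent.matroid k Ω).closure T := by
    rintro _ ⟨j, rfl⟩
    rw [AlgebraicIndependent.matroid_closure_eq]
    exact h j
  have h2 := hI.encard_le_eRk_of_subset h1
  rw [Matroid.eRk_closure_eq, ← Set.image_univ, ha.injective.encard_image, Set.encard_univ,
    ENat.card_eq_coe_fintype_card, Fintype.card_fin] at h2
  exact h2.trans (Matroid.eRk_le_encard _ _)

/-- A solution of a linear system over a subfield is a combination of a basis of the rational
solutions. -/
theorem exists_comb {L Ω : Type u} [Field L] [Field Ω] [Algebra L Ω] {m c : ℕ}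
    (M : Matrix (Fin c) (Fin m) L) (hM : Function.Surjective M.mulVecLin) (a : Fin m → Ω)
    (ha : ∀ i, ∑ j, algebraMap L Ω (M i j) * a j = 0) :
    ∃ (r : ℕ) (b : Fin r → Fin m → L) (l : Fin r → Ω), r + c = m ∧
      ∀ i, a i = ∑ t, l t * algebraMap L Ω (b t i) := by
  classical
  choose N hN using fun l : Fin c => hM (Pi.single l 1)
  let K := LinearMap.ker M.mulVecLin
  let b := Module.finBasis L K
  have hP : ∀ j, (Pi.single j 1 - ∑ l, M l j • N l : Fin m → L) ∈ K := by
    intro j
    rw [LinearMap.mem_ker, map_sub, map_sum]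
    simp only [map_smul, hN]
    ext i
    simp [Pi.single_apply]
  refine ⟨_, fun t => (b t).1, fun t => ∑ j, a j * algebraMap L Ω (b.repr ⟨_, hP j⟩ t), ?_,
    fun i => ?_⟩
  · have h := LinearMap.finrank_range_add_finrank_ker M.mulVecLin
    rw [LinearMap.range_eq_top.2 hM] at h
    simp only [finrank_top, Module.finrank_fin_fun] at h
    rw [add_comm]
    exact h
  · have h1 : ∀ j, ∑ t, b.repr ⟨_, hP j⟩ t * (b t).1 i =
        (if i = j then 1 else 0) - ∑ l, M l j * N l i := by
      intro j
      have h := congrArg (fun x : K => x.1 i) (b.sum_repr ⟨_, hP j⟩)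
      simpa only [AddSubmonoidClass.coe_finsetSum, Submodule.coe_smul, Finset.sum_apply,
        Pi.smul_apply, smul_eq_mul, Pi.sub_apply, Pi.single_apply] using h
    simp only [Finset.sum_mul]
    rw [Finset.sum_comm]
    simp only [mul_assoc, ← map_mul, ← Finset.mul_sum, ← map_sum, h1]
    simp only [map_sub, map_sum, map_mul, mul_sub, Finset.sum_sub_distrib, Finset.mul_sum]
    rw [Finset.sum_comm (f := fun j l => a j * (algebraMap L Ω (M l j) * algebraMap L Ω (N l i))),
      Finset.sum_eq_zero (f := fun l => ∑ j, a j *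
        (algebraMap L Ω (M l j) * algebraMap L Ω (N l i))) fun l _ => ?_]
    · simp [apply_ite (algebraMap L Ω)]
    · rw [← zero_mul (algebraMap L Ω (N l i)), ← ha l, Finset.sum_mul]
      exact Finset.sum_congr rfl fun j _ => by ring

end Lin

theorem rLin : RLin.{u} := by
  intro k Ω _ _ _ s L hL m c a M ha hM hs h0
  obtain ⟨r, b, l, hr, hb⟩ := Lin.exists_comb (L := L) (Matrix.of fun i j => ⟨M i j, hM i j⟩)
    (fun w => by
      obtain ⟨b, hb, e⟩ := hs (fun i => w i) fun i => (w i).2
      refine ⟨fun j => ⟨b j, hb j⟩, funext fun i => Subtype.ext ?_⟩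
      rw [← e i]
      simp [Matrix.mulVec, dotProduct]) a h0
  have h1 := Lin.card_le ha ((s : Set Ω) ∪ Set.range l) fun j => by
    rw [hb j]
    refine (Subalgebra.algebraicClosure (Algebra.adjoin k ((s : Set Ω) ∪ Set.range l)) Ω).sum_mem
      fun t _ => mul_mem ?_ ?_
    · exact isAlgebraic_algebraMap (⟨l t, Algebra.subset_adjoin (Or.inr ⟨t, rfl⟩)⟩ :
        Algebra.adjoin k ((s : Set Ω) ∪ Set.range l))
    · exact (hL _ (b t j).2).adjoin_of_forall_isAlgebraic fun x hx => (hx.2 (Or.inl hx.1)).elim
  have h2 : (Set.range l).encard ≤ r := by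
    rw [← Set.image_univ]
    refine (Set.encard_image_le _ _).trans ?_
    rw [Set.encard_univ, ENat.card_eq_coe_fintype_card, Fintype.card_fin]
  have h3 := h1.trans ((Set.encard_union_le _ _).trans (add_le_add le_rfl h2))
  rw [Set.encard_coe_eq_coe_finsetCard] at h3
  have h4 : m ≤ s.card + r := by exact_mod_cast h3
  omega

theorem rRat : RRat.{u} := by
  intro Ω _ S n d r w hw h hd h0
  classical
  let e := Module.Free.chooseBasis S Ω
  let g : Module.Free.ChooseBasisIndex S Ω → MvPolynomial (Fin n) Ω := fun α =>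
    ∑ b ∈ h.support, monomial b (e.repr (coeff b h) α : Ω)
  have hc : ∀ α b, coeff b (g α) = (e.repr (coeff b h) α : Ω) := by
    intro α b
    simp only [g, coeff_sum, coeff_monomial, Finset.sum_ite_eq', mem_support_iff]
    split_ifs with hb
    · rfl
    · rw [not_not.1 hb]; simp
  let T := h.support.biUnion fun b => (e.repr (coeff b h)).support
  have hT : h = ∑ α ∈ T, e α • g α := by
    ext b
    simp only [coeff_sum, coeff_smul, hc, smul_eq_mul]
    by_cases hb : b ∈ h.support
    · conv_lhs => rw [← e.linearCombination_repr (coeff b h), Finsupp.linearCombination_apply]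
      rw [Finsupp.sum_of_support_subset _ (Finset.subset_biUnion_of_mem
        (fun b => (e.repr (coeff b h)).support) hb) (fun i a => a • e i) fun _ _ => zero_smul _ _]
      exact Finset.sum_congr rfl fun α _ => mul_comm _ _
    · rw [notMem_support_iff.1 hb]; simp
  rw [hT]
  refine Submodule.sum_mem _ fun α _ => Submodule.smul_mem _ _ (Submodule.subset_span
    ⟨fun b hb => hd fun hb' => hb ?_, fun b => ?_, fun a => ?_⟩)
  · rw [hc, hb']; simp
  · rw [hc]; exact Subtype.property _
  · let p : (Fin n →₀ ℕ) → S := fun b => ∏ i, (⟨w a i, hw a i⟩ : S) ^ b i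
    have hp : ∀ b, (p b : Ω) = ∏ i, w a i ^ b i := fun b => by simp [p]
    have h1 : ∑ b ∈ h.support, p b • coeff b h = 0 := by
      rw [← h0 a, eval_eq']
      exact Finset.sum_congr rfl fun b _ => by rw [← hp, mul_comm]; rfl
    have h2 := congrArg (fun x => ((e.repr x α : S) : Ω)) h1
    simp only [map_sum, map_smul, Finsupp.finsetSum_apply, Finsupp.smul_apply, smul_eq_mul,
      map_zero, Finsupp.zero_apply] at h2
    simp only [g, map_sum, eval_monomial]
    push_cast at h2
    rw [← h2]
    refine Finset.sum_congr rfl fun b _ => ?_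
    rw [hp, Finsupp.prod_fintype _ _ fun _ => pow_zero _, mul_comm]

end Pool.Agent.MP_f3836a_nt.PK
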