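import Pool.Agent.MP_f3836a_nt.PK.SpecA

set_option autoImplicit false

/-! Local properties of the places of a function field of one variable. -/

namespace Pool.Agent.MP_f3836a_nt.PK

open IntermediateField Polynomial

universe u

namespace PlA

variable {k F : Type u} [Field k] [Field F] [Algebra k F] {V : ValuationSubring F}

theorem v_const (hc : ∀ a : k, algebraMap k F a ∈ V) {a : k} (ha : a ≠ 0) :
    V.valuation (algebraMap k F a) = 1 := by
  refine le_antisymm ((V.valuation_le_one_iff _).2 (hc a)) ?_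
  have h := (V.valuation_le_one_iff _).2 (hc a⁻¹)
  rw [map_inv₀, map_inv₀] at h
  exact (inv_le_one₀ (zero_lt_iff.2 (by simpa using ha))).1 h

theorem v_poly (hc : ∀ a : k, algebraMap k F a ∈ V) {x : F} (hx : x ∈ V) (r : k[X]) :
    V.valuation (aeval x r) ≤ 1 := by
  rw [V.valuation_le_one_iff, aeval_eq_sum_range]
  refine V.toSubring.sum_mem fun i _ => ?_
  rw [Algebra.smul_def]
  exact V.toSubring.mul_mem (hc _) (V.toSubring.pow_mem hx i)

theorem v_unit [IsAlgClosed k] (hc : ∀ a : k, algebraMap k F a ∈ V) {f : F}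
    (h : ∀ a : k, V.valuation (f - algebraMap k F a) = 1) {r : k[X]} (hr : r ≠ 0) :
    V.valuation (aeval f r) = 1 := by
  rw [(IsAlgClosed.splits r).eq_prod_roots, map_mul, map_mul, aeval_C,
    v_const hc (leadingCoeff_ne_zero.2 hr), one_mul, map_multiset_prod, map_multiset_prod]
  refine Multiset.prod_eq_one fun y hy => ?_
  simp only [Multiset.mem_map] at hy
  obtain ⟨_, ⟨_, ⟨a, -, rfl⟩, rfl⟩, rfl⟩ := hy
  simpa using h a

theorem rel (K : IntermediateField k F) [FiniteDimensional K F] (y : F) :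
    ∃ (d : ℕ) (φ : ℕ → F), d ≤ Module.finrank K F ∧ (∀ i, φ i ∈ K) ∧ φ d = 1 ∧
      ∑ i ∈ Finset.range (d + 1), φ i * y ^ i = 0 := by
  have hi : IsIntegral K y := Algebra.IsIntegral.isIntegral y
  refine ⟨(minpoly K y).natDegree, fun i => ((minpoly K y).coeff i : F), minpoly.natDegree_le y,
    fun i => ((minpoly K y).coeff i).2, ?_, ?_⟩
  · simp only [(minpoly.monic hi).coeff_natDegree]
    rfl
  · have h := minpoly.aeval K y
    rw [aeval_eq_sum_range] at h
    exact h

theorem pair (K : IntermediateField k F) [FiniteDimensional K F] {y : F} (hy : y ≠ 0) :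
    ∃ θ ∈ K, θ ≠ 0 ∧ V.valuation y ^ (Module.finrank K F).factorial = V.valuation θ := by
  obtain ⟨d, φ, hd, hK, h1, h0⟩ := rel K y
  have key : ∀ i j, i < j → j ≤ d → V.valuation (φ i * y ^ i) = V.valuation (φ j * y ^ j) →
      V.valuation (φ j * y ^ j) ≠ 0 →
      ∃ θ ∈ K, θ ≠ 0 ∧ V.valuation y ^ (Module.finrank K F).factorial = V.valuation θ := by
    intro i j hij hj e h
    have hi0 : φ i ≠ 0 := fun z => h (by rw [← e, z, zero_mul, map_zero])
    have hj0 : φ j ≠ 0 := fun z => h (by rw [z, zero_mul, map_zero])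
    obtain ⟨c, rfl⟩ := Nat.exists_eq_add_of_lt hij
    obtain ⟨q, hq⟩ := Nat.dvd_factorial (Nat.succ_pos c) (show c + 1 ≤ Module.finrank K F by omega)
    refine ⟨(φ i / φ (i + c + 1)) ^ q, pow_mem (div_mem (hK _) (hK _)) q,
      pow_ne_zero _ (div_ne_zero hi0 hj0), ?_⟩
    rw [hq, pow_mul, map_pow, map_div₀]
    congr 1
    rw [eq_div_iff (by simpa using hj0)]
    rw [map_mul, map_mul, map_pow, map_pow, add_assoc, pow_add] at e
    apply mul_right_cancel₀ (pow_ne_zero i (by simpa using hy : V.valuation y ≠ 0))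
    rw [e, Nat.succ_eq_add_one]
    ac_rfl
  obtain ⟨j, hj, hm⟩ := (Finset.range (d + 1)).exists_max_image
    (fun i => V.valuation (φ i * y ^ i)) ⟨0, by simp⟩
  have hj0 : V.valuation (φ j * y ^ j) ≠ 0 := by
    refine (lt_of_lt_of_le (zero_lt_iff.2 ?_) (hm d (by simp))).ne'
    simp [h1, hy]
  by_contra hne
  apply hj0
  rw [← V.valuation.map_sum_eq_of_lt (f := fun i => φ i * y ^ i) hj fun i hi => ?_, h0, map_zero]
  obtain ⟨hi1, hi2⟩ := Finset.mem_sdiff.1 hi
  refine lt_of_le_of_ne (hm i hi1) fun e => hne ?_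
  rcases lt_or_gt_of_ne (Finset.notMem_singleton.1 hi2) with l | l
  · exact key i j l (Nat.lt_succ_iff.1 (Finset.mem_range.1 hj)) e hj0
  · exact key j i l (Nat.lt_succ_iff.1 (Finset.mem_range.1 hi1)) e.symm (e ▸ hj0)

theorem exists_x [IsAlgClosed k] (hc : ∀ a : k, algebraMap k F a ∈ V) (hV : V ≠ ⊤)
    (h : IsFF k F) : ∃ x : F, x ≠ 0 ∧ V.valuation x < 1 ∧ FiniteDimensional (adjoin k {x}) F := by
  obtain ⟨t, ht, hfd, htV⟩ : ∃ t : F, Transcendental k t ∧ FiniteDimensional (adjoin k {t}) F ∧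
      t ∈ V := by
    obtain ⟨t, ht, hfd⟩ := h
    rcases V.mem_or_inv_mem t with e | e
    · exact ⟨t, ht, hfd, e⟩
    · refine ⟨t⁻¹, fun z => ht (IsAlgebraic.inv_iff.1 z), ?_, e⟩
      have : adjoin k {t⁻¹} = adjoin k {t} :=
        le_antisymm (adjoin_simple_le_iff.2 (inv_mem (mem_adjoin_simple_self k t)))
          (adjoin_simple_le_iff.2 (by simpa using inv_mem (mem_adjoin_simple_self k t⁻¹)))
      rwa [this]
  obtain ⟨a, ha⟩ : ∃ a : k, V.valuation (t - algebraMap k F a) ≠ 1 := by
    by_contra hn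
    simp only [not_exists, not_not] at hn
    refine hV (top_unique fun y _ => ?_)
    by_cases hy : y = 0
    · exact hy ▸ V.zero_mem
    obtain ⟨θ, hθ, h0, e⟩ := pair (V := V) (adjoin k {t}) hy
    obtain ⟨r, s, rfl⟩ := (mem_adjoin_simple_iff k θ).1 hθ
    have hr : r ≠ 0 := by
      rintro rfl
      simp at h0
    have hs : s ≠ 0 := by
      rintro rfl
      simp at h0
    rw [map_div₀, v_unit hc hn hr, v_unit hc hn hs, div_one,
      pow_eq_one_iff_left (Nat.factorial_ne_zero _)] at e
    exact (V.valuation_le_one_iff y).1 e.le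
  refine ⟨t - algebraMap k F a, fun z => ht ?_, lt_of_le_of_ne ((V.valuation_le_one_iff _).2
    (V.toSubring.sub_mem htV (hc a))) ha, ?_⟩
  · rw [sub_eq_zero.1 z]
    exact isAlgebraic_algebraMap a
  · have : adjoin k {t - algebraMap k F a} = adjoin k {t} :=
      le_antisymm (adjoin_simple_le_iff.2 (sub_mem (mem_adjoin_simple_self k t)
        (IntermediateField.algebraMap_mem _ a))) (adjoin_simple_le_iff.2 (by
          simpa using add_mem (mem_adjoin_simple_self k (t - algebraMap k F a))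
            (IntermediateField.algebraMap_mem _ a)))
    rwa [this]

theorem one_of_near (hc : ∀ a : k, algebraMap k F a ∈ V) {u : F} {c : k} (h0 : c ≠ 0)
    (h : V.valuation (u - algebraMap k F c) < 1) : V.valuation u = 1 := by
  rw [← v_const hc h0] at h ⊢
  exact V.valuation.map_eq_of_sub_lt h

theorem lead_poly (hc : ∀ a : k, algebraMap k F a ∈ V) {x : F} (hx : V.valuation x < 1)
    {r : k[X]} (hr : r ≠ 0) : ∃ (m : ℕ) (c : k) (u : F), c ≠ 0 ∧ aeval x r = x ^ m * u ∧
      V.valuation (u - algebraMap k F c) < 1 := by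
  obtain ⟨q, e, hq⟩ := exists_eq_pow_rootMultiplicity_mul_and_not_dvd r hr 0
  rw [C_0, sub_zero] at e hq
  refine ⟨rootMultiplicity 0 r, q.coeff 0, aeval x q, fun z => hq (X_dvd_iff.2 z), ?_, ?_⟩
  · conv_lhs => rw [e]
    simp
  · have e' : aeval x q - algebraMap k F (q.coeff 0) = aeval x q.divX * x := by
      conv_lhs => rw [← divX_mul_X_add q]
      simp
    rw [e', map_mul]
    exact mul_lt_one_of_nonneg_of_lt_one_right
      (v_poly hc ((V.valuation_le_one_iff x).1 hx.le) _) zero_le hx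

theorem lead (hc : ∀ a : k, algebraMap k F a ∈ V) {x : F} (hx : V.valuation x < 1) {φ : F}
    (hφ : φ ∈ adjoin k {x}) (h0 : φ ≠ 0) : ∃ (m : ℤ) (c : k) (u : F), φ = x ^ m * u ∧
      V.valuation u = 1 ∧ V.valuation (u - algebraMap k F c) < 1 := by
  obtain ⟨r, s, rfl⟩ := (mem_adjoin_simple_iff k φ).1 hφ
  have hr : r ≠ 0 := by
    rintro rfl
    simp at h0
  have hs : s ≠ 0 := by
    rintro rfl
    simp at h0
  obtain ⟨m, c, u, h1, h2, h3⟩ := lead_poly hc hx hr
  obtain ⟨m', c', u', h1', h2', h3'⟩ := lead_poly hc hx hs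
  have e := one_of_near hc h1 h3
  have e' := one_of_near hc h1' h3'
  have hu' : u' ≠ 0 := fun z => by simp [z] at e'
  have hc' : algebraMap k F c' ≠ 0 := by simpa using h1'
  refine ⟨(m : ℤ) - m', c / c', u / u', ?_, by rw [map_div₀, e, e', div_one], ?_⟩
  · rw [h2, h2'] at h0 ⊢
    by_cases z : x = 0
    · have : m = 0 ∧ m' = 0 := by
        constructor <;> by_contra hm <;> simp [z, hm] at h0
      simp [this.1, this.2]
    · rw [zpow_sub₀ z, zpow_natCast, zpow_natCast, div_mul_div_comm]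
  · have e2 : u / u' - algebraMap k F (c / c') = ((u - algebraMap k F c) * algebraMap k F c' -
        (u' - algebraMap k F c') * algebraMap k F c) / (u' * algebraMap k F c') := by
      rw [map_div₀]
      field_simp
      ring
    rw [e2, map_div₀, map_mul, e', v_const hc h1', one_mul, div_one]
    refine V.valuation.map_sub_lt ?_ ?_
    · rwa [map_mul, v_const hc h1', mul_one]
    · rwa [map_mul, v_const hc h1, mul_one]

theorem near_const (hc : ∀ a : k, algebraMap k F a ∈ V) {x : F}
    (hx : V.valuation x < 1) {φ : F} (hφ : φ ∈ adjoin k {x}) (h1 : V.valuation φ ≤ 1) :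
    ∃ c : k, V.valuation (φ - algebraMap k F c) < 1 := by
  rcases h1.lt_or_eq with l | l
  · exact ⟨0, by simpa using l⟩
  have h0 : φ ≠ 0 := fun z => by simp [z] at l
  obtain ⟨m, c, u, rfl, h2, h3⟩ := lead hc hx hφ h0
  rw [map_mul, h2, mul_one, map_zpow₀,
    zpow_eq_one_iff_right₀ zero_le hx.ne] at l
  exact ⟨c, by simpa [l] using h3⟩

theorem res [IsAlgClosed k] (hc : ∀ a : k, algebraMap k F a ∈ V) (hV : V ≠ ⊤) (h : IsFF k F)
    {f : F} (hf : f ∈ V) : ∃ a : k, V.valuation (f - algebraMap k F a) < 1 := by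
  obtain ⟨x, -, hx, hfd⟩ := exists_x hc hV h
  obtain ⟨d, φ, -, hK, h1, h0⟩ := rel (adjoin k {x}) f
  obtain ⟨j, hj, hm⟩ := (Finset.range (d + 1)).exists_max_image
    (fun i => V.valuation (φ i)) ⟨0, by simp⟩
  have hj0 : 0 < V.valuation (φ j) := lt_of_lt_of_le (by simp [h1]) (hm d (by simp))
  have hj1 : φ j ≠ 0 := fun z => by simp [z] at hj0
  have hcs : ∀ i ∈ Finset.range (d + 1), ∃ c : k,
      V.valuation (φ i / φ j - algebraMap k F c) < 1 := fun i hi =>
    near_const hc hx (div_mem (hK i) (hK j)) (by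
      rw [map_div₀]
      exact (div_le_one₀ hj0).2 (hm i hi))
  choose! c hcc using hcs
  by_contra hn
  simp only [not_exists, not_lt] at hn
  have hn' : ∀ a : k, V.valuation (f - algebraMap k F a) = 1 := fun a =>
    le_antisymm ((V.valuation_le_one_iff _).2 (V.toSubring.sub_mem hf (hc a))) (hn a)
  have hr : ∑ i ∈ Finset.range (d + 1), monomial i (c i) ≠ 0 := by
    intro z
    have z1 := congrArg (coeff · j) z
    simp only [finsetSum_coeff, coeff_monomial, Finset.sum_ite_eq', hj, if_true, coeff_zero] at z1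
    simpa [z1, hj1] using hcc j hj
  refine (v_unit hc hn' hr).not_lt ?_
  have e : aeval f (∑ i ∈ Finset.range (d + 1), monomial i (c i)) =
      ∑ i ∈ Finset.range (d + 1), -((φ i / φ j - algebraMap k F (c i)) * f ^ i) := by
    have e0 : ∑ i ∈ Finset.range (d + 1), φ i / φ j * f ^ i = 0 := by
      simp only [div_mul_eq_mul_div, ← Finset.sum_div, h0, zero_div]
    simp only [map_sum, aeval_monomial, sub_mul, neg_sub, Finset.sum_sub_distrib, e0, sub_zero]
  rw [e]
  refine V.valuation.map_sum_lt one_ne_zero fun i hi => ?_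
  rw [Valuation.map_neg, map_mul, map_pow]
  exact mul_lt_one_of_nonneg_of_lt_one_left zero_le (hcc i hi)
    (pow_le_one₀ zero_le ((V.valuation_le_one_iff f).2 hf))

theorem dvr' [IsAlgClosed k] (hc : ∀ a : k, algebraMap k F a ∈ V) (hV : V ≠ ⊤) (h : IsFF k F) :
    IsDiscreteValuationRing V := by
  obtain ⟨x, hx0, hx, hfd⟩ := exists_x hc hV h
  have hx1 : 0 < V.valuation x := zero_lt_iff.2 (by simpa using hx0)
  have hm : ∀ y : F, y ≠ 0 → ∃ m : ℤ,
      V.valuation y ^ (Module.finrank (adjoin k {x}) F).factorial = V.valuation x ^ m := by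
    intro y hy
    obtain ⟨θ, hθ, h0, e⟩ := pair (V := V) (adjoin k {x}) hy
    obtain ⟨m, c, u, rfl, h2, -⟩ := lead hc hx hθ h0
    exact ⟨m, by rw [e, map_mul, h2, mul_one, map_zpow₀]⟩
  choose! m hm using hm
  have hlt : ∀ y z : F, y ≠ 0 → z ≠ 0 → V.valuation y < V.valuation z → m z < m y := by
    intro y z hy hz l
    rw [← zpow_lt_zpow_iff_right_of_lt_one₀ hx1 hx, ← hm y hy, ← hm z hz]
    exact pow_lt_pow_left₀ l zero_le (Nat.factorial_ne_zero _)
  have hge : ∀ y : V, y ≠ 0 → 0 ≤ m y := by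
    intro y hy
    rw [← zpow_le_zpow_iff_right_of_lt_one₀ hx1 hx, ← hm y (by simpa using hy), zpow_zero]
    exact pow_le_one₀ zero_le (V.valuation_le_one y)
  have hwf : WfDvdMonoid V := by
    classical
    refine ⟨Subrelation.wf (r := InvImage (· < ·)
      fun a : V => if a = 0 then (⊤ : ℕ∞) else (m a).toNat) ?_ (InvImage.wf _ wellFounded_lt)⟩
    rintro a b ⟨ha, c, hcu, rfl⟩
    simp only [InvImage, if_neg ha]
    split_ifs with z
    · exact ENat.natCast_lt_top _
    · have l : m a < m (a * c : V) := by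
        refine hlt _ _ (by simpa using z) (by simpa using ha) ?_
        rw [MulMemClass.coe_mul, map_mul]
        exact mul_lt_of_lt_one_right (zero_lt_iff.2 (by simpa using ha))
          ((V.valuation_lt_one_iff c).1 hcu)
      have l0 := hge a ha
      exact_mod_cast (by omega : (m a).toNat < (m (a * c : V)).toNat)
  have hp : IsPrincipalIdealRing V := ((IsBezout.TFAE (R := V)).out 3 1).1 hwf
  refine { not_a_field' := fun z => ?_ }
  have hxV := (V.valuation_le_one_iff x).1 hx.le
  have : (⟨x, hxV⟩ : V) ∈ IsLocalRing.maximalIdeal V := (V.valuation_lt_one_iff _).2 hx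
  rw [z] at this
  exact hx0 (congrArg Subtype.val (Ideal.mem_bot.1 this))

end PlA

theorem rPlA : ROrdD.{u} → RPlA.{u} := by
  intro hO k F _ _ _ _ h
  have hd : ∀ P : Place k F, IsDiscreteValuationRing P.V := fun P => PlA.dvr' P.const P.ne h
  have hO' := fun P : Place k F =>
    @hO F _ P.V.toSubring (hd P) fun f => by
      rcases P.V.mem_or_inv_mem f with e | e
      · exact ⟨⟨f, e⟩, 1, by simp, by simp⟩
      · by_cases z : f = 0
        · exact ⟨0, 1, by simp, by simp [z]⟩
        · exact ⟨1, ⟨f⁻¹, e⟩, inv_ne_zero z, mul_inv_cancel₀ z⟩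
  have hz : ∀ (P : Place k F) (f : F), P.Zero f ↔ P.V.valuation f < 1 := by
    intro P f
    by_cases z : f = 0
    · simp [Place.Zero, z]
    rw [Place.Zero, or_iff_right z]
    have h3 := fun e : f ∈ P.V => ((hO' P).2.2.1 ⟨f, e⟩ (by simpa using z)).symm.trans
      (P.V.valuation_lt_one_iff ⟨f, e⟩)
    exact ⟨fun l => (h3 (((hO' P).2.1 f z).2 l.le)).1 l,
      fun l => (h3 ((P.V.valuation_le_one_iff f).1 l.le)).2 l⟩
  have hu : ∀ (P : Place k F) (f : F) (a b : k), P.V.valuation (f - algebraMap k F a) < 1 →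
      P.V.valuation (f - algebraMap k F b) < 1 → a = b := by
    intro P f a b ha hb
    by_contra z
    have l := P.V.valuation.map_sub_lt hb ha
    rw [sub_sub_sub_cancel_left, ← map_sub, PlA.v_const P.const (sub_ne_zero.2 z)] at l
    exact l.false
  have hv : ∀ (P : Place k F) (f : F), f ∈ P.V →
      P.V.valuation (f - algebraMap k F (P.val f)) < 1 := fun P f hf =>
    (hz P _).1 (Classical.epsilon_spec (p := fun a => P.Zero (f - algebraMap k F a))
      ((PlA.res P.const P.ne h hf).imp fun a ha => (hz P _).2 ha))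
  have hk : ∀ (P : Place k F) (a : k), P.val (algebraMap k F a) = a := fun P a =>
    hu P _ _ _ (hv P _ (P.const a)) (by simp)
  refine ⟨hd, fun P => (hO' P).1, fun P => (hO' P).2.1, fun P => (hO' P).2.2.2.1, fun P => ?_,
    fun P a => ?_, fun P f => (hz P f).trans P.V.mem_nonunits_iff.symm,
    fun P f hf a => ⟨fun l => hu P f _ _ (hv P f hf) ((hz P _).1 l),
      fun e => (hz P _).2 (e ▸ hv P f hf)⟩, fun P => ⟨?_, ?_, hk P⟩⟩
  · have := hd P
    obtain ⟨π, hπ⟩ := IsDiscreteValuationRing.exists_irreducible P.V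
    exact ⟨π, by simpa using hπ.ne_zero, (hO' P).2.2.2.2.1 π hπ⟩
  · by_cases z : a = 0
    · simp [z, Place.ord, ordR]
    have z' : algebraMap k F a ≠ 0 := by simpa using z
    refine le_antisymm (not_lt.1 fun l => ?_) (((hO' P).2.1 _ z').1 (P.const a))
    exact (PlA.v_const P.const z).not_lt ((hz P _).1 (Or.inr l))
  · refine
      { toFun := fun f => P.val f
        map_one' := by simpa using hk P 1
        map_zero' := by simpa using hk P 0
        map_mul' := fun f g => hu P (f * g : P.V) _ _ (hv P _ (f * g).2) ?_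
        map_add' := fun f g => hu P (f + g : P.V) _ _ (hv P _ (f + g).2) ?_ }
    · have e : ((f * g : P.V) : F) - algebraMap k F (P.val f * P.val g) =
          (f - algebraMap k F (P.val f)) * g + algebraMap k F (P.val f) *
            (g - algebraMap k F (P.val g)) := by
        rw [MulMemClass.coe_mul, map_mul]
        ring
      rw [e]
      refine P.V.valuation.map_add_lt ?_ ?_ <;> rw [map_mul]
      · exact mul_lt_one_of_nonneg_of_lt_one_left zero_le (hv P f f.2) (P.V.valuation_le_one g)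
      · exact mul_lt_one_of_nonneg_of_lt_one_right ((P.V.valuation_le_one_iff _).2 (P.const _))
          zero_le (hv P g g.2)
    · have e : ((f + g : P.V) : F) - algebraMap k F (P.val f + P.val g) =
          (f - algebraMap k F (P.val f)) + (g - algebraMap k F (P.val g)) := by
        rw [AddMemClass.coe_add, map_add]
        ring
      rw [e]
      exact P.V.valuation.map_add_lt (hv P f f.2) (hv P g g.2)
  · exact fun _ => rfl

end Pool.Agent.MP_f3836a_nt.PK
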