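import Pool.Agent.MP_f3836a_nt.PK.SpecA

set_option autoImplicit false

/-! Global properties of the places of a function field of one variable. -/

namespace Pool.Agent.MP_f3836a_nt.PK

open IntermediateField

universe u

namespace PlB

variable {k F : Type u} [Field k] [Field F] [Algebra k F]

theorem fd_of (h : IsFF k F) (y : F) (hy : Transcendental k y) :
    FiniteDimensional (adjoin k {y}) F := by
  obtain ⟨x, hx, hfd⟩ := h
  have hxy : IsAlgebraic (adjoin k {y}) x :=
    isAlgebraic_adjoin_iff.mpr (IsAlgebraic.adjoin_singleton (x := x) (y := y) hx hy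
      (isAlgebraic_adjoin_iff.mp (Algebra.IsAlgebraic.isAlgebraic y)))
  have h1 : FiniteDimensional (adjoin k {y}) (adjoin (adjoin k {y}) {x}) :=
    adjoin.finiteDimensional (isAlgebraic_iff_isIntegral.mp hxy)
  have hle : adjoin k {x} ≤ (adjoin (adjoin k {y}) {x}).restrictScalars k := by
    rw [adjoin_le_iff]
    intro z hz
    rw [Set.mem_singleton_iff.mp hz]
    exact mem_adjoin_simple_self _ x
  have h2 : FiniteDimensional (adjoin (adjoin k {y}) {x}) F := by
    have h3 : FiniteDimensional ((adjoin (adjoin k {y}) {x}).restrictScalars k) F := by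
      let : Algebra (adjoin k {x}) ((adjoin (adjoin k {y}) {x}).restrictScalars k) :=
        (inclusion hle).toRingHom.toAlgebra
      have : IsScalarTower (adjoin k {x}) ((adjoin (adjoin k {y}) {x}).restrictScalars k) F :=
        IsScalarTower.of_algebraMap_eq fun _ => rfl
      exact Module.Finite.of_restrictScalars_finite (adjoin k {x}) _ F
    exact h3
  exact Module.Finite.trans (adjoin (adjoin k {y}) {x}) F

theorem finrank_pow (g : F) (hg : Transcendental k g) (n : ℕ) :
    Module.finrank (adjoin k {g ^ n}) F = n * Module.finrank (adjoin k {g}) F := by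
  let φ : RatFunc k →ₐ[k] F :=
    (adjoin k {g}).val.comp (RatFunc.algEquivOfTranscendental g hg).toAlgHom
  have hX : φ RatFunc.X = g := by
    simp [φ]
  have hle : adjoin k {g ^ n} ≤ adjoin k {g} := by
    rw [adjoin_le_iff]
    intro z hz
    rw [Set.mem_singleton_iff.mp hz]
    exact pow_mem (mem_adjoin_simple_self _ g) n
  rw [← relfinrank_mul_finrank_top hle]
  congr 1
  have e1 : adjoin k {g ^ n} = (adjoin k {(RatFunc.X : RatFunc k) ^ n}).map φ := by
    rw [adjoin_map, Set.image_singleton, map_pow, hX]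
  have e2 : adjoin k {g} = (⊤ : IntermediateField k (RatFunc k)).map φ := by
    rw [← RatFunc.adjoin_X, adjoin_map, Set.image_singleton, hX]
  rw [e1, e2, relfinrank_map_map, relfinrank_top_right, RatFunc.finrank_eq_max_natDegree]
  have e3 : (RatFunc.X : RatFunc k) ^ n = algebraMap (Polynomial k) (RatFunc k) (Polynomial.X ^ n) := by
    rw [map_pow, RatFunc.algebraMap_X]
  rw [e3, RatFunc.num_algebraMap, RatFunc.denom_algebraMap]
  simp

theorem ord_zero (P : Place k F) : P.ord 0 = 0 := by
  simp [Place.ord, ordR]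

theorem ord_one (hA : PlA k F) (P : Place k F) : P.ord 1 = 0 := by
  simpa using hA.con P 1

theorem ord_pow (hA : PlA k F) (P : Place k F) (g : F) (hg : g ≠ 0) (n : ℕ) :
    P.ord (g ^ n) = n * P.ord g := by
  induction n with
  | zero => simpa using ord_one hA P
  | succ n ih =>
    rw [pow_succ, hA.mul P _ _ (pow_ne_zero _ hg) hg, ih]
    push_cast
    ring

theorem ord_inv (hA : PlA k F) (P : Place k F) (g : F) (hg : g ≠ 0) :
    P.ord g⁻¹ = -P.ord g := by
  have h := hA.mul P g g⁻¹ hg (inv_ne_zero hg)
  rw [mul_inv_cancel₀ hg, ord_one hA] at h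
  linarith

theorem tr_ne {T : F} (hT : Transcendental k T) : T ≠ 0 := by
  rintro rfl
  exact hT isAlgebraic_zero

theorem tr_inv {T : F} (hT : Transcendental k T) : Transcendental k T⁻¹ := fun h =>
  hT (IsAlgebraic.inv_iff.mp h)

theorem adjoin_inv (T : F) : adjoin k {T⁻¹} = adjoin k {T} := by
  apply le_antisymm
  · rw [adjoin_le_iff]
    intro z hz
    rw [Set.mem_singleton_iff.mp hz]
    exact inv_mem (mem_adjoin_simple_self _ T)
  · rw [adjoin_le_iff]
    intro z hz
    rw [Set.mem_singleton_iff.mp hz]
    have := inv_mem (mem_adjoin_simple_self k T⁻¹)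
    rwa [inv_inv] at this

theorem const_or [IsAlgClosed k] (f : F) :
    (∃ a : k, f = algebraMap k F a) ∨ Transcendental k f := by
  by_cases h : IsAlgebraic k f
  · left
    have hi := h.isIntegral
    obtain ⟨a, ha⟩ := minpoly.mem_range_of_degree_eq_one k f
      (IsAlgClosed.degree_eq_one_of_irreducible k (minpoly.irreducible hi))
    exact ⟨a, ha.symm⟩
  · exact Or.inr h

theorem supp_fin {T : F} (h : {P : Place k F | 0 < P.ord T}.Finite) :
    (Function.support fun P : Place k F => max (P.ord T) 0).Finite := by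
  refine h.subset fun P hP => ?_
  by_contra hn
  have hn' : P.ord T ≤ 0 := not_lt.mp hn
  exact hP (max_eq_right hn')

theorem deg_aux [IsAlgClosed k] (p : ℕ) [Fact p.Prime] [CharP k p] (hS : RSep.{u})
    (hD : RDeg.{u}) (hF : IsFF k F) (hA : PlA k F) (n : ℕ) :
    ∀ T : F, Transcendental k T → Module.finrank (adjoin k {T}) F = n →
    {P : Place k F | 0 < P.ord T}.Finite ∧
      ∑ᶠ P : Place k F, max (P.ord T) 0 = (Module.finrank (adjoin k {T}) F : ℤ) := by
  induction n using Nat.strong_induction_on with
  | _ n ih =>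
    intro T hT hn
    by_cases hp : ∀ g : F, g ^ p ≠ T
    · obtain ⟨h1, h2, h3, -⟩ := hS k F p hF T hp
      exact hD k F hA T h1 h2 h3
    · push Not at hp
      obtain ⟨g, rfl⟩ := hp
      have hp : p.Prime := Fact.out
      have hg : Transcendental k g := fun h => hT (h.pow p)
      have hg0 := tr_ne hg
      have hfd := fd_of hF g hg
      have hpos : 0 < Module.finrank (adjoin k {g}) F := Module.finrank_pos
      have hrk := finrank_pow g hg p
      have hlt : Module.finrank (adjoin k {g}) F < n := by
        rw [← hn, hrk]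
        nlinarith [hp.two_le]
      obtain ⟨h1, h2⟩ := ih _ hlt g hg rfl
      have hp0 : (0 : ℤ) < p := by exact_mod_cast hp.pos
      refine ⟨h1.subset fun P hP => ?_, ?_⟩
      · have hP' : 0 < P.ord (g ^ p) := hP
        rw [ord_pow hA P g hg0] at hP'
        exact (mul_pos_iff_of_pos_left hp0).mp hP'
      · rw [hrk]
        push_cast
        rw [← h2, mul_finsum]
        refine finsum_congr fun P => ?_
        rw [ord_pow hA P g hg0, mul_max_of_nonneg _ _ hp0.le, mul_zero]

end PlB

open PlB in
theorem rPlB : RPlA.{u} → RSep.{u} → RDeg.{u} → RPlB.{u} := by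
  intro hPA hS hD k F _ _ _ _ p _ _ hF
  have hA := hPA k F hF
  have key : ∀ T : F, Transcendental k T → {P : Place k F | 0 < P.ord T}.Finite ∧
      ∑ᶠ P : Place k F, max (P.ord T) 0 = (Module.finrank (adjoin k {T}) F : ℤ) :=
    fun T hT => deg_aux p hS hD hF hA _ T hT rfl
  refine ⟨fun f => ?_, fun T hT => fd_of hF T hT, fun T hT => (key T hT).2, fun f => ?_,
    fun f hf => ?_⟩
  · rcases const_or (k := k) f with ⟨a, rfl⟩ | hf
    · convert Set.finite_empty
      ext P
      simp [hA.con]
    · refine ((key f hf).1.union (key f⁻¹ (tr_inv hf)).1).subset fun P hP => ?_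
      have hP' : P.ord f ≠ 0 := hP
      simp only [Set.mem_union, Set.mem_ofPred_eq, ord_inv hA P f (tr_ne hf)]
      omega
  · rcases const_or (k := k) f with ⟨a, rfl⟩ | hf
    · simp [hA.con]
    · obtain ⟨h1, h2⟩ := key f hf
      obtain ⟨h3, h4⟩ := key f⁻¹ (tr_inv hf)
      rw [adjoin_inv, ← h2] at h4
      have e : ∀ P : Place k F, P.ord f = max (P.ord f) 0 - max (P.ord f⁻¹) 0 := fun P => by
        rw [ord_inv hA P f (tr_ne hf)]
        omega
      rw [finsum_congr e, finsum_sub_distrib (supp_fin h1) (supp_fin h3), h4, sub_self]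
  · rcases const_or (k := k) f with h | hT
    · exact h
    · exfalso
      obtain ⟨-, h4⟩ := key f⁻¹ (tr_inv hT)
      have hfd := fd_of hF f⁻¹ (tr_inv hT)
      have hpos : 0 < Module.finrank (adjoin k {f⁻¹}) F := Module.finrank_pos
      have e : ∀ P : Place k F, max (P.ord f⁻¹) 0 = 0 := fun P => by
        have := (hA.mem P f (tr_ne hT)).mp (hf P)
        rw [ord_inv hA P f (tr_ne hT)]
        omega
      rw [finsum_congr e, finsum_zero] at h4
      omega

end Pool.Agent.MP_f3836a_nt.PK
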