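import Pool.Agent.MP_f3836a_nt.PK.SpecA

set_option autoImplicit false

/-! Primitive elements with coefficients in a finite set; semilinear automorphisms. -/

namespace Pool.Agent.MP_f3836a_nt.PK

open MvPolynomial IntermediateField

universe u

namespace Prim

theorem avoid {Ω I : Type*} [Field Ω] {m : ℕ} (s : Finset I) (c : I → Fin m → Ω)
    (hc : ∀ i ∈ s, c i ≠ 0) (S : Finset Ω) (hS : s.card < S.card) :
    ∃ a : Fin m → Ω, (∀ j, a j ∈ S) ∧ ∀ i ∈ s, ∑ j, a j * c i j ≠ 0 := by
  classical
  by_contra h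
  push Not at h
  have h1 : ∏ i ∈ s, ∑ j, (X j * C (c i j) : MvPolynomial (Fin m) Ω) = 0 := by
    refine eq_zero_of_eval_zero_at_prod_finset _ (fun _ => S) (fun j => ?_) fun a ha => ?_
    · refine lt_of_le_of_lt ((degreeOf_le_totalDegree _ _).trans
        ((totalDegree_finsetProd _ _).trans ?_)) hS
      rw [Finset.card_eq_sum_ones]
      refine Finset.sum_le_sum fun i _ => totalDegree_finsetSum_le fun j _ =>
        (totalDegree_mul _ _).trans ?_
      simp
    · obtain ⟨i, hi, h2⟩ := h a ha
      rw [map_prod]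
      exact Finset.prod_eq_zero hi (by simpa using h2)
  obtain ⟨i, hi, h2⟩ := Finset.prod_eq_zero_iff.1 h1
  refine hc i hi (funext fun j => ?_)
  have := congrArg (eval (Pi.single j 1)) h2
  simpa [Pi.single_apply] using this

end Prim

theorem rPrim : RPrim.{u} := by
  intro k F _ _ _ T m η S hfin hsep hη hS
  classical
  let E := adjoin k ({T} : Set F)
  let Ω := AlgebraicClosure E
  have hinj : Function.Injective (algebraMap k Ω) := (algebraMap k Ω).injective
  obtain ⟨a, ha, h⟩ := Prim.avoid (Finset.univ : Finset (F →ₐ[E] Ω)).offDiag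
    (fun p j => p.1 (η j) - p.2 (η j)) (fun p hp h0 => by
      refine (Finset.mem_offDiag.1 hp).2.2 (AlgHom.ext fun x => ?_)
      have hx : x ∈ adjoin k (Set.range η) := hη ▸ mem_top
      induction hx using adjoin_induction with
      | mem x hx =>
        obtain ⟨j, rfl⟩ := hx
        exact sub_eq_zero.1 (congrFun h0 j)
      | algebraMap x =>
        rw [IsScalarTower.algebraMap_apply k E F, AlgHom.commutes, AlgHom.commutes]
      | add x y _ _ hx hy => rw [map_add, map_add, hx, hy]
      | inv x _ hx => rw [map_inv₀, map_inv₀, hx]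
      | mul x y _ _ hx hy => rw [map_mul, map_mul, hx, hy])
    (S.image (algebraMap k Ω)) (by
      rw [Finset.card_image_of_injective _ hinj, Finset.offDiag_card, Finset.card_univ,
        AlgHom.card]
      exact lt_of_le_of_lt (by rw [sq]; exact Nat.sub_le _ _) hS)
  choose b hb hb' using fun j => Finset.mem_image.1 (ha j)
  refine ⟨b, hb, ?_⟩
  rw [← adjoin_simple_adjoin_simple, restrictScalars_eq_top_iff,
    Field.primitive_element_iff_algHom_eq_of_eval' E Ω fun _ => IsAlgClosed.splits _]
  intro e e' he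
  by_contra hne
  refine h (e, e') (Finset.mem_offDiag.2 ⟨Finset.mem_univ _, Finset.mem_univ _, hne⟩) ?_
  have key : ∀ e : F →ₐ[E] Ω, e (∑ j, algebraMap k F (b j) * η j) = ∑ j, a j * e (η j) := by
    intro e
    rw [map_sum]
    refine Finset.sum_congr rfl fun j _ => ?_
    rw [map_mul, IsScalarTower.algebraMap_apply k E F, AlgHom.commutes, ← hb' j,
      IsScalarTower.algebraMap_apply k E Ω]
  simp only [key] at he
  simp only [mul_sub, Finset.sum_sub_distrib, he, sub_self]

theorem rFrob : RFrob.{u} := by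
  intro k F _ _ _ m η φ hfr hker
  let I : Ideal (MvPolynomial (Fin m) k) := RingHom.ker (aeval η : _ →ₐ[k] F)
  let ι : MvPolynomial (Fin m) k ⧸ I →+* F := RingHom.kerLift _
  let _ : Algebra (MvPolynomial (Fin m) k ⧸ I) F := ι.toAlgebra
  have hι : ∀ G, algebraMap (MvPolynomial (Fin m) k ⧸ I) F (Ideal.Quotient.mk I G) = aeval η G :=
    fun G => rfl
  have : FaithfulSMul (MvPolynomial (Fin m) k ⧸ I) F :=
    (faithfulSMul_iff_algebraMap_injective _ _).2 (RingHom.kerLift_injective _)
  have : IsFractionRing (MvPolynomial (Fin m) k ⧸ I) F := IsFractionRing.of_field _ _ fun z => by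
    obtain ⟨A, B, h1, h2⟩ := hfr z
    exact ⟨Ideal.Quotient.mk I A, Ideal.Quotient.mk I B, by rw [hι, hι, eq_div_iff h1, h2]⟩
  have hI : I = I.map (mapEquiv (Fin m) φ : MvPolynomial (Fin m) k →+* _) := by
    ext G
    obtain ⟨G, rfl⟩ := (mapEquiv (Fin m) φ).surjective G
    rw [Ideal.map_coe, Ideal.apply_mem_of_equiv_iff]
    exact (hker G).symm
  let τ := Ideal.quotientEquiv I I (mapEquiv (Fin m) φ) hI
  have key : ∀ G, IsFractionRing.ringEquivOfRingEquiv (K := F) (L := F) τ (aeval η G)
      = aeval η (map (φ : k →+* k) G) := fun G => by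
    rw [← hι, IsFractionRing.ringEquivOfRingEquiv_algebraMap]
    rfl
  exact ⟨_, fun a => by simpa using key (C a), fun j => by simpa using key (X j), key⟩

end Pool.Agent.MP_f3836a_nt.PK
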