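import Pool.Agent.MP_f3836a_nt.PK.SpecA

set_option autoImplicit false

/-! Separating elements of a function field of one variable. -/

namespace Pool.Agent.MP_f3836a_nt.PK

open IntermediateField Polynomial Module

universe u

namespace Sep

variable {k F : Type u} [Field k] [Field F] [Algebra k F]

theorem tb {t : F} (ht : Transcendental k t) [FiniteDimensional (adjoin k {t}) F] :
    IsTranscendenceBasis k (fun _ : Unit => t) := by
  rw [(algebraicIndependent_unique_type_iff.2 ht).isTranscendenceBasis_iff_isAlgebraic,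
    Set.range_const, ← isAlgebraic_adjoin_iff_top]
  infer_instance

theorem fin (h : IsFF k F) {T : F} (hT : Transcendental k T) :
    FiniteDimensional (adjoin k {T}) F := by
  obtain ⟨t, ht, _⟩ := h
  have b : IsTranscendenceBasis k (fun _ : Unit => T) :=
    (algebraicIndependent_unique_type_iff.2 hT).isTranscendenceBasis_of_lift_trdeg_le_of_finite
      (tb ht).lift_cardinalMk_eq_trdeg.ge
  have a := b.isAlgebraic_field
  rw [Set.range_const] at a
  have : Algebra.EssFiniteType k (adjoin k {t}) :=
    essFiniteType_iff.2 (fg_adjoin_of_finite (Set.finite_singleton t))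
  have : Algebra.EssFiniteType k F := .comp k (adjoin k {t}) F
  have : Algebra.EssFiniteType (adjoin k {T}) F := .of_comp k _ _
  exact Algebra.finite_of_essFiniteType_of_isAlgebraic

variable [IsAlgClosed k] (p : ℕ) [Fact p.Prime] [CharP F p]

theorem root (a : k) : ∃ b : k, frobenius F p (algebraMap k F b) = algebraMap k F a := by
  obtain ⟨b, rfl⟩ := IsAlgClosed.exists_pow_nat_eq a (Fact.out : p.Prime).pos
  exact ⟨b, by rw [frobenius_def, map_pow]⟩

theorem tr {T : F} (hT : ∀ g : F, g ^ p ≠ T) : Transcendental k T := by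
  intro h
  obtain ⟨a, rfl⟩ := minpoly.mem_range_of_degree_eq_one k T
    (IsAlgClosed.degree_eq_one_of_irreducible k (minpoly.irreducible h.isIntegral))
  obtain ⟨b, hb⟩ := root (F := F) p a
  exact hT _ hb

theorem deg (h : IsFF k F) :
    Module.rank ((⊤ : Subfield F).map (frobenius F p)) F ≤ p := by
  obtain ⟨t, -, _⟩ := h
  set K := (adjoin k {t}).toSubfield with hK
  have l1 : K.map (frobenius F p) ≤ K := by
    rintro _ ⟨x, hx, rfl⟩
    exact K.pow_mem hx p
  have l2 : K.map (frobenius F p) ≤ (⊤ : Subfield F).map (frobenius F p) := by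
    rintro _ ⟨x, -, rfl⟩
    exact ⟨x, trivial, rfl⟩
  have e1 := Subfield.relrank_mul_rank_top l1
  have e2 := Subfield.relrank_mul_rank_top l2
  rw [Subfield.relrank_map_map, Subfield.relrank_top_right, ← e1, mul_comm] at e2
  have tK : t ∈ K := mem_adjoin_simple_self k t
  have e3 : Subfield.extendScalars l1 = adjoin (K.map (frobenius F p)) {t} := by
    refine le_antisymm ?_ (adjoin_simple_le_iff.2 tK)
    change K ≤ (adjoin (K.map (frobenius F p)) {t}).toSubfield
    rw [hK, adjoin_toSubfield, Subfield.closure_le]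
    rintro x (⟨a, rfl⟩ | rfl)
    · obtain ⟨b, hb⟩ := root (F := F) p a
      exact IntermediateField.algebraMap_mem _ (⟨_, _, (adjoin k {t}).algebraMap_mem b, hb⟩ :
        K.map (frobenius F p))
    · exact mem_adjoin_simple_self _ _
  have hp := (Fact.out : p.Prime).pos
  let c : K.map (frobenius F p) := ⟨t ^ p, t, tK, rfl⟩
  have m : (X ^ p - C c).Monic := monic_X_pow_sub_C c hp.ne'
  have z : aeval t (X ^ p - C c) = 0 := by
    rw [map_sub, map_pow, aeval_X, aeval_C]; exact sub_self _
  have i : IsIntegral (K.map (frobenius F p)) t := ⟨_, m, z⟩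
  have e4 : Subfield.relrank (K.map (frobenius F p)) K ≤ p := by
    have := adjoin.finiteDimensional i
    rw [Subfield.relrank_eq_rank_of_le l1, e3, ← finrank_eq_rank, adjoin.finrank i, Nat.cast_le]
    exact (natDegree_le_of_dvd (minpoly.dvd _ _ z) m.ne_zero).trans_eq natDegree_X_pow_sub_C
  have fK : Module.Finite K F := ‹FiniteDimensional (adjoin k {t}) F›
  obtain ⟨d, hd⟩ := Cardinal.lt_aleph0.1 (e4.trans_lt (Cardinal.natCast_lt_aleph0 (n := p)))
  have n0 : 0 < finrank K F := finrank_pos
  rw [hd, ← finrank_eq_rank K F] at e2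
  have f2 : Module.rank ((⊤ : Subfield F).map (frobenius F p)) F < Cardinal.aleph0 := by
    refine (Cardinal.le_mul_right (b := (finrank K F : Cardinal))
      (by exact_mod_cast n0.ne')).trans_lt ?_
    rw [e2]
    exact_mod_cast Cardinal.natCast_lt_aleph0
  obtain ⟨r, hr⟩ := Cardinal.lt_aleph0.1 f2
  rw [hr] at e2 ⊢
  rw [hd] at e4
  have e5 : r * finrank K F = d * finrank K F := by exact_mod_cast e2
  rwa [Nat.eq_of_mul_eq_mul_right n0 e5]

theorem sum (h : IsFF k F) {T : F} (hT : ∀ g : F, g ^ p ≠ T) (f : F) :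
    ∃ c : Fin p → F, f = ∑ i, c i ^ p * T ^ (i : ℕ) := by
  set P := (⊤ : Subfield F).map (frobenius F p)
  have d : Module.rank P F ≤ p := deg p h
  have : Module.Finite P F := rank_lt_aleph0_iff.1 (d.trans_lt Cardinal.natCast_lt_aleph0)
  have hp : p.Prime := Fact.out
  let c : P := ⟨T ^ p, T, trivial, rfl⟩
  have ir : Irreducible (X ^ p - C c) := X_pow_sub_C_irreducible_of_prime hp fun b hb => by
    obtain ⟨g, -, hg⟩ := b.2
    exact hT g (hg.trans (frobenius_inj F p (congrArg Subtype.val hb)))
  have e : X ^ p - C c = minpoly P T :=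
    minpoly.eq_of_irreducible_of_monic ir
      (by rw [map_sub, map_pow, aeval_X, aeval_C]; exact sub_self _)
      (monic_X_pow_sub_C c hp.ne_zero)
  have li := linearIndependent_pow (K := P) T
  rw [← e, natDegree_X_pow_sub_C] at li
  have : Nonempty (Fin p) := ⟨⟨0, hp.pos⟩⟩
  have sp := li.span_eq_top_of_card_eq_finrank
    (le_antisymm li.fintype_card_le_finrank (by simpa using finrank_le_of_rank_le d))
  obtain ⟨a, ha⟩ := (Submodule.mem_span_range_iff_exists_fun P).1 (sp ▸ Submodule.mem_top (x := f))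
  choose g _ hg using fun i => (a i).2
  refine ⟨g, ha ▸ Finset.sum_congr rfl fun i _ => ?_⟩
  rw [show g i ^ p = (a i : F) from hg i]
  rfl

theorem sep (h : IsFF k F) {T : F} (hT : ∀ g : F, g ^ p ≠ T) :
    Algebra.IsSeparable (adjoin k {T}) F := by
  have := fin h (tr p hT)
  set S := separableClosure (adjoin k {T}) F
  have : ExpChar S p := .prime Fact.out
  obtain ⟨e, he⟩ := (IsPurelyInseparable.hasExponent_iff' (K := S) (L := F) p).1 inferInstance
  have TS : T ∈ S := S.algebraMap_mem ⟨T, mem_adjoin_simple_self k T⟩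
  have key : ∀ j : ℕ, (∀ x : F, x ^ p ^ j ∈ S) → ∀ x : F, x ∈ S := by
    intro j
    induction j with
    | zero => simp
    | succ j ih =>
      refine fun hj => ih fun x => ?_
      obtain ⟨c, rfl⟩ := sum p h hT x
      rw [sum_pow_char_pow]
      refine S.sum_mem fun i _ => ?_
      rw [mul_pow, ← pow_mul, ← pow_succ']
      exact mul_mem (hj _) (pow_mem (pow_mem TS _) _)
  refine (separableClosure.eq_top_iff _ _).1 (eq_top_iff.2 fun x _ => key e (fun y => ?_) x)
  obtain ⟨z, hz⟩ := he y
  exact hz ▸ z.2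

end Sep

theorem rSep : RSep.{u} := by
  intro k F _ _ _ _ p _ _ h T hT
  have : CharP F p := charP_of_injective_algebraMap (algebraMap k F).injective p
  exact ⟨Sep.tr p hT, Sep.fin h (Sep.tr p hT), Sep.sep p h hT, Sep.sum p h hT⟩

end Pool.Agent.MP_f3836a_nt.PK
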