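import Pool.Agent.MP_f3836a_nt.PK.SpecA

set_option autoImplicit false

/-! The Galois group is transitive on the places over a given place. -/

namespace Pool.Agent.MP_f3836a_nt.PK

open IntermediateField

universe u

namespace Trans

variable {k L : Type u} [Field k] [Field L] [Algebra k L]

theorem ord_one (h : PlA k L) (P : Place k L) : P.ord 1 = 0 := by simpa using h.con P 1

theorem ord_inv (h : PlA k L) (P : Place k L) {f : L} (hf : f ≠ 0) : P.ord f⁻¹ = -P.ord f := by
  have := h.mul P f f⁻¹ hf (inv_ne_zero hf)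
  rw [mul_inv_cancel₀ hf, ord_one h] at this
  omega

theorem ord_pow (h : PlA k L) (P : Place k L) {f : L} (hf : f ≠ 0) (r : ℕ) :
    P.ord (f ^ r) = r * P.ord f := by
  induction r with
  | zero => simp [ord_one h]
  | succ r ih =>
    rw [pow_succ, h.mul P _ _ (pow_ne_zero r hf) hf, ih]
    push_cast
    ring

theorem ord_neg (h : PlA k L) (P : Place k L) {f : L} (hf : f ≠ 0) : P.ord (-f) = P.ord f := by
  have h1 := h.con P (-1)
  rw [map_neg, map_one] at h1
  rw [← neg_one_mul, h.mul P _ _ (neg_ne_zero.2 one_ne_zero) hf, h1, zero_add]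

theorem ord_add (h : PlA k L) (P : Place k L) {f g : L} (hf : f ≠ 0) (hg : g ≠ 0)
    (hl : P.ord f < P.ord g) : f + g ≠ 0 ∧ P.ord (f + g) = P.ord f := by
  have h0 : f + g ≠ 0 := fun e => by
    rw [eq_neg_of_add_eq_zero_left e, ord_neg h P hg] at hl
    exact lt_irrefl _ hl
  have h1 := h.add P f g hf hg h0
  have h2 := h.add P (f + g) (-g) h0 (neg_ne_zero.2 hg) (by rwa [add_neg_cancel_right])
  rw [add_neg_cancel_right, ord_neg h P hg] at h2
  exact ⟨h0, by omega⟩

theorem exists_notMem (h : PlA k L) {P W : Place k L} (hne : P ≠ W) :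
    ∃ a, a ≠ 0 ∧ 0 ≤ P.ord a ∧ W.ord a < 0 := by
  have := h.dvr P
  obtain ⟨a, h1, h2⟩ := SetLike.not_le_iff_exists.1 fun hle : P.V ≤ W.V =>
    (ValuationSubring.eq_self_or_eq_top_of_le hle).elim (fun e => hne (Place.ext e)) W.ne
  have h0 : a ≠ 0 := fun e => h2 (e ▸ W.V.zero_mem)
  exact ⟨a, h0, (h.mem P a h0).1 h1, not_le.1 fun e => h2 ((h.mem W a h0).2 e)⟩

theorem approx (h : PlA k L) (P : Place k L) (S : Finset (Place k L)) (hP : P ∉ S) :
    ∃ x, x ≠ 0 ∧ 0 < P.ord x ∧ ∀ W ∈ S, W.ord x < 0 := by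
  classical
  induction S using Finset.induction_on with
  | empty =>
    obtain ⟨π, h1, h2⟩ := h.uni P
    exact ⟨π, h1, by omega, by simp⟩
  | insert W S _ ih =>
    rw [Finset.mem_insert, not_or] at hP
    obtain ⟨x, x0, x1, x2⟩ := ih hP.2
    by_cases hW : W.ord x < 0
    · exact ⟨x, x0, x1, fun V hV => (Finset.mem_insert.1 hV).elim (fun e => e ▸ hW) (x2 V)⟩
    obtain ⟨a, a0, a1, a2⟩ := exists_notMem h hP.1
    obtain ⟨b, b0, b1, b2⟩ := exists_notMem h (Ne.symm hP.1)
    have z0 : a * b⁻¹ ≠ 0 := mul_ne_zero a0 (inv_ne_zero b0)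
    have z1 : ∀ V : Place k L, V.ord (a * b⁻¹) = V.ord a - V.ord b := fun V => by
      rw [h.mul V _ _ a0 (inv_ne_zero b0), ord_inv h V b0, sub_eq_add_neg]
    have z2 : 0 < P.ord (a * b⁻¹) := by
      rw [z1]
      omega
    have z3 : W.ord (a * b⁻¹) < 0 := by
      rw [z1]
      omega
    generalize a * b⁻¹ = z at z0 z2 z3
    obtain ⟨r, hr⟩ : ∃ r : ℕ, ∀ V ∈ S, -V.ord z ≤ r :=
      ⟨S.sup fun V => (-V.ord z).toNat, fun V hV => (Int.self_le_toNat _).trans
        (Int.ofNat_le.2 (Finset.le_sup (f := fun V : Place k L => (-V.ord z).toNat) hV))⟩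
    have y0 := pow_ne_zero (r + 1) x0
    have y1 := ord_add h W z0 y0 (by
      rw [ord_pow h W x0]
      exact z3.trans_le (mul_nonneg (Int.natCast_nonneg _) (not_lt.1 hW)))
    refine ⟨z + x ^ (r + 1), y1.1, lt_of_lt_of_le (lt_min z2 ?_) (h.add P _ _ z0 y0 y1.1),
      fun V hV => ?_⟩
    · rw [ord_pow h P x0]
      positivity
    · rcases Finset.mem_insert.1 hV with rfl | hV
      · exact y1.2 ▸ z3
      · have h1 : V.ord (x ^ (r + 1)) ≤ -(r + 1) := by
          rw [ord_pow h V x0]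
          push_cast
          nlinarith [x2 V hV, Int.natCast_nonneg r]
        have h2 := hr V hV
        rw [add_comm, (ord_add h V y0 z0 (by omega)).2]
        omega

/-- The conjugate of a place. -/
def conj {E : IntermediateField k L} (g : L ≃ₐ[E] L) (P : Place k L) : Place k L where
  V := P.V.comap (g : L →+* L)
  ne := fun e => P.ne (eq_top_iff.2 fun f _ => by
    have : g.symm f ∈ P.V.comap (g : L →+* L) := e ▸ ValuationSubring.mem_top _
    simpa using this)
  const := fun a => by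
    have : g (algebraMap k L a) = algebraMap k L a := g.commutes (algebraMap k E a)
    simpa [this] using P.const a

theorem mem_conj {E : IntermediateField k L} (g : L ≃ₐ[E] L) (P : Place k L) (f : L) :
    f ∈ (conj g P).V ↔ g f ∈ P.V := Iff.rfl

theorem poly (h : PlA k L) [IsAlgClosed k] {T : L} (hT : Transcendental k T) {Q Q' : Place k L}
    {e e' : ℤ} (he : ∀ b : k, e' * Q.ord (T + algebraMap k L b) = e * Q'.ord (T + algebraMap k L b))
    (p : Polynomial k) (hp : p ≠ 0) :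
    e' * Q.ord (Polynomial.aeval T p) = e * Q'.ord (Polynomial.aeval T p) := by
  have h0 : ∀ q : Polynomial k, q ≠ 0 → Polynomial.aeval T q ≠ 0 := fun q hq e => hT ⟨q, hq, e⟩
  have hs : p.Splits := IsAlgClosed.splits p
  induction hs using Submonoid.closure_induction with
  | mem p hm =>
    rcases hm with ⟨a, rfl⟩ | ⟨a, rfl⟩
    · simp [h.con]
    · simpa using he a
  | one => simp [ord_one h]
  | mul p q _ _ ihp ihq =>
    obtain ⟨h1, h2⟩ := mul_ne_zero_iff.1 hp
    rw [map_mul, h.mul Q _ _ (h0 p h1) (h0 q h2), h.mul Q' _ _ (h0 p h1) (h0 q h2), mul_add,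
      mul_add, ihp h1, ihq h2]

theorem line (h : PlA k L) [IsAlgClosed k] {T : L} (hT : Transcendental k T) {Q Q' : Place k L}
    {e e' : ℤ} (e0 : 0 < e) (e1 : 0 < e')
    (he : ∀ b : k, e' * Q.ord (T + algebraMap k L b) = e * Q'.ord (T + algebraMap k L b))
    (f : L) (hf : f ∈ adjoin k {T}) : f ∈ Q.V ↔ f ∈ Q'.V := by
  by_cases f0 : f = 0
  · simp [f0]
  obtain ⟨r, s, rfl⟩ := (mem_adjoin_simple_iff k f).1 hf
  obtain ⟨h1, h2⟩ := div_ne_zero_iff.1 f0
  have h3 := poly h hT he r fun e => h1 (by simp [e])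
  have h4 := poly h hT he s fun e => h2 (by simp [e])
  rw [h.mem Q _ f0, h.mem Q' _ f0, div_eq_mul_inv, h.mul Q _ _ h1 (inv_ne_zero h2),
    h.mul Q' _ _ h1 (inv_ne_zero h2), ord_inv h Q h2, ord_inv h Q' h2,
    ← mul_nonneg_iff_of_pos_left e1, mul_add, mul_neg, h3, h4, ← mul_neg, ← mul_add,
    mul_nonneg_iff_of_pos_left e0]

end Trans

open PK.Trans

theorem rTransE : RTransE.{u} := by
  intro k L _ _ _ _ h E _ _ Q Q' hE
  classical
  by_contra hn
  have hne : ∀ g : L ≃ₐ[E] L, conj g Q' ≠ Q := fun g e => hn ⟨g.symm, fun f => by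
    rw [← e, mem_conj, AlgEquiv.apply_symm_apply]⟩
  obtain ⟨x, x0, x1, x2⟩ := approx h Q
    ((Finset.univ.image (fun g : L ≃ₐ[E] L => conj g Q) ∪
      Finset.univ.image fun g : L ≃ₐ[E] L => conj g Q').erase Q) (Finset.notMem_erase _ _)
  have i0 := inv_ne_zero x0
  have y1 := ord_add h Q i0 one_ne_zero (by
    rw [ord_inv h Q x0, ord_one h]
    omega)
  have y2 : ∀ W : Place k L, W.ord x < 0 → W.ord (x⁻¹ + 1) = 0 := fun W hW => by
    rw [add_comm, (ord_add h W one_ne_zero i0 (by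
      rw [ord_inv h W x0, ord_one h]
      omega)).2, ord_one h]
  rw [ord_inv h Q x0] at y1
  generalize x⁻¹ + 1 = y at y1 y2
  have y3 : ∀ g : L ≃ₐ[E] L, g y ∈ Q'.V := fun g => by
    rw [← mem_conj, h.mem _ _ y1.1, y2 _ (x2 _ (by simp [hne g]))]
  have y4 : ∀ g : L ≃ₐ[E] L, g y⁻¹ ∈ Q.V := fun g => by
    rw [← mem_conj, h.mem _ _ (inv_ne_zero y1.1), ord_inv h _ y1.1]
    by_cases e : conj g Q = Q
    · rw [e]
      omega
    · rw [y2 _ (x2 _ (by simp [e])), neg_zero]
  have n1 : ∏ g : L ≃ₐ[E] L, g y ∈ E := by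
    rw [← Algebra.norm_eq_prod_automorphisms]
    exact SetLike.coe_mem _
  have n2 := (hE _ n1).2 (prod_mem fun g _ => y3 g)
  have n3 : y = (∏ g : L ≃ₐ[E] L, g y) * ∏ g ∈ Finset.univ.erase (1 : L ≃ₐ[E] L), g y⁻¹ := by
    rw [← Finset.mul_prod_erase _ _ (Finset.mem_univ (1 : L ≃ₐ[E] L)), mul_assoc,
      ← Finset.prod_mul_distrib]
    simp only [← map_mul, mul_inv_cancel₀ y1.1, map_one, Finset.prod_const_one, mul_one,
      AlgEquiv.one_apply]
  have n4 : y ∈ Q.V := n3 ▸ mul_mem n2 (prod_mem fun g _ => y4 g)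
  have := (h.mem Q y y1.1).1 n4
  omega

theorem rTrans : RTransE.{u} → RTrans.{u} := by
  intro hE k L _ _ _ _ h T hT hfd hg Q Q' hQ
  have t0 : ∀ b : k, T + algebraMap k L b ≠ 0 := fun b e =>
    hT (eq_neg_of_add_eq_zero_left e ▸ (isAlgebraic_algebraMap b).neg)
  refine hE k L h _ hfd hg Q Q' ?_
  rcases hQ with ⟨a, h1, h2⟩ | ⟨h1, h2⟩
  · refine line h hT h1 h2 fun b => ?_
    by_cases e : b = -a
    · rw [e, map_neg, ← sub_eq_add_neg, mul_comm]
    · have h3 : ∀ W : Place k L, 0 < W.ord (T - algebraMap k L a) →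
          W.ord (T + algebraMap k L b) = 0 := fun W hW => by
        have h4 := ord_add h W (f := algebraMap k L (b + a)) (g := T - algebraMap k L a)
          ((map_ne_zero _).2 fun e' => e (eq_neg_of_add_eq_zero_left e'))
          (by simpa [sub_eq_add_neg] using t0 (-a)) (by rwa [h.con])
        rw [← h.con W (b + a), ← h4.2, map_add]
        congr 1
        ring
      rw [h3 Q h1, h3 Q' h2, mul_zero, mul_zero]
  · refine line h hT (neg_pos.2 h1) (neg_pos.2 h2) fun b => ?_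
    have h3 : ∀ W : Place k L, W.ord T < 0 → W.ord (T + algebraMap k L b) = W.ord T :=
      fun W hW => by
        by_cases e : b = 0
        · simp [e]
        · exact (ord_add h W (by simpa using t0 0) ((map_ne_zero _).2 e) (by rwa [h.con])).2
    rw [h3 Q h1, h3 Q' h2]
    ring

end Pool.Agent.MP_f3836a_nt.PK
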