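import Pool.Agent.MP_f3836a_nt.PK.SpecA

set_option autoImplicit false

/-! The projective line has no unramified cover. -/

namespace Pool.Agent.MP_f3836a_nt.PK

open Polynomial IntermediateField

universe u

namespace Unr

variable {k M : Type u} [Field k] [Field M] [Algebra k M]

/-- Elements of order at least `n`. -/
def Ge (A : PlA k M) (P : Place k M) (n : ℤ) : AddSubgroup M where
  carrier := {f | f = 0 ∨ n ≤ P.ord f}
  zero_mem' := Or.inl rfl
  add_mem' := by
    rintro f g (rfl | hf) hg
    · simpa using hg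
    rcases hg with rfl | hg
    · exact Or.inr (by simpa using hf)
    by_cases h1 : f = 0
    · exact Or.inr (by simpa [h1] using hg)
    by_cases h2 : g = 0
    · exact Or.inr (by simpa [h2] using hf)
    exact or_iff_not_imp_left.2 fun h3 => (le_min hf hg).trans (A.add P f g h1 h2 h3)
  neg_mem' := by
    intro f hf
    by_cases h1 : f = 0
    · exact Or.inl (by simp [h1])
    have h2 := A.mul P (algebraMap k M (-1)) f (by simp) h1
    rw [A.con, zero_add, map_neg, map_one, neg_one_mul] at h2
    exact Or.inr (h2 ▸ hf.resolve_left h1)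

variable (A : PlA k M) (P : Place k M)

include A

theorem ge_zero {f : M} : f ∈ Ge A P 0 ↔ f ∈ P.V := by
  by_cases h : f = 0
  · simp [h]
  · exact (or_iff_right h).trans (A.mem P f h).symm

theorem ord_pow {f : M} (h : f ≠ 0) (n : ℕ) : P.ord (f ^ n) = n * P.ord f := by
  induction n with
  | zero => simpa using A.con P 1
  | succ n ih =>
    rw [pow_succ, A.mul P _ _ (pow_ne_zero _ h) h, ih]
    push_cast
    ring

theorem terms {S : Finset ℕ} {g : ℕ → M}
    (hd : ∀ i ∈ S, ∀ j ∈ S, g i ≠ 0 → g j ≠ 0 → P.ord (g i) = P.ord (g j) → i = j) {n : ℤ}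
    (h : ∑ i ∈ S, g i ∈ Ge A P n) : ∀ i ∈ S, g i ∈ Ge A P n := by
  classical
  intro i hi
  refine or_iff_not_imp_left.2 fun h0 => not_lt.1 fun h1 => ?_
  obtain ⟨j, hj, h2⟩ := Finset.exists_min_image (S.filter fun j => g j ≠ 0) (fun j => P.ord (g j))
    ⟨i, Finset.mem_filter.2 ⟨hi, h0⟩⟩
  rw [Finset.mem_filter] at hj
  have h3 := h2 i (Finset.mem_filter.2 ⟨hi, h0⟩)
  have h4 : g j ∈ Ge A P (P.ord (g j) + 1) := by
    rw [← add_sub_cancel_right (g j) (∑ l ∈ S.erase j, g l), Finset.add_sum_erase S g hj.1]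
    refine sub_mem (h.imp_right fun h => ?_) (sum_mem fun l hl => ?_)
    · rw [← Finset.add_sum_erase S g hj.1, add_sub_cancel_right, Finset.add_sum_erase S g hj.1]
      omega
    · rw [← Finset.add_sum_erase S g hj.1, add_sub_cancel_right]
      rw [Finset.mem_erase] at hl
      refine or_iff_not_imp_left.2 fun h5 => ?_
      exact lt_of_le_of_ne (h2 l (Finset.mem_filter.2 ⟨hl.2, h5⟩))
        fun e => hl.1 (hd l hl.2 j hj.1 h5 hj.2 e.symm)
  have := h4.resolve_left hj.2
  omega

theorem coef {p : ℕ} [Fact p.Prime] [CharP M p] {s : M} (hs : s ≠ 0)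
    (h1 : P.ord s = 1 ∨ P.ord s = -1) {B : M[X]} (hB : B.natDegree < p) {n : ℤ}
    (h : (B.map (frobenius M p)).eval s ∈ Ge A P n) (i : ℕ) (hi : B.coeff i ≠ 0) :
    i < p ∧ n ≤ p * P.ord (B.coeff i) + i * P.ord s := by
  have e : ∀ j, B.coeff j ≠ 0 →
      P.ord (B.coeff j ^ p * s ^ j) = p * P.ord (B.coeff j) + j * P.ord s := fun j hj => by
    rw [A.mul P _ _ (pow_ne_zero _ hj) (pow_ne_zero _ hs), ord_pow A P hj, ord_pow A P hs]
  have hi' : i < p := (le_natDegree_of_ne_zero hi).trans_lt hB
  rw [eval_eq_sum_range' (natDegree_map_le.trans_lt hB)] at h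
  simp only [coeff_map, frobenius_def] at h
  refine ⟨hi', e i hi ▸ (terms A P (fun a ha b hb h2 h3 h4 => ?_) h i
    (Finset.mem_range.2 hi')).resolve_left (mul_ne_zero (pow_ne_zero _ hi) (pow_ne_zero _ hs))⟩
  rw [e a fun h0 => h2 (by simp [h0, (Fact.out : p.Prime).ne_zero]),
    e b fun h0 => h3 (by simp [h0, (Fact.out : p.Prime).ne_zero])] at h4
  rw [Finset.mem_range] at ha hb
  have h5 : (p : ℤ) ∣ (a : ℤ) - b := by
    rcases h1 with h1 | h1 <;> rw [h1] at h4
    · exact ⟨P.ord (B.coeff b) - P.ord (B.coeff a), by linear_combination h4⟩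
    · exact ⟨P.ord (B.coeff a) - P.ord (B.coeff b), by linear_combination -h4⟩
  have := Int.eq_zero_of_abs_lt_dvd h5 (abs_lt.2 ⟨by omega, by omega⟩)
  omega

end Unr

open Unr in
theorem rUnr : RPlA.{u} → RPlB.{u} → RSep.{u} → RUnr.{u} := by
  intro hA hB hS k M _ _ _ _ p _ _ hff T hT h1 h2
  have A := hA k M hff
  have B := hB k M p hff
  have hp : p.Prime := Fact.out
  have : CharP M p := charP_of_injective_algebraMap (algebraMap k M).injective p
  have hne : ∀ a : k, T - algebraMap k M a ≠ 0 := fun a h =>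
    hT (sub_eq_zero.1 h ▸ isAlgebraic_algebraMap a)
  have hT0 : T ≠ 0 := by simpa using hne 0
  have inf : ∀ P : Place k M, T ∉ P.V → P.ord T = -1 := fun P h => by
    rw [A.mem P T hT0] at h
    have := h2 P
    omega
  have fin : ∀ P : Place k M, T ∈ P.V → P.ord (T - algebraMap k M (P.val T)) = 1 := fun P h => by
    have h3 := ((A.val P T h _).2 rfl).resolve_left (hne _)
    have := h1 P (P.val T)
    omega
  have hTK : T ∈ adjoin k {T} := subset_adjoin k _ rfl
  have hsep := (hS k M p hff T fun g hg => by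
    have h3 : ¬ ∀ P : Place k M, T ∈ P.V := fun h => by
      obtain ⟨a, ha⟩ := B.const T h
      exact hne a (sub_eq_zero.2 ha)
    push Not at h3
    obtain ⟨P, hP⟩ := h3
    have h4 := inf P hP
    rw [← hg, ord_pow A P (fun h0 => hT0 (by rw [← hg, h0, zero_pow hp.ne_zero]))] at h4
    have h5 : (p : ℤ) ∣ 1 := ⟨-P.ord g, by linear_combination h4⟩
    exact hp.one_lt.ne' (by exact_mod_cast Int.eq_one_of_dvd_one (Int.natCast_nonneg p) h5)).2.2.2
  have key : ∀ (m : ℕ) (a : M), (∀ P : Place k M, T ∈ P.V → a ∈ P.V) →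
      (∀ P : Place k M, T ∉ P.V → a ∈ Ge A P (-m)) → a ∈ adjoin k {T} := by
    intro m
    induction m with
    | zero =>
      intro a h3 h4
      obtain ⟨c, rfl⟩ := B.const a fun P => by
        by_cases h : T ∈ P.V
        exacts [h3 P h, (ge_zero A P).1 (h4 P h)]
      exact IntermediateField.algebraMap_mem _ c
    | succ m ih =>
      intro a h3 h4
      obtain ⟨c, hc⟩ := hsep a
      let C : M[X] := ∑ i : Fin p, monomial i (c i)
      have hC : C.natDegree < p := by
        refine lt_of_le_of_lt (natDegree_sum_le_of_forall_le (n := p - 1) _ _ fun i _ =>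
          (natDegree_monomial_le _).trans ?_) ?_
        · have := i.2
          omega
        · have := hp.pos
          omega
      have ha : (C.map (frobenius M p)).eval T = a := by
        rw [hc]
        simp [C, Polynomial.map_sum, eval_finsetSum, frobenius_def]
      have hK : ∀ i, C.coeff i ∈ adjoin k {T} := fun i => ih _ (fun P hP => ?_) fun P hP => ?_
      · rw [← ha, eval_eq_sum_range]
        exact sum_mem fun i _ => mul_mem (by rw [coeff_map]; exact pow_mem (hK i) p) (pow_mem hTK i)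
      · obtain ⟨τ, hτ⟩ := IsAlgClosed.exists_pow_nat_eq (P.val T) hp.pos
        have h5 : ∀ j, (taylor (algebraMap k M τ) C).coeff j ∈ Set.range P.V.subtype := fun j => by
          refine ⟨⟨(taylor (algebraMap k M τ) C).coeff j,
            (ge_zero A P).1 (or_iff_not_imp_left.2 fun h0 => ?_)⟩, rfl⟩
          obtain ⟨h6, h7⟩ := coef A P (hne _) (Or.inl (fin P hP)) (n := 0)
            (B := taylor (algebraMap k M τ) C) (by rwa [natDegree_taylor]) (by
              rw [map_taylor, frobenius_def, ← map_pow, hτ, taylor_eval, sub_add_cancel, ha]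
              exact (ge_zero A P).2 (h3 P hP)) j h0
          rw [fin P hP] at h7
          have h8 : (j : ℤ) < p := by exact_mod_cast h6
          by_contra h9
          nlinarith
        obtain ⟨D, hD⟩ := (lifts_iff_coeff_lifts _).2 h5
        have h6 : C = (taylor (-⟨_, P.const τ⟩ : P.V) D).map P.V.subtype := by
          rw [map_taylor, show D.map P.V.subtype = _ from hD, taylor_taylor]
          simp
        rw [h6, coeff_map]
        exact Subtype.prop _
      · refine or_iff_not_imp_left.2 fun h0 => ?_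
        obtain ⟨-, h7⟩ := coef A P hT0 (Or.inr (inf P hP)) hC (ha ▸ h4 P hP) i h0
        rw [inf P hP] at h7
        have h8 : (2 : ℤ) ≤ p := by exact_mod_cast hp.two_le
        push_cast at h7
        by_contra h9
        nlinarith [Int.natCast_nonneg m, Int.natCast_nonneg i]
  have bd : ∀ f : M, ∃ m : ℕ, ∀ P : Place k M, -(m : ℤ) ≤ P.ord f := fun f => by
    obtain ⟨m, hm⟩ := ((B.fin f).image fun P => (P.ord f).natAbs).bddAbove
    refine ⟨m, fun P => ?_⟩
    by_cases h : P.ord f = 0
    · omega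
    · have : (P.ord f).natAbs ≤ m := hm ⟨P, h, rfl⟩
      omega
  refine eq_top_iff.2 fun a _ => ?_
  by_cases ha : a = 0
  · exact ha ▸ zero_mem _
  classical
  obtain ⟨N, hN⟩ := bd a
  let S := (B.fin a).toFinset
  let w : Place k M → M := fun P => (T - algebraMap k M (P.val T)) ^ N
  have hw : ∏ P ∈ S, w P ≠ 0 := Finset.prod_ne_zero_iff.2 fun P _ => pow_ne_zero _ (hne _)
  obtain ⟨m, hm⟩ := bd (a * ∏ P ∈ S, w P)
  rw [← mul_div_cancel_right₀ a hw]
  refine div_mem (key m _ (fun P hP => ?_) fun P _ => Or.inr (hm P))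
    (prod_mem fun P _ => pow_mem (sub_mem hTK (IntermediateField.algebraMap_mem _ _)) N)
  have h3 : ∀ Q, w Q ∈ P.V := fun Q => pow_mem (sub_mem hP (P.const _)) N
  by_cases h : P ∈ S
  · rw [← Finset.mul_prod_erase S w h, ← mul_assoc]
    refine mul_mem ((A.mem P _ (mul_ne_zero ha (pow_ne_zero _ (hne _)))).2 ?_)
      (prod_mem fun Q _ => h3 Q)
    rw [A.mul P _ _ ha (pow_ne_zero _ (hne _)), ord_pow A P (hne _), fin P hP]
    have := hN P
    omega
  · refine mul_mem ((A.mem P a ha).2 ?_) (prod_mem fun Q _ => h3 Q)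
    simp only [S, Set.Finite.mem_toFinset, Set.mem_ofPred_eq, not_not] at h
    exact h.ge

end Pool.Agent.MP_f3836a_nt.PK
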