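import Pool.Agent.MP_f3836a_nt.PK.Ord
import Pool.Agent.MP_f3836a_nt.PK.PlA
import Pool.Agent.MP_f3836a_nt.PK.Sep
import Pool.Agent.MP_f3836a_nt.PK.Deg
import Pool.Agent.MP_f3836a_nt.PK.PlB
import Pool.Agent.MP_f3836a_nt.PK.LE
import Pool.Agent.MP_f3836a_nt.PK.Unr
import Pool.Agent.MP_f3836a_nt.PK.Trans
import Pool.Agent.MP_f3836a_nt.PK.Clo1
import Pool.Agent.MP_f3836a_nt.PK.Clo2
import Pool.Agent.MP_f3836a_nt.PK.Bomb
import Pool.Agent.MP_f3836a_nt.PK.Cheb0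
import Pool.Agent.MP_f3836a_nt.PK.Cheb
import Pool.Agent.MP_f3836a_nt.PK.Prim
import Pool.Agent.MP_f3836a_nt.PK.Comb
import Pool.Agent.MP_f3836a_nt.PK.ExC
import Pool.Agent.MP_f3836a_nt.PK.ExL
import Pool.Agent.MP_f3836a_nt.PK.Lin
import Pool.Agent.MP_f3836a_nt.PK.Tr

set_option autoImplicit false

/-! Part A without hypotheses. -/

namespace Pool.Agent.MP_f3836a_nt.PK

universe u

theorem pPlA : RPlA.{u} := rPlA rOrdD
theorem pPlB : RPlB.{u} := rPlB pPlA rSep rDeg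
theorem pUnr : RUnr.{u} := rUnr pPlA pPlB rSep
theorem pTrans : RTrans.{u} := rTrans rTransE
theorem pClo2 : RClo2.{u} := rClo2 pPlA pPlB rTransE pTrans pUnr
theorem pCheb0 : RCheb0.{u} := rCheb0 pPlA pPlB rLE pTrans rBomb
theorem pCheb : RCheb.{u} := rCheb pPlA pPlB rSep rClo1 pClo2 pCheb0

end Pool.Agent.MP_f3836a_nt.PK
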