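import Pool.Agent.MP_f3836a_nt.PK.SpecC

set_option autoImplicit false

/-! Jets of a smooth curve on the surface. -/

namespace Pool.Agent.MP_f3836a_nt.PK

open MvPolynomial IsLocalRing

universe u

namespace CJetA

section alg

variable {k R : Type u} [Field k] [CommRing R] [IsLocalRing R] [Algebra k R]

theorem sub_ev (ev : R →ₐ[k] k) (hev : ∀ f, ev f = 0 ↔ f ∈ maximalIdeal R) (f : R) :
    f - algebraMap k R (ev f) ∈ maximalIdeal R := by
  rw [← hev, map_sub, AlgHom.commutes]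
  exact sub_self _

omit [IsLocalRing R] in
/-- two algebra maps that agree on the variables modulo an ideal agree modulo the ideal -/
theorem cong {σ : Type} (J : Ideal R) (Φ Ψ : MvPolynomial σ k →ₐ[k] R)
    (h : ∀ j, Φ (X j) - Ψ (X j) ∈ J) (A : MvPolynomial σ k) : Φ A - Ψ A ∈ J := by
  have e : (Ideal.Quotient.mkₐ k J).comp Φ = (Ideal.Quotient.mkₐ k J).comp Ψ :=
    MvPolynomial.algHom_ext fun j => Ideal.Quotient.eq.mpr (h j)
  exact Ideal.Quotient.eq.mp (DFunLike.congr_fun e A)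

/-- a second parameter -/
theorem gen {a y t : R} (hm : maximalIdeal R = Ideal.span {a, y})
    (ht : t ∈ maximalIdeal R) (ht' : t ∉ Ideal.span {y} ⊔ maximalIdeal R ^ 2) :
    ∀ f ∈ maximalIdeal R, ∃ g h, f = t * g + y * h := by
  have ha : a ∈ maximalIdeal R := hm ▸ Ideal.subset_span (by simp)
  obtain ⟨α, β, e⟩ := Ideal.mem_span_pair.mp (hm ▸ ht)
  have hα : IsUnit α := by
    by_contra hn
    refine ht' ?_
    rw [← e, add_comm]
    refine Submodule.add_mem_sup (Ideal.mul_mem_left _ _ (Ideal.mem_span_singleton_self y)) ?_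
    rw [pow_two]
    exact Ideal.mul_mem_mul ((mem_maximalIdeal α).mpr hn) ha
  obtain ⟨γ, hγ⟩ := hα.exists_right_inv
  intro f hf
  obtain ⟨c, d, e'⟩ := Ideal.mem_span_pair.mp (hm ▸ hf)
  exact ⟨c * γ, d - c * γ * β, by linear_combination -e' + c * γ * e - c * a * hγ⟩

theorem pow_gen {y t : R} (h : ∀ f ∈ maximalIdeal R, ∃ g h, f = t * g + y * h) (j : ℕ) :
    ∀ f ∈ Ideal.span {y} ⊔ maximalIdeal R ^ j, ∃ g h, f = t ^ j * g + y * h := by
  have h1 : maximalIdeal R ^ j ≤ Ideal.span {t ^ j, y} := by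
    induction j with
    | zero => exact fun f _ => Ideal.mem_span_pair.mpr ⟨f, 0, by simp⟩
    | succ j ih =>
      rw [pow_succ]
      refine Ideal.mul_le.mpr fun a ha b hb => ?_
      obtain ⟨c, d, e⟩ := Ideal.mem_span_pair.mp (ih ha)
      obtain ⟨g, h', e'⟩ := h b hb
      exact Ideal.mem_span_pair.mpr ⟨c * g, d * b + c * t ^ j * h', by rw [← e, e']; ring⟩
  intro f hf
  have h2 : Ideal.span {y} ⊔ maximalIdeal R ^ j ≤ Ideal.span {t ^ j, y} :=
    sup_le (Ideal.span_mono (by simp)) h1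
  obtain ⟨c, d, e⟩ := Ideal.mem_span_pair.mp (h2 hf)
  exact ⟨c, d, by rw [← e]; ring⟩

/-- expansion to order two -/
theorem expand (ev : R →ₐ[k] k) (hev : ∀ f, ev f = 0 ↔ f ∈ maximalIdeal R) {y t : R}
    (ht : t ∈ maximalIdeal R) (h : ∀ f ∈ maximalIdeal R, ∃ g h, f = t * g + y * h) (f : R) :
    ∃ a b : k, f - (algebraMap k R (ev f) + algebraMap k R a * t + algebraMap k R b * t ^ 2) ∈
      Ideal.span {y} ⊔ maximalIdeal R ^ 3 := by
  obtain ⟨g, u, e⟩ := h _ (sub_ev ev hev f)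
  obtain ⟨g', u', e'⟩ := h _ (sub_ev ev hev g)
  refine ⟨ev g, ev g', ?_⟩
  have e2 : f - (algebraMap k R (ev f) + algebraMap k R (ev g) * t + algebraMap k R (ev g') * t ^ 2)
      = (u + t * u') * y + t ^ 2 * (g' - algebraMap k R (ev g')) := by
    linear_combination e + t * e'
  rw [e2]
  refine Submodule.add_mem_sup (Ideal.mul_mem_left _ _ (Ideal.mem_span_singleton_self y)) ?_
  rw [pow_succ]
  exact Ideal.mul_mem_mul (Ideal.pow_mem_pow ht 2) (sub_ev ev hev g')

/-- order of vanishing of a polynomial in the parameter -/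
theorem dvd_of (ev : R →ₐ[k] k) (hev : ∀ f, ev f = 0 ↔ f ∈ maximalIdeal R) {y t : R}
    (hy : y ∈ maximalIdeal R) (hp : Prime y) (ht : t ∈ maximalIdeal R) (hn : ¬ y ∣ t) (j : ℕ) :
    ∀ (P : Polynomial k) (g h : R), Polynomial.aeval t P = t ^ j * g + y * h →
      Polynomial.X ^ j ∣ P := by
  induction j with
  | zero => intro P _ _ _; simp
  | succ j ih =>
    intro P g h e
    have h0 : P.coeff 0 = 0 := by
      have h1 : ev (Polynomial.aeval t P) = 0 := by
        rw [e, map_add, map_mul, map_mul, map_pow, (hev t).mpr ht, (hev y).mpr hy]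
        simp
      rw [← Polynomial.aeval_algHom_apply, (hev t).mpr ht, Polynomial.coe_aeval_eq_eval] at h1
      rw [Polynomial.coeff_zero_eq_eval_zero, h1]
    obtain ⟨Q, rfl⟩ := Polynomial.X_dvd_iff.mpr h0
    rw [map_mul, Polynomial.aeval_X] at e
    have h2 : y ∣ t * (Polynomial.aeval t Q - t ^ j * g) := ⟨h, by linear_combination e⟩
    obtain ⟨h', e'⟩ := (hp.dvd_or_dvd h2).resolve_left hn
    rw [pow_succ']
    exact mul_dvd_mul_left _ (ih Q g h' (by linear_combination e'))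

end alg

theorem aeval_div {k K : Type u} [Field k] [Field K] [Algebra k K] {σ : Type} (ξ : σ → K) (c : K)
    {A : MvPolynomial σ k} {n : ℕ} (hA : A.IsHomogeneous n) :
    aeval (fun j => ξ j / c) A = aeval ξ A / c ^ n := by
  conv_lhs => rw [A.as_sum]
  conv_rhs => rw [A.as_sum]
  rw [map_sum, map_sum, Finset.sum_div]
  refine Finset.sum_congr rfl fun d hd => ?_
  have h1 : n = ∑ j ∈ d.support, d j := by
    rw [← hA (mem_support_iff.mp hd)]
    simp [Finsupp.weight_apply, Finsupp.sum]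
  rw [aeval_monomial, aeval_monomial, h1, mul_div_assoc, ← Finset.prod_pow_eq_pow_sum]
  simp only [Finsupp.prod, div_pow, Finset.prod_div_distrib]

theorem phi_form {k K : Type u} [Field k] [Field K] [Algebra k K] {N : ℕ} {ξ : Fin (N + 1) → K}
    {c : Ctr k ξ} (h : c.Good) {A : Pol k N} (hA : Form A) :
    aeval (fun j => c.lx (X j)) A = c.lx A := by
  apply Subtype.ext
  rw [Ctr.coe_lx h hA, Ctr.lo, ← aeval_div ξ _ hA]
  refine (comp_aeval_apply _ (IsScalarTower.toAlgHom k c.O K) A).trans ?_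
  congr 2
  funext j
  exact (Ctr.coe_lx h (Form.of (isHomogeneous_X k j))).trans (c.lo_X j)

end CJetA

open CJetA

theorem rJetA : RReg.{u} → RJetA.{u} := by
  intro hR k K _ _ _ _ p _ _ N ξ 𝒢 hS hG W hW x hx
  have := hS.reg x
  obtain ⟨-, h2, -, -, -, h6⟩ := hR x.ctr.O (hS.dim x)
  obtain ⟨ev, hev1, hev⟩ := x.exists_ev
  have hy : x.ctr.lx W ∈ maximalIdeal x.ctr.O := (x.lx_mem_max hW.1).mpr hx
  have hy2 : x.ctr.lx W ∉ maximalIdeal x.ctr.O ^ 2 := hW.2.2.2 x
  have hp := (h2 _ hy hy2).1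
  obtain ⟨a, hm, ha⟩ := h6 _ hy hy2
  set y := x.ctr.lx W with hyW
  let Φ : Pol k N →ₐ[k] x.ctr.O := aeval fun j => x.ctr.lx (X j)
  have hΦ : ∀ A : Pol k N, Form A → Φ A = x.ctr.lx A := fun A hA => phi_form x.good hA
  have hX : ∀ j, ev (Φ (X j)) = x.z j := fun j => by
    rw [hΦ _ (Form.of (isHomogeneous_X k j)), hev1 _ (Form.of (isHomogeneous_X k j)), eval_X]
  have hi : Φ (X x.ctr.idx) = 1 := by
    rw [hΦ _ (Form.of (isHomogeneous_X k _))]
    apply Subtype.ext
    rw [Ctr.coe_lx x.good (Form.of (isHomogeneous_X k _)), Ctr.lo_X, div_self (Ctr.xi_ne x.good)]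
    rfl
  obtain ⟨l, hl⟩ : ∃ l, Φ (X l) - algebraMap k x.ctr.O (x.z l) ∉
      Ideal.span {y} ⊔ maximalIdeal x.ctr.O ^ 2 := by
    by_contra hn
    push Not at hn
    refine ha ?_
    have ham : a ∈ maximalIdeal x.ctr.O := hm ▸ Ideal.subset_span (by simp)
    obtain ⟨n, A, B, hA, hB, hP, e⟩ := Ctr.exists_lx x.good a
    have hu : IsUnit (x.ctr.lx B) := by
      by_contra h
      exact hP ((Ctr.lx_mem_max x.good (Form.of hB)).mp ((mem_maximalIdeal _).mpr h))
    have hA0 : eval x.z A = 0 :=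
      (x.lx_mem_max (Form.of hA)).mp (e ▸ Ideal.mul_mem_right _ _ ham)
    have h1 := cong _ Φ ((Algebra.ofId k x.ctr.O).comp (aeval x.z))
      (fun j => by simpa [Algebra.ofId_apply] using hn j) A
    rw [hΦ A (Form.of hA), AlgHom.comp_apply, show aeval x.z A = 0 from hA0, map_zero, sub_zero,
      ← e] at h1
    exact (Ideal.mul_unit_mem_iff_mem _ hu).mp h1
  set t := Φ (X l) - algebraMap k x.ctr.O (x.z l) with htd
  have ht : t ∈ maximalIdeal x.ctr.O := by
    have := sub_ev ev hev (Φ (X l))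
    rwa [hX] at this
  have hli : l ≠ x.ctr.idx := by
    rintro rfl
    refine hl ?_
    rw [htd, hi, x.z_idx.1, map_one, sub_self]
    exact zero_mem _
  have hg := gen hm ht hl
  have hn : ¬ y ∣ t := fun h => hl (Ideal.mem_sup_left (Ideal.mem_span_singleton.mpr h))
  have key : ∀ j, ∃ a b : k, (j = x.ctr.idx → a = 0 ∧ b = 0) ∧ (j = l → a = 1 ∧ b = 0) ∧
      Φ (X j) - (algebraMap k x.ctr.O (x.z j) + algebraMap k x.ctr.O a * t +
        algebraMap k x.ctr.O b * t ^ 2) ∈ Ideal.span {y} ⊔ maximalIdeal x.ctr.O ^ 3 := by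
    intro j
    by_cases h1 : j = x.ctr.idx
    · refine ⟨0, 0, fun _ => ⟨rfl, rfl⟩, fun h => absurd (h.symm.trans h1) hli, ?_⟩
      rw [h1, hi, x.z_idx.1]
      simp
    by_cases h2 : j = l
    · refine ⟨1, 0, fun h => absurd h h1, fun _ => ⟨rfl, rfl⟩, ?_⟩
      rw [h2, htd]
      simp
    obtain ⟨a, b, h⟩ := expand ev hev ht hg (Φ (X j))
    exact ⟨a, b, fun h => absurd h h1, fun h => absurd h h2, hX j ▸ h⟩
  choose τ υ k1 k2 k3 using key
  have main : ∀ (g : Pol k N) (j : ℕ), Form g → j ≤ 3 →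
      x.ctr.lx g ∈ Ideal.span {y} ⊔ maximalIdeal x.ctr.O ^ j → Van j g x.z τ υ := by
    intro g j hf hj hgj
    have h1 := cong _ Φ ((Polynomial.aeval t).comp (aeval (arc x.z τ υ)))
      (fun j => by simpa [arc] using k3 j) g
    have h0 : Ideal.span {y} ⊔ maximalIdeal x.ctr.O ^ 3 ≤
        Ideal.span {y} ⊔ maximalIdeal x.ctr.O ^ j := sup_le_sup_left (Ideal.pow_le_pow_right hj) _
    have h2 := h0 h1
    rw [hΦ g hf, AlgHom.comp_apply] at h2
    have h3 := sub_mem hgj h2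
    rw [sub_sub_cancel] at h3
    obtain ⟨c, d, e⟩ := pow_gen hg j _ h3
    exact dvd_of ev hev hy hp ht hn j _ c d e
  refine ⟨l, τ, υ, ⟨x.z_idx, (k1 _ rfl).1, (k1 _ rfl).2, (k2 _ rfl).1, (k2 _ rfl).2, ?_⟩, main⟩
  rintro G (rfl | hG')
  · exact main _ 3 hW.1 le_rfl (Ideal.mem_sup_left (Ideal.mem_span_singleton_self _))
  · refine main G 3 (hG.form G hG').1 le_rfl ?_
    have : x.ctr.lx G = 0 := Subtype.ext (by
      rw [Ctr.coe_lx x.good (hG.form G hG').1, Ctr.lo, (hG.form G hG').2, zero_div]; rfl)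
    rw [this]
    exact zero_mem _

end Pool.Agent.MP_f3836a_nt.PK
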