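import Pool.Agent.MP_f3836a_nt.PK.SpecF

set_option autoImplicit false

/-! Nonsingular points of a curve. -/

namespace Pool.Agent.MP_f3836a_nt.PK

open MvPolynomial IsLocalRing

universe u

namespace FBrB

variable {k : Type u} [Field k] {N : ℕ} {V : Var k N}

theorem one (pa : PlA k V.K) (ca : CenA k V.ξ) (x : Pt k V.ξ) (P : Place k V.K)
    (hd : IsDiscreteValuationRing x.ctr.O) (hc : Cen V.ξ x.z P) : P.V.toSubring = x.ctr.O := by
  refine le_antisymm (fun f hf => ?_) ((ca.dom x P).1 hc)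
  obtain ⟨a, b, hb, e⟩ := V.gen.frac x.good f
  rcases ValuationRing.dvd_total a b with ⟨c, rfl⟩ | ⟨c, rfl⟩
  · have ha : (a : V.K) ≠ 0 := fun h => hb (by rw [Subring.coe_mul, h, zero_mul])
    have e1 : f * c = 1 := mul_left_cancel₀ ha (by
      rw [Subring.coe_mul] at e
      linear_combination e)
    have hf0 : f ≠ 0 := left_ne_zero_of_mul_eq_one e1
    have hc0 : (c : V.K) ≠ 0 := right_ne_zero_of_mul_eq_one e1
    by_cases hu : IsUnit c
    · obtain ⟨d, hd⟩ := hu.exists_right_inv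
      have e2 : (c : V.K) * d = 1 := congrArg Subtype.val hd
      have e3 : f = d := by linear_combination (-f) * e2 + (d : V.K) * e1
      rw [e3]
      exact d.2
    · have h1 := ((ca.max x P hc c).1 hu).resolve_left hc0
      have h2 := pa.mul P f c hf0 hc0
      have h3 := pa.con P 1
      have h4 := (pa.mem P f hf0).1 hf
      rw [map_one] at h3
      rw [e1] at h2
      omega
  · rw [Subring.coe_mul, mul_comm f] at e
    rw [mul_left_cancel₀ hb e]
    exact c.2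

theorem dvr (ba : BrA V) (x : Pt k V.ξ) (P : Place k V.K) (hc : Cen V.ξ x.z P)
    (hu : ∀ Q, Cen V.ξ x.z Q → Q = P) (t : V.K) (ht : t ∈ x.ctr.O) (h0 : t ≠ 0)
    (h1 : P.ord t = 1) : IsDiscreteValuationRing x.ctr.O := by
  have := Ctr.noeth x.good
  have := ba.dim x
  classical
  have h2 : ordR x.ctr.O t = 1 := by
    rw [ba.ord x t h0, finsum_eq_single (fun Q : Place k V.K => ∑ᶠ (_ : Cen V.ξ x.z Q), Q.ord t) P
      (fun Q hQ => by rw [finsum_eq_if, if_neg fun h => hQ (hu Q h)]), finsum_eq_if,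
      if_pos hc, h1]
  have h3 : (⟨t, ht⟩ : x.ctr.O) ≠ 0 := fun h => h0 (congrArg Subtype.val h)
  have h4 : Ord.o (⟨t, ht⟩ : x.ctr.O) = 1 := (Ord.coe h3).symm.trans h2
  have h5 : Ring.ord x.ctr.O ⟨t, ht⟩ = 1 := by
    rw [← ENat.natCast_toNat (Ord.fin h3), show (Ring.ord x.ctr.O ⟨t, ht⟩).toNat = 1 from
      Int.ofNat_inj.1 h4]
    rfl
  have h6 : (Ideal.span {(⟨t, ht⟩ : x.ctr.O)}).IsMaximal :=
    Ideal.isMaximal_def.2 (isSimpleModule_iff_isCoatom.1 (Module.length_eq_one_iff.1 h5))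
  have h7 := (eq_maximalIdeal h6).symm
  have nf : ¬ IsField x.ctr.O := fun hf => by
    rw [isField_iff_maximalIdeal_eq.1 hf, eq_comm, Ideal.span_singleton_eq_bot] at h7
    exact h3 h7
  have pr : (maximalIdeal x.ctr.O).IsPrincipal := ⟨_, h7⟩
  exact ((IsDiscreteValuationRing.TFAE x.ctr.O nf).out 4 0).1 pr

/-- a normal point carries one place -/
theorem uniq (ap : RApx.{u}) (pa : PlA k V.K) (ca : CrvA V) (x : Pt k V.ξ)
    (h : ∀ f : V.K, (∀ P, Cen V.ξ x.z P → f ∈ P.V) → f ∈ x.ctr.O) {P Q : Place k V.K}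
    (hP : Cen V.ξ x.z P) (hQ : Cen V.ξ x.z Q) : Q = P := by
  classical
  by_contra hne
  obtain ⟨g, hg⟩ := ap k V.K pa _ (fun R => if R = P then 0 else 1) (ca.fin x.z)
  have h1 : g ∈ x.ctr.O := h g fun R hR => by
    have := R.V.add_mem _ _ ((pa.mem R _ (hg R hR).1).2 (by rw [(hg R hR).2]; exact zero_le_one))
      (R.const (if R = P then 0 else 1))
    rwa [sub_add_cancel] at this
  have h2 := (hg P hP).2
  have h3 := (hg Q hQ).2
  rw [if_pos rfl, map_zero, sub_zero] at h2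
  rw [if_neg hne, map_one] at h3
  have h4 := (ca.cen.max x P hP ⟨g, h1⟩).2 (Or.inr (by rw [h2]; exact one_pos))
  have h5 := (ca.cen.max x Q hQ (⟨g, h1⟩ - 1)).2 (Or.inr (by
    change 0 < Q.ord (g - 1)
    rw [h3]
    exact one_pos))
  have h6 := sub_mem h4 h5
  rw [sub_sub_cancel] at h6
  exact h6 isUnit_one

end FBrB

theorem rBrB : RApx.{u} → RBrB.{u} := by
  intro ap k _ _ N V _ pa pb ca b1 ba
  refine ⟨?_, FBrB.dvr ba, FBrB.one pa ca.cen⟩
  choose h h0 hh using b1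
  refine (Set.finite_iUnion (f := fun i : {i // V.ξ i ≠ 0} =>
    ⋃ P ∈ {P : Place k V.K | P.ord (h i.1 i.2) ≠ 0}, {x : Pt k V.ξ | Cen V.ξ x.z P})
    fun i => (pb.fin _).biUnion fun P _ => Set.Subsingleton.finite
      fun x hx y hy => Pt.ext (ca.cen.uniq _ _ P hx hy)).subset fun x hx => ?_
  have hi := Ctr.xi_ne x.good
  obtain ⟨h1, h2⟩ := hh _ hi x (by rw [x.z_idx.1]; exact one_ne_zero)
  obtain ⟨P, hP⟩ := ca.pt x
  refine Set.mem_iUnion.2 ⟨⟨_, hi⟩, Set.mem_biUnion (x := P) (fun e => hx ?_) hP⟩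
  have hu : IsUnit (⟨_, h1⟩ : x.ctr.O) := by
    by_contra hn
    have := ((ca.cen.max x P hP ⟨_, h1⟩).1 hn).resolve_left (h0 _ hi)
    exact this.ne' e
  obtain ⟨d, hd⟩ := hu.exists_left_inv
  have e2 : (d : V.K) * h _ hi = 1 := congrArg Subtype.val hd
  have key : ∀ f : V.K, (∀ P, Cen V.ξ x.z P → f ∈ P.V) → f ∈ x.ctr.O := fun f hf => by
    have := x.ctr.O.mul_mem d.2 (h2 f hf)
    rwa [← mul_assoc, e2, one_mul] at this
  have un : ∀ Q, Cen V.ξ x.z Q → Q = P := fun Q hQ => FBrB.uniq ap pa ca x key hP hQ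
  obtain ⟨t, t0, t1⟩ := pa.uni P
  exact FBrB.dvr ba x P hP un t (key t fun Q hQ => by
    rw [un Q hQ]
    exact (pa.mem P t t0).2 (by rw [t1]; exact zero_le_one)) t0 t1

end Pool.Agent.MP_f3836a_nt.PK
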