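import Pool.Agent.MP_f3836a_nt.PK.SpecF

set_option autoImplicit false

/-! Centres of places, points and places of a curve. -/

namespace Pool.Agent.MP_f3836a_nt.PK

open MvPolynomial IsLocalRing IntermediateField

universe u

namespace FCrv

variable {k L : Type u} [Field k] [Field L] [Algebra k L] {N : ℕ} {P : Place k L}
  {η : Fin (N + 1) → L} {z : Fin (N + 1) → k}

theorem val_add (h : PlA k L) {f g : L} (hf : f ∈ P.V) (hg : g ∈ P.V) :
    P.val (f + g) = P.val f + P.val g := by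
  obtain ⟨χ, h1, -⟩ := h.hom P
  rw [← h1 ⟨f, hf⟩, ← h1 ⟨g, hg⟩, ← map_add]
  exact (h1 (⟨f, hf⟩ + ⟨g, hg⟩)).symm

theorem val_mul (h : PlA k L) {f g : L} (hf : f ∈ P.V) (hg : g ∈ P.V) :
    P.val (f * g) = P.val f * P.val g := by
  obtain ⟨χ, h1, -⟩ := h.hom P
  rw [← h1 ⟨f, hf⟩, ← h1 ⟨g, hg⟩, ← map_mul]
  exact (h1 (⟨f, hf⟩ * ⟨g, hg⟩)).symm

theorem val_const (h : PlA k L) (a : k) : P.val (algebraMap k L a) = a := (h.hom P).choose_spec.2 a

theorem val_zero (h : PlA k L) : P.val 0 = 0 := by simpa using val_const (P := P) h 0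

theorem val_one (h : PlA k L) : P.val 1 = 1 := by simpa using val_const (P := P) h 1

theorem zero_iff (h : PlA k L) {f : L} (hf : f ∈ P.V) : P.Zero f ↔ P.val f = 0 := by
  simpa using h.val P f hf 0

theorem zero_sub (h : PlA k L) {f : L} {a : k} :
    P.Zero (f - algebraMap k L a) ↔ f ∈ P.V ∧ P.val f = a := by
  refine ⟨fun e => ?_, fun e => (h.val P f e.1 a).2 e.2⟩
  have : f ∈ P.V := by
    simpa using P.V.add_mem _ _ (P.V.nonunits_subset ((h.zero P _).1 e)) (P.const a)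
  exact ⟨this, (h.val P f this a).1 e⟩

theorem ne_zero (h : PlA k L) {g : L} (h0 : P.val g ≠ 0) : g ≠ 0 := fun e =>
  h0 (e ▸ val_zero h)

theorem val_div (h : PlA k L) {f g : L} (hf : f ∈ P.V) (hg : g ∈ P.V) (h0 : P.val g ≠ 0) :
    f / g ∈ P.V ∧ P.val (f / g) = P.val f / P.val g := by
  have h1 : g⁻¹ ∈ P.V := by_contra fun e =>
    h0 ((zero_iff h hg).1 ((h.zero P g).2 (P.V.mem_nonunits_iff_or.2 (Or.inr e))))
  have h2 : f / g ∈ P.V := by
    rw [div_eq_mul_inv]
    exact P.V.mul_mem _ _ hf h1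
  refine ⟨h2, eq_div_of_mul_eq h0 ?_⟩
  rw [← val_mul h h2 hg, div_mul_cancel₀ _ (ne_zero h h0)]

theorem val_inv (h : PlA k L) {f g : L} (hf : f ≠ 0) (hg : g ≠ 0) (h1 : f / g ∈ P.V)
    (h2 : g / f ∈ P.V) : P.val (f / g) ≠ 0 := by
  refine left_ne_zero_of_mul_eq_one (b := P.val (g / f)) ?_
  rw [← val_mul h h1 h2, div_mul_div_cancel₀ hg, div_self hf, val_one h]

theorem aev (h : PlA k L) (h1 : ∀ j, η j ∈ P.V ∧ P.val (η j) = z j) (A : Pol k N) :
    aeval η A ∈ P.V ∧ P.val (aeval η A) = eval z A := by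
  induction A using MvPolynomial.induction_on with
  | C a => simpa using ⟨P.const a, val_const h a⟩
  | add p q hp hq =>
    rw [map_add, map_add, val_add h hp.1 hq.1, hp.2, hq.2]
    exact ⟨P.V.add_mem _ _ hp.1 hq.1, rfl⟩
  | mul_X p j hp =>
    rw [map_mul, map_mul, aeval_X, eval_X, val_mul h hp.1 (h1 j).1, hp.2, (h1 j).2]
    exact ⟨P.V.mul_mem _ _ hp.1 (h1 j).1, rfl⟩

theorem cen_iff (h : PlA k L) : Cen η z P ↔
    ∃ i, Nrm z i ∧ η i ≠ 0 ∧ ∀ j, η j / η i ∈ P.V ∧ P.val (η j / η i) = z j := by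
  simp only [Cen, zero_sub h]

theorem form (h : PlA k L) {i : Fin (N + 1)}
    (h1 : ∀ j, η j / η i ∈ P.V ∧ P.val (η j / η i) = z j) {n : ℕ} {A : Pol k N}
    (hA : A.IsHomogeneous n) :
    aeval η A / η i ^ n ∈ P.V ∧ P.val (aeval η A / η i ^ n) = eval z A := by
  rw [← CTanA.aeval_div hA]
  exact aev h h1 A

theorem ex (h : PlA k L) (h0 : ∃ i, η i ≠ 0) (P : Place k L) : ∃ x : Pt k η, Cen η x.z P := by
  obtain ⟨i, hi⟩ := Finite.exists_max fun j => P.V.valuation (η j)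
  have i0 : η i ≠ 0 := fun e => by
    obtain ⟨j, hj⟩ := h0
    have := hi j
    rw [e, map_zero, le_zero_iff, map_eq_zero] at this
    exact hj this
  have m : ∀ j, η j / η i ∈ P.V := fun j => by
    rw [← P.V.valuation_le_one_iff, map_div₀]
    exact div_le_one_of_le₀ (hi j) zero_le
  obtain ⟨l, hl, hmin⟩ := WellFounded.has_min (wellFounded_lt (α := Fin (N + 1)))
    {j | P.val (η j / η i) ≠ 0} ⟨i, by
      rw [Set.mem_ofPred_eq, div_self i0, val_one h]
      exact one_ne_zero⟩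
  have l0 : η l ≠ 0 := fun e => ne_zero h hl (by rw [e, zero_div])
  have key : ∀ j, η j / η l ∈ P.V ∧
      P.val (η j / η l) = P.val (η j / η i) / P.val (η l / η i) := fun j => by
    rw [← div_div_div_cancel_right₀ i0]
    exact val_div h (m j) (m l) hl
  have nr : Nrm (fun j => P.val (η j / η i) / P.val (η l / η i)) l :=
    ⟨div_self hl, fun j hj => div_eq_zero_iff.2 (Or.inl (by_contra fun e => hmin j e hj))⟩
  refine ⟨⟨fun j => P.val (η j / η i) / P.val (η l / η i), ⟨l, nr⟩, fun n G hG e => ?_⟩, (cen_iff h).2 ⟨l, nr, l0, key⟩⟩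
  rw [← (form h key hG).2, e, zero_div, val_zero h]

theorem uniq (h : PlA k L) {z' : Fin (N + 1) → k} (h1 : Cen η z P) (h2 : Cen η z' P) : z = z' := by
  obtain ⟨i, a1, a2, a3⟩ := (cen_iff h).1 h1
  obtain ⟨j, b1, b2, b3⟩ := (cen_iff h).1 h2
  obtain rfl : i = j := by
    rcases lt_trichotomy i j with l | l | l
    · exact absurd ((b3 i).2.trans (b1.2 i l)) (val_inv h a2 b2 (b3 i).1 (a3 j).1)
    · exact l
    · exact absurd ((a3 j).2.trans (a1.2 j l)) (val_inv h b2 a2 (a3 j).1 (b3 i).1)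
  exact funext fun l => (a3 l).2.symm.trans (b3 l).2

theorem val (h : PlA k L) {n : ℕ} {A B : Pol k N} (h1 : Cen η z P) (hA : A.IsHomogeneous n)
    (hB : B.IsHomogeneous n) (h0 : eval z B ≠ 0) : aeval η B ≠ 0 ∧ aeval η A / aeval η B ∈ P.V ∧
      P.val (aeval η A / aeval η B) = eval z A / eval z B := by
  obtain ⟨i, -, a2, a3⟩ := (cen_iff h).1 h1
  obtain ⟨b1, b2⟩ := form h a3 hA
  obtain ⟨c1, c2⟩ := form h a3 hB
  rw [← c2] at h0
  refine ⟨fun e => ne_zero h h0 (by rw [e, zero_div]), ?_⟩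
  rw [← div_div_div_cancel_right₀ (pow_ne_zero n a2), ← b2, ← c2]
  exact val_div h b1 c1 h0

theorem dom (h : PlA k L) (h0 : ∃ i, η i ≠ 0) (x : Pt k η) :
    Cen η x.z P ↔ x.ctr.O ≤ P.V.toSubring := by
  constructor
  · rintro h1 f ⟨n, A, B, hA, hB, hP, e⟩
    obtain ⟨a1, a2, -⟩ := val h h1 hA hB hP
    rw [eq_div_of_mul_eq a1 e]
    exact a2
  · intro hle
    obtain ⟨y, hy⟩ := ex h h0 P
    obtain ⟨i, a1, a2, a3⟩ := (cen_iff h).1 hy
    have key : ∀ j, x.z j = y.z j * x.z i := fun j => by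
      have hl : (X j - C (y.z j) * X i : Pol k N).IsHomogeneous 1 :=
        (isHomogeneous_X k j).sub ((isHomogeneous_X k i).C_mul _)
      by_contra e
      have hP : X j - C (y.z j) * X i ∉ x.ctr.P := fun e' => e (by
        simpa [Pt.mem_P, sub_eq_zero] using e')
      obtain ⟨b1, b2⟩ := form h a3 hl
      have b3 : aeval η (X i : Pol k N) / _ ∈ P.V := hle (x.ctr.div_mem (isHomogeneous_X k i) hl hP)
      rw [pow_one] at b1 b2
      rw [aeval_X] at b3
      refine val_inv h (x.ctr.aeval_ne hl hP) a2 b1 b3 (b2.trans ?_)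
      simp [a1.1]
    have e := (key _).symm.trans x.nrm.1
    have e' : x.ctr.idx = i := by
      rcases lt_trichotomy x.ctr.idx i with l | l | l
      · exact absurd (a1.2 _ l) (left_ne_zero_of_mul_eq_one e)
      · exact l
      · exact absurd (x.nrm.2 _ l) (right_ne_zero_of_mul_eq_one e)
    have : x.z = y.z := funext fun j => by rw [key j, ← e', x.nrm.1, mul_one]
    rwa [this]

theorem max (h : PlA k L) (x : Pt k η) (h1 : Cen η x.z P) (f : x.ctr.O) :
    f ∈ maximalIdeal x.ctr.O ↔ P.Zero (f : L) := by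
  obtain ⟨n, A, B, hA, hB, hP, e⟩ := f.2
  obtain ⟨a1, a2, a3⟩ := val h h1 hA hB hP
  rw [x.ctr.mem_max_iff f hA hB hP e, eq_div_of_mul_eq a1 e, zero_iff h a2, a3, div_eq_zero_iff,
    Pt.mem_P]
  exact (or_iff_left hP).symm

theorem ncon (h : IsFF k L) (h1 : ∀ f : L, ∃ a, algebraMap k L a = f) : False := by
  obtain ⟨t, ht, -⟩ := h
  obtain ⟨a, rfl⟩ := h1 t
  exact ht (isAlgebraic_algebraMap a)

theorem tr_sub {T : L} (hT : Transcendental k T) (a : k) :
    Transcendental k (T - algebraMap k L a) := fun e =>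
  hT (by simpa using e.add (isAlgebraic_algebraMap a))

theorem tr_ne {T : L} (hT : Transcendental k T) (a : k) : T - algebraMap k L a ≠ 0 := fun e =>
  tr_sub hT a (e ▸ isAlgebraic_zero)

theorem inf [Infinite k] (h : IsFF k L) (ha : PlA k L) (hb : PlB k L) : Infinite (Place k L) := by
  obtain ⟨T, hT, -⟩ := h
  have : ∀ a : k, ∃ P : Place k L, P.val T = a := fun a => by
    by_contra hn
    have h1 := hb.deg _ (tr_sub hT a)
    have := hb.fd _ (tr_sub hT a)
    rw [finsum_eq_zero_of_forall_eq_zero fun P => max_eq_right (not_lt.1 fun l =>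
      hn ⟨P, ((zero_sub ha).1 (Or.inr l)).2⟩)] at h1
    exact Module.finrank_pos.ne (by exact_mod_cast h1)
  exact Infinite.of_surjective (fun P : Place k L => P.val T) this

end FCrv

theorem rCenA : RCenA.{u} := fun _ _ _ _ _ _ _ h h0 =>
  ⟨FCrv.ex h h0, fun _ _ _ => FCrv.uniq h, fun _ _ _ _ _ => FCrv.val h, fun x _ => FCrv.dom h h0 x,
    fun x _ => FCrv.max h x⟩

open FCrv in
theorem rCrvA : RCenA.{u} → RCrvA.{u} := by
  intro hC k _ _ N V ff pa pb
  have nz : ∃ i, V.ξ i ≠ 0 := by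
    by_contra hn
    have h0 : V.ξ = 0 := funext fun i => by_contra fun e => hn ⟨i, e⟩
    refine ncon ff fun f => ?_
    obtain ⟨n, A, B, -, -, h1, h2⟩ := V.gen f
    rw [h0, aeval_zero] at h1
    rw [h0, aeval_zero, aeval_zero] at h2
    exact ⟨_, by rw [eq_div_of_mul_eq h1 h2, ← map_div₀]⟩
  have cen := hC k V.K N V.ξ pa nz
  have tr : ∀ i, V.ξ i ≠ 0 → ∃ j, Transcendental k (V.ξ j / V.ξ i) := fun i hi => by
    by_contra hn
    refine ncon ff fun f => rat_le hi (algebraMap k V.K).fieldRange (fun a => ⟨a, rfl⟩)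
      (fun j => ?_) (V.gen f)
    have : IsAlgebraic k (V.ξ j / V.ξ i) := by_contra fun e => hn ⟨j, e⟩
    exact minpoly.mem_range_of_degree_eq_one k _
      (IsAlgClosed.degree_eq_one_of_irreducible k (minpoly.irreducible this.isIntegral))
  have pt : ∀ x : Pt k V.ξ, ∃ P, Cen V.ξ x.z P := fun x => by
    obtain ⟨B, h1, h2⟩ := Ideal.image_subset_nonunits_valuationSubring (maximalIdeal x.ctr.O)
      (maximalIdeal.isMaximal _).ne_top
    refine ⟨⟨B, ?_, fun a => h1 (x.ctr.const_mem a)⟩, (cen.dom x _).2 h1⟩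
    rintro rfl
    have i0 := Ctr.xi_ne x.good
    obtain ⟨j, hj⟩ := tr _ i0
    have hl : (X j - C (x.z j) * X x.ctr.idx : Pol k N).IsHomogeneous 1 :=
      (isHomogeneous_X k j).sub ((isHomogeneous_X k _).C_mul _)
    have h3 := h2 ⟨_, (x.lx_mem_max (Form.of hl)).2 (by simp [x.nrm.1]), rfl⟩
    have h4 := (ValuationSubring.mem_nonunits_iff_or _).1 h3 |>.resolve_right fun e =>
      e (ValuationSubring.mem_top _)
    rw [Subring.coe_subtype, ZeroMemClass.coe_eq_zero, Ctr.lx_eq_zero x.good (Form.of hl)] at h4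
    refine tr_ne hj (x.z j) ?_
    simp only [map_sub, map_mul, aeval_X, aeval_C] at h4
    rw [sub_eq_zero.1 h4, mul_div_cancel_right₀ _ i0, sub_self]
  have fin : ∀ z : Fin (N + 1) → k, {P | Cen V.ξ z P}.Finite := fun z => by
    rcases {P | Cen V.ξ z P}.eq_empty_or_nonempty with e | ⟨Q, i, a1, a2, -⟩
    · rw [e]
      exact Set.finite_empty
    obtain ⟨j, hj⟩ := tr i a2
    refine (pb.fin (V.ξ j / V.ξ i - algebraMap k V.K (z j))).subset ?_
    rintro P ⟨l, b1, -, b3⟩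
    obtain rfl := a1.uniq b1
    exact ((b3 j).resolve_left (tr_ne hj _)).ne'
  refine ⟨cen, nz, tr, pt, fin, fun A hA h0 => ?_, ?_⟩
  · choose p hp using pt
    refine Set.Finite.of_injOn (f := p) (fun x hx => ?_)
      (fun x _ y _ e => Pt.ext (cen.uniq _ _ _ (hp x) (e ▸ hp y)))
      (Set.finite_iUnion fun i => pb.fin (aeval V.ξ A / V.ξ i ^ A.totalDegree))
    obtain ⟨i, -, a2, a3⟩ := (cen_iff pa).1 (hp x)
    obtain ⟨b1, b2⟩ := form pa a3 hA
    exact Set.mem_iUnion.2 ⟨i, (((zero_iff pa b1).2 (b2.trans hx)).resolve_left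
      (div_ne_zero h0 (pow_ne_zero _ a2))).ne'⟩
  · by_contra hn
    have := not_infinite_iff_finite.1 hn
    have := inf ff pa pb
    refine Set.infinite_univ (α := Place k V.K)
      ((Set.finite_iUnion fun x : Pt k V.ξ => fin x.z).subset fun P _ => ?_)
    exact Set.mem_iUnion.2 (cen.ex P)

end Pool.Agent.MP_f3836a_nt.PK
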