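import Pool.Agent.MP_f3836a_nt.PK.Cheb0A

set_option autoImplicit false

/-! Chebotarev upstairs, part B: counting. -/

namespace Pool.Agent.MP_f3836a_nt.PK

namespace Cheb0

open IntermediateField

universe u

variable {k L : Type u} [Field k] [Field L] [Algebra k L] {n : ℕ} {T : L} {y : Fin n → L} {D : ℕ}

/-- places over a set of points of the line -/
def Ov (T : L) (U : Set k) : Set (Place k L) := {P | T ∈ P.V ∧ P.val T ∈ U}

theorem ex_over (A : PlA k L) (B : PlB k L) (hT : Transcendental k T) (t : k) :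
    ∃ P : Place k L, T ∈ P.V ∧ P.val T = t := by
  have h1 : Transcendental k (T - algebraMap k L t) := fun h => hT (by
    simpa using h.add (isAlgebraic_algebraMap t))
  have := B.fd _ h1
  have h2 := B.deg _ h1
  have h3 : 0 < Module.finrank (adjoin k {T - algebraMap k L t}) L := Module.finrank_pos
  by_contra hn
  have h4 : ∀ P : Place k L, max (P.ord (T - algebraMap k L t)) 0 = 0 := fun P =>
    max_eq_right (not_lt.1 fun h => hn ⟨P, (over_iff A P hT t).1 h⟩)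
  simp only [h4, finsum_zero] at h2
  omega

theorem fibre (A : PlA k L) (B : PlB k L) (hT : Transcendental k T)
    (hy : ∀ (P : Place k L) i, T ∈ P.V → y i ∈ P.V)
    (hG : ∀ π : Equiv.Perm (Fin n), ∃ g : L ≃ₐ[adjoin k {T}] L, ∀ i, g (y i) = y (π i)) {t : k}
    (hf : (Ov T {t}).Finite) (hc : (Ov T {t}).ncard ≤ n.factorial)
    (hg : ∀ P : Place k L, T ∈ P.V → P.val T = t → Function.Injective fun i => P.val (y i)) :
    (Ov T {t}).ncard = n.factorial ∧ ∀ P ∈ Ov T {t}, ∀ Q ∈ Ov T {t},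
      ∃ π : Equiv.Perm (Fin n), ∀ i, Q.val (y i) = P.val (y (π i)) := by
  have key : ∀ P ∈ Ov T {t}, ∃ Φ : Equiv.Perm (Fin n) → Place k L, Function.Injective Φ ∧
      ∀ π, Φ π ∈ Ov T {t} ∧ ∀ i, (Φ π).val (y i) = P.val (y (π i)) := by
    intro P hP
    have : ∀ π : Equiv.Perm (Fin n), ∃ Q ∈ Ov T {t}, ∀ i, Q.val (y i) = P.val (y (π i)) := by
      intro π
      obtain ⟨g, hg⟩ := hG π
      have c : ∀ a, g.toRingEquiv (algebraMap k L a) = algebraMap k L (id a) := fun a =>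
        (g.restrictScalars k).commutes a
      have cT : g.toRingEquiv T = T := g.commutes ⟨T, mem_adjoin_simple_self k T⟩
      obtain ⟨Q, hQ⟩ := ex_comap P g.toRingEquiv fun a => by rw [c]; exact P.const _
      have hTQ : T ∈ Q.V := (hQ T).2 (by rw [cT]; exact hP.1)
      have h1 := val_map A P _ id c Q hQ hTQ
      rw [cT] at h1
      refine ⟨Q, ⟨hTQ, h1.symm.trans hP.2⟩, fun i => ?_⟩
      rw [← hg i]
      exact (val_map A P _ id c Q hQ (hy Q i hTQ)).symm
    choose Φ h1 h2 using this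
    refine ⟨Φ, fun π π' e => Equiv.ext fun i => hg P hP.1 hP.2 ?_, fun π => ⟨h1 π, h2 π⟩⟩
    simp only
    rw [← h2, ← h2, e]
  have rg : ∀ Φ : Equiv.Perm (Fin n) → Place k L, Function.Injective Φ →
      (Set.range Φ).ncard = n.factorial := fun Φ h => by
    rw [Set.ncard_range_of_injective h, Nat.card_eq_fintype_card, Fintype.card_perm,
      Fintype.card_fin]
  constructor
  · obtain ⟨P, hP⟩ := ex_over A B hT t
    obtain ⟨Φ, h1, h2⟩ := key P hP
    refine le_antisymm hc ?_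
    rw [← rg Φ h1]
    exact Set.ncard_le_ncard (Set.range_subset_iff.2 fun π => (h2 π).1) hf
  · intro P hP Q hQ
    obtain ⟨Φ, h1, h2⟩ := key P hP
    have := Set.eq_of_subset_of_ncard_le (Set.range_subset_iff.2 fun π => (h2 π).1)
      (by rw [rg Φ h1]; exact hc) hf
    rw [← this] at hQ
    obtain ⟨π, rfl⟩ := hQ
    exact ⟨π, (h2 π).2⟩

theorem ov_card {U : Set k} (hU : U.Finite) {N : ℕ}
    (h : ∀ t ∈ U, (Ov T {t}).Finite ∧ (Ov T {t}).ncard = N) :
    (Ov T U).Finite ∧ (Ov T U).ncard = N * U.ncard := by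
  induction U, hU using Set.Finite.induction_on with
  | empty => simp [Ov]
  | @insert a s ha hs ih =>
    obtain ⟨h1, h2⟩ := ih fun t ht => h t (Set.mem_insert_of_mem _ ht)
    obtain ⟨h3, h4⟩ := h a (Set.mem_insert _ _)
    have e : Ov T (insert a s) = Ov T {a} ∪ Ov T s := by
      ext P
      simp only [Ov, Set.mem_ofPred_eq, Set.mem_insert_iff, Set.mem_union, Set.mem_singleton_iff]
      tauto
    have dj : Disjoint (Ov T {a}) (Ov T s) := Set.disjoint_left.2 fun P a1 a2 => ha (by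
      have e1 : P.val T = a := a1.2
      rw [← e1]
      exact a2.2)
    rw [e, Set.ncard_union_eq dj h3 h1, h2, h4, Set.ncard_insert_of_notMem ha hs]
    exact ⟨h3.union h1, by ring⟩

theorem cover_le {α ι : Type*} [Fintype ι] {S : Set α} (X : ι → Set α) (hX : ∀ i, (X i).Finite)
    (h : ∀ a ∈ S, ∃ i, a ∈ X i) : S.Finite ∧ S.ncard ≤ ∑ i, (X i).ncard := by
  classical
  have hs : S ⊆ (Finset.univ.biUnion fun i => (hX i).toFinset : Finset α) := fun a ha => by
    simpa using h a ha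
  refine ⟨(Finset.finite_toSet _).subset hs,
    (Set.ncard_le_ncard hs (Finset.finite_toSet _)).trans ?_⟩
  rw [Set.ncard_coe_finset]
  refine Finset.card_biUnion_le.trans (Finset.sum_le_sum fun i _ => ?_)
  rw [Set.ncard_eq_toFinset_card _ (hX i)]

theorem roots_card [IsAlgClosed k] (p : ℕ) [CharP k p] {q : ℕ} (h1 : 1 < q) (h : p ∣ q) :
    {t : k | t ^ q = t}.Finite ∧ {t : k | t ^ q = t}.ncard = q := by
  have e : {t : k | t ^ q = t} = (Polynomial.X ^ q - Polynomial.X : Polynomial k).rootSet k := by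
    ext t
    rw [Polynomial.mem_rootSet_of_ne (FiniteField.X_pow_card_sub_X_ne_zero k h1)]
    simp [sub_eq_zero]
  rw [e]
  refine ⟨Polynomial.rootSet_finite _ _, ?_⟩
  rw [← Nat.card_coe_set_eq, Nat.card_eq_fintype_card, Polynomial.card_rootSet_eq_natDegree
    (galois_poly_separable p q h) (IsAlgClosed.splits _),
    FiniteField.X_pow_card_sub_X_natDegree_eq k h1]

theorem mon_val (A : PlA k L) (P : Place k L) (hP : T ∈ P.V) (hy : ∀ i, y i ∈ P.V) (b : ℕ)
    (a : Fin n → ℕ) : P.val (mon T y b a) = P.val T ^ b * ∏ i, P.val (y i) ^ a i := by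
  rw [mon, val_mul A P (pow_mem hP _) (prod_mem fun i _ => pow_mem (hy i) _), val_pow A P hP,
    val_prod A P _ fun i => pow_mem (hy i) _]
  simp only [val_pow A P (hy _)]

theorem partner (A : PlA k L) (hy : ∀ (P : Place k L) i, T ∈ P.V → y i ∈ P.V) {q : ℕ}
    (π : Equiv.Perm (Fin n)) (X : Finset (Place k L))
    (hX : ∀ P ∈ X, T ∈ P.V ∧ P.val T ^ q = P.val T ∧ ∀ i, P.val (y i) ^ q = P.val (y (π i)))
    (m : ℕ) : RR k T y D m ≤ Submodule.span k
      {w | w ∈ RR k T y D m ∧ ∃ w' ∈ RR k T y D m, ∀ P ∈ X, P.val w ^ q = P.val w'} := by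
  refine Submodule.span_mono ?_
  rintro _ ⟨b, a, h, rfl⟩
  refine ⟨mon_mem h, mon T y b (a ∘ π.symm), mon_mem ?_, fun P hP => ?_⟩
  · simpa only [Function.comp_apply, Equiv.sum_comp] using h
  · obtain ⟨h1, h2, h3⟩ := hX P hP
    rw [mon_val A P h1 fun i => hy P i h1, mon_val A P h1 fun i => hy P i h1, mul_pow,
      pow_right_comm, h2, ← Finset.prod_pow,
      ← Equiv.prod_comp π fun i => P.val (y i) ^ (a ∘ π.symm) i]
    refine congrArg _ (Finset.prod_congr rfl fun i _ => ?_)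
    rw [pow_right_comm, h3, Function.comp_apply, Equiv.symm_apply_apply]

theorem arith {N q r C b x g a a' β : ℕ} (hr : 1 ≤ r) (hN : 1 ≤ N) (h1 : x ≤ q + C * r)
    (h2 : N * g ≤ x + (N - 1) * (q + C * r)) (h3 : x = N * a') (h4 : a' ≤ a) (h5 : a ≤ a' + β)
    (h6 : q ≤ g + β) (h7 : β ≤ b) :
    |(N : ℤ) * a - q| ≤ ((N * b + N * C + b : ℕ) : ℤ) * r := by
  obtain ⟨M, rfl⟩ := Nat.exists_eq_add_of_le hN
  rw [Nat.add_sub_cancel_left] at h2
  have e1 := Nat.mul_le_mul_left (1 + M) h4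
  have e2 := Nat.mul_le_mul_left (1 + M) (h5.trans (Nat.add_le_add_left h7 _))
  have e3 := Nat.mul_le_mul_left (1 + M) (h6.trans (Nat.add_le_add_left h7 _))
  have e4 := Nat.mul_le_mul_left ((1 + M) * b) hr
  have e5 : 0 ≤ b * r := Nat.zero_le _
  have e6 : 0 ≤ C * r := Nat.zero_le _
  have e7 : 0 ≤ M * (C * r) := Nat.zero_le _
  subst h3
  zify at *
  rw [abs_le]
  constructor <;> nlinarith

end Cheb0

open Cheb0 IntermediateField

universe u

theorem rCheb0 : RPlA.{u} → RPlB.{u} → RLE.{u} → RTrans.{u} → RBomb.{u} → RCheb0.{u} := by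
  intro hA hB hLE _ hBo k _ _ p _ _ n D
  have hN : 1 ≤ n.factorial := n.factorial_pos
  obtain ⟨C, Q, hC⟩ := hBo k p n.factorial (n.factorial * (D * (n * n.factorial)) + 1) hN
  refine ⟨n.factorial * (n * n * (n.factorial * D)) + n.factorial * C + n * n * (n.factorial * D),
    max Q 2, fun r hr L _ _ T y τ hF hT _ hfr hyi hg hG _ hτ hτT hτy hy hD => ?_⟩
  have A := hA k L hF
  have B := hB k L p hF
  have := B.fd T hT
  have hq0 : 2 ≤ p ^ r := (le_max_right _ _).trans hr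
  have hq1 : 1 < (p ^ r) ^ 2 := by nlinarith
  have hpq : p ∣ (p ^ r) ^ 2 := by
    refine dvd_pow (dvd_pow_self p ?_) two_ne_zero
    rintro rfl
    simp at hq0
  have hR : ∀ m, (FiniteDimensional k (RR k T y D m) ∧
      Module.finrank k (RR k T y D m) ≤ n.factorial * m + 1) ∧ ∀ f ∈ RR k T y D m, f ≠ 0 →
      ({P : Place k L | 0 < P.ord f}.Finite ∧
        {P : Place k L | 0 < P.ord f}.ncard ≤ n.factorial * m) ∧
      ∀ P : Place k L, P.ord f ≤ (n.factorial * m : ℕ) := fun m => by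
    obtain ⟨E, h1, h2, h3⟩ := ex_div A B hT hy hD m
    rw [hfr] at h2
    have := (hLE k L hF A B E _ h3).2
    rw [h2, Int.toNat_natCast] at this
    exact ⟨this, fun f hf h0 => zeros_le B h1 (h3 f hf h0) h2⟩
  have bomb : ∀ (π : Equiv.Perm (Fin n)) (X : Set (Place k L)), X.Finite → (∀ P ∈ X, T ∈ P.V ∧
      P.val T ^ (p ^ r) ^ 2 = P.val T ∧ ∀ i, P.val (y i) ^ (p ^ r) ^ 2 = P.val (y (π i))) →
      X.ncard ≤ (p ^ r) ^ 2 + C * p ^ r := fun π X hf hX => by
    obtain ⟨P₀, hP₀, -⟩ := ex_over A B hT 0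
    have hX' : ∀ P ∈ hf.toFinset, _ := fun P hP => hX P (hf.mem_toFinset.1 hP)
    rw [Set.ncard_eq_toFinset_card _ hf]
    refine hC r ((le_max_left _ _).trans hr) L A ⟨P₀⟩ (RR k T y D) _ RR_mono RR_one RR_mul
      (fun m => (hR m).1.1) (fun m => ?_) (fun m => (hR m).1.2.trans (by omega))
      (fun m f h P hP => RR_reg hy P (hX' P hP).1 h) (fun m f h h0 => ((hR m).2 f h h0).1)
      ⟨P₀, fun m f h h0 => ⟨(A.mem P₀ f h0).1 (RR_reg hy P₀ hP₀ h), ?_⟩⟩ (partner A hy π _ hX')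
    · have := (hR m).1.1
      exact (lower (D := D) hT hg hfr m).trans (by omega)
    · exact_mod_cast ((hR m).2 f h h0).2 P₀
  set Bd := {t : k | ∃ P : Place k L, 0 < P.ord (T - algebraMap k L t) ∧
      ¬ Function.Injective fun i => P.val (y i)} with hBd
  have hz : ∀ x : Fin n × Fin n, {P : Place k L | x.1 ≠ x.2 ∧ 0 < P.ord (y x.1 - y x.2)}.Finite ∧
      {P : Place k L | x.1 ≠ x.2 ∧ 0 < P.ord (y x.1 - y x.2)}.ncard ≤ n.factorial * D := fun x => by
    by_cases hx : x.1 = x.2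
    · simp [hx]
    · simpa [hx] using ((hR D).2 _ (sub_mem (RR_y x.1) (RR_y x.2))
        (sub_ne_zero.2 (hyi.ne hx))).1
  obtain ⟨bf, bc⟩ := cover_le (S := Bd) (fun x : Fin n × Fin n => (fun P : Place k L => P.val T) ''
      {P : Place k L | x.1 ≠ x.2 ∧ 0 < P.ord (y x.1 - y x.2)}) (fun x => (hz x).1.image _) (by
    rintro t ⟨P, h1, h2⟩
    obtain ⟨h3, h4⟩ := (over_iff A P hT t).1 h1
    obtain ⟨i, j, h5, h6⟩ := Function.not_injective_iff.1 h2
    refine ⟨(i, j), P, ⟨h6, pos_of_val A P (sub_mem (hy P i h3) (hy P j h3))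
      (sub_ne_zero.2 (hyi.ne h6)) ?_⟩, h4⟩
    rw [val_sub A P (hy P i h3) (hy P j h3), h5, sub_self])
  have bc' : Bd.ncard ≤ n * n * (n.factorial * D) := by
    refine bc.trans ((Finset.sum_le_card_nsmul _ _ _ fun x _ =>
      (Set.ncard_image_le (hz x).1).trans (hz x).2).trans ?_)
    simp
  refine ⟨bf, bc'.trans (by omega), ?_⟩
  have fib : ∀ t, t ∉ Bd → ((Ov T {t}).Finite ∧ (Ov T {t}).ncard = n.factorial) ∧
      ∀ P ∈ Ov T {t}, ∀ Q ∈ Ov T {t},
        ∃ π : Equiv.Perm (Fin n), ∀ i, Q.val (y i) = P.val (y (π i)) := fun t ht => by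
    have h0 : T - algebraMap k L t ≠ 0 := fun h =>
      hT (by rw [sub_eq_zero.1 h]; exact isAlgebraic_algebraMap t)
    have hm : T - algebraMap k L t ∈ RR k T y D 1 := by
      rw [Algebra.algebraMap_eq_smul_one]
      exact sub_mem RR_T (Submodule.smul_mem _ _ (RR_mono 0 1 zero_le_one RR_one))
    have h1 := ((hR 1).2 _ hm h0).1
    simp only [over_iff A _ hT, mul_one] at h1
    have := fibre A B hT hy hG h1.1 h1.2 fun P a b => by
      by_contra hn
      exact ht ⟨P, (over_iff A P hT t).2 ⟨a, b⟩, hn⟩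
    exact ⟨⟨h1.1, this.1⟩, this.2⟩
  obtain ⟨sf, sc⟩ := roots_card (k := k) p hq1 hpq
  set S := {t : k | t ^ (p ^ r) ^ 2 = t} with hS
  set U := {t : k | t ^ (p ^ r) ^ 2 = t ∧ ∃ P : Place k L, 0 < P.ord (T - algebraMap k L t) ∧
    ∀ i, P.val (y i) ^ (p ^ r) ^ 2 = P.val (y i)} with hU
  have uf : U.Finite := sf.subset fun t ht => ht.1
  obtain ⟨g1, g2⟩ := ov_card (T := T) (sf.sdiff (t := Bd)) fun t ht => (fib t ht.2).1
  obtain ⟨u1, u2⟩ := ov_card (T := T) (uf.sdiff (t := Bd)) fun t ht => (fib t ht.2).1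
  set X : Equiv.Perm (Fin n) → Set (Place k L) := fun π =>
    {P | P ∈ Ov T (S \ Bd) ∧ ∀ i, P.val (y i) ^ (p ^ r) ^ 2 = P.val (y (π i))} with hX
  have xf : ∀ π, (X π).Finite := fun π => g1.subset fun P hP => hP.1
  have xb : ∀ π, (X π).ncard ≤ (p ^ r) ^ 2 + C * p ^ r := fun π =>
    bomb π _ (xf π) fun P hP => ⟨hP.1.1, hP.1.2.1, hP.2⟩
  have x1 : X 1 = Ov T (U \ Bd) := by
    ext P
    constructor
    · rintro ⟨⟨h1, h2, h3⟩, h4⟩
      exact ⟨h1, ⟨h2, P, (over_iff A P hT _).2 ⟨h1, rfl⟩, h4⟩, h3⟩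
    · rintro ⟨h1, ⟨h2, P', h5, h4⟩, h3⟩
      obtain ⟨π, hπ⟩ := (fib _ h3).2 P' ((over_iff A P' hT _).1 h5) P ⟨h1, rfl⟩
      refine ⟨⟨h1, h2, h3⟩, fun i => ?_⟩
      rw [Equiv.Perm.one_apply, hπ, h4]
  have cov := (cover_le (S := Ov T (S \ Bd)) X xf (by
    rintro P ⟨h1, h2, h3⟩
    obtain ⟨P', hP'⟩ := ex_comap P τ.symm fun a => by
      obtain ⟨b, rfl⟩ := IsAlgClosed.exists_pow_nat_eq a (zero_lt_one.trans hq1)
      rw [← hτ, τ.symm_apply_apply]
      exact P.const b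
    have h4 : ∀ f, f ∈ P.V ↔ τ f ∈ P'.V := fun f => by rw [hP', τ.symm_apply_apply]
    have h5 := val_map A P' τ (fun a => a ^ (p ^ r) ^ 2) hτ P h4 h1
    have h6 := (h4 T).1 h1
    rw [hτT] at h5 h6
    obtain ⟨π, hπ⟩ := (fib _ h3).2 P ⟨h1, rfl⟩ P' ⟨h6, h5.trans h2⟩
    refine ⟨π, ⟨h1, h2, h3⟩, fun i => ?_⟩
    rw [← hπ, ← val_map A P' τ (fun a => a ^ (p ^ r) ^ 2) hτ P h4 (hy P i h1), hτy])).2
  have h2 : n.factorial * (S \ Bd).ncard ≤
      (X 1).ncard + (n.factorial - 1) * ((p ^ r) ^ 2 + C * p ^ r) := by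
    classical
    rw [← g2]
    refine cov.trans ?_
    rw [← Finset.add_sum_erase _ _ (Finset.mem_univ 1)]
    refine Nat.add_le_add_left ((Finset.sum_le_card_nsmul _ _ _ fun π _ => xb π).trans ?_) _
    rw [Finset.card_erase_of_mem (Finset.mem_univ _), Finset.card_univ, Fintype.card_perm,
      Fintype.card_fin, smul_eq_mul]
  have := arith (a := U.ncard) (by omega) hN (xb 1) h2 (x1 ▸ u2)
    (Set.ncard_le_ncard Set.sdiff_subset uf) (Set.ncard_le_ncard_sdiff_add_ncard _ _ bf)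
    (sc ▸ Set.ncard_le_ncard_sdiff_add_ncard S _ bf) bc'
  exact_mod_cast this

end Pool.Agent.MP_f3836a_nt.PK
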