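import Pool.Agent.MP_f3836a_nt.PK.SpecB

set_option autoImplicit false

/-! Descent of linear systems and separating forms. -/

namespace Pool.Agent.MP_f3836a_nt.PK

open MvPolynomial

universe u

namespace BCmb

variable {Ω : Type u} [Field Ω] {L : Subfield Ω} {N : ℕ}

/-- polynomials with coefficients in `L` -/
noncomputable def CL (L : Subfield Ω) (N : ℕ) : Subring (Pol Ω N) :=
  (MvPolynomial.map (σ := Fin (N + 1)) L.subtype).range

theorem CL_coeff {h : Pol Ω N} (hh : h ∈ CL L N) (d : Fin (N + 1) →₀ ℕ) : coeff d h ∈ L := by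
  obtain ⟨g, rfl⟩ := hh
  rw [coeff_map]
  exact (coeff d g).2

theorem CL_C {a : Ω} (ha : a ∈ L) : (C a : Pol Ω N) ∈ CL L N := ⟨C ⟨a, ha⟩, map_C _ _⟩

theorem CL_X (j : Fin (N + 1)) : (X j : Pol Ω N) ∈ CL L N := ⟨X j, map_X _ _⟩

theorem sep {z w : Fin (N + 1) → Ω} {i i' : Fin (N + 1)} (hz : Nrm z i) (hw : Nrm w i')
    (hne : w ≠ z) (zL : ∀ j, z j ∈ L) (wL : ∀ j, w j ∈ L) :
    ∃ l : Pol Ω N, l.IsHomogeneous 1 ∧ l ∈ CL L N ∧ eval w l = 0 ∧ eval z l = 1 := by
  obtain ⟨a, b, hab⟩ : ∃ a b, w b * z a - w a * z b ≠ 0 := by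
    rcases lt_trichotomy i i' with h | rfl | h
    · exact ⟨i, i', by rw [hw.1, hz.1, hw.2 i h]; simp⟩
    · obtain ⟨a, ha⟩ := Function.ne_iff.1 hne
      exact ⟨a, i, by rw [hw.1, hz.1, one_mul, mul_one]; exact sub_ne_zero.2 ha.symm⟩
    · exact ⟨i, i', by rw [hw.1, hz.1, hz.2 i' h]; simp⟩
  refine ⟨C (w b * z a - w a * z b)⁻¹ * (C (w b) * X a - C (w a) * X b),
    (((isHomogeneous_X _ a).C_mul _).sub ((isHomogeneous_X _ b).C_mul _)).C_mul _,
    mul_mem (CL_C (inv_mem (sub_mem (mul_mem (wL b) (zL a)) (mul_mem (wL a) (zL b)))))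
      (sub_mem (mul_mem (CL_C (wL b)) (CL_X a)) (mul_mem (CL_C (wL a)) (CL_X b))), ?_, ?_⟩
  · simp only [map_mul, map_sub, eval_C, eval_X]
    ring
  · simp only [map_mul, map_sub, eval_C, eval_X]
    exact inv_mul_cancel₀ hab

theorem sepP {r : ℕ} {w : Fin r → Fin (N + 1) → Ω} {z : Fin (N + 1) → Ω} {i : Fin (N + 1)}
    (hw : ∀ s, ∃ i, Nrm (w s) i) (wL : ∀ s j, w s j ∈ L) (zL : ∀ j, z j ∈ L) (hz : Nrm z i)
    (t : Finset (Fin r)) (ht : ∀ s ∈ t, w s ≠ z) :
    ∃ P : Pol Ω N, P.IsHomogeneous t.card ∧ P ∈ CL L N ∧ (∀ s ∈ t, eval (w s) P = 0) ∧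
      eval z P = 1 := by
  classical
  induction t using Finset.induction_on with
  | empty => exact ⟨1, isHomogeneous_one _ _, one_mem _, by simp, map_one _⟩
  | insert s t hs ih =>
    obtain ⟨P, h1, h2, h3, h4⟩ := ih fun s hs => ht s (Finset.mem_insert_of_mem hs)
    obtain ⟨i', hi'⟩ := hw s
    obtain ⟨l, g1, g2, g3, g4⟩ := sep hz hi' (ht s (Finset.mem_insert_self _ _)) zL (wL s)
    refine ⟨P * l, by rw [Finset.card_insert_of_notMem hs]; exact h1.mul g1, mul_mem h2 g2,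
      fun s' hs' => ?_, by rw [map_mul, h4, g4, one_mul]⟩
    rcases Finset.mem_insert.1 hs' with rfl | hs'
    · rw [map_mul, g3, mul_zero]
    · rw [map_mul, h3 s' hs', zero_mul]

theorem arc0 (z τ υ : Fin (N + 1) → Ω) (P : Pol Ω N) :
    (aeval (arc z τ υ) P).coeff 0 = eval z P := by
  induction P using MvPolynomial.induction_on with
  | C a => simp
  | add p q hp hq => rw [map_add, map_add, Polynomial.coeff_add, hp, hq]
  | mul_X p j hp =>
    rw [map_mul, map_mul, Polynomial.mul_coeff_zero, hp, aeval_X, eval_X]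
    simp [arc]

theorem core {z τ υ : Fin (N + 1) → Ω} {i l : Fin (N + 1)} (zL : ∀ j, z j ∈ L) (hz : Nrm z i)
    (a1 : τ i = 0) (a2 : υ i = 0) (a3 : τ l = 1) (a4 : υ l = 0) {P : Pol Ω N} {p e n : ℕ}
    (h1 : P.IsHomogeneous p) (h2 : P ∈ CL L N) (h4 : eval z P = 1) (hn : p + e ≤ n) :
    ∃ h : Pol Ω N, h.IsHomogeneous n ∧ (∀ d, coeff d h ∈ L) ∧ P ∣ h ∧
      Van e h z τ υ ∧ (aeval (arc z τ υ) h).coeff e = 1 := by
  obtain ⟨c, rfl⟩ := Nat.exists_eq_add_of_le hn
  have e1 : arc z τ υ i = 1 := by simp [arc, hz.1, a1, a2]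
  have e2 : aeval (arc z τ υ) (P * (X l - C (z l) * X i) ^ e * X i ^ c) =
      aeval (arc z τ υ) P * Polynomial.X ^ e := by
    simp only [map_mul, map_pow, map_sub, aeval_X, aeval_C, e1, one_pow, mul_one]
    simp [arc, a3, a4]
  refine ⟨P * (X l - C (z l) * X i) ^ e * X i ^ c, ?_,
    CL_coeff (mul_mem (mul_mem h2 (pow_mem (sub_mem (CL_X l) (mul_mem (CL_C (zL l)) (CL_X i))) e))
      (pow_mem (CL_X i) c)), (dvd_mul_right _ _).mul_right _, ?_, ?_⟩
  · refine (h1.mul ?_).mul (isHomogeneous_X_pow _ _)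
    simpa using ((isHomogeneous_X _ l).sub ((isHomogeneous_X _ i).C_mul (z l))).pow e
  · rw [Van, e2]
    exact dvd_mul_left _ _
  · rw [e2, ← h4, ← arc0 z τ υ, ← Polynomial.coeff_mul_X_pow _ e 0, zero_add]

theorem ev_dvd {w : Fin (N + 1) → Ω} {P h : Pol Ω N} (hd : P ∣ h) (h0 : eval w P = 0) :
    eval w h = 0 := by
  obtain ⟨q, rfl⟩ := hd
  rw [map_mul, h0, zero_mul]

end BCmb

open BCmb

theorem rSepF : RSepF.{u} := by
  intro Ω _ L N r n w i l z τ υ hw wL zL hz a1 a2 a3 a4 e t ht hn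
  have zL' : ∀ j, z j ∈ L := fun j => (zL j).1
  obtain ⟨P, h1, h2, h3, h4⟩ := sepP hw wL zL' hz t ht
  constructor
  · obtain ⟨h, b1, b2, b3, b4, b5⟩ := core zL' hz a1 a2 a3 a4 h1 h2 h4 hn
    exact ⟨h, b1, b2, fun s hs => ev_dvd b3 (h3 s hs), b4, b5⟩
  · intro i' z' τ' υ' zL2 hz' hne hn'
    obtain ⟨l', g1, g2, g3, g4⟩ := sep hz hz' hne zL' zL2
    obtain ⟨h, b1, b2, b3, b4, b5⟩ := core (e := e) (n := n) zL' hz a1 a2 a3 a4
      (h1.mul (g1.pow 2)) (mul_mem h2 (pow_mem g2 2))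
      (by rw [map_mul, map_pow, h4, g4, one_pow, one_mul]) (by omega)
    refine ⟨h, b1, b2, fun s hs => ev_dvd ((dvd_mul_right _ _).trans b3) (h3 s hs), b4, b5, ?_⟩
    refine dvd_trans ?_ (map_dvd _ ((dvd_mul_left _ _).trans b3))
    rw [map_pow]
    exact pow_dvd_pow_of_dvd (Polynomial.X_dvd_iff.2 (by rw [arc0, g3])) 2

theorem rSep0 : RSep0.{u} := by
  intro Ω _ L N r n w i z hw wL zL hz hne hn
  obtain ⟨P, h1, h2, h3, h4⟩ := sepP hw wL zL hz Finset.univ fun s _ => hne s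
  obtain ⟨c, rfl⟩ := Nat.exists_eq_add_of_le hn
  rw [Finset.card_univ, Fintype.card_fin] at h1
  refine ⟨P * X i ^ c, h1.mul (isHomogeneous_X_pow _ _),
    CL_coeff (mul_mem h2 (pow_mem (CL_X i) c)),
    fun s => ev_dvd (dvd_mul_right _ _) (h3 s (Finset.mem_univ _)), ?_⟩
  rw [map_mul, map_pow, h4, eval_X, hz.1, one_pow, one_mul]

theorem rCmb : RCmb.{u} := by
  intro k _ N r m n w B hB Ω _ _ L h hd hL h0
  classical
  let e := Module.Free.chooseBasis k L
  let c : (Fin (N + 1) →₀ ℕ) → L := fun d => ⟨coeff d h, hL d⟩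
  let g : Module.Free.ChooseBasisIndex k L → Pol k N := fun α =>
    ∑ b ∈ h.support, monomial b (e.repr (c b) α)
  have hc : ∀ α b, coeff b (g α) = e.repr (c b) α := by
    intro α b
    simp only [g, coeff_sum, coeff_monomial, Finset.sum_ite_eq', mem_support_iff]
    split_ifs with hb
    · rfl
    · have : c b = 0 := Subtype.ext (not_not.1 hb)
      rw [this]
      simp
  let T := h.support.biUnion fun b => (e.repr (c b)).support
  have hT : h = ∑ α ∈ T, C (e α : Ω) * map (algebraMap k Ω) (g α) := by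
    ext b
    simp only [coeff_sum, coeff_C_mul, coeff_map, hc]
    by_cases hb : b ∈ h.support
    · have h1 := e.linearCombination_repr (c b)
      rw [Finsupp.linearCombination_apply, Finsupp.sum_of_support_subset _
        (Finset.subset_biUnion_of_mem (fun b => (e.repr (c b)).support) hb)
        (fun i a => a • e i) fun _ _ => zero_smul _ _] at h1
      have h2 := congrArg (fun x : L => (x : Ω)) h1
      simp only [AddSubmonoidClass.coe_finsetSum, Algebra.smul_def] at h2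
      change (c b : Ω) = _
      rw [← h2]
      exact Finset.sum_congr rfl fun α _ => mul_comm _ _
    · have : c b = 0 := Subtype.ext (notMem_support_iff.1 hb)
      rw [notMem_support_iff.1 hb, this]
      simp
  have hg : ∀ α, ∃ x : Fin m → k, ∑ j, x j • B j = g α := fun α => by
    refine (Submodule.mem_span_range_iff_exists_fun k).1 (hB.span _ (fun b hb => hd fun hb' => hb ?_)
      fun s => ?_)
    · have : c b = 0 := Subtype.ext hb'
      rw [hc, this]
      simp
    · have h1 : ∑ b ∈ h.support, (∏ i, w s i ^ b i) • c b = 0 := by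
        refine Subtype.ext ?_
        have := h0 s
        rw [eval_eq'] at this
        simp only [AddSubmonoidClass.coe_finsetSum, SetLike.val_smul, ZeroMemClass.coe_zero]
        rw [← this]
        refine Finset.sum_congr rfl fun b _ => ?_
        rw [Algebra.smul_def, map_prod, mul_comm]
        simp only [map_pow]
        rfl
      have h2 := congrArg (fun x => e.repr x α) h1
      simp only [map_sum, map_smul, Finsupp.finsetSum_apply, Finsupp.smul_apply, smul_eq_mul,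
        map_zero, Finsupp.zero_apply] at h2
      simp only [g, map_sum, eval_monomial]
      rw [← h2]
      refine Finset.sum_congr rfl fun b _ => ?_
      rw [Finsupp.prod_fintype _ _ fun _ => pow_zero _, mul_comm]
  choose x hx using hg
  refine ⟨fun j => ∑ α ∈ T, (e α : Ω) * algebraMap k Ω (x α j), fun j =>
    sum_mem fun α _ => mul_mem (e α).2 (L.algebraMap_mem _), ?_⟩
  rw [hT, cmb]
  simp only [← hx, map_sum, Finset.mul_sum, Finset.sum_mul, smul_eq_C_mul, map_mul, map_C,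
    mul_assoc]
  exact Finset.sum_comm

end Pool.Agent.MP_f3836a_nt.PK
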