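import Pool.Agent.MP_f3836a_nt.PK.SpecB
import Pool.Agent.MP_f3836a_nt.PK.ExC

set_option autoImplicit false

/-! Uniform counts of singular members and of bad pencils. -/

namespace Pool.Agent.MP_f3836a_nt.PK

open MvPolynomial

universe u

namespace BCnt

variable {k : Type u} [Field k] {N n m M : ℕ}

theorem frm_coeff {h : Pol k N} (hh : h.IsHomogeneous n) :
    frm (fun d : Mon N n => coeff d.1 h) = h := by
  classical
  ext d
  rw [frm, coeff_sum]
  by_cases hd : d.degree = n
  · rw [Finset.sum_eq_single (⟨d, hd⟩ : Mon N n), coeff_monomial, if_pos rfl]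
    · intro b _ hb
      rw [coeff_monomial, if_neg fun e => hb (Subtype.ext e)]
    · exact fun h => absurd (Finset.mem_univ _) h
  · rw [hh.coeff_eq_zero hd]
    refine Finset.sum_eq_zero fun b _ => ?_
    rw [coeff_monomial, if_neg fun e : b.1 = d => hd (e ▸ b.2)]

/-- the coefficients of the generic member -/
noncomputable def lin (B : Fin m → Pol k N) (e : Fin m → Fin M) (d : Mon N n) :
    MvPolynomial (Fin M) k := ∑ j, C (coeff d.1 (B j)) * X (e j)

theorem lin_deg (B : Fin m → Pol k N) (e : Fin m → Fin M) (d : Mon N n) :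
    (lin B e d).totalDegree ≤ 1 :=
  totalDegree_finsetSum_le fun j _ => (totalDegree_mul _ _).trans (by simp)

theorem frm_lin {B : Fin m → Pol k N} (hB : ∀ j, (B j).IsHomogeneous n) (e : Fin m → Fin M)
    (Ω : Type u) [Field Ω] [Algebra k Ω] (a : Fin M → Ω) :
    frm (fun d : Mon N n => aeval a (lin B e d)) = cmb Ω B fun j => a (e j) := by
  have h : (cmb Ω B fun j => a (e j)).IsHomogeneous n :=
    IsHomogeneous.sum _ _ _ fun j _ => ((hB j).map _).C_mul _
  rw [← frm_coeff h]
  congr 1
  funext d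
  simp only [lin, cmb, map_sum, map_mul, aeval_C, aeval_X, coeff_sum, coeff_C_mul, coeff_map,
    mul_comm]

theorem frm_const {W : Pol k N} (hW : W.IsHomogeneous n) (Ω : Type u) [Field Ω] [Algebra k Ω] :
    frm (fun d : Mon N n => algebraMap k Ω (coeff d.1 W)) = map (algebraMap k Ω) W := by
  rw [← frm_coeff (hW.map (algebraMap k Ω))]
  simp only [coeff_map]

theorem cmb_self (B : Fin m → Pol k N) (a : Fin m → k) : cmb k B a = ∑ j, C (a j) * B j := by
  simp [cmb, map_id]

theorem ext_self (𝒢 : Finset (Pol k N)) : ext k 𝒢 = (𝒢 : Set (Pol k N)) := by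
  simp [ext, map_id]

end BCnt

open BCnt

theorem rCntS : RExS.{u} → RGenS.{u} → RCntS.{u} := by
  intro hE hG k _ N n 𝒢
  obtain ⟨c, hc⟩ := rExC k _ _ (hE k N n 𝒢)
  refine ⟨c, fun m B hB hJ S => ?_⟩
  have h := hc m (lin B id) (lin_deg B id) (fun Ω _ _ a ha => by
    rw [frm_lin hB]
    exact hG k N m 𝒢 B hJ Ω a ha) S
  simpa only [frm_lin hB, cmb_self, ext_self, id] using h

theorem rCntM : RExM.{u} → RExN.{u} → RGen1.{u} → RGen2.{u} → RGen3.{u} → RCntM.{u} := by
  classical
  intro hE hN h1 h2 h3 k _ _ N d n r 𝒢 hr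
  obtain ⟨c, hc⟩ := rExC k _ _ (hE k N d n r 𝒢)
  refine ⟨c, fun W hW hL m w B hB S => ?_⟩
  have h := hc (m + m) (Sum.elim (fun d => C (coeff d.1 W)) (Sum.elim (fun p => C (w p.1 p.2))
    (Sum.elim (lin B (Fin.castAdd m)) (lin B (Fin.natAdd m))))) (by
      rintro (s | s | s | s)
      · simp
      · simp
      · exact lin_deg _ _ _
      · exact lin_deg _ _ _) (fun Ω _ _ a ha => by
    have e : ext Ω (insert W 𝒢) = insert (map (algebraMap k Ω) W) (ext Ω 𝒢) := by
      rw [ext, ext, Finset.coe_insert, Set.image_insert_eq]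
    have l := (hN k N (insert W 𝒢) Ω).1 (by rwa [Finset.coe_insert])
    have i : AlgebraicIndependent k
        (Sum.elim (fun j => a (Fin.castAdd m j)) fun j => a (Fin.natAdd m j)) := by
      refine cast ?_ (ha.comp finSumFinEquiv finSumFinEquiv.injective)
      congr 1
      funext s
      cases s <;> rfl
    simp only [Sum.elim_inl, Sum.elim_inr, aeval_C, frm_lin hB.hom, frm_const hW, ← e]
    rintro (b | b | b)
    · exact h1 k N r m n _ w B hr hB Ω _ _ l i b
    · exact h2 k N r m n _ w B hr hB Ω _ _ l i b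
    · exact h3 k N r m n _ w B hr hB Ω _ _ l i b) S
  simp only [Sum.elim_inl, Sum.elim_inr, aeval_C, frm_lin hB.hom, frm_const hW, cmb_self,
    ext_self] at h
  simp only [Algebra.algebraMap_self, map_id, RingHom.id_apply] at h
  rw [two_mul, ← Set.ncard_image_of_injective _ (Fin.appendEquiv m m).injective,
    Equiv.image_eq_preimage_symm]
  refine le_of_eq_of_le ?_ h
  congr 2
  ext a
  refine and_congr_left' ⟨fun ha j => ?_, fun ha j => ⟨ha _, ha _⟩⟩
  refine Fin.addCases (fun j => (ha j).1) (fun j => (ha j).2) j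

end Pool.Agent.MP_f3836a_nt.PK
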