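import Pool.Agent.MP_f3836a_nt.PK.SpecB
import Pool.Agent.MP_f3836a_nt.PK.Lin

set_option autoImplicit false

/-! Generic pencils have no triple zero and no extra base point. -/

namespace Pool.Agent.MP_f3836a_nt.PK

open MvPolynomial IntermediateField

universe u

namespace BGen1

variable {k Ω : Type u} [Field k] [Field Ω] [Algebra k Ω] {N m : ℕ}

theorem alg_mem {s : Set Ω} {x : Ω} (h : x ∈ Algebra.adjoin k s) :
    IsAlgebraic (Algebra.adjoin k s) x :=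
  isAlgebraic_algebraMap (⟨x, h⟩ : Algebra.adjoin k s)

theorem alg_adjoin {s S : Set Ω} (h : ∀ x ∈ S, IsAlgebraic (Algebra.adjoin k s) x) :
    ∀ x ∈ adjoin k S, IsAlgebraic (Algebra.adjoin k s) x := fun x hx => by
  induction hx using adjoin_induction with
  | mem x hx => exact h x hx
  | algebraMap c => exact alg_mem (Subalgebra.algebraMap_mem _ c)
  | add x y _ _ a b => exact a.add b
  | inv x _ a => exact IsAlgebraic.inv_iff.2 a
  | mul x y _ _ a b => exact a.mul b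

/-- combinations with coefficients in `L` -/
def Good (L : IntermediateField k Ω) (B : Fin m → Pol k N) (h : Pol Ω N) : Prop :=
  ∃ b : Fin m → Ω, (∀ j, b j ∈ L) ∧ h = cmb Ω B b

variable {L : IntermediateField k Ω} {B : Fin m → Pol k N}

theorem lam_cmb (Λ : Pol Ω N →ₗ[Ω] Ω) (b : Fin m → Ω) :
    Λ (cmb Ω B b) = ∑ j, Λ (map (algebraMap k Ω) (B j)) * b j := by
  simp only [cmb, map_sum, C_mul', map_smul, smul_eq_mul, mul_comm]

theorem Good.zero : Good L B 0 := ⟨0, fun _ => L.zero_mem, by simp [cmb]⟩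

theorem Good.add {g h : Pol Ω N} (hg : Good L B g) (hh : Good L B h) {x : Ω} (hx : x ∈ L) :
    Good L B (g + x • h) := by
  obtain ⟨b, h1, rfl⟩ := hg
  obtain ⟨b', h2, rfl⟩ := hh
  refine ⟨b + x • b', fun j => L.add_mem (h1 j) (L.mul_mem hx (h2 j)), ?_⟩
  simp only [cmb, C_mul', Finset.smul_sum, ← Finset.sum_add_distrib, Pi.add_apply, Pi.smul_apply,
    add_smul, smul_assoc]

theorem Good.mem {h : Pol Ω N} (hh : Good L B h) {Λ : Pol Ω N →ₗ[Ω] Ω}
    (hΛ : ∀ j, Λ (map (algebraMap k Ω) (B j)) ∈ L) : Λ h ∈ L := by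
  obtain ⟨b, h1, rfl⟩ := hh
  rw [lam_cmb]
  exact L.sum_mem fun j _ => L.mul_mem (hΛ j) (h1 j)

theorem core {s : Finset Ω} (hL : ∀ x ∈ L, IsAlgebraic (Algebra.adjoin k (s : Set Ω)) x)
    {a a' : Fin m → Ω} (ha : AlgebraicIndependent k (Sum.elim a a')) {c : ℕ}
    (Λ : Fin c → Pol Ω N →ₗ[Ω] Ω) (α β : Fin c → Ω)
    (hΛ : ∀ e j, Λ e (map (algebraMap k Ω) (B j)) ∈ L) (hα : ∀ e, α e ∈ L) (hβ : ∀ e, β e ∈ L)
    (on : ∀ w : Fin c → Ω, (∀ e, w e ∈ L) → ∃ h h', Good L B h ∧ Good L B h' ∧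
      ∀ e, α e * Λ e h + β e * Λ e h' = w e)
    (h0 : ∀ e, α e * Λ e (cmb Ω B a) + β e * Λ e (cmb Ω B a') = 0) : c ≤ s.card := by
  obtain ⟨M, hM, hs⟩ : ∃ M : Fin c → Fin (m + m) → Ω, (∀ e j, M e j ∈ L) ∧
      ∀ e (b b' : Fin m → Ω), ∑ j, M e j * Sum.elim b b' (finSumFinEquiv.symm j) =
        α e * Λ e (cmb Ω B b) + β e * Λ e (cmb Ω B b') := by
    refine ⟨fun e j => Sum.elim (fun j => α e * Λ e (map (algebraMap k Ω) (B j)))
      (fun j => β e * Λ e (map (algebraMap k Ω) (B j))) (finSumFinEquiv.symm j), fun e j => ?_,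
      fun e b b' => ?_⟩
    · beta_reduce
      rcases finSumFinEquiv.symm j with j | j
      exacts [L.mul_mem (hα e) (hΛ e j), L.mul_mem (hβ e) (hΛ e j)]
    · rw [← finSumFinEquiv.sum_comp, Fintype.sum_sum_type, lam_cmb, lam_cmb]
      simp only [Equiv.symm_apply_apply, Sum.elim_inl, Sum.elim_inr, Finset.mul_sum, mul_assoc]
  refine rLin k Ω s L hL (m + m) c (Sum.elim a a' ∘ finSumFinEquiv.symm) M
    (ha.comp _ finSumFinEquiv.symm.injective) hM (fun w hw => ?_) fun e => (hs e a a').trans (h0 e)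
  obtain ⟨_, _, ⟨b, h1, rfl⟩, ⟨b', h2, rfl⟩, h3⟩ := on w hw
  refine ⟨Sum.elim b b' ∘ finSumFinEquiv.symm, fun j => ?_, fun e => (hs e b b').trans (h3 e)⟩
  rw [Function.comp_apply]
  rcases finSumFinEquiv.symm j with j | j
  exacts [h1 j, h2 j]

theorem tri (Λ : ℕ → Pol Ω N →ₗ[Ω] Ω) (hΛ : ∀ e j, Λ e (map (algebraMap k Ω) (B j)) ∈ L) (c : ℕ)
    (h : ∀ e < c, ∃ h, Good L B h ∧ (∀ e' < e, Λ e' h = 0) ∧ Λ e h = 1) (w : ℕ → Ω)
    (hw : ∀ e, w e ∈ L) : ∃ g, Good L B g ∧ ∀ e < c, Λ e g = w e := by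
  induction c with
  | zero => exact ⟨0, Good.zero, fun e he => absurd he (Nat.not_lt_zero e)⟩
  | succ c ih =>
    obtain ⟨g, g1, g2⟩ := ih fun e he => h e (Nat.lt_succ_of_lt he)
    obtain ⟨f, f1, f2, f3⟩ := h c (Nat.lt_succ_self c)
    refine ⟨_, g1.add f1 (L.sub_mem (hw c) (g1.mem (hΛ c))), fun e he => ?_⟩
    rw [map_add, map_smul, smul_eq_mul]
    rcases (Nat.lt_succ_iff.1 he).eq_or_lt with rfl | he
    · rw [f3]; ring
    · rw [f2 e he, g2 e he]; ring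

/-- a coefficient along the arc -/
noncomputable def co (z τ υ : Fin (N + 1) → Ω) (e : ℕ) : Pol Ω N →ₗ[Ω] Ω :=
  (Polynomial.lcoeff Ω e).comp (aeval (arc z τ υ)).toLinearMap

theorem co_van {z τ υ : Fin (N + 1) → Ω} {e e' : ℕ} {h : Pol Ω N} (hv : Van e h z τ υ)
    (he : e' < e) : co z τ υ e' h = 0 := Polynomial.X_pow_dvd_iff.1 hv e' he

theorem co_zero (z τ υ : Fin (N + 1) → Ω) (h : Pol Ω N) : co z τ υ 0 h = eval z h := by
  have : (Polynomial.aeval (0 : Ω)).comp (aeval (arc z τ υ)) = aeval z :=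
    algHom_ext fun j => by simp [arc]
  have e := DFunLike.congr_fun this h
  rw [AlgHom.comp_apply, Polynomial.coe_aeval_eq_eval, aeval_eq_eval] at e
  exact (Polynomial.coeff_zero_eq_eval_zero _).trans e

theorem co_mem {z τ υ : Fin (N + 1) → Ω} (h : ∀ j, z j ∈ L ∧ τ j ∈ L ∧ υ j ∈ L) (e : ℕ)
    (G : Pol k N) : co z τ υ e (map (algebraMap k Ω) G) ∈ L := by
  have c : ∀ x ∈ L, Polynomial.C x ∈ Polynomial.lifts (algebraMap L Ω) :=
    fun x hx => Polynomial.C_mem_lifts (algebraMap L Ω) ⟨x, hx⟩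
  have x := Polynomial.X_mem_lifts (algebraMap L Ω)
  have : aeval (arc z τ υ) (map (algebraMap k Ω) G) ∈ Polynomial.lifts (algebraMap L Ω) := by
    induction G using MvPolynomial.induction_on with
    | C a => rw [map_C, aeval_C]; exact c _ (L.algebraMap_mem a)
    | add p q a b => rw [map_add, map_add]; exact add_mem a b
    | mul_X p j a =>
      rw [map_mul, map_mul, map_X, aeval_X]
      exact mul_mem a (add_mem (add_mem (c _ (h j).1) (mul_mem (c _ (h j).2.1) x))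
        (mul_mem (c _ (h j).2.2) (pow_mem x 2)))
  obtain ⟨y, hy⟩ := (Polynomial.lifts_iff_coeff_lifts _).1 this e
  exact (show (y : Ω) = co z τ υ e (map (algebraMap k Ω) G) from hy) ▸ y.2

theorem jet {s : Finset Ω} (hL : ∀ x ∈ L, IsAlgebraic (Algebra.adjoin k (s : Set Ω)) x)
    {a a' : Fin m → Ω} (ha : AlgebraicIndependent k (Sum.elim a a')) {z τ υ : Fin (N + 1) → Ω}
    (hz : ∀ j, z j ∈ L ∧ τ j ∈ L ∧ υ j ∈ L) {α β : Ω} (hα : α ∈ L) (hβ : β ∈ L)
    (h1 : α = 1 ∨ β = 1) (hv : Van 3 (C α * cmb Ω B a + C β * cmb Ω B a') z τ υ) (e₀ c : ℕ)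
    (hc : e₀ + c ≤ 3) (h : ∀ e < c, ∃ h, Good L B h ∧ Van (e₀ + e) h z τ υ ∧
      co z τ υ (e₀ + e) h = 1) : c ≤ s.card := by
  refine core (B := B) hL ha (fun e : Fin c => co z τ υ (e₀ + e)) (fun _ => α) (fun _ => β)
    (fun e j => co_mem hz _ _) (fun _ => hα) (fun _ => hβ) (fun w hw => ?_) fun e => ?_
  · obtain ⟨g, g1, g2⟩ := tri (B := B) (fun e => co z τ υ (e₀ + e)) (fun e j => co_mem hz _ _) c
      (fun e he => (h e he).imp fun f ⟨f1, f2, f3⟩ =>
        ⟨f1, fun e' he' => co_van f2 (by omega), f3⟩)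
      (fun e => if he : e < c then w ⟨e, he⟩ else 0) fun e => by
        split_ifs
        exacts [hw _, L.zero_mem]
    rcases h1 with rfl | rfl
    · exact ⟨g, 0, g1, Good.zero, fun e => by simpa using g2 e e.2⟩
    · exact ⟨0, g, Good.zero, g1, fun e => by simpa using g2 e e.2⟩
  · have := co_van (e' := e₀ + e) hv (by omega)
    simpa only [map_add, C_mul', map_smul, smul_eq_mul] using this

theorem nrm_map {r n : ℕ} {w : Fin r → Fin (N + 1) → k} (h : Spans w n B) (s : Fin r) :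
    ∃ i, Nrm (fun j => algebraMap k Ω (w s j)) i :=
  (h.nrm s).imp fun i ⟨a, b⟩ => ⟨by simp [a], fun j hj => by simp [b j hj]⟩

end BGen1

open BGen1 in
theorem rGen1 : RJetF.{u} → RCmb.{u} → RSepF.{u} → RGen1.{u} := by
  classical
  rintro hJ hC hS k _ N r m n 𝒢 w B hn hB Ω _ _ a a' hl ha ⟨α, β, h1, i, l, z, τ, υ, hj, hv⟩
  obtain ⟨j1, j2⟩ := hJ k N 𝒢 Ω hl
  obtain ⟨on, j3⟩ := j2 i l z τ υ hj
  obtain ⟨b, hb, hb'⟩ : ∃ b, (α = 1 ∨ α = b) ∧ (β = 1 ∨ β = b) := by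
    rcases h1 with h | h
    exacts [⟨β, Or.inl h, Or.inr rfl⟩, ⟨α, Or.inr rfl, Or.inl h⟩]
  obtain ⟨L, hL⟩ : ∃ L, L = adjoin k (insert b (Set.range z)) := ⟨_, rfl⟩
  have bL : b ∈ L := hL ▸ subset_adjoin _ _ (Set.mem_insert _ _)
  have le : adjoin k (Set.range z) ≤ L := hL ▸ adjoin.mono _ _ _ (Set.subset_insert _ _)
  have hz : ∀ j, z j ∈ L ∧ τ j ∈ L ∧ υ j ∈ L :=
    fun j => ⟨le (subset_adjoin _ _ ⟨j, rfl⟩), le (j3 j).1, le (j3 j).2⟩
  have hα : α ∈ L := hb.elim (fun h => h ▸ L.one_mem) fun h => h ▸ bL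
  have hβ : β ∈ L := hb'.elim (fun h => h ▸ L.one_mem) fun h => h ▸ bL
  have sp := hS Ω L.toSubfield N r n (fun s j => algebraMap k Ω (w s j)) i l z τ υ (nrm_map hB)
    (fun s j => L.algebraMap_mem _) hz hj.1 hj.2.1 hj.2.2.1 hj.2.2.2.1 hj.2.2.2.2.1
  have al : ∀ s : Finset Ω, b ∈ s → (∀ j, IsAlgebraic (Algebra.adjoin k (s : Set Ω)) (z j)) →
      ∀ x ∈ L, IsAlgebraic (Algebra.adjoin k (s : Set Ω)) x := fun s h h' => by
    rw [hL]
    refine alg_adjoin ?_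
    rintro _ (rfl | ⟨j, rfl⟩)
    exacts [alg_mem (Algebra.subset_adjoin h), h' j]
  by_cases hw : ∀ s, (fun j => algebraMap k Ω (w s j)) ≠ z
  · obtain ⟨l₀, h₀⟩ := j1 i z hj.1 on
    have := jet (s := {b, z l₀}) (al _ (by simp) fun j =>
      (h₀ j).tower_top_of_subalgebra_le (Algebra.adjoin_mono (by simp))) ha hz hα hβ h1 hv 0 3
      le_rfl fun e he => by
        obtain ⟨h, f1, f2, f3, f4, f5⟩ := (sp (0 + e) Finset.univ (fun s _ => hw s)
          (by rw [Finset.card_fin]; omega)).1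
        exact ⟨h, hC k N r m n w B hB Ω L h f1 f2 fun s => f3 s (Finset.mem_univ s), f4, f5⟩
    exact absurd (this.trans Finset.card_le_two) (by decide)
  · push Not at hw
    obtain ⟨s₀, h₀⟩ := hw
    have := jet (s := {b}) (al _ (by simp) fun j =>
      alg_mem (h₀ ▸ Subalgebra.algebraMap_mem _ _)) ha hz hα hβ h1 hv 1 2 le_rfl fun e he => by
        obtain ⟨h, f1, f2, f3, f4, f5⟩ := (sp (1 + e) (Finset.univ.erase s₀)
          (fun s hs e => Finset.ne_of_mem_erase hs (hB.inj (funext fun j =>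
            (algebraMap k Ω).injective (congrFun (e.trans h₀.symm) j))))
          (by have := Finset.card_le_univ (Finset.univ.erase s₀)
              rw [Fintype.card_fin] at this
              omega)).1
        refine ⟨h, hC k N r m n w B hB Ω L h f1 f2 fun s => ?_, f4, f5⟩
        by_cases hs : s = s₀
        · rw [hs, h₀, ← co_zero z τ υ]
          exact co_van f4 (by omega)
        · exact f3 s (Finset.mem_erase.2 ⟨hs, Finset.mem_univ s⟩)
    exact absurd this (by simp)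

open BGen1 in
theorem rGen3 : RJetF.{u} → RCmb.{u} → RSep0.{u} → RGen3.{u} := by
  rintro hJ hC hS k _ N r m n 𝒢 w B hn hB Ω _ _ a a' hl ha ⟨i, z, h1, on, hw, e1, e2⟩
  obtain ⟨l₀, h₀⟩ := (hJ k N 𝒢 Ω hl).1 i z h1 on
  have hz : ∀ j, z j ∈ adjoin k (Set.range z) := fun j => subset_adjoin _ _ ⟨j, rfl⟩
  obtain ⟨h, f1, f2, f3, f4⟩ := hS Ω (adjoin k (Set.range z)).toSubfield N r n
    (fun s j => algebraMap k Ω (w s j)) i z (nrm_map hB)
    (fun s j => (adjoin k (Set.range z)).algebraMap_mem _) hz h1 (fun s => (hw s).symm) (by omega)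
  have g : Good (adjoin k (Set.range z)) B h := hC k N r m n w B hB Ω _ h f1 f2 f3
  have := core (s := {z l₀}) (L := adjoin k (Set.range z)) (B := B) (alg_adjoin (by
      rintro _ ⟨j, rfl⟩
      exact (h₀ j).tower_top_of_subalgebra_le (Algebra.adjoin_mono (by simp)))) ha (fun _ : Fin 2 => co z 0 0 0) ![1, 0] ![0, 1]
    (fun e j => co_mem (fun j => ⟨hz j, zero_mem _, zero_mem _⟩) _ _)
    (Fin.forall_fin_two.2 ⟨one_mem _, zero_mem _⟩) (Fin.forall_fin_two.2 ⟨zero_mem _, one_mem _⟩)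
    (fun v hv => ⟨_, _, Good.zero.add g (hv 0), Good.zero.add g (hv 1),
      Fin.forall_fin_two.2 (by simp [co_zero, f4])⟩)
    (Fin.forall_fin_two.2 (by simp [co_zero, e1, e2]))
  exact absurd this (by simp)

end Pool.Agent.MP_f3836a_nt.PK
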