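import Pool.Agent.MP_f3836a_nt.PK.SpecB
import Pool.Agent.MP_f3836a_nt.PK.Lin

set_option autoImplicit false

/-! A generic pencil has no member with two double zeros. -/

namespace Pool.Agent.MP_f3836a_nt.PK

open MvPolynomial IntermediateField

universe u

namespace BGen2

variable {k Ω : Type u} [Field k] [Field Ω] [Algebra k Ω] {N m : ℕ}

/-- the coefficients of the members of the family along an arc -/
noncomputable def cf (B : Fin m → Pol k N) (z τ υ : Fin (N + 1) → Ω) (e : ℕ) (j : Fin m) : Ω :=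
  (aeval (arc z τ υ) (map (algebraMap k Ω) (B j))).coeff e

theorem coeff_cmb (B : Fin m → Pol k N) (z τ υ : Fin (N + 1) → Ω) (e : ℕ) (b : Fin m → Ω) :
    (aeval (arc z τ υ) (cmb Ω B b)).coeff e = ∑ j, cf B z τ υ e j * b j := by
  simp only [cmb, map_sum, map_mul, aeval_C, Polynomial.algebraMap_eq, Polynomial.finsetSum_coeff,
    Polynomial.coeff_C_mul, cf]
  exact Finset.sum_congr rfl fun j _ => mul_comm _ _

theorem cf_mem (L : IntermediateField k Ω) (B : Fin m → Pol k N) {z τ υ : Fin (N + 1) → Ω}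
    (h : ∀ j, z j ∈ L ∧ τ j ∈ L ∧ υ j ∈ L) (e : ℕ) (j : Fin m) : cf B z τ υ e j ∈ L := by
  have hc : ∀ x ∈ L, Polynomial.C x ∈ Polynomial.lifts (algebraMap L Ω) := fun x hx =>
    Polynomial.C_mem_lifts (algebraMap L Ω) ⟨x, hx⟩
  have : ∀ G : Pol k N, aeval (arc z τ υ) (map (algebraMap k Ω) G) ∈
      Polynomial.lifts (algebraMap L Ω) := fun G => by
    induction G using MvPolynomial.induction_on with
    | C a => rw [map_C, aeval_C]; exact hc _ (L.algebraMap_mem a)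
    | add p q hp hq => rw [map_add, map_add]; exact add_mem hp hq
    | mul_X p i hp =>
      rw [map_mul, map_mul, map_X, aeval_X]
      exact mul_mem hp (add_mem (add_mem (hc _ (h i).1) (mul_mem (hc _ (h i).2.1)
        (Polynomial.X_mem_lifts _))) (mul_mem (hc _ (h i).2.2) (Polynomial.X_pow_mem_lifts _ 2)))
  obtain ⟨x, hx⟩ := (Polynomial.lifts_iff_coeff_lifts _).1 (this (B j)) e
  rw [cf, ← hx]
  exact x.2

theorem half (hC : RCmb.{u}) (hS : RSepF.{u}) {r n : ℕ} {w : Fin r → Fin (N + 1) → k}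
    {B : Fin m → Pol k N} (hn : r + 3 ≤ n) (hB : Spans w n B) (L : IntermediateField k Ω)
    {𝒢 : Set (Pol Ω N)} {i l i' : Fin (N + 1)} {z τ υ z' : Fin (N + 1) → Ω}
    (τ' υ' : Fin (N + 1) → Ω) (hJ : IsJet 𝒢 i l z τ υ) (hz : Nrm z' i') (hne : z' ≠ z)
    (hw : ∀ s, z ≠ fun j => algebraMap k Ω (w s j)) (h : ∀ j, z j ∈ L ∧ τ j ∈ L ∧ υ j ∈ L)
    (h' : ∀ j, z' j ∈ L) {c₀ c₁ : Ω} (h₀ : c₀ ∈ L) (h₁ : c₁ ∈ L) :
    ∃ b : Fin m → Ω, (∀ j, b j ∈ L) ∧ ∑ j, cf B z τ υ 0 j * b j = c₀ ∧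
      ∑ j, cf B z τ υ 1 j * b j = c₁ ∧ ∑ j, cf B z' τ' υ' 0 j * b j = 0 ∧
      ∑ j, cf B z' τ' υ' 1 j * b j = 0 := by
  have key : ∀ e ≤ 1, ∃ b : Fin m → Ω, (∀ j, b j ∈ L) ∧
      (∀ d < e, ∑ j, cf B z τ υ d j * b j = 0) ∧ ∑ j, cf B z τ υ e j * b j = 1 ∧
      ∀ d < 2, ∑ j, cf B z' τ' υ' d j * b j = 0 := fun e he => by
    obtain ⟨g, g1, g2, g3, g4, g5, g6⟩ := (hS Ω L.toSubfield N r n
      (fun s j => algebraMap k Ω (w s j)) i l z τ υ (fun s => (hB.nrm s).imp fun i hi =>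
        ⟨by simp only [hi.1, map_one], fun j hj => by simp only [hi.2 j hj, map_zero]⟩)
      (fun s j => L.algebraMap_mem _) h hJ.1 hJ.2.1 hJ.2.2.1 hJ.2.2.2.1 hJ.2.2.2.2.1 e Finset.univ
      (fun s _ => (hw s).symm) (by simp; omega)).2 i' z' τ' υ' h' hz hne (by simp; omega)
    obtain ⟨b, hb, rfl⟩ := hC k N r m n w B hB Ω L g g1 g2 fun s => g3 s (Finset.mem_univ s)
    simp only [← coeff_cmb]
    exact ⟨b, hb, Polynomial.X_pow_dvd_iff.1 g4, g5, Polynomial.X_pow_dvd_iff.1 g6⟩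
  obtain ⟨b, b1, -, b2, b3⟩ := key 0 zero_le_one
  obtain ⟨b', a1, a2, a3, a4⟩ := key 1 le_rfl
  have e : ∀ (f : Fin m → Ω) (x y : Ω), ∑ j, f j * (x * b j + y * b' j) =
      x * ∑ j, f j * b j + y * ∑ j, f j * b' j := fun f x y => by
    rw [Finset.mul_sum, Finset.mul_sum, ← Finset.sum_add_distrib]
    exact Finset.sum_congr rfl fun j _ => by ring
  refine ⟨fun j => c₀ * b j + (c₁ - c₀ * ∑ j, cf B z τ υ 1 j * b j) * b' j, fun j =>
    add_mem (mul_mem h₀ (b1 j)) (mul_mem (sub_mem h₁ (mul_mem h₀ (sum_mem fun j _ =>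
      mul_mem (cf_mem L B h 1 j) (b1 j)))) (a1 j)), ?_⟩
  simp only [e, b2, a2 0 one_pos, a3, b3 0 two_pos, a4 0 two_pos, b3 1 one_lt_two, a4 1 one_lt_two]
  exact ⟨by ring, by ring, by ring, by ring⟩

end BGen2

open BGen2 in
theorem rGen2 : RJetF.{u} → RCmb.{u} → RSepF.{u} → RGen2.{u} := by
  classical
  intro hF hC hS k _ N r m n 𝒢 w B hn hB Ω _ _ a a' hL ha
  rintro ⟨α, β, hab, i, l, z, τ, υ, i', l', z', τ', υ', hJ, hJ', hne, hw, hw', hv, hv'⟩
  obtain ⟨hF1, hF2⟩ := hF k N 𝒢 Ω hL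
  obtain ⟨o, f⟩ := hF2 _ _ _ _ _ hJ
  obtain ⟨o', f'⟩ := hF2 _ _ _ _ _ hJ'
  obtain ⟨p, hp⟩ := hF1 i z hJ.1 o
  obtain ⟨p', hp'⟩ := hF1 i' z' hJ'.1 o'
  let L := adjoin k (Set.range z ∪ Set.range z' ∪ {α * β})
  have l1 : adjoin k (Set.range z) ≤ L := adjoin.mono _ _ _ fun x hx => Or.inl (Or.inl hx)
  have l2 : adjoin k (Set.range z') ≤ L := adjoin.mono _ _ _ fun x hx => Or.inl (Or.inr hx)
  have l3 : α * β ∈ L := subset_adjoin _ _ (Or.inr rfl)
  have m1 : ∀ j, z j ∈ L ∧ τ j ∈ L ∧ υ j ∈ L := fun j =>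
    ⟨l1 (subset_adjoin _ _ ⟨j, rfl⟩), l1 (f j).1, l1 (f j).2⟩
  have m2 : ∀ j, z' j ∈ L ∧ τ' j ∈ L ∧ υ' j ∈ L := fun j =>
    ⟨l2 (subset_adjoin _ _ ⟨j, rfl⟩), l2 (f' j).1, l2 (f' j).2⟩
  have hα : α ∈ L ∧ β ∈ L := by
    rcases hab with rfl | rfl
    exacts [⟨one_mem _, one_mul β ▸ l3⟩, ⟨mul_one α ▸ l3, one_mem _⟩]
  let M : Fin 4 → Fin m → Ω := ![cf B z τ υ 0, cf B z τ υ 1, cf B z' τ' υ' 0, cf B z' τ' υ' 1]
  have hM : ∀ t j, M t j ∈ L := fun t j => by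
    fin_cases t
    exacts [cf_mem L B m1 0 j, cf_mem L B m1 1 j, cf_mem L B m2 0 j, cf_mem L B m2 1 j]
  have hs : ∀ (t : Fin 4) (b : Fin m ⊕ Fin m → Ω), ∑ j : Fin (m + m),
      Sum.elim (fun j => α * M t j) (fun j => β * M t j) (finSumFinEquiv.symm j) *
        b (finSumFinEquiv.symm j) =
      α * ∑ j, M t j * b (.inl j) + β * ∑ j, M t j * b (.inr j) := fun t b => by
    rw [finSumFinEquiv.symm.sum_comp fun j =>
      Sum.elim (fun j => α * M t j) (fun j => β * M t j) j * b j]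
    simp only [Fintype.sum_sum_type, Sum.elim_inl, Sum.elim_inr, Finset.mul_sum, mul_assoc]
  have := rLin k Ω {z p, z' p', α * β} L (fun x hx => ?_) (m + m) 4
    (fun j => Sum.elim a a' (finSumFinEquiv.symm j))
    (fun t j => Sum.elim (fun j => α * M t j) (fun j => β * M t j) (finSumFinEquiv.symm j))
    (ha.comp _ finSumFinEquiv.symm.injective) (fun t j => ?_) (fun c hc => ?_) fun t => ?_
  · exact absurd (this.trans Finset.card_le_three) (by norm_num)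
  · induction hx using adjoin_induction with
    | mem x hx =>
      rcases hx with (⟨j, rfl⟩ | ⟨j, rfl⟩) | rfl
      · exact (hp j).tower_top_of_subalgebra_le (Algebra.adjoin_mono (by simp))
      · exact (hp' j).tower_top_of_subalgebra_le (Algebra.adjoin_mono (by simp))
      · exact isAlgebraic_algebraMap (⟨α * β, Algebra.subset_adjoin (by simp)⟩ :
          Algebra.adjoin k (({z p, z' p', α * β} : Finset Ω) : Set Ω))
    | algebraMap x => exact isAlgebraic_algebraMap (algebraMap k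
        (Algebra.adjoin k (({z p, z' p', α * β} : Finset Ω) : Set Ω)) x)
    | add x y _ _ h h' => exact h.add h'
    | inv x _ h => exact h.inv
    | mul x y _ _ h h' => exact h.mul h'
  · rcases finSumFinEquiv.symm j with j | j
    exacts [mul_mem hα.1 (hM t j), mul_mem hα.2 (hM t j)]
  · obtain ⟨b, b0, b1, b2, b3, b4⟩ := half hC hS hn hB L τ' υ' hJ hJ'.1 hne.symm hw m1
      (fun j => (m2 j).1) (hc 0) (hc 1)
    obtain ⟨d, d0, d1, d2, d3, d4⟩ := half hC hS hn hB L τ υ hJ' hJ.1 hne hw' m2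
      (fun j => (m1 j).1) (hc 2) (hc 3)
    have e : ∀ t, ∑ j, M t j * (b j + d j) = c t := fun t => by
      simp only [mul_add, Finset.sum_add_distrib]
      fin_cases t
      exacts [(congrArg₂ _ b1 d3).trans (add_zero _), (congrArg₂ _ b2 d4).trans (add_zero _),
        (congrArg₂ _ b3 d1).trans (zero_add _), (congrArg₂ _ b4 d2).trans (zero_add _)]
    obtain ⟨v, v1, v2⟩ : ∃ v : Fin m ⊕ Fin m → Ω, (∀ j, v j ∈ L) ∧
        ∀ t, α * ∑ j, M t j * v (.inl j) + β * ∑ j, M t j * v (.inr j) = c t := by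
      rcases hab with rfl | rfl
      · exact ⟨Sum.elim (fun j => b j + d j) fun _ => 0, Sum.forall.2
          ⟨fun j => add_mem (b0 j) (d0 j), fun _ => zero_mem _⟩, fun t => by simp [e]⟩
      · exact ⟨Sum.elim (fun _ => 0) fun j => b j + d j, Sum.forall.2
          ⟨fun _ => zero_mem _, fun j => add_mem (b0 j) (d0 j)⟩, fun t => by simp [e]⟩
    exact ⟨fun j => v (finSumFinEquiv.symm j), fun j => v1 _, fun t => (hs t v).trans (v2 t)⟩
  · have e : ∀ (z τ υ : Fin (N + 1) → Ω), Van 2 (C α * cmb Ω B a + C β * cmb Ω B a') z τ υ →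
        ∀ d < 2, α * ∑ j, cf B z τ υ d j * a j + β * ∑ j, cf B z τ υ d j * a' j = 0 :=
      fun z τ υ h d hd => by
        have := Polynomial.X_pow_dvd_iff.1 h d hd
        simpa only [map_add, map_mul, aeval_C, Polynomial.algebraMap_eq, Polynomial.coeff_add,
          Polynomial.coeff_C_mul, coeff_cmb] using this
    refine (hs t (Sum.elim a a')).trans ?_
    fin_cases t
    exacts [e _ _ _ hv 0 two_pos, e _ _ _ hv 1 one_lt_two, e _ _ _ hv' 0 two_pos,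
      e _ _ _ hv' 1 one_lt_two]

end Pool.Agent.MP_f3836a_nt.PK
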