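import Pool.Agent.MP_f3836a_nt.PK.SpecD
import Pool.Agent.MP_f3836a_nt.PK.AllA

set_option autoImplicit false

/-! Split members of a Morse pencil. -/

namespace Pool.Agent.MP_f3836a_nt.PK

open MvPolynomial IntermediateField IsLocalRing

universe u

namespace DPen2

section Fn
variable {k F : Type u} [Field k] [Field F] [Algebra k F]

theorem ord_zero (P : Place k F) : P.ord 0 = 0 := by
  rw [Place.ord, ordR, dif_neg fun h => h.1 rfl]

theorem ord_pow (hA : PlA k F) (P : Place k F) {g : F} (hg : g ≠ 0) (m : ℕ) :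
    P.ord (g ^ m) = m * P.ord g := by
  induction m with
  | zero => simpa using hA.con P 1
  | succ m ih =>
    rw [pow_succ, hA.mul P _ _ (pow_ne_zero _ hg) hg, ih]
    push_cast
    ring

/-- a Morse function of degree at least three is not a power -/
theorem not_pow (hA : PlA k F) (hB : PlB k F) {T : F} {n p : ℕ} (hT : Transcendental k T)
    (hn : Module.finrank (adjoin k {T}) F = n) (h3 : 3 ≤ n) (hM : Morse k T n) (hp : 2 ≤ p)
    (g : F) : g ^ p ≠ T := by
  rintro rfl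
  have g0 : g ≠ 0 := by
    rintro rfl
    rw [zero_pow (by omega)] at hT
    exact hT isAlgebraic_zero
  have h1 := hM.1 0
  rw [map_zero, sub_zero] at h1
  have fin : {P : Place k F | 0 < P.ord (g ^ p)}.Finite := (hB.fin _).subset fun P h => ne_of_gt h
  have h2 := hB.deg _ hT
  rw [hn, finsum_eq_sum_of_support_subset (s := fin.toFinset) _ (fun P h => by
    simp only [Function.mem_support, Set.Finite.coe_toFinset, Set.mem_ofPred_eq] at h ⊢
    omega)] at h2
  have h4 := Finset.card_nsmul_le_sum fin.toFinset (fun P => max (P.ord (g ^ p)) 0) 2 fun P h => by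
    rw [Set.Finite.mem_toFinset, Set.mem_ofPred_eq, ord_pow hA P g0] at h
    rw [ord_pow hA P g0]
    have a : (2 : ℤ) ≤ p := by exact_mod_cast hp
    have b : 1 ≤ P.ord g := pos_of_mul_pos_right h (by omega)
    exact le_max_of_le_left (by nlinarith)
  rw [h2, ← Set.ncard_eq_toFinset_card _ fin, nsmul_eq_mul] at h4
  omega

end Fn

theorem ncard_le {α : Type*} {A B : Set α} (T : Finset α) (hB : B.Finite)
    (h : ∀ t ∈ A, t ∉ T → t ∈ B) : A.ncard ≤ B.ncard + T.card := by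
  rw [← Set.ncard_coe_finset]
  refine le_trans (Set.ncard_le_ncard (fun t ht => ?_) (hB.union T.finite_toSet))
    (Set.ncard_union_le _ _)
  by_cases e : t ∈ T
  exacts [Or.inr e, Or.inl (h t ht e)]

variable {k K : Type u} [Field k] [Field K] [Algebra k K] {N : ℕ} {ξ : Fin (N + 1) → K}

theorem rt_X {q : ℕ} (hq : q ≠ 0) (j : Fin (N + 1)) : Rt q (X j : Pol k N) := by
  intro d
  rw [coeff_X]
  split_ifs
  exacts [one_pow _, zero_pow hq]

theorem lin_hom (a : Fin (N + 1) → k) : (∑ j, C (a j) * X j : Pol k N).IsHomogeneous 1 :=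
  IsHomogeneous.sum _ _ _ fun j _ => (isHomogeneous_X k j).C_mul _

theorem lo_one (c : Ctr k ξ) {A : Pol k N} (hA : A.IsHomogeneous 1) :
    c.lo A = aeval ξ A / aeval ξ (X c.idx : Pol k N) := by
  rw [c.lo_eq hA, pow_one, aeval_X]

theorem res_lin (C : Cv k ξ) (a : Fin (N + 1) → k) :
    ∑ j, algebraMap k C.κ (a j) * C.res (C.lo (X j)) =
      C.res (C.lo (∑ j, MvPolynomial.C (a j) * X j)) := by
  have e : C.lo (∑ j, MvPolynomial.C (a j) * X j) =
      ((∑ j, algebraMap k C.O (a j) * C.lx (X j) : C.O) : K) := by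
    rw [lo_one _ (lin_hom a), AddSubmonoidClass.coe_finsetSum, map_sum, Finset.sum_div]
    refine Finset.sum_congr rfl fun j _ => ?_
    rw [Subring.coe_mul, Ctr.coe_lx C.good (Form.of (isHomogeneous_X k j)), Ctr.coe_algebraMap,
      lo_one _ (isHomogeneous_X k j), map_mul, aeval_C, mul_div_assoc]
  rw [e, C.res_of_mem, map_sum]
  refine Finset.sum_congr rfl fun j _ => ?_
  rw [map_mul, ← Ctr.coe_lx C.good (Form.of (isHomogeneous_X k j)), C.res_of_mem]
  rfl

/-- the poles of a linear function -/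
theorem poles {W : Pol k N} {C : Cv k ξ} (h : SmA W C) (hB : PlB k C.κ) {l : Pol k N}
    (hl : l.IsHomogeneous 1) :
    ∑ᶠ P : Place k C.κ, max (-P.ord (C.res (C.lo l))) 0 ≤ (C.deg : ℤ) := by
  classical
  by_cases hP : l ∈ C.P
  · rw [(C.res_lo_eq_zero (Form.of hl)).2 hP]
    simp [ord_zero]
  have hX := (Ctr.idx_spec C.good).1
  have hd := h.s3.deg 1 _ (isHomogeneous_X k C.idx) hX
  have fin : (Function.support fun x : Pt k ξ => ∑ᶠ _ : x.On C, J x W (X C.idx)).Finite := by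
    by_contra hi
    rw [finsum_of_infinite_support hi] at hd
    have := h.s3.pos
    omega
  choose x hx using h.s2.pt
  have inj : Function.Injective x := fun P P' e =>
    Place.ext (ValuationSubring.toSubring_injective ((hx P).2.trans (e ▸ (hx P').2.symm)))
  rw [finsum_eq_sum_of_support_subset (s := (hB.fin (C.res (C.lo l))).toFinset) _ (fun P h => by
    simp only [Function.mem_support, Set.Finite.coe_toFinset, Set.mem_ofPred_eq] at h ⊢
    omega)]
  rw [one_mul, finsum_eq_sum _ fin] at hd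
  rw [← hd]
  calc _ ≤ ∑ P ∈ (hB.fin (C.res (C.lo l))).toFinset,
        ((∑ᶠ _ : (x P).On C, J (x P) W (X C.idx) : ℕ) : ℤ) := by
        refine Finset.sum_le_sum fun P _ => ?_
        have := h.s1.quo (x P) (hx P).1 1 l _ hl (isHomogeneous_X k C.idx) hP hX
        rw [finsum_eq_if, if_pos (hx P).1, Place.ord, (hx P).2, lo_one _ hl, ← Cv.ordAt, this]
        omega
    _ ≤ _ := by
        rw [← Nat.cast_sum, Nat.cast_le, ← Finset.sum_image (s := (hB.fin _).toFinset) (g := x)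
          (f := fun y : Pt k ξ => ∑ᶠ _ : y.On C, J y W (X C.idx)) inj.injOn]
        exact Finset.sum_le_sum_of_ne_zero fun y _ h0 => fin.mem_toFinset.2 h0

end DPen2

open DPen2 in
theorem rPen2 : RPen2.{u} := by
  intro k K _ _ _ _ p hp _ N ξ 𝒢 _ G hV hS hP w
  obtain ⟨d, hd⟩ := G.con.bd
  have ch := fun n => pCheb k p (n + 3) (w * d) (by omega)
  choose c Q ch using ch
  refine ⟨∑ n ∈ Finset.range (5 * (w * d)), c n + 2 * (5 * (w * d)).factorial,
    ∑ n ∈ Finset.range (5 * (w * d)), Q n + ((5 * (w * d)) ^ 2 + 1), ?_⟩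
  intro r hr hQ hG W C hW hw hWC hWr Ξ hΞ hΞr h₁ m₁ h₂ m₂ good
  have sm := G.sm W C hW hWC
  have hA := pPlA k _ sm.ff
  have hB := pPlB k _ p sm.ff
  have d1 := sm.s3.pos
  have d2 := hd W C hW hWC
  rw [hw] at d2
  obtain ⟨-, S, hS1, hS2, -⟩ := hV (r * 2) (by omega)
  have hσ := hS (r * 2)
  rw [pow_mul] at hS1 hS2 hσ
  obtain ⟨σ, s1, s2, s3⟩ := hσ hG W C hW hWC hWr
  obtain ⟨tr, fr, mo, T, hT, sp⟩ := hP W C hW hWC Ξ 5 h₁ h₂ (fun x hx => (hΞr x hx).2) m₁.1 m₂.1
    (fun x hx => ⟨m₁.2.2 x hx, m₂.2.2 x hx⟩) good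
  obtain ⟨n, hn⟩ : ∃ n, 5 * C.deg - Ξ.card = n + 3 := ⟨5 * C.deg - Ξ.card - 3, by omega⟩
  rw [hn] at mo sp ⊢
  have fr' : Module.finrank (adjoin k {C.res (aeval ξ h₁ / aeval ξ h₂)}) C.κ = n + 3 := by omega
  have nd : n + 3 ≤ 5 * (w * d) := by omega
  have mem : n ∈ Finset.range (5 * (w * d)) := Finset.mem_range.2 (by omega)
  have c1 := Finset.single_le_sum (f := c) (fun _ _ => Nat.zero_le _) mem
  have q1 := Finset.single_le_sum (f := Q) (fun _ _ => Nat.zero_le _) mem
  have p1 : 1 ≤ p ^ r := pow_pos hp.out.pos r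
  have q0 : (p ^ r) ^ 2 ≠ 0 := by positivity
  obtain ⟨-, fd, sep, -⟩ := rSep k _ p sm.ff _ (not_pow hA hB tr fr' (by omega) mo hp.out.two_le)
  obtain ⟨a, ha, gen⟩ := rPrim k _ _ _ _ S fd sep sm.s3.gen (by
    rw [fr', hS2]
    have := Nat.pow_le_pow_left nd 2
    nlinarith)
  have n2 : h₂ ∉ C.P := by
    have := (good.cop 0 1 (Or.inr one_ne_zero)).2.2.2.2 C hWC
    rwa [map_zero, zero_mul, zero_add, map_one, one_mul] at this
  have key := ch n r (by omega) _ _ _ σ sm.ff tr fr' gen mo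
    (by rw [res_lin]; exact (poles sm hB (lin_hom a)).trans (by exact_mod_cast d2)) s1
    (s2 5 _ _ m₁.1 m₂.1 m₁.2.1 m₂.2.1 n2) (by
      rw [map_sum]
      refine Finset.sum_congr rfl fun j _ => ?_
      rw [map_mul, s1, (hS1 _).1 (ha j), lo_one _ (isHomogeneous_X k j),
        s2 1 _ _ (isHomogeneous_X k j) (isHomogeneous_X k _) (rt_X q0 _) (rt_X q0 _)
          (Ctr.idx_spec C.good).1])
  have sp' := fun t ht => sp t ht _ (fun P => P.Fix σ) (fun x hx => (hΞr x hx).1) s3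
  generalize hA' : {t : k | t ^ (p ^ r) ^ 2 = t ∧
    Split ξ ((p ^ r) ^ 2) W (h₁ - MvPolynomial.C t * h₂)} = A
  generalize hB' : {t : k | t ^ (p ^ r) ^ 2 = t ∧
    {P : Place k C.κ | 0 < P.ord (C.res (aeval ξ h₁ / aeval ξ h₂) - algebraMap k C.κ t) ∧
      P.Fix σ}.ncard = n + 3} = B at key
  have fA : A.Finite := S.finite_toSet.subset fun t ht => by
    subst hA'
    exact (hS1 t).2 ht.1
  have fB : B.Finite := S.finite_toSet.subset fun t ht => by
    subst hB'
    exact (hS1 t).2 ht.1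
  have e1 : A.ncard ≤ B.ncard + T.card := ncard_le T fB fun t ht e => by
    subst hA' hB'
    exact ⟨ht.1, (sp' t e).1 ht.2⟩
  have e2 : B.ncard ≤ A.ncard + T.card := ncard_le T fA fun t ht e => by
    subst hA' hB'
    exact ⟨ht.1, (sp' t e).2 ht.2⟩
  have f1 : ((n + 3).factorial : ℤ) ≤ (5 * (w * d)).factorial := by
    exact_mod_cast Nat.factorial_le nd
  have f0 : (0 : ℤ) ≤ (n + 3).factorial := Nat.cast_nonneg _
  have a1 : (A.ncard : ℤ) ≤ B.ncard + 2 := by omega
  have a2 : (B.ncard : ℤ) ≤ A.ncard + 2 := by omega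
  have c2 : (c n : ℤ) ≤ (∑ n ∈ Finset.range (5 * (w * d)), c n : ℕ) := by exact_mod_cast c1
  have p2 : (1 : ℤ) ≤ (p : ℤ) ^ r := by exact_mod_cast p1
  have b1 := mul_le_mul_of_nonneg_left a1 f0
  have b2 := mul_le_mul_of_nonneg_left a2 f0
  have b3 := mul_le_mul_of_nonneg_right c2 (zero_le_one.trans p2)
  have b4 := mul_le_mul_of_nonneg_left p2 (f0.trans f1)
  rw [abs_le] at key ⊢
  rw [Nat.cast_add _ (2 * _), Nat.cast_mul, Nat.cast_ofNat]
  constructor <;> linarith [key.1, key.2]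

end Pool.Agent.MP_f3836a_nt.PK
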