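import Pool.Agent.MP_f3836a_nt.PK.SpecD
import Pool.Agent.MP_f3836a_nt.PK.AllA

set_option autoImplicit false

/-! Frobenius on the function field of a rational smooth curve. -/

namespace Pool.Agent.MP_f3836a_nt.PK

open MvPolynomial IntermediateField IsLocalRing

universe u

namespace DSig

variable {k K : Type u} [Field k] [Field K] [Algebra k K] {N : ℕ} {ξ : Fin (N + 1) → K}

theorem scale {A : Pol k N} {n : ℕ} (hA : A.IsHomogeneous n) (ξ : Fin (N + 1) → K) (c : K) :
    aeval (fun j => ξ j / c) A = aeval ξ A / c ^ n := by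
  rw [aeval_def, aeval_def, eval₂_eq', eval₂_eq', Finset.sum_div]
  refine Finset.sum_congr rfl fun d hd => ?_
  have : ∑ i, d i = n := by
    have := hA (mem_support_iff.mp hd)
    simpa [Finsupp.weight_apply, Finsupp.sum_fintype] using this
  simp only [div_pow, Finset.prod_div_distrib, Finset.prod_pow_eq_pow_sum, this, mul_div_assoc]

/-- the generic point of the curve -/
noncomputable def eta (C : Cv k ξ) : Fin (N + 1) → C.κ := fun j => C.res (C.lo (X j))

theorem res_lo (C : Cv k ξ) {A : Pol k N} {n : ℕ} (hA : A.IsHomogeneous n) :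
    C.res (C.lo A) = aeval (eta C) A := by
  let r : C.O →ₐ[k] C.κ := { IsLocalRing.residue C.O with commutes' := fun _ => rfl }
  have hu : ∀ j, ((C.lx (X j) : C.O) : K) = C.lo (X j) := fun j =>
    Ctr.coe_lx C.good (Form.of (isHomogeneous_X k j))
  have e1 : ((aeval (fun j => C.lx (X j)) A : C.O) : K) = C.lo A := by
    have := comp_aeval_apply (fun j => C.lx (X j)) (IsScalarTower.toAlgHom k C.O K) A
    refine this.trans ?_
    rw [C.toCtr.lo_eq hA, ← scale hA]
    congr 2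
    funext j
    exact (hu j).trans (C.toCtr.lo_X j)
  rw [← e1, C.res_of_mem]
  refine (comp_aeval_apply (fun j => C.lx (X j)) r A).trans ?_
  congr 2
  funext j
  rw [eta, ← hu j, C.res_of_mem]
  rfl

theorem mem_iff (C : Cv k ξ) {A : Pol k N} {n : ℕ} (hA : A.IsHomogeneous n) :
    aeval (eta C) A = 0 ↔ A ∈ C.P := by
  rw [← res_lo C hA, C.res_lo_eq_zero (Form.of hA)]

theorem res_div (C : Cv k ξ) {A B : Pol k N} {n : ℕ} (hA : A.IsHomogeneous n)
    (hB : B.IsHomogeneous n) (h : B ∉ C.P) :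
    C.res (aeval ξ A / aeval ξ B) = aeval (eta C) A / aeval (eta C) B := by
  rw [eq_div_iff (mt (mem_iff C hB).1 h), ← res_lo C hA, ← res_lo C hB,
    ← C.res_mul (C.toCtr.div_mem hA hB h) (Ctr.lo_mem C.good (Form.of hB)), C.toCtr.lo_eq hA,
    C.toCtr.lo_eq hB, div_mul_div_cancel₀ (C.toCtr.aeval_ne hB h)]

theorem eta_idx (C : Cv k ξ) : eta C C.idx = 1 := by
  rw [eta, C.toCtr.lo_X, div_self (Ctr.xi_ne C.good)]
  simpa using C.res_const 1

theorem homog (C : Cv k ξ) (G : Pol k N) : ∃ H : Pol k N, H.IsHomogeneous G.totalDegree ∧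
    ∀ ψ : k →+* k, aeval (eta C) (map ψ H) = aeval (eta C) (map ψ G) := by
  refine ⟨∑ n ∈ Finset.range (G.totalDegree + 1),
    homogeneousComponent n G * X C.idx ^ (G.totalDegree - n), ?_, fun ψ => ?_⟩
  · refine IsHomogeneous.sum _ _ _ fun n hn => ?_
    have h := (homogeneousComponent_isHomogeneous n G).mul
      (isHomogeneous_X_pow (R := k) C.idx (G.totalDegree - n))
    rwa [Nat.add_sub_cancel' (Nat.lt_succ_iff.mp (Finset.mem_range.mp hn))] at h
  · conv_rhs => rw [← sum_homogeneousComponent G]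
    simp only [map_sum, map_mul, map_pow, map_X, aeval_X, eta_idx, one_pow, mul_one]

theorem inf_places {F : Type u} [Field F] [Algebra k F] [Infinite k] (hF : IsFF k F)
    (hA : PlA k F) (hB : PlB k F) : Infinite (Place k F) := by
  obtain ⟨T, hT, -⟩ := hF
  have ex : ∀ a : k, ∃ P : Place k F, P.val T = a := by
    intro a
    have hT' : Transcendental k (T - algebraMap k F a) := fun h =>
      hT (by simpa using h.add (isAlgebraic_algebraMap a))
    have h0 : T - algebraMap k F a ≠ 0 := fun h => hT' (h ▸ isAlgebraic_zero)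
    have := hB.fd _ hT'
    have hd := hB.deg _ hT'
    have hpos : 0 < Module.finrank (adjoin k {T - algebraMap k F a}) F := Module.finrank_pos
    obtain ⟨P, hP⟩ : ∃ P : Place k F, 0 < P.ord (T - algebraMap k F a) := by
      by_contra hn
      push Not at hn
      rw [finsum_eq_zero_of_forall_eq_zero fun P => max_eq_right (hn P)] at hd
      omega
    have hm : T ∈ P.V := by
      simpa using P.V.add_mem _ _ ((hA.mem P _ h0).2 hP.le) (P.const a)
    exact ⟨P, (hA.val P T hm a).1 (Or.inr hP)⟩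
  exact Infinite.of_surjective (fun P : Place k F => P.val T) ex

theorem eval_map' (ψ : k →+* k) (z : Fin (N + 1) → k) (G : Pol k N) :
    eval (fun j => ψ (z j)) (map ψ G) = ψ (eval z G) := by
  rw [map_eval]
  rfl

theorem map_symm (ψ : k ≃+* k) (G : Pol k N) :
    map (ψ : k →+* k) (map (ψ.symm : k →+* k) G) = G := by
  rw [MvPolynomial.map_map]
  convert MvPolynomial.map_id G
  ext a
  simp

theorem fix_symm (ψ : k ≃+* k) {G : Pol k N} (h : map (ψ : k →+* k) G = G) :
    map (ψ.symm : k →+* k) G = G := by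
  conv_lhs => rw [← h]
  exact map_symm ψ.symm G

variable {𝒢 : Finset (Pol k N)}

theorem van_iff [Infinite k] (hg : Geo k ξ 𝒢) {C : Cv k ξ} (h2 : Sm2 C)
    (hi : Infinite (Place k C.κ)) {H : Pol k N} {n : ℕ} (hH : H.IsHomogeneous n)
    (h : ∀ x : Pt k ξ, x.On C → eval x.z H = 0) : H ∈ C.P := by
  by_contra hn
  have hf := hg.fin.pt C H (Form.of hH) hn
  choose pt hpt using h2.pt
  have hinj : Function.Injective pt := fun P P' e => Place.ext (ValuationSubring.toSubring_injective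
    ((hpt P).2.trans (e ▸ (hpt P').2.symm)))
  exact Set.infinite_range_of_injective hinj (hf.subset (by
    rintro _ ⟨P, rfl⟩
    exact ⟨(hpt P).1, h _ (hpt P).1⟩))

theorem map_mem [Infinite k] (hg : Geo k ξ 𝒢) {W : Pol k N} {C : Cv k ξ} (hW : Sm ξ W)
    (hC : W ∈ C.P) (hi : Infinite (Place k C.κ)) (ψ : k ≃+* k)
    (h1 : ∀ G ∈ 𝒢, map (ψ : k →+* k) G = G) (h2 : map (ψ : k →+* k) W = W) {H : Pol k N} {n : ℕ}
    (hH : H.IsHomogeneous n) (h : H ∈ C.P) : map (ψ : k →+* k) H ∈ C.P := by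
  refine van_iff hg (hg.sm W C hW hC).s2 hi (hH.map _) fun x hx => ?_
  obtain ⟨hn, hv⟩ := hg.gens.onV x
  obtain ⟨y, hy, -⟩ := hg.gens.pt (i := x.ctr.idx) (z := fun j => (ψ.symm : k →+* k) (x.z j))
    ⟨by simp only [hn.1, map_one], fun j hj => by simp only [hn.2 j hj, map_zero]⟩
    (fun G hG => by
      rw [← fix_symm ψ (h1 G hG), eval_map', hv G hG, map_zero])
  have hyC : y.On C := (hg.con.on W C hW hC y).2 (by
    rw [hy, ← fix_symm ψ h2, eval_map', (hg.con.on W C hW hC x).1 hx, map_zero])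
  have e : x.z = fun j => (ψ : k →+* k) (y.z j) := by
    funext j
    rw [hy]
    simp
  rw [e, eval_map', hyC n H hH h, map_zero]

theorem into (hg : Geo k ξ 𝒢) {C : Cv k ξ} (h2 : Sm2 C) {x : Pt k ξ} {P : Place k C.κ}
    (hP : C.Pl x P) (ψ : k →+* k) (τ : C.κ ≃+* C.κ)
    (hτ : ∀ G : Pol k N, τ (aeval (eta C) G) = aeval (eta C) (map ψ G))
    (hz : ∀ j, ψ (x.z j) = x.z j) {f : C.κ} (hf : f ∈ P.V) : τ f ∈ P.V := by
  have hf' : f ∈ C.loc x := hP.2 ▸ hf
  obtain ⟨a, rfl⟩ := ((hg.va.loc x C hP.1).1 f).1 hf'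
  obtain ⟨n, A, B, hA, hB, hBx, hab⟩ := a.2
  have hB0 : eval x.z B ≠ 0 := hBx
  have hB1 : eval x.z (map ψ B) ≠ 0 := by
    have := eval_map' ψ x.z B
    simp only [hz] at this
    rw [this]
    exact (map_ne_zero ψ).2 hB0
  have e : (a : K) = aeval ξ A / aeval ξ B := (eq_div_iff (x.ctr.aeval_ne hB hBx)).2 hab
  rw [e, res_div C hA hB fun h => hB0 (hP.1 n B hB h), map_div₀, hτ, hτ,
    ← res_div C (hA.map ψ) (hB.map ψ) fun h => hB1 (hP.1 n _ (hB.map ψ) h)]
  exact (h2.val x P hP n _ _ (hA.map ψ) (hB.map ψ) hB1).1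

end DSig

open DSig in
theorem rSigA : RSigA.{u} := by
  intro k K _ _ _ _ p _ _ N ξ 𝒢 _ hg e h𝒢 W C hW hC hWr
  have : ExpChar k p := ExpChar.prime Fact.out
  let φ : k ≃+* k := iterateFrobeniusEquiv k p e
  have rt : ∀ {G : Pol k N}, Rt (p ^ e) G → map (φ : k →+* k) G = G := fun {G} h =>
    MvPolynomial.ext _ _ fun d => by rw [coeff_map]; exact h d
  have sm := hg.sm W C hW hC
  have hA := pPlA k C.κ sm.ff
  have hi := inf_places sm.ff hA (pPlB k C.κ p sm.ff)
  obtain ⟨σ, s1, -, s3⟩ := rFrob k C.κ (N + 1) (eta C) φ (fun f => by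
      obtain ⟨n, A, B, hA, hB, hP, rfl⟩ := hg.va.frac C f
      have h0 := mt (mem_iff C hB).1 hP
      exact ⟨A, B, h0, by rw [res_div C hA hB hP, div_mul_cancel₀ _ h0]⟩) (fun G => by
      obtain ⟨H, hH, hh⟩ := homog C G
      have h0 := hh (RingHom.id k)
      rw [MvPolynomial.map_id, MvPolynomial.map_id] at h0
      rw [← hh, ← h0, mem_iff C hH, mem_iff C (hH.map _)]
      refine ⟨map_mem hg hW hC hi φ (fun G hG => rt (h𝒢 G hG)) (rt hWr) hH, fun h => ?_⟩
      have := map_mem hg hW hC hi φ.symm (fun G hG => fix_symm φ (rt (h𝒢 G hG)))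
        (fix_symm φ (rt hWr)) (hH.map _) h
      rwa [show map (φ.symm : k →+* k) (map (φ : k →+* k) H) = H from map_symm φ.symm H] at this)
  have s2 : ∀ (n : ℕ) (A B : Pol k N), A.IsHomogeneous n → B.IsHomogeneous n → Rt (p ^ e) A →
      Rt (p ^ e) B → B ∉ C.P →
      σ (C.res (aeval ξ A / aeval ξ B)) = C.res (aeval ξ A / aeval ξ B) := by
    intro n A B hA hB rA rB hP
    rw [res_div C hA hB hP, map_div₀, s3, s3, rt rA, rt rB]
  refine ⟨σ, s1, s2, fun x P hP => ⟨fun hfix j => ?_, fun hx f => ⟨fun hf => ?_, fun hf => ?_⟩⟩⟩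
  · have hq : p ^ e ≠ 0 := pow_ne_zero _ (Fact.out : p.Prime).ne_zero
    have rX : ∀ i : Fin (N + 1), Rt (p ^ e) (X i : Pol k N) := fun i d => by
      classical
      rw [coeff_X]
      split_ifs
      · exact one_pow _
      · exact zero_pow hq
    have h1 : eval x.z (X x.ctr.idx : Pol k N) = 1 := by rw [eval_X]; exact x.z_idx.1
    have h1' : eval x.z (X x.ctr.idx : Pol k N) ≠ 0 := by rw [h1]; exact one_ne_zero
    obtain ⟨hm, hv⟩ := sm.s2.val x P hP 1 (X j) _ (isHomogeneous_X k j) (isHomogeneous_X k _) h1'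
    have hs := s2 1 (X j) _ (isHomogeneous_X k j) (isHomogeneous_X k _) (rX j) (rX _)
      fun h => h1' (hP.1 1 _ (isHomogeneous_X k _) h)
    rw [h1, div_one, eval_X] at hv
    set g := C.res (aeval ξ (X j : Pol k N) / aeval ξ (X x.ctr.idx : Pol k N))
    have z1 := (hA.zero P _).1 ((hA.val P g hm _).2 hv)
    have z2 : σ (g - algebraMap k C.κ (x.z j)) ∈ P.V.nonunits := by
      rw [ValuationSubring.mem_nonunits_iff_or] at z1 ⊢
      rcases z1 with z1 | z1
      · exact Or.inl (by rw [z1, map_zero])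
      · exact Or.inr (by rw [← map_inv₀]; exact mt (hfix _).2 z1)
    rw [map_sub, hs, s1] at z2
    exact ((hA.val P g hm _).1 ((hA.zero P _).2 z2)).symm.trans hv
  · exact into hg sm.s2 hP φ σ s3 hx hf
  · have := into hg sm.s2 hP (φ.symm : k →+* k) σ.symm (fun G => by
      rw [RingEquiv.symm_apply_eq, s3, map_symm]) (fun j => φ.symm_apply_eq.2 (hx j).symm) hf
    rwa [RingEquiv.symm_apply_apply] at this

end Pool.Agent.MP_f3836a_nt.PK
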