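import Pool.Agent.MP_f3836a_nt.PK.SpecD
import Pool.Agent.MP_f3836a_nt.PK.Lin

set_option autoImplicit false

/-! Rational forms and rational points over a finite subfield. -/

namespace Pool.Agent.MP_f3836a_nt.PK

open MvPolynomial

universe u

namespace DVFA

variable {k K : Type u} [Field k] [Field K] [Algebra k K] {N : ℕ} {ξ : Fin (N + 1) → K}

/-- the field with `p ^ e` elements -/
noncomputable def Fq (k : Type u) [Field k] (p : ℕ) [Fact p.Prime] [CharP k p] (e : ℕ) :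
    Subfield k := RingHom.eqLocusField (iterateFrobenius k p e) (RingHom.id k)

theorem mem_Fq {p : ℕ} [Fact p.Prime] [CharP k p] {e : ℕ} {a : k} :
    a ∈ Fq k p e ↔ a ^ p ^ e = a := Iff.rfl

theorem exists_S [IsAlgClosed k] (p : ℕ) [Fact p.Prime] [CharP k p] {e : ℕ} (he : 1 ≤ e) :
    ∃ S : Finset k, (∀ a, a ∈ S ↔ a ^ p ^ e = a) ∧ S.card = p ^ e := by
  classical
  have h1 : 1 < p ^ e := Nat.one_lt_pow (by omega) (Fact.out : p.Prime).one_lt
  refine ⟨(Polynomial.X ^ p ^ e - Polynomial.X : Polynomial k).roots.toFinset, fun a => ?_, ?_⟩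
  · rw [Multiset.mem_toFinset, Polynomial.mem_roots (FiniteField.X_pow_card_sub_X_ne_zero k h1)]
    simp [sub_eq_zero]
  · rw [Multiset.toFinset_card_of_nodup (Polynomial.nodup_roots
      (galois_poly_separable p _ (dvd_pow_self p (by omega)))),
      IsAlgClosed.card_roots_eq_natDegree, FiniteField.X_pow_card_sub_X_natDegree_eq k h1]

/-- forms with coefficients in `L` vanishing on `Ξ` -/
def V (L : Subfield k) (n : ℕ) (Ξ : Set (Pt k ξ)) : Submodule L (Pol k N) where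
  carrier := {h | h.IsHomogeneous n ∧ (∀ d, coeff d h ∈ L) ∧ ∀ x ∈ Ξ, eval x.z h = 0}
  add_mem' := fun a b => ⟨a.1.add b.1, fun d => by
    rw [coeff_add]; exact L.add_mem (a.2.1 d) (b.2.1 d), fun x hx => by
    rw [map_add, a.2.2 x hx, b.2.2 x hx, add_zero]⟩
  zero_mem' := ⟨isHomogeneous_zero _ _ _, fun _ => L.zero_mem, fun _ _ => map_zero _⟩
  smul_mem' := fun c h a => by
    rw [Subfield.smul_def, smul_eq_C_mul]
    exact ⟨a.1.C_mul _, fun d => by rw [coeff_C_mul]; exact L.mul_mem c.2 (a.2.1 d),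
      fun x hx => by rw [map_mul, a.2.2 x hx, mul_zero]⟩

theorem mem_V {L : Subfield k} {n : ℕ} {Ξ : Set (Pt k ξ)} {h : Pol k N} : h ∈ V L n Ξ ↔
    h.IsHomogeneous n ∧ (∀ d, coeff d h ∈ L) ∧ ∀ x ∈ Ξ, eval x.z h = 0 := Iff.rfl

theorem C_mul_mem {L : Subfield k} {n : ℕ} {Ξ : Set (Pt k ξ)} {h : Pol k N} (hh : h ∈ V L n Ξ)
    {a : k} (ha : a ∈ L) : C a * h ∈ V L n Ξ := by
  rw [← smul_eq_C_mul]
  exact (V L n Ξ).smul_mem ⟨a, ha⟩ hh

theorem fin_V {L : Subfield k} (hL : (L : Set k).Finite) (n : ℕ) (Ξ : Set (Pt k ξ)) :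
    (V L n Ξ : Set (Pol k N)).Finite := by
  refine Set.Finite.of_finite_image (f := fun (h : Pol k N) (d : Mon N n) => coeff d.1 h)
    ((Set.Finite.pi' fun _ => hL).subset ?_) fun g hg h hh e => ?_
  · rintro _ ⟨h, hh, rfl⟩ d
    exact hh.2.1 _
  · ext d
    by_cases hd : d.degree = n
    · exact congrFun e ⟨d, hd⟩
    · rw [hg.1.coeff_eq_zero hd, hh.1.coeff_eq_zero hd]

theorem eval_mem {L : Subfield k} {h : Pol k N} (hh : ∀ d, coeff d h ∈ L) {z : Fin (N + 1) → k}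
    (hz : ∀ j, z j ∈ L) : eval z h ∈ L := by
  rw [eval_eq']
  exact L.sum_mem fun d _ => L.mul_mem (hh d) (L.prod_mem fun i _ => L.pow_mem (hz i) _)

theorem count (hs : RSep0.{u}) (L : Subfield k) (n : ℕ) (Ξ : Finset (Pt k ξ))
    (hΞ : ∀ x ∈ Ξ, ∀ j, x.z j ∈ L) (hn : Ξ.card ≤ n) :
    (V L n (Ξ : Set (Pt k ξ)) : Set (Pol k N)).ncard * (L : Set k).ncard ^ Ξ.card =
      (V L n (∅ : Set (Pt k ξ)) : Set (Pol k N)).ncard := by
  classical
  induction Ξ using Finset.induction_on with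
  | empty => simp
  | insert x Ξ hx ih =>
    rw [Finset.card_insert_of_notMem hx] at hn ⊢
    have hΞ' := fun y hy => hΞ y (Finset.mem_insert_of_mem hy)
    have hxL := hΞ x (Finset.mem_insert_self _ _)
    obtain ⟨i, hi⟩ := x.norm
    obtain ⟨g, g1, g2, g3, g4⟩ := hs k L N Ξ.card n (fun s => (Ξ.equivFin.symm s).1.z) i x.z
      (fun s => (Ξ.equivFin.symm s).1.norm) (fun s => hΞ' _ (Ξ.equivFin.symm s).2) hxL hi
      (fun s e => hx (Pt.ext e ▸ (Ξ.equivFin.symm s).2)) (by omega)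
    have hg : g ∈ V L n (Ξ : Set (Pt k ξ)) := ⟨g1, g2, fun y hy => by
      simpa using g3 (Ξ.equivFin ⟨y, hy⟩)⟩
    rw [← ih hΞ' (by omega), pow_succ', ← mul_assoc, ← Set.ncard_prod]
    congr 1
    refine Set.BijOn.ncard_eq (f := fun a : Pol k N × k => a.1 + C a.2 * g) ⟨?_, ?_, ?_⟩
    · rintro ⟨h, a⟩ ⟨hh, ha⟩
      exact (V L n _).add_mem ⟨hh.1, hh.2.1, fun y hy =>
        hh.2.2 y (Finset.mem_coe.2 (Finset.mem_insert_of_mem hy))⟩ (C_mul_mem hg ha)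
    · rintro ⟨h, a⟩ ⟨hh, -⟩ ⟨h', a'⟩ ⟨hh', -⟩ e
      have e1 := congrArg (eval x.z) e
      have z := hh.2.2 x (Finset.mem_coe.2 (Finset.mem_insert_self _ _))
      have z' := hh'.2.2 x (Finset.mem_coe.2 (Finset.mem_insert_self _ _))
      simp only [map_add, map_mul, eval_C, g4, mul_one] at e1 z z'
      rw [z, z', zero_add, zero_add] at e1
      subst e1
      exact Prod.ext (add_right_cancel e) rfl
    · intro h hh
      have ha := eval_mem hh.2.1 hxL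
      have h1 := (V L n _).sub_mem hh (C_mul_mem hg ha)
      refine ⟨(h - C (eval x.z h) * g, eval x.z h), ⟨⟨h1.1, h1.2.1, fun y hy => ?_⟩, ha⟩,
        sub_add_cancel _ _⟩
      rcases Finset.mem_insert.1 (Finset.mem_coe.1 hy) with rfl | hy
      · simp [g4]
      · exact h1.2.2 y hy

theorem basis {L : Subfield k} (hL : (L : Set k).Finite) (n : ℕ) (Ξ : Finset (Pt k ξ))
    (hΞ : ∀ x ∈ Ξ, ∀ j, x.z j ∈ L) :
    ∃ (m : ℕ) (B : Fin m → Pol k N), (∀ j, B j ∈ V L n (Ξ : Set (Pt k ξ))) ∧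
      (∀ h : Pol k N, h.IsHomogeneous n → (∀ x ∈ Ξ, eval x.z h = 0) →
        h ∈ Submodule.span k (Set.range B)) ∧
      Set.BijOn (fun a : Fin m → k => ∑ j, C (a j) * B j) {a | ∀ j, a j ∈ L}
        (V L n (Ξ : Set (Pt k ξ))) := by
  have : Finite (V L n (Ξ : Set (Pt k ξ))) := (fin_V hL n _).to_subtype
  have : Module.Finite L (V L n (Ξ : Set (Pt k ξ))) := Module.Finite.of_finite
  let b := Module.finBasis L (V L n (Ξ : Set (Pt k ξ)))
  have e : ∀ a : Fin _ → L, ∑ j, C (a j : k) * (b j : Pol k N) = (b.equivFun.symm a : Pol k N) :=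
    fun a => by
      rw [Module.Basis.equivFun_symm_apply, Submodule.coe_sum]
      exact Finset.sum_congr rfl fun j _ => by
        rw [Submodule.coe_smul, Subfield.smul_def, smul_eq_C_mul]
  have su : ∀ h ∈ V L n (Ξ : Set (Pt k ξ)), ∃ a : Fin _ → L,
      ∑ j, C (a j : k) * (b j : Pol k N) = h := fun h hh =>
    ⟨b.equivFun ⟨h, hh⟩, by rw [e, LinearEquiv.symm_apply_apply]⟩
  refine ⟨_, fun j => b j, fun j => (b j).2, fun h hh h0 => ?_, fun a ha => ?_,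
    fun a ha a' ha' h => ?_, fun h hh => ?_⟩
  · refine Submodule.span_le.2 ?_ (rRat k L (N + 1) n Ξ.card (fun s => (Ξ.equivFin.symm s).1.z)
      (fun s => hΞ _ (Ξ.equivFin.symm s).2) h hh fun s => h0 _ (Ξ.equivFin.symm s).2)
    rintro g ⟨g1, g2, g3⟩
    obtain ⟨a, rfl⟩ := su g ⟨g1, g2, fun y hy => by simpa using g3 (Ξ.equivFin ⟨y, hy⟩)⟩
    refine Submodule.sum_mem _ fun j _ => ?_
    rw [← smul_eq_C_mul]
    exact Submodule.smul_mem _ _ (Submodule.subset_span ⟨j, rfl⟩)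
  · exact Submodule.sum_mem _ fun j _ => C_mul_mem (b j).2 (ha j)
  · have h1 := b.equivFun.symm.injective (Subtype.ext
      ((e fun j => ⟨a j, ha j⟩).symm.trans (h.trans (e fun j => ⟨a' j, ha' j⟩))))
    exact funext fun j => congrArg Subtype.val (congrFun h1 j)
  · obtain ⟨a, ha⟩ := su h hh
    exact ⟨fun j => a j, fun j => (a j).2, ha⟩

theorem zeros {𝒢 : Finset (Pol k N)} (hG : Geo k ξ 𝒢) {W : Pol k N} {C : Cv k ξ} (hW : Sm ξ W)
    (hC : W ∈ C.P) {n : ℕ} {h : Pol k N} (hh : h.IsHomogeneous n) (hP : h ∉ C.P) :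
    (Zs ξ W h).Finite ∧ (Zs ξ W h).ncard ≤ n * C.deg := by
  have cop : Cop ξ W h := ⟨hW.1, Form.of hh, hW.2.2.1, C.toCtr.aeval_ne hh hP, fun C' h' =>
    hG.con.uniq W C C' hW hC h' ▸ hP⟩
  have hf := hG.fin.zs W h cop
  refine ⟨hf, ?_⟩
  rw [← (hG.sm W C hW hC).s3.deg n h hh hP, finsum_eq_sum_of_support_subset (s := hf.toFinset),
    Set.ncard_eq_toFinset_card _ hf, Finset.card_eq_sum_ones]
  · refine Finset.sum_le_sum fun x hx => ?_
    have hx' := hf.mem_toFinset.1 hx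
    rw [finsum_eq_single _ ((hG.con.on W C hW hC x).2 hx'.1) fun _ a => absurd rfl a]
    exact Nat.one_le_iff_ne_zero.2 fun h0 => (hG.ja.zero x W h cop).1 h0 hx'
  · intro x hx
    by_contra hn
    rw [Set.Finite.coe_toFinset] at hn
    exact hx (by simp only [(hG.ja.zero x W h cop).2 hn, finsum_zero])

end DVFA

theorem rVFA : RSep0.{u} → RVFA.{u} := by
  intro hs k K _ _ _ _ p _ _ N ξ 𝒢 _ _ e he
  obtain ⟨S, hS, hc⟩ := DVFA.exists_S (k := k) p he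
  have e1 : (DVFA.Fq k p e : Set k) = S := Set.ext fun a => (hS a).symm
  have hL : (DVFA.Fq k p e : Set k).Finite := e1 ▸ S.finite_toSet
  refine ⟨?_, S, hS, hc, fun n Ξ hΞ hn => ⟨DVFA.fin_V hL n _, ?_, ?_⟩⟩
  · exact ((Set.Finite.pi' fun _ => hL).preimage (f := Pt.z)
      fun x _ y _ h => Pt.ext h).subset fun x hx => hx
  · have := DVFA.count hs (DVFA.Fq k p e) n Ξ hΞ hn
    rwa [e1, Set.ncard_coe_finset, hc] at this
  · obtain ⟨m, B, h1, h2, h3⟩ := DVFA.basis hL n Ξ hΞ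
    refine ⟨m, B, h1, h2, ?_⟩
    simp only [hS]
    exact h3

theorem rSmCnt : RSmCnt.{u} := by
  intro k K _ _ _ _ p _ _ N ξ 𝒢 _ hG hV n hn
  obtain ⟨c, hc⟩ := hG.bt.uni n hn
  refine ⟨c, fun e he x hx => ?_⟩
  obtain ⟨-, S, -, hS, h⟩ := hV e he
  obtain ⟨-, -, m, B, h1, h2, h3⟩ := h n {x} (by simpa using hx) (by simp; omega)
  rw [Finset.coe_singleton] at h1 h3
  have h4 := hc x m B (fun j => (h1 j).1) (fun g hg h0 => h2 g hg (by simpa using h0)) S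
  have h5 : {a : Fin m → k | ∀ j, a j ∈ S}.ncard = S.card ^ m := by
    have : {a : Fin m → k | ∀ j, a j ∈ S} = (Fintype.piFinset fun _ : Fin m => S : Finset _) := by
      ext a; simp
    rw [this, Set.ncard_coe_finset]
    simp
  have h6 : Set.BijOn (fun a : Fin m → k => ∑ j, C (a j) * B j)
      {a | (∀ j, a j ∈ S) ∧ ¬ Sm ξ (∑ j, C (a j) * B j)}
      {h ∈ VF (p ^ e) n ({x} : Set (Pt k ξ)) | ¬ Sm ξ h} :=
    ⟨fun a ha => ⟨h3.mapsTo ha.1, ha.2⟩, h3.injOn.mono fun _ ha => ha.1, fun g hg => by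
      obtain ⟨a, ha, rfl⟩ := h3.surjOn hg.1
      exact ⟨a, ⟨ha, hg.2⟩, rfl⟩⟩
  rw [← h6.ncard_eq, ← h3.ncard_eq, h5, ← hS]
  exact h4

theorem DVFA.cover {α β : Type u} {s t : Set α} {S : Finset β} {Z : β → Set α} {d : ℕ}
    (h : s ⊆ t ∪ ⋃ b ∈ S, Z b) (ht : t.Finite ∧ t.ncard ≤ 1 * d)
    (hZ : ∀ b, (Z b).Finite ∧ (Z b).ncard ≤ 1 * d) : s.ncard ≤ d * (S.card + 1) := by
  have f1 : (⋃ b ∈ S, Z b).Finite := S.finite_toSet.biUnion fun b _ => (hZ b).1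
  have b := (S.set_ncard_biUnion_le Z).trans (Finset.sum_le_card_nsmul S _ _ fun b _ => (hZ b).2)
  have c := (Set.ncard_le_ncard h (ht.1.union f1)).trans (Set.ncard_union_le _ _)
  rw [smul_eq_mul] at b
  nlinarith [ht.2]

theorem rPts : RPts.{u} := by
  intro k K _ _ _ _ p _ _ N ξ 𝒢 _ hG hV W C hW hC
  refine ⟨fun e he => ?_, fun n h hh cop => (DVFA.zeros hG hW hC hh (cop.2.2.2.2 C hC)).2⟩
  obtain ⟨-, S, hS, hc, -⟩ := hV e he
  obtain ⟨i, j, hij⟩ := (hG.sm W C hW hC).s3.two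
  have z : ∀ a b : k, (a ≠ 0 ∨ b ≠ 0) →
      (Zs ξ W (MvPolynomial.C a * X i + MvPolynomial.C b * X j)).Finite ∧
      (Zs ξ W (MvPolynomial.C a * X i + MvPolynomial.C b * X j)).ncard ≤ 1 * C.deg :=
    fun a b hab => DVFA.zeros hG hW hC
      (((isHomogeneous_X k i).C_mul a).add ((isHomogeneous_X k j).C_mul b)) (hij a b hab)
  rw [← hc]
  refine DVFA.cover ?_ (z 0 1 (Or.inr one_ne_zero)) fun t => z 1 (-t) (Or.inl one_ne_zero)
  rw [hc]
  rintro x ⟨h1, h2⟩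
  by_cases h0 : x.z j = 0
  · exact Or.inl ⟨h2, by simp [h0]⟩
  · refine Or.inr (Set.mem_iUnion₂.2 ⟨x.z i / x.z j, (hS _).2 ?_, h2, ?_⟩)
    · rw [div_pow, h1 i, h1 j]
    · simp [div_mul_cancel₀ _ h0]

end Pool.Agent.MP_f3836a_nt.PK
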