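import Pool.Agent.MP_f3836a_nt.PK.SpecD
import Pool.Agent.MP_f3836a_nt.PK.AllA

set_option autoImplicit false

/-! Row DPen1: the function defined by a Morse pencil. -/

namespace Pool.Agent.MP_f3836a_nt.PK

open MvPolynomial IntermediateField IsLocalRing

universe u

namespace DPen1

section Comb

variable {ι : Type u}

open Classical in
/-- the excess over the base points -/
noncomputable def ex (j : ι → ℕ) (Ξ : Finset ι) (P : ι) : ℕ := j P - if P ∈ Ξ then 1 else 0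

theorem ex_in {j : ι → ℕ} {Ξ : Finset ι} {P : ι} (h : P ∈ Ξ) : ex j Ξ P = j P - 1 := by
  rw [ex, if_pos h]

theorem ex_out {j : ι → ℕ} {Ξ : Finset ι} {P : ι} (h : P ∉ Ξ) : ex j Ξ P = j P := by
  rw [ex, if_neg h, Nat.sub_zero]

theorem ex_sub (j : ι → ℕ) (Ξ : Finset ι) : Function.support (ex j Ξ) ⊆ Function.support j :=
  fun P h h0 => h (by rw [ex, h0, Nat.zero_sub])

theorem ex_sum {j : ι → ℕ} {Ξ : Finset ι} (hf : (Function.support j).Finite)
    (h1 : ∀ P ∈ Ξ, 1 ≤ j P) : ∑ᶠ P, ex j Ξ P + Ξ.card = ∑ᶠ P, j P := by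
  classical
  have sub : Ξ ⊆ hf.toFinset := fun P hP => hf.mem_toFinset.2 (Nat.one_le_iff_ne_zero.1 (h1 P hP))
  rw [finsum_eq_sum_of_support_subset (s := hf.toFinset) _ (by simpa using ex_sub j Ξ),
    finsum_eq_sum_of_support_subset (s := hf.toFinset) j (by simp)]
  have e : Ξ.card = ∑ P ∈ hf.toFinset, if P ∈ Ξ then 1 else 0 := by
    rw [← Finset.card_filter, Finset.filter_mem_eq_inter, Finset.inter_eq_right.2 sub]
  rw [e, ← Finset.sum_add_distrib]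
  refine Finset.sum_congr rfl fun P _ => ?_
  by_cases h : P ∈ Ξ
  · rw [ex_in h, if_pos h, Nat.sub_add_cancel (h1 P h)]
  · rw [ex_out h, if_neg h, add_zero]

theorem morse {e : ι → ℕ} (hf : (Function.support e).Finite) (h2 : ∀ P, e P ≤ 2)
    (h1 : ∀ P Q, 2 ≤ e P → 2 ≤ e Q → P = Q) : ∑ᶠ P, e P ≤ (Function.support e).ncard + 1 := by
  classical
  rw [finsum_eq_sum_of_support_subset (s := hf.toFinset) e (by simp),
    Set.ncard_eq_toFinset_card _ hf]
  calc ∑ P ∈ hf.toFinset, e P ≤ ∑ P ∈ hf.toFinset, (1 + if 2 ≤ e P then 1 else 0) :=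
        Finset.sum_le_sum fun P _ => by
          have := h2 P
          split_ifs <;> omega
    _ = hf.toFinset.card + (hf.toFinset.filter fun P => 2 ≤ e P).card := by
        rw [Finset.sum_add_distrib, Finset.card_filter, Finset.card_eq_sum_ones]
    _ ≤ _ := Nat.add_le_add_left (Finset.card_le_one.2 fun P hP Q hQ =>
        h1 P Q (Finset.mem_filter.1 hP).2 (Finset.mem_filter.1 hQ).2) _

theorem split {e : ι → ℕ} (hf : (Function.support e).Finite) (R : ι → Prop) :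
    {P | e P ≠ 0 ∧ R P}.ncard = ∑ᶠ P, e P ↔ ∀ P, e P ≠ 0 → R P ∧ e P = 1 := by
  classical
  have e1 : {P | e P ≠ 0 ∧ R P} = ↑(hf.toFinset.filter R) := by
    ext P
    simp
  rw [finsum_eq_sum_of_support_subset (s := hf.toFinset) e (by simp), e1, Set.ncard_coe_finset,
    Finset.card_filter, Finset.sum_eq_sum_iff_of_le fun P hP => by
      have : e P ≠ 0 := hf.mem_toFinset.1 hP
      split_ifs <;> omega]
  refine forall_congr' fun P => ?_
  rw [Set.Finite.mem_toFinset, Function.mem_support]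
  refine imp_congr_right fun h => ?_
  by_cases hR : R P
  · rw [if_pos hR]
    exact ⟨fun g => ⟨hR, g.symm⟩, fun g => g.2.symm⟩
  · rw [if_neg hR]
    exact ⟨fun g => absurd g.symm h, fun g => absurd g.1 hR⟩

end Comb

variable {k K : Type u} [Field k] [Field K] [Algebra k K] {N : ℕ} {ξ : Fin (N + 1) → K}

theorem res_ne (C : Cv k ξ) {n : ℕ} {A B : Pol k N} (hA : A.IsHomogeneous n)
    (hB : B.IsHomogeneous n) (nA : A ∉ C.P) (nB : B ∉ C.P) :
    C.res (aeval ξ A / aeval ξ B) ≠ 0 := by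
  rw [C.res_of_mem ⟨_, C.toCtr.div_mem hA hB nB⟩, Ne, residue_eq_zero_iff,
    C.toCtr.mem_max_iff _ hA hB nB (div_mul_cancel₀ _ (C.toCtr.aeval_ne hB nB))]
  exact nA

theorem res_sub (C : Cv k ξ) {n : ℕ} {A B : Pol k N} (hA : A.IsHomogeneous n)
    (hB : B.IsHomogeneous n) (nB : B ∉ C.P) (c : k) :
    C.res (aeval ξ A / aeval ξ B) - algebraMap k C.κ c =
      C.res (aeval ξ (A - MvPolynomial.C c * B) / aeval ξ B) := by
  have e : aeval ξ (A - MvPolynomial.C c * B) / aeval ξ B =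
      aeval ξ A / aeval ξ B + algebraMap k K (-c) := by
    have := C.toCtr.aeval_ne hB nB
    simp only [map_sub, map_mul, aeval_C, map_neg]
    field_simp
    ring
  rw [e, C.res_add (C.toCtr.div_mem hA hB nB) (C.toCtr.const_mem _), C.res_const, map_neg,
    sub_eq_add_neg]

theorem ord_eq {C : Cv k ξ} {x : Pt k ξ} {P : Place k C.κ} (h : C.Pl x P) (f : C.κ) :
    P.ord f = C.ordAt x f := by
  rw [Place.ord, h.2]
  rfl

/-- the members of the pencil -/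
noncomputable def mb (h₁ h₂ : Pol k N) (a b : k) : Pol k N := C a * h₁ + C b * h₂

theorem mb_hom {n : ℕ} {h₁ h₂ : Pol k N} (H₁ : h₁.IsHomogeneous n) (H₂ : h₂.IsHomogeneous n)
    (a b : k) : (mb h₁ h₂ a b).IsHomogeneous n := (H₁.C_mul a).add (H₂.C_mul b)

theorem mb_sub (h₁ h₂ : Pol k N) (a b a' b' c : k) :
    mb h₁ h₂ a b - C c * mb h₁ h₂ a' b' = mb h₁ h₂ (a - c * a') (b - c * b') := by
  simp only [mb, map_sub, map_mul]
  ring

theorem mb_t (h₁ h₂ : Pol k N) (t : k) : h₁ - C t * h₂ = mb h₁ h₂ 1 (-t) := by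
  simp only [mb, map_neg, map_one]
  ring

theorem mb_inf (h₁ h₂ : Pol k N) : mb h₁ h₂ 0 1 = h₂ := by simp [mb]

theorem eval_mb (h₁ h₂ : Pol k N) (a b : k) (z : Fin (N + 1) → k) :
    eval z (mb h₁ h₂ a b) = a * eval z h₁ + b * eval z h₂ := by simp [mb]

theorem indep {W : Pol k N} {C : Cv k ξ} {Ξ : Finset (Pt k ξ)} {n : ℕ} {h₁ h₂ : Pol k N}
    (ja : JA k ξ) (sm : SmA W C) (pa : PlA k C.κ) (hW : W ∈ C.P) (H₁ : h₁.IsHomogeneous n)
    (H₂ : h₂.IsHomogeneous n) (gp : GoodP W (Ξ : Set (Pt k ξ)) h₁ h₂) {a b a' b' : k}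
    (hd : a * b' - a' * b ≠ 0) {x : Pt k ξ} (hx : x.On C) :
    (x ∉ Ξ → J x W (mb h₁ h₂ a b) = 0 ∨ J x W (mb h₁ h₂ a' b') = 0) ∧
      (J x W (mb h₁ h₂ a b) ≤ 1 ∨ J x W (mb h₁ h₂ a' b') ≤ 1) := by
  have nz : ∀ c : k, a - c * a' ≠ 0 ∨ b - c * b' ≠ 0 := fun c => by
    by_contra hn
    push Not at hn
    exact hd (by linear_combination b' * hn.1 - a' * hn.2)
  have n1 : a ≠ 0 ∨ b ≠ 0 := by simpa using nz 0
  have n2 : a' ≠ 0 ∨ b' ≠ 0 := by
    by_contra hn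
    push Not at hn
    exact hd (by rw [hn.1, hn.2]; ring)
  have c1 : Cop ξ W (mb h₁ h₂ a b) := gp.cop a b n1
  have c2 : Cop ξ W (mb h₁ h₂ a' b') := gp.cop a' b' n2
  constructor
  · intro hΞ
    by_contra hn
    push Not at hn
    have z1 : x ∈ Zs ξ W (mb h₁ h₂ a b) := by_contra fun h => hn.1 ((ja.zero x _ _ c1).2 h)
    have z2 : x ∈ Zs ξ W (mb h₁ h₂ a' b') := by_contra fun h => hn.2 ((ja.zero x _ _ c2).2 h)
    have e1 := z1.2
    have e2 := z2.2
    rw [eval_mb] at e1 e2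
    refine hΞ (gp.base x z1.1 ?_ ?_)
    · exact (mul_eq_zero.1 (by linear_combination b' * e1 - b * e2)).resolve_left hd
    · exact (mul_eq_zero.1 (by linear_combination a * e2 - a' * e1)).resolve_left hd
  · by_contra hn
    push Not at hn
    have t1 : J x W (mb h₁ h₂ a b) ≤ 2 := gp.two a b n1 x
    have t2 : J x W (mb h₁ h₂ a' b') ≤ 2 := gp.two a' b' n2 x
    obtain ⟨P, hP⟩ := sm.s2.pl x hx
    have m1 := c1.2.2.2.2 C hW
    have m2 := c2.2.2.2.2 C hW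
    have q := sm.s1.quo x hx n _ _ (mb_hom H₁ H₂ a b) (mb_hom H₁ H₂ a' b') m1 m2
    have hV := (pa.mem P _ (res_ne C (mb_hom H₁ H₂ a b) (mb_hom H₁ H₂ a' b') m1 m2)).2
      (by rw [ord_eq hP, q]; omega)
    have hz := (pa.val P _ hV _).2 rfl
    rw [res_sub C (mb_hom H₁ H₂ a b) (mb_hom H₁ H₂ a' b') m2, mb_sub] at hz
    generalize P.val _ = c at hz
    have m3 : mb h₁ h₂ (a - c * a') (b - c * b') ∉ C.P := (gp.cop _ _ (nz c)).2.2.2.2 C hW
    have t3 : J x W (mb h₁ h₂ (a - c * a') (b - c * b')) ≤ 2 := gp.two _ _ (nz c) x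
    rcases hz with hz | hz
    · exact res_ne C (mb_hom H₁ H₂ _ _) (mb_hom H₁ H₂ a' b') m3 m2 hz
    · rw [ord_eq hP, sm.s1.quo x hx n _ _ (mb_hom H₁ H₂ _ _) (mb_hom H₁ H₂ a' b') m3 m2] at hz
      omega

end DPen1

open DPen1 in
theorem rPen1 : RPen1.{u} := by
  classical
  intro k K _ _ _ _ p _ _ N ξ 𝒢 _ geo W C hS hW Ξ n h₁ h₂ hΞ H₁ H₂ hb gp
  have sm := geo.sm W C hS hW
  have pa := pPlA k C.κ sm.ff
  have pb := pPlB k C.κ p sm.ff
  have on := geo.con.on W C hS hW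
  choose pt hpt using sm.s2.pt
  have inj : Function.Injective pt := fun P Q h => Place.ext (ValuationSubring.toSubring_injective
    ((hpt P).2.trans (h ▸ (hpt Q).2.symm)))
  have rng : ∀ x : Pt k ξ, x.On C ↔ x ∈ Set.range pt := fun x =>
    ⟨fun hx => by
      obtain ⟨P, hP⟩ := sm.s2.pl x hx
      exact ⟨P, sm.s2.inj _ _ P (hpt P) hP⟩, by rintro ⟨P, rfl⟩; exact (hpt P).1⟩
  let Ξ' : Finset (Place k C.κ) := Ξ.preimage pt inj.injOn
  have mΞ : ∀ P, P ∈ Ξ' ↔ pt P ∈ Ξ := fun P => Finset.mem_preimage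
  have cΞ : Ξ'.card = Ξ.card := by
    rw [← Finset.card_image_of_injective _ inj, Finset.image_preimage, Finset.filter_true_of_mem]
    exact fun x hx => (rng x).1 ((on x).2 (hΞ x hx))
  let j : k → k → Place k C.κ → ℕ := fun a b P => J (pt P) W (mb h₁ h₂ a b)
  have cop : ∀ a b : k, (a ≠ 0 ∨ b ≠ 0) → Cop ξ W (mb h₁ h₂ a b) := gp.cop
  have jz : ∀ a b : k, (a ≠ 0 ∨ b ≠ 0) → ∀ P, j a b P ≠ 0 ↔ pt P ∈ Zs ξ W (mb h₁ h₂ a b) :=
    fun a b h P => by rw [Ne, geo.ja.zero _ _ _ (cop a b h), not_not]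
  have jf : ∀ a b : k, (a ≠ 0 ∨ b ≠ 0) → (Function.support (j a b)).Finite := fun a b h =>
    ((geo.fin.zs _ _ (cop a b h)).preimage inj.injOn).subset fun P hP => (jz a b h P).1 hP
  have j1 : ∀ a b : k, (a ≠ 0 ∨ b ≠ 0) → ∀ P ∈ Ξ', 1 ≤ j a b P := fun a b h P hP => by
    have hx := (mΞ P).1 hP
    refine Nat.one_le_iff_ne_zero.2 ((jz a b h P).2 ⟨hΞ _ hx, ?_⟩)
    rw [eval_mb, (hb _ hx).1, (hb _ hx).2, mul_zero, mul_zero, add_zero]
  have js : ∀ a b : k, (a ≠ 0 ∨ b ≠ 0) → ∑ᶠ P, ex (j a b) Ξ' P + Ξ.card = n * C.deg :=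
    fun a b h => by
      rw [← cΞ, ex_sum (jf a b h) (j1 a b h),
        ← sm.s3.deg n _ (mb_hom H₁ H₂ a b) ((cop a b h).2.2.2.2 C hW)]
      exact (finsum_mem_range (f := fun x => J x W (mb h₁ h₂ a b)) inj).symm.trans
        (finsum_congr fun x => finsum_congr_Prop (propext (rng x).symm) fun _ => rfl)
  have ef : ∀ a b : k, (a ≠ 0 ∨ b ≠ 0) → (Function.support (ex (j a b) Ξ')).Finite :=
    fun a b h => (jf a b h).subset (ex_sub _ _)
  have mo : ∀ a b : k, (a ≠ 0 ∨ b ≠ 0) →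
      n * C.deg - Ξ.card ≤ (Function.support (ex (j a b) Ξ')).ncard + 1 := fun a b h => by
    rw [← js a b h, Nat.add_sub_cancel]
    have two : ∀ P, j a b P ≤ 2 := fun P => gp.two a b h _
    have out : ∀ P, 2 ≤ ex (j a b) Ξ' P → P ∉ Ξ' := fun P h2 hP => by
      rw [ex_in hP] at h2
      have := two P
      omega
    refine morse (ef a b h) (fun P => (Nat.sub_le _ _).trans (two P)) fun P Q hP hQ => ?_
    have oP := out P hP
    have oQ := out Q hQ
    rw [ex_out oP] at hP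
    rw [ex_out oQ] at hQ
    exact inj (gp.one a b h _ _ (fun g => oP ((mΞ P).2 g)) (fun g => oQ ((mΞ Q).2 g)) hP hQ)
  have n1 : ∀ t : k, (1 : k) ≠ 0 ∨ -t ≠ 0 := fun _ => .inl one_ne_zero
  have n2 : (0 : k) ≠ 0 ∨ (1 : k) ≠ 0 := .inr one_ne_zero
  have m2 : h₂ ∉ C.P := mb_inf h₁ h₂ ▸ (cop 0 1 n2).2.2.2.2 C hW
  set T := C.res (aeval ξ h₁ / aeval ξ h₂) with hT
  have Tt : ∀ t : k, T - algebraMap k C.κ t = C.res (aeval ξ (mb h₁ h₂ 1 (-t)) / aeval ξ h₂) :=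
    fun t => by rw [hT, res_sub C H₁ H₂ m2, mb_t]
  have key : ∀ (t : k) (P : Place k C.κ),
      max (P.ord (T - algebraMap k C.κ t)) 0 = ex (j 1 (-t)) Ξ' P ∧
      max (-P.ord (T - algebraMap k C.κ t)) 0 = ex (j 0 1) Ξ' P := fun t P => by
    have q := sm.s1.quo _ (hpt P).1 n _ _ (mb_hom H₁ H₂ 1 (-t)) H₂
      ((cop _ _ (n1 t)).2.2.2.2 C hW) m2
    rw [← Tt, ← ord_eq (hpt P)] at q
    have q' : P.ord (T - algebraMap k C.κ t) = (j 1 (-t) P : ℤ) - j 0 1 P := by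
      rw [q]
      simp only [j, mb_inf]
    obtain ⟨i1, i2⟩ := indep geo.ja sm pa hW H₁ H₂ gp (a := 1) (b := -t) (a' := 0) (b' := 1)
      (by simp) (hpt P).1
    change j 1 (-t) P ≤ 1 ∨ j 0 1 P ≤ 1 at i2
    rw [q']
    by_cases hP : P ∈ Ξ'
    · have a1 := j1 _ _ (n1 t) P hP
      have a2 := j1 _ _ n2 P hP
      rw [ex_in hP, ex_in hP]
      omega
    · have a1 : j 1 (-t) P = 0 ∨ j 0 1 P = 0 := i1 fun g => hP ((mΞ P).2 g)
      rw [ex_out hP, ex_out hP]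
      omega
  have pos : ∀ (t : k) (P : Place k C.κ),
      0 < P.ord (T - algebraMap k C.κ t) ↔ ex (j 1 (-t)) Ξ' P ≠ 0 := fun t P => by
    have := (key t P).1
    omega
  have tr : Transcendental k T := fun h => by
    obtain ⟨t, ht⟩ := minpoly.mem_range_of_degree_eq_one k T
      (IsAlgClosed.degree_eq_one_of_irreducible k (minpoly.irreducible h.isIntegral))
    refine res_ne C (mb_hom H₁ H₂ 1 (-t)) H₂ ((cop _ _ (n1 t)).2.2.2.2 C hW) m2 ?_
    rw [← Tt, ht, sub_self]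
  refine ⟨tr, ?_, ⟨fun a => ?_, ?_⟩, ?_⟩
  · have d := pb.deg T tr
    have e : ∀ P : Place k C.κ, max (P.ord T) 0 = (ex (j 1 (-0)) Ξ' P : ℤ) := fun P => by
      have := (key 0 P).1
      rwa [map_zero, sub_zero] at this
    rw [finsum_congr e] at d
    have d2 := (Nat.castAddMonoidHom ℤ).map_finsum (ef _ _ (n1 0))
    simp only [Nat.coe_castAddMonoidHom] at d2
    rw [← js _ _ (n1 0), ← Nat.cast_injective (R := ℤ) (d2.trans d)]
  · have e : {P : Place k C.κ | 0 < P.ord (T - algebraMap k C.κ a)} =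
        Function.support (ex (j 1 (-a)) Ξ') := Set.ext fun P => pos a P
    rw [e]
    exact mo _ _ (n1 a)
  · have e : {P : Place k C.κ | P.ord T < 0} = Function.support (ex (j 0 1) Ξ') :=
      Set.ext fun P => by
        have := (key 0 P).2
        rw [map_zero, sub_zero] at this
        change P.ord T < 0 ↔ ex (j 0 1) Ξ' P ≠ 0
        omega
    rw [e]
    exact mo _ _ n2
  · refine ⟨Ξ.image fun x => Classical.epsilon fun t : k => 2 ≤ J x W (mb h₁ h₂ 1 (-t)),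
      Finset.card_image_le, fun t ht q R hq hR => ?_⟩
    have one : ∀ P ∈ Ξ', j 1 (-t) P = 1 := fun P hP => by
      refine le_antisymm ?_ (j1 _ _ (n1 t) P hP)
      by_contra hn
      have h2 : 2 ≤ J (pt P) W (mb h₁ h₂ 1 (-t)) := not_le.1 hn
      have h3 := Classical.epsilon_spec (p := fun t : k => 2 ≤ J (pt P) W (mb h₁ h₂ 1 (-t))) ⟨t, h2⟩
      refine ht (Finset.mem_image.2 ⟨pt P, (mΞ P).1 hP, ?_⟩)
      generalize Classical.epsilon (fun t : k => 2 ≤ J (pt P) W (mb h₁ h₂ 1 (-t))) = s at h3 ⊢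
      by_contra hs
      have := (indep geo.ja sm pa hW H₁ H₂ gp (a := 1) (b := -t) (a' := 1) (b' := -s)
        (fun h => hs (by linear_combination -h)) (hpt P).1).2
      omega
    have e : {P : Place k C.κ | 0 < P.ord (T - algebraMap k C.κ t) ∧ R P} =
        {P | ex (j 1 (-t)) Ξ' P ≠ 0 ∧ R P} := Set.ext fun P => and_congr_left' (pos t P)
    rw [e, ← js _ _ (n1 t), Nat.add_sub_cancel, split (ef _ _ (n1 t)), mb_t]
    refine ⟨fun h P hP => ?_, fun h => ⟨cop _ _ (n1 t), fun x hx => ?_⟩⟩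
    · obtain ⟨r1, r2⟩ := h.2 _ ((jz _ _ (n1 t) P).1 (ex_sub _ _ hP))
      refine ⟨(hR _ _ (hpt P)).2 r1, ?_⟩
      have : ex (j 1 (-t)) Ξ' P ≤ 1 := (Nat.sub_le _ _).trans r2.le
      omega
    · obtain ⟨P, rfl⟩ := (rng x).1 ((on x).2 hx.1)
      by_cases hP : P ∈ Ξ'
      · exact ⟨hq _ ((mΞ P).1 hP), one P hP⟩
      · have := h P (by rw [ex_out hP]; exact (jz _ _ (n1 t) P).2 hx)
        rw [ex_out hP] at this
        exact ⟨(hR _ _ (hpt P)).1 this.1, this.2⟩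

end Pool.Agent.MP_f3836a_nt.PK
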