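import Pool.Agent.MP_f3836a_nt.PK.SpecC

set_option autoImplicit false

/-! Part D: the symbol, counting over finite fields, the expander step. -/

namespace Pool.Agent.MP_f3836a_nt.PK

open MvPolynomial IntermediateField IsLocalRing

universe u

section
variable {k K : Type u} [Field k] [Field K] [Algebra k K] {N : ℕ} {ξ : Fin (N + 1) → K}

variable (k ξ) in
/-- the tame symbol -/
structure TameA : Prop where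
  ne : ∀ (C : Cv k ξ) (f g : K), f ≠ 0 → g ≠ 0 → C.tame f g ≠ 0
  mulL : ∀ (C : Cv k ξ) (f f' g : K), f ≠ 0 → f' ≠ 0 → g ≠ 0 →
    C.tame (f * f') g = C.tame f g * C.tame f' g
  mulR : ∀ (C : Cv k ξ) (f g g' : K), f ≠ 0 → g ≠ 0 → g' ≠ 0 →
    C.tame f (g * g') = C.tame f g * C.tame f g'
  swap : ∀ (C : Cv k ξ) (f g : K), f ≠ 0 → g ≠ 0 → C.tame f g * C.tame g f = 1
  self : ∀ (C : Cv k ξ) (f : K), f ≠ 0 → C.tame f f ^ 2 = 1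
  unit : ∀ (C : Cv k ξ) (f g : K), f ≠ 0 → g ≠ 0 → C.v f = 0 → C.tame f g = C.res f ^ C.v g
  fin : ∀ f g : K, f ≠ 0 → g ≠ 0 → {C : Cv k ξ | C.tame f g ≠ 1}.Finite

/-- an additive functional killing tame symbols -/
structure Lam (lam : ∀ C : Cv k ξ, C.κ → ℚ) : Prop where
  mul : ∀ C f g, f ≠ 0 → g ≠ 0 → lam C (f * g) = lam C f + lam C g
  tame : ∀ f g : K, f ≠ 0 → g ≠ 0 → ∑ᶠ C : Cv k ξ, lam C (C.tame f g) = 0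

noncomputable def SS (lam : ∀ C : Cv k ξ, C.κ → ℚ) (A B : Pol k N) : ℚ :=
  ∑ᶠ C : Cv k ξ, (C.v (C.lo A) : ℚ) * lam C (C.res (C.lo B))

noncomputable def bb (lam : ∀ C : Cv k ξ, C.κ → ℚ) (A : Pol k N) : ℚ :=
  ∑ᶠ C : Cv k ξ, lam C (C.tame (C.lo A) (ξ C.idx))

noncomputable def ss (lam : ∀ C : Cv k ξ, C.κ → ℚ) (A B : Pol k N) : ℚ :=
  SS lam A B - B.totalDegree * bb lam A

variable (ξ) in
/-- symmetric, additive, shear invariant -/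
structure Sym (s : Pol k N → Pol k N → ℚ) : Prop where
  symm : ∀ A B, Cop ξ A B → s A B = s B A
  mul : ∀ A B B', Cop ξ A B → Cop ξ A B' → s A (B * B') = s A B + s A B'
  shear : ∀ (n : ℕ) (A B B' D : Pol k N), Cop ξ A B → Cop ξ A B' → Form D → B.IsHomogeneous n →
    B'.IsHomogeneous n → (D * A).IsHomogeneous n → aeval ξ (B' - B - D * A) = 0 → s A B' = s A B

/-- on a smooth curve the symbol is given by a function on points -/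
def Rep (s : Pol k N → Pol k N → ℚ) (ψ : Pol k N → Pt k ξ → ℚ) : Prop :=
  ∀ W B, Sm ξ W → Cop ξ W B → s W B = ∑ᶠ x : Pt k ξ, (J x W B : ℚ) * ψ W x

/-- coefficients in the field with `q` elements -/
def Rt (q : ℕ) (A : Pol k N) : Prop := ∀ d, coeff d A ^ q = coeff d A

/-- coordinates in the field with `q` elements -/
def Pt.Rt (q : ℕ) (x : Pt k ξ) : Prop := ∀ j, x.z j ^ q = x.z j

/-- rational forms of degree `n` vanishing on `Ξ` -/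
def VF (q n : ℕ) (Ξ : Set (Pt k ξ)) : Set (Pol k N) :=
  {h | h.IsHomogeneous n ∧ Rt q h ∧ ∀ x ∈ Ξ, eval x.z h = 0}

variable (ξ) in
/-- `h` meets the curve of `W` transversally in rational points -/
def Split (q : ℕ) (W h : Pol k N) : Prop :=
  Cop ξ W h ∧ ∀ x ∈ Zs ξ W h, x.Rt q ∧ J x W h = 1

/-- a Morse pencil with base points `Ξ` -/
structure GoodP (W : Pol k N) (Ξ : Set (Pt k ξ)) (h₁ h₂ : Pol k N) : Prop where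
  cop : ∀ a b : k, (a ≠ 0 ∨ b ≠ 0) → Cop ξ W (C a * h₁ + C b * h₂)
  two : ∀ a b : k, (a ≠ 0 ∨ b ≠ 0) → ∀ x : Pt k ξ, J x W (C a * h₁ + C b * h₂) ≤ 2
  one : ∀ a b : k, (a ≠ 0 ∨ b ≠ 0) → ∀ x y : Pt k ξ, x ∉ Ξ → y ∉ Ξ →
    2 ≤ J x W (C a * h₁ + C b * h₂) → 2 ≤ J y W (C a * h₁ + C b * h₂) → x = y
  base : ∀ x : Pt k ξ, eval x.z W = 0 → eval x.z h₁ = 0 → eval x.z h₂ = 0 → x ∈ Ξ

variable (k ξ) (p : ℕ) (𝒢 : Finset (Pol k N))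

/-- rational forms -/
def VFA : Prop := ∀ e, 1 ≤ e → {x : Pt k ξ | x.Rt (p ^ e)}.Finite ∧
  ∃ S : Finset k, (∀ a, a ∈ S ↔ a ^ p ^ e = a) ∧ S.card = p ^ e ∧
  ∀ (n : ℕ) (Ξ : Finset (Pt k ξ)), (∀ x ∈ Ξ, x.Rt (p ^ e)) → Ξ.card ≤ n →
    (VF (p ^ e) n (Ξ : Set (Pt k ξ))).Finite ∧
    (VF (p ^ e) n (Ξ : Set (Pt k ξ))).ncard * (p ^ e) ^ Ξ.card =
      (VF (p ^ e) n (∅ : Set (Pt k ξ))).ncard ∧
    ∃ (m : ℕ) (B : Fin m → Pol k N), (∀ j, B j ∈ VF (p ^ e) n (Ξ : Set (Pt k ξ))) ∧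
      (∀ h : Pol k N, h.IsHomogeneous n → (∀ x ∈ Ξ, eval x.z h = 0) →
        h ∈ Submodule.span k (Set.range B)) ∧
      Set.BijOn (fun a : Fin m → k => ∑ j, C (a j) * B j) {a | ∀ j, a j ∈ S}
        (VF (p ^ e) n (Ξ : Set (Pt k ξ)))

/-- few rational forms through a rational point are singular -/
def SmCnt : Prop := ∀ n, 2 ≤ n → ∃ c : ℕ, ∀ e, 1 ≤ e → ∀ x : Pt k ξ, x.Rt (p ^ e) →
  {h ∈ VF (p ^ e) n ({x} : Set (Pt k ξ)) | ¬ Sm ξ h}.ncard * p ^ e ≤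
    c * (VF (p ^ e) n ({x} : Set (Pt k ξ))).ncard

/-- few rational pencils are not Morse -/
def GoodCnt : Prop := ∀ w, ∃ c : ℕ, ∀ e, 1 ≤ e → ∀ (W : Pol k N) (C : Cv k ξ), Sm ξ W →
  W.totalDegree = w → W ∈ C.P →
  ∀ Ξ : Finset (Pt k ξ), Ξ.card ≤ 2 → (∀ x ∈ Ξ, x.Rt (p ^ e)) →
  {h : Pol k N × Pol k N | h.1 ∈ VF (p ^ e) 5 (Ξ : Set (Pt k ξ)) ∧
      h.2 ∈ VF (p ^ e) 5 (Ξ : Set (Pt k ξ)) ∧ ¬ GoodP W (Ξ : Set (Pt k ξ)) h.1 h.2}.ncard * p ^ e ≤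
    c * (VF (p ^ e) 5 (Ξ : Set (Pt k ξ))).ncard ^ 2

/-- Frobenius on the function field of a rational smooth curve -/
def SigA : Prop := ∀ e, (∀ G ∈ 𝒢, Rt (p ^ e) G) → ∀ (W : Pol k N) (C : Cv k ξ), Sm ξ W →
  W ∈ C.P → Rt (p ^ e) W → ∃ σ : C.κ ≃+* C.κ,
    (∀ a, σ (algebraMap k C.κ a) = algebraMap k C.κ (a ^ p ^ e)) ∧
    (∀ (n : ℕ) (A B : Pol k N), A.IsHomogeneous n → B.IsHomogeneous n → Rt (p ^ e) A →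
      Rt (p ^ e) B → B ∉ C.P →
      σ (C.res (aeval ξ A / aeval ξ B)) = C.res (aeval ξ A / aeval ξ B)) ∧
    ∀ x P, C.Pl x P → (P.Fix σ ↔ x.Rt (p ^ e))

/-- the function defined by a Morse pencil -/
def Pen1 : Prop := ∀ (W : Pol k N) (C : Cv k ξ), Sm ξ W → W ∈ C.P →
  ∀ (Ξ : Finset (Pt k ξ)) (n : ℕ) (h₁ h₂ : Pol k N), (∀ x ∈ Ξ, eval x.z W = 0) →
  h₁.IsHomogeneous n → h₂.IsHomogeneous n → (∀ x ∈ Ξ, eval x.z h₁ = 0 ∧ eval x.z h₂ = 0) →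
  GoodP W (Ξ : Set (Pt k ξ)) h₁ h₂ →
  Transcendental k (C.res (aeval ξ h₁ / aeval ξ h₂)) ∧
  Module.finrank (adjoin k {C.res (aeval ξ h₁ / aeval ξ h₂)}) C.κ + Ξ.card = n * C.deg ∧
  Morse k (C.res (aeval ξ h₁ / aeval ξ h₂)) (n * C.deg - Ξ.card) ∧
  ∃ T : Finset k, T.card ≤ Ξ.card ∧ ∀ t ∉ T, ∀ (q : ℕ) (R : Place k C.κ → Prop),
    (∀ x ∈ Ξ, x.Rt q) → (∀ x P, C.Pl x P → (R P ↔ x.Rt q)) →
    (Split ξ q W (h₁ - MvPolynomial.C t * h₂) ↔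
      {P : Place k C.κ | 0 < P.ord (C.res (aeval ξ h₁ / aeval ξ h₂) - algebraMap k C.κ t) ∧
        R P}.ncard = n * C.deg - Ξ.card)

/-- split members of a Morse pencil -/
def Pen2 : Prop := ∀ w, ∃ c Q : ℕ, ∀ r, 1 ≤ r → Q ≤ p ^ r → (∀ G ∈ 𝒢, Rt ((p ^ r) ^ 2) G) →
  ∀ (W : Pol k N) (C : Cv k ξ), Sm ξ W → W.totalDegree = w → W ∈ C.P → Rt ((p ^ r) ^ 2) W →
  ∀ Ξ : Finset (Pt k ξ), Ξ.card ≤ 2 → (∀ x ∈ Ξ, x.Rt ((p ^ r) ^ 2) ∧ eval x.z W = 0) →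
  ∀ h₁ ∈ VF ((p ^ r) ^ 2) 5 (Ξ : Set (Pt k ξ)), ∀ h₂ ∈ VF ((p ^ r) ^ 2) 5 (Ξ : Set (Pt k ξ)),
  GoodP W (Ξ : Set (Pt k ξ)) h₁ h₂ →
  |((5 * C.deg - Ξ.card).factorial : ℤ) * ({t : k | t ^ (p ^ r) ^ 2 = t ∧
      Split ξ ((p ^ r) ^ 2) W (h₁ - MvPolynomial.C t * h₂)}.ncard : ℤ) - (p ^ r) ^ 2| ≤ c * p ^ r

/-- number of split forms through given points -/
def Cnt : Prop := ∀ w, ∃ c Q : ℕ, ∀ r, 1 ≤ r → Q ≤ p ^ r → (∀ G ∈ 𝒢, Rt ((p ^ r) ^ 2) G) →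
  ∀ (W : Pol k N) (C : Cv k ξ), Sm ξ W → W.totalDegree = w → W ∈ C.P → Rt ((p ^ r) ^ 2) W →
  ∀ Ξ : Finset (Pt k ξ), Ξ.card ≤ 2 → (∀ x ∈ Ξ, x.Rt ((p ^ r) ^ 2) ∧ eval x.z W = 0) →
  |((5 * C.deg - Ξ.card).factorial : ℤ) * ({h ∈ VF ((p ^ r) ^ 2) 5 (Ξ : Set (Pt k ξ)) |
      Split ξ ((p ^ r) ^ 2) W h}.ncard : ℤ) - (VF ((p ^ r) ^ 2) 5 (Ξ : Set (Pt k ξ))).ncard| *
      p ^ r ≤ c * (VF ((p ^ r) ^ 2) 5 (Ξ : Set (Pt k ξ))).ncard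

/-- rational points on a smooth curve; size of the zero sets -/
def PtsA : Prop := ∀ (W : Pol k N) (C : Cv k ξ), Sm ξ W → W ∈ C.P →
  (∀ e, 1 ≤ e → {x : Pt k ξ | x.Rt (p ^ e) ∧ eval x.z W = 0}.ncard ≤ C.deg * (p ^ e + 1)) ∧
  ∀ (n : ℕ) (h : Pol k N), h.IsHomogeneous n → Cop ξ W h → (Zs ξ W h).ncard ≤ n * C.deg

/-- spectral lower bound on a smooth curve -/
def Spec : Prop := ∀ w κ : ℕ, ∃ (Q : ℕ) (c : ℝ), 0 < c ∧ ∀ r, 1 ≤ r → Q ≤ p ^ r →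
  (∀ G ∈ 𝒢, Rt ((p ^ r) ^ 2) G) → ∀ W : Pol k N, Sm ξ W → W.totalDegree = w →
  Rt ((p ^ r) ^ 2) W → ∀ E : Set (Pol k N),
  (∀ y : Pt k ξ, y.Rt ((p ^ r) ^ 2) → eval y.z W = 0 →
    (E ∩ VF ((p ^ r) ^ 2) 5 ({y} : Set (Pt k ξ))).ncard * ((p ^ r) ^ 2) ^ 2 ≤
      κ * (VF ((p ^ r) ^ 2) 5 (∅ : Set (Pt k ξ))).ncard) →
  ∀ (s : Finset (Pt k ξ)) (A : Finset (Pol k N)) (Z : Pol k N → Finset (Pt k ξ)),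
  (∀ y, y ∈ s ↔ y.Rt ((p ^ r) ^ 2) ∧ eval y.z W = 0) →
  (∀ h, h ∈ A ↔ h ∈ VF ((p ^ r) ^ 2) 5 (∅ : Set (Pt k ξ)) ∧ Split ξ ((p ^ r) ^ 2) W h ∧ h ∉ E) →
  (∀ h ∈ A, ∀ y, y ∈ Z h ↔ y ∈ Zs ξ W h) → ∀ φ : Pt k ξ → ℝ,
  c * (VF ((p ^ r) ^ 2) 5 (∅ : Set (Pt k ξ))).ncard * ∑ y ∈ s, φ y ^ 2 ≤
    ((p : ℝ) ^ r) ^ 2 * ∑ h ∈ A, (∑ y ∈ Z h, φ y) ^ 2

/-- the expander step -/
def St3 : Prop := ∀ (s : Pol k N → Pol k N → ℚ) (ψ : Pol k N → Pt k ξ → ℚ), Sym ξ s → Rep s ψ →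
  ∀ h h' : Pol k N, Sm ξ h → Sm ξ h' → h.IsHomogeneous 5 → h'.IsHomogeneous 5 →
  ∀ x : Pt k ξ, eval x.z h = 0 → eval x.z h' = 0 → ψ h x = ψ h' x

/-- smooth forms of any degree -/
def St3b : Prop := ∀ (s : Pol k N → Pol k N → ℚ) (ψ : Pol k N → Pt k ξ → ℚ), Sym ξ s → Rep s ψ →
  ∃ α : Pt k ξ → ℚ, ∀ W B, Sm ξ W → Cop ξ W B → s W B = ∑ᶠ x : Pt k ξ, (J x W B : ℚ) * α x

/-- all coprime pairs -/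
def St4 : Prop := Nonempty (Pt k ξ) → ∀ (s : Pol k N → Pol k N → ℚ) (α : Pt k ξ → ℚ), Sym ξ s →
  (∀ W B, Sm ξ W → Cop ξ W B → s W B = ∑ᶠ x : Pt k ξ, (J x W B : ℚ) * α x) →
  ∀ A B, Cop ξ A B → s A B = ∑ᶠ x : Pt k ξ, (J x A B : ℚ) * α x

end

/-- quantification over all surfaces over the algebraic closure of a finite field -/
def AllP (Φ : ∀ (k K : Type u) [Field k] [Field K] [Algebra k K] (_ : ℕ) (N : ℕ)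
    (_ : Fin (N + 1) → K) (_ : Finset (Pol k N)), Prop) : Prop :=
  ∀ (k K : Type u) [Field k] [IsAlgClosed k] [Field K] [Algebra k K] (p : ℕ) [Fact p.Prime]
    [CharP k p] (N : ℕ) (ξ : Fin (N + 1) → K) (𝒢 : Finset (Pol k N)),
    (∀ a : k, a ≠ 0 → ∃ n, 0 < n ∧ a ^ n = 1) → Geo k ξ 𝒢 → Φ k K p N ξ 𝒢

def RTame : Prop := AllP.{u} fun k _ _ _ _ _ _ ξ _ => TameA k ξ
def RDual : Prop := AllP.{u} fun k _ _ _ _ _ _ ξ _ => TameA k ξ →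
  ∀ φ : ∀ C : Cv k ξ, C.κ, (∀ C, φ C ≠ 0) → {C | φ C ≠ 1}.Finite →
  (∀ n, 0 < n → ¬ IsBdry k ξ fun C => φ C ^ n) →
  ∃ lam : ∀ C : Cv k ξ, C.κ → ℚ, Lam lam ∧ ∑ᶠ C, lam C (φ C) ≠ 0
def RSym : Prop := AllP.{u} fun k _ _ _ _ _ _ ξ _ => TameA k ξ →
  ∀ lam : ∀ C : Cv k ξ, C.κ → ℚ, Lam lam → Sym ξ (ss lam)
def RRep : Prop := AllP.{u} fun k _ _ _ _ _ N ξ _ =>
  ∀ lam : ∀ C : Cv k ξ, C.κ → ℚ, Lam lam → ∃ ψ : Pol k N → Pt k ξ → ℚ, Rep (ss lam) ψ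
def RLast : Prop := AllP.{u} fun k _ _ _ _ _ _ ξ _ =>
  ∀ (lam : ∀ C : Cv k ξ, C.κ → ℚ) (α : Pt k ξ → ℚ), Lam lam →
  (∀ A B, Cop ξ A B → ss lam A B = ∑ᶠ x : Pt k ξ, (J x A B : ℚ) * α x) →
  ∀ φ : ∀ C : Cv k ξ, C.κ, IsCycle k ξ φ → ∑ᶠ C, lam C (φ C) = 0
def RVFA : Prop := AllP.{u} fun k _ _ _ _ p _ ξ _ => VFA k ξ p
def RSmCnt : Prop := AllP.{u} fun k _ _ _ _ p _ ξ _ => VFA k ξ p → SmCnt k ξ p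
def RGoodCnt : Prop := AllP.{u} fun k _ _ _ _ p _ ξ _ => VFA k ξ p → GoodCnt k ξ p
def RSigA : Prop := AllP.{u} fun k _ _ _ _ p _ ξ 𝒢 => SigA k ξ p 𝒢
def RPen1 : Prop := AllP.{u} fun k _ _ _ _ _ _ ξ _ => Pen1 k ξ
def RPen2 : Prop := AllP.{u} fun k _ _ _ _ p _ ξ 𝒢 =>
  VFA k ξ p → SigA k ξ p 𝒢 → Pen1 k ξ → Pen2 k ξ p 𝒢
def RCnt : Prop := AllP.{u} fun k _ _ _ _ p _ ξ 𝒢 =>
  VFA k ξ p → GoodCnt k ξ p → Pen2 k ξ p 𝒢 → Cnt k ξ p 𝒢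
def RPts : Prop := AllP.{u} fun k _ _ _ _ p _ ξ _ => VFA k ξ p → PtsA k ξ p
def RSpec : Prop := AllP.{u} fun k _ _ _ _ p _ ξ 𝒢 =>
  VFA k ξ p → PtsA k ξ p → Cnt k ξ p 𝒢 → Spec k ξ p 𝒢
def RSt3 : Prop := AllP.{u} fun k _ _ _ _ p _ ξ 𝒢 =>
  VFA k ξ p → PtsA k ξ p → SmCnt k ξ p → Spec k ξ p 𝒢 → St3 k ξ
def RSt3b : Prop := AllP.{u} fun k _ _ _ _ p _ ξ 𝒢 =>
  VFA k ξ p → SmCnt k ξ p → Spec k ξ p 𝒢 → St3 k ξ → St3b k ξ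
def RSt4 : Prop := AllP.{u} fun k _ _ _ _ _ _ ξ _ => Ex4a k ξ → Ex4b k ξ → St4 k ξ

end Pool.Agent.MP_f3836a_nt.PK
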