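import Pool.Agent.MP_f3836a_nt.PK.SpecA

set_option autoImplicit false

/-! The order of vanishing along a subring. -/

namespace Pool.Agent.MP_f3836a_nt.PK

universe u

namespace Ord

variable {L : Type u} [Field L] {R : Subring L}

/-- The order of an element of the ring as an integer. -/
noncomputable def o (a : R) : ℤ := (Ring.ord R a).toNat

section
variable [IsNoetherianRing R] [Ring.KrullDimLE 1 R]

theorem fin {a : R} (ha : a ≠ 0) : Ring.ord R a ≠ ⊤ :=
  Ring.ord_ne_top (mem_nonZeroDivisors_of_ne_zero ha)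

theorem o_mul {a b : R} (ha : a ≠ 0) (hb : b ≠ 0) : o (a * b) = o a + o b := by
  rw [o, Ring.ord_mul R (mem_nonZeroDivisors_of_ne_zero hb), ENat.toNat_add (fin ha) (fin hb)]
  simp [o]

omit [IsNoetherianRing R] [Ring.KrullDimLE 1 R] in
theorem num_ne {f : L} {a b : R} (hf : f ≠ 0) (hb : b ≠ 0) (e : f * b = a) : a ≠ 0 := by
  rintro rfl
  exact mul_ne_zero hf (fun h => hb (Subtype.ext h)) e

theorem rep {f : L} {a b : R} (hf : f ≠ 0) (hb : b ≠ 0) (e : f * b = a) :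
    ordR R f = o a - o b := by
  have h : f ≠ 0 ∧ ∃ ab : R × R, ab.2 ≠ 0 ∧ f * ab.2 = ab.1 := ⟨hf, (a, b), hb, e⟩
  rw [ordR, dif_pos h]
  obtain ⟨h1, h2⟩ := h.2.choose_spec
  set a' := h.2.choose.1
  set b' := h.2.choose.2
  have e' : a' * b = a * b' := Subtype.ext (by
    rw [Subring.coe_mul, Subring.coe_mul, ← e, ← h2]; ring)
  have := congrArg o e'
  rw [o_mul (num_ne hf h1 h2) hb, o_mul (num_ne hf hb e) h1] at this
  change o a' - o b' = _
  linarith

theorem coe {a : R} (ha : a ≠ 0) : ordR R (a : L) = o a := by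
  rw [rep (f := (a : L)) (a := a) (b := 1) (fun h => ha (Subtype.ext h)) one_ne_zero (by simp)]
  simp [o]

theorem mul (h : ∀ f : L, ∃ a b : R, (b : L) ≠ 0 ∧ f * b = a) (f g : L) (hf : f ≠ 0)
    (hg : g ≠ 0) : ordR R (f * g) = ordR R f + ordR R g := by
  obtain ⟨a, b, hb, e⟩ := h f
  obtain ⟨c, d, hd, e'⟩ := h g
  have hb' : b ≠ 0 := fun h => hb (by simp [h])
  have hd' : d ≠ 0 := fun h => hd (by simp [h])
  rw [rep hf hb' e, rep hg hd' e', rep (a := a * c) (b := b * d) (mul_ne_zero hf hg)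
    (mul_ne_zero hb' hd') (by rw [Subring.coe_mul, Subring.coe_mul, ← e, ← e']; ring),
    o_mul (num_ne hf hb' e) (num_ne hg hd' e'), o_mul hb' hd']
  ring

theorem o_le {a b : R} (ha : a ≠ 0) (hb : b ≠ 0) : o a ≤ o b ↔ Ring.ord R a ≤ Ring.ord R b := by
  rw [o, o, Nat.cast_le, ← ENat.natCast_le_natCast, ENat.natCast_toNat (fin ha),
    ENat.natCast_toNat (fin hb)]

theorem o_zero {a : R} (ha : a ≠ 0) : o a = 0 ↔ IsUnit a := by
  rw [o, Nat.cast_eq_zero, ENat.toNat_eq_zero, or_iff_left (fin ha), Ring.ord,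
    Module.length_eq_zero_iff, Ideal.Quotient.subsingleton_iff, Ideal.span_singleton_eq_top]

end

theorem o_nonneg (a : R) : 0 ≤ o a := Nat.cast_nonneg _

section
variable [IsDiscreteValuationRing R]

theorem o_dvd {a b : R} (ha : a ≠ 0) (hb : b ≠ 0) : o a ≤ o b ↔ a ∣ b := by
  rw [o_le ha hb, Ring.ord_eq_addVal, Ring.ord_eq_addVal,
    IsDiscreteValuationRing.addVal_le_iff_dvd]

theorem o_pow {p : R} (hp : Irreducible p) (j : ℕ) : o (p ^ j) = j := by
  rw [o, Ring.ord_eq_addVal, hp.addVal_pow]; simp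

theorem mem_pow (a : R) (j : ℕ) (ha : a ≠ 0) :
    a ∈ IsLocalRing.maximalIdeal R ^ j ↔ (j : ℤ) ≤ ordR R (a : L) := by
  obtain ⟨p, hp⟩ := IsDiscreteValuationRing.exists_irreducible R
  rw [coe ha, hp.maximalIdeal_eq, Ideal.span_singleton_pow, Ideal.mem_span_singleton,
    ← o_dvd (pow_ne_zero j hp.ne_zero) ha, o_pow hp]

theorem mem (h : ∀ f : L, ∃ a b : R, (b : L) ≠ 0 ∧ f * b = a) (f : L) (hf : f ≠ 0) :
    f ∈ R ↔ 0 ≤ ordR R f := by
  constructor
  · intro hR
    have := coe (a := (⟨f, hR⟩ : R)) fun h => hf (congrArg Subtype.val h)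
    exact this ▸ o_nonneg _
  · intro h0
    obtain ⟨a, b, hb, e⟩ := h f
    have hb' : b ≠ 0 := fun h => hb (by simp [h])
    rw [rep hf hb' e, sub_nonneg, o_dvd hb' (num_ne hf hb' e)] at h0
    obtain ⟨c, rfl⟩ := h0
    rw [Subring.coe_mul, mul_comm f] at e
    rw [mul_left_cancel₀ hb e]
    exact c.2

theorem add (h : ∀ f : L, ∃ a b : R, (b : L) ≠ 0 ∧ f * b = a) (f g : L) (hf : f ≠ 0)
    (hg : g ≠ 0) (hfg : f + g ≠ 0) (hle : ordR R f ≤ ordR R g) : ordR R f ≤ ordR R (f + g) := by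
  have h1 := mul h (g / f) f (div_ne_zero hg hf) hf
  have h2 := mul h ((f + g) / f) f (div_ne_zero hfg hf) hf
  rw [div_mul_cancel₀ _ hf] at h1 h2
  have h3 : g / f ∈ R := (mem h _ (div_ne_zero hg hf)).2 (by linarith)
  have h4 : (f + g) / f ∈ R := by
    rw [add_div, div_self hf]; exact R.add_mem R.one_mem h3
  have := (mem h _ (div_ne_zero hfg hf)).1 h4
  linarith

end

end Ord

theorem rOrd : ROrd.{u} := by
  intro L _ R _ _ h
  exact ⟨Ord.mul h, fun a ha => ⟨Ord.fin ha, Ord.coe ha⟩,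
    fun a ha => by rw [Ord.coe ha, Ord.o_zero ha]⟩

theorem rOrdD : ROrdD.{u} := by
  intro L _ R _ h
  refine ⟨Ord.mul h, Ord.mem h, fun a ha => ?_, fun f g hf hg hfg => ?_, fun a ha => ?_,
    Ord.mem_pow⟩
  · have := Ord.mem_pow a 1 ha
    rw [pow_one] at this
    rw [this]; norm_num; omega
  · rcases le_total (ordR R f) (ordR R g) with hle | hle
    · exact (min_le_left _ _).trans (Ord.add h f g hf hg hfg hle)
    · rw [add_comm] at hfg ⊢
      exact (min_le_right _ _).trans (Ord.add h g f hg hf hfg hle)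
  · rw [Ord.coe ha.ne_zero]
    simpa using Ord.o_pow ha 1

end Pool.Agent.MP_f3836a_nt.PK
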