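import Pool.Agent.MP_f3836a_nt.PK.SpecA

set_option autoImplicit false

/-! Chebotarev upstairs, part A: values at places and the spaces spanned by monomials. -/

namespace Pool.Agent.MP_f3836a_nt.PK

namespace Cheb0

open IntermediateField

universe u

variable {k L : Type u} [Field k] [Field L] [Algebra k L] {n : ℕ}

section val

variable (A : PlA k L) (P : Place k L)
include A

theorem ord_one : P.ord 1 = 0 := by simpa using A.con P 1

theorem ord_inv {f : L} (hf : f ≠ 0) : P.ord f⁻¹ = -P.ord f := by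
  have := A.mul P f f⁻¹ hf (inv_ne_zero hf)
  rw [mul_inv_cancel₀ hf, ord_one A] at this
  omega

theorem ord_pow {f : L} (hf : f ≠ 0) (m : ℕ) : P.ord (f ^ m) = m * P.ord f := by
  induction m with
  | zero => simp [ord_one A]
  | succ m ih =>
    rw [pow_succ, A.mul P _ _ (pow_ne_zero _ hf) hf, ih]
    push_cast
    ring

theorem val_con (a : k) : P.val (algebraMap k L a) = a := by
  obtain ⟨_, _, h⟩ := A.hom P
  exact h a

theorem val_one : P.val (1 : L) = 1 := by simpa using val_con A P 1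

theorem val_mul {f g : L} (hf : f ∈ P.V) (hg : g ∈ P.V) : P.val (f * g) = P.val f * P.val g := by
  obtain ⟨χ, h, _⟩ := A.hom P
  have := map_mul χ ⟨f, hf⟩ ⟨g, hg⟩
  rwa [h, h, h] at this

theorem val_sub {f g : L} (hf : f ∈ P.V) (hg : g ∈ P.V) : P.val (f - g) = P.val f - P.val g := by
  obtain ⟨χ, h, _⟩ := A.hom P
  have := map_sub χ ⟨f, hf⟩ ⟨g, hg⟩
  rwa [h, h, h] at this

theorem val_pow {f : L} (hf : f ∈ P.V) (m : ℕ) : P.val (f ^ m) = P.val f ^ m := by
  induction m with
  | zero => simp [val_one A]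
  | succ m ih => rw [pow_succ, val_mul A P (pow_mem hf _) hf, ih, pow_succ]

theorem val_prod {ι : Type} (s : Finset ι) {f : ι → L} (hf : ∀ i, f i ∈ P.V) :
    P.val (∏ i ∈ s, f i) = ∏ i ∈ s, P.val (f i) := by
  classical
  induction s using Finset.induction_on with
  | empty => simp [val_one A]
  | insert a s ha ih =>
    rw [Finset.prod_insert ha, Finset.prod_insert ha,
      val_mul A P (hf a) (prod_mem fun i _ => hf i), ih]

theorem pos_of_val {f : L} (hf : f ∈ P.V) (h0 : f ≠ 0) (h : P.val f = 0) : 0 < P.ord f := by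
  have := (A.val P f hf 0).2 h
  rw [map_zero, sub_zero] at this
  exact this.resolve_left h0

theorem over_iff {T : L} (hT : Transcendental k T) (t : k) :
    0 < P.ord (T - algebraMap k L t) ↔ T ∈ P.V ∧ P.val T = t := by
  have h0 : T - algebraMap k L t ≠ 0 := fun h =>
    hT (by rw [sub_eq_zero.1 h]; exact isAlgebraic_algebraMap t)
  constructor
  · intro h
    have hm : T ∈ P.V := by
      have := add_mem ((A.mem P _ h0).2 h.le) (P.const t)
      rwa [sub_add_cancel] at this
    exact ⟨hm, (A.val P T hm t).1 (Or.inr h)⟩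
  · rintro ⟨hm, h⟩
    exact ((A.val P T hm t).2 h).resolve_left h0

theorem val_map (σ : L ≃+* L) (φ : k → k)
    (hσ : ∀ a, σ (algebraMap k L a) = algebraMap k L (φ a)) (Q : Place k L)
    (h : ∀ f, f ∈ Q.V ↔ σ f ∈ P.V) {f : L} (hf : f ∈ Q.V) : P.val (σ f) = φ (Q.val f) := by
  have h1 := (A.val Q f hf _).2 rfl
  rw [← A.val P _ ((h f).1 hf), ← hσ, ← map_sub, A.zero, ValuationSubring.mem_nonunits_iff_or,
    ← map_inv₀, ← h, map_eq_zero_iff σ σ.injective, ← ValuationSubring.mem_nonunits_iff_or,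
    ← A.zero]
  exact h1

end val

theorem ex_comap (P : Place k L) (σ : L ≃+* L) (hσ : ∀ a, σ (algebraMap k L a) ∈ P.V) :
    ∃ Q : Place k L, ∀ f, f ∈ Q.V ↔ σ f ∈ P.V := by
  refine ⟨⟨P.V.comap (σ : L →+* L), fun h => P.ne ?_, hσ⟩, fun f => Iff.rfl⟩
  refine top_unique fun x _ => ?_
  have : σ.symm x ∈ P.V.comap (σ : L →+* L) := by rw [h]; trivial
  simpa using this

/-- monomials -/
def mon (T : L) (y : Fin n → L) (b : ℕ) (a : Fin n → ℕ) : L := T ^ b * ∏ i, y i ^ a i

variable (k) in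
/-- the span of the monomials of weight at most `m` -/
def RR (T : L) (y : Fin n → L) (D m : ℕ) : Submodule k L :=
  Submodule.span k {w | ∃ b a, b + D * ∑ i, a i ≤ m ∧ w = mon T y b a}

variable {T : L} {y : Fin n → L} {D : ℕ}

theorem mon_mem {m b : ℕ} {a : Fin n → ℕ} (h : b + D * ∑ i, a i ≤ m) :
    mon T y b a ∈ RR k T y D m := Submodule.subset_span ⟨b, a, h, rfl⟩

theorem RR_mono (a b : ℕ) (h : a ≤ b) : RR k T y D a ≤ RR k T y D b :=
  Submodule.span_mono fun _ ⟨b', a', h1, h2⟩ => ⟨b', a', h1.trans h, h2⟩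

theorem RR_one : (1 : L) ∈ RR k T y D 0 := by
  simpa [mon] using mon_mem (k := k) (T := T) (y := y) (D := D) (m := 0) (b := 0) (a := 0) (by simp)

theorem RR_T : T ∈ RR k T y D 1 := by
  simpa [mon] using mon_mem (k := k) (T := T) (y := y) (D := D) (m := 1) (b := 1) (a := 0) (by simp)

theorem RR_y (i : Fin n) : y i ∈ RR k T y D D := by
  have := mon_mem (k := k) (T := T) (y := y) (D := D) (m := D) (b := 0) (a := Pi.single i 1)
    (by simp)
  rwa [mon, pow_zero, one_mul, Finset.prod_eq_single i (fun j _ hj => by simp [hj]) (by simp),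
    Pi.single_eq_same, pow_one] at this

theorem RR_mul (a b : ℕ) (f : L) (hf : f ∈ RR k T y D a) (g : L) (hg : g ∈ RR k T y D b) :
    f * g ∈ RR k T y D (a + b) := by
  have := Submodule.mul_mem_mul hf hg
  rw [RR, RR, Submodule.span_mul_span] at this
  refine Submodule.span_le.2 ?_ this
  rintro _ ⟨_, ⟨b1, a1, h1, rfl⟩, _, ⟨b2, a2, h2, rfl⟩, rfl⟩
  have e : mon T y b1 a1 * mon T y b2 a2 = mon T y (b1 + b2) (a1 + a2) := by
    simp only [mon, Pi.add_apply, pow_add, Finset.prod_mul_distrib]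
    ring
  simp only [e]
  refine mon_mem ?_
  simp only [Pi.add_apply, Finset.sum_add_distrib, mul_add]
  omega

theorem span_V (P : Place k L) (v : L) {m : ℕ}
    (h : ∀ b a, b + D * ∑ i, a i ≤ m → mon T y b a * v ∈ P.V) {f : L} (hf : f ∈ RR k T y D m) :
    f * v ∈ P.V := by
  induction hf using Submodule.span_induction with
  | mem w hw =>
    obtain ⟨b, a, h1, rfl⟩ := hw
    exact h b a h1
  | zero => simp
  | add f g _ _ a b =>
    rw [add_mul]
    exact add_mem a b
  | smul c f _ a =>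
    rw [Algebra.smul_def, mul_assoc]
    exact mul_mem (P.const c) a

theorem RR_reg (hy : ∀ (P : Place k L) i, T ∈ P.V → y i ∈ P.V) (P : Place k L) (hP : T ∈ P.V)
    {m : ℕ} {f : L} (hf : f ∈ RR k T y D m) : f ∈ P.V := by
  have := span_V P 1 (fun b a _ => by
    rw [mul_one]
    exact mul_mem (pow_mem hP _) (prod_mem fun i _ => pow_mem (hy P i hP) _)) hf
  rwa [mul_one] at this

theorem RR_pole (A : PlA k L) (h0 : T ≠ 0)
    (hD : ∀ (P : Place k L) i, P.ord T < 0 → y i ≠ 0 → D * P.ord T ≤ P.ord (y i))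
    (P : Place k L) (hP : P.ord T < 0) {m : ℕ} {f : L} (hf : f ∈ RR k T y D m) :
    f * T⁻¹ ^ m ∈ P.V := by
  have h1 : T⁻¹ ∈ P.V := (A.mem P _ (inv_ne_zero h0)).2 (by rw [ord_inv A P h0]; omega)
  have h2 : ∀ i, y i * T⁻¹ ^ D ∈ P.V := fun i => by
    by_cases hi : y i = 0
    · simp [hi]
    · have hp := pow_ne_zero D (inv_ne_zero h0)
      refine (A.mem P _ (mul_ne_zero hi hp)).2 ?_
      rw [A.mul P _ _ hi hp, ord_pow A P (inv_ne_zero h0), ord_inv A P h0]
      have := hD P i hP hi
      linarith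
  refine span_V P _ (fun b a h => ?_) hf
  obtain ⟨c, rfl⟩ := Nat.exists_eq_add_of_le h
  have e : mon T y b a * T⁻¹ ^ (b + D * ∑ i, a i + c) =
      (∏ i, (y i * T⁻¹ ^ D) ^ a i) * T⁻¹ ^ c := by
    simp only [mon, mul_pow, Finset.prod_mul_distrib, Finset.prod_pow_eq_pow_sum, pow_add, pow_mul]
    have : T ^ b * T⁻¹ ^ b = 1 := by rw [← mul_pow, mul_inv_cancel₀ h0, one_pow]
    linear_combination ((∏ i, y i ^ a i) * (T⁻¹ ^ D) ^ (∑ i, a i) * T⁻¹ ^ c) * this
  rw [e]
  exact mul_mem (prod_mem fun i _ => pow_mem (h2 i) _) (pow_mem h1 _)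

theorem adjoin_inv (T : L) : adjoin k {T⁻¹} = adjoin k {T} := by
  refine le_antisymm (adjoin_simple_le_iff.2 (inv_mem (mem_adjoin_simple_self k T)))
    (adjoin_simple_le_iff.2 ?_)
  simpa using inv_mem (mem_adjoin_simple_self k T⁻¹)

/-- the divisor `m (T)_∞` -/
theorem ex_div (A : PlA k L) (B : PlB k L) (hT : Transcendental k T)
    (hy : ∀ (P : Place k L) i, T ∈ P.V → y i ∈ P.V)
    (hD : ∀ (P : Place k L) i, P.ord T < 0 → y i ≠ 0 → D * P.ord T ≤ P.ord (y i)) (m : ℕ) :
    ∃ E : Place k L →₀ ℤ, (∀ P, 0 ≤ E P) ∧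
      ∑ᶠ P, E P = ((Module.finrank (adjoin k {T}) L * m : ℕ) : ℤ) ∧
      ∀ f ∈ RR k T y D m, f ≠ 0 → ∀ P, -E P ≤ P.ord f := by
  have h0 : T ≠ 0 := fun h => hT (h ▸ isAlgebraic_zero)
  have fs : (Function.support fun P : Place k L => max (P.ord T⁻¹) 0).Finite :=
    (B.fin T⁻¹).subset fun P hP h => hP (by simp [h])
  have fs' : (Function.support fun P : Place k L => (m : ℤ) * max (P.ord T⁻¹) 0).Finite :=
    fs.subset fun P hP h => hP (by simp only [h, mul_zero])
  refine ⟨Finsupp.ofSupportFinite _ fs', fun P => ?_, ?_, fun f hf hf0 P => ?_⟩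
  · rw [Finsupp.ofSupportFinite_coe]
    positivity
  · rw [Finsupp.ofSupportFinite_coe, ← mul_finsum,
      B.deg T⁻¹ fun h => hT (IsAlgebraic.inv_iff.1 h), adjoin_inv]
    push_cast
    ring
  · rw [Finsupp.ofSupportFinite_coe]
    rcases le_or_gt 0 (P.ord T) with h | h
    · have := (A.mem P f hf0).1 (RR_reg hy P ((A.mem P T h0).2 h) hf)
      have : 0 ≤ (m : ℤ) * max (P.ord T⁻¹) 0 := by positivity
      linarith
    · have hp := pow_ne_zero m (inv_ne_zero h0)
      have := (A.mem P _ (mul_ne_zero hf0 hp)).1 (RR_pole A h0 hD P h hf)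
      rw [A.mul P _ _ hf0 hp, ord_pow A P (inv_ne_zero h0)] at this
      have : (m : ℤ) * P.ord T⁻¹ ≤ m * max (P.ord T⁻¹) 0 :=
        mul_le_mul_of_nonneg_left (le_max_left _ _) (by positivity)
      linarith

theorem sum_le (B : PlB k L) {E : Place k L →₀ ℤ} {f : L} (h : ∀ P, -E P ≤ P.ord f)
    (S : Finset (Place k L)) : ∑ P ∈ S, (P.ord f + E P) ≤ ∑ᶠ P, E P := by
  classical
  have f1 : (Function.support fun P : Place k L => P.ord f).Finite := B.fin f
  have f2 : (Function.support fun P : Place k L => E P).Finite := E.hasFiniteSupport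
  have e := finsum_add_distrib f1 f2
  rw [B.sum f, zero_add] at e
  rw [← e, finsum_eq_sum_of_support_subset (s := S ∪ (f1.toFinset ∪ f2.toFinset))]
  · exact Finset.sum_le_sum_of_subset_of_nonneg Finset.subset_union_left fun P _ _ => by
      linarith [h P]
  · intro P hP
    have := Function.support_add _ _ hP
    simp only [Finset.coe_union, Set.Finite.coe_toFinset]
    exact Or.inr this

theorem zeros_le (B : PlB k L) {E : Place k L →₀ ℤ} (hE : ∀ P, 0 ≤ E P) {f : L}
    (h : ∀ P, -E P ≤ P.ord f) {M : ℕ} (hM : ∑ᶠ P, E P = M) :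
    ({P : Place k L | 0 < P.ord f}.Finite ∧ {P : Place k L | 0 < P.ord f}.ncard ≤ M) ∧
      ∀ P : Place k L, P.ord f ≤ M := by
  have fz : {P : Place k L | 0 < P.ord f}.Finite := (B.fin f).subset fun P hP => ne_of_gt hP
  refine ⟨⟨fz, ?_⟩, fun P => ?_⟩
  · have h1 := sum_le B h fz.toFinset
    have h2 := Finset.card_nsmul_le_sum fz.toFinset (fun P => P.ord f + E P) 1 fun P hP => by
      have : 0 < P.ord f := by simpa using hP
      linarith [hE P]
    rw [Set.ncard_eq_toFinset_card _ fz]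
    rw [hM] at h1
    simp only [nsmul_eq_mul, mul_one] at h2
    exact_mod_cast h2.trans h1
  · have h1 := sum_le B h {P}
    rw [Finset.sum_singleton, hM] at h1
    linarith [hE P]

theorem prod_mem_prod {E : Type u} [Field E] [Algebra E L] {ι : Type} (s : Finset ι) {x : ι → L}
    {M : ι → Submodule E L} (h : ∀ i, x i ∈ M i) : ∏ i ∈ s, x i ∈ ∏ i ∈ s, M i := by
  classical
  induction s using Finset.induction_on with
  | empty => simp
  | insert a s ha ih =>
    rw [Finset.prod_insert ha, Finset.prod_insert ha]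
    exact Submodule.mul_mem_mul (h a) ih

theorem span_top [FiniteDimensional (adjoin k {T}) L]
    (hg : adjoin k (insert T (Set.range y)) = ⊤) :
    Submodule.span (adjoin k {T}) {w : L | ∃ a : Fin n → ℕ,
      (∀ i, a i ≤ Module.finrank (adjoin k {T}) L) ∧ w = ∏ i, y i ^ a i} = ⊤ := by
  set E := adjoin k {T} with hE
  have h1 : adjoin E (Set.range y) = ⊤ := by
    apply restrictScalars_injective k
    rw [hE, adjoin_adjoin_left, Set.singleton_union, hg, restrictScalars_top]
  have h2 : Algebra.adjoin E (Set.range y) = ⊤ := by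
    rw [← adjoin_toSubalgebra_of_isAlgebraic fun x _ => Algebra.IsAlgebraic.isAlgebraic x, h1,
      top_toSubalgebra]
  have h3 := Algebra.adjoin_eq_span E (Set.range y)
  rw [h2, Algebra.top_toSubmodule] at h3
  refine top_unique (h3.le.trans (Submodule.span_le.2 fun x hx => ?_))
  obtain ⟨a, rfl⟩ := Submonoid.mem_closure_range_iff_of_fintype.1 hx
  have h4 : (∏ i, y i ^ a i) ∈ ∏ i, Submodule.span E
      (Set.range fun j : Fin (minpoly E (y i)).natDegree => y i ^ (j : ℕ)) := by
    refine prod_mem_prod _ fun i => IsIntegral.mem_span_pow (Algebra.IsIntegral.isIntegral _)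
      ⟨Polynomial.X ^ a i, by simp⟩
  rw [Submodule.prod_span] at h4
  refine Submodule.span_mono (fun w hw => ?_) h4
  obtain ⟨g, hg, rfl⟩ := (Set.mem_fintype_prod _ _).1 hw
  choose j hj using hg
  refine ⟨fun i => j i, fun i => (j i).2.le.trans (minpoly.natDegree_le _), ?_⟩
  exact Finset.prod_congr rfl fun i _ => (hj i).symm

theorem lower [FiniteDimensional (adjoin k {T}) L] (hT : Transcendental k T)
    (hg : adjoin k (insert T (Set.range y)) = ⊤) {N : ℕ}
    (hN : Module.finrank (adjoin k {T}) L = N) (m : ℕ) [FiniteDimensional k (RR k T y D m)] :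
    N * m ≤ Module.finrank k (RR k T y D m) + N * (D * (n * N)) := by
  obtain ⟨s, h1, h2, h3⟩ := exists_linearIndependent (adjoin k {T}) {w : L | ∃ a : Fin n → ℕ,
      (∀ i, a i ≤ Module.finrank (adjoin k {T}) L) ∧ w = ∏ i, y i ^ a i}
  rw [span_top hg] at h2
  have := h3.finite
  have := Fintype.ofFinite s
  have hc : Fintype.card s = N := by
    rw [← hN, ← finrank_span_eq_card h3, Subtype.range_coe, h2, finrank_top]
  have l0 : LinearIndependent k fun j : ℕ => T ^ j := by
    have := (Polynomial.basisMonomials k).linearIndependent.map'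
      (Polynomial.aeval T).toLinearMap
      (LinearMap.ker_eq_bot.2 (transcendental_iff_injective.1 hT))
    simpa [Function.comp_def] using this
  have l1 : LinearIndependent k fun j : Fin (m - D * (n * N)) =>
      (⟨T, mem_adjoin_simple_self k T⟩ : adjoin k {T}) ^ (j : ℕ) :=
    LinearIndependent.of_comp (adjoin k {T}).val.toLinearMap (l0.comp _ Fin.val_injective)
  have l2 := linearIndependent_smul l1 h3
  have mem : ∀ x : Fin (m - D * (n * N)) × s,
      (⟨T, mem_adjoin_simple_self k T⟩ : adjoin k {T}) ^ (x.1 : ℕ) • (x.2 : L) ∈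
        RR k T y D m := by
    rintro ⟨j, w, hw⟩
    obtain ⟨a, ha, rfl⟩ := h1 hw
    refine mon_mem (b := j) (a := a) ?_
    have h4 : ∑ i, a i ≤ n * N := by
      simpa [hN] using Finset.sum_le_card_nsmul Finset.univ a _ fun i _ => ha i
    have := Nat.mul_le_mul_left D h4
    have := j.2
    omega
  have l3 : LinearIndependent k fun x : Fin (m - D * (n * N)) × s =>
      (⟨_, mem x⟩ : RR k T y D m) := LinearIndependent.of_comp (RR k T y D m).subtype l2
  have h5 := l3.fintype_card_le_finrank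
  rw [Fintype.card_prod, Fintype.card_fin, hc] at h5
  have h6 : m ≤ (m - D * (n * N)) + D * (n * N) := by omega
  have := Nat.mul_le_mul_left N h6
  rw [mul_add, mul_comm N (m - _)] at this
  omega

end Cheb0

end Pool.Agent.MP_f3836a_nt.PK
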