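import Pool.Agent.MP_f3836a_nt.PK.SpecF
import Pool.Agent.MP_f3836a_nt.PK.Cheb0A
import Pool.Agent.MP_f3836a_nt.PK.LE

set_option autoImplicit false

/-! The conductor of an affine ring. -/

namespace Pool.Agent.MP_f3836a_nt.PK

open IntermediateField Module

universe u

namespace FCond

open Cheb0

variable {k L : Type u} [Field k] [Field L] [Algebra k L] {T : L}

variable (k T) in
/-- functions with poles of order at most `m` times those of `T` -/
def WW (m : ℕ) : Submodule k L where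
  carrier := {f | ∀ P : Place k L, (T ∈ P.V → f ∈ P.V) ∧ (T ∉ P.V → f * T⁻¹ ^ m ∈ P.V)}
  zero_mem' := fun P => ⟨fun _ => zero_mem _, fun _ => by simp⟩
  add_mem' := fun {f g} a b P => ⟨fun h => add_mem ((a P).1 h) ((b P).1 h), fun h => by
    rw [add_mul]
    exact add_mem ((a P).2 h) ((b P).2 h)⟩
  smul_mem' := fun c f a P => ⟨fun h => by
    rw [Algebra.smul_def]
    exact mul_mem (P.const c) ((a P).1 h), fun h => by
    rw [Algebra.smul_def, mul_assoc]
    exact mul_mem (P.const c) ((a P).2 h)⟩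

theorem WW_mono {a b : ℕ} (h : a ≤ b) : WW k T a ≤ WW k T b := fun f hf P =>
  ⟨(hf P).1, fun hP => by
    obtain ⟨c, rfl⟩ := Nat.exists_eq_add_of_le h
    rw [pow_add, ← mul_assoc]
    exact mul_mem ((hf P).2 hP) (pow_mem ((P.V.mem_or_inv_mem T).resolve_left hP) _)⟩

theorem mem_WW (A : PlA k L) (h0 : T ≠ 0) {f : L} (hf : f ≠ 0) {m : ℕ} : f ∈ WW k T m ↔
    ∀ P : Place k L, -((m : ℤ) * max (P.ord T⁻¹) 0) ≤ P.ord f := by
  refine forall_congr' fun P => ?_
  have hp := pow_ne_zero m (inv_ne_zero h0)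
  rw [A.mem P _ h0, A.mem P _ hf, A.mem P _ (mul_ne_zero hf hp), A.mul P _ _ hf hp,
    ord_pow A P (inv_ne_zero h0), ord_inv A P h0]
  rcases le_or_gt 0 (P.ord T) with h | h
  · rw [max_eq_right (by omega)]
    simp [h]
  · rw [max_eq_left (by omega)]
    simp only [h.not_ge, false_imp_iff, true_and, not_false_eq_true, forall_const]
    constructor <;> intro <;> linarith

theorem upper [IsAlgClosed k] (F : IsFF k L) (A : PlA k L) (B : PlB k L)
    (hT : Transcendental k T) (m : ℕ) : FiniteDimensional k (WW k T m) ∧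
      finrank k (WW k T m) ≤ finrank (adjoin k {T}) L * m + 1 := by
  have h0 : T ≠ 0 := fun h => hT (h ▸ isAlgebraic_zero)
  have fs : (Function.support fun P : Place k L => (m : ℤ) * max (P.ord T⁻¹) 0).Finite :=
    (B.fin T⁻¹).subset fun P hP h => hP (by simp [h])
  obtain ⟨-, h1, h2⟩ := rLE k L F A B (Finsupp.ofSupportFinite _ fs) (WW k T m) fun f hf h P => by
    rw [Finsupp.ofSupportFinite_coe]
    exact (mem_WW A h0 h).1 hf P
  refine ⟨h1, h2.trans (le_of_eq ?_)⟩
  rw [Finsupp.ofSupportFinite_coe, ← mul_finsum,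
    B.deg T⁻¹ fun h => hT (IsAlgebraic.inv_iff.1 h), adjoin_inv, ← Nat.cast_mul, Int.toNat_natCast,
    mul_comm]

theorem exists_WW (A : PlA k L) (B : PlB k L) (h0 : T ≠ 0) {f : L}
    (hf : ∀ P : Place k L, T ∈ P.V → f ∈ P.V) : ∃ m, f ∈ WW k T m := by
  by_cases h : f = 0
  · exact ⟨0, h ▸ zero_mem _⟩
  obtain ⟨m, hm⟩ := ((B.fin f).image fun P => (P.ord f).natAbs).bddAbove
  refine ⟨m, (mem_WW A h0 h).2 fun P => ?_⟩
  rw [ord_inv A P h0]
  rcases le_or_gt 0 (P.ord T) with k1 | k1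
  · rw [max_eq_right (by omega), mul_zero, neg_zero]
    exact (A.mem P _ h).1 (hf P ((A.mem P _ h0).2 k1))
  · have k2 : (m : ℤ) * 1 ≤ m * max (-P.ord T) 0 :=
      mul_le_mul_of_nonneg_left (by omega) (by positivity)
    by_cases k3 : P.ord f = 0
    · omega
    · have k4 : (P.ord f).natAbs ≤ m := hm ⟨P, k3, rfl⟩
      omega

theorem lower (A : PlA k L) (hT : Transcendental k T) {S : Subalgebra k L} (hS : T ∈ S) {n c : ℕ}
    {y : Fin n → L} (h1 : ∀ l, y l ∈ S) (h2 : LinearIndependent (adjoin k {T}) y)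
    (h3 : ∀ (P : Place k L) l, (T ∈ P.V → y l ∈ P.V) ∧ (P.ord T < 0 → c * P.ord T ≤ P.ord (y l)))
    (j : ℕ) [FiniteDimensional k (WW k T (j + c))] :
    j * n ≤ finrank k ↥(WW k T (j + c) ⊓ Subalgebra.toSubmodule S) := by
  have h0 : T ≠ 0 := fun h => hT (h ▸ isAlgebraic_zero)
  have l0 : LinearIndependent k fun j : ℕ => T ^ j := by
    have := (Polynomial.basisMonomials k).linearIndependent.map'
      (Polynomial.aeval T).toLinearMap
      (LinearMap.ker_eq_bot.2 (transcendental_iff_injective.1 hT))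
    simpa [Function.comp_def] using this
  have l1 : LinearIndependent k fun i : Fin j =>
      (⟨T, mem_adjoin_simple_self k T⟩ : adjoin k {T}) ^ (i : ℕ) :=
    LinearIndependent.of_comp (adjoin k {T}).val.toLinearMap (l0.comp _ Fin.val_injective)
  have l2 := linearIndependent_smul l1 h2
  have mem : ∀ x : Fin j × Fin n,
      (⟨T, mem_adjoin_simple_self k T⟩ : adjoin k {T}) ^ (x.1 : ℕ) • y x.2 ∈
        WW k T (j + c) ⊓ Subalgebra.toSubmodule S := by
    rintro ⟨i, l⟩
    show T ^ (i : ℕ) * y l ∈ _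
    refine ⟨WW_mono (Nat.add_le_add_right i.2.le c) fun P =>
      ⟨fun h => mul_mem (pow_mem h _) ((h3 P l).1 h), fun h => ?_⟩,
      S.mul_mem (pow_mem hS _) (h1 l)⟩
    have e : T ^ (i : ℕ) * y l * T⁻¹ ^ (i + c) = y l * T⁻¹ ^ c := by
      have : T ^ (i : ℕ) * T⁻¹ ^ (i : ℕ) = 1 := by rw [← mul_pow, mul_inv_cancel₀ h0, one_pow]
      rw [pow_add]
      linear_combination (y l * T⁻¹ ^ c) * this
    have hp := pow_ne_zero c (inv_ne_zero h0)
    rw [e, A.mem P _ (mul_ne_zero (h2.ne_zero l) hp), A.mul P _ _ (h2.ne_zero l) hp,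
      ord_pow A P (inv_ne_zero h0), ord_inv A P h0]
    rw [A.mem P _ h0, not_le] at h
    linarith [(h3 P l).2 h]
  have l3 : LinearIndependent k fun x : Fin j × Fin n =>
      (⟨_, mem x⟩ : ↥(WW k T (j + c) ⊓ Subalgebra.toSubmodule S)) :=
    LinearIndependent.of_comp (Submodule.subtype _) l2
  simpa using l3.fintype_card_le_finrank

/-- an increasing sequence of subspaces of bounded codimension is eventually constant modulo `S` -/
theorem stab {V : Type u} [AddCommGroup V] [Module k V] (W : ℕ → Submodule k V)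
    (hW : Monotone W) [∀ m, FiniteDimensional k (W m)] (S : Submodule k V) (N : ℕ)
    (h : ∀ m, ∃ m', m ≤ m' ∧ finrank k (W m') ≤ finrank k ↥(W m' ⊓ S) + N) :
    ∃ m, ∀ m', (W m').map S.mkQ ≤ (W m).map S.mkQ := by
  have b : ∀ m, finrank k ((W m).map S.mkQ) ≤ N := fun m => by
    obtain ⟨m', k1, k2⟩ := h m
    refine (Submodule.finrank_mono (Submodule.map_mono (hW k1))).trans ?_
    have e := LinearMap.finrank_range_add_finrank_ker (S.mkQ.domRestrict (W m'))
    rw [LinearMap.range_domRestrict, LinearMap.ker_domRestrict, Submodule.ker_mkQ,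
      ← Submodule.finrank_map_subtype_eq (W m') (S.comap _), Submodule.map_comap_subtype] at e
    omega
  obtain ⟨_, ⟨m, rfl⟩, hm⟩ := Set.Finite.exists_maximal
    (s := Set.range fun m => finrank k ((W m).map S.mkQ))
    ((Set.finite_Iic N).subset (by rintro _ ⟨m, rfl⟩; exact b m)) (Set.range_nonempty _)
  refine ⟨m, fun m' => ?_⟩
  have k1 : (W m).map S.mkQ ≤ (W (max m m')).map S.mkQ := Submodule.map_mono (hW (le_max_left _ _))
  rw [Submodule.eq_of_le_of_finrank_le k1 (hm ⟨_, rfl⟩ (Submodule.finrank_mono k1))]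
  exact Submodule.map_mono (hW (le_max_right _ _))

end FCond

open FCond in
theorem rCond : RLow.{u} → RCond.{u} := by
  intro H k L _ _ _ _ F A B T S hT hS hq
  obtain ⟨c, y, h1, h2, h3⟩ := H k L A B T S hT hS hq
  have h0 : T ≠ 0 := fun h => hT (h ▸ isAlgebraic_zero)
  have fd : ∀ m, FiniteDimensional k (WW k T m) := fun m => (upper F A B hT m).1
  obtain ⟨m, hm⟩ := stab (WW k T) (fun _ _ => WW_mono) (Subalgebra.toSubmodule S)
    (finrank (adjoin k {T}) L * c + 1) fun m => ⟨m + c, le_self_add, by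
      have k1 := (upper F A B hT (m + c)).2
      have k2 := lower A hT hS h1 h2 h3 m
      rw [mul_add, mul_comm _ m] at k1
      omega⟩
  have key : ∀ f : L, (∀ P : Place k L, T ∈ P.V → f ∈ P.V) →
      (Subalgebra.toSubmodule S).mkQ f ∈ (WW k T m).map (Subalgebra.toSubmodule S).mkQ :=
    fun f hf => by
      obtain ⟨m', k1⟩ := exists_WW A B h0 hf
      exact hm m' ⟨f, k1, rfl⟩
  have one : ∀ f ∈ WW k T m, ∃ h : Polynomial k, h ≠ 0 ∧ Polynomial.aeval T h * f ∈ S :=
    fun f hf => by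
      let ψ : Polynomial k →ₗ[k] L ⧸ Subalgebra.toSubmodule S :=
        (Subalgebra.toSubmodule S).mkQ ∘ₗ LinearMap.mulRight k f ∘ₗ (Polynomial.aeval T).toLinearMap
      have k1 : ∀ h, ψ h ∈ (WW k T m).map (Subalgebra.toSubmodule S).mkQ := fun h =>
        key (Polynomial.aeval T h * f) fun P hP => mul_mem
          (Algebra.adjoin_le (S := { P.V.toSubring with algebraMap_mem' := P.const })
            (Set.singleton_subset_iff.2 hP) (Polynomial.aeval_mem_adjoin_singleton k T))
          ((hf P).1 hP)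
      by_contra hn
      refine Polynomial.not_finite (R := k) (Module.Finite.of_injective (ψ.codRestrict _ k1)
        (LinearMap.ker_eq_bot.1 ?_))
      rw [LinearMap.ker_codRestrict, eq_bot_iff]
      intro h hh
      by_contra k2
      exact hn ⟨h, k2, (Submodule.Quotient.mk_eq_zero _).1 hh⟩
  obtain ⟨s, hs⟩ : (WW k T m).FG := Module.Finite.iff_fg.1 (fd m)
  choose! g g1 g2 using one
  have hs' : ∀ f ∈ s, f ∈ WW k T m := fun f hf => hs ▸ Submodule.subset_span hf
  have pS : ∀ h : Polynomial k, Polynomial.aeval T h ∈ S := fun h =>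
    Algebra.adjoin_le (Set.singleton_subset_iff.2 hS) (Polynomial.aeval_mem_adjoin_singleton k T)
  refine ⟨∏ f ∈ s, g f, Finset.prod_ne_zero_iff.2 fun f hf => g1 f (hs' f hf), fun f hf => ?_⟩
  have k1 : WW k T m ≤ (Subalgebra.toSubmodule S).comap
      (LinearMap.mulLeft k (Polynomial.aeval T (∏ f ∈ s, g f))) := by
    classical
    rw [← hs, Submodule.span_le]
    intro u hu
    show Polynomial.aeval T (∏ f ∈ s, g f) * u ∈ S
    rw [← Finset.prod_erase_mul s g hu, map_mul, mul_assoc]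
    exact mul_mem (pS _) (g2 u (hs' u hu))
  obtain ⟨u, k2, k3⟩ := key f hf
  have k4 : u - f ∈ S := (Submodule.Quotient.eq _).1 k3
  have k5 := sub_mem (show Polynomial.aeval T (∏ f ∈ s, g f) * u ∈ S from k1 k2)
    (mul_mem (pS (∏ f ∈ s, g f)) k4)
  rwa [← mul_sub, sub_sub_cancel] at k5

end Pool.Agent.MP_f3836a_nt.PK
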