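import Pool.Agent.MP_f3836a_nt.PK.SpecG
import Pool.Agent.MP_f3836a_nt.PK.FCond

set_option autoImplicit false

/-! The inequality of Riemann. -/

namespace Pool.Agent.MP_f3836a_nt.PK

open IntermediateField Module

universe u

namespace ARiem

variable {k L : Type u} [Field k] [Field L] [Algebra k L]

/-- one more zero costs at most one dimension -/
theorem step (hA : PlA k L) (P : Place k L) (d : ℤ) (W : Submodule k L) [FiniteDimensional k W]
    (h : ∀ f ∈ W, f ≠ 0 → -d ≤ P.ord f) :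
    ∃ W' ≤ W, finrank k W ≤ finrank k W' + 1 ∧ ∀ f ∈ W', f ≠ 0 → -d < P.ord f := by
  obtain ⟨w, hw, ew⟩ := LE.exists_ord hA P d
  obtain ⟨χ, hχ, hc⟩ := hA.hom P
  have hm : ∀ f : W, (f : L) * w ∈ P.V := fun f => by
    by_cases h0 : (f : L) = 0
    · rw [h0, zero_mul]
      exact zero_mem _
    · rw [hA.mem P _ (mul_ne_zero h0 hw), hA.mul P _ _ h0 hw, ew]
      have := h f f.2 h0
      omega
  let l : W →ₗ[k] k :=
    { toFun := fun f => χ ⟨f * w, hm f⟩
      map_add' := fun f g => by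
        rw [← map_add]
        exact congrArg χ (Subtype.ext (add_mul _ _ _))
      map_smul' := fun a f => by
        have e : χ ⟨algebraMap k L a, P.const a⟩ = a := (hχ _).trans (hc a)
        rw [RingHom.id_apply, smul_eq_mul]
        refine Eq.trans ?_ ((map_mul χ ⟨algebraMap k L a, P.const a⟩ ⟨f * w, hm f⟩).trans
          (by rw [e]))
        refine congrArg χ (Subtype.ext ?_)
        change ((a • f : W) : L) * w = algebraMap k L a * (f * w)
        rw [Submodule.coe_smul, Algebra.smul_def, mul_assoc] }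
  refine ⟨(LinearMap.ker l).map W.subtype, Submodule.map_subtype_le _ _, ?_, ?_⟩
  · have h1 := l.finrank_range_add_finrank_ker
    have h2 := (LinearMap.range l).finrank_le
    rw [finrank_self] at h2
    rw [Submodule.finrank_map_subtype_eq]
    omega
  · rintro _ ⟨f, hf, rfl⟩ h0
    have h2 : P.val ((f : L) * w) = 0 := (hχ ⟨f * w, hm f⟩).symm.trans hf
    have h3 := (hA.val P _ (hm f) 0).2 h2
    rw [map_zero, sub_zero] at h3
    rcases h3 with h3 | h3
    · exact absurd h3 (mul_ne_zero h0 hw)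
    · rw [hA.mul P (f : L) w h0 hw, ew] at h3
      change _ < P.ord (f : L)
      omega

theorem down (hA : PlA k L) (E : Place k L →₀ ℤ) (n : ℕ) :
    ∀ (D : Place k L →₀ ℤ) (W : Submodule k L) [FiniteDimensional k W], (∀ P, E P ≤ D P) →
      (∀ f ∈ W, f ≠ 0 → ∀ P, -D P ≤ P.ord f) → ∑ᶠ P, D P < ∑ᶠ P, E P + n → n ≤ finrank k W →
      ∃ f : L, f ≠ 0 ∧ ∀ P, -E P ≤ P.ord f := by
  classical
  induction n with
  | zero =>
    intro D W _ h1 _ h3 _
    have := finsum_le_finsum' E.hasFiniteSupport D.hasFiniteSupport h1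
    omega
  | succ n ih =>
    intro D W _ h1 h2 h3 h4
    by_cases h : ∀ P, D P ≤ E P
    · obtain ⟨f, hf, h0⟩ := W.exists_mem_ne_zero_of_ne_bot (by
        rintro rfl
        simp at h4)
      exact ⟨f, h0, fun P => (neg_le_neg (h P)).trans (h2 f hf h0 P)⟩
    push Not at h
    obtain ⟨P, hP⟩ := h
    obtain ⟨W', a1, a2, a3⟩ := step hA P (D P) W fun f hf h0 => h2 f hf h0 P
    have := Submodule.finiteDimensional_of_le a1
    have hs : ∑ᶠ Q, (D - Finsupp.single P 1 : Place k L →₀ ℤ) Q = ∑ᶠ Q, D Q - 1 := by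
      simp only [Finsupp.sub_apply]
      rw [finsum_sub_distrib D.hasFiniteSupport (Finsupp.single P (1 : ℤ)).hasFiniteSupport,
        finsum_eq_single _ P fun Q hQ => Finsupp.single_eq_of_ne hQ, Finsupp.single_eq_same]
    refine ih (D - Finsupp.single P 1) W' (fun Q => ?_) (fun f hf h0 Q => ?_) (by omega) (by omega)
    all_goals
      rw [Finsupp.sub_apply]
      by_cases hQ : Q = P
    · rw [hQ, Finsupp.single_eq_same]
      omega
    · rw [Finsupp.single_eq_of_ne hQ, sub_zero]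
      exact h1 Q
    · have := a3 f hf h0
      rw [hQ, Finsupp.single_eq_same]
      omega
    · rw [Finsupp.single_eq_of_ne hQ, sub_zero]
      exact h2 f (a1 hf) h0 Q

/-- a function with prescribed zeros at finite distance -/
theorem zeros (hA : PlA k L) {T : L} (hT : Transcendental k T) (E : Place k L → ℤ)
    (s : Finset (Place k L)) : ∃ h : L, h ≠ 0 ∧ ∀ P : Place k L, T ∈ P.V →
      0 ≤ P.ord h ∧ (P ∈ s → E P ≤ P.ord h) := by
  classical
  induction s using Finset.induction_on with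
  | empty => exact ⟨1, one_ne_zero, fun P _ => ⟨(Cheb0.ord_one hA P).ge, by simp⟩⟩
  | insert Q s _ ih =>
    obtain ⟨h, h0, h1⟩ := ih
    obtain ⟨t, ht⟩ : ∃ t, t = T - algebraMap k L (Q.val T) := ⟨_, rfl⟩
    have t0 : t ≠ 0 := fun e => hT (by
      rw [sub_eq_zero.1 (ht.symm.trans e)]
      exact isAlgebraic_algebraMap _)
    refine ⟨h * t ^ (E Q).toNat, mul_ne_zero h0 (pow_ne_zero _ t0), fun P hP => ?_⟩
    have t1 : 0 ≤ P.ord t := (hA.mem P t t0).1 (ht ▸ sub_mem hP (P.const _))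
    have t2 := mul_nonneg (Int.natCast_nonneg (E Q).toNat) t1
    obtain ⟨b1, b2⟩ := h1 P hP
    rw [hA.mul P _ _ h0 (pow_ne_zero _ t0), Cheb0.ord_pow hA P t0]
    refine ⟨by omega, fun hm => ?_⟩
    rcases Finset.mem_insert.1 hm with rfl | hm
    · have t3 : 0 < P.ord t := (ht ▸ (hA.val P T hP _).2 rfl : P.Zero t).resolve_left t0
      have t4 := mul_le_mul_of_nonneg_left (show 1 ≤ P.ord t from t3)
        (Int.natCast_nonneg (E P).toNat)
      omega
    · have := b2 hm
      omega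

end ARiem

open ARiem FCond in
theorem rRiem : RLow.{u} → RRiem.{u} := by
  intro H k L _ _ _ _ p _ _ _ F A B
  obtain ⟨T, hT, -⟩ := id F
  obtain ⟨c, y, h1, h2, h3⟩ := H k L A B T ⊤ hT trivial fun f =>
    ⟨f, trivial, 1, trivial, one_ne_zero, mul_one f⟩
  have h0 : T ≠ 0 := fun h => hT (h ▸ isAlgebraic_zero)
  refine ⟨c * finrank (adjoin k {T}) L + 1, fun E hE => ?_⟩
  obtain ⟨h, k0, k1⟩ := zeros A hT E E.support
  let E' : Place k L →₀ ℤ := E - Finsupp.ofSupportFinite (fun P : Place k L => P.ord h) (B.fin h)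
  have e1 : ∀ P, E' P = E P - P.ord h := fun P => rfl
  have e2 : ∑ᶠ P, E' P = ∑ᶠ P, E P := by
    simp only [e1]
    rw [finsum_sub_distrib E.hasFiniteSupport (B.fin h), B.sum, sub_zero]
  obtain ⟨j, hj⟩ := (E'.support.finite_toSet.image fun P => (E' P).toNat).bddAbove
  have fs : (Function.support fun P : Place k L =>
      ((j + c : ℕ) : ℤ) * max (P.ord T⁻¹) 0).Finite :=
    (B.fin T⁻¹).subset fun P hP h => hP (by simp [h])
  have := (upper F A B hT (j + c)).1
  suffices key : ∃ f : L, f ≠ 0 ∧ ∀ P, -E' P ≤ P.ord f by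
    obtain ⟨f, f0, hf⟩ := key
    refine ⟨f * h⁻¹, mul_ne_zero f0 (inv_ne_zero k0), fun P => ?_⟩
    have := hf P
    rw [e1] at this
    rw [A.mul P _ _ f0 (inv_ne_zero k0), Cheb0.ord_inv A P k0]
    omega
  refine down A E' (j * finrank (adjoin k {T}) L) (Finsupp.ofSupportFinite _ fs)
    (WW k T (j + c)) (fun P => ?_) (fun f hf h P => (mem_WW A h0 h).1 hf P) ?_
    ((lower A hT (S := ⊤) trivial h1 h2 h3 j).trans (Submodule.finrank_mono inf_le_left))
  · change _ ≤ ((j + c : ℕ) : ℤ) * max (P.ord T⁻¹) 0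
    by_cases hP : T ∈ P.V
    · refine le_trans ?_ (mul_nonneg (Int.natCast_nonneg _) (le_max_right _ _))
      obtain ⟨b1, b2⟩ := k1 P hP
      rw [e1, sub_nonpos]
      by_cases hs : P ∈ E.support
      · exact b2 hs
      · rwa [Finsupp.notMem_support_iff.1 hs]
    · rw [A.mem P _ h0, not_le] at hP
      have b1 : ((j + c : ℕ) : ℤ) * 1 ≤ ((j + c : ℕ) : ℤ) * max (P.ord T⁻¹) 0 :=
        mul_le_mul_of_nonneg_left (by rw [Cheb0.ord_inv A P h0]; omega) (Int.natCast_nonneg _)
      by_cases hs : P ∈ E'.support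
      · have b2 : (E' P).toNat ≤ j := hj ⟨P, hs, rfl⟩
        omega
      · rw [Finsupp.notMem_support_iff.1 hs]
        omega
  · rw [Finsupp.ofSupportFinite_coe, ← mul_finsum,
      B.deg T⁻¹ fun h => hT (IsAlgebraic.inv_iff.1 h), Cheb0.adjoin_inv, e2]
    push_cast
    linarith

end Pool.Agent.MP_f3836a_nt.PK
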