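import Pool.Agent.MP_f3836a_nt.PK.SpecF

set_option autoImplicit false

/-! The conductor of a chart of a curve. -/

namespace Pool.Agent.MP_f3836a_nt.PK

open MvPolynomial IsLocalRing

universe u

namespace FBr1

variable {k K : Type u} [Field k] [Field K] [Algebra k K] {N : ℕ} {ξ : Fin (N + 1) → K}

theorem exists_lin [Infinite k] (s : Set (Pt k ξ)) (hs : s.Finite) :
    ∃ l : Pol k N, l.IsHomogeneous 1 ∧ ∀ x ∈ s, eval x.z l ≠ 0 := by
  classical
  induction s, hs using Set.Finite.induction_on with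
  | empty => exact ⟨0, isHomogeneous_zero _ _ _, by simp⟩
  | @insert x s _ hs ih =>
    obtain ⟨l, h1, h2⟩ := ih
    obtain ⟨j, hj, -⟩ := x.norm
    obtain ⟨c, hc⟩ := ((hs.insert x).image fun y => -eval y.z l / y.z j).infinite_compl.nonempty
    refine ⟨l + C c * X j, h1.add (isHomogeneous_C_mul_X c j), fun y hy h => ?_⟩
    rw [map_add, map_mul, eval_C, eval_X] at h
    by_cases h0 : y.z j = 0
    · rcases hy with rfl | hy
      · exact one_ne_zero (hj.symm.trans h0)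
      · rw [h0, mul_zero, add_zero] at h
        exact h2 y hy h
    · exact hc ⟨y, hy, (div_eq_iff h0).2 (by linear_combination -h)⟩

theorem exists_sep {x y : Pt k ξ} {i : Fin (N + 1)} (hx : x.z i ≠ 0) (hy : y.z i ≠ 0)
    (h : x.z ≠ y.z) : ∃ m : Pol k N, m.IsHomogeneous 1 ∧ eval y.z m = 0 ∧ eval x.z m ≠ 0 := by
  have : ∃ j, y.z i * x.z j - y.z j * x.z i ≠ 0 := by
    by_contra hn
    push Not at hn
    obtain ⟨a, ha⟩ := x.norm
    obtain ⟨b, hb⟩ := y.norm
    have e : a = b := by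
      rcases lt_trichotomy a b with hl | hl | hl
      · have := hn a
        rw [ha.1, hb.2 a hl] at this
        exact absurd (by simpa using this) hy
      · exact hl
      · have := hn b
        rw [hb.1, ha.2 b hl] at this
        exact absurd (by simpa using this) hx
    subst e
    have e := hn a
    rw [ha.1, hb.1, mul_one, one_mul, sub_eq_zero] at e
    refine h (funext fun j => mul_left_cancel₀ hy ?_)
    linear_combination hn j - y.z j * e
  obtain ⟨j, hj⟩ := this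
  refine ⟨C (y.z i) * X j - C (y.z j) * X i,
    (isHomogeneous_C_mul_X _ _).sub (isHomogeneous_C_mul_X _ _), ?_, ?_⟩
  · simp [mul_comm]
  · simpa using hj

theorem le_ord_pow (h : PlA k K) (P : Place k K) {u : K} (hu : u ≠ 0) (h0 : 0 < P.ord u) (n : ℕ) :
    (n : ℤ) ≤ P.ord (u ^ n) := by
  induction n with
  | zero =>
    have := h.con P 1
    rw [map_one] at this
    rw [pow_zero, this]
    rfl
  | succ n ih =>
    rw [pow_succ, h.mul P _ _ (pow_ne_zero n hu) hu]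
    push_cast
    omega

variable (k ξ) in
/-- the coordinate ring of the chart -/
def ring (i : Fin (N + 1)) : Subalgebra k K := Algebra.adjoin k (Set.range fun j => ξ j / ξ i)

theorem frac_mem (i : Fin (N + 1)) {n : ℕ} {A : Pol k N} (hA : A.IsHomogeneous n) :
    aeval ξ A / ξ i ^ n ∈ ring k ξ i := by
  rw [← CTanA.aeval_div hA, ring, Algebra.adjoin_range_eq_range_aeval]
  exact ⟨A, rfl⟩

theorem ring_le {i : Fin (N + 1)} (x : Pt k ξ) (hx : x.z i ≠ 0) {f : K} (hf : f ∈ ring k ξ i) :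
    f ∈ x.ctr.O := by
  induction hf using Algebra.adjoin_induction with
  | mem f hf =>
    obtain ⟨j, rfl⟩ := hf
    simpa using x.ctr.div_mem (isHomogeneous_X k j) (isHomogeneous_X k i)
      (by rwa [x.mem_P, eval_X])
  | algebraMap a => exact x.ctr.const_mem a
  | add f g _ _ hf hg => exact add_mem hf hg
  | mul f g _ _ hf hg => exact mul_mem hf hg

theorem chart (hA : PlA k K) (hc : CenA k ξ) {i : Fin (N + 1)} (hi : ξ i ≠ 0) {l : Pol k N}
    (hl : l.IsHomogeneous 1) {P : Place k K} {x : Pt k ξ} (hP : Cen ξ x.z P)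
    (h : x.z i = 0 → eval x.z l ≠ 0) : aeval ξ l / ξ i ∈ P.V ↔ x.z i ≠ 0 := by
  refine ⟨fun h1 h0 => ?_, fun h0 => ?_⟩
  · obtain ⟨h2, h3, h4⟩ := hc.val x.z P 1 (X i) l hP (isHomogeneous_X k i) hl (h h0)
    rw [aeval_X] at h3 h4
    rw [eval_X, h0, zero_div] at h4
    obtain ⟨χ, h5, -⟩ := hA.hom P
    have h6 : (⟨_, h3⟩ * ⟨_, h1⟩ : P.V) = 1 := Subtype.ext (by
      change ξ i / aeval ξ l * (aeval ξ l / ξ i) = 1
      field_simp)
    have h7 := congrArg χ h6
    rw [map_mul, map_one, h5, h4, zero_mul] at h7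
    exact zero_ne_one h7
  · simpa using (hc.val x.z P 1 l (X i) hP hl (isHomogeneous_X k i) (by rwa [eval_X])).2.1

theorem kill (hA : PlA k K) (hc : CenA k ξ) {i : Fin (N + 1)} {x y : Pt k ξ} (hx : x.z i ≠ 0)
    (hy : y.z i ≠ 0) (h : x.z ≠ y.z) {P : Place k K} (hP : Cen ξ y.z P) {f : K} (hf : f ≠ 0) :
    ∃ s ∈ ring k ξ i, s ≠ 0 ∧ s⁻¹ ∈ x.ctr.O ∧ s * f ∈ P.V := by
  obtain ⟨m, h1, h2, h3⟩ := exists_sep hx hy h
  obtain ⟨h4, h5, h6⟩ := hc.val y.z P 1 m (X i) hP h1 (isHomogeneous_X k i) (by rwa [eval_X])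
  rw [h2, zero_div] at h6
  have h7 := (hA.val P _ h5 0).2 h6
  rw [map_zero, sub_zero] at h7
  have h8 : aeval ξ m / aeval ξ (X i : Pol k N) ≠ 0 := div_ne_zero (x.ctr.aeval_ne h1 h3) h4
  have h9 := le_ord_pow hA P h8 (h7.resolve_left h8) (-P.ord f).toNat
  refine ⟨_, pow_mem ?_ (-P.ord f).toNat, pow_ne_zero _ h8, ?_, ?_⟩
  · simpa using frac_mem i h1
  · rw [← inv_pow, inv_div]
    exact pow_mem (x.ctr.div_mem (isHomogeneous_X k i) h1 h3) _
  · rw [hA.mem P _ (mul_ne_zero (pow_ne_zero _ h8) hf), hA.mul P _ _ (pow_ne_zero _ h8) hf]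
    omega

end FBr1

open FBr1 in
theorem rBr1 : RCond.{u} → RBr1.{u} := by
  intro hC k _ _ N V hF hA hB hc i hi
  obtain ⟨l, hl, hl'⟩ := exists_lin _ (hc.zs (X i) (Form.of (isHomogeneous_X k i)) (by simpa))
  have ch : ∀ {P : Place k V.K} {x : Pt k V.ξ}, Cen V.ξ x.z P →
      (aeval V.ξ l / V.ξ i ∈ P.V ↔ x.z i ≠ 0) := fun hP =>
    chart hA hc.cen hi hl hP fun h => hl' _ (by simpa using h)
  have le : ∀ P : Place k V.K, aeval V.ξ l / V.ξ i ∈ P.V → ∀ f ∈ ring k V.ξ i, f ∈ P.V :=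
    fun P hP f hf => by
      obtain ⟨y, hy⟩ := hc.cen.ex P
      exact (hc.cen.dom y P).1 hy (ring_le y ((ch hy).1 hP) hf)
  have hT : Transcendental k (aeval V.ξ l / V.ξ i) := fun h => by
    obtain ⟨a, ha⟩ := minpoly.mem_range_of_degree_eq_one k _
      (IsAlgClosed.degree_eq_one_of_irreducible k (minpoly.irreducible h.isIntegral))
    obtain ⟨j, hj⟩ := hc.tr i hi
    obtain ⟨b, hb⟩ := hB.const (V.ξ j / V.ξ i) fun P =>
      le P (ha ▸ P.const a) _ (Algebra.subset_adjoin ⟨j, rfl⟩)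
    exact hj (hb ▸ isAlgebraic_algebraMap b)
  obtain ⟨h, h0, hh⟩ := hC k V.K hF hA hB _ (ring k V.ξ i) hT (by simpa using frac_mem i hl)
    fun f => by
      obtain ⟨n, A, B, h1, h2, h3, h4⟩ := V.gen f
      exact ⟨_, frac_mem i h1, _, frac_mem i h2, div_ne_zero h3 (pow_ne_zero _ hi),
        by rw [← mul_div_assoc, h4]⟩
  refine ⟨_, fun e => hT ⟨h, h0, e⟩, fun x hx => ⟨?_, fun f hf => ?_⟩⟩
  · simpa using ring_le x hx (hh 1 fun P _ => one_mem _)
  by_cases hf0 : f = 0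
  · rw [hf0, mul_zero]
    exact zero_mem _
  have key : ∀ S : Set (Place k V.K), S.Finite →
      (∀ P ∈ S, aeval V.ξ l / V.ξ i ∈ P.V ∧ f ∉ P.V) →
      ∃ s ∈ ring k V.ξ i, s ≠ 0 ∧ s⁻¹ ∈ x.ctr.O ∧ ∀ P ∈ S, s * f ∈ P.V := fun S hS => by
    induction S, hS using Set.Finite.induction_on with
    | empty => exact fun _ => ⟨1, one_mem _, one_ne_zero, by simp, by simp⟩
    | @insert P S _ _ ih =>
      intro h1
      obtain ⟨s, s1, s2, s3, s4⟩ := ih fun Q hQ => h1 Q (Set.mem_insert_of_mem _ hQ)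
      obtain ⟨h2, h3⟩ := h1 P (Set.mem_insert _ _)
      obtain ⟨y, hy⟩ := hc.cen.ex P
      obtain ⟨t, t1, t2, t3, t4⟩ := kill hA hc.cen hx ((ch hy).1 h2)
        (fun e => h3 (hf P (e ▸ hy))) hy hf0
      refine ⟨s * t, mul_mem s1 t1, mul_ne_zero s2 t2, by rw [mul_inv]; exact mul_mem s3 t3,
        fun Q hQ => ?_⟩
      rcases hQ with rfl | hQ
      · rw [mul_assoc]
        exact mul_mem (le _ h2 s s1) t4
      · rw [mul_comm s, mul_assoc]
        exact mul_mem (le Q (h1 Q (Set.mem_insert_of_mem _ hQ)).1 t t1) (s4 Q hQ)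
  obtain ⟨s, s1, s2, s3, s4⟩ := key {P | aeval V.ξ l / V.ξ i ∈ P.V ∧ f ∉ P.V}
    ((hB.fin f).subset fun P hP e => hP.2 ((hA.mem P f hf0).2 e.ge)) fun _ h => h
  have h1 := mul_mem s3 (ring_le x hx (hh (s * f) fun P hP => by
    by_cases h2 : f ∈ P.V
    · exact mul_mem (le P hP s s1) h2
    · exact s4 P ⟨hP, h2⟩))
  rwa [mul_left_comm, inv_mul_cancel_left₀ s2] at h1

end Pool.Agent.MP_f3836a_nt.PK
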