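import Pool.Agent.MP_f3836a_nt.PK.SpecF

set_option autoImplicit false

/-! The order at a point of a curve is the sum of the orders on the branches. -/

namespace Pool.Agent.MP_f3836a_nt.PK

open IsLocalRing Pointwise

universe u

namespace FBrA

section
variable (R : Type u) {B : Type u} [CommRing R] [CommRing B] [Algebra R B]

/-- length over the base ring -/
noncomputable def lam (a : B) : ℕ∞ := Module.length R (B ⧸ Ideal.span {a})

theorem lam_mul [IsDomain B] (a : B) {b : B} (hb : b ≠ 0) : lam R (b * a) = lam R a + lam R b := by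
  have := Module.length_eq_add_of_exact ((Ideal.mulQuot b (Ideal.span {a})).restrictScalars R)
    ((Ideal.quotOfMul b (Ideal.span {a})).restrictScalars R)
    (Ideal.mulQuot_injective (Ideal.span {a}) (mem_nonZeroDivisors_of_ne_zero hb))
    (Ideal.quotOfMul_surjective (Ideal.span {a})) (Ideal.exact_mulQuot_quotOfMul (Ideal.span {a}))
  have lem : ({b} : Set B) • Ideal.span {a} = Ideal.span {b * a} := by
    simp [← Ideal.submodule_span_eq, Submodule.set_smul_span]
  rw [Submodule.singleton_set_smul] at lem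
  rw [lam, lam, lam, ← this, lem]

theorem lam_unit {a : B} (ha : IsUnit a) : lam R a = 0 := by
  rw [lam, Module.length_eq_zero_iff, Ideal.Quotient.subsingleton_iff, Ideal.span_singleton_eq_top]
  exact ha

theorem lam_one [IsLocalRing R] (π : B) (h1 : ∀ b : B, ∃ r, b - algebraMap R B r ∈ Ideal.span {π})
    (h2 : ∀ r, algebraMap R B r ∈ Ideal.span {π} ↔ r ∈ maximalIdeal R) : lam R π = 1 := by
  let f : R →ₗ[R] B ⧸ Ideal.span {π} := Algebra.linearMap R _
  have hf : ∀ r, f r = Ideal.Quotient.mk _ (algebraMap R B r) := fun _ => rfl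
  have hk : LinearMap.ker f = maximalIdeal R := Submodule.ext fun r => by
    rw [LinearMap.mem_ker, hf, Ideal.Quotient.eq_zero_iff_mem, h2]
  have hs : Function.Surjective f := fun y => by
    obtain ⟨b, rfl⟩ := Ideal.Quotient.mk_surjective y
    obtain ⟨r, hr⟩ := h1 b
    exact ⟨r, (Ideal.Quotient.eq.2 hr).symm⟩
  rw [lam, ← (f.quotKerEquivOfSurjective hs).length_eq, hk, Module.length_eq_one_iff,
    isSimpleModule_iff_isCoatom]
  exact (maximalIdeal.isMaximal R).out

theorem quot (a : R) : Module.length R (QuotSMulTop a B) = lam R (algebraMap R B a) := by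
  have e : a • (⊤ : Submodule R B) = (Ideal.span {algebraMap R B a}).restrictScalars R :=
    Submodule.ext fun b => by
      rw [Submodule.mem_smul_pointwise_iff_exists, Submodule.restrictScalars_mem,
        Ideal.mem_span_singleton']
      simp only [Submodule.mem_top, true_and, Algebra.smul_def, mul_comm]
  exact ((Submodule.quotEquivOfEq _ _ e).trans
    (Submodule.Quotient.restrictScalarsEquiv R _)).length_eq

variable {R}

theorem lam_eq (H : RHer.{u}) [IsDomain B] (inj : Function.Injective (algebraMap R B)) {h : R}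
    (h0 : h ≠ 0) (hf : Ring.ord R h ≠ ⊤) (hh : ∀ b : B, ∃ r, algebraMap R B r = h • b) {a : R}
    (ha : a ≠ 0) : Ring.ord R a = lam R (algebraMap R B a) := by
  have reg : ∀ c : R, c ≠ 0 → ∀ m : B, c • m = 0 → m = 0 := fun c hc m e => by
    rw [Algebra.smul_def, mul_eq_zero, map_eq_zero_iff _ inj] at e
    exact e.resolve_left hc
  let e := LinearEquiv.ofInjective (Algebra.linearMap R B) inj
  let φ : B →ₗ[R] R := e.symm.toLinearMap ∘ₗ (LinearMap.lsmul R B h).codRestrict _ hh
  have hφ : ∀ b, algebraMap R B (φ b) = h • b := fun b =>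
    congrArg Subtype.val (e.apply_symm_apply ⟨h • b, hh b⟩)
  have hk : LinearMap.range (Algebra.linearMap R B) =
      LinearMap.ker ((Ideal.span {h}).mkQ ∘ₗ φ) := Submodule.ext fun b => by
    rw [LinearMap.mem_ker, LinearMap.comp_apply, Submodule.mkQ_apply,
      Submodule.Quotient.mk_eq_zero, Ideal.mem_span_singleton']
    refine exists_congr fun c => ?_
    rw [← inj.eq_iff, hφ, mul_comm, map_mul, ← Algebra.smul_def, ← sub_eq_zero (b := h • b),
      ← smul_sub, Algebra.linearMap_apply, ← sub_eq_zero]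
    exact ⟨fun e => by rw [e, smul_zero], reg h h0 _⟩
  have h1 : Module.length R (B ⧸ LinearMap.range (Algebra.linearMap R B)) ≤ Ring.ord R h := by
    rw [hk]
    exact Module.length_le_of_injective _ (LinearMap.ker_eq_bot.1
      (Submodule.ker_liftQ_eq_bot _ ((Ideal.span {h}).mkQ ∘ₗ φ) le_rfl le_rfl))
  rw [← quot, ← H R B _ a (reg a ha) (ne_top_of_le_ne_top hf h1),
    ← (QuotSMulTop.congr a e).length_eq, quot]
  rfl

end

variable {k L : Type u} [Field k] [Field L] [Algebra k L]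

theorem ord_div (A : PlA k L) (P : Place k L) {f g : L} (hf : f ≠ 0) (hg : g ≠ 0) :
    P.ord (f / g) = P.ord f - P.ord g := by
  have := A.mul P _ _ (div_ne_zero hf hg) hg
  rw [div_mul_cancel₀ _ hg] at this
  omega

theorem uni (A : PlA k L) (hA : RApx.{u}) (s : Finset (Place k L)) {P : Place k L} (hP : P ∈ s) :
    ∃ π : L, π ≠ 0 ∧ P.ord π = 1 ∧ ∀ Q ∈ s, Q ≠ P → Q.ord π = 0 := by
  classical
  obtain ⟨g, hg⟩ := hA k L A s (fun Q => if Q = P then 0 else 1) s.finite_toSet
  have h1 := hg P hP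
  rw [if_pos rfl, map_zero, sub_zero] at h1
  refine ⟨g, h1.1, h1.2, fun Q hQ hne => ?_⟩
  have h2 := hg Q hQ
  rw [if_neg hne] at h2
  have h3 : g ∈ Q.V := by
    simpa using add_mem ((A.mem Q _ h2.1).2 (by omega)) (Q.const 1)
  have h4 := (A.val Q g h3 1).1 (Or.inr (by omega))
  have h5 := (A.val Q g h3 0).not.2 (h4 ▸ one_ne_zero)
  rw [map_zero, sub_zero, Place.Zero, not_or] at h5
  have := (A.mem Q g h1.1).1 h3
  omega

theorem main (A : PlA k L) (hA : RApx.{u}) (s : Finset (Place k L)) (O B : Subring L)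
    [IsLocalRing O] (hB : ∀ f, f ∈ B ↔ ∀ P ∈ s, f ∈ P.V) [Algebra O B]
    (hal : ∀ r : O, (algebraMap O B r : L) = r) (hc : ∀ c : k, algebraMap k L c ∈ O)
    (hm : ∀ P ∈ s, ∀ f : O, f ∈ maximalIdeal O ↔ P.Zero (f : L)) (n : ℕ) :
    ∀ a : B, (a : L) ≠ 0 → ∑ P ∈ s, P.ord (a : L) = n → lam O a = n := by
  have nn : ∀ a : B, (a : L) ≠ 0 → ∀ P ∈ s, 0 ≤ P.ord (a : L) := fun a ha P hP =>
    (A.mem P _ ha).1 ((hB _).1 a.2 P hP)
  induction n using Nat.strong_induction_on with
  | _ n ih =>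
  intro a ha hn
  by_cases hz : ∃ P ∈ s, 0 < P.ord (a : L)
  · obtain ⟨P, hP, h0⟩ := hz
    obtain ⟨π, p0, p1, p2⟩ := uni A hA s hP
    have p3 : π ∈ B := (hB _).2 fun Q hQ => (A.mem Q _ p0).2 (by
      by_cases e : Q = P
      · rw [e, p1]
        exact zero_le_one
      · rw [p2 Q hQ e])
    have dv : ∀ b : B, b ∈ Ideal.span {(⟨π, p3⟩ : B)} ↔ P.Zero (b : L) := fun b => by
      rw [Ideal.mem_span_singleton']
      by_cases hb : (b : L) = 0
      · exact iff_of_true ⟨0, Subtype.ext (by simp [hb])⟩ (Or.inl hb)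
      rw [Place.Zero, or_iff_right hb]
      constructor
      · rintro ⟨c, rfl⟩
        have hc : (c : L) ≠ 0 := left_ne_zero_of_mul hb
        have := nn c hc P hP
        have := A.mul P _ _ hc p0
        change 0 < P.ord (c * π)
        omega
      · refine fun h => ⟨⟨b / π, (hB _).2 fun Q hQ => (A.mem Q _ (div_ne_zero hb p0)).2 ?_⟩,
          Subtype.ext (div_mul_cancel₀ _ p0)⟩
        have := nn b hb Q hQ
        rw [ord_div A Q hb p0]
        by_cases e : Q = P
        · rw [e]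
          omega
        · rw [p2 Q hQ e]
          omega
    have l1 : lam O (⟨π, p3⟩ : B) = 1 := lam_one O _ (fun b => ⟨⟨_, hc (P.val (b : L))⟩, by
      rw [dv, AddSubgroupClass.coe_sub, hal]
      exact (A.val P _ ((hB _).1 b.2 P hP) _).2 rfl⟩) fun r => by rw [dv, hal, hm P hP]
    obtain ⟨c, rfl⟩ := Ideal.mem_span_singleton'.1 ((dv a).2 (Or.inr h0))
    have hc : (c : L) ≠ 0 := left_ne_zero_of_mul ha
    obtain ⟨m, hm⟩ := Int.eq_ofNat_of_zero_le (Finset.sum_nonneg (nn c hc))
    have e : (n : ℤ) = m + 1 := by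
      rw [← hn, ← hm, ← p1, ← Finset.sum_eq_single_of_mem P hP p2, ← Finset.sum_add_distrib]
      exact Finset.sum_congr rfl fun Q _ => A.mul Q _ _ hc p0
    obtain rfl : n = m + 1 := by omega
    rw [mul_comm, lam_mul O c (fun h => p0 (congrArg Subtype.val h)), l1, ih m m.lt_succ_self c hc hm,
      Nat.cast_succ]
  · push Not at hz
    have z : ∀ P ∈ s, P.ord (a : L) = 0 := fun P hP => (hz P hP).antisymm (nn a ha P hP)
    rw [Finset.sum_eq_zero z] at hn
    obtain rfl : n = 0 := by omega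
    refine lam_unit O (IsUnit.of_mul_eq_one ⟨1 / a, (hB _).2 fun Q hQ =>
      (A.mem Q _ (div_ne_zero one_ne_zero ha)).2 ?_⟩ (Subtype.ext (mul_one_div_cancel ha)))
    have := A.con Q 1
    rw [map_one] at this
    rw [ord_div A Q one_ne_zero ha, this, z Q hQ, sub_zero]

theorem centre (O : Subring L) (q : Ideal O) [q.IsPrime] :
    ∃ W : ValuationSubring L, O ≤ W.toSubring ∧ ∀ f : O, f ∈ q ↔ (f : L) ∈ W.nonunits := by
  obtain ⟨W, h1, h2⟩ := (LocalSubring.ofPrime O q).exists_le_valuationSubring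
  have h3 := (LocalSubring.le_ofPrime O q).trans h1
  refine ⟨W, h3, fun f => ?_⟩
  rw [← IsLocalization.AtPrime.to_map_mem_maximal_iff (LocalSubring.ofPrime O q).toSubring q f,
    mem_maximalIdeal, mem_nonunits_iff, ← isUnit_map_iff (Subring.inclusion h1)]
  exact (W.coe_mem_nonunits_iff (a := ⟨f, h3 f.2⟩)).symm

end FBrA

open FBrA in
theorem rBrA : RHer.{u} → RApx.{u} → RBrA.{u} := by
  intro H hA k _ _ N V _ A _ C h1
  have dim : ∀ x : Pt k V.ξ, Ring.KrullDimLE 1 x.ctr.O := fun x =>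
    Ring.KrullDimLE.mk₁' fun q h0 hq => by
      obtain ⟨W, w1, w2⟩ := centre x.ctr.O q
      obtain ⟨a, a1, a2⟩ := Submodule.exists_mem_ne_zero_of_ne_bot h0
      let P : Place k V.K := ⟨W, fun e => by
        have := (w2 a).1 a1
        rw [W.mem_nonunits_iff_or, e] at this
        exact this.elim (fun e => a2 (Subtype.ext e)) fun e => e trivial,
        fun c => w1 (x.ctr.const_mem c)⟩
      have e : q = maximalIdeal _ := Ideal.ext fun f => by
        rw [C.cen.max x P ((C.cen.dom x P).2 w1), A.zero, w2]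
      exact e ▸ maximalIdeal.isMaximal _
  refine ⟨fun x f hf => ?_, dim⟩
  have := dim x
  have := Ctr.noeth x.good
  let s := (C.fin x.z).toFinset
  have hs : ∀ P, P ∈ s ↔ Cen V.ξ x.z P := fun P => (C.fin x.z).mem_toFinset
  let B : Subring V.K := ⨅ P ∈ s, P.V.toSubring
  have hB : ∀ g, g ∈ B ↔ ∀ P ∈ s, g ∈ P.V := fun g => by
    simp only [B, Subring.mem_iInf]
    rfl
  have hle : x.ctr.O ≤ B := fun g hg => (hB g).2 fun P hP => (C.cen.dom x P).1 ((hs P).1 hP) hg
  let := (Subring.inclusion hle).toAlgebra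
  obtain ⟨h, h0, h2⟩ := h1 _ (Ctr.xi_ne x.good)
  obtain ⟨h3, h4⟩ := h2 x (x.z_idx.1 ▸ one_ne_zero)
  have h5 : (⟨h, h3⟩ : x.ctr.O) ≠ 0 := fun e => h0 (congrArg Subtype.val e)
  have key : ∀ a : x.ctr.O, a ≠ 0 → Ord.o a = ∑ P ∈ s, P.ord (a : V.K) := fun a ha => by
    have ha' : (a : V.K) ≠ 0 := fun e => ha (Subtype.ext e)
    obtain ⟨m, hm⟩ := Int.eq_ofNat_of_zero_le (Finset.sum_nonneg fun P hP =>
      (A.mem P _ ha').1 ((hB _).1 (hle a.2) P hP))
    rw [Ord.o, lam_eq (B := B) H (Subring.inclusion_injective hle) h5 (Ord.fin h5) (fun b =>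
      ⟨⟨_, h4 b fun P hP => (hB _).1 b.2 P ((hs P).2 hP)⟩, rfl⟩) ha,
      main A hA s x.ctr.O B hB (fun _ => rfl) x.ctr.const_mem
        (fun P hP => C.cen.max x P ((hs P).1 hP)) m _ ha' hm, hm, ENat.toNat_natCast]
  obtain ⟨a, b, hb, e⟩ := V.gen.frac x.good f
  have hb' : b ≠ 0 := fun h => hb (by simp [h])
  rw [Ord.rep hf hb' e, key b hb', key a (Ord.num_ne hf hb' e), ← Finset.sum_sub_distrib]
  refine Eq.trans ?_ (finsum_mem_eq_finite_toFinset_sum _ (C.fin x.z)).symm
  refine Finset.sum_congr rfl fun P _ => ?_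
  rw [← e, A.mul P _ _ hf hb, add_sub_cancel_right]

end Pool.Agent.MP_f3836a_nt.PK
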