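import Pool.Agent.MP_f3836a_nt.PK.SpecF

set_option autoImplicit false

/-! The lemma of Herbrand and lengths on a union of branches. -/

namespace Pool.Agent.MP_f3836a_nt.PK

open IsLocalRing Submodule
open scoped Pointwise

universe u

namespace FHer

variable {R M N : Type u} [CommRing R] [AddCommGroup M] [Module R M] [AddCommGroup N] [Module R N]

theorem len (f : M →ₗ[R] N) (hf : Function.Surjective f) {U : Submodule R M}
    (h : ∀ x, f x = 0 ↔ x ∈ U) : Module.length R (M ⧸ U) = Module.length R N := by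
  obtain rfl : LinearMap.ker f = U := Submodule.ext h
  exact (f.quotKerEquivOfSurjective hf).length_eq

theorem add (φ : N →ₗ[R] M) {U V : Submodule R M} {T : Submodule R N} (h : ∀ x, x ∈ T ↔ φ x ∈ U)
    (hU : U ≤ V) (hV : V = LinearMap.range φ) :
    Module.length R (M ⧸ U) = Module.length R (N ⧸ T) + Module.length R (M ⧸ V) := by
  refine Module.length_eq_add_of_exact (T.mapQ U φ fun x => (h x).1) (factor hU) ?_
    (factor_surjective hU) fun y => ?_
  · refine (injective_iff_map_eq_zero _).2 fun x hx => ?_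
    obtain ⟨x, rfl⟩ := T.mkQ_surjective x
    exact (Quotient.mk_eq_zero _).2 ((h x).2 ((Quotient.mk_eq_zero _).1 hx))
  · obtain ⟨y, rfl⟩ := U.mkQ_surjective y
    refine (Quotient.mk_eq_zero V).trans ⟨fun k => ?_, fun ⟨x, k⟩ => ?_⟩
    · obtain ⟨x, rfl⟩ := hV.le k
      exact ⟨T.mkQ x, rfl⟩
    · obtain ⟨x, rfl⟩ := T.mkQ_surjective x
      have := add_mem (neg_mem (hU ((Submodule.Quotient.eq U).1 k))) (hV.ge ⟨x, rfl⟩)
      simpa using this

theorem cyc (f : R →ₗ[R] N) (hf : Function.Surjective f) (a : R) :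
    Module.length R (R ⧸ (LinearMap.ker f ⊔ Ideal.span {a} : Ideal R)) =
      Module.length R (QuotSMulTop a N) := by
  refine len ((a • (⊤ : Submodule R N)).mkQ ∘ₗ f) ((mkQ_surjective _).comp hf) fun x => ?_
  rw [sup_comm, Ideal.mem_span_singleton_sup]
  refine (Quotient.mk_eq_zero _).trans ((mem_smul_pointwise_iff_exists _ _ _).trans
    ⟨fun ⟨y, _, e⟩ => ?_, fun ⟨y, z, hz, e⟩ => ⟨f y, trivial, ?_⟩⟩)
  · obtain ⟨y, rfl⟩ := hf y
    exact ⟨y, x - y * a, by rw [LinearMap.mem_ker, map_sub, ← e, mul_comm, ← smul_eq_mul, map_smul,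
      sub_self], add_sub_cancel _ _⟩
  · rw [← e, map_add, LinearMap.mem_ker.1 hz, add_zero, mul_comm, ← smul_eq_mul, map_smul]

theorem prod (a : R) : Module.length R (QuotSMulTop a (M × N)) =
    Module.length R (QuotSMulTop a M) + Module.length R (QuotSMulTop a N) := by
  rw [← Module.length_prod]
  refine len ((a • (⊤ : Submodule R M)).mkQ.prodMap (a • (⊤ : Submodule R N)).mkQ)
    ((mkQ_surjective _).prodMap (mkQ_surjective _)) fun x => ?_
  simp [Prod.ext_iff, mem_smul_pointwise_iff_exists]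

theorem dim {q P : Ideal R} [q.IsPrime] [P.IsPrime] (h : Ring.KrullDimLE 1 (R ⧸ q)) (hP : q ≤ P) :
    P = q ∨ P.IsMaximal := by
  refine or_iff_not_imp_left.2 fun e => ?_
  have h1 := (Ideal.map_isPrime_of_surjective (f := Ideal.Quotient.mk q) (I := P)
    Ideal.Quotient.mk_surjective (by rwa [Ideal.mk_ker])).isMaximal_of_ne_bot fun k =>
      e (le_antisymm (by rwa [Ideal.map_eq_bot_iff_le_ker, Ideal.mk_ker] at k) hP)
  have h2 := Ideal.comap_isMaximal_of_surjective (Ideal.Quotient.mk q)
    Ideal.Quotient.mk_surjective (H := h1)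
  rwa [Ideal.comap_map_mk hP] at h2

end FHer

theorem rHer : RHer.{u} := by
  intro R M _ _ _ S a ha hl
  have h1 := FHer.add S.subtype (U := a • S) (T := a • ⊤) (V := S) (fun x => by
    simp [mem_smul_pointwise_iff_exists, Subtype.ext_iff]) (smul_le_self_of_tower a S)
    S.range_subtype.symm
  have h2 := FHer.add (LinearMap.lsmul R M a) (U := a • S) (T := S) (V := a • ⊤) (fun x =>
    ⟨smul_mem_pointwise_smul x a S, fun h => by
      obtain ⟨y, hy, e⟩ := (mem_smul_pointwise_iff_exists _ _ _).1 h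
      rwa [← sub_eq_zero.1 (ha (y - x) (by rw [smul_sub, e]; simp))]⟩)
    (smul_mono_right a le_top) (by ext; simp [mem_smul_pointwise_iff_exists])
  rw [h1, add_comm] at h2
  exact WithTop.add_left_cancel hl h2

theorem rBr2 : RBr2.{u} := by
  classical
  intro R _ _ _ s a
  induction s using Finset.induction_on with
  | empty =>
    intro _
    rw [Finset.inf_empty, top_sup_eq, Finset.sum_empty, Module.length_eq_zero_iff]
    infer_instance
  | insert q s hq ih =>
    intro h
    obtain ⟨q1, q2, q3, q4⟩ := h q (Finset.mem_insert_self _ _)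
    have h' := fun p hp => h p (Finset.mem_insert_of_mem hp)
    rw [Finset.sum_insert hq, ← ih h', Finset.inf_insert]
    have hd : Ring.KrullDimLE 0 (R ⧸ (q ⊔ s.inf id)) :=
      Ideal.krullDimLE_zero_quotient_iff_forall_minimalPrimes_isMaximal.2 fun J hJ => by
        have := hJ.1.1
        refine (FHer.dim q3 (le_sup_left.trans hJ.1.2)).resolve_left fun e => ?_
        obtain ⟨p, hp, k⟩ := this.inf_le'.1 (le_sup_right.trans hJ.1.2)
        have := (h' p hp).1
        exact (FHer.dim (h' p hp).2.2.1 (e ▸ k : p ≤ q)).elim (fun k => hq (k ▸ hp))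
          fun k => q2 (eq_maximalIdeal k)
    have hI : ∀ x, a * x ∈ s.inf id → x ∈ s.inf id := fun x hx => by
      rw [Submodule.mem_finsetInf] at hx ⊢
      exact fun p hp => ((h' p hp).1.mem_or_mem (hx p hp)).resolve_left (h' p hp).2.2.2
    generalize s.inf id = I at hd hI
    have : IsArtinianRing (R ⧸ (q ⊔ I)) := IsNoetherianRing.isArtinianRing_of_krullDimLE_zero
    have : IsArtinian R (R ⧸ (q ⊔ I)) :=
      isArtinian_of_surjective_algebraMap (R := R ⧸ (q ⊔ I)) Ideal.Quotient.mk_surjective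
    have key := rHer R _ (LinearMap.range (q.mkQ.prod I.mkQ)) a (fun ⟨x, y⟩ e => by
      obtain ⟨x, rfl⟩ := q.mkQ_surjective x
      obtain ⟨y, rfl⟩ := I.mkQ_surjective y
      exact Prod.ext ((Quotient.mk_eq_zero _).2 ((q1.mem_or_mem ((Quotient.mk_eq_zero q).1
        (congrArg Prod.fst e))).resolve_left q4))
        ((Quotient.mk_eq_zero _).2 (hI y ((Quotient.mk_eq_zero I).1 (congrArg Prod.snd e))))) (by
      rw [FHer.len ((factor (le_sup_left : q ≤ q ⊔ I)).coprod (-factor (le_sup_right : I ≤ q ⊔ I)))]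
      · exact Module.length_ne_top
      · intro x
        obtain ⟨x, rfl⟩ := mkQ_surjective _ x
        exact ⟨(q.mkQ x, 0), by simp⟩
      · rintro ⟨x, y⟩
        obtain ⟨x, rfl⟩ := q.mkQ_surjective x
        obtain ⟨y, rfl⟩ := I.mkQ_surjective y
        refine (Quotient.mk_eq_zero (q ⊔ I) (x := x + -y)).trans (mem_sup.trans
          ⟨fun ⟨u, hu, v, hv, e⟩ => ⟨x - u, Prod.ext ((Submodule.Quotient.eq q).2 ?_)
            ((Submodule.Quotient.eq I).2 ?_)⟩, fun ⟨z, e⟩ =>
          ⟨_, neg_mem ((Submodule.Quotient.eq q).1 (congrArg Prod.fst e)), _,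
            (Submodule.Quotient.eq I).1 (congrArg Prod.snd e), by ring⟩⟩)
        · simpa using hu
        · rwa [show x - u - y = v by linear_combination -e])
    rw [FHer.prod, ← FHer.cyc _ (q.mkQ.prod I.mkQ).surjective_rangeRestrict,
      ← FHer.cyc _ q.mkQ_surjective, ← FHer.cyc _ I.mkQ_surjective, LinearMap.ker_rangeRestrict,
      LinearMap.ker_prod, ker_mkQ, ker_mkQ] at key
    exact key

end Pool.Agent.MP_f3836a_nt.PK
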