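import Pool.Agent.MP_f3836a_nt.PK.SpecF

set_option autoImplicit false

/-! An integral basis inside a given ring. -/

namespace Pool.Agent.MP_f3836a_nt.PK

open IntermediateField

universe u

namespace FLow

theorem val_le {L Γ : Type u} [Field L] [LinearOrderedCommGroupWithZero Γ] (v : Valuation L Γ)
    {γ : Γ} (hγ : 1 ≤ γ) {p : Polynomial L} (hp : p.Monic) {y : L} (hy : p.eval y = 0)
    (hc : ∀ i, v (p.coeff i) ≤ γ) : v y ≤ γ := by
  by_contra h
  have h1 : γ < v y := not_le.1 h
  have h2 : 1 < v y := hγ.trans_lt h1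
  have h0 : 0 < v y := zero_lt_one.trans h2
  rw [Polynomial.eval_eq_sum_range, Finset.sum_range_succ, hp.coeff_natDegree, one_mul] at hy
  have h3 : v (∑ i ∈ Finset.range p.natDegree, p.coeff i * y ^ i) < v y ^ p.natDegree := by
    refine v.map_sum_lt (pow_ne_zero _ h0.ne') fun i hi => ?_
    rw [map_mul, map_pow]
    calc v (p.coeff i) * v y ^ i < v y * v y ^ i :=
          mul_lt_mul_of_pos_right ((hc i).trans_lt h1) (pow_pos h0 i)
      _ = v y ^ (i + 1) := (pow_succ' _ _).symm
      _ ≤ v y ^ p.natDegree := pow_le_pow_right₀ h2.le (Finset.mem_range.1 hi)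
  rw [eq_neg_of_add_eq_zero_left hy, v.map_neg, map_pow] at h3
  exact lt_irrefl _ h3

variable {k L : Type u} [Field k] [Field L] [Algebra k L]

variable (k) in
/-- the poles of `f` are bounded by those of `T ^ c` -/
def Bd (T : L) (c : ℕ) (f : L) : Prop :=
  ∀ P : Place k L, P.V.valuation f ≤ max 1 (P.V.valuation T) ^ c

variable {T : L}

theorem Bd.mono {c c' : ℕ} {f : L} (h : Bd k T c f) (hc : c ≤ c') : Bd k T c' f := fun P =>
  (h P).trans (pow_le_pow_right₀ (le_max_left _ _) hc)

theorem bd_adj {f : L} (hf : f ∈ Algebra.adjoin k {T}) : ∃ c, Bd k T c f := by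
  induction hf using Algebra.adjoin_induction with
  | mem x hx =>
    rw [Set.mem_singleton_iff.1 hx]
    exact ⟨1, fun P => by rw [pow_one]; exact le_max_right _ _⟩
  | algebraMap a =>
    exact ⟨0, fun P => by rw [pow_zero]; exact (P.V.valuation_le_one_iff _).2 (P.const a)⟩
  | add x y _ _ hx hy =>
    obtain ⟨c, hc⟩ := hx
    obtain ⟨c', hc'⟩ := hy
    exact ⟨max c c', fun P => P.V.valuation.map_add_le (hc.mono (le_max_left _ _) P)
      (hc'.mono (le_max_right _ _) P)⟩
  | mul x y _ _ hx hy =>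
    obtain ⟨c, hc⟩ := hx
    obtain ⟨c', hc'⟩ := hy
    exact ⟨c + c', fun P => by rw [map_mul, pow_add]; exact mul_le_mul' (hc P) (hc' P)⟩

theorem bd_int {y : L} (hy : IsIntegral (Algebra.adjoin k {T}) y) : ∃ c, Bd k T c y := by
  obtain ⟨p, hp, h0⟩ := hy
  choose c hc using fun i => bd_adj (p.coeff i).2
  refine ⟨p.support.sup c, fun P => val_le P.V.valuation (one_le_pow₀ (le_max_left _ _))
    (hp.map (algebraMap _ L)) (by rwa [Polynomial.eval_map]) fun i => ?_⟩
  rw [Polynomial.coeff_map]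
  by_cases hi : i ∈ p.support
  · exact (hc i).mono (Finset.le_sup hi) P
  · rw [Polynomial.notMem_support_iff.1 hi, map_zero, map_zero]
    exact zero_le

theorem ord_pow (hA : PlA k L) (P : Place k L) (h0 : T ≠ 0) (c : ℕ) :
    P.ord (T ^ c) = c * P.ord T := by
  induction c with
  | zero => simpa using hA.con P 1
  | succ n ih =>
    rw [pow_succ, hA.mul P _ _ (pow_ne_zero _ h0) h0, ih]
    push_cast
    ring

theorem Bd.fin (hA : PlA k L) (h0 : T ≠ 0) {c : ℕ} {y : L} (hy : y ≠ 0) (h : Bd k T c y)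
    (P : Place k L) : (T ∈ P.V → y ∈ P.V) ∧ (P.ord T < 0 → c * P.ord T ≤ P.ord y) := by
  have h1 := h P
  constructor
  · intro hT
    rw [max_eq_left ((P.V.valuation_le_one_iff _).2 hT), one_pow] at h1
    exact (P.V.valuation_le_one_iff _).1 h1
  · intro hT
    have h2 : T ∉ P.V := fun e => hT.not_ge ((hA.mem P T h0).1 e)
    rw [max_eq_right (le_of_not_ge fun e => h2 ((P.V.valuation_le_one_iff _).1 e)),
      ← map_pow] at h1
    have h3 : y / T ^ c ∈ P.V := by
      rw [← P.V.valuation_le_one_iff, map_div₀]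
      exact div_le_one_of_le₀ h1 zero_le
    have h4 := (hA.mem P _ (div_ne_zero hy (pow_ne_zero _ h0))).1 h3
    have h5 := hA.mul P _ _ (div_ne_zero hy (pow_ne_zero c h0)) (pow_ne_zero c h0)
    rw [div_mul_cancel₀ _ (pow_ne_zero c h0), ord_pow hA P h0] at h5
    linarith

open IntermediateField.algebraAdjoinAdjoin in
theorem mult [FiniteDimensional (adjoin k {T}) L] {A : Subalgebra k L} (hT : T ∈ A)
    (hA : ∀ f : L, ∃ a ∈ A, ∃ b ∈ A, b ≠ 0 ∧ f * b = a) (f : L) :
    ∃ r : (adjoin k {T})ˣ, r • f ∈ A ∧ IsIntegral (Algebra.adjoin k {T}) (r • f) := by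
  have alg : Algebra.IsAlgebraic (Algebra.adjoin k {T}) L :=
    (IsFractionRing.comap_isAlgebraic_iff (K := adjoin k {T})).2 inferInstance
  have le : Algebra.adjoin k {T} ≤ A := Algebra.adjoin_le (Set.singleton_subset_iff.2 hT)
  obtain ⟨a, ha, b, hb, b0, e⟩ := hA f
  obtain ⟨t, ht, r, r0, e1⟩ :=
    (alg.isAlgebraic b).exists_nonzero_eq_adjoin_mul (mem_nonZeroDivisors_of_ne_zero b0)
  have htA : t ∈ A := by
    clear e1
    induction ht using Algebra.adjoin_induction with
    | mem x hx => rwa [Set.mem_singleton_iff.1 hx]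
    | algebraMap a => exact le a.2
    | add x y _ _ hx hy => exact add_mem hx hy
    | mul x y _ _ hx hy => exact mul_mem hx hy
  obtain ⟨s, s0, hs⟩ := (alg.isAlgebraic (a * t)).exists_integral_multiple
  have e2 : algebraMap (Algebra.adjoin k {T}) (adjoin k {T}) (s * r) • f = s • (a * t) := by
    rw [algebraMap_smul, mul_smul, Algebra.smul_def r, ← e1, ← e]
    congr 1
    ring
  refine ⟨Units.mk0 (algebraMap (Algebra.adjoin k {T}) (adjoin k {T}) (s * r))
    ((map_ne_zero_iff _ (IsFractionRing.injective _ _)).2 (mul_ne_zero s0 r0)), ?_, ?_⟩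
  · rw [Units.smul_mk0, e2]
    exact mul_mem (le s.2) (mul_mem ha htA)
  · rwa [Units.smul_mk0, e2]

end FLow

open FLow in
theorem rLow : RLow.{u} := by
  intro k L _ _ _ _ hA hB T A hT hTA hfr
  have := hB.fd T hT
  have h0 : T ≠ 0 := fun e => hT (e ▸ isAlgebraic_zero)
  let b := Module.finBasis (adjoin k {T}) L
  choose r h1 h2 using fun l => mult hTA hfr (b l)
  choose c hc using fun l => bd_int (h2 l)
  have li := b.linearIndependent.units_smul r
  exact ⟨Finset.univ.sup c, r • ⇑b, h1, li, fun P l =>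
    ((hc l).mono (Finset.le_sup (Finset.mem_univ l))).fin hA h0 (li.ne_zero l) P⟩

end Pool.Agent.MP_f3836a_nt.PK
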