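import Pool.Agent.MP_f3836a_nt.PK.SpecG

set_option autoImplicit false

/-! A curve has a function field of one variable. -/

namespace Pool.Agent.MP_f3836a_nt.PK

open MvPolynomial IsLocalRing IntermediateField

universe u

namespace GFF

variable {k K : Type u} [Field k] [Field K] [Algebra k K] {N : ℕ} {ξ : Fin (N + 1) → K}

theorem homog' {D : Type u} [CommRing D] [Algebra k D] (φ : Pol k N →ₐ[k] D) {i : Fin (N + 1)}
    (hi : φ (X i) = 1) (F : Pol k N) : ∃ (n : ℕ) (H : Pol k N), H.IsHomogeneous n ∧ φ H = φ F := by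
  obtain ⟨n, H, h1, h2⟩ := CTanA.homog i F
  obtain ⟨b, hb⟩ := Ideal.mem_span_singleton'.1 h2
  have h3 := congrArg φ hb
  rw [map_mul, map_sub, map_sub, hi, map_one, sub_self, mul_zero] at h3
  exact ⟨n, H, h1, sub_eq_zero.1 h3.symm⟩

/-- a point with algebraic residue field is closed -/
theorem cl_of_alg (c : Hp k ξ) (h : ∀ f : ResidueField c.O, IsAlgebraic k f) : c.Cl := by
  intro y hy
  refine le_antisymm (y.le_of fun n G hG hP => ?_) hy
  by_contra h0
  obtain ⟨j, hj⟩ := y.good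
  have hz : c.eta j ≠ 0 := fun e =>
    hj (hy ((c.eta_zero (isHomogeneous_X k j)).1 (by rwa [aeval_X])))
  let φ : Pol k N →ₐ[k] ResidueField c.O := aeval fun i => c.eta i / c.eta j
  have hφ : ∀ {m : ℕ} {A : Pol k N}, A.IsHomogeneous m → (φ A = 0 ↔ A ∈ c.P) := fun hA => by
    rw [← c.eta_zero hA, CTanA.aeval_div hA, div_eq_zero_iff, or_iff_left (pow_ne_zero _ hz)]
  have hj1 : φ (X j) = 1 := by rw [aeval_X, div_self hz]
  have hG0 : φ G ≠ 0 := fun e => h0 ((hφ hG).1 e)
  have hm : (φ G)⁻¹ ∈ φ.range := by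
    have h1 : (φ G)⁻¹ ∈ Algebra.adjoin k {φ G} :=
      Subalgebra.inv_mem_of_algebraic (A := Algebra.adjoin k {φ G})
        (x := ⟨φ G, Algebra.self_mem_adjoin_singleton k _⟩) (h _)
    exact Algebra.adjoin_le (S := φ.range) (Set.singleton_subset_iff.2 ⟨G, rfl⟩) h1
  obtain ⟨F, hF⟩ := hm
  obtain ⟨m, H, hH, e⟩ := homog' φ hj1 F
  have h2 : G * H - X j ^ (n + m) ∈ c.P := (hφ ((hG.mul hH).sub (isHomogeneous_X_pow j _))).1 (by
    rw [map_sub, map_mul, map_pow, hj1, one_pow, e, show φ F = (φ G)⁻¹ from hF,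
      mul_inv_cancel₀ hG0, sub_self])
  have h3 := sub_mem (y.P.mul_mem_right H hP) (hy h2)
  rw [sub_sub_cancel] at h3
  exact hj (y.prime.mem_of_pow_mem _ h3)

/-- the affine coordinate ring -/
noncomputable abbrev Af (c : Hp k ξ) : Subalgebra k (ResidueField c.O) :=
  (aeval c.eta : Pol k N →ₐ[k] ResidueField c.O).range

/-- the map onto the affine coordinate ring -/
noncomputable def rho (c : Hp k ξ) : Pol k N →ₐ[k] Af c := (aeval c.eta).rangeRestrict

theorem coe_rho (c : Hp k ξ) (G : Pol k N) : (rho c G : ResidueField c.O) = aeval c.eta G := rfl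

theorem rho_surj (c : Hp k ξ) : Function.Surjective (rho c) := AlgHom.rangeRestrict_surjective _

theorem rho_idx (c : Hp k ξ) : rho c (X c.idx) = 1 :=
  Subtype.ext (by rw [coe_rho, aeval_X, c.eta_idx]; rfl)

/-- the point `y` belongs to the prime `q` -/
def Rel (c y : Hp k ξ) (q : Ideal (Af c)) : Prop :=
  ∀ (n : ℕ) (G : Pol k N), G.IsHomogeneous n → (G ∈ y.P ↔ rho c G ∈ q)

theorem rel_bot (c : Hp k ξ) : Rel c c ⊥ := fun n G hG => by
  rw [Ideal.mem_bot, ← c.eta_zero hG, ← coe_rho, ZeroMemClass.coe_eq_zero]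

theorem exists_rel (c : Hp k ξ) (q : Ideal (Af c)) (hq : q.IsPrime) : ∃ y, Rel c y q := by
  have e : (aeval fun j => Ideal.Quotient.mk q (rho c (X j)) : Pol k N →ₐ[k] Af c ⧸ q) =
      (Ideal.Quotient.mkₐ k q).comp (rho c) := MvPolynomial.algHom_ext fun j => by
    rw [aeval_X]
    rfl
  obtain ⟨y, hy⟩ := exists_hp (ξ := ξ) (fun j => Ideal.Quotient.mk q (rho c (X j)))
    (fun n G hG h => by
      rw [e, AlgHom.comp_apply, Ideal.mem_bot.1 ((rel_bot c n G hG).1 (c.van n G hG h)), map_zero])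
    ⟨c.idx, by rw [rho_idx, map_one]; exact one_ne_zero⟩
  exact ⟨y, fun n G hG => by
    rw [hy n G hG, e]
    exact Ideal.Quotient.eq_zero_iff_mem⟩

theorem Rel.lt {c y y' : Hp k ξ} {q q' : Ideal (Af c)} (h : Rel c y q) (h' : Rel c y' q')
    (hl : q < q') : y.P < y'.P := by
  refine lt_of_le_not_ge (y.le_of fun n G hG hP => (h' n G hG).2 (hl.le ((h n G hG).1 hP)))
    fun h1 => hl.not_ge fun a ha => ?_
  obtain ⟨F, rfl⟩ := rho_surj c a
  obtain ⟨n, H, hH, e⟩ := homog' (rho c) (rho_idx c) F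
  rw [← e] at ha ⊢
  exact (h n H hH).1 (h1 ((h' n H hH).2 ha))

theorem no_chain {c : Hp k ξ} (hc : c.IsCv) {q q' : Ideal (Af c)} (hq : q.IsPrime)
    (hq' : q'.IsPrime) (h : ⊥ < q) (h' : q < q') : False := by
  obtain ⟨y, hy⟩ := exists_rel c q hq
  obtain ⟨y', hy'⟩ := exists_rel c q' hq'
  have h1 := hy.lt hy' h'
  exact h1.ne' (hc.2 y ((rel_bot c).lt hy h) y' h1.le)

theorem le_one {c : Hp k ξ} (hc : c.IsCv) {s : ℕ} (g : MvPolynomial (Fin s) k →ₐ[k] Af c)
    (hg : Function.Injective g) (hi : g.toRingHom.IsIntegral) : s ≤ 1 := by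
  by_contra hs
  let i0 : Fin s := ⟨0, by omega⟩
  let i1 : Fin s := ⟨1, by omega⟩
  have h01 : i1 ≠ i0 := fun e => absurd (congrArg Fin.val e) one_ne_zero
  let α : MvPolynomial (Fin s) k →ₐ[k] MvPolynomial (Fin s) k :=
    aeval fun j => if j = i0 then 0 else X j
  let β : MvPolynomial (Fin s) k →ₐ[k] k := aeval fun _ => 0
  have hβ : β.comp α = β := MvPolynomial.algHom_ext fun j => by
    rw [AlgHom.comp_apply, aeval_X]
    split_ifs
    · rw [map_zero, aeval_X]
    · rfl
  let _ := g.toRingHom.toAlgebra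
  have _ : Algebra.IsIntegral (MvPolynomial (Fin s) k) (Af c) := ⟨hi⟩
  have p1 : (RingHom.ker α).IsPrime := RingHom.ker_isPrime _
  have p2 : (RingHom.ker β).IsPrime := RingHom.ker_isPrime _
  obtain ⟨q, -, hq, e⟩ := Ideal.exists_ideal_over_prime_of_isIntegral (RingHom.ker α)
    (⊥ : Ideal (Af c)) fun F hF => by
      have h1 : g F = 0 := hF
      rw [(map_eq_zero_iff g hg).1 h1]
      exact zero_mem _
  obtain ⟨q', hl, hq', e'⟩ := Ideal.exists_ideal_over_prime_of_isIntegral (RingHom.ker β) q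
    fun F hF => by
      rw [e, RingHom.mem_ker] at hF
      rw [RingHom.mem_ker, ← hβ, AlgHom.comp_apply, hF, map_zero]
  refine no_chain hc hq hq' (bot_lt_iff_ne_bot.2 fun h => ?_) (lt_of_le_of_ne hl fun h => ?_)
  · have h1 : X i0 ∈ RingHom.ker α := by rw [RingHom.mem_ker, aeval_X, if_pos rfl]
    rw [← e, h] at h1
    exact X_ne_zero i0 ((map_eq_zero_iff g hg).1 h1)
  · have h1 : X i1 ∈ RingHom.ker β := by rw [RingHom.mem_ker, aeval_X]
    rw [← e', ← h, e, RingHom.mem_ker, aeval_X, if_neg h01] at h1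
    exact X_ne_zero i1 h1

theorem fin (c : Hp k ξ) {s : ℕ} (g : MvPolynomial (Fin s) k →ₐ[k] Af c)
    (hi : g.toRingHom.IsIntegral) (E : IntermediateField k (ResidueField c.O))
    (hE : ∀ j, (g (X j) : ResidueField c.O) ∈ E) : FiniteDimensional E (ResidueField c.O) := by
  have h1 : ∀ F, (g F : ResidueField c.O) ∈ E := fun F => by
    induction F using MvPolynomial.induction_on with
    | C a => rw [algHom_C]; exact E.algebraMap_mem a
    | add p q hp hq => rw [map_add]; exact add_mem hp hq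
    | mul_X p j hp => rw [map_mul]; exact mul_mem hp (hE j)
  let _ := g.toRingHom.toAlgebra
  have h2 : ∀ a : Af c, IsIntegral E (a : ResidueField c.O) := fun a =>
    IsIntegral.map_of_comp_eq (((Af c).val.toRingHom.comp g.toRingHom).codRestrict E h1)
      (Af c).val.toRingHom rfl (hi a)
  have h3 : FiniteDimensional E (adjoin E (Set.range c.eta)) :=
    finiteDimensional_adjoin fun x ⟨j, hj⟩ => by
      have h4 := h2 (rho c (X j))
      rwa [coe_rho, aeval_X, hj] at h4
  have h4 : adjoin E (Set.range c.eta) = ⊤ := by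
    have h5 := rat_le (k := k) (ξ := c.eta) (i := c.idx) (by rw [c.eta_idx]; exact one_ne_zero)
      (adjoin E (Set.range c.eta)).toSubfield
      (fun a => (adjoin E (Set.range c.eta)).algebraMap_mem (algebraMap k E a))
      fun j => by
        rw [c.eta_idx, div_one]
        exact subset_adjoin E _ ⟨j, rfl⟩
    rw [genBy_iff.1 c.gen_eta] at h5
    exact eq_top_iff.2 fun f _ => h5 (Subfield.mem_top f)
  rw [h4] at h3
  exact (topEquiv (F := E) (E := ResidueField c.O)).toLinearEquiv.finiteDimensional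

end GFF

open GFF in
theorem rFF : RFF.{u} := by
  intro k K _ _ _ N ξ c hc
  have _ : Algebra.FiniteType k (Af c) := Algebra.FiniteType.of_surjective (rho c) (rho_surj c)
  obtain ⟨s, g, hg, hi⟩ := exists_integral_inj_algHom_of_fg k (Af c)
  have hs := le_one hc g hg hi
  obtain ⟨t, ht⟩ : ∃ t : ResidueField c.O, ∀ j, (g (X j) : ResidueField c.O) ∈ adjoin k {t} := by
    by_cases h : 0 < s
    · refine ⟨g (X ⟨0, h⟩), fun j => ?_⟩
      rw [show j = ⟨0, h⟩ from Fin.ext (by have := j.2; simp only; omega)]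
      exact mem_adjoin_simple_self k _
    · exact ⟨0, fun j => absurd j.pos h⟩
  have hf := fin c g hi _ ht
  refine ⟨t, fun h => hc.1 (cl_of_alg c fun f => ?_), hf⟩
  have _ : FiniteDimensional k (adjoin k {t}) := adjoin.finiteDimensional h.isIntegral
  have _ : FiniteDimensional k (ResidueField c.O) := Module.Finite.trans (adjoin k {t}) _
  exact IsAlgebraic.of_finite k f

end Pool.Agent.MP_f3836a_nt.PK
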