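import Pool.Agent.MP_f3836a_nt.PK.SpecG

set_option autoImplicit false

/-! Row GUp1: points over points after extension of the ground field. -/

namespace Pool.Agent.MP_f3836a_nt.PK

open MvPolynomial IsLocalRing

universe u

namespace GUp1

section One
variable {k K : Type u} [Field k] [Field K] [Algebra k K] {N : ℕ} {ξ : Fin (N + 1) → K}

theorem ptle [IsAlgClosed k] (c : Hp k ξ) : ∃ x : Pt k ξ, c.P ≤ x.hp.P := by
  obtain ⟨x, hx⟩ := EOv.pt c.toCtr c.good
  refine ⟨x, c.le_of fun n A hA h => ?_⟩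
  rw [x.mem_hp hA]
  by_contra h1
  have h2 := hx (x.ctr.div_mem (isHomogeneous_X_pow c.idx n) hA h1)
  obtain ⟨m, A', B', hA', hB', hP, e⟩ := h2
  have h3 : aeval ξ A ≠ 0 := x.ctr.aeval_ne hA h1
  have h4 : X c.idx ^ n * B' - A * A' ∈ c.P := c.van (n + m) _
    (((isHomogeneous_X_pow c.idx n).mul hB').sub (hA.mul hA')) (by
      rw [map_sub, map_mul, map_mul, ← e]
      field_simp
      ring)
  have h5 := c.P.add_mem h4 (c.P.mul_mem_right A' h)
  rw [sub_add_cancel] at h5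
  exact (c.prime.mem_or_mem h5).elim (Ctr.pow_notMem c.good n) hP

theorem pt_eq {x y : Pt k ξ} (h : x.hp.P ≤ y.hp.P) : x = y := by
  have h1 : ∀ j, y.z j = x.z j * y.z x.ctr.idx := fun j => by
    have hH : (X j - C (x.z j) * X x.ctr.idx : Pol k N).IsHomogeneous 1 :=
      (isHomogeneous_X k j).sub ((isHomogeneous_X k _).C_mul _)
    have h2 := (y.mem_hp hH).1 (h ((x.mem_hp hH).2 (by simp [x.z_idx.1])))
    simpa [sub_eq_zero] using h2
  have h2 := h1 y.ctr.idx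
  rw [y.z_idx.1] at h2
  have h3 : x.ctr.idx = y.ctr.idx := by
    rcases lt_trichotomy x.ctr.idx y.ctr.idx with hl | hl | hl
    · rw [y.z_idx.2 _ hl, mul_zero] at h2
      exact absurd h2 one_ne_zero
    · exact hl
    · rw [x.z_idx.2 _ hl, zero_mul] at h2
      exact absurd h2 one_ne_zero
  refine Pt.ext (funext fun j => ?_)
  rw [h1 j, h3, y.z_idx.1, mul_one]

theorem pt_iff [IsAlgClosed k] (c : Hp k ξ) : c.Cl ↔ ∃ x : Pt k ξ, x.hp = c := by
  constructor
  · intro h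
    obtain ⟨x, hx⟩ := ptle c
    exact ⟨x, Hp.ext_P (h _ hx)⟩
  · rintro ⟨x, rfl⟩ y hy
    obtain ⟨x', hx'⟩ := ptle y
    exact le_antisymm (pt_eq (hy.trans hx') ▸ hx') hy

end One

attribute [local instance] MvPolynomial.algebraMvPolynomial

open Stp

variable (S : Stp.{u})

theorem intg : Algebra.IsIntegral (Pol S.F S.N) (Pol S.k S.N) := by
  have : Algebra.IsIntegral S.F S.k := ⟨fun a => by
    by_cases h : a = 0
    · rw [h]
      exact isIntegral_zero
    · obtain ⟨n, hn, e⟩ := S.hk a h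
      exact IsIntegral.of_pow hn (by rw [e]; exact isIntegral_one)⟩
  infer_instance

variable {S}

theorem eq_of_le {P Q : Ideal (Pol S.k S.N)} (hP : P.IsPrime) (h : P ≤ Q)
    (e : Q.comap (map (algebraMap S.F S.k)) ≤ P.comap (map (algebraMap S.F S.k))) : P = Q := by
  have := intg S
  by_contra h1
  exact (Ideal.IsIntegral.comap_lt_comap (R := Pol S.F S.N) (lt_of_le_of_ne h h1)).not_ge e

theorem o_P {c' : S.H'} {c : S.H} (h : O c' c) :
    c'.P.comap (map (algebraMap S.F S.k)) = c.P := congrArg (fun t : S.H => t.P) (o_iff.1 h)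

theorem inc (a b : S.H') (c : S.H) (h : a.P ≤ b.P) (ha : O a c) (hb : O b c) : a = b :=
  Hp.ext_P (eq_of_le a.prime h (by rw [o_P ha, o_P hb]))

theorem lo (c : S.H) : ∃ c' : S.H', O c' c := by
  have := intg S
  have := c.prime
  obtain ⟨g, hg⟩ := exists_hp (k := S.k) (ξ := up S.K S.η) (up S.K S.η) (fun _ _ _ h => h)
    ⟨c.idx, (map_ne_zero _).2 (Ctr.xi_ne c.good)⟩
  have h1 : (g.und S.F).P ≤ c.P := Hp.le_of _ fun n A hA h => c.van n A hA (by
    have h2 := (hg n _ (hA.map _)).1 h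
    rwa [EFl.aeval_up, map_eq_zero] at h2)
  obtain ⟨Q, hQ, hp, e⟩ := Ideal.exists_ideal_over_prime_of_isIntegral c.P g.P h1
  have h2 : ∀ A : Pol S.k S.N, aeval (fun j => Ideal.Quotient.mk Q (X j)) A =
      Ideal.Quotient.mk Q A := fun A => by
    have h3 := aeval_algebraMap_apply (A := Pol S.k S.N) (Pol S.k S.N ⧸ Q) X A
    rwa [aeval_X_left_apply] at h3
  have h4 : ∀ A : Pol S.F S.N, A ∈ c.P ↔ map (algebraMap S.F S.k) A ∈ Q := fun A => by
    rw [← e]
    rfl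
  obtain ⟨c', hc'⟩ := exists_hp (k := S.k) (ξ := up S.K S.η)
    (fun j => Ideal.Quotient.mk Q (X j))
    (fun n G hG h => by
      rw [h2, Ideal.Quotient.eq_zero_iff_mem]
      exact hQ ((hg n G hG).2 h))
    ⟨c.idx, fun h => (Ctr.idx_spec c.good).1 ((h4 _).2 (by
      rw [map_X]
      exact Ideal.Quotient.eq_zero_iff_mem.1 h))⟩
  refine ⟨c', fun n A hA => ?_⟩
  rw [hc' n _ (hA.map _), h2, Ideal.Quotient.eq_zero_iff_mem]
  exact h4 A

theorem fin (c : S.H) : {c' : S.H' | O c' c}.Finite := by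
  refine Set.Finite.of_finite_image (f := fun c' : S.H' => c'.P)
    ((Ideal.finite_minimalPrimes_of_isNoetherianRing _
      (c.P.map (map (algebraMap S.F S.k)))).subset ?_) fun a _ b _ h => Hp.ext_P h
  rintro _ ⟨c', h, rfl⟩
  refine ⟨⟨c'.prime, Ideal.map_le_iff_le_comap.2 (o_P h).ge⟩, fun Q hQ hle => ?_⟩
  refine (eq_of_le hQ.1 hle ?_).ge
  rw [o_P h]
  exact Ideal.map_le_iff_le_comap.1 hQ.2

theorem cl (c' : S.H') (c : S.H) (h : O c' c) : c'.Cl ↔ c.Cl := by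
  constructor
  · intro h1
    obtain ⟨x, rfl⟩ := (pt_iff c').1 h1
    obtain ⟨y, hy, hxy⟩ := EFl.un (F := S.F) S.hk x
    have h2 : pu x = y := Hp.ext_P (le_antisymm
      (Hp.le_of _ fun n A hA h3 => (hxy n A hA).2 ((ov_pu x n A hA).1 h3))
      (Hp.le_of _ fun n A hA h3 => (ov_pu x n A hA).2 ((hxy n A hA).1 h3)))
    rw [← o_iff.1 h]
    change (pu x).Cl
    rwa [h2]
  · intro h1 y hy
    have h2 : c.P ≤ (y.und S.F).P := o_iff.1 h ▸ Hp.und_le hy
    rw [inc c' y c hy h (o_iff.2 (Hp.ext_P (h1 _ h2)))]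

theorem cv (c' : S.H') (c : S.H) (h : O c' c) (hc : c.IsCv) : c'.IsCv := by
  refine ⟨fun h1 => hc.1 ((cl c' c h).1 h1), fun y hy => ?_⟩
  have h2 : c.P ≤ (y.und S.F).P := o_iff.1 h ▸ Hp.und_le hy.le
  refine (cl y _ (o_und y)).2 (hc.2 _ (lt_of_le_of_ne h2 fun h3 => hy.ne ?_))
  rw [inc c' y c hy.le h (o_iff.2 (Hp.ext_P h3.symm))]

end GUp1

theorem rUp1 : RUp1.{u} := fun _ =>
  ⟨GUp1.lo, GUp1.inc, GUp1.fin, GUp1.pt_iff, GUp1.cl, GUp1.cv⟩

end Pool.Agent.MP_f3836a_nt.PK
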