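import Pool.Agent.MP_f3836a_nt.PK.SpecB

set_option autoImplicit false

/-! Regular local rings of dimension two. -/

namespace Pool.Agent.MP_f3836a_nt.PK

open IsLocalRing

universe u

namespace BReg

/-- with a principal maximal ideal every nonzero element is a unit times a power -/
theorem unit_pow {S : Type u} [CommRing S] [IsLocalRing S] [IsNoetherianRing S] {a : S}
    (h : maximalIdeal S = Ideal.span {a}) {x : S} (hx : x ≠ 0) :
    ∃ (n : ℕ) (c : S), IsUnit c ∧ x = c * a ^ n := by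
  classical
  have ex : ∃ n, x ∉ maximalIdeal S ^ n := by
    by_contra hc
    push Not at hc
    have := (Submodule.mem_iInf _).2 hc
    rw [Ideal.iInf_pow_eq_bot_of_isLocalRing _ (maximalIdeal.isMaximal S).ne_top] at this
    exact hx this
  have h0 : Nat.find ex ≠ 0 := fun e => by
    have := Nat.find_spec ex
    rw [e] at this
    simp at this
  obtain ⟨n, hn⟩ := Nat.exists_eq_succ_of_ne_zero h0
  have h1 : x ∈ maximalIdeal S ^ n := not_not.1 (Nat.find_min ex (by omega))
  have h2 := Nat.find_spec ex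
  rw [hn, h, Ideal.span_singleton_pow] at h2
  rw [h, Ideal.span_singleton_pow, Ideal.mem_span_singleton'] at h1
  obtain ⟨c, rfl⟩ := h1
  refine ⟨n, c, ?_, rfl⟩
  by_contra hc
  have : c ∈ Ideal.span {a} := h ▸ (mem_maximalIdeal c).2 hc
  obtain ⟨d, rfl⟩ := Ideal.mem_span_singleton'.1 this
  exact h2 (Ideal.mem_span_singleton'.2 ⟨d, by rw [pow_succ', mul_assoc]⟩)

theorem dvr {S : Type u} [CommRing S] [IsLocalRing S] [IsNoetherianRing S] {a : S}
    (h : maximalIdeal S = Ideal.span {a}) (hd : ¬ Ring.KrullDimLE 0 S) :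
    ∃ _ : IsDomain S, IsDiscreteValuationRing S := by
  have hn : ∀ n : ℕ, a ^ n ≠ 0 := fun n e => hd (Ring.krullDimLE_zero_iff.2 fun I hI => by
    have h1 : maximalIdeal S ≤ I := by
      rw [h, Ideal.span_singleton_le_iff_mem]
      exact hI.mem_of_pow_mem n (e ▸ I.zero_mem)
    rw [← (maximalIdeal.isMaximal S).eq_of_le hI.ne_top h1]
    exact maximalIdeal.isMaximal S)
  have : NoZeroDivisors S := ⟨fun {x y} e => by
    by_contra hc
    push Not at hc
    obtain ⟨n, c, hc1, rfl⟩ := unit_pow h hc.1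
    obtain ⟨k, d, hd1, rfl⟩ := unit_pow h hc.2
    refine hn (n + k) (((hc1.mul hd1).mul_right_eq_zero).1 ?_)
    rw [← e]
    ring⟩
  have dom : IsDomain S := NoZeroDivisors.to_isDomain S
  refine ⟨dom, ?_⟩
  have nf : ¬ IsField S := fun hf => by
    have : a ∈ maximalIdeal S := h ▸ Ideal.mem_span_singleton_self a
    rw [isField_iff_maximalIdeal_eq.1 hf] at this
    exact hn 1 (by simpa using this)
  have pr : (maximalIdeal S).IsPrincipal := ⟨a, h⟩
  exact ((IsDiscreteValuationRing.TFAE S nf).out 4 0).1 pr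

variable {R : Type u} [CommRing R] [IsDomain R] [IsRegularLocalRing R]

omit [IsDomain R] in
theorem rank_two (hd : ringKrullDim R = 2) : (maximalIdeal R).spanFinrank = 2 := by
  have := IsRegularLocalRing.spanFinrank_maximalIdeal (R := R)
  rw [hd] at this
  exact_mod_cast this

omit [IsDomain R] in
theorem not_principal (hd : ringKrullDim R = 2) (x : R) : Ideal.span {x} ≠ maximalIdeal R :=
  fun e => by
    have h1 := Submodule.spanFinrank_span_le_ncard_of_finite (R := R) (Set.finite_singleton x)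
    have h2 := rank_two hd
    rw [← e] at h2
    rw [Set.ncard_singleton] at h1
    have h3 : (2 : ℕ) ≤ 1 := h2 ▸ h1
    omega

omit [IsDomain R] in
theorem nak {I J : Ideal R} (h : I ≤ J ⊔ maximalIdeal R * I) : I ≤ J :=
  Submodule.le_of_le_smul_of_le_jacobson_bot (IsNoetherian.noetherian I)
    (maximalIdeal_le_jacobson _) h

omit [IsDomain R] in
theorem not_le (hd : ringKrullDim R = 2) {y : R} (hy : y ∈ maximalIdeal R) :
    ¬ maximalIdeal R ≤ Ideal.span {y} ⊔ maximalIdeal R ^ 2 := fun h =>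
  not_principal hd y (le_antisymm ((Ideal.span_singleton_le_iff_mem _).2 hy)
    (nak (by rwa [← sq])))

omit [IsDomain R] in
theorem ex_y (hd : ringKrullDim R = 2) : ∃ y ∈ maximalIdeal R, y ∉ maximalIdeal R ^ 2 := by
  by_contra hc
  push Not at hc
  exact not_le hd (Ideal.zero_mem _) (le_sup_of_le_right hc)

omit [IsDomain R] in
theorem swap {p q y α β : R} (h : maximalIdeal R = Ideal.span {p, q}) (e : α * p + β * q = y)
    (hβ : IsUnit β) : maximalIdeal R = Ideal.span {p, y} := by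
  obtain ⟨b, rfl⟩ := hβ
  rw [h]
  refine le_antisymm (Ideal.span_le.2 ?_) (Ideal.span_le.2 ?_)
  · rintro x (rfl | rfl)
    · exact Ideal.subset_span (Or.inl rfl)
    · refine Ideal.mem_span_pair.2 ⟨-(↑b⁻¹ * α), ↑b⁻¹, ?_⟩
      rw [← e, mul_add, ← mul_assoc (↑b⁻¹ : R) (b : R), Units.inv_mul]
      ring
  · rintro x (rfl | rfl)
    · exact Ideal.subset_span (Or.inl rfl)
    · exact Ideal.mem_span_pair.2 ⟨α, b, e⟩

omit [IsDomain R] in
theorem ex_a (hd : ringKrullDim R = 2) {y : R} (hy : y ∈ maximalIdeal R)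
    (hy' : y ∉ maximalIdeal R ^ 2) : ∃ a : R, maximalIdeal R = Ideal.span {a, y} := by
  obtain ⟨s, h1, h2⟩ := Submodule.FG.exists_span_set_encard_eq_spanFinrank
    (IsNoetherian.noetherian (maximalIdeal R))
  rw [rank_two hd] at h1
  obtain ⟨p, q, -, rfl⟩ := Set.encard_eq_two.1 h1
  have h : maximalIdeal R = Ideal.span {p, q} := h2.symm
  have hp : p ∈ maximalIdeal R := h ▸ Ideal.subset_span (Or.inl rfl)
  have hq : q ∈ maximalIdeal R := h ▸ Ideal.subset_span (Or.inr rfl)
  obtain ⟨α, β, e⟩ := Ideal.mem_span_pair.1 (h ▸ hy)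
  by_cases hβ : IsUnit β
  · exact ⟨p, swap h e hβ⟩
  by_cases hα : IsUnit α
  · exact ⟨q, swap (h.trans (by rw [Set.pair_comm])) ((add_comm _ _).trans e) hα⟩
  refine absurd ?_ hy'
  rw [← e, sq]
  exact Ideal.add_mem _ (Ideal.mul_mem_mul ((mem_maximalIdeal α).2 hα) hp)
    (Ideal.mul_mem_mul ((mem_maximalIdeal β).2 hβ) hq)

theorem quot (hd : ringKrullDim R = 2) {y : R} (hy : y ∈ maximalIdeal R)
    (hy' : y ∉ maximalIdeal R ^ 2) : Prime y ∧
    ∃ _ : IsDomain (R ⧸ Ideal.span {y}), IsDiscreteValuationRing (R ⧸ Ideal.span {y}) := by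
  obtain ⟨a, ha⟩ := ex_a hd hy hy'
  have y0 : y ≠ 0 := fun e => hy' (e ▸ Ideal.zero_mem _)
  have nt : Ideal.span {y} ≠ ⊤ := fun e =>
    (mem_maximalIdeal y).1 hy (Ideal.span_singleton_eq_top.1 e)
  have := Ideal.Quotient.nontrivial_iff.2 nt
  have := IsLocalRing.of_surjective' (Ideal.Quotient.mk (Ideal.span {y}))
    Ideal.Quotient.mk_surjective
  have hm : maximalIdeal (R ⧸ Ideal.span {y}) = Ideal.span {Ideal.Quotient.mk _ a} := by
    rw [← map_maximalIdeal_of_surjective _ (Ideal.Quotient.mk_surjective (I := Ideal.span {y})), ha,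
      Ideal.map_span, Set.image_pair,
      Ideal.Quotient.eq_zero_iff_mem.2 (Ideal.mem_span_singleton_self y), Set.pair_comm,
      Ideal.span_insert_zero]
  have h1 := ringKrullDim_quotient_span_singleton_succ_eq_ringKrullDim_of_mem_nonZeroDivisors
    (mem_nonZeroDivisors_of_ne_zero y0) hy
  obtain ⟨dom, hv⟩ := dvr hm fun h0 => by
    have h2 := Ring.krullDimLE_iff.1 h0
    have h3 : ringKrullDim (R ⧸ Ideal.span {y}) + 1 ≤ ((0 : ℕ) : WithBot ℕ∞) + 1 := by gcongr
    rw [h1, hd] at h3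
    exact absurd h3 (by decide)
  exact ⟨(Ideal.span_singleton_prime y0).1 ((Ideal.Quotient.isDomain_iff_prime _).1 dom), dom, hv⟩

theorem principal (hd : ringKrullDim R = 2) (I : Ideal R) (hI : I.IsPrime) (h0 : I ≠ ⊥)
    (hm : I ≠ maximalIdeal R) : ∃ π : R, Prime π ∧ I = Ideal.span {π} := by
  obtain ⟨y, hy, hy'⟩ := ex_y hd
  obtain ⟨py, dom, hv⟩ := quot hd hy hy'
  have sj := Ideal.Quotient.mk_surjective (I := Ideal.span {y})
  by_cases h : y ∈ I
  · have le := (Ideal.span_singleton_le_iff_mem I).2 h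
    have hp := Ideal.isPrime_map_quotientMk_of_isPrime le
    have cm : (I.map (Ideal.Quotient.mk (Ideal.span {y}))).comap (Ideal.Quotient.mk _) = I := by
      rw [Ideal.comap_map_mk le]
    by_cases hb : I.map (Ideal.Quotient.mk (Ideal.span {y})) = ⊥
    · refine ⟨y, py, ?_⟩
      rw [← cm, hb, ← RingHom.ker_eq_comap_bot, Ideal.mk_ker]
    · have := hp.isMaximal hb
      exact absurd (eq_maximalIdeal (cm ▸ Ideal.comap_isMaximal_of_surjective _ sj)) hm
  · obtain ⟨g, hg⟩ := (IsPrincipalIdealRing.principal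
      (I.map (Ideal.Quotient.mk (Ideal.span {y})))).principal
    have hg : I.map (Ideal.Quotient.mk (Ideal.span {y})) = Ideal.span {g} := hg
    obtain ⟨π, hπ, rfl⟩ := (Ideal.mem_map_iff_of_surjective _ sj).1
      (hg ▸ Ideal.mem_span_singleton_self g)
    have e : I = Ideal.span {π} := by
      refine le_antisymm (nak fun x hx => ?_) ((Ideal.span_singleton_le_iff_mem I).2 hπ)
      obtain ⟨c, hc⟩ := Ideal.mem_span_singleton'.1 (hg ▸ Ideal.mem_map_of_mem _ hx)
      obtain ⟨c, rfl⟩ := sj c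
      rw [← map_mul, eq_comm, Ideal.Quotient.eq, Ideal.mem_span_singleton'] at hc
      obtain ⟨r, hr⟩ := hc
      have hr' : r ∈ I := (hI.mem_or_mem (hr ▸ I.sub_mem hx (I.mul_mem_left c hπ))).resolve_right h
      have : x = c * π + y * r := by rw [mul_comm y, hr]; ring
      rw [this]
      exact Submodule.add_mem_sup (Ideal.mem_span_singleton'.2 ⟨c, rfl⟩) (Ideal.mul_mem_mul hy hr')
    have π0 : π ≠ 0 := fun z => h0 (by rw [e, z, Ideal.span_singleton_zero])
    exact ⟨π, (Ideal.span_singleton_prime π0).1 (e ▸ hI), e⟩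

end BReg

open BReg in
theorem rReg : RReg.{u} := by
  intro R _ _ _ hd
  refine ⟨ex_y hd, fun y hy hy' => quot hd hy hy', ?_, principal hd, fun π hπ =>
    ⟨not_principal hd π, ?_⟩, fun y hy hy' => ?_⟩
  · refine UniqueFactorizationMonoid.iff_exists_prime_mem_of_isPrime.2 fun I h0 hI => ?_
    by_cases hm : I = maximalIdeal R
    · obtain ⟨y, hy, hy'⟩ := ex_y hd
      exact ⟨y, hm ▸ hy, (quot hd hy hy').1⟩
    · obtain ⟨π, hπ, e⟩ := principal hd I hI h0 hm
      exact ⟨π, e ▸ Ideal.mem_span_singleton_self π, hπ⟩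
  · have h := ringKrullDim_quotient_succ_le_of_nonZeroDivisor
      (mem_nonZeroDivisors_of_ne_zero hπ.ne_zero)
    rw [hd, ← one_add_one_eq_two, ENat.WithBot.add_le_add_one_right_iff] at h
    exact Ring.krullDimLE_iff.2 (by simpa using h)
  · obtain ⟨a, ha⟩ := ex_a hd hy hy'
    refine ⟨a, ha, fun h => BReg.not_le hd hy ?_⟩
    refine ha.trans_le (Ideal.span_le.2 ?_)
    rintro x (rfl | rfl)
    · exact h
    · exact Ideal.mem_sup_left (Ideal.mem_span_singleton_self _)

end Pool.Agent.MP_f3836a_nt.PK
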