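import Pool.Agent.MP_f3836a_nt.PK.SpecC

set_option autoImplicit false

/-! Row CCvA: generators of the ideal of the surface; curves and prime elements. -/

namespace Pool.Agent.MP_f3836a_nt.PK

open MvPolynomial IsLocalRing

universe u

namespace CCvA

/-- scaling the argument of a form -/
theorem aeval_mul {k S σ : Type*} [CommRing k] [CommRing S] [Algebra k S] {A : MvPolynomial σ k}
    {n : ℕ} (hA : A.IsHomogeneous n) (c : S) (y : σ → S) :
    aeval (fun j => c * y j) A = c ^ n * aeval y A := by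
  classical
  conv_lhs => rw [A.as_sum]
  conv_rhs => rw [A.as_sum]
  rw [map_sum, map_sum, Finset.mul_sum]
  refine Finset.sum_congr rfl fun d hd => ?_
  rw [aeval_monomial, aeval_monomial, hA.degree_eq_sum_deg_support hd]
  simp only [Finsupp.prod, mul_pow, Finset.prod_mul_distrib, Finset.prod_pow_eq_pow_sum]
  ring

section Loc
variable {K : Type u} [Field K]

theorem unit_iff (O : Subring K) (f : O) : IsUnit f ↔ (f : K) ≠ 0 ∧ (f : K)⁻¹ ∈ O := by
  constructor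
  · intro hu
    obtain ⟨g, hg⟩ := hu.exists_right_inv
    have hg' : (f : K) * g = 1 := congrArg Subtype.val hg
    have hf : (f : K) ≠ 0 := left_ne_zero_of_mul_eq_one hg'
    refine ⟨hf, ?_⟩
    rw [← eq_inv_of_mul_eq_one_right hg']
    exact g.2
  · rintro ⟨hf, hi⟩
    exact IsUnit.of_mul_eq_one ⟨_, hi⟩ (Subtype.ext (mul_inv_cancel₀ hf))

variable {R O : Subring K} {π : R}

theorem loc_unit (hπ : Prime π)
    (h : ∀ f : K, f ∈ O ↔ ∃ a b : R, ¬ π ∣ b ∧ f * b = a) (f : O) (a b : R) (hb : ¬ π ∣ b)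
    (hf : (f : K) * b = a) : IsUnit f ↔ ¬ π ∣ a := by
  rw [unit_iff]
  constructor
  · rintro ⟨hf0, hi⟩ ha
    obtain ⟨a', b', hb', h'⟩ := (h _).1 hi
    have h1 : b * b' = a * a' := Subtype.ext (by
      simp only [Subring.coe_mul]
      rw [← hf, ← h']
      field_simp)
    exact (hπ.dvd_or_dvd (h1 ▸ ha.mul_right a')).elim hb hb'
  · intro ha
    have ha0 : (a : K) ≠ 0 := fun h0 => ha (by
      rw [show a = 0 from Subtype.ext h0]; exact dvd_zero _)
    have hf0 : (f : K) ≠ 0 := fun h0 => ha0 (by rw [← hf, h0, zero_mul])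
    refine ⟨hf0, (h _).2 ⟨b, a, ha, ?_⟩⟩
    rw [← hf, ← mul_assoc, inv_mul_cancel₀ hf0, one_mul]

theorem loc_le (hπ : Prime π) (h : ∀ f : K, f ∈ O ↔ ∃ a b : R, ¬ π ∣ b ∧ f * b = a) (a : R) :
    (a : K) ∈ O :=
  (h _).2 ⟨a, 1, hπ.not_dvd_one, by simp⟩

theorem loc_dvr [WfDvdMonoid R] (hπ : Prime π)
    (h : ∀ f : K, f ∈ O ↔ ∃ a b : R, ¬ π ∣ b ∧ f * b = a) : IsDiscreteValuationRing O := by
  have hne : ∀ b : R, ¬ π ∣ b → (b : K) ≠ 0 := fun b hb h0 => hb (by
    rw [show b = 0 from Subtype.ext h0]; exact dvd_zero _)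
  have hπ0 : (π : K) ≠ 0 := fun h0 => hπ.ne_zero (Subtype.ext h0)
  refine IsDiscreteValuationRing.ofHasUnitMulPowIrreducibleFactorization
    ⟨⟨π, loc_le hπ h π⟩, ⟨?_, ?_⟩, ?_⟩
  · rw [loc_unit hπ h _ π 1 hπ.not_dvd_one (by simp)]
    exact not_not.mpr dvd_rfl
  · have key : ∀ (f g : O) (a b a' b' : R), (π : K) = f * g → ¬ π ∣ b → (f : K) * b = a →
        ¬ π ∣ b' → (g : K) * b' = a' → π ∣ a → IsUnit g := by
      rintro f g a b a' b' hfg hb hf hb' hg ⟨c, hc⟩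
      rw [loc_unit hπ h g a' b' hb' hg]
      intro ha'
      have h1 : b * b' = c * a' := Subtype.ext (by
        have hc' : (a : K) = π * c := by rw [hc]; rfl
        simp only [Subring.coe_mul]
        apply mul_left_cancel₀ hπ0
        linear_combination ((b : K) * b') * hfg + ((g : K) * b') * hf + (a : K) * hg +
          (a' : K) * hc')
      exact (hπ.dvd_or_dvd (h1 ▸ ha'.mul_left c)).elim hb hb'
    intro f g hfg
    have hfg' : (π : K) = f * g := congrArg Subtype.val hfg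
    obtain ⟨a, b, hb, hf⟩ := (h _).1 f.2
    obtain ⟨a', b', hb', hg⟩ := (h _).1 g.2
    have h1 : π * (b * b') = a * a' := Subtype.ext (by
      simp only [Subring.coe_mul]
      linear_combination ((b : K) * b') * hfg' + ((g : K) * b') * hf + (a : K) * hg)
    rcases hπ.dvd_or_dvd (h1 ▸ dvd_mul_right π (b * b')) with ha | ha
    · exact Or.inr (key f g a b a' b' hfg' hb hf hb' hg ha)
    · exact Or.inl (key g f a' b' a b (by rw [hfg', mul_comm]) hb' hg hb hf ha)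
  · intro f hf0
    obtain ⟨a, b, hb, hf⟩ := (h _).1 f.2
    have hf0' : (f : K) ≠ 0 := fun h0 => hf0 (Subtype.ext h0)
    have ha0 : a ≠ 0 := fun h0 => mul_ne_zero hf0' (hne b hb) (by rw [hf, h0]; rfl)
    obtain ⟨n, c, hc, hac⟩ := WfDvdMonoid.max_power_factor ha0 hπ.irreducible
    have hm : (c : K) / b ∈ O := (h _).2 ⟨c, b, hb, div_mul_cancel₀ _ (hne b hb)⟩
    have hu : IsUnit (⟨(c : K) / b, hm⟩ : O) :=
      (loc_unit hπ h _ c b hb (div_mul_cancel₀ _ (hne b hb))).2 hc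
    refine ⟨n, hu.unit, Subtype.ext ?_⟩
    have hac' : (a : K) = π ^ n * c := by rw [hac]; simp
    simp only [IsUnit.unit_spec, Subring.coe_mul, SubmonoidClass.coe_pow]
    rw [← mul_div_assoc, ← hac', ← hf, mul_div_cancel_right₀ _ (hne b hb)]

end Loc

variable {k K : Type u} [Field k] [Field K] [Algebra k K] {N : ℕ} {ξ : Fin (N + 1) → K}

theorem P_le {C C' : Cv k ξ} (h : C.O = C'.O) : C.P ≤ C'.P := by
  have hi := Ctr.xi_ne C.good
  have hi' := Ctr.xi_ne C'.good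
  have hX := (Ctr.idx_spec C.good).1
  have hX' := (Ctr.idx_spec C'.good).1
  have h1 : ξ C.idx / ξ C'.idx ∈ C'.O := by
    simpa using C'.div_mem (isHomogeneous_X k C.idx) (isHomogeneous_X k C'.idx) hX'
  have h2 : ξ C'.idx / ξ C.idx ∈ C.O := by
    simpa using C.div_mem (isHomogeneous_X k C'.idx) (isHomogeneous_X k C.idx) hX
  have h3 : X C.idx ∉ C'.P := by
    rw [← C'.mem_max_iff ⟨_, h1⟩ (isHomogeneous_X k C.idx) (isHomogeneous_X k C'.idx) hX'
      (by simp [div_mul_cancel₀ _ hi']), mem_maximalIdeal, mem_nonunits_iff, not_not, unit_iff]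
    exact ⟨div_ne_zero hi hi', by simpa [h] using h2⟩
  have h4 : ∀ (n : ℕ) (A : Pol k N), A.IsHomogeneous n → A ∈ C.P → A ∈ C'.P := by
    intro n A hA hP
    have hm := (Ctr.lx_mem_max C.good (Form.of hA)).2 hP
    have hO : C.lo A ∈ C'.O := h ▸ Ctr.lo_mem C.good (Form.of hA)
    rw [← C'.mem_max_iff ⟨_, hO⟩ hA (isHomogeneous_X_pow C.idx n)
      (fun hh => h3 (C'.prime.mem_of_pow_mem n hh)) (Ctr.lo_spec C.good hA)]
    rw [mem_maximalIdeal, mem_nonunits_iff, unit_iff] at hm ⊢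
    rw [Ctr.coe_lx C.good (Form.of hA), h] at hm
    exact hm
  intro G hG
  rw [← sum_homogeneousComponent G]
  exact Ideal.sum_mem _ fun n _ =>
    h4 n _ (homogeneousComponent_isHomogeneous n G) (C.hom G hG n)

theorem ext (C C' : Cv k ξ) (h : C.O = C'.O) : C = C' := by
  have hP : C.P = C'.P := le_antisymm (P_le h) (P_le h.symm)
  obtain ⟨⟨P, _, _⟩, _, _⟩ := C
  obtain ⟨⟨P', _, _⟩, _, _⟩ := C'
  cases hP
  rfl

theorem pt [IsAlgClosed k] (C : Cv k ξ) : ∃ x : Pt k ξ, x.On C := by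
  classical
  haveI := C.prime
  have hX := (Ctr.idx_spec C.good).1
  rw [← IsPrime.vanishingIdeal_zeroLocus (K := k) C.P, mem_vanishingIdeal_iff] at hX
  push Not at hX
  obtain ⟨z, hz, hzi⟩ := hX
  rw [aeval_X] at hzi
  obtain ⟨i, hi, hmin⟩ := WellFounded.has_min (wellFounded_lt (α := Fin (N + 1)))
    {i | z i ≠ 0} ⟨_, hzi⟩
  have hv : ∀ (n : ℕ) (G : Pol k N), G.IsHomogeneous n → G ∈ C.P →
      eval (fun j => (z i)⁻¹ * z j) G = 0 := by
    intro n G hG hP
    rw [← coe_aeval_eq_eval]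
    change aeval _ G = 0
    rw [aeval_mul hG, hz G hP, mul_zero]
  refine ⟨⟨fun j => (z i)⁻¹ * z j, ⟨i, inv_mul_cancel₀ hi, fun j hj => ?_⟩,
    fun n G hG h0 => hv n G hG (C.van n G hG h0)⟩, hv⟩
  have : z j = 0 := by_contra fun hn => hmin j hn hj
  rw [this, mul_zero]

theorem res_lx {x : Pt k ξ} {C : Cv k ξ} (hx : x.On C) {n : ℕ} {B : Pol k N}
    (hB : B.IsHomogeneous n) : C.res (x.ctr.lx B) = 0 ↔ B ∈ C.P := by
  have hm : (x.ctr.lx B : K) ∈ C.O := hx.le (x.ctr.lx B).2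
  have hX : (X x.ctr.idx ^ n : Pol k N) ∉ C.P := fun hh =>
    Ctr.pow_notMem x.good n (hx n _ (isHomogeneous_X_pow _ _) hh)
  rw [C.res_of_mem ⟨_, hm⟩, residue_eq_zero_iff,
    C.mem_max_iff ⟨_, hm⟩ hB (isHomogeneous_X_pow _ _) hX]
  change (x.ctr.lx B : K) * _ = _
  rw [Ctr.coe_lx x.good (Form.of hB)]
  exact Ctr.lo_spec x.good hB

theorem lx_frac (x : Pt k ξ) {n : ℕ} {A B : Pol k N} (hA : A.IsHomogeneous n)
    (hB : B.IsHomogeneous n) {f : K} (h : f * aeval ξ B = aeval ξ A) :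
    f * x.ctr.lx B = x.ctr.lx A := by
  rw [Ctr.coe_lx x.good (Form.of hA), Ctr.coe_lx x.good (Form.of hB), x.ctr.lo_eq hA,
    x.ctr.lo_eq hB, ← h, mul_div_assoc]

/-- the local ring of the curve is a localization of the local ring of the point -/
theorem loc {x : Pt k ξ} {C : Cv k ξ} (hx : x.On C) (f : K) :
    f ∈ C.O ↔ ∃ a b : x.ctr.O, C.res b ≠ 0 ∧ f * b = a := by
  constructor
  · rintro ⟨n, A, B, hA, hB, hP, h⟩
    exact ⟨x.ctr.lx A, x.ctr.lx B, fun h0 => hP ((res_lx hx hB).1 h0), lx_frac x hA hB h⟩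
  · rintro ⟨a, b, hb, h⟩
    have hm : (b : K) ∈ C.O := hx.le b.2
    rw [C.res_of_mem ⟨_, hm⟩, Ne, residue_eq_zero_iff, mem_maximalIdeal, mem_nonunits_iff,
      not_not, unit_iff] at hb
    have : f = a * (b : K)⁻¹ := by rw [← h, mul_inv_cancel_right₀ hb.1]
    rw [this]
    exact C.O.mul_mem (hx.le a.2) hb.2

theorem on (hR : RReg.{u}) (hS : IsSurf k ξ) (x : Pt k ξ) (C : Cv k ξ) (hx : x.On C) :
    ∃ π : x.ctr.O, Prime π ∧ (∀ a : x.ctr.O, π ∣ a ↔ C.res a = 0) ∧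
    ∀ f : K, f ∈ C.O ↔ ∃ a b : x.ctr.O, ¬ π ∣ b ∧ f * b = a := by
  haveI := hS.reg x
  let q : Ideal x.ctr.O := (maximalIdeal C.O).comap (Subring.inclusion hx.le)
  have hq : ∀ a : x.ctr.O, a ∈ q ↔ C.res a = 0 := fun a => by
    rw [C.res_of_mem ⟨_, hx.le a.2⟩, residue_eq_zero_iff]
    rfl
  have h0 : q ≠ ⊥ := by
    intro hb
    have hall : ∀ f : K, f ∈ C.O := by
      intro f
      obtain ⟨n, A, B, hA, hB, hB0, h⟩ := hS.gen f
      refine (loc hx f).2 ⟨x.ctr.lx A, x.ctr.lx B, fun h1 => ?_, lx_frac x hA hB h⟩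
      have h2 := (hq _).2 h1
      rw [hb, Ideal.mem_bot] at h2
      apply Ctr.lo_ne x.good hB0
      rw [← Ctr.coe_lx x.good (Form.of hB), h2]
      rfl
    have hf : IsField C.O := by
      rw [isField_iff_maximalIdeal_eq, eq_bot_iff]
      intro f hf
      rw [mem_maximalIdeal, mem_nonunits_iff, unit_iff] at hf
      by_contra h1
      exact hf ⟨fun h2 => h1 (Subtype.ext h2), hall _⟩
    have := C.dim
    rw [ringKrullDim_eq_zero_of_isField hf] at this
    exact absurd this (by decide)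
  have h1 : q ≠ maximalIdeal x.ctr.O := by
    intro hm
    have hle : C.O ≤ x.ctr.O := by
      intro f hf
      obtain ⟨a, b, hb, h⟩ := (loc hx f).1 hf
      have h2 : b ∉ maximalIdeal x.ctr.O := fun hh => hb ((hq b).1 (hm ▸ hh))
      rw [mem_maximalIdeal, mem_nonunits_iff, not_not, unit_iff] at h2
      have : f = a * (b : K)⁻¹ := by rw [← h, mul_inv_cancel_right₀ h2.1]
      rw [this]
      exact x.ctr.O.mul_mem a.2 h2.2
    have he : C.O = x.ctr.O := le_antisymm hle hx.le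
    have h2 := C.dim
    have h3 := hS.dim x
    rw [he, h3] at h2
    exact absurd h2 (by decide)
  obtain ⟨π, hπ, hqπ⟩ := (hR x.ctr.O (hS.dim x)).2.2.2.1 q (Ideal.comap_isPrime _ _) h0 h1
  have hd : ∀ a : x.ctr.O, π ∣ a ↔ C.res a = 0 := fun a => by
    rw [← hq, hqπ, Ideal.mem_span_singleton]
  refine ⟨π, hπ, hd, fun f => ?_⟩
  rw [loc hx]
  simp only [hd, Ne]

theorem aeval_lx (x : Pt k ξ) {n : ℕ} {A : Pol k N} (hA : A.IsHomogeneous n) :
    aeval (fun j => x.ctr.lx (X j : Pol k N)) A = x.ctr.lx A := by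
  apply Subtype.ext
  have h1 := comp_aeval_apply (f := fun j => x.ctr.lx (X j : Pol k N))
    (IsScalarTower.toAlgHom k x.ctr.O K) A
  have h2 : (fun j => IsScalarTower.toAlgHom k x.ctr.O K (x.ctr.lx (X j : Pol k N))) =
      fun j => (ξ x.ctr.idx)⁻¹ * ξ j := by
    funext j
    change (x.ctr.lx (X j : Pol k N) : K) = _
    rw [Ctr.coe_lx x.good (Form.of (isHomogeneous_X k j)), Ctr.lo_X, div_eq_inv_mul]
  rw [h2, aeval_mul hA] at h1
  rw [Ctr.coe_lx x.good (Form.of hA), x.ctr.lo_eq hA, div_eq_inv_mul, ← inv_pow]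
  exact h1

theorem exists_phi (x : Pt k ξ) {D : Type u} [CommRing D] [Algebra k D] (g : x.ctr.O →ₐ[k] D) :
    ∃ φ : Pol k N →ₐ[k] Polynomial D, ∀ (n : ℕ) (A : Pol k N), A.IsHomogeneous n →
      φ A = Polynomial.monomial n (g (x.ctr.lx A)) := by
  let mk : x.ctr.O →ₐ[k] Polynomial D := (Polynomial.CAlgHom).comp g
  refine ⟨aeval fun j => Polynomial.X * mk (x.ctr.lx (X j : Pol k N)), fun n A hA => ?_⟩
  rw [aeval_mul hA, ← comp_aeval_apply, aeval_lx x hA, ← Polynomial.C_mul_X_pow_eq_monomial,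
    mul_comm]
  rfl

theorem ofP (hS : IsSurf k ξ) (x : Pt k ξ) (π : x.ctr.O) (hπ : Prime π) :
    ∃ C : Cv k ξ, x.On C ∧ ∀ a : x.ctr.O, π ∣ a ↔ C.res a = 0 := by
  haveI := hS.reg x
  haveI : (Ideal.span {π}).IsPrime := (Ideal.span_singleton_prime hπ.ne_zero).2 hπ
  obtain ⟨φ, hφ⟩ := exists_phi x (Ideal.Quotient.mkₐ k (Ideal.span {π}))
  simp only [Ideal.Quotient.mkₐ_eq_mk] at hφ
  have hP : ∀ (n : ℕ) (A : Pol k N), A.IsHomogeneous n →
      (A ∈ RingHom.ker φ ↔ π ∣ x.ctr.lx A) := by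
    intro n A hA
    rw [RingHom.mem_ker, hφ n A hA, Polynomial.monomial_eq_zero_iff,
      Ideal.Quotient.eq_zero_iff_mem, Ideal.mem_span_singleton]
  let c : Ctr k ξ := ⟨RingHom.ker φ, RingHom.ker_isPrime _, fun n G hG h0 => by
    rw [hP n G hG]
    have : x.ctr.lx G = 0 := Subtype.ext (by
      rw [Ctr.coe_lx x.good (Form.of hG), x.ctr.lo_eq hG, h0, zero_div]; rfl)
    rw [this]
    exact dvd_zero _⟩
  have hnu : ∀ (n : ℕ) (B : Pol k N), B.IsHomogeneous n → B ∉ x.ctr.P → ¬ π ∣ x.ctr.lx B := by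
    intro n B hB h1 h2
    rw [← Ctr.lx_mem_max x.good (Form.of hB), mem_maximalIdeal, mem_nonunits_iff, not_not] at h1
    exact hπ.not_isUnit (isUnit_of_dvd_unit h2 h1)
  have hO : ∀ f : K, f ∈ c.O ↔ ∃ a b : x.ctr.O, ¬ π ∣ b ∧ f * b = a := by
    intro f
    constructor
    · rintro ⟨n, A, B, hA, hB, h1, h⟩
      exact ⟨x.ctr.lx A, x.ctr.lx B, fun h2 => h1 ((hP n B hB).2 h2), lx_frac x hA hB h⟩
    · rintro ⟨a, b, hb, h⟩
      obtain ⟨n, A, B, hA, hB, h1, ha⟩ := a.2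
      obtain ⟨m, A', B', hA', hB', h1', hb'⟩ := b.2
      refine ⟨n + m, A * B', B * A', hA.mul hB', hB.mul hA', fun hh => ?_, ?_⟩
      · rcases c.prime.mem_or_mem hh with h2 | h2
        · exact hnu n B hB h1 ((hP n B hB).1 h2)
        · have h3 : b * x.ctr.lx B' = x.ctr.lx A' := Subtype.ext (lx_frac x hA' hB' hb')
          have h4 := (hP m A' hA').1 h2
          rw [← h3] at h4
          exact (hπ.dvd_or_dvd h4).elim hb (hnu m B' hB' h1')
      · simp only [map_mul]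
        linear_combination (-(f * aeval ξ B)) * hb' + (aeval ξ B * aeval ξ B') * h +
          aeval ξ B' * ha
  have hdvr : IsDiscreteValuationRing c.O := loc_dvr hπ hO
  have hhom : ∀ G ∈ c.P, ∀ n : ℕ, homogeneousComponent n G ∈ c.P := by
    intro G hG n
    by_cases hn : G.totalDegree < n
    · rw [homogeneousComponent_eq_zero _ _ hn]
      exact c.P.zero_mem
    have h1 : φ G = 0 := hG
    rw [← sum_homogeneousComponent G, map_sum,
      Finset.sum_congr rfl fun m _ => hφ m _ (homogeneousComponent_isHomogeneous m G)] at h1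
    have h2 := congrArg (Polynomial.coeff · n) h1
    simp only [Polynomial.finsetSum_coeff, Polynomial.coeff_monomial, Finset.sum_ite_eq',
      Finset.mem_range, Polynomial.coeff_zero] at h2
    rw [if_pos (by omega)] at h2
    change φ _ = 0
    rw [hφ n _ (homogeneousComponent_isHomogeneous n G), h2, map_zero]
  let C : Cv k ξ := ⟨c, hhom, IsDiscreteValuationRing.ringKrullDim_eq_one _⟩
  refine ⟨C, fun n G hG h1 => ?_, fun a => ?_⟩
  · by_contra h2
    exact hnu n G hG h2 ((hP n G hG).1 h1)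
  · have hm : (a : K) ∈ C.O := loc_le hπ hO a
    rw [C.res_of_mem ⟨_, hm⟩, residue_eq_zero_iff, mem_maximalIdeal, mem_nonunits_iff,
      loc_unit hπ hO ⟨_, hm⟩ a 1 hπ.not_dvd_one (by simp), not_not]

end CCvA

theorem rGens : RGens.{u} := by
  intro k K _ _ _ N ξ
  obtain ⟨𝒢, h1, h2⟩ := (Submodule.fg_span_iff_fg_span_finset_subset
    {G : Pol k N | Form G ∧ aeval ξ G = 0}).1
    (IsNoetherian.noetherian (Ideal.span {G : Pol k N | Form G ∧ aeval ξ G = 0}))
  refine ⟨𝒢, fun G hG => h1 hG, fun H hH h0 => ?_⟩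
  change H ∈ Submodule.span (Pol k N) (𝒢 : Set (Pol k N))
  rw [← h2]
  exact Submodule.subset_span ⟨hH, h0⟩

theorem rCvA : RReg.{u} → RCvA.{u} := by
  intro hR k K _ _ _ _ p _ _ N ξ 𝒢 hS _
  refine ⟨CCvA.ext, CCvA.pt, fun C => ?_, CCvA.on hR hS, CCvA.ofP hS,
    fun x C C' hx hx' h => CCvA.ext C C' (Subring.ext fun f => ?_)⟩
  · obtain ⟨x, hx⟩ := CCvA.pt C
    obtain ⟨π, hπ, -, h⟩ := CCvA.on hR hS x C hx
    haveI := hS.reg x
    exact CCvA.loc_dvr hπ h
  · rw [CCvA.loc hx, CCvA.loc hx']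
    simp only [Ne, h]

end Pool.Agent.MP_f3836a_nt.PK
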