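import Pool.Agent.MP_f3836a_nt.PK.SpecC
import Pool.Agent.MP_f3836a_nt.PK.Ord

set_option autoImplicit false

/-! Finiteness statements on the surface. -/

namespace Pool.Agent.MP_f3836a_nt.PK

open MvPolynomial IsLocalRing

universe u

namespace CFinA

variable {k K : Type u} [Field k] [Field K] [Algebra k K] {N : ℕ} {ξ : Fin (N + 1) → K}

theorem cv_ext {C C' : Cv k ξ} (h : C.P = C'.P) : C = C' := by
  obtain ⟨⟨P, _, _⟩, _, _⟩ := C
  obtain ⟨⟨P', _, _⟩, _, _⟩ := C'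
  cases h
  rfl

theorem le_of_forms (C : Cv k ξ) {Q : Ideal (Pol k N)}
    (h : ∀ B : Pol k N, Form B → B ∈ C.P → B ∈ Q) : C.P ≤ Q := fun G hG => by
  rw [← G.sum_homogeneousComponent]
  exact Q.sum_mem fun n _ => h _ (Form.of (homogeneousComponent_isHomogeneous n G)) (C.hom G hG n)

/-- A smaller prime gives a prime of the local ring. -/
theorem sub {c : Ctr k ξ} (hc : c.Good) (d : Ctr k ξ) (h : d.P ≤ c.P) :
    ∃ q : Ideal c.O, q.IsPrime ∧ ∀ B : Pol k N, Form B → (c.lx B ∈ q ↔ B ∈ d.P) := by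
  have le : c.O ≤ d.O := fun f ⟨n, A, B, hA, hB, hP, hf⟩ =>
    ⟨n, A, B, hA, hB, fun hh => hP (h hh), hf⟩
  refine ⟨(maximalIdeal d.O).comap (Subring.inclusion le), Ideal.comap_isPrime _ _,
    fun B hB => ?_⟩
  exact d.mem_max_iff _ hB (isHomogeneous_X_pow _ _) (fun hh => Ctr.pow_notMem hc _ (h hh))
    (by rw [← Ctr.lo_spec hc hB, ← Ctr.coe_lx hc hB]; rfl)

theorem lx_ne {c : Ctr k ξ} (hc : c.Good) {A : Pol k N} (hA : Form A) (h : aeval ξ A ≠ 0) :
    c.lx A ≠ 0 := fun e => Ctr.lo_ne hc h (by rw [← Ctr.coe_lx hc hA, e]; rfl)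

theorem res_zero (C : Cv k ξ) {f : K} {n : ℕ} {A B : Pol k N} (hA : A.IsHomogeneous n)
    (hB : B.IsHomogeneous n) (hP : B ∉ C.P) (e : f * aeval ξ B = aeval ξ A) :
    C.res f = 0 ↔ A ∈ C.P := by
  have hf : f ∈ C.O := ⟨n, A, B, hA, hB, hP, e⟩
  rw [C.res_of_mem ⟨f, hf⟩, residue_eq_zero_iff, C.toCtr.mem_max_iff _ hA hB hP e]

theorem res_lx {x : Pt k ξ} {C : Cv k ξ} (h : x.On C) {A : Pol k N} (hA : Form A) :
    C.res (x.ctr.lx A) = 0 ↔ A ∈ C.P :=
  res_zero C hA (isHomogeneous_X_pow _ _)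
    (fun hh => Ctr.pow_notMem x.good _ (h _ _ (isHomogeneous_X_pow _ _) hh))
    (by rw [Ctr.coe_lx x.good hA]; exact Ctr.lo_spec x.good hA)

theorem lin_hom (a : k) (i j : Fin (N + 1)) : (X j - C a * X i : Pol k N).IsHomogeneous 1 :=
  (isHomogeneous_X k j).sub (isHomogeneous_C_mul_X a i)

theorem pt_eq {x y : Pt k ξ} (h : ∀ B : Pol k N, Form B → eval x.z B = 0 → eval y.z B = 0) :
    x = y := by
  obtain ⟨i, hi, hj⟩ := x.norm
  obtain ⟨i', hi', hj'⟩ := y.norm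
  have a : ∀ j, y.z j = x.z j * y.z i := fun j => by
    simpa [sub_eq_zero] using h _ (Form.of (lin_hom (x.z j) i j)) (by simp [hi])
  have b : y.z i = 1 := by
    rcases lt_trichotomy i' i with hl | hl | hl
    · rw [a i', hj _ hl, zero_mul] at hi'
      exact absurd hi' zero_ne_one
    · exact hl ▸ hi'
    · rw [a i', hj' _ hl, mul_zero] at hi'
      exact absurd hi' zero_ne_one
  exact Pt.ext (funext fun j => by rw [a j, b, mul_one])

theorem scal {S : Type u} [CommRing S] [Algebra k S] {B : Pol k N} {n : ℕ}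
    (hB : B.IsHomogeneous n) (z : Fin (N + 1) → k) (y : S) :
    aeval (fun j => algebraMap k S (z j) * y) B = algebraMap k S (eval z B) * y ^ n := by
  rw [aeval_def, eval₂_eq, eval_eq, map_sum, Finset.sum_mul]
  refine Finset.sum_congr rfl fun d hd => ?_
  simp only [mul_pow, Finset.prod_mul_distrib, Finset.prod_pow_eq_pow_sum, map_mul, map_prod,
    map_pow, ← hB.degree_eq_sum_deg_support hd, mul_assoc]

theorem v_zero (C : Cv k ξ) : C.v 0 = 0 := dif_neg fun h => h.1 rfl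

theorem fin_cv {𝒢 : Finset (Pol k N)} (hG : IsGens ξ 𝒢) (hC : CvA k ξ) (A : Pol k N)
    (hA : Form A) (h0 : aeval ξ A ≠ 0) : {C : Cv k ξ | A ∈ C.P}.Finite := by
  refine Set.Finite.of_injOn (f := fun C : Cv k ξ => C.P) (fun C hAC => ?_)
    (fun _ _ _ _ => cv_ext) (Ideal.finite_minimalPrimes_of_isNoetherianRing _
      (Ideal.span (𝒢 : Set (Pol k N)) ⊔ Ideal.span {A}))
  refine ⟨⟨C.prime, sup_le (Ideal.span_le.2 fun G h => C.van _ G (hG.form G h).1 (hG.form G h).2)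
    ((Ideal.span_singleton_le_iff_mem _).2 hAC)⟩, fun Q ⟨hQ, hI⟩ hle => ?_⟩
  obtain ⟨q, hq, hm⟩ := sub C.good ⟨Q, hQ, fun n G h h' =>
    hI (Ideal.mem_sup_left (hG.span G (Form.of h) h'))⟩ hle
  have := hC.dvr C
  have e : q = maximalIdeal C.O := eq_maximalIdeal (hq.isMaximal fun e => lx_ne C.good hA h0 (by
    have := (hm A hA).2 (hI (Ideal.mem_sup_right (Ideal.mem_span_singleton_self A)))
    rwa [e] at this))
  exact le_of_forms C fun B hB h => (hm B hB).1 (e ▸ (Ctr.lx_mem_max C.good hB).2 h)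

theorem fin_pt (hR : RReg.{u}) (hS : IsSurf k ξ) (hC : CvA k ξ) (C : Cv k ξ) (B : Pol k N)
    (hB : Form B) (h0 : B ∉ C.P) : {x : Pt k ξ | x.On C ∧ eval x.z B = 0}.Finite := by
  have key : ∀ x : Pt k ξ, ∃ Q : Ideal (Pol k N), x.On C ∧ eval x.z B = 0 →
      Q ∈ (C.P ⊔ Ideal.span {B}).minimalPrimes ∧ Q ≤ x.ctr.P ∧
        ∀ D : Pol k N, Form D → eval x.z D = 0 → D ∈ Q := fun x => by
    by_cases hx : x.On C ∧ eval x.z B = 0
    swap
    · exact ⟨⊥, fun h => absurd h hx⟩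
    have := x.ctr.prime
    obtain ⟨Q, hQ, hle⟩ := Ideal.exists_minimalPrimes_le (I := C.P ⊔ Ideal.span {B})
      (J := x.ctr.P) (sup_le (le_of_forms C fun D hD h => hx.1 _ D hD h)
        ((Ideal.span_singleton_le_iff_mem _).2 hx.2))
    refine ⟨Q, fun _ => ⟨hQ, hle, ?_⟩⟩
    obtain ⟨q, hq, hm⟩ := sub x.good ⟨Q, hQ.1.1, fun n G h h' =>
      hQ.1.2 (Ideal.mem_sup_left (C.van n G h h'))⟩ hle
    obtain ⟨π, hπ, hd, -⟩ := hC.on x C hx.1
    have a : π ∈ q := by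
      obtain ⟨n, A', B', hA', hB', hP, e⟩ := Ctr.exists_lx x.good π
      have b : x.ctr.lx A' ∈ q := (hm A' (Form.of hA')).2 (hQ.1.2 (Ideal.mem_sup_left
        ((res_lx hx.1 (Form.of hA')).1 ((hd _).1 ⟨_, e.symm⟩))))
      rw [← e] at b
      exact (hq.mem_or_mem b).resolve_right fun c => hP (hle ((hm B' (Form.of hB')).1 c))
    have e : q = maximalIdeal x.ctr.O := by
      by_contra hn
      have := hS.reg x
      obtain ⟨π', hπ', rfl⟩ := (hR x.ctr.O (hS.dim x)).2.2.2.1 q hq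
        (fun e => hπ.ne_zero (by rwa [e] at a)) hn
      have b := Ideal.mem_span_singleton.1 ((hm B hB).2
        (hQ.1.2 (Ideal.mem_sup_right (Ideal.mem_span_singleton_self B))))
      have c := (hπ'.associated_of_dvd hπ (Ideal.mem_span_singleton.1 a)).symm.dvd
      exact h0 ((res_lx hx.1 hB).1 ((hd _).1 (c.trans b)))
    exact fun D hD h => (hm D hD).1 (e ▸ (x.lx_mem_max hD).2 h)
  choose Q hQ using key
  exact Set.Finite.of_injOn (f := Q) (fun x hx => (hQ x hx).1)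
    (fun x hx y hy e => pt_eq fun D hD h => (hQ y hy).2.1 (e ▸ (hQ x hx).2.2 D hD h))
    (Ideal.finite_minimalPrimes_of_isNoetherianRing _ _)

theorem thru (hR : RReg.{u}) (hS : IsSurf k ξ) (hC : CvA k ξ) (x : Pt k ξ) (A : Pol k N)
    (hA : Form A) (h0 : aeval ξ A ≠ 0) (h : eval x.z A = 0) :
    ∃ C : Cv k ξ, x.On C ∧ A ∈ C.P := by
  have := hS.reg x
  have := (hR x.ctr.O (hS.dim x)).2.2.1
  obtain ⟨π, hπ, hd⟩ := WfDvdMonoid.exists_irreducible_factor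
    ((mem_maximalIdeal _).1 ((x.lx_mem_max hA).2 h)) (lx_ne x.good hA h0)
  obtain ⟨C, h1, h2⟩ := hC.ofP x π (UniqueFactorizationMonoid.irreducible_iff_prime.1 hπ)
  exact ⟨C, h1, (res_lx h1 hA).1 ((h2 _).1 hd)⟩

theorem lin (hS : IsSurf k ξ) (x : Pt k ξ) (C : Cv k ξ) :
    ∃ l : Pol k N, l.IsHomogeneous 1 ∧ eval x.z l = 0 ∧ l ∉ C.P := by
  by_contra hn
  obtain ⟨i, hi, -⟩ := x.norm
  have a : ∀ j, Ideal.Quotient.mk C.P (X j)
      = algebraMap k _ (x.z j) * Ideal.Quotient.mk C.P (X i) := fun j =>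
    Ideal.Quotient.eq.2 (by_contra fun h => hn ⟨_, lin_hom (x.z j) i j, by simp [hi], h⟩)
  have := C.prime
  have b : Ideal.Quotient.mk C.P (X i) ≠ 0 := fun e => by
    obtain ⟨j, hj⟩ := C.good
    exact hj (Ideal.Quotient.eq_zero_iff_mem.1 (by rw [a j, e, mul_zero]))
  have c : ∀ (n : ℕ) (B : Pol k N), B.IsHomogeneous n → (B ∈ C.P ↔ B ∈ x.ctr.P) := fun n B hB => by
    have e : Ideal.Quotient.mkₐ k C.P = aeval fun j =>
        algebraMap k _ (x.z j) * Ideal.Quotient.mk C.P (X i) :=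
      MvPolynomial.algHom_ext fun j => by rw [aeval_X]; exact a j
    rw [← Ideal.Quotient.eq_zero_iff_mem, ← Ideal.Quotient.mkₐ_eq_mk k, e, scal hB, mul_eq_zero,
      or_iff_left (pow_ne_zero _ b), map_eq_zero, Pt.mem_P]
  have e : C.O = x.ctr.O := Subring.ext fun f =>
    ⟨fun ⟨n, A, B, hA, hB, hP, hf⟩ => ⟨n, A, B, hA, hB, fun h => hP ((c n B hB).2 h), hf⟩,
      fun ⟨n, A, B, hA, hB, hP, hf⟩ => ⟨n, A, B, hA, hB, fun h => hP ((c n B hB).1 h), hf⟩⟩
  have h1 := C.dim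
  rw [e, hS.dim x] at h1
  exact absurd h1 (by decide)

end CFinA

open CFinA

theorem rFinA (hR : RReg.{u}) : RFinA.{u} := by
  intro k K _ _ _ _ p _ _ N ξ 𝒢 hS hG hC hV
  refine ⟨fin_cv hG hC, fun f => ?_, fin_pt hR hS hC, thru hR hS hC,
    fun A B ⟨hA, hB, h0, _, h⟩ => ?_, fun C f => ?_, lin hS⟩
  · by_cases hf : f = 0
    · simp [hf, v_zero]
    obtain ⟨n, A, B, hA, hB, h0, e⟩ := hS.gen f
    have h1 : aeval ξ A ≠ 0 := e ▸ mul_ne_zero hf h0
    refine ((fin_cv hG hC A (Form.of hA) h1).union (fin_cv hG hC B (Form.of hB) h0)).subset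
      fun C hv => by_contra fun hn => hv ?_
    have a := hV.form C A (Form.of hA) h1
    have b := hV.form C B (Form.of hB) h0
    have c := hV.mul C f (C.lo B) hf (Ctr.lo_ne C.good h0)
    rw [show f * C.lo B = C.lo A by rw [C.lo_eq hA, C.lo_eq hB, ← e, mul_div_assoc]] at c
    have a' : ¬ 0 < C.v (C.lo A) := fun h => hn (Or.inl (a.2.1 h))
    have b' : ¬ 0 < C.v (C.lo B) := fun h => hn (Or.inr (b.2.1 h))
    omega
  · refine ((fin_cv hG hC A hA h0).biUnion fun C hAC => fin_pt hR hS hC C B hB (h C hAC)).subset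
      fun x hx => ?_
    obtain ⟨C, h1, h2⟩ := thru hR hS hC x A hA h0 hx.1
    exact Set.mem_biUnion h2 ⟨h1, hx.2⟩
  · by_cases hf : f = 0
    · exact Set.finite_empty.subset fun x hx => hx.2 (dif_neg fun h => h.1 hf)
    obtain ⟨n, A, B, hA, hB, hP, e⟩ := hV.frac C f
    have h0 := C.aeval_ne hB hP
    have hP' : A ∉ C.P := fun h => hf (e ▸ (res_zero C hA hB hP (div_mul_cancel₀ _ h0)).2 h)
    have h1 := C.aeval_ne hA hP'
    refine ((fin_pt hR hS hC C A (Form.of hA) hP').union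
      (fin_pt hR hS hC C B (Form.of hB) hP)).subset fun x hx => by_contra fun hn => hx.2 ?_
    obtain ⟨l1, l2, l3, l4⟩ := hV.loc x C hx.1
    have a := x.ctr.div_mem hA hB fun h => hn (Or.inr ⟨hx.1, h⟩)
    have b := x.ctr.div_mem hB hA fun h => hn (Or.inl ⟨hx.1, h⟩)
    refine ((rOrd _ _ l2 l3 l4).2.2 ⟨f, (l1 f).2 ⟨⟨_, a⟩, e.symm⟩⟩
      fun h => hf (congrArg Subtype.val h)).2
      (IsUnit.of_mul_eq_one ⟨_, (l1 _).2 ⟨⟨_, b⟩, rfl⟩⟩ (Subtype.ext ?_))
    change f * C.res (aeval ξ B / aeval ξ A) = 1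
    rw [e, ← C.res_mul (hx.1.le a) (hx.1.le b), div_mul_div_cancel₀ h0, div_self h1]
    exact (C.res_of_mem 1).trans (map_one _)

end Pool.Agent.MP_f3836a_nt.PK
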