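import Pool.Agent.MP_f3836a_nt.PK.SpecC
import Pool.Agent.MP_f3836a_nt.PK.Ord

set_option autoImplicit false

/-! Valuations along curves and orders at points of curves. -/

namespace Pool.Agent.MP_f3836a_nt.PK

open MvPolynomial IsLocalRing

universe u

namespace CVA

/-- length of `R / (π, b)` along a surjection with kernel `(π)` -/
theorem len {R S : Type u} [CommRing R] [CommRing S] (f : R →+* S) (hf : Function.Surjective f)
    (π b : R) (hk : RingHom.ker f = Ideal.span {π}) :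
    Module.length R (R ⧸ Ideal.span {π, b}) = Ring.ord S (f b) := by
  let _ : Algebra R S := f.toAlgebra
  have h1 : Module.length R (S ⧸ Ideal.span {f b}) = Module.length S (S ⧸ Ideal.span {f b}) :=
    Module.length_eq_of_surjective hf
  let g : R →ₗ[R] S ⧸ Ideal.span {f b} := Algebra.linearMap R (S ⧸ Ideal.span {f b})
  have hg : ∀ a, g a = Ideal.Quotient.mk _ (f a) := fun _ => rfl
  have hs : Function.Surjective g := fun y => by
    obtain ⟨s, rfl⟩ := Ideal.Quotient.mk_surjective y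
    obtain ⟨a, rfl⟩ := hf s
    exact ⟨a, rfl⟩
  have hker : LinearMap.ker g = Ideal.span {π, b} := by
    ext a
    rw [LinearMap.mem_ker, hg, Ideal.Quotient.eq_zero_iff_mem, Ideal.mem_span_singleton',
      Ideal.mem_span_pair]
    constructor
    · rintro ⟨s, hs⟩
      obtain ⟨c, rfl⟩ := hf s
      have : a - c * b ∈ RingHom.ker f := by
        rw [RingHom.mem_ker, map_sub, map_mul, hs, sub_self]
      rw [hk, Ideal.mem_span_singleton'] at this
      obtain ⟨d, hd⟩ := this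
      exact ⟨d, c, by rw [hd]; ring⟩
    · rintro ⟨d, c, rfl⟩
      have : f π = 0 := by
        rw [← RingHom.mem_ker, hk]; exact Ideal.mem_span_singleton_self π
      exact ⟨f c, by rw [map_add, map_mul, map_mul, this, mul_zero, zero_add]⟩
  rw [Ring.ord, ← h1, ← hker]
  exact (g.quotKerEquivOfSurjective hs).length_eq

variable {k K : Type u} [Field k] [Field K] [Algebra k K] {N : ℕ} {ξ : Fin (N + 1) → K}

/-- `K` is the fraction field of the local ring -/
theorem fr (hS : IsSurf k ξ) {c : Ctr k ξ} (h : c.Good) (f : K) :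
    ∃ a b : c.O, (b : K) ≠ 0 ∧ f * b = a := by
  obtain ⟨n, A, B, hA, hB, h0, hf⟩ := hS.gen f
  refine ⟨c.lx A, c.lx B, ?_, ?_⟩
  · rw [Ctr.coe_lx h (Form.of hB)]; exact Ctr.lo_ne h h0
  · rw [Ctr.coe_lx h (Form.of hB), Ctr.coe_lx h (Form.of hA), c.lo_eq hA, c.lo_eq hB, ← hf,
      mul_div_assoc]

variable {x : Pt k ξ} {C : Cv k ξ}

/-- inclusion of the local ring at a point in the local ring of a curve through it -/
noncomputable def inc (h : x.On C) : x.ctr.O →+* C.O := Subring.inclusion h.le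

theorem coe_inc (h : x.On C) (a : x.ctr.O) : (inc h a : K) = a := rfl

theorem res_inc (h : x.On C) (a : x.ctr.O) : residue C.O (inc h a) = C.res a :=
  (C.res_of_mem (inc h a)).symm

theorem mem_loc (h : x.On C) (f : C.κ) : f ∈ C.loc x ↔ ∃ a : x.ctr.O, C.res a = f := by
  constructor
  · rintro ⟨g, hg, rfl⟩
    exact ⟨⟨g, hg⟩, C.res_of_mem g⟩
  · rintro ⟨a, rfl⟩
    exact ⟨inc h a, a.2, res_inc h a⟩

/-- restriction to the local ring of the curve -/
noncomputable def rl (h : x.On C) : x.ctr.O →+* C.loc x :=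
  ((residue C.O).comp (inc h)).codRestrict (C.loc x) fun a => (mem_loc h _).mpr ⟨a, (res_inc h a).symm⟩

theorem coe_rl (h : x.On C) (a : x.ctr.O) : (rl h a : C.κ) = C.res a := res_inc h a

theorem rl_surj (h : x.On C) : Function.Surjective (rl h) := fun f => by
  obtain ⟨a, ha⟩ := (mem_loc h f).mp f.2
  exact ⟨a, Subtype.ext ((coe_rl h a).trans ha)⟩

theorem rl_eq_zero (h : x.On C) (a : x.ctr.O) : rl h a = 0 ↔ C.res a = 0 := by
  rw [← coe_rl h a]; exact ZeroMemClass.coe_eq_zero.symm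

theorem ker_rl (h : x.On C) {π : x.ctr.O} (hπ : ∀ a : x.ctr.O, π ∣ a ↔ C.res a = 0) :
    RingHom.ker (rl h) = Ideal.span {π} := by
  ext a
  rw [RingHom.mem_ker, rl_eq_zero, Ideal.mem_span_singleton, hπ]

theorem loc (hR : RReg.{u}) (hS : IsSurf k ξ) (hC : CvA k ξ) (h : x.On C) :
    IsNoetherianRing (C.loc x) ∧ Ring.KrullDimLE 1 (C.loc x) ∧
      ∀ f : C.κ, ∃ a b : C.loc x, (b : C.κ) ≠ 0 ∧ f * b = a := by
  obtain ⟨π, hp, hπ, hO⟩ := hC.on x C h
  have := hS.reg x
  refine ⟨isNoetherianRing_of_surjective _ _ (rl h) (rl_surj h), ?_, fun f => ?_⟩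
  · have h1 := ((hR x.ctr.O (hS.dim x)).2.2.2.2.1 π hp).2
    rw [← ker_rl h hπ, Ring.krullDimLE_iff,
      ringKrullDim_eq_of_ringEquiv (RingHom.quotientKerEquivOfSurjective (rl_surj h))] at h1
    exact Ring.krullDimLE_iff.mpr h1
  · obtain ⟨g, rfl⟩ := residue_surjective f
    obtain ⟨a, b, hb, e⟩ := (hO g).mp g.2
    refine ⟨rl h a, rl h b, ?_, ?_⟩
    · rw [coe_rl]; exact fun h0 => hb ((hπ b).mpr h0)
    · rw [coe_rl, coe_rl, ← res_inc h, ← res_inc h, ← map_mul]
      exact congrArg _ (Subtype.ext e)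

/-- a local equation of the curve generates the maximal ideal of its local ring -/
theorem max_eq (h : x.On C) {π : x.ctr.O} (hπ : ∀ a : x.ctr.O, π ∣ a ↔ C.res a = 0)
    (hO : ∀ f : K, f ∈ C.O → ∃ a b : x.ctr.O, ¬ π ∣ b ∧ f * b = a) :
    maximalIdeal C.O = Ideal.span {inc h π} := by
  apply le_antisymm
  · intro f hf
    obtain ⟨a, b, hb, e⟩ := hO f f.2
    have e' : f * inc h b = inc h a := Subtype.ext e
    have hu : IsUnit (inc h b) := by
      rw [← residue_ne_zero_iff_isUnit, res_inc]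
      exact fun h0 => hb ((hπ b).mpr h0)
    have ha : π ∣ a := by
      rw [hπ, ← res_inc h, ← e', residue_eq_zero_iff]
      exact Ideal.mul_mem_right _ _ hf
    rw [Ideal.mem_span_singleton, ← hu.dvd_mul_right, e']
    exact map_dvd _ ha
  · rw [Ideal.span_singleton_le_iff_mem, ← residue_eq_zero_iff, res_inc, ← hπ]

theorem pow_dvd (h : x.On C) {π : x.ctr.O} (hp : Prime π)
    (hO : ∀ f : K, f ∈ C.O → ∃ a b : x.ctr.O, ¬ π ∣ b ∧ f * b = a) (a : x.ctr.O) (j : ℕ) :
    π ^ j ∣ a ↔ inc h π ^ j ∣ inc h a := by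
  constructor
  · intro hd
    rw [← map_pow]; exact map_dvd _ hd
  · rintro ⟨f, hf⟩
    obtain ⟨c, b, hb, e⟩ := hO f f.2
    refine hp.pow_dvd_of_dvd_mul_right j hb ⟨c, Subtype.ext ?_⟩
    have h1 : (a : K) = (π : K) ^ j * f := congrArg Subtype.val hf
    rw [Subring.coe_mul, Subring.coe_mul, h1, ← e, mul_assoc]
    rfl

theorem va (hR : RReg.{u}) (hS : IsSurf k ξ) (hC : CvA k ξ) : VA k ξ := by
  have hD := fun C : Cv k ξ => @rOrdD K _ C.O (hC.dvr C) (fr hS C.good)
  have hL := fun (x : Pt k ξ) (C : Cv k ξ) (h : x.On C) =>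
    rOrd C.κ (C.loc x) (loc hR hS hC h).1 (loc hR hS hC h).2.1 (loc hR hS hC h).2.2
  have hpos : ∀ (C : Cv k ξ) (f : K), f ≠ 0 → f ∈ C.O → (0 < C.v f ↔ C.res f = 0) := by
    intro C f hf hm
    rw [C.res_of_mem ⟨f, hm⟩, residue_eq_zero_iff]
    exact ((hD C).2.2.1 ⟨f, hm⟩ fun h0 => hf (congrArg Subtype.val h0)).symm
  refine ⟨fun C => (hD C).1, fun C => (hD C).2.1, hpos, fun C A hA h0 => ?_,
    fun x C h π hp hπ => ?_, fun x C h A hA h0 => ?_,
    fun x C h => ⟨mem_loc h, loc hR hS hC h⟩, fun x C h => (hL x C h).1,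
    fun x C h π hπ b hb => ?_, fun C f => ?_⟩
  · have h1 := Ctr.lo_ne C.good h0
    have h2 := Ctr.lo_mem C.good hA
    exact ⟨((hD C).2.1 _ h1).mp h2, (hpos C _ h1 h2).trans (C.res_lo_eq_zero hA)⟩
  · obtain ⟨π', -, hπ', hO'⟩ := hC.on x C h
    have hO : ∀ f : K, f ∈ C.O → ∃ a b : x.ctr.O, ¬ π ∣ b ∧ f * b = a := fun f hf => by
      obtain ⟨a, b, hb, e⟩ := (hO' f).mp hf
      exact ⟨a, b, fun hd => hb ((hπ' b).mpr ((hπ b).mp hd)), e⟩
    have hm := max_eq h hπ hO
    have := hC.dvr C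
    refine ⟨(hD C).2.2.2.2.1 (inc h π)
      ((IsDiscreteValuationRing.irreducible_iff_uniformizer _).mpr hm), fun a j ha => ?_⟩
    rw [pow_dvd h hp hO, ← Ideal.mem_span_singleton, ← Ideal.span_singleton_pow, ← hm]
    exact (hD C).2.2.2.2.2 (inc h a) j fun h0 =>
      ha (Subtype.ext (congrArg (fun y : C.O => (y : K)) h0))
  · have hx : (X x.ctr.idx ^ A.totalDegree : Pol k N) ∉ C.P := fun hh =>
      Ctr.pow_notMem x.good _ (h _ _ (isHomogeneous_X_pow _ _) hh)
    have hc := Ctr.pow_notMem C.good A.totalDegree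
    have hX := isHomogeneous_X_pow (R := k) x.ctr.idx A.totalDegree
    have hY := isHomogeneous_X_pow (R := k) C.idx A.totalDegree
    have hm := C.toCtr.div_mem hY hX hx
    have hx0 := C.toCtr.aeval_ne hX hx
    have hc0 := C.toCtr.aeval_ne hY hc
    have hn := div_ne_zero hc0 hx0
    have h1 := ((hD C).2.1 _ hn).mp hm
    have h2 : ¬ 0 < C.v _ := fun hh => by
      have := ((hD C).2.2.1 ⟨_, hm⟩ fun h0 => hn (congrArg Subtype.val h0)).mpr hh
      exact hc ((C.toCtr.mem_max_iff _ hY hX hx (div_mul_cancel₀ _ hx0)).mp this)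
    have h3 := le_antisymm (not_lt.mp h2) h1
    have e : x.ctr.lo A = C.lo A * (aeval ξ (X C.idx ^ A.totalDegree : Pol k N) /
        aeval ξ (X x.ctr.idx ^ A.totalDegree : Pol k N)) := by
      rw [← mul_div_assoc, Ctr.lo_spec C.good hA, eq_div_iff hx0, Ctr.lo_spec x.good hA]
    have h4 : C.v (_ * _) = C.v _ + C.v _ := (hD C).1 _ _ (Ctr.lo_ne C.good h0) hn
    rw [e, h4, h3, add_zero]
  · have hb0 : rl h b ≠ 0 := fun h0 => hb ((hπ b).mpr ((rl_eq_zero h b).mp h0))
    rw [len (rl h) (rl_surj h) π b (ker_rl h hπ), ← coe_rl h]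
    exact (hL x C h).2.1 _ hb0
  · obtain ⟨g, rfl⟩ := residue_surjective f
    obtain ⟨n, A, B, hA, hB, hP, e⟩ := g.2
    refine ⟨n, A, B, hA, hB, hP, ?_⟩
    rw [← C.res_of_mem, ← e, mul_div_cancel_right₀ _ (C.toCtr.aeval_ne hB hP)]

end CVA

theorem rVA : RReg.{u} → RVA.{u} :=
  fun hR _ _ _ _ _ _ _ _ _ _ _ _ hS _ hC => CVA.va hR hS hC

end Pool.Agent.MP_f3836a_nt.PK
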