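import Pool.Agent.MP_f3836a_nt.PK.Defs

set_option autoImplicit false

/-! Part A: function fields of one variable, Chebotarev for Morse functions, counting tools.
Nothing here mentions the surface. -/

namespace Pool.Agent.MP_f3836a_nt.PK

open MvPolynomial IntermediateField

universe u

/-- `ordR` on a Noetherian ring of dimension at most one with fraction field `L`. -/
def ROrd : Prop := ∀ (L : Type u) [Field L] (R : Subring L), IsNoetherianRing R →
  Ring.KrullDimLE 1 R → (∀ f : L, ∃ a b : R, (b : L) ≠ 0 ∧ f * b = a) →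
  (∀ f g : L, f ≠ 0 → g ≠ 0 → ordR R (f * g) = ordR R f + ordR R g) ∧
  (∀ a : R, a ≠ 0 → Ring.ord R a ≠ ⊤ ∧ ordR R (a : L) = (Ring.ord R a).toNat) ∧
  (∀ a : R, a ≠ 0 → (ordR R (a : L) = 0 ↔ IsUnit a))

/-- `ordR` on a discrete valuation ring. -/
def ROrdD : Prop := ∀ (L : Type u) [Field L] (R : Subring L) [IsDiscreteValuationRing R],
  (∀ f : L, ∃ a b : R, (b : L) ≠ 0 ∧ f * b = a) →
  (∀ f g : L, f ≠ 0 → g ≠ 0 → ordR R (f * g) = ordR R f + ordR R g) ∧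
  (∀ f : L, f ≠ 0 → (f ∈ R ↔ 0 ≤ ordR R f)) ∧
  (∀ a : R, a ≠ 0 → (a ∈ IsLocalRing.maximalIdeal R ↔ 0 < ordR R (a : L))) ∧
  (∀ f g : L, f ≠ 0 → g ≠ 0 → f + g ≠ 0 → min (ordR R f) (ordR R g) ≤ ordR R (f + g)) ∧
  (∀ a : R, Irreducible a → ordR R (a : L) = 1) ∧
  (∀ (a : R) (j : ℕ), a ≠ 0 → (a ∈ IsLocalRing.maximalIdeal R ^ j ↔ (j : ℤ) ≤ ordR R (a : L)))

/-- A place of `F / k`. -/
@[ext] structure Place (k F : Type u) [Field k] [Field F] [Algebra k F] where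
  V : ValuationSubring F
  ne : V ≠ ⊤
  const : ∀ a : k, algebraMap k F a ∈ V

section
variable {k F : Type u} [Field k] [Field F] [Algebra k F]

noncomputable def Place.ord (P : Place k F) (f : F) : ℤ := ordR P.V.toSubring f

/-- `f` vanishes at `P`. -/
def Place.Zero (P : Place k F) (f : F) : Prop := f = 0 ∨ 0 < P.ord f

/-- value of `f` at `P` -/
noncomputable def Place.val (P : Place k F) (f : F) : k :=
  Classical.epsilon fun a => P.Zero (f - algebraMap k F a)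

/-- `P` is fixed by `σ` -/
def Place.Fix (P : Place k F) (σ : F ≃+* F) : Prop := ∀ f, f ∈ P.V ↔ σ f ∈ P.V

variable (k F)

/-- function field of one variable -/
def IsFF : Prop := ∃ t : F, Transcendental k t ∧ FiniteDimensional (adjoin k {t}) F

/-- local properties of places -/
structure PlA : Prop where
  dvr : ∀ P : Place k F, IsDiscreteValuationRing P.V
  mul : ∀ (P : Place k F) (f g : F), f ≠ 0 → g ≠ 0 → P.ord (f * g) = P.ord f + P.ord g
  mem : ∀ (P : Place k F) (f : F), f ≠ 0 → (f ∈ P.V ↔ 0 ≤ P.ord f)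
  add : ∀ (P : Place k F) (f g : F), f ≠ 0 → g ≠ 0 → f + g ≠ 0 →
    min (P.ord f) (P.ord g) ≤ P.ord (f + g)
  uni : ∀ P : Place k F, ∃ π : F, π ≠ 0 ∧ P.ord π = 1
  con : ∀ (P : Place k F) (a : k), P.ord (algebraMap k F a) = 0
  zero : ∀ (P : Place k F) (f : F), P.Zero f ↔ f ∈ P.V.nonunits
  val : ∀ (P : Place k F) (f : F), f ∈ P.V → ∀ a : k, (P.Zero (f - algebraMap k F a) ↔ P.val f = a)
  hom : ∀ P : Place k F, ∃ χ : P.V →+* k, (∀ f : P.V, χ f = P.val f) ∧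
    ∀ a : k, P.val (algebraMap k F a) = a

/-- global properties of places -/
structure PlB : Prop where
  fin : ∀ f : F, {P : Place k F | P.ord f ≠ 0}.Finite
  fd : ∀ T : F, Transcendental k T → FiniteDimensional (adjoin k {T}) F
  deg : ∀ T : F, Transcendental k T →
    ∑ᶠ P : Place k F, max (P.ord T) 0 = (Module.finrank (adjoin k {T}) F : ℤ)
  sum : ∀ f : F, ∑ᶠ P : Place k F, P.ord f = 0
  const : ∀ f : F, (∀ P : Place k F, f ∈ P.V) → ∃ a : k, f = algebraMap k F a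

end

def RPlA : Prop := ∀ (k F : Type u) [Field k] [IsAlgClosed k] [Field F] [Algebra k F],
  IsFF k F → PlA k F

/-- an element that is not a `p`-th power is separating -/
def RSep : Prop := ∀ (k F : Type u) [Field k] [IsAlgClosed k] [Field F] [Algebra k F]
  (p : ℕ) [Fact p.Prime] [CharP k p], IsFF k F → ∀ T : F, (∀ g : F, g ^ p ≠ T) →
  Transcendental k T ∧ FiniteDimensional (adjoin k {T}) F ∧
  Algebra.IsSeparable (adjoin k {T}) F ∧
  ∀ f : F, ∃ c : Fin p → F, f = ∑ i, c i ^ p * T ^ (i : ℕ)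

/-- the degree of the zero divisor of a separating element -/
def RDeg : Prop := ∀ (k F : Type u) [Field k] [IsAlgClosed k] [Field F] [Algebra k F],
  PlA k F → ∀ T : F, Transcendental k T → FiniteDimensional (adjoin k {T}) F →
  Algebra.IsSeparable (adjoin k {T}) F →
  {P : Place k F | 0 < P.ord T}.Finite ∧
  ∑ᶠ P : Place k F, max (P.ord T) 0 = (Module.finrank (adjoin k {T}) F : ℤ)

def RPlB : Prop := ∀ (k F : Type u) [Field k] [IsAlgClosed k] [Field F] [Algebra k F]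
  (p : ℕ) [Fact p.Prime] [CharP k p], IsFF k F → PlB k F

/-- `dim L(E) ≤ deg E + 1` -/
def RLE : Prop := ∀ (k F : Type u) [Field k] [IsAlgClosed k] [Field F] [Algebra k F],
  IsFF k F → PlA k F → PlB k F → ∀ (E : Place k F →₀ ℤ) (W : Submodule k F),
  (∀ f ∈ W, f ≠ 0 → ∀ P, -E P ≤ P.ord f) →
  (∑ᶠ P, E P < 0 → W = ⊥) ∧ FiniteDimensional k W ∧ Module.finrank k W ≤ (∑ᶠ P, E P).toNat + 1

/-- the projective line has no unramified cover -/
def RUnr : Prop := ∀ (k M : Type u) [Field k] [IsAlgClosed k] [Field M] [Algebra k M]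
  (p : ℕ) [Fact p.Prime] [CharP k p], IsFF k M → ∀ T : M, Transcendental k T →
  (∀ (P : Place k M) (a : k), P.ord (T - algebraMap k M a) ≤ 1) →
  (∀ P : Place k M, -1 ≤ P.ord T) → adjoin k {T} = ⊤

/-- the Galois group is transitive on the places over a place -/
def RTransE : Prop := ∀ (k L : Type u) [Field k] [IsAlgClosed k] [Field L] [Algebra k L],
  PlA k L → ∀ E : IntermediateField k L, FiniteDimensional E L → IsGalois E L →
  ∀ Q Q' : Place k L, (∀ f ∈ E, f ∈ Q.V ↔ f ∈ Q'.V) →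
  ∃ g : L ≃ₐ[E] L, ∀ f, f ∈ Q'.V ↔ g f ∈ Q.V

/-- the Galois group is transitive on the places over a point of the line -/
def RTrans : Prop := ∀ (k L : Type u) [Field k] [IsAlgClosed k] [Field L] [Algebra k L],
  PlA k L → ∀ T : L, Transcendental k T → FiniteDimensional (adjoin k {T}) L →
  IsGalois (adjoin k {T}) L → ∀ Q Q' : Place k L,
  ((∃ a : k, 0 < Q.ord (T - algebraMap k L a) ∧ 0 < Q'.ord (T - algebraMap k L a)) ∨
    (Q.ord T < 0 ∧ Q'.ord T < 0)) →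
  ∃ g : L ≃ₐ[adjoin k {T}] L, ∀ f, f ∈ Q'.V ↔ g f ∈ Q.V

/-- Galois closure data of `F / k(T)`, `F = k(T, Y)` of degree `n`. -/
structure Clo (k F L : Type u) [Field k] [Field F] [Algebra k F] [Field L] [Algebra k L]
    (T Y : F) (n : ℕ) (T' : L) (e : Fin n → F →ₐ[k] L) : Prop where
  ff : IsFF k L
  tr : Transcendental k T'
  fd : FiniteDimensional (adjoin k {T'}) L
  gal : IsGalois (adjoin k {T'}) L
  eT : ∀ i, e i T = T'
  inj : Function.Injective fun i => e i Y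
  all : ∀ j : F →ₐ[k] L, j T = T' → ∃ i, j = e i
  gen : adjoin k (insert T' (Set.range fun i => e i Y)) = ⊤
  tra : ∀ i j, ∃ g : L ≃ₐ[adjoin k {T'}] L, ∀ f, g (e i f) = e j f

/-- existence of the Galois closure, with an extension of a semilinear automorphism -/
def RClo1 : Prop := ∀ (k F : Type u) [Field k] [Field F] [Algebra k F] (T Y : F) (n : ℕ),
  Transcendental k T → FiniteDimensional (adjoin k {T}) F →
  Algebra.IsSeparable (adjoin k {T}) F → Module.finrank (adjoin k {T}) F = n →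
  adjoin k {T, Y} = ⊤ →
  ∃ (L : Type u) (_ : Field L) (_ : Algebra k L) (T' : L) (e : Fin n → F →ₐ[k] L),
    Clo k F L T Y n T' e ∧
    ∀ (φ : k ≃+* k) (σ : F ≃+* F), (∀ a, σ (algebraMap k F a) = algebraMap k F (φ a)) →
      σ T = T → σ Y = Y →
      ∃ τ : L ≃+* L, (∀ a, τ (algebraMap k L a) = algebraMap k L (φ a)) ∧ τ T' = T' ∧
        ∃ π : Equiv.Perm (Fin n), ∀ i, τ (e i Y) = e (π i) Y

/-- every fibre of `T` has at least `n - 1` points -/
def Morse (k : Type u) {F : Type u} [Field k] [Field F] [Algebra k F] (T : F) (n : ℕ) : Prop :=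
  (∀ a : k, n ≤ {P : Place k F | 0 < P.ord (T - algebraMap k F a)}.ncard + 1) ∧
    n ≤ {P : Place k F | P.ord T < 0}.ncard + 1

/-- a Morse function has the full symmetric group as Galois group -/
def RClo2 : Prop := ∀ (k F L : Type u) [Field k] [IsAlgClosed k] [Field F] [Algebra k F]
  [Field L] [Algebra k L] (p : ℕ) [Fact p.Prime] [CharP k p]
  (T Y : F) (n : ℕ) (T' : L) (e : Fin n → F →ₐ[k] L), IsFF k F → 1 ≤ n →
  adjoin k {T, Y} = ⊤ → Clo k F L T Y n T' e → Morse k T n →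
  (∀ π : Equiv.Perm (Fin n), ∃ g : L ≃ₐ[adjoin k {T'}] L, ∀ i, g (e i Y) = e (π i) Y) ∧
    Module.finrank (adjoin k {T'}) L = n.factorial

/-- Bombieri's form of Stepanov's method -/
def RBomb : Prop := ∀ (k : Type u) [Field k] [IsAlgClosed k] (p : ℕ) [Fact p.Prime] [CharP k p]
  (d c : ℕ), 1 ≤ d → ∃ C Q : ℕ, ∀ (r : ℕ), Q ≤ p ^ r →
  ∀ (L : Type u) [Field L] [Algebra k L], PlA k L → Nonempty (Place k L) →
  ∀ (R : ℕ → Submodule k L) (X : Finset (Place k L)),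
  (∀ a b, a ≤ b → R a ≤ R b) → (1 : L) ∈ R 0 →
  (∀ a b, ∀ f ∈ R a, ∀ g ∈ R b, f * g ∈ R (a + b)) →
  (∀ m, FiniteDimensional k (R m)) →
  (∀ m, d * m ≤ Module.finrank k (R m) + c) → (∀ m, Module.finrank k (R m) ≤ d * m + c) →
  (∀ m, ∀ f ∈ R m, ∀ P ∈ X, f ∈ P.V) →
  (∀ m, ∀ f ∈ R m, f ≠ 0 → {P : Place k L | 0 < P.ord f}.Finite ∧
    {P : Place k L | 0 < P.ord f}.ncard ≤ d * m) →
  (∃ P₀ : Place k L, ∀ m, ∀ f ∈ R m, f ≠ 0 → 0 ≤ P₀.ord f ∧ P₀.ord f ≤ d * m) →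
  (∀ m, R m ≤ Submodule.span k
    {w | w ∈ R m ∧ ∃ w' ∈ R m, ∀ P ∈ X, P.val w ^ (p ^ r) ^ 2 = P.val w'}) →
  X.card ≤ (p ^ r) ^ 2 + C * p ^ r

/-- Chebotarev for the symmetric group, upstairs -/
def RCheb0 : Prop := ∀ (k : Type u) [Field k] [IsAlgClosed k] (p : ℕ) [Fact p.Prime] [CharP k p]
  (n D : ℕ), ∃ C Q : ℕ, ∀ (r : ℕ), Q ≤ p ^ r →
  ∀ (L : Type u) [Field L] [Algebra k L] (T : L) (y : Fin n → L) (τ : L ≃+* L), IsFF k L →
  Transcendental k T → IsGalois (adjoin k {T}) L →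
  Module.finrank (adjoin k {T}) L = n.factorial → Function.Injective y →
  adjoin k (insert T (Set.range y)) = ⊤ →
  (∀ π : Equiv.Perm (Fin n), ∃ g : L ≃ₐ[adjoin k {T}] L, ∀ i, g (y i) = y (π i)) →
  (∀ g : L ≃ₐ[adjoin k {T}] L, ∀ i, ∃ j, g (y i) = y j) →
  (∀ a, τ (algebraMap k L a) = algebraMap k L (a ^ (p ^ r) ^ 2)) → τ T = T → (∀ i, τ (y i) = y i) →
  (∀ (P : Place k L) i, T ∈ P.V → y i ∈ P.V) →
  (∀ (P : Place k L) i, P.ord T < 0 → y i ≠ 0 → D * P.ord T ≤ P.ord (y i)) →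
  {t : k | ∃ P : Place k L, 0 < P.ord (T - algebraMap k L t) ∧
      ¬ Function.Injective fun i => P.val (y i)}.Finite ∧
  {t : k | ∃ P : Place k L, 0 < P.ord (T - algebraMap k L t) ∧
      ¬ Function.Injective fun i => P.val (y i)}.ncard ≤ C ∧
  |(n.factorial : ℤ) * ({t : k | t ^ (p ^ r) ^ 2 = t ∧ ∃ P : Place k L,
      0 < P.ord (T - algebraMap k L t) ∧
        ∀ i, P.val (y i) ^ (p ^ r) ^ 2 = P.val (y i)}.ncard : ℤ) - (p ^ r) ^ 2| ≤ C * p ^ r

/-- Chebotarev for a Morse function: number of rational totally split fibres -/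
def RCheb : Prop := ∀ (k : Type u) [Field k] [IsAlgClosed k] (p : ℕ) [Fact p.Prime] [CharP k p]
  (n d : ℕ), 3 ≤ n → ∃ C Q : ℕ, ∀ (r : ℕ), Q ≤ p ^ r →
  ∀ (F : Type u) [Field F] [Algebra k F] (T Y : F) (σ : F ≃+* F), IsFF k F →
  Transcendental k T → Module.finrank (adjoin k {T}) F = n → adjoin k {T, Y} = ⊤ →
  Morse k T n → ∑ᶠ P : Place k F, max (-P.ord Y) 0 ≤ d →
  (∀ a, σ (algebraMap k F a) = algebraMap k F (a ^ (p ^ r) ^ 2)) → σ T = T → σ Y = Y →
  |(n.factorial : ℤ) * ({t : k | t ^ (p ^ r) ^ 2 = t ∧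
      {P : Place k F | 0 < P.ord (T - algebraMap k F t) ∧ P.Fix σ}.ncard = n}.ncard : ℤ) -
      (p ^ r) ^ 2| ≤ C * p ^ r

/-- a primitive element among linear combinations with coefficients in a large finite set -/
def RPrim : Prop := ∀ (k F : Type u) [Field k] [Field F] [Algebra k F] (T : F) (m : ℕ)
  (η : Fin m → F) (S : Finset k), FiniteDimensional (adjoin k {T}) F →
  Algebra.IsSeparable (adjoin k {T}) F → adjoin k (Set.range η) = ⊤ →
  Module.finrank (adjoin k {T}) F ^ 2 < S.card →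
  ∃ a : Fin m → k, (∀ j, a j ∈ S) ∧ adjoin k {T, ∑ j, algebraMap k F (a j) * η j} = ⊤

/-- extension of a semilinear automorphism to a function field -/
def RFrob : Prop := ∀ (k F : Type u) [Field k] [Field F] [Algebra k F] (m : ℕ) (η : Fin m → F)
  (φ : k ≃+* k), (∀ f : F, ∃ A B : MvPolynomial (Fin m) k, aeval η B ≠ 0 ∧
    f * aeval η B = aeval η A) →
  (∀ G : MvPolynomial (Fin m) k, aeval η G = 0 ↔ aeval η (map (φ : k →+* k) G) = 0) →
  ∃ σ : F ≃+* F, (∀ a, σ (algebraMap k F a) = algebraMap k F (φ a)) ∧ (∀ j, σ (η j) = η j) ∧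
    ∀ G : MvPolynomial (Fin m) k, σ (aeval η G) = aeval η (map (φ : k →+* k) G)

/-- lower bound for the incidence quadratic form -/
def RComb : Prop := ∀ (Y H : Type u) [DecidableEq Y] [DecidableEq H] (s : Finset Y)
  (A E : Finset H) (Z : H → Finset Y) (e : ℕ) (a b θ κ : ℝ) (φ : Y → ℝ),
  (∀ h ∈ A, Z h ⊆ s ∧ (Z h).card ≤ e) → 0 ≤ b → 0 ≤ θ → 0 ≤ κ →
  (∀ y ∈ s, a ≤ ((A.filter fun h => y ∈ Z h).card : ℝ)) →
  (∀ y ∈ s, ∀ y' ∈ s, y ≠ y' → |((A.filter fun h => y ∈ Z h ∧ y' ∈ Z h).card : ℝ) - b| ≤ θ) →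
  (∀ y ∈ s, (((A ∩ E).filter fun h => y ∈ Z h).card : ℝ) ≤ κ) →
  (a - b - θ * s.card - e * κ) * ∑ y ∈ s, φ y ^ 2 ≤ ∑ h ∈ A \ E, (∑ y ∈ Z h, φ y) ^ 2

/-- averaging a mean zero function over lines -/
def RAvg : Prop := ∀ (S V : Type u) [Field S] [Fintype S] [AddCommGroup V] [Module S V]
  [Fintype V] (φ : V → ℝ), ∑ v, φ v = 0 →
  ∑ h : V, ∑ h' : V, (∑ t : S, φ (h + t • h')) ^ 2 =
    Fintype.card S * Fintype.card V * ∑ v, φ v ^ 2

/-- existential systems of polynomial equations -/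
def IsEx (k : Type u) [Field k] (σ : Type)
    (q : ∀ (Ω : Type u) [Field Ω] [Algebra k Ω], (σ → Ω) → Prop) : Prop :=
  ∃ (m : ℕ) (E : Finset (MvPolynomial (σ ⊕ Fin m) k)),
    ∀ (Ω : Type u) [Field Ω] [Algebra k Ω] (a : σ → Ω),
      q Ω a ↔ ∃ v : Fin m → Ω, ∀ e ∈ E, aeval (Sum.elim a v) e = 0

/-- an event that misses the generic point of an affine subspace is rare there, uniformly -/
def RExC : Prop := ∀ (k : Type u) [Field k] (σ : Type) [Finite σ]
  (q : ∀ (Ω : Type u) [Field Ω] [Algebra k Ω], (σ → Ω) → Prop), IsEx k σ q →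
  ∃ c : ℕ, ∀ (m : ℕ) (ι : σ → MvPolynomial (Fin m) k), (∀ s, (ι s).totalDegree ≤ 1) →
    (∀ (Ω : Type u) [Field Ω] [Algebra k Ω] (a : Fin m → Ω), AlgebraicIndependent k a →
      ¬ q Ω fun s => aeval a (ι s)) →
    ∀ S : Finset k, {a : Fin m → k | (∀ j, a j ∈ S) ∧ q k fun s => aeval a (ι s)}.ncard * S.card ≤
      c * S.card ^ m

/-- Nullstellensatz: a system over `k` solvable in an extension field is solvable in `k` -/
def RExD : Prop := ∀ (k : Type u) [Field k] [IsAlgClosed k] (σ : Type) [Finite σ]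
  (q : ∀ (Ω : Type u) [Field Ω] [Algebra k Ω], (σ → Ω) → Prop), IsEx k σ q →
  ∀ (Ω : Type u) [Field Ω] [Algebra k Ω] (a : σ → k),
    (q Ω fun s => algebraMap k Ω (a s)) → q k a

/-- closure properties of existential systems -/
structure ExL (k : Type u) [Field k] : Prop where
  eq : ∀ (σ : Type) (e : MvPolynomial σ k), IsEx k σ fun _ _ _ a => aeval a e = 0
  ne : ∀ (σ : Type) (e : MvPolynomial σ k), IsEx k σ fun _ _ _ a => aeval a e ≠ 0
  and : ∀ (σ : Type) q q', IsEx k σ q → IsEx k σ q' → IsEx k σ fun Ω _ _ a => q Ω a ∧ q' Ω a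
  or : ∀ (σ : Type) q q', IsEx k σ q → IsEx k σ q' → IsEx k σ fun Ω _ _ a => q Ω a ∨ q' Ω a
  all : ∀ (σ ι : Type) [Finite ι]
    (q : ι → ∀ (Ω : Type u) [Field Ω] [Algebra k Ω], (σ → Ω) → Prop),
    (∀ i, IsEx k σ (q i)) → IsEx k σ fun Ω _ _ a => ∀ i, q i Ω a
  any : ∀ (σ ι : Type) [Finite ι]
    (q : ι → ∀ (Ω : Type u) [Field Ω] [Algebra k Ω], (σ → Ω) → Prop),
    (∀ i, IsEx k σ (q i)) → IsEx k σ fun Ω _ _ a => ∃ i, q i Ω a
  allF : ∀ (σ : Type) (β : Type u) (s : Finset β)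
    (q : β → ∀ (Ω : Type u) [Field Ω] [Algebra k Ω], (σ → Ω) → Prop),
    (∀ i ∈ s, IsEx k σ (q i)) → IsEx k σ fun Ω _ _ a => ∀ i ∈ s, q i Ω a
  ex : ∀ (σ τ : Type) [Finite τ] q, IsEx k (σ ⊕ τ) q →
    IsEx k σ fun Ω _ _ a => ∃ v : τ → Ω, q Ω (Sum.elim a v)
  comp : ∀ (σ τ : Type) (g : τ → MvPolynomial σ k) q, IsEx k τ q →
    IsEx k σ fun Ω _ _ a => q Ω fun t => aeval a (g t)
  congr : ∀ (σ : Type) q q', IsEx k σ q →
    (∀ (Ω : Type u) [Field Ω] [Algebra k Ω] (a : σ → Ω), q Ω a ↔ q' Ω a) → IsEx k σ q'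

def RExL : Prop := ∀ (k : Type u) [Field k], ExL k

/-- `c` independent linear conditions over a field of transcendence degree `< c` fail at a generic
point -/
def RLin : Prop := ∀ (k Ω : Type u) [Field k] [Field Ω] [Algebra k Ω] (s : Finset Ω)
  (L : IntermediateField k Ω), (∀ x ∈ L, IsAlgebraic (Algebra.adjoin k (s : Set Ω)) x) →
  ∀ (m c : ℕ) (a : Fin m → Ω) (M : Fin c → Fin m → Ω), AlgebraicIndependent k a →
  (∀ i j, M i j ∈ L) →
  (∀ w : Fin c → Ω, (∀ i, w i ∈ L) → ∃ b : Fin m → Ω, (∀ j, b j ∈ L) ∧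
    ∀ i, ∑ j, M i j * b j = w i) →
  (∀ i, ∑ j, M i j * a j = 0) → c ≤ s.card

/-- derivative of `G` at `z` in the direction `τ` -/
noncomputable def dEv {Ω : Type u} [CommRing Ω] {n : ℕ} (z : Fin n → Ω)
    (G : MvPolynomial (Fin n) Ω) (τ : Fin n → Ω) : Ω :=
  ∑ j, eval z (pderiv j G) * τ j

/-- the coordinates of a point are algebraic over those that separate tangent vectors -/
def RTr : Prop := ∀ (k Ω : Type u) [Field k] [Field Ω] [Algebra k Ω] (n : ℕ)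
  (𝒢 : Set (MvPolynomial (Fin n) k)) (z : Fin n → Ω) (i : Fin n) (J : Finset (Fin n)),
  z i = 1 → (∀ G ∈ 𝒢, aeval z G = 0) →
  (∀ τ : Fin n → Ω, τ i = 0 → (∀ j ∈ J, τ j = 0) →
    (∀ G ∈ 𝒢, dEv z (map (algebraMap k Ω) G) τ = 0) → τ = 0) →
  ∀ x ∈ adjoin k (Set.range z), IsAlgebraic (Algebra.adjoin k (z '' (J : Set (Fin n)))) x

/-- forms vanishing at points with coordinates in a subfield are spanned by such forms with
coefficients in the subfield -/
def RRat : Prop := ∀ (Ω : Type u) [Field Ω] (S : Subfield Ω) (n d r : ℕ)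
  (w : Fin r → Fin n → Ω), (∀ a j, w a j ∈ S) →
  ∀ h : MvPolynomial (Fin n) Ω, h.IsHomogeneous d → (∀ a, eval (w a) h = 0) →
  h ∈ Submodule.span Ω {g : MvPolynomial (Fin n) Ω | g.IsHomogeneous d ∧
    (∀ b, coeff b g ∈ S) ∧ ∀ a, eval (w a) g = 0}

end Pool.Agent.MP_f3836a_nt.PK
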