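import Pool.Agent.MP_f3836a_nt.PK.SpecE

set_option autoImplicit false

/-! Length along an unramified extension with contraction, and regular local rings are domains. -/

namespace Pool.Agent.MP_f3836a_nt.PK

open IsLocalRing

universe u

namespace ELen

/-- one step of a composition series above `J` -/
theorem step {R : Type u} [CommRing R] [IsLocalRing R] (J : Ideal R) (c : R) (hc : c ∉ J)
    (hm : maximalIdeal R * Ideal.span {c} ≤ J) :
    Module.length R (R ⧸ J) = Module.length R (R ⧸ (J ⊔ Ideal.span {c})) + 1 := by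
  have hm' : ∀ r ∈ maximalIdeal R, r * c ∈ J := fun r hr =>
    hm (Ideal.mul_mem_mul hr (Ideal.mem_span_singleton_self c))
  let f : (R ⧸ maximalIdeal R) →ₗ[R] R ⧸ J :=
    Submodule.mapQ (maximalIdeal R) J (LinearMap.toSpanSingleton R R c) fun r hr => by
      simpa [LinearMap.toSpanSingleton_apply] using hm' r hr
  let g : (R ⧸ J) →ₗ[R] R ⧸ (J ⊔ Ideal.span {c}) := Submodule.factor le_sup_left
  have fa : ∀ r : R, f (Submodule.Quotient.mk r) = Submodule.Quotient.mk (r * c) := fun r => rfl
  have ga : ∀ r : R, g (Submodule.Quotient.mk r) = Submodule.Quotient.mk r := fun r => rfl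
  have hf : Function.Injective f := by
    rw [injective_iff_map_eq_zero]
    intro x hx
    obtain ⟨r, rfl⟩ := Submodule.Quotient.mk_surjective _ x
    rw [fa, Submodule.Quotient.mk_eq_zero] at hx
    rw [Submodule.Quotient.mk_eq_zero]
    by_contra hr
    have hu : IsUnit r := by
      by_contra h
      exact hr ((mem_maximalIdeal r).2 h)
    exact hc ((Ideal.unit_mul_mem_iff_mem J hu).1 hx)
  have hg : Function.Surjective g := fun x => by
    obtain ⟨r, rfl⟩ := Submodule.Quotient.mk_surjective _ x
    exact ⟨Submodule.Quotient.mk r, ga r⟩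
  have ex : Function.Exact f g := fun x => by
    obtain ⟨r, rfl⟩ := Submodule.Quotient.mk_surjective _ x
    rw [ga, Submodule.Quotient.mk_eq_zero]
    constructor
    · intro h
      obtain ⟨j, hj, y, hy, rfl⟩ := Submodule.mem_sup.1 h
      obtain ⟨s, rfl⟩ := Ideal.mem_span_singleton'.1 hy
      refine ⟨Submodule.Quotient.mk s, ?_⟩
      rw [fa, Submodule.Quotient.eq]
      simpa using hj
    · rintro ⟨y, hy⟩
      obtain ⟨s, rfl⟩ := Submodule.Quotient.mk_surjective _ y
      rw [fa, Submodule.Quotient.eq] at hy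
      have : r = -(s * c - r) + s * c := by ring
      rw [this]
      exact Submodule.add_mem_sup (J.neg_mem hy) (Ideal.mem_span_singleton'.2 ⟨s, rfl⟩)
  have si : IsSimpleModule R (R ⧸ maximalIdeal R) :=
    isSimpleModule_iff_isCoatom.2 (Ideal.isMaximal_def.1 (maximalIdeal.isMaximal R))
  rw [Module.length_eq_add_of_exact f g hf hg ex, Module.length_eq_one, add_comm]

/-- a socle element modulo an ideal of finite colength -/
theorem socle {R : Type u} [CommRing R] [IsLocalRing R] (J : Ideal R) (hJ : J ≠ ⊤)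
    (h : Module.length R (R ⧸ J) ≠ ⊤) :
    ∃ c : R, c ∉ J ∧ maximalIdeal R * Ideal.span {c} ≤ J := by
  have ar : IsArtinian R (R ⧸ J) :=
    (isFiniteLength_iff_isNoetherian_isArtinian.1 (Module.length_ne_top_iff.1 h)).2
  have nt : Nontrivial (R ⧸ J) := Ideal.Quotient.nontrivial_iff.2 hJ
  obtain ⟨N, hN⟩ : ∃ N : Submodule R (R ⧸ J), IsAtom N := IsAtomic.exists_atom _
  obtain ⟨x, hx, x0⟩ := Submodule.exists_mem_ne_zero_of_ne_bot hN.1
  obtain ⟨c, rfl⟩ := Submodule.Quotient.mk_surjective _ x
  refine ⟨c, fun hc => x0 ((Submodule.Quotient.mk_eq_zero _).2 hc), ?_⟩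
  rw [Ideal.mul_le]
  intro r hr y hy
  obtain ⟨s, rfl⟩ := Ideal.mem_span_singleton'.1 hy
  rw [mul_left_comm]
  refine J.mul_mem_left s ?_
  by_contra hrc
  have h1 : Submodule.span R {(Submodule.Quotient.mk (r * c) : R ⧸ J)} ≤ N := by
    rw [Submodule.span_singleton_le_iff_mem, ← smul_eq_mul, Submodule.Quotient.mk_smul]
    exact N.smul_mem r hx
  have h2 : Submodule.span R {(Submodule.Quotient.mk (r * c) : R ⧸ J)} ≠ ⊥ := by
    rw [Ne, Submodule.span_singleton_eq_bot, Submodule.Quotient.mk_eq_zero]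
    exact hrc
  have h3 := (hN.le_iff.1 h1).resolve_left h2
  rw [← h3, Submodule.mem_span_singleton] at hx
  obtain ⟨a, ha⟩ := hx
  rw [← Submodule.Quotient.mk_smul, Submodule.Quotient.eq] at ha
  have hu : IsUnit (1 - a * r) :=
    isUnit_one_sub_self_of_mem_nonunits _ ((mem_maximalIdeal _).1 (Ideal.mul_mem_left _ a hr))
  refine x0 ((Submodule.Quotient.mk_eq_zero _).2 ((Ideal.unit_mul_mem_iff_mem J hu).1 ?_))
  have : (1 - a * r) * c = -(a • (r * c) - c) := by rw [smul_eq_mul]; ring
  rw [this]
  exact J.neg_mem ha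

theorem nak {R : Type u} [CommRing R] [IsLocalRing R] [IsNoetherianRing R] {I : Ideal R}
    (h : I ≤ maximalIdeal R * I) : I = ⊥ :=
  Submodule.eq_bot_of_le_smul_of_le_jacobson_bot (maximalIdeal R) I (IsNoetherian.noetherian I) h
    (maximalIdeal_le_jacobson _)

/-- an element of `m` outside `m ^ 2` is a member of a generating set of the least size -/
theorem gen {R : Type u} [CommRing R] [IsLocalRing R] [IsNoetherianRing R] {n : ℕ}
    (hn : (maximalIdeal R).spanFinrank = n + 1) {x : R} (hx : x ∈ maximalIdeal R)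
    (hx' : x ∉ maximalIdeal R ^ 2) :
    ∃ t : Finset R, t.card = n ∧ maximalIdeal R = Ideal.span (t : Set R) ⊔ Ideal.span {x} := by
  classical
  obtain ⟨s, h1, h2⟩ := Submodule.FG.exists_span_finset_card_eq_spanFinrank
    (IsNoetherian.noetherian (maximalIdeal R))
  have hs : ∀ y ∈ s, y ∈ maximalIdeal R := fun y hy => h2 ▸ Submodule.subset_span hy
  obtain ⟨a, -, ha⟩ := Submodule.mem_span_finset.1 (h2 ▸ hx)
  have : ∃ y ∈ s, IsUnit (a y) := by
    by_contra hc
    push Not at hc
    refine hx' ?_
    rw [← ha, sq]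
    exact Ideal.sum_mem _ fun y hy => Ideal.mul_mem_mul ((mem_maximalIdeal _).2 (hc y hy)) (hs y hy)
  obtain ⟨y, hy, hu⟩ := this
  refine ⟨s.erase y, by rw [Finset.card_erase_of_mem hy, h1, hn]; rfl, le_antisymm ?_ ?_⟩
  · rw [← h2, Submodule.span_le]
    intro z hz
    by_cases e : z = y
    · subst e
      rw [← Finset.add_sum_erase _ _ hy] at ha
      refine (Ideal.unit_mul_mem_iff_mem _ hu).1 ?_
      have : a z * z = -(∑ w ∈ s.erase z, a w • w) + x := by rw [← ha, smul_eq_mul]; ring
      rw [this]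
      refine Submodule.add_mem_sup (neg_mem (Ideal.sum_mem _ fun w hw => ?_))
        (Ideal.mem_span_singleton_self x)
      exact Submodule.smul_mem _ _ (Ideal.subset_span hw)
    · exact Ideal.mem_sup_left (Ideal.subset_span (Finset.mem_coe.2 (Finset.mem_erase.2 ⟨e, hz⟩)))
  · refine sup_le (Ideal.span_le.2 fun z hz => hs z (Finset.mem_of_mem_erase hz)) ?_
    exact (Ideal.span_singleton_le_iff_mem _).2 hx

theorem dom (n : ℕ) : ∀ (R : Type u) [CommRing R] [IsRegularLocalRing R],
    (maximalIdeal R).spanFinrank = n → IsDomain R := by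
  induction n with
  | zero =>
    intro R _ _ h
    have h0 := (Submodule.spanFinrank_eq_zero_iff_eq_bot (IsNoetherian.noetherian _)).1 h
    exact (isField_iff_maximalIdeal_eq.2 h0).isDomain
  | succ n ih =>
    intro R _ _ hn
    classical
    have hd : ringKrullDim R = ((n + 1 : ℕ) : WithBot ℕ∞) := by
      rw [← IsRegularLocalRing.spanFinrank_maximalIdeal, hn]
    have av : ¬ ((maximalIdeal R : Set R) ⊆
        ⋃ i ∈ insert (maximalIdeal R ^ 2) (minimalPrimes R), ((id i : Ideal R) : Set R)) := by
      rw [Ideal.subset_union_prime_finite (f := id)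
        ((minimalPrimes.finite_of_isNoetherianRing R).insert _) (maximalIdeal R ^ 2)
        (maximalIdeal R ^ 2) fun i hi h _ => Ideal.IsMinimalPrime.isPrime (hi.resolve_left h)]
      rintro ⟨i, rfl | hi, h⟩
      · have h0 := nak (I := maximalIdeal R) (by rw [← sq]; exact h)
        rw [h0, Submodule.spanFinrank_bot] at hn
        omega
      · have pi : i.IsPrime := Ideal.IsMinimalPrime.isPrime hi
        have e : maximalIdeal R = i := (maximalIdeal.isMaximal R).eq_of_le pi.ne_top h
        have h1 := maximalIdeal_height_eq_ringKrullDim (R := R)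
        rw [hd, Ideal.height_eq_zero_iff.2 (e ▸ hi)] at h1
        have h2 : (0 : ℕ) = n + 1 := by exact_mod_cast h1
        omega
    obtain ⟨x, hx, hx2⟩ := Set.not_subset.1 av
    simp only [Set.mem_iUnion, id, SetLike.mem_coe, not_exists] at hx2
    have hx' : x ∉ maximalIdeal R ^ 2 := hx2 _ (Set.mem_insert _ _)
    obtain ⟨t, ht, hm⟩ := gen hn hx hx'
    have nt : Ideal.span {x} ≠ ⊤ := fun e =>
      (mem_maximalIdeal x).1 hx (Ideal.span_singleton_eq_top.1 e)
    have := Ideal.Quotient.nontrivial_iff.2 nt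
    have sj := Ideal.Quotient.mk_surjective (I := Ideal.span {x})
    have := IsLocalRing.of_surjective' (Ideal.Quotient.mk (Ideal.span {x})) sj
    have le : (maximalIdeal (R ⧸ Ideal.span {x})).spanFinrank ≤ n := by
      rw [← map_maximalIdeal_of_surjective _ sj, hm, Ideal.map_sup, Ideal.map_quotient_self,
        sup_bot_eq, Ideal.map_span]
      refine (Submodule.spanFinrank_span_le_ncard_of_finite (t.finite_toSet.image _)).trans ?_
      refine (Set.ncard_image_le t.finite_toSet).trans ?_
      rw [Set.ncard_coe_finset, ht]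
    have ge : ((n : ℕ) : WithBot ℕ∞) ≤ ringKrullDim (R ⧸ Ideal.span {x}) := by
      have h1 := Ideal.height_le_ringKrullDim_quotient_add_one (p := maximalIdeal R) hx
      rw [maximalIdeal_height_eq_ringKrullDim, hd, Nat.cast_add, Nat.cast_one,
        ENat.WithBot.add_le_add_one_right_iff] at h1
      exact h1
    have reg : IsRegularLocalRing (R ⧸ Ideal.span {x}) :=
      IsRegularLocalRing.of_spanFinrank_maximalIdeal_le _ (le_trans (by exact_mod_cast le) ge)
    have e : (maximalIdeal (R ⧸ Ideal.span {x})).spanFinrank = n := by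
      refine le_antisymm le ?_
      rw [← IsRegularLocalRing.spanFinrank_maximalIdeal] at ge
      exact_mod_cast ge
    have px : (Ideal.span {x}).IsPrime := (Ideal.Quotient.isDomain_iff_prime _).1 (ih _ e)
    obtain ⟨q, hq, hqx⟩ := Ideal.exists_minimalPrimes_le (I := (⊥ : Ideal R))
      (J := Ideal.span {x}) bot_le
    have pq : q.IsPrime := Ideal.IsMinimalPrime.isPrime hq
    have xq : x ∉ q := hx2 q (Set.mem_insert_of_mem _ hq)
    have q0 : q = ⊥ := nak fun y hy => by
      obtain ⟨r, rfl⟩ := Ideal.mem_span_singleton'.1 (hqx hy)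
      rw [mul_comm r x]
      exact Ideal.mul_mem_mul hx ((pq.mem_or_mem hy).resolve_right xq)
    rw [q0] at pq
    exact IsDomain.of_bot_isPrime R

end ELen

open ELen in
theorem rLen : RLen.{u} := by
  intro A B _ _ _ _ f hm hc I hI
  obtain ⟨n, hn⟩ := ENat.ne_top_iff_exists.1 hI
  induction n generalizing I with
  | zero =>
    have h0 : Subsingleton (A ⧸ I) := Module.length_eq_zero_iff.1 (by simpa using hn.symm)
    have h1 : I = ⊤ := Ideal.Quotient.subsingleton_iff.1 h0
    subst h1
    have h2 : Subsingleton (B ⧸ Ideal.map f ⊤) :=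
      Ideal.Quotient.subsingleton_iff.2 (Ideal.map_top f)
    rw [Module.length_eq_zero, Module.length_eq_zero]
  | succ n ih =>
    have nt : I ≠ ⊤ := fun e => by
      have h0 : Subsingleton (A ⧸ I) := Ideal.Quotient.subsingleton_iff.2 e
      rw [Module.length_eq_zero] at hn
      have h2 : n + 1 = 0 := by exact_mod_cast hn
      omega
    obtain ⟨c, hcI, hmc⟩ := socle I nt hI
    have hA := step I c hcI hmc
    have hB := step (I.map f) (f c) (fun h => hcI (hc I ▸ Ideal.mem_comap.2 h)) (by
      have := Ideal.map_mono (f := f) hmc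
      rwa [Ideal.map_mul, hm, Ideal.map_span, Set.image_singleton] at this)
    have ne : Module.length A (A ⧸ (I ⊔ Ideal.span {c})) ≠ ⊤ := fun e => hI (by rw [hA, e, top_add])
    obtain ⟨k, hk⟩ := ENat.ne_top_iff_exists.1 ne
    have kn : k = n := by
      rw [hA, ← hk] at hn
      have h2 : n + 1 = k + 1 := by exact_mod_cast hn
      omega
    have h3 := ih (I ⊔ Ideal.span {c}) ne (kn ▸ hk)
    rw [Ideal.map_sup, Ideal.map_span, Set.image_singleton] at h3
    rw [hB, hA, h3]

theorem rDom : RDom.{u} := fun R _ _ => ELen.dom _ R rfl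

end Pool.Agent.MP_f3836a_nt.PK
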