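import Pool.Agent.MP_f3836a_nt.PK.SpecB

set_option autoImplicit false

/-! Genericity by counting, and finite subsets of the algebraic closure of a finite field. -/

namespace Pool.Agent.MP_f3836a_nt.PK

universe u

namespace BGenA

variable {k : Type u} {ι : Type} [Fintype ι]

theorem box_eq [DecidableEq ι] (S : Finset k) :
    {a : ι → k | ∀ j, a j ∈ S} = (Fintype.piFinset fun _ : ι => S : Finset (ι → k)) := by
  ext a
  simp

theorem box_finite (S : Finset k) : {a : ι → k | ∀ j, a j ∈ S}.Finite := by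
  classical
  rw [box_eq]
  exact Finset.finite_toSet _

theorem box_ncard (S : Finset k) :
    {a : ι → k | ∀ j, a j ∈ S}.ncard = S.card ^ Fintype.card ι := by
  classical
  rw [box_eq, Set.ncard_coe_finset, Fintype.card_piFinset]
  simp

theorem bad_finite (S : Finset k) (q : (ι → k) → Prop) :
    {a : ι → k | (∀ j, a j ∈ S) ∧ ¬ q a}.Finite := (box_finite S).subset fun _ h => h.1

theorem gen_mono (q q' : (ι → k) → Prop) (h : Gen k ι q) (hq : ∀ a, q a → q' a) : Gen k ι q' := by
  obtain ⟨c, hc⟩ := h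
  refine ⟨c, fun S => le_trans (Nat.mul_le_mul_right _ ?_) (hc S)⟩
  exact Set.ncard_le_ncard (fun a ha => ⟨ha.1, fun h => ha.2 (hq a h)⟩) (bad_finite S q)

theorem gen_and (q q' : (ι → k) → Prop) (h : Gen k ι q) (h' : Gen k ι q') :
    Gen k ι fun a => q a ∧ q' a := by
  obtain ⟨c, hc⟩ := h
  obtain ⟨c', hc'⟩ := h'
  refine ⟨c + c', fun S => ?_⟩
  have h1 : {a : ι → k | (∀ j, a j ∈ S) ∧ ¬ (q a ∧ q' a)}.ncard ≤
      {a : ι → k | (∀ j, a j ∈ S) ∧ ¬ q a}.ncard + {a : ι → k | (∀ j, a j ∈ S) ∧ ¬ q' a}.ncard := by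
    refine le_trans (Set.ncard_le_ncard (fun a ha => ?_)
      ((bad_finite S q).union (bad_finite S q'))) (Set.ncard_union_le _ _)
    exact (not_and_or.1 ha.2).imp (fun h => ⟨ha.1, h⟩) fun h => ⟨ha.1, h⟩
  refine (Nat.mul_le_mul_right _ h1).trans ?_
  rw [add_mul, add_mul]
  exact add_le_add (hc S) (hc' S)

theorem gen_true : Gen k ι fun _ => True := ⟨0, fun S => by simp⟩

theorem fix_pow {p : ℕ} [Field k] {a : k} {m : ℕ} (h : a ^ p ^ m = a) (t : ℕ) :
    a ^ p ^ (m * t) = a := by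
  induction t with
  | zero => simp
  | succ t ih => rw [mul_add_one, pow_add, pow_mul, ih, h]

theorem exists_fix [Field k] (p : ℕ) [Fact p.Prime] [CharP k p] {a : k}
    (h : a ≠ 0 → ∃ n, 0 < n ∧ a ^ n = 1) : ∃ m, 1 ≤ m ∧ a ^ p ^ m = a := by
  have hp : p.Prime := Fact.out
  by_cases h0 : a = 0
  · exact ⟨1, le_rfl, by rw [h0, zero_pow (pow_ne_zero _ hp.ne_zero)]⟩
  have hf : IsOfFinOrder a := isOfFinOrder_iff_pow_eq_one.2 (h h0)
  obtain ⟨i, j, hij, e⟩ := Set.Finite.exists_lt_map_eq_of_forall_mem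
    (f := fun i : ℕ => a ^ p ^ i) (fun i => Submonoid.pow_mem _ (Submonoid.mem_powers a) _)
    hf.finite_powers
  obtain ⟨m, rfl⟩ := Nat.exists_eq_add_of_lt hij
  refine ⟨m + 1, by omega, ?_⟩
  have e2 : (a ^ p ^ (m + 1) - a) ^ p ^ i = 0 := by
    rw [sub_pow_char_pow, ← pow_mul, ← pow_add, sub_eq_zero]
    rw [show m + 1 + i = i + m + 1 by ring]
    exact e.symm
  exact sub_eq_zero.1 (pow_eq_zero_iff (pow_ne_zero _ hp.ne_zero) |>.1 e2)

end BGenA

open BGenA

theorem rGenA : RGenA.{u} := by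
  intro k _ _
  refine ⟨fun ι _ => gen_and, fun ι _ => gen_mono, fun ι _ β s q hs => ?_, fun ι _ q h => ?_,
    fun ι _ V _ _ B P h => ?_, fun ι ι' _ _ e q h => ?_⟩
  · induction s, hs using Set.Finite.induction_on with
    | empty => exact fun _ => gen_mono _ _ gen_true fun _ _ _ h => h.elim
    | @insert b s _ _ ih =>
      intro h
      refine gen_mono _ _ (gen_and _ _ (h b (Set.mem_insert _ _))
        (ih fun x hx => h x (Set.mem_insert_of_mem _ hx))) fun a ha x hx => ?_
      rcases hx with rfl | hx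
      · exact ha.1
      · exact ha.2 x hx
  · by_contra hn
    obtain ⟨c, hc⟩ := h
    obtain ⟨S, hS⟩ := Infinite.exists_subset_card_eq k (c + 1)
    have h1 := hc S
    have h2 : {a : ι → k | (∀ j, a j ∈ S) ∧ ¬ q a} = {a : ι → k | ∀ j, a j ∈ S} :=
      Set.ext fun a => ⟨fun h => h.1, fun h => ⟨h, fun hq => hn ⟨a, hq⟩⟩⟩
    rw [h2, box_ncard, hS] at h1
    have h3 : 0 < (c + 1) ^ Fintype.card ι := by positivity
    nlinarith
  · classical
    obtain ⟨j, hj⟩ := h
    refine ⟨1, fun S => ?_⟩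
    rw [one_mul, ← box_ncard, ← Set.ncard_coe_finset S, ← Set.ncard_prod]
    refine Set.ncard_le_ncard_of_injOn (fun x : (ι → k) × k => Function.update x.1 j x.2)
      (fun x hx i => ?_) (fun x hx y hy e => ?_) (box_finite S)
    · by_cases hi : i = j
      · subst hi
        simpa using hx.2
      · simpa [hi] using hx.1.1 i
    · have e1 : x.2 = y.2 := by simpa using congrFun e j
      have e2 : ∀ i, i ≠ j → x.1 i = y.1 i := fun i hi => by simpa [hi] using congrFun e i
      have e3 : (x.1 j - y.1 j) • B j ∈ P := by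
        have := P.sub_mem (not_not.1 hx.1.2) (not_not.1 hy.1.2)
        rwa [← Finset.sum_sub_distrib, Finset.sum_eq_single j
          (fun i _ hi => by rw [e2 i hi, sub_self]) (fun h => absurd (Finset.mem_univ j) h),
          ← sub_smul] at this
      have e4 : x.1 j = y.1 j := by
        by_contra hne
        exact hj ((P.smul_mem_iff (sub_ne_zero.2 hne)).1 e3)
      refine Prod.ext (funext fun i => ?_) e1
      by_cases hi : i = j
      · rw [hi, e4]
      · exact e2 i hi
  · obtain ⟨c, hc⟩ := h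
    refine ⟨c, fun S => ?_⟩
    rw [← Fintype.card_congr e]
    refine le_trans (Nat.mul_le_mul_right _ ?_) (hc S)
    refine Set.ncard_le_ncard_of_injOn (fun (a : ι' → k) (i : ι) => a (e i))
      (fun a ha => ⟨fun i => ha.1 _, by simpa using ha.2⟩) (fun a _ b _ h => funext fun j => ?_)
      (bad_finite S _)
    simpa using congrFun h (e.symm j)

theorem rTow : RTow.{u} := by
  intro k _ p _ _ h s Q hs
  have hp : p.Prime := Fact.out
  choose m m1 m2 using fun a : k => exists_fix p (h a)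
  have hP : 1 ≤ ∏ a ∈ hs.toFinset, m a := Finset.one_le_prod' fun a _ => m1 a
  refine ⟨(∏ a ∈ hs.toFinset, m a) * (Q + 1), by nlinarith, ?_, fun a ha => ?_⟩
  · refine le_trans ?_ (Nat.lt_pow_self hp.one_lt).le
    nlinarith
  · obtain ⟨t, ht⟩ := Finset.dvd_prod_of_mem m (hs.mem_toFinset.2 ha)
    rw [← pow_mul, ht, mul_assoc, mul_assoc]
    exact fix_pow (m2 a) _

end Pool.Agent.MP_f3836a_nt.PK
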