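import Pool.Agent.MP_f3836a_nt.PK.SpecE
import Pool.Agent.MP_f3836a_nt.PK.BReg
import Pool.Agent.MP_f3836a_nt.PK.BGenA

set_option autoImplicit false

/-! Local structure of the extension of the ground field at closed points. -/

namespace Pool.Agent.MP_f3836a_nt.PK

open MvPolynomial IsLocalRing

universe u

namespace EFl

section Alg

variable {k A B : Type u} [Field k] [CommRing A] [CommRing B] [Algebra k B]

theorem per {Q : Type u} [CommRing Q] [Nontrivial Q] [Algebra k Q] (p : ℕ) [Fact p.Prime]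
    [CharP k p] (hk : ∀ a : k, a ≠ 0 → ∃ n, 0 < n ∧ a ^ n = 1) (T : Set Q)
    (hT : ∀ s ∈ T, ∃ r, 1 ≤ r ∧ s ^ p ^ r = s) :
    ∀ s ∈ Algebra.adjoin k T, ∃ r, 1 ≤ r ∧ s ^ p ^ r = s := by
  have : CharP Q p := charP_of_injective_algebraMap (algebraMap k Q).injective p
  have h1 : ∀ (s : Q) (r t : ℕ), s ^ p ^ r = s → s ^ p ^ (r * t) = s := by
    intro s r t h
    induction t with
    | zero => simp
    | succ t ih => rw [mul_add_one, pow_add, pow_mul, ih, h]
  intro s hs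
  induction hs using Algebra.adjoin_induction with
  | mem s h => exact hT s h
  | algebraMap c =>
    obtain ⟨r, h, e⟩ := BGenA.exists_fix p (hk c)
    exact ⟨r, h, by rw [← map_pow, e]⟩
  | add s s' _ _ a b =>
    obtain ⟨r, h, e⟩ := a
    obtain ⟨r', h', e'⟩ := b
    exact ⟨r * r', Nat.mul_pos h h', by
      rw [add_pow_char_pow, h1 _ _ _ e, mul_comm r, h1 _ _ _ e']⟩
  | mul s s' _ _ a b =>
    obtain ⟨r, h, e⟩ := a
    obtain ⟨r', h', e'⟩ := b
    exact ⟨r * r', Nat.mul_pos h h', by rw [mul_pow, h1 _ _ _ e, mul_comm r, h1 _ _ _ e']⟩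

variable (k) in
/-- `B` is a localization of the algebra generated by the image of `f`. -/
def Gen (f : A →+* B) : Prop := ∀ s : B, ∃ w, IsUnit w ∧ w ∈ Algebra.adjoin k (Set.range f) ∧
  s * w ∈ Algebra.adjoin k (Set.range f)

theorem unr [IsLocalRing A] [IsLocalRing B] (p : ℕ) [Fact p.Prime] [CharP k p]
    (hk : ∀ a : k, a ≠ 0 → ∃ n, 0 < n ∧ a ^ n = 1) (f : A →+* B) (ev : B →ₐ[k] k)
    (hev : ∀ s, ev s = 0 ↔ s ∈ maximalIdeal B)
    (hf : ∀ a, f a ∈ maximalIdeal B ↔ a ∈ maximalIdeal A) (hg : Gen k f) :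
    (maximalIdeal A).map f = maximalIdeal B := by
  have h1 : (maximalIdeal A).map f ≤ maximalIdeal B :=
    Ideal.map_le_iff_le_comap.2 fun a ha => (hf a).2 ha
  refine le_antisymm h1 fun s hs => ?_
  have : Nontrivial (B ⧸ (maximalIdeal A).map f) := Ideal.Quotient.nontrivial_iff.2
    (ne_top_of_le_ne_top (maximalIdeal.isMaximal B).ne_top h1)
  obtain ⟨w, hw, -, hu⟩ := hg s
  let π := Ideal.Quotient.mkₐ k ((maximalIdeal A).map f)
  obtain ⟨r, hr, e⟩ := per p hk (π '' Set.range f) (by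
    rintro _ ⟨_, ⟨a, rfl⟩, rfl⟩
    obtain ⟨r, h, e⟩ := BGenA.exists_fix p (hk (ev (f a)))
    refine ⟨r, h, ?_⟩
    rw [← map_pow, ← map_pow]
    refine Ideal.Quotient.eq.2 ?_
    rw [← map_sub]
    refine Ideal.mem_map_of_mem _ ((hf _).1 ((hev _).1 ?_))
    rw [map_sub, map_sub, map_pow, map_pow, e, sub_self]) (π (s * w))
    (by rw [← AlgHom.map_adjoin]; exact ⟨_, hu, rfl⟩)
  rw [← map_pow] at e
  have h2 : (s * w) ^ p ^ r - s * w ∈ (maximalIdeal A).map f := Ideal.Quotient.eq.1 e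
  obtain ⟨q, hq⟩ : ∃ q, p ^ r = q + 2 :=
    Nat.exists_eq_add_of_le' (Nat.one_lt_pow (by omega) (Fact.out : p.Prime).one_lt)
  have h3 : IsUnit (1 - (s * w) ^ (q + 1)) := isUnit_one_sub_self_of_mem_nonunits _
    (Ideal.pow_mem_of_mem (maximalIdeal B) (Ideal.mul_mem_right _ _ hs) _ q.succ_pos)
  rw [← Ideal.mul_unit_mem_iff_mem _ hw, ← Ideal.mul_unit_mem_iff_mem _ h3]
  convert neg_mem h2 using 1
  rw [hq]
  ring

theorem common (hk : ∀ a : k, a ≠ 0 → ∃ n, 0 < n ∧ a ^ n = 1) (a b : k) :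
    ∃ c : k, (a = 0 ∨ ∃ i : ℕ, a = c ^ i) ∧ (b = 0 ∨ ∃ i : ℕ, b = c ^ i) := by
  by_cases ha : a = 0
  · exact ⟨b, .inl ha, .inr ⟨1, (pow_one b).symm⟩⟩
  by_cases hb : b = 0
  · exact ⟨a, .inr ⟨1, (pow_one a).symm⟩, .inl hb⟩
  obtain ⟨n, hn, e⟩ := hk a ha
  obtain ⟨m, hm, e'⟩ := hk b hb
  have : NeZero (n * m) := ⟨(Nat.mul_pos hn hm).ne'⟩
  obtain ⟨g, hg⟩ := IsCyclic.exists_monoid_generator (α := rootsOfUnity (n * m) k)
  have key : ∀ x : k, x ^ (n * m) = 1 → ∃ i : ℕ, x = ((g : kˣ) : k) ^ i := fun x hx => by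
    obtain ⟨i, hi⟩ := hg (rootsOfUnity.mkOfPowEq x hx)
    exact ⟨i, (congrArg (fun y : rootsOfUnity (n * m) k => ((y : kˣ) : k)) hi).symm⟩
  exact ⟨_, .inr (key a (by rw [pow_mul, e, one_pow])),
    .inr (key b (by rw [mul_comm, pow_mul, e', one_pow]))⟩

theorem contr [IsDomain A] [IsIntegrallyClosed A] [IsDomain B] [IsLocalRing A] [IsLocalRing B]
    (hk : ∀ a : k, a ≠ 0 → ∃ n, 0 < n ∧ a ^ n = 1) (f : A →+* B) (hi : Function.Injective f)
    (hf : ∀ a ∈ maximalIdeal A, f a ∈ maximalIdeal B) (hg : Gen k f) (I : Ideal A) :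
    (I.map f).comap f = I := by
  classical
  let := f.toAlgebra
  have : FaithfulSMul A B := (faithfulSMul_iff_algebraMap_injective A B).2 hi
  let M : k → Subalgebra A B := fun c => Algebra.adjoin A {algebraMap k B c}
  have hm : ∀ c, algebraMap k B c ∈ M c := fun c => Algebra.self_mem_adjoin_singleton A _
  have hM : ∀ a b, ∃ c, M a ≤ M c ∧ M b ≤ M c := by
    have key : ∀ a c : k, (a = 0 ∨ ∃ i : ℕ, a = c ^ i) → M a ≤ M c := by
      intro a c h
      refine Algebra.adjoin_le (Set.singleton_subset_iff.2 ?_)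
      rcases h with rfl | ⟨i, rfl⟩
      · rw [map_zero]
        exact (M c).zero_mem
      · rw [map_pow]
        exact (M c).pow_mem (hm c) i
    intro a b
    obtain ⟨c, h1, h2⟩ := common hk a b
    exact ⟨c, key _ _ h1, key _ _ h2⟩
  have h1 : ∀ u ∈ Algebra.adjoin k (Set.range f), ∃ c, u ∈ M c := by
    intro u hu
    induction hu using Algebra.adjoin_induction with
    | mem s h =>
      obtain ⟨a, rfl⟩ := h
      exact ⟨0, (M 0).algebraMap_mem a⟩
    | algebraMap c => exact ⟨c, hm c⟩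
    | add s s' _ _ a b =>
      obtain ⟨c, e⟩ := a
      obtain ⟨c', e'⟩ := b
      obtain ⟨d, a1, a2⟩ := hM c c'
      exact ⟨d, add_mem (a1 e) (a2 e')⟩
    | mul s s' _ _ a b =>
      obtain ⟨c, e⟩ := a
      obtain ⟨c', e'⟩ := b
      obtain ⟨d, a1, a2⟩ := hM c c'
      exact ⟨d, mul_mem (a1 e) (a2 e')⟩
  have h2 : ∀ S : Finset B, ∃ c w, IsUnit w ∧ w ∈ M c ∧ ∀ s ∈ S, s * w ∈ M c := by
    intro S
    induction S using Finset.induction_on with
    | empty => exact ⟨0, 1, isUnit_one, one_mem _, by simp⟩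
    | insert s S _ ih =>
      obtain ⟨c, w, a1, a2, a3⟩ := ih
      obtain ⟨w', b1, b2, b3⟩ := hg s
      obtain ⟨c₁, b4⟩ := h1 _ b2
      obtain ⟨c₂, b5⟩ := h1 _ b3
      obtain ⟨c₃, d1, d2⟩ := hM c₁ c₂
      obtain ⟨d, d3, d4⟩ := hM c c₃
      refine ⟨d, w * w', a1.mul b1, mul_mem (d3 a2) (d4 (d1 b4)), fun t ht => ?_⟩
      rcases Finset.mem_insert.1 ht with rfl | ht
      · rw [mul_left_comm]
        exact mul_mem (d3 a2) (d4 (d2 b5))
      · rw [← mul_assoc]
        exact mul_mem (d3 (a3 t ht)) (d4 (d1 b4))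
  refine le_antisymm (fun a ha => ?_) Ideal.le_comap_map
  obtain ⟨n, s, g, e⟩ := Submodule.mem_span_set'.1 (show f a ∈ Ideal.span (f '' I) from ha)
  choose b hb hb' using fun i => (g i).2
  obtain ⟨c, w, hw, hw', hs⟩ := h2 (Finset.univ.image s)
  have hint : IsIntegral A (algebraMap k B c) := by
    by_cases hc : c = 0
    · rw [hc, map_zero]
      exact isIntegral_zero
    · obtain ⟨m, hm, e⟩ := hk c hc
      exact IsIntegral.of_pow hm (by rw [← map_pow, e, map_one]; exact isIntegral_one)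
  let β := (Algebra.adjoin.powerBasis' hint).basis
  let u : Fin n → M c := fun i => ⟨s i * w, hs _ (Finset.mem_image_of_mem s (Finset.mem_univ i))⟩
  have e1 : a • (⟨w, hw'⟩ : M c) = ∑ i, b i • u i := by
    refine Subtype.ext ?_
    rw [AddSubmonoidClass.coe_finsetSum]
    change f a * w = ∑ i, f (b i) * (s i * w)
    rw [← e, Finset.sum_mul]
    exact Finset.sum_congr rfl fun i _ => by rw [hb', smul_eq_mul]; ring
  obtain ⟨j, hj⟩ : ∃ j, IsUnit (β.repr ⟨w, hw'⟩ j) := by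
    by_contra! h
    have e2 := congrArg Subtype.val (β.sum_repr ⟨w, hw'⟩)
    rw [AddSubmonoidClass.coe_finsetSum] at e2
    refine (mem_maximalIdeal w).1 ?_ hw
    rw [← show _ = w from e2]
    exact sum_mem fun j _ => Ideal.mul_mem_right _ _ (hf _ (h j))
  have e3 := congrArg (β.coord j) e1
  rw [map_smul, map_sum] at e3
  rw [← Ideal.mul_unit_mem_iff_mem _ hj, show _ * _ = _ from e3]
  exact sum_mem fun i _ => by
    rw [map_smul]
    exact I.mul_mem_right _ (hb i)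

end Alg

theorem aeval_div {k K : Type u} [Field k] [Field K] [Algebra k K] {N : ℕ} (ξ : Fin (N + 1) → K)
    {n : ℕ} {A : Pol k N} (hA : A.IsHomogeneous n) (c : K) :
    aeval (fun j => ξ j / c) A = aeval ξ A / c ^ n := by
  rw [aeval_def, aeval_def, eval₂_eq, eval₂_eq, Finset.sum_div]
  refine Finset.sum_congr rfl fun d hd => ?_
  rw [hA.degree_eq_sum_deg_support hd, mul_div_assoc, ← Finset.prod_pow_eq_pow_sum,
    ← Finset.prod_div_distrib]
  simp only [div_pow]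

variable {F K₀ k K : Type u} [Field F] [Field K₀] [Field k] [Field K] [Algebra F K₀] [Algebra F k]
  [Algebra K₀ K] [Algebra k K] [Algebra F K] [IsScalarTower F K₀ K] [IsScalarTower F k K] {N : ℕ}
  {η : Fin (N + 1) → K₀}

theorem aeval_up (A : Pol F N) :
    aeval (up K η) (map (algebraMap F k) A) = algebraMap K₀ K (aeval η A) :=
  (aeval_map_algebraMap k _ A).trans (aeval_algebraMap_apply K η A)

theorem un (hk : ∀ a : k, a ≠ 0 → ∃ n, 0 < n ∧ a ^ n = 1) (x : Pt k (up K η)) :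
    ∃ y : Hp F η, y.Cl ∧ Ov x.ctr y.toCtr := by
  let := MvPolynomial.gradedAlgebra (σ := Fin (N + 1)) (R := F)
  let J : Ideal (Pol F N) := x.ctr.P.comap (map (algebraMap F k))
  have hJ : J.IsPrime := Ideal.comap_isPrime _ _ (H := x.ctr.prime)
  let P := J.homogeneousCore (homogeneousSubmodule (Fin (N + 1)) F)
  have hP : ∀ (n : ℕ) (A : Pol F N), A.IsHomogeneous n →
      (A ∈ P.toIdeal ↔ eval x.z (map (algebraMap F k) A) = 0) := fun n A hA =>
    ⟨fun h => J.toIdeal_homogeneousCore_le _ h,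
      fun h => Ideal.mem_homogeneousCore_of_homogeneous_of_mem ⟨n, hA⟩ h⟩
  refine ⟨⟨⟨P.toIdeal, hJ.homogeneousCore, fun n G hG h => (hP n G hG).2 ?_⟩,
    fun G hG n => homogeneousComponent_mem_of_mem P.isHomogeneous hG n, x.ctr.idx, ?_⟩,
    fun y hy => le_antisymm (fun G hG => ?_) hy, hP⟩
  · exact x.van n _ (hG.map _) (by rw [aeval_up, h, map_zero])
  · rw [hP 1 _ (isHomogeneous_X _ _), map_X, eval_X, x.z_idx.1]
    exact one_ne_zero
  · refine (mem_iff_homogeneousComponent_mem P.isHomogeneous G).2 fun n => ?_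
    have h1 := y.hom G hG n
    have h2 := homogeneousComponent_isHomogeneous n G
    generalize homogeneousComponent n G = H at h1 h2
    obtain ⟨l, hl⟩ := y.good
    by_contra h3
    rw [hP n H h2] at h3
    have h4 : x.z l ≠ 0 := fun e =>
      hl (hy ((hP 1 _ (isHomogeneous_X _ l)).2 (by rw [map_X, eval_X, e])))
    obtain ⟨m, hm, e⟩ := hk _ (div_ne_zero h3 (pow_ne_zero n h4))
    rw [div_pow, div_eq_one_iff_eq (pow_ne_zero _ (pow_ne_zero _ h4))] at e
    have h5 : H ^ m - (X l ^ n) ^ m ∈ y.P :=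
      hy ((hP _ _ ((h2.pow m).sub ((isHomogeneous_X_pow l n).pow m))).2 (by
        simp only [map_sub, map_pow, map_X, eval_X, e, sub_self]))
    have h6 := y.P.sub_mem (y.P.pow_mem_of_mem h1 m hm) h5
    rw [sub_sub_cancel] at h6
    exact hl (y.prime.mem_of_pow_mem _ (y.prime.mem_of_pow_mem _ h6))

theorem hom {c' : Ctr k (up K η)} {c : Ctr F η} (h : Ov c' c) (hc : c'.Good) :
    ∃ f : c.O →+* c'.O, (∀ a, (f a : K) = algebraMap K₀ K a) ∧
      (∀ a, f a ∈ maximalIdeal c'.O ↔ a ∈ maximalIdeal c.O) ∧ Gen k f := by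
  have h1 : ∀ (a : K₀) (A B : Pol F N), a * aeval η B = aeval η A →
      algebraMap K₀ K a * aeval (up K η) (map (algebraMap F k) B) =
        aeval (up K η) (map (algebraMap F k) A) := fun a A B e => by
    rw [aeval_up, aeval_up, ← map_mul, e]
  let f : c.O →+* c'.O := (algebraMap K₀ K).restrict c.O c'.O (by
    rintro a ⟨n, A, B, hA, hB, hP, e⟩
    exact ⟨n, _, _, hA.map _, hB.map _, fun h' => hP ((h n B hB).2 h'), h1 a A B e⟩)
  refine ⟨f, fun _ => rfl, fun a => ?_, fun s => ?_⟩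
  · obtain ⟨n, A, B, hA, hB, hP, e⟩ := a.2
    rw [c.mem_max_iff a hA hB hP e, h n A hA]
    exact c'.mem_max_iff _ (hA.map _) (hB.map _) (fun h' => hP ((h n B hB).2 h')) (h1 a A B e)
  · have h2 : X c'.idx ∉ c.P := fun h' => (Ctr.idx_spec hc).1 (by
      simpa using (h 1 _ (isHomogeneous_X _ _)).1 h')
    let t : Fin (N + 1) → c.O := fun j =>
      ⟨_, c.div_mem (isHomogeneous_X F j) (isHomogeneous_X F c'.idx) h2⟩
    have h3 : ∀ (n : ℕ) (A : Pol k N), A.IsHomogeneous n →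
        c'.lx A ∈ Algebra.adjoin k (Set.range f) := by
      intro n A hA
      have e : c'.lx A = aeval (fun j => f (t j)) A := by
        refine Subtype.ext ?_
        rw [Ctr.coe_lx hc (Form.of hA), c'.lo_eq hA, ← aeval_div _ hA]
        refine Eq.trans ?_ (aeval_algebraMap_apply (A := c'.O) K (fun j => f (t j)) A)
        congr 2
        funext j
        change _ = algebraMap K₀ K (aeval η (X j) / aeval η (X c'.idx))
        rw [aeval_X, aeval_X, map_div₀]
        rfl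
      refine Algebra.adjoin_mono (s := Set.range fun j => f (t j)) ?_ ?_
      · rintro _ ⟨j, rfl⟩
        exact ⟨_, rfl⟩
      · rw [Algebra.adjoin_range_eq_range_aeval]
        exact ⟨A, e.symm⟩
    obtain ⟨n, A, B, hA, hB, hP, e⟩ := Ctr.exists_lx hc s
    exact ⟨c'.lx B, (notMem_maximalIdeal).1 (mt (Ctr.lx_mem_max hc (Form.of hB)).1 hP),
      h3 n B hB, e ▸ h3 n A hA⟩

end EFl

theorem rFlA : RFlA.{u} := by
  intro F K₀ k K _ _ _ _ _ _ _ _ _ _ _ _ _ p _ _ N η hk _ hS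
  refine ⟨EFl.un hk, fun x y hy h => ?_⟩
  obtain ⟨f, h1, h2, h3⟩ := EFl.hom h x.good
  obtain ⟨ev, -, hev⟩ := x.exists_ev
  obtain ⟨h4, h5⟩ := hS.reg y hy
  have := (rReg y.O h5).2.2.1
  refine ⟨f, h1, EFl.unr p hk f ev hev h2 h3, EFl.contr hk f (fun a b e => ?_)
    (fun a => (h2 a).2) h3⟩
  exact Subtype.ext ((algebraMap K₀ K).injective (by rw [← h1, ← h1, e]))

end Pool.Agent.MP_f3836a_nt.PK
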