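import Pool.Agent.MP_f3836a_nt.PK.SpecE
import Pool.Agent.MP_f3836a_nt.PK.BReg
import Pool.Agent.MP_f3836a_nt.PK.CCvA

set_option autoImplicit false

/-! Row EOv: curves over curves after extension of the ground field. -/

namespace Pool.Agent.MP_f3836a_nt.PK

open MvPolynomial IsLocalRing

universe u

namespace EOv

section One
variable {k K : Type u} [Field k] [Field K] [Algebra k K] {N : ℕ} {ξ : Fin (N + 1) → K}

theorem unitW (W : ValuationSubring K) (a : W) : IsUnit a ↔ (a : K) ≠ 0 ∧ (a : K)⁻¹ ∈ W :=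
  CCvA.unit_iff W.toSubring a

theorem ne_top (C : Cv k ξ) : C.O ≠ ⊤ := fun h => by
  have hf : IsField C.O := by
    rw [isField_iff_maximalIdeal_eq, eq_bot_iff]
    intro f hf
    rw [mem_maximalIdeal, mem_nonunits_iff, CCvA.unit_iff] at hf
    by_contra h1
    exact hf ⟨fun h2 => h1 (Subtype.ext h2), h.ge (Subring.mem_top _)⟩
  have := C.dim
  rw [ringKrullDim_eq_zero_of_isField hf] at this
  exact absurd this (by decide)

theorem frac (hS : IsSurf k ξ) (x : Pt k ξ) (f : K) :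
    ∃ a b : x.ctr.O, (b : K) ≠ 0 ∧ f * b = a := by
  obtain ⟨n, A, B, hA, hB, hB0, h⟩ := hS.gen f
  refine ⟨x.ctr.lx A, x.ctr.lx B, ?_, CCvA.lx_frac x hA hB h⟩
  rw [Ctr.coe_lx x.good (Form.of hB)]
  exact Ctr.lo_ne x.good hB0

theorem dv (hS : IsSurf k ξ) (hC : CvA k ξ) (C : Cv k ξ) : DV C.O (residue C.O) := by
  refine ⟨hC.dvr C, fun f => ?_, residue_surjective, fun a => residue_eq_zero_iff a⟩
  obtain ⟨x, hx⟩ := hC.pt C
  obtain ⟨a, b, hb, h⟩ := frac hS x f
  exact ⟨⟨a, hx.le a.2⟩, ⟨b, hx.le b.2⟩, hb, h⟩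

theorem le_of_forms {P Q : Ideal (Pol k N)} (hP : ∀ G ∈ P, ∀ n : ℕ, homogeneousComponent n G ∈ P)
    (h : ∀ (n : ℕ) (A : Pol k N), A.IsHomogeneous n → A ∈ P → A ∈ Q) : P ≤ Q := fun G hG => by
  rw [← sum_homogeneousComponent G]
  exact Ideal.sum_mem _ fun n _ => h n _ (homogeneousComponent_isHomogeneous n G) (hP G hG n)

theorem pt [IsAlgClosed k] (c : Ctr k ξ) (hc : c.Good) : ∃ x : Pt k ξ, x.ctr.O ≤ c.O := by
  classical
  have := c.prime
  have hX := (Ctr.idx_spec hc).1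
  rw [← IsPrime.vanishingIdeal_zeroLocus (K := k) c.P, mem_vanishingIdeal_iff] at hX
  push Not at hX
  obtain ⟨z, hz, hzi⟩ := hX
  rw [aeval_X] at hzi
  obtain ⟨i, hi, hmin⟩ := WellFounded.has_min (wellFounded_lt (α := Fin (N + 1)))
    {i | z i ≠ 0} ⟨_, hzi⟩
  have hv : ∀ (n : ℕ) (G : Pol k N), G.IsHomogeneous n → G ∈ c.P →
      eval (fun j => (z i)⁻¹ * z j) G = 0 := by
    intro n G hG hP
    rw [← coe_aeval_eq_eval]
    change aeval _ G = 0
    rw [CCvA.aeval_mul hG, hz G hP, mul_zero]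
  refine ⟨⟨fun j => (z i)⁻¹ * z j, ⟨i, inv_mul_cancel₀ hi, fun j hj => ?_⟩,
    fun n G hG h0 => hv n G hG (c.van n G hG h0)⟩, ?_⟩
  · have : z j = 0 := by_contra fun hn => hmin j hn hj
    rw [this, mul_zero]
  · rintro f ⟨n, A, B, hA, hB, hP, hf⟩
    exact ⟨n, A, B, hA, hB, fun hh => hP (hv n B hB hh), hf⟩

/-- A valuation ring that contains the constants and the coordinates of a chart contains the
local ring of a point. -/
theorem centre [IsAlgClosed k] (W : ValuationSubring K) (hk : ∀ a, algebraMap k K a ∈ W)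
    (i : Fin (N + 1)) (hi : ξ i ≠ 0) (ht : ∀ j, (ξ i)⁻¹ * ξ j ∈ W) :
    ∃ x : Pt k ξ, x.ctr.O ≤ W.toSubring := by
  obtain ⟨ψ, hψ⟩ : ∃ ψ : Pol k N →+* W, ∀ (n : ℕ) (A : Pol k N), A.IsHomogeneous n →
      (ψ A : K) = (ξ i)⁻¹ ^ n * aeval ξ A := by
    refine ⟨eval₂Hom ((algebraMap k K).codRestrict W hk) fun j => ⟨_, ht j⟩, fun n A hA => ?_⟩
    rw [← CCvA.aeval_mul hA]
    exact map_eval₂Hom _ _ W.subtype A
  let c : Ctr k ξ := ⟨(maximalIdeal W).comap ψ, Ideal.comap_isPrime _ _, fun n G hG h0 => by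
    have h1 : ψ G = 0 := Subtype.ext (by rw [hψ n G hG, h0, mul_zero]; rfl)
    rw [Ideal.mem_comap, h1]
    exact zero_mem _⟩
  obtain ⟨x, hx⟩ := pt c ⟨i, fun h => by
    have h1 : ψ (X i) = 1 := Subtype.ext (by
      rw [hψ 1 _ (isHomogeneous_X k i), pow_one, aeval_X, inv_mul_cancel₀ hi]; rfl)
    have h2 : ψ (X i) ∈ maximalIdeal W := h
    rw [h1] at h2
    exact h2 isUnit_one⟩
  refine ⟨x, hx.trans ?_⟩
  rintro f ⟨n, A, B, hA, hB, hP, hf⟩
  obtain ⟨h1, h2⟩ := (unitW W _).1 (not_not.1 (show ¬¬ IsUnit (ψ B) from hP))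
  have h3 : f = ψ A * (ψ B : K)⁻¹ := by
    rw [eq_mul_inv_iff_mul_eq₀ h1, hψ n A hA, hψ n B hB, ← hf, mul_left_comm]
  rw [h3]
  exact W.mul_mem _ _ (ψ A).2 h2

theorem const_mem (h : ∀ a : k, a ≠ 0 → ∃ n, 0 < n ∧ a ^ n = 1) (W : ValuationSubring K) (a : k) :
    algebraMap k K a ∈ W := by
  refine (W.mem_or_inv_mem _).elim id fun h1 => ?_
  by_cases h0 : a = 0
  · rw [h0, map_zero]
    exact zero_mem _
  obtain ⟨n, hn, e⟩ := h a h0
  obtain ⟨m, rfl⟩ := Nat.exists_eq_succ_of_ne_zero hn.ne'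
  have h2 : a = a⁻¹ ^ m := by
    rw [inv_pow]
    exact eq_inv_of_mul_eq_one_right (by rw [← pow_succ, e])
  rw [h2, map_pow, map_inv₀]
  exact pow_mem h1 m

end One

theorem val_top {K₀ K : Type u} [Field K₀] [Field K] [Algebra K₀ K] [Algebra.IsAlgebraic K₀ K]
    (W : ValuationSubring K) (h : ∀ f, algebraMap K₀ K f ∈ W) (x : K) : x ∈ W := by
  let _ : Algebra K₀ W := ((algebraMap K₀ K).codRestrict W h).toAlgebra
  have : IsScalarTower K₀ W K := IsScalarTower.of_algebraMap_eq fun _ => rfl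
  have h1 : IsIntegral W x := (Algebra.IsIntegral.isIntegral (R := K₀) x).tower_top
  obtain ⟨y, rfl⟩ := IsIntegrallyClosed.isIntegral_iff.1 h1
  exact y.2

variable {F K₀ k K : Type u} [Field F] [Field K₀] [Field k] [Field K] [Algebra F K₀] [Algebra F k]
  [Algebra K₀ K] [Algebra k K] [Algebra F K] [IsScalarTower F K₀ K] [IsScalarTower F k K] {N : ℕ}
  {η : Fin (N + 1) → K₀}

theorem aeval_up (A : Pol F N) :
    aeval (up K η) (map (algebraMap F k) A) = algebraMap K₀ K (aeval η A) := by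
  rw [aeval_map_algebraMap]
  exact aeval_algebraMap_apply K η A

theorem ov_le {c' : Ctr k (up K η)} {c : Ctr F η} (h : Ov c' c) {f : K₀} (hf : f ∈ c.O) :
    algebraMap K₀ K f ∈ c'.O := by
  obtain ⟨n, A, B, hA, hB, hP, e⟩ := hf
  exact ⟨n, _, _, hA.map (algebraMap F k), hB.map _, fun hh => hP ((h n B hB).2 hh), by
    rw [aeval_up, aeval_up, ← map_mul, e]⟩

/-- the point under a curve -/
noncomputable def under (C' : Cv k (up K η)) : Hp F η where
  P := C'.P.comap (map (algebraMap F k))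
  prime := have := C'.prime; Ideal.comap_isPrime _ _
  van n G hG h0 := C'.van n _ (hG.map _) (by rw [aeval_up, h0, map_zero])
  hom G hG n := by
    have h1 : map (algebraMap F k) (homogeneousComponent n G) =
        homogeneousComponent n (map (algebraMap F k) G) := by
      ext d
      rw [coeff_map, coeff_homogeneousComponent, coeff_homogeneousComponent, coeff_map,
        apply_ite (algebraMap F k), map_zero]
    rw [Ideal.mem_comap, h1]
    exact C'.hom _ hG n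
  good := C'.good.imp fun i hi h => hi (by
    have h1 : map (algebraMap F k) (X i) ∈ C'.P := h
    rwa [map_X] at h1)

theorem ov_under (C' : Cv k (up K η)) : Ov C'.toCtr (under (F := F) C').toCtr :=
  fun _ _ _ => Iff.rfl

theorem not_cl (hF : FlA F k K η) (hS : IsSurf k (up K η)) (hC : CvA k (up K η))
    (C' : Cv k (up K η)) : ¬ (under (F := F) C').Cl := fun hcl => by
  obtain ⟨x, hx⟩ := hC.pt C'
  obtain ⟨y, hy, hxy⟩ := hF.un x
  have h1 : y.P = (under (F := F) C').P := hcl y (le_of_forms (under C').hom fun n A hA h =>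
    (hxy n A hA).2 (hx n _ (hA.map _) h))
  obtain ⟨f, hf, hm, -⟩ := hF.fl x y hy hxy
  obtain ⟨π, hπ, h2, -⟩ := hC.on x C' hx
  have := hS.reg x
  refine ((rReg x.ctr.O (hS.dim x)).2.2.2.2.1 π hπ).1 (le_antisymm
    (le_maximalIdeal (Ideal.span_singleton_ne_top hπ.not_isUnit)) ?_)
  rw [← hm, Ideal.map_le_iff_le_comap]
  intro a ha
  obtain ⟨n, A, B, hA, hB, hP, e⟩ := a.2
  have h3 := (y.mem_max_iff a hA hB hP e).1 ha
  rw [h1] at h3 hP
  rw [Ideal.mem_comap, Ideal.mem_span_singleton, h2, C'.res_of_mem ⟨_, hx.le (f a).2⟩,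
    residue_eq_zero_iff, C'.mem_max_iff _ (hA.map (algebraMap F k)) (hB.map _) hP]
  · exact h3
  · rw [aeval_up, aeval_up, ← e, map_mul, ← hf]

end EOv

open EOv in
theorem rOvA : RDVA.{u} → ROvA.{u} := by
  intro hD F K₀ k K _ _ _ _ _ _ _ _ _ _ _ _ _ p _ _ N η hk _ _ hY hF hS hC
  have hA : ∀ C' : Cv k (up K η), DVA C'.O (residue C'.O) := fun C' => hD _ _ _ _ (dv hS hC C')
  have hnt : ∀ C' : Cv k (up K η), ¬ ∀ f, algebraMap K₀ K f ∈ C'.O := fun C' h => by
    obtain ⟨W, hW⟩ := (hA C').val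
    refine ne_top C' (eq_top_iff.2 fun x _ => ?_)
    rw [← hW] at h ⊢
    exact val_top W h x
  have hex : ∀ C' : Cv k (up K η), ∃ C : Cv F η, C.hp = under C' := fun C' =>
    (hY.cv _).2 ⟨not_cl hF hS hC C', fun h => hnt C' fun f =>
      ov_le (ov_under (F := F) C') (h ▸ Subring.mem_top f)⟩
  choose b hb using hex
  have hov : ∀ C', Ov C'.toCtr (b C').toCtr := fun C' => by
    have h1 : (b C').toCtr = (under C').toCtr := congrArg Hp.toCtr (hb C')
    rw [h1]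
    exact ov_under C'
  have hovr : ∀ C' f, f ∈ (b C').O ↔ algebraMap K₀ K f ∈ C'.O := fun C' f => by
    rcases (hD _ _ _ _ (hY.dv (b C'))).max (C'.O.comap (algebraMap K₀ K))
      (fun g hg => ov_le (hov C') hg) with h | h
    · rw [← h]
      rfl
    · exact absurd (fun g => (show g ∈ C'.O.comap (algebraMap K₀ K) from h ▸ Subring.mem_top g))
        (hnt C')
  refine ⟨b, hov, hovr, fun C W hW => ?_⟩
  have hi : up K η C.idx ≠ 0 := (map_ne_zero _).2 (Ctr.xi_ne C.good)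
  have ht : ∀ j, (up K η C.idx)⁻¹ * up K η j ∈ W := fun j => by
    have h1 := (hW _).1 (Ctr.lo_mem C.good (Form.of (isHomogeneous_X F j)))
    rwa [Ctr.lo_X, map_div₀, div_eq_inv_mul] at h1
  have hWt : ¬ ∀ x, x ∈ W := fun h => ne_top C (eq_top_iff.2 fun f _ => (hW f).2 (h _))
  obtain ⟨x, hx⟩ := centre W (const_mem hk W) C.idx hi ht
  let q : Ideal x.ctr.O := (maximalIdeal W).comap (Subring.inclusion hx)
  have hq : ∀ a : x.ctr.O, a ∉ q ↔ (a : K) ≠ 0 ∧ (a : K)⁻¹ ∈ W := fun a =>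
    not_not.trans (unitW W (Subring.inclusion hx a))
  have hdiv : ∀ (f : K) (a b : x.ctr.O), b ∉ q → f * b = a → f ∈ W := fun f a b hb e => by
    obtain ⟨h1, h2⟩ := (hq b).1 hb
    rw [(eq_mul_inv_iff_mul_eq₀ h1).2 e]
    exact W.mul_mem _ _ (hx a.2) h2
  have h0 : q ≠ ⊥ := fun h => hWt fun f => by
    obtain ⟨a, b, hb, e⟩ := frac hS x f
    refine hdiv f a b (fun h1 => hb ?_) e
    rw [h, Ideal.mem_bot] at h1
    rw [h1]
    rfl
  have h1 : q ≠ maximalIdeal x.ctr.O := fun h => by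
    obtain ⟨y, hy, hxy⟩ := hF.un x
    have h2 : y.P ≤ C.hp.P := le_of_forms y.hom fun n G hG hP => by
      by_contra h3
      have hG' := hG.map (algebraMap F k)
      have h4 := (Ctr.lx_mem_max x.good (Form.of hG')).2 ((hxy n G hG).1 hP)
      have h5 := C.aeval_ne hG h3
      have h6 := (hW _).1 (C.div_mem (isHomogeneous_X_pow C.idx n) hG h3)
      rw [← h] at h4
      refine (hq _).2 ?_ h4
      rw [Ctr.coe_lx x.good (Form.of hG'), x.ctr.lo_eq hG', aeval_up]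
      refine ⟨div_ne_zero ((map_ne_zero _).2 h5) (pow_ne_zero _ (Ctr.xi_ne x.good)), ?_⟩
      have h7 := W.mul_mem _ _ (pow_mem (ht x.ctr.idx) n) h6
      rw [map_div₀, map_pow, aeval_X, map_pow, ← mul_div_assoc, ← mul_pow] at h7
      rwa [show (up K η C.idx)⁻¹ * up K η x.ctr.idx * algebraMap K₀ K (η C.idx) =
        up K η x.ctr.idx from by rw [mul_right_comm]; exact
          (congrArg (· * _) (inv_mul_cancel₀ hi)).trans (one_mul _), ← inv_div] at h7
    have h3 := hy C.hp h2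
    exact ((hY.cv C.hp).1 ⟨C, rfl⟩).1 fun y' h4 => (hy y' (h2.trans h4)).trans h3.symm
  have := hS.reg x
  obtain ⟨π, hπ, hqπ⟩ := (rReg x.ctr.O (hS.dim x)).2.2.2.1 q (Ideal.comap_isPrime _ _) h0 h1
  obtain ⟨C', hx', h2⟩ := hC.ofP x π hπ
  have h3 : C'.O ≤ W.toSubring := fun f hf => by
    obtain ⟨a, b, hb, e⟩ := (CCvA.loc hx' f).1 hf
    refine hdiv f a b (fun h4 => hb ((h2 b).1 ?_)) e
    rwa [hqπ, Ideal.mem_span_singleton] at h4
  have h4 : W.toSubring = C'.O := ((hA C').max _ h3).resolve_right fun h =>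
    hWt fun f => (show f ∈ W.toSubring from h ▸ Subring.mem_top f)
  refine ⟨C', CCvA.ext _ _ (Subring.ext fun f => ?_), h4.symm⟩
  rw [hovr, hW, ← h4]
  rfl

end Pool.Agent.MP_f3836a_nt.PK
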