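import Pool.Agent.MP_f3836a_nt.PK.SpecE
import Pool.Agent.MP_f3836a_nt.PK.CCvA
import Pool.Agent.MP_f3836a_nt.PK.BReg

set_option autoImplicit false

/-! Row EYA: points and curves of a surface over an arbitrary field. -/

namespace Pool.Agent.MP_f3836a_nt.PK

open MvPolynomial IsLocalRing

universe u

namespace EYA

variable {F K : Type u} [Field F] [Field K] [Algebra F K] {N : ℕ} {η : Fin (N + 1) → K}

theorem le {c x : Ctr F η} (h : c.P ≤ x.P) : x.O ≤ c.O := by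
  rintro f ⟨n, A, B, hA, hB, hP, hf⟩
  exact ⟨n, A, B, hA, hB, fun hh => hP (h hh), hf⟩

theorem P_le {c c' : Hp F η} (h : c.O = c'.O) : c.P ≤ c'.P := by
  have hi := Ctr.xi_ne c.good
  have hi' := Ctr.xi_ne c'.good
  have hX := (Ctr.idx_spec c.good).1
  have hX' := (Ctr.idx_spec c'.good).1
  have h1 : η c.idx / η c'.idx ∈ c'.O := by
    simpa using c'.div_mem (isHomogeneous_X F c.idx) (isHomogeneous_X F c'.idx) hX'
  have h2 : η c'.idx / η c.idx ∈ c.O := by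
    simpa using c.div_mem (isHomogeneous_X F c'.idx) (isHomogeneous_X F c.idx) hX
  have h3 : X c.idx ∉ c'.P := by
    rw [← c'.mem_max_iff ⟨_, h1⟩ (isHomogeneous_X F c.idx) (isHomogeneous_X F c'.idx) hX'
      (by simp [div_mul_cancel₀ _ hi']), mem_maximalIdeal, mem_nonunits_iff, not_not,
      CCvA.unit_iff]
    exact ⟨div_ne_zero hi hi', by simpa [h] using h2⟩
  have h4 : ∀ (n : ℕ) (A : Pol F N), A.IsHomogeneous n → A ∈ c.P → A ∈ c'.P := by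
    intro n A hA hP
    have hm := (Ctr.lx_mem_max c.good (Form.of hA)).2 hP
    have hO : c.lo A ∈ c'.O := h ▸ Ctr.lo_mem c.good (Form.of hA)
    rw [← c'.mem_max_iff ⟨_, hO⟩ hA (isHomogeneous_X_pow c.idx n)
      (fun hh => h3 (c'.prime.mem_of_pow_mem n hh)) (Ctr.lo_spec c.good hA)]
    rw [mem_maximalIdeal, mem_nonunits_iff, CCvA.unit_iff] at hm ⊢
    rw [Ctr.coe_lx c.good (Form.of hA), h] at hm
    exact hm
  intro G hG
  rw [← sum_homogeneousComponent G]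
  exact Ideal.sum_mem _ fun n _ =>
    h4 n _ (homogeneousComponent_isHomogeneous n G) (c.hom G hG n)

theorem ext (c c' : Hp F η) (h : c.O = c'.O) : c = c' := by
  have hP : c.P = c'.P := le_antisymm (P_le h) (P_le h.symm)
  obtain ⟨⟨P, _, _⟩, _, _⟩ := c
  obtain ⟨⟨P', _, _⟩, _, _⟩ := c'
  cases hP
  rfl

theorem cl (c : Hp F η) : ∃ x : Hp F η, x.Cl ∧ c.P ≤ x.P := by
  obtain ⟨M, ⟨x, rfl, hx⟩, hM⟩ := set_has_maximal_iff_noetherian.2
    (inferInstance : IsNoetherian (Pol F N) (Pol F N))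
    {P | ∃ x : Hp F η, x.P = P ∧ c.P ≤ P} ⟨c.P, c, rfl, le_rfl⟩
  exact ⟨x, fun y hy => (eq_of_le_of_not_lt hy (hM _ ⟨y, rfl, hx.trans hy⟩)).symm, hx⟩

/-- the prime of the local ring of `x` given by a generization `c` -/
def q {c x : Ctr F η} (h : c.P ≤ x.P) : Ideal x.O :=
  (maximalIdeal c.O).comap (Subring.inclusion (le h))

theorem mem_q {c x : Ctr F η} (h : c.P ≤ x.P) (a : x.O) :
    a ∈ q h ↔ (⟨a, le h a.2⟩ : c.O) ∈ maximalIdeal c.O := Iff.rfl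

theorem q_lx {c x : Ctr F η} (h : c.P ≤ x.P) (hx : x.Good) {n : ℕ} {B : Pol F N}
    (hB : B.IsHomogeneous n) : x.lx B ∈ q h ↔ B ∈ c.P := by
  have hX : (X x.idx ^ n : Pol F N) ∉ c.P := fun hh => Ctr.pow_notMem hx n (h hh)
  rw [mem_q, c.mem_max_iff _ hB (isHomogeneous_X_pow _ _) hX]
  change (x.lx B : K) * _ = _
  rw [Ctr.coe_lx hx (Form.of hB)]
  exact Ctr.lo_spec hx hB

theorem lx_frac {x : Ctr F η} (hx : x.Good) {n : ℕ} {A B : Pol F N} (hA : A.IsHomogeneous n)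
    (hB : B.IsHomogeneous n) {f : K} (h : f * aeval η B = aeval η A) : f * x.lx B = x.lx A := by
  rw [Ctr.coe_lx hx (Form.of hA), Ctr.coe_lx hx (Form.of hB), x.lo_eq hA, x.lo_eq hB, ← h,
    mul_div_assoc]

theorem mem_of_frac {O : Subring K} {f : K} {a b : O} (hb : IsUnit b) (h : f * b = a) : f ∈ O := by
  rw [CCvA.unit_iff] at hb
  have : f = a * (b : K)⁻¹ := by rw [← h, mul_inv_cancel_right₀ hb.1]
  rw [this]
  exact O.mul_mem a.2 hb.2

theorem loc {c x : Ctr F η} (h : c.P ≤ x.P) (hx : x.Good) (f : K) :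
    f ∈ c.O ↔ ∃ a b : x.O, b ∉ q h ∧ f * b = a := by
  constructor
  · rintro ⟨n, A, B, hA, hB, hP, hf⟩
    exact ⟨x.lx A, x.lx B, fun h0 => hP ((q_lx h hx hB).1 h0), lx_frac hx hA hB hf⟩
  · rintro ⟨a, b, hb, hf⟩
    rw [mem_q, mem_maximalIdeal, mem_nonunits_iff, not_not] at hb
    exact mem_of_frac (a := ⟨a, le h a.2⟩) hb hf

theorem frac (hS : IsSurf0 F η) {x : Ctr F η} (hx : x.Good) (f : K) :
    ∃ a b : x.O, (b : K) ≠ 0 ∧ f * b = a := by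
  obtain ⟨n, A, B, hA, hB, hB0, h⟩ := hS.gen f
  refine ⟨x.lx A, x.lx B, ?_, lx_frac hx hA hB h⟩
  rw [Ctr.coe_lx hx (Form.of hB)]
  exact Ctr.lo_ne hx hB0

/-- the three kinds of generizations of a closed point -/
theorem tri (hS : IsSurf0 F η) {c : Ctr F η} {x : Hp F η} (hx : x.Cl) (h : c.P ≤ x.P) :
    c.O = ⊤ ∨ c.O = x.O ∨ ∃ π : x.O, Prime π ∧ (∀ a : x.O, π ∣ a ↔ a ∈ q h) ∧
      ∀ f : K, f ∈ c.O ↔ ∃ a b : x.O, ¬ π ∣ b ∧ f * b = a := by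
  obtain ⟨hr, hd⟩ := hS.reg x hx
  by_cases h0 : q h = ⊥
  · refine Or.inl (eq_top_iff.2 fun f _ => ?_)
    obtain ⟨a, b, hb, hf⟩ := frac hS x.good f
    refine (loc h x.good f).2 ⟨a, b, fun h1 => hb ?_, hf⟩
    rw [h0, Ideal.mem_bot] at h1
    rw [h1]
    rfl
  by_cases h1 : q h = maximalIdeal x.O
  · refine Or.inr (Or.inl (le_antisymm (fun f hf => ?_) (le h)))
    obtain ⟨a, b, hb, hf'⟩ := (loc h x.good f).1 hf
    rw [h1, mem_maximalIdeal, mem_nonunits_iff, not_not] at hb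
    exact mem_of_frac hb hf'
  obtain ⟨π, hπ, hq⟩ := (rReg x.O hd).2.2.2.1 (q h) (Ideal.comap_isPrime _ _) h0 h1
  have hdv : ∀ a : x.O, π ∣ a ↔ a ∈ q h := fun a => by rw [hq, Ideal.mem_span_singleton]
  refine Or.inr (Or.inr ⟨π, hπ, hdv, fun f => ?_⟩)
  rw [loc h x.good]
  simp only [hdv]

theorem dim_top {c : Ctr F η} (h : c.O = ⊤) : ringKrullDim c.O = 0 := by
  refine ringKrullDim_eq_zero_of_isField ?_
  rw [isField_iff_maximalIdeal_eq, eq_bot_iff]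
  intro f hf
  rw [mem_maximalIdeal, mem_nonunits_iff, CCvA.unit_iff] at hf
  by_contra h1
  exact hf ⟨fun h2 => h1 (Subtype.ext h2), h.ge (Subring.mem_top _)⟩

theorem ne_top (C : Cv F η) : C.O ≠ ⊤ := fun h => by
  have h1 := C.dim
  rw [dim_top h] at h1
  exact absurd h1 (by decide)

theorem ne_cl (hS : IsSurf0 F η) (C : Cv F η) {x : Hp F η} (hx : x.Cl) : C.O ≠ x.O := fun h => by
  have h1 := C.dim
  rw [h, (hS.reg x hx).2] at h1
  exact absurd h1 (by decide)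

theorem on (hS : IsSurf0 F η) (C : Cv F η) (x : Hp F η) (hx : x.Cl) (h : C.P ≤ x.P) :
    ∃ π : x.O, Prime π ∧ (∀ a : x.O, π ∣ a ↔ C.res a = 0) ∧
      ∀ f : K, f ∈ C.O ↔ ∃ a b : x.O, ¬ π ∣ b ∧ f * b = a := by
  obtain ⟨π, hπ, h1, h2⟩ :=
    ((tri hS hx h).resolve_left (ne_top C)).resolve_left (ne_cl hS C hx)
  refine ⟨π, hπ, fun a => ?_, h2⟩
  rw [h1, mem_q, C.res_of_mem ⟨_, le h a.2⟩, residue_eq_zero_iff]

theorem dv (hS : IsSurf0 F η) (C : Cv F η) : DV C.O (residue C.O) := by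
  obtain ⟨x, hx, h⟩ := cl C.hp
  obtain ⟨π, hπ, -, h2⟩ := on hS C x hx h
  have hr := (hS.reg x hx).1
  refine ⟨CCvA.loc_dvr hπ h2, frac hS C.good, residue_surjective, fun a => ?_⟩
  rw [residue_eq_zero_iff, mem_maximalIdeal, mem_nonunits_iff]

theorem cv (hS : IsSurf0 F η) (c : Hp F η) :
    (∃ C : Cv F η, C.hp = c) ↔ ¬ c.Cl ∧ c.O ≠ ⊤ := by
  constructor
  · rintro ⟨C, rfl⟩
    exact ⟨fun h => ne_cl hS C h rfl, ne_top C⟩
  · rintro ⟨h1, h2⟩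
    obtain ⟨x, hx, h⟩ := cl c
    obtain ⟨π, hπ, -, h3⟩ := ((tri hS hx h).resolve_left h2).resolve_left fun h4 =>
      h1 (ext c x h4 ▸ hx)
    have hr := (hS.reg x hx).1
    have hd : IsDiscreteValuationRing c.O := CCvA.loc_dvr hπ h3
    exact ⟨⟨c.toCtr, c.hom, IsDiscreteValuationRing.ringKrullDim_eq_one _⟩, rfl⟩

end EYA

theorem rYA : RYA.{u} := fun _ _ _ _ _ _ _ hS =>
  ⟨EYA.cl, fun _ _ h => EYA.le h, EYA.ext, EYA.on hS, EYA.dv hS, EYA.cv hS⟩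

end Pool.Agent.MP_f3836a_nt.PK
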