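import Pool.Agent.MP_f3836a_nt.PK.ESurf
import Pool.Agent.MP_f3836a_nt.PK.EYA
import Pool.Agent.MP_f3836a_nt.PK.EOv
import Pool.Agent.MP_f3836a_nt.PK.EFl
import Pool.Agent.MP_f3836a_nt.PK.CVA
import Pool.Agent.MP_f3836a_nt.PK.Ord

set_option autoImplicit false

/-! Subvarieties, restriction of local functions, the Segre map. -/

namespace Pool.Agent.MP_f3836a_nt.PK

open MvPolynomial IsLocalRing

universe u

section
variable (k : Type u) {K L : Type u} [Field k] [Field K] [Algebra k K] [Field L] [Algebra k L]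
  {N : ℕ}

/-- `K` is generated by the ratios of the coordinates -/
def GenBy (ξ : Fin (N + 1) → K) : Prop := ∀ f : K, ∃ (n : ℕ) (A B : Pol k N),
  A.IsHomogeneous n ∧ B.IsHomogeneous n ∧ aeval ξ B ≠ 0 ∧ f * aeval ξ B = aeval ξ A

/-- the variety of `η` lies in the variety of `ξ` -/
def Sub (ξ : Fin (N + 1) → K) (η : Fin (N + 1) → L) : Prop :=
  ∀ (n : ℕ) (G : Pol k N), G.IsHomogeneous n → aeval ξ G = 0 → aeval η G = 0

variable {k} {ξ : Fin (N + 1) → K} {η : Fin (N + 1) → L}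

theorem Sub.refl (ξ : Fin (N + 1) → K) : Sub k ξ ξ := fun _ _ _ h => h

theorem Sub.trans {M : Type u} [Field M] [Algebra k M] {ζ : Fin (N + 1) → M} (h : Sub k ξ η)
    (h' : Sub k η ζ) : Sub k ξ ζ := fun n G hG e => h' n G hG (h n G hG e)

/-- a point of the smaller variety as a point of the larger one -/
def Sub.pt (h : Sub k ξ η) (x : Pt k η) : Pt k ξ :=
  ⟨x.z, x.norm, fun n G hG e => x.van n G hG (h n G hG e)⟩

theorem Sub.pt_z (h : Sub k ξ η) (x : Pt k η) : (h.pt x).z = x.z := rfl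

theorem Sub.pt_P (h : Sub k ξ η) (x : Pt k η) : (h.pt x).ctr.P = x.ctr.P := rfl

theorem Pt.nrm (x : Pt k ξ) : Nrm x.z x.ctr.idx := x.z_idx

theorem Nrm.uniq {Ω : Type u} [Field Ω] {z : Fin (N + 1) → Ω} {i j : Fin (N + 1)} (h : Nrm z i)
    (h' : Nrm z j) : i = j := by
  rcases lt_trichotomy i j with hl | hl | hl
  · exact absurd ((h'.2 _ hl).symm.trans h.1) zero_ne_one
  · exact hl
  · exact absurd ((h.2 _ hl).symm.trans h'.1) zero_ne_one

theorem genBy_iff : GenBy k ξ ↔ ESurf.Rat k ξ = ⊤ :=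
  ⟨fun h => eq_top_iff.2 fun f _ => h f, fun h f => (h ▸ Subfield.mem_top f : f ∈ ESurf.Rat k ξ)⟩

theorem const_mem_rat (a : k) : algebraMap k K a ∈ ESurf.Rat k ξ :=
  ⟨0, C a, 1, isHomogeneous_C _ _, isHomogeneous_one _ _, by simp, by simp⟩

theorem div_mem_rat (i j : Fin (N + 1)) : ξ j / ξ i ∈ ESurf.Rat k ξ := by
  by_cases h : ξ i = 0
  · rw [h, div_zero]
    exact zero_mem _
  · exact ⟨1, X j, X i, isHomogeneous_X _ _, isHomogeneous_X _ _, by simpa using h,
      by simp [div_mul_cancel₀ _ h]⟩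

/-- the field of quotients of forms is generated by constants and ratios of coordinates -/
theorem rat_le {i : Fin (N + 1)} (hi : ξ i ≠ 0) (S : Subfield K) (hk : ∀ a, algebraMap k K a ∈ S)
    (h : ∀ j, ξ j / ξ i ∈ S) : ESurf.Rat k ξ ≤ S := by
  have key : ∀ A : Pol k N, aeval (fun j => ξ j / ξ i) A ∈ S := fun A => by
    induction A using MvPolynomial.induction_on with
    | C a => simpa using hk a
    | add p q hp hq => rw [map_add]; exact add_mem hp hq
    | mul_X p j hp => rw [map_mul, aeval_X]; exact mul_mem hp (h j)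
  rintro f ⟨n, A, B, hA, hB, h0, e⟩
  have e1 : f = aeval (fun j => ξ j / ξ i) A / aeval (fun j => ξ j / ξ i) B := by
    rw [CTanA.aeval_div hA, CTanA.aeval_div hB, ← e]
    field_simp
  rw [e1]
  exact div_mem (key A) (key B)

theorem GenBy.frac (h : GenBy k ξ) {c : Ctr k ξ} (hc : c.Good) (f : K) :
    ∃ a b : c.O, (b : K) ≠ 0 ∧ f * b = a := by
  obtain ⟨n, A, B, hA, hB, h0, e⟩ := h f
  refine ⟨c.lx A, c.lx B, ?_, EYA.lx_frac hc hA hB e⟩
  rw [Ctr.coe_lx hc (Form.of hB)]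
  exact Ctr.lo_ne hc h0

theorem Ctr.aeval_lx {c : Ctr k ξ} (hc : c.Good) {A : Pol k N} (hA : Form A) :
    aeval (fun j => c.lx (X j)) A = c.lx A := by
  refine Subtype.ext ?_
  rw [Ctr.coe_lx hc hA, Ctr.lo, ← CTanA.aeval_div hA]
  refine Eq.trans (aeval_algebraMap_apply (A := c.O) K (fun j => c.lx (X j)) A).symm ?_
  congr 2
  funext j
  rw [← c.lo_X, ← Ctr.coe_lx hc (Form.of (isHomogeneous_X k j))]
  rfl

theorem Ctr.lx_unit {c : Ctr k ξ} (hc : c.Good) {A : Pol k N} (hA : Form A) :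
    IsUnit (c.lx A) ↔ A ∉ c.P := by
  rw [← Ctr.lx_mem_max hc hA, notMem_maximalIdeal]

theorem Ctr.lx_eq_zero {c : Ctr k ξ} (hc : c.Good) {A : Pol k N} (hA : Form A) :
    c.lx A = 0 ↔ aeval ξ A = 0 := by
  rw [← ZeroMemClass.coe_eq_zero, Ctr.coe_lx hc hA, Ctr.lo, div_eq_zero_iff,
    or_iff_left (pow_ne_zero _ (Ctr.xi_ne hc))]

theorem Ctr.noeth {c : Ctr k ξ} (hc : c.Good) : IsNoetherianRing c.O := by
  let φ : Pol k N →+* c.O := (aeval fun j => c.lx (X j) : Pol k N →ₐ[k] c.O)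
  let Q : Ideal (Pol k N) := (maximalIdeal c.O).comap φ
  have hu : ∀ B : Q.primeCompl, IsUnit (φ B) := fun B => notMem_maximalIdeal.1 B.2
  refine isNoetherianRing_of_surjective (Localization.AtPrime Q) _
    (IsLocalization.lift hu) fun f => ?_
  obtain ⟨n, A, B, hA, hB, hP, h⟩ := Ctr.exists_lx hc f
  have eA : φ A = c.lx A := Ctr.aeval_lx hc (Form.of hA)
  have eB : φ B = c.lx B := Ctr.aeval_lx hc (Form.of hB)
  have hB' : B ∈ Q.primeCompl := fun h' => hP ((Ctr.lx_mem_max hc (Form.of hB)).1 (eB ▸ h'))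
  exact ⟨IsLocalization.mk' _ A (⟨B, hB'⟩ : Q.primeCompl),
    (IsLocalization.lift_mk'_spec hu _ _ _).2 (by rw [mul_comm, eA, ← h, ← eB])⟩

theorem Ctr.idx_congr {c : Ctr k ξ} {c' : Ctr k η} (h : ∀ j, X j ∈ c.P ↔ X j ∈ c'.P) :
    c.idx = c'.idx := by
  unfold Ctr.idx
  simp only [h]

/-- `r` is the restriction of local functions to a subvariety -/
structure Rst (c : Ctr k ξ) (c' : Ctr k η) (r : c.O →ₐ[k] c'.O) : Prop where
  mem : ∀ (n : ℕ) (A : Pol k N), A.IsHomogeneous n → (A ∈ c.P ↔ A ∈ c'.P)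
  surj : Function.Surjective r
  frac : ∀ (f : c.O) (n : ℕ) (A B : Pol k N), A.IsHomogeneous n → B.IsHomogeneous n → B ∉ c.P →
    (f : K) * aeval ξ B = aeval ξ A → (r f : L) * aeval η B = aeval η A

theorem exists_rst (h : Sub k ξ η) (c : Ctr k ξ) (c' : Ctr k η)
    (hP : ∀ (n : ℕ) (A : Pol k N), A.IsHomogeneous n → (A ∈ c.P ↔ A ∈ c'.P)) :
    ∃ r, Rst c c' r := by
  have hne : ∀ {n : ℕ} {B : Pol k N}, B.IsHomogeneous n → B ∉ c.P → aeval η B ≠ 0 :=
    fun hB h' => c'.aeval_ne hB fun h2 => h' ((hP _ _ hB).2 h2)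
  choose n A B hA hB hBP e using fun f : c.O => f.2
  let ρ : c.O → L := fun f => aeval η (A f) / aeval η (B f)
  have key : ∀ (f : c.O) (m : ℕ) (A' B' : Pol k N), A'.IsHomogeneous m → B'.IsHomogeneous m →
      (f : K) * aeval ξ B' = aeval ξ A' → ρ f * aeval η B' = aeval η A' := by
    intro f m A' B' hA' hB' e'
    have h1 := h _ (A f * B' - B f * A') (((hA f).mul hB').sub ((hB f).mul hA')) (by
      simp only [map_sub, map_mul]
      linear_combination aeval ξ (B f) * e' - aeval ξ B' * e f)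
    simp only [map_sub, map_mul] at h1
    have h2 := hne (hB f) (hBP f)
    simp only [ρ]
    field_simp
    linear_combination h1
  have k0 : ∀ f, ρ f * aeval η (B f) = aeval η (A f) := fun f => key f _ _ _ (hA f) (hB f) (e f)
  have hm : ∀ f, ρ f ∈ c'.O := fun f =>
    ⟨_, _, _, hA f, hB f, fun h2 => hBP f ((hP _ _ (hB f)).2 h2), k0 f⟩
  refine ⟨{ toFun := fun f => ⟨ρ f, hm f⟩
            map_one' := Subtype.ext ?_
            map_mul' := fun f g => Subtype.ext ?_
            map_zero' := Subtype.ext ?_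
            map_add' := fun f g => Subtype.ext ?_
            commutes' := fun a => Subtype.ext ?_ }, hP, fun g => ?_,
    fun f m A' B' hA' hB' _ e' => key f m A' B' hA' hB' e'⟩
  · simpa using key 1 0 1 1 (isHomogeneous_one _ _) (isHomogeneous_one _ _) (by simp)
  · have h1 := key (f * g) _ _ _ ((hA f).mul (hA g)) ((hB f).mul (hB g)) (by
      simp only [map_mul, Subring.coe_mul]
      linear_combination ((g : K) * aeval ξ (B g)) * e f + aeval ξ (A f) * e g)
    refine mul_right_cancel₀ (mul_ne_zero (hne (hB f) (hBP f)) (hne (hB g) (hBP g))) ?_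
    simp only [map_mul, Subring.coe_mul] at h1 ⊢
    rw [h1, ← k0 f, ← k0 g]
    ring
  · simpa using key 0 0 0 1 (isHomogeneous_zero _ _ _) (isHomogeneous_one _ _) (by simp)
  · have h1 := key (f + g) _ _ _ (((hA f).mul (hB g)).add ((hB f).mul (hA g)))
      ((hB f).mul (hB g)) (by
      simp only [map_mul, map_add, Subring.coe_add]
      linear_combination aeval ξ (B g) * e f + aeval ξ (B f) * e g)
    refine mul_right_cancel₀ (mul_ne_zero (hne (hB f) (hBP f)) (hne (hB g) (hBP g))) ?_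
    simp only [map_mul, map_add, Subring.coe_add] at h1 ⊢
    rw [h1, ← k0 f, ← k0 g]
    ring
  · have h1 := key (algebraMap k c.O a) 0 (C a) 1 (isHomogeneous_C _ _) (isHomogeneous_one _ _)
      (by simp [Ctr.coe_algebraMap])
    simpa [Ctr.coe_algebraMap] using h1
  · obtain ⟨m, A', B', hA', hB', h1, h2⟩ := g.2
    have h3 : B' ∉ c.P := fun h4 => h1 ((hP _ _ hB').1 h4)
    refine ⟨⟨_, c.div_mem hA' hB' h3⟩, Subtype.ext ?_⟩
    refine mul_right_cancel₀ (hne hB' h3) ?_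
    rw [h2]
    exact key _ m A' B' hA' hB' (div_mul_cancel₀ _ (c.aeval_ne hB' h3))

section
variable {c : Ctr k ξ} {c' : Ctr k η} {r : c.O →ₐ[k] c'.O}

theorem Rst.idx (h : Rst c c' r) : c.idx = c'.idx :=
  Ctr.idx_congr fun j => h.mem 1 _ (isHomogeneous_X k j)

theorem Rst.good (h : Rst c c' r) (hc : c.Good) : c'.Good :=
  hc.imp fun j hj h' => hj ((h.mem 1 _ (isHomogeneous_X k j)).2 h')

theorem Rst.lx (h : Rst c c' r) (hc : c.Good) {A : Pol k N} (hA : Form A) :
    r (c.lx A) = c'.lx A := by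
  have h1 := h.frac (c.lx A) _ A _ hA (isHomogeneous_X_pow _ _) (Ctr.pow_notMem hc _)
    (by rw [Ctr.coe_lx hc hA]; exact Ctr.lo_spec hc hA)
  have hc' := h.good hc
  refine Subtype.ext (mul_right_cancel₀
    (c'.aeval_ne (isHomogeneous_X_pow c'.idx A.totalDegree) (Ctr.pow_notMem hc' _)) ?_)
  rw [Ctr.coe_lx hc' hA, Ctr.lo_spec hc' hA, ← h.idx, h1]

theorem Rst.eq_zero (h : Rst c c' r) (f : c.O) {n : ℕ} {A B : Pol k N} (hA : A.IsHomogeneous n)
    (hB : B.IsHomogeneous n) (hP : B ∉ c.P) (e : (f : K) * aeval ξ B = aeval ξ A) :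
    r f = 0 ↔ aeval η A = 0 := by
  rw [← h.frac f n A B hA hB hP e, mul_eq_zero, or_iff_left
    (c'.aeval_ne hB fun h2 => hP ((h.mem _ _ hB).2 h2)), ZeroMemClass.coe_eq_zero]

theorem Rst.mem_max (h : Rst c c' r) (f : c.O) :
    r f ∈ maximalIdeal c'.O ↔ f ∈ maximalIdeal c.O := by
  obtain ⟨n, A, B, hA, hB, hP, e⟩ := f.2
  rw [c.mem_max_iff f hA hB hP e, h.mem n A hA,
    c'.mem_max_iff _ hA hB (fun h2 => hP ((h.mem _ _ hB).2 h2)) (h.frac f n A B hA hB hP e)]

end

theorem Sub.rst (h : Sub k ξ η) (x : Pt k η) : ∃ r, Rst (h.pt x).ctr x.ctr r :=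
  exists_rst h _ _ fun _ _ _ => Iff.rfl

/-- the homogeneous prime of forms vanishing at a point with values in a domain -/
theorem exists_hp {D : Type u} [CommRing D] [IsDomain D] [Algebra k D] (t : Fin (N + 1) → D)
    (h : ∀ (n : ℕ) (G : Pol k N), G.IsHomogeneous n → aeval ξ G = 0 → aeval t G = 0)
    (h0 : ∃ i, t i ≠ 0) :
    ∃ c : Hp k ξ, ∀ (n : ℕ) (A : Pol k N), A.IsHomogeneous n → (A ∈ c.P ↔ aeval t A = 0) := by
  let := MvPolynomial.gradedAlgebra (σ := Fin (N + 1)) (R := k)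
  let J : Ideal (Pol k N) := RingHom.ker (aeval t : Pol k N →ₐ[k] D)
  have hJ : J.IsPrime := RingHom.ker_isPrime _
  let P := J.homogeneousCore (homogeneousSubmodule (Fin (N + 1)) k)
  have hP : ∀ (n : ℕ) (A : Pol k N), A.IsHomogeneous n → (A ∈ P.toIdeal ↔ aeval t A = 0) :=
    fun n A hA => ⟨fun h => J.toIdeal_homogeneousCore_le _ h,
      fun h => Ideal.mem_homogeneousCore_of_homogeneous_of_mem ⟨n, hA⟩ h⟩
  obtain ⟨i, hi⟩ := h0
  exact ⟨⟨⟨P.toIdeal, hJ.homogeneousCore, fun n G hG e => (hP n G hG).2 (h n G hG e)⟩,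
    fun G hG n => homogeneousComponent_mem_of_mem P.isHomogeneous hG n, i,
      by rw [hP 1 _ (isHomogeneous_X _ _), aeval_X]; exact hi⟩, hP⟩

theorem Hp.le_of (c : Hp k ξ) {Q : Ideal (Pol k N)}
    (h : ∀ (n : ℕ) (A : Pol k N), A.IsHomogeneous n → A ∈ c.P → A ∈ Q) : c.P ≤ Q :=
  EOv.le_of_forms c.hom h

theorem Hp.ext_P {c c' : Hp k ξ} (h : c.P = c'.P) : c = c' := by
  obtain ⟨⟨P, _, _⟩, _, _⟩ := c
  obtain ⟨⟨P', _, _⟩, _, _⟩ := c'
  cases h
  rfl

/-- a point as a homogeneous prime -/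
noncomputable def Pt.hp (x : Pt k ξ) : Hp k ξ :=
  (exists_hp (ξ := ξ) x.z (fun n G hG e => by rw [aeval_eq_eval]; exact x.van n G hG e)
    ⟨_, x.z_idx.1 ▸ one_ne_zero⟩).choose

theorem Pt.mem_hp (x : Pt k ξ) {n : ℕ} {A : Pol k N} (hA : A.IsHomogeneous n) :
    A ∈ x.hp.P ↔ eval x.z A = 0 := by
  rw [← aeval_eq_eval]
  exact (exists_hp (ξ := ξ) x.z (fun n G hG e => by rw [aeval_eq_eval]; exact x.van n G hG e)
    ⟨_, x.z_idx.1 ▸ one_ne_zero⟩).choose_spec n A hA

theorem Pt.hp_O (x : Pt k ξ) : x.hp.O = x.ctr.O := Subring.ext fun _ =>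
  ⟨fun ⟨n, A, B, hA, hB, hP, e⟩ => ⟨n, A, B, hA, hB, fun h => hP ((x.mem_hp hB).2 h), e⟩,
    fun ⟨n, A, B, hA, hB, hP, e⟩ => ⟨n, A, B, hA, hB, fun h => hP ((x.mem_hp hB).1 h), e⟩⟩

/-- the generic point of the subvariety defined by `c` -/
noncomputable def Hp.eta (c : Hp k ξ) : Fin (N + 1) → ResidueField c.O :=
  fun j => residue c.O (c.lx (X j))

theorem Hp.aeval_eta (c : Hp k ξ) {A : Pol k N} (hA : Form A) :
    aeval c.eta A = residue c.O (c.lx A) := by
  rw [← Ctr.aeval_lx c.good hA]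
  exact aeval_algebraMap_apply (A := c.O) (ResidueField c.O) (fun j => c.lx (X j)) A

theorem Hp.eta_zero (c : Hp k ξ) {n : ℕ} {A : Pol k N} (hA : A.IsHomogeneous n) :
    aeval c.eta A = 0 ↔ A ∈ c.P := by
  rw [c.aeval_eta (Form.of hA), residue_eq_zero_iff, Ctr.lx_mem_max c.good (Form.of hA)]

theorem Hp.eta_idx (c : Hp k ξ) : c.eta c.idx = 1 := by
  have : c.lx (X c.idx) = 1 := Subtype.ext (by
    rw [Ctr.coe_lx c.good (Form.of (isHomogeneous_X k _)), c.lo_X, div_self (Ctr.xi_ne c.good)]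
    rfl)
  rw [Hp.eta, this, map_one]

theorem Hp.sub_eta (c : Hp k ξ) : Sub k ξ c.eta := fun n G hG e =>
  (c.eta_zero hG).2 (c.van n G hG e)

theorem Hp.gen_eta (c : Hp k ξ) : GenBy k c.eta := fun f => by
  obtain ⟨a, rfl⟩ := residue_surjective f
  obtain ⟨n, A, B, hA, hB, hP, e⟩ := Ctr.exists_lx c.good a
  exact ⟨n, A, B, hA, hB, fun h => hP ((c.eta_zero hB).1 h), by
    rw [c.aeval_eta (Form.of hA), c.aeval_eta (Form.of hB), ← map_mul, e]⟩

/-- the residue of a fraction -/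
theorem Hp.res_frac (c : Hp k ξ) (f : c.O) {n : ℕ} {A B : Pol k N} (hA : A.IsHomogeneous n)
    (hB : B.IsHomogeneous n) (e : (f : K) * aeval ξ B = aeval ξ A) :
    residue c.O f * aeval c.eta B = aeval c.eta A := by
  rw [c.aeval_eta (Form.of hA), c.aeval_eta (Form.of hB), ← map_mul]
  exact congrArg _ (Subtype.ext (EYA.lx_frac c.good hA hB e))

end

/-- invariance of the order under an embedding of fields -/
theorem ordR_map {L L' : Type u} [Field L] [Field L'] (ι : L →+* L') (R : Subring L)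
    (hN : IsNoetherianRing R) (hd : Ring.KrullDimLE 1 R)
    (hf : ∀ f : L, ∃ a b : R, (b : L) ≠ 0 ∧ f * b = a) (f : L) :
    ordR (R.map ι) (ι f) = ordR R f := by
  let e : R ≃+* R.map ι := R.equivMapOfInjective ι ι.injective
  have h1 : IsNoetherianRing (R.map ι) := isNoetherianRing_of_ringEquiv R e
  have h2 : Ring.KrullDimLE 1 (R.map ι) := by
    rw [Ring.krullDimLE_iff, ← ringKrullDim_eq_of_ringEquiv e, ← Ring.krullDimLE_iff]
    exact hd
  have h3 : ∀ a : R, Ord.o (e a) = Ord.o a := fun a => by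
    have h4 := CVA.len e.toRingHom e.surjective 0 a (by
      rw [Ideal.span_singleton_zero]
      exact (RingHom.injective_iff_ker_eq_bot e.toRingHom).1 e.injective)
    have h5 := CVA.len (RingHom.id R) Function.surjective_id 0 a (by
      rw [Ideal.span_singleton_zero]
      exact (RingHom.injective_iff_ker_eq_bot (RingHom.id R)).1 Function.injective_id)
    exact congrArg (fun t : ℕ∞ => (t.toNat : ℤ)) (h4.symm.trans h5)
  by_cases h0 : f = 0
  · rw [h0, map_zero, ordR, ordR, dif_neg fun h => h.1 rfl, dif_neg fun h => h.1 rfl]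
  · obtain ⟨a, b, hb, h⟩ := hf f
    have hb' : b ≠ 0 := fun h => hb (by simp [h])
    rw [Ord.rep h0 hb' h, Ord.rep (a := e a) (b := e b) ((map_ne_zero ι).2 h0)
      ((map_ne_zero_iff e e.injective).2 hb') (by
        change ι f * ι b = ι a
        rw [← map_mul, h]), h3, h3]

section
variable {N : ℕ}

/-- first block of coordinates -/
def fl (j : Fin (N + 1)) : Fin (N + 1 + N + 1) := Fin.castAdd (N + 1) j

/-- second block of coordinates -/
def fr (j : Fin (N + 1)) : Fin (N + 1 + N + 1) := Fin.natAdd (N + 1) j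

def app {α : Type u} (a b : Fin (N + 1) → α) : Fin (N + 1 + N + 1) → α :=
  Fin.append (m := N + 1) (n := N + 1) a b

@[simp] theorem app_fl {α : Type u} (a b : Fin (N + 1) → α) (j : Fin (N + 1)) :
    app a b (fl j) = a j := Fin.append_left a b j

@[simp] theorem app_fr {α : Type u} (a b : Fin (N + 1) → α) (j : Fin (N + 1)) :
    app a b (fr j) = b j := Fin.append_right a b j

theorem fl_or_fr (s : Fin (N + 1 + N + 1)) : (∃ j, s = fl j) ∨ ∃ j, s = fr j :=
  Fin.addCases (m := N + 1) (n := N + 1) (motive := fun s => (∃ j, s = fl j) ∨ ∃ j, s = fr j)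
    (fun j => Or.inl ⟨j, rfl⟩) (fun j => Or.inr ⟨j, rfl⟩) s

theorem fl_lt_fl {i j : Fin (N + 1)} : fl i < fl j ↔ i < j := Iff.rfl

theorem fr_lt_fr {i j : Fin (N + 1)} : fr i < fr j ↔ i < j := by
  change N + 1 + i.1 < N + 1 + j.1 ↔ i.1 < j.1
  omega

theorem fl_lt_fr (i j : Fin (N + 1)) : fl i < fr j := by
  change i.1 < N + 1 + j.1
  omega

theorem app_ext {α : Type u} {z w : Fin (N + 1 + N + 1) → α} (h : ∀ j, z (fl j) = w (fl j))
    (h' : ∀ j, z (fr j) = w (fr j)) : z = w := funext fun s => by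
  rcases fl_or_fr s with ⟨j, rfl⟩ | ⟨j, rfl⟩
  exacts [h j, h' j]

theorem Nrm.app_left {Ω : Type u} [Field Ω] {a : Fin (N + 1) → Ω} {i : Fin (N + 1)} (h : Nrm a i)
    (b : Fin (N + 1) → Ω) : Nrm (app a b) (fl i) := by
  refine ⟨by rw [app_fl, h.1], fun s hs => ?_⟩
  rcases fl_or_fr s with ⟨j, rfl⟩ | ⟨j, rfl⟩
  · rw [app_fl, h.2 j (fl_lt_fl.1 hs)]
  · exact absurd hs (fl_lt_fr i j).not_gt

theorem Nrm.app_right {Ω : Type u} [Field Ω] {b : Fin (N + 1) → Ω} {i : Fin (N + 1)}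
    (h : Nrm b i) : Nrm (app 0 b) (fr i) := by
  refine ⟨by rw [app_fr, h.1], fun s hs => ?_⟩
  rcases fl_or_fr s with ⟨j, rfl⟩ | ⟨j, rfl⟩
  · rw [app_fl, Pi.zero_apply]
  · rw [app_fr, h.2 j (fr_lt_fr.1 hs)]

/-- the Segre map -/
def seg {L : Type u} [Mul L] (η : Fin (N + 1) → L) (g : L) : Fin (N + 1 + N + 1) → L :=
  app η fun j => g * η j

@[simp] theorem seg_fl {L : Type u} [Mul L] (η : Fin (N + 1) → L) (g : L) (j : Fin (N + 1)) :
    seg η g (fl j) = η j := app_fl _ _ j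

@[simp] theorem seg_fr {L : Type u} [Mul L] (η : Fin (N + 1) → L) (g : L) (j : Fin (N + 1)) :
    seg η g (fr j) = g * η j := app_fr _ _ j

variable {k L : Type u} [Field k] [Field L] [Algebra k L]

theorem aeval_fl (ζ : Fin (N + 1 + N + 1) → L) (A : Pol k N) :
    aeval ζ (rename fl A : Pol k (N + 1 + N)) = aeval (fun j => ζ (fl j)) A := aeval_rename _ _ _

theorem aeval_fr (ζ : Fin (N + 1 + N + 1) → L) (A : Pol k N) :
    aeval ζ (rename fr A : Pol k (N + 1 + N)) = aeval (fun j => ζ (fr j)) A := aeval_rename _ _ _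

theorem GenBy.of_fl {ζ : Fin (N + 1 + N + 1) → L} (h : GenBy k fun j => ζ (fl j)) :
    GenBy (N := N + 1 + N) k ζ := fun f => by
  obtain ⟨n, A, B, hA, hB, h0, e⟩ := h f
  exact ⟨n, rename fl A, rename fl B, hA.rename_isHomogeneous, hB.rename_isHomogeneous,
    by rwa [aeval_fl], by rwa [aeval_fl, aeval_fl]⟩

end

/-- a projective variety, given by its function field and generic point -/
structure Var (k : Type u) [Field k] (N : ℕ) : Type (u + 1) where
  K : Type u
  [fld : Field K]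
  [alg : Algebra k K]
  ξ : Fin (N + 1) → K
  gen : GenBy k ξ

attribute [instance] Var.fld Var.alg

section
variable {k : Type u} [Field k] {N : ℕ}

/-- inclusion -/
def Var.Le (V W : Var k N) : Prop := Sub k W.ξ V.ξ

/-- the normalized vector `z` is a point of `V` -/
def Var.On (V : Var k N) (z : Fin (N + 1) → k) : Prop := ∃ x : Pt k V.ξ, x.z = z

theorem Var.on_iff (V : Var k N) (z : Fin (N + 1) → k) : V.On z ↔ (∃ i, Nrm z i) ∧
    ∀ (n : ℕ) (G : Pol k N), G.IsHomogeneous n → aeval V.ξ G = 0 → eval z G = 0 :=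
  ⟨fun ⟨x, h⟩ => h ▸ ⟨x.norm, x.van⟩, fun h => ⟨⟨z, h.1, h.2⟩, rfl⟩⟩

theorem Var.Le.on {V W : Var k N} (h : V.Le W) {z : Fin (N + 1) → k} (hz : V.On z) : W.On z :=
  hz.elim fun x e => ⟨Sub.pt h x, e⟩

/-- the subvariety defined by a homogeneous prime -/
noncomputable def Hp.var {K : Type u} [Field K] [Algebra k K] {ξ : Fin (N + 1) → K}
    (c : Hp k ξ) : Var k N := ⟨ResidueField c.O, c.eta, c.gen_eta⟩

/-- the graph of a rational function -/
def Var.gr (V : Var k N) (g : V.K) : Var k (N + 1 + N) :=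
  ⟨V.K, seg V.ξ g, GenBy.of_fl (by simpa only [seg_fl] using V.gen)⟩

/-- the vertical line over a point -/
noncomputable def Pt.lin {K : Type u} [Field K] [Algebra k K] {ξ : Fin (N + 1) → K}
    (x : Pt k ξ) : Var k (N + 1 + N) :=
  ⟨RatFunc k, seg (fun j => algebraMap k (RatFunc k) (x.z j)) RatFunc.X, by
    rw [genBy_iff, eq_top_iff]
    intro f _
    have h1 := div_mem_rat (k := k) (N := N + 1 + N)
      (ξ := seg (fun j => algebraMap k (RatFunc k) (x.z j)) RatFunc.X)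
      (fl x.ctr.idx) (fr x.ctr.idx)
    rw [seg_fl, seg_fr, x.z_idx.1, map_one, mul_one, div_one] at h1
    have h2 : ∀ p : Polynomial k, algebraMap (Polynomial k) (RatFunc k) p ∈
        ESurf.Rat (N := N + 1 + N) k
          (seg (fun j => algebraMap k (RatFunc k) (x.z j)) RatFunc.X) := fun p => by
      induction p using Polynomial.induction_on with
      | C a => exact const_mem_rat a
      | add p q hp hq => rw [map_add]; exact add_mem hp hq
      | monomial n a h =>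
        rw [pow_succ, ← mul_assoc, map_mul, RatFunc.algebraMap_X]
        exact mul_mem h h1
    rw [← f.num_div_denom]
    exact div_mem (h2 _) (h2 _)⟩

/-- a form vanishing on finitely many varieties and not at a given point -/
theorem exists_sep {ι : Type u} (Γ : ι → Var k N) (s : Set ι) (hs : s.Finite)
    {z : Fin (N + 1) → k} {i : Fin (N + 1)} (hz : Nrm z i) (h : ∀ a ∈ s, ¬ (Γ a).On z) :
    ∃ U : Pol k N, Form U ∧ (∀ a ∈ s, aeval (Γ a).ξ U = 0) ∧ eval z U ≠ 0 := by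
  induction s, hs using Set.Finite.induction_on with
  | empty => exact ⟨1, Form.of (isHomogeneous_one _ _), by simp, by simp⟩
  | @insert a s _ _ ih =>
    obtain ⟨U, h1, h2, h3⟩ := ih fun b hb => h b (Set.mem_insert_of_mem _ hb)
    have h4 := h a (Set.mem_insert _ _)
    rw [Var.on_iff, not_and] at h4
    have h5 := h4 ⟨i, hz⟩
    push Not at h5
    obtain ⟨n, G, hG, h6, h7⟩ := h5
    refine ⟨U * G, h1.mul (Form.of hG), fun b hb => ?_, by rw [map_mul]; exact mul_ne_zero h3 h7⟩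
    rw [map_mul]
    rcases hb with rfl | hb
    · rw [h6, mul_zero]
    · rw [h2 b hb, zero_mul]

/-- generators of the ideal of a union -/
structure UGens {ι : Type u} (Γ : ι → Var k N) (𝒜 : Finset (Pol k N)) : Prop where
  form : ∀ G ∈ 𝒜, Form G ∧ ∀ a, aeval (Γ a).ξ G = 0
  span : ∀ H : Pol k N, Form H → (∀ a, aeval (Γ a).ξ H = 0) → H ∈ Ideal.span (𝒜 : Set (Pol k N))

theorem exists_ugens {ι : Type u} (Γ : ι → Var k N) : ∃ 𝒜, UGens Γ 𝒜 := by
  obtain ⟨𝒢, h1, h2⟩ := (Submodule.fg_span_iff_fg_span_finset_subset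
    {G : Pol k N | Form G ∧ ∀ a, aeval (Γ a).ξ G = 0}).1
    (IsNoetherian.noetherian (Ideal.span {G : Pol k N | Form G ∧ ∀ a, aeval (Γ a).ξ G = 0}))
  refine ⟨𝒢, fun G hG => h1 hG, fun H hH h0 => ?_⟩
  change H ∈ Submodule.span (Pol k N) (𝒢 : Set (Pol k N))
  rw [← h2]
  exact Submodule.subset_span ⟨hH, h0⟩

end

section
variable {F K₀ k K : Type u} [Field F] [Field K₀] [Field k] [Field K] [Algebra F K₀] [Algebra F k]
  [Algebra K₀ K] [Algebra k K] [Algebra F K] [IsScalarTower F K₀ K] [IsScalarTower F k K] {N : ℕ}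
  {η : Fin (N + 1) → K₀}

variable (F) in
/-- the point under a point -/
noncomputable def Hp.und (c : Hp k (up K η)) : Hp F η where
  P := c.P.comap (map (algebraMap F k))
  prime := have := c.prime; Ideal.comap_isPrime _ _
  van n G hG h0 := c.van n _ (hG.map _) (by rw [EFl.aeval_up, h0, map_zero])
  hom G hG n := by
    have h1 : map (algebraMap F k) (homogeneousComponent n G) =
        homogeneousComponent n (map (algebraMap F k) G) := by
      ext d
      rw [coeff_map, coeff_homogeneousComponent, coeff_homogeneousComponent, coeff_map,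
        apply_ite (algebraMap F k), map_zero]
    rw [Ideal.mem_comap, h1]
    exact c.hom _ hG n
  good := c.good.imp fun i hi h => hi (by
    have h1 : map (algebraMap F k) (X i) ∈ c.P := h
    rwa [map_X] at h1)

theorem Hp.mem_und (c : Hp k (up K η)) (A : Pol F N) :
    A ∈ (c.und F).P ↔ map (algebraMap F k) A ∈ c.P := Iff.rfl

theorem Hp.ov_und (c : Hp k (up K η)) : Ov c.toCtr (c.und F).toCtr := fun _ _ _ => Iff.rfl

theorem Hp.und_idx (c : Hp k (up K η)) : (c.und F).idx = c.idx := by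
  unfold Ctr.idx
  simp only [Hp.mem_und, map_X]

theorem Hp.und_le {c c' : Hp k (up K η)} (h : c.P ≤ c'.P) : (c.und F).P ≤ (c'.und F).P :=
  Ideal.comap_mono h

end

end Pool.Agent.MP_f3836a_nt.PK
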