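import Pool.Agent.MP_f3836a_nt.PK.SpecE

set_option autoImplicit false

/-! An invariant rational symbol vanishing on the ground field vanishes. -/

namespace Pool.Agent.MP_f3836a_nt.PK

open Polynomial IntermediateField

universe u

namespace EBT

structure Sy {Ω : Type u} [Field Ω] (β : Ω → Ω → ℚ) : Prop where
  mul : ∀ f f' g, f ≠ 0 → f' ≠ 0 → g ≠ 0 → β (f * f') g = β f g + β f' g
  anti : ∀ f g, f ≠ 0 → g ≠ 0 → β f g = -β g f
  st : ∀ f, f ≠ 0 → f ≠ 1 → β f (1 - f) = 0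

section
variable {Ω : Type u} [Field Ω] {β : Ω → Ω → ℚ}

theorem Sy.one (h : Sy β) {g : Ω} (hg : g ≠ 0) : β 1 g = 0 := by
  have := h.mul 1 1 g one_ne_zero one_ne_zero hg
  rw [mul_one] at this
  linarith

theorem Sy.neg (h : Sy β) {f g : Ω} (hf : f ≠ 0) (hg : g ≠ 0) : β (-f) g = β f g := by
  have h1 := h.mul (-1) (-1) g (by simp) (by simp) hg
  have h2 := h.mul (-1) f g (by simp) hf hg
  rw [neg_mul_neg, mul_one, h.one hg] at h1
  rw [neg_one_mul] at h2
  linarith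

theorem Sy.neg' (h : Sy β) {f g : Ω} (hf : f ≠ 0) (hg : g ≠ 0) : β f (-g) = β f g := by
  rw [h.anti f (-g) hf (neg_ne_zero.2 hg), h.neg hg hf, h.anti f g hf hg]

theorem Sy.self (h : Sy β) {f : Ω} (hf : f ≠ 0) : β f f = 0 := by
  have := h.anti f f hf hf
  linarith

theorem Sy.mul' (h : Sy β) {f g g' : Ω} (hf : f ≠ 0) (hg : g ≠ 0) (hg' : g' ≠ 0) :
    β f (g * g') = β f g + β f g' := by
  rw [h.anti f _ hf (mul_ne_zero hg hg'), h.mul g g' f hg hg' hf, h.anti f g hf hg,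
    h.anti f g' hf hg']
  ring

theorem Sy.three (h : Sy β) {x y z : Ω} (hx : x ≠ 0) (hy : y ≠ 0) (hz : z ≠ 0)
    (e : x + y + z = 0) : β x z + β y x + β z y = 0 := by
  have hf : -x / z ≠ 0 := div_ne_zero (neg_ne_zero.2 hx) hz
  have hg : -y / z ≠ 0 := div_ne_zero (neg_ne_zero.2 hy) hz
  have e1 : 1 - -x / z = -y / z := by
    field_simp
    linear_combination e
  have h1 := h.st (-x / z) hf fun h1 => hg (by rw [← e1, h1, sub_self])
  rw [e1] at h1
  have h2 := h.mul (-x / z) z (-y / z) hf hz hg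
  rw [div_mul_cancel₀ _ hz, h.neg hx hg, h1] at h2
  have h3 := h.mul' hx hg hz
  have h4 := h.mul' hz hg hz
  rw [div_mul_cancel₀ _ hz] at h3 h4
  rw [h.neg' hx hy] at h3
  rw [h.neg' hz hy, h.self hz] at h4
  have h5 := h.anti y x hy hx
  linarith

theorem prod_ne {m : Multiset Ω} {f : Ω → Ω} (hf : ∀ a ∈ m, f a ≠ 0) : (m.map f).prod ≠ 0 :=
  Multiset.prod_ne_zero fun h => by
    obtain ⟨a, ha, e⟩ := Multiset.mem_map.1 h
    exact hf a ha e

theorem Sy.prod (h : Sy β) (m : Multiset Ω) (f : Ω → Ω) {g : Ω} (hg : g ≠ 0)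
    (hf : ∀ a ∈ m, f a ≠ 0) : β (m.map f).prod g = (m.map fun a => β (f a) g).sum := by
  induction m using Multiset.induction_on with
  | empty => simpa using h.one hg
  | cons a m ih =>
    have h1 : ∀ b ∈ m, f b ≠ 0 := fun b hb => hf b (Multiset.mem_cons_of_mem hb)
    simp only [Multiset.map_cons, Multiset.prod_cons, Multiset.sum_cons]
    rw [h.mul _ _ _ (hf a (Multiset.mem_cons_self _ _)) (prod_ne h1) hg, ih h1]

theorem Sy.prod' (h : Sy β) (m : Multiset Ω) (f : Ω → Ω) {g : Ω} (hg : g ≠ 0)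
    (hf : ∀ a ∈ m, f a ≠ 0) : β g (m.map f).prod = (m.map fun a => β g (f a)).sum := by
  rw [h.anti _ _ hg (prod_ne hf), h.prod m f hg hf, ← Multiset.sum_map_neg]
  exact congr_arg _ (Multiset.map_congr rfl fun a ha => (h.anti _ _ hg (hf a ha)).symm)

theorem Sy.prod₂ (h : Sy β) (B C : Multiset Ω) {a : Ω} (hB : ∀ b ∈ B, a ≠ b)
    (hC : ∀ c ∈ C, a ≠ c) : β (B.map (a - ·)).prod (C.map (a - ·)).prod =
      (B.map fun b => (C.map fun c => β (a - b) (a - c)).sum).sum := by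
  have h1 : ∀ b ∈ B, a - b ≠ 0 := fun b hb => sub_ne_zero.2 (hB b hb)
  have h2 : ∀ c ∈ C, a - c ≠ 0 := fun c hc => sub_ne_zero.2 (hC c hc)
  rw [h.prod B _ (prod_ne h2) h1]
  exact congr_arg _ (Multiset.map_congr rfl fun b hb => h.prod' C _ (h1 b hb) h2)

/-- reciprocity on the projective line -/
theorem Sy.recip (h : Sy β) (A B C : Multiset Ω) (hAB : ∀ a ∈ A, ∀ b ∈ B, a ≠ b)
    (hBC : ∀ b ∈ B, ∀ c ∈ C, b ≠ c) (hCA : ∀ c ∈ C, ∀ a ∈ A, c ≠ a) :
    (A.map fun a => β (B.map (a - ·)).prod (C.map (a - ·)).prod).sum +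
      (B.map fun b => β (C.map (b - ·)).prod (A.map (b - ·)).prod).sum +
      (C.map fun c => β (A.map (c - ·)).prod (B.map (c - ·)).prod).sum = 0 := by
  have e1 : (A.map fun a => β (B.map (a - ·)).prod (C.map (a - ·)).prod).sum =
      (A.map fun a => (B.map fun b => (C.map fun c => β (a - b) (a - c)).sum).sum).sum :=
    congr_arg _ (Multiset.map_congr rfl fun a ha =>
      h.prod₂ B C (hAB a ha) fun c hc => (hCA c hc a ha).symm)
  have e2 : (B.map fun b => β (C.map (b - ·)).prod (A.map (b - ·)).prod).sum =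
      (A.map fun a => (B.map fun b => (C.map fun c => β (b - c) (b - a)).sum).sum).sum := by
    rw [Multiset.sum_map_sum_map A B]
    refine congr_arg _ (Multiset.map_congr rfl fun b hb => ?_)
    rw [h.prod₂ C A (hBC b hb) fun a ha => (hAB a ha b hb).symm, Multiset.sum_map_sum_map]
  have e3 : (C.map fun c => β (A.map (c - ·)).prod (B.map (c - ·)).prod).sum =
      (A.map fun a => (B.map fun b => (C.map fun c => β (c - a) (c - b)).sum).sum).sum := by
    have e4 : (C.map fun c => β (A.map (c - ·)).prod (B.map (c - ·)).prod).sum =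
        (C.map fun c => (A.map fun a => (B.map fun b => β (c - a) (c - b)).sum).sum).sum :=
      congr_arg _ (Multiset.map_congr rfl fun c hc =>
        h.prod₂ A B (hCA c hc) fun b hb => (hBC b hb c hc).symm)
    rw [e4, Multiset.sum_map_sum_map C A]
    refine congr_arg _ (Multiset.map_congr rfl fun a _ => ?_)
    rw [Multiset.sum_map_sum_map]
  rw [e1, e2, e3, ← Multiset.sum_map_add, ← Multiset.sum_map_add]
  refine Multiset.sum_eq_zero fun t ht => ?_
  obtain ⟨a, ha, rfl⟩ := Multiset.mem_map.1 ht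
  rw [← Multiset.sum_map_add, ← Multiset.sum_map_add]
  refine Multiset.sum_eq_zero fun t ht => ?_
  obtain ⟨b, hb, rfl⟩ := Multiset.mem_map.1 ht
  rw [← Multiset.sum_map_add, ← Multiset.sum_map_add]
  refine Multiset.sum_eq_zero fun t ht => ?_
  obtain ⟨c, hc, rfl⟩ := Multiset.mem_map.1 ht
  have hx := sub_ne_zero.2 (hAB a ha b hb)
  have hy := sub_ne_zero.2 (hBC b hb c hc)
  have hz := sub_ne_zero.2 (hCA c hc a ha)
  have h3 := h.three hx hy hz (by ring)
  rw [← neg_sub c a, ← neg_sub a b, ← neg_sub b c, h.neg' hx hz, neg_sub a b, ← neg_sub a b,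
    h.neg' hy hx, h.neg' hz hy]
  exact h3

end

section
variable {K Ω : Type u} [Field K] [Field Ω] [Algebra K Ω] [IsAlgClosed Ω]
  [Algebra.IsAlgebraic K Ω] {β : Ω → Ω → ℚ}

theorem conj {g c : Ω} (hc : c ∈ (minpoly K g).aroots Ω) : ∃ σ : Ω ≃ₐ[K] Ω, σ g = c := by
  have : IsAlgClosure K Ω := ⟨inferInstance, inferInstance⟩
  exact minpoly.exists_algEquiv_of_root' (Algebra.IsAlgebraic.isAlgebraic g) (mem_aroots.1 hc).2

omit [Algebra.IsAlgebraic K Ω] in
theorem ev {F : K[X]} (hF : F.Monic) (x : Ω) : aeval x F = ((F.aroots Ω).map (x - ·)).prod :=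
  (IsAlgClosed.splits _).aeval_eq_prod_aroots_of_monic hF x

theorem cancel {g : Ω} {t : ℚ} {f : Ω → ℚ} (hf : ∀ c ∈ (minpoly K g).aroots Ω, f c = t)
    (h : (((minpoly K g).aroots Ω).map f).sum = 0) : t = 0 := by
  rw [Multiset.map_congr rfl hf, Multiset.map_const', Multiset.sum_replicate,
    IsAlgClosed.card_aroots_eq_natDegree, nsmul_eq_mul] at h
  have h1 := minpoly.natDegree_pos (Algebra.IsAlgebraic.isAlgebraic (R := K) g).isIntegral
  exact (mul_eq_zero.1 h).resolve_left (Nat.cast_ne_zero.2 h1.ne')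

/-- projection formula -/
theorem proj (h : Sy β) (hi : ∀ (σ : Ω ≃ₐ[K] Ω) f g, f ≠ 0 → g ≠ 0 → β (σ f) (σ g) = β f g)
    {a : K} (ha : a ≠ 0) (h0 : ∀ c : K, c ≠ 0 → β (algebraMap K Ω a) (algebraMap K Ω c) = 0)
    {g : Ω} (hg : g ≠ 0) : β (algebraMap K Ω a) g = 0 := by
  have hI := (Algebra.IsAlgebraic.isAlgebraic (R := K) g).isIntegral
  have ha' : algebraMap K Ω a ≠ 0 := (_root_.map_ne_zero _).2 ha
  have hr : ∀ c ∈ (minpoly K g).aroots Ω, c ≠ 0 := fun c hc => by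
    obtain ⟨σ, rfl⟩ := conj hc
    exact (EmbeddingLike.map_ne_zero_iff).2 hg
  have h1 := h0 _ (minpoly.coeff_zero_ne_zero hI hg)
  rw [coeff_zero_eq_aeval_zero', ev (minpoly.monic hI),
    h.prod' _ _ ha' fun c hc => by simpa using hr c hc] at h1
  refine cancel (fun c hc => ?_) h1
  rw [zero_sub, h.neg' ha' (hr c hc)]
  obtain ⟨σ, rfl⟩ := conj hc
  rw [← hi σ _ _ ha' hg, AlgEquiv.commutes]

omit [IsAlgClosed Ω] [Algebra.IsAlgebraic K Ω] in
theorem ev_ne {θ : Ω} {F : K[X]} (hF : F ≠ 0) (hd : F.natDegree < (minpoly K θ).natDegree) :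
    aeval θ F ≠ 0 := fun h =>
  absurd (natDegree_le_of_dvd (minpoly.dvd K θ h) hF) (not_le.2 hd)

omit [IsAlgClosed Ω] [Algebra.IsAlgebraic K Ω] in
theorem red (h : Sy β) {θ y : Ω} (hy : y ≠ 0) (h0 : ∀ c : K, c ≠ 0 → β (algebraMap K Ω c) y = 0)
    (h1 : ∀ F : K[X], F.Monic → Irreducible F → F.natDegree < (minpoly K θ).natDegree →
      β (aeval θ F) y = 0) (F : K[X]) :
    F ≠ 0 → F.natDegree < (minpoly K θ).natDegree → β (aeval θ F) y = 0 := by
  induction F using WfDvdMonoid.induction_on_irreducible with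
  | zero => exact fun h => absurd rfl h
  | unit F hF =>
    obtain ⟨c, hc, rfl⟩ := Polynomial.isUnit_iff.1 hF
    intro _ _
    rw [aeval_C]
    exact h0 c hc.ne_zero
  | mul F i hF hi ih =>
    intro _ hd
    rw [natDegree_mul hi.ne_zero hF] at hd
    have hl : i.leadingCoeff ≠ 0 := leadingCoeff_ne_zero.2 hi.ne_zero
    have d1 : (i * C i.leadingCoeff⁻¹).natDegree < (minpoly K θ).natDegree := by
      rw [natDegree_mul_leadingCoeff_inv _ hi.ne_zero]
      omega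
    have hm := monic_mul_leadingCoeff_inv hi.ne_zero
    have h2 := h1 _ hm (irreducible_mul_leadingCoeff_inv.2 hi) d1
    have n1 : aeval θ i ≠ 0 := ev_ne hi.ne_zero (by omega)
    rw [map_mul, aeval_C, h.mul _ _ _ n1 ((_root_.map_ne_zero _).2 (inv_ne_zero hl)) hy,
      h0 _ (inv_ne_zero hl), add_zero] at h2
    rw [map_mul, h.mul _ _ _ n1 (ev_ne hF (by omega)) hy, h2, ih hF (by omega), add_zero]

omit [IsAlgClosed Ω] [Algebra.IsAlgebraic K Ω] in
theorem disj {F G : K[X]} (hF : F.Monic) (iF : Irreducible F) (hG : G.Monic) (iG : Irreducible G)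
    (hn : F ≠ G) : ∀ a ∈ F.aroots Ω, ∀ b ∈ G.aroots Ω, a ≠ b := by
  rintro a ha b hb rfl
  exact hn ((minpoly.eq_of_irreducible_of_monic iF (mem_aroots.1 ha).2 hF).trans
    (minpoly.eq_of_irreducible_of_monic iG (mem_aroots.1 hb).2 hG).symm)

theorem main (h : Sy β) (hi : ∀ (σ : Ω ≃ₐ[K] Ω) f g, f ≠ 0 → g ≠ 0 → β (σ f) (σ g) = β f g)
    (h0 : ∀ a b : K, a ≠ 0 → b ≠ 0 → β (algebraMap K Ω a) (algebraMap K Ω b) = 0) (d : ℕ) :
    ∀ θ : Ω, (minpoly K θ).natDegree = d → ∀ (F : K[X]) (g : Ω), aeval θ F ≠ 0 → g ≠ 0 →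
      β (aeval θ F) g = 0 := by
  induction d using Nat.strong_induction_on with
  | _ d ih =>
  intro θ hθ
  subst hθ
  have hI := (Algebra.IsAlgebraic.isAlgebraic (R := K) θ).isIntegral
  have hH := minpoly.monic hI
  have iH := minpoly.irreducible hI
  have c0 : ∀ y : Ω, y ≠ 0 → ∀ c : K, c ≠ 0 → β (algebraMap K Ω c) y = 0 :=
    fun y hy c hc => proj h hi hc (fun b hb => h0 c b hc hb) hy
  have k1 : ∀ F : K[X], F.Monic → Irreducible F → F.natDegree < (minpoly K θ).natDegree →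
      ∀ G : K[X], G.Monic → Irreducible G → G.natDegree < (minpoly K θ).natDegree →
      β (aeval θ F) (aeval θ G) = 0 := by
    intro F hF iF dF G hG iG dG
    have nF : aeval θ F ≠ 0 := ev_ne hF.ne_zero dF
    have nG : aeval θ G ≠ 0 := ev_ne hG.ne_zero dG
    by_cases e : F = G
    · rw [e]
      exact h.self nG
    have d1 := disj (Ω := Ω) hF iF hG iG e
    have d2 := disj (Ω := Ω) hG iG hH iH fun e => by rw [e] at dG; omega
    have d3 := disj (Ω := Ω) hH iH hF iF fun e => by rw [← e] at dF; omega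
    have h3 := h.recip _ _ _ d1 d2 d3
    have z1 : ((F.aroots Ω).map fun a => β ((G.aroots Ω).map (a - ·)).prod
        (((minpoly K θ).aroots Ω).map (a - ·)).prod).sum = 0 := by
      refine Multiset.sum_eq_zero fun t ht => ?_
      obtain ⟨a, ha, rfl⟩ := Multiset.mem_map.1 ht
      have n1 := prod_ne (f := (a - ·)) fun b hb => sub_ne_zero.2 (d1 a ha b hb)
      have n2 := prod_ne (f := (a - ·)) fun c hc => sub_ne_zero.2 (d3 c hc a ha).symm
      rw [← ev hG] at n1 ⊢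
      refine ih _ ?_ a rfl G _ n1 n2
      rwa [← minpoly.eq_of_irreducible_of_monic iF (mem_aroots.1 ha).2 hF]
    have z2 : ((G.aroots Ω).map fun b => β (((minpoly K θ).aroots Ω).map (b - ·)).prod
        ((F.aroots Ω).map (b - ·)).prod).sum = 0 := by
      refine Multiset.sum_eq_zero fun t ht => ?_
      obtain ⟨b, hb, rfl⟩ := Multiset.mem_map.1 ht
      have n1 := prod_ne (f := (b - ·)) fun c hc => sub_ne_zero.2 (d2 b hb c hc)
      have n2 := prod_ne (f := (b - ·)) fun a ha => sub_ne_zero.2 (d1 a ha b hb).symm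
      rw [← ev hH] at n1 ⊢
      refine ih _ ?_ b rfl _ _ n1 n2
      rwa [← minpoly.eq_of_irreducible_of_monic iG (mem_aroots.1 hb).2 hG]
    rw [z1, z2, zero_add, zero_add] at h3
    refine cancel (fun c hc => ?_) h3
    rw [← ev hF, ← ev hG]
    obtain ⟨σ, rfl⟩ := conj hc
    rw [← hi σ _ _ nF nG, aeval_algEquiv]
    rfl
  have k2 : ∀ F : K[X], F ≠ 0 → F.natDegree < (minpoly K θ).natDegree →
      ∀ G : K[X], G ≠ 0 → G.natDegree < (minpoly K θ).natDegree →
      β (aeval θ F) (aeval θ G) = 0 := by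
    intro F nF dF G nG dG
    refine red h (ev_ne nG dG) (c0 _ (ev_ne nG dG)) (fun F hF iF dF => ?_) F nF dF
    have n1 : aeval θ F ≠ 0 := ev_ne hF.ne_zero dF
    rw [h.anti _ _ n1 (ev_ne nG dG), neg_eq_zero]
    refine red h n1 (c0 _ n1) (fun G hG iG dG => ?_) G nG dG
    exact k1 G hG iG dG F hF iF dF
  have k3 : ∀ x : K⟮θ⟯, x ≠ 0 → ∃ F : K[X], F ≠ 0 ∧ F.natDegree < (minpoly K θ).natDegree ∧
      algebraMap K⟮θ⟯ Ω x = aeval θ F := by
    intro x hx
    obtain ⟨F, dF, e⟩ := (adjoin.powerBasis hI).exists_eq_aeval x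
    refine ⟨F, fun h => hx (by rw [e, h, map_zero]), dF, ?_⟩
    rw [e]
    exact AdjoinSimple.coe_aeval_gen_apply K θ F
  intro F g nF hg
  have e : algebraMap K⟮θ⟯ Ω (aeval (AdjoinSimple.gen K θ) F) = aeval θ F :=
    AdjoinSimple.coe_aeval_gen_apply K θ F
  have n1 : aeval (AdjoinSimple.gen K θ) F ≠ 0 := fun h => nF (by rw [← e, h, map_zero])
  rw [← e]
  refine proj (K := K⟮θ⟯) h (fun σ f g hf hg => hi (σ.restrictScalars K) f g hf hg) n1
    (fun c hc => ?_) hg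
  obtain ⟨F₁, a1, a2, a3⟩ := k3 _ n1
  obtain ⟨F₂, b1, b2, b3⟩ := k3 _ hc
  rw [a3, b3]
  exact k2 F₁ a1 a2 F₂ b1 b2

end

end EBT

theorem rBT : RBT.{u} := by
  intro K Ω _ _ _ _ _ β h1 h2 h3 hi h0 f g hf hg
  have := EBT.main ⟨h1, h2, h3⟩ hi h0 _ f rfl X g (by rwa [aeval_X]) hg
  rwa [aeval_X] at this

end Pool.Agent.MP_f3836a_nt.PK
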