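import Pool.Agent.MP_f3836a_nt.PK.SpecE

set_option autoImplicit false

/-! The averaged tame symbol vanishes on the algebraic closure. -/

namespace Pool.Agent.MP_f3836a_nt.PK

universe u

namespace EBeta

section
variable {Ω : Type u} [Field Ω] {v : Ω → ℚ}

theorem a_one (h : Addv v) : v 1 = 0 := by
  have := h 1 1 one_ne_zero one_ne_zero
  rw [one_mul] at this
  linarith

theorem a_neg (h : Addv v) {f : Ω} (hf : f ≠ 0) : v (-f) = v f := by
  have h1 : (-1 : Ω) ≠ 0 := neg_ne_zero.2 one_ne_zero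
  have h2 := h (-1) (-1) h1 h1
  rw [neg_one_mul, neg_neg, a_one h] at h2
  rw [← neg_one_mul, h _ _ h1 hf]
  linarith

theorem a_inv (h : Addv v) {f : Ω} (hf : f ≠ 0) : v f⁻¹ = -v f := by
  have := h f f⁻¹ hf (inv_ne_zero hf)
  rw [mul_inv_cancel₀ hf, a_one h] at this
  linarith

theorem a_pow (h : Addv v) {f : Ω} (hf : f ≠ 0) (n : ℕ) : v (f ^ n) = n * v f := by
  induction n with
  | zero => simp [a_one h]
  | succ n ih => rw [pow_succ, h _ _ (pow_ne_zero n hf) hf, ih]; push_cast; ring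

theorem a_zpow (h : Addv v) {f : Ω} (hf : f ≠ 0) (n : ℤ) : v (f ^ n) = n * v f := by
  cases n with
  | ofNat n => simp [a_pow h hf]
  | negSucc n => rw [zpow_negSucc, a_inv h (pow_ne_zero _ hf), a_pow h hf]; push_cast; ring

end

section
variable {K Ω κ : Type u} [Field K] [Field Ω] [Algebra K Ω] [Field κ] {O : Subring K}
  {r : O →+* κ} {lam : κ → ℚ} {V : ValuationSubring Ω} {v μ : Ω → ℚ}

theorem nonu (h : VD O r lam V v μ) {f : Ω} (hf : f ≠ 0) (hv : 0 < v f) : f ∈ V.nonunits := by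
  rw [ValuationSubring.mem_nonunits_iff_or, h.mem _ (inv_ne_zero hf), a_inv h.vmul hf]
  exact Or.inr (by linarith)

theorem sub_mem' (h : VD O r lam V v μ) {f : Ω} (hf : f ≠ 0) (hf1 : 1 - f ≠ 0) (hv : 0 ≤ v f) :
    0 ≤ v (1 - f) := (h.mem _ hf1).1 (sub_mem (one_mem V) ((h.mem _ hf).2 hv))

theorem pos (h : VD O r lam V v μ) {f : Ω} (hf : f ≠ 0) (hf1 : 1 - f ≠ 0) (hv : 0 < v f) :
    v (1 - f) = 0 ∧ μ (1 - f) = 0 := by
  refine ⟨(sub_mem' h hf hf1 hv.le).eq_or_lt.elim Eq.symm fun h1 => ?_, h.one _ ?_⟩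
  · have := add_mem (nonu h hf hv) (nonu h hf1 h1)
    rw [add_sub_cancel, ValuationSubring.mem_nonunits_iff, map_one] at this
    exact absurd this (lt_irrefl _)
  · rw [sub_sub_cancel_left]
    exact neg_mem (nonu h hf hv)

theorem stb (h : VD O r lam V v μ) {f : Ω} (hf : f ≠ 0) (hf1 : 1 - f ≠ 0) :
    tt v μ f (1 - f) = 0 := by
  unfold tt
  rcases lt_trichotomy 0 (v f) with hv | hv | hv
  · rw [(pos h hf hf1 hv).1, (pos h hf hf1 hv).2]; ring
  · rw [← hv]
    rcases (sub_mem' h hf hf1 hv.le).eq_or_lt with h1 | h1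
    · rw [← h1]; ring
    · have := (pos h hf1 (by rwa [sub_sub_cancel]) h1).2
      rw [sub_sub_cancel] at this
      rw [this]; ring
  · have e : 1 - f = -f * (1 - f⁻¹) := by field_simp; ring
    have h1 : 1 - f⁻¹ ≠ 0 := fun h0 => hf1 (by rw [e, h0, mul_zero])
    obtain ⟨h2, h3⟩ := pos h (inv_ne_zero hf) h1 (by rw [a_inv h.vmul hf]; linarith)
    rw [e, h.vmul _ _ (neg_ne_zero.2 hf) h1, h.mmul _ _ (neg_ne_zero.2 hf) h1, h2, h3,
      a_neg h.vmul hf, a_neg h.mmul hf]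
    ring

theorem base (hD : DVA O r) (h : VD O r lam V v μ) {a b : K} (ha : a ≠ 0) (hb : b ≠ 0) :
    tt v μ (algebraMap K Ω a) (algebraMap K Ω b) = lam (tameR O r a b) := by
  obtain ⟨c, hc, e1, e2⟩ := hD.unit _ (hD.tE a b ha hb).1 (hD.tE a b ha hb).2
  have ha' : algebraMap K Ω a ≠ 0 := (map_ne_zero _).2 ha
  have hb' : algebraMap K Ω b ≠ 0 := (map_ne_zero _).2 hb
  have h1 : (-1 : Ω) ≠ 0 := neg_ne_zero.2 one_ne_zero
  rw [tameR, e2, ← h.lam c hc, e1, tameE, tt, h.res a ha, h.res b hb, map_div₀, map_mul, map_zpow₀,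
    map_zpow₀, map_zpow₀, map_neg, map_one, div_eq_mul_inv,
    h.mmul _ _ (mul_ne_zero (zpow_ne_zero _ h1) (zpow_ne_zero _ ha'))
      (inv_ne_zero (zpow_ne_zero _ hb')),
    h.mmul _ _ (zpow_ne_zero _ h1) (zpow_ne_zero _ ha'), a_inv h.mmul (zpow_ne_zero _ hb'),
    a_zpow h.mmul h1, a_zpow h.mmul ha', a_zpow h.mmul hb', a_neg h.mmul one_ne_zero, a_one h.mmul]
  ring

theorem int (h : VD O r lam V v μ) {x : Ω} {p : Polynomial K} (hp : p.Monic)
    (hx : Polynomial.aeval x p = 0) (hc : ∀ n, p.coeff n ≠ 0 → ordR O (p.coeff n) = 0) :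
    x ∈ V := by
  have hl : p.map (algebraMap K Ω) ∈ Polynomial.lifts (algebraMap V Ω) := by
    rw [Polynomial.lifts_iff_coeff_lifts]
    intro n
    rw [Polynomial.coeff_map]
    by_cases h0 : p.coeff n = 0
    · exact ⟨0, by rw [h0, map_zero, map_zero]⟩
    · exact ⟨⟨_, (h.mem _ ((map_ne_zero _).2 h0)).2 (by rw [h.res _ h0, hc n h0]; rfl)⟩, rfl⟩
  obtain ⟨q, e, -, hq⟩ := Polynomial.lifts_and_degree_eq_and_monic hl (hp.map _)
  obtain ⟨y, rfl⟩ := IsIntegrallyClosed.isIntegral_iff.1 (show IsIntegral V x from ⟨q, hq, by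
    rw [← Polynomial.eval_map, e, Polynomial.eval_map_algebraMap, hx]⟩)
  exact y.2

end

end EBeta

open EBeta in
theorem rBeta : RDVA.{u} → RAdm.{u} → RBT.{u} → RBeta.{u} := by
  intro hD hA hBT K Ω _ _ _ _ _ I κ _ O r lam V v μ M hM hdv hvd hfin hrec
  have f1 : ∀ f : Ω, {i | ∃ σ : Ω ≃ₐ[K] Ω, σ f ∉ V i}.Finite := fun f => by
    refine ((minpoly K f).support.finite_toSet.biUnion
      fun n _ => hfin ((minpoly K f).coeff n)).subset ?_
    rintro i ⟨σ, hσ⟩
    by_contra hi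
    refine hσ (int (hvd i) (minpoly.monic (Algebra.IsIntegral.isIntegral f))
      (by rw [Polynomial.aeval_algHom_apply, minpoly.aeval, map_zero]) fun n hn => ?_)
    by_contra h0
    exact hi (Set.mem_biUnion (Polynomial.mem_support_iff.2 hn) h0)
  have f2 : ∀ f : Ω, f ≠ 0 → {i | ∃ σ : Ω ≃ₐ[K] Ω, v i (σ f) ≠ 0}.Finite := fun f hf => by
    refine ((f1 f).union (f1 f⁻¹)).subset ?_
    rintro i ⟨σ, hσ⟩
    have h0 : σ f ≠ 0 := (map_ne_zero σ).2 hf
    rcases lt_or_gt_of_ne hσ with h | h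
    · exact Or.inl ⟨σ, fun hm => absurd (((hvd i).mem _ h0).1 hm) (not_le.2 h)⟩
    · refine Or.inr ⟨σ, fun hm => ?_⟩
      rw [map_inv₀, (hvd i).mem _ (inv_ne_zero h0), a_inv (hvd i).vmul h0] at hm
      linarith
  have f3 : ∀ f g : Ω, f ≠ 0 → g ≠ 0 → Function.HasFiniteSupport
      fun i => M fun σ => tt (v i) (μ i) (σ f) (σ g) := fun f g hf hg => by
    refine ((f2 f hf).union (f2 g hg)).subset fun i hi => ?_
    by_contra hn
    simp only [Set.mem_union, Set.mem_ofPred_eq, not_or, not_exists, not_not] at hn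
    refine hi ?_
    simp only [tt, hn.1, hn.2, zero_mul, sub_zero]
    exact hM.const 0
  have ad : ∀ i (f g : Ω), Adm fun σ : Ω ≃ₐ[K] Ω => tt (v i) (μ i) (σ f) (σ g) := fun i f g =>
    hA K Ω {f, g} _ (Set.toFinite _) fun σ τ h => by
      rw [h f (by simp), h g (by simp)]
  refine hBT K Ω (fun f g => ∑ᶠ i, M fun σ => tt (v i) (μ i) (σ f) (σ g))
    (fun f f' g hf hf' hg => ?_) (fun f g _ _ => ?_) (fun f hf hf1 => ?_)
    (fun τ f g _ _ => ?_) fun a b ha hb => ?_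
  · rw [← finsum_add_distrib (f3 f g hf hg) (f3 f' g hf' hg)]
    refine finsum_congr fun i => ?_
    rw [← hM.add _ _ (ad i f g) (ad i f' g)]
    congr 1
    funext σ
    have h1 : σ f ≠ 0 := (map_ne_zero σ).2 hf
    have h2 : σ f' ≠ 0 := (map_ne_zero σ).2 hf'
    rw [map_mul, tt, tt, tt, (hvd i).vmul _ _ h1 h2, (hvd i).mmul _ _ h1 h2]
    ring
  · rw [← finsum_neg_distrib]
    refine finsum_congr fun i => ?_
    rw [← neg_one_mul, ← hM.smul _ _ (ad i g f)]
    congr 1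
    funext σ
    rw [tt, tt]
    ring
  · refine finsum_eq_zero_of_forall_eq_zero fun i => ?_
    rw [← hM.const 0]
    congr 1
    funext σ
    rw [map_sub, map_one]
    refine stb (hvd i) ((map_ne_zero σ).2 hf) ?_
    rw [← map_one σ, ← map_sub]
    exact (map_ne_zero σ).2 (sub_ne_zero.2 hf1.symm)
  · exact finsum_congr fun i => hM.right _ τ (ad i f g)
  · rw [← hrec a b ha hb]
    refine finsum_congr fun i => ?_
    rw [← base (hD _ _ _ _ (hdv i)) (hvd i) ha hb, ← hM.const (tt _ _ _ _)]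
    simp only [AlgEquiv.commutes]

end Pool.Agent.MP_f3836a_nt.PK
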