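import Pool.Agent.MP_f3836a_nt.PK.SpecE

set_option autoImplicit false

/-! Descent of functionals killing tame symbols along an algebraic extension. -/

namespace Pool.Agent.MP_f3836a_nt.PK

universe u

namespace EDesc

section
variable {κ : Type u} [Field κ] {l : κ → ℚ}

theorem a_one (h : Addv l) : l 1 = 0 := by
  have := h 1 1 one_ne_zero one_ne_zero
  rw [mul_one] at this
  linarith

theorem a_inv (h : Addv l) {f : κ} (hf : f ≠ 0) : l f⁻¹ = -l f := by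
  have := h f f⁻¹ hf (inv_ne_zero hf)
  rw [mul_inv_cancel₀ hf, a_one h] at this
  linarith

theorem a_zpow (h : Addv l) {f : κ} (hf : f ≠ 0) (n : ℤ) : l (f ^ n) = n * l f := by
  induction n using Int.induction_on with
  | zero => simp [a_one h]
  | succ n ih => rw [zpow_add_one₀ hf, h _ _ (zpow_ne_zero _ hf) hf, ih]; push_cast; ring
  | pred n ih =>
    rw [zpow_sub_one₀ hf, h _ _ (zpow_ne_zero _ hf) (inv_ne_zero hf), ih, a_inv h hf]
    push_cast
    ring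

theorem a_neg (h : Addv l) : l (-1) = 0 := by
  have := h (-1) (-1) (by simp) (by simp)
  rw [neg_mul_neg, mul_one, a_one h] at this
  linarith

theorem ord_zero (O : Subring κ) : ordR O 0 = 0 := dif_neg fun h => h.1 rfl

end

section
variable {K κ : Type u} [Field K] [Field κ] {O : Subring K} {r : O →+* κ}

theorem ord_inv (A : DVA O r) {f : K} (hf : f ≠ 0) : ordR O f⁻¹ = -ordR O f := by
  rw [← zpow_neg_one, A.zpow f _ hf, neg_one_mul]

theorem unit_iff (A : DVA O r) {f : K} (hf : f ≠ 0) : ordR O f = 0 ↔ f ∈ O ∧ f⁻¹ ∈ O := by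
  rw [A.mem f hf, A.mem _ (inv_ne_zero hf), ord_inv A hf]
  omega

theorem ex_lift (D : DV O r) (A : DVA O r) (c : κ) :
    ∃ x : K, c ≠ 0 → x ≠ 0 ∧ ordR O x = 0 ∧ resR O r x = c := by
  obtain ⟨a, rfl⟩ := D.surj c
  refine ⟨a, fun h => ?_⟩
  obtain ⟨h1, h2⟩ := A.unit' a (not_not.1 fun e => h ((D.ker a).2 e))
  exact ⟨h1, h2, dif_pos a.2⟩

theorem res_ne (D : DV O r) (A : DVA O r) {f : K} (hf : f ≠ 0) (h : ordR O f = 0) :
    resR O r f ≠ 0 := by
  obtain ⟨a, h1, -, h3⟩ := A.unit f hf h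
  rw [h3]
  exact fun e => (D.ker a).1 e h1

variable {Ω : Type u} [Field Ω] {V : ValuationSubring Ω} {v μ : Ω → ℚ} {φ : K →+* Ω}

theorem v_unit (A : DVA O r) (hv : Addv v) (hm : ∀ f, f ≠ 0 → (f ∈ V ↔ 0 ≤ v f))
    (hP : ∀ x, x ∈ O ↔ φ x ∈ V) {f : K} (hf : f ≠ 0) (h : ordR O f = 0) : v (φ f) = 0 := by
  obtain ⟨h1, h2⟩ := (unit_iff A hf).1 h
  have h3 := (map_ne_zero φ).2 hf
  rw [hP, hm _ h3] at h1
  rw [hP, map_inv₀, hm _ (inv_ne_zero h3), a_inv hv h3] at h2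
  linarith

theorem v_eq (A : DVA O r) (hv : Addv v) (hm : ∀ f, f ≠ 0 → (f ∈ V ↔ 0 ≤ v f))
    (hP : ∀ x, x ∈ O ↔ φ x ∈ V) {π f : K} (hπ : π ≠ 0) (h1 : v (φ π) = 1) (hf : f ≠ 0) :
    (ordR O f : ℚ) = ordR O π * v (φ f) := by
  have h2 := (map_ne_zero φ).2 hf
  have h3 := (map_ne_zero φ).2 hπ
  have := v_unit A hv hm hP (f := f ^ ordR O π * π ^ (-ordR O f))
    (mul_ne_zero (zpow_ne_zero _ hf) (zpow_ne_zero _ hπ)) (by
      rw [A.mul _ _ (zpow_ne_zero _ hf) (zpow_ne_zero _ hπ), A.zpow _ _ hf, A.zpow _ _ hπ]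
      ring)
  rw [map_mul, map_zpow₀, map_zpow₀, hv _ _ (zpow_ne_zero _ h2) (zpow_ne_zero _ h3),
    a_zpow hv h2, a_zpow hv h3, h1] at this
  push_cast at this
  linarith

theorem mu_eq (D : DV O r) (A : DVA O r) (hμ : Addv μ) (h1 : ∀ f, f - 1 ∈ V.nonunits → μ f = 0)
    (hP : ∀ x, x ∈ O ↔ φ x ∈ V) {x y : K} (hx : x ≠ 0) (hy : y ≠ 0) (ox : ordR O x = 0)
    (oy : ordR O y = 0) (h : resR O r x = resR O r y) : μ (φ x) = μ (φ y) := by
  obtain ⟨x1, -⟩ := (unit_iff A hx).1 ox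
  obtain ⟨-, y1⟩ := (unit_iff A hy).1 oy
  have h2 : resR O r (x * y⁻¹) = 1 := by
    rw [A.rmul _ _ x1 y1, ← zpow_neg_one, A.rzpow _ _ hy oy, h, zpow_neg_one,
      mul_inv_cancel₀ (res_ne D A hy oy)]
  have h3 : x * y⁻¹ ∈ O := O.mul_mem x1 y1
  rw [resR, dif_pos h3] at h2
  have h4 : μ (φ (x * y⁻¹)) = 0 := h1 _ (by
    rw [← map_one φ, ← map_sub, ValuationSubring.mem_nonunits_iff_or, ← map_inv₀, ← hP,
      map_eq_zero, or_iff_not_imp_left]
    intro h5 h6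
    refine (D.ker (⟨_, h3⟩ - 1)).1 (by rw [map_sub, h2, map_one, sub_self]) ?_
    exact IsUnit.of_mul_eq_one ⟨_, h6⟩ (Subtype.ext (mul_inv_cancel₀ h5)))
  have h5 := (map_ne_zero φ).2 hy
  rw [map_mul, map_inv₀, hμ _ _ ((map_ne_zero φ).2 hx) (inv_ne_zero h5), a_inv hμ h5] at h4
  linarith

theorem mu_tame (hμ : Addv μ) {f g : K} (hf : f ≠ 0) (hg : g ≠ 0) :
    μ (φ (tameE O f g)) = ordR O g * μ (φ f) - ordR O f * μ (φ g) := by
  have h2 := (map_ne_zero φ).2 hf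
  have h3 := (map_ne_zero φ).2 hg
  have h4 : (-1 : Ω) ≠ 0 := by simp
  rw [tameE, div_eq_mul_inv, map_mul, map_mul, map_inv₀, map_zpow₀, map_zpow₀, map_zpow₀, map_neg,
    map_one, hμ _ _ (mul_ne_zero (zpow_ne_zero _ h4) (zpow_ne_zero _ h2))
      (inv_ne_zero (zpow_ne_zero _ h3)), hμ _ _ (zpow_ne_zero _ h4) (zpow_ne_zero _ h2),
    a_inv hμ (zpow_ne_zero _ h3), a_zpow hμ h2, a_zpow hμ h3, a_zpow hμ h4, a_neg hμ]
  ring

end

theorem fibre {I J : Type u} (b : J → I) (h : J → ℚ) (hf : {j | h j ≠ 0}.Finite) :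
    ∑ᶠ j, h j = ∑ᶠ i, ∑ᶠ (j) (_ : b j = i), h j := by
  classical
  have e : ∀ i, ∑ᶠ (j) (_ : b j = i), h j = ∑ j ∈ hf.toFinset with b j = i, h j := fun i =>
    finsum_cond_eq_sum_of_cond_iff _ fun hx => by simp [hx]
  simp only [e]
  rw [finsum_eq_sum_of_support_subset (s := hf.toFinset) _ (by rw [hf.coe_toFinset]; rfl),
    finsum_eq_sum_of_support_subset (s := hf.toFinset.image b), Finset.sum_fiberwise_of_maps_to
      fun j hj => Finset.mem_image_of_mem b hj]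
  intro i hi
  obtain ⟨j, hj, -⟩ := Finset.exists_ne_zero_of_sum_ne_zero hi
  obtain ⟨h1, h2⟩ := Finset.mem_filter.1 hj
  exact Finset.mem_coe.2 (Finset.mem_image.2 ⟨j, h1, h2⟩)

section
variable {K₀ K : Type u} [Field K₀] [Field K] [Algebra K₀ K] {I J : Type u}
  {κ : I → Type u} [∀ i, Field (κ i)] {κ' : J → Type u} [∀ j, Field (κ' j)]
  {O : I → Subring K₀} {r : ∀ i, O i →+* κ i} {O' : J → Subring K} {r' : ∀ j, O' j →+* κ' j}
  {b : J → I}

theorem ord_up (hA : RDVA.{u}) (H : Fam O r O' r' b) (j : J) {f : K₀} (hf : f ≠ 0) :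
    ordR (O' j) (algebraMap K₀ K f) = 0 ↔ ordR (O (b j)) f = 0 := by
  rw [unit_iff (hA _ _ _ _ (H.dv' j)) ((map_ne_zero _).2 hf), unit_iff (hA _ _ _ _ (H.dv _)) hf,
    H.ovr, H.ovr, map_inv₀]

theorem ex_over (hA : RDVA.{u}) (H : Fam O r O' r' b) {Ω : Type u} [Field Ω] [Algebra K₀ Ω] {i : I}
    {lam : κ i → ℚ} {V : ValuationSubring Ω} {v μ : Ω → ℚ} (h : VD (O i) (r i) lam V v μ)
    (φ : K →+* Ω) (hφ : ∀ f, φ (algebraMap K₀ K f) = algebraMap K₀ Ω f) :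
    ∃ j, b j = i ∧ ∀ x, x ∈ O' j ↔ φ x ∈ V := by
  obtain ⟨j, h1, h2⟩ := H.lift i (V.comap φ) fun f => by
    rw [ValuationSubring.mem_comap, hφ]
    rcases eq_or_ne f 0 with rfl | hf
    · simp
    · rw [h.mem _ ((map_ne_zero _).2 hf), h.res f hf, (hA _ _ _ _ (H.dv i)).mem f hf,
        Int.cast_nonneg_iff]
  exact ⟨j, h1, fun x => by rw [h2]; rfl⟩

end

end EDesc

open EDesc

theorem rFinI (hA : RDVA.{u}) (hV : RVD.{u}) : RFinI.{u} := by
  intro K₀ K _ _ _ _ I J κ _ κ' _ O r O' r' b H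
  refine ⟨fun f => ((H.fin (algebraMap K₀ K f)).image b).subset fun i hi => ?_, fun i => ?_⟩
  · obtain ⟨V, v, μ, h⟩ := hV K₀ K _ (O i) (r i) (fun _ => 0) (H.dv i) fun _ _ _ _ => by simp
    obtain ⟨j, rfl, -⟩ := ex_over hA H h (RingHom.id K) fun _ => rfl
    exact ⟨j, fun e => hi ((ord_up hA H j fun e => hi (by rw [e, ord_zero])).1 e), rfl⟩
  · obtain ⟨π, h1, h2⟩ := (hA _ _ _ _ (H.dv i)).uni
    refine (H.fin (algebraMap K₀ K π)).subset ?_
    rintro j rfl e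
    rw [(ord_up hA H j h1).1 e] at h2
    exact zero_ne_one h2

theorem rDesc (hA : RDVA.{u}) (hM : RMean.{u}) (hAd : RAdm.{u}) (hV : RVD.{u}) (hB : RBeta.{u})
    (hF : RFinI.{u}) : RDesc.{u} := by
  intro K₀ K _ _ _ _ I J κ _ κ' _ O r O' r' b H lam hl h0
  classical
  obtain ⟨f1, f2⟩ := hF K₀ K I J κ κ' O r O' r' b H
  let Ω := AlgebraicClosure K
  have : Algebra.IsAlgebraic K₀ Ω := Algebra.IsAlgebraic.trans K₀ K Ω
  obtain ⟨M, mM⟩ := hM (Ω ≃ₐ[K₀] Ω)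
  choose V v μ hD using fun i => hV K₀ Ω _ (O i) (r i) (lam i) (H.dv i) (hl i)
  have A := fun j => hA _ _ _ _ (H.dv' j)
  choose π π0 π1 using fun i => (hA _ _ _ _ (H.dv i)).uni
  choose s hs using fun j => ex_lift (H.dv' j) (A j)
  let φ : (Ω ≃ₐ[K₀] Ω) → K →+* Ω := fun σ => (σ : Ω →+* Ω).comp (algebraMap K Ω)
  have hφ : ∀ σ f, φ σ (algebraMap K₀ K f) = algebraMap K₀ Ω f := fun σ f => by
    rw [RingHom.comp_apply, ← IsScalarTower.algebraMap_apply]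
    exact σ.commutes f
  let P : J → (Ω ≃ₐ[K₀] Ω) → Prop := fun j σ => ∀ x, x ∈ O' j ↔ φ σ x ∈ V (b j)
  have hP : ∀ i σ, ∃ j, b j = i ∧ P j σ := fun i σ => by
    obtain ⟨j, rfl, h⟩ := ex_over hA H (hD i) (φ σ) (hφ σ)
    exact ⟨j, rfl, h⟩
  have hx : ∀ j j' : J, ∃ x : K, (x ∈ O' j ↔ x ∈ O' j') → j = j' := fun j j' => by
    by_contra h
    push Not at h
    exact (h 0).2 (H.inj _ _ (Subring.ext fun x => (h x).1))
  choose x hx using hx
  have ad : ∀ (j : J) (f g : K) (F : Ω → Ω → ℚ),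
      Adm fun σ => if P j σ then F (φ σ f) (φ σ g) else 0 := fun j f g F => by
    have key : ∀ σ τ : Ω ≃ₐ[K₀] Ω, (∀ j', b j' = b j → φ σ (x j j') = φ τ (x j j')) → P j σ →
        P j τ := fun σ τ h h1 => by
      obtain ⟨j', h2, h3⟩ := hP (b j) τ
      rwa [hx j j' (by rw [h1, h3, h j' h2, h2])]
    refine hAd K₀ Ω (algebraMap K Ω '' (x j '' {j' | b j' = b j} ∪ {f, g})) _
      ((((f2 _).image _).union (Set.toFinite _)).image _) fun σ τ h => ?_
    have h1 : ∀ j', b j' = b j → φ σ (x j j') = φ τ (x j j') := fun j' h' =>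
      h _ ⟨_, Or.inl ⟨j', h', rfl⟩, rfl⟩
    have h2 : φ σ f = φ τ f := h _ ⟨_, Or.inr (by simp), rfl⟩
    have h3 : φ σ g = φ τ g := h _ ⟨_, Or.inr (by simp), rfl⟩
    rw [h2, h3]
    exact if_congr ⟨key σ τ h1, key τ σ fun j' h' => (h1 j' h').symm⟩ rfl rfl
  have fib : ∀ (i : I) (f g : K) (F : Ω → Ω → ℚ),
      ∑ᶠ (j) (_ : b j = i), M (fun σ => if P j σ then F (φ σ f) (φ σ g) else 0) =
        M fun σ => F (φ σ f) (φ σ g) := fun i f g F => by
    rw [finsum_cond_eq_sum_of_cond_iff (t := (f2 i).toFinset) _ (by simp),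
      ← mM.sum _ _ _ fun j _ => ad j f g F]
    congr 1
    funext σ
    obtain ⟨j, h1, h2⟩ := hP i σ
    rw [Finset.sum_eq_single_of_mem j (by simpa using h1), if_pos h2]
    intro j' h3 h4
    have h5 : b j' = b j := by simpa [h1] using h3
    exact if_neg fun h6 => h4 (hx _ _ (by rw [h6, h2, h5]))
  let e : J → ℚ := fun j => ordR (O' j) (algebraMap K₀ K (π (b j)))
  have e0 : ∀ j, e j ≠ 0 := fun j h => by
    have := (ord_up hA H j (π0 _)).1 (Int.cast_eq_zero.1 h)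
    rw [π1] at this
    exact one_ne_zero this
  let lam' : ∀ j, κ' j → ℚ := fun j c =>
    (e j)⁻¹ * M fun σ => if P j σ then μ (b j) (φ σ (s j c)) else 0
  have key : ∀ (j : J) (f : K), f ≠ 0 → ordR (O' j) f = 0 →
      e j * lam' j (resR (O' j) (r' j) f) = M fun σ => if P j σ then μ (b j) (φ σ f) else 0 := by
    intro j f h1 h2
    rw [mul_inv_cancel_left₀ (e0 j)]
    congr 1
    funext σ
    obtain ⟨h3, h4, h5⟩ := hs j _ (res_ne (H.dv' j) (A j) h1 h2)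
    exact if_ctx_congr Iff.rfl
      (fun h => mu_eq (H.dv' j) (A j) (hD _).mmul (hD _).one h h3 h1 h4 h2 h5) fun _ => rfl
  have add : ∀ j, Addv (lam' j) := fun j c c' hc hc' => by
    obtain ⟨h1, h2, h3⟩ := hs j c hc
    obtain ⟨h4, h5, h6⟩ := hs j c' hc'
    have h7 := key j _ (mul_ne_zero h1 h4) (by rw [(A j).mul _ _ h1 h4, h2, h5, add_zero])
    rw [(A j).rmul _ _ ((unit_iff (A j) h1).1 h2).1 ((unit_iff (A j) h4).1 h5).1, h3, h6] at h7
    refine mul_left_cancel₀ (e0 j) ?_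
    rw [h7, mul_add, mul_inv_cancel_left₀ (e0 j), mul_inv_cancel_left₀ (e0 j),
      ← mM.add _ _ (ad j _ 0 fun a _ => μ (b j) a) (ad j _ 0 fun a _ => μ (b j) a)]
    congr 1
    funext σ
    split_ifs
    · rw [map_mul, (hD _).mmul _ _ ((map_ne_zero _).2 h1) ((map_ne_zero _).2 h4)]
    · simp
  refine ⟨lam', add, fun f g hf hg => ?_, fun i a p ha oa op => ?_⟩
  · have h1 : ∀ j, lam' j (tameR (O' j) (r' j) f g) =
        M fun σ => if P j σ then tt (v (b j)) (μ (b j)) (φ σ f) (φ σ g) else 0 := fun j => by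
      refine mul_left_cancel₀ (e0 j) ?_
      rw [tameR, key j _ ((A j).tE f g hf hg).1 ((A j).tE f g hf hg).2,
        ← mM.smul _ _ (ad j f g _)]
      congr 1
      funext σ
      split_ifs with h
      · have h2 : v (b j) (φ σ (algebraMap K₀ K (π (b j)))) = 1 := by
          rw [hφ, (hD _).res _ (π0 _), π1, Int.cast_one]
        have h3 := fun (f : K) (hf : f ≠ 0) =>
          v_eq (A j) (hD _).vmul (hD _).mem h ((map_ne_zero _).2 (π0 _)) h2 hf
        rw [mu_tame (hD _).mmul hf hg, h3 f hf, h3 g hg, tt]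
        ring
      · simp
    rw [fibre b _ (((H.fin f).union (H.fin g)).subset fun j hj => ?_),
      ← hB K₀ Ω I κ O r lam V v μ M mM H.dv hD f1 h0 _ _ ((map_ne_zero (algebraMap K Ω)).2 hf)
        ((map_ne_zero (algebraMap K Ω)).2 hg)]
    · refine finsum_congr fun i => Eq.trans ?_ (fib i f g (tt (v i) (μ i)))
      exact finsum_congr fun j => finsum_congr fun h => by rw [h1, h]
    · by_contra h
      simp only [Set.mem_union, Set.mem_ofPred_eq, not_or, not_not] at h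
      exact hj (by rw [(A j).one f g h.1 h.2, a_one (add j)])
  · have p0 : p ≠ 0 := fun h => by
      rw [h, ord_zero] at op
      exact zero_ne_one op
    obtain ⟨a', h1, h2, h3⟩ := (hA _ _ _ _ (H.dv i)).unit a ha oa
    rw [h3, ← (hD i).lam a' h1, h2, ← mM.const (μ i _)]
    refine Eq.trans ?_ ((fib i (algebraMap K₀ K a) 0 fun a _ => μ i a).trans (by simp only [hφ]))
    refine finsum_congr fun j => finsum_congr fun h => ?_
    subst h
    have h4 := (ord_up hA H j (mul_ne_zero p0 (inv_ne_zero (π0 (b j))))).2 (by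
      rw [(hA _ _ _ _ (H.dv _)).mul _ _ p0 (inv_ne_zero (π0 _)),
        ord_inv (hA _ _ _ _ (H.dv _)) (π0 _), op, π1, add_neg_cancel])
    have h5 := (map_ne_zero (algebraMap K₀ K)).2 (π0 (b j))
    rw [map_mul, map_inv₀, (A j).mul _ _ ((map_ne_zero _).2 p0) (inv_ne_zero h5), ord_inv (A j) h5,
      add_neg_eq_zero] at h4
    rw [h4]
    exact key j _ ((map_ne_zero _).2 ha) ((ord_up hA H j ha).2 oa)

end Pool.Agent.MP_f3836a_nt.PK
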