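import Pool.Agent.MP_f3836a_nt.PK.SpecE

set_option autoImplicit false

/-! An invariant mean on functions invariant under a subgroup of finite index. -/

namespace Pool.Agent.MP_f3836a_nt.PK

universe u

namespace EMean

variable {G : Type u} [Group G] {H H' : Subgroup G} {F F' : G → ℚ}

/-- right invariance -/
def Inv (H : Subgroup G) (F : G → ℚ) : Prop := ∀ g, ∀ h ∈ H, F (g * h) = F g

/-- the average over the cosets -/
noncomputable def av (H : Subgroup G) (F : G → ℚ) : ℚ := (∑ᶠ q : G ⧸ H, F q.out) / H.index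

theorem Inv.eq (h : Inv H F) {a b : G} (e : (a : G ⧸ H) = b) : F a = F b := by
  rw [← h a _ (QuotientGroup.eq.1 e), mul_inv_cancel_left]

theorem Inv.mono (h : Inv H F) (l : H' ≤ H) : Inv H' F := fun g x hx => h g x (l hx)

theorem av_le [H'.FiniteIndex] (l : H' ≤ H) (h : Inv H F) : av H' F = av H F := by
  have := Subgroup.finiteIndex_of_le l
  have := Fintype.ofFinite (G ⧸ H)
  have := Fintype.ofFinite (G ⧸ H')
  have := Fintype.ofFinite (H ⧸ H'.subgroupOf H)
  have e : ∀ q : G ⧸ H', F q.out = F (Subgroup.quotientEquivProdOfLE l q).1.out := fun q => by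
    refine h.eq ?_
    rw [QuotientGroup.out_eq']
    conv_rhs => rw [← QuotientGroup.out_eq' q]
    rfl
  have n : (H'.relIndex H : ℚ) ≠ 0 := Nat.cast_ne_zero.2 Subgroup.FiniteIndex.index_ne_zero
  simp only [av, finsum_eq_sum_of_fintype, e]
  rw [(Subgroup.quotientEquivProdOfLE l).sum_comp fun x => F x.1.out, Fintype.sum_prod_type,
    ← Subgroup.relIndex_mul_index l, Nat.cast_mul]
  simp only [Finset.sum_const, Finset.card_univ, nsmul_eq_mul, ← Finset.mul_sum]
  rw [← Nat.card_eq_fintype_card]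
  exact mul_div_mul_left _ _ n

theorem av_eq [H.FiniteIndex] [H'.FiniteIndex] (h : Inv H F) (h' : Inv H' F) :
    av H F = av H' F :=
  (av_le inf_le_left h).symm.trans (av_le inf_le_right h')

open Classical in
/-- the mean -/
noncomputable def mean (F : G → ℚ) : ℚ := if h : Adm F then av h.choose F else 0

theorem mean_eq (H : Subgroup G) [H.FiniteIndex] (h : Inv H F) : mean F = av H F := by
  have a : Adm F := ⟨H, inferInstance, h⟩
  have := a.choose_spec.1
  rw [mean, dif_pos a]
  exact av_eq a.choose_spec.2 h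

theorem adm_add (h : Adm F) (h' : Adm F') : Adm fun g => F g + F' g := by
  obtain ⟨H, _, h⟩ := h
  obtain ⟨H', _, h'⟩ := h'
  exact ⟨H ⊓ H', inferInstance, fun g x hx => congrArg₂ (· + ·) (h g x hx.1) (h' g x hx.2)⟩

theorem add (h : Adm F) (h' : Adm F') : mean (fun g => F g + F' g) = mean F + mean F' := by
  obtain ⟨H, _, h⟩ := h
  obtain ⟨H', _, h'⟩ := h'
  have := Fintype.ofFinite (G ⧸ (H ⊓ H'))
  rw [mean_eq (H ⊓ H') (Inv.mono h inf_le_left), mean_eq (H ⊓ H') (Inv.mono h' inf_le_right),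
    mean_eq (F := fun g => F g + F' g) (H ⊓ H') fun g x hx =>
      congrArg₂ (· + ·) (h g x hx.1) (h' g x hx.2)]
  simp only [av, finsum_eq_sum_of_fintype, Finset.sum_add_distrib, add_div]

theorem smul (c : ℚ) (h : Adm F) : mean (fun g => c * F g) = c * mean F := by
  obtain ⟨H, _, h⟩ := h
  have := Fintype.ofFinite (G ⧸ H)
  rw [mean_eq H h, mean_eq (F := fun g => c * F g) H fun g x hx => congrArg (c * ·) (h g x hx)]
  simp only [av, finsum_eq_sum_of_fintype, ← Finset.mul_sum, mul_div_assoc]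

theorem const (c : ℚ) : mean (fun _ : G => c) = c := by
  have := Fintype.ofFinite (G ⧸ (⊤ : Subgroup G))
  rw [mean_eq ⊤ fun _ _ _ => rfl]
  simp only [av, finsum_eq_sum_of_fintype, Finset.sum_const, Finset.card_univ, nsmul_eq_mul]
  rw [← Nat.card_eq_fintype_card]
  exact mul_div_cancel_left₀ _ (Nat.cast_ne_zero.2 Subgroup.FiniteIndex.index_ne_zero)

theorem right (a : G) (h : Adm F) : mean (fun g => F (g * a)) = mean F := by
  obtain ⟨H, _, h⟩ := h
  have i : Inv H.normalCore F := Inv.mono h H.normalCore_le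
  have := Fintype.ofFinite (G ⧸ H.normalCore)
  rw [mean_eq _ i, mean_eq (F := fun g => F (g * a)) H.normalCore fun g x hx => i.eq (by
    simp only [QuotientGroup.mk_mul, (QuotientGroup.eq_one_iff x).2 hx, mul_one])]
  simp only [av, finsum_eq_sum_of_fintype]
  congr 1
  refine Fintype.sum_equiv (Equiv.mulRight (a : G ⧸ H.normalCore)) _ _ fun q => i.eq ?_
  simp only [QuotientGroup.mk_mul, QuotientGroup.out_eq', Equiv.coe_mulRight]

theorem sum {ι : Type u} (s : Finset ι) (F : ι → G → ℚ) (h : ∀ i ∈ s, Adm (F i)) :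
    Adm (fun g => ∑ i ∈ s, F i g) ∧ mean (fun g => ∑ i ∈ s, F i g) = ∑ i ∈ s, mean (F i) := by
  classical
  induction s using Finset.induction_on with
  | empty => exact ⟨⟨⊤, inferInstance, fun _ _ _ => rfl⟩, const 0⟩
  | insert i s hi ih =>
    have h1 := h i (Finset.mem_insert_self _ _)
    obtain ⟨h2, h3⟩ := ih fun j hj => h j (Finset.mem_insert_of_mem hj)
    simp only [Finset.sum_insert hi]
    exact ⟨adm_add h1 h2, by rw [add h1 h2, h3]⟩

end EMean

open EMean in
theorem rMean : RMean.{u} := fun _ _ =>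
  ⟨mean, fun _ _ => add, fun c _ => smul c, const, fun _ a => right a,
    fun _ s F h => (sum s F h).2⟩

theorem rAdm : RAdm.{u} := by
  intro K Ω _ _ _ _ s F hs h
  have := hs.to_subtype
  refine ⟨⨅ a : s, MulAction.stabilizer (Ω ≃ₐ[K] Ω) (a : Ω),
    Subgroup.finiteIndex_iInf fun a => ⟨?_⟩, fun g x hx => h _ _ fun a ha => ?_⟩
  · rw [MulAction.index_stabilizer]
    refine Set.ncard_ne_zero_of_mem (MulAction.mem_orbit_self _)
      (((minpoly K (a : Ω)).rootSet_finite Ω).subset ?_)
    rintro _ ⟨σ, rfl⟩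
    refine (Polynomial.mem_rootSet_of_ne
      (minpoly.ne_zero (Algebra.IsAlgebraic.isAlgebraic (a : Ω)).isIntegral)).2 ?_
    change Polynomial.aeval (σ a) _ = 0
    rw [Polynomial.aeval_algHom_apply, minpoly.aeval, map_zero]
  · exact congrArg g (Subgroup.mem_iInf.1 hx ⟨a, ha⟩)

end Pool.Agent.MP_f3836a_nt.PK
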