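import Pool.Agent.MP_f3836a_nt.PK.SpecE

set_option autoImplicit false

/-! Extension of a discrete valuation and of a functional to an algebraic extension. -/

namespace Pool.Agent.MP_f3836a_nt.PK

universe u

namespace EVD

theorem extd (hE : RExt.{u}) {A Ω : Type u} [CommGroup A] [Field Ω] (f : A →* Ωˣ) (g : A → ℚ)
    (hg : ∀ a b, g (a * b) = g a + g b) (hk : ∀ a, f a = 1 → g a = 0) :
    ∃ h : Ω → ℚ, Addv h ∧ ∀ a, h (f a) = g a := by
  classical
  obtain ⟨H, hH⟩ := hE (Additive A) (Additive Ωˣ) f.toAdditive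
    (AddMonoidHom.mk' (fun a => g a.toMul) fun a b => hg _ _) fun a ha => hk _ ha
  refine ⟨fun x => if hx : x = 0 then 0 else H (Additive.ofMul (Units.mk0 x hx)),
    fun x y hx hy => ?_, fun a => ?_⟩
  · simp only [dif_neg hx, dif_neg hy, dif_neg (mul_ne_zero hx hy), Units.mk0_mul, ofMul_mul,
      map_add]
  · simp only [dif_neg (f a).ne_zero, Units.mk0_val]
    exact hH (Additive.ofMul a)

theorem addv_one {κ : Type u} [Field κ] {lam : κ → ℚ} (h : Addv lam) : lam 1 = 0 := by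
  have := h 1 1 one_ne_zero one_ne_zero
  rw [one_mul] at this
  linarith

theorem addv_pow {κ : Type u} [Field κ] {lam : κ → ℚ} (h : Addv lam) {f : κ} (hf : f ≠ 0) (n : ℕ) :
    lam (f ^ n) = n * lam f := by
  induction n with
  | zero => simpa using addv_one h
  | succ n ih =>
    rw [pow_succ, h _ _ (pow_ne_zero _ hf) hf, ih]
    push_cast
    ring

theorem alg {K Ω Γ : Type*} [Field K] [Field Ω] [Algebra K Ω] [LinearOrderedCommGroupWithZero Γ]
    (w : Valuation Ω Γ) {f : Ω} (hf : f ≠ 0) (h : IsAlgebraic K f) :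
    ∃ (m : ℕ) (a : K), 0 < m ∧ a ≠ 0 ∧ w (f ^ m) = w (algebraMap K Ω a) := by
  obtain ⟨P, hP, h0⟩ := h
  have key : ∀ i ∈ P.support, ∀ j ∈ P.support, i < j →
      w (algebraMap K Ω (P.coeff i) * f ^ i) = w (algebraMap K Ω (P.coeff j) * f ^ j) →
      ∃ (m : ℕ) (a : K), 0 < m ∧ a ≠ 0 ∧ w (f ^ m) = w (algebraMap K Ω a) := by
    intro i hi j hj hij e
    rw [Polynomial.mem_support_iff] at hi hj
    obtain ⟨m, rfl⟩ := Nat.exists_eq_add_of_lt hij
    refine ⟨m + 1, P.coeff i / P.coeff (i + m + 1), m.succ_pos, div_ne_zero hi hj, ?_⟩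
    rw [map_div₀, map_div₀, eq_div_iff ((map_ne_zero w).2 ((map_ne_zero _).2 hj))]
    refine mul_right_cancel₀ ((map_ne_zero w).2 (pow_ne_zero i hf)) ?_
    rw [← map_mul, ← map_mul, ← map_mul, e]
    congr 1
    ring
  by_contra hn
  obtain ⟨j, hj, hm⟩ := P.support.exists_max_image
    (fun i => w (algebraMap K Ω (P.coeff i) * f ^ i)) (Polynomial.support_nonempty.2 hP)
  have h1 := w.map_sum_eq_of_lt (f := fun i => algebraMap K Ω (P.coeff i) * f ^ i) hj fun i hi => by
    rw [Finset.mem_sdiff, Finset.mem_singleton] at hi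
    refine lt_of_le_of_ne (hm i hi.1) fun e => hn ?_
    rcases lt_or_gt_of_ne hi.2 with h | h
    · exact key i hi.1 j hj h e
    · exact key j hj i hi.1 h e.symm
  rw [Polynomial.aeval_def, Polynomial.eval₂_eq_sum, Polynomial.sum_def] at h0
  rw [h0, map_zero, eq_comm, map_eq_zero] at h1
  exact mul_ne_zero ((map_ne_zero _).2 (Polynomial.mem_support_iff.1 hj)) (pow_ne_zero _ hf) h1

end EVD

open EVD

theorem rVD (hA : RDVA.{u}) (hE : RExt.{u}) : RVD.{u} := by
  intro K Ω κ _ _ _ _ _ O r lam hD hl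
  have A := hA K κ O r hD
  have := hD.dvr
  obtain ⟨V, hV, hloc⟩ := IsLocalRing.exists_factor_valuationRing
    ((algebraMap K Ω).comp O.subtype)
  have h1 : ∀ a : O, IsUnit a ↔ V.valuation (algebraMap K Ω a) = 1 := fun a =>
    (isUnit_map_iff (((algebraMap K Ω).comp O.subtype).codRestrict V.toSubring hV) a).symm.trans
      (V.valuation_eq_one_iff ⟨_, hV a⟩)
  have h2 : ∀ a : K, a ≠ 0 → (V.valuation (algebraMap K Ω a) ≤ 1 ↔ 0 ≤ ordR O a) := by
    intro a ha
    refine ⟨fun h => not_lt.1 fun h' => ?_, fun h => (V.valuation_le_one_iff _).2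
      (hV ⟨a, (A.mem a ha).2 h⟩)⟩
    have e := A.zpow a (-1) ha
    rw [zpow_neg_one] at e
    have h3 : a⁻¹ ∈ O := (A.mem _ (inv_ne_zero ha)).2 (by omega)
    have h4 : V.valuation (algebraMap K Ω a⁻¹) ≤ 1 := (V.valuation_le_one_iff _).2 (hV ⟨_, h3⟩)
    have h5 := (A.unit' _ ((h1 ⟨_, h3⟩).2 (le_antisymm h4 (by
      rw [map_inv₀, map_inv₀]
      exact (one_le_inv₀ (zero_lt_iff.2 ((map_ne_zero _).2 ((map_ne_zero _).2 ha)))).2 h)))).2
    change ordR O a⁻¹ = 0 at h5
    omega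
  obtain ⟨v, hv, hv'⟩ := extd hE (A := Kˣ × V.unitGroup)
    ((Units.map (algebraMap K Ω : K →* Ω)).coprod V.unitGroup.subtype) (fun a => ordR O (a.1 : K))
    (fun a b => by exact_mod_cast A.mul _ _ a.1.ne_zero b.1.ne_zero) fun a ha => by
      have e := congrArg (fun x : Ωˣ => V.valuation x) ha
      have e' := (V.mem_unitGroup_iff _).1 a.2.2
      simp only [MonoidHom.coprod_apply, Units.val_mul, Units.coe_map, MonoidHom.coe_coe, map_mul,
        Subgroup.coe_subtype, e', mul_one, Units.val_one, map_one] at e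
      have e1 := (h2 _ a.1.ne_zero).1 e.le
      have e2 := (h2 _ (inv_ne_zero a.1.ne_zero)).1 (by rw [map_inv₀, map_inv₀, e, inv_one])
      have e3 := A.zpow _ (-1) a.1.ne_zero
      rw [zpow_neg_one] at e3
      exact_mod_cast (by omega : ordR O (a.1 : K) = 0)
  obtain ⟨μ, hμ, hμ'⟩ := extd hE (A := Oˣ × V.principalUnitGroup)
    ((Units.map ((algebraMap K Ω).comp O.subtype : O →* Ω)).coprod V.principalUnitGroup.subtype)
    (fun a => lam (r a.1)) (fun a b => by
      rw [Prod.fst_mul, Units.val_mul, map_mul]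
      exact hl _ _ (a.1.isUnit.map r).ne_zero (b.1.isUnit.map r).ne_zero) fun a ha => by
      have e := (V.mem_principalUnitGroup_iff _).1 (V.principalUnitGroup.inv_mem a.2.2)
      rw [show (a.2 : Ωˣ)⁻¹ = _ from (eq_inv_of_mul_eq_one_left ha).symm] at e
      have e1 : r (a.1 - 1) = 0 := (hD.ker _).2 fun h => e.ne (by simpa using (h1 _).1 h)
      rw [map_sub, map_one, sub_eq_zero] at e1
      exact e1.symm ▸ addv_one hl
  have hres : ∀ a : K, a ≠ 0 → v (algebraMap K Ω a) = ordR O a := fun a ha => by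
    simpa using hv' (Units.mk0 a ha, 1)
  refine ⟨V, v, μ, hv, hμ, fun f hf => ?_, hres, fun f hf => ?_, fun a ha => ?_⟩
  · obtain ⟨m, a, hm, ha, e⟩ := alg V.valuation hf (Algebra.IsAlgebraic.isAlgebraic (R := K) f)
    have ha' : algebraMap K Ω a ≠ 0 := (map_ne_zero _).2 ha
    have e1 := hv' (Units.mk0 a ha, ⟨Units.mk0 _ (div_ne_zero (pow_ne_zero m hf) ha'),
      (V.mem_unitGroup_iff _).2 (by
        rw [Units.val_mk0, map_div₀, e, div_self ((map_ne_zero _).2 ha')])⟩)
    simp only [MonoidHom.coprod_apply, Units.val_mul, Units.coe_map, MonoidHom.coe_coe,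
      Subgroup.coe_subtype, Units.val_mk0, mul_div_cancel₀ _ ha', addv_pow hv hf] at e1
    rw [← V.valuation_le_one_iff, ← pow_le_one_iff_of_nonneg zero_le hm.ne', ← map_pow, e, h2 a ha,
      ← Int.cast_nonneg_iff (R := ℚ), ← e1, mul_nonneg_iff_of_pos_left (Nat.cast_pos.2 hm)]
  · rw [V.mem_nonunits_iff] at hf
    have h0 : f ≠ 0 := by
      rintro rfl
      simp at hf
    simpa [addv_one hl] using hμ' (1, ⟨Units.mk0 f h0, (V.mem_principalUnitGroup_iff _).2 hf⟩)
  · simpa using hμ' (ha.unit, 1)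

end Pool.Agent.MP_f3836a_nt.PK
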