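import Pool.Agent.MP_f3836a_nt.PK.SpecG

set_option autoImplicit false

/-! Row GVal: existence of valuation rings, and restriction of discrete valuations. -/

namespace Pool.Agent.MP_f3836a_nt.PK

open IsLocalRing

universe u

namespace GVal

theorem dom {A L : Type u} [CommRing A] [Field L] (e : A →+* L) (I : Ideal A)
    (h : ∀ a ∈ I, e a ≠ 1) :
    ∃ W : ValuationSubring L, ∀ a, e a ∈ W ∧ (a ∈ I → e a ∈ W.nonunits) := by
  obtain ⟨W, h1, h2⟩ := Ideal.image_subset_nonunits_valuationSubring (I.map e.rangeRestrict)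
    (fun ht => by
      obtain ⟨a, ha, h1⟩ := (Ideal.mem_map_iff_of_surjective _ e.rangeRestrict_surjective).1
        ((Ideal.eq_top_iff_one _).1 ht)
      exact h a ha (congrArg Subtype.val h1))
  exact ⟨W, fun a => ⟨h1 ⟨a, rfl⟩, fun ha => h2 ⟨_, Ideal.mem_map_of_mem _ ha, rfl⟩⟩⟩

theorem map_ne {A B : Type u} [CommRing A] [IsLocalRing A] [Field B] (e : A →+* B) {a : A}
    (ha : a ∈ maximalIdeal A) : e a ≠ 1 := fun h =>
  ((isUnit_one_sub_self_of_mem_nonunits a ha).map e).ne_zero (by rw [map_sub, map_one, h, sub_self])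

theorem domL {A L : Type u} [CommRing A] [IsLocalRing A] [Field L] (e : A →+* L) :
    ∃ W : ValuationSubring L, PT.Dom e W := dom e _ fun _ ha => map_ne e ha

theorem val {L κ : Type u} [Field L] [Field κ] {O : Subring L} {r : O →+* κ} (h : DV O r)
    (x : L) : x ∈ O ∨ x⁻¹ ∈ O := by
  have := h.dvr
  obtain ⟨a, b, hb, e⟩ := h.frac x
  rcases ValuationRing.dvd_total a b with ⟨c, rfl⟩ | ⟨c, rfl⟩
  · have ha : (a : L) ≠ 0 := fun h0 => hb (by simp [h0])
    have : x * c = 1 := mul_left_cancel₀ ha (by rw [mul_one, ← e]; push_cast at e ⊢; grind)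
    exact Or.inr (inv_eq_of_mul_eq_one_right this ▸ c.2)
  · have : x = c := mul_right_cancel₀ hb (by rw [e]; push_cast; ring)
    exact Or.inl (this ▸ c.2)

end GVal

theorem rChain : RChain.{u} := by
  intro A B L _ _ _ _ _ e e' h
  obtain ⟨W', hW'⟩ := GVal.domL e'
  have hA : ∀ a, e a ∈ W' := fun a => by
    obtain ⟨b, hb⟩ := h ⟨a, rfl⟩
    exact hb ▸ (hW' b).1
  let f : A →+* ResidueField W' := (residue W').comp (e.codRestrict W' hA)
  let R := (f.comp (RingHom.fst A W')).eqLocus ((residue W').comp (RingHom.snd A W'))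
  obtain ⟨W, hW⟩ := GVal.dom (W'.subtype.comp ((RingHom.snd A W').comp R.subtype))
    ((maximalIdeal A).comap ((RingHom.fst A W').comp R.subtype)) (fun x hx h1 => by
      have h2 : x.1.2 = 1 := Subtype.ext h1
      have h3 : f x.1.1 = residue W' x.1.2 := x.2
      exact GVal.map_ne f hx (by rw [h2, map_one] at h3; exact h3))
  refine ⟨W, W', ValuationSubring.nonunits_le_nonunits.1 fun w hw => ?_,
    fun a => hW ⟨(a, ⟨e a, hA a⟩), rfl⟩, hW'⟩
  obtain ⟨h1, h2⟩ := ValuationSubring.mem_nonunits_iff_exists_mem_maximalIdeal.1 hw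
  exact (hW ⟨(0, ⟨w, h1⟩), (map_zero f).trans ((residue_eq_zero_iff _).2 h2).symm⟩).2
    (zero_mem (maximalIdeal A))

theorem rExtV : RExtV.{u} := by
  intro K L _ _ ι W
  obtain ⟨W', h⟩ := GVal.domL (ι.comp W.subtype)
  refine ⟨W', fun f => ⟨fun hf => (h ⟨f, hf⟩).1, fun hf => by_contra fun hn => ?_⟩⟩
  obtain ⟨h1, h2⟩ := ValuationSubring.mem_nonunits_iff_exists_mem_maximalIdeal.1
    ((ValuationSubring.inv_mem_nonunits_iff W).2 (Or.inr hn))
  have h3 : ι f⁻¹ ∈ W'.nonunits := (h ⟨f⁻¹, h1⟩).2 h2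
  rw [map_inv₀, ValuationSubring.inv_mem_nonunits_iff, map_eq_zero] at h3
  exact h3.elim (fun h0 => hn (h0 ▸ zero_mem W)) fun h4 => h4 hf

theorem rDVsub : RDVsub.{u} := by
  intro K L κ _ _ _ _ _ O r W h hW
  have := h.dvr
  let j : W →+* O := ((algebraMap K L).comp W.subtype).codRestrict O fun a => (hW a).1 a.2
  have hj : ∀ x y : W, x ≠ 0 → j x ∣ j y → x ∣ y := by
    rintro x y hx ⟨c, hc⟩
    have hx' : (x : K) ≠ 0 := fun h0 => hx (Subtype.ext h0)
    have h1 : algebraMap K L y = algebraMap K L x * c := congrArg Subtype.val hc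
    have h2 : (y : K) / x ∈ W := by
      rw [hW, map_div₀, h1, mul_div_cancel_left₀ _ ((map_ne_zero _).2 hx')]
      exact c.2
    exact ⟨⟨_, h2⟩, Subtype.ext (mul_div_cancel₀ _ hx').symm⟩
  have pid : IsPrincipalIdealRing W := ⟨fun I => by
    by_cases h0 : I = ⊥
    · exact h0 ▸ bot_isPrincipal
    obtain ⟨x₀, h1, h2⟩ := (Submodule.ne_bot_iff I).1 h0
    obtain ⟨x, ⟨hx, hx0⟩, hm⟩ := (InvImage.wf (fun x => IsDiscreteValuationRing.addVal O (j x))
      wellFounded_lt).has_min {x | x ∈ I ∧ x ≠ 0} ⟨x₀, h1, h2⟩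
    refine ⟨x, le_antisymm (fun y hy => Ideal.mem_span_singleton.2 ?_)
      ((Ideal.span_singleton_le_iff_mem _).2 hx)⟩
    by_cases hy0 : y = 0
    · exact hy0 ▸ dvd_zero x
    · exact hj x y hx0 (IsDiscreteValuationRing.addVal_le_iff_dvd.1 (not_lt.1 (hm y ⟨hy, hy0⟩)))⟩
  have nf : maximalIdeal W ≠ ⊥ := fun h0 => by
    obtain ⟨π, hπ⟩ := IsDiscreteValuationRing.exists_irreducible O
    have h1 := EOv.val_top (K₀ := K) (ValuationSubring.ofSubring O (GVal.val h)) (fun f => by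
      refine (hW f).1 (by_contra fun hn => ?_)
      obtain ⟨h1, h2⟩ := ValuationSubring.mem_nonunits_iff_exists_mem_maximalIdeal.1
        ((ValuationSubring.inv_mem_nonunits_iff W).2 (Or.inr hn))
      rw [h0, Ideal.mem_bot, Subtype.ext_iff] at h2
      exact hn (inv_eq_zero.1 h2 ▸ zero_mem W)) (π : L)⁻¹
    exact hπ.not_isUnit (IsUnit.of_mul_eq_one ⟨_, h1⟩
      (Subtype.ext (mul_inv_cancel₀ fun h2 => hπ.ne_zero (Subtype.ext h2))))
  have dvr : IsDiscreteValuationRing W := { not_a_field' := nf }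
  refine ⟨dvr, fun f => ?_, residue_surjective, fun a => residue_eq_zero_iff (R := W) a⟩
  rcases W.mem_or_inv_mem f with hf | hf
  · exact ⟨⟨f, hf⟩, 1, one_ne_zero, mul_one f⟩
  · by_cases h0 : f = 0
    · exact ⟨0, 1, one_ne_zero, by simp [h0]⟩
    · exact ⟨1, ⟨_, hf⟩, inv_ne_zero h0, mul_inv_cancel₀ h0⟩

end Pool.Agent.MP_f3836a_nt.PK
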