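import Pool.Agent.MP_f3836a_nt.PK.SpecE
import Pool.Agent.MP_f3836a_nt.PK.Ord

set_option autoImplicit false

/-! Elementary facts on discrete valuation rings inside a field. -/

namespace Pool.Agent.MP_f3836a_nt.PK

universe u

namespace EDVA

variable {L κ : Type u} [Field L] [Field κ] {O : Subring L} {r : O →+* κ}

theorem res_mem {f : L} (hf : f ∈ O) : resR O r f = r ⟨f, hf⟩ := dif_pos hf

theorem res_one : resR O r 1 = 1 := (res_mem O.one_mem).trans (map_one r)

theorem rmul {f g : L} (hf : f ∈ O) (hg : g ∈ O) : resR O r (f * g) = resR O r f * resR O r g := by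
  rw [res_mem hf, res_mem hg, res_mem (O.mul_mem hf hg), ← map_mul]
  rfl

variable (h : DV O r)

include h

theorem mul {f g : L} (hf : f ≠ 0) (hg : g ≠ 0) : ordR O (f * g) = ordR O f + ordR O g :=
  have := h.dvr
  (rOrdD L O h.frac).1 f g hf hg

theorem mem {f : L} (hf : f ≠ 0) : f ∈ O ↔ 0 ≤ ordR O f :=
  have := h.dvr
  (rOrdD L O h.frac).2.1 f hf

theorem nu (a : O) (ha : (a : L) ≠ 0) : ¬IsUnit a ↔ 0 < ordR O (a : L) := by
  have := h.dvr
  rw [← (rOrdD L O h.frac).2.2.1 a fun e => ha (by rw [e]; rfl), IsLocalRing.mem_maximalIdeal,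
    mem_nonunits_iff]

theorem uni : ∃ π : L, π ≠ 0 ∧ ordR O π = 1 := by
  have := h.dvr
  obtain ⟨a, ha⟩ := IsDiscreteValuationRing.exists_irreducible O
  exact ⟨a, fun e => ha.ne_zero (Subtype.ext e), (rOrdD L O h.frac).2.2.2.2.1 a ha⟩

theorem v_one : ordR O (1 : L) = 0 := by
  have := mul h (f := 1) (g := 1) one_ne_zero one_ne_zero
  rw [mul_one] at this
  omega

theorem v_inv {f : L} (hf : f ≠ 0) : ordR O f⁻¹ = -ordR O f := by
  have := mul h hf (inv_ne_zero hf)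
  rw [mul_inv_cancel₀ hf, v_one h] at this
  omega

theorem v_zpow {f : L} (hf : f ≠ 0) (n : ℤ) : ordR O (f ^ n) = n * ordR O f := by
  induction n using Int.induction_on with
  | zero => rw [zpow_zero, v_one h, zero_mul]
  | succ n ih => rw [zpow_add_one₀ hf, mul h (zpow_ne_zero _ hf) hf, ih]; ring
  | pred n ih =>
    rw [zpow_sub_one₀ hf, mul h (zpow_ne_zero _ hf) (inv_ne_zero hf), ih, v_inv h hf]; ring

theorem v_neg_one : ordR O (-1 : L) = 0 := by
  have := mul h (f := -1) (g := -1) (neg_ne_zero.2 one_ne_zero) (neg_ne_zero.2 one_ne_zero)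
  rw [neg_one_mul, neg_neg, v_one h] at this
  omega

theorem unit {f : L} (hf : f ≠ 0) (a : ordR O f = 0) :
    ∃ b : O, IsUnit b ∧ (b : L) = f ∧ resR O r f = r b := by
  have hm := (mem h hf).2 a.ge
  refine ⟨⟨f, hm⟩, ?_, rfl, res_mem hm⟩
  by_contra hu
  exact ((nu h ⟨f, hm⟩ hf).1 hu).ne' a

theorem unit' (a : O) (ha : IsUnit a) : (a : L) ≠ 0 ∧ ordR O (a : L) = 0 := by
  have h0 : (a : L) ≠ 0 := fun e => ha.ne_zero (Subtype.ext e)
  refine ⟨h0, le_antisymm (not_lt.1 fun hp => (nu h a h0).2 hp ha) ((mem h h0).1 a.2)⟩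

theorem res_mul {f g : L} (hf : f ≠ 0) (hg : g ≠ 0) (a : ordR O f = 0) (b : ordR O g = 0) :
    resR O r (f * g) = resR O r f * resR O r g :=
  rmul ((mem h hf).2 a.ge) ((mem h hg).2 b.ge)

theorem res_ne {f : L} (hf : f ≠ 0) (a : ordR O f = 0) : resR O r f ≠ 0 := by
  obtain ⟨b, hb, -, e⟩ := unit h hf a
  rw [e]
  exact fun e' => (h.ker b).1 e' hb

theorem res_zpow {f : L} (hf : f ≠ 0) (a : ordR O f = 0) (n : ℤ) :
    resR O r (f ^ n) = resR O r f ^ n := by
  have h0 : ∀ n : ℤ, ordR O (f ^ n) = 0 := fun n => by rw [v_zpow h hf, a, mul_zero]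
  have h1 := res_ne h hf a
  induction n using Int.induction_on with
  | zero => rw [zpow_zero, zpow_zero, res_one]
  | succ n ih => rw [zpow_add_one₀ hf, res_mul h (zpow_ne_zero _ hf) hf (h0 _) a, ih,
      zpow_add_one₀ h1]
  | pred n ih =>
    rw [zpow_sub_one₀ h1, ← ih, eq_mul_inv_iff_mul_eq₀ h1,
      ← res_mul h (zpow_ne_zero _ hf) hf (h0 _) a, ← zpow_add_one₀ hf, sub_add_cancel]

theorem tt {f g : L} (hf : f ≠ 0) (hg : g ≠ 0) : tameE O f g ≠ 0 ∧ ordR O (tameE O f g) = 0 := by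
  unfold tameE
  have h1 : (-1 : L) ≠ 0 := neg_ne_zero.2 one_ne_zero
  have h2 := mul_ne_zero (zpow_ne_zero (ordR O f * ordR O g) h1) (zpow_ne_zero (ordR O g) hf)
  refine ⟨div_ne_zero h2 (zpow_ne_zero _ hg), ?_⟩
  rw [div_eq_mul_inv, mul h h2 (inv_ne_zero (zpow_ne_zero _ hg)),
    mul h (zpow_ne_zero _ h1) (zpow_ne_zero _ hf), v_inv h (zpow_ne_zero _ hg),
    v_zpow h h1, v_zpow h hf, v_zpow h hg, v_neg_one h]
  ring

theorem swap {f g : L} (hf : f ≠ 0) (hg : g ≠ 0) : tameR O r f g * tameR O r g f = 1 := by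
  rw [tameR, tameR, ← res_mul h (tt h hf hg).1 (tt h hg hf).1 (tt h hf hg).2
    (tt h hg hf).2, ← res_one (r := r), tameE, tameE, mul_comm (ordR O g)]
  congr 1
  have h1 : ((-1 : L) ^ (ordR O f * ordR O g)) * (-1) ^ (ordR O f * ordR O g) = 1 := by
    rw [← mul_zpow, neg_one_mul, neg_neg, one_zpow]
  have h2 := zpow_ne_zero (ordR O g) hf
  have h3 := zpow_ne_zero (ordR O f) hg
  field_simp
  linear_combination h1

theorem max (W : Subring L) (hW : O ≤ W) : W = O ∨ W = ⊤ := by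
  by_cases e : W ≤ O
  · exact Or.inl (le_antisymm e hW)
  refine Or.inr (eq_top_iff.2 fun g _ => ?_)
  obtain ⟨f, hf, hfO⟩ := SetLike.not_le_iff_exists.1 e
  have f0 : f ≠ 0 := fun e => hfO (e ▸ O.zero_mem)
  have f1 : ordR O f < 0 := not_le.1 fun e => hfO ((mem h f0).2 e)
  by_cases g0 : g = 0
  · rw [g0]; exact W.zero_mem
  have h1 : g * (f ^ (ordR O g).natAbs)⁻¹ ∈ O := by
    refine (mem h (mul_ne_zero g0 (inv_ne_zero (pow_ne_zero _ f0)))).2 ?_
    rw [mul h g0 (inv_ne_zero (pow_ne_zero _ f0)), v_inv h (pow_ne_zero _ f0), ← zpow_natCast,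
      v_zpow h f0, Int.natCast_natAbs]
    nlinarith [neg_abs_le (ordR O g), abs_nonneg (ordR O g)]
  have h2 := W.mul_mem (hW h1) (W.pow_mem hf (ordR O g).natAbs)
  rwa [inv_mul_cancel_right₀ (pow_ne_zero _ f0)] at h2

theorem val : ∃ W : ValuationSubring L, W.toSubring = O := by
  refine ⟨⟨O, fun f => ?_⟩, rfl⟩
  by_cases f0 : f = 0
  · exact Or.inl (f0 ▸ O.zero_mem)
  rcases le_total 0 (ordR O f) with e | e
  · exact Or.inl ((mem h f0).2 e)
  · refine Or.inr ((mem h (inv_ne_zero f0)).2 ?_)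
    rw [v_inv h f0]
    omega

end EDVA

open EDVA in
theorem rDVA : RDVA.{u} := fun _ _ _ _ _ _ h =>
  { mul := fun _ _ hf hg => mul h hf hg
    zpow := fun _ n hf => v_zpow h hf n
    mem := fun _ hf => mem h hf
    uni := uni h
    unit := fun _ hf a => unit h hf a
    unit' := unit' h
    rmul := fun _ _ hf hg => rmul hf hg
    rzpow := fun _ n hf a => res_zpow h hf a n
    tE := fun _ _ hf hg => EDVA.tt h hf hg
    ne := fun _ _ hf hg => res_ne h (EDVA.tt h hf hg).1 (EDVA.tt h hf hg).2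
    swap := fun _ _ hf hg => swap h hf hg
    one := fun f g a b => by
      rw [tameR, tameE, a, b, mul_zero, zpow_zero, zpow_zero, zpow_zero, mul_one, div_one, res_one]
    max := EDVA.max h
    val := val h }

theorem rExt : RExt.{u} := by
  intro A B _ _ f g h
  obtain ⟨Ψ, hΨ⟩ := (Module.Baer.of_divisible ℚ).extension_property_addMonoidHom
    (QuotientAddGroup.kerLift f) (QuotientAddGroup.kerLift_injective f)
    (QuotientAddGroup.lift f.ker g fun a ha => h ha)
  exact ⟨Ψ, fun a => DFunLike.congr_fun hΨ (a : A ⧸ f.ker)⟩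

end Pool.Agent.MP_f3836a_nt.PK
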