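import Pool.Agent.MP_f3836a_nt.PK.SpecS

set_option autoImplicit false

/-! Closed subschemes of projective space: primes and fractions. -/

namespace Pool.Agent.MP_f3836a_nt.PK

open MvPolynomial IsLocalRing AlgebraicGeometry CategoryTheory Pool.Agent.MP_f3836a_nt.PS

namespace SPr

section Gen

open HomogeneousLocalization

variable {A σ : Type} [CommRing A] [SetLike σ A] [AddSubgroupClass σ A] (𝒜 : ℕ → σ)
  [GradedRing 𝒜]

open Classical in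
/-- a fraction in the homogeneous localization -/
noncomputable def hf (q : Ideal A) [q.IsPrime] (a b : A) : AtPrime 𝒜 q :=
  if h : ∃ n, a ∈ 𝒜 n ∧ b ∈ 𝒜 n ∧ b ∉ q then
    mk ⟨h.choose, ⟨a, h.choose_spec.1⟩, ⟨b, h.choose_spec.2.1⟩, h.choose_spec.2.2⟩
  else 0

variable {𝒜}

theorem hf_eq {q : Ideal A} [q.IsPrime] {n : ℕ} {a b : A} (ha : a ∈ 𝒜 n) (hb : b ∈ 𝒜 n)
    (h : b ∉ q) : hf 𝒜 q a b = mk ⟨n, ⟨a, ha⟩, ⟨b, hb⟩, h⟩ := by
  rw [hf, dif_pos ⟨n, ha, hb, h⟩, ext_iff_val, val_mk, val_mk]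

theorem hf_val {q : Ideal A} [q.IsPrime] {n : ℕ} {a b : A} (ha : a ∈ 𝒜 n) (hb : b ∈ 𝒜 n)
    (h : b ∉ q) : (hf 𝒜 q a b).val = Localization.mk a ⟨b, h⟩ := by
  rw [hf_eq ha hb h, val_mk]

theorem hf_add {q : Ideal A} [q.IsPrime] {n : ℕ} {a a' b : A} (ha : a ∈ 𝒜 n) (ha' : a' ∈ 𝒜 n)
    (hb : b ∈ 𝒜 n) (h : b ∉ q) : hf 𝒜 q (a + a') b = hf 𝒜 q a b + hf 𝒜 q a' b := by
  rw [ext_iff_val, val_add, hf_val ha hb h, hf_val ha' hb h, hf_val (add_mem ha ha') hb h,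
    Localization.add_mk_self]

theorem hf_mul {q : Ideal A} [q.IsPrime] {n n' : ℕ} {a a' b b' : A} (ha : a ∈ 𝒜 n)
    (hb : b ∈ 𝒜 n) (ha' : a' ∈ 𝒜 n') (hb' : b' ∈ 𝒜 n') (h : b ∉ q) (h' : b' ∉ q) :
    hf 𝒜 q (a * a') (b * b') = hf 𝒜 q a b * hf 𝒜 q a' b' := by
  rw [ext_iff_val, val_mul, hf_val ha hb h, hf_val ha' hb' h',
    hf_val (SetLike.mul_mem_graded ha ha') (SetLike.mul_mem_graded hb hb')
      (q.primeCompl.mul_mem h h'), Localization.mk_mul]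
  rfl

theorem hf_self {q : Ideal A} [q.IsPrime] {n : ℕ} {b : A} (hb : b ∈ 𝒜 n) (h : b ∉ q) :
    hf 𝒜 q b b = 1 := by
  rw [ext_iff_val, val_one, hf_val hb hb h]
  exact Localization.mk_self (⟨b, h⟩ : q.primeCompl)

theorem hf_unit {q : Ideal A} [q.IsPrime] {n : ℕ} {a b : A} (ha : a ∈ 𝒜 n) (hb : b ∈ 𝒜 n)
    (h : b ∉ q) : IsUnit (hf 𝒜 q a b) ↔ a ∉ q := by
  rw [← isUnit_iff_isUnit_val, hf_val ha hb h, Localization.mk_eq_mk']
  exact IsLocalization.AtPrime.isUnit_mk'_iff _ q a ⟨b, h⟩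

theorem hf_surj {q : Ideal A} [q.IsPrime] (x : AtPrime 𝒜 q) :
    ∃ (n : ℕ) (a b : A), a ∈ 𝒜 n ∧ b ∈ 𝒜 n ∧ b ∉ q ∧ x = hf 𝒜 q a b := by
  obtain ⟨⟨n, a, b, h⟩, rfl⟩ := mk_surjective x
  exact ⟨n, a, b, a.2, b.2, h, (hf_eq a.2 b.2 h).symm⟩

/-- a point as a homogeneous prime -/
def pt (x : Proj 𝒜) : ProjectiveSpectrum 𝒜 := x

/-- the prime of a point -/
def pI (x : Proj 𝒜) : Ideal A := (pt x).asHomogeneousIdeal.toIdeal

instance (x : Proj 𝒜) : (pI x).IsPrime := (pt x).isPrime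

/-- the stalk at a point -/
noncomputable def st (x : Proj 𝒜) : AtPrime 𝒜 (pI x) ≃+* (Proj 𝒜).presheaf.stalk x :=
  (Proj.stalkIso' 𝒜 x).symm

theorem spec_iff (y z : Proj 𝒜) : y ⤳ z ↔ pI y ≤ pI z :=
  specializes_iff_mem_closure.trans (ProjectiveSpectrum.le_iff_mem_closure 𝒜 (pt y) (pt z)).symm

theorem st_res {y z : Proj 𝒜} (h : y ⤳ z) {n : ℕ} {a b : A} (ha : a ∈ 𝒜 n) (hb : b ∈ 𝒜 n)
    (hz : b ∉ pI z) : sp h (st z (hf 𝒜 (pI z) a b)) = st y (hf 𝒜 (pI y) a b) := by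
  have hy : b ∉ pI y := fun h' => hz ((spec_iff y z).1 h h')
  rw [hf_eq ha hb hz, hf_eq ha hb hy]
  exact DFunLike.congr_fun (CommRingCat.hom_ext_iff.mp
    ((Proj 𝒜).presheaf.germ_stalkSpecializes (U := ProjectiveSpectrum.basicOpen 𝒜 b) hz h))
    (sectionInBasicOpen 𝒜 z ⟨n, ⟨a, ha⟩, ⟨b, hb⟩, hz⟩)

end Gen

attribute [local instance] MvPolynomial.gradedAlgebra

theorem good {N : ℕ} (x : Proj (homogeneousSubmodule (Fin (N + 1)) ℤ)) : ∃ i, X i ∉ pI x := by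
  by_contra h
  simp only [not_exists, not_not] at h
  refine (pt x).not_irrelevant_le ((HomogeneousIdeal.irrelevant_le _).2 fun n hn G hG => ?_)
  have hG' : G.IsHomogeneous n := hG
  have : Ideal.span (X '' Set.univ) ≤ pI x := by
    rw [Ideal.span_le]
    rintro _ ⟨i, -, rfl⟩
    exact h i
  refine this (mem_ideal_span_X_image.2 fun m hm => ?_)
  by_contra h0
  have : m = 0 := by
    ext i
    by_contra h1
    exact h0 ⟨i, trivial, h1⟩
  subst this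
  exact mem_support_iff.1 hm (hG'.coeff_eq_zero (by simpa using hn.ne))

theorem up {N : ℕ} (Q : Ideal (MvPolynomial (Fin (N + 1)) ℤ)) (hQ : Q.IsPrime)
    (hh : ∀ G ∈ Q, ∀ n : ℕ, homogeneousComponent n G ∈ Q) (hi : ∃ i, X i ∉ Q) :
    ∃ x : Proj (homogeneousSubmodule (Fin (N + 1)) ℤ), pI x = Q := by
  obtain ⟨i, hi⟩ := hi
  let q : ProjectiveSpectrum (homogeneousSubmodule (Fin (N + 1)) ℤ) :=
    ⟨⟨Q, fun n G hG => (decomposition.decompose'_apply G n).symm ▸ hh G hG n⟩, hQ,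
      fun h => hi (h (HomogeneousIdeal.mem_irrelevant_of_mem _ one_pos (isHomogeneous_X ℤ i)))⟩
  exact ⟨q, rfl⟩

theorem main (N : ℕ) (X : Scheme.{0}) (ι : X ⟶ Proj (homogeneousSubmodule (Fin (N + 1)) ℤ))
    (hι : IsClosedImmersion ι) : PrA X N (fun z => pI (ι z))
      fun z A B => ι.stalkMap z (st (ι z) (hf _ (pI (ι z)) A B)) := by
  have hle : ∀ y z : X, y ⤳ z ↔ pI (ι y) ≤ pI (ι z) := fun y z =>
    ι.isClosedEmbedding.isInducing.specializes_iff.symm.trans (spec_iff _ _)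
  refine
    { prime := fun z => inferInstance
      hom := fun z G hG n =>
        homogeneousComponent_mem_of_mem (pt (ι z)).asHomogeneousIdeal.isHomogeneous hG n
      good := fun z => good _
      le := hle
      up := fun y Q hQ hh hi h => ?_
      cl := fun z => ?_
      surj := fun z a => ?_
      res := fun y z h n A B hA hB hz => ?_
      add := fun z n A A' B hA hA' hB hz => ?_
      mul := fun z n n' A B A' B' hA hB hA' hB' hz hz' => ?_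
      self := fun z n B hB hz => ?_
      mem := fun z n A B hA hB hz => ?_ }
  · obtain ⟨x, rfl⟩ := up Q hQ hh hi
    obtain ⟨z, rfl⟩ := ((spec_iff _ _).2 h).mem_closed ι.isClosedEmbedding.isClosed_range ⟨y, rfl⟩
    exact ⟨z, rfl⟩
  · obtain ⟨_, ⟨x, hx, rfl⟩, hm⟩ := set_has_maximal_iff_noetherian.2
      (inferInstance : IsNoetherianRing (MvPolynomial (Fin (N + 1)) ℤ))
      {I | ∃ x, z ⤳ x ∧ pI (ι x) = I} ⟨_, z, specializes_rfl, rfl⟩
    refine ⟨x, hx, closure_subset_iff_isClosed.1 fun x' hx' => ?_⟩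
    have h1 : x ⤳ x' := specializes_iff_mem_closure.2 hx'
    have h2 : pI (ι x) = pI (ι x') :=
      eq_of_le_of_not_lt ((hle _ _).1 h1) (hm _ ⟨x', hx.trans h1, rfl⟩)
    exact (((hle _ _).2 h2.ge).antisymm h1).eq
  · obtain ⟨b, rfl⟩ := ι.stalkMap_surjective z a
    obtain ⟨c, rfl⟩ := (st (ι z)).surjective b
    obtain ⟨n, A, B, hA, hB, h, rfl⟩ := hf_surj c
    exact ⟨n, A, B, hA, hB, h, rfl⟩
  · rw [← st_res (ι.base.hom.map_specializes h) hA hB hz]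
    exact (ι.stalkSpecializes_stalkMap_apply y z h _).symm
  · rw [hf_add hA hA' hB hz, map_add, map_add]
  · rw [hf_mul hA hB hA' hB' hz hz', map_mul, map_mul]
  · rw [hf_self hB hz, map_one, map_one]
  · rw [mem_maximalIdeal, mem_nonunits_iff, isUnit_map_iff, MulEquiv.isUnit_map,
      hf_unit hA hB hz, not_not]

end SPr

theorem rPrA : RPrA := fun N X ι hι => ⟨_, _, SPr.main N X ι hι⟩

end Pool.Agent.MP_f3836a_nt.PK
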