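import Pool.Agent.MP_f3836a_nt.PK.SpecS

set_option autoImplicit false

/-! The theorem on one component of a fibre. -/

namespace Pool.Agent.MP_f3836a_nt.PK

open MvPolynomial IsLocalRing AlgebraicGeometry CategoryTheory Pool.Agent.MP_f3836a_nt.PS

namespace SComp

theorem reidx {α β M : Type} [AddCommMonoid M] (z : α → β) (hz : Function.Injective z)
    (G : β → M) (h : ∀ b, G b ≠ 0 → b ∈ Set.range z) : ∑ᶠ a, G (z a) = ∑ᶠ b, G b := by
  rw [← finsum_mem_range hz]
  refine finsum_congr fun b => ?_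
  by_cases hb : b ∈ Set.range z
  · exact finsum_eq_single _ hb fun x hx => absurd (Subsingleton.elim _ _) hx
  · have : G b = 0 := by_contra fun h' => hb (h b h')
    rw [this, finsum_zero]

theorem ordR_one {L : Type} [Field L] (R : Subring L) : ordR R 1 = 0 := by
  unfold ordR
  split_ifs with h
  · have h1 := h.2.choose_spec.2
    rw [one_mul] at h1
    rw [Subtype.ext h1, sub_self]
  · rfl

theorem addv_one {κ : Type} [Field κ] {lam : κ → ℚ} (h : Addv lam) : lam 1 = 0 := by
  have := h 1 1 one_ne_zero one_ne_zero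
  rw [mul_one] at this
  linarith

variable {X : Scheme.{0}}

/-- the residue map of the local ring of the closure of `y` -/
def Rs {y z : X} (h : y ⤳ z) (O : Subring (X.residueField y)) (r : O →+* X.residueField z) :
    Prop := ∀ (a : X.presheaf.stalk z) (ha : ev h a ∈ O), r ⟨ev h a, ha⟩ = X.residue z a

theorem res_eq_zero (z : X) (a : X.presheaf.stalk z) : X.residue z a = 0 ↔ ¬ IsUnit a := by
  have := IsLocalRing.residue_eq_zero_iff a
  rw [mem_maximalIdeal, mem_nonunits_iff] at this
  exact this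

theorem res_surj (z : X) (t : X.residueField z) : ∃ a : X.presheaf.stalk z, X.residue z a = t :=
  IsLocalRing.residue_surjective t

theorem ev_res {y z : X} (h : y ⤳ z) (a : X.presheaf.stalk z) :
    ev h a = X.residue y (sp h a) := rfl

theorem exists_rs {y z : X} (h : y ⤳ z) (O : Subring (X.residueField y))
    (e : O = (ev h).range) : ∃ r : O →+* X.residueField z, Rs h O r := by
  subst e
  have hk : RingHom.ker (ev h).rangeRestrict ≤ RingHom.ker (X.residue z).hom := by
    intro a ha
    rw [RingHom.mem_ker] at ha ⊢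
    refine (res_eq_zero z a).2 fun hu => ?_
    exact (hu.map (ev h).rangeRestrict).ne_zero ha
  refine ⟨(ev h).rangeRestrict.liftOfSurjective (ev h).rangeRestrict_surjective ⟨_, hk⟩, ?_⟩
  intro a ha
  exact RingHom.liftOfRightInverse_comp_apply _ _ _ ⟨_, hk⟩ a

section

variable {y z : X} {h : y ⤳ z} {O : Subring (X.residueField y)} {r : O →+* X.residueField z}

theorem val_eq (e : O = (ev h).range) (hr : Rs h O r) (f : X.residueField y) :
    val h f = resR O r f := by
  subst e
  unfold val resR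
  by_cases hf : ∃ a, ev h a = f
  · have hf' : f ∈ (ev h).range := hf
    rw [dif_pos hf, dif_pos hf', ← hr hf.choose ⟨_, rfl⟩]
    congr 1
    exact Subtype.ext hf.choose_spec
  · have hf' : f ∉ (ev h).range := hf
    rw [dif_neg hf, dif_neg hf']

theorem ord_eq (e : O = (ev h).range) (f : X.residueField y) : ord y z f = ordR O f := by
  subst e
  unfold ord
  rw [dif_pos h, ordF_eq]

theorem tame_eq (e : O = (ev h).range) (hr : Rs h O r) (f g : X.residueField y) :
    tame y z f g = tameR O r f g := by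
  unfold tame tameR tameE
  rw [dif_pos h, val_eq e hr, ord_eq e, ord_eq e]

theorem dv_of (e : O = (ev h).range) (hr : Rs h O r) {κ : Type} [Field κ] {r' : O →+* κ}
    (hd : DV O r') : DV O r := by
  subst e
  refine ⟨hd.dvr, hd.frac, fun t => ?_, fun a => ⟨fun h0 hu => (hu.map r).ne_zero h0, ?_⟩⟩
  · obtain ⟨a, rfl⟩ := res_surj z t
    exact ⟨_, hr a ⟨_, rfl⟩⟩
  · obtain ⟨_, b, rfl⟩ := a
    intro hu
    rw [hr b, res_eq_zero]
    exact fun hb => hu (hb.map (ev h).rangeRestrict)

theorem loc_eq (e : O = (ev h).range) (hr : Rs h O r) {w : X} (h' : z ⤳ w) :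
    (((ev (h.trans h')).range).comap O.subtype).map r = (ev h').range := by
  subst e
  ext t
  constructor
  · rintro ⟨a, ⟨b, hb⟩, rfl⟩
    refine ⟨b, ?_⟩
    rw [ev_res, ← hr (sp h' b) ⟨_, rfl⟩]
    congr 1
    refine Subtype.ext ?_
    rw [ev_trans] at hb
    exact hb
  · rintro ⟨b, rfl⟩
    refine ⟨⟨ev h (sp h' b), _, rfl⟩, ⟨b, ev_trans h h' b⟩, ?_⟩
    rw [hr (sp h' b), ev_res]

end

theorem range_refl {y : X} (h : y ⤳ y) : (ev h).range = ⊤ := by
  rw [eq_top_iff]
  intro t _
  obtain ⟨a, rfl⟩ := res_surj y t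
  exact ⟨a, by rw [ev_res, sp_refl]⟩

theorem tame_one {y C : X} (h : ¬ y ⤳ C) (f g : X.residueField y) : tame y C f g = 1 := by
  unfold tame
  rw [dif_neg h]

theorem ord_one (C x : X) : ord C x 1 = 0 := by
  unfold ord
  split_ifs with h
  · rw [ordF_eq, ordR_one]
  · rfl

section

variable {p : ℕ} [Fact p.Prime] {y : X} [Algebra (ZMod p) (X.residueField y)] {N : ℕ}
  {η : Fin (N + 1) → X.residueField y} {c : ∀ z : X, y ⤳ z → Hp (ZMod p) η}

theorem c_inj (D : Dict p y η c) {z z' : X} {h : y ⤳ z} {h' : y ⤳ z'}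
    (e : (c z h).P = (c z' h').P) : z = z' :=
  (((D.le z h z' h').1 e.le).antisymm ((D.le z' h' z h).1 e.ge)).eq

theorem cl_iff (D : Dict p y η c) {z : X} (h : y ⤳ z) :
    (c z h).Cl ↔ IsClosed ({z} : Set X) := by
  constructor
  · intro hc
    refine isClosed_of_closure_subset fun w hw => ?_
    have hw' : z ⤳ w := specializes_iff_mem_closure.2 hw
    exact c_inj D (hc (c w (h.trans hw')) ((D.le _ _ _ _).2 hw'))
  · intro hc x hx
    obtain ⟨w, hw, rfl⟩ := D.surj x
    have h1 := specializes_iff_mem_closure.1 ((D.le _ _ _ _).1 hx)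
    rw [hc.closure_eq] at h1
    obtain rfl : w = z := h1
    rfl

theorem surf (D : Dict p y η c) (hF : FibA X p) (hy : IsGen p y) : IsSurf0 (ZMod p) η := by
  refine ⟨D.gen, fun x hx => ?_⟩
  obtain ⟨w, hw, rfl⟩ := D.surj x
  rw [D.O]
  exact hF.reg y w hw hy ((cl_iff D hw).1 hx)

theorem hp_inj {C C' : Cv (ZMod p) η} (e : C.hp = C'.hp) : C = C' := by
  have : C.toCtr = C'.toCtr := congrArg Hp.toCtr e
  cases C
  cases C'
  cases this
  rfl

theorem comp (D : Dict p y η c) (hF : FibA X p) (hy : IsGen p y) (hY : YA (ZMod p) η)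
    (hA : RDVA.{0}) (hL : RSurfL.{0}) : CompA y := by
  have hex : ∀ C : Cv (ZMod p) η, ∃ z h, c z h = C.hp := fun C => D.surj C.hp
  choose z hz ez using hex
  have eO : ∀ C : Cv (ZMod p) η, C.O = (ev (hz C)).range := fun C => by
    rw [← D.O, ez]
    rfl
  have eP : ∀ C : Cv (ZMod p) η, C.P = (c (z C) (hz C)).P := fun C => by
    rw [ez]
    rfl
  have zinj : Function.Injective z := by
    intro C C' e
    apply hp_inj
    rw [← ez, ← ez]
    congr 1
  have zht : ∀ C, Order.height (z C) = 1 := by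
    intro C
    obtain ⟨h1, h2⟩ := (hY.cv C.hp).1 ⟨C, rfl⟩
    refine (hF.one y _ hy (hz C)).2 ⟨fun e => h2 ?_, fun hc => h1 ?_⟩
    · have : ∀ (w : X) (h : y ⤳ w), w = y → (ev h).range = ⊤ := by
        rintro w h rfl
        exact range_refl h
      exact (eO C).trans (this _ _ e)
    · rw [← ez]
      exact (cl_iff D _).2 hc
  have zsurj : ∀ C : X, Order.height C = 1 → y ⤳ C → C ∈ Set.range z := by
    intro C h1 h
    obtain ⟨h2, h3⟩ := (hF.one y C hy h).1 h1
    obtain ⟨C0, e⟩ := (hY.cv (c C h)).2 ⟨fun hc => h3 ((cl_iff D h).1 hc), fun e => h2 (by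
      have e' : (c C h).O = (c y (specializes_refl y)).O := by rw [e, D.O, range_refl]
      exact c_inj D (congrArg (fun x : Hp (ZMod p) η => x.P) (hY.ext _ _ e')))⟩
    exact ⟨C0, c_inj D (congrArg (fun x : Hp (ZMod p) η => x.P) ((ez C0).trans e))⟩
  choose r hr using fun C : Cv (ZMod p) η => exists_rs (hz C) C.O (eO C)
  have hdv : ∀ C, DV C.O (r C) := fun C => dv_of (eO C) (hr C) (hY.dv C)
  have hda : ∀ C, DVA C.O (r C) := fun C => hA _ _ _ _ (hdv C)
  have ht : ∀ C f g, tame y (z C) f g = tameR C.O (r C) f g := fun C => tame_eq (eO C) (hr C)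
  obtain ⟨hfin, hmain⟩ := hL (ZMod p) (X.residueField y) p N η
    (fun a ha => ⟨p - 1, Nat.sub_pos_of_lt (Fact.out : p.Prime).one_lt,
      ZMod.pow_card_sub_one_eq_one ha⟩) (surf D hF hy)
  refine ⟨fun f g C hf hg h1 => ?_, fun f g _ _ => ?_, fun f g C hf hg h1 => ?_, ?_⟩
  · by_cases h : y ⤳ C
    · obtain ⟨C0, rfl⟩ := zsurj C h1 h
      rw [ht]
      exact (hda C0).ne f g hf hg
    · rw [tame_one h]
      exact one_ne_zero
  · refine (((hfin f).union (hfin g)).image z).subset ?_
    rintro C ⟨h1, h2⟩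
    have h : y ⤳ C := by_contra fun h => h2 (tame_one h f g)
    obtain ⟨C0, rfl⟩ := zsurj C h1 h
    refine ⟨C0, ?_, rfl⟩
    by_contra hn
    simp only [Set.mem_union, Set.mem_ofPred_eq, not_or, not_not] at hn
    exact h2 ((ht C0 f g).trans ((hda C0).one f g hn.1 hn.2))
  · by_cases h : y ⤳ C
    · obtain ⟨C0, rfl⟩ := zsurj C h1 h
      rw [ht, ht]
      exact (hda C0).swap f g hf hg
    · rw [tame_one h, tame_one h, mul_one]
  · intro φ lam h0 hf h1 hdiv hadd hsym
    have hrange : ∀ C, φ C ≠ 1 → C ∈ Set.range z := fun C h => zsurj C (h1 C h).1 (h1 C h).2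
    rw [← reidx z zinj (fun C => lam C (φ C))
      (fun C h => hrange C fun e => h (by simp only [e]; exact addv_one (hadd C)))]
    refine hmain (fun C => X.residueField (z C)) r (fun C => φ (z C)) (fun C => lam (z C)) hdv
      ⟨fun C => h0 _, hf.preimage zinj.injOn, fun x hx => ?_⟩ (fun C => hadd _)
      fun f g hf0 hg0 => ?_
    · obtain ⟨w, hw, rfl⟩ := D.surj x
      rw [← hdiv w ((cl_iff D hw).1 hx), ← reidx z zinj (fun C => ord C w (φ C))
        (fun C h => hrange C fun e => h (by simp only [e]; exact ord_one C w))]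
      refine finsum_congr fun C => ?_
      have hle : C.P ≤ (c w hw).P ↔ z C ⤳ w := by
        rw [eP C]
        exact D.le _ _ _ _
      by_cases h : z C ⤳ w
      · rw [finsum_eq_single _ (hle.2 h) fun x hx => absurd (Subsingleton.elim _ _) hx]
        have e : locR C (r C) (c w hw) = (ev h).range := by
          unfold locR
          rw [D.O]
          exact loc_eq (eO C) (hr C) h
        exact (ord_eq e _).symm
      · have : IsEmpty (C.P ≤ (c w hw).P) := ⟨fun h' => h (hle.1 h')⟩
        rw [finsum_of_isEmpty]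
        unfold ord
        rw [dif_neg h]
    · rw [← hsym f g hf0 hg0, ← reidx z zinj
        (fun C => ∑ᶠ (_ : Order.height C = 1), lam C (tame y C f g)) ?_]
      · refine finsum_congr fun C => ?_
        rw [finsum_eq_single _ (zht C) fun x hx => absurd (Subsingleton.elim _ _) hx, ht]
      · intro C h
        by_cases h2 : Order.height C = 1
        · refine zsurj C h2 (by_contra fun h3 => h ?_)
          simp only [tame_one h3, addv_one (hadd C), finsum_zero]
        · have : IsEmpty (Order.height C = 1) := ⟨h2⟩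
          exact absurd (finsum_of_isEmpty _) h

end

end SComp

theorem rComp : RDict → RYA.{0} → RDVA.{0} → RSurfL.{0} → RComp := by
  intro hD hY hA hL X N P fr hP p hp hF y hy
  have : Fact p.Prime := ⟨hp⟩
  have : CharP (X.residueField y) p :=
    (CharP.charP_iff_prime_eq_zero hp).2 (hF.char y y hy (specializes_refl y))
  let := ZMod.algebra (X.residueField y) p
  obtain ⟨η, c, D⟩ := hD X N P fr hP p y
  exact SComp.comp D hF hy (hY _ _ _ _ (SComp.surf D hF hy)) hA hL

end Pool.Agent.MP_f3836a_nt.PK
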