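import Pool.Agent.MP_f3836a_nt.PK.SpecS

set_option autoImplicit false

/-! The dictionary between the closure of a point and homogeneous primes over the prime field. -/

namespace Pool.Agent.MP_f3836a_nt.PK

open MvPolynomial IsLocalRing AlgebraicGeometry CategoryTheory Pool.Agent.MP_f3836a_nt.PS

namespace SDict

section Key

variable {σ K : Type} [CommRing K] (g : ℕ → MvPolynomial σ ℤ → K) (E : MvPolynomial σ ℤ →+* K)

theorem key
    (hadd : ∀ n A A', A.IsHomogeneous n → A'.IsHomogeneous n → g n (A + A') = g n A + g n A')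
    (hmul : ∀ n n' A A', A.IsHomogeneous n → A'.IsHomogeneous n' →
      g (n + n') (A * A') = g n A * g n' A')
    (hone : g 0 1 = 1) (hX : ∀ j, g 1 (X j) = E (X j)) (n : ℕ) (A : MvPolynomial σ ℤ)
    (hA : A.IsHomogeneous n) : g n A = E A := by
  have h0 : ∀ n, g n 0 = 0 := fun n => by
    have := hadd n 0 0 (isHomogeneous_zero _ _ _) (isHomogeneous_zero _ _ _)
    rw [add_zero] at this
    exact left_eq_add.1 this
  have hC : ∀ a : ℤ, g 0 (C a) = E (C a) := fun a => by
    induction a using Int.induction_on with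
    | zero => rw [map_zero, h0, map_zero]
    | succ a ih =>
      rw [map_add, hadd 0 _ _ (isHomogeneous_C _ _) (isHomogeneous_C _ _), ih, map_add, map_one, hone,
        map_one]
    | pred a ih =>
      have h1 := hadd 0 (C (-(a : ℤ) - 1)) (C 1) (isHomogeneous_C _ _) (isHomogeneous_C _ _)
      rw [← map_add, sub_add_cancel, ih, map_one, hone] at h1
      rw [map_sub, map_sub, map_one, map_one, h1, map_sub, map_one, add_sub_cancel_right]
  have hP : ∀ (j : σ) (b : ℕ), g b (X j ^ b) = E (X j ^ b) := fun j b => by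
    induction b with
    | zero => rw [pow_zero, hone, map_one]
    | succ b ih =>
      rw [pow_succ, hmul b 1 _ _ (isHomogeneous_X_pow _ _) (isHomogeneous_X _ _), ih, hX, map_mul]
  have hM : ∀ (d : σ →₀ ℕ) (r : ℤ), g d.degree (monomial d r) = E (monomial d r) := fun d r => by
    induction d using Finsupp.induction with
    | zero => exact hC r
    | single_add a b f _ _ ih =>
      rw [map_add, Finsupp.degree_single, monomial_single_add,
        hmul _ _ _ _ (isHomogeneous_X_pow _ _) (isHomogeneous_monomial r rfl), hP, ih, map_mul]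
  induction hA using IsWeightedHomogeneous.induction_on with
  | zero => rw [h0, map_zero]
  | add p q hp hq ihp ihq => rw [hadd n p q hp hq, ihp, ihq, map_add]
  | monomial d r hr =>
    have : d.degree = n := by rw [Finsupp.degree_eq_weight_one, ← Pi.one_def, ← hr]
    rw [← this]
    exact hM d r

end Key

/-- reduction of the coefficients -/
noncomputable def red (p N : ℕ) :
    MvPolynomial (Fin (N + 1)) ℤ →+* MvPolynomial (Fin (N + 1)) (ZMod p) :=
  MvPolynomial.map (Int.castRingHom (ZMod p))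

variable {p N : ℕ}

theorem red_surj : Function.Surjective (red p N) :=
  map_surjective _ (ZMod.ringHom_surjective _)

theorem red_hc (n : ℕ) (G : MvPolynomial (Fin (N + 1)) ℤ) :
    red p N (homogeneousComponent n G) = homogeneousComponent n (red p N G) := by
  ext d
  simp only [red, coeff_map, coeff_homogeneousComponent]
  split_ifs <;> simp

theorem red_hom {n : ℕ} {G : MvPolynomial (Fin (N + 1)) ℤ} (h : G.IsHomogeneous n) :
    (red p N G).IsHomogeneous n := h.map _

theorem red_X (j : Fin (N + 1)) : red p N (X j) = X j := map_X _ _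

theorem lift {n : ℕ} {G : MvPolynomial (Fin (N + 1)) (ZMod p)} (h : G.IsHomogeneous n) :
    ∃ A : MvPolynomial (Fin (N + 1)) ℤ, A.IsHomogeneous n ∧ red p N A = G := by
  obtain ⟨A, rfl⟩ := red_surj G
  exact ⟨homogeneousComponent n A, homogeneousComponent_isHomogeneous _ _, by
    rw [red_hc, homogeneousComponent_eq_self h]⟩

theorem ker_le {Q : Ideal (MvPolynomial (Fin (N + 1)) ℤ)} (h : C (p : ℤ) ∈ Q) :
    RingHom.ker (red p N) ≤ Q := by
  rw [red, MvPolynomial.ker_map, ZMod.ker_intCastRingHom, Ideal.map_span, Set.image_singleton,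
    Ideal.span_le, Set.singleton_subset_iff]
  exact h

theorem mem_map {Q : Ideal (MvPolynomial (Fin (N + 1)) ℤ)} (h : C (p : ℤ) ∈ Q)
    (G : MvPolynomial (Fin (N + 1)) ℤ) : red p N G ∈ Q.map (red p N) ↔ G ∈ Q := by
  rw [← Ideal.mem_comap, Ideal.comap_map_of_surjective _ red_surj, ← RingHom.ker_eq_comap_bot,
    sup_eq_left.2 (ker_le h)]

theorem hp_ext {F K : Type} [Field F] [Field K] [Algebra F K] {η : Fin (N + 1) → K}
    {x x' : Hp F η} (h : x.P = x'.P) : x = x' := by
  obtain ⟨⟨_, _, _⟩, _, _⟩ := x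
  obtain ⟨⟨_, _, _⟩, _, _⟩ := x'
  cases h
  rfl

end SDict

open SDict in
theorem rDict : RDict := by
  intro Y N P fr H p _ y _
  obtain ⟨i, hi⟩ := H.good y
  have hip : ∀ n : ℕ, (X i ^ n : MvPolynomial (Fin (N + 1)) ℤ) ∉ P y := fun n h =>
    hi ((H.prime y).mem_of_pow_mem n h)
  have r0 : y ⤳ y := specializes_refl y
  obtain ⟨η, hη⟩ : ∃ η : Fin (N + 1) → Y.residueField y,
      ∀ j, η j = ev r0 (fr y (X j) (X i ^ 1)) := ⟨_, fun _ => rfl⟩
  obtain ⟨E, hE⟩ : ∃ E : MvPolynomial (Fin (N + 1)) ℤ →+* Y.residueField y,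
      ∀ A, E A = aeval η (red p N A) :=
    ⟨(aeval η : Pol (ZMod p) N →ₐ[ZMod p] Y.residueField y).toRingHom.comp (red p N), fun _ => rfl⟩
  have k1 : ∀ (n : ℕ) (A : MvPolynomial (Fin (N + 1)) ℤ), A.IsHomogeneous n →
      ev r0 (fr y A (X i ^ n)) = E A := by
    refine key (fun n A => ev r0 (fr y A (X i ^ n))) E (fun n A A' hA hA' => ?_)
      (fun n n' A A' hA hA' => ?_) ?_ fun j => ?_
    · rw [H.add y n A A' _ hA hA' (isHomogeneous_X_pow _ _) (hip n), map_add]
    · rw [pow_add, H.mul y n n' A _ A' _ hA (isHomogeneous_X_pow _ _) hA' (isHomogeneous_X_pow _ _)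
        (hip n) (hip n'), map_mul]
    · have := H.self y 0 (X i ^ 0) (isHomogeneous_X_pow _ _) (hip 0)
      rw [pow_zero] at this ⊢
      rw [this, map_one]
    · rw [hE, red_X, aeval_X, hη]
  have k2 : ∀ (n : ℕ) (A : MvPolynomial (Fin (N + 1)) ℤ), A.IsHomogeneous n →
      (E A = 0 ↔ A ∈ P y) := fun n A hA => by
    rw [← k1 n A hA, ← H.mem y n A _ hA (isHomogeneous_X_pow _ _) (hip n), ev_eq, sp_refl]
    exact residue_eq_zero_iff _
  have hp : ∀ z, y ⤳ z → C (p : ℤ) ∈ P z := fun z h => by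
    refine (H.le y z).1 h ((k2 0 _ (isHomogeneous_C _ _)).1 ?_)
    rw [map_natCast, map_natCast, ← map_natCast (algebraMap (ZMod p) (Y.residueField y)),
      ZMod.natCast_self, map_zero]
  have k3 : ∀ (z : Y) (h : y ⤳ z) (n : ℕ) (A B : MvPolynomial (Fin (N + 1)) ℤ), A.IsHomogeneous n →
      B.IsHomogeneous n → B ∉ P z → ev h (fr z A B) * E B = E A := fun z h n A B hA hB hz => by
    have hy : B ∉ P y := fun hh => hz ((H.le y z).1 h hh)
    have e1 : ev h (fr z A B) = ev r0 (fr y A B) := by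
      rw [← H.res y z h n A B hA hB hz, ← ev_trans r0 h]
    have e2 := H.mul y n n A B B (X i ^ n) hA hB hB (isHomogeneous_X_pow _ _) hy (hip n)
    have e3 := H.mul y n n B B A (X i ^ n) hB hB hA (isHomogeneous_X_pow _ _) hy (hip n)
    rw [H.self y n B hB hy, one_mul, mul_comm B A, e2] at e3
    rw [e1, ← k1 n B hB, ← map_mul, e3, k1 n A hA]
  obtain ⟨c, hc⟩ : ∃ c : ∀ z : Y, y ⤳ z → Hp (ZMod p) η, ∀ z h, (c z h).P = (P z).map (red p N) := by
    refine ⟨fun z h => ⟨⟨(P z).map (red p N), ?_, fun n G hG h0 => ?_⟩, fun G hG n => ?_, ?_⟩,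
      fun _ _ => rfl⟩
    · have := H.prime z
      exact Ideal.map_isPrime_of_surjective red_surj (ker_le (hp z h))
    · obtain ⟨A, hA, rfl⟩ := lift hG
      exact Ideal.mem_map_of_mem _ ((H.le y z).1 h ((k2 n A hA).1 ((hE A).trans h0)))
    · obtain ⟨A, rfl⟩ := red_surj G
      rw [← red_hc]
      exact Ideal.mem_map_of_mem _ (H.hom z A ((mem_map (hp z h) A).1 hG) n)
    · obtain ⟨j, hj⟩ := H.good z
      exact ⟨j, fun hh => hj ((mem_map (hp z h) _).1 (by rwa [red_X]))⟩
  have hO : ∀ z h, (c z h).O = (ev h).range := fun z h => by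
    ext f
    rw [Ctr.mem_O, RingHom.mem_range]
    constructor
    · rintro ⟨n, A', B', hA', hB', hP, hf⟩
      obtain ⟨A, hA, rfl⟩ := lift hA'
      obtain ⟨B, hB, rfl⟩ := lift hB'
      have h0 := (c z h).aeval_ne hB' hP
      rw [hc, mem_map (hp z h)] at hP
      refine ⟨fr z A B, mul_right_cancel₀ h0 ?_⟩
      rw [hf, ← hE, ← hE]
      exact k3 z h n A B hA hB hP
    · rintro ⟨a, rfl⟩
      obtain ⟨n, A, B, hA, hB, hP, rfl⟩ := H.surj z a
      refine ⟨n, red p N A, red p N B, red_hom hA, red_hom hB, ?_, ?_⟩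
      · rwa [hc, mem_map (hp z h)]
      · rw [← hE, ← hE]
        exact k3 z h n A B hA hB hP
  refine ⟨η, c, fun f => ?_, hO, fun z h z' h' => ?_, fun x => ?_⟩
  · obtain ⟨a, ha⟩ := residue_surjective (R := Y.presheaf.stalk y) f
    have h1 : f ∈ (c y r0).O := by
      rw [hO]
      exact ⟨a, by rw [ev_eq, sp_refl]; exact ha⟩
    obtain ⟨n, A, B, hA, hB, hP, hf⟩ := h1
    exact ⟨n, A, B, hA, hB, (c y r0).aeval_ne hB hP, hf⟩
  · rw [hc, hc, H.le]
    exact ⟨fun hh G hG => (mem_map (hp z' h') G).1 (hh (Ideal.mem_map_of_mem _ hG)), Ideal.map_mono⟩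
  · have := x.prime
    have hle : P y ≤ x.P.comap (red p N) := fun G hG => by
      rw [← sum_homogeneousComponent G]
      refine Ideal.sum_mem _ fun n _ => x.van n _ (red_hom (homogeneousComponent_isHomogeneous _ _)) ?_
      rw [← hE]
      exact (k2 n _ (homogeneousComponent_isHomogeneous _ _)).2 (H.hom y G hG n)
    obtain ⟨z, hz⟩ := H.up y (x.P.comap (red p N)) (Ideal.comap_isPrime _ _)
      (fun G hG n => by
        rw [Ideal.mem_comap, red_hc]
        exact x.hom _ hG n)
      (x.good.imp fun j hj hh => hj (by rwa [Ideal.mem_comap, red_X] at hh)) hle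
    refine ⟨z, (H.le y z).2 (hz ▸ hle), hp_ext ?_⟩
    rw [hc, hz, Ideal.map_comap_of_surjective _ red_surj]

end Pool.Agent.MP_f3836a_nt.PK
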