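import Pool.Agent.MP_f3836a_nt.PK.SpecE

set_option autoImplicit false

/-! Duality, and the extension of the ground field to its algebraic closure. -/

namespace Pool.Agent.MP_f3836a_nt.PK

open scoped IntermediateField

universe u

namespace EDual

theorem exists_hom {A : Type u} [AddCommGroup A] (a : A) (ha : ∀ n : ℕ, 0 < n → n • a ≠ 0) :
    ∃ l : A →+ ℚ, l a ≠ 0 := by
  obtain ⟨l, hl⟩ := (Module.Baer.of_divisible ℚ).extension_property_addMonoidHom
    (zmultiplesHom A a) ((injective_iff_map_eq_zero _).2 fun n hn => by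
      by_contra h0
      exact ha n.natAbs (Int.natAbs_pos.2 h0) (natAbs_nsmul_eq_zero.2 hn)) (Int.castAddHom ℚ)
  refine ⟨l, ?_⟩
  have := DFunLike.congr_fun hl 1
  simp only [AddMonoidHom.comp_apply, zmultiplesHom_apply, one_zsmul] at this
  rw [this]
  simp

theorem tors (F k : Type u) [Field F] [Field k] [Algebra F k] [Algebra.IsAlgebraic F k] (p : ℕ)
    [Fact p.Prime] [CharP F p] [CharP k p] (h : ∀ a : F, a ≠ 0 → ∃ n, 0 < n ∧ a ^ n = 1) (a : k)
    (ha : a ≠ 0) : ∃ n, 0 < n ∧ a ^ n = 1 := by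
  letI := ZMod.algebra F p
  letI := ZMod.algebra k p
  have : IsScalarTower (ZMod p) F k := IsScalarTower.of_algebraMap_eq' (Subsingleton.elim _ _)
  have : Algebra.IsAlgebraic (ZMod p) F := ⟨fun b => by
    by_cases hb : b = 0
    · exact hb ▸ isAlgebraic_zero
    · obtain ⟨n, h1, h2⟩ := h b hb
      exact IsAlgebraic.of_pow h1 (h2 ▸ isAlgebraic_one)⟩
  have := IntermediateField.adjoin.finiteDimensional
    ((Algebra.IsAlgebraic.trans (ZMod p) F k).isAlgebraic a).isIntegral
  have : Finite (ZMod p)⟮a⟯ := Module.finite_of_finite (ZMod p)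
  obtain ⟨n, h1, h2⟩ := isOfFinOrder_iff_pow_eq_one.1 (isOfFinOrder_of_finite
    (Units.mk0 (IntermediateField.AdjoinSimple.gen (ZMod p) a) fun e => ha (congrArg Subtype.val e)))
  exact ⟨n, h1, by simpa using congrArg (fun x : ((ZMod p)⟮a⟯)ˣ => ((x : (ZMod p)⟮a⟯) : k)) h2⟩

end EDual

open EDual

theorem rDualA : RDualA.{u} := by
  intro I S κ _ t h0 hf hi φ hφ hfin H
  classical
  by_contra hn
  choose ι hι using hi
  let G : Subgroup (∀ i, (κ i)ˣ) :=
    { carrier := {ψ | ∃ l : List S, ∀ i, (ψ i : κ i) = (l.map fun s => t s i).prod}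
      one_mem' := ⟨[], fun _ => rfl⟩
      mul_mem' := by
        rintro a b ⟨l, h1⟩ ⟨l', h2⟩
        refine ⟨l ++ l', fun i => ?_⟩
        rw [List.map_append, List.prod_append, ← h1 i, ← h2 i]
        rfl
      inv_mem' := by
        rintro a ⟨l, h1⟩
        refine ⟨l.map ι, fun i => ?_⟩
        change (((a i)⁻¹ : (κ i)ˣ) : κ i) = _
        rw [Units.val_inv_eq_inv_val, h1 i, List.prod_inv, List.map_map, List.map_map]
        exact congrArg List.prod (List.map_congr_left fun x _ =>
          (eq_inv_of_mul_eq_one_right (hι x i)).symm) }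
  obtain ⟨l, hl⟩ := exists_hom
    (Additive.ofMul (QuotientGroup.mk' G fun i => Units.mk0 (φ i) (hφ i))) fun n h1 e => by
      rw [← ofMul_pow, ← map_pow] at e
      exact hn ⟨n, h1, (QuotientGroup.eq_one_iff _).1 e⟩
  let L : (∀ i, (κ i)ˣ) →* Multiplicative ℚ := l.toMultiplicativeRight.comp (QuotientGroup.mk' G)
  let lam : ∀ i, κ i → ℚ := fun i f =>
    if h : f = 0 then 0 else (L (Pi.mulSingle i (Units.mk0 f h))).toAdd
  have key : ∀ (ψ : ∀ i, κ i) (h1 : ∀ i, ψ i ≠ 0), {i | ψ i ≠ 1}.Finite →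
      ∑ᶠ i, lam i (ψ i) = (L fun i => Units.mk0 (ψ i) (h1 i)).toAdd := by
    intro ψ h1 h2
    rw [finsum_eq_sum_of_support_subset (s := h2.toFinset)]
    · simp only [lam, dif_neg (h1 _), ← toAdd_prod, ← map_prod]
      congr 2
      funext j
      rw [Finset.prod_apply, Finset.prod_pi_mulSingle j fun i => Units.mk0 (ψ i) (h1 i)]
      split_ifs with hj
      · rfl
      · exact Units.ext (by simpa using hj : ψ j = 1).symm
    · intro i hi
      by_contra h3
      have h4 : ψ i = 1 := by simpa using h3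
      exact hi (by simp [lam, h4])
  refine hl ((key φ hφ hfin).symm.trans (H lam (fun i f g h1 h2 => ?_) fun s => ?_))
  · simp only [lam, dif_neg h1, dif_neg h2, dif_neg (mul_ne_zero h1 h2), Units.mk0_mul,
      Pi.mulSingle_mul, map_mul, toAdd_mul]
  · rw [key _ (h0 s) (hf s)]
    have : QuotientGroup.mk' G (fun i => Units.mk0 _ (h0 s i)) = 1 :=
      (QuotientGroup.eq_one_iff _).2 ⟨[s], fun i => by simp⟩
    rw [MonoidHom.comp_apply, this, map_one, toAdd_one]

theorem rBC : RBC.{u} := by
  intro F K₀ _ _ _ p _ _ h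
  let k := algebraicClosure F (AlgebraicClosure K₀)
  let K := IntermediateField.adjoin K₀ (k : Set (AlgebraicClosure K₀))
  letI : Algebra k K := (k.val.toRingHom.codRestrict K.toSubring
    fun x => IntermediateField.subset_adjoin K₀ _ x.2).toAlgebra
  have : CharP k p := charP_of_injective_algebraMap (algebraMap F k).injective p
  refine ⟨k, K, inferInstance, IsAlgClosure.isAlgClosed F, inferInstance, inferInstance,
    inferInstance, inferInstance, inferInstance, inferInstance,
    IsScalarTower.of_algebraMap_eq fun _ => rfl, inferInstance, inferInstance, tors F k p h, ?_⟩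
  rw [eq_top_iff]
  rintro ⟨x, hx⟩ -
  induction hx using IntermediateField.adjoin_induction with
  | mem x hx => exact Subfield.subset_closure (Or.inr ⟨⟨x, hx⟩, rfl⟩)
  | algebraMap c => exact Subfield.subset_closure (Or.inl ⟨c, rfl⟩)
  | add x y _ _ hx hy => exact add_mem hx hy
  | inv x _ hx => exact inv_mem hx
  | mul x y _ _ hx hy => exact mul_mem hx hy

end Pool.Agent.MP_f3836a_nt.PK
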