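import Pool.Agent.MP_f3836a_nt.PK.SpecS

set_option autoImplicit false

/-! Generizations of a point of a scheme and primes of its local ring. -/

namespace Pool.Agent.MP_f3836a_nt.PK

open IsLocalRing AlgebraicGeometry CategoryTheory Pool.Agent.MP_f3836a_nt.PS

namespace SSch

variable {X : Scheme.{0}}

/-- the prime of the local ring that belongs to a generization -/
noncomputable def pr {y z : X} (h : y ⤳ z) : AlgebraicGeometry.Spec (X.presheaf.stalk z) :=
  AlgebraicGeometry.Spec.map (X.presheaf.stalkSpecializes h) (closedPoint (X.presheaf.stalk y))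

theorem pr_map {y z : X} (h : y ⤳ z) : X.fromSpecStalk z (pr h) = y := by
  rw [pr, ← Scheme.Hom.comp_apply, Scheme.SpecMap_stalkSpecializes_fromSpecStalk,
    Scheme.fromSpecStalk_closedPoint]

theorem pr_ideal {y z : X} (h : y ⤳ z) : (pr h).asIdeal = RingHom.ker (ev h) := by
  ext a
  exact (residue_eq_zero_iff (sp h a)).symm

end SSch

theorem rSchA : RSchA := by
  intro X
  refine ⟨fun z q hq => ?_, fun y y' z h h' => ?_⟩
  · let Q : AlgebraicGeometry.Spec (X.presheaf.stalk z) := ⟨q, hq⟩
    have h : X.fromSpecStalk z Q ⤳ z := by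
      have : X.fromSpecStalk z Q ∈ Set.range (X.fromSpecStalk z) := ⟨Q, rfl⟩
      rwa [Scheme.range_fromSpecStalk] at this
    refine ⟨_, h, ?_⟩
    rw [← SSch.pr_ideal, (X.fromSpecStalk z).isEmbedding.injective (SSch.pr_map h)]
  · rw [← SSch.pr_ideal, ← SSch.pr_ideal, PrimeSpectrum.asIdeal_le_asIdeal,
      PrimeSpectrum.le_iff_specializes]
    refine ((X.fromSpecStalk z).isEmbedding.isInducing.specializes_iff).symm.trans ?_
    rw [SSch.pr_map, SSch.pr_map]

end Pool.Agent.MP_f3836a_nt.PK
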