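import Pool.Agent.MP_f3836a_nt.PK.SpecG

set_option autoImplicit false

/-! Transport of places, isomorphisms of composita, invariant additive maps. -/

namespace Pool.Agent.MP_f3836a_nt.PK

open Polynomial IsLocalRing

universe u

namespace AIso

section
variable {k L L' : Type u} [Field k] [Field L] [Field L'] [Algebra k L] [Algebra k L']

/-- the place transported along an isomorphism -/
def trp (hk : ∀ a : k, a ≠ 0 → ∃ n, 0 < n ∧ a ^ n = 1) (τ : L ≃+* L') (P : Place k L) :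
    Place k L' where
  V := P.V.comap τ.symm.toRingHom
  ne := fun h => P.ne (eq_top_iff.2 fun f _ => by
    have h1 : τ f ∈ P.V.comap τ.symm.toRingHom := h ▸ ValuationSubring.mem_top _
    have h2 : τ.symm (τ f) ∈ P.V := h1
    rwa [τ.symm_apply_apply] at h2)
  const := EOv.const_mem hk _

theorem mem_trp (hk : ∀ a : k, a ≠ 0 → ∃ n, 0 < n ∧ a ^ n = 1) (τ : L ≃+* L') (P : Place k L)
    (f : L') : f ∈ (trp hk τ P).V ↔ τ.symm f ∈ P.V := Iff.rfl

theorem trp_trp (hk : ∀ a : k, a ≠ 0 → ∃ n, 0 < n ∧ a ^ n = 1) (τ : L ≃+* L') (P : Place k L) :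
    trp hk τ.symm (trp hk τ P) = P :=
  Place.ext (SetLike.ext fun f => by
    rw [mem_trp, mem_trp, τ.symm_symm, τ.symm_apply_apply])

end

section
variable {κ k L Ω : Type u} [Field κ] [Field k] [Field L] [Field Ω]

theorem root_mem [IsAlgClosed k] (hk : ∀ a : k, a ≠ 0 → ∃ n, 0 < n ∧ a ^ n = 1) (α β : k →+* Ω)
    (a : k) : α a ∈ β.range := by
  by_cases h0 : a = 0
  · rw [h0, map_zero]
    exact zero_mem _
  obtain ⟨n, hn, e⟩ := hk a h0
  refine (IsAlgClosed.splits (X ^ n - C 1 : k[X])).mem_range_of_isRoot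
    (X_pow_sub_C_ne_zero hn 1) ?_
  simp [← map_pow, e]

variable [Algebra k L]

theorem range_le [IsAlgClosed k] (hk : ∀ a : k, a ≠ 0 → ∃ n, 0 < n ∧ a ^ n = 1) {ν : κ →+* L}
    (h : Subfield.closure (Set.range ν ∪ Set.range (algebraMap k L)) = ⊤) {L' : Type u} [Field L']
    [Algebra k L'] {ν' : κ →+* L'} (φ : L →+* Ω) (φ' : L' →+* Ω) (e : ∀ x, φ (ν x) = φ' (ν' x))
    (f : L) : φ f ∈ φ'.fieldRange := by
  have h1 : Subfield.closure (Set.range ν ∪ Set.range (algebraMap k L)) ≤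
      φ'.fieldRange.comap φ := by
    rw [Subfield.closure_le]
    rintro _ (⟨x, rfl⟩ | ⟨a, rfl⟩)
    · exact ⟨ν' x, (e x).symm⟩
    · obtain ⟨b, hb⟩ := root_mem hk (φ.comp (algebraMap k L)) (φ'.comp (algebraMap k L')) a
      exact ⟨_, hb⟩
  exact h1 (h ▸ Subfield.mem_top f)

theorem alg [Algebra κ L] (hk : ∀ a : k, a ≠ 0 → ∃ n, 0 < n ∧ a ^ n = 1)
    (h : Subfield.closure (Set.range (algebraMap κ L) ∪ Set.range (algebraMap k L)) = ⊤) :
    Algebra.IsAlgebraic κ L := by
  have h1 : Subfield.closure (Set.range (algebraMap κ L) ∪ Set.range (algebraMap k L)) ≤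
      (algebraicClosure κ L).toSubfield := by
    rw [Subfield.closure_le]
    rintro _ (⟨x, rfl⟩ | ⟨a, rfl⟩)
    · exact (algebraicClosure κ L).algebraMap_mem x
    · by_cases h0 : a = 0
      · rw [h0, map_zero]
        exact zero_mem _
      obtain ⟨n, hn, e⟩ := hk a h0
      refine mem_algebraicClosure_iff'.2 (IsIntegral.of_pow hn ?_)
      rw [← map_pow, e, map_one]
      exact isIntegral_one
  exact ⟨fun f => mem_algebraicClosure_iff.1 (h1 (h ▸ Subfield.mem_top f))⟩

theorem normal [IsAlgClosed k] [Algebra κ L] (hk : ∀ a : k, a ≠ 0 → ∃ n, 0 < n ∧ a ^ n = 1)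
    (h : Subfield.closure (Set.range (algebraMap κ L) ∪ Set.range (algebraMap k L)) = ⊤) :
    Normal κ L := by
  have := alg hk h
  let ι := IsScalarTower.toAlgHom κ L (AlgebraicClosure L)
  have : Normal κ ι.fieldRange := IntermediateField.normal_iff_forall_map_le.2 fun σ => by
    rintro _ ⟨_, ⟨f, rfl⟩, rfl⟩
    exact range_le hk h (σ.comp ι).toRingHom ι.toRingHom
      (fun x => ((σ.comp ι).commutes x).trans (ι.commutes x).symm) f
  exact Normal.of_algEquiv ι.equivFieldRange.symm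

omit [Algebra k L] in
theorem addv_prod {B : L → ℚ} (hB : Addv B) (h1 : B 1 = 0) (b : ℚ) (s : Multiset L) :
    (∀ c ∈ s, c ≠ 0 ∧ B c = b) → s.prod ≠ 0 ∧ B s.prod = s.card * b := by
  induction s using Multiset.induction_on with
  | empty => exact fun _ => ⟨by simp, by simp [h1]⟩
  | cons a s ih =>
    intro h
    obtain ⟨h2, h3⟩ := h a (Multiset.mem_cons_self a s)
    obtain ⟨h4, h5⟩ := ih fun c hc => h c (Multiset.mem_cons_of_mem hc)
    rw [Multiset.prod_cons, hB _ _ h2 h4, h3, h5, Multiset.card_cons]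
    exact ⟨mul_ne_zero h2 h4, by push_cast; ring⟩

end

end AIso

open AIso

theorem rTrf : RTrf.{u} := by
  intro k L L' _ _ _ _ _ τ hk hA
  refine ⟨⟨trp hk τ, trp hk τ.symm, trp_trp hk τ, trp_trp hk τ.symm⟩, fun P f => ⟨?_, ?_⟩⟩
  · exact (iff_of_eq (congrArg (· ∈ P.V) (τ.symm_apply_apply f))).symm
  · have : IsDiscreteValuationRing P.V.toSubring := hA.dvr P
    have e : (trp hk τ P).V.toSubring = P.V.toSubring.map τ.toRingHom := Subring.ext fun g =>
      ⟨fun h => ⟨τ.symm g, h, τ.apply_symm_apply g⟩, by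
        rintro ⟨g, h, rfl⟩
        exact (mem_trp hk τ P _).2 ((τ.symm_apply_apply g).symm ▸ h)⟩
    change ordR (trp hk τ P).V.toSubring (τ.toRingHom f) = ordR P.V.toSubring f
    rw [e]
    refine ordR_map _ _ inferInstance inferInstance (fun g => ?_) f
    rcases P.V.mem_or_inv_mem g with h | h
    · exact ⟨⟨g, h⟩, 1, one_ne_zero, mul_one g⟩
    · by_cases h0 : g = 0
      · exact ⟨0, 1, one_ne_zero, by rw [h0, zero_mul]; rfl⟩
      · exact ⟨1, ⟨g⁻¹, h⟩, inv_ne_zero h0, mul_inv_cancel₀ h0⟩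

theorem rIsoK : RIsoK.{u} := by
  intro κ k L L' _ _ _ _ _ _ _ ν ν' hk h h'
  let _ := ν.toAlgebra
  let _ := ν'.toAlgebra
  have := alg (κ := κ) hk h
  let φ : L →ₐ[κ] AlgebraicClosure L' := IsAlgClosed.lift
  let φ' := IsScalarTower.toAlgHom κ L' (AlgebraicClosure L')
  have e : ∀ x, φ.toRingHom (ν x) = φ'.toRingHom (ν' x) := fun x =>
    (φ.commutes x).trans (φ'.commutes x).symm
  have e' : φ.toRingHom.fieldRange = φ'.toRingHom.fieldRange := le_antisymm
    (by rintro _ ⟨f, rfl⟩; exact range_le hk h _ _ e f)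
    (by rintro _ ⟨f, rfl⟩; exact range_le hk h' _ _ (fun x => (e x).symm) f)
  refine ⟨(φ.toRingHom.rangeRestrictFieldEquiv.trans (RingEquiv.subfieldCongr e')).trans
    φ'.toRingHom.rangeRestrictFieldEquiv.symm, fun x => ?_⟩
  rw [RingEquiv.trans_apply, RingEquiv.symm_apply_eq]
  exact Subtype.ext (e x)

theorem rInv : RInv.{u} := by
  intro κ k L _ _ _ _ _ ν B hk h hB hi h0 g hg
  let _ := ν.toAlgebra
  have hN := normal (κ := κ) hk h
  have hI := hN.isIntegral g
  have hm := (minpoly.monic hI).map (algebraMap κ L)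
  obtain ⟨h1, h2⟩ := addv_prod hB (by simpa using h0 1 one_ne_zero) (B g)
    ((minpoly κ g).map (algebraMap κ L)).roots fun c hc => by
      obtain ⟨σ, rfl⟩ := minpoly.exists_algEquiv_of_root' hI.isAlgebraic
        (x := c) (by rw [aeval_def, ← eval_map]; exact (mem_roots hm.ne_zero).1 hc)
      exact ⟨(map_ne_zero σ).2 hg, hi σ.toRingEquiv σ.commutes g hg⟩
  have h3 := (hN.splits g).coeff_zero_eq_prod_roots_of_monic hm
  have h4 : ((minpoly κ g).map (algebraMap κ L)).roots.prod =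
      ν ((-1) ^ ((minpoly κ g).map (algebraMap κ L)).natDegree * (minpoly κ g).coeff 0) := by
    rw [map_mul, map_pow, map_neg, map_one, show ν ((minpoly κ g).coeff 0) = _ from
      (coeff_map _ _).symm.trans h3, ← mul_assoc, ← mul_pow, neg_mul_neg, one_mul, one_pow, one_mul]
  rw [h4] at h1 h2
  rw [h0 _ ((map_ne_zero ν).1 h1), ← (hN.splits g).natDegree_eq_card_roots, natDegree_map] at h2
  exact (mul_eq_zero.1 h2.symm).resolve_left (Nat.cast_ne_zero.2 (minpoly.natDegree_pos hI).ne')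

end Pool.Agent.MP_f3836a_nt.PK
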