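import Pool.Agent.MP_f3836a_nt.PK.SpecG

set_option autoImplicit false

/-! A function on places killing principal divisors is constant. -/

namespace Pool.Agent.MP_f3836a_nt.PK

universe u

namespace APic

open Polynomial

theorem comb {X : Type u} (S : Finset X) (D : X → ℤ) (e : Equiv.Perm X) (g : ℕ)
    (hD : ∀ x, 0 ≤ D x) (hS : ∀ x, D x ≠ 0 → x ∈ S) (hs : ∑ x ∈ S, D x = g)
    (he : ∀ x, D (e x) = D x) (x : X) (hx : D x ≠ 0) : (e ^ g.factorial) x = x := by
  classical
  set T := S.filter fun y => D y ≠ 0 with hT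
  have hmem : ∀ y, y ∈ T ↔ D y ≠ 0 := fun y => by
    rw [hT, Finset.mem_filter]
    exact ⟨fun h => h.2, fun h => ⟨hS y h, h⟩⟩
  have hcard : T.card ≤ g := by
    have h1 : ∑ y ∈ T, (1 : ℤ) ≤ ∑ y ∈ T, D y := by
      refine Finset.sum_le_sum fun y hy => ?_
      have := (hmem y).1 hy
      have := hD y
      omega
    have h2 : ∑ y ∈ T, D y ≤ ∑ y ∈ S, D y :=
      Finset.sum_le_sum_of_subset_of_nonneg (Finset.filter_subset _ _) fun y _ _ => hD y
    rw [hs] at h2
    simp only [Finset.sum_const, nsmul_eq_mul, mul_one] at h1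
    omega
  have hinv : ∀ y, e y ∈ T ↔ y ∈ T := fun y => by rw [hmem, hmem, he]
  let e' : Equiv.Perm {y // y ∈ T} := e.subtypePerm hinv
  have h1 : e' ^ Fintype.card (Equiv.Perm {y // y ∈ T}) = 1 := pow_card_eq_one
  rw [Fintype.card_perm, Fintype.card_coe] at h1
  obtain ⟨c, hc⟩ := Nat.factorial_dvd_factorial hcard
  have h2 : e' ^ g.factorial = 1 := by rw [hc, pow_mul, h1, one_pow]
  have h3 : (e' ^ g.factorial) ⟨x, (hmem x).2 hx⟩ = ⟨x, (hmem x).2 hx⟩ := by rw [h2]; rfl
  rw [Equiv.Perm.subtypePerm_pow] at h3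
  exact congrArg Subtype.val h3

section
variable {k L : Type u} [Field k] [Field L] [Algebra k L]

/-- membership in the space of `E` -/
def InL (E : Place k L → ℤ) (f : L) : Prop := f = 0 ∨ ∀ P, -E P ≤ P.ord f

theorem InL.add (hA : PlA k L) {E : Place k L → ℤ} {f g : L} (hf : InL E f) (hg : InL E g) :
    InL E (f + g) := by
  by_cases h0 : f = 0
  · rw [h0, zero_add]; exact hg
  by_cases h1 : g = 0
  · rw [h1, add_zero]; exact hf
  by_cases h2 : f + g = 0
  · exact Or.inl h2
  refine Or.inr fun P => ?_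
  have := hA.add P f g h0 h1 h2
  have a := hf.resolve_left h0 P
  have b := hg.resolve_left h1 P
  exact le_trans (le_min a b) this

theorem InL.sum (hA : PlA k L) {E : Place k L → ℤ} (m : ℕ) (f : ℕ → L) (hf : ∀ i, InL E (f i)) :
    InL E (∑ i ∈ Finset.range m, f i) := by
  induction m with
  | zero => exact Or.inl (by simp)
  | succ n ih => rw [Finset.sum_range_succ]; exact ih.add hA (hf n)

theorem InL.smul (hA : PlA k L) {E : Place k L → ℤ} {f : L} (c : k) (hf : InL E f) :
    InL E (algebraMap k L c * f) := by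
  by_cases h0 : f = 0
  · exact Or.inl (by rw [h0, mul_zero])
  by_cases h1 : algebraMap k L c = 0
  · exact Or.inl (by rw [h1, zero_mul])
  refine Or.inr fun P => ?_
  rw [hA.mul P _ _ h1 h0, hA.con, zero_add]
  exact hf.resolve_left h0 P

theorem InL.map {E : Place k L → ℤ} {f : L} (σ : L ≃+* L) (e : Equiv.Perm (Place k L))
    (h : ∀ P f, (e P).ord (σ f) = P.ord f) (hE : ∀ P, E (e P) = E P) (hf : InL E f) :
    InL E (σ f) := by
  rcases hf with hf | hf
  · exact Or.inl (by rw [hf, map_zero])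
  refine Or.inr fun P => ?_
  obtain ⟨R, rfl⟩ := e.surjective P
  rw [h, hE]
  exact hf R

theorem pow_succ_apply (σ : L ≃+* L) (i : ℕ) (f : L) : (σ ^ (i + 1)) f = σ ((σ ^ i) f) := by
  rw [pow_succ']; rfl

theorem InL.pow {E : Place k L → ℤ} {f : L} (σ : L ≃+* L) (e : Equiv.Perm (Place k L))
    (h : ∀ P f, (e P).ord (σ f) = P.ord f) (hE : ∀ P, E (e P) = E P) (hf : InL E f) (i : ℕ) :
    InL E ((σ ^ i) f) := by
  induction i with
  | zero => exact hf
  | succ n ih => rw [pow_succ_apply]; exact ih.map σ e h hE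

theorem mem_pow (σ : L ≃+* L) (e : Equiv.Perm (Place k L))
    (h : ∀ P f, f ∈ P.V ↔ σ f ∈ (e P).V) (i : ℕ) (P : Place k L) (f : L) :
    f ∈ P.V ↔ (σ ^ i) f ∈ ((e ^ i) P).V := by
  induction i with
  | zero => exact Iff.rfl
  | succ n ih =>
    rw [pow_succ_apply, pow_succ', Equiv.Perm.mul_apply, ← h]
    exact ih

theorem fix_eq (σ : L ≃+* L) (e : Equiv.Perm (Place k L))
    (h : ∀ P f, f ∈ P.V ↔ σ f ∈ (e P).V) (P : Place k L) (hP : P.Fix σ) : e P = P := by
  refine Place.ext ?_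
  ext f
  obtain ⟨g, rfl⟩ := σ.surjective f
  rw [← h, ← hP g]

theorem pow_con (σ : L ≃+* L) (q : ℕ)
    (hσ : ∀ a, σ (algebraMap k L a) = algebraMap k L (a ^ q)) (i : ℕ) (a : k) :
    (σ ^ i) (algebraMap k L a) = algebraMap k L (a ^ q ^ i) := by
  induction i with
  | zero => simp
  | succ n ih => rw [pow_succ_apply, ih, hσ, ← pow_mul, ← pow_succ]

theorem ex_con [IsAlgClosed k] (p : ℕ) [Fact p.Prime] [CharP k p] (r m : ℕ) (hr : 1 ≤ r)
    (hm : 0 < m) (w : ℕ → L) (hw : w 0 ≠ 0) :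
    ∃ c : k, c ^ (p ^ r) ^ m = c ∧
      ∑ i ∈ Finset.range m, algebraMap k L (c ^ (p ^ r) ^ i) * w i ≠ 0 := by
  classical
  have hp : 1 < p := (Fact.out : p.Prime).one_lt
  have hq : 1 < p ^ r := Nat.one_lt_pow (by omega) hp
  set q := p ^ r with hqd
  let R : L[X] := ∑ i ∈ Finset.range m, C (w i) * X ^ q ^ i
  have hR0 : R ≠ 0 := by
    intro h0
    have h1 : R.coeff 1 = w 0 := by
      simp only [R, finsetSum_coeff, coeff_C_mul, coeff_X_pow]
      rw [Finset.sum_eq_single 0]
      · simp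
      · intro i _ hi
        have : 1 < q ^ i := Nat.one_lt_pow hi hq
        rw [if_neg (by omega), mul_zero]
      · intro h; exact absurd (Finset.mem_range.2 hm) h
    rw [h0, coeff_zero] at h1
    exact hw h1.symm
  have hdeg : R.natDegree < q ^ m := by
    have h1 : R.natDegree ≤ q ^ (m - 1) := by
      refine natDegree_sum_le_of_forall_le _ _ fun i hi => ?_
      refine (natDegree_C_mul_X_pow_le _ _).trans ?_
      exact Nat.pow_le_pow_right (by omega) (by have := Finset.mem_range.1 hi; omega)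
    exact h1.trans_lt (Nat.pow_lt_pow_right hq (by omega))
  have hqm : 1 < q ^ m := Nat.one_lt_pow (by omega) hq
  have hsep : (X ^ q ^ m - X : k[X]).Separable := by
    refine galois_poly_separable p _ ?_
    rw [hqd, ← pow_mul]
    exact dvd_pow_self p (Nat.mul_ne_zero (by omega) (by omega))
  have hne : (X ^ q ^ m - X : k[X]) ≠ 0 := FiniteField.X_pow_card_sub_X_ne_zero k hqm
  have hcard : (X ^ q ^ m - X : k[X]).roots.toFinset.card = q ^ m := by
    rw [Multiset.toFinset_card_of_nodup (nodup_roots hsep), IsAlgClosed.card_roots_eq_natDegree,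
      FiniteField.X_pow_card_sub_X_natDegree_eq k hqm]
  by_contra hcon
  push Not at hcon
  have hsub : ((X ^ q ^ m - X : k[X]).roots.toFinset.image (algebraMap k L)).val ⊆ R.roots := by
    intro x hx
    obtain ⟨c, hc, rfl⟩ := Finset.mem_image.1 (Finset.mem_def.2 hx)
    rw [Multiset.mem_toFinset, mem_roots hne, IsRoot, eval_sub, eval_pow, eval_X, sub_eq_zero] at hc
    rw [mem_roots hR0, IsRoot]
    rw [← hcon c hc]
    simp only [R, eval_finsetSum, eval_mul, eval_C, eval_pow, eval_X, map_pow]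
    exact Finset.sum_congr rfl fun i _ => mul_comm _ _
  have h2 := card_le_degree_of_subset_roots hsub
  rw [Finset.card_image_of_injective _ (algebraMap k L).injective, hcard] at h2
  omega

theorem ex_fix [IsAlgClosed k] (p : ℕ) [Fact p.Prime] [CharP k p] (hA : PlA k L) (r : ℕ)
    (hr : 1 ≤ r) (σ : L ≃+* L) (e : Equiv.Perm (Place k L))
    (hσ : ∀ a, σ (algebraMap k L a) = algebraMap k L (a ^ p ^ r))
    (h : ∀ P f, (e P).ord (σ f) = P.ord f) (E : Place k L → ℤ) (hE : ∀ P, E (e P) = E P)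
    (f : L) (hf : f ≠ 0) (hl : InL E f) (m : ℕ) (hm : 0 < m) (hfix : (σ ^ m) f = f) :
    ∃ g : L, g ≠ 0 ∧ σ g = g ∧ ∀ P, -E P ≤ P.ord g := by
  obtain ⟨c, hc, hne⟩ := ex_con (k := k) p r m hr hm (fun i => (σ ^ i) f) hf
  have heq : ∀ i, algebraMap k L (c ^ (p ^ r) ^ i) * (σ ^ i) f =
      (σ ^ i) (algebraMap k L c * f) := fun i => by
    rw [map_mul, pow_con σ _ hσ]
  simp only [heq] at hne
  refine ⟨_, hne, ?_, ?_⟩
  · rw [map_sum]
    simp only [← pow_succ_apply]
    have h1 := Finset.sum_range_succ (fun i => (σ ^ i) (algebraMap k L c * f)) m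
    have h2 := Finset.sum_range_succ' (fun i => (σ ^ i) (algebraMap k L c * f)) m
    have h3 : (σ ^ m) (algebraMap k L c * f) = (σ ^ 0) (algebraMap k L c * f) := by
      rw [← heq, hc, hfix]; rfl
    rw [h1, h3] at h2
    exact (add_right_cancel h2).symm
  · exact (InL.sum hA m _ fun i => (hl.smul hA c).pow σ e h hE i).resolve_left hne

end

theorem fin_eq (a b B : ℚ) (h : ∀ n : ℕ, |n * a + b| ≤ B) : a = 0 := by
  by_contra ha
  have hpos : 0 < |a| := abs_pos.2 ha
  obtain ⟨n, hn⟩ := exists_nat_gt ((B + |b|) / |a|)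
  rw [div_lt_iff₀ hpos] at hn
  have h1 := h n
  have h2 : |n * a| ≤ |n * a + b| + |b| := by
    have := abs_sub (n * a + b) b
    rwa [add_sub_cancel_right] at this
  rw [abs_mul, abs_of_nonneg (Nat.cast_nonneg n : (0 : ℚ) ≤ n)] at h2
  linarith

end APic

open APic in
theorem rPicK : RRiem.{u} → RSigF.{u} → RTrf.{u} → RPicK.{u} := by
  intro h1 h2 h3 k L _ _ _ _ p _ _ hk hF hA hB β hβ P Q
  classical
  obtain ⟨g, hg⟩ := h1 k L p hk hF hA hB
  obtain ⟨σ, r, hr, hσ, hT, hper, hfin⟩ := h2 k L p hk hF hA hB {P, Q} (Set.toFinite _)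
  obtain ⟨e, he⟩ := h3 k L L σ hk hA
  have he1 : ∀ R f, f ∈ R.V ↔ σ f ∈ (e R).V := fun R f => (he R f).1
  have he2 : ∀ R f, (e R).ord (σ f) = R.ord f := fun R f => (he R f).2
  have hP : e P = P := fix_eq σ e he1 P (hT P (by simp))
  have hQ : e Q = Q := fix_eq σ e he1 Q (hT Q (by simp))
  obtain ⟨B, hB0⟩ := ((hfin _ g.toNat.factorial_pos).image fun R => |β R|).bddAbove
  have hBd : ∀ R : Place k L, R.Fix (σ ^ g.toNat.factorial) → |β R| ≤ B :=
    fun R hR => hB0 ⟨R, hR, rfl⟩
  rw [← sub_eq_zero]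
  refine fin_eq _ (g.toNat * β Q) (g.toNat * B) fun n => ?_
  let E : Place k L →₀ ℤ := Finsupp.single P (n : ℤ) + Finsupp.single Q ((g.toNat : ℤ) - n)
  have hE : ∀ R, E R = (if P = R then (n : ℤ) else 0) +
      if Q = R then (g.toNat : ℤ) - n else 0 := fun R => by
    simp only [E, Finsupp.add_apply, Finsupp.single_apply]
  have hEe : ∀ R, E (e R) = E R := fun R => by
    have a : P = e R ↔ P = R := by
      conv_lhs => rw [← hP]
      exact e.apply_eq_iff_eq
    have b : Q = e R ↔ Q = R := by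
      conv_lhs => rw [← hQ]
      exact e.apply_eq_iff_eq
    rw [hE, hE]
    simp only [a, b]
  have hEs : ∀ S : Finset (Place k L), P ∈ S → Q ∈ S → ∑ R ∈ S, E R = g.toNat := by
    intro S a b
    simp only [hE, Finset.sum_add_distrib, Finset.sum_ite_eq, if_pos a, if_pos b]
    ring
  have hE0 : ∀ R, E R ≠ 0 → R = P ∨ R = Q := by
    intro R hR
    by_contra hc
    push Not at hc
    rw [hE, if_neg hc.1.symm, if_neg hc.2.symm, add_zero] at hR
    exact hR rfl
  obtain ⟨f, hf0, hf⟩ := hg E (by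
    rw [finsum_eq_sum_of_support_subset (s := {P, Q})]
    · rw [hEs _ (by simp) (by simp)]
      exact Int.self_le_toNat g
    · intro R hR
      simpa using hE0 R hR)
  obtain ⟨m, hm, hfix⟩ := hper f
  obtain ⟨w, hw0, hwf, hw⟩ := ex_fix p hA r hr σ e hσ he2 E hEe f hf0 (Or.inr hf) m hm hfix
  let S : Finset (Place k L) := insert P (insert Q (hB.fin w).toFinset)
  have hPS : P ∈ S := Finset.mem_insert_self _ _
  have hQS : Q ∈ S := Finset.mem_insert_of_mem (Finset.mem_insert_self _ _)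
  have hS : ∀ R : Place k L, R.ord w ≠ 0 → R ∈ S := fun R hR =>
    Finset.mem_insert_of_mem (Finset.mem_insert_of_mem ((hB.fin w).mem_toFinset.2 hR))
  have s1 : ∑ R ∈ S, R.ord w = 0 := by
    rw [← hB.sum w, finsum_eq_sum_of_support_subset (s := S)]
    intro R hR
    exact hS R hR
  have s2 : ∑ R ∈ S, (R.ord w : ℚ) * β R = 0 := by
    rw [← hβ w hw0, finsum_eq_sum_of_support_subset (s := S)]
    intro R hR
    refine hS R fun h0 => hR ?_
    simp [h0]
  let D : Place k L → ℤ := fun R => R.ord w + E R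
  have hD0 : ∀ R, 0 ≤ D R := fun R => by have := hw R; simp only [D]; omega
  have hDS : ∀ R, D R ≠ 0 → R ∈ S := by
    intro R hR
    by_cases h0 : R.ord w = 0
    · have : E R ≠ 0 := by simpa [D, h0] using hR
      rcases hE0 R this with rfl | rfl
      · exact hPS
      · exact hQS
    · exact hS R h0
  have hDs : ∑ R ∈ S, D R = g.toNat := by
    simp only [D, Finset.sum_add_distrib, s1, hEs S hPS hQS, zero_add]
  have hDe : ∀ R, D (e R) = D R := fun R => by
    have := he2 R w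
    rw [hwf] at this
    simp only [D, this, hEe]
  have hfx : ∀ R, D R ≠ 0 → |β R| ≤ B := fun R hR => by
    refine hBd R fun x => ?_
    have := mem_pow σ e he1 g.toNat.factorial R x
    rwa [comb S D e g.toNat hD0 hDS hDs hDe R hR] at this
  have s3 : ∑ R ∈ S, (D R : ℚ) * β R = n * (β P - β Q) + g.toNat * β Q := by
    have : ∀ R, (D R : ℚ) * β R = (R.ord w : ℚ) * β R + ((if P = R then n * β R else 0) +
        if Q = R then ((g.toNat : ℚ) - n) * β R else 0) := fun R => by
      simp only [D, hE]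
      split_ifs <;> push_cast <;> ring
    simp only [this, Finset.sum_add_distrib, s2, Finset.sum_ite_eq, if_pos hPS, if_pos hQS]
    ring
  rw [← s3]
  refine (Finset.abs_sum_le_sum_abs _ _).trans ?_
  have s4 : ((g.toNat : ℕ) : ℚ) = ∑ R ∈ S, (D R : ℚ) := by
    rw [← Int.cast_sum, hDs]; simp only [Int.cast_natCast]
  rw [s4, Finset.sum_mul]
  refine Finset.sum_le_sum fun R _ => ?_
  have a : (0 : ℚ) ≤ D R := by exact_mod_cast hD0 R
  rw [abs_mul, abs_of_nonneg a]
  by_cases h0 : D R = 0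
  · simp [h0]
  · exact mul_le_mul_of_nonneg_left (hfx R h0) a

end Pool.Agent.MP_f3836a_nt.PK
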