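import Pool.Agent.MP_f3836a_nt.PK.ASum

set_option autoImplicit false

/-! Divisor classes of degree zero on a curve over a finite field are torsion. -/

namespace Pool.Agent.MP_f3836a_nt.PK

open MvPolynomial IsLocalRing IntermediateField Stp

universe u

namespace APicB

variable {S : Stp.{u}}

/-- the functional on the function field of a component -/
noncomputable def B (w : S.H → ℚ) (c' : S.H') (g : c'.var.K) : ℚ :=
  ∑ᶠ P : Place S.k c'.var.K, (P.ord g : ℚ) * w (cy c' P)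

theorem cy_eq (hB : S.Bas) (hCy : S.CyA) {c y : S.H} (hc : c.IsCv) {c' : S.H'} (h : O c' c)
    (P : Place S.k c'.var.K) {hy : c.P ≤ y.P} {W : ValuationSubring (S.M.κ c)}
    (hW : PT.Dom (S.M.e c y hy) W) (e : ∀ f, f ∈ W ↔ nu h f ∈ P.V) : cy c' P = y := by
  obtain ⟨-, h1, h2⟩ := hCy.dom c' c h hc P
  have e' : P.V.comap (nu h) = W := SetLike.ext fun f => (e f).symm
  exact hB.cen.uniq c W _ _ h1 hy (e' ▸ h2) hW

theorem trans (hT : RTrf.{u}) (hB : S.Bas) (hCy : S.CyA) (w : S.H → ℚ) {c : S.H} (hc : c.IsCv)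
    {c₁ c₂ : S.H'} (h₁ : O c₁ c) (h₂ : O c₂ c) (τ : c₁.var.K ≃+* c₂.var.K)
    (hτ : ∀ x, τ (nu h₁ x) = nu h₂ x) (g : c₁.var.K) : B w c₂ (τ g) = B w c₁ g := by
  obtain ⟨e, he⟩ := hT S.k _ _ τ S.hk (hB.crv c₁ c h₁ hc).pa
  unfold B
  rw [← finsum_comp_equiv e]
  refine finsum_congr fun P => ?_
  obtain ⟨-, h1, h2⟩ := hCy.dom c₁ c h₁ hc P
  rw [(he P g).2, cy_eq hB hCy hc h₂ (e P) h2 fun f => by rw [← hτ, ← (he P _).1]; rfl]

theorem addv (hB : S.Bas) (w : S.H → ℚ) {c : S.H} (hc : c.IsCv) {c' : S.H'} (h : O c' c) :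
    Addv (B w c') := by
  intro f g hf hg
  have hC := hB.crv c' c h hc
  have key : ∀ t : c'.var.K, Function.HasFiniteSupport
      fun P : Place S.k c'.var.K => (P.ord t : ℚ) * w (cy c' P) := fun t =>
    (hC.pb.fin t).subset fun P hP h0 => hP (by simp [h0])
  unfold B
  rw [← finsum_add_distrib (key f) (key g)]
  refine finsum_congr fun P => ?_
  rw [hC.pa.mul P f g hf hg]
  push_cast
  ring

theorem const_mem {k L : Type u} [Field k] [Field L] [Algebra k L]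
    (hk : ∀ a : k, a ≠ 0 → ∃ n, 0 < n ∧ a ^ n = 1) (W : ValuationSubring L) (a : k) :
    algebraMap k L a ∈ W := by
  rcases eq_or_ne a 0 with rfl | ha
  · rw [map_zero]
    exact zero_mem _
  obtain ⟨n, hn, e⟩ := hk a ha
  rcases W.mem_or_inv_mem (algebraMap k L a) with h | h
  · exact h
  · obtain ⟨m, rfl⟩ : ∃ m, n = m + 1 := ⟨n - 1, by omega⟩
    have e2 : a = a⁻¹ ^ m := by
      rw [inv_pow]
      exact eq_inv_of_mul_eq_one_right (by rw [← pow_succ, e])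
    rw [e2, map_pow, map_inv₀]
    exact pow_mem h m

end APicB

open APicB

theorem rPicB (hI : RIsoK.{u}) (hT : RTrf.{u}) (hV : RInv.{u}) (hK : RPicK.{u}) (hC : RChain.{u})
    (hE : RExtV.{u}) : RPicB.{u} := by
  intro S hB hD hCy hS c β hc h0
  obtain ⟨c₀, h₀⟩ := hB.u1.lo c
  set w : S.H → ℚ := fun y => β y / nP y with hw
  have van : ∀ x, x ≠ 0 → B w c₀ (nu h₀ x) = 0 := by
    intro x hx
    have : Finite {c' : S.H' // O c' c} := (hB.u1.fin c).to_subtype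
    have : Nonempty {c' : S.H' // O c' c} := ⟨⟨c₀, h₀⟩⟩
    have := Fintype.ofFinite {c' : S.H' // O c' c}
    have h1 : ∑ᶠ (c' : S.H') (h : O c' c), B w c' (nu h x) = 0 :=
      (hS c x β hc hx).2.symm.trans (h0 x hx)
    have h2 : ∀ a : {c' : S.H' // O c' c}, B w a.1 (nu a.2 x) = B w c₀ (nu h₀ x) := by
      intro a
      obtain ⟨τ, hτ⟩ := hI _ S.k _ _ (nu h₀) (nu a.2) S.hk (hB.u2.gen _ _ h₀) (hB.u2.gen _ _ a.2)
      rw [← hτ, trans hT hB hCy w hc h₀ a.2 τ hτ]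
    rw [ASum.dep, finsum_congr h2, finsum_eq_sum_of_fintype, Finset.sum_const, nsmul_eq_mul] at h1
    refine (mul_eq_zero.1 h1).resolve_left ?_
    exact_mod_cast Finset.card_ne_zero.2 Finset.univ_nonempty
  have all := hV _ S.k _ (nu h₀) (B w c₀) S.hk (hB.u2.gen _ _ h₀) (addv hB w hc h₀)
    (fun τ hτ g _ => trans hT hB hCy w hc h₀ h₀ τ hτ g) van
  have hF := hB.crv c₀ c h₀ hc
  have cst := hK S.k c₀.var.K S.p S.hk hF.ff hF.pa hF.pb (fun P => w (cy c₀ P)) all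
  obtain ⟨δ, hδ⟩ : ∃ δ, ∀ P : Place S.k c₀.var.K, w (cy c₀ P) = δ := by
    rcases isEmpty_or_nonempty (Place S.k c₀.var.K) with h | ⟨⟨Q⟩⟩
    · exact ⟨0, fun P => h.elim P⟩
    · exact ⟨_, fun P => cst P Q⟩
  obtain ⟨γ, hγ⟩ := hD.ex
  refine ⟨δ / γ, fun y hy hle => ?_⟩
  obtain ⟨W, -, -, hW, -⟩ := hC _ _ _ (S.M.e c y hle) (S.M.e c y hle) le_rfl
  obtain ⟨W', hW'⟩ := hE _ _ (nu h₀) W
  have hne : W' ≠ ⊤ := by
    rintro rfl
    have e : W = ⊤ := eq_top_iff.2 fun f _ => (hW' f).2 trivial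
    subst e
    exact hc.1 (S.M.dom_top hW ▸ hy)
  have h1 := hδ ⟨W', hne, const_mem S.hk W'⟩
  rw [cy_eq hB hCy hc h₀ ⟨W', hne, const_mem S.hk W'⟩ hW hW'] at h1
  obtain ⟨-, p1, p2⟩ := hD.fin y hy
  have q1 : (nP y : ℚ) ≠ 0 := by exact_mod_cast p1.ne'
  have q2 : γ ≠ 0 := by
    rintro rfl
    have := hγ y hy
    rw [zero_mul] at this
    exact p2.ne' (by exact_mod_cast this)
  rw [hγ y hy, ← h1, hw]
  field_simp

end Pool.Agent.MP_f3836a_nt.PK
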