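import Pool.Agent.MP_f3836a_nt.PK.SpecG
import Pool.Agent.MP_f3836a_nt.PK.Prim

set_option autoImplicit false

/-! Row SigF: a Frobenius automorphism of a function field fixing given places. -/

namespace Pool.Agent.MP_f3836a_nt.PK

open MvPolynomial IntermediateField

universe u

namespace ASig

variable {k L : Type u} [Field k] [Field L] [Algebra k L]

theorem pow_fix {τ : L ≃+* L} {f : L} {m : ℕ} (h : (τ ^ m) f = f) (j : ℕ) :
    (τ ^ (m * j)) f = f := by
  induction j with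
  | zero => rfl
  | succ j ih => rw [mul_add_one, pow_add]; exact (congrArg _ h).trans ih

theorem fix_pow {τ : L ≃+* L} {P : Place k L} {m : ℕ} (h : P.Fix (τ ^ m)) (j : ℕ) :
    P.Fix (τ ^ (m * j)) := by
  induction j with
  | zero => exact fun _ => Iff.rfl
  | succ j ih => rw [mul_add_one, pow_add]; exact fun f => (h f).trans (ih _)

theorem pow_const {τ : L ≃+* L} {p n : ℕ}
    (h : ∀ a, τ (algebraMap k L a) = algebraMap k L (a ^ p ^ n)) (j : ℕ) (a : k) :
    (τ ^ j) (algebraMap k L a) = algebraMap k L (a ^ p ^ (n * j)) := by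
  induction j with
  | zero => simp
  | succ j ih =>
    rw [pow_succ', mul_add_one, pow_add, pow_mul, ← h, ← ih]
    rfl

theorem gens (t : L) [FiniteDimensional (adjoin k {t}) L] :
    ∃ (m : ℕ) (η : Fin (m + 1) → L), η 0 = t ∧ adjoin k (Set.range η) = ⊤ := by
  obtain ⟨m, b, hb⟩ := Module.Finite.exists_fin (R := adjoin k {t}) (M := L)
  refine ⟨m, Fin.cons t b, rfl, top_unique fun f hf => ?_⟩
  replace hf : f ∈ Submodule.span (adjoin k {t}) (Set.range b) := hb ▸ Submodule.mem_top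
  induction hf using Submodule.span_induction with
  | mem x hx =>
    obtain ⟨j, rfl⟩ := hx
    exact subset_adjoin _ _ ⟨j.succ, rfl⟩
  | zero => exact zero_mem _
  | add x y _ _ hx hy => exact add_mem hx hy
  | smul c x _ hx =>
    exact mul_mem (adjoin.mono _ _ _ (Set.singleton_subset_iff.2
      (Set.mem_range_self (f := Fin.cons t b) 0)) c.2) hx

variable (p : ℕ) [Fact p.Prime] [CharP k p] (hk : ∀ a : k, a ≠ 0 → ∃ n, 0 < n ∧ a ^ n = 1)

include hk

/-- a Frobenius automorphism fixing given generators -/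
theorem frob [IsAlgClosed k] {m : ℕ} {η : Fin m → L} (hη : adjoin k (Set.range η) = ⊤) :
    ∃ (σ : L ≃+* L) (n : ℕ), 1 ≤ n ∧
      (∀ a, σ (algebraMap k L a) = algebraMap k L (a ^ p ^ n)) ∧ ∀ j, σ (η j) = η j := by
  classical
  have : ExpChar k p := ExpChar.prime Fact.out
  obtain ⟨s, hs⟩ := IsNoetherian.noetherian (R := MvPolynomial (Fin m) k)
    (RingHom.ker (aeval η : _ →ₐ[k] L))
  choose e e1 e2 using fun a : k => BGenA.exists_fix p (hk a)
  let c := s.biUnion coeffs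
  let φ : k ≃+* k := iterateFrobeniusEquiv k p (∏ a ∈ c, e a)
  have hφ : ∀ a ∈ c, φ a = a := fun a ha => by
    obtain ⟨j, hj⟩ := Finset.dvd_prod_of_mem e ha
    change a ^ p ^ (∏ a ∈ c, e a) = a
    rw [hj]
    exact BGenA.fix_pow (e2 a) j
  have key : ∀ ψ : k →+* k, (∀ a ∈ c, ψ a = a) → ∀ G, aeval η G = 0 → aeval η (map ψ G) = 0 := by
    intro ψ hψ
    have : RingHom.ker (aeval η : _ →ₐ[k] L) ≤ (RingHom.ker (aeval η : _ →ₐ[k] L)).comap (map ψ) := by
      refine hs.ge.trans (Submodule.span_le.2 fun G hG => ?_)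
      have h1 : map ψ G = G := MvPolynomial.ext _ _ fun d => by
        rw [coeff_map]
        by_cases h0 : coeff d G = 0
        · rw [h0, map_zero]
        · exact hψ _ (Finset.mem_biUnion.2 ⟨G, hG, coeff_mem_coeffs d h0⟩)
      change map ψ G ∈ RingHom.ker (aeval η : _ →ₐ[k] L)
      rw [h1, ← hs]
      exact Submodule.subset_span hG
    exact fun G hG => this hG
  obtain ⟨σ, s1, s2, -⟩ := rFrob k L m η φ (fun f => by
      obtain ⟨A, B, h⟩ := (mem_adjoin_range_iff k η f).1 (hη ▸ mem_top)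
      by_cases hB : aeval η B = 0
      · exact ⟨0, 1, by simp, by simp [h, hB]⟩
      · exact ⟨A, B, hB, by rw [h, div_mul_cancel₀ _ hB]⟩)
    fun G => ⟨key _ hφ G, fun h => by
      have := key φ.symm (fun a ha => φ.symm_apply_eq.2 (hφ a ha).symm) _ h
      rwa [MvPolynomial.map_map, RingEquiv.symm_comp, MvPolynomial.map_id] at this⟩
  exact ⟨σ, _, Finset.one_le_prod' fun a _ => e1 a, s1, s2⟩

theorem orb {m : ℕ} {η : Fin m → L} (hη : adjoin k (Set.range η) = ⊤) {σ : L ≃+* L} {n : ℕ}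
    (s1 : ∀ a, σ (algebraMap k L a) = algebraMap k L (a ^ p ^ n)) (s2 : ∀ j, σ (η j) = η j)
    (f : L) : ∃ j, 0 < j ∧ (σ ^ j) f = f := by
  have hf : f ∈ adjoin k (Set.range η) := hη ▸ mem_top
  induction hf using adjoin_induction with
  | mem x hx =>
    obtain ⟨j, rfl⟩ := hx
    exact ⟨1, one_pos, s2 j⟩
  | algebraMap a =>
    obtain ⟨j, h1, h2⟩ := BGenA.exists_fix p (hk a)
    exact ⟨j, h1, by rw [pow_const s1, mul_comm, BGenA.fix_pow h2]⟩
  | add x y _ _ hx hy =>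
    obtain ⟨i, h1, h2⟩ := hx
    obtain ⟨j, h3, h4⟩ := hy
    exact ⟨i * j, mul_pos h1 h3, by rw [map_add, pow_fix h2, mul_comm, pow_fix h4]⟩
  | inv x _ hx => exact hx.imp fun j h => ⟨h.1, by rw [map_inv₀, h.2]⟩
  | mul x y _ _ hx hy =>
    obtain ⟨i, h1, h2⟩ := hx
    obtain ⟨j, h3, h4⟩ := hy
    exact ⟨i * j, mul_pos h1 h3, by rw [map_mul, pow_fix h2, mul_comm i, pow_fix h4]⟩

omit [Fact p.Prime] [CharP k p] in
/-- every place is fixed by a power -/
theorem per (hT : RTrf.{u}) (hA : PlA k L) (hB : PlB k L) {σ : L ≃+* L}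
    (ho : ∀ f, ∃ j, 0 < j ∧ (σ ^ j) f = f) (P : Place k L) : ∃ j, 0 < j ∧ P.Fix (σ ^ j) := by
  obtain ⟨π, -, hπ⟩ := hA.uni P
  obtain ⟨m, hm, h1⟩ := ho π
  obtain ⟨e, he⟩ := hT k L L (σ ^ m) hk hA
  have h2 : ∀ j : ℕ, (∀ f, f ∈ P.V ↔ (σ ^ (m * j)) f ∈ (e^[j] P).V) ∧ (e^[j] P).ord π = 1 := by
    intro j
    induction j with
    | zero => exact ⟨fun _ => Iff.rfl, hπ⟩
    | succ j ih =>
      rw [Function.iterate_succ_apply', mul_add_one, add_comm, pow_add]
      exact ⟨fun f => (ih.1 f).trans (he _ _).1, by rw [← ih.2, ← (he (e^[j] P) π).2, h1]⟩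
  obtain ⟨i, j, hij, h3⟩ := Set.Finite.exists_lt_map_eq_of_forall_mem (f := fun j : ℕ => e^[j] P)
    (fun j => (h2 j).2.trans_ne one_ne_zero) (hB.fin π)
  obtain ⟨d, rfl⟩ := Nat.exists_eq_add_of_lt hij
  rw [add_assoc, Function.iterate_add_apply] at h3
  refine ⟨m * (d + 1), mul_pos hm d.succ_pos, fun f => ?_⟩
  rw [(h2 (d + 1)).1 f, ← e.injective.iterate i h3]

omit hk in
theorem fin (hA : PlA k L) (hB : PlB k L) {t : L} (ht : Transcendental k t) {τ : L ≃+* L} {q : ℕ}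
    (hq : 1 < q) (s1 : ∀ a, τ (algebraMap k L a) = algebraMap k L (a ^ q)) (s2 : τ t = t) :
    {P : Place k L | P.Fix τ}.Finite := by
  have h0 : ∀ a : k, t - algebraMap k L a ≠ 0 := fun a h =>
    ht (sub_eq_zero.1 h ▸ isAlgebraic_algebraMap a)
  refine ((hB.fin t).union ((Polynomial.finite_setOfPred_isRoot
    (FiniteField.X_pow_card_sub_X_ne_zero k hq)).biUnion
      fun a _ => hB.fin (t - algebraMap k L a))).subset fun P hP => ?_
  by_cases hm : t ∈ P.V
  · have z0 := (hA.val P t hm _).2 rfl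
    have z1 := (hA.zero P _).1 z0
    have z2 : τ (t - algebraMap k L (P.val t)) ∈ P.V.nonunits := by
      rw [ValuationSubring.mem_nonunits_iff_or] at z1 ⊢
      exact z1.imp (fun h => by rw [h, map_zero]) fun h => by
        rw [← map_inv₀]; exact mt (hP _).2 h
    rw [map_sub, s2, s1] at z2
    refine Or.inr (Set.mem_biUnion (x := P.val t) ?_ (z0.resolve_left (h0 _)).ne')
    simpa [sub_eq_zero] using ((hA.val P t hm _).1 ((hA.zero P _).2 z2)).symm
  · exact Or.inl fun h => hm ((hA.mem P t (by simpa using h0 0)).2 h.ge)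

end ASig

open ASig in
theorem rSigF : RTrf.{u} → RSigF.{u} := by
  intro hT k L _ _ _ _ p _ _ hk ⟨t, ht, _⟩ hA hB T hfin
  obtain ⟨m, η, rfl, hη⟩ := gens (k := k) t
  obtain ⟨σ, n, hn, s1, s2⟩ := frob p hk hη
  have ho := orb p hk hη s1 s2
  choose e e1 e2 using per hk hT hA hB ho
  have hM : 0 < ∏ P ∈ hfin.toFinset, e P := Finset.prod_pos fun P _ => e1 P
  refine ⟨σ ^ ∏ P ∈ hfin.toFinset, e P, _, mul_pos hn hM, pow_const s1 _, fun P hP => ?_,
    fun f => (ho f).imp fun j h => ⟨h.1, ?_⟩, fun j hj => ?_⟩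
  · obtain ⟨j, h⟩ := Finset.dvd_prod_of_mem e (hfin.mem_toFinset.2 hP)
    rw [h]
    exact fix_pow (e2 P) j
  · rw [← pow_mul, mul_comm]
    exact pow_fix h.2 _
  · rw [← pow_mul]
    refine fin hA hB ht (Nat.one_lt_pow (mul_pos hn (mul_pos hM hj)).ne'
      (Fact.out : p.Prime).one_lt) (pow_const s1 _) ?_
    simpa using pow_fix (m := 1) (s2 0) _

end Pool.Agent.MP_f3836a_nt.PK
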