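import Pool.Agent.MP_f3836a_nt.PK.SpecG

set_option autoImplicit false

/-! Sums over closed points as sums over places. -/

namespace Pool.Agent.MP_f3836a_nt.PK

open MvPolynomial IsLocalRing IntermediateField Stp

universe u

namespace ASum

theorem dep {A R : Type*} [AddCommMonoid R] (p : A → Prop) (F : ∀ a, p a → R) :
    ∑ᶠ (a) (h : p a), F a h = ∑ᶠ a : Subtype p, F a.1 a.2 := by
  classical
  have e1 : ∀ a : Subtype p, F a.1 a.2 = ∑ᶠ h : p a.1, F a.1 h := fun a => by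
    rw [finsum_eq_dif, dif_pos a.2]
  rw [finsum_congr e1, finsum_subtype_eq_finsum_cond (f := fun a => ∑ᶠ h : p a, F a h) (p := p)]
  refine finsum_congr fun a => ?_
  by_cases h : p a
  · rw [finsum_eq_if, if_pos h]
  · rw [finsum_eq_if, if_neg h, finsum_eq_dif, dif_neg h]

theorem sig {A R : Type*} [AddCommMonoid R] {B : A → Type*} (G : ∀ a, B a → R)
    (T : Finset (Σ a, B a)) (hT : ∀ t : Σ a, B a, G t.1 t.2 ≠ 0 → t ∈ T) :
    ∑ᶠ (a) (b), G a b = ∑ t ∈ T, G t.1 t.2 := by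
  classical
  have e : ∀ a, ∑ᶠ b, G a b = ∑ b ∈ T.preimage (Sigma.mk a) sigma_mk_injective.injOn, G a b :=
    fun a => finsum_eq_sum_of_support_subset _ fun b hb =>
      Finset.mem_coe.2 (Finset.mem_preimage.2 (hT ⟨a, b⟩ hb))
  simp only [e]
  rw [finsum_eq_sum_of_support_subset (s := T.image Sigma.fst), Finset.sum_sigma',
    Finset.sigma_image_fst_preimage_mk]
  intro a ha
  obtain ⟨b, hb, -⟩ := Finset.exists_ne_zero_of_sum_ne_zero ha
  exact Finset.mem_coe.2 (Finset.mem_image.2 ⟨⟨a, b⟩, Finset.mem_preimage.1 hb, rfl⟩)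

theorem fin_sig {A : Type*} [Finite A] {B : A → Type*} (q : ∀ a, B a → Prop)
    (h : ∀ a, {b | q a b}.Finite) : {t : Σ a, B a | q t.1 t.2}.Finite := by
  refine (Set.finite_iUnion fun a => (h a).image (Sigma.mk a)).subset ?_
  rintro ⟨a, b⟩ hb
  exact Set.mem_iUnion.2 ⟨a, b, hb, rfl⟩

/-- the combinatorial core -/
theorem core {T X Y : Type*} (Tf : Finset T) (o : T → ℤ) (z : T → X) (π : X → Y) (cl : Y → Prop)
    (m : Y → ℤ) (β : Y → ℚ) (hcl : ∀ t, cl (π (z t)))
    (hfin : ∀ y, cl y → {x | π x = y}.Finite ∧ 0 < {x | π x = y}.ncard)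
    (hm : ∀ x, ∑ᶠ (t ∈ Tf) (_ : z t = x), o t = m (π x)) :
    {y | cl y ∧ m y ≠ 0}.Finite ∧ ∑ᶠ (y) (_ : cl y), (m y : ℚ) * β y =
      ∑ t ∈ Tf, (o t : ℚ) * (β (π (z t)) / ({x | π x = π (z t)}.ncard : ℕ)) := by
  classical
  have hm' : ∀ x, ∑ t ∈ Tf with z t = x, o t = m (π x) := fun x => by
    rw [← hm x, finsum_mem_finset_eq_sum, Finset.sum_filter]
    exact Finset.sum_congr rfl fun t _ => finsum_eq_if.symm
  have hsub : ∀ y, cl y → m y ≠ 0 → y ∈ Tf.image fun t => π (z t) := by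
    intro y hy h0
    obtain ⟨x, hx⟩ := Set.nonempty_of_ncard_ne_zero (hfin y hy).2.ne'
    have hx' : π x = y := hx
    rw [← hx', ← hm'] at h0
    obtain ⟨t, ht, -⟩ := Finset.exists_ne_zero_of_sum_ne_zero h0
    obtain ⟨h1, h2⟩ := Finset.mem_filter.1 ht
    exact Finset.mem_image.2 ⟨t, h1, by rw [h2, hx']⟩
  refine ⟨(Finset.finite_toSet (Tf.image fun t => π (z t))).subset fun y hy =>
    hsub y hy.1 hy.2, ?_⟩
  rw [finsum_cond_eq_sum_of_cond_iff (t := Tf.image fun t => π (z t)),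
    ← Finset.sum_fiberwise_of_maps_to (s := Tf) (t := Tf.image fun t => π (z t))
      (g := fun t => π (z t)) fun t ht => Finset.mem_image_of_mem _ ht]
  · refine Finset.sum_congr rfl fun y hy => ?_
    obtain ⟨t₀, -, h₀⟩ := Finset.mem_image.1 hy
    obtain ⟨hf, hp⟩ := hfin y (h₀ ▸ hcl t₀)
    have e1 : ∑ t ∈ Tf with π (z t) = y, o t = {x | π x = y}.ncard * m y := by
      rw [← Finset.sum_fiberwise_of_maps_to (s := Tf.filter fun t => π (z t) = y)
        (t := hf.toFinset) (g := z) fun t ht => hf.mem_toFinset.2 (Finset.mem_filter.1 ht).2,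
        Set.ncard_eq_toFinset_card _ hf, ← nsmul_eq_mul, ← Finset.sum_const]
      refine Finset.sum_congr rfl fun x hx => ?_
      have hx' : π x = y := hf.mem_toFinset.1 hx
      rw [← hx', ← hm' x, Finset.filter_filter]
      refine Finset.sum_congr (Finset.filter_congr fun t _ => ?_) fun _ _ => rfl
      exact ⟨fun h => h.2, fun h => ⟨by rw [h], h⟩⟩
    have e2 : ∑ t ∈ Tf with π (z t) = y,
        (o t : ℚ) * (β (π (z t)) / ({x | π x = π (z t)}.ncard : ℕ)) =
        ((∑ t ∈ Tf with π (z t) = y, o t : ℤ) : ℚ) * (β y / ({x | π x = y}.ncard : ℕ)) := by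
      rw [Int.cast_sum, Finset.sum_mul]
      exact Finset.sum_congr rfl fun t ht => by rw [(Finset.mem_filter.1 ht).2]
    have h0 : (({x | π x = y}.ncard : ℕ) : ℚ) ≠ 0 := by exact_mod_cast hp.ne'
    rw [e2, e1]
    push_cast
    field_simp
  · intro y hy
    refine ⟨fun h => hsub y h fun h0 => hy (by simp [h0]), fun h => ?_⟩
    obtain ⟨t₀, -, h₀⟩ := Finset.mem_image.1 h
    exact h₀ ▸ hcl t₀

end ASum

open ASum

theorem rSumP : RSumP.{u} := by
  classical
  intro S hB hPb hCy hD c f β hc hf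
  have : Finite {c' : S.H' // O c' c} := (hB.u1.fin c).to_subtype
  have hT := fin_sig (A := {c' : S.H' // O c' c}) (B := fun a => Place S.k a.1.var.K)
    (fun a P => P.ord (nu a.2 f) ≠ 0) fun a => (hB.crv a.1 c a.2 hc).pb.fin _
  choose z hz using fun t : (Σ a : {c' : S.H' // O c' c}, Place S.k a.1.var.K) =>
    hCy.ex t.1.1 c t.1.2 hc t.2
  have hcy : ∀ t : (Σ a : {c' : S.H' // O c' c}, Place S.k a.1.var.K), cy t.1.1 t.2 = pu (z t) :=
    fun t => hCy.eq t.1.1 c t.1.2 hc t.2 _ (hz t)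
  have h := core hT.toFinset (fun t => t.2.ord (nu t.1.2 f)) z pu Hp.Cl (fun y => S.M.ord c y f) β
    (fun t => hcy t ▸ (hCy.dom t.1.1 c t.1.2 hc t.2).1)
    (fun y hy => ⟨(hD.fin y hy).1, (hD.fin y hy).2.1⟩) (fun x => by
      rw [finsum_mem_finset_eq_sum, ← hPb c x f hc hf, dep, sig _ hT.toFinset]
      · refine Finset.sum_congr rfl fun t _ => ?_
        have e : z t = x ↔ Cen t.1.1.var.ξ x.z t.2 :=
          ⟨fun h => h ▸ hz t, fun h =>
            Pt.ext ((hB.crv t.1.1 c t.1.2 hc).ca.cen.uniq _ _ _ (hz t) h)⟩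
        rw [finsum_eq_if, finsum_eq_if, if_congr e rfl rfl]
      · intro t ht
        refine hT.mem_toFinset.2 fun h0 => ht ?_
        rw [h0]
        exact finsum_zero)
  refine ⟨h.1, h.2.trans ?_⟩
  rw [dep, sig _ hT.toFinset]
  · exact Finset.sum_congr rfl fun t _ => by rw [hcy t]; rfl
  · intro t ht
    exact hT.mem_toFinset.2 fun h0 => ht (by rw [h0]; simp)

theorem rPicA : RPicA.{u} := by
  intro S hB hD hCy hS
  refine ⟨fun y hy => (hD.fin y hy).2.2, fun c f hc hf => (hS c f 0 hc hf).1,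
    fun c f hc hf => ?_⟩
  obtain ⟨γ, hγ⟩ := hD.ex
  refine (hS c f (fun y => dgF (S.M.κ y)) hc hf).2.trans ?_
  refine finsum_eq_zero_of_forall_eq_zero fun c' => (finsum_congr fun h => ?_).trans finsum_zero
  have e : ∀ P : Place S.k c'.var.K, (P.ord (nu h f) : ℚ) *
      ((dgF (S.M.κ (cy c' P)) : ℚ) / nP (cy c' P)) = (Int.castAddHom ℚ) (P.ord (nu h f)) * γ := by
    intro P
    have h1 := (hCy.dom c' c h hc P).1
    have h0 : (nP (cy c' P) : ℚ) ≠ 0 := by exact_mod_cast (hD.fin _ h1).2.1.ne'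
    rw [hγ _ h1, mul_div_cancel_right₀ _ h0]
    rfl
  rw [finsum_congr e, ← finsum_mul,
    ← (Int.castAddHom ℚ).map_finsum_of_injective Int.cast_injective, (hB.crv c' c h hc).pb.sum,
    map_zero, zero_mul]

end Pool.Agent.MP_f3836a_nt.PK
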