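import Pool.Agent.MP_f3836a_nt.PK.SpecG

set_option autoImplicit false

/-! Residues of elements of a finitely generated subfield. -/

namespace Pool.Agent.MP_f3836a_nt.PK

open MvPolynomial IsLocalRing

universe u

namespace GBig

variable {k : Type u} [Field k] {σ : Type} {Φ : Subfield k}

/-- apply a linear form to the coefficients -/
noncomputable def T (τ : k →ₗ[Φ] Φ) (H : MvPolynomial σ k) : MvPolynomial σ Φ :=
  ∑ d ∈ H.support, monomial d (τ (coeff d H))

theorem coeff_T (τ : k →ₗ[Φ] Φ) (H : MvPolynomial σ k) (d : σ →₀ ℕ) :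
    coeff d (T τ H) = τ (coeff d H) := by
  classical
  simp only [T, coeff_sum, coeff_monomial, Finset.sum_ite_eq', mem_support_iff]
  split_ifs with hb
  · rfl
  · rw [not_not.1 hb, map_zero]

theorem T_zero (τ : k →ₗ[Φ] Φ) : T τ (0 : MvPolynomial σ k) = 0 := by
  ext d : 1
  rw [coeff_T, coeff_zero, coeff_zero, map_zero]

theorem T_add (τ : k →ₗ[Φ] Φ) (H H' : MvPolynomial σ k) : T τ (H + H') = T τ H + T τ H' := by
  ext d : 1
  rw [coeff_add, coeff_T, coeff_T, coeff_T, coeff_add, map_add]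

theorem T_mul (τ : k →ₗ[Φ] Φ) (G : MvPolynomial σ Φ) (H : MvPolynomial σ k) :
    T τ (map Φ.subtype G * H) = G * T τ H := by
  classical
  ext d : 1
  rw [coeff_T, coeff_mul, coeff_mul, map_sum]
  refine Finset.sum_congr rfl fun x _ => ?_
  rw [coeff_map, coeff_T]
  exact τ.map_smul (coeff x.1 G) (coeff x.2 H)

theorem mem_of_T {Q : Ideal (MvPolynomial σ k)} {H : MvPolynomial σ k}
    (h : ∀ τ : k →ₗ[Φ] Φ, map Φ.subtype (T τ H) ∈ Q) : H ∈ Q := by
  classical
  let e := Module.Free.chooseBasis Φ k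
  have hT : H = ∑ α ∈ H.support.biUnion fun b => (e.repr (coeff b H)).support,
      C (e α) * map Φ.subtype (T (e.coord α) H) := by
    ext b
    simp only [coeff_sum, coeff_C_mul, coeff_map, coeff_T]
    by_cases hb : b ∈ H.support
    · conv_lhs => rw [← e.linearCombination_repr (coeff b H), Finsupp.linearCombination_apply]
      rw [Finsupp.sum_of_support_subset _ (Finset.subset_biUnion_of_mem
        (fun b => (e.repr (coeff b H)).support) hb) (fun i a => a • e i) fun _ _ => zero_smul _ _]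
      exact Finset.sum_congr rfl fun α _ => mul_comm _ _
    · rw [notMem_support_iff.1 hb]
      simp
  rw [hT]
  exact sum_mem fun α _ => Q.mul_mem_left _ (h _)

theorem T_mem {Q : Ideal (MvPolynomial σ k)} {s : Set (MvPolynomial σ k)} (hs : Ideal.span s = Q)
    (h : s ⊆ Set.range (map Φ.subtype)) (τ : k →ₗ[Φ] Φ) {H : MvPolynomial σ k} (hH : H ∈ Q) :
    map Φ.subtype (T τ H) ∈ Q := by
  have key : ∀ H ∈ Ideal.span s, ∀ A, map Φ.subtype (T τ (H * A)) ∈ Q := fun H hH => by
    induction hH using Submodule.span_induction with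
    | mem G hG =>
      intro A
      obtain ⟨G, rfl⟩ := h hG
      rw [T_mul, map_mul]
      exact Q.mul_mem_right _ (hs ▸ Ideal.subset_span hG)
    | zero => intro A; rw [zero_mul, T_zero, map_zero]; exact zero_mem _
    | add G G' _ _ a b => intro A; rw [add_mul, T_add, map_add]; exact add_mem (a A) (b A)
    | smul a G _ b => intro A; rw [smul_eq_mul, mul_comm a, mul_assoc]; exact b _
  simpa only [mul_one] using key H (hs ▸ hH) 1

/-- a fraction over the small field has a denominator over the small field which is a unit -/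
theorem frac {O : Type u} [CommRing O] [IsDomain O] [IsLocalRing O] (φ : MvPolynomial σ k →+* O)
    {s : Set (MvPolynomial σ k)} (hs : Ideal.span s = RingHom.ker φ)
    (h : s ⊆ Set.range (map Φ.subtype)) {f : O} {A B : MvPolynomial σ Φ}
    {A' B' : MvPolynomial σ k} (hB : φ (map Φ.subtype B) ≠ 0)
    (e : f * φ (map Φ.subtype B) = φ (map Φ.subtype A)) (hB' : φ B' ∉ maximalIdeal O)
    (e' : f * φ B' = φ A') : ∃ A₁ B₁ : MvPolynomial σ Φ, φ (map Φ.subtype B₁) ∉ maximalIdeal O ∧
      f * φ (map Φ.subtype B₁) = φ (map Φ.subtype A₁) := by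
  obtain ⟨τ, hτ⟩ := not_forall.1 fun h =>
    hB' (mem_of_T (Φ := Φ) (Q := (maximalIdeal O).comap φ) (H := B') h)
  refine ⟨T τ A', T τ B', hτ, mul_left_cancel₀ hB ?_⟩
  have h1 : map Φ.subtype B * A' + map Φ.subtype (-A) * B' ∈ RingHom.ker φ := by
    rw [RingHom.mem_ker, map_add, map_mul, map_mul, map_neg, map_neg, ← e, ← e']
    ring
  have h2 := T_mem hs h τ h1
  rw [T_add, T_mul, T_mul, RingHom.mem_ker] at h2
  simp only [map_add, map_mul, map_neg, ← e] at h2
  linear_combination -h2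

end GBig

theorem rBig : RBig.{u} := by
  intro k L _ _ _ N ξ c E t hg hc hE ht
  let φ : Pol k N →+* c.O := (aeval fun j => c.lx (X j) : Pol k N →ₐ[k] c.O)
  have hφ : ∀ {n : ℕ} {A : Pol k N}, A.IsHomogeneous n → φ A = c.lx A := fun hA =>
    Ctr.aeval_lx hc (Form.of hA)
  obtain ⟨s, hs⟩ := IsNoetherian.noetherian (RingHom.ker φ)
  choose n A B hA hB h0 e using hg
  choose w hw hw' using fun j => exists_fin_closure E (algebraMap k (ResidueField c.O))
    (f := residue c.O (c.lx (X j))) (hE ▸ Subfield.mem_top _)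
  refine ⟨(⋃ H ∈ (s : Set (Pol k N)) ∪ (A '' t ∪ B '' t), (H.coeffs : Set k)) ∪ ⋃ j, w j,
    ((s.finite_toSet.union ((ht.image A).union (ht.image B))).biUnion
      fun H _ => H.coeffs.finite_toSet).union (Set.finite_iUnion hw), fun Φ hΦ f hf => ?_⟩
  have h1 : (s : Set (Pol k N)) ∪ (A '' t ∪ B '' t) ⊆ Set.range (map Φ.subtype) := fun H hH =>
    mem_range_map_iff_coeffs_subset.2 fun a ha =>
      ⟨⟨a, hΦ (Or.inl (Set.mem_biUnion hH ha))⟩, rfl⟩
  have h2 : ∀ G : MvPolynomial (Fin (N + 1)) Φ, residue c.O (φ (map Φ.subtype G)) ∈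
      Subfield.closure (E ∪ algebraMap k (ResidueField c.O) '' Φ) := fun G => by
    induction G using MvPolynomial.induction_on with
    | C a =>
      rw [map_C, hφ (isHomogeneous_C _ _), Ctr.lx_C hc]
      exact Subfield.subset_closure (Or.inr ⟨a, a.2, rfl⟩)
    | add p q hp hq => rw [map_add, map_add, map_add]; exact add_mem hp hq
    | mul_X p j hp =>
      rw [map_mul, map_mul, map_mul, map_X, hφ (isHomogeneous_X k j)]
      exact mul_mem hp (Subfield.closure_mono (Set.union_subset_union_right _ (Set.image_mono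
        fun a ha => hΦ (Or.inr (Set.mem_iUnion_of_mem j ha)))) (hw' j))
  let R : Subring L := (c.O.subtype.comp (φ.comp (map Φ.subtype))).range
  have h3 : t ⊆ Subfield.closure (R : Set L) := fun x hx => by
    obtain ⟨A₀, eA⟩ := h1 (Or.inr (Or.inl ⟨x, hx, rfl⟩))
    obtain ⟨B₀, eB⟩ := h1 (Or.inr (Or.inr ⟨x, hx, rfl⟩))
    have hne : (c.lx (B x) : L) ≠ 0 := by
      rw [Ctr.coe_lx hc (Form.of (hB x))]
      exact Ctr.lo_ne hc (h0 x)
    rw [eq_div_of_mul_eq hne (EYA.lx_frac hc (hA x) (hB x) (e x)), ← hφ (hA x), ← hφ (hB x), ← eA,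
      ← eB]
    exact div_mem (Subfield.subset_closure ⟨A₀, rfl⟩) (Subfield.subset_closure ⟨B₀, rfl⟩)
  obtain ⟨y, hy, z, hz, e1⟩ := Subfield.mem_closure_iff.1 (Subfield.closure_le.2 h3 hf)
  rw [Subring.closure_eq] at hy hz
  obtain ⟨A₀, rfl⟩ := hy
  obtain ⟨B₀, rfl⟩ := hz
  by_cases hz : φ (map Φ.subtype B₀) = 0
  · rw [show f = 0 from Subtype.ext (by
      rw [← e1, RingHom.comp_apply _ _ B₀, RingHom.comp_apply _ _ B₀, hz, map_zero, div_zero]
      rfl), map_zero]
    exact zero_mem _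
  obtain ⟨m, A', B', hA', hB', hP, e2⟩ := Ctr.exists_lx hc f
  obtain ⟨A₁, B₁, h4, h5⟩ := GBig.frac φ hs (Set.subset_union_left.trans h1) (f := f) (A := A₀) hz
    (Subtype.ext (by
      rw [Subring.coe_mul, ← e1]
      exact div_mul_cancel₀ _ fun h => hz (Subtype.ext h)))
    (B' := B') (A' := A') (by rwa [hφ hB', Ctr.lx_mem_max hc (Form.of hB')])
    (by rwa [hφ hA', hφ hB'])
  rw [eq_div_of_mul_eq (fun h => h4 ((residue_eq_zero_iff _).1 h))
    ((map_mul (residue c.O) _ _).symm.trans (congrArg _ h5))]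
  exact div_mem (h2 A₁) (h2 B₁)

end Pool.Agent.MP_f3836a_nt.PK
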