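import Pool.Agent.MP_f3836a_nt.PK.SpecG
import Pool.Agent.MP_f3836a_nt.PK.EDVA

set_option autoImplicit false

/-! Constant extensions are unramified, and a factor determines the valuation. -/

namespace Pool.Agent.MP_f3836a_nt.PK

open Polynomial IntermediateField

universe u

namespace GCE

variable {A L κ : Type u} [CommRing A] [Field L] [Field κ]

/-- the data downstairs -/
structure Dn (r : A →+* κ) (π : A) (m : A[X]) : Prop where
  surj : Function.Surjective r
  dvd : ∀ a, r a = 0 → π ∣ a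
  irr : Irreducible (m.map r)

/-- a valuation ring upstairs -/
structure Up (e : A[X] →+* L) (π : A) (m : A[X]) (W : ValuationSubring L) : Prop where
  mem : ∀ g, W.valuation (e g) ≤ 1
  lt : W.valuation (e (C π)) < 1
  ne : e (C π) ≠ 0
  mlt : W.valuation (e m) < 1

variable {r : A →+* κ} {π : A} {m : A[X]} {e : A[X] →+* L} {W : ValuationSubring L}

theorem Dn.ker (h : Dn r π m) {g : A[X]} (hg : g.map r = 0) : ∃ k, g = C π * k := by
  refine (C_dvd_iff_dvd_coeff π g).2 fun i => h.dvd _ ?_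
  rw [← coeff_map, hg, coeff_zero]

theorem Dn.lift (h : Dn r π m) (g : κ[X]) : ∃ k : A[X], k.map r = g :=
  map_surjective r h.surj g

theorem Dn.split (h : Dn r π m) {g : A[X]} (hg : m.map r ∣ g.map r) :
    ∃ a k, g = m * a + C π * k := by
  obtain ⟨b, hb⟩ := hg
  obtain ⟨a, rfl⟩ := h.lift b
  obtain ⟨k, hk⟩ := h.ker (g := g - m * a) (by
    rw [Polynomial.map_sub, Polynomial.map_mul, hb, sub_self])
  exact ⟨a, k, by rw [← hk]; ring⟩

theorem Up.mul_lt (hW : Up e π m W) {x : L} (hx : W.valuation x < 1) (g : A[X]) :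
    W.valuation (x * e g) < 1 := by
  rw [map_mul]
  exact (mul_le_of_le_one_right' (hW.mem g)).trans_lt hx

theorem Up.unit (hW : Up e π m W) (h : Dn r π m) {s : A[X]} (hs : ¬ m.map r ∣ s.map r) :
    W.valuation (e s) = 1 := by
  obtain ⟨a', b', hab⟩ := (h.irr.coprime_iff_not_dvd).2 hs
  obtain ⟨a, rfl⟩ := h.lift a'
  obtain ⟨b, rfl⟩ := h.lift b'
  obtain ⟨k, hk⟩ := h.ker (g := a * m + b * s - 1) (by
    rw [Polynomial.map_sub, Polynomial.map_add, Polynomial.map_mul, Polynomial.map_mul, hab,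
      Polynomial.map_one, sub_self])
  have h1 : e s * e b = 1 + (e (C π) * e k - e m * e a) := by
    have := congrArg e hk
    simp only [map_sub, map_add, map_mul, map_one] at this
    linear_combination this
  have h2 : W.valuation (e s * e b) = 1 := by
    rw [h1]
    exact W.valuation.map_one_add_of_lt
      (W.valuation.map_sub_lt (hW.mul_lt hW.lt k) (hW.mul_lt hW.mlt a))
  refine le_antisymm (hW.mem s) (not_lt.1 fun h3 => ?_)
  exact (hW.mul_lt h3 b).ne h2

/-- fractions with a unit denominator -/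
def T (r : A →+* κ) (m : A[X]) (e : A[X] →+* L) (x : L) : Prop :=
  ∃ g s, ¬ m.map r ∣ s.map r ∧ x * e s = e g

/-- fractions with a unit numerator and denominator -/
def U (r : A →+* κ) (m : A[X]) (e : A[X] →+* L) (x : L) : Prop :=
  ∃ g s, ¬ m.map r ∣ s.map r ∧ ¬ m.map r ∣ g.map r ∧ x * e s = e g

theorem Up.valT (hW : Up e π m W) (h : Dn r π m) {x : L} (hx : T r m e x) :
    W.valuation x ≤ 1 := by
  obtain ⟨g, s, hs, hx⟩ := hx
  have := congrArg W.valuation hx
  rw [map_mul, hW.unit h hs, mul_one] at this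
  rw [this]; exact hW.mem g

theorem Up.valU (hW : Up e π m W) (h : Dn r π m) {x : L} (hx : U r m e x) :
    W.valuation x = 1 := by
  obtain ⟨g, s, hs, hg, hx⟩ := hx
  have := congrArg W.valuation hx
  rwa [map_mul, hW.unit h hs, hW.unit h hg, mul_one] at this

theorem step (h : Dn r π m) (hπ : e (C π) ≠ 0) {n k : A[X]} (hn : ¬ m.map r ∣ n.map r)
    (hk : e (m * n + C π * k) = 0) {x : L} (hx : T r m e x) :
    U r m e x ∨ ∃ y, T r m e y ∧ x = e (C π) * y := by
  obtain ⟨g, s, hs, hx⟩ := hx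
  by_cases hg : m.map r ∣ g.map r
  · obtain ⟨a, k', rfl⟩ := h.split hg
    refine Or.inr ⟨x / e (C π), ⟨k' * n - k * a, s * n, fun hd => ?_, ?_⟩, by field_simp⟩
    · rw [Polynomial.map_mul] at hd
      exact (h.irr.prime.dvd_or_dvd hd).elim hs hn
    · simp only [map_sub, map_add, map_mul] at hx hk ⊢
      rw [div_mul_eq_mul_div, div_eq_iff hπ]
      linear_combination e n * hx + e a * hk
  · exact Or.inl ⟨g, s, hs, hg, hx⟩

theorem Up.fac (hW : Up e π m W) (h : Dn r π m) {n k : A[X]} (hn : ¬ m.map r ∣ n.map r)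
    (hk : e (m * n + C π * k) = 0) (N : ℕ) : ∀ x : L, T r m e x →
    W.valuation (e (C π)) ^ N ≤ W.valuation x → ∃ (j : ℕ) (y : L), U r m e y ∧
      x = e (C π) ^ j * y := by
  induction N with
  | zero =>
    intro x hx hv
    rcases step h hW.ne hn hk hx with hu | ⟨y, hy, rfl⟩
    · exact ⟨0, x, hu, by simp⟩
    · rw [pow_zero, map_mul] at hv
      exact absurd ((mul_le_of_le_one_right' (hW.valT h hy)).trans_lt hW.lt) (not_lt.2 hv)
  | succ N ih =>
    intro x hx hv
    rcases step h hW.ne hn hk hx with hu | ⟨y, hy, rfl⟩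
    · exact ⟨0, x, hu, by simp⟩
    · rw [pow_succ', map_mul] at hv
      have h0 : 0 < W.valuation (e (C π)) := (Valuation.pos_iff _).2 hW.ne
      obtain ⟨j, z, hz, rfl⟩ := ih y hy (le_of_mul_le_mul_left hv h0)
      exact ⟨j + 1, z, hz, by ring⟩

/-- the separable polynomial that kills `θ` has `m` as a simple factor -/
theorem Up.cof (hW : Up e π m W) (h : Dn r π m) {q : ℕ} (hq : (q : κ) = 0)
    (he : e (X ^ q - X) = 0) :
    ∃ n k, ¬ m.map r ∣ n.map r ∧ e (m * n + C π * k) = 0 := by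
  have h1 : m.map r ∣ (X ^ q - X : A[X]).map r := by
    by_contra hn
    have := hW.unit h hn
    rw [he, map_zero] at this
    exact zero_ne_one this
  obtain ⟨b, hb⟩ := h1
  obtain ⟨n, rfl⟩ := h.lift b
  obtain ⟨k, hk⟩ := h.ker (g := X ^ q - X - m * n) (by
    rw [Polynomial.map_sub, Polynomial.map_mul, hb, sub_self])
  refine ⟨n, k, fun hd => ?_, by rw [← hk, add_sub_cancel, he]⟩
  have h2 : ((X ^ q - X : A[X]).map r).Separable := by
    rw [Polynomial.map_sub, Polynomial.map_pow, map_X, separable_def, derivative_sub,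
      derivative_X_pow, derivative_X, hq, map_zero, zero_mul, zero_sub]
    exact isCoprime_one_right.neg_right
  refine h.irr.not_isUnit (h2.squarefree _ ?_)
  rw [hb]
  exact mul_dvd_mul_left _ hd

theorem Up.pos (hW : Up e π m W) {y : L} (hy : W.valuation y = 1) (i : ℕ) :
    e (C π) ^ i * y ∈ W := by
  rw [← W.valuation_le_one_iff, map_mul, map_pow, hy, mul_one]
  exact pow_le_one' hW.lt.le i

theorem Up.neg (hW : Up e π m W) {f y : L} (hy : W.valuation y = 1) (i : ℕ)
    (hf : f * e (C π) ^ (i + 1) = y) : f ∉ W := by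
  intro h
  rw [← W.valuation_le_one_iff] at h
  have h1 := congrArg W.valuation hf
  rw [map_mul, map_pow, hy] at h1
  exact ((mul_le_of_le_one_left' h).trans_lt (pow_lt_one' hW.lt (Nat.succ_ne_zero i))).ne h1

theorem main {V V' : ValuationSubring L} (h : Dn r π m) (hV : Up e π m V) (hV' : Up e π m V')
    {q : ℕ} (hq : (q : κ) = 0) (he : e (X ^ q - X) = 0) {f : L} (hf : f ≠ 0)
    (h1 : ∃ (N : ℕ) (g : A[X]), f * e (C π) ^ N = e g)
    (h2 : ∃ (N : ℕ) (g : A[X]), f⁻¹ * e (C π) ^ N = e g) :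
    (f ∈ V ↔ f ∈ V') ∧ (f ∈ V.nonunits → f / e (C π) ∈ V) := by
  obtain ⟨n, k, hn, hk⟩ := hV.cof h hq he
  obtain ⟨N, g, hg⟩ := h1
  obtain ⟨N', g', hg'⟩ := h2
  have hT : T r m e (e g) := ⟨g, 1, fun hd => h.irr.not_isUnit (isUnit_of_dvd_one (by
    rwa [Polynomial.map_one] at hd)), by rw [map_one, mul_one]⟩
  have hv : V.valuation (e (C π)) ^ (N + N') ≤ V.valuation (e g) := by
    have e1 : e (C π) ^ (N + N') = e g * e g' := by
      rw [← hg, ← hg', pow_add]; field_simp
    rw [← map_pow, e1, map_mul]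
    exact mul_le_of_le_one_right' (hV.mem g')
  obtain ⟨j, y, hy, e2⟩ := hV.fac h hn hk _ _ hT hv
  rw [← hg] at e2
  have hπ := hV.ne
  rcases le_or_gt N j with hj | hj
  · obtain ⟨i, rfl⟩ := Nat.exists_eq_add_of_le hj
    have e3 : f = e (C π) ^ i * y := by
      apply mul_right_cancel₀ (pow_ne_zero N hπ)
      rw [e2, pow_add]; ring
    refine ⟨iff_of_true (e3 ▸ hV.pos (hV.valU h hy) i) (e3 ▸ hV'.pos (hV'.valU h hy) i),
      fun hu => ?_⟩
    rcases i with _ | i
    · rw [e3, pow_zero, one_mul, V.mem_nonunits_iff] at hu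
      exact absurd (hV.valU h hy) hu.ne
    · have e4 : f / e (C π) = e (C π) ^ i * y := by rw [e3, pow_succ]; field_simp
      exact e4 ▸ hV.pos (hV.valU h hy) i
  · obtain ⟨i, rfl⟩ := Nat.exists_eq_add_of_lt hj
    have e3 : f * e (C π) ^ (i + 1) = y := by
      apply mul_left_cancel₀ (pow_ne_zero j hπ)
      rw [← e2, add_assoc, pow_add]; ring
    have k1 := hV.neg (hV.valU h hy) i e3
    exact ⟨iff_of_false k1 (hV'.neg (hV'.valU h hy) i e3),
      fun hu => absurd (V.nonunits_subset hu) k1⟩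

theorem up_of {K : Type u} [Field K] [Algebra K L] {O : Subring K} {π : O} {m : O[X]} {θ : L}
    {q : ℕ} (hq : 1 < q) (hθ : θ ^ q = θ) (h0 : (π : K) ≠ 0) (hi : (π : K)⁻¹ ∉ O)
    (hW : ∀ f, f ∈ O ↔ algebraMap K L f ∈ W) (hm : aeval θ (m.map O.subtype) ∈ W.nonunits) :
    Up (eval₂RingHom ((algebraMap K L).comp O.subtype) θ) π m W := by
  have h1 : θ ∈ W := by
    rw [← W.valuation_le_one_iff]
    by_contra hn
    have h2 := pow_lt_pow_right₀ (not_le.1 hn) hq
    rw [pow_one, ← map_pow, hθ] at h2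
    exact lt_irrefl _ h2
  have e1 : eval₂RingHom ((algebraMap K L).comp O.subtype) θ (C π) = algebraMap K L π := by simp
  refine ⟨fun g => ?_, ?_, ?_, ?_⟩
  · rw [W.valuation_le_one_iff]
    induction g using Polynomial.induction_on' with
    | add a b ha hb => rw [map_add]; exact add_mem ha hb
    | monomial i a =>
      rw [coe_eval₂RingHom, eval₂_monomial]
      exact mul_mem ((hW a).1 a.2) (pow_mem h1 i)
  · rw [e1, ← W.mem_nonunits_iff, W.mem_nonunits_iff_or, ← map_inv₀, ← hW]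
    exact Or.inr hi
  · rw [e1]; exact (_root_.map_ne_zero _).2 h0
  · rw [aeval_def, eval₂_map] at hm
    exact hm

theorem den {K : Type u} [Field K] [Algebra K L] {O : Subring K} {π : O} {θ : L}
    (hθ : IsAlgebraic K θ) (hc : ∀ c : K, ∃ N : ℕ, c * (π : K) ^ N ∈ O) {f : L}
    (hf : f ∈ adjoin K {θ}) : ∃ (N : ℕ) (g : O[X]),
      f * eval₂RingHom ((algebraMap K L).comp O.subtype) θ (C π) ^ N =
        eval₂RingHom ((algebraMap K L).comp O.subtype) θ g := by
  have h1 : f ∈ Algebra.adjoin K {θ} := by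
    rw [← adjoin_simple_toSubalgebra_of_isAlgebraic hθ]; exact hf
  clear hf
  induction h1 using Algebra.adjoin_induction with
  | mem x hx =>
    rw [Set.mem_singleton_iff.1 hx]
    exact ⟨0, X, by simp⟩
  | algebraMap c =>
    obtain ⟨N, hN⟩ := hc c
    exact ⟨N, C ⟨_, hN⟩, by simp⟩
  | add x y _ _ hx hy =>
    obtain ⟨N, g, hg⟩ := hx
    obtain ⟨N', g', hg'⟩ := hy
    refine ⟨N + N', g * C π ^ N' + g' * C π ^ N, ?_⟩
    rw [map_add, map_mul, map_mul, map_pow, map_pow, ← hg, ← hg']; ring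
  | mul x y _ _ hx hy =>
    obtain ⟨N, g, hg⟩ := hx
    obtain ⟨N', g', hg'⟩ := hy
    refine ⟨N + N', g * g', ?_⟩
    rw [map_mul, ← hg, ← hg']; ring

end GCE

theorem rCE : RCE.{u} := by
  intro K L κ _ _ _ _ O r p n θ π m V V' hD hp hp0 hn hθ hπ _ hirr hV hV' hm hm' f hf
  have hA := rDVA K κ O r hD
  have h0 : π ≠ 0 := by
    rintro rfl
    rw [ordR, dif_neg fun h => h.1 rfl] at hπ
    exact zero_ne_one hπ
  have hO : π ∈ O := (hA.mem π h0).2 (by rw [hπ]; exact zero_le_one)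
  have hinv : ordR O π⁻¹ = -1 := by
    rw [← zpow_neg_one, hA.zpow π _ h0, hπ, mul_one]
  have hi : π⁻¹ ∉ O := fun h => by
    have := (hA.mem _ (inv_ne_zero h0)).1 h
    rw [hinv] at this
    exact absurd this (by norm_num)
  have hq : 1 < p ^ n := Nat.one_lt_pow (by omega) hp.one_lt
  have hd : GCE.Dn r (⟨π, hO⟩ : O) m := by
    refine ⟨hD.surj, fun a ha => ?_, hirr⟩
    by_cases ha0 : (a : K) = 0
    · rw [show a = 0 from Subtype.ext ha0]; exact dvd_zero _
    · have h1 := (hA.mem _ ha0).1 a.2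
      have h2 : ordR O (a : K) ≠ 0 := fun h => by
        obtain ⟨b, hb, e, -⟩ := hA.unit _ ha0 h
        exact (hD.ker a).1 ha (Subtype.ext e ▸ hb)
      have h3 : (a : K) * π⁻¹ ∈ O := (hA.mem _ (mul_ne_zero ha0 (inv_ne_zero h0))).2 (by
        rw [hA.mul _ _ ha0 (inv_ne_zero h0), hinv]; omega)
      exact ⟨⟨_, h3⟩, Subtype.ext (by simp only [Subring.coe_mul]; field_simp)⟩
  have hc : ∀ c : K, ∃ N : ℕ, c * π ^ N ∈ O := fun c => by
    by_cases hc0 : c = 0
    · exact ⟨0, by simp [hc0]⟩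
    · refine ⟨(ordR O c).natAbs, (hA.mem _ (mul_ne_zero hc0 (pow_ne_zero _ h0))).2 ?_⟩
      rw [hA.mul _ _ hc0 (pow_ne_zero _ h0), ← zpow_natCast, hA.zpow π _ h0, hπ]
      omega
  have hpκ : ((p ^ n : ℕ) : κ) = 0 := by
    have h1 : (p : K) = 0 := (algebraMap K L).injective (by rw [map_natCast, hp0, map_zero])
    have h2 : (p : O) = 0 := Subtype.ext (by simpa using h1)
    rw [Nat.cast_pow, ← map_natCast r, h2, map_zero, zero_pow (by omega)]
  have halg : IsAlgebraic K θ :=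
    ⟨X ^ p ^ n - X, FiniteField.X_pow_card_sub_X_ne_zero K hq, by simp [hθ]⟩
  by_cases hf0 : f = 0
  · subst hf0
    exact ⟨iff_of_true V.zero_mem V'.zero_mem, fun _ => by rw [zero_div]; exact V.zero_mem⟩
  · have := GCE.main hd (GCE.up_of hq hθ h0 hi hV hm) (GCE.up_of hq hθ h0 hi hV' hm') hpκ
      (by simp [hθ]) hf0 (GCE.den halg hc hf) (GCE.den halg hc (inv_mem hf))
    simpa using this

end Pool.Agent.MP_f3836a_nt.PK
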