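import Pool.Agent.MP_f3836a_nt.PK.SpecG

set_option autoImplicit false

/-! Row GCen: centres of valuations. -/

namespace Pool.Agent.MP_f3836a_nt.PK

open MvPolynomial IsLocalRing

universe u

namespace GCen

variable {F K₀ : Type u} [Field F] [Field K₀] [Algebra F K₀] {N : ℕ} {η : Fin (N + 1) → K₀}
  (M : Mod F η)

/-- what domination says about forms -/
theorem of_dom {s c : Hp F η} {h : s.P ≤ c.P} {W : ValuationSubring (M.κ s)}
    (hd : PT.Dom (M.e s c h) W) {n : ℕ} {A : Pol F N} (hA : A.IsHomogeneous n) :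
    W.valuation (aeval (M.co s) A) ≤ W.valuation (M.co s c.idx) ^ n ∧
      (A ∈ c.P ↔ W.valuation (aeval (M.co s) A) < W.valuation (M.co s c.idx) ^ n) := by
  have h0 : M.co s c.idx ≠ 0 := (M.co_ne s).2 fun h2 => (Ctr.idx_spec c.good).1 (h h2)
  have hp : 0 < W.valuation (M.co s c.idx) ^ n :=
    pow_pos (zero_lt_iff.2 ((map_ne_zero _).2 h0)) n
  have hle : ∀ b : c.O, W.valuation (M.rr h b) ≤ 1 := fun b => by
    obtain ⟨a, rfl⟩ := M.surj c b
    rw [← M.e_rr, ValuationSubring.valuation_le_one_iff]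
    exact (hd a).1
  have hv : W.valuation (M.rr h (c.lx A)) =
      W.valuation (aeval (M.co s) A) / W.valuation (M.co s c.idx) ^ n := by
    rw [M.rr_lx h hA, map_div₀, map_pow]
  refine ⟨(div_le_one₀ hp).1 (hv ▸ hle _), ?_⟩
  rw [← div_lt_one₀ hp, ← hv]
  constructor
  · intro hP
    obtain ⟨a, ha⟩ := M.surj c (c.lx A)
    have h1 := (hd a).2 ((M.mem_max c a).1 (ha ▸ (Ctr.lx_mem_max c.good (Form.of hA)).2 hP))
    rwa [M.e_rr, ha, ValuationSubring.mem_nonunits_iff] at h1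
  · intro hlt
    by_contra hP
    obtain ⟨b, hb⟩ := ((Ctr.lx_unit c.good (Form.of hA)).2 hP).exists_right_inv
    have h1 : W.valuation (M.rr h (c.lx A)) * W.valuation (M.rr h b) = 1 := by
      rw [← map_mul, ← map_mul, hb, map_one, map_one]
    exact absurd h1 (ne_of_lt (mul_lt_one_of_lt_of_le hlt (hle b)))

theorem uniq (s : Hp F η) (W : ValuationSubring (M.κ s)) (c c₁ : Hp F η) (h : s.P ≤ c.P)
    (h₁ : s.P ≤ c₁.P) (hd : PT.Dom (M.e s c h) W) (hd₁ : PT.Dom (M.e s c₁ h₁) W) : c = c₁ := by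
  have e : W.valuation (M.co s c.idx) = W.valuation (M.co s c₁.idx) := by
    have a := (of_dom M hd (isHomogeneous_X F c₁.idx)).1
    have b := (of_dom M hd₁ (isHomogeneous_X F c.idx)).1
    rw [aeval_X, pow_one] at a b
    exact le_antisymm b a
  refine Hp.ext_P (le_antisymm (c.le_of fun n A hA hP => ?_) (c₁.le_of fun n A hA hP => ?_))
  · rw [(of_dom M hd₁ hA).2, ← e]
    exact (of_dom M hd hA).2.1 hP
  · rw [(of_dom M hd hA).2, e]
    exact (of_dom M hd₁ hA).2.1 hP

theorem ex [Finite F] (s : Hp F η) (W : ValuationSubring (M.κ s)) :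
    ∃ c h, PT.Dom (M.e s c h) W := by
  have hF : ∀ a : F, a ≠ 0 → ∃ n, 0 < n ∧ a ^ n = 1 := fun a ha => by
    obtain ⟨n, hn, e⟩ := isOfFinOrder_iff_pow_eq_one.1 (isOfFinOrder_of_finite (Units.mk0 a ha))
    exact ⟨n, hn, by simpa using congrArg Units.val e⟩
  obtain ⟨i, hi⟩ := Finite.exists_max fun j => W.valuation (M.co s j)
  have h0 : M.co s i ≠ 0 := fun h => by
    have := hi s.idx
    rw [h, M.co_idx, map_one, map_zero] at this
    exact absurd this (not_le.2 zero_lt_one)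
  have hW : ∀ j, M.co s j / M.co s i ∈ W := fun j => by
    rw [← ValuationSubring.valuation_le_one_iff, map_div₀,
      div_le_one₀ (zero_lt_iff.2 ((map_ne_zero _).2 h0))]
    exact hi j
  let ι : F →+* W := (algebraMap F (M.κ s)).codRestrict W (EOv.const_mem hF W)
  let φ : Pol F N →+* W := eval₂Hom ι fun j => ⟨_, hW j⟩
  have hφ : ∀ {n : ℕ} {A : Pol F N}, A.IsHomogeneous n →
      (φ A : M.κ s) = aeval (M.co s) A / M.co s i ^ n := fun hA => by
    rw [← CTanA.aeval_div hA]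
    exact map_eval₂Hom _ _ W.subtype _
  let : Algebra F (ResidueField W) := ((residue W).comp ι).toAlgebra
  have ht : ∀ A : Pol F N, aeval (fun j => residue W ⟨_, hW j⟩) A = residue W (φ A) := fun A =>
    (map_eval₂Hom _ _ (residue W) A).symm
  have hz : ∀ (n : ℕ) (A : Pol F N), A.IsHomogeneous n → A ∈ s.P → φ A = 0 := fun n A hA hP =>
    Subtype.ext (by rw [hφ hA, (M.co_zero s hA).2 hP, zero_div]; rfl)
  obtain ⟨c, hc⟩ := exists_hp (ξ := η) (fun j => residue W ⟨_, hW j⟩)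
    (fun n G hG e => by rw [ht, hz n G hG (s.van n G hG e), map_zero])
    ⟨i, by
      rw [show (⟨_, hW i⟩ : W) = 1 from Subtype.ext (div_self h0), map_one]
      exact one_ne_zero⟩
  have hm : ∀ {n : ℕ} {A : Pol F N}, A.IsHomogeneous n →
      (A ∈ c.P ↔ W.valuation (φ A) < 1) := fun hA => by
    rw [hc _ _ hA, ht, residue_eq_zero_iff, ValuationSubring.valuation_lt_one_iff]
  have h : s.P ≤ c.P := s.le_of fun n A hA hP => by
    rw [hc n A hA, ht, hz n A hA hP, map_zero]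
  refine ⟨c, h, fun a => ?_⟩
  obtain ⟨n, A, B, hA, hB, hP, e⟩ := (M.π c a).2
  have h1 : W.valuation (φ B) = 1 :=
    le_antisymm (W.valuation_le_one _) (not_lt.1 fun h2 => hP ((hm hB).2 h2))
  have h2 : W.valuation (M.e s c h a) = W.valuation (φ A) := by
    rw [← mul_one (W.valuation (M.e s c h a)), ← h1, ← map_mul, hφ hA, hφ hB, M.e_rr,
      ← mul_div_assoc, M.rr_frac h _ hA hB e]
  refine ⟨?_, fun ha => ?_⟩
  · rw [← ValuationSubring.valuation_le_one_iff, h2]
    exact W.valuation_le_one _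
  · rw [ValuationSubring.mem_nonunits_iff, h2, ← hm hA, ← c.mem_max_iff _ hA hB hP e]
    exact (M.mem_max c a).2 ha

end GCen

theorem rCenH : RCenH.{u} := fun _ _ _ _ _ _ _ _ M => ⟨GCen.ex M, GCen.uniq M⟩

end Pool.Agent.MP_f3836a_nt.PK
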