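import Pool.Agent.MP_f3836a_nt.PK.SpecG
import Pool.Agent.MP_f3836a_nt.PK.EDVA

set_option autoImplicit false

/-! A curve on the surface that lifts a given point. -/

namespace Pool.Agent.MP_f3836a_nt.PK

open MvPolynomial IsLocalRing Stp

universe u

namespace GCmp

theorem sec {k K L : Type u} [Field k] [Field K] [Field L] [Algebra k K] [Algebra k L] {M N : ℕ}
    {ξ : Fin (M + 1) → K} (C : Cv k ξ) {w : Fin (N + 1) → K} {η : Fin (N + 1) → L} {t : K}
    (ρ : L ≃ₐ[k] C.κ) (h : ∀ j, w j / t ∈ C.O ∧ C.res (w j / t) = ρ (η j)) {n : ℕ} {A : Pol k N}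
    (hA : A.IsHomogeneous n) :
    ∃ a : C.O, (a : K) = aeval w A / t ^ n ∧ residue C.O a = ρ (aeval η A) := by
  refine ⟨aeval (fun j => (⟨w j / t, (h j).1⟩ : C.O)) A, ?_, ?_⟩
  · rw [← CTanA.aeval_div hA]
    exact (aeval_algebraMap_apply (A := C.O) K (fun j => ⟨w j / t, (h j).1⟩) A).symm
  · refine (aeval_algebraMap_apply (A := C.O) C.κ (fun j => ⟨w j / t, (h j).1⟩) A).symm.trans ?_
    rw [show ρ (aeval η A) = _ from comp_aeval_apply η (ρ : L →ₐ[k] C.κ) A]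
    exact congrArg (fun u => aeval u A) (funext fun j =>
      (C.res_of_mem ⟨_, (h j).1⟩).symm.trans (h j).2)

end GCmp

theorem rCmp : RCmp.{u} := by
  intro S T hB c' c h C ρ hc hw
  have e1 : c'.var.ξ c'.idx = 1 := c'.eta_idx
  obtain ⟨w0, hw⟩ := hw c'.idx (e1 ▸ one_ne_zero)
  simp only [e1, div_one] at hw
  have mem : ∀ {n : ℕ} {A : Pol S.F S.N}, A.IsHomogeneous n →
      (ρ (aeval c'.var.ξ (map (algebraMap S.F S.k) A)) = 0 ↔ A ∈ c.P) := fun hA => by
    rw [map_eq_zero, h _ _ hA]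
    exact c'.eta_zero (hA.map _)
  have cmp : T.Cmp h C ρ := by
    refine ⟨T.s.le_of fun n A hA hP => ?_, fun b => ?_⟩
    · obtain ⟨a, a1, a2⟩ := GCmp.sec C ρ hw (hA.map (algebraMap S.F S.k))
      rw [(T.img.mem n A hA).1 hP, zero_div, ZeroMemClass.coe_eq_zero] at a1
      rw [← mem hA, ← a2, a1, map_zero]
    obtain ⟨n, A, B, hA, hB, hP, e⟩ := (S.M.π c b).2
    obtain ⟨a, a1, a2⟩ := GCmp.sec C ρ hw (hA.map (algebraMap S.F S.k))
    obtain ⟨d, d1, d2⟩ := GCmp.sec C ρ hw (hB.map (algebraMap S.F S.k))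
    have d3 : residue C.O d ≠ 0 := d2 ▸ mt (mem hB).1 hP
    obtain ⟨d4, d5⟩ := (CCvA.unit_iff C.O d).1 ((residue_ne_zero_iff_isUnit d).1 d3)
    have f1 := nu_frac h _ hA hB e
    rw [S.M.r_π] at f1
    rw [S.M.e_eq]
    generalize_proofs _ _ _ q
    have f2 := T.img.frac (Subring.inclusion q (S.M.π c b)) n A B hA hB e
    generalize algebraMap _ T.V.K (S.M.r T.s (Subring.inclusion q (S.M.π c b))) = f at f2 ⊢
    have f3 : f * d = a := by rw [a1, d1, ← mul_div_assoc, f2]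
    have f4 : f ∈ C.O := by
      rw [eq_div_of_mul_eq d4 f3, div_eq_mul_inv]
      exact mul_mem a.2 d5
    refine ⟨f4, mul_right_cancel₀ d3 ?_⟩
    rw [← C.res_of_mem d, ← C.res_mul f4 d.2, f3, C.res_of_mem, C.res_of_mem, a2, d2, ← map_mul, f1]
  refine ⟨?_, cmp, ?_⟩
  · rintro ⟨l, l0, hl⟩
    choose m1 b m2 using hl
    have key : ∀ j, algebraMap S.k C.κ (b j) = ρ (c'.var.ξ j) * algebraMap S.k C.κ (b c'.idx) :=
      fun j => by rw [← m2, ← m2, ← (hw j).2, ← C.res_mul (hw j).1 (m1 _), div_mul_div_cancel₀ w0]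
    have b0 : b c'.idx ≠ 0 := fun e => by
      have := key l
      rw [e, map_zero, mul_zero, ← m2, div_self l0, ← map_one (algebraMap S.k T.V.K), C.res_const,
        map_one] at this
      exact one_ne_zero this
    refine hc ((hB.u2.co c).2 fun j => ?_)
    have : nu h (S.M.co c j) = algebraMap S.k _ (b j / b c'.idx) := ρ.injective (by
      rw [nu_co, ρ.commutes, map_div₀, key j, mul_div_cancel_right₀ _ ((map_ne_zero _).2 b0)])
    generalize b j / b c'.idx = a at this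
    obtain ⟨n, n0, hn⟩ : ∃ n, 0 < n ∧ a ^ (n + 1) = a := by
      by_cases a0 : a = 0
      · exact ⟨1, one_pos, by simp [a0]⟩
      · exact (S.hk a a0).imp fun n hn => ⟨hn.1, by rw [pow_succ, hn.2, one_mul]⟩
    exact ⟨n, n0, (nu h).injective (by rw [map_pow, this, ← map_pow, hn])⟩
  · rintro rfl
    obtain ⟨hs, cmp⟩ := cmp
    obtain ⟨W, hW⟩ := (rDVA _ _ _ _ (EOv.dv T.sm.surf T.cv C)).val
    refine EOv.ne_top C (eq_top_iff.2 fun x _ => hW ▸ EOv.val_top (K₀ := S.M.κ T.s) W (fun f => ?_) x)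
    obtain ⟨b, rfl⟩ : f ∈ (S.M.e T.s T.s hs).range := S.M.range_refl T.s hs ▸ Subring.mem_top f
    exact (hW ▸ (cmp b).1 : _ ∈ W.toSubring)

end Pool.Agent.MP_f3836a_nt.PK
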