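import Pool.Agent.MP_f3836a_nt.PK.SpecG

set_option autoImplicit false

/-! The number of points over a point. -/

namespace Pool.Agent.MP_f3836a_nt.PK

open MvPolynomial IsLocalRing

universe u

namespace GCount

section mp
variable {κ κ' : Type u} [Field κ] [Field κ'] (ν : κ →+* κ') (t : κ')

theorem mp_dvd {G : Polynomial κ} (h : G.eval₂ ν t = 0) : mpO ν t ∣ G :=
  letI := ν.toAlgebra
  minpoly.dvd κ t h

theorem mp_root : (mpO ν t).eval₂ ν t = 0 :=
  letI := ν.toAlgebra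
  minpoly.aeval κ t

theorem mp_zero {G : Polynomial κ} (h : mpO ν t ∣ G) : G.eval₂ ν t = 0 := by
  obtain ⟨q, rfl⟩ := h
  rw [Polynomial.eval₂_mul, mp_root, zero_mul]

theorem mp_int {μ : Polynomial κ} (hμ : μ.Monic) (h : μ.eval₂ ν t = 0) :
    (mpO ν t).Monic ∧ Irreducible (mpO ν t) :=
  letI := ν.toAlgebra
  ⟨minpoly.monic ⟨μ, hμ, h⟩, minpoly.irreducible ⟨μ, hμ, h⟩⟩

theorem mp_eq {m : Polynomial κ} (h1 : m.Monic) (h2 : Irreducible m) (h : m.eval₂ ν t = 0) :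
    mpO ν t = m :=
  letI := ν.toAlgebra
  (minpoly.eq_of_irreducible_of_monic h2 h h1).symm

end mp

variable {S : Stp.{u}}

open Stp

theorem const (c : S.H) (θ : S.k) {a : S.k} (ha : a ∈ Subring.closure {θ}) :
    ∃ g : Polynomial (S.M.κ c), ∀ (c' : S.H') (h : O c' c),
      g.eval₂ (nu h) (algebraMap S.k c'.var.K θ) = algebraMap S.k c'.var.K a := by
  induction ha using Subring.closure_induction with
  | mem x hx => exact ⟨Polynomial.X, fun c' h => by rw [Polynomial.eval₂_X, hx]⟩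
  | zero => exact ⟨0, fun c' h => by rw [Polynomial.eval₂_zero, map_zero]⟩
  | one => exact ⟨1, fun c' h => by rw [Polynomial.eval₂_one, map_one]⟩
  | add x y _ _ hx hy =>
    obtain ⟨f, hf⟩ := hx
    obtain ⟨g, hg⟩ := hy
    exact ⟨f + g, fun c' h => by rw [Polynomial.eval₂_add, hf, hg, map_add]⟩
  | neg x _ hx =>
    obtain ⟨f, hf⟩ := hx
    exact ⟨-f, fun c' h => by rw [Polynomial.eval₂_neg, hf, map_neg]⟩
  | mul x y _ _ hx hy =>
    obtain ⟨f, hf⟩ := hx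
    obtain ⟨g, hg⟩ := hy
    exact ⟨f * g, fun c' h => by rw [Polynomial.eval₂_mul, hf, hg, map_mul]⟩

theorem poly (c : S.H) (θ : S.k) (A : Pol S.k S.N) (hA : ∀ d, coeff d A ∈ Subring.closure {θ}) :
    ∃ G : Polynomial (S.M.κ c), ∀ (c' : S.H') (h : O c' c),
      G.eval₂ (nu h) (algebraMap S.k c'.var.K θ) = aeval c'.var.ξ A := by
  choose g hg using fun d => const c θ (hA d)
  refine ⟨∑ d ∈ A.support, g d * Polynomial.C (∏ i, S.M.co c i ^ d i), fun c' h => ?_⟩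
  rw [aeval_def, eval₂_eq', Polynomial.eval₂_finset_sum]
  refine Finset.sum_congr rfl fun d _ => ?_
  rw [Polynomial.eval₂_mul, hg, Polynomial.eval₂_C, map_prod]
  simp only [map_pow, nu_co]

theorem sep (hB : S.Bas) (c : S.H) (a b : {c' : S.H' | O c' c}) :
    ∃ (n : ℕ) (A : Pol S.k S.N), A.IsHomogeneous n ∧ A ∈ a.1.P ∧ (A ∈ b.1.P → a = b) := by
  by_contra hn
  push Not at hn
  exact (hn 0 0 (isHomogeneous_zero _ _ _) (zero_mem _)).2 (Subtype.ext
    (hB.u1.inc _ _ c (a.1.le_of fun n A hA h => (hn n A hA h).1) a.2 b.2))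

end GCount

open GCount Stp

theorem rCount : RFac.{u} → RCount.{u} := by
  intro hF S hB hC c
  have : Finite {c' : S.H' | O c' c} := hB.u1.fin c
  choose n A hA h1 h2 using sep hB c
  refine ⟨⋃ p : {c' : S.H' | O c' c} × {c' : S.H' | O c' c}, (A p.1 p.2).coeffs,
    Set.finite_iUnion fun p => Finset.finite_toSet _, fun θ hθ c' h => ?_⟩
  obtain ⟨μ, m1, m2, m3, m4, m5⟩ := hC c θ
  have hi : IsIntegral S.F θ := by
    by_cases h0 : θ = 0
    · rw [h0]; exact isIntegral_zero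
    · obtain ⟨r, hr, e⟩ := S.hk θ h0
      exact IsIntegral.of_pow hr (e ▸ isIntegral_one)
  have key := hF S.F (S.M.κ c) {c' : S.H' | O c' c} (minpoly S.F θ) μ
    (fun j => mpO (nu j.2) (algebraMap S.k j.1.var.K θ)) (minpoly.irreducible hi) m1 m3
    (fun a b e => ?_) (fun g => ⟨?_, ?_⟩) ⟨c', h⟩
  · rw [Nat.card_coe_set_eq, m2] at key
    exact key
  · obtain ⟨G, hG⟩ := poly c θ (A a b) fun d => by
      by_cases h0 : coeff d (A a b) = 0
      · rw [h0]; exact zero_mem _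
      · exact hθ.2 (Set.mem_iUnion.2 ⟨(a, b), coeff_mem_coeffs d h0⟩)
    have e1 : mpO (nu a.2) (algebraMap S.k a.1.var.K θ) ∣ G :=
      mp_dvd _ _ ((hG a.1 a.2).trans ((a.1.eta_zero (hA a b)).2 (h1 a b)))
    have e2 : mpO (nu b.2) (algebraMap S.k b.1.var.K θ) ∣ G := (dvd_of_eq (Eq.symm e)).trans e1
    exact h2 a b ((b.1.eta_zero (hA a b)).1 ((hG b.1 b.2).symm.trans (mp_zero _ _ e2)))
  · rintro ⟨j, rfl⟩
    exact ⟨(mp_int _ _ m1 (m4 j.1 j.2)).1, (mp_int _ _ m1 (m4 j.1 j.2)).2,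
      mp_dvd _ _ (m4 j.1 j.2)⟩
  · rintro ⟨g1, g2, g3⟩
    obtain ⟨a, ha, e⟩ := m5 g g1 g2 g3
    exact ⟨⟨a, ha⟩, mp_eq _ _ g1 g2 e⟩

end Pool.Agent.MP_f3836a_nt.PK
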