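import Pool.Agent.MP_f3836a_nt.PK.SpecG

set_option autoImplicit false

/-! Rows CyA and LowD: closed points under places, and varieties of dimension at most one. -/

namespace Pool.Agent.MP_f3836a_nt.PK

open MvPolynomial IsLocalRing Stp

universe u

namespace GCy

variable {S : Stp.{u}}

theorem cy_eq {c' : S.H'} (hc : CenA S.k c'.var.ξ) (P : Place S.k c'.var.K)
    (x : Pt S.k (up S.K S.η)) (hx : Cen c'.var.ξ x.z P) : cy c' P = pu x := by
  have h : ∃ x : Pt S.k (up S.K S.η), Cen c'.var.ξ x.z P := ⟨x, hx⟩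
  rw [cy, dif_pos h, Pt.ext (hc.uniq _ _ P h.choose_spec hx)]

theorem nonunit_comap {K L : Type u} [Field K] [Field L] (ν : K →+* L) (V : ValuationSubring L)
    {f : K} (h : ν f ∈ V.nonunits) : f ∈ (V.comap ν).nonunits := by
  rw [ValuationSubring.mem_nonunits_iff_or] at h ⊢
  refine h.imp (map_eq_zero ν).1 fun h1 h2 => h1 ?_
  rw [← map_inv₀]
  exact h2

theorem dom {c' : S.H'} {c : S.H} (h : O c' c) (hF : CrvF c'.var) (P : Place S.k c'.var.K)
    (x : Pt S.k (up S.K S.η)) (hx : Cen c'.var.ξ x.z P) (hy : c.P ≤ (pu x).P) :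
    PT.Dom (S.M.e c (pu x) hy) (P.V.comap (nu h)) := fun a => by
  obtain ⟨n, A, B, hA, hB, hP, e⟩ := (S.M.π (pu x) a).2
  obtain ⟨h1, h2, h3⟩ := hF.ca.cen.val x.z P n _ _ hx (hA.map (algebraMap S.F S.k))
    (hB.map (algebraMap S.F S.k)) fun h0 => hP ((mem_pu x hB).2 h0)
  have h4 := eq_div_of_mul_eq h1
    (nu_frac h (Subring.inclusion (EYA.le hy) (S.M.π (pu x) a)) hA hB e)
  rw [← S.M.e_eq hy a] at h4
  rw [← h4] at h2 h3
  refine ⟨h2, fun ha => nonunit_comap _ _ ((hF.pa.zero P _).1 ?_)⟩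
  have h5 := ((pu x).mem_max_iff _ hA hB hP e).1 ((S.M.mem_max _ a).2 ha)
  rw [(mem_pu x hA).1 h5, zero_div] at h3
  simpa using (hF.pa.val P _ h2 0).2 h3

theorem q_bot (hd : S.d ≤ 1) {c y : S.H} (hc : ¬ c.Cl) (hy : y.Cl) (h : c.P ≤ y.P) :
    EYA.q h = ⊥ ∧ maximalIdeal y.O ≠ ⊥ := by
  have h1 : EYA.q h ≠ maximalIdeal y.O := fun h1 => hc (by
    rw [Hp.ext_P (le_antisymm h (y.le_of fun n A hA hP =>
      (EYA.q_lx h y.good hA).1 (h1 ▸ (Ctr.lx_mem_max y.good (Form.of hA)).2 hP)))]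
    exact hy)
  have h2 : Ring.KrullDimLE 1 y.O := Ring.krullDimLE_iff.2 (by
    rw [(S.reg.reg y hy).2]
    exact_mod_cast hd)
  have h3 : EYA.q h = ⊥ := by_contra fun h3 =>
    h1 (eq_maximalIdeal ((Ideal.comap_isPrime _ _ : (EYA.q h).IsPrime).isMaximal_of_ne_bot h3))
  exact ⟨h3, fun h4 => h1 (h3.trans h4.symm)⟩

theorem le_all (hd : S.d ≤ 1) {c : S.H} (hc : ¬ c.Cl) (c₁ : S.H) : c.P ≤ c₁.P := by
  obtain ⟨y, hy, h⟩ := EYA.cl c
  refine c.le_of fun n A hA hP => c₁.van n A hA ((Ctr.lx_eq_zero y.good (Form.of hA)).1 ?_)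
  have := (EYA.q_lx h y.good hA).2 hP
  rwa [(q_bot hd hc hy h).1, Ideal.mem_bot] at this

theorem dvr (hd : S.d ≤ 1) {c y : S.H} (hc : ¬ c.Cl) (hy : y.Cl) (h : c.P ≤ y.P) :
    IsDiscreteValuationRing (S.M.e c y h).range := by
  obtain ⟨h1, h2⟩ := q_bot hd hc hy h
  obtain ⟨hr, h3⟩ := S.reg.reg y hy
  have h4 := (IsRegularLocalRing.iff_finrank_cotangentSpace y.O).1 hr
  rw [h3] at h4
  have h5 : Module.finrank (ResidueField y.O) (CotangentSpace y.O) ≤ 1 := by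
    have : Module.finrank (ResidueField y.O) (CotangentSpace y.O) = S.d := by exact_mod_cast h4
    omega
  have h6 : IsDiscreteValuationRing y.O :=
    ((IsDiscreteValuationRing.TFAE y.O fun hf => h2 (isField_iff_maximalIdeal_eq.1 hf)).out 4 0).1
      (finrank_cotangentSpace_le_one_iff.1 h5)
  have h7 : Function.Injective (S.M.rr h) := (injective_iff_map_eq_zero _).2 fun a ha => by
    rwa [S.M.rr_eq_zero, h1, Ideal.mem_bot] at ha
  rw [S.M.range_e]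
  exact IsDiscreteValuationRing.RingEquivClass.isDiscreteValuationRing
    (RingEquiv.ofBijective (S.M.rr h).rangeRestrict
      ⟨fun a b e => h7 (congrArg Subtype.val e), (S.M.rr h).rangeRestrict_surjective⟩)

end GCy

open GCy in
theorem rCyA : RCyA.{u} := fun S hB => by
  refine ⟨fun c' c h hc P => ?_, fun c' c h hc P x hx => cy_eq (hB.crv c' c h hc).ca.cen P x hx,
    fun c' c h hc P => ?_⟩
  · obtain ⟨x, hx⟩ := (hB.crv c' c h hc).ca.cen.ex P
    exact ⟨c'.sub_eta.pt x, hx⟩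
  · have hF := hB.crv c' c h hc
    obtain ⟨x, hx⟩ := hF.ca.cen.ex P
    rw [cy_eq hF.ca.cen P (c'.sub_eta.pt x) hx]
    refine ⟨(hB.u1.cl _ _ (o_pu _)).1 ((hB.u1.pt _).2 ⟨_, rfl⟩), c.le_of fun n A hA hP => ?_,
      dom h hF P _ hx _⟩
    exact (mem_pu _ hA).2 (x.van n _ (hA.map _) ((c'.eta_zero (hA.map _)).2 ((h n A hA).1 hP)))

open GCy in
theorem rLowD : RLowD.{u} := fun S hB hC hd => by
  refine ⟨fun c c₁ hc hc₁ => Hp.ext_P (le_antisymm (le_all hd hc.1 c₁) (le_all hd hc₁.1 c)),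
    fun c f hc hf h0 => ?_⟩
  obtain ⟨c', h⟩ := hB.u1.lo c
  obtain ⟨a, ha⟩ := (hB.crv c' c h hc).pb.const (nu h f) fun P => by
    obtain ⟨hy, hle, hD⟩ := hC.dom c' c h hc P
    have := dvr hd hc.1 hy hle
    have h1 := h0 _ hy
    rw [Mod.ord, dif_pos hle] at h1
    obtain ⟨b, rfl⟩ := (Ord.mem (hB.loc.rng c _ hle hc).2.2 f hf).2 h1.ge
    exact (hD b).1
  obtain ⟨n, hn, e⟩ := S.hk a fun h1 => hf ((map_eq_zero (nu h)).1 (by rw [ha, h1, map_zero]))
  exact ⟨n, hn, (nu h).injective (by rw [map_pow, ha, ← map_pow, e, map_one, map_one])⟩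

end Pool.Agent.MP_f3836a_nt.PK
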