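import Pool.Agent.MP_f3836a_nt.PK.SpecC

set_option autoImplicit false

/-! Row CJA: local intersection numbers. -/

namespace Pool.Agent.MP_f3836a_nt.PK

open MvPolynomial IntermediateField IsLocalRing

universe u

namespace CJA

section alg

variable {R : Type u} [CommRing R]

/-- the colength of the ideal generated by two elements -/
noncomputable def ln (a b : R) : ℕ∞ := Module.length R (R ⧸ Ideal.span {a, b})

theorem ln_congr {a b a' b' : R} (h : Ideal.span {a, b} = Ideal.span {a', b'}) :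
    ln a b = ln a' b' := congrArg (fun I : Ideal R => Module.length R (R ⧸ I)) h

theorem ln_symm (a b : R) : ln a b = ln b a := ln_congr Ideal.span_pair_comm

theorem ln_shear (a b d : R) : ln a (b + d * a) = ln a b :=
  ln_congr (Ideal.span_pair_add_mul_left _ _ _)

theorem ln_zero {a b : R} : ln a b = 0 ↔ Ideal.span {a, b} = ⊤ := by
  rw [ln, Module.length_eq_zero_iff, Ideal.Quotient.subsingleton_iff]

theorem ln_mul {a b : R} (b' : R) (h : ∀ c, a ∣ c * b → a ∣ c) :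
    ln a (b * b') = ln a b + ln a b' := by
  have h1 : Ideal.span {a, b'} ≤
      Submodule.comap (LinearMap.mulRight R b) (Ideal.span {a, b * b'}) := by
    intro c hc
    obtain ⟨s, t, rfl⟩ := Ideal.mem_span_pair.1 hc
    exact Ideal.mem_span_pair.2 ⟨s * b, t, by rw [LinearMap.mulRight_apply]; ring⟩
  have h2 : Ideal.span {a, b * b'} ≤ Submodule.comap (LinearMap.id : R →ₗ[R] R)
      (Ideal.span {a, b}) := by
    intro c hc
    obtain ⟨s, t, rfl⟩ := Ideal.mem_span_pair.1 hc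
    exact Ideal.mem_span_pair.2 ⟨s, t * b', (by ring : _ = s * a + t * (b * b'))⟩
  rw [add_comm]
  refine Module.length_eq_add_of_exact (Submodule.mapQ _ _ _ h1) (Submodule.mapQ _ _ _ h2) ?_ ?_ ?_
  · rw [injective_iff_map_eq_zero]
    intro z hz
    obtain ⟨c, rfl⟩ := Submodule.Quotient.mk_surjective _ z
    rw [Submodule.mapQ_apply, Submodule.Quotient.mk_eq_zero, LinearMap.mulRight_apply] at hz
    obtain ⟨s, t, e⟩ := Ideal.mem_span_pair.1 hz
    obtain ⟨w, hw⟩ := h (c - t * b') ⟨s, by linear_combination -e⟩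
    rw [Submodule.Quotient.mk_eq_zero]
    exact Ideal.mem_span_pair.2 ⟨w, t, by linear_combination -hw⟩
  · intro z
    obtain ⟨c, rfl⟩ := Submodule.Quotient.mk_surjective _ z
    exact ⟨Submodule.Quotient.mk c, rfl⟩
  · intro z
    obtain ⟨c, rfl⟩ := Submodule.Quotient.mk_surjective _ z
    rw [Submodule.mapQ_apply, Submodule.Quotient.mk_eq_zero, LinearMap.id_apply]
    constructor
    · intro hc
      obtain ⟨s, t, rfl⟩ := Ideal.mem_span_pair.1 hc
      refine ⟨Submodule.Quotient.mk t, ?_⟩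
      rw [Submodule.mapQ_apply, Submodule.Quotient.eq, LinearMap.mulRight_apply]
      exact Ideal.mem_span_pair.2 ⟨-s, 0, by ring⟩
    · rintro ⟨y, hy⟩
      obtain ⟨t, rfl⟩ := Submodule.Quotient.mk_surjective _ y
      rw [Submodule.mapQ_apply, Submodule.Quotient.eq, LinearMap.mulRight_apply] at hy
      obtain ⟨s, r, e⟩ := Ideal.mem_span_pair.1 hy
      exact Ideal.mem_span_pair.2 ⟨-s, t - r * b', by linear_combination -e⟩

theorem span_top [IsLocalRing R] {a b : R} :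
    Ideal.span {a, b} = ⊤ ↔ ¬ (a ∈ maximalIdeal R ∧ b ∈ maximalIdeal R) := by
  constructor
  · rintro h ⟨ha, hb⟩
    refine (maximalIdeal.isMaximal R).ne_top (top_le_iff.1 (h ▸ Ideal.span_le.2 ?_))
    rintro c (rfl | rfl)
    exacts [ha, hb]
  · intro h
    by_contra hn
    have := le_maximalIdeal hn
    exact h ⟨this (Ideal.subset_span (by simp)), this (Ideal.subset_span (by simp))⟩

end alg

variable {k K : Type u} [Field k] [Field K] [Algebra k K] {N : ℕ} {ξ : Fin (N + 1) → K}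

/-- sum over the curves through a point -/
noncomputable def S (x : Pt k ξ) (f : Cv k ξ → ℤ) : ℤ := ∑ᶠ (C : Cv k ξ) (_ : x.On C), f C

theorem S_congr {x : Pt k ξ} {f g : Cv k ξ → ℤ} (h : ∀ C, x.On C → f C = g C) : S x f = S x g :=
  finsum_congr fun C => finsum_congr fun hC => h C hC

theorem S_add (hF : FinA k ξ) (x : Pt k ξ) (a b : K) (f g : Cv k ξ → ℤ) :
    S x (fun C => C.v a * f C + C.v b * g C) =
      S x (fun C => C.v a * f C) + S x fun C => C.v b * g C :=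
  finsum_mem_add_distrib' (s := {C : Cv k ξ | x.On C})
    ((hF.v a).subset fun _ hC => left_ne_zero_of_mul hC.2)
    ((hF.v b).subset fun _ hC => left_ne_zero_of_mul hC.2)

theorem in_zero {q : Prop} {c : ℤ} (h : q → c = 0) : ∑ᶠ _ : q, c = 0 :=
  (finsum_congr h).trans finsum_zero

theorem S_zero {x : Pt k ξ} {f : Cv k ξ → ℤ} (h : ∀ C, x.On C → f C = 0) : S x f = 0 :=
  finsum_eq_zero_of_forall_eq_zero fun C => in_zero (h C)

theorem S_single {x : Pt k ξ} {f : Cv k ξ → ℤ} {C₀ : Cv k ξ} (h0 : x.On C₀)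
    (h : ∀ C, x.On C → C ≠ C₀ → f C = 0) : S x f = f C₀ := by
  classical
  rw [S, finsum_eq_single _ C₀ fun C hC => in_zero fun hx => h C hx hC,
    finsum_eq_if, if_pos h0]

theorem v_zero (hV : VA k ξ) {x : Pt k ξ} {C : Cv k ξ} (h : x.On C) {a : x.ctr.O} (ha : a ≠ 0)
    (hr : C.res a ≠ 0) : C.v a = 0 := by
  have a0 : (a : K) ≠ 0 := fun e => ha (Subtype.ext e)
  have h1 := (hV.mem C a a0).1 (h.le a.2)
  have h2 := (hV.pos C a a0 (h.le a.2)).not.2 hr
  omega

theorem main (hC : CvA k ξ) (hV : VA k ξ) (hF : FinA k ξ) (x : Pt k ξ)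
    [UniqueFactorizationMonoid x.ctr.O] (b g : x.ctr.O) : g ≠ 0 → IsRelPrime g b →
    ln g b ≠ ⊤ ∧ ((ln g b).toNat : ℤ) = S x fun C => C.v g * C.ordAt x (C.res b) := by
  induction g using UniqueFactorizationMonoid.induction_on_prime with
  | h₁ => exact fun h => absurd rfl h
  | h₂ g hg =>
    intro g0 _
    have e : ln g b = 0 :=
      ln_zero.2 (Ideal.eq_top_of_isUnit_mem _ (Ideal.subset_span (by simp)) hg)
    rw [e]
    refine ⟨ENat.zero_ne_top, (S_zero fun C h => ?_).symm⟩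
    obtain ⟨π, hπ, hd, -⟩ := hC.on x C h
    rw [v_zero hV h g0 fun hr => hπ.not_isUnit (isUnit_of_dvd_unit ((hd g).2 hr) hg), zero_mul]
  | h₃ a p a0 hp ih =>
    intro _ hr
    obtain ⟨f1, e1⟩ := ih a0 hr.of_mul_left_right
    have hpb := hr.of_mul_left_left
    obtain ⟨C₀, h0, hd⟩ := hC.ofP x p hp
    obtain ⟨f2, e2⟩ := hV.olen x C₀ h0 p hd b fun h => hp.not_isUnit (hpb dvd_rfl h)
    change ln p b ≠ ⊤ at f2
    change _ = ((ln p b).toNat : ℤ) at e2
    have e3 : ln (p * a) b = ln p b + ln a b := by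
      rw [ln_symm, ln_mul a fun c hc => hpb.symm.dvd_of_dvd_mul_right hc, ln_symm b, ln_symm b]
    have e4 : S x (fun C => C.v p * C.ordAt x (C.res b)) = (ln p b).toNat := by
      rw [S_single h0 fun C h hn => ?_, (hV.pow x C₀ h0 p hp hd).1, one_mul, e2]
      obtain ⟨π, hπ, hd', -⟩ := hC.on x C h
      rw [v_zero hV h hp.ne_zero fun hr => hn (hC.uniq x C C₀ h h0 fun c => ?_), zero_mul]
      rw [← hd, ← hd']
      exact (hπ.associated_of_dvd hp ((hd' p).2 hr)).dvd_iff_dvd_left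
    rw [e3]
    refine ⟨WithTop.add_ne_top.2 ⟨f2, f1⟩, ?_⟩
    rw [ENat.toNat_add f2 f1, Nat.cast_add, e1, ← e4, ← S_add hF]
    refine S_congr fun C _ => ?_
    rw [Subring.coe_mul, hV.mul C _ _ (fun e => hp.ne_zero (Subtype.ext e))
      (fun e => a0 (Subtype.ext e)), add_mul]

theorem lx_ne (x : Pt k ξ) {A : Pol k N} (hA : Form A) (h : aeval ξ A ≠ 0) : x.ctr.lx A ≠ 0 :=
  fun e => Ctr.lo_ne x.good h (by rw [← Ctr.coe_lx x.good hA, e]; rfl)

theorem res_lx (hV : VA k ξ) {x : Pt k ξ} {C : Cv k ξ} (h : x.On C) {A : Pol k N} (hA : Form A)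
    (h0 : aeval ξ A ≠ 0) : C.res (x.ctr.lx A) = 0 ↔ A ∈ C.P := by
  rw [Ctr.coe_lx x.good hA,
    ← hV.pos C _ (Ctr.lo_ne x.good h0) (h.le (Ctr.lo_mem x.good hA)), hV.chg x C h A hA h0,
    (hV.form C A hA h0).2]

theorem cop (hC : CvA k ξ) (hV : VA k ξ) (x : Pt k ξ) [UniqueFactorizationMonoid x.ctr.O]
    {A B : Pol k N} (h : Cop ξ A B) : IsRelPrime (x.ctr.lx A) (x.ctr.lx B) := by
  obtain ⟨hA, hB, A0, B0, hc⟩ := h
  rw [UniqueFactorizationMonoid.isRelPrime_iff_no_prime_factors (lx_ne x hA A0)]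
  intro d d1 d2 hd
  obtain ⟨C, h0, e⟩ := hC.ofP x d hd
  exact hc C ((res_lx hV h0 hA A0).1 ((e _).1 d1)) ((res_lx hV h0 hB B0).1 ((e _).1 d2))

theorem J_eq (x : Pt k ξ) (A B : Pol k N) :
    J x A B = (ln (x.ctr.lx A) (x.ctr.lx B)).toNat := rfl

end CJA

open CJA in
theorem rJA : RReg.{u} → RJA.{u} := by
  intro hR k K _ _ _ _ p _ _ N ξ 𝒢 hs _ hC hV hF
  have U : ∀ x : Pt k ξ, UniqueFactorizationMonoid x.ctr.O := fun x => by
    have := hs.reg x
    exact (hR x.ctr.O (hs.dim x)).2.2.1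
  have M : ∀ (x : Pt k ξ) {A B : Pol k N}, Cop ξ A B → ln (x.ctr.lx A) (x.ctr.lx B) ≠ ⊤ ∧
      (J x A B : ℤ) = S x fun C => C.v (x.ctr.lx A) * C.ordAt x (C.res (x.ctr.lx B)) :=
    fun x _ _ h => main hC hV hF x _ _ (lx_ne x h.1 h.2.2.1) (cop hC hV x h)
  refine ⟨fun x A B => by rw [J_eq, J_eq, ln_symm], fun x n A B B' D hA hD hB hB' hDA e => ?_,
    fun x A B B' h h' => ?_, fun x A B h => ?_, fun x n G A B h h' hA hB => ?_⟩
  · have e1 : x.ctr.lx B' = x.ctr.lx B + x.ctr.lx D * x.ctr.lx A := by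
      rw [← Ctr.lx_mul x.good hD hA, ← Ctr.lx_add x.good hB hDA]
      refine Subtype.ext ?_
      rw [Ctr.coe_lx x.good (Form.of hB'), Ctr.coe_lx x.good (Form.of (hB.add hDA)),
        x.ctr.lo_eq hB', x.ctr.lo_eq (hB.add hDA)]
      rw [sub_sub, map_sub, sub_eq_zero] at e
      rw [e]
    rw [J_eq, J_eq, e1, ln_shear]
  · rw [J_eq, J_eq, J_eq, Ctr.lx_mul x.good h.2.1 h'.2.1,
      ln_mul _ fun c hc => (cop hC hV x h).dvd_of_dvd_mul_right hc,
      ENat.toNat_add (M x h).1 (M x h').1]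
  · rw [J_eq, ENat.toNat_eq_zero, or_iff_left (M x h).1, ln_zero, span_top, x.lx_mem_max h.1,
      x.lx_mem_max h.2.1]
    rfl
  · rw [(M x h).2, (M x h').2, sub_eq_iff_eq_add, Ctr.coe_lx x.good h.1]
    refine Eq.trans (S_congr fun C hx => ?_) ((S_add hF x (x.ctr.lo G) (x.ctr.lo G)
      (fun C => C.ordAt x (C.res (aeval ξ A / aeval ξ B))) _).trans (congrArg (· + _)
        (S_congr fun C hx => by rw [hV.chg x C hx G h.1 h.2.2.1])))
    by_cases hG : G ∈ C.P
    · have hA' := (res_lx hV hx h.2.1 h.2.2.2.1).not.2 (h.2.2.2.2 C hG)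
      have hB' := (res_lx hV hx h'.2.1 h'.2.2.2.1).not.2 (h'.2.2.2.2 C hG)
      have e : aeval ξ A / aeval ξ B * (x.ctr.lx B : K) = x.ctr.lx A := by
        rw [Ctr.coe_lx x.good h.2.1, Ctr.coe_lx x.good h'.2.1, x.ctr.lo_eq hA, x.ctr.lo_eq hB,
          div_mul_div_cancel₀ h'.2.2.2.1]
      rw [← e, C.res_mul (C.toCtr.div_mem hA hB (h'.2.2.2.2 C hG)) (hx.le (x.ctr.lx B).2)]
        at hA' ⊢
      rw [hV.omul x C hx _ _ (left_ne_zero_of_mul hA') hB', mul_add]
    · have := v_zero hV hx (lx_ne x h.1 h.2.2.1) ((res_lx hV hx h.1 h.2.2.1).not.2 hG)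
      rw [Ctr.coe_lx x.good h.1] at this
      rw [this, zero_mul, zero_mul, zero_mul, add_zero]

end Pool.Agent.MP_f3836a_nt.PK
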