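import Pool.Agent.MP_f3836a_nt.PK.SpecE
import Pool.Agent.MP_f3836a_nt.PK.CJA
import Pool.Agent.MP_f3836a_nt.PK.CVA
import Pool.Agent.MP_f3836a_nt.PK.BReg

set_option autoImplicit false

/-! Row EPull: the pull back of a cycle is a cycle. -/

namespace Pool.Agent.MP_f3836a_nt.PK

open MvPolynomial IsLocalRing

universe u

namespace EPull

section down

variable {F K₀ : Type u} [Field F] [Field K₀] [Algebra F K₀] {N : ℕ} {η : Fin (N + 1) → K₀}
  {C : Cv F η} {y : Hp F η}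

theorem v0 (hD : DVA C.O (residue C.O)) {g : K₀} (h0 : g ≠ 0) (hg : g ∈ C.O) :
    C.v g = 0 ↔ C.res g ≠ 0 := by
  rw [C.res_of_mem ⟨g, hg⟩, residue_ne_zero_iff_isUnit]
  refine ⟨fun h => ?_, fun h => (hD.unit' _ h).2⟩
  obtain ⟨a, ha, rfl, -⟩ := hD.unit g h0 h
  exact ha

theorem res_one (C : Cv F η) : C.res 1 = 1 := (C.res_of_mem 1).trans (map_one _)

theorem ne_of_res {g : K₀} (h : C.res g ≠ 0) : g ≠ 0 := by
  rintro rfl
  exact h ((C.res_of_mem 0).trans (map_zero _))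

/-- a local equation of the curve -/
structure Eqn (C : Cv F η) (y : Hp F η) (π : y.O) : Prop where
  le : y.O ≤ C.O
  pr : Prime π
  dvd : ∀ a : y.O, π ∣ a ↔ C.res a = 0
  mem : ∀ f : K₀, f ∈ C.O ↔ ∃ a b : y.O, ¬ π ∣ b ∧ f * b = a

theorem exists_eqn (hY : YA F η) (hy : y.Cl) (h : C.P ≤ y.P) : ∃ π, Eqn C y π := by
  obtain ⟨π, h1, h2, h3⟩ := hY.on C y hy h
  exact ⟨π, hY.le C.hp y h, h1, h2, h3⟩

variable {π : y.O}

theorem Eqn.ne (h : Eqn C y π) : (π : K₀) ≠ 0 := fun e => h.pr.ne_zero (Subtype.ext e)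

theorem Eqn.unit (h : Eqn C y π) (hD : DVA C.O (residue C.O)) {c : y.O} (hc : ¬ π ∣ c) :
    (c : K₀) ≠ 0 ∧ C.v c = 0 :=
  have a : C.res c ≠ 0 := fun e => hc ((h.dvd c).2 e)
  ⟨ne_of_res a, (v0 hD (ne_of_res a) (h.le c.2)).2 a⟩

theorem Eqn.one (h : Eqn C y π) (hD : DVA C.O (residue C.O)) : C.v π = 1 := by
  obtain ⟨w, w0, hw⟩ := hD.uni
  obtain ⟨a, b, hb, e⟩ := (h.mem w).1 ((hD.mem w w0).2 (by omega))
  obtain ⟨b0, b1⟩ := h.unit hD hb
  have a0 : (a : K₀) ≠ 0 := e ▸ mul_ne_zero w0 b0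
  have a1 : C.v a = 1 := by
    have := hD.mul w b w0 b0
    rw [e] at this
    unfold Cv.v at *
    omega
  obtain ⟨c, rfl⟩ : π ∣ a := by
    by_contra hn
    have := (h.unit hD hn).2
    omega
  rw [Subring.coe_mul] at a0 a1
  have c0 := right_ne_zero_of_mul a0
  have h1 := hD.mul π c h.ne c0
  have h2 := (hD.mem c c0).1 (h.le c.2)
  have h3 := (hD.mem π h.ne).1 (h.le π.2)
  have h4 := (v0 hD h.ne (h.le π.2)).not.2 (not_not.2 ((h.dvd π).1 dvd_rfl))
  unfold Cv.v at *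
  omega

theorem Eqn.uniq (hY : YA F η) (h : Eqn C y π) {C₁ : Cv F η} {π₁ : y.O} (h₁ : Eqn C₁ y π₁)
    (e : C₁.res π = 0) : C₁ = C := by
  have a := h₁.pr.associated_of_dvd h.pr ((h₁.dvd π).2 e)
  have b : C₁.hp = C.hp := hY.ext _ _ (Subring.ext fun f => by
    change f ∈ C₁.O ↔ f ∈ C.O
    simp only [h.mem, h₁.mem, a.dvd_iff_dvd_left])
  cases C₁
  cases C
  cases b
  rfl

variable {κ : Type u} [Field κ] {r : C.O →+* κ}

/-- restriction to the local ring of the curve -/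
noncomputable def Eqn.rl (h : Eqn C y π) (r : C.O →+* κ) : y.O →+* locR C r y :=
  (r.comp (Subring.inclusion h.le)).codRestrict _ fun a =>
    ⟨Subring.inclusion h.le a, a.2, rfl⟩

theorem Eqn.coe_rl (h : Eqn C y π) (a : y.O) : (h.rl r a : κ) = r ⟨a, h.le a.2⟩ := rfl

theorem Eqn.surj (h : Eqn C y π) : Function.Surjective (h.rl r) := by
  rintro ⟨_, g, hg, rfl⟩
  exact ⟨⟨g, hg⟩, rfl⟩

theorem Eqn.rl_zero (h : Eqn C y π) (hr : DV C.O r) (a : y.O) : (h.rl r a : κ) = 0 ↔ π ∣ a := by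
  rw [h.coe_rl, hr.ker, h.dvd, C.res_of_mem ⟨a, h.le a.2⟩, ← residue_ne_zero_iff_isUnit, not_not]

theorem Eqn.ker (h : Eqn C y π) (hr : DV C.O r) : RingHom.ker (h.rl r) = Ideal.span {π} := by
  ext a
  rw [RingHom.mem_ker, Ideal.mem_span_singleton, ← h.rl_zero hr, ZeroMemClass.coe_eq_zero]

theorem Eqn.ord (h : Eqn C y π) (hS : IsSurf0 F η) (hy : y.Cl) (hr : DV C.O r) :
    (∀ f g : κ, f ≠ 0 → g ≠ 0 →
      ordR (locR C r y) (f * g) = ordR (locR C r y) f + ordR (locR C r y) g) ∧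
    ∀ c : y.O, ¬ π ∣ c → CJA.ln π c ≠ ⊤ ∧ ordR (locR C r y) (h.rl r c) = (CJA.ln π c).toNat := by
  obtain ⟨h1, h2⟩ := hS.reg y hy
  have h3 := ((rReg y.O h2).2.2.2.2.1 π h.pr).2
  rw [← h.ker hr, Ring.krullDimLE_iff,
    ringKrullDim_eq_of_ringEquiv (RingHom.quotientKerEquivOfSurjective h.surj)] at h3
  obtain ⟨a1, a2, -⟩ := rOrd κ (locR C r y) (isNoetherianRing_of_surjective _ _ (h.rl r) h.surj)
    (Ring.krullDimLE_iff.mpr h3) fun f => by
      obtain ⟨g, rfl⟩ := hr.surj f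
      obtain ⟨a, b, hb, e⟩ := (h.mem g).1 g.2
      refine ⟨h.rl r a, h.rl r b, (h.rl_zero hr b).not.2 hb, ?_⟩
      rw [h.coe_rl, h.coe_rl, ← map_mul]
      exact congrArg _ (Subtype.ext e)
  refine ⟨a1, fun c hc => ?_⟩
  rw [CJA.ln, CVA.len (h.rl r) h.surj π c (h.ker hr)]
  exact a2 _ fun e => hc ((h.rl_zero hr c).1 (congrArg Subtype.val e))

end down

section up

variable {F K₀ k K : Type u} [Field F] [Field K₀] [Field k] [Field K] [Algebra F K₀] [Algebra F k]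
  [Algebra K₀ K] [Algebra k K] {N : ℕ} {η : Fin (N + 1) → K₀} {b : Cv k (up K η) → Cv F η}

theorem v_one (hV : VA k (up K η)) (C' : Cv k (up K η)) : C'.v 1 = 0 := by
  have := hV.mul C' 1 1 one_ne_zero one_ne_zero
  rw [mul_one] at this
  omega

theorem unit_up (hV : VA k (up K η)) (hb : OvA F k K η b) {C' : Cv k (up K η)}
    (hD : DVA (b C').O (residue (b C').O)) {g : K₀} (h0 : g ≠ 0) (h : (b C').v g = 0) :
    algebraMap K₀ K g ∈ C'.O ∧ C'.res (algebraMap K₀ K g) ≠ 0 ∧ C'.v (algebraMap K₀ K g) = 0 := by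
  have h1 := hD.zpow g (-1) h0
  rw [zpow_neg_one, show ordR (b C').O g = 0 from h, mul_zero] at h1
  have m1 := (hb.ovr C' g).1 ((hD.mem g h0).2 h.ge)
  have m2 := (hb.ovr C' g⁻¹).1 ((hD.mem _ (inv_ne_zero h0)).2 h1.ge)
  have e : algebraMap K₀ K g * algebraMap K₀ K g⁻¹ = 1 := by
    rw [← map_mul, mul_inv_cancel₀ h0, map_one]
  have h2 := C'.res_mul m1 m2
  rw [e, res_one] at h2
  have h3 := hV.mul C' _ _ (left_ne_zero_of_mul_eq_one e) (right_ne_zero_of_mul_eq_one e)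
  rw [e, v_one hV] at h3
  have h4 := (hV.mem C' _ (left_ne_zero_of_mul_eq_one e)).1 m1
  have h5 := (hV.mem C' _ (right_ne_zero_of_mul_eq_one e)).1 m2
  exact ⟨m1, left_ne_zero_of_mul_eq_one h2.symm, by omega⟩

theorem ord_zpow (hV : VA k (up K η)) {x : Pt k (up K η)} {C' : Cv k (up K η)} (h : x.On C')
    {g : C'.κ} (hg : g ≠ 0) (n : ℤ) : C'.ordAt x (g ^ n) = n * C'.ordAt x g := by
  have h1 : C'.ordAt x 1 = 0 := by
    have := hV.omul x C' h 1 1 one_ne_zero one_ne_zero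
    rw [mul_one] at this
    omega
  induction n using Int.induction_on with
  | zero => simpa using h1
  | succ n ih => rw [zpow_add_one₀ hg, hV.omul x C' h _ _ (zpow_ne_zero _ hg) hg, ih]; ring
  | pred n ih =>
    have := hV.omul x C' h _ _ (zpow_ne_zero (-(n : ℤ) - 1) hg) hg
    rw [← zpow_add_one₀ hg, sub_add_cancel, ih] at this
    linarith

theorem below (hb : OvA F k K η b) {x : Pt k (up K η)} {y : Hp F η} (hxy : Ov x.ctr y.toCtr)
    {C' : Cv k (up K η)} (h : x.On C') : (b C').P ≤ y.P := fun G hG => by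
  rw [← sum_homogeneousComponent G]
  refine Ideal.sum_mem _ fun n _ => ?_
  have a := homogeneousComponent_isHomogeneous n G
  exact (hxy n _ a).2 (h n _ (a.map _) ((hb.ov C' n _ a).1 ((b C').hom G hG n)))

/-- the standing hypotheses at a point -/
structure Hy (b : Cv k (up K η) → Cv F η) (x : Pt k (up K η)) (y : Hp F η)
    (f : y.O →+* x.ctr.O) : Prop where
  s0 : IsSurf0 F η
  ya : YA F η
  dv : ∀ C : Cv F η, DVA C.O (residue C.O)
  s : IsSurf k (up K η)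
  cv : CvA k (up K η)
  va : VA k (up K η)
  fin : FinA k (up K η)
  ov : OvA F k K η b
  cl : y.Cl
  xy : Ov x.ctr y.toCtr
  coe : ∀ a, (f a : K) = algebraMap K₀ K a
  len : ∀ I : Ideal y.O, Module.length y.O (y.O ⧸ I) ≠ ⊤ →
    Module.length x.ctr.O (x.ctr.O ⧸ I.map f) = Module.length y.O (y.O ⧸ I)

variable {x : Pt k (up K η)} {y : Hp F η} {f : y.O →+* x.ctr.O} {C : Cv F η} {π : y.O}

theorem Hy.ne (H : Hy b x y f) (h : Eqn C y π) : f π ≠ 0 := fun e => by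
  have := H.coe π
  rw [e] at this
  exact h.ne ((map_eq_zero _).1 this.symm)

theorem Hy.over (H : Hy b x y f) (h : Eqn C y π) {C' : Cv k (up K η)} (hx : x.On C')
    (e : C'.res (f π) = 0) : b C' = C := by
  obtain ⟨π₁, h₁⟩ := exists_eqn H.ya H.cl (below H.ov H.xy hx)
  refine h.uniq H.ya h₁ (by_contra fun hn => ?_)
  exact (unit_up H.va H.ov (H.dv _) h.ne ((v0 (H.dv _) h.ne (h₁.le π.2)).2 hn)).2.1
    (H.coe π ▸ e)

theorem Hy.res_ne (H : Hy b x y f) (h : Eqn C y π) {C' : Cv k (up K η)} (e : b C' = C)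
    {c : y.O} (hc : ¬ π ∣ c) : C'.res (f c) ≠ 0 := by
  subst e
  rw [H.coe]
  exact (unit_up H.va H.ov (H.dv _) (h.unit (H.dv _) hc).1 (h.unit (H.dv _) hc).2).2.1

variable {κ : Type u} [Field κ] {r : C.O →+* κ}

theorem Hy.elt (H : Hy b x y f) (h : Eqn C y π) (hr : DV C.O r) {c : y.O} (hc : ¬ π ∣ c) :
    CJA.S x (fun C' => C'.v (f π) * C'.ordAt x (C'.res (f c))) = ordR (locR C r y) (h.rl r c) := by
  have := H.s.reg x
  have := (rReg x.ctr.O (H.s.dim x)).2.2.1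
  obtain ⟨a1, a2⟩ := (h.ord H.s0 H.cl hr).2 c hc
  have a3 : CJA.ln (f π) (f c) = CJA.ln π c := by
    rw [CJA.ln, CJA.ln, ← H.len _ a1, Ideal.map_span, Set.image_pair]
  rw [a2, ← a3]
  refine (CJA.main H.cv H.va H.fin x (f c) (f π) (H.ne h)
    ((UniqueFactorizationMonoid.isRelPrime_iff_no_prime_factors (H.ne h)).2
      fun d d1 d2 hd => ?_)).2.symm
  obtain ⟨C', hx, e⟩ := H.cv.ofP x d hd
  exact H.res_ne h (H.over h hx ((e _).1 d1)) hc ((e _).1 d2)

open Classical in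
theorem Hy.curve (H : Hy b x y f) (hC : C.P ≤ y.P) (hr : DV C.O r) {a w : K₀} (a0 : a ≠ 0)
    (ha : C.v a = 0) (hw : C.v w = 1) :
    CJA.S x (fun C' => if b C' = C then
      C'.v (algebraMap K₀ K w) * C'.ordAt x (C'.res (algebraMap K₀ K a)) else 0) =
      ordR (locR C r y) (resR C.O r a) := by
  obtain ⟨π, h⟩ := exists_eqn H.ya H.cl hC
  have hD := H.dv C
  have am : a ∈ C.O := (hD.mem a a0).2 ha.ge
  obtain ⟨al, be, hbe, e⟩ := (h.mem a).1 am
  have hal : ¬ π ∣ al := by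
    rw [h.dvd, ← e, C.res_mul am (h.le be.2)]
    exact mul_ne_zero ((v0 hD a0 am).1 ha) ((h.dvd be).not.1 hbe)
  have w0 : w ≠ 0 := by
    rintro rfl
    simp [Cv.v, ordR] at hw
  have hu : C.v (w / π) = 0 := by
    have h1 := hD.mul (w / π) π (div_ne_zero w0 h.ne) h.ne
    have h2 := h.one hD
    rw [div_mul_cancel₀ _ h.ne] at h1
    unfold Cv.v at *
    omega
  have e1 := H.elt h hr hal
  have e2 := H.elt h hr hbe
  have e3 := CJA.S_add H.fin x (f π) (f π)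
    (fun C' => if b C' = C then C'.ordAt x (C'.res (algebraMap K₀ K a)) else 0)
    fun C' => C'.ordAt x (C'.res (f be))
  have e4 : resR C.O r a * h.rl r be = h.rl r al := by
    rw [resR, dif_pos am, h.coe_rl, h.coe_rl, ← map_mul]
    exact congrArg _ (Subtype.ext e)
  have n1 := (h.rl_zero hr al).not.2 hal
  have e5 := (h.ord H.s0 H.cl hr).1 _ _ (left_ne_zero_of_mul (e4 ▸ n1)) ((h.rl_zero hr be).not.2 hbe)
  rw [e4, ← e1, ← e2] at e5
  rw [CJA.S_congr (x := x) (g := fun C' : Cv k (up K η) =>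
    C'.v (f π) * C'.ordAt x (C'.res (f al))) fun C' hx => ?_] at e3
  · rw [← add_right_cancel (e3.symm.trans e5)]
    refine CJA.S_congr fun C' hx => ?_
    split_ifs with c
    · subst c
      have h1 := (unit_up H.va H.ov hD (div_ne_zero w0 h.ne) hu).2.2
      have h2 := H.va.mul C' (algebraMap K₀ K (w / π)) (algebraMap K₀ K π)
        ((map_ne_zero _).2 (div_ne_zero w0 h.ne)) ((map_ne_zero _).2 h.ne)
      rw [← map_mul, div_mul_cancel₀ _ h.ne, h1, zero_add] at h2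
      rw [h2, H.coe]
    · rw [mul_zero]
  · split_ifs with c
    · have h1 := H.res_ne h c hbe
      subst c
      obtain ⟨h2, h3, -⟩ := unit_up H.va H.ov hD a0 ha
      rw [← mul_add, ← H.va.omul x C' hx _ _ h3 h1, ← C'.res_mul h2 (hx.le (f be).2), H.coe be,
        ← map_mul, e, H.coe al]
    · rw [CJA.v_zero H.va hx (H.ne h) fun e => c (H.over h hx e)]
      simp

end up

end EPull

open EPull in
theorem rPull : RDVA.{u} → RLen.{u} → RPull.{u} := by
  classical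
  intro hDV hL F K₀ k K _ _ _ _ _ _ _ _ _ _ _ _ _ p _ _ N η _ _ hS0 hY hF hS hC hV hFin b hb hfib
    κ _ r φ a π hr hφ ha
  have hD : ∀ C : Cv F η, DVA C.O (residue C.O) := fun C => hDV _ _ _ _ (hY.dv C)
  have hne := fun C' => (unit_up hV hb (hD (b C')) (ha _).1 (ha _).2.1).2.1
  refine ⟨fun C' => zpow_ne_zero _ (hne C'),
    (hφ.fin.biUnion fun C _ => hfib C).subset fun C' h => ?_, fun x => ?_⟩
  · refine Set.mem_biUnion (x := b C') (fun e => h ?_) rfl
    simp only [(ha _).2.2.2.1 e, map_one, res_one, one_zpow]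
  obtain ⟨y, hy, hxy⟩ := hF.un x
  obtain ⟨f, f1, f2, f3⟩ := hF.fl x y hy hxy
  have H : Hy b x y f := ⟨hS0, hY, hD, hS, hC, hV, hFin, hb, hy, hxy, f1, hL _ _ f f2 f3⟩
  let T := hφ.fin.toFinset.filter fun C => C.P ≤ y.P
  have mT : ∀ C, C ∈ T ↔ φ C ≠ 1 ∧ C.P ≤ y.P := fun C => by simp [T]
  let t : Cv k (up K η) → Cv F η → ℤ := fun C' C => if x.On C' then (if b C' = C then
    C'.v (algebraMap K₀ K (π C)) * C'.ordAt x (C'.res (algebraMap K₀ K (a C))) else 0) else 0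
  have e1 : ∀ C ∈ T, ∑ᶠ C', t C' C = ordR (locR C (r C) y) (φ C) := fun C h => by
    rw [← (ha C).2.2.1, ← H.curve ((mT C).1 h).2 (hr C) (ha C).1 (ha C).2.1 (ha C).2.2.2.2]
    exact finsum_congr fun C' => finsum_eq_if.symm
  have e2 : ∑ C ∈ T, ordR (locR C (r C) y) (φ C) = 0 := by
    rw [← hφ.div y hy]
    refine (finsum_mem_eq_sum_of_inter_support_eq (s := {C : Cv F η | C.P ≤ y.P}) _ ?_).symm
    ext C
    refine and_congr_left fun h => ?_
    rw [Finset.mem_coe, mT]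
    refine ⟨fun h1 => ⟨fun e => h ?_, h1⟩, fun h1 => h1.2⟩
    obtain ⟨π₀, h₀⟩ := exists_eqn hY hy h1
    have := (h₀.ord hS0 hy (hr C)).1 1 1 one_ne_zero one_ne_zero
    rw [mul_one] at this
    show ordR _ (φ C) = 0
    rw [e]
    omega
  rw [← e2, ← Finset.sum_congr rfl e1, ← finsum_sum_comm T t fun C _ =>
    (hfib C).subset fun C' h => by_contra fun hn => h (by simp [t, show b C' ≠ C from hn])]
  refine finsum_congr fun C' => ?_
  rw [finsum_eq_if]
  by_cases hx : x.On C'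
  · simp only [t, if_pos hx, Finset.sum_ite_eq, ord_zpow hV hx (hne C')]
    split_ifs with c
    · rfl
    · have e : φ (b C') = 1 := by_contra fun e => c ((mT _).2 ⟨e, below hb hxy hx⟩)
      have := ord_zpow hV hx (one_ne_zero (α := C'.κ)) 0
      rw [(ha _).2.2.2.1 e, map_one, res_one]
      rw [zpow_zero, zero_mul] at this
      rw [this, mul_zero]
  · simp [t, hx]

end Pool.Agent.MP_f3836a_nt.PK
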