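import Pool.Agent.MP_f3836a_nt.PK.SpecC

set_option autoImplicit false

/-! Tangent vectors and the square of the maximal ideal. -/

namespace Pool.Agent.MP_f3836a_nt.PK

open MvPolynomial IsLocalRing

universe u

namespace CTanA

variable {k K : Type u} [Field k] [Field K] [Algebra k K] {N : ℕ} {ξ : Fin (N + 1) → K}

theorem aeval_div {n : ℕ} {A : Pol k N} (hA : A.IsHomogeneous n) (c : K) :
    aeval (fun j => ξ j / c) A = aeval ξ A / c ^ n := by
  rw [aeval_def, aeval_def, eval₂_eq, eval₂_eq, Finset.sum_div]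
  refine Finset.sum_congr rfl fun d hd => ?_
  rw [hA.degree_eq_sum_deg_support hd, mul_div_assoc, ← Finset.prod_pow_eq_pow_sum,
    ← Finset.prod_div_distrib]
  simp only [div_pow]

theorem dEv_add (z : Fin (N + 1) → k) (F G : Pol k N) (τ : Fin (N + 1) → k) :
    dEv z (F + G) τ = dEv z F τ + dEv z G τ := by
  simp only [dEv, map_add, add_mul, Finset.sum_add_distrib]

theorem dEv_sub (z : Fin (N + 1) → k) (F G : Pol k N) (τ : Fin (N + 1) → k) :
    dEv z (F - G) τ = dEv z F τ - dEv z G τ := by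
  simp only [dEv, map_sub, sub_mul, Finset.sum_sub_distrib]

theorem dEv_mul (z : Fin (N + 1) → k) (F G : Pol k N) (τ : Fin (N + 1) → k) :
    dEv z (F * G) τ = dEv z F τ * eval z G + eval z F * dEv z G τ := by
  simp only [dEv, pderiv_mul, map_add, map_mul, Finset.sum_mul, Finset.mul_sum,
    ← Finset.sum_add_distrib]
  exact Finset.sum_congr rfl fun j _ => by ring

theorem dEv_C (z : Fin (N + 1) → k) (a : k) (τ : Fin (N + 1) → k) :
    dEv z (C a : Pol k N) τ = 0 := by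
  simp only [dEv, pderiv_C, map_zero, zero_mul, Finset.sum_const_zero]

theorem dEv_X (z : Fin (N + 1) → k) (l : Fin (N + 1)) (τ : Fin (N + 1) → k) :
    dEv z (X l : Pol k N) τ = τ l := by
  rw [dEv, Finset.sum_eq_single l]
  · rw [pderiv_X_self, map_one, one_mul]
  · intro j _ hj
    rw [pderiv_X_of_ne hj.symm, map_zero, zero_mul]
  · intro h
    exact absurd (Finset.mem_univ l) h

/-- Polynomials vanishing at `z` together with their derivative in the direction `τ`. -/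
def Kt (z τ : Fin (N + 1) → k) : Ideal (Pol k N) where
  carrier := {F | eval z F = 0 ∧ dEv z F τ = 0}
  zero_mem' := ⟨map_zero _, by simpa using dEv_C z 0 τ⟩
  add_mem' := by
    rintro F G ⟨a, b⟩ ⟨c, d⟩
    exact ⟨by rw [map_add, a, c, add_zero], by rw [dEv_add, b, d, add_zero]⟩
  smul_mem' := by
    rintro F G ⟨a, b⟩
    exact ⟨by rw [smul_eq_mul, map_mul, a, mul_zero],
      by rw [smul_eq_mul, dEv_mul, a, b, mul_zero, mul_zero, add_zero]⟩

theorem mem_Kt {z τ : Fin (N + 1) → k} {F : Pol k N} :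
    F ∈ Kt z τ ↔ eval z F = 0 ∧ dEv z F τ = 0 := Iff.rfl

theorem Kt_cancel {z τ : Fin (N + 1) → k} {F B : Pol k N} (hB : eval z B ≠ 0)
    (h : F * B ∈ Kt z τ) : F ∈ Kt z τ := by
  obtain ⟨a, b⟩ := h
  rw [map_mul] at a
  have a' := (mul_eq_zero.1 a).resolve_right hB
  rw [dEv_mul, a', zero_mul, add_zero] at b
  exact ⟨a', (mul_eq_zero.1 b).resolve_right hB⟩

theorem homog (i : Fin (N + 1)) (F : Pol k N) : ∃ (n : ℕ) (H : Pol k N), H.IsHomogeneous n ∧
    H - F ∈ Ideal.span {(X i - 1 : Pol k N)} := by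
  have hp : ∀ n : ℕ, (X i ^ n - 1 : Pol k N) ∈ Ideal.span {(X i - 1 : Pol k N)} := fun n => by
    rw [Ideal.mem_span_singleton]
    simpa using sub_dvd_pow_sub_pow (X i : Pol k N) 1 n
  induction F using MvPolynomial.induction_on with
  | C a => exact ⟨0, C a, isHomogeneous_C _ a, by simp⟩
  | add F G hF hG =>
    obtain ⟨n, H, h1, h2⟩ := hF
    obtain ⟨m, H', h3, h4⟩ := hG
    refine ⟨n + m, H * X i ^ m + X i ^ n * H',
      (h1.mul (isHomogeneous_X_pow i m)).add ((isHomogeneous_X_pow i n).mul h3), ?_⟩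
    have e : H * X i ^ m + X i ^ n * H' - (F + G) =
        H * (X i ^ m - 1) + H' * (X i ^ n - 1) + (H - F) + (H' - G) := by ring
    rw [e]
    exact add_mem (add_mem (add_mem (Ideal.mul_mem_left _ _ (hp m))
      (Ideal.mul_mem_left _ _ (hp n))) h2) h4
  | mul_X F j hF =>
    obtain ⟨n, H, h1, h2⟩ := hF
    refine ⟨n + 1, H * X j, h1.mul (isHomogeneous_X k j), ?_⟩
    rw [← sub_mul]
    exact Ideal.mul_mem_right _ _ h2

variable (x : Pt k ξ)

/-- Dehomogenization. -/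
noncomputable def Ph : Pol k N →ₐ[k] x.ctr.O := aeval fun j => x.ctr.lx (X j)

theorem coe_Ph (F : Pol k N) : (Ph x F : K) = aeval (fun j => ξ j / ξ x.ctr.idx) F := by
  have h : (IsScalarTower.toAlgHom k x.ctr.O K).comp (Ph x) =
      aeval fun j => ξ j / ξ x.ctr.idx := by
    refine MvPolynomial.algHom_ext fun j => ?_
    rw [AlgHom.comp_apply, Ph, aeval_X, aeval_X, ← x.ctr.lo_X,
      ← Ctr.coe_lx x.good (Form.of (isHomogeneous_X k j))]
    rfl
  exact DFunLike.congr_fun h F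

theorem Ph_form {A : Pol k N} (hA : Form A) : Ph x A = x.ctr.lx A :=
  Subtype.ext <| by rw [coe_Ph, aeval_div hA, Ctr.coe_lx x.good hA, Ctr.lo]

theorem Ph_idx : Ph x (X x.ctr.idx - 1) = 0 :=
  Subtype.ext <| by
    rw [coe_Ph, map_sub, aeval_X, div_self (Ctr.xi_ne x.good), map_one, sub_self]
    rfl

theorem Ph_frac (f : x.ctr.O) : ∃ A B : Pol k N, eval x.z B ≠ 0 ∧ f * Ph x B = Ph x A := by
  obtain ⟨n, A, B, hA, hB, hP, h⟩ := Ctr.exists_lx x.good f
  exact ⟨A, B, hP, by rw [Ph_form x (Form.of hA), Ph_form x (Form.of hB), h]⟩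

theorem Ph_mem (F : Pol k N) : Ph x F ∈ maximalIdeal x.ctr.O ↔ eval x.z F = 0 := by
  obtain ⟨ev, h1, h2⟩ := x.exists_ev
  have h : ev.comp (Ph x) = aeval x.z := by
    refine MvPolynomial.algHom_ext fun j => ?_
    rw [AlgHom.comp_apply, Ph, aeval_X, aeval_X, h1 _ (Form.of (isHomogeneous_X k j)), eval_X]
  rw [← h2, ← aeval_eq_eval, ← h, AlgHom.comp_apply]

variable {𝒢 : Finset (Pol k N)} {τ : Fin (N + 1) → k}

theorem ker_le (hG : IsGens ξ 𝒢) (hτ : Tan (𝒢 : Set (Pol k N)) x.z x.ctr.idx τ) {F : Pol k N}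
    (h : Ph x F = 0) : F ∈ Kt x.z τ := by
  obtain ⟨n, H, h1, h2⟩ := homog x.ctr.idx F
  have a1 : Ideal.span {(X x.ctr.idx - 1 : Pol k N)} ≤ Kt x.z τ := by
    rw [Ideal.span_singleton_le_iff_mem, mem_Kt, map_sub, eval_X, x.z_idx.1, map_one, sub_self,
      dEv_sub, dEv_X, hτ.1, ← C_1, dEv_C, sub_self]
    exact ⟨rfl, rfl⟩
  have a2 : Ideal.span (𝒢 : Set (Pol k N)) ≤ Kt x.z τ :=
    Ideal.span_le.2 fun G g => ⟨(hG.onV x).2 G g, hτ.2 G g⟩
  have a3 : Ph x H = 0 := by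
    obtain ⟨c, hc⟩ := Ideal.mem_span_singleton'.1 h2
    have := congrArg (Ph x) hc
    rw [map_mul, Ph_idx, mul_zero, map_sub, h, sub_zero] at this
    exact this.symm
  have a4 : aeval ξ H = 0 := by
    have := congrArg Subtype.val a3
    rw [coe_Ph, aeval_div h1] at this
    exact (div_eq_zero_iff.1 this).resolve_right (pow_ne_zero _ (Ctr.xi_ne x.good))
  have := sub_mem (a2 (hG.span H (Form.of h1) a4)) (a1 h2)
  rwa [sub_sub_cancel] at this

/-- Functions vanishing at the point together with their derivative in the direction `τ`. -/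
def Jt (τ : Fin (N + 1) → k) : Ideal x.ctr.O where
  carrier := {f | ∃ A B : Pol k N, eval x.z B ≠ 0 ∧ f * Ph x B = Ph x A ∧ A ∈ Kt x.z τ}
  zero_mem' := ⟨0, 1, by simp, by simp, zero_mem _⟩
  add_mem' := by
    rintro f g ⟨A, B, a, b, c⟩ ⟨A', B', a', b', c'⟩
    refine ⟨A * B' + B * A', B * B', by rw [map_mul]; exact mul_ne_zero a a', ?_,
      add_mem (Ideal.mul_mem_right _ _ c) (Ideal.mul_mem_left _ _ c')⟩
    simp only [map_mul, map_add]
    rw [← b, ← b']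
    ring
  smul_mem' := by
    rintro f g ⟨A', B', a', b', c'⟩
    obtain ⟨A, B, a, b⟩ := Ph_frac x f
    refine ⟨A * A', B * B', by rw [map_mul]; exact mul_ne_zero a a', ?_,
      Ideal.mul_mem_left _ _ c'⟩
    simp only [map_mul, smul_eq_mul]
    rw [← b, ← b']
    ring

theorem sq_le (τ : Fin (N + 1) → k) : maximalIdeal x.ctr.O ^ 2 ≤ Jt x τ := by
  rw [sq, Ideal.mul_le]
  intro f hf g hg
  obtain ⟨A, B, a, b⟩ := Ph_frac x f
  obtain ⟨A', B', a', b'⟩ := Ph_frac x g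
  have c : eval x.z A = 0 := (Ph_mem x A).1 (b ▸ Ideal.mul_mem_right _ _ hf)
  have c' : eval x.z A' = 0 := (Ph_mem x A').1 (b' ▸ Ideal.mul_mem_right _ _ hg)
  refine ⟨A * A', B * B', by rw [map_mul]; exact mul_ne_zero a a', ?_,
    by rw [map_mul, c, zero_mul], by rw [dEv_mul, c, c', mul_zero, zero_mul, add_zero]⟩
  simp only [map_mul]
  rw [← b, ← b']
  ring

theorem mem_Jt {F : Pol k N} (h : F ∈ Kt x.z τ) : Ph x F ∈ Jt x τ :=
  ⟨F, 1, by simp, by simp, h⟩

theorem of_Jt (hG : IsGens ξ 𝒢) (hτ : Tan (𝒢 : Set (Pol k N)) x.z x.ctr.idx τ) {F : Pol k N}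
    (h : Ph x F ∈ Jt x τ) : F ∈ Kt x.z τ := by
  obtain ⟨A, B, a, b, c⟩ := h
  have h1 : F * B - A ∈ Kt x.z τ := ker_le x hG hτ (by rw [map_sub, map_mul, b, sub_self])
  have h2 := add_mem h1 c
  rw [sub_add_cancel] at h2
  exact Kt_cancel a h2

theorem t_mem (j : Fin (N + 1)) : Ph x (X j - C (x.z j)) ∈ maximalIdeal x.ctr.O :=
  (Ph_mem x _).2 (by rw [map_sub, eval_X, eval_C, sub_self])

/-- Taylor expansion to first order, tested against a functional. -/
theorem taylor (φ : x.ctr.O →ₗ[k] k) (hφ : ∀ f ∈ maximalIdeal x.ctr.O ^ 2, φ f = 0) (F : Pol k N) :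
    φ (Ph x (F - C (eval x.z F))) = dEv x.z F fun j => φ (Ph x (X j - C (x.z j))) := by
  induction F using MvPolynomial.induction_on with
  | C a => rw [eval_C, sub_self, map_zero, map_zero, dEv_C]
  | add F G hF hG =>
    rw [dEv_add, ← hF, ← hG, ← map_add, ← map_add, map_add (eval x.z), C_add]
    congr 2
    ring
  | mul_X F j hF =>
    have e : F * X j - C (eval x.z (F * X j)) =
        (F - C (eval x.z F)) * (X j - C (x.z j)) + x.z j • (F - C (eval x.z F)) +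
          eval x.z F • (X j - C (x.z j)) := by
      rw [map_mul, eval_X, C_mul, smul_eq_C_mul, smul_eq_C_mul]
      ring
    have h1 : Ph x (F - C (eval x.z F)) ∈ maximalIdeal x.ctr.O :=
      (Ph_mem x _).2 (by rw [map_sub, eval_C, sub_self])
    have h2 : φ (Ph x (F - C (eval x.z F)) * Ph x (X j - C (x.z j))) = 0 :=
      hφ _ (by rw [sq]; exact Ideal.mul_mem_mul h1 (t_mem x j))
    rw [e, map_add, map_add, map_add, map_add, map_mul, h2, map_smul, map_smul, map_smul, map_smul,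
      hF, dEv_mul, dEv_X, eval_X, smul_eq_mul, smul_eq_mul]
    ring

theorem sq_of (hG : IsGens ξ 𝒢) {A : Pol k N} (h0 : eval x.z A = 0)
    (h : ∀ τ, Tan (𝒢 : Set (Pol k N)) x.z x.ctr.idx τ → dEv x.z A τ = 0) :
    Ph x A ∈ maximalIdeal x.ctr.O ^ 2 := by
  by_contra hn
  obtain ⟨φ, h1, h2⟩ := Submodule.exists_le_ker_of_notMem
    (p := (maximalIdeal x.ctr.O ^ 2).restrictScalars k) hn
  have ht := taylor x φ fun f hf => h2 hf
  refine h1 ?_
  have := ht A
  rw [h0, C_0, sub_zero] at this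
  rw [this]
  refine h _ ⟨?_, fun G g => ?_⟩
  · show φ (Ph x (X x.ctr.idx - C (x.z x.ctr.idx))) = 0
    rw [x.z_idx.1, C_1, Ph_idx, map_zero]
  · rw [← ht G, (hG.onV x).2 G g, C_0, sub_zero]
    have : Ph x G = 0 := Subtype.ext <| by
      rw [coe_Ph, aeval_div (hG.form G g).1, (hG.form G g).2, zero_div]
      rfl
    rw [this, map_zero]

theorem tan_zero (𝒢 : Set (Pol k N)) (z : Fin (N + 1) → k) (i : Fin (N + 1)) : Tan 𝒢 z i 0 :=
  ⟨rfl, fun G _ => by simp [dEv]⟩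

theorem sup_Jt {W : Pol k N} (hW : Form W) (h0 : eval x.z W = 0) (h : dEv x.z W τ = 0) :
    Ideal.span {x.ctr.lx W} ⊔ maximalIdeal x.ctr.O ^ 2 ≤ Jt x τ := by
  refine sup_le ?_ (sq_le x τ)
  rw [Ideal.span_singleton_le_iff_mem, ← Ph_form x hW]
  exact mem_Jt x ⟨h0, h⟩

theorem line (hG : IsGens ξ 𝒢) {W : Pol k N} (hW : Form W) (h0 : eval x.z W = 0) {a : x.ctr.O}
    (ha : maximalIdeal x.ctr.O = Ideal.span {a, x.ctr.lx W}) :
    ∃ (c : Fin (N + 1) → k) (A : Pol k N), ∀ τ,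
      Tan (insert W (𝒢 : Set (Pol k N))) x.z x.ctr.idx τ → ∀ j, τ j = c j * dEv x.z A τ := by
  obtain ⟨A, B, hB, hAB⟩ := Ph_frac x a
  have hA : eval x.z A = 0 := by
    refine (Ph_mem x A).1 (hAB ▸ Ideal.mul_mem_right _ _ ?_)
    rw [ha]
    exact Ideal.subset_span (Set.mem_insert _ _)
  have key : ∀ j, ∃ c : k, ∀ τ, Tan (insert W (𝒢 : Set (Pol k N))) x.z x.ctr.idx τ →
      τ j = c * dEv x.z A τ := by
    intro j
    have h1 := t_mem x j
    rw [ha, Ideal.mem_span_pair] at h1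
    obtain ⟨u, v, huv⟩ := h1
    obtain ⟨A', B', hB', hAB'⟩ := Ph_frac x u
    refine ⟨eval x.z A' / (eval x.z B * eval x.z B'), fun τ hτ => ?_⟩
    have h2 : Ph x W ∈ Jt x τ := mem_Jt x ⟨h0, hτ.2 W (Set.mem_insert _ _)⟩
    have h3 : Ph x ((X j - C (x.z j)) * (B * B') - A' * A) ∈ Jt x τ := by
      have e : Ph x ((X j - C (x.z j)) * (B * B') - A' * A) =
          (v * (Ph x B * Ph x B')) * Ph x W := by
        rw [map_sub, map_mul, map_mul, map_mul, ← huv, ← hAB, ← hAB', Ph_form x hW]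
        ring
      rw [e]
      exact Ideal.mul_mem_left _ _ h2
    have h4 := (of_Jt x hG ⟨hτ.1, fun G g => hτ.2 G (Set.mem_insert_of_mem _ g)⟩ h3).2
    rw [dEv_sub, dEv_mul, dEv_mul x.z A', dEv_sub, dEv_X, dEv_C, hA, map_sub, eval_X, eval_C,
      sub_self, map_mul] at h4
    field_simp
    linear_combination h4
  choose c hc using key
  exact ⟨c, A, fun τ hτ j => hc j τ hτ⟩

end CTanA

open CTanA in
theorem rTanA : RReg.{u} → RTanA.{u} := by
  intro hR k K _ _ _ _ p _ _ N ξ 𝒢 hS hG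
  refine ⟨fun x A hA => ⟨fun h => ?_, fun h => ?_⟩, fun x W g hW hg h0 h => ?_, fun W hW => ?_⟩
  · rw [Pt.Sq, ← Ph_form x hA] at h
    exact ⟨(of_Jt x hG (tan_zero _ _ _) (sq_le x 0 h)).1,
      fun τ hτ => (of_Jt x hG hτ (sq_le x τ h)).2⟩
  · rw [Pt.Sq, ← Ph_form x hA]
    exact sq_of x hG h.1 h.2
  · rw [← Ph_form x hg] at h
    exact ⟨(of_Jt x hG (tan_zero _ _ _) (sup_Jt x hW h0 (by simp [dEv]) h)).1,
      fun τ hτ => (of_Jt x hG ⟨hτ.1, fun G g => hτ.2 G (Set.mem_insert_of_mem _ g)⟩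
        (sup_Jt x hW h0 (hτ.2 W (Set.mem_insert _ _)) h)).2⟩
  · intro i z τ τ' hn hz hτ hτ' a b
    obtain ⟨x, rfl, rfl⟩ := hG.pt hn fun G g => hz G (Set.mem_insert_of_mem _ g)
    have h0 := hz W (Set.mem_insert _ _)
    have := hS.reg x
    obtain ⟨a₀, ha, -⟩ := (hR x.ctr.O (hS.dim x)).2.2.2.2.2 _ ((x.lx_mem_max hW.1).2 h0)
      (hW.2.2.2 x)
    obtain ⟨c, A, hc⟩ := line x hG hW.1 h0 ha
    rw [hc τ hτ a, hc τ hτ b, hc τ' hτ' a, hc τ' hτ' b]
    ring

end Pool.Agent.MP_f3836a_nt.PK
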