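import Pool.Agent.MP_f3836a_nt.PK.SpecE
import Pool.Agent.MP_f3836a_nt.PK.BReg
import Pool.Agent.MP_f3836a_nt.PK.CTanA

set_option autoImplicit false

/-! The extension of a nonsingular surface to the algebraic closure is nonsingular. -/

namespace Pool.Agent.MP_f3836a_nt.PK

open MvPolynomial IsLocalRing

universe u

namespace ESurf

theorem reg {A B : Type u} [CommRing A] [IsDomain A] [IsRegularLocalRing A] [CommRing B]
    [IsDomain B] [IsLocalRing B] [IsNoetherianRing B] (hd : ringKrullDim A = 2) (f : A →+* B)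
    (h1 : (maximalIdeal A).map f = maximalIdeal B) (h2 : ∀ I : Ideal A, (I.map f).comap f = I) :
    IsRegularLocalRing B ∧ ringKrullDim B = 2 := by
  obtain ⟨⟨y, hy, hy2⟩, hp, -, -, -, ha⟩ := rReg A hd
  obtain ⟨a, e, ha⟩ := ha y hy hy2
  have hp := (hp y hy hy2).1
  have h3 : (maximalIdeal B).spanFinrank ≤ 2 := by
    rw [← h1, e, Ideal.map_span, Set.image_pair]
    exact (Submodule.spanFinrank_span_le_ncard_of_finite (Set.toFinite _)).trans
      ((Set.ncard_insert_le _ _).trans (by rw [Set.ncard_singleton]))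
  have h4 : ¬ Ring.KrullDimLE 1 B := by
    intro h
    have h5 : f y ≠ 0 := fun h0 => hp.ne_zero (by
      have : y ∈ (Ideal.map f ⊥).comap f := by
        rw [Ideal.mem_comap, h0]
        exact zero_mem _
      rwa [h2, Ideal.mem_bot] at this)
    have h6 : f a ∈ (Ideal.span {f y}).radical := by
      rw [Ideal.radical_eq_sInf, Ideal.mem_sInf]
      rintro J ⟨hJ, hJp⟩
      have := Ring.krullDimLE_one_iff_of_noZeroDivisors.1 h J
        (fun h0 => h5 (by simpa [h0] using hJ (Ideal.mem_span_singleton_self _))) hJp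
      rw [eq_maximalIdeal this, ← h1]
      exact Ideal.mem_map_of_mem f (e ▸ Ideal.subset_span (Set.mem_insert _ _))
    obtain ⟨n, hn⟩ := h6
    have h7 : a ^ n ∈ ((Ideal.span {y}).map f).comap f := by
      rwa [Ideal.mem_comap, Ideal.map_span, Set.image_singleton, map_pow]
    rw [h2, Ideal.mem_span_singleton] at h7
    exact ha (Ideal.mem_sup_left (Ideal.mem_span_singleton.2 (hp.dvd_of_dvd_pow h7)))
  have h8 : ((maximalIdeal B).spanFinrank : WithBot ℕ∞) ≤ 2 := by exact_mod_cast h3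
  have h9 : ringKrullDim B = 2 := by
    refine le_antisymm ((ringKrullDim_le_spanFinrank_maximalIdeal B).trans h8) ?_
    rw [Ring.krullDimLE_iff, not_le] at h4
    exact ENat.WithBot.add_one_le_iff.2 h4
  exact ⟨IsRegularLocalRing.of_spanFinrank_maximalIdeal_le B (h9 ▸ h8), h9⟩

variable {k K : Type u} [Field k] [Field K] [Algebra k K] {N : ℕ} {ξ : Fin (N + 1) → K}

theorem noeth (x : Pt k ξ) : IsNoetherianRing x.ctr.O := by
  have := x.ctr.prime
  have hu : ∀ B : x.ctr.P.primeCompl, IsUnit ((CTanA.Ph x).toRingHom B) := fun B =>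
    notMem_maximalIdeal.1 fun h => B.2 ((CTanA.Ph_mem x B).1 h)
  refine isNoetherianRing_of_surjective (Localization.AtPrime x.ctr.P) _
    (IsLocalization.lift hu) fun f => ?_
  obtain ⟨A, B, hB, h⟩ := CTanA.Ph_frac x f
  exact ⟨IsLocalization.mk' _ A (⟨B, hB⟩ : x.ctr.P.primeCompl),
    (IsLocalization.lift_mk'_spec hu _ _ _).2 (by rw [mul_comm]; exact h.symm)⟩

variable (k ξ) in
/-- quotients of forms of the same degree -/
def Rat : Subfield K where
  carrier := {f | ∃ (n : ℕ) (A B : Pol k N),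
    A.IsHomogeneous n ∧ B.IsHomogeneous n ∧ aeval ξ B ≠ 0 ∧ f * aeval ξ B = aeval ξ A}
  zero_mem' := ⟨0, 0, 1, isHomogeneous_zero _ _ _, isHomogeneous_one _ _, by simp, by simp⟩
  one_mem' := ⟨0, 1, 1, isHomogeneous_one _ _, isHomogeneous_one _ _, by simp, by simp⟩
  add_mem' := by
    rintro f g ⟨n, A, B, hA, hB, hP, h⟩ ⟨m, A', B', hA', hB', hP', h'⟩
    refine ⟨n + m, A * B' + B * A', B * B', (hA.mul hB').add (hB.mul hA'), hB.mul hB',
      by rw [map_mul]; exact mul_ne_zero hP hP', ?_⟩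
    simp only [map_mul, map_add]
    linear_combination aeval ξ B' * h + aeval ξ B * h'
  mul_mem' := by
    rintro f g ⟨n, A, B, hA, hB, hP, h⟩ ⟨m, A', B', hA', hB', hP', h'⟩
    refine ⟨n + m, A * A', B * B', hA.mul hA', hB.mul hB',
      by rw [map_mul]; exact mul_ne_zero hP hP', ?_⟩
    simp only [map_mul]
    linear_combination (g * aeval ξ B') * h + aeval ξ A * h'
  neg_mem' := by
    rintro f ⟨n, A, B, hA, hB, hP, h⟩
    exact ⟨n, -A, B, hA.neg, hB, hP, by simp only [map_neg]; linear_combination -h⟩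
  inv_mem' := by
    rintro f ⟨n, A, B, hA, hB, hP, h⟩
    by_cases h0 : f = 0
    · exact ⟨0, 0, 1, isHomogeneous_zero _ _ _, isHomogeneous_one _ _, by simp, by simp [h0]⟩
    · exact ⟨n, B, A, hB, hA, h ▸ mul_ne_zero h0 hP, by rw [← h, inv_mul_cancel_left₀ h0]⟩

end ESurf

theorem rSurfK : RSurfK.{u} := by
  intro F K₀ k K _ _ _ _ _ _ _ _ _ _ _ _ _ p _ _ N η _ hcl hS hF
  have key : ∀ x : Pt k (up K η), IsRegularLocalRing x.ctr.O ∧ ringKrullDim x.ctr.O = 2 := by
    intro x
    obtain ⟨y, hy, ho⟩ := hF.un x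
    obtain ⟨f, -, h1, h2⟩ := hF.fl x y hy ho
    obtain ⟨h3, h4⟩ := hS.reg y hy
    have := ESurf.noeth x
    exact ESurf.reg h4 f h1 h2
  refine ⟨fun f => ?_, fun x => (key x).1, fun x => (key x).2⟩
  have h : Subfield.closure (Set.range (algebraMap K₀ K) ∪ Set.range (algebraMap k K)) ≤
      ESurf.Rat k (up K η) := by
    rw [Subfield.closure_le]
    rintro _ (⟨g, rfl⟩ | ⟨c, rfl⟩)
    · obtain ⟨n, A, B, hA, hB, h0, h⟩ := hS.gen g
      have e : ∀ G : Pol F N, aeval (up K η) (map (algebraMap F k) G) =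
          algebraMap K₀ K (aeval η G) := fun G => by
        rw [aeval_map_algebraMap, ← aeval_algebraMap_apply]
        rfl
      exact ⟨n, map (algebraMap F k) A, map (algebraMap F k) B, hA.map _, hB.map _,
        by rw [e]; exact (map_ne_zero _).2 h0, by rw [e, e, ← map_mul, h]⟩
    · exact ⟨0, C c, 1, isHomogeneous_C _ _, isHomogeneous_one _ _, by simp, by simp⟩
  exact h (hcl ▸ Subfield.mem_top f)

end Pool.Agent.MP_f3836a_nt.PK
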