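import Pool.Agent.MP_f3836a_nt.PK.SpecB
import Pool.Agent.MP_f3836a_nt.PK.Lin
import Pool.Agent.MP_f3836a_nt.PK.Tr

set_option autoImplicit false

/-! Bertini at the generic point. -/

namespace Pool.Agent.MP_f3836a_nt.PK

open MvPolynomial IntermediateField

universe u

namespace BGenS

theorem eval_mp {L Ω : Type u} [CommRing L] [CommRing Ω] {n : ℕ} (φ : L →+* Ω) (z : Fin n → L)
    (P : MvPolynomial (Fin n) L) : eval (fun j => φ (z j)) (map φ P) = φ (eval z P) := by
  induction P using MvPolynomial.induction_on with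
  | C a => simp
  | add p q hp hq => simp only [map_add, hp, hq]
  | mul_X p j hp => simp only [map_mul, hp, map_X, eval_X]

theorem dEv_mp {L Ω : Type u} [CommRing L] [CommRing Ω] {n : ℕ} (φ : L →+* Ω) (z τ : Fin n → L)
    (P : MvPolynomial (Fin n) L) :
    dEv (fun j => φ (z j)) (map φ P) (fun j => φ (τ j)) = φ (dEv z P τ) := by
  simp only [dEv, pderiv_map, eval_mp, map_sum, map_mul]

variable {k : Type u} [Field k] {N m : ℕ}

theorem eval_cmb (Ω : Type u) [Field Ω] [Algebra k Ω] (B : Fin m → Pol k N) (a : Fin m → Ω)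
    (z : Fin (N + 1) → Ω) :
    eval z (cmb Ω B a) = ∑ j, eval z (map (algebraMap k Ω) (B j)) * a j := by
  simp only [cmb, map_sum, map_mul, eval_C, mul_comm]

theorem dEv_cmb (Ω : Type u) [Field Ω] [Algebra k Ω] (B : Fin m → Pol k N) (a : Fin m → Ω)
    (z τ : Fin (N + 1) → Ω) :
    dEv z (cmb Ω B a) τ = ∑ j, dEv z (map (algebraMap k Ω) (B j)) τ * a j := by
  simp only [cmb, dEv, map_sum, pderiv_C_mul, map_mul, eval_C, Finset.sum_mul]
  rw [Finset.sum_comm]
  exact Finset.sum_congr rfl fun _ _ => Finset.sum_congr rfl fun _ _ => by ring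

theorem map_tow (L Ω : Type u) [Field L] [Field Ω] [Algebra k L] [Algebra k Ω] [Algebra L Ω]
    [IsScalarTower k L Ω] (P : Pol k N) :
    map (algebraMap k Ω) P = map (algebraMap L Ω) (map (algebraMap k L) P) := by
  rw [MvPolynomial.map_map, ← IsScalarTower.algebraMap_eq]

theorem lin0 {Ω : Type u} [Field Ω] [Algebra k Ω] {a : Fin m → Ω} (ha : AlgebraicIndependent k a)
    (c : Fin m → k) (h : ∑ j, algebraMap k Ω (c j) * a j = 0) (j : Fin m) : c j = 0 :=
  Fintype.linearIndependent_iff.1 ha.linearIndependent c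
    (by simpa only [Algebra.smul_def] using h) j

/-- few coordinates separate a subspace -/
theorem exJ {L : Type u} [Field L] {n : ℕ} (T : Submodule L (Fin n → L)) :
    ∃ J : Finset (Fin n), J.card ≤ Module.finrank L T ∧
      ∀ τ ∈ T, (∀ j ∈ J, τ j = 0) → τ = 0 := by
  classical
  let f : Fin n → Module.Dual L T := fun j => (LinearMap.proj j).comp T.subtype
  obtain ⟨κ, a, ha, hs, hl⟩ := exists_linearIndependent' L f
  have : Finite κ := Finite.of_injective a ha
  let _ := Fintype.ofFinite κ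
  refine ⟨Finset.univ.image a, ?_, fun τ hτ h => funext fun j => ?_⟩
  · refine Finset.card_image_le.trans ?_
    rw [← Subspace.dual_finrank_eq]
    exact hl.fintype_card_le_finrank
  · have h1 : f j ∈ Submodule.span L (Set.range (f ∘ a)) :=
      hs ▸ Submodule.subset_span (Set.mem_range_self j)
    have h2 : Submodule.span L (Set.range (f ∘ a)) ≤
        LinearMap.ker (Module.Dual.eval L T ⟨τ, hτ⟩) := Submodule.span_le.2 (by
      rintro _ ⟨x, rfl⟩
      exact h (a x) (Finset.mem_image_of_mem a (Finset.mem_univ x)))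
    exact h2 h1

/-- prescribed values on a basis of a subspace -/
theorem exD {L : Type u} [Field L] {n t : ℕ} (T : Submodule L (Fin n → L))
    (b : Module.Basis (Fin t) L T) (w : Fin t → L) :
    ∃ δ : Fin n → L, ∀ s, ∑ j, δ j * (b s).1 j = w s := by
  classical
  obtain ⟨g, hg⟩ := LinearMap.exists_extend (b.constr L w)
  refine ⟨fun j => g fun l => if j = l then 1 else 0, fun s => ?_⟩
  have h1 : g (b s).1 = w s := by
    rw [← b.constr_basis L w s, ← hg]
    rfl
  rw [← h1, LinearMap.pi_apply_eq_sum_univ g]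
  exact Finset.sum_congr rfl fun _ _ => by rw [smul_eq_mul, mul_comm]

/-- the tangent space -/
def tanS {L : Type u} [Field L] (𝒢 : Set (Pol L N)) (z : Fin (N + 1) → L) (i : Fin (N + 1)) :
    Submodule L (Fin (N + 1) → L) where
  carrier := {τ | Tan 𝒢 z i τ}
  zero_mem' := ⟨rfl, fun G _ => by simp [dEv]⟩
  add_mem' := by
    rintro τ υ ⟨a, b⟩ ⟨c, d⟩
    refine ⟨by rw [Pi.add_apply, a, c, add_zero], fun G hG => ?_⟩
    have h1 := b G hG
    have h2 := d G hG
    simp only [dEv, Pi.add_apply, mul_add, Finset.sum_add_distrib] at h1 h2 ⊢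
    rw [h1, h2, add_zero]
  smul_mem' := by
    rintro c τ ⟨a, b⟩
    refine ⟨by rw [Pi.smul_apply, a, smul_zero], fun G hG => ?_⟩
    have h1 := b G hG
    simp only [dEv, Pi.smul_apply, smul_eq_mul, mul_left_comm _ c, ← Finset.mul_sum] at h1 ⊢
    rw [h1, mul_zero]

theorem main (𝒢 : Finset (Pol k N)) (B : Fin m → Pol k N) (Ω : Type u) [Field Ω] [Algebra k Ω]
    (a : Fin m → Ω) (ha : AlgebraicIndependent k a) (L : IntermediateField k Ω)
    (i : Fin (N + 1)) (z : Fin (N + 1) → L)
    (hL : L ≤ adjoin k (Set.range fun j => algebraMap L Ω (z j))) (hi : z i = 1)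
    (hV : OnV (ext L 𝒢) z) (h0 : eval (fun j => algebraMap L Ω (z j)) (cmb Ω B a) = 0)
    (h1 : ∀ τ, Tan (ext Ω 𝒢) (fun j => algebraMap L Ω (z j)) i τ →
      dEv (fun j => algebraMap L Ω (z j)) (cmb Ω B a) τ = 0)
    (hJ : ∀ (c : L) (δ : Fin (N + 1) → L), ∃ b : Fin m → L, eval z (cmb L B b) = c ∧
      ∀ τ, τ i = 0 → dEv z (cmb L B b) τ = ∑ j, δ j * τ j) : False := by
  classical
  let T := tanS (ext L 𝒢) z i
  obtain ⟨J, hc, hs⟩ := exJ T
  let b := Module.finBasis L T
  have alg := rTr k Ω (N + 1) (𝒢 : Set (Pol k N)) (fun j => algebraMap L Ω (z j)) i J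
    (by simp only [hi, map_one]) (fun G hG => by
      rw [aeval_def, eval₂_eq_eval_map, map_tow L Ω, eval_mp, hV _ ⟨G, hG, rfl⟩, map_zero])
    (fun τ t1 t2 t3 => funext fun j => by
      refine (Module.forall_dual_apply_eq_zero_iff L (τ j)).1 fun l => ?_
      refine congrFun (hs (fun j => l (τ j)) ⟨by simp only [t1, map_zero], ?_⟩
        fun j hj => by simp only [t2 j hj, map_zero]) j
      rintro _ ⟨G, hG, rfl⟩
      have := congrArg l (t3 G hG)
      rw [map_tow L Ω, map_zero] at this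
      simp only [dEv, pderiv_map, eval_mp, map_sum, ← Algebra.smul_def, map_smul,
        smul_eq_mul] at this
      simpa only [dEv, pderiv_map] using this)
  let M : Fin (Module.finrank L T + 1) → Fin m → L :=
    Fin.cons (fun j => eval z (map (algebraMap k L) (B j)))
      fun s j => dEv z (map (algebraMap k L) (B j)) (b s).1
  have := rLin k Ω (J.image fun j => algebraMap L Ω (z j)) L
    (fun x hx => by rw [Finset.coe_image]; exact alg x (hL hx)) m _ a
    (fun r j => algebraMap L Ω (M r j)) ha (fun r j => (M r j).2) (fun w hw => ?_) (fun r => ?_)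
  · have h2 := Finset.card_image_le (s := J) (f := fun j => algebraMap L Ω (z j))
    omega
  · obtain ⟨δ, hδ⟩ := exD T b fun s => ⟨w s.succ, hw _⟩
    obtain ⟨c, c1, c2⟩ := hJ ⟨w 0, hw _⟩ δ
    refine ⟨fun j => algebraMap L Ω (c j), fun j => (c j).2, fun r => ?_⟩
    simp only [← map_mul, ← map_sum]
    refine Fin.cases ?_ (fun s => ?_) r
    · simp only [M, Fin.cons_zero]
      rw [← eval_cmb, c1]
      rfl
    · simp only [M, Fin.cons_succ]
      rw [← dEv_cmb, c2 _ (b s).2.1, hδ]
      rfl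
  · refine Fin.cases ?_ (fun s => ?_) r
    · simp only [M, Fin.cons_zero]
      rw [← h0, eval_cmb]
      exact Finset.sum_congr rfl fun j _ => by rw [map_tow L Ω (B j), eval_mp]
    · simp only [M, Fin.cons_succ]
      rw [← h1 (fun j => algebraMap L Ω ((b s).1 j)) ⟨by simp only [(b s).2.1, map_zero], ?_⟩,
        dEv_cmb]
      · exact Finset.sum_congr rfl fun j _ => by rw [map_tow L Ω (B j), dEv_mp]
      · rintro _ ⟨G, hG, rfl⟩
        rw [map_tow L Ω, dEv_mp, (b s).2.2 _ ⟨G, hG, rfl⟩, map_zero]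

end BGenS

open BGenS in
theorem rGenS : RGenS.{u} := by
  rintro k _ N m 𝒢 B hJ Ω _ _ a ha ⟨i, z, hn, hV, h0, h1⟩
  let L := adjoin k (Set.range z)
  let z' : Fin (N + 1) → L := fun j => ⟨z j, subset_adjoin k _ (Set.mem_range_self j)⟩
  have hV' : OnV (ext L 𝒢) z' := by
    rintro _ ⟨G, hG, rfl⟩
    apply (algebraMap L Ω).injective
    rw [← eval_mp, ← map_tow, map_zero]
    exact hV _ ⟨G, hG, rfl⟩
  rcases hJ L i z' ⟨Subtype.ext hn.1, fun j hj => Subtype.ext (hn.2 j hj)⟩ hV' with
    h | ⟨w, hw, j, hj⟩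
  · exact main 𝒢 B Ω a ha L i z' le_rfl (Subtype.ext hn.1) hV' h0 h1 h
  · obtain rfl : z = fun j => algebraMap k Ω (w j) :=
      funext fun j => congrArg Subtype.val (congrFun hw j)
    rcases hj with hj | ⟨τ, hτ, hj⟩
    · rw [eval_cmb] at h0
      simp only [eval_mp] at h0
      exact hj (lin0 ha _ h0 j)
    · have h2 := h1 (fun j => algebraMap k Ω (τ j)) ⟨by simp only [hτ.1, map_zero], by
        rintro _ ⟨G, hG, rfl⟩
        rw [dEv_mp, hτ.2 G hG, map_zero]⟩
      rw [dEv_cmb] at h2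
      simp only [dEv_mp] at h2
      exact hj (lin0 ha _ h2 j)

end Pool.Agent.MP_f3836a_nt.PK
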