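import Pool.Agent.MP_f3836a_nt.PK.SpecC

set_option autoImplicit false

/-! The theorem of Bertini on the surface, and forms transversal to a smooth curve. -/

namespace Pool.Agent.MP_f3836a_nt.PK

open MvPolynomial IsLocalRing

universe u

namespace CBtA

variable {k K : Type u} [Field k] [Field K] [Algebra k K] {N : ℕ} {ξ : Fin (N + 1) → K}
  {𝒢 : Finset (Pol k N)}

theorem sm_of (hG : IsGens ξ 𝒢) (hT : TanA k ξ 𝒢) (x₀ : Pt k ξ) {n : ℕ} (hn : 1 ≤ n)
    {h : Pol k N} (hh : h.IsHomogeneous n) (hs : ¬Sing (𝒢 : Set (Pol k N)) h) : Sm ξ h := by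
  have h1 : ∀ x : Pt k ξ, ¬x.Sq h := fun x hx =>
    hs ⟨_, _, (hG.onV x).1, (hG.onV x).2, (hT.sq x h (Form.of hh)).1 hx⟩
  have h2 : aeval ξ h ≠ 0 := fun e => h1 x₀ (by
    have : x₀.ctr.lx h = 0 := Subtype.ext (by
      rw [Ctr.coe_lx x₀.good (Form.of hh), Ctr.lo, e, zero_div]; rfl)
    rw [Pt.Sq, this]
    exact zero_mem _)
  refine ⟨Form.of hh, ?_, h2, h1⟩
  rwa [hh.totalDegree fun e => h2 (by rw [e, map_zero])]

theorem cnt_le (hG : IsGens ξ 𝒢) (hT : TanA k ξ 𝒢) (x₀ : Pt k ξ) {n m : ℕ} (hn : 1 ≤ n)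
    {B : Fin m → Pol k N} (hB : ∀ j, (B j).IsHomogeneous n) (S : Finset k) :
    {a : Fin m → k | (∀ j, a j ∈ S) ∧ ¬Sm ξ (∑ j, C (a j) * B j)}.ncard ≤
      {a : Fin m → k | (∀ j, a j ∈ S) ∧ Sing (𝒢 : Set (Pol k N)) (∑ j, C (a j) * B j)}.ncard := by
  classical
  refine Set.ncard_le_ncard (fun a ha => ⟨ha.1, by_contra fun hs => ha.2 (sm_of hG hT x₀ hn
    (IsHomogeneous.sum _ _ _ fun j _ => (hB j).C_mul _) hs)⟩) ?_
  exact (Fintype.piFinset fun _ => S).finite_toSet.subset fun a ha =>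
    Finset.mem_coe.2 (Fintype.mem_piFinset.2 ha.1)

theorem jet [IsAlgClosed k] (hJ : RJetG.{u}) (hG : IsGens ξ 𝒢) (hT : TanA k ξ 𝒢) {n r m : ℕ}
    {B : Fin m → Pol k N} {A : Fin r → Pol k N} {a : Fin r → ℕ}
    (h1 : ∀ s, (A s).IsHomogeneous (a s) ∧ a s < n)
    (h2 : ∀ s, ∀ M : Pol k N, M.IsHomogeneous (n - a s) →
      A s * M ∈ Submodule.span k (Set.range B))
    (h3 : {x : Pt k ξ | ∀ s, eval x.z (A s) = 0}.Finite)
    (h4 : ∀ x : Pt k ξ, (∀ s, eval x.z (A s) = 0) → ∃ s, ¬x.Sq (A s)) : JetGen 𝒢 B := by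
  refine hJ k N n r m 𝒢 A a B h1 h2 ((h3.image fun x => x.z).subset ?_) fun i z hn hz hA => ?_
  · rintro z ⟨⟨i, hn⟩, hz, hA⟩
    obtain ⟨x, rfl, -⟩ := hG.pt hn hz
    exact ⟨x, hA, rfl⟩
  · obtain ⟨x, rfl, rfl⟩ := hG.pt hn hz
    obtain ⟨s, hs⟩ := h4 x hA
    by_contra hc
    exact hs ((hT.sq x _ (Form.of (h1 s).1)).2 ⟨hA s, fun τ hτ =>
      by_contra fun e => hc ⟨s, τ, hτ, e⟩⟩)

theorem dEv_X (z τ : Fin (N + 1) → k) (s i : Fin (N + 1)) (c : k) :
    dEv z (X s - C c * X i : Pol k N) τ = τ s - c * τ i := by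
  classical
  have h : ∀ t j, eval z (pderiv j (X t : Pol k N)) * τ j = if t = j then τ j else 0 := by
    intro t j
    by_cases e : t = j
    · rw [if_pos e, e, pderiv_X_self, map_one, one_mul]
    · rw [if_neg e, pderiv_X_of_ne e, map_zero, zero_mul]
  simp only [dEv, map_sub, pderiv_C_mul, map_mul, eval_C, sub_mul, mul_assoc, h,
    Finset.sum_sub_distrib, ← Finset.mul_sum, Finset.sum_ite_eq, Finset.mem_univ, if_true]

theorem tan_ne (hR : RReg.{u}) (hS : IsSurf k ξ) (hT : TanA k ξ 𝒢) (x : Pt k ξ) :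
    ∃ s, ¬x.Sq (X s - C (x.z s) * X x.ctr.idx) := by
  by_contra hc
  have h0 : ∀ τ, Tan (𝒢 : Set (Pol k N)) x.z x.ctr.idx τ → ∀ s, τ s = 0 := fun τ hτ s => by
    have := ((hT.sq x _ (Form.of ((isHomogeneous_X k s).sub
      ((isHomogeneous_X k x.ctr.idx).C_mul (x.z s))))).1 (by_contra fun e => hc ⟨s, e⟩)).2 τ hτ
    rwa [dEv_X, hτ.1, mul_zero, sub_zero] at this
  have := hS.reg x
  obtain ⟨y, h1, h2⟩ := (hR x.ctr.O (hS.dim x)).1
  obtain ⟨n, A, B, hA, hB, hP, e⟩ := Ctr.exists_lx x.good y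
  have h3 : x.Sq A := (hT.sq x A (Form.of hA)).2
    ⟨(x.lx_mem_max (Form.of hA)).1 (e ▸ Ideal.mul_mem_right _ _ h1), fun τ hτ => by
      simp only [dEv, h0 τ hτ, mul_zero, Finset.sum_const_zero]⟩
  have h4 : IsUnit (x.ctr.lx B) := by_contra fun h =>
    hP ((Ctr.lx_mem_max x.good (Form.of hB)).1 h)
  rw [Pt.Sq, ← e] at h3
  exact h2 ((Ideal.mul_unit_mem_iff_mem _ h4).1 h3)

theorem base (x y : Pt k ξ) (h : ∀ s, eval y.z (X s - C (x.z s) * X x.ctr.idx : Pol k N) = 0) :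
    y = x := by
  have h1 : ∀ s, y.z s = x.z s * y.z x.ctr.idx := fun s => by
    simpa [sub_eq_zero] using h s
  have h2 := (h1 y.ctr.idx).symm.trans y.z_idx.1
  have h3 : y.ctr.idx = x.ctr.idx := by
    rcases lt_trichotomy y.ctr.idx x.ctr.idx with c | c | c
    · rw [x.z_idx.2 _ c, zero_mul] at h2
      exact absurd h2 zero_ne_one
    · exact c
    · rw [y.z_idx.2 _ c, mul_zero] at h2
      exact absurd h2 zero_ne_one
  refine Pt.ext (funext fun s => ?_)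
  rw [h1 s, ← h3, y.z_idx.1, mul_one]

end CBtA

open CBtA in
theorem rBtA : RReg.{u} → RJetG.{u} → RCntS.{u} → RGenA.{u} → RBtA.{u} := by
  intro hR hJ hC hA k K _ _ _ _ p _ _ N ξ 𝒢 hS hG hT
  refine ⟨fun ι _ n r B A a ⟨x₀⟩ hn hB h1 h2 h3 h4 => ?_, fun n hn => ?_⟩
  · let e := (Fintype.equivFin ι).symm
    refine (hA k).equiv _ ι e _ ?_
    obtain ⟨c, hc⟩ := hC k N n 𝒢
    refine ⟨c, fun S => ?_⟩
    have e1 : ∀ b : Fin (Fintype.card ι) → k,
        ∑ j, C (b (e.symm j)) * B j = ∑ j, C (b j) * B (e j) := fun b => by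
      rw [← e.sum_comp]
      simp only [Equiv.symm_apply_apply]
    simp only [e1, Fintype.card_fin]
    refine (Nat.mul_le_mul_right _ (cnt_le hG hT x₀ hn (fun j => hB (e j)) S)).trans
      (hc _ _ (fun j => hB (e j)) (jet hJ hG hT h1 (fun s M hM => ?_) h3 h4) S)
    rw [show (Set.range fun j => B (e j)) = Set.range B from e.surjective.range_comp B]
    exact h2 s M hM
  · obtain ⟨c, hc⟩ := hC k N n 𝒢
    refine ⟨c, fun x m B hB h S => ?_⟩
    have h1 : ∀ s, (X s - C (x.z s) * X x.ctr.idx : Pol k N).IsHomogeneous 1 := fun s =>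
      (isHomogeneous_X k s).sub ((isHomogeneous_X k x.ctr.idx).C_mul (x.z s))
    refine (Nat.mul_le_mul_right _ (cnt_le hG hT x (by omega) hB S)).trans (hc _ _ hB
      (jet hJ hG hT (n := n) (a := fun _ => 1) (fun s => ⟨h1 s, hn⟩) (fun s M hM => h _ ?_ ?_)
        ((Set.finite_singleton x).subset fun y hy => base x y hy) fun y hy => ?_) S)
    · have := (h1 s).mul hM
      rwa [Nat.add_sub_cancel' (by omega)] at this
    · simp [x.z_idx.1]
    · rw [base x y hy]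
      exact tan_ne hR hS hT x

theorem rTrA : RJetG.{u} → RCntS.{u} → RGenA.{u} → RTrA.{u} := by
  classical
  intro hJ hC hA k K _ _ _ _ p _ _ N ξ 𝒢 _ hG hV hF hj hT h1 W hW n hn
  let e := (Fintype.equivFin (Mon N n)).symm
  let B : Fin (Fintype.card (Mon N n)) → Pol k N := fun j => monomial (e j).1 1
  have hB : ∀ j, (B j).IsHomogeneous n := fun j => isHomogeneous_monomial _ (e j).2
  have hs : ∀ M : Pol k N, M.IsHomogeneous n → M ∈ Submodule.span k (Set.range B) := by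
    intro M hM
    rw [M.as_sum]
    refine Submodule.sum_mem _ fun d hd => ?_
    have hd' : d.degree = n := by_contra fun c => mem_support_iff.1 hd (hM.coeff_eq_zero c)
    rw [← mul_one (coeff d M), ← smul_eq_mul, ← smul_monomial]
    refine Submodule.smul_mem _ _ (Submodule.subset_span ⟨e.symm ⟨d, hd'⟩, ?_⟩)
    simp only [B, Equiv.apply_symm_apply]
  have hg : JetGen (insert W 𝒢) B := hJ k N n 1 _ _ (fun _ => 1) (fun _ => 0) B
    (fun _ => ⟨isHomogeneous_one _ _, hn⟩) (fun _ M hM => by rw [one_mul]; exact hs M hM)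
    (Set.finite_empty.subset fun z hz => absurd (hz.2.2 0) (by simp))
    fun i z _ _ hz => absurd (hz 0) (by simp)
  obtain ⟨c, hc⟩ := hC k N n (insert W 𝒢)
  have g1 : Gen k _ fun a => ¬Sing (insert W (𝒢 : Set (Pol k N))) (∑ j, C (a j) * B j) :=
    ⟨c, fun S => by
      simpa only [not_not, Fintype.card_fin, Finset.coe_insert] using hc _ B hB hg S⟩
  obtain ⟨i, hi⟩ : ∃ i, ξ i ≠ 0 := by
    by_contra c
    have c' : ξ = 0 := funext fun i => by_contra fun e => c ⟨i, e⟩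
    refine hW.2.2.1 ?_
    rw [c', aeval_zero, constantCoeff_eq, hW.1.coeff_eq_zero, map_zero]
    have := hW.2.1
    rw [map_zero]
    omega
  have g2 := (hA k).sub _ K (fun j => aeval ξ (B j)) ⊥
    ⟨e.symm ⟨Finsupp.single i n, Finsupp.degree_single _ _⟩, by
      simp only [B, Equiv.apply_symm_apply, ← X_pow_eq_monomial, map_pow, aeval_X,
        Submodule.mem_bot]
      exact pow_ne_zero _ hi⟩
  obtain ⟨a, a1, a2⟩ := (hA k).ex _ _ ((hA k).and _ _ _ g1 g2)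
  have hh : (∑ j, C (a j) * B j).IsHomogeneous n :=
    IsHomogeneous.sum _ _ _ fun j _ => (hB j).C_mul _
  have key : ∀ (x : Pt k ξ) (D : Cv k ξ), x.On D → W ∈ D.P →
      ¬(∑ j, C (a j) * B j ∈ D.P ∨ 2 ≤ J x W (∑ j, C (a j) * B j)) := fun x D hx hD hh' => by
    have h0 := hx _ W hW.1 hD
    refine a1 ⟨_, _, (hG.onV x).1, ?_, hT.sq2 x W _ hW.1 (Form.of hh) h0
      ((h1 W D hW hD).ge x hx _ 2 (Form.of hh) hh')⟩
    rintro G (rfl | hG')
    · exact h0
    · exact (hG.onV x).2 G hG'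
  have hc' : Cop ξ W (∑ j, C (a j) * B j) := by
    refine ⟨hW.1, Form.of hh, hW.2.2.1, fun e0 => a2 ?_, fun D hD hD' => ?_⟩
    · rw [Submodule.mem_bot, ← e0, map_sum]
      exact Finset.sum_congr rfl fun j _ => by rw [map_mul, aeval_C, Algebra.smul_def]
    · obtain ⟨x, hx⟩ := hV.pt D
      exact key x D hx hD (Or.inl hD')
  refine ⟨_, hh, hc', fun x => ?_⟩
  by_cases h0 : eval x.z W = 0
  · obtain ⟨D, hx, hD⟩ := hF.thru x W hW.1 hW.2.2.1 h0
    exact Nat.le_of_lt_succ (not_le.1 fun c => key x D hx hD (Or.inr c))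
  · rw [(hj.zero x _ _ hc').2 fun c => h0 c.1]
    exact Nat.zero_le _

end Pool.Agent.MP_f3836a_nt.PK
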