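import Pool.Agent.MP_f3836a_nt.PK.SpecC

set_option autoImplicit false

/-! The zero set of a smooth form is one curve of bounded degree. -/

namespace Pool.Agent.MP_f3836a_nt.PK

open MvPolynomial

universe u

namespace CConA

theorem sum_two (w d m : ℕ) : (∑ j ∈ Finset.range (m + 1), (j * w * d + 1)) * 2 =
    w * d * (m * (m + 1)) + 2 * (m + 1) := by
  induction m with
  | zero => simp
  | succ m ih =>
    rw [Finset.sum_range_succ, add_mul, ih]
    ring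

theorem num {w d e : ℕ} (he : w * d + 1 ≤ e) (h : ∀ m : ℕ, e * (m + 1 - e).choose 2 ≤
    ∑ j ∈ Finset.range (m + 1), (j * w * d + 1)) : False := by
  obtain ⟨t, ht⟩ : ∃ t, t = 2 * e ^ 2 + 3 := ⟨_, rfl⟩
  have h1 := Nat.mul_le_mul_right 2 (h (e + t))
  have h2 := Nat.add_one_mul_choose_eq t 1
  rw [sum_two, show e + t + 1 - e = t + 1 by omega, mul_assoc] at h1
  rw [Nat.choose_one_right] at h2
  rw [← h2] at h1
  have h3 := Nat.mul_le_mul_right ((e + t) * (e + t + 1)) he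
  have h4 : (2 * e ^ 2 + 3) * (e + t + 1) ≤ (e + t) * (e + t + 1) :=
    Nat.mul_le_mul_right _ (by omega)
  nlinarith [Nat.zero_le (e ^ 3), Nat.zero_le (e ^ 2)]

variable {k K : Type u} [Field k] [Field K] [Algebra k K] {N : ℕ} {ξ : Fin (N + 1) → K}

theorem supp (ja : JA k ξ) {A B : Pol k N} (h : Cop ξ A B) :
    (Function.support fun x : Pt k ξ => J x A B) = Zs ξ A B := by
  ext x
  rw [Function.mem_support, Ne, ja.zero x A B h, not_not]

theorem sum_eq (ja : JA k ξ) {A B : Pol k N} (h : Cop ξ A B) (C : Cv k ξ) :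
    ∑ᶠ (x : Pt k ξ) (_ : x.On C), J x A B = ∑ᶠ x ∈ {x | x.On C} ∩ Zs ξ A B, J x A B := by
  rw [← supp ja h]
  exact (finsum_mem_inter_support _ {x : Pt k ξ | x.On C}).symm

theorem cnt (ja : JA k ξ) {A B : Pol k N} (h : Cop ξ A B) (h1 : ∀ x : Pt k ξ, J x A B ≤ 1)
    (C : Cv k ξ) :
    ∑ᶠ (x : Pt k ξ) (_ : x.On C), J x A B = ({x | x.On C} ∩ Zs ξ A B).ncard := by
  rw [sum_eq ja h, ← finsum_one]
  refine finsum_mem_congr rfl fun x hx => ?_
  have h2 := h1 x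
  have h3 := (ja.zero x A B h).not.2 (not_not.2 hx.2)
  omega

end CConA

open CConA in
theorem rConA : RConA.{u} := by
  intro k K _ _ _ _ p _ _ N ξ 𝒢 _ _ cv fin ja ex tr sm cu cl cn
  have uniq : ∀ (W : Pol k N) (C C' : Cv k ξ), Sm ξ W → W ∈ C.P → W ∈ C'.P → C' = C := by
    intro W C C' hW hC hC'
    by_contra hne
    obtain ⟨h, h1, h2, h3⟩ := tr W hW _ hW.2.1
    have a1 := (sm W C hW hC).s3.deg _ h h1 (h2.2.2.2.2 C hC)
    have a2 := (sm W C' hW hC').s3.deg _ h h1 (h2.2.2.2.2 C' hC')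
    rw [cnt ja h2 h3] at a1 a2
    have a3 := Nat.mul_le_mul hW.2.1 (sm W C' hW hC').s3.pos
    have f := fin.zs W h h2
    have a4 := Set.ncard_le_ncard (Set.union_subset
      (Set.inter_subset_right (s := {x : Pt k ξ | x.On C}))
      (Set.inter_subset_right (s := {x : Pt k ξ | x.On C'}))) f
    rw [Set.ncard_union_eq ?_ (f.inter_of_right _) (f.inter_of_right _)] at a4
    swap
    · exact Set.disjoint_left.2 fun x b1 b2 => hne ((sm W C hW hC).s1.disj x C' b1.1 b2.1 hC')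
    exact num (e := (Zs ξ W h).ncard) (by omega) fun m =>
      (cl W h _ hW.2.1 hW.1 h1 h2 m).trans (cu W C hW hC m)
  have on : ∀ (W : Pol k N) (C : Cv k ξ), Sm ξ W → W ∈ C.P →
      ∀ x : Pt k ξ, x.On C ↔ eval x.z W = 0 := by
    intro W C hW hC x
    refine ⟨fun h => h _ W hW.1 hC, fun h => ?_⟩
    obtain ⟨C', h1, h2⟩ := fin.thru x W hW.1 hW.2.2.1 h
    exact uniq W C C' hW hC h2 ▸ h1
  refine ⟨fun W hW h => cn h W hW.1 hW.2.1 hW.2.2.1, uniq, on, ?_⟩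
  by_cases hp : Nonempty (Pt k ξ)
  · obtain ⟨H, h1, h2, -⟩ := ex.e0 1 le_rfl hp ∅ Set.finite_empty
    obtain ⟨D, hD⟩ := cn hp H h2.1 h2.2.1 h2.2.2.1
    refine ⟨D.deg, fun W C hW hC => ?_⟩
    by_cases h3 : H ∈ C.P
    · rw [uniq H D C h2 hD h3]
      exact Nat.le_mul_of_pos_left _ hW.2.1
    · have h4 : Cop ξ W H := ⟨hW.1, h2.1, hW.2.2.1, h2.2.2.1, fun C' h5 =>
        uniq W C C' hW hC h5 ▸ h3⟩
      have a1 := (sm W C hW hC).s3.deg 1 H h1 h3
      have a2 := (sm H D h2 hD).s3.deg _ W hW.1 fun h5 => h4.2.2.2.2 D h5 hD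
      simp only [ja.symm _ H W] at a2
      have b1 : Zs ξ W H ⊆ {x | x.On C} := fun x hx => (on W C hW hC x).2 hx.1
      have b2 : Zs ξ W H ⊆ {x | x.On D} := fun x hx => (on H D h2 hD x).2 hx.2
      rw [sum_eq ja h4, Set.inter_eq_right.2 b1] at a1
      rw [sum_eq ja h4, Set.inter_eq_right.2 b2] at a2
      omega
  · exact ⟨0, fun W C _ _ => absurd ⟨(cv.pt C).choose⟩ hp⟩

end Pool.Agent.MP_f3836a_nt.PK
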