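import Pool.Agent.MP_f3836a_nt.PK.SpecC

set_option autoImplicit false

/-! Lower bound for the Hilbert function from the common zeros of two forms. -/

namespace Pool.Agent.MP_f3836a_nt.PK

open MvPolynomial IsLocalRing

universe u

namespace CConL

/-- the least term of a relation between monomials in two coprime elements -/
theorem least {R : Type u} [CommRing R] [IsDomain R] [DecompositionMonoid R] {u v : R}
    (hu : u ≠ 0) (huv : IsRelPrime u v) {P : Type} [Fintype P] (a b : P → ℕ) (t : P → R)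
    (hs : ∑ p, u ^ a p * v ^ b p * t p = 0) (q : P)
    (hq : ∀ p, p ≠ q → t p = 0 ∨ a q < a p ∨ (a q = a p ∧ b q < b p)) :
    ∃ α β, t q = α * u + β * v := by
  classical
  have h1 : ∑ p ∈ Finset.univ.erase q, u ^ a p * v ^ b p * t p ∈
      Ideal.span {u ^ (a q + 1), u ^ a q * v ^ (b q + 1)} := by
    refine Ideal.sum_mem _ fun p hp => ?_
    rcases hq p (Finset.ne_of_mem_erase hp) with h | h | ⟨h, h'⟩
    · rw [h, mul_zero]
      exact Ideal.zero_mem _
    · obtain ⟨n, hn⟩ := Nat.exists_eq_add_of_lt h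
      exact Ideal.mem_span_pair.2 ⟨u ^ n * v ^ b p * t p, 0, by rw [hn]; ring⟩
    · obtain ⟨n, hn⟩ := Nat.exists_eq_add_of_lt h'
      exact Ideal.mem_span_pair.2 ⟨0, v ^ n * t p, by rw [hn, ← h]; ring⟩
  obtain ⟨α, β, h2⟩ := Ideal.mem_span_pair.1 h1
  rw [← Finset.add_sum_erase _ _ (Finset.mem_univ q), ← h2] at hs
  have h3 : u ^ a q * (v ^ b q * (t q + β * v) + α * u) = 0 := by
    rw [← hs]
    ring
  have h4 := (mul_eq_zero.1 h3).resolve_left (pow_ne_zero _ hu)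
  have h5 : u ∣ v ^ b q * (t q + β * v) := ⟨-α, by linear_combination h4⟩
  obtain ⟨γ, hγ⟩ := (huv.pow_right (n := b q)).dvd_of_dvd_mul_left h5
  exact ⟨γ, -β, by linear_combination hγ⟩

variable {k K : Type u} [Field k] [Field K] [Algebra k K] {N : ℕ} {ξ : Fin (N + 1) → K}

theorem mem_of_res {x : Pt k ξ} {C : Cv k ξ} (h : x.On C) {A : Pol k N} (hA : Form A)
    (h0 : C.res (x.ctr.lx A) = 0) : A ∈ C.P := by
  have hB : (X x.ctr.idx ^ A.totalDegree : Pol k N).IsHomogeneous A.totalDegree :=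
    isHomogeneous_X_pow _ _
  have h1 := C.res_of_mem ⟨x.ctr.lx A, h.le (x.ctr.lx A).2⟩
  rw [h0, eq_comm, residue_eq_zero_iff] at h1
  refine (C.toCtr.mem_max_iff _ hA hB (fun hh => Ctr.pow_notMem x.good _ (h _ _ hB hh)) ?_).1 h1
  rw [Ctr.coe_lx x.good hA]
  exact Ctr.lo_spec x.good hA

theorem lx_ne (x : Pt k ξ) {A : Pol k N} (hA : Form A) (h : aeval ξ A ≠ 0) : x.ctr.lx A ≠ 0 := by
  intro h0
  refine Ctr.lo_ne x.good h ?_
  rw [← Ctr.coe_lx x.good hA, h0]
  rfl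

theorem relPrime (hC : CvA k ξ) (x : Pt k ξ) [UniqueFactorizationMonoid x.ctr.O] {A B : Pol k N}
    (h : Cop ξ A B) : IsRelPrime (x.ctr.lx A) (x.ctr.lx B) := by
  refine (UniqueFactorizationMonoid.isRelPrime_iff_no_prime_factors
    (lx_ne x h.1 h.2.2.1)).2 fun π h1 h2 hπ => ?_
  obtain ⟨C, hx, hd⟩ := hC.ofP x π hπ
  exact h.2.2.2.2 C (mem_of_res hx h.1 ((hd _).1 h1)) (mem_of_res hx h.2.1 ((hd _).1 h2))

theorem sep (hS : RSep0.{u}) (Z : Finset (Pt k ξ)) (y : Pt k ξ) {n : ℕ} (hn : Z.card ≤ n) :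
    ∃ s : Pol k N, s.IsHomogeneous n ∧ eval y.z s = 1 ∧ ∀ x ∈ Z, x ≠ y → eval x.z s = 0 := by
  classical
  obtain ⟨s, h1, -, h2, h3⟩ := hS k ⊤ N (Z.erase y).card n
    (fun j => ((Z.erase y).equivFin.symm j).1.z) y.ctr.idx y.z
    (fun j => ⟨_, Pt.z_idx _⟩) (fun _ _ => trivial) (fun _ => trivial) y.z_idx
    (fun j h => Finset.ne_of_mem_erase ((Z.erase y).equivFin.symm j).2 (Pt.ext h))
    (Finset.card_erase_le.trans hn)
  refine ⟨s, h1, h3, fun x hx hxy => ?_⟩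
  have := h2 ((Z.erase y).equivFin ⟨x, Finset.mem_erase.2 ⟨hxy, hx⟩⟩)
  rwa [Equiv.symm_apply_apply] at this

/-- a relation between forms, read in a local ring -/
theorem local_rel (x : Pt k ξ) {W h : Pol k N} {w n : ℕ} (hW : W.IsHomogeneous w)
    (hh : h.IsHomogeneous w) {P : Type} [Fintype P] (a b d : P → ℕ) (T : P → Pol k N)
    (hT : ∀ p, (T p).IsHomogeneous (d p)) (hd : ∀ p, w * a p + w * b p + d p = n)
    (h0 : ∑ p, aeval ξ (W ^ a p * h ^ b p * T p) = 0) :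
    ∑ p, x.ctr.lx W ^ a p * x.ctr.lx h ^ b p * x.ctr.lx (T p) = 0 := by
  refine Subtype.ext ?_
  have h1 : ∀ p, ((x.ctr.lx W ^ a p * x.ctr.lx h ^ b p * x.ctr.lx (T p) : x.ctr.O) : K) =
      aeval ξ (W ^ a p * h ^ b p * T p) / ξ x.ctr.idx ^ n := by
    intro p
    rw [Subring.coe_mul, Subring.coe_mul, Subring.coe_pow, Subring.coe_pow,
      Ctr.coe_lx x.good (Form.of hW), Ctr.coe_lx x.good (Form.of hh),
      Ctr.coe_lx x.good (Form.of (hT p)), x.ctr.lo_eq hW, x.ctr.lo_eq hh, x.ctr.lo_eq (hT p),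
      ← hd p, map_mul, map_mul, map_pow, map_pow, div_pow, div_pow, div_mul_div_comm,
      div_mul_div_comm, pow_add, pow_add, pow_mul, pow_mul]
  rw [AddSubmonoidClass.coe_finsetSum, Finset.sum_congr rfl fun p _ => h1 p, ← Finset.sum_div,
    h0, zero_div]
  rfl

theorem indep (hU : ∀ x : Pt k ξ, UniqueFactorizationMonoid x.ctr.O) (hC : CvA k ξ)
    {W h : Pol k N} {w n : ℕ} (hW : W.IsHomogeneous w) (hh : h.IsHomogeneous w)
    (hc : Cop ξ W h) (Z : Finset (Pt k ξ)) (hZ : ∀ x ∈ Z, x ∈ Zs ξ W h) {P : Type} [Fintype P]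
    (a b d : P → ℕ) (hab : ∀ p q, a p = a q → b p = b q → p = q)
    (hd : ∀ p, w * a p + w * b p + d p = n) (s : P → Z → Pol k N)
    (hs : ∀ p y, (s p y).IsHomogeneous (d p) ∧ eval y.1.z (s p y) = 1 ∧
      ∀ x ∈ Z, x ≠ y.1 → eval x.z (s p y) = 0) :
    LinearIndependent k fun i : P × Z => aeval ξ (W ^ a i.1 * h ^ b i.1 * s i.1 i.2) := by
  classical
  refine Fintype.linearIndependent_iff.2 fun c h0 => ?_
  by_contra hne
  obtain ⟨i, hi⟩ := not_forall.1 hne
  obtain ⟨q, hq, hmin⟩ := Finset.exists_min_image (Finset.univ.filter fun p => ∃ y, c (p, y) ≠ 0)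
    (fun p => toLex (a p, b p)) ⟨i.1, Finset.mem_filter.2 ⟨Finset.mem_univ _, i.2, hi⟩⟩
  obtain ⟨x, hx⟩ := (Finset.mem_filter.1 hq).2
  let T : P → Pol k N := fun p => ∑ y, C (c (p, y)) * s p y
  have hT : ∀ p, (T p).IsHomogeneous (d p) := fun p =>
    IsHomogeneous.sum _ _ _ fun y _ => (hs p y).1.C_mul _
  have h1 : ∑ p, aeval ξ (W ^ a p * h ^ b p * T p) = 0 := by
    rw [← h0, Fintype.sum_prod_type]
    refine Finset.sum_congr rfl fun p _ => ?_
    simp only [T, Finset.mul_sum, map_sum]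
    refine Finset.sum_congr rfl fun y _ => ?_
    simp only [map_mul, aeval_C, Algebra.smul_def]
    ring
  have := hU x.1
  obtain ⟨α, β, h2⟩ := least (lx_ne x.1 hc.1 hc.2.2.1) (relPrime hC x.1 hc) a b
    (fun p => x.1.ctr.lx (T p)) (local_rel x.1 hW hh a b d T hT hd h1) q (fun p hp => by
      by_cases h3 : ∃ y, c (p, y) ≠ 0
      · right
        rcases Prod.Lex.toLex_le_toLex.1
          (hmin p (Finset.mem_filter.2 ⟨Finset.mem_univ _, h3⟩)) with h4 | ⟨h4, h5⟩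
        · exact Or.inl h4
        · exact Or.inr ⟨h4, lt_of_le_of_ne h5 fun h6 => hp (hab q p h4 h6).symm⟩
      · left
        have h4 : T p = 0 := Finset.sum_eq_zero fun y _ => by
          rw [not_not.1 fun h5 => h3 ⟨y, h5⟩, map_zero, zero_mul]
        rw [h4, Ctr.lx_zero])
  obtain ⟨ev, he, -⟩ := x.1.exists_ev
  have h3 := congrArg ev h2
  rw [map_add, map_mul, map_mul, he _ hc.1, he _ hc.2.1, (hZ _ x.2).1, (hZ _ x.2).2,
    he _ (Form.of (hT q)), mul_zero, mul_zero, add_zero] at h3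
  refine hx ?_
  rw [← h3]
  simp only [T, map_sum, map_mul, eval_C]
  rw [Finset.sum_eq_single x, (hs q x).2.1, mul_one]
  · intro y _ hy
    rw [(hs q y).2.2 x.1 x.2 fun h => hy (Subtype.ext h).symm, mul_zero]
  · intro h
    exact absurd (Finset.mem_univ x) h

theorem card_pairs (M : ℕ) : Fintype.card (Σ j : Fin M, Fin j) = M.choose 2 := by
  simp only [Fintype.card_sigma, Fintype.card_fin]
  rw [Fin.sum_univ_eq_sum_range (fun j => j) M, Finset.sum_range_id, Nat.choose_two_right]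

end CConL

open CConL in
theorem rConL : RReg.{u} → RCvA.{u} → RSep0.{u} → RConL.{u} := by
  intro hR hC hS k K _ _ _ _ p _ _ N ξ 𝒢 hX hG hF W h w hw hW hh hc m
  have hU : ∀ x : Pt k ξ, UniqueFactorizationMonoid x.ctr.O := fun x => by
    have := hX.reg x
    exact (hR x.ctr.O (hX.dim x)).2.2.1
  have hfin := hF.zs W h hc
  rw [Set.ncard_eq_toFinset_card _ hfin]
  generalize hZ : hfin.toFinset = Z
  have hZ' : ∀ x ∈ Z, x ∈ Zs ξ W h := fun x hx => hfin.mem_toFinset.1 (hZ ▸ hx)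
  let P : Type := Σ j : Fin (m + 1 - Z.card), Fin j
  have hle : ∀ q : P, Z.card ≤ (m - q.1) * w := fun q =>
    le_trans (by have := q.1.2; omega) (Nat.le_mul_of_pos_right _ hw)
  choose s hs using fun (q : P) (y : Z) => sep hS Z y.1 (hle q)
  have hd : ∀ q : P, w * q.2.1 + w * (q.1.1 - q.2.1) + (m - q.1.1) * w = m * w := by
    intro q
    have h1 := q.1.2
    have h2 := q.2.2
    rw [← mul_add, mul_comm w, ← add_mul]
    congr 1
    omega
  have hL := indep hU (hC k K p N ξ 𝒢 hX hG) hW hh hc Z hZ' (fun q : P => q.2.1)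
    (fun q => q.1.1 - q.2.1) (fun q => (m - q.1.1) * w) (by
      rintro ⟨j, a⟩ ⟨j', a'⟩ h1 h2
      have h3 := a.2
      have h4 := a'.2
      simp only at h1 h2
      obtain rfl : j = j' := Fin.ext (by omega)
      rw [Fin.ext h1]) hd s hs
  have hmem : ∀ i : P × Z, aeval ξ (W ^ i.1.2.1 * h ^ (i.1.1.1 - i.1.2.1) * s i.1 i.2) ∈
      VV k ξ (m * w) := by
    intro i
    refine ⟨_, ?_, rfl⟩
    have := ((hW.pow i.1.2.1).mul (hh.pow (i.1.1.1 - i.1.2.1))).mul (hs i.1 i.2).1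
    rwa [hd] at this
  have : Module.Finite k (VV k ξ (m * w)) :=
    Module.Finite.iff_fg.2 ((homogeneousSubmodule_fg _ _ _).map _)
  have hL' : LinearIndependent k fun i : P × Z => (⟨_, hmem i⟩ : VV k ξ (m * w)) :=
    LinearIndependent.of_comp (VV k ξ (m * w)).subtype hL
  have h1 := hL'.fintype_card_le_finrank
  rwa [Fintype.card_prod, card_pairs, Fintype.card_coe, mul_comm] at h1

end Pool.Agent.MP_f3836a_nt.PK
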