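import Pool.Agent.MP_f3836a_nt.PK.SpecC

set_option autoImplicit false

/-! A form of positive degree vanishes on some curve. -/

namespace Pool.Agent.MP_f3836a_nt.PK

open MvPolynomial IsLocalRing

universe u

namespace CConN

theorem aeval_sc {k R : Type u} [Field k] [CommRing R] [Algebra k R] {N n : ℕ} {A : Pol k N}
    (hA : A.IsHomogeneous n) (c : R) (η : Fin (N + 1) → R) :
    aeval (fun j => c * η j) A = c ^ n * aeval η A := by
  rw [aeval_def, aeval_def, eval₂_eq', eval₂_eq', Finset.mul_sum]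
  refine Finset.sum_congr rfl fun d hd => ?_
  have h : ∑ i, d i = n := by
    have h1 := hA (mem_support_iff.mp hd)
    rw [← h1, Finsupp.weight_apply, Finsupp.sum_fintype _ _ (by simp)]
    simp
  simp only [mul_pow, Finset.prod_mul_distrib, Finset.prod_pow_eq_pow_sum, h]
  ring

variable {k K : Type u} [Field k] [Field K] [Algebra k K] {N : ℕ} {ξ : Fin (N + 1) → K}

/-- normalising a nonzero common zero -/
theorem exists_pt {z : Fin (N + 1) → k} {i : Fin (N + 1)} (hi : z i ≠ 0)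
    (hz : ∀ (n : ℕ) (G : Pol k N), G.IsHomogeneous n → aeval ξ G = 0 → eval z G = 0) :
    ∃ (x : Pt k ξ) (c : k), x.z = fun j => c * z j := by
  obtain ⟨a, ha, hmin⟩ := WellFounded.has_min (wellFounded_lt (α := Fin (N + 1)))
    {i | z i ≠ 0} ⟨i, hi⟩
  refine ⟨⟨fun j => (z a)⁻¹ * z j, ⟨a, inv_mul_cancel₀ ha, fun j hj => ?_⟩, fun n G hG h0 => ?_⟩,
    (z a)⁻¹, rfl⟩
  · have : z j = 0 := by_contra fun hn => hmin j hn hj
    rw [this, mul_zero]
  · have h := aeval_sc hG (z a)⁻¹ z
    simp only [aeval_eq_eval] at h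
    rw [h, hz n G hG h0, mul_zero]

/-- a quotient by a form without zeros is constant -/
theorem const [IsAlgClosed k] {W M : Pol k N} {w : ℕ} (hW : W.IsHomogeneous w)
    (hM : M.IsHomogeneous w) {a : Fin (N + 1)} (ha : ξ a ≠ 0)
    (h0 : ∀ x : Pt k ξ, eval x.z W ≠ 0) :
    ∃ c : k, algebraMap k K c = aeval ξ M / aeval ξ W := by
  by_contra hn
  have hf : aeval ξ M / aeval ξ W ∉ (integralClosure k K).toSubring := fun h => by
    have h1 : IsIntegral k (aeval ξ M / aeval ξ W) := h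
    exact hn (minpoly.degree_eq_one_iff.mp
      (IsAlgClosed.degree_eq_one_of_irreducible k (minpoly.irreducible h1)))
  obtain ⟨V, hV, hfV⟩ := Subring.exists_le_valuationSubring_of_isIntegrallyClosedIn hf
  have hk : ∀ c : k, algebraMap k K c ∈ V.toSubring := fun c => hV (isIntegral_algebraMap)
  obtain ⟨i, -, hi⟩ := Finset.exists_max_image Finset.univ (fun j => V.valuation (ξ j))
    ⟨a, Finset.mem_univ a⟩
  have hi0 : ξ i ≠ 0 := fun h => by
    have := hi a (Finset.mem_univ a)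
    rw [h, map_zero, le_zero_iff, map_eq_zero] at this
    exact ha this
  have hη : ∀ j, (ξ i)⁻¹ * ξ j ∈ V := fun j => by
    rw [← V.valuation_le_one_iff, map_mul, map_inv₀,
      inv_mul_le_one₀ (pos_iff_ne_zero.mpr ((map_ne_zero _).mpr hi0))]
    exact hi j (Finset.mem_univ j)
  let ι : k →+* V := (algebraMap k K).codRestrict V.toSubring hk
  let ψ : Pol k N →+* V := eval₂Hom ι fun j => ⟨(ξ i)⁻¹ * ξ j, hη j⟩
  have hψ : ∀ G, (ψ G : K) = aeval (fun j => (ξ i)⁻¹ * ξ j) G := fun G => by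
    have e : V.subtype.comp ψ = (aeval (fun j => (ξ i)⁻¹ * ξ j) : Pol k N →ₐ[k] K).toRingHom := by
      refine ringHom_ext (fun c => ?_) fun j => ?_
      · simp [ψ, ι]
      · simp [ψ]
    exact RingHom.congr_fun e G
  have hI : (maximalIdeal V).comap ψ ≠ ⊤ :=
    Ideal.comap_ne_top _ (maximalIdeal.isMaximal V).ne_top
  obtain ⟨m, hm, hIm⟩ := Ideal.exists_le_maximal _ hI
  obtain ⟨z, rfl⟩ := eq_vanishingIdeal_singleton_of_isMaximal k hm
  have hz : ∀ G : Pol k N, ψ G ∈ maximalIdeal V → eval z G = 0 := fun G hG => by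
    have := (mem_vanishingIdeal_singleton_iff z G).mp (hIm hG)
    rwa [aeval_eq_eval] at this
  have hz0 : ∀ G : Pol k N, (ψ G : K) = 0 → eval z G = 0 := fun G hG => hz G (by
    rw [show ψ G = 0 from Subtype.ext hG]; exact zero_mem _)
  have hzi : z i ≠ 0 := fun h => by
    have := hz0 (X i - 1) (by rw [hψ]; simp [inv_mul_cancel₀ hi0])
    simp [h] at this
  obtain ⟨x, c, hx⟩ := exists_pt (ξ := ξ) hzi fun n G hG h => hz0 G (by
    rw [hψ, aeval_sc hG, h, mul_zero])
  have hWm : ψ W ∈ maximalIdeal V := by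
    rw [mem_maximalIdeal, mem_nonunits_iff]
    intro hu
    obtain ⟨g, hg⟩ := hu.exists_right_inv
    have hg' : (ψ W : K) * g = 1 := congrArg Subtype.val hg
    have hc : (ξ i)⁻¹ ^ w ≠ 0 := pow_ne_zero _ (inv_ne_zero hi0)
    have e : aeval ξ M / aeval ξ W = (ψ M * g : V) := by
      rw [hψ, aeval_sc hW] at hg'
      have hW0 : aeval ξ W ≠ 0 := fun h => by simp [h] at hg'
      rw [div_eq_iff hW0]
      change _ = (ψ M : K) * g * _
      rw [hψ, aeval_sc hM]
      linear_combination (-aeval ξ M) * hg'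
    exact hfV (e ▸ (ψ M * g).2)
  apply h0 x
  have h := aeval_sc hW c z
  simp only [aeval_eq_eval] at h
  rw [hx, h, hz W hWm, mul_zero]

end CConN

open CConN

theorem rConN : RConN.{u} := by
  intro k K _ _ _ _ p _ _ N ξ 𝒢 hS _ hF ⟨x⟩ W hW hw hW0
  by_contra hn
  have h0 : ∀ y : Pt k ξ, eval y.z W ≠ 0 := fun y hy => by
    obtain ⟨C, -, hC⟩ := hF.thru y W hW hW0 hy
    exact hn ⟨C, hC⟩
  obtain ⟨v, hv⟩ : ∃ v, W.totalDegree = v + 1 := ⟨W.totalDegree - 1, by omega⟩
  have hW' : W.IsHomogeneous (v + 1) := hv ▸ hW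
  have ha := Ctr.xi_ne x.good
  set a := x.ctr.idx
  choose c hc using fun j : Fin (N + 1) => const (M := X a ^ v * X j) hW'
    ((isHomogeneous_X_pow a v).mul (isHomogeneous_X k j)) ha h0
  simp only [map_mul, map_pow, aeval_X] at hc
  have hca : algebraMap k K (c a) ≠ 0 := by
    rw [hc]; exact div_ne_zero (mul_ne_zero (pow_ne_zero _ ha) ha) hW0
  have hξ : ξ = fun j => ξ a * algebraMap k K (c j / c a) := funext fun j => by
    rw [map_div₀, hc j, hc a]
    field_simp
  have hev : ∀ (n : ℕ) (A : Pol k N), A.IsHomogeneous n →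
      aeval ξ A = ξ a ^ n * algebraMap k K (eval (fun j => c j / c a) A) := fun n A hA => by
    have h := aeval_sc hA (ξ a) fun j => algebraMap k K (c j / c a)
    rw [← hξ] at h
    rw [h, ← aeval_eq_eval, ← MvPolynomial.aeval_algebraMap_apply K]
    rfl
  have hf : IsField x.ctr.O := by
    refine ⟨exists_pair_ne _, mul_comm, fun {f} hf0 => ?_⟩
    obtain ⟨n, A, B, hA, hB, hP, h⟩ := f.2
    have hB0 := x.ctr.aeval_ne hB hP
    have hf1 : (f : K) ≠ 0 := fun h1 => hf0 (Subtype.ext h1)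
    have hA0 : aeval ξ A ≠ 0 := h ▸ mul_ne_zero hf1 hB0
    rw [hev n A hA] at hA0
    rw [hev n A hA, hev n B hB] at h
    refine ⟨algebraMap k _ (eval (fun j => c j / c a) B / eval (fun j => c j / c a) A),
      Subtype.ext ?_⟩
    have h1 := (mul_ne_zero_iff.mp hA0).1
    have h2 := (mul_ne_zero_iff.mp hA0).2
    change (f : K) * algebraMap k K _ = 1
    rw [map_div₀, ← mul_div_assoc, div_eq_one_iff_eq h2]
    exact mul_left_cancel₀ h1 (by linear_combination h)
  have := hS.dim x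
  rw [ringKrullDim_eq_zero_of_isField hf] at this
  exact absurd this (by decide)

end Pool.Agent.MP_f3836a_nt.PK
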