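import Pool.Agent.MP_f3836a_nt.PK.SpecC
import Pool.Agent.MP_f3836a_nt.PK.AllA

set_option autoImplicit false

/-! Upper bound for the Hilbert function from one component of a smooth form. -/

namespace Pool.Agent.MP_f3836a_nt.PK

open MvPolynomial

universe u

namespace CConU

variable {k K : Type u} [Field k] [Field K] [Algebra k K] {N : ℕ} {ξ : Fin (N + 1) → K}

/-- elements of `V` that become regular along `C` after multiplication by `s` -/
def FF (C : Cv k ξ) (V : Submodule k K) (s : K) : Submodule k K where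
  carrier := {g | g ∈ V ∧ g * s ∈ C.O}
  zero_mem' := ⟨V.zero_mem, by rw [zero_mul]; exact C.O.zero_mem⟩
  add_mem' := fun ha hb => ⟨V.add_mem ha.1 hb.1, by rw [add_mul]; exact C.O.add_mem ha.2 hb.2⟩
  smul_mem' := fun c a ha => ⟨V.smul_mem c ha.1, by
    rw [Algebra.smul_def, mul_assoc]; exact C.O.mul_mem (C.toCtr.const_mem c) ha.2⟩

theorem mem_FF {C : Cv k ξ} {V : Submodule k K} {s g : K} :
    g ∈ FF C V s ↔ g ∈ V ∧ g * s ∈ C.O := Iff.rfl

/-- restriction to the curve -/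
noncomputable def rr (C : Cv k ξ) (V : Submodule k K) (s : K) : FF C V s →ₗ[k] C.κ where
  toFun g := C.res (g * s)
  map_add' a b := by
    simp only [Submodule.coe_add, add_mul]
    exact C.res_add a.2.2 b.2.2
  map_smul' c a := by
    simp only [Submodule.coe_smul, RingHom.id_apply, Algebra.smul_def, mul_assoc]
    rw [C.res_mul (C.toCtr.const_mem c) a.2.2, C.res_const]

theorem rr_apply (C : Cv k ξ) (V : Submodule k K) (s : K) (g : FF C V s) :
    rr C V s g = C.res (g * s) := rfl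

theorem v_one (hva : VA k ξ) (C : Cv k ξ) : C.v 1 = 0 := by
  have h := hva.mul C 1 1 one_ne_zero one_ne_zero
  rw [mul_one] at h
  omega

theorem v_inv (hva : VA k ξ) (C : Cv k ξ) {f : K} (hf : f ≠ 0) : C.v f⁻¹ = -C.v f := by
  have h := hva.mul C f f⁻¹ hf (inv_ne_zero hf)
  rw [mul_inv_cancel₀ hf, v_one hva] at h
  omega

theorem v_pow (hva : VA k ξ) (C : Cv k ξ) {f : K} (hf : f ≠ 0) (n : ℕ) :
    C.v (f ^ n) = n * C.v f := by
  induction n with
  | zero => rw [pow_zero, v_one hva]; simp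
  | succ n ih => rw [pow_succ, hva.mul C _ _ (pow_ne_zero _ hf) hf, ih]; push_cast; ring

theorem res_one (C : Cv k ξ) : C.res (1 : K) = 1 := by
  have h := C.res_const 1
  rwa [map_one, map_one] at h

theorem res_pow (C : Cv k ξ) {f : K} (hf : f ∈ C.O) (n : ℕ) : C.res (f ^ n) = C.res f ^ n := by
  induction n with
  | zero => rw [pow_zero, pow_zero, res_one]
  | succ n ih => rw [pow_succ, pow_succ, C.res_mul (C.O.pow_mem hf n) hf, ih]

theorem ord_one {F : Type u} [Field F] [Algebra k F] (hA : PlA k F) (P : Place k F) :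
    P.ord 1 = 0 := by
  have h := hA.con P 1
  rwa [map_one] at h

theorem ord_pow {F : Type u} [Field F] [Algebra k F] (hA : PlA k F) (P : Place k F) {f : F}
    (hf : f ≠ 0) (n : ℕ) : P.ord (f ^ n) = n * P.ord f := by
  induction n with
  | zero => rw [pow_zero, ord_one hA]; simp
  | succ n ih => rw [pow_succ, hA.mul P _ _ (pow_ne_zero _ hf) hf, ih]; push_cast; ring

/-- one step of the filtration -/
theorem step (hva : VA k ξ) (C : Cv k ξ) (V : Submodule k K) [Module.Finite k V] {s ω : K}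
    (hs : s ≠ 0) (hω : ω ≠ 0) (h1 : C.v ω = 1) :
    Module.finrank k (FF C V s) ≤ Module.finrank k (LinearMap.range (rr C V s)) +
      Module.finrank k (FF C V (s * ω⁻¹)) := by
  have hf : ∀ t : K, Module.Finite k (FF C V t) := fun t =>
    Module.Finite.of_injective (Submodule.inclusion (p' := V) fun g hg => hg.1)
      (Submodule.inclusion_injective _)
  have := hf s
  have := hf (s * ω⁻¹)
  rw [← LinearMap.finrank_range_add_finrank_ker (rr C V s)]
  refine Nat.add_le_add_left ?_ _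
  rw [← Submodule.finrank_map_subtype_eq]
  refine Submodule.finrank_mono ?_
  rintro _ ⟨g, hg, rfl⟩
  by_cases h0 : (g : K) = 0
  · change (g : K) ∈ _
    rw [h0]; exact Submodule.zero_mem _
  have h2 : (g : K) * s ≠ 0 := mul_ne_zero h0 hs
  have h3 : 0 < C.v (g * s) := (hva.pos C _ h2 g.2.2).mpr hg
  refine ⟨g.2.1, ?_⟩
  change (g : K) * (s * ω⁻¹) ∈ C.O
  rw [← mul_assoc, hva.mem C _ (mul_ne_zero h2 (inv_ne_zero hω)),
    hva.mul C _ _ h2 (inv_ne_zero hω), v_inv hva C hω, h1]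
  omega

theorem res_h_ne (hva : VA k ξ) {C : Cv k ξ} {x : Pt k ξ} (hx : x.On C) :
    x.ctr.lo (X C.idx) ∈ C.O ∧ C.res (x.ctr.lo (X C.idx)) ≠ 0 := by
  have hF : Form (X C.idx : Pol k N) := Form.of (isHomogeneous_X k _)
  have h0 : aeval ξ (X C.idx : Pol k N) ≠ 0 := by
    rw [aeval_X]; exact Ctr.xi_ne C.good
  have hm : x.ctr.lo (X C.idx) ∈ C.O := hx.le (Ctr.lo_mem x.good hF)
  refine ⟨hm, fun h => ?_⟩
  have h1 := (hva.pos C _ (Ctr.lo_ne x.good h0) hm).mpr h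
  rw [hva.chg x C hx _ hF h0, (hva.form C _ hF h0).2] at h1
  exact (Ctr.idx_spec C.good).1 h1

/-- the order of the restriction at a place -/
theorem loc_bound (hva : VA k ξ) {W : Pol k N} {C : Cv k ξ} (hW : Sm ξ W) (s1 : Sm1 W C)
    (hA : PlA k C.κ) {x : Pt k ξ} {P : Place k C.κ} (hx : C.Pl x P) {n : ℕ} {G : Pol k N}
    (hG : G.IsHomogeneous n) (j : ℕ)
    (hm : aeval ξ G * ((ξ C.idx ^ n)⁻¹ * (C.lo W ^ j)⁻¹) ∈ C.O)
    (h0 : C.res (aeval ξ G * ((ξ C.idx ^ n)⁻¹ * (C.lo W ^ j)⁻¹)) ≠ 0) :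
    -(((n : ℤ) - W.totalDegree * j) * P.ord (C.res (x.ctr.lo (X C.idx)))) ≤
      P.ord (C.res (aeval ξ G * ((ξ C.idx ^ n)⁻¹ * (C.lo W ^ j)⁻¹))) := by
  have hρ : ξ C.idx ≠ 0 := Ctr.xi_ne C.good
  have hρx : ξ x.ctr.idx ≠ 0 := Ctr.xi_ne x.good
  have hW0 : aeval ξ W ≠ 0 := hW.2.2.1
  have hω : C.lo W ≠ 0 := Ctr.lo_ne C.good hW0
  have hG0 : aeval ξ G ≠ 0 := by
    intro h
    apply h0
    rw [h, zero_mul]
    have h1 := C.res_const 0
    rwa [map_zero, map_zero] at h1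
  have hφ0 : aeval ξ G * ((ξ C.idx ^ n)⁻¹ * (C.lo W ^ j)⁻¹) ≠ 0 :=
    mul_ne_zero hG0 (mul_ne_zero (inv_ne_zero (pow_ne_zero _ hρ)) (inv_ne_zero (pow_ne_zero _ hω)))
  have hlo : C.lo G ≠ 0 := Ctr.lo_ne C.good hG0
  have hj : (j : ℤ) ≤ C.v (C.lo G) := by
    have h1 := (hva.mem C _ hφ0).mp hm
    rw [← mul_assoc, ← div_eq_mul_inv (aeval ξ G), ← C.toCtr.lo_eq hG,
      hva.mul C _ _ hlo (inv_ne_zero (pow_ne_zero _ hω)), v_inv hva C (pow_ne_zero _ hω),
      v_pow hva C hω, s1.one] at h1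
    omega
  obtain ⟨hp, hd⟩ := s1.gen x hx.1
  have hGF : Form G := Form.of hG
  have hlx : x.ctr.lx G ≠ 0 := by
    intro h
    have h1 := Ctr.coe_lx x.good hGF
    rw [h] at h1
    exact Ctr.lo_ne x.good hG0 h1.symm
  obtain ⟨a, ha⟩ := ((hva.pow x C hx.1 _ hp hd).2 (x.ctr.lx G) j hlx).mpr (by
    rw [Ctr.coe_lx x.good hGF, hva.chg x C hx.1 G hGF hG0]; exact hj)
  have ha' : aeval ξ G / ξ x.ctr.idx ^ n = (aeval ξ W / ξ x.ctr.idx ^ W.totalDegree) ^ j * a := by
    have h1 := congrArg Subtype.val ha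
    rw [Subring.coe_mul, SubmonoidClass.coe_pow, Ctr.coe_lx x.good hGF, Ctr.coe_lx x.good hW.1,
      x.ctr.lo_eq hG] at h1
    exact h1
  obtain ⟨ht, hh⟩ := res_h_ne hva hx.1
  have haO : (a : K) ∈ C.O := hx.1.le a.2
  have key : aeval ξ G * ((ξ C.idx ^ n)⁻¹ * (C.lo W ^ j)⁻¹) * x.ctr.lo (X C.idx) ^ n =
      a * x.ctr.lo (X C.idx) ^ (W.totalDegree * j) := by
    rw [div_eq_iff (pow_ne_zero _ hρx)] at ha'
    rw [Ctr.lo_X, ha']
    unfold Ctr.lo
    rw [pow_mul]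
    simp only [div_pow]
    field_simp
  have key2 := congrArg C.res key
  rw [C.res_mul hm (C.O.pow_mem ht _), C.res_mul haO (C.O.pow_mem ht _), res_pow C ht,
    res_pow C ht] at key2
  have ha0 : C.res a ≠ 0 := by
    intro h
    rw [h, zero_mul] at key2
    exact mul_ne_zero h0 (pow_ne_zero _ hh) key2
  have key3 := congrArg P.ord key2
  rw [hA.mul P _ _ h0 (pow_ne_zero _ hh), hA.mul P _ _ ha0 (pow_ne_zero _ hh), ord_pow hA P hh,
    ord_pow hA P hh] at key3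
  have h5 : 0 ≤ P.ord (C.res a) := by
    rw [← hA.mem P _ ha0]
    have h6 : C.res a ∈ C.loc x := ((hva.loc x C hx.1).1 _).mpr ⟨a, rfl⟩
    rw [← hx.2] at h6
    exact h6
  push_cast at key3
  linarith

/-- the hyperplane divisor on the curve -/
theorem exists_e {C : Cv k ξ} (s2 : Sm2 C) (hB : PlB k C.κ) : ∃ e : Place k C.κ →₀ ℤ,
    (∀ P, ∃ x, C.Pl x P ∧ e P = P.ord (C.res (x.ctr.lo (X C.idx)))) ∧
    (∑ᶠ P, e P).toNat = C.deg := by
  choose xp hxp using s2.pt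
  have hfin : (Function.support fun P : Place k C.κ =>
      P.ord (C.res ((xp P).ctr.lo (X C.idx)))).Finite := by
    refine (Set.finite_iUnion fun i : Fin (N + 1) =>
      hB.fin (C.res (ξ C.idx / ξ i))).subset fun P hP => ?_
    refine Set.mem_iUnion.mpr ⟨(xp P).ctr.idx, ?_⟩
    rw [Function.mem_support, Ctr.lo_X] at hP
    exact hP
  refine ⟨Finsupp.ofSupportFinite _ hfin, fun P => ⟨xp P, hxp P, rfl⟩, ?_⟩
  unfold Cv.deg
  congr 1
  rw [← finsum_mem_univ]
  refine finsum_mem_eq_of_bijOn (t := {x : Pt k ξ | x.On C}) xp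
    ⟨fun P _ => (hxp P).1, fun P _ Q _ h => ?_, fun x hx => ?_⟩ fun P _ => ?_
  · refine Place.ext (ValuationSubring.toSubring_injective ?_)
    rw [(hxp P).2, (hxp Q).2, h]
  · obtain ⟨P, hP⟩ := s2.pl x hx
    exact ⟨P, Set.mem_univ _, s2.inj _ _ P (hxp P) hP⟩
  · change P.ord _ = C.ordAt (xp P) _
    unfold Place.ord Cv.ordAt
    rw [(hxp P).2]

end CConU

open CConU in
theorem rConU : RConU.{u} := by
  intro k K _ _ _ _ p _ _ N ξ 𝒢 _ _ _ hva _ hsm W C hW hWC m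
  obtain ⟨s1, ff, s2, s3⟩ := hsm W C hW hWC
  have hA := pPlA k C.κ ff
  have hB := pPlB k C.κ p ff
  obtain ⟨e, he, hdeg⟩ := exists_e s2 hB
  have hpos := s3.pos
  have hD : ∑ᶠ P, e P = (C.deg : ℤ) := by omega
  have hw : 1 ≤ W.totalDegree := hW.2.1
  have hρ : ξ C.idx ≠ 0 := Ctr.xi_ne C.good
  have hω : C.lo W ≠ 0 := Ctr.lo_ne C.good hW.2.2.1
  set n := m * W.totalDegree with hn
  have : Module.Finite k (VV k ξ n) :=
    Module.Finite.iff_fg.mpr ((homogeneousSubmodule_fg (Fin (N + 1)) k n).map _)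
  let s : ℕ → K := fun j => (ξ C.idx ^ n)⁻¹ * (C.lo W ^ j)⁻¹
  have hs : ∀ j, s j ≠ 0 := fun j =>
    mul_ne_zero (inv_ne_zero (pow_ne_zero _ hρ)) (inv_ne_zero (pow_ne_zero _ hω))
  have hs' : ∀ j, s j * (C.lo W)⁻¹ = s (j + 1) := fun j => by
    simp only [s, pow_succ, mul_inv, mul_assoc]
  have hL : ∀ j : ℕ, (((n : ℤ) - W.totalDegree * j) * C.deg < 0 →
      LinearMap.range (rr C (VV k ξ n) (s j)) = ⊥) ∧
      Module.finrank k (LinearMap.range (rr C (VV k ξ n) (s j))) ≤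
        (((n : ℤ) - W.totalDegree * j) * C.deg).toNat + 1 := by
    intro j
    have h1 := rLE k C.κ ff hA hB (((n : ℤ) - W.totalDegree * j) • e)
      (LinearMap.range (rr C (VV k ξ n) (s j))) (by
        rintro _ ⟨⟨g, ⟨G, hG, rfl⟩, hg⟩, rfl⟩ h0 P
        obtain ⟨x, hx, hP⟩ := he P
        rw [Finsupp.smul_apply, smul_eq_mul, hP]
        exact loc_bound hva hW s1 hA hx hG j hg h0)
    have h2 : ∑ᶠ P, (((n : ℤ) - W.totalDegree * j) • e) P =
        ((n : ℤ) - W.totalDegree * j) * C.deg := by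
      rw [← hD, mul_finsum]
      rfl
    rw [h2] at h1
    exact ⟨h1.1, h1.2.2⟩
  have hbot : FF C (VV k ξ n) (s (m + 1)) = ⊥ := by
    rw [eq_bot_iff]
    intro g hg
    by_contra h0
    rw [Submodule.mem_bot] at h0
    have hv : ∀ j : ℕ, C.v (g * s j) = C.v (g * (ξ C.idx ^ n)⁻¹) - j := fun j => by
      simp only [s]
      rw [← mul_assoc, hva.mul C _ _ (mul_ne_zero h0 (inv_ne_zero (pow_ne_zero _ hρ)))
        (inv_ne_zero (pow_ne_zero _ hω)), v_inv hva C (pow_ne_zero _ hω), v_pow hva C hω, s1.one]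
      ring
    have h1 := (hva.mem C _ (mul_ne_zero h0 (hs _))).mp hg.2
    rw [hv] at h1
    obtain ⟨j, hj⟩ : ∃ j : ℕ, (j : ℤ) = C.v (g * (ξ C.idx ^ n)⁻¹) :=
      ⟨(C.v (g * (ξ C.idx ^ n)⁻¹)).toNat, by omega⟩
    have h2 : C.v (g * s j) = 0 := by rw [hv, hj, sub_self]
    have h3 : g * s j ∈ C.O := (hva.mem C _ (mul_ne_zero h0 (hs _))).mpr h2.ge
    have h4 : ((n : ℤ) - W.totalDegree * j) * C.deg < 0 := by
      refine mul_neg_of_neg_of_pos ?_ (by exact_mod_cast hpos)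
      have h5 : (m : ℤ) + 1 ≤ j := by push_cast at h1; omega
      have h6 : (1 : ℤ) ≤ W.totalDegree := by exact_mod_cast hw
      rw [hn]; push_cast
      nlinarith
    have h7 : rr C (VV k ξ n) (s j) ⟨g, hg.1, h3⟩ ∈ LinearMap.range (rr C (VV k ξ n) (s j)) :=
      ⟨_, rfl⟩
    rw [(hL j).1 h4, Submodule.mem_bot, rr_apply] at h7
    have h8 := (hva.pos C _ (mul_ne_zero h0 (hs _)) h3).mpr h7
    omega
  have hind : ∀ i j : ℕ, j + i = m + 1 → Module.finrank k (FF C (VV k ξ n) (s j)) ≤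
      ∑ l ∈ Finset.range i, (l * W.totalDegree * C.deg + 1) := by
    intro i
    induction i with
    | zero =>
      intro j hj
      rw [show j = m + 1 by omega, hbot, finrank_bot]
      exact Nat.zero_le _
    | succ i ih =>
      intro j hj
      have h1 := step hva C (VV k ξ n) (hs j) hω s1.one
      rw [hs'] at h1
      have h2 := ih (j + 1) (by omega)
      have h3 := (hL j).2
      have h4 : ((n : ℤ) - W.totalDegree * j) * C.deg = ((i * W.totalDegree * C.deg : ℕ) : ℤ) := by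
        rw [hn, show m = j + i by omega]; push_cast; ring
      rw [h4, Int.toNat_natCast] at h3
      rw [Finset.sum_range_succ]
      omega
  have h0 : FF C (VV k ξ n) (s 0) = VV k ξ n := by
    refine le_antisymm (fun g hg => hg.1) ?_
    rintro _ ⟨G, hG, rfl⟩
    refine ⟨⟨G, hG, rfl⟩, ?_⟩
    have h1 := Ctr.lo_mem C.good (Form.of (n := n) hG)
    rw [C.toCtr.lo_eq (n := n) hG, div_eq_mul_inv] at h1
    simpa [s] using h1
  have h1 := hind (m + 1) 0 (by omega)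
  rwa [h0] at h1

end Pool.Agent.MP_f3836a_nt.PK
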