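import Pool.Agent.MP_f3836a_nt.PK.SpecC

set_option autoImplicit false

/-! Step 4b: a smooth multiplier. -/

namespace Pool.Agent.MP_f3836a_nt.PK

open MvPolynomial IsLocalRing

universe u

namespace CEx4b

variable {k K : Type u} [Field k] [Field K] [Algebra k K] {N : ℕ} {ξ : Fin (N + 1) → K}

variable (ξ) in
/-- the linear system of multipliers -/
def sys (A B h : Pol k N) (m e e' : ℕ) : Submodule k (Pol k N) where
  carrier := {U | U.IsHomogeneous m ∧ ∃ D B' : Pol k N, D.IsHomogeneous e ∧ B'.IsHomogeneous e' ∧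
    aeval ξ (U * B - h * B' - D * A) = 0}
  zero_mem' := ⟨isHomogeneous_zero _ _ _, 0, 0, isHomogeneous_zero _ _ _, isHomogeneous_zero _ _ _,
    by simp⟩
  add_mem' := by
    rintro U U' ⟨a, D, E, b, c, d⟩ ⟨a', D', E', b', c', d'⟩
    refine ⟨a.add a', D + D', E + E', b.add b', c.add c', ?_⟩
    simp only [map_sub, map_mul, map_add] at d d' ⊢
    linear_combination d + d'
  smul_mem' := by
    rintro t U ⟨a, D, E, b, c, d⟩
    refine ⟨smul_eq_C_mul U t ▸ a.C_mul t, C t * D, C t * E, b.C_mul t, c.C_mul t, ?_⟩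
    simp only [smul_eq_C_mul, map_sub, map_mul] at d ⊢
    linear_combination aeval ξ (C t : Pol k N) * d

theorem loc {A B h : Pol k N} {a b d : ℕ} {c : Ctr k ξ} (g : c.Good) (hA : A.IsHomogeneous a)
    (hB : B.IsHomogeneous b) (hh : h.IsHomogeneous d)
    (H : c.lx B ∈ Ideal.span {c.lx A, c.lx h}) :
    ∃ n, ∃ U ∈ sys ξ A B h (n + a + d + 1) (n + b + d + 1) (n + a + b + 1), U ∉ c.P := by
  obtain ⟨α, β, e⟩ := Ideal.mem_span_pair.1 H
  obtain ⟨n, A₁, U₁, a1, u1, p1, e1⟩ := α.2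
  obtain ⟨n', A₂, U₂, a2, u2, p2, e2⟩ := β.2
  have e3 := congrArg Subtype.val e
  simp only [Subring.coe_add, Subring.coe_mul, Ctr.coe_lx g (Form.of hA), Ctr.coe_lx g (Form.of hB),
    Ctr.coe_lx g (Form.of hh), c.lo_eq hA, c.lo_eq hB, c.lo_eq hh] at e3
  have r := Ctr.xi_ne g
  field_simp at e3
  refine ⟨n + n', U₁ * U₂ * X c.idx ^ (a + d + 1), ⟨?_, A₁ * U₂ * X c.idx ^ (b + d + 1),
    A₂ * U₁ * X c.idx ^ (a + b + 1), ?_, ?_, ?_⟩, fun q => ?_⟩
  · simpa only [add_assoc] using (u1.mul u2).mul (isHomogeneous_X_pow c.idx (a + d + 1))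
  · simpa only [add_assoc] using (a1.mul u2).mul (isHomogeneous_X_pow c.idx (b + d + 1))
  · simpa only [add_assoc, add_left_comm n'] using
      (a2.mul u1).mul (isHomogeneous_X_pow c.idx (a + b + 1))
  · simp only [map_sub, map_mul, map_pow, aeval_X, ← e1, ← e2]
    linear_combination (-(aeval ξ U₁ * aeval ξ U₂ * ξ c.idx)) * e3
  · exact (c.prime.mem_or_mem q).elim (fun q => (c.prime.mem_or_mem q).elim p1 p2)
      (Ctr.pow_notMem g _)

theorem gen [Infinite k] (G : GenA k) {r : ℕ} {B : Fin r → Pol k N} {I : Ideal (Pol k N)}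
    {U : Pol k N} (h : U ∈ Submodule.span k (Set.range B)) (h' : U ∉ I) :
    Gen k (Fin r) fun c => ∑ j, C (c j) * B j ∉ I := by
  simp only [← smul_eq_C_mul]
  refine G.sub _ _ B (I.restrictScalars k) (by_contra fun q => h' ?_)
  push Not at q
  exact (Submodule.span_le (p := I.restrictScalars k)).2 (Set.range_subset_iff.2 q) h

end CEx4b

open CEx4b in
theorem rEx4b : RGenA.{u} → REx4b.{u} := by
  intro hG k K _ _ _ _ p _ _ N ξ 𝒢 _ _ hF hB A B h x cB sh ch _ hy H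
  have G := hG k
  obtain ⟨n, U₀, u0, u1⟩ := loc x.good cB.1 cB.2.1 sh.1 H
  set S := sys ξ A B h (n + A.totalDegree + h.totalDegree + 1)
    (n + B.totalDegree + h.totalDegree + 1) (n + A.totalDegree + B.totalDegree + 1)
  obtain ⟨r, F, hS⟩ := Submodule.fg_iff_exists_fin_generating_family.1
    ((homogeneousSubmodule_fg (Fin (N + 1)) k _).of_le (S := S) fun U hU => hU.1)
  have m1 : ∀ M : Pol k N, M.IsHomogeneous (n + A.totalDegree + 1) → h * M ∈ S := fun M hM =>
    ⟨by simpa only [add_comm, add_left_comm, add_assoc] using IsHomogeneous.mul sh.1 hM, 0, M * B,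
      isHomogeneous_zero _ _ _, by
        simpa only [add_comm, add_left_comm, add_assoc] using hM.mul cB.2.1, by simp [mul_assoc]⟩
  have m2 : ∀ M : Pol k N, M.IsHomogeneous (n + h.totalDegree + 1) → A * M ∈ S := fun M hM =>
    ⟨by simpa only [add_comm, add_left_comm, add_assoc] using IsHomogeneous.mul cB.1 hM, M * B, 0, by
      simpa only [add_comm, add_left_comm, add_assoc] using hM.mul cB.2.1, isHomogeneous_zero _ _ _, by
        rw [show A * M * B - h * 0 - M * B * A = 0 by ring, map_zero]⟩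
  have m3 : ∀ c : Ctr k ξ, c.Good → h ∉ c.P → Gen k (Fin r) fun a => ∑ j, C (a j) * F j ∉ c.P :=
    fun c g q => gen G (hS ▸ m1 _ (isHomogeneous_X_pow c.idx _)) fun q' =>
      (c.prime.mem_or_mem q').elim q (Ctr.pow_notMem g _)
  have g1 := hB.gen (Fin r) (n + A.totalDegree + h.totalDegree + 1) 2 F ![h, A]
    ![h.totalDegree, A.totalDegree] ⟨x⟩ (by omega)
    (fun j => (show F j ∈ S from hS ▸ Submodule.subset_span ⟨j, rfl⟩).1)
    (Fin.forall_fin_two.2 ⟨⟨sh.1, by simp only [Matrix.cons_val_zero]; omega⟩,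
      ⟨cB.1, by simp only [Matrix.cons_val_one, Matrix.cons_val_zero]; omega⟩⟩)
    (Fin.forall_fin_two.2 ⟨fun M hM => hS ▸ m1 M (by
        rwa [Matrix.cons_val_zero, add_right_comm, Nat.add_sub_cancel] at hM),
      fun M hM => hS ▸ m2 M (by
        rwa [Matrix.cons_val_one, Matrix.cons_val_zero, add_right_comm n, add_right_comm,
          Nat.add_sub_cancel] at hM)⟩)
    ((hF.zs A h ch).subset fun y q => ⟨q 1, q 0⟩) fun y _ => ⟨0, sh.2.2.2 y⟩
  have g2 := G.all (Fin r) _ _ (fun (y : Pt k ξ) a => ∑ j, C (a j) * F j ∉ y.ctr.P)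
    (hF.zs A B cB) fun y q => by
      by_cases e : y = x
      · exact gen G (hS ▸ u0) (e ▸ u1)
      · exact m3 _ y.good (hy y q e)
  have g3 := G.all (Fin r) _ _ (fun (c : Cv k ξ) a => ∑ j, C (a j) * F j ∉ c.P)
    (hF.cv A cB.1 cB.2.2.1) fun c q => m3 _ c.good (ch.2.2.2.2 c q)
  obtain ⟨c, ⟨s1, s2⟩, s3⟩ := G.ex _ _ (G.and _ _ _ (G.and _ _ _ g1 g2) g3)
  obtain ⟨q1, D, B', q2, q3, q4⟩ : ∑ j, C (c j) * F j ∈ S := S.sum_mem fun j _ =>
    smul_eq_C_mul (F j) (c j) ▸ S.smul_mem _ (hS ▸ Submodule.subset_span ⟨j, rfl⟩)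
  refine ⟨n + A.totalDegree + h.totalDegree + 1 + B.totalDegree, _, D, B', Form.of q2, Form.of q3,
    q1.mul cB.2.1, ?_, ?_, q4, s1, ⟨cB.1, s1.1, cB.2.2.1, s1.2.2.1, s3⟩, s2⟩
  · simpa only [add_comm, add_left_comm, add_assoc] using q2.mul cB.1
  · simpa only [add_comm, add_left_comm, add_assoc] using IsHomogeneous.mul sh.1 q3

end Pool.Agent.MP_f3836a_nt.PK
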