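import Pool.Agent.MP_f3836a_nt.PK.SpecC
import Pool.Agent.MP_f3836a_nt.PK.Ord

set_option autoImplicit false

/-! Local structure of a component of a smooth form. -/

namespace Pool.Agent.MP_f3836a_nt.PK

open MvPolynomial IntermediateField IsLocalRing

universe u

namespace CSm1

variable {k K : Type u} [Field k] [Field K] [Algebra k K] {N : ℕ} {ξ : Fin (N + 1) → K}

theorem pow_notMem {x : Pt k ξ} {C : Cv k ξ} (hx : x.On C) (n : ℕ) :
    (X x.ctr.idx ^ n : Pol k N) ∉ C.P := fun h => by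
  have := hx n _ (isHomogeneous_X_pow _ _) h
  simp [x.z_idx.1] at this

theorem res_lx {x : Pt k ξ} {C : Cv k ξ} (hx : x.On C) {A : Pol k N} (hA : Form A) :
    C.res (x.ctr.lx A : K) = 0 ↔ A ∈ C.P := by
  have hm : (x.ctr.lx A : K) ∈ C.O := hx.le (x.ctr.lx A).2
  rw [C.res_of_mem ⟨_, hm⟩, residue_eq_zero_iff]
  refine C.toCtr.mem_max_iff _ hA (isHomogeneous_X_pow _ _) (pow_notMem hx _) ?_
  change (x.ctr.lx A : K) * _ = _
  rw [Ctr.coe_lx x.good hA]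
  exact Ctr.lo_spec x.good hA

/-- restriction from the local ring of the surface to that of the curve -/
noncomputable def rho {x : Pt k ξ} {C : Cv k ξ} (hx : x.On C) : x.ctr.O →+* C.loc x :=
  ((residue C.O).comp (Subring.inclusion hx.le)).codRestrict (C.loc x)
    fun a => ⟨Subring.inclusion hx.le a, a.2, rfl⟩

theorem coe_rho {x : Pt k ξ} {C : Cv k ξ} (hx : x.On C) (a : x.ctr.O) :
    (rho hx a : C.κ) = C.res (a : K) :=
  (C.res_of_mem ⟨a, hx.le a.2⟩).symm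

theorem rho_surj {x : Pt k ξ} {C : Cv k ξ} (hx : x.On C) : Function.Surjective (rho hx) := by
  rintro ⟨_, a, ha, rfl⟩
  exact ⟨⟨a, ha⟩, rfl⟩

theorem rho_eq_zero {x : Pt k ξ} {C : Cv k ξ} (hx : x.On C) (a : x.ctr.O) :
    rho hx a = 0 ↔ C.res (a : K) = 0 := by
  rw [← coe_rho hx, ZeroMemClass.coe_eq_zero]

theorem prime (hR : RReg.{u}) (hs : IsSurf k ξ) {W : Pol k N} (hW : Sm ξ W) {C : Cv k ξ}
    (hC : W ∈ C.P) {x : Pt k ξ} (hx : x.On C) : Prime (x.ctr.lx W) ∧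
    ∃ _ : IsDomain (x.ctr.O ⧸ Ideal.span {x.ctr.lx W}),
      IsDiscreteValuationRing (x.ctr.O ⧸ Ideal.span {x.ctr.lx W}) := by
  have := hs.reg x
  exact (hR x.ctr.O (hs.dim x)).2.1 _ ((x.lx_mem_max hW.1).mpr (hx _ W hW.1 hC)) (hW.2.2.2 x)

theorem gen (hR : RReg.{u}) (hs : IsSurf k ξ) (hc : CvA k ξ) {W : Pol k N} (hW : Sm ξ W)
    {C : Cv k ξ} (hC : W ∈ C.P) {x : Pt k ξ} (hx : x.On C) (a : x.ctr.O) :
    x.ctr.lx W ∣ a ↔ C.res (a : K) = 0 := by
  obtain ⟨π, hπ, h1, -⟩ := hc.on x C hx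
  have h2 : π ∣ x.ctr.lx W := (h1 _).mpr ((res_lx hx hW.1).mpr hC)
  have h3 := hπ.associated_of_dvd (prime hR hs hW hC hx).1 h2
  rw [← h1, h3.dvd_iff_dvd_left]

theorem ker_rho (hR : RReg.{u}) (hs : IsSurf k ξ) (hc : CvA k ξ) {W : Pol k N} (hW : Sm ξ W)
    {C : Cv k ξ} (hC : W ∈ C.P) {x : Pt k ξ} (hx : x.On C) :
    RingHom.ker (rho hx) = Ideal.span {x.ctr.lx W} := by
  ext a
  rw [RingHom.mem_ker, rho_eq_zero, Ideal.mem_span_singleton, gen hR hs hc hW hC hx]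

theorem dvr (hR : RReg.{u}) (hs : IsSurf k ξ) (hc : CvA k ξ) {W : Pol k N} (hW : Sm ξ W)
    {C : Cv k ξ} (hC : W ∈ C.P) {x : Pt k ξ} (hx : x.On C) :
    IsDiscreteValuationRing (C.loc x) := by
  obtain ⟨-, _, h⟩ := prime hR hs hW hC hx
  exact IsDiscreteValuationRing.RingEquivClass.isDiscreteValuationRing
    ((Ideal.quotEquivOfEq (ker_rho hR hs hc hW hC hx).symm).trans
      (RingHom.quotientKerEquivOfSurjective (rho_surj hx)))

theorem ordJ (hR : RReg.{u}) (hs : IsSurf k ξ) (hc : CvA k ξ) (hv : VA k ξ) {W : Pol k N}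
    (hW : Sm ξ W) {C : Cv k ξ} (hC : W ∈ C.P) {x : Pt k ξ} (hx : x.On C) {B : Pol k N}
    (hB : Form B) (hP : B ∉ C.P) : C.ordAt x (C.res (x.ctr.lx B : K)) = J x W B :=
  (hv.olen x C hx _ (gen hR hs hc hW hC hx) (x.ctr.lx B) fun h =>
    hP ((res_lx hx hB).mp ((gen hR hs hc hW hC hx _).mp h))).2

end CSm1

open CSm1 in
theorem rSm1 : RReg.{u} → RSm1.{u} := by
  intro hR k K _ _ _ _ p _ _ N ξ 𝒢 hs _ hc hv W C hW hC
  refine ⟨?_, fun x hx => ⟨(prime hR hs hW hC hx).1, gen hR hs hc hW hC hx⟩,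
    fun x C' hx hx' hC' => ?_, fun x hx => dvr hR hs hc hW hC hx, fun x hx B hB hP => ?_,
    fun x hx n A B hA hB hAP hBP => ?_, fun x hx g j hg hj => ?_,
    fun x hx A B hA hB hAP hBP hJ => ?_⟩
  · obtain ⟨x, hx⟩ := hc.pt C
    have h1 := (hv.pow x C hx _ (prime hR hs hW hC hx).1 (gen hR hs hc hW hC hx)).1
    rwa [Ctr.coe_lx x.good hW.1, hv.chg x C hx W hW.1 hW.2.2.1] at h1
  · exact hc.uniq x C' C hx' hx fun a =>
      (gen hR hs hc hW hC' hx' a).symm.trans (gen hR hs hc hW hC hx a)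
  · rw [← Ctr.coe_lx x.good hB]
    exact ordJ hR hs hc hv hW hC hx hB hP
  · have hA' := Form.of hA
    have hB' := Form.of hB
    have h1 : aeval ξ A / aeval ξ B * (x.ctr.lx B : K) = (x.ctr.lx A : K) := by
      rw [Ctr.coe_lx x.good hA', Ctr.coe_lx x.good hB', x.ctr.lo_eq hA, x.ctr.lo_eq hB,
        ← mul_div_assoc, div_mul_cancel₀ _ (C.toCtr.aeval_ne hB hBP)]
    have h2 : C.res (aeval ξ A / aeval ξ B) * C.res (x.ctr.lx B : K) = C.res (x.ctr.lx A : K) := by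
      rw [← C.res_mul (C.toCtr.div_mem hA hB hBP) (hx.le (x.ctr.lx B).2), h1]
    have hA0 : C.res (x.ctr.lx A : K) ≠ 0 := fun h => hAP ((res_lx hx hA').mp h)
    have hB0 : C.res (x.ctr.lx B : K) ≠ 0 := fun h => hBP ((res_lx hx hB').mp h)
    have h3 := hv.omul x C hx _ _ (left_ne_zero_of_mul (h2 ▸ hA0)) hB0
    rw [h2, ordJ hR hs hc hv hW hC hx hA' hAP, ordJ hR hs hc hv hW hC hx hB' hBP] at h3
    omega
  · by_cases hP : g ∈ C.P
    · exact Ideal.mem_sup_left (Ideal.mem_span_singleton.mpr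
        ((gen hR hs hc hW hC hx _).mpr ((res_lx hx hg).mpr hP)))
    have hj' := hj.resolve_left hP
    have := dvr hR hs hc hW hC hx
    have hD := rOrdD C.κ (C.loc x) (hv.loc x C hx).2.2.2
    have h0 : rho hx (x.ctr.lx g) ≠ 0 := fun h => hP ((res_lx hx hg).mp ((rho_eq_zero hx _).mp h))
    have h1 : rho hx (x.ctr.lx g) ∈ maximalIdeal (C.loc x) ^ j := by
      refine (hD.2.2.2.2.2 _ j h0).mpr ?_
      have h2 := ordJ hR hs hc hv hW hC hx hg hP
      rw [← coe_rho hx] at h2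
      change ordR _ _ = _ at h2
      rw [h2]
      exact_mod_cast hj'
    rw [← IsLocalRing.map_maximalIdeal_of_surjective (rho hx) (rho_surj hx), ← Ideal.map_pow,
      ← Ideal.mem_comap, Ideal.comap_map_of_surjective _ (rho_surj hx), ← RingHom.ker_eq_comap_bot,
      ker_rho hR hs hc hW hC hx, sup_comm] at h1
    exact h1
  · have := dvr hR hs hc hW hC hx
    have hD := rOrdD C.κ (C.loc x) (hv.loc x C hx).2.2.2
    have hA0 : C.res (x.ctr.lx A : K) ≠ 0 := fun h => hAP ((res_lx hx hA).mp h)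
    have hB0 : C.res (x.ctr.lx B : K) ≠ 0 := fun h => hBP ((res_lx hx hB).mp h)
    have h1 := hv.omul x C hx _ _ (div_ne_zero hB0 hA0) hA0
    rw [div_mul_cancel₀ _ hA0, ordJ hR hs hc hv hW hC hx hA hAP,
      ordJ hR hs hc hv hW hC hx hB hBP] at h1
    have h2 : C.res (x.ctr.lx B : K) / C.res (x.ctr.lx A : K) ∈ C.loc x := by
      refine (hD.2.1 _ (div_ne_zero hB0 hA0)).mpr ?_
      change 0 ≤ C.ordAt x _
      omega
    obtain ⟨c, hc'⟩ := rho_surj hx ⟨_, h2⟩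
    have h3 : x.ctr.lx B - c * x.ctr.lx A ∈ RingHom.ker (rho hx) := by
      rw [RingHom.mem_ker, map_sub, map_mul, hc', sub_eq_zero]
      refine Subtype.ext ?_
      rw [Subring.coe_mul, coe_rho, coe_rho, div_mul_cancel₀ _ hA0]
    rw [ker_rho hR hs hc hW hC hx, Ideal.mem_span_singleton'] at h3
    obtain ⟨d, hd⟩ := h3
    exact Ideal.mem_span_pair.mpr ⟨c, d, by rw [hd]; ring⟩

end Pool.Agent.MP_f3836a_nt.PK
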