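import Pool.Agent.MP_f3836a_nt.PK.SpecC
import Pool.Agent.MP_f3836a_nt.PK.AllA

set_option autoImplicit false

/-! Degrees on a component of a smooth form. -/

namespace Pool.Agent.MP_f3836a_nt.PK

open MvPolynomial IntermediateField IsLocalRing

universe u

namespace CSm3

variable {k K : Type u} [Field k] [Field K] [Algebra k K] {N : ℕ} {ξ : Fin (N + 1) → K}

theorem aeval_div {n : ℕ} {A : Pol k N} (hA : A.IsHomogeneous n) (c : K) :
    aeval (fun j => ξ j / c) A = aeval ξ A / c ^ n := by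
  rw [aeval_def, aeval_def, eval₂_eq, eval₂_eq, Finset.sum_div]
  refine Finset.sum_congr rfl fun d hd => ?_
  rw [hA.degree_eq_sum_deg_support hd, mul_div_assoc, ← Finset.prod_pow_eq_pow_sum,
    ← Finset.prod_div_distrib]
  simp only [div_pow]

theorem sum0 {C : Cv k ξ} (h2 : Sm2 C) (hB : PlB k C.κ) (f : C.κ) :
    ∑ᶠ (x : Pt k ξ) (_ : x.On C), C.ordAt x f = 0 := by
  choose e he using fun x : {x : Pt k ξ // x.On C} => h2.pl x.1 x.2
  rw [← finsum_subtype_eq_finsum_cond (f := fun x => C.ordAt x f), ← hB.sum f]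
  refine finsum_eq_of_bijective e ⟨fun x y hxy => ?_, fun P => ?_⟩ fun x => ?_
  · exact Subtype.ext (h2.inj x.1 y.1 _ (he x) (hxy ▸ he y))
  · obtain ⟨x, hx⟩ := h2.pt P
    refine ⟨⟨x, hx.1⟩, Place.ext (ValuationSubring.toSubring_injective ?_)⟩
    exact (he ⟨x, hx.1⟩).2.trans hx.2.symm
  · rw [Place.ord, (he x).2]
    rfl

theorem J_zero (x : Pt k ξ) (W : Pol k N) {B : Pol k N} (hB : Form B) (h : eval x.z B ≠ 0) :
    J x W B = 0 := by
  have hu : IsUnit (x.ctr.lx B) := by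
    by_contra hn
    exact h ((x.lx_mem_max hB).mp hn)
  have ht : Ideal.span {x.ctr.lx W, x.ctr.lx B} = ⊤ :=
    Ideal.eq_top_of_isUnit_mem _ (Ideal.subset_span (by simp)) hu
  have : Subsingleton (x.ctr.O ⧸ Ideal.span {x.ctr.lx W, x.ctr.lx B}) :=
    Ideal.Quotient.subsingleton_iff.mpr ht
  rw [J, Module.length_eq_zero]
  rfl

theorem idx_notMem {x : Pt k ξ} {C : Cv k ξ} (h : x.On C) (n : ℕ) :
    (X x.ctr.idx ^ n : Pol k N) ∉ C.P := fun hh => by
  have := h n _ (isHomogeneous_X_pow _ _) hh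
  simp [x.z_idx.1] at this

theorem res_lo_ne {x : Pt k ξ} {C : Cv k ξ} (h : x.On C) {B : Pol k N} (hB : Form B)
    (nB : B ∉ C.P) : C.res (x.ctr.lo B) ≠ 0 := by
  rw [C.res_of_mem ⟨_, h.le (Ctr.lo_mem x.good hB)⟩, Ne, residue_eq_zero_iff,
    C.toCtr.mem_max_iff _ hB (isHomogeneous_X_pow _ _) (idx_notMem h _) (Ctr.lo_spec x.good hB)]
  exact nB

theorem J_mul {W : Pol k N} {C : Cv k ξ} (hv : VA k ξ) (h1 : Sm1 W C) {x : Pt k ξ} (h : x.On C)
    {A B : Pol k N} (hA : Form A) (hB : Form B) (nA : A ∉ C.P) (nB : B ∉ C.P) :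
    J x W (A * B) = J x W A + J x W B := by
  have nAB : A * B ∉ C.P := fun hh => (C.prime.mem_or_mem hh).elim nA nB
  have e := h1.ordJ x h _ (hA.mul hB) nAB
  rw [x.ctr.lo_mul hA hB, C.res_mul (h.le (Ctr.lo_mem x.good hA)) (h.le (Ctr.lo_mem x.good hB)),
    hv.omul x C h _ _ (res_lo_ne h hA nA) (res_lo_ne h hB nB), h1.ordJ x h _ hA nA,
    h1.ordJ x h _ hB nB] at e
  exact_mod_cast e.symm

theorem J_pow {W : Pol k N} {C : Cv k ξ} (hv : VA k ξ) (h1 : Sm1 W C) {x : Pt k ξ} (h : x.On C)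
    (n : ℕ) : J x W (X C.idx ^ n) = n * J x W (X C.idx) := by
  induction n with
  | zero =>
    rw [pow_zero, zero_mul]
    exact J_zero x W (Form.of (isHomogeneous_one _ _)) (by simp)
  | succ n ih =>
    rw [pow_succ, J_mul hv h1 h (Form.of (isHomogeneous_X_pow _ _)) (Form.of (isHomogeneous_X k _))
      (Ctr.pow_notMem C.good n) (Ctr.idx_spec C.good).1, ih]
    ring

theorem deg {W : Pol k N} {C : Cv k ξ} (hv : VA k ξ) (hf : FinA k ξ) (h1 : Sm1 W C) (h2 : Sm2 C)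
    (hP : PlB k C.κ) (n : ℕ) (B : Pol k N) (hB : B.IsHomogeneous n) (nB : B ∉ C.P) :
    ∑ᶠ (x : Pt k ξ) (_ : x.On C), J x W B = n * C.deg := by
  classical
  have fX : Form (X C.idx : Pol k N) := Form.of (isHomogeneous_X k _)
  have nX := (Ctr.idx_spec C.good).1
  obtain ⟨S, hS⟩ := ((hf.pt C B (Form.of hB) nB).union (hf.pt C _ fX nX)).exists_finset_coe
  have mS : ∀ x : Pt k ξ, x ∈ S ↔ (x.On C ∧ eval x.z B = 0) ∨ (x.On C ∧ eval x.z (X C.idx) = 0) :=
    fun x => by rw [← Finset.mem_coe, hS]; rfl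
  have onS : ∀ x ∈ S, x.On C := fun x hx => ((mS x).mp hx).elim And.left And.left
  have off : ∀ x : Pt k ξ, x.On C → x ∉ S → J x W B = 0 ∧ J x W (X C.idx) = 0 := fun x hx hn =>
    ⟨J_zero x W (Form.of hB) fun h0 => hn ((mS x).mpr (Or.inl ⟨hx, h0⟩)),
      J_zero x W fX fun h0 => hn ((mS x).mpr (Or.inr ⟨hx, h0⟩))⟩
  have e1 : ∑ᶠ (x : Pt k ξ) (_ : x.On C), J x W B = ∑ x ∈ S, J x W B :=
    finsum_cond_eq_sum_of_cond_iff _ fun {x} hx =>
      ⟨fun h => by_contra fun hn => hx (off x h hn).1, onS x⟩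
  have e2 : C.deg = ∑ x ∈ S, J x W (X C.idx) := by
    have e3 : ∑ᶠ (x : Pt k ξ) (_ : x.On C), C.ordAt x (C.res (x.ctr.lo (X C.idx))) =
        ∑ x ∈ S, C.ordAt x (C.res (x.ctr.lo (X C.idx))) :=
      finsum_cond_eq_sum_of_cond_iff _ fun {x} hx =>
        ⟨fun h => by_contra fun hn => hx (by rw [h1.ordJ x h _ fX nX, (off x h hn).2]; rfl), onS x⟩
    rw [Cv.deg, e3, Finset.sum_congr rfl fun x hx => h1.ordJ x (onS x hx) _ fX nX,
      ← Nat.cast_sum, Int.toNat_natCast]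
  have q : ∀ x : Pt k ξ, x.On C → C.ordAt x (C.res (aeval ξ B / aeval ξ (X C.idx ^ n : Pol k N))) =
      (J x W B : ℤ) - n * J x W (X C.idx) := fun x hx => by
    rw [h1.quo x hx n B _ hB (isHomogeneous_X_pow _ _) nB (Ctr.pow_notMem C.good n), J_pow hv h1 hx]
    push_cast
    rfl
  have e4 := sum0 h2 hP (C.res (aeval ξ B / aeval ξ (X C.idx ^ n : Pol k N)))
  rw [finsum_cond_eq_sum_of_cond_iff (t := S) _ fun {x} hx =>
    ⟨fun h => by_contra fun hn => hx (by rw [q x h, (off x h hn).1, (off x h hn).2]; simp), onS x⟩,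
    Finset.sum_congr rfl fun x hx => q x (onS x hx), Finset.sum_sub_distrib, ← Finset.mul_sum,
    sub_eq_zero] at e4
  rw [e1, e2]
  exact_mod_cast e4

theorem pos {W : Pol k N} {C : Cv k ξ} (hc : CvA k ξ) (hv : VA k ξ) (hf : FinA k ξ) (h1 : Sm1 W C)
    (h2 : Sm2 C) (hP : PlB k C.κ) : 1 ≤ C.deg := by
  classical
  obtain ⟨x, hx⟩ := hc.pt C
  obtain ⟨l, hl, h0, nl⟩ := hf.lin x C
  have f1 : Form (1 : Pol k N) := Form.of (isHomogeneous_one _ _)
  have hJ : J x W l ≠ 0 := fun hz => by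
    have e := h1.le x hx l 1 (Form.of hl) f1 nl C.toCtr.one_notMem (by omega)
    have hle : Ideal.span {x.ctr.lx l, x.ctr.lx W} ≤ maximalIdeal x.ctr.O := by
      rw [Ideal.span_le]
      rintro a (rfl | rfl)
      · exact (x.lx_mem_max (Form.of hl)).mpr h0
      · exact (h1.gen x hx).1.not_isUnit
    have := (x.lx_mem_max f1).mp (hle e)
    simp at this
  obtain ⟨S, hS⟩ := (hf.pt C l (Form.of hl) nl).exists_finset_coe
  have mS : ∀ y : Pt k ξ, y ∈ S ↔ y.On C ∧ eval y.z l = 0 :=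
    fun y => by rw [← Finset.mem_coe, hS]; rfl
  have e := deg hv hf h1 h2 hP 1 l hl nl
  rw [finsum_cond_eq_sum_of_cond_iff (t := S) _ fun {y} hy =>
    ⟨fun h => (mS y).mpr ⟨h, by_contra fun hn => hy (J_zero y W (Form.of hl) hn)⟩,
      fun h => ((mS y).mp h).1⟩, one_mul] at e
  have := Finset.single_le_sum (f := fun y => J y W l) (fun _ _ => Nat.zero_le _)
    ((mS x).mpr ⟨hx, h0⟩)
  omega

theorem res_lo (C : Cv k ξ) {A : Pol k N} (hA : Form A) :
    C.res (C.lo A) = aeval (fun j => C.res (C.lo (X j))) A := by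
  let Ph : Pol k N →ₐ[k] C.O := aeval fun j => C.lx (X j)
  have h : (IsScalarTower.toAlgHom k C.O K).comp Ph = aeval fun j => ξ j / ξ C.idx := by
    refine MvPolynomial.algHom_ext fun j => ?_
    rw [AlgHom.comp_apply, aeval_X, aeval_X, ← C.toCtr.lo_X,
      ← Ctr.coe_lx C.good (Form.of (isHomogeneous_X k j))]
    rfl
  have h3 : (Ph A : K) = C.lo A := by
    rw [C.toCtr.lo_eq hA, ← aeval_div hA]
    exact DFunLike.congr_fun h A
  let r : C.O →ₐ[k] C.κ := { residue C.O with commutes' := fun _ => rfl }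
  have h4 : r.comp Ph = aeval fun j => C.res (C.lo (X j)) := by
    refine MvPolynomial.algHom_ext fun j => ?_
    rw [AlgHom.comp_apply, aeval_X, aeval_X, ← Ctr.coe_lx C.good (Form.of (isHomogeneous_X k j)),
      C.res_of_mem]
    rfl
  rw [← h3, C.res_of_mem]
  exact DFunLike.congr_fun h4 A

theorem gen (hv : VA k ξ) (C : Cv k ξ) :
    adjoin k (Set.range fun j => C.res (C.lo (X j))) = ⊤ := by
  rw [eq_top_iff]
  intro f _
  obtain ⟨n, A, B, hA, hB, nB, rfl⟩ := hv.frac C f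
  have hm : ∀ G : Pol k N, Form G →
      C.res (C.lo G) ∈ adjoin k (Set.range fun j => C.res (C.lo (X j))) := fun G hG => by
    rw [res_lo C hG]
    refine IntermediateField.algebra_adjoin_le_adjoin k _ ?_
    rw [Algebra.adjoin_range_eq_range_aeval]
    exact ⟨G, rfl⟩
  have hne : C.res (C.lo B) ≠ 0 := fun h => nB ((C.res_lo_eq_zero (Form.of hB)).mp h)
  have e : C.res (aeval ξ A / aeval ξ B) * C.res (C.lo B) = C.res (C.lo A) := by
    rw [← C.res_mul (C.toCtr.div_mem hA hB nB) (Ctr.lo_mem C.good (Form.of hB)), C.toCtr.lo_eq hA,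
      C.toCtr.lo_eq hB, div_mul_div_cancel₀ (C.toCtr.aeval_ne hB nB)]
  rw [eq_div_of_mul_eq hne e]
  exact div_mem (hm A (Form.of hA)) (hm B (Form.of hB))

theorem two (hv : VA k ξ) (C : Cv k ξ) (hff : IsFF k C.κ) : ∃ i j : Fin (N + 1), ∀ a b : k,
    (a ≠ 0 ∨ b ≠ 0) → (MvPolynomial.C a * X i + MvPolynomial.C b * X j : Pol k N) ∉ C.P := by
  have hj : ∃ j, C.res (C.lo (X j)) ∉ (⊥ : IntermediateField k C.κ) := by
    by_contra hn
    push Not at hn
    obtain ⟨t, ht, -⟩ := hff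
    have hle : adjoin k (Set.range fun j => C.res (C.lo (X j))) ≤ ⊥ := by
      rw [adjoin_le_iff]
      rintro _ ⟨j, rfl⟩
      exact hn j
    rw [gen hv C] at hle
    obtain ⟨a, rfl⟩ := IntermediateField.mem_bot.mp (hle (mem_top (x := t)))
    exact ht (isAlgebraic_algebraMap a)
  obtain ⟨j, hj⟩ := hj
  refine ⟨C.idx, j, fun a b hab hm => ?_⟩
  have hh : (MvPolynomial.C a * X C.idx + MvPolynomial.C b * X j : Pol k N).IsHomogeneous 1 :=
    ((isHomogeneous_X k _).C_mul a).add ((isHomogeneous_X k _).C_mul b)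
  have e := (C.res_lo_eq_zero (Form.of hh)).mpr hm
  have e1 : C.res (C.lo (X C.idx : Pol k N)) = 1 := by
    rw [C.toCtr.lo_X, div_self (Ctr.xi_ne C.good), ← map_one (algebraMap k K), C.res_const, map_one]
  rw [res_lo C (Form.of hh)] at e
  simp only [map_add, map_mul, aeval_C, aeval_X, e1, mul_one] at e
  by_cases hb : b = 0
  · rw [hb, map_zero, zero_mul, add_zero, map_eq_zero] at e
    exact hab.elim (fun h => h e) fun h => h hb
  · refine hj (IntermediateField.mem_bot.mpr ⟨-a / b, ?_⟩)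
    have hb' : algebraMap k C.κ b ≠ 0 := (map_ne_zero _).mpr hb
    rw [map_div₀, map_neg, div_eq_iff hb']
    linear_combination -e

end CSm3

theorem rSm3 : RSm3.{u} := by
  intro k K _ _ _ _ p _ _ N ξ 𝒢 _ _ hc hv hf W C h1 hff h2
  have hP : PlB k C.κ := pPlB k C.κ p hff
  exact ⟨CSm3.pos hc hv hf h1 h2 hP, CSm3.deg hv hf h1 h2 hP, CSm3.gen hv C, CSm3.two hv C hff⟩

end Pool.Agent.MP_f3836a_nt.PK
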