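import Pool.Agent.MP_f3836a_nt.PK.SpecC
import Pool.Agent.MP_f3836a_nt.PK.Ord
import Pool.Agent.MP_f3836a_nt.PK.PlA

set_option autoImplicit false

/-! Components of smooth forms: the function field and its places. -/

namespace Pool.Agent.MP_f3836a_nt.PK

open MvPolynomial IntermediateField IsLocalRing

universe u

namespace CSmF

variable {k K : Type u} [Field k] [Field K] [Algebra k K] {N : ℕ} {ξ : Fin (N + 1) → K}

theorem aeval_div {F : Type u} [Field F] [Algebra k F] (η : Fin (N + 1) → F) (c : F) {n : ℕ}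
    {A : Pol k N} (hA : A.IsHomogeneous n) :
    aeval (fun j => η j / c) A = aeval η A / c ^ n := by
  rw [aeval_def, aeval_def, eval₂_eq', eval₂_eq', Finset.sum_div]
  refine Finset.sum_congr rfl fun d hd => ?_
  have h1 : ∑ i, d i = n := by
    have h2 := hA (mem_support_iff.mp hd)
    rw [← Finsupp.degree_eq_sum, Finsupp.degree_eq_weight_one]
    exact h2
  simp only [div_pow, Finset.prod_div_distrib, Finset.prod_pow_eq_pow_sum, h1, mul_div_assoc]

/-- the generic point of the curve -/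
noncomputable def eta (C : Cv k ξ) (j : Fin (N + 1)) : C.κ := C.res (C.lo (X j))

theorem aeval_eta (C : Cv k ξ) {n : ℕ} {A : Pol k N} (hA : A.IsHomogeneous n) :
    aeval (eta C) A = C.res (C.lo A) := by
  let r : C.O →ₐ[k] C.κ := { residue C.O with commutes' := fun _ => rfl }
  let ζ : Fin (N + 1) → C.O := fun j => C.lx (X j)
  have hζ : ∀ j, (ζ j : K) = ξ j / ξ C.idx := fun j => by
    rw [← C.lo_X]
    exact Ctr.coe_lx C.good (Form.of (isHomogeneous_X k j))
  have h1 : ((aeval ζ A : C.O) : K) = C.lo A := by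
    rw [C.lo_eq hA, ← aeval_div ξ _ hA]
    have := comp_aeval_apply (IsScalarTower.toAlgHom k C.O K) (f := ζ) A
    refine Eq.trans this ?_
    congr 2
    funext j
    exact hζ j
  rw [← h1, C.res_of_mem]
  have h2 := comp_aeval_apply r (f := ζ) A
  refine Eq.trans ?_ h2.symm
  congr 2
  funext j
  change C.res (C.lo (X j)) = residue C.O (ζ j)
  rw [← C.res_of_mem, hζ, C.lo_X]

theorem eta_zero (C : Cv k ξ) {n : ℕ} {A : Pol k N} (hA : A.IsHomogeneous n) :
    aeval (eta C) A = 0 ↔ A ∈ C.P := by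
  rw [aeval_eta C hA, C.res_lo_eq_zero (Form.of hA)]

theorem res_div (C : Cv k ξ) {n : ℕ} {A B : Pol k N} (hA : A.IsHomogeneous n)
    (hB : B.IsHomogeneous n) (h : B ∉ C.P) :
    C.res (aeval ξ A / aeval ξ B) = aeval (eta C) A / aeval (eta C) B := by
  have h0 : aeval (eta C) B ≠ 0 := fun h0 => h ((eta_zero C hB).1 h0)
  rw [eq_div_iff h0, aeval_eta C hA, aeval_eta C hB,
    ← C.res_mul (C.div_mem hA hB h) (Ctr.lo_mem C.good (Form.of hB)), C.lo_eq hA, C.lo_eq hB]
  congr 1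
  have := C.aeval_ne hB h
  field_simp

theorem eta_nrm (C : Cv k ξ) : Nrm (eta C) C.idx := by
  obtain ⟨h1, h2⟩ := Ctr.idx_spec C.good
  refine ⟨?_, fun j hj => (C.res_lo_eq_zero (Form.of (isHomogeneous_X k j))).2 (h2 j hj)⟩
  rw [eta, C.lo_X, div_self (Ctr.xi_ne C.good)]
  simpa using C.res_const 1

theorem const_loc {x : Pt k ξ} {C : Cv k ξ} (hv : VA k ξ) (hx : x.On C) (a : k) :
    algebraMap k C.κ a ∈ C.loc x :=
  ((hv.loc x C hx).1 _).2 ⟨algebraMap k x.ctr.O a, C.res_const a⟩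

theorem loc_ne {x : Pt k ξ} {C : Cv k ξ} (h : IsDiscreteValuationRing (C.loc x)) :
    ¬ ∀ f, f ∈ C.loc x := by
  intro hall
  refine IsDiscreteValuationRing.not_isField (C.loc x) ⟨exists_pair_ne _, mul_comm, ?_⟩
  intro a ha
  exact ⟨⟨(a : C.κ)⁻¹, hall _⟩, Subtype.ext (mul_inv_cancel₀ fun h0 => ha (Subtype.ext h0))⟩

theorem aeval_mem {F : Type u} [Field F] [Algebra k F] (η : Fin (N + 1) → F) (S : Subfield F)
    (h1 : ∀ a, algebraMap k F a ∈ S) (h2 : ∀ j, η j ∈ S) (A : Pol k N) : aeval η A ∈ S := by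
  induction A using MvPolynomial.induction_on with
  | C a => simpa using h1 a
  | add p q hp hq => rw [map_add]; exact S.add_mem hp hq
  | mul_X p j hp => rw [map_mul, aeval_X]; exact S.mul_mem hp (h2 j)

theorem gen (hv : VA k ξ) (C : Cv k ξ) (S : Subfield C.κ) (h1 : ∀ a, algebraMap k C.κ a ∈ S)
    (h2 : ∀ j, eta C j ∈ S) (f : C.κ) : f ∈ S := by
  obtain ⟨n, A, B, hA, hB, hP, rfl⟩ := hv.frac C f
  rw [res_div C hA hB hP]
  exact S.div_mem (aeval_mem _ S h1 h2 A) (aeval_mem _ S h1 h2 B)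

theorem pl (hv : VA k ξ) {x : Pt k ξ} {C : Cv k ξ} (hx : x.On C)
    (hd : IsDiscreteValuationRing (C.loc x)) : ∃ P, C.Pl x P := by
  let V : ValuationSubring C.κ :=
    { C.loc x with
      mem_or_inv_mem' := fun f => by
        obtain ⟨a, b, hb, hf⟩ := (hv.loc x C hx).2.2.2 f
        obtain ⟨c, hc | hc⟩ := ValuationRing.cond a b
        · right
          have h1 : (a : C.κ) * c = b := congrArg Subtype.val hc
          have h2 : f * c = 1 := by
            apply mul_right_cancel₀ hb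
            rw [one_mul, mul_right_comm, hf, h1]
          have h3 : f⁻¹ = c := (eq_inv_of_mul_eq_one_right h2).symm
          change f⁻¹ ∈ C.loc x
          rw [h3]
          exact c.2
        · left
          have h1 : (b : C.κ) * c = a := congrArg Subtype.val hc
          have h2 : f = c := by
            apply mul_right_cancel₀ hb
            rw [hf, ← h1, mul_comm]
          change f ∈ C.loc x
          rw [h2]
          exact c.2 }
  refine ⟨⟨V, fun h => loc_ne hd fun f => ?_, fun a => const_loc hv hx a⟩, hx, rfl⟩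
  have : f ∈ V := h ▸ ValuationSubring.mem_top f
  exact this

theorem val (hv : VA k ξ) {C : Cv k ξ} (hp : PlA k C.κ) (x : Pt k ξ) (P : Place k C.κ)
    (h : C.Pl x P) (n : ℕ) (A B : Pol k N) (hA : A.IsHomogeneous n) (hB : B.IsHomogeneous n)
    (h0 : eval x.z B ≠ 0) : C.res (aeval ξ A / aeval ξ B) ∈ P.V ∧
      P.val (C.res (aeval ξ A / aeval ξ B)) = eval x.z A / eval x.z B := by
  have hm : ∀ f, f ∈ P.V ↔ ∃ a : x.ctr.O, C.res a = f := fun f => by
    rw [← (hv.loc x C h.1).1, ← h.2]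
    rfl
  have hf : aeval ξ A / aeval ξ B ∈ x.ctr.O := x.ctr.div_mem hA hB h0
  have h1 : C.res (aeval ξ A / aeval ξ B) ∈ P.V := (hm _).2 ⟨⟨_, hf⟩, rfl⟩
  refine ⟨h1, (hp.val P _ h1 _).1 ((hp.zero P _).2 ?_)⟩
  let g : x.ctr.O := ⟨_, hf⟩ + algebraMap k x.ctr.O (-(eval x.z A / eval x.z B))
  have hB0 := x.ctr.aeval_ne hB h0
  have hg : g ∈ maximalIdeal x.ctr.O := by
    rw [x.ctr.mem_max_iff g (hA.sub (hB.C_mul (eval x.z A / eval x.z B))) hB h0]
    · rw [Pt.mem_P]
      simp [div_mul_cancel₀ _ h0]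
    · change (aeval ξ A / aeval ξ B + algebraMap k K _) * _ = _
      simp only [map_sub, map_mul, aeval_C, map_neg]
      rw [add_mul, div_mul_cancel₀ _ hB0]
      ring
  have h2 : C.res g = C.res (aeval ξ A / aeval ξ B) -
      algebraMap k C.κ (eval x.z A / eval x.z B) := by
    change C.res (_ + algebraMap k K _) = _
    rw [C.res_add (h.1.le hf) (C.const_mem _), C.res_const, map_neg, sub_eq_add_neg]
  rw [← h2, ValuationSubring.mem_nonunits_iff_or]
  by_cases h3 : C.res g = 0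
  · exact Or.inl h3
  refine Or.inr fun h4 => ?_
  obtain ⟨a, ha⟩ := (hm _).1 h4
  have h5 : IsUnit (1 - g * a) :=
    isUnit_one_sub_self_of_mem_nonunits _ ((mem_maximalIdeal _).1 (Ideal.mul_mem_right a _ hg))
  let ρ : x.ctr.O →+* C.κ := (residue C.O).comp (Subring.inclusion h.1.le)
  have hρ : ∀ b : x.ctr.O, ρ b = C.res b := fun b => (C.res_of_mem ⟨b, h.1.le b.2⟩).symm
  have h6 := (h5.map ρ).ne_zero
  rw [map_sub, map_one, map_mul, hρ, hρ, ha, mul_inv_cancel₀ h3, sub_self] at h6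
  exact h6 rfl

theorem inj (hv : VA k ξ) {C : Cv k ξ} (hp : PlA k C.κ) (x y : Pt k ξ) (P : Place k C.κ)
    (hx : C.Pl x P) (hy : C.Pl y P) : x = y := by
  obtain ⟨χ, hχ, -⟩ := hp.hom P
  have hX := fun j => isHomogeneous_X k (σ := Fin (N + 1)) j
  have key : ∀ x y : Pt k ξ, C.Pl x P → C.Pl y P → y.z x.ctr.idx ≠ 0 := by
    intro x y hx hy h0
    have e1 : eval x.z (X x.ctr.idx : Pol k N) ≠ 0 := by simp [x.z_idx.1]
    have e2 : eval y.z (X y.ctr.idx : Pol k N) ≠ 0 := by simp [y.z_idx.1]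
    obtain ⟨m1, -⟩ := val hv hp x P hx 1 _ _ (hX y.ctr.idx) (hX x.ctr.idx) e1
    obtain ⟨m2, v2⟩ := val hv hp y P hy 1 _ _ (hX x.ctr.idx) (hX y.ctr.idx) e2
    have n1 : (X x.ctr.idx : Pol k N) ∉ C.P := fun h => e1 (hx.1 1 _ (hX _) h)
    have n2 : (X y.ctr.idx : Pol k N) ∉ C.P := fun h => e2 (hy.1 1 _ (hX _) h)
    have h1 : (⟨_, m1⟩ * ⟨_, m2⟩ : P.V) = 1 := by
      refine Subtype.ext ?_
      change C.res _ * C.res _ = 1
      rw [res_div C (hX _) (hX _) n1, res_div C (hX _) (hX _) n2]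
      have z1 : aeval (eta C) (X x.ctr.idx : Pol k N) ≠ 0 := fun h => n1 ((eta_zero C (hX _)).1 h)
      have z2 : aeval (eta C) (X y.ctr.idx : Pol k N) ≠ 0 := fun h => n2 ((eta_zero C (hX _)).1 h)
      field_simp
    have h2 := congrArg χ h1
    rw [map_mul, map_one, hχ ⟨_, m2⟩, v2, eval_X, h0, zero_div, mul_zero] at h2
    exact zero_ne_one h2
  have hi : x.ctr.idx = y.ctr.idx := by
    rcases lt_trichotomy x.ctr.idx y.ctr.idx with h | h | h
    · exact absurd (y.z_idx.2 _ h) (key x y hx hy)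
    · exact h
    · exact absurd (x.z_idx.2 _ h) (key y x hy hx)
  refine Pt.ext (funext fun j => ?_)
  have e1 : eval x.z (X x.ctr.idx : Pol k N) ≠ 0 := by simp [x.z_idx.1]
  have e2 : eval y.z (X x.ctr.idx : Pol k N) ≠ 0 := by simp [hi, y.z_idx.1]
  have v1 := (val hv hp x P hx 1 _ _ (hX j) (hX x.ctr.idx) e1).2
  have v2 := (val hv hp y P hy 1 _ _ (hX j) (hX x.ctr.idx) e2).2
  rw [v1, eval_X, eval_X, eval_X, eval_X, x.z_idx.1, hi, y.z_idx.1, div_one, div_one] at v2
  exact v2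

theorem pt (hv : VA k ξ) {C : Cv k ξ} (hp : PlA k C.κ)
    (hd : ∀ x : Pt k ξ, x.On C → IsDiscreteValuationRing (C.loc x)) (P : Place k C.κ) :
    ∃ x, C.Pl x P := by
  classical
  obtain ⟨χ, hχ, hχc⟩ := hp.hom P
  have hz : ∀ g : P.V, χ g = 0 ↔ (g : C.κ) ∈ P.V.nonunits := fun g => by
    rw [hχ, ← hp.val P g g.2, map_zero, sub_zero, hp.zero]
  obtain ⟨j0, -, hj0⟩ := Finset.exists_max_image Finset.univ
    (fun j => P.V.valuation (eta C j)) Finset.univ_nonempty
  obtain ⟨i, hi, hmin⟩ := WellFounded.has_min (wellFounded_lt (α := Fin (N + 1)))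
    {i | ∀ j, P.V.valuation (eta C j) ≤ P.V.valuation (eta C i)}
    ⟨j0, fun j => hj0 j (Finset.mem_univ j)⟩
  have hv0 : 0 < P.V.valuation (eta C i) := by
    refine lt_of_lt_of_le ?_ (hi C.idx)
    rw [(eta_nrm C).1, map_one]
    exact zero_lt_one
  have hi0 : eta C i ≠ 0 := fun h => by
    rw [h, map_zero] at hv0
    exact lt_irrefl _ hv0
  have hmem : ∀ j, eta C j / eta C i ∈ P.V := fun j => by
    rw [← ValuationSubring.valuation_le_one_iff, map_div₀]
    exact (div_le_one₀ hv0).2 (hi j)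
  let ζ : Fin (N + 1) → P.V := fun j => ⟨_, hmem j⟩
  let z : Fin (N + 1) → k := fun j => χ (ζ j)
  let c : k →+* P.V := (algebraMap k C.κ).codRestrict P.V P.const
  have hc : χ.comp c = RingHom.id k := RingHom.ext fun a => (hχ (c a)).trans (hχc a)
  have key : ∀ (n : ℕ) (G : Pol k N), G.IsHomogeneous n →
      ∃ g : P.V, (g : C.κ) = aeval (eta C) G / eta C i ^ n ∧ χ g = eval z G := by
    intro n G hG
    refine ⟨eval₂ c ζ G, ?_, ?_⟩
    · rw [← aeval_div _ _ hG, aeval_def]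
      exact eval₂_comp_left P.V.subtype c ζ G
    · rw [eval₂_comp_left, hc]
      rfl
  have hon : ∀ (n : ℕ) (G : Pol k N), G.IsHomogeneous n → G ∈ C.P → eval z G = 0 := by
    intro n G hG hP
    obtain ⟨g, h1, h2⟩ := key n G hG
    rw [(eta_zero C hG).2 hP, zero_div] at h1
    rw [← h2, show g = 0 from Subtype.ext h1, map_zero]
  have hn : z i = 1 ∧ ∀ j < i, z j = 0 := by
    refine ⟨?_, fun j hj => (hz _).2 ?_⟩
    · have : ζ i = 1 := Subtype.ext (div_self hi0)
      change χ (ζ i) = 1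
      rw [this, map_one]
    · change eta C j / eta C i ∈ P.V.nonunits
      rw [ValuationSubring.mem_nonunits_iff, map_div₀, div_lt_one₀ hv0]
      by_contra hlt
      exact hmin j (fun l => (hi l).trans (not_lt.1 hlt)) hj
  let x : Pt k ξ := ⟨z, ⟨i, hn⟩, fun n G hG h0 => hon n G hG (C.van n G hG h0)⟩
  have hx : x.On C := hon
  obtain ⟨P', hP'⟩ := pl hv hx (hd x hx)
  have hle : P'.V ≤ P.V := by
    intro f hf
    have hf' : f ∈ C.loc x := hP'.2 ▸ hf
    obtain ⟨a, rfl⟩ := ((hv.loc x C hx).1 f).1 hf'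
    obtain ⟨n, A, B, hA, hB, hP, h⟩ := a.2
    have hBP : B ∉ C.P := fun hh => hP (hon n B hB hh)
    rw [eq_div_of_mul_eq (C.aeval_ne hB hBP) h, res_div C hA hB hBP]
    obtain ⟨gA, a1, -⟩ := key n A hA
    obtain ⟨gB, b1, b2⟩ := key n B hB
    have hB1 : ¬ (gB : C.κ) ∈ P.V.nonunits := fun hh => hP (b2.symm.trans ((hz gB).2 hh))
    rw [ValuationSubring.mem_nonunits_iff_or, not_or, not_not] at hB1
    have : aeval (eta C) A / aeval (eta C) B = gA * (gB : C.κ)⁻¹ := by
      rw [a1, b1]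
      have := pow_ne_zero n hi0
      have h0 : aeval (eta C) B ≠ 0 := fun h0 => hBP ((eta_zero C hB).1 h0)
      field_simp
    rw [this]
    exact P.V.mul_mem _ _ gA.2 hB1.2
  haveI := hp.dvr P'
  have he : P'.V = P.V := ValuationSubring.eq_of_le_of_ne_top _ hle P.ne
  exact ⟨x, hx, he ▸ hP'.2⟩

end CSmF

open CSmF in
open scoped IntermediateField.algebraAdjoinAdjoin in
theorem rSmF : RExN.{u} → RJetF.{u} → RSmF.{u} := by
  intro hE hJ k K _ _ _ _ p _ _ N ξ 𝒢 _ hG hc hv ht W C hW hWC h1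
  classical
  have hl : Line ((insert W 𝒢 : Finset (Pol k N)) : Set (Pol k N)) := by
    rw [Finset.coe_insert]
    exact ht.line W hW
  have hon : OnV (ext C.κ (insert W 𝒢)) (eta C) := by
    rintro _ ⟨G, hG', rfl⟩
    rw [eval_map, ← aeval_def]
    rcases Finset.mem_insert.1 hG' with rfl | hG'
    · exact (eta_zero C hW.1).2 hWC
    · exact (eta_zero C (hG.form G hG').1).2 (C.van _ G (hG.form G hG').1 (hG.form G hG').2)
  obtain ⟨l, hl⟩ := (hJ k N _ C.κ ((hE k N _ C.κ).1 hl)).1 _ _ (eta_nrm C) hon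
  refine ⟨eta C l, fun ha => ?_, ?_⟩
  · obtain ⟨x, hx⟩ := hc.pt C
    refine loc_ne (h1.dvr x hx) fun f => ?_
    haveI : Algebra.IsIntegral k (Algebra.adjoin k {eta C l}) :=
      Algebra.IsIntegral.adjoin fun y hy => (Set.mem_singleton_iff.1 hy) ▸ ha.isIntegral
    have h2 : ∀ j, eta C j ∈ (algebraMap k C.κ).fieldRange := fun j => by
      have h3 : IsAlgebraic k (eta C j) := (hl j).restrictScalars_of_isIntegral k
      exact minpoly.mem_range_of_degree_eq_one k _
        (IsAlgClosed.degree_eq_one_of_irreducible k (minpoly.irreducible h3.isIntegral))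
    obtain ⟨a, rfl⟩ := gen hv C (algebraMap k C.κ).fieldRange (fun a => ⟨a, rfl⟩) h2 f
    exact const_loc hv hx a
  · have h2 : ∀ y ∈ Set.range (eta C), IsIntegral (adjoin k {eta C l}) y := by
      rintro _ ⟨j, rfl⟩
      exact ((hl j).extendScalars (IsFractionRing.injective _ (adjoin k {eta C l}))).isIntegral
    haveI := finiteDimensional_adjoin h2
    have h3 : adjoin (adjoin k {eta C l}) (Set.range (eta C)) = ⊤ := by
      rw [eq_top_iff]
      intro f _
      refine gen hv C (adjoin (adjoin k {eta C l}) (Set.range (eta C))).toSubfield (fun a => ?_)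
        (fun j => subset_adjoin _ _ ⟨j, rfl⟩) f
      exact IntermediateField.algebraMap_mem _ (algebraMap k (adjoin k {eta C l}) a)
    rw [h3] at this
    exact IntermediateField.topEquiv.toLinearEquiv.finiteDimensional

theorem rSm2 : RSm2.{u} := by
  intro k K _ _ _ _ p _ _ N ξ 𝒢 _ _ _ hv W C h1 hf
  have hp : PlA k C.κ := rPlA rOrdD k C.κ hf
  exact ⟨fun x hx => CSmF.pl hv hx (h1.dvr x hx), CSmF.pt hv hp h1.dvr, CSmF.inj hv hp,
    CSmF.val hv hp⟩

end Pool.Agent.MP_f3836a_nt.PK
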