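import Pool.Agent.MP_f3836a_nt.PK.SpecD

set_option autoImplicit false

/-! Counting split forms by averaging over pencils. -/

namespace Pool.Agent.MP_f3836a_nt.PK

open MvPolynomial Finset

universe u

namespace DCnt

open Classical in
theorem sum_eq {M T : Type*} [AddCommGroup M] (V : Finset M) (S : Finset T) (act : T → M → M)
    (P : M → Prop) (hs : ∀ a ∈ V, ∀ b ∈ V, ∀ t ∈ S, a - act t b ∈ V)
    (ha : ∀ a ∈ V, ∀ b ∈ V, ∀ t ∈ S, a + act t b ∈ V) :
    ∑ h ∈ V ×ˢ V, (S.filter fun t => P (h.1 - act t h.2)).card =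
      (V.filter P).card * V.card * S.card := by
  have h1 : ∀ b ∈ V, ∀ t ∈ S, (V.filter fun a => P (a - act t b)).card = (V.filter P).card := by
    intro b hb t ht
    refine card_nbij' (fun a => a - act t b) (fun a => a + act t b) ?_ ?_ ?_ ?_
    · intro a h
      simp only [coe_filter, Set.mem_ofPred_eq] at h ⊢
      exact ⟨hs a h.1 b hb t ht, h.2⟩
    · intro a h
      simp only [coe_filter, Set.mem_ofPred_eq] at h ⊢
      exact ⟨ha a h.1 b hb t ht, by simpa using h.2⟩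
    · intro a _
      simp
    · intro a _
      simp
  rw [sum_product_right]
  have h2 : ∀ b ∈ V, ∑ a ∈ V, (S.filter fun t => P (a - act t b)).card =
      (V.filter P).card * S.card := by
    intro b hb
    simp only [card_filter]
    rw [sum_comm]
    rw [sum_congr rfl fun t ht => ?_, sum_const, smul_eq_mul, mul_comm]
    have := h1 b hb t ht
    simpa only [card_filter] using this
  rw [sum_congr rfl h2, sum_const, smul_eq_mul]
  ring

open Classical in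
theorem avg {M T : Type*} [AddCommGroup M] (V : Finset M) (S : Finset T) (act : T → M → M)
    (P : M → Prop) (G : M → M → Prop) (s F F₀ c c' : ℕ) (hs1 : 1 ≤ s) (hF : 1 ≤ F) (hF₀ : F ≤ F₀)
    (hS : S.card = s ^ 2) (hs : ∀ a ∈ V, ∀ b ∈ V, ∀ t ∈ S, a - act t b ∈ V)
    (ha : ∀ a ∈ V, ∀ b ∈ V, ∀ t ∈ S, a + act t b ∈ V)
    (hg : ∀ a ∈ V, ∀ b ∈ V, G a b →
      |(F : ℤ) * ((S.filter fun t => P (a - act t b)).card : ℤ) - (s : ℤ) ^ 2| ≤ c * s)
    (hb : ((V ×ˢ V).filter fun h => ¬ G h.1 h.2).card * s ^ 2 ≤ c' * V.card ^ 2) :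
    |(F : ℤ) * ((V.filter P).card : ℤ) - V.card| * s ≤ ((c + F₀ * c' : ℕ) : ℤ) * V.card := by
  rcases V.eq_empty_or_nonempty with rfl | hV
  · simp
  have hv : (0 : ℤ) < V.card := by exact_mod_cast hV.card_pos
  have hs0 : (0 : ℤ) < s := by exact_mod_cast hs1
  have e1 := sum_eq V S act P hs ha
  have e2 : ∑ h ∈ V ×ˢ V, ((F : ℤ) * ((S.filter fun t => P (h.1 - act t h.2)).card : ℤ) -
      (s : ℤ) ^ 2) = ((F : ℤ) * ((V.filter P).card : ℤ) - V.card) * (V.card * (s : ℤ) ^ 2) := by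
    rw [sum_sub_distrib, ← mul_sum, ← Nat.cast_sum, e1, hS, sum_const, card_product]
    push_cast
    simp only [nsmul_eq_mul, Nat.cast_mul]
    ring
  have e3 : ∀ h ∈ V ×ˢ V, |(F : ℤ) * ((S.filter fun t => P (h.1 - act t h.2)).card : ℤ) -
      (s : ℤ) ^ 2| ≤ c * s + if ¬ G h.1 h.2 then (F₀ : ℤ) * (s : ℤ) ^ 2 else 0 := by
    intro h hh
    rw [mem_product] at hh
    by_cases hG : G h.1 h.2
    · simpa [hG] using hg _ hh.1 _ hh.2 hG
    · rw [if_pos hG]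
      have h1 : ((S.filter fun t => P (h.1 - act t h.2)).card : ℤ) ≤ (s : ℤ) ^ 2 := by
        have := card_filter_le S fun t => P (h.1 - act t h.2)
        rw [hS] at this
        exact_mod_cast this
      have h2 : (0 : ℤ) ≤ ((S.filter fun t => P (h.1 - act t h.2)).card : ℤ) := by positivity
      have h3 : (1 : ℤ) ≤ F := by exact_mod_cast hF
      have h4 : (F : ℤ) ≤ F₀ := by exact_mod_cast hF₀
      have h5 : (0 : ℤ) ≤ c * s := by positivity
      have h6 : (0 : ℤ) ≤ (s : ℤ) ^ 2 := by positivity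
      rw [abs_le]
      constructor <;> nlinarith [mul_nonneg (sub_nonneg.mpr h4) h6, mul_nonneg (sub_nonneg.mpr h3) h6,
        mul_nonneg (zero_le_one.trans h3) h2, mul_nonneg (zero_le_one.trans h3) (sub_nonneg.mpr h1)]
  have e4 := (abs_sum_le_sum_abs _ _).trans (sum_le_sum e3)
  rw [e2, sum_add_distrib, sum_const, card_product, ← sum_filter, sum_const, abs_mul,
    abs_of_pos (by positivity : (0 : ℤ) < V.card * (s : ℤ) ^ 2)] at e4
  simp only [nsmul_eq_mul, Nat.cast_mul] at e4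
  have hb' : (((V ×ˢ V).filter fun h => ¬ G h.1 h.2).card : ℤ) * (s : ℤ) ^ 2 ≤
      c' * (V.card : ℤ) ^ 2 := by exact_mod_cast hb
  have h7 : (0 : ℤ) ≤ F₀ := by positivity
  have h8 : (1 : ℤ) ≤ s := by exact_mod_cast hs1
  have h9 : (0 : ℤ) ≤ (F₀ : ℤ) * c' * (V.card : ℤ) ^ 2 := by positivity
  refine le_of_mul_le_mul_right ?_ (mul_pos hv hs0)
  push_cast
  nlinarith [mul_le_mul_of_nonneg_left hb' h7, mul_nonneg h9 (sub_nonneg.mpr h8)]

variable {k K : Type u} [Field k] [Field K] [Algebra k K] {N : ℕ} {ξ : Fin (N + 1) → K}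

theorem vf_sub (p : ℕ) [Fact p.Prime] [CharP k p] (e n : ℕ) (Ξ : Set (Pt k ξ)) {a b : Pol k N}
    (ha : a ∈ VF (p ^ e) n Ξ) (hb : b ∈ VF (p ^ e) n Ξ) {t : k} (ht : t ^ p ^ e = t) :
    a - C t * b ∈ VF (p ^ e) n Ξ := by
  refine ⟨ha.1.sub (hb.1.C_mul t), fun d => ?_, fun x hx => ?_⟩
  · rw [coeff_sub, coeff_C_mul, sub_pow_char_pow, mul_pow, ht, ha.2.1, hb.2.1]
  · simp [ha.2.2 x hx, hb.2.2 x hx]

theorem vf_add (p : ℕ) [Fact p.Prime] [CharP k p] (e n : ℕ) (Ξ : Set (Pt k ξ)) {a b : Pol k N}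
    (ha : a ∈ VF (p ^ e) n Ξ) (hb : b ∈ VF (p ^ e) n Ξ) {t : k} (ht : t ^ p ^ e = t) :
    a + C t * b ∈ VF (p ^ e) n Ξ := by
  refine ⟨ha.1.add (hb.1.C_mul t), fun d => ?_, fun x hx => ?_⟩
  · rw [coeff_add, coeff_C_mul, add_pow_char_pow, mul_pow, ht, ha.2.1, hb.2.1]
  · simp [ha.2.2 x hx, hb.2.2 x hx]

end DCnt

theorem rCnt : RCnt.{u} := by
  classical
  intro k K _ _ _ _ p _ _ N ξ 𝒢 _ hgeo hvf hgc hp2 w
  obtain ⟨d, hd⟩ := hgeo.con.bd
  obtain ⟨c', hc'⟩ := hgc w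
  obtain ⟨c, Q, hc⟩ := hp2 w
  refine ⟨c + (5 * (w * d)).factorial * c', Q, ?_⟩
  intro r hr hQ hG W C hW hw hC hRt Ξ hΞ hx
  have hq : (p ^ r) ^ 2 = p ^ (r * 2) := (pow_mul p r 2).symm
  obtain ⟨-, S, hS, hSc, hV⟩ := hvf (r * 2) (by omega)
  obtain ⟨hfin, -⟩ := hV 5 Ξ (fun x h => hq ▸ (hx x h).1) (by omega)
  have hb := hc' (r * 2) (by omega) W C hW hw hC Ξ hΞ fun x h => hq ▸ (hx x h).1
  have hg := hc r hr hQ hG W C hW hw hC hRt Ξ hΞ hx
  rw [← hq] at hfin hb hS hSc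
  have hp : 1 ≤ p ^ r := Nat.one_le_pow _ _ (Fact.out : p.Prime).pos
  have hdeg : C.deg ≤ w * d := hw ▸ hd W C hW hC
  have key := DCnt.avg hfin.toFinset S (fun t h => MvPolynomial.C t * h)
    (Split ξ ((p ^ r) ^ 2) W) (GoodP W (Ξ : Set (Pt k ξ))) (p ^ r)
    (5 * C.deg - Ξ.card).factorial (5 * (w * d)).factorial c c' hp (Nat.factorial_pos _)
    (Nat.factorial_le (by omega)) hSc ?_ ?_ ?_ ?_
  · have e1 : {h ∈ VF ((p ^ r) ^ 2) 5 (Ξ : Set (Pt k ξ)) | Split ξ ((p ^ r) ^ 2) W h}.ncard =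
        (hfin.toFinset.filter (Split ξ ((p ^ r) ^ 2) W)).card := by
      rw [← Set.ncard_coe_finset]
      congr 1
      ext h
      simp
    rw [e1, Set.ncard_eq_toFinset_card _ hfin]
    exact_mod_cast key
  · intro a ha b hb t ht
    rw [Set.Finite.mem_toFinset] at ha hb ⊢
    rw [hS] at ht
    rw [hq] at ha hb ht ⊢
    exact DCnt.vf_sub p _ _ _ ha hb ht
  · intro a ha b hb t ht
    rw [Set.Finite.mem_toFinset] at ha hb ⊢
    rw [hS] at ht
    rw [hq] at ha hb ht ⊢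
    exact DCnt.vf_add p _ _ _ ha hb ht
  · intro a ha b hb hG
    rw [Set.Finite.mem_toFinset] at ha hb
    have h1 := hg a ha b hb hG
    have e1 : {t : k | t ^ (p ^ r) ^ 2 = t ∧
        Split ξ ((p ^ r) ^ 2) W (a - MvPolynomial.C t * b)}.ncard =
        (S.filter fun t => Split ξ ((p ^ r) ^ 2) W (a - MvPolynomial.C t * b)).card := by
      rw [← Set.ncard_coe_finset]
      congr 1
      ext t
      simp [hS]
    rw [e1] at h1
    exact_mod_cast h1
  · have e1 : {h : Pol k N × Pol k N | h.1 ∈ VF ((p ^ r) ^ 2) 5 (Ξ : Set (Pt k ξ)) ∧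
        h.2 ∈ VF ((p ^ r) ^ 2) 5 (Ξ : Set (Pt k ξ)) ∧
        ¬ GoodP W (Ξ : Set (Pt k ξ)) h.1 h.2}.ncard =
        ((hfin.toFinset ×ˢ hfin.toFinset).filter
          fun h => ¬ GoodP W (Ξ : Set (Pt k ξ)) h.1 h.2).card := by
      rw [← Set.ncard_coe_finset]
      congr 1
      ext h
      simp [and_assoc]
    rw [e1, Set.ncard_eq_toFinset_card _ hfin] at hb
    exact hb

end Pool.Agent.MP_f3836a_nt.PK
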