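import Pool.Agent.MP_f3836a_nt.PK.SpecD

set_option autoImplicit false

/-! The last step: a functional given by a function on points kills all cycles. -/

namespace Pool.Agent.MP_f3836a_nt.PK

open MvPolynomial Filter

universe u

namespace DLast

variable {k K : Type u} [Field k] [Field K] [Algebra k K] {N : ℕ} {ξ : Fin (N + 1) → K}

theorem add_pow {R : Type u} {S : Type} [Field R] [CommRing S] [IsCancelAdd S] {l : R → S}
    (h : ∀ f g, f ≠ 0 → g ≠ 0 → l (f * g) = l f + l g) {f : R} (hf : f ≠ 0) (r : ℕ) :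
    l (f ^ r) = r * l f := by
  induction r with
  | zero => simpa using h 1 1 one_ne_zero one_ne_zero
  | succ r ih =>
    rw [pow_succ, h _ _ (pow_ne_zero r hf) hf, ih]
    push_cast
    ring

theorem res_eq (C : Cv k ξ) {n m : ℕ} {A B A' B' : Pol k N} (hA : A.IsHomogeneous n)
    (hB : B.IsHomogeneous n) (hA' : A'.IsHomogeneous m) (hB' : B'.IsHomogeneous m) (h : B ∉ C.P)
    (h' : B' ∉ C.P) :
    C.res (aeval ξ A / aeval ξ B) = C.res (aeval ξ A' / aeval ξ B') ↔ A * B' - B * A' ∈ C.P := by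
  rw [C.res_of_mem ⟨_, C.div_mem hA hB h⟩, C.res_of_mem ⟨_, C.div_mem hA' hB' h'⟩, ← sub_eq_zero,
    ← map_sub, IsLocalRing.residue_eq_zero_iff]
  refine C.mem_max_iff _ ((hA.mul hB').sub (hB.mul hA')) (hB.mul hB')
    (fun hh => (C.prime.mem_or_mem hh).elim h h') ?_
  have h1 := C.aeval_ne hB h
  have h2 := C.aeval_ne hB' h'
  simp only [AddSubgroupClass.coe_sub, map_sub, map_mul]
  field_simp

theorem res_zero (C : Cv k ξ) {n : ℕ} {A B : Pol k N} (hA : A.IsHomogeneous n)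
    (hB : B.IsHomogeneous n) (h : B ∉ C.P) : C.res (aeval ξ A / aeval ξ B) = 0 ↔ A ∈ C.P := by
  rw [C.res_of_mem ⟨_, C.div_mem hA hB h⟩, IsLocalRing.residue_eq_zero_iff]
  exact C.mem_max_iff _ hA hB h (div_mul_cancel₀ _ (C.aeval_ne hB h))

theorem form1 (hc : CvA k ξ) (C : Cv k ξ) :
    ∃ G : Pol k N, Form G ∧ aeval ξ G ≠ 0 ∧ G ∈ C.P := by
  have := hc.dvr C
  obtain ⟨f, h1, h2⟩ := Submodule.exists_mem_ne_zero_of_ne_bot
    (IsDiscreteValuationRing.not_a_field C.O)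
  obtain ⟨n, A, B, hA, hB, hP, h⟩ := f.2
  exact ⟨A, Form.of hA, h ▸ mul_ne_zero (fun e => h2 (Subtype.ext e)) (C.aeval_ne hB hP),
    (C.mem_max_iff f hA hB hP h).1 h1⟩

theorem form_prod {ι : Type u} (S : Finset ι) (G : ι → Pol k N) (h : ∀ i ∈ S, Form (G i)) :
    Form (∏ i ∈ S, G i) :=
  Finset.prod_induction _ _ (fun _ _ => Form.mul) (Form.of (isHomogeneous_one _ _)) h

theorem sep (hc : CvA k ξ) (hv : VA k ξ) {C C' : Cv k ξ} (hne : C' ≠ C) :
    ∃ F : Pol k N, Form F ∧ F ∈ C'.P ∧ F ∉ C.P := by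
  by_contra hn
  push Not at hn
  have hle : C.O ≤ C'.O := by
    rintro f ⟨n, A, B, hA, hB, hP, h⟩
    exact ⟨n, A, B, hA, hB, fun hh => hP (hn B (Form.of hB) hh), h⟩
  refine hne (hc.ext _ _ (le_antisymm (fun f hf => by_contra fun hf' => ?_) hle))
  have f0 : f ≠ 0 := fun e => hf' (e ▸ C.O.zero_mem)
  have f1 : C.v f < 0 := not_le.1 fun e => hf' ((hv.mem C f f0).2 e)
  obtain ⟨G, g1, g2, g3⟩ := form1 hc C'
  have u0 := Ctr.lo_ne C'.good g2
  have u1 := (hv.form C' G g1 g2).2.2 g3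
  generalize C'.lo G = u at u0 u1
  have inv : ∀ (E : Cv k ξ) (g : K), g ≠ 0 → E.v g⁻¹ = -E.v g := fun E g hg => by
    have h1 := hv.mul E g g⁻¹ hg (inv_ne_zero hg)
    have h2 := hv.mul E 1 1 one_ne_zero one_ne_zero
    rw [mul_inv_cancel₀ hg] at h1
    rw [mul_one] at h2
    omega
  have p0 := pow_ne_zero (C.v u).toNat f0
  have h1 : (u * f ^ (C.v u).toNat)⁻¹ ∈ C.O := by
    rw [hv.mem C _ (inv_ne_zero (mul_ne_zero u0 p0)), inv C _ (mul_ne_zero u0 p0),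
      hv.mul C _ _ u0 p0, add_pow (hv.mul C) f0]
    nlinarith [Int.self_le_toNat (C.v u), Int.natCast_nonneg (C.v u).toNat]
  have h2 := C'.O.mul_mem (hle h1) (C'.O.pow_mem hf (C.v u).toNat)
  rw [mul_inv, inv_mul_cancel_right₀ p0, hv.mem C' _ (inv_ne_zero u0), inv C' _ u0] at h2
  omega

theorem interp (hc : CvA k ξ) (hv : VA k ξ) (D : Finset (Cv k ξ)) (ψ : ∀ C : Cv k ξ, C.κ) :
    ∃ (n : ℕ) (A B : Pol k N), A.IsHomogeneous n ∧ B.IsHomogeneous n ∧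
      ∀ C ∈ D, B ∉ C.P ∧ C.res (aeval ξ A / aeval ξ B) = ψ C := by
  classical
  have h1 : ∀ C ∈ D, ∀ᶠ n in atTop, ∃ A B : Pol k N, A.IsHomogeneous n ∧ B.IsHomogeneous n ∧
      B ∉ C.P ∧ C.res (aeval ξ A / aeval ξ B) = ψ C ∧ ∀ C' ∈ D.erase C, A ∈ C'.P ∧ B ∈ C'.P := by
    intro C _
    obtain ⟨m, A, B, hA, hB, hP, h⟩ := hv.frac C (ψ C)
    choose! F f1 f2 f3 using fun C' (h : C' ∈ D.erase C) => sep hc hv (Finset.ne_of_mem_erase h)
    have e1 := form_prod _ F f1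
    have e2 : ∏ C' ∈ D.erase C, F C' ∉ C.P := fun hh => by
      have := C.prime
      obtain ⟨C', h1, h2⟩ := Ideal.IsPrime.prod_mem_iff.1 hh
      exact f3 C' h1 h2
    have e3 : ∀ C' ∈ D.erase C, ∏ C' ∈ D.erase C, F C' ∈ C'.P := fun C' h =>
      Ideal.mem_of_dvd _ (Finset.dvd_prod_of_mem F h) (f2 C' h)
    generalize ∏ C' ∈ D.erase C, F C' = E at e1 e2 e3
    filter_upwards [eventually_ge_atTop (m + E.totalDegree)] with n hn
    obtain ⟨j, rfl⟩ := Nat.exists_eq_add_of_le hn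
    have hX : (X C.idx ^ j : Pol k N).IsHomogeneous j := isHomogeneous_X_pow _ _
    have hP' : B * E * X C.idx ^ j ∉ C.P := fun hh => (C.prime.mem_or_mem hh).elim
      (fun hh => (C.prime.mem_or_mem hh).elim hP e2) (Ctr.pow_notMem C.good j)
    refine ⟨A * E * X C.idx ^ j, B * E * X C.idx ^ j, (hA.mul e1).mul hX, (hB.mul e1).mul hX, hP',
      ?_, fun C' h => ⟨C'.P.mul_mem_right _ (C'.P.mul_mem_left _ (e3 C' h)),
        C'.P.mul_mem_right _ (C'.P.mul_mem_left _ (e3 C' h))⟩⟩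
    rw [h, res_eq C ((hA.mul e1).mul hX) ((hB.mul e1).mul hX) hA hB hP' hP,
      show A * E * X C.idx ^ j * B - B * E * X C.idx ^ j * A = 0 by ring]
    exact C.P.zero_mem
  obtain ⟨n, hn⟩ := ((eventually_all_finset D).2 h1).exists
  choose! A B a1 b1 b2 r e using hn
  have hA := IsHomogeneous.sum D A n a1
  have hB := IsHomogeneous.sum D B n b1
  refine ⟨n, _, _, hA, hB, fun C hC => ?_⟩
  have s1 : ∑ C' ∈ D.erase C, A C' ∈ C.P := C.P.sum_mem fun C' h => (e C' (Finset.mem_of_mem_erase h)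
    C (Finset.mem_erase.2 ⟨(Finset.ne_of_mem_erase h).symm, hC⟩)).1
  have s2 : ∑ C' ∈ D.erase C, B C' ∈ C.P := C.P.sum_mem fun C' h => (e C' (Finset.mem_of_mem_erase h)
    C (Finset.mem_erase.2 ⟨(Finset.ne_of_mem_erase h).symm, hC⟩)).2
  have s3 : ∑ C' ∈ D, B C' ∉ C.P := fun hh => b2 C hC (by
    rw [← Finset.add_sum_erase D B hC] at hh
    exact (C.P.add_mem_iff_left s2).1 hh)
  refine ⟨s3, ?_⟩
  rw [← r C hC, res_eq C hA hB (a1 C hC) (b1 C hC) s3 (b2 C hC), ← Finset.add_sum_erase D A hC,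
    ← Finset.add_sum_erase D B hC, add_mul, add_mul, mul_comm (B C), add_sub_add_left_eq_sub]
  exact C.P.sub_mem (C.P.mul_mem_right _ s1) (C.P.mul_mem_right _ s2)

end DLast

open DLast in
theorem rLast : RLast.{u} := by
  intro k K _ _ _ _ p _ _ N ξ 𝒢 _ hg lam α hl hs φ hφ
  classical
  choose G₀ g1 g2 g3 using form1 hg.cv
  obtain ⟨G, hG, G0, G1⟩ : ∃ G : Pol k N, Form G ∧ aeval ξ G ≠ 0 ∧ ∀ C, φ C ≠ 1 → G ∈ C.P :=
    ⟨∏ C ∈ hφ.fin.toFinset, G₀ C, form_prod _ _ fun C _ => g1 C, by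
      rw [map_prod]
      exact Finset.prod_ne_zero_iff.2 fun C _ => g2 C, fun C hC =>
      Ideal.mem_of_dvd _ (Finset.dvd_prod_of_mem G₀ (hφ.fin.mem_toFinset.2 hC)) (g3 C)⟩
  obtain ⟨D, hD⟩ : ∃ D : Finset (Cv k ξ), ∀ C, C ∈ D ↔ G ∈ C.P :=
    ⟨(hg.fin.cv G hG G0).toFinset, fun C => Set.Finite.mem_toFinset _⟩
  have l1 : ∀ C, lam C 1 = 0 := fun C => by simpa using hl.mul C 1 1 one_ne_zero one_ne_zero
  have d1 : ∀ C ∉ D, φ C = 1 := fun C hC => by_contra fun h => hC ((hD C).2 (G1 C h))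
  have d2 : ∀ C ∉ D, C.v (C.lo G) = 0 := fun C hC => by
    obtain ⟨h1, h2⟩ := hg.va.form C G hG G0
    exact le_antisymm (not_lt.1 fun h => hC ((hD C).2 (h2.1 h))) h1
  rw [finsum_eq_sum_of_support_subset (s := D) _ fun C hC => by_contra fun h =>
    hC (by rw [d1 C h, l1])]
  rcases D.eq_empty_or_nonempty with rfl | ⟨C₀, hC₀⟩
  · rfl
  obtain ⟨M, m, M0, hm⟩ : ∃ (M : ℕ) (m : Cv k ξ → ℕ), M ≠ 0 ∧
      ∀ C ∈ D, C.v (C.lo G) * m C = M := by
    refine ⟨∏ C ∈ D, (C.v (C.lo G)).toNat, fun C => ∏ C ∈ D.erase C, (C.v (C.lo G)).toNat,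
      Finset.prod_ne_zero_iff.2 fun C hC => ?_, fun C hC => ?_⟩
    · have := (hg.va.form C G hG G0).2.2 ((hD C).1 hC)
      omega
    · rw [← Finset.mul_prod_erase D _ hC, Nat.cast_mul, Int.toNat_of_nonneg (hg.va.form C G hG G0).1]
  obtain ⟨n, A, B, hA, hB, h⟩ := interp hg.cv hg.va D fun C => φ C ^ m C
  have a1 : ∀ C ∈ D, A ∉ C.P := fun C hC hh => pow_ne_zero (m C) (hφ.ne C)
    ((h C hC).2.symm.trans ((res_zero C hA hB (h C hC).1).2 hh))
  have a0 := C₀.aeval_ne hA (a1 C₀ hC₀)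
  have b0 := C₀.aeval_ne hB (h C₀ hC₀).1
  have cA : Cop ξ G A := ⟨hG, Form.of hA, G0, a0, fun C hC => a1 C ((hD C).2 hC)⟩
  have cB : Cop ξ G B := ⟨hG, Form.of hB, G0, b0, fun C hC => (h C ((hD C).2 hC)).1⟩
  have hJ : ∀ x, J x G A = J x G B := fun x => by
    have h1 := hg.ja.fml x n G A B cA cB hA hB
    have h2 : ∑ᶠ (C : Cv k ξ) (_ : x.On C), C.v (C.lo G) * C.ordAt x (C.res (aeval ξ A / aeval ξ B))
        = M * ∑ᶠ (C : Cv k ξ) (_ : x.On C), C.ordAt x (φ C) := by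
      rw [mul_finsum]
      refine finsum_congr fun C => ?_
      by_cases hx : x.On C
      swap
      · simp [hx]
      simp only [hx, finsum_true]
      by_cases hC : C ∈ D
      · rw [(h C hC).2, add_pow (hg.va.omul x C hx) (hφ.ne C), ← mul_assoc, hm C hC]
      · have h3 := add_pow (hg.va.omul x C hx) one_ne_zero 0
        rw [pow_zero, Nat.cast_zero, zero_mul] at h3
        rw [d2 C hC, d1 C hC, h3, zero_mul, mul_zero]
    rw [h2, hφ.div x, mul_zero] at h1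
    omega
  have h1 : ss lam G A = ss lam G B := by simp only [hs G A cA, hs G B cB, hJ]
  have fs : ∀ E : Pol k N, SS lam G E = ∑ C ∈ D, (C.v (C.lo G) : ℚ) * lam C (C.res (C.lo E)) :=
    fun E => finsum_eq_sum_of_support_subset _ fun C hC => by_contra fun h =>
      hC (by simp only [d2 C h, Int.cast_zero, zero_mul])
  rw [ss, ss, hA.totalDegree (fun e => a0 (by simp [e])), hB.totalDegree (fun e => b0 (by simp [e])),
    sub_left_inj, fs, fs, ← sub_eq_zero, ← Finset.sum_sub_distrib] at h1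
  refine mul_left_cancel₀ (Nat.cast_ne_zero.2 M0 : (M : ℚ) ≠ 0) ?_
  rw [mul_zero, ← h1, Finset.mul_sum]
  refine Finset.sum_congr rfl fun C hC => ?_
  have e1 : C.lo A = aeval ξ A / aeval ξ B * C.lo B := by
    rw [C.lo_eq hA, C.lo_eq hB]
    field_simp
  have e2 : (C.v (C.lo G) : ℚ) * m C = M := by exact_mod_cast hm C hC
  rw [e1, C.res_mul (C.div_mem hA hB (h C hC).1) (Ctr.lo_mem C.good (Form.of hB)), (h C hC).2,
    hl.mul C _ _ (pow_ne_zero _ (hφ.ne C))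
      (mt (C.res_lo_eq_zero (Form.of hB)).1 (h C hC).1), add_pow (hl.mul C) (hφ.ne C), ← e2]
  ring

end Pool.Agent.MP_f3836a_nt.PK
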