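import Pool.Agent.MP_f3836a_nt.PK.SpecD
import Pool.Agent.MP_f3836a_nt.PK.AllA

set_option autoImplicit false

/-! On a smooth curve the symbol is given by a function on points. -/

namespace Pool.Agent.MP_f3836a_nt.PK

open MvPolynomial

universe u

namespace DRep

theorem extend {G D : Type u} [AddCommGroup G] [AddCommGroup D] (Δ : G →+ D) (μ : G →+ ℚ)
    (h : ∀ g, Δ g = 0 → μ g = 0) : ∃ Ψ : D →+ ℚ, ∀ g, Ψ (Δ g) = μ g := by
  obtain ⟨Ψ, hΨ⟩ := (Module.Baer.of_divisible ℚ).extension_property_addMonoidHom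
    (QuotientAddGroup.kerLift Δ) (QuotientAddGroup.kerLift_injective Δ)
    (QuotientAddGroup.lift Δ.ker μ fun g hg => h g hg)
  exact ⟨Ψ, fun g => DFunLike.congr_fun hΨ (g : G ⧸ Δ.ker)⟩

theorem eval_fin {ι : Type u} [DecidableEq ι] (Ψ : (ι → ℤ) →+ ℚ) (d : ι → ℕ) (s : Finset ι)
    (h : ∀ x, x ∉ s → d x = 0) :
    Ψ (fun x => (d x : ℤ)) = ∑ᶠ x, (d x : ℚ) * Ψ (Pi.single x 1) := by
  have e : (fun x => (d x : ℤ)) = ∑ x ∈ s, d x • (Pi.single x 1 : ι → ℤ) := by
    funext y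
    simp only [Finset.sum_apply, Pi.smul_apply, Pi.single_apply, smul_ite, smul_zero,
      Finset.sum_ite_eq]
    split_ifs with hy
    · simp
    · simp [h y hy]
  rw [finsum_eq_sum_of_support_subset (s := s) _ fun x hx => by
    by_contra hs
    exact hx (by simp [h x hs]), e, map_sum]
  exact Finset.sum_congr rfl fun x _ => by rw [map_nsmul, nsmul_eq_mul]

variable {k K : Type u} [Field k] [Field K] [Algebra k K] {N : ℕ} {ξ : Fin (N + 1) → K}
  {𝒢 : Finset (Pol k N)} {W : Pol k N} {C : Cv k ξ}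

theorem cop (g : Geo k ξ 𝒢) (hW : Sm ξ W) (hC : W ∈ C.P) {n : ℕ} {B : Pol k N}
    (hB : B.IsHomogeneous n) (h : B ∉ C.P) : Cop ξ W B :=
  ⟨hW.1, Form.of hB, hW.2.2.1, C.toCtr.aeval_ne hB h, fun C' h' => by
    rwa [g.con.uniq W C C' hW hC h']⟩

theorem off (g : Geo k ξ 𝒢) (hW : Sm ξ W) (hC : W ∈ C.P) {B : Pol k N} (hB : Cop ξ W B)
    {x : Pt k ξ} (hx : ¬ x.On C) : J x W B = 0 :=
  (g.ja.zero x W B hB).2 fun h => hx ((g.con.on W C hW hC x).2 h.1)

theorem J_pow (g : Geo k ξ 𝒢) (hW : Sm ξ W) (hC : W ∈ C.P) (x : Pt k ξ) (n : ℕ) :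
    J x W (X C.idx ^ n) = n * J x W (X C.idx) := by
  induction n with
  | zero =>
    rw [pow_zero, zero_mul]
    exact (g.ja.zero x W 1 (cop g hW hC (isHomogeneous_one _ _) C.toCtr.one_notMem)).2
      fun h => one_ne_zero ((map_one (eval x.z)).symm.trans h.2)
  | succ n ih =>
    rw [pow_succ, g.ja.mul x W _ _ (cop g hW hC (isHomogeneous_X_pow _ _) (Ctr.pow_notMem C.good n))
      (cop g hW hC (isHomogeneous_X k _) (Ctr.idx_spec C.good).1), ih, add_mul, one_mul]

theorem J_sum (g : Geo k ξ 𝒢) (hW : Sm ξ W) (hC : W ∈ C.P) {n : ℕ} {B : Pol k N}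
    (hB : B.IsHomogeneous n) (h : B ∉ C.P) {s : Finset (Pt k ξ)} (hs : Zs ξ W B ⊆ s) :
    ∑ x ∈ s, (J x W B : ℤ) = n * C.deg := by
  classical
  have c := cop g hW hC hB h
  have e := (g.sm W C hW hC).s3.deg n B hB h
  rw [finsum_congr (g := fun x => J x W B) fun x => by
    rw [finsum_eq_if]
    split_ifs with hx
    · rfl
    · exact (off g hW hC c hx).symm,
    finsum_eq_sum_of_support_subset (s := s) _ fun x hx => hs (by
      by_contra hz
      exact hx ((g.ja.zero x W B c).2 hz))] at e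
  exact_mod_cast e

theorem n_zero (g : Geo k ξ 𝒢) (hW : Sm ξ W) (hC : W ∈ C.P) {f : C.κ} (hf : f ≠ 0) {n : ℤ}
    (h : ∀ x : Pt k ξ, x.On C → C.ordAt x f + n * J x W (X C.idx) = 0) : n = 0 := by
  classical
  obtain ⟨m, A, B, hA, hB, hBP, rfl⟩ := g.va.frac C f
  have hAP : A ∉ C.P := fun hAP => hf (by
    have hm := C.toCtr.div_mem hA hB hBP
    rw [C.res_of_mem ⟨_, hm⟩, IsLocalRing.residue_eq_zero_iff]
    exact (C.toCtr.mem_max_iff _ hA hB hBP
      (div_mul_cancel₀ _ (C.toCtr.aeval_ne hB hBP))).2 hAP)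
  have hX := (Ctr.idx_spec C.good).1
  have cA := cop g hW hC hA hAP
  have cB := cop g hW hC hB hBP
  have cX := cop g hW hC (isHomogeneous_X k C.idx) hX
  have fin := ((g.fin.zs W A cA).union (g.fin.zs W B cB)).union (g.fin.zs W _ cX)
  have sA := J_sum g hW hC hA hAP (s := fin.toFinset) fun x hx => by simp [hx]
  have sB := J_sum g hW hC hB hBP (s := fin.toFinset) fun x hx => by simp [hx]
  have sX := J_sum g hW hC (isHomogeneous_X k C.idx) hX (s := fin.toFinset) fun x hx => by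
    simp [hx]
  have e : ∑ x ∈ fin.toFinset, ((J x W A : ℤ) - J x W B + n * J x W (X C.idx)) = 0 :=
    Finset.sum_eq_zero fun x _ => by
      by_cases hx : x.On C
      · rw [← (g.sm W C hW hC).s1.quo x hx m A B hA hB hAP hBP]
        exact h x hx
      · simp [off g hW hC cA hx, off g hW hC cB hx, off g hW hC cX hx]
  rw [Finset.sum_add_distrib, Finset.sum_sub_distrib, ← Finset.mul_sum, sA, sB, sX] at e
  have := (g.sm W C hW hC).s3.pos
  have h1 : n * (C.deg : ℤ) = 0 := by simpa using e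
  exact (mul_eq_zero.1 h1).resolve_right (by omega)

theorem lam_root {lam : ∀ C : Cv k ξ, C.κ → ℚ} (hl : Lam lam) {f : C.κ} {n : ℕ} (hn : 0 < n)
    (h : f ^ n = 1) : lam C f = 0 := by
  have hf : f ≠ 0 := fun h0 => by
    rw [h0, zero_pow hn.ne'] at h
    exact zero_ne_one h
  have one : lam C 1 = 0 := by simpa using hl.mul C 1 1 one_ne_zero one_ne_zero
  have pw : ∀ m : ℕ, lam C (f ^ m) = m * lam C f := fun m => by
    induction m with
    | zero => simpa using one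
    | succ m ih => rw [pow_succ, hl.mul C _ _ (pow_ne_zero _ hf) hf, ih]; push_cast; ring
  have := pw n
  rw [h, one] at this
  exact (mul_eq_zero.1 this.symm).resolve_left (Nat.cast_ne_zero.2 hn.ne')

theorem SS_eq (g : Geo k ξ 𝒢) (hW : Sm ξ W) (hC : W ∈ C.P) (lam : ∀ C : Cv k ξ, C.κ → ℚ)
    (B : Pol k N) : SS lam W B = lam C (C.res (C.lo B)) := by
  rw [SS, finsum_eq_single _ C fun C' hne => ?_, (g.sm W C hW hC).s1.one, Int.cast_one, one_mul]
  obtain ⟨h0, h1⟩ := g.va.form C' W hW.1 hW.2.2.1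
  have : C'.v (C'.lo W) = 0 :=
    le_antisymm (not_lt.1 fun h => hne (g.con.uniq W C C' hW hC (h1.1 h))) h0
  rw [this, Int.cast_zero, zero_mul]

end DRep

open DRep in
theorem rRep : RRep.{u} := by
  classical
  intro k K _ _ _ _ p _ _ N ξ 𝒢 hk g lam hl
  suffices h : ∀ W : Pol k N, ∃ ψ : Pt k ξ → ℚ, Sm ξ W → ∀ B, Cop ξ W B →
      ss lam W B = ∑ᶠ x : Pt k ξ, (J x W B : ℚ) * ψ x by
    choose ψ hψ using h
    exact ⟨ψ, fun W B hW hB => hψ W hW B hB⟩
  intro W
  by_cases hW : Sm ξ W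
  swap
  · exact ⟨0, fun h => absurd h hW⟩
  rcases isEmpty_or_nonempty (Pt k ξ) with he | hne
  · have : IsEmpty (Cv k ξ) := ⟨fun C => (g.cv.pt C).elim fun x _ => he.elim x⟩
    refine ⟨0, fun _ B _ => ?_⟩
    simp [ss, SS, bb, finsum_of_isEmpty]
  obtain ⟨C, hC⟩ := g.con.ex W hW hne
  have sm := g.sm W C hW hC
  let Δ : Additive C.κˣ × ℤ →+ (Pt k ξ → ℤ) := AddMonoidHom.mk'
    (fun a x => (if x.On C then C.ordAt x (Additive.toMul a.1 : C.κˣ) else 0)
      + a.2 * J x W (X C.idx)) fun a b => funext fun x => by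
      simp only [Prod.fst_add, Prod.snd_add, toMul_add, Units.val_mul, Pi.add_apply]
      split_ifs with hx
      · rw [g.va.omul x C hx _ _ (Units.ne_zero _) (Units.ne_zero _)]; ring
      · ring
  let μ : Additive C.κˣ × ℤ →+ ℚ := AddMonoidHom.mk'
    (fun a => lam C (Additive.toMul a.1 : C.κˣ) - a.2 * bb lam W) fun a b => by
      simp only [Prod.fst_add, Prod.snd_add, toMul_add, Units.val_mul, Int.cast_add]
      rw [hl.mul C _ _ (Units.ne_zero _) (Units.ne_zero _)]; ring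
  obtain ⟨Ψ, hΨ⟩ := extend Δ μ fun a ha => by
    have h1 : ∀ x : Pt k ξ, x.On C →
        C.ordAt x (Additive.toMul a.1 : C.κˣ) + a.2 * J x W (X C.idx) = 0 := fun x hx => by
      have := congrFun ha x
      simpa [Δ, hx] using this
    have h2 := n_zero g hW hC (Units.ne_zero _) h1
    obtain ⟨c, hc⟩ := (pPlB k C.κ p sm.ff).const (Additive.toMul a.1 : C.κˣ) fun P => by
      obtain ⟨x, hx, hP⟩ := sm.s2.pt P
      rw [(pPlA k C.κ sm.ff).mem P _ (Units.ne_zero _), Place.ord, hP]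
      have := h1 x hx
      rw [h2, zero_mul, add_zero] at this
      exact this.ge
    obtain ⟨n, hn, hcn⟩ := hk c fun h0 => Units.ne_zero _ (by rw [hc, h0, map_zero])
    change lam C _ - a.2 * bb lam W = 0
    rw [h2, lam_root hl hn (by rw [hc, ← map_pow, hcn, map_one])]
    simp
  refine ⟨fun x => Ψ (Pi.single x 1), fun _ B hB => ?_⟩
  have hBP : B ∉ C.P := hB.2.2.2.2 C hC
  have hf : C.res (C.lo B) ≠ 0 := fun h => hBP ((C.res_lo_eq_zero hB.2.1).1 h)
  rw [← eval_fin Ψ (fun x => J x W B) (g.fin.zs W B hB).toFinset fun x hx =>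
    (g.ja.zero x W B hB).2 (by simpa using hx), ss, SS_eq g hW hC]
  refine (hΨ (Additive.ofMul (Units.mk0 _ hf), (B.totalDegree : ℤ))).symm.trans (congrArg Ψ ?_)
  funext x
  change (if x.On C then C.ordAt x (C.res (C.lo B)) else 0) + (B.totalDegree : ℤ) * _ = _
  split_ifs with hx
  · have := sm.s1.quo x hx _ B _ hB.2.1 (isHomogeneous_X_pow C.idx B.totalDegree) hBP
      (Ctr.pow_notMem C.good _)
    rw [map_pow, aeval_X, J_pow g hW hC] at this
    rw [Ctr.lo, this]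
    push_cast
    ring
  · simp [off g hW hC hB hx,
      off g hW hC (cop g hW hC (isHomogeneous_X k C.idx) (Ctr.idx_spec C.good).1) hx]

end Pool.Agent.MP_f3836a_nt.PK
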