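import Pool.Agent.MP_f3836a_nt.PK.SpecD
import Pool.Agent.MP_f3836a_nt.PK.AllA

set_option autoImplicit false

/-! The spectral lower bound on a smooth curve. -/

namespace Pool.Agent.MP_f3836a_nt.PK

open MvPolynomial

universe u

namespace DSpec

theorem near {F n P t c : ℝ} (hF : 1 ≤ F) (ht : 0 < t) (h : |F * n - P| * t ≤ c * P) :
    |n - P / F| ≤ c * P / t := by
  have F0 : 0 < F := by linarith
  rw [le_div_iff₀ ht]
  refine le_trans (mul_le_mul_of_nonneg_right ?_ ht.le) h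
  rw [show F * n - P = F * (n - P / F) by field_simp, abs_mul, abs_of_pos F0]
  exact le_mul_of_one_le_left (abs_nonneg _) hF

theorem fin {F F₂ P t c M κ S e : ℝ} (hF : 1 ≤ F) (hF₂ : 1 ≤ F₂) (hP : 0 ≤ P) (ht : 1 ≤ t)
    (hc : 0 ≤ c) (hM : 0 ≤ M) (hκ : 0 ≤ κ) (hS : S ≤ M * (t ^ 2 + 1)) (he : e ≤ M)
    (h : 2 * F * (c + 1 + 2 * c * M + M * κ) ≤ t) :
    1 / (2 * F) * P ≤ t ^ 2 * (P / t ^ 2 / F - c * (P / t ^ 2) / t - P / (t ^ 2) ^ 2 / F₂ -
      c * (P / (t ^ 2) ^ 2) / t * S - e * (κ * P / (t ^ 2) ^ 2)) := by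
  have t0 : 0 < t := by linarith
  have t2 : t ≤ t ^ 2 := by nlinarith
  have e1 : t ^ 2 * (P / t ^ 2 / F - c * (P / t ^ 2) / t - P / (t ^ 2) ^ 2 / F₂ -
      c * (P / (t ^ 2) ^ 2) / t * S - e * (κ * P / (t ^ 2) ^ 2)) =
      P * (1 / F - c / t - 1 / (t ^ 2 * F₂) - c / t * (S / t ^ 2) - e * κ / t ^ 2) := by
    field_simp
  rw [e1, mul_comm]
  refine mul_le_mul_of_nonneg_left ?_ hP
  have a1 : 1 / (t ^ 2 * F₂) ≤ 1 / t := one_div_le_one_div_of_le t0 (by nlinarith)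
  have a2 : c / t * (S / t ^ 2) ≤ c / t * (2 * M) := by
    refine mul_le_mul_of_nonneg_left ?_ (by positivity)
    rw [div_le_iff₀ (by positivity)]
    nlinarith [mul_le_mul_of_nonneg_left (ht.trans t2) hM]
  have a3 : e * κ / t ^ 2 ≤ M * κ / t :=
    div_le_div₀ (by positivity) (mul_le_mul_of_nonneg_right he hκ) t0 t2
  have a4 : (c + 1 + 2 * c * M + M * κ) / t ≤ 1 / (2 * F) := by
    rw [div_le_div_iff₀ t0 (by positivity)]
    linarith
  have a5 : (c + 1 + 2 * c * M + M * κ) / t = c / t + 1 / t + c / t * (2 * M) + M * κ / t := by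
    ring
  have a6 : 1 / F = 1 / (2 * F) + 1 / (2 * F) := by field_simp; norm_num
  linarith

end DSpec

open DSpec Classical in
theorem rSpec : RSpec.{u} := by
  intro k K _ _ _ _ p hp _ N ξ 𝒢 _ geo vf pts cnt w κ
  obtain ⟨d, hd⟩ := geo.con.bd
  obtain ⟨c, Q, hc⟩ := cnt w
  obtain ⟨M, hM⟩ : ∃ M, M = 5 * (w * d) := ⟨_, rfl⟩
  refine ⟨Q + 2 * M.factorial * (c + 1 + 2 * c * M + M * κ), 1 / (2 * M.factorial), by positivity,
    fun r hr hQ hG W hW hw hR E hE s A Z hs hA hZ φ => ?_⟩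
  rcases s.eq_empty_or_nonempty with rfl | ⟨y₀, -⟩
  · rw [Finset.sum_empty, mul_zero]; positivity
  obtain ⟨C, hC⟩ := geo.con.ex W hW ⟨y₀⟩
  have hD : 5 * C.deg ≤ M := hM ▸ Nat.mul_le_mul_left 5 (hw ▸ hd W C hW hC)
  obtain ⟨f0, _, _, _, v⟩ := vf (r * 2) (by omega)
  obtain ⟨p1, p2⟩ := pts W C hW hC
  replace p1 := p1 (r * 2) (by omega)
  rw [pow_mul] at f0 v p1
  have hc := hc r hr (by omega) hG W C hW hw hC hR
  obtain ⟨t, ht⟩ : ∃ t : ℝ, t = (p : ℝ) ^ r := ⟨_, rfl⟩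
  have t1 : 1 ≤ t := ht ▸ one_le_pow₀ (by exact_mod_cast hp.1.one_lt.le)
  have t0 : 0 < t := by linarith
  obtain ⟨q, hq⟩ : ∃ q, q = (p ^ r) ^ 2 := ⟨_, rfl⟩
  have qt : (q : ℝ) = t ^ 2 := by rw [hq, ht]; push_cast; rfl
  rw [← hq] at f0 v p1 hc hE hs hA ⊢
  obtain ⟨P, hP⟩ : ∃ P : ℝ, P = (VF q 5 (∅ : Set (Pt k ξ))).ncard := ⟨_, rfl⟩
  have P0 : 0 ≤ P := by rw [hP]; positivity
  have fV : (VF q 5 (∅ : Set (Pt k ξ))).Finite := by simpa using (v 5 ∅ (by simp) (by simp)).1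
  let A₀ := fV.toFinset.filter (Split ξ q W)
  let Z₀ : Pol k N → Finset (Pt k ξ) := fun h => s.filter (· ∈ Zs ξ W h)
  have mA : ∀ h, h ∈ A₀ ↔ h ∈ VF q 5 (∅ : Set (Pt k ξ)) ∧ Split ξ q W h := fun h => by simp [A₀]
  have key : ∀ Ξ : Finset (Pt k ξ), Ξ.card ≤ 2 → Ξ ⊆ s →
      |((A₀.filter fun h => ∀ y ∈ Ξ, y ∈ Z₀ h).card : ℝ) -
        P / (t ^ 2) ^ Ξ.card / (5 * C.deg - Ξ.card).factorial| ≤
        c * (P / (t ^ 2) ^ Ξ.card) / t := fun Ξ h1 h2 => by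
    have a1 := hc Ξ h1 fun x hx => (hs x).1 (h2 hx)
    have a2 := (v 5 Ξ (fun x hx => ((hs x).1 (h2 hx)).1) (by omega)).2.1
    have a3 : ((VF q 5 (Ξ : Set (Pt k ξ))).ncard : ℝ) = P / (t ^ 2) ^ Ξ.card := by
      rw [eq_div_iff (by positivity), hP, ← a2, ← qt]; push_cast; rfl
    have a4 : {h ∈ VF q 5 (Ξ : Set (Pt k ξ)) | Split ξ q W h} =
        (A₀.filter fun h => ∀ y ∈ Ξ, y ∈ Z₀ h) := by
      ext h
      simp only [Finset.coe_filter, mA, Set.mem_ofPred_eq, Z₀, Finset.mem_filter, VF, Zs]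
      exact ⟨fun ⟨⟨b1, b2, b3⟩, b4⟩ => ⟨⟨⟨b1, b2, by simp⟩, b4⟩, fun y hy =>
        ⟨h2 hy, ((hs y).1 (h2 hy)).2, b3 y hy⟩⟩,
        fun ⟨⟨⟨b1, b2, _⟩, b4⟩, b3⟩ => ⟨⟨b1, b2, fun y hy => (b3 y hy).2.2⟩, b4⟩⟩
    rw [a4, Set.ncard_coe_finset] at a1
    refine near (by exact_mod_cast Nat.factorial_pos _) t0 ?_
    rw [← a3, ht]
    exact_mod_cast a1
  have fac : ∀ n, (1 : ℝ) ≤ (Nat.factorial n : ℕ) := fun n => by exact_mod_cast Nat.factorial_pos n
  have := rComb _ _ s A₀ (A₀.filter (· ∈ E)) Z₀ (5 * C.deg)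
    (P / t ^ 2 / M.factorial - c * (P / t ^ 2) / t) (P / (t ^ 2) ^ 2 / (5 * C.deg - 2).factorial)
    (c * (P / (t ^ 2) ^ 2) / t) (κ * P / (t ^ 2) ^ 2) φ
    (fun h hh => ⟨Finset.filter_subset _ _, ?_⟩) (by positivity) (by positivity) (by positivity)
    (fun y hy => ?_) (fun y hy y' hy' hne => ?_) fun y hy => ?_
  · have e1 : A₀ \ A₀.filter (· ∈ E) = A := by
      ext h
      simp only [Finset.mem_sdiff, Finset.mem_filter, hA, mA]
      tauto
    have e2 : ∑ h ∈ A, (∑ y ∈ Z₀ h, φ y) ^ 2 = ∑ h ∈ A, (∑ y ∈ Z h, φ y) ^ 2 :=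
      Finset.sum_congr rfl fun h hh => by
        congr 2
        ext y
        rw [hZ h hh, Finset.mem_filter, hs]
        exact ⟨fun a => a.2, fun a => ⟨⟨(((hA h).1 hh).2.1.2 y a).1, a.1⟩, a⟩⟩
    rw [e1, e2] at this
    rw [← hP, ← ht]
    refine le_trans ?_ (mul_le_mul_of_nonneg_left this (by positivity))
    rw [← mul_assoc]
    refine mul_le_mul_of_nonneg_right ?_ (by positivity)
    refine fin (M := M) (fac _) (fac _) P0 t1 (by positivity) (by positivity) (by positivity) ?_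
      (by exact_mod_cast hD) ?_
    · have : (s : Set (Pt k ξ)) = {x | x.Rt q ∧ eval x.z W = 0} := Set.ext hs
      rw [← this, Set.ncard_coe_finset] at p1
      rw [← qt]
      exact_mod_cast p1.trans (Nat.mul_le_mul_right _ (by omega))
    · rw [ht]
      exact_mod_cast le_trans (Nat.le_add_left _ Q) hQ
  · obtain ⟨b1, b2⟩ := (mA h).1 hh
    refine le_trans ?_ (p2 5 h b1.1 b2.1)
    rw [← Set.ncard_coe_finset]
    exact Set.ncard_le_ncard (fun y hy => (Finset.mem_filter.1 hy).2)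
      (f0.subset fun y hy => (b2.2 y hy).1)
  · have := key {y} (by simp) (by simpa using hy)
    simp only [Finset.mem_singleton, forall_eq, Finset.card_singleton, pow_one] at this
    have a1 : P / t ^ 2 / M.factorial ≤ P / t ^ 2 / (5 * C.deg - 1).factorial :=
      div_le_div_of_nonneg_left (by positivity) (by positivity)
        (by exact_mod_cast Nat.factorial_le (by omega))
    linarith [(abs_le.1 this).1]
  · have := key {y, y'} (Finset.card_le_two) (by simp [Finset.insert_subset_iff, hy, hy'])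
    simpa only [Finset.mem_insert, Finset.mem_singleton, forall_eq_or_imp, forall_eq,
      Finset.card_pair hne] using this
  · obtain ⟨b1, b2⟩ := (hs y).1 hy
    have a1 := hE y b1 b2
    rw [le_div_iff₀ (by positivity), hP, ← qt]
    norm_cast
    refine le_trans (Nat.mul_le_mul_right _ ?_) a1
    rw [← Set.ncard_coe_finset]
    refine Set.ncard_le_ncard (fun h hh => ?_) (fV.subset fun h hh => ⟨hh.2.1, hh.2.2.1, by simp⟩)
    simp only [Finset.coe_filter, Finset.mem_inter, Finset.mem_filter, mA, Set.mem_ofPred_eq,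
      Z₀] at hh
    exact ⟨hh.1.2.2, hh.1.1.1.1, hh.1.1.1.2.1, fun x hx => hx ▸ hh.2.2.2⟩

end Pool.Agent.MP_f3836a_nt.PK
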