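import Pool.Agent.MP_f3836a_nt.PK.SpecD

set_option autoImplicit false

/-! Row DSt3: the expander step. -/

namespace Pool.Agent.MP_f3836a_nt.PK

open MvPolynomial IntermediateField IsLocalRing

universe u

namespace DSt3

open Finset

theorem sum_self {α : Type*} (V : Finset α) (f : α → α) (hm : ∀ v ∈ V, f v ∈ V)
    (hi : Set.InjOn f V) (F : α → ℝ) : ∑ v ∈ V, F (f v) = ∑ v ∈ V, F v := by
  classical
  have h : V.image f = V := by
    refine Finset.eq_of_subset_of_card_le (fun w hw => ?_) (by rw [card_image_of_injOn hi])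
    obtain ⟨v, hv, rfl⟩ := mem_image.1 hw
    exact hm v hv
  conv_rhs => rw [← h]
  rw [Finset.sum_image fun a ha b hb => hi ha hb]

section abstract

variable {k M : Type*} [Field k] [AddCommGroup M] [Module k M]

/-- averaging a mean zero function over lines -/
theorem avg (V : Finset M) (S : Finset k) (hcl : ∀ g ∈ V, ∀ h ∈ V, ∀ t ∈ S, g + t • h ∈ V)
    (φ : M → ℝ) (h0 : ∑ v ∈ V, φ v = 0) :
    ∑ g ∈ V, ∑ h ∈ V, (∑ t ∈ S, φ (g + t • h)) ^ 2 = S.card * V.card * ∑ v ∈ V, φ v ^ 2 := by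
  classical
  have key : ∀ t ∈ S, ∀ t' ∈ S, ∑ a ∈ V ×ˢ V, φ (a.1 + t • a.2) * φ (a.1 + t' • a.2) =
      if t = t' then V.card * ∑ v ∈ V, φ v ^ 2 else 0 := by
    intro t ht t' ht'
    split_ifs with htt
    · subst htt
      rw [Finset.sum_product_right]
      rw [Finset.sum_congr rfl fun h hh => sum_self V (fun g => g + t • h)
        (fun g hg => hcl g hg h hh t ht) (fun a _ b _ hab => add_right_cancel hab)
        (fun v => φ v * φ v)]
      simp only [sum_const, nsmul_eq_mul, sq]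
    · rw [sum_self (V ×ˢ V) (fun a => (a.1 + t • a.2, a.1 + t' • a.2)) ?_ ?_
        (fun a => φ a.1 * φ a.2)]
      · rw [Finset.sum_product, ← Finset.sum_mul_sum, h0, zero_mul]
      · intro a ha
        obtain ⟨h1, h2⟩ := mem_product.1 ha
        exact mem_product.2 ⟨hcl _ h1 _ h2 t ht, hcl _ h1 _ h2 t' ht'⟩
      · intro a _ b _ hab
        obtain ⟨h1, h2⟩ := Prod.mk.inj hab
        have h3 : (t - t') • (a.2 - b.2) = 0 := by
          have : (t - t') • (a.2 - b.2) = (a.1 + t • a.2 - (b.1 + t • b.2)) -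
              (a.1 + t' • a.2 - (b.1 + t' • b.2)) := by
            rw [sub_smul, smul_sub, smul_sub]; abel
          rw [this, h1, h2, sub_self, sub_self, sub_self]
        have h4 : a.2 = b.2 :=
          sub_eq_zero.1 ((smul_eq_zero.1 h3).resolve_left (sub_ne_zero.2 htt))
        rw [h4] at h1
        exact Prod.ext (add_right_cancel h1) h4
  rw [← Finset.sum_product' V V fun g h => (∑ t ∈ S, φ (g + t • h)) ^ 2]
  simp only [sq (∑ t ∈ S, _), Finset.sum_mul_sum]
  rw [Finset.sum_comm]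
  rw [Finset.sum_congr rfl fun t _ => Finset.sum_comm]
  rw [Finset.sum_congr rfl fun t ht => Finset.sum_congr rfl fun t' ht' => key t ht t' ht']
  rw [Finset.sum_congr rfl fun t ht => Finset.sum_ite_eq S t _]
  rw [Finset.sum_congr rfl fun t ht => if_pos ht, sum_const, nsmul_eq_mul, mul_assoc]

open Classical in
/-- few directions are thin -/
theorem thin (V : Finset M) (S : Finset k) (hcl : ∀ g ∈ V, ∀ h ∈ V, ∀ t ∈ S, g + t • h ∈ V)
    (sm : M → Prop) (g : M) (hg : g ∈ V) (hs : sm g) :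
    (V.filter fun h => 2 * (S.filter fun t => sm (g + t • h)).card < S.card).card * S.card ≤
      2 * (S.card * (V.filter fun h => ¬ sm h).card) := by
  have h1 : ∀ t ∈ S, (V.filter fun h => ¬ sm (g + t • h)).card ≤
      (V.filter fun h => ¬ sm h).card := by
    intro t ht
    by_cases h0 : t = 0
    · subst h0
      rw [Finset.filter_eq_empty_iff.2 fun h _ => by simpa using hs]
      simp
    · refine Finset.card_le_card_of_injOn (fun h => g + t • h) (fun h hh => ?_) ?_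
      · obtain ⟨h1, h2⟩ := mem_filter.1 (mem_coe.1 hh)
        exact mem_coe.2 (mem_filter.2 ⟨hcl g hg h h1 t ht, h2⟩)
      · intro a _ b _ hab
        exact smul_right_injective M h0 (add_left_cancel hab)
  have h2 : ∑ h ∈ V, (S.filter fun t => ¬ sm (g + t • h)).card ≤
      S.card * (V.filter fun h => ¬ sm h).card := by
    simp only [card_filter]
    rw [Finset.sum_comm]
    simp only [← card_filter]
    exact (Finset.sum_le_card_nsmul S _ _ h1).trans (le_of_eq (smul_eq_mul _ _))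
  calc _ = ∑ h ∈ V.filter fun h => 2 * (S.filter fun t => sm (g + t • h)).card < S.card,
        S.card := by rw [sum_const, smul_eq_mul]
    _ ≤ ∑ h ∈ V.filter fun h => 2 * (S.filter fun t => sm (g + t • h)).card < S.card,
        2 * (S.filter fun t => ¬ sm (g + t • h)).card := by
      refine Finset.sum_le_sum fun h hh => ?_
      have h3 := (mem_filter.1 hh).2
      have h4 := Finset.card_filter_add_card_filter_not (s := S) fun t => sm (g + t • h)
      omega
    _ ≤ ∑ h ∈ V, 2 * (S.filter fun t => ¬ sm (g + t • h)).card :=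
      Finset.sum_le_sum_of_subset (filter_subset _ _)
    _ ≤ _ := by rw [← Finset.mul_sum]; exact Nat.mul_le_mul_left 2 h2

open Classical in
/-- the expander argument -/
theorem expander {Y : Type*} (S : Finset k) (Ys : Finset Y) (P : Finset M) (on : Y → M → Prop)
    (sm : M → Prop) (φ : Y → M → ℝ) (A : M → Finset M) (Z : M → M → Finset Y) (c : ℝ) (e : ℕ)
    (hcl : ∀ y ∈ Ys, ∀ g ∈ P.filter (on y), ∀ h ∈ P.filter (on y), ∀ t ∈ S,
      g + t • h ∈ P.filter (on y))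
    (h0 : ∀ y ∈ Ys, ∑ v ∈ P.filter (on y), φ y v = 0)
    (hns : ∀ y v, ¬ sm v → φ y v = 0)
    (hV : ∀ y ∈ Ys, (P.filter (on y)).card * S.card = P.card)
    (spec : ∀ g ∈ P, sm g → c * P.card * ∑ y ∈ Ys.filter (fun y => on y g), φ y g ^ 2 ≤
      S.card * ∑ h ∈ A g, (∑ y ∈ Z g h, φ y g) ^ 2)
    (hA : ∀ g ∈ P, sm g → ∀ h ∈ A g, h ∈ P ∧ (∀ y ∈ Z g h, y ∈ Ys ∧ on y g ∧ on y h) ∧
      (Z g h).card ≤ e ∧ S.card ≤ 2 * (S.filter fun t => sm (g + t • h)).card ∧
      ∀ t ∈ S, sm (g + t • h) → ∑ y ∈ Z g h, φ y (g + t • h) = ∑ y ∈ Z g h, φ y g)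
    (hP : 0 < P.card) (hq : 4 * (e : ℝ) < c * S.card) :
    ∀ y ∈ Ys, ∀ g ∈ P, on y g → φ y g = 0 := by
  set q : ℝ := (S.card : ℝ) with hqdef
  have hq0 : 0 ≤ q := Nat.cast_nonneg _
  set Φ : ℝ := ∑ y ∈ Ys, ∑ g ∈ P.filter (on y), φ y g ^ 2 with hΦ
  set T : Y → M → M → ℝ := fun y g h => (∑ t ∈ S, φ y (g + t • h)) ^ 2 with hT
  have hT0 : ∀ y g h, 0 ≤ T y g h := fun y g h => sq_nonneg _
  -- one pair
  have h1 : ∀ g ∈ P, sm g → ∀ h ∈ A g, q ^ 2 * (∑ y ∈ Z g h, φ y g) ^ 2 ≤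
      4 * e * ∑ y ∈ Ys, if on y g ∧ on y h then T y g h else 0 := by
    intro g hg hs h hh
    obtain ⟨-, hZ, hc, hn, hγ⟩ := hA g hg hs h hh
    set n : ℕ := (S.filter fun t => sm (g + t • h)).card with hn'
    set γ : ℝ := ∑ y ∈ Z g h, φ y g with hγ'
    have e1 : (n : ℝ) * γ = ∑ y ∈ Z g h, ∑ t ∈ S, φ y (g + t • h) := by
      rw [Finset.sum_comm, ← Finset.sum_filter_add_sum_filter_not S fun t => sm (g + t • h),
        Finset.sum_eq_zero (s := S.filter fun t => ¬ sm (g + t • h)) fun t ht =>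
          Finset.sum_eq_zero fun y _ => hns y _ (mem_filter.1 ht).2,
        Finset.sum_congr rfl fun t ht => hγ t (mem_filter.1 ht).1 (mem_filter.1 ht).2,
        sum_const, nsmul_eq_mul, add_zero]
    have e2 : ((n : ℝ) * γ) ^ 2 ≤ (Z g h).card * ∑ y ∈ Z g h, T y g h := by
      rw [e1]; exact sq_sum_le_card_mul_sum_sq
    have e3 : ∑ y ∈ Z g h, T y g h ≤ ∑ y ∈ Ys, if on y g ∧ on y h then T y g h else 0 := by
      rw [← Finset.sum_filter]
      exact Finset.sum_le_sum_of_subset_of_nonneg (fun y hy => mem_filter.2 (hZ y hy))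
        fun y _ _ => hT0 y g h
    have e4 : q ≤ 2 * n := by rw [hqdef]; exact_mod_cast hn
    have e5 : ((Z g h).card : ℝ) ≤ e := by exact_mod_cast hc
    have e6 : 0 ≤ ∑ y ∈ Z g h, T y g h := Finset.sum_nonneg fun y _ => hT0 y g h
    calc q ^ 2 * γ ^ 2 ≤ (2 * n) ^ 2 * γ ^ 2 :=
          mul_le_mul_of_nonneg_right (pow_le_pow_left₀ hq0 e4 2) (sq_nonneg _)
      _ = 4 * ((n : ℝ) * γ) ^ 2 := by ring
      _ ≤ 4 * (e * ∑ y ∈ Ys, if on y g ∧ on y h then T y g h else 0) := by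
          refine mul_le_mul_of_nonneg_left (e2.trans ?_) (by norm_num)
          exact mul_le_mul e5 e3 e6 (Nat.cast_nonneg _)
      _ = _ := by ring
  have hU0 : ∀ g h, 0 ≤ ∑ y ∈ Ys, if on y g ∧ on y h then T y g h else 0 := fun g h =>
    Finset.sum_nonneg fun y _ => by split_ifs; exacts [hT0 y g h, le_rfl]
  -- one form
  have h2 : ∀ g ∈ P, q * (q * (c * P.card * ∑ y ∈ Ys.filter (fun y => on y g), φ y g ^ 2)) ≤
      q * (4 * e * ∑ h ∈ P, ∑ y ∈ Ys, if on y g ∧ on y h then T y g h else 0) := by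
    intro g hg
    by_cases hs : sm g
    · calc _ ≤ q * (q * (q * ∑ h ∈ A g, (∑ y ∈ Z g h, φ y g) ^ 2)) :=
            mul_le_mul_of_nonneg_left (mul_le_mul_of_nonneg_left (spec g hg hs) hq0) hq0
        _ = q * ∑ h ∈ A g, q ^ 2 * (∑ y ∈ Z g h, φ y g) ^ 2 := by
            rw [← Finset.mul_sum]; ring
        _ ≤ q * ∑ h ∈ A g, 4 * e * ∑ y ∈ Ys, if on y g ∧ on y h then T y g h else 0 :=
            mul_le_mul_of_nonneg_left (Finset.sum_le_sum fun h hh => h1 g hg hs h hh) hq0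
        _ ≤ _ := by
            rw [← Finset.mul_sum]
            refine mul_le_mul_of_nonneg_left (mul_le_mul_of_nonneg_left ?_ (by positivity)) hq0
            exact Finset.sum_le_sum_of_subset_of_nonneg (fun h hh => (hA g hg hs h hh).1)
              fun h _ _ => hU0 g h
    · rw [Finset.sum_eq_zero (s := Ys.filter fun y => on y g) fun y _ => by
        rw [hns y g hs]; norm_num]
      have := Finset.sum_nonneg (s := P) fun h _ => hU0 g h
      simp only [mul_zero]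
      positivity
  -- all forms
  have h3 : ∑ g ∈ P, ∑ y ∈ Ys.filter (fun y => on y g), φ y g ^ 2 = Φ := by
    simp only [hΦ, Finset.sum_filter]
    exact Finset.sum_comm
  have h4 : ∑ g ∈ P, ∑ h ∈ P, ∑ y ∈ Ys, (if on y g ∧ on y h then T y g h else 0) =
      P.card * Φ := by
    rw [Finset.sum_congr rfl fun g _ => Finset.sum_comm, Finset.sum_comm, hΦ, Finset.mul_sum]
    refine Finset.sum_congr rfl fun y hy => ?_
    have h5 := avg (P.filter (on y)) S (hcl y hy) (φ y) (h0 y hy)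
    have h6 : (S.card : ℝ) * (P.filter (on y)).card = P.card := by
      rw [mul_comm]; exact_mod_cast hV y hy
    rw [h6] at h5
    rw [← h5, Finset.sum_filter]
    refine Finset.sum_congr rfl fun g _ => ?_
    by_cases hg : on y g
    · simp only [hg, true_and, if_true, Finset.sum_filter, hT]
    · simp [hg]
  have h7 := Finset.sum_le_sum h2
  simp only [← Finset.mul_sum] at h7
  rw [h3, h4] at h7
  have hΦ0 : 0 ≤ Φ := Finset.sum_nonneg fun y _ => Finset.sum_nonneg fun g _ => sq_nonneg _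
  have hP' : (0 : ℝ) < P.card := by exact_mod_cast hP
  have he : (0 : ℝ) ≤ e := Nat.cast_nonneg _
  have hq1 : 0 < q := by
    rcases hq0.lt_or_eq with h | h
    · exact h
    · rw [← h] at hq; linarith
  have h8 : Φ = 0 := by
    by_contra hne
    have hpos : 0 < Φ := lt_of_le_of_ne hΦ0 (Ne.symm hne)
    have h9 : 0 < q * (P.card * Φ) * (c * q - 4 * e) :=
      mul_pos (mul_pos hq1 (mul_pos hP' hpos)) (by linarith)
    nlinarith
  intro y hy g hg ho
  have h10 := (Finset.sum_eq_zero_iff_of_nonneg fun y _ =>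
    Finset.sum_nonneg fun g _ => sq_nonneg (φ y g)).1 h8 y hy
  have h11 := (Finset.sum_eq_zero_iff_of_nonneg fun g _ => sq_nonneg (φ y g)).1 h10 g
    (mem_filter.2 ⟨hg, ho⟩)
  exact pow_eq_zero_iff (two_ne_zero) |>.1 h11

end abstract

section geo

variable {k K : Type u} [Field k] [Field K] [Algebra k K] {N : ℕ} {ξ : Fin (N + 1) → K}

theorem cop_symm {A B : Pol k N} (h : Cop ξ A B) : Cop ξ B A :=
  ⟨h.2.1, h.1, h.2.2.2.1, h.2.2.1, fun D hB hA => h.2.2.2.2 D hA hB⟩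

theorem vf_closed (p : ℕ) [Fact p.Prime] [CharP k p] (e n : ℕ) (Ξ : Set (Pt k ξ))
    {g h : Pol k N} {t : k} (hg : g ∈ VF (p ^ e) n Ξ) (hh : h ∈ VF (p ^ e) n Ξ)
    (ht : t ^ p ^ e = t) : g + t • h ∈ VF (p ^ e) n Ξ := by
  refine ⟨?_, fun d => ?_, fun x hx => ?_⟩
  · rw [smul_eq_C_mul]; exact hg.1.add (hh.1.C_mul t)
  · rw [coeff_add, coeff_smul, smul_eq_mul, add_pow_char_pow, mul_pow, hg.2.1 d, hh.2.1 d, ht]
  · rw [smul_eq_C_mul, map_add, map_mul, hg.2.2 x hx, hh.2.2 x hx, mul_zero, add_zero]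

theorem fin_sum (ja : JA k ξ) {q : ℕ} {g h : Pol k N} (hs : Split ξ q g h) (Z : Finset (Pt k ξ))
    (hZ : ∀ y, y ∈ Z ↔ y ∈ Zs ξ g h) (f : Pt k ξ → ℚ) :
    ∑ᶠ x : Pt k ξ, (J x g h : ℚ) * f x = ∑ x ∈ Z, f x := by
  rw [finsum_eq_sum_of_support_subset (s := Z)]
  · refine Finset.sum_congr rfl fun x hx => ?_
    rw [(hs.2 x ((hZ x).1 hx)).2, Nat.cast_one, one_mul]
  · intro x hx
    by_contra hn
    refine hx ?_
    have := (ja.zero x g h hs.1).2 fun hz => hn (mem_coe.2 ((hZ x).2 hz))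
    simp only [this, Nat.cast_zero, zero_mul]

/-- the sum over a split intersection is constant along the pencil -/
theorem shear (ja : JA k ξ) {s : Pol k N → Pol k N → ℚ} {ψ : Pol k N → Pt k ξ → ℚ}
    (hsym : Sym ξ s) (hrep : Rep s ψ) {q n : ℕ} {g h : Pol k N} (hg : g.IsHomogeneous n)
    (hh : h.IsHomogeneous n) (hs : Split ξ q g h) (hsm : Sm ξ g) (t : k)
    (hsm' : Sm ξ (g + t • h)) (Z : Finset (Pt k ξ)) (hZ : ∀ y, y ∈ Z ↔ y ∈ Zs ξ g h) :
    ∑ y ∈ Z, ψ (g + t • h) y = ∑ y ∈ Z, ψ g y := by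
  have hth : (C t * h : Pol k N).IsHomogeneous n := hh.C_mul t
  have hg' : (g + t • h).IsHomogeneous n := by rw [smul_eq_C_mul]; exact hg.add hth
  have hz : aeval ξ (g + t • h - g - C t * h) = 0 := by
    rw [smul_eq_C_mul, add_sub_cancel_left, sub_self, map_zero]
  have hC : Form (C t : Pol k N) := Form.of (isHomogeneous_C _ t)
  have hc : Cop ξ (g + t • h) h := by
    refine ⟨hsm'.1, hs.1.2.1, hsm'.2.2.1, hs.1.2.2.2.1, fun D h1 h2 => hs.1.2.2.2.2 D ?_ h2⟩
    have := D.P.sub_mem h1 (D.P.mul_mem_left (C t) h2)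
    rwa [smul_eq_C_mul, add_sub_cancel_right] at this
  have e1 : s (g + t • h) h = s g h := by
    rw [hsym.symm _ _ hc, hsym.shear n h g (g + t • h) (C t) (cop_symm hs.1) (cop_symm hc) hC hg
      hg' hth hz, hsym.symm _ _ hs.1]
  have e2 : ∀ x : Pt k ξ, J x (g + t • h) h = J x g h := fun x => by
    rw [ja.symm x _ h, ja.shear x n h g (g + t • h) (C t) hs.1.2.1 hC hg hg' hth hz, ja.symm]
  have e3 := hrep _ _ hsm' hc
  simp only [e2] at e3
  rw [← fin_sum ja hs Z hZ, ← fin_sum ja hs Z hZ, ← e3, e1, hrep _ _ hsm hs.1]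

theorem coeff_fin (G : Pol k N) : (Set.range fun d => coeff d G).Finite := by
  classical
  refine ((G.support.image fun d => coeff d G).finite_toSet.insert 0).subset ?_
  rintro _ ⟨d, rfl⟩
  by_cases h : coeff d G = 0
  · exact Or.inl h
  · exact Or.inr (mem_coe.2 (mem_image.2 ⟨d, mem_support_iff.2 h, rfl⟩))

theorem sm_deg {g : Pol k N} {n : ℕ} (hg : g.IsHomogeneous n) (hs : Sm ξ g) :
    g.totalDegree = n :=
  hg.totalDegree fun h0 => hs.2.2.1 (by rw [h0, map_zero])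

end geo

end DSt3

open DSt3 Finset in
theorem rSt3 : RTow.{u} → RSt3.{u} := by
  intro tow k K _ _ _ _ p _ _ N ξ 𝒢 htor geo hVFA hPts hSm hSpec s ψ hsym hrep h₀ h₁ hs₀ hs₁
    hh₀ hh₁ x hx₀ hx₁
  classical
  obtain ⟨c₁, hc₁⟩ := hSm 5 (by norm_num)
  obtain ⟨d, hd⟩ := geo.con.bd
  obtain ⟨Q, c, hc, hQ⟩ := hSpec 5 (2 * c₁)
  obtain ⟨Q', hQ'⟩ := exists_nat_gt (4 * ((25 * d : ℕ) : ℝ) / c)
  obtain ⟨r, hr, hQr, hrt⟩ := tow k p htor
    ((⋃ G ∈ (insert h₀ (insert h₁ 𝒢) : Finset (Pol k N)), Set.range fun d => coeff d G) ∪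
      Set.range x.z) (max Q Q')
    ((Set.Finite.biUnion (Finset.finite_toSet _) fun G _ => coeff_fin G).union
      (Set.finite_range _))
  have hRt : ∀ G ∈ (insert h₀ (insert h₁ 𝒢) : Finset (Pol k N)), Rt ((p ^ r) ^ 2) G :=
    fun G hG d => hrt _ (Or.inl (Set.mem_biUnion (mem_coe.2 hG) ⟨d, rfl⟩))
  have hxr : x.Rt ((p ^ r) ^ 2) := fun j => hrt _ (Or.inr ⟨j, rfl⟩)
  have hr2 : 1 ≤ r * 2 := by omega
  obtain ⟨hY, S, hS, hSc, hV⟩ := hVFA (r * 2) hr2
  have hcl := fun (Ξ : Set (Pt k ξ)) (g h : Pol k N) (t : k) =>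
    vf_closed (g := g) (h := h) (t := t) p (r * 2) 5 Ξ
  have hns := hc₁ (r * 2) hr2
  rw [pow_mul] at hY hS hSc hV hcl hns
  have hsp := hQ r hr ((le_max_left _ _).trans hQr)
    fun G hG => hRt G (mem_insert_of_mem (mem_insert_of_mem hG))
  have hqc : ((p : ℝ) ^ r) ^ 2 = S.card := by rw [hSc]; push_cast; rfl
  rw [hqc] at hsp
  set q : ℕ := (p ^ r) ^ 2 with hq
  have hPf : (VF q 5 (∅ : Set (Pt k ξ))).Finite := by
    simpa using (hV 5 ∅ (by simp) (by simp)).1
  set P : Finset (Pol k N) := hPf.toFinset with hPdef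
  have hPm : ∀ g, g ∈ P ↔ g ∈ VF q 5 (∅ : Set (Pt k ξ)) := fun g => hPf.mem_toFinset
  have hPc : (VF q 5 (∅ : Set (Pt k ξ))).ncard = P.card := Set.ncard_eq_toFinset_card _ hPf
  set on : Pt k ξ → Pol k N → Prop := fun y g => eval y.z g = 0 with hon
  have hVm : ∀ y g, g ∈ P.filter (on y) ↔ g ∈ VF q 5 ({y} : Set (Pt k ξ)) := fun y g => by
    rw [mem_filter, hPm]
    exact ⟨fun h => ⟨h.1.1, h.1.2.1, fun z hz => by rw [hz]; exact h.2⟩,
      fun h => ⟨⟨h.1, h.2.1, fun z hz => absurd hz (Set.notMem_empty z)⟩, h.2.2 y rfl⟩⟩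
  have hVe : ∀ y, VF q 5 ({y} : Set (Pt k ξ)) = (P.filter (on y) : Finset (Pol k N)) := fun y =>
    Set.ext fun g => by rw [mem_coe, hVm]
  set Ys : Finset (Pt k ξ) := hY.toFinset with hYs
  have hYm : ∀ y, y ∈ Ys ↔ y.Rt q := fun y => hY.mem_toFinset
  have hVc : ∀ y ∈ Ys, (P.filter (on y)).card * S.card = P.card := fun y hy => by
    have := (hV 5 {y} (by simpa using (hYm y).1 hy) (by simp)).2.1
    rwa [coe_singleton, hVe, Set.ncard_coe_finset, card_singleton, pow_one, hPc, ← hSc] at this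
  have hclV : ∀ y, ∀ g ∈ P.filter (on y), ∀ h ∈ P.filter (on y), ∀ t ∈ S,
      g + t • h ∈ P.filter (on y) := fun y g hg h hh t ht =>
    (hVm y _).2 (hcl _ g h t ((hVm y g).1 hg) ((hVm y h).1 hh) ((hS t).1 ht))
  set α : Pt k ξ → ℝ := fun y => (∑ g ∈ (P.filter (on y)).filter (Sm ξ), (ψ g y : ℝ)) /
    ((P.filter (on y)).filter (Sm ξ)).card with hα
  set φ : Pt k ξ → Pol k N → ℝ := fun y g => if Sm ξ g then (ψ g y : ℝ) - α y else 0 with hφ
  set E : Pol k N → Set (Pol k N) := fun g =>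
    {h | 2 * (S.filter fun t => Sm ξ (g + t • h)).card < S.card} with hE
  set A : Pol k N → Finset (Pol k N) := fun g => P.filter fun h => Split ξ q g h ∧ h ∉ E g with hA
  set Z : Pol k N → Pol k N → Finset (Pt k ξ) := fun g h =>
    Ys.filter fun y => y ∈ Zs ξ g h with hZ
  have hZm : ∀ g h, Split ξ q g h → ∀ y, y ∈ Z g h ↔ y ∈ Zs ξ g h := fun g h hs y =>
    ⟨fun hy => (mem_filter.1 hy).2, fun hy => mem_filter.2 ⟨(hYm y).2 (hs.2 y hy).1, hy⟩⟩
  have main := expander S Ys P on (Sm ξ) φ A Z c (25 * d) (fun y _ => hclV y) ?_ ?_ hVc ?_ ?_ ?_ ?_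
  · have m₀ := main x ((hYm x).2 hxr) h₀ ((hPm _).2 ⟨hh₀, hRt _ (mem_insert_self _ _),
      fun z hz => absurd hz (Set.notMem_empty z)⟩) hx₀
    have m₁ := main x ((hYm x).2 hxr) h₁ ((hPm _).2 ⟨hh₁,
      hRt _ (mem_insert_of_mem (mem_insert_self _ _)),
      fun z hz => absurd hz (Set.notMem_empty z)⟩) hx₁
    simp only [hφ, if_pos hs₀, if_pos hs₁] at m₀ m₁
    have : (ψ h₀ x : ℝ) = ψ h₁ x := by linarith
    exact_mod_cast this
  · intro y _
    simp only [hφ]
    rw [← Finset.sum_filter, Finset.sum_sub_distrib, sum_const, nsmul_eq_mul, hα]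
    by_cases h0 : ((P.filter (on y)).filter (Sm ξ)).card = 0
    · rw [card_eq_zero] at h0
      simp [h0]
    · have : (((P.filter (on y)).filter (Sm ξ)).card : ℝ) ≠ 0 := by exact_mod_cast h0
      simp only
      rw [mul_div_cancel₀ _ this, sub_self]
  · intro y v hv
    simp only [hφ, if_neg hv]
  · intro g hg hs
    have hg' := (hPm g).1 hg
    have := hsp g hs (sm_deg hg'.1 hs) hg'.2.1 (E g) ?_ (Ys.filter fun y => on y g) (A g) (Z g)
      (fun y => by rw [mem_filter, hYm]) (fun h => by rw [hA, mem_filter, hPm])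
      (fun h hh => hZm g h (mem_filter.1 hh).2.1) (fun y => φ y g)
    · rwa [hPc] at this
    · intro y hy hyg
      have hy' := (hYm y).2 hy
      have t1 := thin (P.filter (on y)) S (hclV y) (Sm ξ) g (mem_filter.2 ⟨hg, hyg⟩) hs
      have t2 := hns y hy
      have t3 : {h ∈ VF q 5 ({y} : Set (Pt k ξ)) | ¬ Sm ξ h} =
          ((P.filter (on y)).filter (fun h => ¬ Sm ξ h) : Finset (Pol k N)) := by
        ext h
        rw [mem_coe, mem_filter, hVm]
        rfl
      have t4 : E g ∩ VF q 5 ({y} : Set (Pt k ξ)) = ((P.filter (on y)).filter (fun h =>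
          2 * (S.filter fun t => Sm ξ (g + t • h)).card < S.card) : Finset (Pol k N)) := by
        ext h
        rw [mem_coe, mem_filter, hVm]
        exact and_comm
      rw [t3, hVe, Set.ncard_coe_finset, Set.ncard_coe_finset, ← hSc] at t2
      rw [t4, Set.ncard_coe_finset, hPc, ← hVc y hy', ← hSc]
      calc _ = _ * S.card * S.card := by rw [sq, mul_assoc]
        _ ≤ 2 * (S.card * _) * S.card := Nat.mul_le_mul_right _ t1
        _ = 2 * (_ * S.card) * S.card := by rw [mul_comm S.card]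
        _ ≤ 2 * (c₁ * _) * S.card := Nat.mul_le_mul_right _ (Nat.mul_le_mul_left _ t2)
        _ = _ := by ring
  · intro g hg hs h hh
    obtain ⟨hhP, hsp', hhE⟩ := mem_filter.1 hh
    have hg' := (hPm g).1 hg
    have hh' := (hPm h).1 hhP
    refine ⟨hhP, fun y hy => mem_filter.1 hy, ?_, not_lt.1 hhE, fun t _ hst => ?_⟩
    · obtain ⟨D, hD⟩ := geo.con.ex g hs ⟨x⟩
      have u1 := (hPts g D hs hD).2 5 h hh'.1 hsp'.1
      have u2 := hd g D hs hD
      rw [sm_deg hg'.1 hs] at u2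
      have u3 : Zs ξ g h = (Z g h : Finset (Pt k ξ)) :=
        Set.ext fun y => by rw [mem_coe, hZm g h hsp']
      rw [u3, Set.ncard_coe_finset] at u1
      omega
    · have u := shear geo.ja hsym hrep hg'.1 hh'.1 hsp' hs t hst (Z g h) (hZm g h hsp')
      have u' : ∑ y ∈ Z g h, (ψ (g + t • h) y : ℝ) = ∑ y ∈ Z g h, (ψ g y : ℝ) := by
        exact_mod_cast u
      simp only [hφ, if_pos hs, if_pos hst]
      rw [Finset.sum_sub_distrib, Finset.sum_sub_distrib, u']
  · exact card_pos.2 ⟨h₀, (hPm _).2 ⟨hh₀, hRt _ (mem_insert_self _ _),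
      fun z hz => absurd hz (Set.notMem_empty z)⟩⟩
  · rw [div_lt_iff₀ hc] at hQ'
    have v1 : Q' ≤ S.card := by
      rw [hSc, hq]
      exact ((le_max_right _ _).trans hQr).trans (Nat.le_self_pow two_ne_zero _)
    have v2 : (Q' : ℝ) ≤ S.card := by exact_mod_cast v1
    nlinarith

end Pool.Agent.MP_f3836a_nt.PK
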