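import Pool.Agent.MP_f3836a_nt.PK.SpecD

set_option autoImplicit false

/-! The function on points does not depend on the smooth form. -/

namespace Pool.Agent.MP_f3836a_nt.PK

open MvPolynomial

universe u

namespace DSt3b

variable {k K : Type u} [Field k] [Field K] [Algebra k K] {N : ℕ} {ξ : Fin (N + 1) → K}

theorem sumZ (hJ : JA k ξ) {q : ℕ} {W h : Pol k N} (hs : Split ξ q W h) {Z : Finset (Pt k ξ)}
    (hZ : ∀ y, y ∈ Z ↔ y ∈ Zs ξ W h) (f : Pt k ξ → ℚ) :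
    ∑ᶠ x, (J x W h : ℚ) * f x = ∑ x ∈ Z, f x := by
  rw [finsum_eq_sum_of_support_subset (s := Z) _ fun x hx => (hZ x).2 (by_contra fun h0 =>
    hx (by simp [(hJ.zero x W h hs.1).2 h0]))]
  exact Finset.sum_congr rfl fun x hx => by simp [(hs.2 x ((hZ x).1 hx)).2]

end DSt3b

open DSt3b in
theorem rSt3b : RTow.{u} → RSt3b.{u} := by
  intro hT k K _ _ _ _ p _ _ N ξ 𝒢 hk G hV hC hS h3 s ψ hs hψ
  classical
  let α : Pt k ξ → ℚ := fun x =>
    if hx : ∃ h : Pol k N, Sm ξ h ∧ h.IsHomogeneous 5 ∧ eval x.z h = 0 then ψ hx.choose x else 0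
  have hα : ∀ (h : Pol k N) (x : Pt k ξ), Sm ξ h → h.IsHomogeneous 5 → eval x.z h = 0 →
      α x = ψ h x := fun h x h1 h2 h4 => by
    have hx : ∃ h : Pol k N, Sm ξ h ∧ h.IsHomogeneous 5 ∧ eval x.z h = 0 := ⟨h, h1, h2, h4⟩
    exact (dif_pos hx).trans (h3 s ψ hs hψ _ _ hx.choose_spec.1 h1 hx.choose_spec.2.1 h2 x
      hx.choose_spec.2.2 h4)
  refine ⟨α, fun W B hW hB => (hψ W B hW hB).trans (finsum_congr fun x => ?_)⟩
  by_cases hx : eval x.z W = 0
  swap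
  · simp [(G.ja.zero x W B hB).2 fun h => hx h.1]
  congr 1
  obtain ⟨c, hc⟩ := hC 5 (by norm_num)
  obtain ⟨Q, c', hc', hS⟩ := hS W.totalDegree c
  obtain ⟨r, hr, hQ, hR⟩ := hT k p hk ((⋃ A ∈ insert W 𝒢, (A.coeffs : Set k)) ∪ Set.range x.z) Q
    (((insert W 𝒢).finite_toSet.biUnion fun A _ => A.coeffs.finite_toSet).union
      (Set.finite_range _))
  have hq : (p ^ r) ^ 2 ≠ 0 := pow_ne_zero _ (pow_ne_zero _ (Fact.out : p.Prime).ne_zero)
  have hRt : ∀ A ∈ insert W 𝒢, Rt ((p ^ r) ^ 2) A := fun A hA d => by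
    by_cases h0 : coeff d A = 0
    · rw [h0, zero_pow hq]
    · exact hR _ (Or.inl (Set.mem_biUnion hA (coeff_mem_coeffs d h0)))
  obtain ⟨f1, _, -, -, f2⟩ := hV (r * 2) (by omega)
  have hc := hc (r * 2) (by omega)
  rw [pow_mul] at f1 f2 hc
  have f3 := (f2 5 ∅ (by simp) (by simp)).1
  rw [Finset.coe_empty] at f3
  let S := f1.toFinset.filter fun y => eval y.z W = 0
  have hm : ∀ y, y ∈ S ↔ y.Rt ((p ^ r) ^ 2) ∧ eval y.z W = 0 := fun y => by simp [S]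
  have key := hS r hr hQ (fun A hA => hRt A (Finset.mem_insert_of_mem hA)) W hW rfl
    (hRt W (Finset.mem_insert_self _ _)) {h | ¬ Sm ξ h} (fun y hy _ => ?_) S
    (f3.toFinset.filter fun h => Split ξ ((p ^ r) ^ 2) W h ∧ Sm ξ h)
    (fun h => S.filter fun y => y ∈ Zs ξ W h) hm (fun h => by simp)
    (fun h hh y => ?_) fun y => ((ψ W y - α y : ℚ) : ℝ)
  · rw [Finset.sum_eq_zero (s := Finset.filter _ f3.toFinset) fun h hh => ?_, mul_zero] at key
    · have h1 : 0 < (VF ((p ^ r) ^ 2) 5 (∅ : Set (Pt k ξ))).ncard := (Set.ncard_pos f3).2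
        ⟨0, isHomogeneous_zero _ _ _, fun d => by rw [coeff_zero, zero_pow hq],
          fun _ h => h.elim⟩
      have h2 := (Finset.single_le_sum (f := fun y => ((ψ W y - α y : ℚ) : ℝ) ^ 2)
        (fun _ _ => sq_nonneg _) ((hm x).2 ⟨fun j => hR _ (Or.inr ⟨j, rfl⟩), hx⟩)).trans
        (le_of_mul_le_mul_left (key.trans_eq (mul_zero _).symm) (by positivity))
      have h4 := (pow_eq_zero_iff two_ne_zero).1 (h2.antisymm (sq_nonneg _))
      exact sub_eq_zero.1 (by exact_mod_cast h4)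
    · obtain ⟨h1, h2, h4⟩ := Finset.mem_filter.1 hh
      have h5 : ∀ y, y ∈ S.filter (fun y => y ∈ Zs ξ W h) ↔ y ∈ Zs ξ W h := fun y => by
        rw [Finset.mem_filter, hm]
        exact and_iff_right_of_imp fun hy => ⟨(h2.2 y hy).1, hy.1⟩
      have h6 := hψ h W h4 ⟨h2.1.2.1, h2.1.1, h2.1.2.2.2.1, h2.1.2.2.1,
        fun C a b => h2.1.2.2.2.2 C b a⟩
      simp only [G.ja.symm _ h W] at h6
      rw [← hs.symm W h h2.1, hψ W h hW h2.1, sumZ G.ja h2 h5, sumZ G.ja h2 h5] at h6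
      rw [← Rat.cast_sum, Finset.sum_sub_distrib, h6, Finset.sum_congr rfl fun y hy =>
        hα h y h4 (f3.mem_toFinset.1 h1).1 ((h5 y).1 hy).2]
      simp
  · have h1 := (f2 5 {y} (by simpa using hy) (by simp)).2.1
    rw [Finset.coe_singleton, Finset.card_singleton, pow_one] at h1
    rw [← h1, Set.inter_comm, sq ((p ^ r) ^ 2), ← mul_assoc, ← mul_assoc]
    exact Nat.mul_le_mul_right _ (hc y hy)
  · rw [Finset.mem_filter, hm]
    exact and_iff_right_of_imp fun hy => ⟨((Finset.mem_filter.1 hh).2.1.2 y hy).1, hy.1⟩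

end Pool.Agent.MP_f3836a_nt.PK
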