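import Pool.Agent.MP_f3836a_nt.PK.SpecD

set_option autoImplicit false

/-! From smooth forms to all coprime pairs. -/

namespace Pool.Agent.MP_f3836a_nt.PK

open MvPolynomial IsLocalRing

universe u

namespace DSt4

variable {k K : Type u} [Field k] [Field K] [Algebra k K] {N : ℕ} {ξ : Fin (N + 1) → K}
  {𝒢 : Finset (Pol k N)} {A B B' D h : Pol k N} {n : ℕ}

theorem cop_symm (c : Cop ξ A B) : Cop ξ B A :=
  ⟨c.2.1, c.1, c.2.2.2.1, c.2.2.1, fun C hB hA => c.2.2.2.2 C hA hB⟩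

theorem cop_mul (c : Cop ξ A B) (c' : Cop ξ A B') : Cop ξ A (B * B') :=
  ⟨c.1, c.2.1.mul c'.2.1, c.2.2.1, by rw [map_mul]; exact mul_ne_zero c.2.2.2.1 c'.2.2.2.1,
    fun C hA hB => (C.prime.mem_or_mem hB).elim (c.2.2.2.2 C hA) (c'.2.2.2.2 C hA)⟩

theorem cop_right (c : Cop ξ A (B * B')) (hB : Form B') : Cop ξ A B' :=
  ⟨c.1, hB, c.2.2.1, fun e => c.2.2.2.1 (by rw [map_mul, e, mul_zero]),
    fun C hA h => c.2.2.2.2 C hA (C.P.mul_mem_left _ h)⟩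

theorem not_mem_shear (c : Cop ξ A B) (hB : B.IsHomogeneous n) (hB' : B'.IsHomogeneous n)
    (hD : (D * A).IsHomogeneous n) (e : aeval ξ (B' - B - D * A) = 0) (C : Cv k ξ)
    (hA : A ∈ C.P) : B' ∉ C.P := fun h => by
  have h1 := C.van n _ ((hB'.sub hB).sub hD) e
  have h2 := C.P.sub_mem (C.P.sub_mem h h1) (C.P.mul_mem_left D hA)
  exact c.2.2.2.2 C hA (by convert h2 using 1; ring)

theorem sq_zero {x : Pt k ξ} (hA : Form A) (h : x.Sq A) : eval x.z A = 0 :=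
  (x.lx_mem_max hA).1 (Ideal.pow_le_self two_ne_zero h)

theorem unit_lx {x : Pt k ξ} (hA : Form A) (h : eval x.z A ≠ 0) : IsUnit (x.ctr.lx A) :=
  notMem_maximalIdeal.1 fun e => h ((x.lx_mem_max hA).1 e)

theorem fin_supp (g : Geo k ξ 𝒢) (c : Cop ξ A B) (α : Pt k ξ → ℚ) :
    (Function.support fun x : Pt k ξ => (J x A B : ℚ) * α x).Finite :=
  (g.fin.zs A B c).subset fun x hx => by
    by_contra h
    exact hx (by simp [(g.ja.zero x A B c).2 h])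

theorem sym_sub (g : Geo k ξ 𝒢) {s : Pol k N → Pol k N → ℚ} (hs : Sym ξ s) (α : Pt k ξ → ℚ) :
    Sym ξ fun A B => s A B - ∑ᶠ x : Pt k ξ, (J x A B : ℚ) * α x where
  symm A B c := by simp only [hs.symm A B c, g.ja.symm _ A B]
  mul A B B' c c' := by
    simp only [hs.mul A B B' c c', g.ja.mul _ A B B' c c', Nat.cast_add, add_mul]
    rw [finsum_add_distrib (fin_supp g c α) (fin_supp g c' α)]
    ring
  shear n A B B' D c c' hD h1 h2 h3 e := by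
    simp only [hs.shear n A B B' D c c' hD h1 h2 h3 e, g.ja.shear _ n A B B' D c.1 hD h1 h2 h3 e]

open Classical in
/-- The sum of the intersection numbers over the points where both forms are singular. -/
noncomputable def mu (ξ : Fin (N + 1) → K) (A B : Pol k N) : ℕ :=
  ∑ᶠ x : Pt k ξ, if x.Sq A ∧ x.Sq B then J x A B else 0

open Classical in
theorem mu_symm (g : Geo k ξ 𝒢) (A B : Pol k N) : mu ξ A B = mu ξ B A :=
  finsum_congr fun x => if_congr and_comm (g.ja.symm x A B) rfl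

theorem finsum_lt {α : Type u} {f f' : α → ℕ} (hf : (Function.support f).Finite)
    (h : ∀ y, f' y ≤ f y) {x : α} (hx : f' x < f x) : ∑ᶠ y, f' y < ∑ᶠ y, f y := by
  rw [finsum_eq_sum f hf, finsum_eq_sum_of_support_subset f' (s := hf.toFinset) fun y hy => ?_]
  · refine Finset.sum_lt_sum (fun y _ => h y) ⟨x, ?_, hx⟩
    simp only [Set.Finite.mem_toFinset, Function.mem_support]
    omega
  · have := h y
    simp only [Set.Finite.coe_toFinset, Function.mem_support] at hy ⊢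
    omega

variable {s : Pol k N → Pol k N → ℚ}

theorem base (h4 : Ex4a k ξ) (hne : Nonempty (Pt k ξ)) (hs : Sym ξ s)
    (h0 : ∀ W B, Sm ξ W → Cop ξ W B → s W B = 0) (c : Cop ξ A B)
    (hb : ∀ x : Pt k ξ, ¬ (x.Sq A ∧ x.Sq B)) : s A B = 0 := by
  obtain ⟨n, B', D, hD, h1, h2, h3, c', h5⟩ := h4 A B hne c hb
  have e : aeval ξ (B * B' + D * A - B * B' - D * A) = 0 := by simp
  have c1 := cop_mul c c'
  have c2 : Cop ξ A (B * B' + D * A) :=
    ⟨c.1, h5.1, c.2.2.1, h5.2.2.1, not_mem_shear c1 h1 (h1.add h2) h2 e⟩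
  have e1 := hs.shear n A _ _ D c1 c2 hD h1 (h1.add h2) h2 e
  rw [hs.symm _ _ c2, h0 _ _ h5 (cop_symm c2), hs.mul A B B' c c', hs.symm _ _ c',
    h0 _ _ h3 (cop_symm c'), add_zero] at e1
  exact e1.symm

theorem step (g : Geo k ξ 𝒢) (h4 : Ex4b k ξ) (hs : Sym ξ s)
    (h0 : ∀ W B, Sm ξ W → Cop ξ W B → s W B = 0) (c : Cop ξ A B) {x : Pt k ξ} (hA : x.Sq A)
    (hB : x.Sq B) (hh : Sm ξ h) (hx : eval x.z h = 0) (ch : Cop ξ A h) (ch' : Cop ξ B h)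
    (hy : ∀ y ∈ Zs ξ A B, y ≠ x → eval y.z h ≠ 0) (hJ : J x h A ≤ J x h B) :
    ∃ B', Cop ξ A B' ∧ mu ξ A B' < mu ξ A B ∧ s A B = s A B' := by
  have hxA := sq_zero c.1 hA
  obtain ⟨C, hC, hP⟩ := g.fin.thru x h hh.1 hh.2.2.1 hx
  obtain ⟨n, U, D, B', hD, hB', h1, h2, h3, e, hU, cU, hUy⟩ := h4 A B h x c hh ch
    ⟨hxA, sq_zero c.2.1 hB⟩ hy ((g.sm h C hh hP).s1.le x hC A B c.1 c.2.1
      (fun e => ch.2.2.2.2 C e hP) (fun e => ch'.2.2.2.2 C e hP) hJ)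
  have c1 := cop_mul cU c
  have e' : aeval ξ (h * B' - U * B - -D * A) = 0 := by
    rw [← neg_eq_zero, ← map_neg, ← e]
    congr 1
    ring
  have hn := not_mem_shear c1 h1 h3 (by rw [neg_mul]; exact h2.neg) e'
  obtain ⟨C', -, hP'⟩ := g.fin.thru x A c.1 c.2.2.1 hxA
  have c2 : Cop ξ A (h * B') :=
    ⟨c.1, Form.of h3, c.2.2.1, C'.toCtr.aeval_ne h3 (hn C' hP'), hn⟩
  have c3 := cop_right c2 hB'
  have hJ' : ∀ y ∈ Zs ξ A B, J y A B = J y A h + J y A B' := fun y hy => by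
    have e1 := g.ja.shear y n A _ _ D c.1 hD h3 h1 h2 e
    rwa [g.ja.mul y A U B cU c, g.ja.mul y A h B' ch c3,
      (g.ja.zero y A U cU).2 fun e => hUy y hy e.2, zero_add] at e1
  have hsq : ∀ y : Pt k ξ, y.Sq A → y.Sq B' → y.Sq B := fun y a b => by
    have e1 : y.ctr.lx U * y.ctr.lx B = y.ctr.lx h * y.ctr.lx B' + y.ctr.lx D * y.ctr.lx A := by
      rw [← Ctr.lx_mul y.good hU.1 c.2.1, ← Ctr.lx_mul y.good hh.1 hB',
        ← Ctr.lx_mul y.good hD c.1, ← Ctr.lx_add y.good h3 h2]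
      apply Subtype.ext
      rw [Ctr.coe_lx y.good (Form.of h1), Ctr.coe_lx y.good (Form.of (h3.add h2)),
        y.ctr.lo_eq h1, y.ctr.lo_eq (h3.add h2), ← sub_eq_zero, ← sub_div, ← map_sub,
        sub_add_eq_sub_sub, e, zero_div]
    have e2 : y.ctr.lx U * y.ctr.lx B ∈ maximalIdeal y.ctr.O ^ 2 :=
      e1 ▸ Ideal.add_mem _ (Ideal.mul_mem_left _ _ b) (Ideal.mul_mem_left _ _ a)
    by_cases hU0 : eval y.z U = 0
    · have hB0 : eval y.z B ≠ 0 := fun e => hUy y ⟨sq_zero c.1 a, e⟩ hU0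
      exact absurd ((Ideal.mul_unit_mem_iff_mem _ (unit_lx c.2.1 hB0)).1 e2) (hU.2.2.2 y)
    · exact (Ideal.unit_mul_mem_iff_mem _ (unit_lx hU.1 hU0)).1 e2
  refine ⟨B', c3, finsum_lt (x := x) ((g.fin.zs A B c).subset fun y hy => ?_) (fun y => ?_) ?_, ?_⟩
  · by_contra h
    exact hy (by simp [(g.ja.zero y A B c).2 h])
  · split_ifs with h5 h6
    · have := hJ' y ⟨sq_zero c.1 h6.1, sq_zero c.2.1 h6.2⟩
      omega
    · exact absurd ⟨h5.1, hsq y h5.1 h5.2⟩ h6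
    · exact Nat.zero_le _
    · exact le_rfl
  · have h5 := hJ' x ⟨hxA, sq_zero c.2.1 hB⟩
    have h6 : J x A h ≠ 0 := fun e => (g.ja.zero x A h ch).1 e ⟨hxA, hx⟩
    rw [if_pos (And.intro hA hB)]
    split_ifs <;> omega
  · have e1 := hs.shear n A _ _ D c2 c1 hD h3 h1 h2 e
    rwa [hs.mul A U B cU c, hs.mul A h B' ch c3, hs.symm _ _ cU, hs.symm _ _ ch,
      h0 _ _ hU (cop_symm cU), h0 _ _ hh (cop_symm ch), zero_add, zero_add] at e1

theorem all (g : Geo k ξ 𝒢) (h4 : Ex4a k ξ) (h4' : Ex4b k ξ) (hne : Nonempty (Pt k ξ))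
    (hs : Sym ξ s) (h0 : ∀ W B, Sm ξ W → Cop ξ W B → s W B = 0) (c : Cop ξ A B) : s A B = 0 := by
  induction hm : mu ξ A B using Nat.strong_induction_on generalizing A B with
  | _ m ih =>
    by_cases hb : ∀ x : Pt k ξ, ¬ (x.Sq A ∧ x.Sq B)
    · exact base h4 hne hs h0 c hb
    simp only [not_forall, not_not] at hb
    obtain ⟨x, hA, hB⟩ := hb
    obtain ⟨h, -, hh, hx, hy, hC⟩ := g.ex.e1 2 le_rfl x (Zs ξ A B \ {x}) _
      (g.fin.zs A B c).sdiff (fun e => e.2 rfl)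
      ((g.fin.cv A c.1 c.2.2.1).union (g.fin.cv B c.2.1 c.2.2.2.1))
    have ch : Cop ξ A h := ⟨c.1, hh.1, c.2.2.1, hh.2.2.1, fun C e => hC C (Or.inl e)⟩
    have ch' : Cop ξ B h := ⟨c.2.1, hh.1, c.2.2.2.1, hh.2.2.1, fun C e => hC C (Or.inr e)⟩
    rcases le_total (J x h A) (J x h B) with hJ | hJ
    · obtain ⟨B', c', h1, h2⟩ := step g h4' hs h0 c hA hB hh hx ch ch'
        (fun y a b => hy y ⟨a, b⟩) hJ
      rw [h2, ih _ (hm ▸ h1) c' rfl]
    · obtain ⟨B', c', h1, h2⟩ := step g h4' hs h0 (cop_symm c) hB hA hh hx ch' ch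
        (fun y a b => hy y ⟨a.symm, b⟩) hJ
      rw [hs.symm _ _ c, h2, ih _ (by rwa [← hm, mu_symm g A B]) c' rfl]

end DSt4

theorem rSt4 : RSt4.{u} := by
  intro k K _ _ _ _ p _ _ N ξ 𝒢 _ g h4 h4' hne s α hs h0 A B c
  exact sub_eq_zero.1 (DSt4.all g h4 h4' hne (DSt4.sym_sub g hs α)
    (fun W B hW c => sub_eq_zero.2 (h0 W B hW c)) c)

end Pool.Agent.MP_f3836a_nt.PK
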