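import Pool.Agent.MP_f3836a_nt.PK.SpecD

set_option autoImplicit false

/-! The symbol attached to an additive functional is symmetric, additive, shear invariant. -/

namespace Pool.Agent.MP_f3836a_nt.PK

open MvPolynomial

universe u

namespace DSym

variable {k K : Type u} [Field k] [Field K] [Algebra k K] {N : ℕ} {ξ : Fin (N + 1) → K}
  {lam : ∀ C : Cv k ξ, C.κ → ℚ}

theorem lam_one (h : Lam lam) (C : Cv k ξ) : lam C 1 = 0 := by
  have := h.mul C 1 1 one_ne_zero one_ne_zero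
  rw [mul_one] at this
  linarith

theorem lam_pow (h : Lam lam) (C : Cv k ξ) {f : C.κ} (hf : f ≠ 0) (n : ℕ) :
    lam C (f ^ n) = n * lam C f := by
  induction n with
  | zero => simp [lam_one h]
  | succ n ih =>
    rw [pow_succ, h.mul C _ _ (pow_ne_zero _ hf) hf, ih]
    push_cast
    ring

theorem lam_zpow (h : Lam lam) (C : Cv k ξ) {f : C.κ} (hf : f ≠ 0) {n : ℤ} (hn : 0 ≤ n) :
    lam C (f ^ n) = n * lam C f := by
  obtain ⟨m, rfl⟩ := Int.eq_ofNat_of_zero_le hn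
  rw [zpow_natCast, lam_pow h C hf, Int.cast_natCast]

theorem tL (h : Lam lam) (t : TameA k ξ) (C : Cv k ξ) {f f' g : K} (hf : f ≠ 0) (hf' : f' ≠ 0)
    (hg : g ≠ 0) : lam C (C.tame (f * f') g) = lam C (C.tame f g) + lam C (C.tame f' g) := by
  rw [t.mulL C f f' g hf hf' hg, h.mul C _ _ (t.ne C _ _ hf hg) (t.ne C _ _ hf' hg)]

theorem tR (h : Lam lam) (t : TameA k ξ) (C : Cv k ξ) {f g g' : K} (hf : f ≠ 0) (hg : g ≠ 0)
    (hg' : g' ≠ 0) : lam C (C.tame f (g * g')) = lam C (C.tame f g) + lam C (C.tame f g') := by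
  rw [t.mulR C f g g' hf hg hg', h.mul C _ _ (t.ne C _ _ hf hg) (t.ne C _ _ hf hg')]

theorem tS (h : Lam lam) (t : TameA k ξ) (C : Cv k ξ) {f g : K} (hf : f ≠ 0) (hg : g ≠ 0) :
    lam C (C.tame f g) = - lam C (C.tame g f) := by
  have := h.mul C _ _ (t.ne C _ _ hf hg) (t.ne C _ _ hg hf)
  rw [t.swap C f g hf hg, lam_one h] at this
  linarith

theorem tD (h : Lam lam) (t : TameA k ξ) (C : Cv k ξ) {f : K} (hf : f ≠ 0) :
    lam C (C.tame f f) = 0 := by
  have := tS h t C hf hf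
  linarith

theorem tRpow (h : Lam lam) (t : TameA k ξ) (C : Cv k ξ) {f g : K} (hf : f ≠ 0) (hg : g ≠ 0)
    (n : ℕ) : lam C (C.tame f (g ^ n)) = n * lam C (C.tame f g) := by
  induction n with
  | zero =>
    have := tR h t C hf (one_ne_zero (α := K)) (one_ne_zero (α := K))
    rw [mul_one] at this
    rw [pow_zero, Nat.cast_zero, zero_mul]
    linarith
  | succ n ih =>
    rw [pow_succ, tR h t C hf (pow_ne_zero _ hg) hg, ih]
    push_cast
    ring

/-- expansion of the symbol of `a ρ ^ α` and `b ρ ^ β` -/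
theorem expand (h : Lam lam) (t : TameA k ξ) (C : Cv k ξ) {a b ρ : K} (ha : a ≠ 0) (hb : b ≠ 0)
    (hρ : ρ ≠ 0) (α β : ℕ) :
    lam C (C.tame (a * ρ ^ α) (b * ρ ^ β)) =
      lam C (C.tame a b) + β * lam C (C.tame a ρ) - α * lam C (C.tame b ρ) := by
  have h1 := pow_ne_zero α hρ
  have h2 := pow_ne_zero β hρ
  rw [tL h t C ha h1 (mul_ne_zero hb h2), tR h t C ha hb h2, tR h t C h1 hb h2,
    tRpow h t C ha hρ, tRpow h t C h1 hρ, tS h t C h1 hb, tS h t C h1 hρ, tRpow h t C hb hρ,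
    tRpow h t C hρ hρ, tD h t C hρ]
  ring

theorem v_zero (va : VA k ξ) (C : Cv k ξ) {A : Pol k N} (hA : Form A) (h0 : aeval ξ A ≠ 0)
    (hP : A ∉ C.P) : C.v (C.lo A) = 0 := by
  obtain ⟨h1, h2⟩ := va.form C A hA h0
  by_contra hne
  exact hP (h2.mp (lt_of_le_of_ne h1 (Ne.symm hne)))

theorem res_ne (C : Cv k ξ) {A : Pol k N} (hA : Form A) (hP : A ∉ C.P) : C.res (C.lo A) ≠ 0 :=
  fun h0 => hP ((C.res_lo_eq_zero hA).mp h0)

theorem unit_lo (h : Lam lam) (t : TameA k ξ) (va : VA k ξ) (C : Cv k ξ) {A B : Pol k N}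
    (hA : Form A) (hB : Form B) (hA0 : aeval ξ A ≠ 0) (hB0 : aeval ξ B ≠ 0) (hP : A ∉ C.P) :
    lam C (C.tame (C.lo A) (C.lo B)) = C.v (C.lo B) * lam C (C.res (C.lo A)) := by
  rw [t.unit C _ _ (Ctr.lo_ne C.good hA0) (Ctr.lo_ne C.good hB0) (v_zero va C hA hA0 hP),
    lam_zpow h C (res_ne C hA hP) (va.form C B hB hB0).1]

theorem tame_lo (h : Lam lam) (t : TameA k ξ) (va : VA k ξ) (C : Cv k ξ) {A B : Pol k N}
    (hc : Cop ξ A B) :
    lam C (C.tame (C.lo A) (C.lo B)) =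
      C.v (C.lo B) * lam C (C.res (C.lo A)) - C.v (C.lo A) * lam C (C.res (C.lo B)) := by
  obtain ⟨hA, hB, hA0, hB0, hAB⟩ := hc
  by_cases hP : A ∈ C.P
  · have hQ := hAB C hP
    rw [tS h t C (Ctr.lo_ne C.good hA0) (Ctr.lo_ne C.good hB0), unit_lo h t va C hB hA hB0 hA0 hQ,
      v_zero va C hB hB0 hQ]
    simp
  · rw [unit_lo h t va C hA hB hA0 hB0 hP, v_zero va C hA hA0 hP]
    simp

theorem aeval_eq (C : Cv k ξ) (A : Pol k N) :
    aeval ξ A = C.lo A * ξ C.idx ^ A.totalDegree := by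
  rw [Ctr.lo, div_mul_cancel₀ _ (pow_ne_zero _ (Ctr.xi_ne C.good))]

theorem finS (va : VA k ξ) (fi : FinA k ξ) {A : Pol k N} (hA : Form A) (h0 : aeval ξ A ≠ 0)
    (g : Cv k ξ → ℚ) :
    Function.HasFiniteSupport fun C : Cv k ξ => (C.v (C.lo A) : ℚ) * g C := by
  refine (fi.cv A hA h0).subset fun C hC => ?_
  by_contra hP
  apply hC
  simp only [v_zero va C hA h0 hP, Int.cast_zero, zero_mul]

theorem finB (h : Lam lam) (t : TameA k ξ) (va : VA k ξ) (fi : FinA k ξ) {A : Pol k N}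
    (hA : Form A) (h0 : aeval ξ A ≠ 0) (c : ℚ) :
    Function.HasFiniteSupport fun C : Cv k ξ => c * lam C (C.tame (C.lo A) (ξ C.idx)) := by
  refine ((fi.cv A hA h0).union (Set.finite_iUnion fun i => fi.v (ξ i))).subset fun C hC => ?_
  by_contra hn
  rw [Set.mem_union, not_or, Set.mem_iUnion, not_exists] at hn
  apply hC
  have h1 : C.v (ξ C.idx) = 0 := by
    by_contra hne
    exact hn.2 C.idx hne
  simp only [t.unit C _ _ (Ctr.lo_ne C.good h0) (Ctr.xi_ne C.good) (v_zero va C hA h0 hn.1), h1,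
    zpow_zero, lam_one h, mul_zero]

theorem mul_bb (A : Pol k N) (c : ℚ) :
    c * bb lam A = ∑ᶠ C : Cv k ξ, c * lam C (C.tame (C.lo A) (ξ C.idx)) :=
  mul_finsum _ _

theorem symm (h : Lam lam) (t : TameA k ξ) (va : VA k ξ) (fi : FinA k ξ) {A B : Pol k N}
    (hc : Cop ξ A B) : ss lam A B = ss lam B A := by
  have key := h.tame _ _ hc.2.2.1 hc.2.2.2.1
  have e : ∀ C : Cv k ξ, lam C (C.tame (aeval ξ A) (aeval ξ B)) =
      ((C.v (C.lo B) : ℚ) * lam C (C.res (C.lo A)) - C.v (C.lo A) * lam C (C.res (C.lo B))) +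
        ((B.totalDegree : ℚ) * lam C (C.tame (C.lo A) (ξ C.idx)) -
          A.totalDegree * lam C (C.tame (C.lo B) (ξ C.idx))) := by
    intro C
    rw [aeval_eq C A, aeval_eq C B, expand h t C (Ctr.lo_ne C.good hc.2.2.1)
      (Ctr.lo_ne C.good hc.2.2.2.1) (Ctr.xi_ne C.good), tame_lo h t va C hc]
    ring
  obtain ⟨hA, hB, hA0, hB0, -⟩ := hc
  have f1 := finS va fi hB hB0 fun C => lam C (C.res (C.lo A))
  have f2 := finS va fi hA hA0 fun C => lam C (C.res (C.lo B))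
  have f3 := finB h t va fi hA hA0 B.totalDegree
  have f4 := finB h t va fi hB hB0 A.totalDegree
  have f5 : Function.HasFiniteSupport fun C : Cv k ξ =>
      (C.v (C.lo B) : ℚ) * lam C (C.res (C.lo A)) - C.v (C.lo A) * lam C (C.res (C.lo B)) :=
    f1.sub f2
  have f6 : Function.HasFiniteSupport fun C : Cv k ξ =>
      (B.totalDegree : ℚ) * lam C (C.tame (C.lo A) (ξ C.idx)) -
        A.totalDegree * lam C (C.tame (C.lo B) (ξ C.idx)) := f3.sub f4
  rw [finsum_congr e, finsum_add_distrib f5 f6, finsum_sub_distrib f1 f2,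
    finsum_sub_distrib f3 f4, ← mul_bb, ← mul_bb] at key
  unfold ss SS
  linarith

theorem mul (h : Lam lam) (va : VA k ξ) (fi : FinA k ξ) {A B B' : Pol k N}
    (hc : Cop ξ A B) (hc' : Cop ξ A B') : ss lam A (B * B') = ss lam A B + ss lam A B' := by
  obtain ⟨hA, hB, hA0, hB0, hAB⟩ := hc
  obtain ⟨-, hB', -, hB0', hAB'⟩ := hc'
  have hne : B * B' ≠ 0 := fun h0 => mul_ne_zero hB0 hB0' (by rw [← map_mul, h0, map_zero])
  have hd : (B * B').totalDegree = B.totalDegree + B'.totalDegree :=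
    (IsHomogeneous.mul hB hB').totalDegree hne
  have e : ∀ C : Cv k ξ, (C.v (C.lo A) : ℚ) * lam C (C.res (C.lo (B * B'))) =
      C.v (C.lo A) * lam C (C.res (C.lo B)) + C.v (C.lo A) * lam C (C.res (C.lo B')) := by
    intro C
    by_cases hP : A ∈ C.P
    · rw [C.toCtr.lo_mul hB hB', C.res_mul (Ctr.lo_mem C.good hB) (Ctr.lo_mem C.good hB'),
        h.mul C _ _ (res_ne C hB (hAB C hP)) (res_ne C hB' (hAB' C hP)), mul_add]
    · rw [v_zero va C hA hA0 hP]
      simp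
  unfold ss SS
  rw [finsum_congr e, finsum_add_distrib (finS va fi hA hA0 _) (finS va fi hA hA0 _), hd]
  push_cast
  ring

theorem shear (va : VA k ξ) {n : ℕ} {A B B' D : Pol k N} (hc : Cop ξ A B) (hc' : Cop ξ A B')
    (hB : B.IsHomogeneous n) (hB' : B'.IsHomogeneous n) (hD : (D * A).IsHomogeneous n)
    (h0 : aeval ξ (B' - B - D * A) = 0) : ss lam A B' = ss lam A B := by
  have d1 : B.totalDegree = n :=
    hB.totalDegree fun hz => hc.2.2.2.1 (by rw [hz, map_zero])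
  have d2 : B'.totalDegree = n :=
    hB'.totalDegree fun hz => hc'.2.2.2.1 (by rw [hz, map_zero])
  have e : ∀ C : Cv k ξ, (C.v (C.lo A) : ℚ) * lam C (C.res (C.lo B')) =
      C.v (C.lo A) * lam C (C.res (C.lo B)) := by
    intro C
    by_cases hP : A ∈ C.P
    · have h1 : B' - B ∈ C.P := by
        have h2 := C.van n _ ((hB'.sub hB).sub hD) h0
        simpa using C.P.add_mem h2 (C.P.mul_mem_left D hP)
      have h3 : C.lo B' = C.lo (B' - B) + C.lo B := by
        rw [← C.toCtr.lo_add (hB'.sub hB) hB, sub_add_cancel]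
      rw [h3, C.res_add (Ctr.lo_mem C.good (Form.of (hB'.sub hB))) (Ctr.lo_mem C.good hc.2.1),
        (C.res_lo_eq_zero (Form.of (hB'.sub hB))).mpr h1, zero_add]
    · rw [v_zero va C hc.1 hc.2.2.1 hP]
      simp
  unfold ss SS
  rw [finsum_congr e, d1, d2]

end DSym

theorem rSym : RSym.{u} := by
  intro k K _ _ _ _ p _ _ N ξ 𝒢 _ geo t lam h
  exact ⟨fun A B hc => DSym.symm h t geo.va geo.fin hc,
    fun A B B' hc hc' => DSym.mul h geo.va geo.fin hc hc',
    fun n A B B' D hc hc' _ hB hB' hD h0 => DSym.shear geo.va hc hc' hB hB' hD h0⟩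

end Pool.Agent.MP_f3836a_nt.PK

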