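import Pool.Agent.MP_f3836a_nt.PK.SpecD

set_option autoImplicit false

/-! The tame symbol and functionals that kill it. -/

namespace Pool.Agent.MP_f3836a_nt.PK

universe u

namespace DTame

variable {k K : Type u} [Field k] [Field K] [Algebra k K] {N : ℕ} {ξ : Fin (N + 1) → K}
  (h : VA k ξ) (C : Cv k ξ)

theorem res_one : C.res 1 = 1 := (C.res_of_mem 1).trans (map_one _)

include h

theorem v_one : C.v (1 : K) = 0 := by
  have := h.mul C 1 1 one_ne_zero one_ne_zero
  rw [mul_one] at this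
  omega

theorem v_inv {f : K} (hf : f ≠ 0) : C.v f⁻¹ = -C.v f := by
  have := h.mul C f f⁻¹ hf (inv_ne_zero hf)
  rw [mul_inv_cancel₀ hf, v_one h] at this
  omega

theorem v_zpow {f : K} (hf : f ≠ 0) (n : ℤ) : C.v (f ^ n) = n * C.v f := by
  induction n using Int.induction_on with
  | zero => rw [zpow_zero, v_one h, zero_mul]
  | succ n ih => rw [zpow_add_one₀ hf, h.mul C _ _ (zpow_ne_zero _ hf) hf, ih]; ring
  | pred n ih =>
    rw [zpow_sub_one₀ hf, h.mul C _ _ (zpow_ne_zero _ hf) (inv_ne_zero hf), ih, v_inv h C hf]; ring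

theorem v_neg_one : C.v (-1 : K) = 0 := by
  have := h.mul C (-1) (-1) (neg_ne_zero.2 one_ne_zero) (neg_ne_zero.2 one_ne_zero)
  rw [neg_one_mul, neg_neg, v_one h] at this
  omega

theorem res_mul {f g : K} (hf : f ≠ 0) (hg : g ≠ 0) (a : C.v f = 0) (b : C.v g = 0) :
    C.res (f * g) = C.res f * C.res g :=
  C.res_mul ((h.mem C f hf).2 a.ge) ((h.mem C g hg).2 b.ge)

theorem res_ne {f : K} (hf : f ≠ 0) (a : C.v f = 0) : C.res f ≠ 0 := fun e =>
  ((h.pos C f hf ((h.mem C f hf).2 a.ge)).2 e).ne' a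

theorem res_zpow {f : K} (hf : f ≠ 0) (a : C.v f = 0) (n : ℤ) : C.res (f ^ n) = C.res f ^ n := by
  have h0 : ∀ n : ℤ, C.v (f ^ n) = 0 := fun n => by rw [v_zpow h C hf, a, mul_zero]
  have h1 := res_ne h C hf a
  induction n using Int.induction_on with
  | zero => rw [zpow_zero, zpow_zero, res_one]
  | succ n ih => rw [zpow_add_one₀ hf, res_mul h C (zpow_ne_zero _ hf) hf (h0 _) a, ih,
      zpow_add_one₀ h1]
  | pred n ih =>
    rw [zpow_sub_one₀ h1, ← ih, eq_mul_inv_iff_mul_eq₀ h1,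
      ← res_mul h C (zpow_ne_zero _ hf) hf (h0 _) a, ← zpow_add_one₀ hf, sub_add_cancel]

theorem tt {f g : K} (hf : f ≠ 0) (hg : g ≠ 0) :
    (-1) ^ (C.v f * C.v g) * f ^ C.v g / g ^ C.v f ≠ 0 ∧
      C.v ((-1) ^ (C.v f * C.v g) * f ^ C.v g / g ^ C.v f) = 0 := by
  have h1 : (-1 : K) ≠ 0 := neg_ne_zero.2 one_ne_zero
  have h2 := mul_ne_zero (zpow_ne_zero (C.v f * C.v g) h1) (zpow_ne_zero (C.v g) hf)
  refine ⟨div_ne_zero h2 (zpow_ne_zero _ hg), ?_⟩
  rw [div_eq_mul_inv, h.mul C _ _ h2 (inv_ne_zero (zpow_ne_zero _ hg)),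
    h.mul C _ _ (zpow_ne_zero _ h1) (zpow_ne_zero _ hf), v_inv h C (zpow_ne_zero _ hg),
    v_zpow h C h1, v_zpow h C hf, v_zpow h C hg, v_neg_one h]
  ring

theorem swap {f g : K} (hf : f ≠ 0) (hg : g ≠ 0) : C.tame f g * C.tame g f = 1 := by
  rw [Cv.tame, Cv.tame, ← res_mul h C (tt h C hf hg).1 (tt h C hg hf).1 (tt h C hf hg).2
    (tt h C hg hf).2, ← res_one C, mul_comm (C.v g)]
  congr 1
  have h1 : ((-1 : K) ^ (C.v f * C.v g)) * (-1) ^ (C.v f * C.v g) = 1 := by
    rw [← mul_zpow, neg_one_mul, neg_neg, one_zpow]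
  have h2 := zpow_ne_zero (C.v g) hf
  have h3 := zpow_ne_zero (C.v f) hg
  field_simp
  linear_combination h1

theorem unit {f : K} (g : K) (hf : f ≠ 0) (a : C.v f = 0) : C.tame f g = C.res f ^ C.v g := by
  rw [Cv.tame, a, zero_mul, zpow_zero, zpow_zero, one_mul, div_one, res_zpow h C hf a]

omit h in
theorem exists_hom {A : Type u} [AddCommGroup A] (a : A) (ha : ∀ n : ℕ, 0 < n → n • a ≠ 0) :
    ∃ l : A →+ ℚ, l a ≠ 0 := by
  obtain ⟨l, hl⟩ := (Module.Baer.of_divisible ℚ).extension_property_addMonoidHom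
    (zmultiplesHom A a) ((injective_iff_map_eq_zero _).2 fun n hn => by
      by_contra h0
      exact ha n.natAbs (Int.natAbs_pos.2 h0) (natAbs_nsmul_eq_zero.2 hn)) (Int.castAddHom ℚ)
  refine ⟨l, ?_⟩
  have := DFunLike.congr_fun hl 1
  simp only [AddMonoidHom.comp_apply, zmultiplesHom_apply, one_zsmul] at this
  rw [this]
  simp

end DTame

open DTame

theorem rTame : RTame.{u} := by
  intro k K _ _ _ _ p _ _ N ξ 𝒢 _ G
  have h := G.va
  have h1 : (-1 : K) ≠ 0 := neg_ne_zero.2 one_ne_zero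
  refine ⟨fun C f g hf hg => res_ne h C (tt h C hf hg).1 (tt h C hf hg).2,
    fun C f f' g hf hf' hg => ?_, fun C f g g' hf hg hg' => ?_, fun C f g => swap h C,
    fun C f hf => (sq _).trans (swap h C hf hf), fun C f g hf _ => unit h C g hf,
    fun f g hf _ => ((G.fin.v f).union (G.fin.v g)).subset fun C hC => ?_⟩
  · rw [Cv.tame, Cv.tame, Cv.tame, ← res_mul h C (tt h C hf hg).1 (tt h C hf' hg).1
      (tt h C hf hg).2 (tt h C hf' hg).2, h.mul C f f' hf hf', add_mul, zpow_add₀ h1, zpow_add₀ hg,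
      mul_zpow]
    congr 1
    ring
  · rw [Cv.tame, Cv.tame, Cv.tame, ← res_mul h C (tt h C hf hg).1 (tt h C hf hg').1
      (tt h C hf hg).2 (tt h C hf hg').2, h.mul C g g' hg hg', mul_add, zpow_add₀ h1, zpow_add₀ hf,
      mul_zpow]
    congr 1
    ring
  · by_contra h0
    simp only [Set.mem_union, Set.mem_ofPred_eq, not_or, not_not] at h0
    exact hC (by rw [unit h C g hf h0.1, h0.2, zpow_zero])

theorem rDual : RDual.{u} := by
  intro k K _ _ _ _ p _ _ N ξ 𝒢 _ _ T φ hφ hfin hn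
  classical
  let H : Subgroup (∀ C : Cv k ξ, (C.κ)ˣ) :=
    { carrier := {ψ | IsBdry k ξ fun C => ψ C}
      one_mem' := ⟨[], by simp, fun C => rfl⟩
      mul_mem' := by
        rintro a b ⟨l, h1, h2⟩ ⟨l', h3, h4⟩
        refine ⟨l ++ l', fun x hx => (List.mem_append.1 hx).elim (h1 x) (h3 x), fun C => ?_⟩
        rw [List.map_append, List.prod_append, ← h2 C, ← h4 C]
        rfl
      inv_mem' := by
        rintro a ⟨l, h1, h2⟩
        refine ⟨l.map Prod.swap, fun x hx => ?_, fun C => ?_⟩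
        · obtain ⟨y, hy, rfl⟩ := List.mem_map.1 hx
          exact (h1 y hy).symm
        · change (((a C)⁻¹ : (C.κ)ˣ) : C.κ) = _
          rw [Units.val_inv_eq_inv_val, show (a C : C.κ) = _ from h2 C, List.prod_inv, List.map_map,
            List.map_map]
          exact congrArg List.prod (List.map_congr_left fun x hx =>
            (eq_inv_of_mul_eq_one_right (T.swap C _ _ (h1 x hx).1 (h1 x hx).2)).symm) }
  obtain ⟨l, hl⟩ := exists_hom
    (Additive.ofMul (QuotientGroup.mk' H fun C => Units.mk0 (φ C) (hφ C))) fun n h0 e => by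
      rw [← ofMul_pow, ← map_pow] at e
      exact hn n h0 ((QuotientGroup.eq_one_iff _).1 e)
  let L : (∀ C : Cv k ξ, (C.κ)ˣ) →* Multiplicative ℚ :=
    l.toMultiplicativeRight.comp (QuotientGroup.mk' H)
  let lam : ∀ C : Cv k ξ, C.κ → ℚ := fun C f =>
    if h : f = 0 then 0 else (L (Pi.mulSingle C (Units.mk0 f h))).toAdd
  have key : ∀ (ψ : ∀ C : Cv k ξ, C.κ) (h0 : ∀ C, ψ C ≠ 0), {C | ψ C ≠ 1}.Finite →
      ∑ᶠ C, lam C (ψ C) = (L fun C => Units.mk0 (ψ C) (h0 C)).toAdd := by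
    intro ψ h0 hf
    rw [finsum_eq_sum_of_support_subset (s := hf.toFinset)]
    · simp only [lam, dif_neg (h0 _), ← toAdd_prod, ← map_prod]
      congr 2
      funext D
      rw [Finset.prod_apply, Finset.prod_pi_mulSingle D fun C => Units.mk0 (ψ C) (h0 C)]
      split_ifs with hD
      · rfl
      · exact Units.ext (by simpa using hD : ψ D = 1).symm
    · intro C hC
      by_contra h1
      have h2 : ψ C = 1 := by simpa using h1
      exact hC (by simp [lam, h2])
  refine ⟨lam, ⟨fun C f g hf hg => ?_, fun f g hf hg => ?_⟩, ?_⟩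
  · simp only [lam, dif_neg hf, dif_neg hg, dif_neg (mul_ne_zero hf hg), Units.mk0_mul,
      Pi.mulSingle_mul, map_mul, toAdd_mul]
  · rw [key _ (fun C => T.ne C f g hf hg) (T.fin f g hf hg)]
    have : QuotientGroup.mk' H (fun C => Units.mk0 _ (T.ne C f g hf hg)) = 1 :=
      (QuotientGroup.eq_one_iff _).2 ⟨[(f, g)], by simp [hf, hg], fun C => by simp⟩
    rw [MonoidHom.comp_apply, this, map_one, toAdd_one]
  · rw [key φ hφ hfin]
    exact hl

end Pool.Agent.MP_f3836a_nt.PK
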