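import Pool.Agent.MP_f3836a_nt.PK.MainR
import Pool.Agent.MP_f3836a_nt.PK.AllA
import Pool.Agent.MP_f3836a_nt.PK.BReg
import Pool.Agent.MP_f3836a_nt.PK.BGenS
import Pool.Agent.MP_f3836a_nt.PK.BJetF
import Pool.Agent.MP_f3836a_nt.PK.BGen1
import Pool.Agent.MP_f3836a_nt.PK.BGen2
import Pool.Agent.MP_f3836a_nt.PK.BCmb
import Pool.Agent.MP_f3836a_nt.PK.BExS
import Pool.Agent.MP_f3836a_nt.PK.BCnt
import Pool.Agent.MP_f3836a_nt.PK.BJetG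
import Pool.Agent.MP_f3836a_nt.PK.BGenA
import Pool.Agent.MP_f3836a_nt.PK.CCvA
import Pool.Agent.MP_f3836a_nt.PK.CVA
import Pool.Agent.MP_f3836a_nt.PK.CFinA
import Pool.Agent.MP_f3836a_nt.PK.CJA
import Pool.Agent.MP_f3836a_nt.PK.CTanA
import Pool.Agent.MP_f3836a_nt.PK.CJetA
import Pool.Agent.MP_f3836a_nt.PK.CSm1
import Pool.Agent.MP_f3836a_nt.PK.CSmF
import Pool.Agent.MP_f3836a_nt.PK.CSm3
import Pool.Agent.MP_f3836a_nt.PK.CBtA
import Pool.Agent.MP_f3836a_nt.PK.CExA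
import Pool.Agent.MP_f3836a_nt.PK.CEx4b
import Pool.Agent.MP_f3836a_nt.PK.CConU
import Pool.Agent.MP_f3836a_nt.PK.CConL
import Pool.Agent.MP_f3836a_nt.PK.CConN
import Pool.Agent.MP_f3836a_nt.PK.CConA
import Pool.Agent.MP_f3836a_nt.PK.DTame
import Pool.Agent.MP_f3836a_nt.PK.DSym
import Pool.Agent.MP_f3836a_nt.PK.DRep
import Pool.Agent.MP_f3836a_nt.PK.DLast
import Pool.Agent.MP_f3836a_nt.PK.DVFA
import Pool.Agent.MP_f3836a_nt.PK.DGood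
import Pool.Agent.MP_f3836a_nt.PK.DSig
import Pool.Agent.MP_f3836a_nt.PK.DPen1
import Pool.Agent.MP_f3836a_nt.PK.DPen2
import Pool.Agent.MP_f3836a_nt.PK.DCnt
import Pool.Agent.MP_f3836a_nt.PK.DSpec
import Pool.Agent.MP_f3836a_nt.PK.DSt3
import Pool.Agent.MP_f3836a_nt.PK.DSt3b
import Pool.Agent.MP_f3836a_nt.PK.DSt4

set_option autoImplicit false

/-! All rows. -/

namespace Pool.Agent.MP_f3836a_nt.PK

universe u

theorem pCntS : RCntS.{u} := rCntS rExS rGenS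

theorem pCntM : RCntM.{u} :=
  rCntM rExM rExN (rGen1 rJetF rCmb rSepF) (rGen2 rJetF rCmb rSepF) (rGen3 rJetF rCmb rSep0)

theorem rowsC : RowsC.{u} :=
  ⟨rGens, rCvA rReg, rVA rReg, rFinA rReg, rJA rReg, rTanA rReg, rJetA rReg, rSm1 rReg,
    rSmF rExN rJetF, rSm2, rSm3, rBtA rReg (rJetG rExN) pCntS rGenA,
    rTrA (rJetG rExN) pCntS rGenA, rExA rGenA rSep0, rEx4a rGenA, rEx4b rGenA, rConU,
    rConL rReg (rCvA rReg) rSep0, rConN, rConA⟩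

theorem rowsD : RowsD.{u} :=
  ⟨rTame, rDual, rSym, rRep, rLast, rVFA rSep0, rSmCnt, rGoodCnt pCntM, rSigA, rPen1, rPen2, rCnt,
    rPts, rSpec, rSt3 rTow, rSt3b rTow, rSt4⟩

end Pool.Agent.MP_f3836a_nt.PK
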