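import Pool.Agent.MP_f3836a_nt.PK.SpecE
import Pool.Agent.MP_f3836a_nt.PK.Main

set_option autoImplicit false

/-! The theorem over a subfield of the algebraic closure of a finite field, dual form. -/

namespace Pool.Agent.MP_f3836a_nt.PK

open MvPolynomial IsLocalRing

universe u

namespace ESurfL

theorem addv_one {κ : Type u} [Field κ] {lam : κ → ℚ} (h : Addv lam) : lam 1 = 0 := by
  have := h 1 1 one_ne_zero one_ne_zero
  rw [mul_one] at this
  linarith

theorem addv_zpow {κ : Type u} [Field κ] {lam : κ → ℚ} (h : Addv lam) {x : κ} {e : ℤ}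
    (hx : x ^ e ≠ 0) : lam (x ^ e) = e * lam x := by
  by_cases h0 : x = 0
  · have he : e = 0 := by
      by_contra he
      exact hx (by rw [h0, zero_zpow e he])
    rw [he, zpow_zero, addv_one h, Int.cast_zero, zero_mul]
  clear hx
  induction e using Int.induction_on with
  | zero => rw [zpow_zero, addv_one h, Int.cast_zero, zero_mul]
  | succ n ih =>
    rw [zpow_add_one₀ h0, h _ _ (zpow_ne_zero _ h0) h0, ih]
    push_cast
    ring
  | pred n ih =>
    have h1 := h (x ^ (-(n : ℤ) - 1)) x (zpow_ne_zero _ h0) h0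
    rw [← zpow_add_one₀ h0, sub_add_cancel, ih] at h1
    push_cast at h1 ⊢
    linarith

theorem regroup {I J : Type u} (b : J → I) (G : J → ℚ) (hG : (Function.support G).Finite) :
    ∑ᶠ i, ∑ᶠ (j) (_ : b j = i), G j = ∑ᶠ j, G j := by
  classical
  have h1 : ∀ i, ∑ᶠ (j) (_ : b j = i), G j = ∑ j ∈ hG.toFinset, if b j = i then G j else 0 := by
    intro i
    simp only [finsum_eq_if]
    refine finsum_eq_sum_of_support_subset _ fun j hj => ?_
    rw [Set.Finite.coe_toFinset]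
    exact fun h => hj (by simp [h])
  simp only [h1]
  rw [finsum_sum_comm, finsum_eq_sum G hG]
  · refine Finset.sum_congr rfl fun j _ => ?_
    rw [finsum_eq_single _ (b j) fun i hi => if_neg hi.symm, if_pos rfl]
  · exact fun j _ => (Set.finite_singleton (b j)).subset fun i hi => by
      by_contra h
      exact hi (if_neg fun e => h e.symm)

theorem dv_of {k K : Type u} [Field k] [Field K] [Algebra k K] {N : ℕ} {ξ : Fin (N + 1) → K}
    (hX : IsSurf k ξ) (cv : CvA k ξ) (C : Cv k ξ) : DV C.O (residue C.O) where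
  dvr := cv.dvr C
  frac f := by
    obtain ⟨n, A, B, hA, hB, h0, h⟩ := hX.gen f
    refine ⟨C.lx A, C.lx B, ?_, ?_⟩
    · rw [Ctr.coe_lx C.good (Form.of hB)]
      exact Ctr.lo_ne C.good h0
    · rw [Ctr.coe_lx C.good (Form.of hA), Ctr.coe_lx C.good (Form.of hB), C.lo_eq hA, C.lo_eq hB,
        ← h, mul_div_assoc]
  surj := residue_surjective
  ker a := by rw [residue_eq_zero_iff, mem_maximalIdeal, mem_nonunits_iff]

theorem lift {L κ : Type u} [Field L] [Field κ] {O : Subring L} {r : O →+* κ} (h : DV O r)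
    (h' : DVA O r) {x : κ} (hx : x ≠ 0) :
    ∃ a : L, a ≠ 0 ∧ ordR O a = 0 ∧ resR O r a = x ∧ (x = 1 → a = 1) := by
  obtain ⟨a, ha, h1⟩ : ∃ a : O, r a = x ∧ (x = 1 → a = 1) := by
    by_cases h1 : x = 1
    · exact ⟨1, by rw [map_one, h1], fun _ => rfl⟩
    · obtain ⟨a, ha⟩ := h.surj x
      exact ⟨a, ha, fun h2 => absurd h2 h1⟩
  have hu : IsUnit a := by
    by_contra hu
    exact hx (ha ▸ (h.ker a).2 hu)
  refine ⟨a, (h'.unit' a hu).1, (h'.unit' a hu).2, ?_, fun h2 => by rw [h1 h2]; rfl⟩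
  rw [resR, dif_pos a.2, ha]

end ESurfL

open ESurfL in
theorem rSurfL : RBC.{u} → RYA.{u} → RFlA.{u} → RSurfK.{u} → ROvA.{u} → RPull.{u} → RFinI.{u} →
    RDesc.{u} → RDVA.{u} → RSurfL.{u} := by
  intro hBC hYA hFl hSK hOv hPull hFinI hDesc hDVA F K₀ _ _ _ p _ _ N η hF hX
  obtain ⟨k, K, _, _, _, _, _, _, _, _, _, _, _, hk, hcl⟩ := hBC F K₀ p hF
  have ya := hYA F K₀ N η hX
  have fl := hFl F K₀ k K p N η hk hcl hX
  have surf := hSK F K₀ k K p N η hk hcl hX fl
  obtain ⟨𝒢, hG⟩ := rowsC.gens k K N (up K η)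
  have g := (geo_of k K p N (up K η) rowsC 𝒢 surf hG).1
  obtain ⟨b, ov⟩ := hOv F K₀ k K p N η hk hcl hX ya fl surf g.cv
  have fam : ∀ (κ : Cv F η → Type u) [∀ C, Field (κ C)] (r : ∀ C : Cv F η, C.O →+* κ C),
      (∀ C, DV C.O (r C)) → Fam (fun C : Cv F η => C.O) r (fun C' : Cv k (up K η) => C'.O)
        (fun C' => residue C'.O) b := fun κ _ r hr =>
    ⟨hr, dv_of surf g.cv, ov.ovr, g.cv.ext, ov.lift, g.fin.v⟩
  obtain ⟨f1, f2⟩ := hFinI K₀ K _ _ _ _ _ _ _ _ b (fam _ _ ya.dv)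
  refine ⟨f1, fun κ _ r φ lam hr hφ hl ht => ?_⟩
  choose a a1 a2 a3 a4 using fun C => lift (hr C) (hDVA _ _ _ _ (hr C)) (hφ.ne C)
  choose π _ hπ using fun C => (hDVA _ _ _ _ (hr C)).uni
  have cyc := hPull F K₀ k K p N η hk hcl hX ya fl surf g.cv g.va g.fin b ov f2 κ r φ a π hr hφ
    fun C => ⟨a1 C, a2 C, a3 C, a4 C, hπ C⟩
  obtain ⟨lam', l1, l2, l3⟩ := hDesc K₀ K _ _ _ _ _ _ _ _ b (fam κ r hr) lam hl ht
  have h0 := lam_cycle k K p N (up K η) rowsC rowsD hk surf lam' ⟨l1, l2⟩ _ cyc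
  rw [finsum_congr fun C' => addv_zpow (l1 C') (cyc.ne C'), ← regroup b] at h0
  · rw [← h0]
    refine finsum_congr fun C => ?_
    rw [← a3 C, ← l3 C (a C) (π C) (a1 C) (a2 C) (hπ C)]
    refine finsum_congr fun C' => finsum_congr fun e => ?_
    subst e
    rfl
  · refine (hφ.fin.biUnion fun C _ => f2 C).subset fun C' hC' => ?_
    refine Set.mem_biUnion (x := b C') (fun e => hC' ?_) rfl
    have h1 : C'.res 1 = 1 := (C'.res_of_mem 1).trans (map_one _)
    simp only [a4 _ e, map_one, h1, addv_one (l1 C'), mul_zero]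

end Pool.Agent.MP_f3836a_nt.PK
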