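import Pool.Agent.MP_f3836a_nt.PK.SpecS

set_option autoImplicit false

/-! Row SFib: the structure of a regular fibre of dimension two. -/

namespace Pool.Agent.MP_f3836a_nt.PK

open IsLocalRing AlgebraicGeometry CategoryTheory Pool.Agent.MP_f3836a_nt.PS

namespace SFib

variable {X : Scheme.{0}} {p : ℕ}

theorem memk {y x : X} (h : y ⤳ x) :
    Ideal.span {(p : X.presheaf.stalk x)} ≤ RingHom.ker (ev h) ↔ (p : X.residueField y) = 0 := by
  rw [Ideal.span_singleton_le_iff_mem, RingHom.mem_ker, map_natCast]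

theorem down (hS : SchA X) {y z : X} (h : y ⤳ z) (hy : (p : X.residueField y) = 0) :
    (p : X.residueField z) = 0 :=
  (memk (specializes_refl z)).1 (((memk h).2 hy).trans ((hS.le y z z h (specializes_refl z)).2 h))

theorem prime (hD : RDom.{0}) (hG : GoodFib X p) {x : X} (hx : IsClosed ({x} : Set X))
    (h0 : (p : X.residueField x) = 0) : (Ideal.span {(p : X.presheaf.stalk x)}).IsPrime := by
  have := (hG x hx h0).1
  exact (Ideal.Quotient.isDomain_iff_prime _).1 (hD _)

theorem gen_of (hD : RDom.{0}) (hS : SchA X) (hG : GoodFib X p) {y x : X} (h : y ⤳ x)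
    (e : RingHom.ker (ev h) = Ideal.span {(p : X.presheaf.stalk x)}) : IsGen p y := by
  intro x' h' hx'
  have h0 : (p : X.residueField y) = 0 := (memk h).1 e.ge
  obtain ⟨y', h₁, e₁⟩ := hS.ex x' _ (prime hD hG hx' (down hS h' h0))
  have h₂ : y' ⤳ y := (hS.le y' y x' h₁ h').1 (e₁.le.trans ((memk h').2 h0))
  have h₃ : y ⤳ y' := (hS.le y y' x h (h₂.trans h)).1
    (e.le.trans ((memk _).2 ((memk h₁).1 e₁.ge)))
  exact le_antisymm (((hS.le y y' x' h' h₁).2 h₃).trans e₁.le) ((memk h').2 h0)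

theorem lt_of {y z : X} (h : y ⤳ z) (hne : z ≠ y) : z < y :=
  ⟨h, fun h' => hne (Specializes.antisymm (show z ⤳ y from h') h).eq⟩

theorem le_two (hS : SchA X) (hc : ∀ z : X, ∃ x : X, z ⤳ x ∧ IsClosed ({x} : Set X))
    (hG : GoodFib X p) {y : X} (h0 : (p : X.residueField y) = 0) : Order.height y ≤ 2 := by
  refine Order.height_le fun l hl => ?_
  obtain ⟨x, hx, hx'⟩ := hc l.head
  have h1 : ∀ i, l i ⤳ x := fun i => Specializes.trans (show l i ⤳ l.head from l.head_le i) hx
  have h2 : ∀ i, y ⤳ l i := fun i => by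
    have : l i ≤ l.last := l.monotone (Fin.le_last i)
    rwa [hl] at this
  have h3 := (hG x hx' (down hS ((h2 0).trans (h1 0)) h0)).2
  rw [ringKrullDim_quotient, ← Order.krullDim_orderDual] at h3
  let l' : LTSeries (PrimeSpectrum.zeroLocus (R := X.presheaf.stalk x)
      (Ideal.span {(p : X.presheaf.stalk x)}))ᵒᵈ :=
    ⟨l.length, fun i => OrderDual.toDual ⟨⟨RingHom.ker (ev (h1 i)), RingHom.ker_isPrime _⟩,
      (PrimeSpectrum.mem_zeroLocus _ _).2 ((memk (h1 i)).2 (down hS (h2 i) h0))⟩, fun i => by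
      have h4 : l i.castSucc < l i.succ := l.step i
      exact ⟨(hS.le _ _ x (h1 i.succ) (h1 i.castSucc)).2 h4.1,
        fun h5 => h4.2 ((hS.le _ _ x (h1 i.castSucc) (h1 i.succ)).1 h5)⟩⟩
  have h4 := Order.LTSeries.length_le_krullDim l'
  rw [h3] at h4
  exact WithBot.coe_le_coe.1 h4

theorem two_le (hS : SchA X) (hG : GoodFib X p) {y x : X} (h : y ⤳ x)
    (hx : IsClosed ({x} : Set X))
    (e : RingHom.ker (ev h) = Ideal.span {(p : X.presheaf.stalk x)}) : 2 ≤ Order.height y := by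
  have h3 := (hG x hx (down hS h ((memk h).1 e.ge))).2
  rw [ringKrullDim_quotient, ← Order.krullDim_orderDual] at h3
  choose w hw ew using hS.ex x
  let g : (PrimeSpectrum.zeroLocus (R := X.presheaf.stalk x)
      (Ideal.span {(p : X.presheaf.stalk x)}))ᵒᵈ → Set.Iic y := fun q =>
    ⟨w (OrderDual.ofDual q).1.asIdeal (OrderDual.ofDual q).1.isPrime,
      (hS.le y _ x h (hw _ _)).1 (by
        rw [e, ew]
        exact (PrimeSpectrum.mem_zeroLocus _ _).1 (OrderDual.ofDual q).2)⟩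
  have hg : StrictMono g := fun q q' hq => by
    refine ⟨(hS.le _ _ x (hw _ _) (hw _ _)).1 ?_, fun h5 => hq.2 ?_⟩
    · rw [ew, ew]
      exact hq.1
    · have h6 := (hS.le _ _ x (hw _ _) (hw _ _)).2 h5
      rw [ew, ew] at h6
      exact h6
  have h4 := Order.krullDim_le_of_strictMono g hg
  rw [h3, ← Order.height_eq_krullDim_Iic] at h4
  exact WithBot.coe_le_coe.1 h4

end SFib

open SFib

theorem rFibA : RDom.{0} → RFibA := by
  intro hD X p hS hc hG
  have ch : ∀ y : X, IsGen p y → (p : X.residueField y) = 0 := fun y hy => by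
    obtain ⟨x, h, hx⟩ := hc y
    exact (memk h).1 (hy x h hx).ge
  have two : ∀ y : X, IsGen p y → Order.height y = 2 := fun y hy => by
    obtain ⟨x, h, hx⟩ := hc y
    exact le_antisymm (le_two hS hc hG (ch y hy)) (two_le hS hG h hx (hy x h hx))
  refine ⟨fun z hz => ?_, fun y y' z hy hy' h h' => ?_, fun y z hy h => down hS h (ch y hy), two,
    fun y C hy h => ⟨fun h1 => ⟨?_, fun h2 => ?_⟩, fun h1 => ?_⟩, fun y x h hy hx => ?_⟩
  · obtain ⟨x, h, hx⟩ := hc z
    obtain ⟨y, h₁, e₁⟩ := hS.ex x _ (prime hD hG hx (down hS h hz))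
    exact ⟨y, gen_of hD hS hG h₁ e₁, (hS.le y z x h₁ h).1 (e₁.le.trans ((memk h).2 hz))⟩
  · obtain ⟨x, h₁, hx⟩ := hc z
    have e := (hy x (h.trans h₁) hx).trans (hy' x (h'.trans h₁) hx).symm
    exact (Specializes.antisymm ((hS.le y y' x _ _).1 e.le) ((hS.le y' y x _ _).1 e.ge)).eq
  · rintro rfl
    rw [two C hy] at h1
    exact absurd h1 (by decide)
  · rw [Scheme.height_of_isClosed h2] at h1
    exact zero_ne_one h1
  · obtain ⟨x, h₁, hx⟩ := hc C
    have h2 := Order.height_add_one_le (lt_of h h1.1)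
    have h3 := Order.height_add_one_le (lt_of h₁ fun e => h1.2 (e ▸ hx))
    rw [two y hy] at h2
    rw [Scheme.height_of_isClosed hx, zero_add] at h3
    refine le_antisymm ?_ h3
    rw [← one_add_one_eq_two] at h2
    exact (ENat.add_le_add_iff_right ENat.one_ne_top).1 h2
  · obtain ⟨h1, h2⟩ := hG x hx (down hS h (ch y hy))
    let e := (Ideal.quotEquivOfEq (hy x h hx).symm).trans (RingHom.quotientKerEquivRange (ev h))
    exact ⟨IsRegularLocalRing.of_ringEquiv e, (ringKrullDim_eq_of_ringEquiv e).symm.trans h2⟩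

end Pool.Agent.MP_f3836a_nt.PK
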