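import Pool.Agent.MP_f3836a_nt.PK.SpecS

set_option autoImplicit false

/-! The final statement from the statements on single components. -/

namespace Pool.Agent.MP_f3836a_nt.PK

open MvPolynomial IsLocalRing AlgebraicGeometry CategoryTheory Pool.Agent.MP_f3836a_nt.PS

namespace SFin

theorem ordF_one {L : Type} [Field L] (R : Subring L) : ordF R 1 = 0 := by
  unfold ordF
  split_ifs with h
  · rw [show h.2.choose.1 = h.2.choose.2 from
      Subtype.ext (h.2.choose_spec.2.symm.trans (one_mul _)), sub_self]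
  · rfl

theorem ord_one {X : Scheme.{0}} (y z : X) : PS.ord y z 1 = 0 := by
  unfold PS.ord
  split_ifs
  exacts [ordF_one _, rfl]

theorem ord_not {X : Scheme.{0}} {y z : X} (h : ¬ y ⤳ z) (f : X.residueField y) :
    PS.ord y z f = 0 := dif_neg h

theorem addv_one {κ : Type} [Field κ] {lam : κ → ℚ} (h : Addv lam) : lam 1 = 0 := by
  have := h 1 1 one_ne_zero one_ne_zero
  rw [mul_one] at this
  linarith

theorem prime_eq {K : Type} [Field K] {p q : ℕ} (hp : p.Prime) (hq : q.Prime) (h : (p : K) = 0)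
    (h' : (q : K) = 0) : p = q :=
  ((hp.eq_one_or_self_of_dvd _ (ringChar.dvd h)).resolve_left CharP.ringChar_ne_one).symm.trans
    ((hq.eq_one_or_self_of_dvd _ (ringChar.dvd h')).resolve_left CharP.ringChar_ne_one)

/-- generic points of components of good fibres -/
def Gp {X : Scheme.{0}} (y : X) : Prop := ∃ p : ℕ, p.Prime ∧ GoodFib X p ∧ IsGen p y

end SFin

open SFin in
theorem rFinal : RPrA → RSchA → RFibA → RComp → RDualA.{0} → RFinal := by
  classical
  intro hP hS hF hC hD N X ι _ φ φ0 φf φg φd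
  obtain ⟨P, fr, hpr⟩ := hP N X ι
  have fib : ∀ p, GoodFib X p → FibA X p := fun p => hF X p (hS X) hpr.cl
  have comp : ∀ y : X, Gp y → CompA y := fun y ⟨p, a, b, c⟩ => hC X N P fr hpr p a (fib p b) y c
  have uniq : ∀ y y' z : X, Gp y → Gp y' → y ⤳ z → y' ⤳ z → y = y' := by
    rintro y y' z ⟨p, a, b, c⟩ ⟨q, a', b', c'⟩ h h'
    obtain rfl := prime_eq a a' ((fib p b).char y z c h) ((fib q b').char y' z c' h')
    exact (fib p b).uniq y y' z c c' h h'
  have ex : ∀ C : X, ∃ y : X, φ C ≠ 1 → Gp y ∧ y ⤳ C := fun C => by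
    by_cases h : φ C = 1
    · exact ⟨C, fun h' => absurd h h'⟩
    · obtain ⟨p, a, b, c⟩ := (φg C h).2
      obtain ⟨y, d, e⟩ := (fib p b).ex C c
      exact ⟨y, fun _ => ⟨⟨p, a, b, d⟩, e⟩⟩
  choose Y hY using ex
  obtain ⟨n, hn, l, hl⟩ := hD {C : X // Order.height C = 1}
    {a : Σ y : X, X.residueField y × X.residueField y // Gp a.1 ∧ a.2.1 ≠ 0 ∧ a.2.2 ≠ 0}
    (fun C => X.residueField C.1) (fun a C => tame a.1.1 C.1 a.1.2.1 a.1.2.2)
    (fun a C => (comp _ a.2.1).ne _ _ _ a.2.2.1 a.2.2.2 C.2)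
    (fun a => (((comp _ a.2.1).fin _ _ a.2.2.1 a.2.2.2).preimage
      Subtype.val_injective.injOn).subset fun C hC => ⟨C.2, hC⟩)
    (fun a => ⟨⟨⟨a.1.1, a.1.2.2, a.1.2.1⟩, a.2.1, a.2.2.2, a.2.2.1⟩,
      fun C => (comp _ a.2.1).swap _ _ _ a.2.2.1 a.2.2.2 C.2⟩)
    (fun C => φ C.1) (fun C => φ0 C.1) (φf.preimage Subtype.val_injective.injOn)
    (fun lam hlam hz => by
      let lam' : ∀ C : X, X.residueField C → ℚ := fun C =>
        if h : Order.height C = 1 then lam ⟨C, h⟩ else fun _ => 0
      have e1 : ∀ C : {C : X // Order.height C = 1}, lam C = lam' C.1 := fun C => by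
        simp only [lam', dif_pos C.2]
      have ad : ∀ C, Addv (lam' C) := fun C => by
        by_cases h : Order.height C = 1
        · exact e1 ⟨C, h⟩ ▸ hlam ⟨C, h⟩
        · rw [show lam' C = fun _ => 0 from dif_neg h]
          exact fun _ _ _ _ => (add_zero _).symm
      let ψ : X → ∀ C : X, X.residueField C := fun y C => if y ⤳ C then φ C else 1
      have ψ1 : ∀ y C, ψ y C ≠ 1 → φ C ≠ 1 ∧ y ⤳ C := fun y C h => by
        by_cases h' : y ⤳ C
        · exact ⟨by rwa [show ψ y C = φ C from if_pos h'] at h, h'⟩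
        · exact absurd (if_neg h') h
      have main : ∀ y : X, Gp y → ∑ᶠ C, lam' C (ψ y C) = 0 := fun y hy => by
        refine (comp y hy).main (ψ y) lam' (fun C => ?_) (φf.subset fun C h => (ψ1 y C h).1)
          (fun C h => ⟨(φg C (ψ1 y C h).1).1, (ψ1 y C h).2⟩) (fun x hx => ?_) ad fun f g hf hg => ?_
        · simp only [ψ]
          split_ifs
          exacts [φ0 C, one_ne_zero]
        · by_cases h : y ⤳ x
          · rw [← φd x (Scheme.height_of_isClosed hx)]
            refine finsum_congr fun C => ?_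
            simp only [ψ]
            split_ifs with h'
            · rfl
            · by_cases h1 : φ C = 1
              · rw [h1]
              · rw [ord_one, ord_not fun h2 =>
                  h' (uniq _ _ x (hY C h1).1 hy ((hY C h1).2.trans h2) h ▸ (hY C h1).2)]
          · refine finsum_eq_zero_of_forall_eq_zero fun C => ?_
            simp only [ψ]
            split_ifs with h'
            exacts [ord_not (fun h2 => h (h'.trans h2)) _, ord_one _ _]
        · rw [← finsum_subtype_eq_finsum_cond (f := fun C => lam' C (tame y C f g)),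
            ← hz ⟨⟨y, f, g⟩, hy, hf, hg⟩]
          exact finsum_congr fun C => by rw [e1]
      have e2 : ∀ C, lam' C (φ C) = ∑ y ∈ φf.toFinset.image Y, lam' C (ψ y C) := fun C => by
        by_cases h1 : φ C = 1
        · rw [h1, addv_one (ad C), Finset.sum_eq_zero fun y _ => ?_]
          rw [not_not.1 fun h => (ψ1 y C h).1 h1, addv_one (ad C)]
        · rw [Finset.sum_eq_single_of_mem (Y C) (Finset.mem_image_of_mem _ (φf.mem_toFinset.2 h1))
            fun y hy hne => ?_, show ψ (Y C) C = φ C from if_pos (hY C h1).2]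
          obtain ⟨C', hC', rfl⟩ := Finset.mem_image.1 hy
          rw [not_not.1 fun h => hne (uniq _ _ C (hY C' (φf.mem_toFinset.1 hC')).1 (hY C h1).1
            (ψ1 _ C h).2 (hY C h1).2), addv_one (ad C)]
      simp only [e1]
      rw [finsum_subtype_eq_finsum_cond (f := fun C => lam' C (φ C)) fun C => Order.height C = 1,
        finsum_congr (g := fun C => ∑ y ∈ φf.toFinset.image Y, lam' C (ψ y C)) fun C => ?_,
        finsum_sum_comm _ _ fun y _ => φf.subset fun C h h1 => h ?_]
      · refine Finset.sum_eq_zero fun y hy => ?_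
        obtain ⟨C, hC, rfl⟩ := Finset.mem_image.1 hy
        exact main _ (hY C (φf.mem_toFinset.1 hC)).1
      · show lam' C (ψ y C) = 0
        rw [not_not.1 fun h => (ψ1 y C h).1 h1, addv_one (ad C)]
      · rw [← e2, finsum_eq_if]
        split_ifs with h
        · rfl
        · rw [show lam' C = fun _ => 0 from dif_neg h])
  refine ⟨n, hn, l.map Subtype.val, fun a ha => ?_, fun C hC => ?_⟩
  · obtain ⟨⟨a, ⟨p, a1, a2, a3⟩, b⟩, -, rfl⟩ := List.mem_map.1 ha
    exact ⟨(fib p a2).two _ a3, ⟨p, a1, a2, (fib p a2).char _ _ a3 specializes_rfl⟩, b⟩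
  · rw [List.map_map]
    exact hl ⟨C, hC⟩

end Pool.Agent.MP_f3836a_nt.PK
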