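import Pool.Agent.MP_f3836a_nt.PK.EDVA
import Pool.Agent.MP_f3836a_nt.PK.EMean
import Pool.Agent.MP_f3836a_nt.PK.EBT
import Pool.Agent.MP_f3836a_nt.PK.EVD
import Pool.Agent.MP_f3836a_nt.PK.EBeta
import Pool.Agent.MP_f3836a_nt.PK.EDesc
import Pool.Agent.MP_f3836a_nt.PK.EDual
import Pool.Agent.MP_f3836a_nt.PK.ELen
import Pool.Agent.MP_f3836a_nt.PK.EYA
import Pool.Agent.MP_f3836a_nt.PK.EFl
import Pool.Agent.MP_f3836a_nt.PK.ESurf
import Pool.Agent.MP_f3836a_nt.PK.EOv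
import Pool.Agent.MP_f3836a_nt.PK.EPull
import Pool.Agent.MP_f3836a_nt.PK.ESurfL
import Pool.Agent.MP_f3836a_nt.PK.SSch
import Pool.Agent.MP_f3836a_nt.PK.SFib
import Pool.Agent.MP_f3836a_nt.PK.SPr
import Pool.Agent.MP_f3836a_nt.PK.SDict
import Pool.Agent.MP_f3836a_nt.PK.SComp
import Pool.Agent.MP_f3836a_nt.PK.SFin

set_option autoImplicit false

/-! All rows of parts E and S. -/

namespace Pool.Agent.MP_f3836a_nt.PK

universe u

theorem pVD : RVD.{u} := rVD rDVA rExt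
theorem pBeta : RBeta.{u} := rBeta rDVA rAdm rBT
theorem pFinI : RFinI.{u} := rFinI rDVA pVD
theorem pDesc : RDesc.{u} := rDesc rDVA rMean rAdm pVD pBeta pFinI

theorem pSurfL : RSurfL.{u} :=
  rSurfL rBC rYA rFlA rSurfK (rOvA rDVA) (rPull rDVA rLen) pFinI pDesc rDVA

theorem pFinal : RFinal :=
  rFinal rPrA rSchA (rFibA rDom) (rComp rDict rYA rDVA pSurfL) rDualA

end Pool.Agent.MP_f3836a_nt.PK
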