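import Pool.Agent.MP_f3836a_nt.PK.SpecG
import Pool.Agent.MP_f3836a_nt.PK.Main2

set_option autoImplicit false

/-! Descent of functionals, with the value on a constant extension. -/

namespace Pool.Agent.MP_f3836a_nt.PK

open Polynomial hiding map_ne_zero map_eq_zero
open IntermediateField

universe u

namespace GDesc

theorem integral {R S : Type u} [CommRing R] [Nontrivial R] [CommRing S] [Algebra R S] {t : S}
    {q : ℕ} (hq : 1 < q) (h : t ^ q = t) : IsIntegral R t :=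
  ⟨X ^ q - X, monic_X_pow_sub (by rw [degree_X]; exact_mod_cast hq), by
    rw [eval₂_sub, eval₂_X_pow, eval₂_X, h, sub_self]⟩

theorem mem_val {K : Type u} [Field K] (W : ValuationSubring K) {t : K} {q : ℕ} (hq : 1 < q)
    (h : t ^ q = t) : t ∈ W := by
  rcases eq_or_ne t 0 with rfl | h0
  · exact W.zero_mem
  refine (W.mem_or_inv_mem t).elim id fun h1 => ?_
  obtain ⟨m, rfl⟩ : ∃ m, q = m + 2 := ⟨q - 2, by omega⟩
  have h2 : t ^ m * t = 1 := mul_right_cancel₀ h0 (by rw [one_mul, ← pow_succ, ← pow_succ, h])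
  rw [eq_inv_of_mul_eq_one_right h2, ← inv_pow]
  exact pow_mem h1 m

theorem poly {K₀ K κ κ' : Type u} [Field K₀] [Field K] [Field κ] [Field κ'] [Algebra K₀ K]
    {O : Subring K₀} {r : O →+* κ} {O' : Subring K} {r' : O' →+* κ'} (D : DV O r) (D' : DV O' r')
    {W : ValuationSubring K} (hW : W.toSubring = O')
    (ov : ∀ f, f ∈ O ↔ algebraMap K₀ K f ∈ O') {ν : κ →+* κ'}
    (hν : ∀ a : O, ν (r a) = resR O' r' (algebraMap K₀ K a)) {θ : K} {q : ℕ} (hq : 1 < q)
    (hθ : θ ^ q = θ) :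
    ∃ μ m : O[X], μ.map O.subtype = minpoly K₀ θ ∧ m.Monic ∧ Irreducible (m.map r) ∧
      m.map r ∣ μ.map r ∧ m.natDegree = degO ν (resR O' r' θ) ∧
      aeval θ (m.map O.subtype) ∈ W.nonunits := by
  subst hW
  have h1 : θ ∈ W.toSubring := mem_val W hq hθ
  let θ' : W.toSubring := ⟨θ, h1⟩
  have h2 : resR W.toSubring r' θ = r' θ' := dif_pos h1
  let ψ : O →+* W.toSubring := (algebraMap K₀ K).restrict O W.toSubring fun f hf => (ov f).1 hf
  have h3 : r'.comp ψ = ν.comp r := RingHom.ext fun a => by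
    rw [RingHom.comp_apply, RingHom.comp_apply, hν, resR, dif_pos ((ov a).1 a.2)]
    rfl
  letI := ν.toAlgebra
  have h4 : ∀ s : O[X], aeval θ (s.map O.subtype) = (eval₂ ψ θ' s : W.toSubring) := fun s => by
    rw [aeval_def, eval₂_map]
    exact (hom_eval₂ s ψ W.toSubring.subtype θ').symm
  have h5 : ∀ s : O[X], r' (eval₂ ψ θ' s) = aeval (r' θ') (s.map r) := fun s => by
    rw [hom_eval₂, h3, aeval_def, eval₂_map]
    rfl
  have h6 : IsIntegral κ (r' θ') :=
    integral hq (by rw [← map_pow, show θ' ^ q = θ' from Subtype.ext hθ])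
  obtain ⟨m, m1, m2, m3⟩ := lifts_and_natDegree_eq_and_monic (f := r)
    ((mem_lifts _).2 (map_surjective r D.surj _)) (minpoly.monic h6)
  haveI := D.dvr
  haveI : IsFractionRing O K₀ := IsFractionRing.of_field O K₀ fun z => by
    obtain ⟨a, b, hb, h⟩ := D.frac z
    exact ⟨a, b, eq_div_of_mul_eq hb h⟩
  have h7 : (minpoly O θ).map O.subtype = minpoly K₀ θ :=
    (minpoly.isIntegrallyClosed_eq_field_fractions' K₀ (integral hq hθ)).symm
  refine ⟨minpoly O θ, m, h7, m3, m1 ▸ minpoly.irreducible h6, ?_, by rw [h2, m2]; rfl, ?_⟩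
  · rw [m1]
    refine minpoly.dvd _ _ ?_
    have : eval₂ ψ θ' (minpoly O θ) = 0 := Subtype.ext (by rw [← h4, h7, minpoly.aeval]; rfl)
    rw [← h5, this, map_zero]
  · rw [h4, ValuationSubring.mem_nonunits_iff_or, or_iff_not_imp_left]
    intro h8 h9
    refine (D'.ker (eval₂ ψ θ' m)).1 (by rw [h5, m1, minpoly.aeval]) ?_
    exact IsUnit.of_mul_eq_one ⟨_, h9⟩ (Subtype.ext (mul_inv_cancel₀ h8))

end GDesc

open EDesc

theorem rDescP : RCE.{u} → RProb.{u} → RDescP.{u} := by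
  intro hC hR
  have hA : RDVA.{u} := rDVA
  have hM : RMean.{u} := rMean
  have hAd : RAdm.{u} := rAdm
  have hV : RVD.{u} := pVD
  have hB : RBeta.{u} := pBeta
  have hF : RFinI.{u} := pFinI
  intro K₀ K _ _ _ _ I J κ _ κ' _ O r O' r' b H lam hl h0
  classical
  obtain ⟨f1, f2⟩ := hF K₀ K I J κ κ' O r O' r' b H
  let Ω := AlgebraicClosure K
  have : Algebra.IsAlgebraic K₀ Ω := Algebra.IsAlgebraic.trans K₀ K Ω
  obtain ⟨M, mM⟩ := hM (Ω ≃ₐ[K₀] Ω)
  choose V v μ hD using fun i => hV K₀ Ω _ (O i) (r i) (lam i) (H.dv i) (hl i)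
  have A := fun j => hA _ _ _ _ (H.dv' j)
  choose π π0 π1 using fun i => (hA _ _ _ _ (H.dv i)).uni
  choose s hs using fun j => ex_lift (H.dv' j) (A j)
  let φ : (Ω ≃ₐ[K₀] Ω) → K →+* Ω := fun σ => (σ : Ω →+* Ω).comp (algebraMap K Ω)
  have hφ : ∀ σ f, φ σ (algebraMap K₀ K f) = algebraMap K₀ Ω f := fun σ f => by
    rw [RingHom.comp_apply, ← IsScalarTower.algebraMap_apply]
    exact σ.commutes f
  let P : J → (Ω ≃ₐ[K₀] Ω) → Prop := fun j σ => ∀ x, x ∈ O' j ↔ φ σ x ∈ V (b j)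
  have hP : ∀ i σ, ∃ j, b j = i ∧ P j σ := fun i σ => by
    obtain ⟨j, rfl, h⟩ := ex_over hA H (hD i) (φ σ) (hφ σ)
    exact ⟨j, rfl, h⟩
  have hx : ∀ j j' : J, ∃ x : K, (x ∈ O' j ↔ x ∈ O' j') → j = j' := fun j j' => by
    by_contra h
    push Not at h
    exact (h 0).2 (H.inj _ _ (Subring.ext fun x => (h x).1))
  choose x hx using hx
  have ad : ∀ (j : J) (f g : K) (F : Ω → Ω → ℚ),
      Adm fun σ => if P j σ then F (φ σ f) (φ σ g) else 0 := fun j f g F => by
    have key : ∀ σ τ : Ω ≃ₐ[K₀] Ω, (∀ j', b j' = b j → φ σ (x j j') = φ τ (x j j')) → P j σ →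
        P j τ := fun σ τ h h1 => by
      obtain ⟨j', h2, h3⟩ := hP (b j) τ
      rwa [hx j j' (by rw [h1, h3, h j' h2, h2])]
    refine hAd K₀ Ω (algebraMap K Ω '' (x j '' {j' | b j' = b j} ∪ {f, g})) _
      ((((f2 _).image _).union (Set.toFinite _)).image _) fun σ τ h => ?_
    have h1 : ∀ j', b j' = b j → φ σ (x j j') = φ τ (x j j') := fun j' h' =>
      h _ ⟨_, Or.inl ⟨j', h', rfl⟩, rfl⟩
    have h2 : φ σ f = φ τ f := h _ ⟨_, Or.inr (by simp), rfl⟩
    have h3 : φ σ g = φ τ g := h _ ⟨_, Or.inr (by simp), rfl⟩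
    rw [h2, h3]
    exact if_congr ⟨key σ τ h1, key τ σ fun j' h' => (h1 j' h').symm⟩ rfl rfl
  have fib : ∀ (i : I) (f g : K) (F : Ω → Ω → ℚ),
      ∑ᶠ (j) (_ : b j = i), M (fun σ => if P j σ then F (φ σ f) (φ σ g) else 0) =
        M fun σ => F (φ σ f) (φ σ g) := fun i f g F => by
    rw [finsum_cond_eq_sum_of_cond_iff (t := (f2 i).toFinset) _ (by simp),
      ← mM.sum _ _ _ fun j _ => ad j f g F]
    congr 1
    funext σ
    obtain ⟨j, h1, h2⟩ := hP i σ
    rw [Finset.sum_eq_single_of_mem j (by simpa using h1), if_pos h2]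
    intro j' h3 h4
    have h5 : b j' = b j := by simpa [h1] using h3
    exact if_neg fun h6 => h4 (hx _ _ (by rw [h6, h2, h5]))
  let e : J → ℚ := fun j => ordR (O' j) (algebraMap K₀ K (π (b j)))
  have e0 : ∀ j, e j ≠ 0 := fun j h => by
    have := (ord_up hA H j (π0 _)).1 (Int.cast_eq_zero.1 h)
    rw [π1] at this
    exact one_ne_zero this
  let lam' : ∀ j, κ' j → ℚ := fun j c =>
    (e j)⁻¹ * M fun σ => if P j σ then μ (b j) (φ σ (s j c)) else 0
  have key : ∀ (j : J) (f : K), f ≠ 0 → ordR (O' j) f = 0 →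
      e j * lam' j (resR (O' j) (r' j) f) = M fun σ => if P j σ then μ (b j) (φ σ f) else 0 := by
    intro j f h1 h2
    rw [mul_inv_cancel_left₀ (e0 j)]
    congr 1
    funext σ
    obtain ⟨h3, h4, h5⟩ := hs j _ (res_ne (H.dv' j) (A j) h1 h2)
    exact if_ctx_congr Iff.rfl
      (fun h => mu_eq (H.dv' j) (A j) (hD _).mmul (hD _).one h h3 h1 h4 h2 h5) fun _ => rfl
  have add : ∀ j, Addv (lam' j) := fun j c c' hc hc' => by
    obtain ⟨h1, h2, h3⟩ := hs j c hc
    obtain ⟨h4, h5, h6⟩ := hs j c' hc'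
    have h7 := key j _ (mul_ne_zero h1 h4) (by rw [(A j).mul _ _ h1 h4, h2, h5, add_zero])
    rw [(A j).rmul _ _ ((unit_iff (A j) h1).1 h2).1 ((unit_iff (A j) h4).1 h5).1, h3, h6] at h7
    refine mul_left_cancel₀ (e0 j) ?_
    rw [h7, mul_add, mul_inv_cancel_left₀ (e0 j), mul_inv_cancel_left₀ (e0 j),
      ← mM.add _ _ (ad j _ 0 fun a _ => μ (b j) a) (ad j _ 0 fun a _ => μ (b j) a)]
    congr 1
    funext σ
    split_ifs
    · rw [map_mul, (hD _).mmul _ _ ((map_ne_zero _).2 h1) ((map_ne_zero _).2 h4)]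
    · simp
  refine ⟨lam', add, fun f g hf hg => ?_, fun p n j θ ν hp hp0 hn hθ hν vis y hy => ?_⟩
  · have h1 : ∀ j, lam' j (tameR (O' j) (r' j) f g) =
        M fun σ => if P j σ then tt (v (b j)) (μ (b j)) (φ σ f) (φ σ g) else 0 := fun j => by
      refine mul_left_cancel₀ (e0 j) ?_
      rw [tameR, key j _ ((A j).tE f g hf hg).1 ((A j).tE f g hf hg).2,
        ← mM.smul _ _ (ad j f g _)]
      congr 1
      funext σ
      split_ifs with h
      · have h2 : v (b j) (φ σ (algebraMap K₀ K (π (b j)))) = 1 := by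
          rw [hφ, (hD _).res _ (π0 _), π1, Int.cast_one]
        have h3 := fun (f : K) (hf : f ≠ 0) =>
          v_eq (A j) (hD _).vmul (hD _).mem h ((map_ne_zero _).2 (π0 _)) h2 hf
        rw [mu_tame (hD _).mmul hf hg, h3 f hf, h3 g hg, tt]
        ring
      · simp
    rw [fibre b _ (((H.fin f).union (H.fin g)).subset fun j hj => ?_),
      ← hB K₀ Ω I κ O r lam V v μ M mM H.dv hD f1 h0 _ _ ((map_ne_zero (algebraMap K Ω)).2 hf)
        ((map_ne_zero (algebraMap K Ω)).2 hg)]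
    · refine finsum_congr fun i => Eq.trans ?_ (fib i f g (tt (v i) (μ i)))
      exact finsum_congr fun j => finsum_congr fun h => by rw [h1, h]
    · by_contra h
      simp only [Set.mem_union, Set.mem_ofPred_eq, not_or, not_not] at h
      exact hj (by rw [(A j).one f g h.1 h.2, a_one (add j)])
  · have hq : 1 < p ^ n := Nat.one_lt_pow (by omega) hp.one_lt
    obtain ⟨W, hW⟩ := (A j).val
    have hW' : ∀ f, f ∈ W ↔ f ∈ O' j := fun f => by rw [← hW]; rfl
    have ovW : ∀ f, f ∈ O (b j) ↔ algebraMap K₀ K f ∈ W := fun f => by rw [hW', H.ovr]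
    obtain ⟨q, m, q1, m1, m2, m3, m4, m5⟩ :=
      GDesc.poly (H.dv (b j)) (H.dv' j) hW (H.ovr j) hν hq hθ
    have A0 := hA _ _ _ _ (H.dv (b j))
    have e1 : e j = 1 := by
      obtain ⟨π', h1, h2, h3⟩ := vis.uni
      have h4 := (map_ne_zero (algebraMap K₀ K)).2 (π0 (b j))
      have h5 := (hC K₀ K _ _ _ p n θ (π (b j)) m W W (H.dv _) hp hp0 hn hθ (π1 _) m1 m2 ovW ovW
        m5 m5 π' h1).2 ((ValuationSubring.mem_nonunits_iff_or _).2 (Or.inr fun h => by
          rw [hW', (A j).mem _ (inv_ne_zero h2), ord_inv (A j) h2, h3] at h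
          omega))
      rw [hW', div_eq_mul_inv, (A j).mem _ (mul_ne_zero h2 (inv_ne_zero h4)),
        (A j).mul _ _ h2 (inv_ne_zero h4), ord_inv (A j) h4, h3] at h5
      have h6 := ((A j).mem _ h4).1 ((H.ovr j _).1 ((A0.mem _ (π0 _)).2 (by rw [π1]; omega)))
      have h7 : ordR (O' j) (algebraMap K₀ K (π (b j))) ≠ 0 := fun h => e0 j (Int.cast_eq_zero.2 h)
      have h8 : ordR (O' j) (algebraMap K₀ K (π (b j))) = 1 := by omega
      exact Int.cast_eq_one.2 h8
    have ha : ∀ σ : Ω ≃ₐ[K₀] Ω, φ σ (aeval θ (m.map (O (b j)).subtype)) =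
        aeval (σ (algebraMap K Ω θ)) (m.map (O (b j)).subtype) := fun σ => by
      rw [aeval_algHom_apply, aeval_algebraMap_apply]
      rfl
    have hI : ∀ σ, P j σ ↔
        aeval (σ (algebraMap K Ω θ)) (m.map (O (b j)).subtype) ∈ (V (b j)).nonunits := fun σ => by
      rw [← ha, ValuationSubring.mem_nonunits_iff_or, map_eq_zero, ← map_inv₀]
      constructor
      · intro h
        rw [← h, ← hW', ← ValuationSubring.mem_nonunits_iff_or]
        exact m5
      · intro h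
        obtain ⟨j', h1, h2⟩ := hP (b j) σ
        have h3 : ∀ f, f ∈ O' j' ↔ f ∈ (V (b j)).comap (φ σ) := fun f => by
          rw [h2, h1]
          rfl
        have h4 := hC K₀ K _ _ _ p n θ (π (b j)) m ((V (b j)).comap (φ σ)) W (H.dv _) hp hp0 hn hθ
          (π1 _) m1 m2 (fun f => by rw [← h3, ← H.ovr, h1]) ovW
          ((ValuationSubring.mem_nonunits_iff_or _).2 h) m5
        rwa [vis.one j' fun f hf => by rw [h3, (h4 f hf).1, hW']] at h2
    have hm : ∀ f, f ∈ O (b j) ↔ algebraMap K₀ Ω f ∈ V (b j) := fun f => by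
      rcases eq_or_ne f 0 with rfl | hf
      · simp
      · rw [(hD _).mem _ ((map_ne_zero _).2 hf), (hD _).res f hf, A0.mem f hf, Int.cast_nonneg_iff]
    have pr := hR K₀ Ω _ _ _ (V (b j)) M p n (algebraMap K Ω θ) q m mM (H.dv _) hm hp
      (by rw [← map_natCast (algebraMap K Ω), hp0, map_zero]) hn (by rw [← map_pow, hθ])
      (by rw [q1, minpoly.algebraMap_eq (algebraMap K Ω).injective]) m1 m3
    simp only [← hI] at pr
    obtain ⟨a, rfl⟩ := (H.dv (b j)).surj y
    have ua : IsUnit a := not_not.1 fun h => hy (((H.dv _).ker a).2 h)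
    obtain ⟨a0, a1⟩ := A0.unit' a ua
    have k1 := key j _ ((map_ne_zero _).2 a0) ((ord_up hA H j a0).2 a1)
    have k2 : (M fun σ => if P j σ then μ (b j) (φ σ (algebraMap K₀ K a)) else 0) =
        lam (b j) (r (b j) a) * M fun σ => if P j σ then 1 else 0 := by
      rw [← mM.smul _ _ (ad j 0 0 fun _ _ => 1)]
      congr 1
      funext σ
      rw [hφ, (hD _).lam a ua]
      split_ifs <;> simp
    rw [e1, one_mul, ← hν, k2] at k1
    rw [k1, ← m4, ← q1, natDegree_map_eq_of_injective (O (b j)).subtype_injective, ← pr]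
    ring

end Pool.Agent.MP_f3836a_nt.PK
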