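import Pool.Agent.MP_f3836a_nt.PK.SpecG

set_option autoImplicit false

/-! Factors of a polynomial irreducible over a finite field have equal degrees. -/

namespace Pool.Agent.MP_f3836a_nt.PK

open Polynomial IntermediateField

universe u

namespace GFac

/-- two roots of an irreducible polynomial over a finite field generate each other -/
theorem mem_adjoin {F Ω : Type u} [Field F] [Finite F] [Field Ω] [Algebra F Ω]
    {ν : F[X]} (hν : Irreducible ν) {a b : Ω} (ha : aeval a ν = 0) (hb : aeval b ν = 0) :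
    b ∈ F⟮a⟯ := by
  have hai : IsIntegral F a := (show IsAlgebraic F a from ⟨ν, hν.ne_zero, ha⟩).isIntegral
  have hfd : FiniteDimensional F F⟮a⟯ := adjoin.finiteDimensional hai
  have hfin : Finite F⟮a⟯ := Module.finite_of_finite F
  have hN : Normal F F⟮a⟯ := inferInstance
  have hs := hN.splits (AdjoinSimple.gen F a)
  rw [minpoly_gen] at hs
  have hm : aeval b (minpoly F a) = 0 := by
    rw [← minpoly.eq_of_irreducible hν ha, map_mul, hb, zero_mul]
  have h0 : (minpoly F a).map (algebraMap F F⟮a⟯) ≠ 0 :=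
    Polynomial.map_ne_zero (minpoly.ne_zero hai)
  have hr : (((minpoly F a).map (algebraMap F F⟮a⟯)).map (algebraMap F⟮a⟯ Ω)).IsRoot b := by
    rw [Polynomial.map_map, ← IsScalarTower.algebraMap_eq, IsRoot, eval_map_algebraMap, hm]
  obtain ⟨x, hx⟩ := hs.mem_range_of_isRoot h0 hr
  rw [← hx]
  exact x.2

theorem deg_le {F κ : Type u} [Field F] [Finite F] [Field κ] [Algebra F κ]
    {ν : F[X]} (hν : Irreducible ν) {g g' : κ[X]} (hg : Irreducible g) (hgm : g.Monic)
    (hgd : g ∣ ν.map (algebraMap F κ)) (hg' : Irreducible g') (hgm' : g'.Monic)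
    (hgd' : g' ∣ ν.map (algebraMap F κ)) : g'.natDegree ≤ g.natDegree := by
  obtain ⟨a, ha⟩ := IsAlgClosed.exists_aeval_eq_zero (AlgebraicClosure κ) g
    (degree_pos_of_irreducible hg).ne'
  obtain ⟨b, hb⟩ := IsAlgClosed.exists_aeval_eq_zero (AlgebraicClosure κ) g'
    (degree_pos_of_irreducible hg').ne'
  have key : ∀ (q : κ[X]) (x : AlgebraicClosure κ), aeval x q = 0 →
      q ∣ ν.map (algebraMap F κ) → aeval x ν = 0 := by
    intro q x hx hq
    obtain ⟨t, ht⟩ := hq
    rw [← aeval_map_algebraMap κ x ν, ht, map_mul, hx, zero_mul]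
  have hb1 : b ∈ F⟮a⟯ := mem_adjoin hν (key g a ha hgd) (key g' b hb hgd')
  have hle : F⟮a⟯ ≤ (κ⟮a⟯).restrictScalars F := by
    rw [adjoin_simple_le_iff]
    exact mem_adjoin_simple_self κ a
  have hb2 : b ∈ κ⟮a⟯ := hle hb1
  have hai : IsIntegral κ a := ⟨g, hgm, ha⟩
  have hbi : IsIntegral κ b := ⟨g', hgm', hb⟩
  have hfd : FiniteDimensional κ κ⟮a⟯ := adjoin.finiteDimensional hai
  have h1 := finrank_le_of_le_right (adjoin_simple_le_iff.mpr hb2 : κ⟮b⟯ ≤ κ⟮a⟯)
  rw [adjoin.finrank hai, adjoin.finrank hbi, ← minpoly.eq_of_irreducible_of_monic hg ha hgm,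
    ← minpoly.eq_of_irreducible_of_monic hg' hb hgm'] at h1
  exact h1

end GFac

open UniqueFactorizationMonoid in
theorem rFac : RFac.{u} := by
  intro F κ J _ _ _ _ ν μ m hν hμ hd hm hr j
  classical
  have hsep : μ.Separable :=
    ((PerfectField.separable_of_irreducible hν).map (f := algebraMap F κ)).of_dvd hd
  have hnd : (normalizedFactors μ).Nodup :=
    (squarefree_iff_nodup_normalizedFactors hμ.ne_zero).mp hsep.squarefree
  have hprod : (normalizedFactors μ).prod = μ := by
    have h := leadingCoeff_mul_prod_normalizedFactors μ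
    rwa [hμ.leadingCoeff, C_1, one_mul] at h
  have hmem : ∀ g, g ∈ normalizedFactors μ ↔ g ∈ Set.range m := by
    intro g
    rw [Polynomial.mem_normalizedFactors_iff hμ.ne_zero, hr]
    tauto
  have hj := (hr (m j)).mp ⟨j, rfl⟩
  have hdeg : ∀ g ∈ normalizedFactors μ, g.natDegree = (m j).natDegree := by
    intro g hg
    have h := (hr g).mp ((hmem g).mp hg)
    exact le_antisymm
      (GFac.deg_le hν hj.2.1 hj.1 (hj.2.2.trans hd) h.2.1 h.1 (h.2.2.trans hd))
      (GFac.deg_le hν h.2.1 h.1 (h.2.2.trans hd) hj.2.1 hj.1 (hj.2.2.trans hd))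
  have hcard : Nat.card J = Multiset.card (normalizedFactors μ) := by
    have h1 : Set.range m = ((normalizedFactors μ).toFinset : Set κ[X]) := by
      ext g
      rw [Finset.mem_coe, Multiset.mem_toFinset, hmem]
    rw [← Nat.card_range_of_injective hm, h1, Nat.card_coe_set_eq, Set.ncard_coe_finset,
      Multiset.toFinset_card_of_nodup hnd]
  have hsum := natDegree_multiset_prod_of_monic (normalizedFactors μ)
    (fun g hg => ((hr g).mp ((hmem g).mp hg)).1)
  rw [hprod, Multiset.map_congr rfl hdeg, Multiset.map_const', Multiset.sum_replicate,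
    smul_eq_mul] at hsum
  rw [hsum, hcard, mul_comm]

end Pool.Agent.MP_f3836a_nt.PK
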