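import Pool.Agent.MP_f3836a_nt.PK.SpecG
import Pool.Agent.MP_f3836a_nt.PK.EDVA

set_option autoImplicit false

/-! Valuations centred at points that are not closed come from curves. -/

namespace Pool.Agent.MP_f3836a_nt.PK

open MvPolynomial IsLocalRing Stp

universe u

namespace GFam1

/-- a valuation with constant residues of the coordinates is centred at a closed point -/
theorem key {S : Stp.{u}} (T : S.Srf) (hB : S.Bas) (c : S.H) (h : T.s.P ≤ c.P)
    {R : Type u} [CommRing R] [IsLocalRing R] [Algebra S.k R] (ι : R →+* T.V.K)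
    (hι : Function.Injective ι)
    (hd : ∀ a, ∃ t, ι t = algebraMap _ T.V.K (S.M.e T.s c h a)) {l : Fin (S.N + 1)}
    (hl : T.w l ≠ 0) (hw : ∀ j, ∃ (t : R) (b : S.k), ι t = T.w j / T.w l ∧
      t - algebraMap S.k R b ∈ maximalIdeal R) : c.Cl := by
  have hi : T.w c.idx ≠ 0 := fun e => (Ctr.idx_spec c.good).1 (h ((T.img.mem 1 _
    (isHomogeneous_X _ _)).2 (by rw [map_X, aeval_X, e])))
  choose ψ hψ using hd
  let φ : S.M.A c →+* R :=
    { toFun := ψ
      map_one' := hι (by rw [hψ, map_one, map_one, map_one])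
      map_mul' := fun a b => hι (by rw [map_mul, hψ, hψ, hψ, map_mul, map_mul])
      map_zero' := hι (by rw [hψ, map_zero, map_zero, map_zero])
      map_add' := fun a b => hι (by rw [map_add, hψ, hψ, hψ, map_add, map_add]) }
  choose a ha using fun j => S.M.surj c (c.lx (X j))
  have e1 : ∀ j, ι (φ (a j)) = T.w j / T.w c.idx := fun j => by
    have h2 := T.img.frac (Subring.inclusion (EYA.le h) (c.lx (X j))) 1 (X j) (X c.idx)
      (isHomogeneous_X _ _) (isHomogeneous_X _ _) (by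
        change (c.lx (X j) : S.K₀) * _ = _
        rw [Ctr.coe_lx c.good (Form.of (isHomogeneous_X _ j)), c.lo_X, aeval_X, aeval_X,
          div_mul_cancel₀ _ (Ctr.xi_ne c.good)])
    rw [map_X, map_X, aeval_X, aeval_X, ← ha, ← S.M.e_eq h (a j)] at h2
    exact (hψ _).trans (eq_div_of_mul_eq hi h2)
  choose t b ht hb using hw
  have hr : ∀ j, residue R (t j) = algebraMap S.k (ResidueField R) (b j) := fun j => by
    have := (residue_eq_zero_iff _).2 (hb j)
    rwa [map_sub, sub_eq_zero] at this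
  have e2 : ∀ j, t j = φ (a j) * t c.idx := fun j => hι (by
    rw [map_mul, e1, ht, ht, div_mul_div_cancel₀ hi])
  have e3 : ∀ j, algebraMap S.k (ResidueField R) (b j) =
      residue R (φ (a j)) * algebraMap S.k (ResidueField R) (b c.idx) := fun j => by
    rw [← hr, ← hr, ← map_mul, ← e2]
  have b0 : b c.idx ≠ 0 := fun e => by
    have h1 := e3 l
    have h2 : t l = 1 := hι (by rw [ht, div_self hl, map_one])
    rw [e, map_zero, mul_zero, ← hr, h2, map_one] at h1
    exact one_ne_zero h1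
  refine (hB.u2.co c).2 fun j => ?_
  have e4 : residue R (φ (a j)) = algebraMap S.k _ (b j / b c.idx) := by
    rw [map_div₀, e3 j, mul_div_cancel_right₀ _ ((map_ne_zero _).2 b0)]
  generalize b j / b c.idx = β at e4
  obtain ⟨n, n0, hn⟩ : ∃ n, 0 < n ∧ β ^ (n + 1) = β := by
    by_cases a0 : β = 0
    · exact ⟨1, one_pos, by simp [a0]⟩
    · exact (S.hk β a0).imp fun n hn => ⟨hn.1, by rw [pow_succ, hn.2, one_mul]⟩
  refine ⟨n, n0, ?_⟩
  rw [Mod.co, ← ha, S.M.r_π, ← sub_eq_zero, ← map_pow, ← map_sub, residue_eq_zero_iff]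
  intro hu
  refine (residue_ne_zero_iff_isUnit _).2 (hu.map φ) ?_
  rw [map_sub, map_pow, map_sub, map_pow, e4, ← map_pow, hn, sub_self]

/-- a proper valuation ring contains the local ring of a point -/
theorem cen {k K : Type u} [Field k] [IsAlgClosed k] [Field K] [Algebra k K] {N : ℕ}
    {ξ : Fin (N + 1) → K} (hS : IsSurf k ξ) (W : ValuationSubring K)
    (hk : ∀ a, algebraMap k K a ∈ W) (hW : ¬ ∀ f, f ∈ W) :
    ∃ x : Pt k ξ, x.ctr.O ≤ W.toSubring := by
  obtain ⟨i, hi⟩ := Finite.exists_max fun j => W.valuation (ξ j)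
  have h0 : ξ i ≠ 0 := fun e => hW fun f => by
    have h1 : ξ = 0 := funext fun j => by
      have := hi j
      rw [e, map_zero, le_zero_iff, map_eq_zero] at this
      exact this
    obtain ⟨n, A, B, -, -, hB, hf⟩ := hS.gen f
    rw [h1, aeval_zero] at hB
    rw [h1, aeval_zero, aeval_zero] at hf
    rw [eq_div_of_mul_eq hB hf, ← map_div₀]
    exact hk _
  refine EOv.centre W hk i h0 fun j => ?_
  rw [← W.valuation_le_one_iff, map_mul, map_inv₀]
  exact inv_mul_le_one_of_le₀ (hi j) zero_le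

end GFam1

theorem rFam1 : RFam1.{u} := by
  intro S T hB c h W W' hc hd hW hW'
  have hS := T.sm.surf
  have hk := EOv.const_mem S.hk W'
  have hWt : ¬ ∀ x, x ∈ W' := fun e => hW (eq_top_iff.2 fun f _ => (hW' f).2 (e _))
  obtain ⟨x, hx⟩ := GFam1.cen hS W' hk hWt
  let q : Ideal x.ctr.O := (maximalIdeal W').comap (Subring.inclusion hx)
  have hq : ∀ a : x.ctr.O, a ∉ q ↔ (a : T.V.K) ≠ 0 ∧ (a : T.V.K)⁻¹ ∈ W' := fun a =>
    not_not.trans (EOv.unitW W' (Subring.inclusion hx a))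
  have hdiv : ∀ (f : T.V.K) (a b : x.ctr.O), b ∉ q → f * b = a → f ∈ W' := fun f a b hb e => by
    obtain ⟨h1, h2⟩ := (hq b).1 hb
    rw [(eq_mul_inv_iff_mul_eq₀ h1).2 e]
    exact W'.mul_mem _ _ (hx a.2) h2
  have h0 : q ≠ ⊥ := fun e0 => hWt fun f => by
    obtain ⟨a, b, hb, e⟩ := EOv.frac hS x f
    refine hdiv f a b (fun h1 => hb ?_) e
    rw [e0, Ideal.mem_bot] at h1
    rw [h1]
    rfl
  have h1 : q ≠ maximalIdeal x.ctr.O := fun e0 => by
    obtain ⟨l, hl, hm⟩ := T.sm.mor x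
    obtain ⟨ev, -, hev⟩ := x.exists_ev
    let _ : Algebra S.k W' := ((algebraMap S.k T.V.K).codRestrict W' hk).toAlgebra
    refine hc (GFam1.key T hB c h W'.subtype Subtype.val_injective
      (fun a => ⟨⟨_, (hW' _).1 (hd a).1⟩, rfl⟩) hl fun j =>
      ⟨⟨_, hx (hm j)⟩, ev ⟨_, hm j⟩, rfl, ?_⟩)
    have h2 : (⟨_, hm j⟩ - algebraMap S.k x.ctr.O (ev ⟨_, hm j⟩) : x.ctr.O) ∈ q := by
      rw [e0, ← hev, map_sub, AlgHom.commutes]
      exact sub_self _
    exact h2
  have := hS.reg x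
  obtain ⟨π, hπ, hqπ⟩ := (rReg x.ctr.O (hS.dim x)).2.2.2.1 q (Ideal.comap_isPrime _ _) h0 h1
  obtain ⟨C, hx', h2⟩ := T.cv.ofP x π hπ
  have h3 : C.O ≤ W'.toSubring := fun f hf => by
    obtain ⟨a, b, hb, e⟩ := (CCvA.loc hx' f).1 hf
    refine hdiv f a b (fun h4 => hb ((h2 b).1 ?_)) e
    rwa [hqπ, Ideal.mem_span_singleton] at h4
  have h4 : W'.toSubring = C.O :=
    ((rDVA _ _ _ _ (EOv.dv hS T.cv C)).max _ h3).resolve_right fun e =>
      hWt fun f => (show f ∈ W'.toSubring from e ▸ Subring.mem_top f)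
  refine ⟨C, ?_, h4.symm⟩
  rintro ⟨l, hl, hm⟩
  refine hc (GFam1.key T hB c h C.O.subtype Subtype.val_injective
    (fun a => ⟨⟨_, h4.le ((hW' _).1 (hd a).1)⟩, rfl⟩) hl fun j => ?_)
  obtain ⟨m1, b, m2⟩ := hm j
  refine ⟨⟨_, m1⟩, b, rfl, ?_⟩
  rw [← residue_eq_zero_iff, map_sub, sub_eq_zero, ← C.res_of_mem]
  exact m2

end Pool.Agent.MP_f3836a_nt.PK
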