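import Pool.Agent.MP_f3836a_nt.PK.SpecG
import Pool.Agent.MP_f3836a_nt.PK.EFl

set_option autoImplicit false

/-! The extension of the ground field at rational points: unramified, faithful, reduced fibres. -/

namespace Pool.Agent.MP_f3836a_nt.PK

open MvPolynomial IsLocalRing

universe u

namespace GFl

variable {k A B : Type u} [Field k] [CommRing A] [CommRing B] [Algebra k B] [Algebra A B]

theorem fin_gen (hk : ∀ a : k, a ≠ 0 → ∃ n, 0 < n ∧ a ^ n = 1)
    (hg : EFl.Gen k (algebraMap A B)) (S : Finset B) :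
    ∃ (c : k) (w : B), IsUnit w ∧ w ∈ Algebra.adjoin A {algebraMap k B c} ∧
      ∀ s ∈ S, s * w ∈ Algebra.adjoin A {algebraMap k B c} := by
  classical
  let M : k → Subalgebra A B := fun c => Algebra.adjoin A {algebraMap k B c}
  have hm : ∀ c, algebraMap k B c ∈ M c := fun c => Algebra.self_mem_adjoin_singleton A _
  have hM : ∀ a b, ∃ c, M a ≤ M c ∧ M b ≤ M c := by
    have key : ∀ a c : k, (a = 0 ∨ ∃ i : ℕ, a = c ^ i) → M a ≤ M c := by
      intro a c h
      refine Algebra.adjoin_le (Set.singleton_subset_iff.2 ?_)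
      rcases h with rfl | ⟨i, rfl⟩
      · rw [map_zero]
        exact (M c).zero_mem
      · rw [map_pow]
        exact (M c).pow_mem (hm c) i
    intro a b
    obtain ⟨c, h1, h2⟩ := EFl.common hk a b
    exact ⟨c, key _ _ h1, key _ _ h2⟩
  have h1 : ∀ u ∈ Algebra.adjoin k (Set.range (algebraMap A B)), ∃ c, u ∈ M c := by
    intro u hu
    induction hu using Algebra.adjoin_induction with
    | mem s h =>
      obtain ⟨a, rfl⟩ := h
      exact ⟨0, (M 0).algebraMap_mem a⟩
    | algebraMap c => exact ⟨c, hm c⟩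
    | add s s' _ _ a b =>
      obtain ⟨c, e⟩ := a
      obtain ⟨c', e'⟩ := b
      obtain ⟨d, a1, a2⟩ := hM c c'
      exact ⟨d, add_mem (a1 e) (a2 e')⟩
    | mul s s' _ _ a b =>
      obtain ⟨c, e⟩ := a
      obtain ⟨c', e'⟩ := b
      obtain ⟨d, a1, a2⟩ := hM c c'
      exact ⟨d, mul_mem (a1 e) (a2 e')⟩
  change ∃ c w, IsUnit w ∧ w ∈ M c ∧ ∀ s ∈ S, s * w ∈ M c
  induction S using Finset.induction_on with
  | empty => exact ⟨0, 1, isUnit_one, one_mem _, by simp⟩
  | insert s S _ ih =>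
    obtain ⟨c, w, a1, a2, a3⟩ := ih
    obtain ⟨w', b1, b2, b3⟩ := hg s
    obtain ⟨c₁, b4⟩ := h1 _ b2
    obtain ⟨c₂, b5⟩ := h1 _ b3
    obtain ⟨c₃, d1, d2⟩ := hM c₁ c₂
    obtain ⟨d, d3, d4⟩ := hM c c₃
    refine ⟨d, w * w', a1.mul b1, mul_mem (d3 a2) (d4 (d1 b4)), fun t ht => ?_⟩
    rcases Finset.mem_insert.1 ht with rfl | ht
    · rw [mul_left_comm]
      exact mul_mem (d3 a2) (d4 (d2 b5))
    · rw [← mul_assoc]
      exact mul_mem (d3 (a3 t ht)) (d4 (d1 b4))

theorem rad' [IsDomain A] [IsIntegrallyClosed A] [IsDomain B] [FaithfulSMul A B] (p : ℕ)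
    [Fact p.Prime] [CharP k p] (hk : ∀ a : k, a ≠ 0 → ∃ n, 0 < n ∧ a ^ n = 1)
    (hg : EFl.Gen k (algebraMap A B)) (q : Ideal A) (hq : q.IsPrime) :
    (q.map (algebraMap A B)).IsRadical := by
  classical
  have hB : CharP B p := charP_of_injective_algebraMap (algebraMap k B).injective p
  rintro s ⟨n, hn⟩
  have hn' : s ^ (n + 1) ∈ Ideal.span (algebraMap A B '' q) := by
    rw [pow_succ]
    exact Ideal.mul_mem_right _ _ hn
  obtain ⟨m, t, g, e⟩ := Submodule.mem_span_set'.1 hn'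
  choose b hb hb' using fun i => (g i).2
  obtain ⟨c, w, hw, hw', hs⟩ := fin_gen hk hg (insert s (Finset.univ.image t))
  have hint : IsIntegral A (algebraMap k B c) := by
    by_cases hc : c = 0
    · rw [hc, map_zero]
      exact isIntegral_zero
    · obtain ⟨m, hm, e⟩ := hk c hc
      exact IsIntegral.of_pow hm (by rw [← map_pow, e, map_one]; exact isIntegral_one)
  obtain ⟨r, hr, er⟩ := BGenA.exists_fix p (hk c)
  have e0 := BGenA.fix_pow er (n + 1)
  obtain ⟨l, hl⟩ : ∃ l, p ^ (r * (n + 1)) = n + 1 + l := Nat.exists_eq_add_of_le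
    ((Nat.le_mul_of_pos_left _ hr).trans (Nat.lt_pow_self (Fact.out : p.Prime).one_lt).le)
  let pb := Algebra.adjoin.powerBasis' hint
  let u : Algebra.adjoin A {algebraMap k B c} := ⟨s * w, hs _ (Finset.mem_insert_self _ _)⟩
  let v : Fin m → Algebra.adjoin A {algebraMap k B c} := fun i => ⟨t i * w, hs _
    (Finset.mem_insert_of_mem (Finset.mem_image_of_mem t (Finset.mem_univ i)))⟩
  have hβ : ∀ j, ((pb.basis j : Algebra.adjoin A {algebraMap k B c}) : B) =
      algebraMap k B (c ^ (j : ℕ)) := fun j => by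
    rw [pb.basis_eq_pow, SubmonoidClass.coe_pow, map_pow, Algebra.adjoin.powerBasis'_gen]
  have eu : s * w = ∑ j, algebraMap A B (pb.basis.repr u j) * algebraMap k B (c ^ (j : ℕ)) := by
    have e2 := congrArg Subtype.val (pb.basis.sum_repr u)
    rw [AddSubmonoidClass.coe_finsetSum] at e2
    refine Eq.trans e2.symm (Finset.sum_congr rfl fun j _ => ?_)
    rw [← hβ, ← Algebra.smul_def]
    rfl
  have e1 : ∑ j, pb.basis.repr u j ^ p ^ (r * (n + 1)) • pb.basis j =
      ∑ i, b i • (v i * ⟨w, hw'⟩ ^ n * u ^ l) := by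
    refine Subtype.ext ?_
    rw [AddSubmonoidClass.coe_finsetSum, AddSubmonoidClass.coe_finsetSum]
    have e3 : (s * w) ^ p ^ (r * (n + 1)) = s ^ (n + 1) * (w * w ^ n * (s * w) ^ l) := by
      rw [hl]; ring
    rw [← e, Finset.sum_mul] at e3
    conv_lhs at e3 => rw [eu, sum_pow_char_pow]
    refine (Finset.sum_congr rfl fun j _ => ?_).trans
      (e3.trans (Finset.sum_congr rfl fun i _ => ?_))
    · rw [mul_pow, ← map_pow (algebraMap A B), ← map_pow (algebraMap k B), ← pow_mul c,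
        mul_comm (j : ℕ), pow_mul c _ j, e0, ← hβ, ← Algebra.smul_def]
      rfl
    · change _ = b i • (t i * w * w ^ n * (s * w) ^ l)
      rw [Algebra.smul_def (b i), hb', smul_eq_mul]; ring
  have h3 : ∀ j, pb.basis.repr u j ∈ q := fun j => by
    have e3 := congrArg (fun x => pb.basis.repr x j) e1
    simp only [Module.Basis.repr_sum_self] at e3
    refine hq.mem_of_pow_mem (p ^ (r * (n + 1))) ?_
    rw [e3, map_sum, Finsupp.finsetSum_apply]
    exact sum_mem fun i _ => by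
      rw [map_smul, Finsupp.smul_apply]
      exact q.mul_mem_right _ (hb i)
  rw [← Ideal.mul_unit_mem_iff_mem _ hw, eu]
  exact sum_mem fun j _ => Ideal.mul_mem_right _ _ (Ideal.mem_map_of_mem _ (h3 j))

omit [Algebra A B] in
theorem rad [IsDomain A] [IsIntegrallyClosed A] [IsDomain B] (p : ℕ) [Fact p.Prime] [CharP k p]
    (hk : ∀ a : k, a ≠ 0 → ∃ n, 0 < n ∧ a ^ n = 1) (f : A →+* B) (hi : Function.Injective f)
    (hg : EFl.Gen k f) (q : Ideal A) (hq : q.IsPrime) : (q.map f).IsRadical := by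
  let := f.toAlgebra
  have : FaithfulSMul A B := (faithfulSMul_iff_algebraMap_injective A B).2 hi
  exact rad' p hk hg q hq

end GFl

theorem rFlB : RNorm.{u} → RFlB.{u} := by
  intro hN S h
  have hi : ∀ x : Pt S.k (up S.K S.η), Function.Injective (Stp.fx x) := fun x a b e =>
    Subtype.ext ((algebraMap S.K₀ S.K).injective (by rw [← Stp.coe_fx x, ← Stp.coe_fx x, e]))
  have hn : ∀ x : Pt S.k (up S.K S.η), IsIntegrallyClosed (Stp.pu x).O := fun x => by
    have := (S.reg.reg _ ((h.cl _ _ (Stp.o_pu x)).1 ((h.pt _).2 ⟨x, rfl⟩))).1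
    exact hN _
  refine ⟨fun x => ?_, fun x I => ?_, fun x q hq => ?_⟩
  · obtain ⟨ev, -, hev⟩ := x.exists_ev
    exact EFl.unr S.p S.hk _ ev hev (Stp.fx_max x) (Stp.fx_gen x)
  · have := hn x
    exact EFl.contr S.hk _ (hi x) (fun a => (Stp.fx_max x a).2) (Stp.fx_gen x) I
  · have := hn x
    exact GFl.rad S.p S.hk _ (hi x) (Stp.fx_gen x) q hq

end Pool.Agent.MP_f3836a_nt.PK
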