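import Pool.Agent.MP_f3836a_nt.PK.SpecG

set_option autoImplicit false

/-! The point under the image of a map to the variety. -/

namespace Pool.Agent.MP_f3836a_nt.PK

open MvPolynomial IsLocalRing

universe u

namespace GImg

variable {k K L : Type u} [Field k] [Field K] [Algebra k K] [Field L] [Algebra k L] {N : ℕ}
  {ξ : Fin (N + 1) → K} {w : Fin (N + 1) → L}

/-- the image point and the embedding of its function field -/
theorem exists_psi (hs : Sub k ξ w) (h0 : ∃ i, w i ≠ 0) :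
    ∃ (c : Hp k ξ) (ψ : c.var.K →ₐ[k] L) (i : Fin (N + 1)), w i ≠ 0 ∧
      (∀ (n : ℕ) (A : Pol k N), A.IsHomogeneous n → (A ∈ c.P ↔ aeval w A = 0)) ∧
      ∀ j, ψ (c.var.ξ j) = w j / w i := by
  obtain ⟨c, hc⟩ := exists_hp (ξ := ξ) w hs h0
  obtain ⟨g, hg⟩ := exists_hp (k := k) (ξ := w) w (Sub.refl w) h0
  obtain ⟨r, hr⟩ := exists_rst hs c.toCtr g.toCtr fun n A hA => (hc n A hA).trans (hg n A hA).symm
  have hk : ∀ f ∈ maximalIdeal c.O, (g.O.subtype.comp r.toRingHom) f = 0 := by
    intro f hf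
    obtain ⟨n, A, B, hA, hB, hP, e⟩ := f.2
    have h1 := (hr.eq_zero f hA hB hP e).2 ((hc n A hA).1 ((c.mem_max_iff f hA hB hP e).1 hf))
    change ((r f : g.O) : L) = 0
    rw [h1]
    rfl
  let ψ₀ : ResidueField c.O →+* L := Ideal.Quotient.lift _ (g.O.subtype.comp r.toRingHom) hk
  have h1 : ∀ f, ψ₀ (residue c.O f) = r f := fun _ => rfl
  refine ⟨c, { ψ₀ with commutes' := fun a => ?_ }, g.idx, Ctr.xi_ne g.good, hc, fun j => ?_⟩
  · refine (h1 (algebraMap k c.O a)).trans ?_
    rw [r.commutes]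
    rfl
  · refine (h1 (c.lx (X j))).trans ?_
    rw [hr.lx c.good (Form.of (isHomogeneous_X k j)),
      Ctr.coe_lx g.good (Form.of (isHomogeneous_X k j)), g.lo_X]

end GImg

open GImg Stp in
theorem rImg : RImg.{u} := by
  intro S hB L _ _ w hg hs h0
  have hs' : Sub S.k (up S.K S.η) w := hs
  obtain ⟨c, ψ, i, hi, hc, hψ⟩ := exists_psi hs' h0
  have ho := o_und c
  let ν : S.M.κ (c.und S.F) →+* L := ψ.toRingHom.comp (nu ho)
  let _ : Algebra (S.M.κ (c.und S.F)) L := ν.toAlgebra
  have hν : ∀ x, algebraMap (S.M.κ (c.und S.F)) L x = ψ (nu ho x) := fun _ => rfl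
  have ha : ∀ (n : ℕ) (A : Pol S.k S.N), A.IsHomogeneous n →
      ψ (aeval c.var.ξ A) = aeval w A / w i ^ n := by
    intro n A hA
    rw [← CTanA.aeval_div hA, comp_aeval_apply]
    simp only [hψ]
  have hgen : Subfield.closure (Set.range (algebraMap (S.M.κ (c.und S.F)) L) ∪
      Set.range (algebraMap S.k L)) = ⊤ := by
    rw [eq_top_iff, ← genBy_iff.1 hg]
    refine rat_le hi _ (fun a => Subfield.subset_closure (Or.inr ⟨a, rfl⟩)) fun j =>
      Subfield.subset_closure (Or.inl ⟨S.M.co _ j, ?_⟩)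
    rw [hν, nu_co, hψ]
  refine ⟨c.und S.F, inferInstance, fun n A hA => hc n _ (hA.map _), fun b n A B hA hB' e => ?_,
    hgen, ⟨fun f => ?_⟩, ?_⟩
  · have h1 := congrArg ψ (nu_frac ho b hA hB' e)
    rw [map_mul, ha n _ (hA.map _), ha n _ (hB'.map _), ← mul_div_assoc,
      div_left_inj' (pow_ne_zero _ hi)] at h1
    exact h1
  · have h1 : Subfield.closure (Set.range (algebraMap (S.M.κ (c.und S.F)) L) ∪
        Set.range (algebraMap S.k L)) ≤ (algebraicClosure (S.M.κ (c.und S.F)) L).toSubfield := by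
      rw [Subfield.closure_le]
      rintro _ (⟨x, rfl⟩ | ⟨a, rfl⟩)
      · exact IntermediateField.algebraMap_mem _ x
      · refine mem_algebraicClosure_iff.2 ?_
        by_cases h : a = 0
        · rw [h, map_zero]
          exact isAlgebraic_zero
        · obtain ⟨n, hn, e⟩ := S.hk a h
          refine IsAlgebraic.of_pow hn ?_
          rw [← map_pow, e, map_one]
          exact isAlgebraic_one
    exact mem_algebraicClosure_iff.1 (h1 (hgen ▸ Subfield.mem_top f))
  · refine ⟨ν '' (Set.range (S.M.co (c.und S.F)) ∪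
      Set.range (algebraMap S.F (S.M.κ (c.und S.F)))),
      ((Set.finite_range _).union (Set.finite_range _)).image _, fun f => ?_⟩
    rw [← RingHom.map_field_closure, hB.u2.fg]
    exact ⟨f, Subfield.mem_top f, rfl⟩

end Pool.Agent.MP_f3836a_nt.PK
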