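import Pool.Agent.MP_f3836a_nt.PK.SpecG

set_option autoImplicit false

/-! Rows Qd and LocA: local rings of curves and orders of functions. -/

namespace Pool.Agent.MP_f3836a_nt.PK

open MvPolynomial IsLocalRing

universe u

namespace GLoc

theorem le_of_q {k K : Type u} [Field k] [Field K] [Algebra k K] {N : ℕ} {ξ : Fin (N + 1) → K}
    {s t : Hp k ξ} {x : Ctr k ξ} (hx : x.Good) {h : s.P ≤ x.P} {h' : t.P ≤ x.P}
    (e : EYA.q h ≤ EYA.q h') : s.P ≤ t.P :=
  s.le_of fun _ _ hA hP => (EYA.q_lx h' hx hA).1 (e ((EYA.q_lx h hx hA).2 hP))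

theorem len {R S : Type u} [CommRing R] [CommRing S] (f : R →+* S) (hf : Function.Surjective f)
    (b : R) : Module.length R (R ⧸ (RingHom.ker f ⊔ Ideal.span {b})) = Ring.ord S (f b) := by
  let _ : Algebra R S := f.toAlgebra
  have h1 : Module.length R (S ⧸ Ideal.span {f b}) = Module.length S (S ⧸ Ideal.span {f b}) :=
    Module.length_eq_of_surjective hf
  let g : R →ₗ[R] S ⧸ Ideal.span {f b} := Algebra.linearMap R (S ⧸ Ideal.span {f b})
  have hs : Function.Surjective g := Ideal.Quotient.mk_surjective.comp hf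
  have hker : LinearMap.ker g = RingHom.ker f ⊔ Ideal.span {b} := by
    change RingHom.ker ((Ideal.Quotient.mk _).comp f) = _
    rw [← RingHom.comap_ker, Ideal.mk_ker, ← Set.image_singleton, ← Ideal.map_span,
      Ideal.comap_map_of_surjective f hf, sup_comm]
    rfl
  rw [← hker, (g.quotKerEquivOfSurjective hs).length_eq, h1]
  rfl

variable {F K₀ : Type u} [Field F] [Field K₀] [Algebra F K₀] {N : ℕ} {η : Fin (N + 1) → K₀}
  (M : Mod F η)

theorem ker_rr {c y : Hp F η} (h : c.P ≤ y.P) : RingHom.ker (M.rr h) = EYA.q h :=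
  Ideal.ext (M.rr_eq_zero h)

theorem rng (hQ : RQd.{u}) (c y : Hp F η) (h : c.P ≤ y.P) (hc : c.IsCv) :
    IsNoetherianRing (M.rr h).range ∧ Ring.KrullDimLE 1 (M.rr h).range ∧
      ∀ f : M.κ c, ∃ a b : (M.rr h).range, (b : M.κ c) ≠ 0 ∧ f * b = a := by
  have := Ctr.noeth y.good
  refine ⟨isNoetherianRing_of_surjective _ _ _ (M.rr h).rangeRestrict_surjective, ?_, fun f => ?_⟩
  · have h1 := hQ F K₀ N η c y.toCtr h hc y.good
    rw [← ker_rr M h] at h1
    rwa [Ring.krullDimLE_iff, ← ringKrullDim_eq_of_ringEquiv (M.rr h).quotientKerEquivRange,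
      ← Ring.krullDimLE_iff]
  · obtain ⟨g, rfl⟩ := M.r_surj c f
    obtain ⟨a, b, hb, e⟩ := (EYA.loc h y.good (g : K₀)).1 g.2
    exact ⟨⟨_, a, rfl⟩, ⟨_, b, rfl⟩, fun h0 => hb ((M.rr_eq_zero h b).1 h0),
      (map_mul (M.r c) _ _).symm.trans (congrArg (M.r c) (Subtype.ext e))⟩

end GLoc

theorem rQd : RQd.{u} := by
  intro k K _ _ _ N ξ c x h hc hx
  have : (EYA.q h).IsPrime := Ideal.comap_isPrime _ _
  refine Ring.krullDimLE_one_iff_of_noZeroDivisors.2 fun I h0 hI => ?_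
  obtain ⟨s, hs, e⟩ := exists_hp_q hx (I.comap (Ideal.Quotient.mk _)) inferInstance
  obtain ⟨t, ht, e'⟩ := exists_hp_q hx (maximalIdeal x.O) inferInstance
  have hm := Ideal.map_comap_of_surjective _ Ideal.Quotient.mk_surjective I
  have h1 : c.P ≤ s.P := GLoc.le_of_q hx (e ▸ Ideal.mk_ker.ge.trans (Ideal.ker_le_comap _))
  have h2 : c.P ≠ s.P := fun h3 => h0 (by
    obtain rfl := Hp.ext_P h3
    rw [← hm, e, Ideal.map_quotient_self])
  have h3 : s.P ≤ t.P := GLoc.le_of_q hx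
    (e.ge.trans ((le_maximalIdeal Ideal.IsPrime.ne_top').trans e'.le))
  obtain rfl := Hp.ext_P (hc.2 s (lt_of_le_of_ne h1 h2) t h3)
  rw [e, ← e'] at hm
  have h4 := Ideal.map_eq_top_or_isMaximal_of_surjective (Ideal.Quotient.mk (EYA.q h))
    Ideal.Quotient.mk_surjective (maximalIdeal.isMaximal x.O)
  rw [hm] at h4
  exact h4.resolve_left hI.ne_top

theorem rLocA : RQd.{u} → RLocA.{u} := by
  intro hQ F K₀ _ _ _ N η M
  refine ⟨fun c y h hc => M.range_e h ▸ GLoc.rng M hQ c y h hc, fun c y f g hc hf hg => ?_,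
    fun c y h a hc ha => ?_⟩
  · unfold Mod.ord
    split_ifs with h
    · obtain ⟨h1, h2, h3⟩ := GLoc.rng M hQ c y h hc
      rw [M.range_e]
      exact Ord.mul h3 f g hf hg
    · rfl
  · obtain ⟨h1, h2, -⟩ := GLoc.rng M hQ c y h hc
    have h0 : (M.rr h).rangeRestrict a ≠ 0 := fun h0 =>
      ha ((M.rr_eq_zero h a).1 (congrArg Subtype.val h0))
    have e := GLoc.len _ (M.rr h).rangeRestrict_surjective a
    rw [RingHom.ker_rangeRestrict, GLoc.ker_rr] at e
    rw [e, Mod.ord, dif_pos h, M.range_e]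
    exact ⟨Ord.fin h0, Ord.coe h0⟩

end Pool.Agent.MP_f3836a_nt.PK
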