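import Pool.Agent.MP_f3836a_nt.PK.SpecG
import Pool.Agent.MP_f3836a_nt.PK.ESurfL

set_option autoImplicit false

/-! The theorem over a finite field from the case of a connected configuration. -/

namespace Pool.Agent.MP_f3836a_nt.PK

open MvPolynomial IsLocalRing Stp

universe u

namespace GMainF

theorem ordR_one {L : Type u} [Field L] (R : Subring L) : ordR R 1 = 0 := by
  unfold ordR
  split_ifs with h
  · have h1 : h.2.choose.2 = h.2.choose.1 :=
      Subtype.ext ((one_mul _).symm.trans h.2.choose_spec.2)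
    rw [h1, sub_self]
  · rfl

theorem ord_one {F K₀ : Type u} [Field F] [Field K₀] [Algebra F K₀] {N : ℕ}
    {η : Fin (N + 1) → K₀} (M : Mod F η) (c y : Hp F η) : M.ord c y 1 = 0 := by
  unfold Mod.ord
  split_ifs
  exacts [ordR_one _, rfl]

/-- a constant summed over the points over `c` -/
theorem fib {S : Stp.{u}} (B : S.Up1) (g : S.H → ℚ) (c : S.H) :
    ∑ᶠ (c' : S.H') (_ : c'.und S.F = c), g (c'.und S.F) / nO (c'.und S.F) = g c := by
  have h0 : (nO c : ℚ) ≠ 0 :=
    Nat.cast_ne_zero.2 ((Set.ncard_pos (B.fin c)).2 (B.lo c)).ne'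
  have h1 : ∑ᶠ (c' : S.H') (_ : c'.und S.F = c), g (c'.und S.F) / nO (c'.und S.F) =
      ∑ᶠ c' ∈ {c' : S.H' | O c' c}, g c / nO c :=
    finsum_congr fun c' => finsum_congr_Prop (propext o_iff.symm) fun h => by rw [o_iff.1 h]
  rw [h1, finsum_mem_eq_finite_toFinset_sum _ (B.fin c), Finset.sum_const,
    ← Set.ncard_eq_toFinset_card _ (B.fin c), nsmul_eq_mul]
  exact mul_div_cancel₀ _ h0

end GMainF

open GMainF ESurfL in
theorem rMainF : RSplit.{u} → RMainF.{u} := by
  intro hS S B hP hL hM φ lam hφ hK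
  have h1 : ∀ c, φ c = 1 → lam c (φ c) = 0 := fun c h => by rw [h, addv_one (hK.add c)]
  rcases le_or_gt 2 S.d with hd | hd
  · obtain ⟨cf, bc⟩ := hP φ hφ
    let G : S.H' → ℚ := fun c' => lam _ (φ (c'.und S.F)) / nO (c'.und S.F)
    have hG : ∀ c', φ (c'.und S.F) = 1 → G c' = 0 := fun c' h => by
      simp only [G, h1 _ h, zero_div]
    have h0 := hS S.k S.N _ _ _ (fun a : {c' : S.H' // φ (c'.und S.F) ≠ 1} => G a.1) cf bc
      fun s hs c1 c2 c3 => hM hd lam s (fun a => a.1.1) (fun a => φ (a.1.1.und S.F)) hK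
        (fun a => hφ.cv _ a.1.2) c1 c2 c3 hs.to_subtype
    have h2 : ∑ᶠ c', G c' = 0 := by
      refine Eq.trans ?_ ((finsum_subtype_eq_finsum_cond (f := G) _).symm.trans h0)
      refine finsum_congr fun c' => ?_
      by_cases h : φ (c'.und S.F) = 1
      · rw [hG c' h, finsum_zero]
      · exact (finsum_eq_single (fun _ : φ (c'.und S.F) ≠ 1 => G c') h
          fun _ e => absurd rfl e).symm
    have h3 : (Function.support G).Finite :=
      (hφ.fin.biUnion fun c _ => B.u1.fin c).subset fun c' hc' =>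
        Set.mem_biUnion (x := c'.und S.F) (fun e => hc' (hG c' e)) (o_und c')
    rw [← regroup (fun c' : S.H' => c'.und S.F) G h3] at h2
    exact (finsum_congr fun c => (fib B.u1 (fun c => lam c (φ c)) c).symm).trans h2
  · obtain ⟨l1, l2⟩ := hL (by omega)
    by_cases h : ∃ c, φ c ≠ 1
    · obtain ⟨c, hc⟩ := h
      have h2 : ∀ c₁, c₁ ≠ c → φ c₁ = 1 := fun c₁ e => by_contra fun h' =>
        e (l1 _ _ (hφ.cv _ h') (hφ.cv _ hc))
      obtain ⟨n, hn, e⟩ := l2 c (φ c) (hφ.cv _ hc) (hφ.ne c) fun y hy => by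
        rw [← hφ.div y hy, finsum_eq_single _ c fun c₁ e => by rw [h2 c₁ e, ord_one]]
      rw [finsum_eq_single _ c fun c₁ e => h1 c₁ (h2 c₁ e)]
      have h3 := addv_zpow (hK.add c) (x := φ c) (e := n) (zpow_ne_zero _ (hφ.ne c))
      rw [zpow_natCast, e, addv_one (hK.add c), Int.cast_natCast] at h3
      exact (mul_eq_zero.1 h3.symm).resolve_left (Nat.cast_ne_zero.2 hn.ne')
    · push Not at h
      exact finsum_eq_zero_of_forall_eq_zero fun c => h1 c (h c)

end Pool.Agent.MP_f3836a_nt.PK
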