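import Pool.Agent.MP_f3836a_nt.PK.SpecG
import Pool.Agent.MP_f3836a_nt.PK.Main

set_option autoImplicit false

/-! One connected configuration. -/

namespace Pool.Agent.MP_f3836a_nt.PK

open MvPolynomial IsLocalRing Stp

universe u

namespace GMainS

theorem sum_sub {α : Type u} (p : α → Prop) (F : α → ℚ) (h : ∀ a, ¬ p a → F a = 0) :
    ∑ᶠ a, F a = ∑ᶠ a : {a // p a}, F a.1 := by
  classical
  refine Eq.trans ?_ (finsum_subtype_eq_finsum_cond (f := F) p).symm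
  refine finsum_congr fun a => ?_
  by_cases ha : p a
  · rw [finsum_eq_if, if_pos ha]
  · rw [finsum_eq_if, if_neg ha, h a ha]

theorem sum_rng {α ι : Type u} (c : ι → α) (hc : Function.Injective c) (F : α → ℚ)
    (h : ∀ a, F a ≠ 0 → ∃ i, a = c i) : ∑ᶠ a, F a = ∑ᶠ i, F (c i) := by
  classical
  rw [← finsum_mem_range hc]
  refine finsum_congr fun a => ?_
  by_cases ha : a ∈ Set.range c
  · rw [finsum_eq_if, if_pos ha]
  · rw [finsum_eq_if, if_neg ha]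
    by_contra h1
    obtain ⟨i, rfl⟩ := h a h1
    exact ha ⟨i, rfl⟩

theorem addv_one {κ : Type u} [Field κ] {l : κ → ℚ} (h : Addv l) : l 1 = 0 := by
  have := h 1 1 one_ne_zero one_ne_zero
  rw [mul_one] at this
  linarith

variable {S : Stp.{u}} (T : S.Srf)

open Classical in
/-- extension by zero -/
noncomputable def xz (l : ∀ j : T.J, j.1.κ → ℚ) (C : Cv S.k T.V.ξ) (t : C.κ) : ℚ :=
  if h : Contr C T.w then 0 else l ⟨C, h⟩ t

theorem ext_pos (l : ∀ j : T.J, j.1.κ → ℚ) {C : Cv S.k T.V.ξ} (h : Contr C T.w) (t : C.κ) :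
    xz T l C t = 0 := dif_pos h

theorem ext_neg (l : ∀ j : T.J, j.1.κ → ℚ) {C : Cv S.k T.V.ξ} (h : ¬ Contr C T.w) (t : C.κ) :
    xz T l C t = l ⟨C, h⟩ t := dif_neg h

theorem ext_add {l : ∀ j : T.J, j.1.κ → ℚ} (h : ∀ j, Addv (l j)) (C : Cv S.k T.V.ξ) :
    Addv (xz T l C) := fun f g hf hg => by
  by_cases hC : Contr C T.w
  · rw [ext_pos T l hC, ext_pos T l hC, ext_pos T l hC, add_zero]
  · rw [ext_neg T l hC, ext_neg T l hC, ext_neg T l hC]
    exact h ⟨C, hC⟩ f g hf hg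

theorem ext_lam {l : ∀ j : T.J, j.1.κ → ℚ} (h : ∀ j, Addv (l j))
    (h' : ∀ f g : T.V.K, f ≠ 0 → g ≠ 0 →
      ∑ᶠ j : T.J, l j (tameR j.1.O (residue j.1.O) f g) = 0) : Lam (xz T l) := by
  refine ⟨ext_add T h, fun f g hf hg => ?_⟩
  rw [sum_sub (fun C => ¬ Contr C T.w) _ fun C hC => ext_pos T l (not_not.1 hC) _, ← h' f g hf hg]
  exact finsum_congr fun j => ext_neg T l j.2 _

end GMainS

open GMainS in
theorem rMainS (hGeo : RGeo.{u}) (hImg : RImg.{u}) (hCmp : RCmp.{u}) (hF1 : RFam1.{u})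
    (hF2 : RFam2.{u}) (hPA : RPushA.{u}) (hN : RNice.{u}) (hD : RDescP.{u}) (hPB : RPushB.{u}) :
    RMainS.{u} := by
  intro S hB hC hd lam ι u x hK hcv hConf hConn hCyc hne
  obtain ⟨m, V, w, c, ρ, φ, sm, sd⟩ := hGeo S.k S.p S.N S.Y ι (fun a => (u a).var)
    (fun a => nu (o_und (u a)) (x a)) hConf (fun a => (u a).sub_eta) hCyc S.d hd hB.reg hConn hne
  obtain ⟨a₀⟩ := hne
  have hxi : (u a₀).var.ξ (u a₀).idx ≠ 0 := by
    change (u a₀).eta _ ≠ 0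
    rw [Hp.eta_idx]
    exact one_ne_zero
  obtain ⟨s, alg, img⟩ := hImg S hB V.K w sm.gen sm.sub ⟨_, (sd.cmp a₀ _ hxi).1⟩
  obtain ⟨𝒢, hG⟩ := rowsC.gens S.k V.K m V.ξ
  have g := (geo_of S.k V.K S.p m V.ξ rowsC 𝒢 sm.surf hG).1
  let T : S.Srf := ⟨m, V, w, s, sm, g.cv, g.fin, img⟩
  have hc := fun a => hCmp S T hB (u a) _ (o_und (u a)) (c a) (ρ a) (hcv a).1 (sd.cmp a)
  have f1 := hF1 S T hB
  have f2 := hF2 S T hB f1
  have sf : T.s.IsSf := by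
    obtain ⟨hs, -⟩ := (hc a₀).2.1
    refine ⟨⟨_, lt_of_le_of_ne hs fun e => (hc a₀).2.2 (Hp.ext_P e), (hcv a₀).1⟩, fun y hy => ?_⟩
    by_cases h : y.Cl
    · exact Or.inl h
    · exact Or.inr (f2.cv y hy h)
  obtain ⟨⟨b, hb⟩, hinj⟩ := hPA S T hB f1 f2 sf
  obtain ⟨nice, hn⟩ := hN S T b sf hb
  obtain ⟨hadd, hsum⟩ := hn lam hK.add
  have : Algebra.IsAlgebraic (S.M.κ T.s) T.V.K := T.img.alg
  obtain ⟨lam', add', kill', dp⟩ := hD (S.M.κ T.s) T.V.K T.I T.J _ _ _ _ _ _ b hb (T.lamI lam) hadd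
    fun f g hf hg => (hsum f g hf hg).trans (hK.bd _ nice f g hf hg)
  have hz := lam_cycle S.k V.K S.p m V.ξ rowsC rowsD S.hk sm.surf (xz T lam')
    (ext_lam T add' kill') φ sd.cyc
  rw [sum_rng c sd.inj (fun C => xz T lam' C (φ C)) fun C h => by
    rcases sd.oth C (fun e => h (by rw [e]; exact addv_one (ext_add T add' C))) with h1 | h1
    · exact h1
    · exact absurd (ext_pos T lam' h1 _) h] at hz
  choose s₀ hfin hs₀ using fun a => hPB S T b hB hC hb hinj lam lam' hK.add dp (u a) _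
    (o_und (u a)) ⟨c a, (hc a).1⟩ (ρ a) (hc a).2.1
  have := hConf.fin
  obtain ⟨θ, n, h1, h2, h3⟩ := exists_theta S.p S.hk (⋃ a, s₀ a) (Set.finite_iUnion hfin)
  have hDθ : (D θ : ℚ) ≠ 0 := Nat.cast_ne_zero.2
    (minpoly.natDegree_pos (Algebra.IsAlgebraic.isAlgebraic _).isIntegral).ne'
  have key : ∀ a, lam _ (x a) / nO ((u a).und S.F) =
      ((minpoly (S.M.κ T.s) (algebraMap S.k T.V.K θ)).natDegree : ℚ) / D θ *
        xz T lam' (c a) (φ (c a)) := fun a => by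
    have e := hs₀ a θ ⟨⟨n, h1, h2⟩, (Set.subset_iUnion s₀ a).trans h3⟩ (x a)
      fun h => hCyc.ne a (by simp only [h, map_zero])
    have h0 : (nO ((u a).und S.F) : ℚ) ≠ 0 := Nat.cast_ne_zero.2
      ((Set.ncard_pos (hB.u1.fin _)).2 ⟨u a, o_und (u a)⟩).ne'
    rw [ext_neg T lam' (hc a).1, sd.val a, div_mul_eq_mul_div, div_eq_div_iff h0 hDθ]
    linear_combination -e
  rw [finsum_congr key, ← mul_finsum, hz, mul_zero]

end Pool.Agent.MP_f3836a_nt.PK
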