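import Pool.Agent.MP_f3836a_nt.PK.SpecG
import Pool.Agent.MP_f3836a_nt.PK.Main2

set_option autoImplicit false

/-! Row GNice: the boundary map on a surface, as a sum over valuations. -/

namespace Pool.Agent.MP_f3836a_nt.PK

open MvPolynomial IsLocalRing Stp

universe u

namespace GNice

theorem fp_sub {α M : Type u} [CommMonoid M] (p : α → Prop) (f : ∀ a, p a → M) :
    ∏ᶠ (a) (h : p a), f a h = ∏ᶠ a : Subtype p, f a.1 a.2 := by
  classical
  have h1 : ∀ a, ∏ᶠ (h : p a), f a h = ∏ᶠ (_ : p a), ∏ᶠ (h : p a), f a h := fun a => by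
    by_cases h : p a <;> simp [finprod_eq_dif, h]
  rw [finprod_congr h1, ← finprod_subtype_eq_finprod_cond]
  exact finprod_congr fun a => by rw [finprod_eq_dif, dif_pos a.2]

theorem sig {A : Type u} {B : A → Type u} (t : (Σ a, B a) → ℚ) (ht : {i | t i ≠ 0}.Finite) :
    ∑ᶠ i, t i = ∑ᶠ (a) (b), t ⟨a, b⟩ := by
  rw [EDesc.fibre Sigma.fst t ht]
  refine finsum_congr fun a => ?_
  rw [← finsum_mem_range (f := t) (sigma_mk_injective (i := a)), Set.range_sigmaMk]
  rfl

theorem lam_one {κ : Type u} [Field κ] {lam : κ → ℚ} (h : Addv lam) : lam 1 = 0 := by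
  have := h 1 1 one_ne_zero one_ne_zero
  rw [mul_one] at this
  linarith

theorem lam_fp {κ B : Type u} [Field κ] {lam : κ → ℚ} (h : Addv lam) (v : B → κ)
    (hv : ∀ b, v b ≠ 0) (hf : {b | v b ≠ 1}.Finite) : lam (∏ᶠ b, v b) = ∑ᶠ b, lam (v b) := by
  classical
  have key : ∀ s : Finset B, lam (∏ b ∈ s, v b) = ∑ b ∈ s, lam (v b) := fun s => by
    induction s using Finset.induction_on with
    | empty => simpa using lam_one h
    | insert a s ha ih =>
      rw [Finset.prod_insert ha, Finset.sum_insert ha,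
        h _ _ (hv a) (Finset.prod_ne_zero_iff.2 fun b _ => hv b), ih]
  refine ((congrArg lam (finprod_eq_prod v hf)).trans (key _)).trans
    (finsum_eq_sum_of_support_subset _ fun b hb => ?_).symm
  exact (Set.Finite.mem_toFinset hf).2 fun e => hb ((congrArg lam e).trans (lam_one h))

variable {S : Stp.{u}} (T : S.Srf)

/-- the norm of the tame symbol -/
noncomputable def nt (f g : S.M.κ T.s) (i : T.I) : S.M.κ i.1.1 :=
  nrmO (PT.toRes i.2.2) (tameR i.2.1.toSubring (resW i.2.1) f g)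

/-- the same on a fibre -/
noncomputable def nw (f g : S.M.κ T.s) (c : {c : S.H // c.IsCv ∧ T.s.P ≤ c.P})
    (W : {W : ValuationSubring (S.M.κ T.s) // PT.Dom (S.M.e T.s c.1 c.2.2) W}) : S.M.κ c.1 :=
  nt T f g ⟨c, W⟩

theorem bd_eq (f g : S.M.κ T.s) (c : {c : S.H // c.IsCv ∧ T.s.P ≤ c.P}) :
    S.M.bd T.s c.1 f g = ∏ᶠ W, nw T f g c W := by
  rw [Mod.bd, dif_pos c.2.2, bdry_eq, fp_sub]
  rfl

theorem bd_one (f g : S.M.κ T.s) {c : S.H} (h : ¬ T.s.P ≤ c.P) : S.M.bd T.s c f g = 1 :=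
  dif_neg h

variable {T} {b : T.J → T.I} (hb : T.Fm b) {f g : S.M.κ T.s}
include hb

theorem dva (i : T.I) : DVA i.2.1.toSubring (resW i.2.1) := rDVA _ _ _ _ (hb.dv i)

theorem nt_ne (hf : f ≠ 0) (hg : g ≠ 0) (i : T.I) : nt T f g i ≠ 0 :=
  nrmO_ne _ ((dva hb i).ne f g hf hg)

theorem nt_swap (hf : f ≠ 0) (hg : g ≠ 0) (i : T.I) : nt T f g i * nt T g f i = 1 := by
  rw [nt, nt, ← nrmO_mul, (dva hb i).swap f g hf hg, nrmO_one]

theorem nt_fin (f g : S.M.κ T.s) : {i | nt T f g i ≠ 1}.Finite := by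
  have h := (pFinI _ _ _ _ _ _ _ _ _ _ _ hb).1
  refine ((h f).union (h g)).subset fun i hi => by_contra fun k => hi ?_
  rw [Set.mem_union, not_or] at k
  rw [nt, (dva hb i).one f g (not_not.1 k.1) (not_not.1 k.2), nrmO_one]

theorem nt_fib (f g : S.M.κ T.s) (c : {c : S.H // c.IsCv ∧ T.s.P ≤ c.P}) :
    Function.HasFiniteMulSupport (nw T f g c) :=
  (nt_fin hb f g).preimage (sigma_mk_injective (i := c)).injOn

end GNice

open GNice in
theorem rNice : RNice.{u} := by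
  intro S T b hs hb
  refine ⟨⟨hs, fun c f g hc hf hg => ?_, fun f g _ _ => ?_, fun c f g hc hf hg => ?_⟩,
    fun lam hl => ⟨fun i x y hx hy => ?_, fun f g hf hg => ?_⟩⟩
  · by_cases h : T.s.P ≤ c.P
    · rw [bd_eq T f g ⟨c, hc, h⟩]
      exact finprod_induction (· ≠ 0) one_ne_zero (fun _ _ => mul_ne_zero) fun W => nt_ne hb hf hg _
    · rw [bd_one T f g h]
      exact one_ne_zero
  · refine ((nt_fin hb f g).image fun i => i.1.1).subset fun c hc => ?_
    have h : T.s.P ≤ c.P := by_contra fun h => hc.2 (bd_one T f g h)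
    by_contra k
    refine hc.2 ((bd_eq T f g ⟨c, hc.1, h⟩).trans (finprod_eq_one_of_forall_eq_one fun W => ?_))
    exact by_contra fun e => k ⟨⟨⟨c, hc.1, h⟩, W⟩, e, rfl⟩
  · by_cases h : T.s.P ≤ c.P
    · rw [bd_eq T f g ⟨c, hc, h⟩, bd_eq T g f ⟨c, hc, h⟩,
        ← finprod_mul_distrib (nt_fib hb f g _) (nt_fib hb g f _)]
      exact finprod_eq_one_of_forall_eq_one fun W => nt_swap hb hf hg _
    · rw [bd_one T f g h, bd_one T g f h, mul_one]
  · unfold Srf.lamI
    rw [nrmO_mul]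
    exact hl _ _ _ (nrmO_ne _ hx) (nrmO_ne _ hy)
  · have h1 := sig (fun i : T.I => lam i.1.1 (nt T f g i)) ((nt_fin hb f g).subset
      fun i hi e => hi (by rw [e, lam_one (hl _)]))
    refine h1.trans ((finsum_congr fun c => ?_).trans ((finsum_subtype_eq_finsum_cond
      (f := fun c => lam c (S.M.bd T.s c f g)) fun c => c.IsCv ∧ T.s.P ≤ c.P).trans
        (finsum_congr fun c => ?_)))
    · rw [bd_eq, lam_fp (hl _) (nw T f g c) (fun W => nt_ne hb hf hg ⟨c, W⟩) (nt_fib hb f g c)]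
      rfl
    · by_cases h : T.s.P ≤ c.P
      · simp only [h, and_true]
      · simp [bd_one T f g h, lam_one (hl c)]

end Pool.Agent.MP_f3836a_nt.PK
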