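import Pool.Agent.MP_f3836a_nt.PK.SpecG
import Pool.Agent.MP_f3836a_nt.PK.ELen

set_option autoImplicit false

/-! Row GPb1: lengths after extension of the ground field. -/

namespace Pool.Agent.MP_f3836a_nt.PK

open MvPolynomial IsLocalRing Stp

universe u

namespace GPb1

section
variable {F K : Type u} [Field F] [Field K] [Algebra F K] {N : ℕ} {η : Fin (N + 1) → K}

theorem q_prime {c x : Ctr F η} (h : c.P ≤ x.P) : (EYA.q h).IsPrime := Ideal.comap_isPrime _ _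

theorem le_of_q {c : Hp F η} {c₁ x : Ctr F η} (hx : x.Good) (h : c.P ≤ x.P) (h₁ : c₁.P ≤ x.P)
    (e : EYA.q h ≤ EYA.q h₁) : c.P ≤ c₁.P :=
  c.le_of fun _ _ hA hP => (EYA.q_lx h₁ hx hA).1 (e ((EYA.q_lx h hx hA).2 hP))

theorem hp_le (x : Pt F η) : x.hp.P ≤ x.ctr.P := x.hp.le_of fun _ _ hA hP => (x.mem_hp hA).1 hP

theorem le_hp {c : Hp F η} {x : Pt F η} (h : c.P ≤ x.ctr.P) : c.P ≤ x.hp.P :=
  c.le_of fun _ _ hA hP => (x.mem_hp hA).2 (h hP)

theorem q_hp (x : Pt F η) (h : x.hp.P ≤ x.ctr.P) : EYA.q h = maximalIdeal x.ctr.O :=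
  Ideal.ext fun b => by
    obtain ⟨n, A, B, hA, hB, hP, e⟩ := b.2
    rw [EYA.mem_q, x.ctr.mem_max_iff b hA hB hP e,
      x.hp.mem_max_iff _ hA hB (fun h' => hP (h h')) e, x.mem_hp hA, Pt.mem_P]

end

theorem fx_q {S : Stp.{u}} {c' : S.H'} {c : S.H} (ho : O c' c) {x : Pt S.k (up S.K S.η)}
    (h : c.P ≤ (pu x).P) (h' : c'.P ≤ x.ctr.P) (b : (pu x).O) :
    fx x b ∈ EYA.q h' ↔ b ∈ EYA.q h := inc_max ho ⟨b, EYA.le h b.2⟩

theorem toNat_sum {ι : Type*} (s : Finset ι) (g : ι → ℕ∞) (h : ∑ i ∈ s, g i ≠ ⊤) :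
    ((∑ i ∈ s, g i).toNat : ℤ) = ∑ i ∈ s, ((g i).toNat : ℤ) := by
  have h1 : ∑ i ∈ s, g i = ((∑ i ∈ s, (g i).toNat : ℕ) : ℕ∞) := by
    rw [Nat.cast_sum]
    exact Finset.sum_congr rfl fun i hi => (ENat.natCast_toNat (ne_top_of_le_ne_top h
      (Finset.single_le_sum (fun _ _ => zero_le) hi))).symm
  rw [h1, ENat.toNat_natCast, Nat.cast_sum]

end GPb1

open GPb1 in
theorem rPb1 : RBr2.{u} → RQd.{u} → RPb1.{u} := by
  classical
  intro hBr hQd S hb c x h a hc ha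
  have hxc : x.hp.Cl := (hb.u1.pt _).2 ⟨x, rfl⟩
  have hfin : {c' : S.H' | O c' c ∧ c'.P ≤ x.ctr.P}.Finite := (hb.u1.fin c).subset fun _ h => h.1
  let Q : S.H' → Ideal x.ctr.O := fun c' => if h' : c'.P ≤ x.ctr.P then EYA.q h' else ⊤
  have hQ : ∀ (c' : S.H') (h' : c'.P ≤ x.ctr.P), Q c' = EYA.q h' := fun c' h' => dif_pos h'
  have hs : ∀ J, J ∈ hfin.toFinset.image Q ↔
      ∃ c' : S.H', O c' c ∧ ∃ h' : c'.P ≤ x.ctr.P, EYA.q h' = J := fun J => by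
    rw [Finset.mem_image]
    exact ⟨fun ⟨c', h1, h2⟩ => ⟨c', (hfin.mem_toFinset.1 h1).1, (hfin.mem_toFinset.1 h1).2,
      (hQ _ _).symm.trans h2⟩,
      fun ⟨c', h1, h2, h3⟩ => ⟨c', hfin.mem_toFinset.2 ⟨h1, h2⟩, (hQ _ h2).trans h3⟩⟩
  have hJ : ∀ J : Ideal x.ctr.O, (EYA.q h).map (fx x) ≤ J → J.IsPrime →
      J ∈ hfin.toFinset.image Q ∨ J = maximalIdeal x.ctr.O := fun J h1 h2 => by
    obtain ⟨c', h', rfl⟩ := exists_hp_q x.good J h2
    have h0 : (c'.und S.F).P ≤ (pu x).P := Hp.und_le (le_hp h')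
    have h3 : c.P ≤ (c'.und S.F).P := le_of_q (pu x).good h h0 fun b hb =>
      (fx_q (o_und c') h0 h' b).1 (h1 (Ideal.mem_map_of_mem _ hb))
    rcases h3.eq_or_lt with e | e
    · exact Or.inl ((hs _).2 ⟨c', o_iff.2 (Hp.ext_P e.symm), h', rfl⟩)
    · obtain rfl : x.hp = c' :=
        Hp.ext_P ((hb.u1.cl c' _ (o_und c')).2 (hc.2 _ e) x.hp (le_hp h'))
      exact Or.inr (q_hp x h')
  have hr : ∀ I : Ideal x.ctr.O, (∀ J, (EYA.q h).map (fx x) ≤ J → J.IsPrime → I ≤ J) →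
      I ≤ (EYA.q h).map (fx x) := fun I hI =>
    le_trans (by rw [Ideal.radical_eq_sInf]; exact le_sInf fun J hJ => hI J hJ.1 hJ.2)
      (hb.fl.rad x _ (q_prime h))
  have hne : (hfin.toFinset.image Q).Nonempty := Finset.nonempty_iff_ne_empty.2 fun e => by
    have h1 := hr (maximalIdeal _) fun J h1 h2 =>
      ((hJ J h1 h2).resolve_left (by rw [e]; exact Finset.notMem_empty J)).ge
    have h2 : (pu x).P ≤ c.P := (pu x).le_of fun n A hA hP => by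
      rw [← EYA.q_lx h (pu x).good hA, ← hb.fl.con x (EYA.q h), Ideal.mem_comap]
      exact h1 ((fx_max x _).2 ((Ctr.lx_mem_max (pu x).good (Form.of hA)).2 hP))
    obtain rfl : c = pu x := Hp.ext_P (le_antisymm h h2)
    exact hc.1 ((hb.u1.cl _ _ (o_pu x)).1 hxc)
  have hinf : (hfin.toFinset.image Q).inf id = (EYA.q h).map (fx x) := by
    refine le_antisymm (hr _ fun J h1 h2 => (hJ J h1 h2).elim (Finset.inf_le (f := id)) fun e => ?_)
      (Finset.le_inf fun J hJ => ?_)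
    · obtain ⟨J', h3⟩ := hne
      obtain ⟨c', -, h', rfl⟩ := (hs J').1 h3
      exact (Finset.inf_le (f := id) h3).trans (e.symm.subst (motive := (EYA.q h' ≤ ·))
        (le_maximalIdeal (q_prime h').ne_top))
    · obtain ⟨c', ho, h', rfl⟩ := (hs J).1 hJ
      exact Ideal.map_le_iff_le_comap.2 fun b hb => (fx_q ho h h' b).2 hb
  have := Ctr.noeth x.good
  have h1 := hBr x.ctr.O (hfin.toFinset.image Q) (fx x a) fun J hJ => by
    obtain ⟨c', ho, h', rfl⟩ := (hs J).1 hJ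
    have hc' := hb.u1.cv c' c ho hc
    refine ⟨q_prime h', fun e => hc'.1 ?_, hQd _ _ _ _ c' x.ctr h' hc' x.good,
      fun e => ha ((fx_q ho h h' a).1 e)⟩
    rwa [Hp.ext_P (le_antisymm (le_hp h') (le_of_q x.good (hp_le x) h'
      ((q_hp x _).trans e.symm).le))]
  obtain ⟨h2, h3⟩ := hb.loc.len c (pu x) h a hc ha
  have h4 := rLen _ _ (fx x) (hb.fl.max x) (hb.fl.con x) _ h2
  rw [Ideal.map_sup, Ideal.map_span, Set.image_singleton, ← hinf, h1] at h4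
  rw [h3, ← h4, toNat_sum _ _ (h4.trans_ne h2), Finset.sum_image fun c₁ k₁ c₂ k₂ e => ?_,
    finsum_eq_sum_of_support_subset (s := hfin.toFinset) _ fun c' h' => ?_]
  · refine Finset.sum_congr rfl fun c' h' => ?_
    obtain ⟨k₁, k₂⟩ := hfin.mem_toFinset.1 h'
    rw [finsum_eq_if, if_pos k₁, finsum_eq_dif, dif_pos k₂, hQ c' k₂]
  · by_contra hn
    refine h' ?_
    beta_reduce
    rw [finsum_eq_if, finsum_eq_dif]
    split_ifs with k₁ k₂
    exacts [absurd (hfin.mem_toFinset.2 ⟨k₁, k₂⟩) hn, rfl, rfl]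
  · have k₃ := (hfin.mem_toFinset.1 k₁).2
    have k₄ := (hfin.mem_toFinset.1 k₂).2
    rw [hQ c₁ k₃, hQ c₂ k₄] at e
    exact Hp.ext_P (le_antisymm (le_of_q x.good k₃ k₄ e.le) (le_of_q x.good k₄ k₃ e.ge))

end Pool.Agent.MP_f3836a_nt.PK
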