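import Pool.Agent.MP_f3836a_nt.PK.SpecG

set_option autoImplicit false

/-! Orders on a curve over the finite field are sums of orders over the algebraic closure. -/

namespace Pool.Agent.MP_f3836a_nt.PK

open MvPolynomial IsLocalRing

universe u

namespace GPb2

theorem len {R S : Type u} [CommRing R] [CommRing S] (f : R →+* S) (hf : Function.Surjective f)
    (b : R) : Module.length R (R ⧸ (RingHom.ker f ⊔ Ideal.span {b})) = Ring.ord S (f b) := by
  let _ : Algebra R S := f.toAlgebra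
  have h1 : Module.length R (S ⧸ Ideal.span {f b}) = Module.length S (S ⧸ Ideal.span {f b}) :=
    Module.length_eq_of_surjective hf
  let g : R →ₗ[R] S ⧸ Ideal.span {f b} := Algebra.linearMap R (S ⧸ Ideal.span {f b})
  have hg : ∀ a, g a = Ideal.Quotient.mk _ (f a) := fun _ => rfl
  have hs : Function.Surjective g := fun y => by
    obtain ⟨s, rfl⟩ := Ideal.Quotient.mk_surjective y
    obtain ⟨a, rfl⟩ := hf s
    exact ⟨a, rfl⟩
  have hker : LinearMap.ker g = RingHom.ker f ⊔ Ideal.span {b} := by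
    ext a
    rw [LinearMap.mem_ker, hg, Ideal.Quotient.eq_zero_iff_mem, Ideal.mem_span_singleton',
      sup_comm, Ideal.mem_span_singleton_sup]
    constructor
    · rintro ⟨s, hs⟩
      obtain ⟨c, rfl⟩ := hf s
      exact ⟨c, a - c * b, by rw [RingHom.mem_ker, map_sub, map_mul, hs, sub_self], by ring⟩
    · rintro ⟨c, d, hd, rfl⟩
      exact ⟨f c, by rw [map_add, map_mul, RingHom.mem_ker.1 hd, add_zero]⟩
  rw [Ring.ord, ← h1, ← hker]
  exact (g.quotKerEquivOfSurjective hs).length_eq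

theorem fz {p : Prop} (F : p → ℤ) (h : ∀ i, F i = 0) : ∑ᶠ i, F i = 0 :=
  (finsum_congr h).trans finsum_zero

variable {k K : Type u} [Field k] [Field K] [Algebra k K] {N : ℕ} {ξ : Fin (N + 1) → K}

/-- a point on the subvariety -/
def pt (c : Hp k ξ) (x : Pt k ξ) (h : c.P ≤ x.ctr.P) : Pt k c.var.ξ :=
  ⟨x.z, x.norm, fun _ _ hG e => h ((c.eta_zero hG).1 e)⟩

theorem le_of_cen {c : Hp k ξ} (hc : CrvF c.var) {x : Pt k ξ} {P : Place k c.var.K}
    (h : Cen c.var.ξ x.z P) : c.P ≤ x.ctr.P := by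
  obtain ⟨y, hy⟩ := hc.ca.cen.ex P
  refine c.le_of fun n A hA h1 => ?_
  rw [Pt.mem_P, hc.ca.cen.uniq _ _ P h hy]
  exact y.van n A hA ((c.eta_zero hA).2 h1)

/-- the sum over the branches -/
noncomputable def T (c : Hp k ξ) (x : Pt k ξ) (g : c.var.K) : ℤ :=
  ∑ᶠ (P : Place k c.var.K) (_ : Cen c.var.ξ x.z P), P.ord g

theorem T_zero {c : Hp k ξ} (hc : CrvF c.var) {x : Pt k ξ} (h : ¬ c.P ≤ x.ctr.P) (g : c.var.K) :
    T c x g = 0 :=
  finsum_eq_zero_of_forall_eq_zero fun _ => fz _ fun hP =>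
    absurd (le_of_cen hc hP) h

theorem T_eq {c : Hp k ξ} (hc : CrvF c.var) {x : Pt k ξ} (h : c.P ≤ x.ctr.P) {g : c.var.K}
    (hg : g ≠ 0) : T c x g = ordR (pt c x h).ctr.O g := (hc.ba.ord (pt c x h) g hg).symm

theorem T_mul {c : Hp k ξ} (hc : CrvF c.var) (x : Pt k ξ) {f g : c.var.K} (hf : f ≠ 0)
    (hg : g ≠ 0) : T c x (f * g) = T c x f + T c x g := by
  by_cases h : c.P ≤ x.ctr.P
  · have := Ctr.noeth (pt c x h).good
    have := hc.ba.dim (pt c x h)
    rw [T_eq hc h hf, T_eq hc h hg, T_eq hc h (mul_ne_zero hf hg)]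
    exact Ord.mul (c.var.gen.frac (pt c x h).good) f g hf hg
  · rw [T_zero hc h, T_zero hc h, T_zero hc h, add_zero]

theorem T_len {c : Hp k ξ} (hc : CrvF c.var) {x : Pt k ξ} (h : c.P ≤ x.ctr.P) (b : x.ctr.O)
    {g : c.var.K} (hg : g ≠ 0) (e : g = residue c.O (Subring.inclusion (EYA.le h) b)) :
    T c x g = (Module.length x.ctr.O (x.ctr.O ⧸ (EYA.q h ⊔ Ideal.span {b}))).toNat := by
  have hs : Sub k ξ c.var.ξ := c.sub_eta
  obtain ⟨r, hr⟩ := exists_rst hs x.ctr (pt c x h).ctr fun _ _ _ => Iff.rfl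
  have h1 : ∀ a : x.ctr.O, (r a : c.var.K) = residue c.O (Subring.inclusion (EYA.le h) a) := by
    intro a
    obtain ⟨n, A, B, hA, hB, hP, e⟩ := a.2
    have h0 : aeval c.var.ξ B ≠ 0 := fun h0 => hP (h ((c.eta_zero hB).1 h0))
    refine mul_right_cancel₀ h0 ?_
    exact (hr.frac a n A B hA hB hP e).trans (c.res_frac _ hA hB e).symm
  have h2 : RingHom.ker (r : x.ctr.O →+* (pt c x h).ctr.O) = EYA.q h := by
    ext a
    rw [RingHom.mem_ker, ← ZeroMemClass.coe_eq_zero]
    exact (h1 a).symm ▸ residue_eq_zero_iff _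
  have := Ctr.noeth (pt c x h).good
  have := hc.ba.dim (pt c x h)
  rw [← h1] at e
  rw [T_eq hc h hg, e, Ord.coe fun h0 => hg (e.trans (congrArg Subtype.val h0)), ← h2,
    len (r : x.ctr.O →+* (pt c x h).ctr.O) hr.surj]
  rfl

end GPb2

open GPb2 Stp in
theorem rPbA : RPbA.{u} := by
  classical
  intro S hB h1 c x f hc hf
  let G : S.M.κ c → ℤ := fun g => ∑ᶠ (c' : S.H') (h : O c' c), T c' x (nu h g)
  change G f = _
  by_cases h : c.P ≤ (pu x).P
  · have fin : ∀ g, (Function.support fun c' : S.H' => ∑ᶠ h : O c' c, T c' x (nu h g)).Finite :=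
      fun g => (hB.u1.fin c).subset fun c' h0 => by_contra fun hn =>
        h0 (fz _ fun h => absurd h hn)
    have mul : ∀ g g', g ≠ 0 → g' ≠ 0 → G (g * g') = G g + G g' := fun g g' hg hg' => by
      refine Eq.trans (finsum_congr fun c' => ?_) (finsum_add_distrib (fin g) (fin g'))
      simp only [finsum_eq_dif]
      split_ifs with o
      · rw [map_mul, T_mul (hB.crv c' c o hc) x ((map_ne_zero _).2 hg) ((map_ne_zero _).2 hg')]
      · exact (add_zero _).symm
    have one : ∀ g ∈ (S.M.e c (pu x) h).range, g ≠ 0 → G g = S.M.ord c (pu x) g := by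
      intro g hg h0
      rw [S.M.range_e] at hg
      obtain ⟨a, rfl⟩ := hg
      rw [h1 c x h a hc fun ha => h0 ((S.M.rr_eq_zero h a).2 ha)]
      refine finsum_congr fun c' => finsum_congr fun o => ?_
      rw [finsum_eq_dif]
      split_ifs with h'
      · exact T_len (hB.crv c' c o hc) h' _ ((map_ne_zero _).2 h0) (nu_r o _)
      · exact T_zero (hB.crv c' c o hc) h' _
    obtain ⟨a, b, hb, e⟩ := (hB.loc.rng c (pu x) h hc).2.2 f
    have h2 := mul f b hf hb
    have h3 := hB.loc.omul c (pu x) f b hc hf hb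
    rw [e] at h2 h3
    rw [one _ a.2 (e ▸ mul_ne_zero hf hb), one _ b.2 hb] at h2
    omega
  · rw [Mod.ord, dif_neg h]
    refine finsum_eq_zero_of_forall_eq_zero fun c' => fz _ fun o => ?_
    exact T_zero (hB.crv c' c o hc) (fun h' => h (c.le_of fun n A hA h2 =>
      (mem_pu x hA).2 (h' ((o n A hA).1 h2)))) _

end Pool.Agent.MP_f3836a_nt.PK
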