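import Pool.Agent.MP_f3836a_nt.PK.SpecG
import Pool.Agent.MP_f3836a_nt.PK.EMean
import Pool.Agent.MP_f3836a_nt.PK.EBT

set_option autoImplicit false

/-! The frequency of a factor. -/

namespace Pool.Agent.MP_f3836a_nt.PK

open Polynomial IsLocalRing

universe u

namespace GProb

theorem val_one {Ω : Type u} [Field Ω] (V : ValuationSubring Ω) {q : ℕ} (hq : 1 < q) {a : Ω}
    (h : a ^ q = a) (h0 : a ≠ 0) : V.valuation a = 1 := by
  obtain ⟨t, rfl⟩ : ∃ t, q = t + 1 := ⟨q - 1, by omega⟩
  have h1 : a ^ t = 1 := mul_right_cancel₀ h0 (by rw [← pow_succ, h, one_mul])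
  have h2 : V.valuation a ^ t = 1 := by rw [← map_pow, h1, map_one]
  exact (pow_eq_one_iff_of_nonneg zero_le (by omega)).1 h2

open Classical in
theorem cnt {k ι : Type u} [Field k] (s : Finset ι) (t : ι → k) (ht : Set.InjOn t s) (g : k[X])
    (hg : g ∣ ∏ a ∈ s, (X - C (t a))) :
    (s.filter fun a => g.eval (t a) = 0).card = g.natDegree := by
  have hm : (∏ a ∈ s, (X - C (t a))).Monic := monic_prod_of_monic _ _ fun a _ => monic_X_sub_C _
  have hs : g.Splits := (Splits.prod fun a _ => Splits.X_sub_C (t a)).of_dvd hm.ne_zero hg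
  have g0 : g ≠ 0 := ne_zero_of_dvd_ne_zero hm.ne_zero hg
  have hr : (∏ a ∈ s, (X - C (t a))).roots = s.val.map t := by
    rw [← roots_multiset_prod_X_sub_C (s.val.map t), Multiset.map_map]
    rfl
  have hle : g.roots ≤ s.val.map t := hr ▸ roots.le_of_dvd hm.ne_zero hg
  have hnd : g.roots.Nodup :=
    Multiset.nodup_of_le hle (s.nodup.map_on fun a ha b hb h => ht ha hb h)
  rw [hs.natDegree_eq_card_roots, ← Multiset.toFinset_card_of_nodup hnd,
    ← Finset.card_image_of_injOn (ht.mono (Finset.coe_subset.2 (Finset.filter_subset _ s)))]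
  congr 1
  ext y
  rw [Finset.mem_image, Multiset.mem_toFinset]
  constructor
  · rintro ⟨a, ha, rfl⟩
    exact (mem_roots g0).2 (Finset.mem_filter.1 ha).2
  · intro hy
    obtain ⟨a, ha, rfl⟩ := Multiset.mem_map.1 (Multiset.mem_of_le hle hy)
    exact ⟨a, Finset.mem_filter.2 ⟨ha, (mem_roots g0).1 hy⟩, rfl⟩

theorem avg {K Ω : Type u} [Field K] [Field Ω] [Algebra K Ω] [IsAlgClosed Ω]
    [Algebra.IsAlgebraic K Ω] {M : ((Ω ≃ₐ[K] Ω) → ℚ) → ℚ} (hM : Mean M) (θ : Ω) (χ : Ω → ℚ)
    (s : Finset Ω) (hs : ∀ a, a ∈ s ↔ a ∈ (minpoly K θ).aroots Ω) :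
    M (fun σ => χ (σ θ)) * s.card = ∑ a ∈ s, χ a := by
  have adm : ∀ a : Ω, Adm fun σ : Ω ≃ₐ[K] Ω => χ (σ a) := fun a =>
    rAdm K Ω {a} _ (Set.finite_singleton a) fun σ τ h => by rw [h a rfl]
  have h1 : ∀ a ∈ s, M (fun σ => χ (σ a)) = M fun σ => χ (σ θ) := fun a ha => by
    obtain ⟨g, rfl⟩ := EBT.conj ((hs a).1 ha)
    exact hM.right (fun σ => χ (σ θ)) g (adm θ)
  have h2 : ∀ σ : Ω ≃ₐ[K] Ω, ∑ a ∈ s, χ (σ a) = ∑ a ∈ s, χ a := fun σ =>
    Finset.sum_equiv σ.toEquiv (fun a => by
      rw [hs, hs, mem_aroots, mem_aroots]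
      change _ ↔ _ ∧ aeval (σ a) _ = 0
      rw [aeval_algHom_apply, map_eq_zero_iff _ σ.injective]) fun _ _ => rfl
  have h3 := hM.sum Ω s (fun a σ => χ (σ a)) fun a _ => adm a
  simp only [h2] at h3
  rw [hM.const] at h3
  rw [h3, Finset.sum_congr rfl h1, Finset.sum_const, nsmul_eq_mul, mul_comm]

open Classical in
/-- the part of an element in the valuation ring -/
noncomputable def lf {Ω : Type u} [Field Ω] (V : ValuationSubring Ω) (a : Ω) : V :=
  if h : a ∈ V then ⟨a, h⟩ else 0

theorem coe_lf {Ω : Type u} [Field Ω] {V : ValuationSubring Ω} {a : Ω} (h : a ∈ V) :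
    (lf V a : Ω) = a := by
  rw [lf, dif_pos h]

theorem res_zero {Ω : Type u} [Field Ω] {V : ValuationSubring Ω} (a : V) :
    residue V a = 0 ↔ (a : Ω) ∈ V.nonunits := by
  rw [residue_eq_zero_iff, ValuationSubring.coe_mem_nonunits_iff]

end GProb

open GProb in
theorem rProb : RProb.{u} := by
  classical
  intro K Ω κ _ _ _ _ _ _ O r V M p n θ μ m hM hO hV hp h0 hn hθ hμ hm hd
  have : Fact p.Prime := ⟨hp⟩
  have : CharP Ω p := (CharP.charP_iff_prime_eq_zero hp).2 h0
  have hq : 1 < p ^ n := Nat.one_lt_pow (by omega) hp.one_lt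
  have hI := (Algebra.IsAlgebraic.isAlgebraic (R := K) θ).isIntegral
  have hP := (minpoly.monic hI).map (algebraMap K Ω)
  have hfix : ∀ a ∈ (minpoly K θ).aroots Ω, a ^ p ^ n = a := fun a ha => by
    obtain ⟨σ, rfl⟩ := EBT.conj ha
    rw [← map_pow, hθ]
  have hnd : ((minpoly K θ).aroots Ω).Nodup := by
    have h1 : minpoly K θ ∣ X ^ p ^ n - X := minpoly.dvd K θ (by simp [hθ])
    have h2 := Polynomial.map_dvd (algebraMap K Ω) h1
    rw [Polynomial.map_sub, Polynomial.map_pow, map_X] at h2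
    exact nodup_roots
      ((galois_poly_separable (K := Ω) p (p ^ n) (dvd_pow_self p (by omega))).of_dvd h2)
  set s : Finset Ω := ⟨_, hnd⟩ with hs
  have hcard : s.card = μ.natDegree := by
    rw [← natDegree_map_eq_of_injective O.subtype_injective μ, hμ]
    exact IsAlgClosed.card_aroots_eq_natDegree
  have hmem : ∀ a ∈ s, a ∈ V := fun a ha => by
    by_cases h : a = 0
    · rw [h]; exact V.zero_mem
    · exact (V.valuation_le_one_iff a).1 (val_one V hq (hfix a ha) h).le
  let ι : O →+* V := (algebraMap K Ω).restrict O V fun f hf => (hV f).1 hf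
  have hι : V.subtype.comp ι = (algebraMap K Ω).comp O.subtype := rfl
  have hker : RingHom.ker r ≤ RingHom.ker ((residue V).comp ι) := fun a ha => by
    rw [RingHom.mem_ker] at ha ⊢
    rw [RingHom.comp_apply, residue_eq_zero_iff, mem_maximalIdeal, mem_nonunits_iff]
    intro hu
    refine (hO.ker a).1 ha ?_
    obtain ⟨b, hb⟩ := hu.exists_right_inv
    have h1 : algebraMap K Ω a * b = 1 := congrArg Subtype.val hb
    have h2 : (a : K) ≠ 0 := fun h => by simp [h] at h1
    have h3 : (a : K)⁻¹ ∈ O := by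
      rw [hV, map_inv₀, ← eq_inv_of_mul_eq_one_right h1]
      exact b.2
    exact IsUnit.of_mul_eq_one ⟨_, h3⟩ (Subtype.ext (mul_inv_cancel₀ h2))
  let φ : κ →+* ResidueField V := r.liftOfSurjective hO.surj ⟨(residue V).comp ι, hker⟩
  have hφ : φ.comp r = (residue V).comp ι := RingHom.ext fun a =>
    RingHom.liftOfSurjective_comp_apply r hO.surj ⟨(residue V).comp ι, hker⟩ a
  have hμι : μ.map ι = ∏ a ∈ s, (X - C (lf V a)) := by
    refine map_injective V.subtype V.subtype_injective ?_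
    rw [Polynomial.map_map, hι, ← Polynomial.map_map, hμ, Polynomial.map_prod,
      (IsAlgClosed.splits _).eq_prod_roots_of_monic hP]
    refine Finset.prod_congr (s₁ := s) rfl fun a ha => ?_
    rw [Polynomial.map_sub, map_X, map_C]
    exact congrArg (fun y => X - C y) (coe_lf (hmem a ha)).symm
  have hdv : (m.map ι).map (residue V) ∣ ∏ a ∈ s, (X - C (residue V (lf V a))) := by
    have h1 := Polynomial.map_dvd φ hd
    rw [Polynomial.map_map, Polynomial.map_map, hφ, ← Polynomial.map_map, ← Polynomial.map_map,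
      hμι, Polynomial.map_prod] at h1
    simpa only [Polynomial.map_sub, map_X, map_C] using h1
  have hinj : Set.InjOn (fun a => residue V (lf V a)) s := fun a ha b hb h => by
    by_contra hne
    have h1 : residue V (lf V a - lf V b) = 0 := by rw [map_sub]; exact sub_eq_zero.2 h
    rw [res_zero, ValuationSubring.mem_nonunits_iff] at h1
    have h2 : ((lf V a - lf V b : V) : Ω) = a - b :=
      congrArg₂ (· - ·) (coe_lf (hmem a ha)) (coe_lf (hmem b hb))
    rw [h2, val_one V hq (by rw [sub_pow_char_pow, hfix a ha, hfix b hb]) (sub_ne_zero.2 hne)] at h1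
    exact lt_irrefl _ h1
  have hc := cnt s _ hinj _ hdv
  rw [((hm.map ι).natDegree_map _).trans (hm.natDegree_map ι)] at hc
  have hev : ∀ a ∈ s, (((m.map ι).map (residue V)).eval (residue V (lf V a)) = 0 ↔
      aeval a (m.map O.subtype) ∈ V.nonunits) := fun a ha => by
    have h1 : (((m.map ι).eval (lf V a) : V) : Ω) = aeval a (m.map O.subtype) := by
      have h2 := eval_map_apply (p := m.map ι) (f := V.subtype) (lf V a)
      rw [Polynomial.map_map, hι, ← Polynomial.map_map, eval_map_algebraMap] at h2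
      exact h2.symm.trans (congrArg (fun y => aeval y (m.map O.subtype)) (coe_lf (hmem a ha)))
    rw [eval_map_apply, res_zero, h1]
  have h := avg hM θ (fun a => if aeval a (m.map O.subtype) ∈ V.nonunits then 1 else 0) s
    fun _ => Iff.rfl
  rw [hcard, Finset.sum_boole, ← Finset.filter_congr hev, hc] at h
  exact h

end Pool.Agent.MP_f3836a_nt.PK
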