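import Pool.Agent.MP_f3836a_nt.PK.SpecG

set_option autoImplicit false

/-! Pull back of a cycle to the algebraic closure. -/

namespace Pool.Agent.MP_f3836a_nt.PK

open MvPolynomial IsLocalRing

universe u

namespace GPull

theorem ordR_one {L : Type u} [Field L] (R : Subring L) : ordR R 1 = 0 := by
  unfold ordR
  split_ifs with h
  · have h1 : h.2.choose.2 = h.2.choose.1 := Subtype.ext ((one_mul _).symm.trans h.2.choose_spec.2)
    rw [h1, sub_self]
  · rfl

theorem fz {p : Prop} {f : p → ℤ} (h : ∀ a, f a = 0) : ∑ᶠ a, f a = 0 :=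
  (finsum_congr h).trans finsum_zero

theorem fibre {I J : Type u} (b : J → I) (h : J → ℤ) (hf : {j | h j ≠ 0}.Finite) :
    ∑ᶠ j, h j = ∑ᶠ i, ∑ᶠ (j) (_ : b j = i), h j := by
  classical
  have e : ∀ i, ∑ᶠ (j) (_ : b j = i), h j = ∑ j ∈ hf.toFinset with b j = i, h j := fun i =>
    finsum_cond_eq_sum_of_cond_iff _ fun hx => by simp [hx]
  simp only [e]
  rw [finsum_eq_sum_of_support_subset (s := hf.toFinset) _ (by rw [hf.coe_toFinset]; rfl),
    finsum_eq_sum_of_support_subset (s := hf.toFinset.image b), Finset.sum_fiberwise_of_maps_to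
      fun j hj => Finset.mem_image_of_mem b hj]
  intro i hi
  obtain ⟨j, hj, -⟩ := Finset.exists_ne_zero_of_sum_ne_zero hi
  obtain ⟨h1, h2⟩ := Finset.mem_filter.1 hj
  exact Finset.mem_coe.2 (Finset.mem_image.2 ⟨j, h1, h2⟩)

open Stp

variable {S : Stp.{u}}

/-- the contribution of one curve at `z` -/
noncomputable def G (φ : ∀ c, S.M.κ c) (z : Fin (S.N + 1) → S.k) (c' : S.H') : ℤ :=
  ∑ᶠ (P : Place S.k c'.var.K) (_ : Cen c'.var.ξ z P), P.ord (nu (o_und c') (φ (c'.und S.F)))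

theorem G_one {φ : ∀ c, S.M.κ c} (z : Fin (S.N + 1) → S.k) {c' : S.H'}
    (h : φ (c'.und S.F) = 1) : G φ z c' = 0 :=
  finsum_eq_zero_of_forall_eq_zero fun P => fz fun _ => by
    rw [h, map_one]
    exact ordR_one _

theorem ord_one (c y : S.H) : S.M.ord c y 1 = 0 := by
  unfold Mod.ord
  split_ifs
  · exact ordR_one _
  · rfl

theorem G_fib (hA : S.PbA) {φ : ∀ c, S.M.κ c} (hφ : Cyc0 S.M φ) (x : Pt S.k (up S.K S.η))
    (c : S.H) : ∑ᶠ (c' : S.H') (_ : c'.und S.F = c), G φ x.z c' = S.M.ord c (pu x) (φ c) := by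
  classical
  by_cases h : φ c = 1
  · rw [h, ord_one]
    exact finsum_eq_zero_of_forall_eq_zero fun c' => fz fun e => G_one _ (by subst e; exact h)
  · rw [← hA c x (φ c) (hφ.cv c h) (hφ.ne c)]
    refine finsum_congr fun c' => ?_
    rw [finsum_eq_dif, finsum_eq_dif]
    by_cases e : c'.und S.F = c
    · subst e
      rw [dif_pos rfl, dif_pos (o_und c')]
      rfl
    · rw [dif_neg e, dif_neg fun h1 => e (o_iff.1 h1)]

end GPull

open GPull Stp

theorem rPullG : RPullG.{u} := by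
  intro S hB hA φ hφ
  have hT : {c' : S.H' | φ (c'.und S.F) ≠ 1}.Finite :=
    (hφ.fin.biUnion fun c _ => hB.u1.fin c).subset fun c' h => Set.mem_biUnion h (o_und c')
  have hc : ∀ a : {c' : S.H' // φ (c'.und S.F) ≠ 1}, CrvF a.1.var := fun a =>
    hB.crv a.1 _ (o_und _) (hφ.cv _ a.2)
  refine ⟨⟨hT.to_subtype, hc, fun a b h => ?_⟩, fun a => (map_ne_zero _).2 (hφ.ne _), fun z => ?_⟩
  · have h1 : b.1.P ≤ a.1.P := b.1.le_of fun n A hA h1 =>
      (a.1.eta_zero hA).1 (h n A hA ((b.1.eta_zero hA).2 h1))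
    have h2 : b.1.und S.F = a.1.und S.F := Hp.ext_P (by_contra fun e =>
      (hφ.cv _ a.2).1 ((hφ.cv _ b.2).2 _ (lt_of_le_of_ne (Hp.und_le h1) e)))
    exact Subtype.ext (hB.u1.inc b.1 a.1 _ h1 (o_iff.2 h2) (o_und _)).symm
  · change ∑ᶠ a : {c' : S.H' // φ (c'.und S.F) ≠ 1}, G φ z a.1 = 0
    by_cases hz : ∃ x : Pt S.k (up S.K S.η), x.z = z
    · obtain ⟨x, rfl⟩ := hz
      have h1 : ∑ᶠ (c' : S.H') (_ : φ (c'.und S.F) ≠ 1), G φ x.z c' = ∑ᶠ c', G φ x.z c' := by
        refine finsum_congr fun c' => ?_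
        by_cases h : φ (c'.und S.F) = 1
        · rw [G_one _ h]
          exact finsum_zero
        · exact finsum_eq_single _ h fun _ e => absurd rfl e
      refine (finsum_subtype_eq_finsum_cond (f := G φ x.z) _).trans (h1.trans ?_)
      rw [fibre (fun c' : S.H' => c'.und S.F) _ (hT.subset fun c' h e => h (G_one _ e)),
        finsum_congr (G_fib hA hφ x)]
      exact hφ.div _ ((hB.u1.cl _ _ (o_pu x)).1 ((hB.u1.pt _).2 ⟨x, rfl⟩))
    · refine finsum_eq_zero_of_forall_eq_zero fun a => finsum_eq_zero_of_forall_eq_zero fun P =>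
        fz fun h => absurd ?_ hz
      obtain ⟨x, hx⟩ := (hc a).ca.cen.ex P
      exact ⟨a.1.sub_eta.pt x, (hc a).ca.cen.uniq _ _ P hx h⟩

end Pool.Agent.MP_f3836a_nt.PK
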