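import Pool.Agent.MP_f3836a_nt.PK.SpecG

set_option autoImplicit false

/-! The valuations centred on curves of a surface, and the curves above them, form a family. -/

namespace Pool.Agent.MP_f3836a_nt.PK

open MvPolynomial IsLocalRing IntermediateField

universe u

namespace GPushA

open Stp

variable {S : Stp.{u}} {T : S.Srf}

/-- a valuation determines its centre -/
theorem inj (hB : S.Bas) (i i' : T.I) (h : i.2.1.toSubring = i'.2.1.toSubring) : i = i' := by
  obtain ⟨⟨c, hc, hs⟩, W, hW⟩ := i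
  obtain ⟨⟨c', hc', hs'⟩, W', hW'⟩ := i'
  have e : W = W' := ValuationSubring.toSubring_injective h
  subst e
  have e' : c = c' := hB.cen.uniq T.s W c c' hs hs' hW hW'
  subst e'
  rfl

/-- the valuation is not trivial -/
theorem ne_top (hs : T.s.IsSf) (i : T.I) : i.2.1 ≠ ⊤ := by
  obtain ⟨⟨c, hc, h⟩, W, hW⟩ := i
  intro h1
  change W = ⊤ at h1
  subst h1
  have e : T.s = c := S.M.dom_top hW
  obtain ⟨y, h2, h3⟩ := hs.1
  exact h3 (hc.2 y (e ▸ h2))

/-- a valuation above an index is the local ring of a curve -/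
theorem up (h1 : T.Fam1) (hs : T.s.IsSf) (i : T.I) (W' : ValuationSubring T.V.K)
    (h : ∀ f, f ∈ i.2.1 ↔ algebraMap _ T.V.K f ∈ W') : ∃ j : T.J, j.1.O = W'.toSubring := by
  obtain ⟨C, h2, h3⟩ := h1 i.1.1 i.1.2.2 i.2.1 W' i.1.2.1.1 i.2.2 (ne_top hs i) h
  exact ⟨⟨C, h2⟩, h3⟩

end GPushA

theorem rPushA : RExtV.{u} → RDVsub.{u} → RPushA.{u} := by
  intro hE hD S T hB h1 h2 hs
  refine ⟨?_, GPushA.inj hB⟩
  choose b hb using h2.ex
  refine ⟨b, fun i => ?_, fun j => EOv.dv T.sm.surf T.cv j.1, hb,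
    fun j j' h => Subtype.ext (T.cv.ext _ _ h), fun i W hW => ?_, fun f => ?_⟩
  · obtain ⟨W', hW'⟩ := hE _ _ (algebraMap (S.M.κ T.s) T.V.K) i.2.1
    obtain ⟨j, hj⟩ := GPushA.up h1 hs i W' hW'
    exact hD _ _ _ j.1.O (residue j.1.O) i.2.1 (EOv.dv T.sm.surf T.cv j.1) fun f => by
      rw [hj]; exact hW' f
  · obtain ⟨j, hj⟩ := GPushA.up h1 hs i W hW
    refine ⟨j, GPushA.inj hB _ _ (SetLike.ext fun f => ?_), hj⟩
    refine (hb j f).trans ?_
    rw [hj]
    exact (hW f).symm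
  · exact (T.fin.v f).preimage (f := fun j : T.J => j.1) Subtype.val_injective.injOn

end Pool.Agent.MP_f3836a_nt.PK
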