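import Pool.Agent.MP_f3836a_nt.PK.SpecG
import Pool.Agent.MP_f3836a_nt.PK.EVD

set_option autoImplicit false

/-! The value of the extended functional on a lifted curve. -/

namespace Pool.Agent.MP_f3836a_nt.PK

open IsLocalRing Stp

universe u

namespace GPushB

theorem exists_nu {K L : Type u} [Field K] [Field L] [Algebra K L] (W : ValuationSubring K)
    (O : Subring L) [IsLocalRing O] (h : ∀ f, f ∈ W.toSubring ↔ algebraMap K L f ∈ O) :
    ∃ ν : ResidueField W →+* ResidueField O,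
      ∀ a : W.toSubring, ν (resW W a) = residue O ⟨algebraMap K L a, (h a).1 a.2⟩ := by
  let ι : W →+* O := (algebraMap K L).restrict W O fun f hf => (h f).1 hf
  have : IsLocalHom ι := ⟨fun a ha => by
    obtain ⟨g, hg⟩ := ha.exists_right_inv
    have h1 : algebraMap K L a * g = 1 := congrArg Subtype.val hg
    have h2 : (a : K) ≠ 0 := fun h2 => by simp [h2] at h1
    have h3 : (a : K)⁻¹ ∈ W := (h _).2 (by
      rw [map_inv₀, ← eq_inv_of_mul_eq_one_right h1]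
      exact g.2)
    exact IsUnit.of_mul_eq_one ⟨_, h3⟩ (Subtype.ext (mul_inv_cancel₀ h2))⟩
  exact ⟨ResidueField.map ι, fun a => rfl⟩

theorem degO_comp {κ κ' κ'' : Type u} [Field κ] [Field κ'] [Field κ''] (ν : κ →+* κ')
    (ρ : κ' →+* κ'') (t : κ') : degO (ρ.comp ν) (ρ t) = degO ν t := by
  let := ν.toAlgebra
  let := (ρ.comp ν).toAlgebra
  exact congrArg Polynomial.natDegree
    (minpoly.algHom_eq ({ ρ with commutes' := fun _ => rfl } : κ' →ₐ[κ] κ'') ρ.injective t)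

end GPushB

open GPushB in
theorem rPushB : RBig.{u} → RTowD.{u} → RVis.{u} → RPushB.{u} := by
  intro hBig hTow hVis S T b hB hA hF hinj lam lam' hlam hDP c' c h j ρ ⟨hs, hC⟩
  obtain ⟨s₁, f₁, g₁⟩ := hA c
  obtain ⟨s₂, f₂, g₂⟩ := hVis _ _ _ _ _ _ _ _ _ _ b hF hinj S.k T.img.gen j
  obtain ⟨t, ht, ht'⟩ := T.img.fg
  obtain ⟨s₃, f₃, g₃⟩ := hBig S.k T.V.K T.m T.V.ξ j.1.toCtr
    (Set.range ((ρ : c'.var.K →+* j.1.κ).comp (nu h))) t T.V.gen j.1.good (by
      rw [eq_top_iff]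
      intro y _
      obtain ⟨z, rfl⟩ := ρ.surjective y
      have h1 : z ∈ Subfield.closure (Set.range (nu h) ∪ Set.range (algebraMap S.k c'.var.K)) :=
        hB.u2.gen c' c h ▸ Subfield.mem_top z
      have h2 := Subfield.mem_map.2 ⟨z, h1, (rfl : (ρ : c'.var.K →+* j.1.κ) z = _)⟩
      rw [RingHom.map_field_closure] at h2
      refine Subfield.closure_mono ?_ h2
      rintro _ ⟨_, ⟨x, rfl⟩ | ⟨x, rfl⟩, rfl⟩
      exacts [Or.inl ⟨x, rfl⟩, Or.inr ⟨x, (ρ.commutes x).symm⟩]) ht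
  refine ⟨s₁ ∪ s₂ ∪ s₃, (f₁.union f₂).union f₃, fun θ ⟨⟨n, hn, hθ⟩, hs₀⟩ x hx => ?_⟩
  obtain ⟨hs₁, hs₃⟩ := Set.union_subset_iff.1 hs₀
  obtain ⟨hs₁, hs₂⟩ := Set.union_subset_iff.1 hs₁
  have hD := fun ν hν => hDP S.p n j (algebraMap S.k T.V.K θ) ν S.pp.out
    (by rw [← map_natCast (algebraMap S.k T.V.K), CharP.cast_eq_zero, map_zero]) hn
    (by rw [← map_pow, hθ]) hν (g₂ θ hs₂)
  have ho := hF.ovr j
  beta_reduce at hD ho
  generalize b j = i at hD ho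
  obtain ⟨⟨c₁, hc₁⟩, W, hW⟩ := i
  obtain ⟨ν, hν⟩ := exists_nu W j.1.O ho
  have h1 : ∀ a, ν (resW W ⟨_, (ho _).2 (hC a).1⟩) =
      (ρ : c'.var.K →+* j.1.κ).comp (nu h) (residue _ a) := fun a =>
    (hν _).trans ((j.1.res_of_mem _).symm.trans (hC a).2)
  obtain rfl : c₁ = c := hB.cen.uniq _ W _ _ _ hs hW fun a => ⟨(ho _).2 (hC a).1, fun ha =>
    ValuationSubring.coe_mem_nonunits_iff.2 ((residue_eq_zero_iff (R := W) ⟨_, (ho _).2 (hC a).1⟩).1
      (ν.injective ((h1 a).trans (by rw [(residue_eq_zero_iff a).2 ha, map_zero, map_zero]))))⟩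
  have h2 : ν.comp (PT.toRes hW) = (ρ : c'.var.K →+* j.1.κ).comp (nu h) := RingHom.ext fun y => by
    obtain ⟨a, rfl⟩ := residue_surjective y
    exact h1 a
  have h3 := hTow _ _ _ (PT.toRes hW) ν (algebraMap S.k j.1.κ θ) ⟨S.p ^ n - 1,
    Nat.sub_pos_of_lt (Nat.one_lt_pow (by omega) S.pp.out.one_lt), by
      rw [Nat.sub_add_cancel (Nat.one_le_pow _ _ S.pp.out.pos), ← map_pow, hθ]⟩ fun y => by
    obtain ⟨a, rfl⟩ := residue_surjective y
    have h4 := g₃ (Subfield.closure {θ}) (hs₃.trans (Subfield.subring_closure_le _))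
      ⟨algebraMap _ T.V.K (a : S.M.κ T.s), (ho _).1 a.2⟩ (ht' _)
    rw [← hν a, ← h2] at h4
    refine Subfield.closure_le.2 (Set.union_subset (Set.subset_union_left.trans
      Subfield.subset_closure) ?_) h4
    rw [← Subfield.coe_map, RingHom.map_field_closure, Set.image_singleton]
    exact Subfield.closure_mono Set.subset_union_right
  have h4 := hD ν (fun a => (hν a).trans (j.1.res_of_mem _).symm) (PT.toRes hW x)
    ((map_ne_zero _).2 hx)
  have h5 := g₁ θ ⟨⟨n, hn, hθ⟩, hs₁⟩ c' h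
  have h6 : resR j.1.O (residue j.1.O) (algebraMap S.k T.V.K θ) = algebraMap S.k j.1.κ θ :=
    j.1.res_const θ
  have h7 : T.lamI lam ⟨⟨c₁, hc₁⟩, W, hW⟩ (PT.toRes hW x) = frO (PT.toRes hW) * lam c₁ x := by
    rw [← EVD.addv_pow (hlam c₁) hx, ← nrmO_map]
    rfl
  have h8 : ν (PT.toRes hW x) = ρ (nu h x) := DFunLike.congr_fun h2 x
  rw [h6, h7, h8] at h4
  rw [← degO_comp _ (ρ : c'.var.K →+* j.1.κ), ← h2,
    show (ρ : c'.var.K →+* j.1.κ) (algebraMap S.k c'.var.K θ) = algebraMap S.k j.1.κ θ from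
      ρ.commutes θ, h3.2] at h5
  rw [mul_right_comm, h4, ← h5]
  push_cast
  ring

end Pool.Agent.MP_f3836a_nt.PK
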