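import Pool.Agent.MP_f3836a_nt.PK.SpecG

set_option autoImplicit false

/-! The extension of a nonsingular variety to the algebraic closure is nonsingular. -/

namespace Pool.Agent.MP_f3836a_nt.PK

open MvPolynomial IsLocalRing

universe u

namespace GReg

theorem down {k A B : Type u} [Field k] [CommRing A] [IsIntegrallyClosed A] [CommRing B]
    [IsDomain B] [Algebra k B] [Algebra A B] (hk : ∀ a : k, a ≠ 0 → ∃ n, 0 < n ∧ a ^ n = 1)
    (hi : Function.Injective (algebraMap A B)) (hg : EFl.Gen k (algebraMap A B)) :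
    Algebra.HasGoingDown A B := by
  let R : Subalgebra A B := Algebra.adjoin A (Set.range (algebraMap k B))
  have hint : Algebra.IsIntegral A R := by
    refine Algebra.IsIntegral.adjoin ?_
    rintro _ ⟨c, rfl⟩
    by_cases h0 : c = 0
    · rw [h0, map_zero]; exact isIntegral_zero
    · obtain ⟨n, hn, h⟩ := hk c h0
      exact ⟨Polynomial.X ^ n - 1, Polynomial.monic_X_pow_sub_C 1 hn.ne', by
        simp [← map_pow, h]⟩
  have hf : FaithfulSMul A R := (faithfulSMul_iff_algebraMap_injective A R).2 fun a b h =>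
    hi (congrArg Subtype.val h)
  have hle : ∀ s ∈ Algebra.adjoin k (Set.range (algebraMap A B)), s ∈ R := by
    intro s hs
    induction hs using Algebra.adjoin_induction with
    | mem x hx =>
      obtain ⟨a, rfl⟩ := hx
      exact R.algebraMap_mem a
    | algebraMap r => exact Algebra.subset_adjoin ⟨r, rfl⟩
    | add x y _ _ hx hy => exact R.add_mem hx hy
    | mul x y _ _ hx hy => exact R.mul_mem hx hy
  have hl : IsLocalization ((IsUnit.submonoid B).comap (algebraMap R B)) B := by
    rw [isLocalization_iff]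
    refine ⟨fun y => y.2, fun s => ?_, fun {x y} h => ⟨1, by rw [Subtype.ext h]⟩⟩
    obtain ⟨w, hw, h1, h2⟩ := hg s
    exact ⟨(⟨s * w, hle _ h2⟩, ⟨⟨w, hle _ h1⟩, hw⟩), rfl⟩
  have hfl : Module.Flat R B :=
    IsLocalization.flat B ((IsUnit.submonoid B).comap (algebraMap R B))
  exact Algebra.HasGoingDown.trans A R B

theorem reg {k A B : Type u} [Field k] [CommRing A] [IsRegularLocalRing A] [IsIntegrallyClosed A]
    [CommRing B] [IsDomain B] [IsLocalRing B] [IsNoetherianRing B] [Algebra k B]
    (hk : ∀ a : k, a ≠ 0 → ∃ n, 0 < n ∧ a ^ n = 1) (f : A →+* B) (hi : Function.Injective f)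
    (hg : EFl.Gen k f) (h0 : ∀ a, f a ∈ maximalIdeal B ↔ a ∈ maximalIdeal A)
    (h1 : (maximalIdeal A).map f = maximalIdeal B) :
    IsRegularLocalRing B ∧ ringKrullDim B = ringKrullDim A := by
  let := f.toAlgebra
  have hd : Algebra.HasGoingDown A B := down hk hi hg
  have hl : (maximalIdeal B).LiesOver (maximalIdeal A) := ⟨Ideal.ext fun a => (h0 a).symm⟩
  have h2 : (maximalIdeal A).height ≤ (maximalIdeal B).height := by
    rw [Ideal.height_eq_height_add_of_liesOver_of_hasGoingDown (maximalIdeal A) (maximalIdeal B)]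
    exact le_self_add
  have h3 : ringKrullDim A ≤ ringKrullDim B := by
    rw [← maximalIdeal_height_eq_ringKrullDim, ← maximalIdeal_height_eq_ringKrullDim]
    exact WithBot.coe_le_coe.2 h2
  have h4 : ((maximalIdeal B).spanFinrank : WithBot ℕ∞) ≤ ringKrullDim A := by
    rw [← IsRegularLocalRing.spanFinrank_maximalIdeal (R := A), ← h1]
    exact_mod_cast Ideal.spanFinrank_map_le_of_fg f (maximalIdeal A).fg_of_isNoetherianRing
  exact ⟨IsRegularLocalRing.of_spanFinrank_maximalIdeal_le B (h4.trans h3),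
    le_antisymm ((ringKrullDim_le_spanFinrank_maximalIdeal B).trans h4) h3⟩

end GReg

open Stp in
theorem rRegK : RNorm.{u} → RRegK.{u} := by
  intro hN S h1 h2
  have key : ∀ x : Pt S.k (up S.K S.η),
      IsRegularLocalRing x.ctr.O ∧ ringKrullDim x.ctr.O = S.d := by
    intro x
    have hc : (pu x).Cl := (h1.cl _ _ (o_pu x)).1 ((h1.pt _).2 ⟨x, rfl⟩)
    obtain ⟨h3, h4⟩ := S.reg.reg _ hc
    have h5 := hN (pu x).O
    have h6 := Ctr.noeth x.good
    have := GReg.reg S.hk (fx x) (fun a b h => Subtype.ext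
      ((algebraMap S.K₀ S.K).injective (congrArg Subtype.val h))) (fx_gen x) (fx_max x) (h2.max x)
    exact ⟨this.1, this.2.trans h4⟩
  exact key

end Pool.Agent.MP_f3836a_nt.PK
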