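import Pool.Agent.MP_f3836a_nt.PK.SpecG
import Pool.Agent.MP_f3836a_nt.PK.Main2

set_option autoImplicit false

/-! Degrees in a tower of fields, and valuation rings visible on a simple extension. -/

namespace Pool.Agent.MP_f3836a_nt.PK

open IntermediateField

universe u

namespace GTow

theorem integral {κ L : Type u} [Field κ] [Field L] [Algebra κ L] {θ : L} {m : ℕ} (hm : 0 < m)
    (h : θ ^ (m + 1) = θ) : IsIntegral κ θ := by
  refine ⟨Polynomial.X ^ (m + 1) - Polynomial.X, Polynomial.monic_X_pow_sub ?_, by simp [h]⟩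
  rw [Polynomial.degree_X]
  exact_mod_cast Nat.succ_lt_succ hm

theorem tower {κ₀ κ₁ κ₂ : Type u} [Field κ₀] [Field κ₁] [Field κ₂] [Algebra κ₀ κ₁] [Algebra κ₁ κ₂]
    [Algebra κ₀ κ₂] [IsScalarTower κ₀ κ₁ κ₂] {θ : κ₂} (h0 : IsIntegral κ₀ θ)
    (h : ∀ t, algebraMap κ₁ κ₂ t ∈ adjoin κ₀ {θ}) :
    0 < Module.finrank κ₀ κ₁ ∧
      (minpoly κ₀ θ).natDegree = Module.finrank κ₀ κ₁ * (minpoly κ₁ θ).natDegree := by
  have h1 : adjoin κ₀ {θ} = (adjoin κ₁ {θ}).restrictScalars κ₀ := by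
    refine le_antisymm (adjoin_simple_le_iff.2 (mem_adjoin_simple_self κ₁ θ)) fun x hx => ?_
    have h2 : (adjoin κ₁ {θ}).toSubfield ≤ (adjoin κ₀ {θ}).toSubfield := by
      rw [adjoin_toSubfield, Subfield.closure_le]
      rintro y (⟨t, rfl⟩ | rfl)
      · exact h t
      · exact mem_adjoin_simple_self κ₀ y
    exact h2 hx
  have h2 : (minpoly κ₀ θ).natDegree = Module.finrank κ₀ κ₁ * (minpoly κ₁ θ).natDegree := by
    rw [← adjoin.finrank h0, ← adjoin.finrank (h0.tower_top (A := κ₁)), h1]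
    exact (Module.finrank_mul_finrank κ₀ κ₁ (adjoin κ₁ {θ})).symm
  exact ⟨Nat.pos_of_mul_pos_right (h2 ▸ minpoly.natDegree_pos h0), h2⟩

/-- finitely many elements of a compositum lie in a simple extension -/
theorem fin_mem {K₀ k K : Type u} [Field K₀] [Field k] [Field K] [Algebra K₀ K] [Algebra k K]
    (h : Subfield.closure (Set.range (algebraMap K₀ K) ∪ Set.range (algebraMap k K)) = ⊤)
    {t : Set K} (ht : t.Finite) : ∃ s : Set k, s.Finite ∧ ∀ θ : k, s ⊆ Subring.closure {θ} →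
      ∀ f ∈ t, f ∈ adjoin K₀ {algebraMap k K θ} := by
  choose s hs hf using fun f : K =>
    exists_fin_closure (Set.range (algebraMap K₀ K)) (algebraMap k K) (f := f) (h ▸ trivial)
  refine ⟨⋃ f ∈ t, s f, ht.biUnion fun f _ => hs f, fun θ hθ f hft => ?_⟩
  have h1 : Subring.closure {θ} ≤
      (adjoin K₀ {algebraMap k K θ}).toSubfield.toSubring.comap (algebraMap k K) :=
    Subring.closure_le.2 (Set.singleton_subset_iff.2 (mem_adjoin_simple_self K₀ _))
  have h2 : Subfield.closure (Set.range (algebraMap K₀ K) ∪ algebraMap k K '' s f) ≤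
      (adjoin K₀ {algebraMap k K θ}).toSubfield := by
    rw [Subfield.closure_le]
    rintro y (⟨a, rfl⟩ | ⟨a, ha, rfl⟩)
    · exact IntermediateField.algebraMap_mem _ a
    · exact h1 (hθ (Set.mem_biUnion hft ha))
  exact h2 (hf f)

end GTow

theorem rTowD : RTowD.{u} := by
  rintro κ₀ κ₁ κ₂ _ _ _ α ν θ ⟨m, hm, hθ⟩ h
  let := α.toAlgebra
  let := ν.toAlgebra
  let := (ν.comp α).toAlgebra
  have : IsScalarTower κ₀ κ₁ κ₂ := IsScalarTower.of_algebraMap_eq fun _ => rfl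
  exact GTow.tower (GTow.integral hm hθ) h

theorem rVis : RVis.{u} := by
  intro K₀ K _ _ _ _ I J κ _ κ' _ O r O' r' b hF hO k _ _ hk j
  have hfin := (pFinI K₀ K I J κ κ' O r O' r' b hF).2 (b j)
  obtain ⟨π, hπ⟩ := (rDVA K (κ' j) (O' j) (r' j) (hF.dv' j)).uni
  have hs : ∀ j', ∃ f : K, (f ∈ O' j' ↔ f ∈ O' j) → j' = j := fun j' => by
    by_contra hn
    push Not at hn
    exact (hn 0).2 (hF.inj j' j (Subring.ext fun f => (hn f).1))
  choose f hf using hs
  obtain ⟨s, h1, h2⟩ := GTow.fin_mem hk ((hfin.image f).insert π)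
  refine ⟨s, h1, fun θ hθ => ⟨fun j' h => ?_, π, h2 θ hθ π (Set.mem_insert _ _), hπ⟩⟩
  have h3 : b j' = b j := hO _ _ (Subring.ext fun g => by
    rw [hF.ovr, hF.ovr]
    exact h _ (IntermediateField.algebraMap_mem _ g))
  exact hf j' (h _ (h2 θ hθ _ (Set.mem_insert_of_mem _ ⟨j', h3, rfl⟩)))

end Pool.Agent.MP_f3836a_nt.PK
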