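import Pool.Agent.MP_f3836a_nt.PK.SpecG

set_option autoImplicit false

/-! Residue fields of points and of the points over them. -/

namespace Pool.Agent.MP_f3836a_nt.PK

open MvPolynomial IsLocalRing

universe u

namespace GUp2

theorem clo {k L : Type u} [Field k] [Field L] [Algebra k L] {N : ℕ} {ξ : Fin (N + 1) → L}
    (h : GenBy k ξ) {i : Fin (N + 1)} (hi : ξ i = 1) (S : Subfield L)
    (hk : ∀ a, algebraMap k L a ∈ S) (hS : ∀ j, ξ j ∈ S) : S = ⊤ :=
  top_unique ((genBy_iff.1 h).ge.trans (rat_le (i := i) (hi ▸ one_ne_zero) S hk fun j => by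
    rw [hi, div_one]
    exact hS j))

theorem pt_iff {k K : Type u} [Field k] [Field K] [Algebra k K] {N : ℕ} {ξ : Fin (N + 1) → K}
    (c : Hp k ξ) : (∃ x : Pt k ξ, x.hp = c) ↔ ∀ j, ∃ z, algebraMap k _ z = c.eta j := by
  constructor
  · rintro ⟨x, rfl⟩ j
    have e : x.ctr.idx = x.hp.idx := Ctr.idx_congr fun i => (x.mem_hp (isHomogeneous_X k i)).symm
    have hA := (isHomogeneous_X k j).sub ((isHomogeneous_X k x.ctr.idx).C_mul (x.z j))
    have h := (x.hp.eta_zero hA).2 ((x.mem_hp hA).2 (by simp [x.z_idx.1]))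
    rw [map_sub, map_mul, aeval_X, aeval_X, aeval_C, e, Hp.eta_idx, mul_one, sub_eq_zero] at h
    exact ⟨_, h.symm⟩
  · intro h
    choose z hz using h
    have e : ∀ (n : ℕ) (A : Pol k N), A.IsHomogeneous n → (eval z A = 0 ↔ A ∈ c.P) :=
      fun n A hA => by
        rw [← c.eta_zero hA, show c.eta = algebraMap k _ ∘ z from (funext hz).symm,
          aeval_algebraMap_apply, map_eq_zero (algebraMap k _), aeval_eq_eval]
    let x : Pt k ξ := ⟨z, ⟨c.idx, (algebraMap k _).injective (by rw [hz, c.eta_idx, map_one]),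
      fun j hj => by
        simpa using (e 1 _ (isHomogeneous_X k j)).2 ((Ctr.idx_spec c.good).2 j hj)⟩,
      fun n G hG h => (e n G hG).2 (c.van n G hG h)⟩
    exact ⟨x, Hp.ext_P (le_antisymm
      (Hp.le_of _ fun n A hA h => (e n A hA).1 ((x.mem_hp hA).1 h))
      (Hp.le_of _ fun n A hA h => (x.mem_hp hA).2 ((e n A hA).2 h)))⟩

theorem root_iff {k L : Type u} [Field k] [IsAlgClosed k] [Field L] [Algebra k L]
    (hk : ∀ a : k, a ≠ 0 → ∃ n, 0 < n ∧ a ^ n = 1) (t : L) :
    (∃ z, algebraMap k L z = t) ↔ ∃ m, 0 < m ∧ t ^ (m + 1) = t := by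
  constructor
  · rintro ⟨z, rfl⟩
    by_cases h : z = 0
    · exact ⟨1, one_pos, by simp [h]⟩
    · obtain ⟨n, h1, h2⟩ := hk z h
      exact ⟨n, h1, by rw [← map_pow, pow_succ, h2, one_mul]⟩
  · rintro ⟨m, h1, h2⟩
    by_cases h : t = 0
    · exact ⟨0, by rw [h, map_zero]⟩
    · have h3 : t ^ m = 1 := mul_right_cancel₀ h (by rw [← pow_succ, h2, one_mul])
      exact minpoly.mem_range_of_degree_eq_one k t (IsAlgClosed.degree_eq_one_of_irreducible k
        (minpoly.irreducible (IsIntegral.of_pow h1 (h3 ▸ isIntegral_one))))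

end GUp2

open GUp2 Stp in
theorem rUp2 : RUp2.{u} := fun S h1 => by
  refine ⟨fun c' c h => clo c'.gen_eta c'.eta_idx _
    (fun a => Subfield.subset_closure (Or.inr ⟨a, rfl⟩))
    fun j => Subfield.subset_closure (Or.inl ⟨_, nu_co h j⟩), fun c => ?_,
    fun c => clo (fun t => ?_) (S.M.co_idx c) _
      (fun a => Subfield.subset_closure (Or.inr ⟨a, rfl⟩))
      fun j => Subfield.subset_closure (Or.inl ⟨j, rfl⟩)⟩
  · obtain ⟨c', h⟩ := h1.lo c
    rw [← h1.cl c' c h, h1.pt, pt_iff]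
    refine forall_congr' fun j => (root_iff S.hk _).trans (exists_congr fun m => and_congr_right
      fun _ => ?_)
    rw [← (nu h).injective.eq_iff, map_pow, nu_co]
    rfl
  · obtain ⟨b, rfl⟩ := S.M.r_surj c t
    obtain ⟨n, A, B, hA, hB, hP, e⟩ := b.2
    exact ⟨n, A, B, hA, hB, fun h => hP ((S.M.co_zero c hB).1 h), S.M.r_frac c b hA hB e⟩

end Pool.Agent.MP_f3836a_nt.PK
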