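import Pool.Agent.MP_f3836a_nt.PK.SpecT
import Pool.Agent.MP_f3836a_nt.PK.EDVA

set_option autoImplicit false

/-! A functional which kills cycles comes from a function on points. -/

namespace Pool.Agent.MP_f3836a_nt.PK

open AlgebraicGeometry

namespace TAlpha

theorem hom_eq {Z : Type} (h : (Z →₀ ℤ) →+ ℚ) (b : Z →₀ ℤ) :
    h b = ∑ᶠ z, (b z : ℚ) * h (Finsupp.single z 1) := by
  rw [finsum_eq_sum_of_support_subset (s := b.support)]
  · conv_lhs => rw [← Finsupp.sum_single b, Finsupp.sum, map_sum]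
    refine Finset.sum_congr rfl fun z _ => ?_
    rw [← zsmul_eq_mul, ← map_zsmul, Finsupp.smul_single, smul_eq_mul, mul_one]
  · intro z hz
    by_contra h1
    have h2 : b z = 0 := by simpa using h1
    exact hz (by simp [h2])

open Classical in
theorem sum_eq {I M : Type} {β : I → Type} [∀ i, AddCommGroup (β i)] [AddCommMonoid M]
    (ψ : ∀ i, β i →+ M) (a : Π₀ i, β i) : ∑ᶠ i, ψ i (a i) = DFinsupp.sumAddHom ψ a := by
  rw [DFinsupp.sumAddHom_apply, DFinsupp.sum, finsum_eq_sum_of_support_subset (s := a.support)]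
  intro i hi
  by_contra h1
  have h2 : a i = 0 := by simpa using h1
  exact hi (by simp [h2])

theorem sub_eq {X M : Type} [AddCommMonoid M] (p : X → Prop) (F : X → M)
    (h : ∀ x, ¬ p x → F x = 0) : ∑ᶠ x, F x = ∑ᶠ i : Subtype p, F i := by
  classical
  rw [finsum_subtype_eq_finsum_cond]
  refine finsum_congr fun x => ?_
  rw [finsum_eq_if]
  split_ifs with h1
  · rfl
  · exact h x h1

end TAlpha

open TAlpha

theorem rAlpha : RAlpha := by
  intro I Z κ _ o lam ho hf hl H
  classical
  let dv : ∀ i, Additive (κ i)ˣ →+ (Z →₀ ℤ) := fun i => AddMonoidHom.mk'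
    (fun u => Finsupp.ofSupportFinite (fun z => o i z (u.toMul : (κ i)ˣ)) (hf i _ u.toMul.ne_zero))
    fun u v => Finsupp.ext fun z => ho i z _ _ u.toMul.ne_zero v.toMul.ne_zero
  let lm : ∀ i, Additive (κ i)ˣ →+ ℚ := fun i => AddMonoidHom.mk'
    (fun u => lam i (u.toMul : (κ i)ˣ)) fun u v => hl i _ _ u.toMul.ne_zero v.toMul.ne_zero
  obtain ⟨h, hh⟩ := rExt (Π₀ i, Additive (κ i)ˣ) (Z →₀ ℤ) (DFinsupp.sumAddHom dv)
    (DFinsupp.sumAddHom lm) fun a ha => by
      rw [AddMonoidHom.mem_ker] at ha ⊢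
      rw [← sum_eq]
      refine H (fun i => ((a i).toMul : (κ i)ˣ)) (fun i => (a i).toMul.ne_zero)
        (a.support.finite_toSet.subset fun i hi => ?_) fun z => ?_
      · by_contra h1
        have h2 : a i = 0 := by simpa using h1
        exact hi (by simp [h2])
      · refine (sum_eq (fun i => (Finsupp.applyAddHom z).comp (dv i)) a).trans ?_
        have h1 := congrArg (Finsupp.applyAddHom z) ha
        rw [DFinsupp.sumAddHom_apply, DFinsupp.sum, map_sum, map_zero] at h1
        rw [DFinsupp.sumAddHom_apply, DFinsupp.sum]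
        exact h1
  refine ⟨fun z => h (Finsupp.single z 1), fun i f h0 => ?_⟩
  have h1 := hh (DFinsupp.single i (Additive.ofMul (Units.mk0 f h0)))
  rw [DFinsupp.sumAddHom_single, DFinsupp.sumAddHom_single, hom_eq] at h1
  exact h1.symm

theorem rAlS (hA : RAlpha) : RAlS := by
  intro X y lam hM hP hK
  classical
  obtain ⟨α, hα⟩ := hA {C : X // Order.height C = 1 ∧ y ⤳ C} {x : X // Order.height x = 0}
    (fun i => X.residueField i.1) (fun i z f => PT.ordZ i.1 z.1 f) (fun i => lam i.1)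
    (fun i z f g h1 h2 => hP.omul i.1 z.1 f g i.2.2 i.2.1 h1 h2)
    (fun i f h1 => ((hP.fin i.1 f i.2.2 i.2.1 h1).preimage Subtype.val_injective.injOn).subset
      fun z hz => ⟨z.2, hz⟩)
    (fun i => hK.add i.1) fun φ h0 hfin hdiv => by
      let φ' : ∀ C : X, X.residueField C := fun C =>
        if h : Order.height C = 1 ∧ y ⤳ C then φ ⟨C, h⟩ else 1
      have e1 : ∀ i : {C : X // Order.height C = 1 ∧ y ⤳ C}, φ' i.1 = φ i := fun i => dif_pos i.2
      have e2 : ∀ C : X, ¬ (Order.height C = 1 ∧ y ⤳ C) → φ' C = 1 := fun C h => dif_neg h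
      have e3 : ∀ C : X, φ' C ≠ 1 → Order.height C = 1 ∧ y ⤳ C := fun C h =>
        by_contra fun h1 => h (e2 C h1)
      have hc : CycS {y} φ' := by
        refine ⟨fun C => ?_, (hfin.image Subtype.val).subset fun C hC => ?_,
          fun C hC => ⟨(e3 C hC).1, y, rfl, (e3 C hC).2⟩, fun x hx => ?_⟩
        · by_cases h : Order.height C = 1 ∧ y ⤳ C
          · rw [e1 ⟨C, h⟩]
            exact h0 _
          · rw [e2 C h]
            exact one_ne_zero
        · exact ⟨⟨C, e3 C hC⟩, fun h => hC ((e1 ⟨C, e3 C hC⟩).trans h), rfl⟩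
        · rw [sub_eq (fun C : X => Order.height C = 1 ∧ y ⤳ C) _
            fun C h => by rw [e2 C h, ordZ_one]]
          simp only [e1]
          exact hdiv ⟨x, hx⟩
      have h1 := hM φ' lam hc hK
      rw [sub_eq (fun C : X => Order.height C = 1 ∧ y ⤳ C) _
        fun C h => by rw [e2 C h, SComp.addv_one (hK.add C)]] at h1
      simp only [e1] at h1
      exact h1
  refine ⟨fun x => if h : Order.height x = 0 then α ⟨x, h⟩ else 0, fun C f h1 h2 h3 => ?_⟩
  rw [← finsum_subtype_eq_finsum_cond]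
  refine (hα ⟨C, h2, h1⟩ f h3).trans (finsum_congr fun z => ?_)
  simp only [dif_pos z.2]

end Pool.Agent.MP_f3836a_nt.PK
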