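import Pool.Agent.MP_f3836a_nt.PK.SpecT

set_option autoImplicit false

/-! The theorem on one component, from the model. -/

namespace Pool.Agent.MP_f3836a_nt.PK

open MvPolynomial IsLocalRing AlgebraicGeometry CategoryTheory

namespace TCompM

variable {X : Scheme.{0}} {p : ℕ} [Fact p.Prime] {y : X} [Algebra (ZMod p) (X.residueField y)]
  {N : ℕ} {η : Fin (N + 1) → X.residueField y} {c : ∀ z : X, y ⤳ z → Hp (ZMod p) η}
  (D : Dict p y η c)

theorem mem_range (s : Hp (ZMod p) η) {C : X} (h : D.z s ⤳ C) : C ∈ Set.range D.z :=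
  D.z_surj ((D.hz s).trans h)

theorem nice (hH : D.Ht) {s : Hp (ZMod p) η} (h : D.mod.Nice s) : NiceS (D.z s) := by
  refine ⟨fun C f g h1 hf hg => ?_, fun f g hf hg => ?_, fun C f g h1 hf hg => ?_⟩
  · by_cases hC : D.z s ⤳ C
    · obtain ⟨a, rfl⟩ := mem_range D s hC
      rw [← D.bd_eq]
      exact h.ne a f g ((hH.cv a).2 h1) hf hg
    · rw [bdT_not hC]
      exact one_ne_zero
  · refine ((h.fin f g hf hg).image D.z).subset ?_
    rintro C ⟨h1, h2⟩
    have hC : D.z s ⤳ C := by_contra fun hC => h2 (bdT_not hC f g)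
    obtain ⟨a, rfl⟩ := mem_range D s hC
    exact ⟨a, ⟨(hH.cv a).2 h1, fun e => h2 ((D.bd_eq s a f g).symm.trans e)⟩, rfl⟩
  · by_cases hC : D.z s ⤳ C
    · obtain ⟨a, rfl⟩ := mem_range D s hC
      rw [← D.bd_eq, ← D.bd_eq]
      exact h.swap a f g ((hH.cv a).2 h1) hf hg
    · rw [bdT_not hC, bdT_not hC, mul_one]

theorem rng {φ : ∀ C : X, X.residueField C} (hφ : CycS {y} φ) (C : X) (h : φ C ≠ 1) :
    C ∈ Set.range D.z := by
  obtain ⟨-, y', hy, h1⟩ := hφ.cv C h
  rw [Set.mem_singleton_iff.1 hy] at h1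
  exact D.z_surj h1

theorem cyc (hH : D.Ht) {φ : ∀ C : X, X.residueField C} (hφ : CycS {y} φ) :
    Cyc0 D.mod fun a => φ (D.z a) := by
  refine ⟨fun a => hφ.ne _, hφ.fin.preimage D.z_inj.injOn,
    fun a h => (hH.cv a).2 (hφ.cv _ h).1, fun x hx => ?_⟩
  rw [← hφ.div (D.z x) ((hH.cl x).1 hx), ← SComp.reidx D.z D.z_inj
    (fun C => PT.ordZ C (D.z x) (φ C))
    fun C h => rng D hφ C fun e => h (by simp only [e]; exact ordZ_one C _)]
  exact finsum_congr fun a => D.ord_eq a x _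

theorem kill (hH : D.Ht) {lam : ∀ C : X, X.residueField C → ℚ} (hl : KillS {y} lam) :
    Kill D.mod fun a => lam (D.z a) := by
  refine ⟨fun a => hl.add _, fun s hs f g hf hg => ?_⟩
  rw [← hl.bd (D.z s) (hH.sf s hs.sf) ⟨y, rfl, D.hz s⟩ (nice D hH hs) f g hf hg,
    ← SComp.reidx D.z D.z_inj
      (fun C => ∑ᶠ (_ : Order.height C = 1), lam C (PT.bd (D.z s) C f g)) ?_]
  · refine finsum_congr fun a => ?_
    exact finsum_congr_Prop (propext (hH.cv a)) fun _ => congrArg (lam (D.z a)) (D.bd_eq s a f g)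
  · intro C h
    refine mem_range D s (by_contra fun h3 => h ?_)
    exact (finsum_congr fun _ => (congrArg (lam C) (bdT_not h3 f g)).trans
      (SComp.addv_one (hl.add C))).trans finsum_zero

end TCompM

theorem rCompM : RCompM := by
  intro X p _ y _ N η c D hH hM φ lam hφ hl
  rw [← SComp.reidx D.z D.z_inj (fun C => lam C (φ C)) fun C h => TCompM.rng D hφ C fun e =>
    h (by simp only [e]; exact SComp.addv_one (hl.add C))]
  exact hM _ _ (TCompM.cyc D hH hφ) (TCompM.kill D hH hl)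

end Pool.Agent.MP_f3836a_nt.PK
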