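import Pool.Agent.MP_f3836a_nt.PK.SpecT

set_option autoImplicit false

/-! Row TCompP: divisors on the curves of one component. -/

namespace Pool.Agent.MP_f3836a_nt.PK

open MvPolynomial IsLocalRing AlgebraicGeometry CategoryTheory

namespace TCompP

variable {X : Scheme.{0}} {p : ℕ} [Fact p.Prime] {y : X} [Algebra (ZMod p) (X.residueField y)]
  {N : ℕ} {η : Fin (N + 1) → X.residueField y} {c : ∀ z : X, y ⤳ z → Hp (ZMod p) η}
  (D : Dict p y η c)

theorem mem_range (a : Hp (ZMod p) η) (f : X.residueField (D.z a)) {x : X}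
    (h : PT.ordZ (D.z a) x f ≠ 0) : x ∈ Set.range D.z :=
  D.z_surj ((D.hz a).trans (by_contra fun h' => h (ordZ_not h' f)))

theorem sum_eq (H : D.Ht) (a : Hp (ZMod p) η) (f : X.residueField (D.z a)) (β : X → ℚ) :
    ∑ᶠ (x : X) (_ : Order.height x = 0), (PT.ordZ (D.z a) x f : ℚ) * β x =
      ∑ᶠ (b : Hp (ZMod p) η) (_ : b.Cl), (D.mod.ord a b f : ℚ) * β (D.z b) := by
  rw [← SComp.reidx D.z D.z_inj
    (fun x => ∑ᶠ (_ : Order.height x = 0), (PT.ordZ (D.z a) x f : ℚ) * β x) fun x hx =>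
      mem_range D a f fun e => hx (by simp only [e, Int.cast_zero, zero_mul, finsum_zero])]
  refine finsum_congr fun b => ?_
  rw [D.ord_eq]
  exact finsum_congr_Prop (propext (H.cl b).symm) fun _ => rfl

end TCompP

theorem rCompP : RCompP := by
  intro X p _ y _ N η c D H O
  refine ⟨fun C x f g hC h1 hf hg => ?_, fun x hx h0 => ?_, fun C f hC h1 hf => ?_,
    fun C f hC h1 hf => ?_, fun C β hC h1 hβ => ?_⟩
  · obtain ⟨a, rfl⟩ := D.z_surj hC
    by_cases h : D.z a ⤳ x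
    · obtain ⟨b, rfl⟩ := D.z_surj (hC.trans h)
      rw [← D.ord_eq, ← D.ord_eq, ← D.ord_eq]
      exact O.loc.omul a b f g ((H.cv a).2 h1) hf hg
    · rw [ordZ_not h, ordZ_not h, ordZ_not h, add_zero]
  · obtain ⟨b, rfl⟩ := D.z_surj hx
    exact O.pa.pos b ((H.cl b).2 h0)
  · obtain ⟨a, rfl⟩ := D.z_surj hC
    refine ((O.pa.fin a f ((H.cv a).2 h1) hf).image D.z).subset fun x hx => ?_
    obtain ⟨b, rfl⟩ := TCompP.mem_range D a f hx.2
    exact ⟨b, ⟨(H.cl b).2 hx.1, by rw [D.ord_eq]; exact hx.2⟩, rfl⟩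
  · obtain ⟨a, rfl⟩ := D.z_surj hC
    rw [TCompP.sum_eq D H a f fun x => PT.dg x]
    exact O.pa.deg a f ((H.cv a).2 h1) hf
  · obtain ⟨a, rfl⟩ := D.z_surj hC
    obtain ⟨γ, hγ⟩ := O.pb a (fun b => β (D.z b)) ((H.cv a).2 h1) fun f hf => by
      rw [← TCompP.sum_eq D H a f β]
      exact hβ f hf
    refine ⟨γ, fun x hx h0 => ?_⟩
    obtain ⟨b, rfl⟩ := D.z_surj (hC.trans hx)
    exact hγ b ((H.cl b).2 h0) (D.zle.2 hx)

end Pool.Agent.MP_f3836a_nt.PK
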