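import Pool.Agent.MP_f3836a_nt.PK.SpecT
import Pool.Agent.MP_f3836a_nt.PK.EDual

set_option autoImplicit false

/-! A cycle killed by all functionals is, up to a power, a product of boundaries. -/

namespace Pool.Agent.MP_f3836a_nt.PK

open AlgebraicGeometry CategoryTheory

theorem rFin3 : RFin3 := by
  classical
  intro X Y φ hφ H
  obtain ⟨n, hn, l, hl⟩ := rDualA.{0} {C : X // Order.height C = 1}
    {a : Σ y : X, X.residueField y × X.residueField y // Order.height a.1 = 2 ∧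
      (∃ y ∈ Y, y ⤳ a.1) ∧ NiceS a.1 ∧ a.2.1 ≠ 0 ∧ a.2.2 ≠ 0}
    (fun C => X.residueField C.1) (fun a C => PT.bd a.1.1 C.1 a.1.2.1 a.1.2.2)
    (fun a C => a.2.2.2.1.ne _ _ _ C.2 a.2.2.2.2.1 a.2.2.2.2.2)
    (fun a => ((a.2.2.2.1.fin _ _ a.2.2.2.2.1 a.2.2.2.2.2).preimage
      Subtype.val_injective.injOn).subset fun C hC => ⟨C.2, hC⟩)
    (fun a => ⟨⟨⟨a.1.1, a.1.2.2, a.1.2.1⟩, a.2.1, a.2.2.1, a.2.2.2.1, a.2.2.2.2.2, a.2.2.2.2.1⟩,
      fun C => a.2.2.2.1.swap _ _ _ C.2 a.2.2.2.2.1 a.2.2.2.2.2⟩)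
    (fun C => φ C.1) (fun C => hφ.ne C.1) (hφ.fin.preimage Subtype.val_injective.injOn)
    (fun lam hlam hz => by
      let lam' : ∀ C : X, X.residueField C → ℚ := fun C =>
        if h : Order.height C = 1 then lam ⟨C, h⟩ else fun _ => 0
      have e1 : ∀ C : {C : X // Order.height C = 1}, lam C = lam' C.1 := fun C => by
        simp only [lam', dif_pos C.2]
      have K : KillS Y lam' := ⟨fun C => by
        by_cases h : Order.height C = 1
        · exact e1 ⟨C, h⟩ ▸ hlam ⟨C, h⟩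
        · rw [show lam' C = fun _ => 0 from dif_neg h]
          exact fun _ _ _ _ => (add_zero _).symm, fun s a b c f g hf hg => by
        rw [← finsum_subtype_eq_finsum_cond (f := fun C => lam' C (PT.bd s C f g)),
          ← hz ⟨⟨s, f, g⟩, a, b, c, hf, hg⟩]
        exact finsum_congr fun C => by rw [e1]⟩
      simp only [e1]
      rw [finsum_subtype_eq_finsum_cond (f := fun C => lam' C (φ C)) fun C => Order.height C = 1,
        ← H lam' K]
      refine finsum_congr fun C => ?_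
      rw [finsum_eq_if]
      split_ifs with h
      · rfl
      · rw [show lam' C = fun _ => 0 from dif_neg h])
  refine ⟨n, hn, l.map Subtype.val, fun a ha => ?_, fun C hC => ?_⟩
  · obtain ⟨⟨a, a1, a2, -, b⟩, -, rfl⟩ := List.mem_map.1 ha
    exact ⟨a1, a2, b⟩
  · rw [List.map_map]
    exact hl ⟨C, hC⟩

end Pool.Agent.MP_f3836a_nt.PK
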