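import Pool.Agent.MP_f3836a_nt.PK.SpecT
import Pool.Agent.MP_f3836a_nt.PK.EVD

set_option autoImplicit false

/-! Gluing the components. -/

namespace Pool.Agent.MP_f3836a_nt.PK

theorem rGlue : RAlS → RGlue := by
  classical
  intro hAl X Y φ lam hY hφ hc hK
  choose! α hα using fun y (hy : y ∈ Y) => hAl X y lam (hY y hy).1 (hY y hy).2
    ⟨hK.add, fun s h1 ⟨_, h2, h3⟩ => hK.bd s h1 ⟨y, hy, h2 ▸ h3⟩⟩
  have h0 : ∀ C : X, ∃ y, (∃ y ∈ Y, y ⤳ C) → y ∈ Y ∧ y ⤳ C := fun C =>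
    (em (∃ y ∈ Y, y ⤳ C)).elim (fun ⟨y, h⟩ => ⟨y, fun _ => h⟩) fun h => ⟨C, fun h' => absurd h' h⟩
  choose Y₀ h0 using h0
  rw [← hc (fun C x => α (Y₀ C) x / PT.dg x) fun y hy => ?_]
  · refine finsum_congr fun C => ?_
    by_cases h : φ C = 1
    · simp [h, ordZ_one, EVD.addv_one (hK.add C)]
    · obtain ⟨h1, h2⟩ := hφ.cv C h
      obtain ⟨h3, h4⟩ := h0 C h2
      rw [hα _ h3 C _ h4 h1 (hφ.ne C)]
      refine finsum_congr fun x => finsum_congr fun hx => ?_
      by_cases h5 : C ⤳ x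
      · have := ((hY _ h3).2.pos x (h4.trans h5) hx).ne'
        field_simp
      · simp [ordZ_not h5]
  · have h1 : ∀ C : X, y ⤳ C → Order.height C = 1 → ∃ γ : ℚ, ∀ x : X, C ⤳ x →
        Order.height x = 0 → α (Y₀ C) x - α y x = γ * PT.dg x := fun C h1 h2 =>
      (hY y hy).2.pic C _ h1 h2 fun f hf => by
        obtain ⟨h3, h4⟩ := h0 C ⟨y, hy, h1⟩
        have h5 : ∀ β : X → ℚ, ({x : X | Order.height x = 0} ∩
            Function.support fun x => (PT.ordZ C x f : ℚ) * β x).Finite := fun β =>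
          ((hY y hy).2.fin C f h1 h2 hf).subset fun x hx =>
            ⟨hx.1, fun h => hx.2 (by simp [h])⟩
        have h6 := finsum_mem_add_distrib' (h5 fun x => α (Y₀ C) x - α y x) (h5 (α y))
        simp only [← mul_add, sub_add_cancel, Set.mem_ofPred_eq] at h6
        rw [← hα _ h3 C f h4 h2 hf, ← hα _ hy C f h1 h2 hf] at h6
        exact left_eq_add.1 (h6.trans (add_comm _ _))
    choose! γ hγ using h1
    refine ⟨fun w => if Order.height w = 0 then α y w / PT.dg w else -γ w, ?_⟩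
    rintro _ rfl C x h1 h2 h3 h4
    have h5 : (PT.dg x : ℚ) ≠ 0 := Nat.cast_ne_zero.2 ((hY _ hy).2.pos x (h1.trans h2) h4).ne'
    simp only [h3, h4, one_ne_zero, if_true, if_false]
    rw [sub_neg_eq_add, eq_add_of_sub_eq (hγ C h1 h3 x h2 h4), add_div, mul_div_cancel_right₀ _ h5,
      add_comm]

end Pool.Agent.MP_f3836a_nt.PK
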