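import Pool.Agent.MP_f3836a_nt.PK.SpecT
import Pool.Agent.MP_f3836a_nt.PK.SDict
import Pool.Agent.MP_f3836a_nt.PK.EDual

set_option autoImplicit false

/-! Heights of points, and the standing data attached to a regular point. -/

namespace Pool.Agent.MP_f3836a_nt.PK

open MvPolynomial IsLocalRing AlgebraicGeometry CategoryTheory

namespace THt

variable {X : Scheme.{0}} {p : ℕ} [Fact p.Prime] {y : X} [Algebra (ZMod p) (X.residueField y)]
  {N : ℕ} {η : Fin (N + 1) → X.residueField y} {c : ∀ z : X, y ⤳ z → Hp (ZMod p) η}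
  (D : Dict p y η c)

theorem le_iff {a b : Hp (ZMod p) η} : D.z b ≤ D.z a ↔ a.P ≤ b.P := D.zle.symm

theorem lt_iff {a b : Hp (ZMod p) η} : D.z b < D.z a ↔ a.P < b.P := by
  rw [lt_iff_le_not_ge, lt_iff_le_not_ge, le_iff D, le_iff D]

theorem le_coe (a : Hp (ZMod p) η) (n : ℕ) : Order.height (D.z a) ≤ n ↔
    ∀ b : Hp (ZMod p) η, a.P < b.P → Order.height (D.z b) < n := by
  rw [Order.height_le_coe_iff]
  refine ⟨fun h b hb => h _ ((lt_iff D).2 hb), fun h w hw => ?_⟩
  obtain ⟨b, rfl⟩ := D.z_surj ((D.hz a).trans hw.le)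
  exact h b ((lt_iff D).1 hw)

theorem cl (a : Hp (ZMod p) η) : a.Cl ↔ Order.height (D.z a) = 0 :=
  ⟨fun h => Scheme.height_of_isClosed ((D.cl_iff a).1 h), fun h b hb =>
    le_antisymm ((le_iff D).1 (Order.height_eq_zero.1 h ((le_iff D).2 hb))) hb⟩

theorem cv (a : Hp (ZMod p) η) : a.IsCv ↔ Order.height (D.z a) = 1 := by
  have h := le_coe D a 1
  simp only [Nat.cast_one, ENat.lt_one_iff_eq_zero, ← cl D] at h
  rw [Hp.IsCv, ← h, cl D, le_antisymm_iff (b := 1), ENat.one_le_iff_ne_zero, and_comm]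

theorem sf (a : Hp (ZMod p) η) (h : a.IsSf) : Order.height (D.z a) = 2 := by
  obtain ⟨⟨b, hb, h0⟩, h1⟩ := h
  refine le_antisymm ((le_coe D a 2).2 fun b hb => ?_) ?_
  · rcases h1 b hb with h2 | h2
    · rw [(cl D b).1 h2]
      exact Nat.cast_pos.2 two_pos
    · rw [(cv D b).1 h2]
      exact Nat.one_lt_cast.2 one_lt_two
  · have h2 := Order.height_add_one_le ((lt_iff D).2 hb)
    rw [(cv D b).1 ((h1 b hb).resolve_left h0), one_add_one_eq_two] at h2
    exact h2

include D in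
theorem reg0 (hy : PT.Reg y) {d : ℕ} (hd : Order.height y = d) : IsReg0 (ZMod p) η d := by
  refine ⟨D.gen, fun x hx => ?_⟩
  have h := hy.2 _ (D.hz x) ((cl D x).1 hx)
  rw [hd] at h
  rw [D.eO]
  exact h

end THt

theorem rHt : RHt := fun _ _ _ _ _ _ _ _ D => ⟨THt.cl D, THt.cv D, THt.sf D⟩

theorem rCompB : RHt → RCompM → RCompP → ROut → RCompB := by
  intro hH hM hP hO X N P fr hA y hy
  have hp : (ringChar (X.residueField y)).Prime :=
    (CharP.char_is_prime_or_zero (X.residueField y) _).resolve_right hy.1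
  generalize hq : ringChar (X.residueField y) = p at hp
  have : Fact p.Prime := ⟨hp⟩
  have : CharP (X.residueField y) p := ringChar.of_eq hq
  let := ZMod.algebra (X.residueField y) p
  obtain ⟨η, c, D⟩ := rDict X N P fr hA p y
  obtain ⟨d, hd⟩ : ∃ d : ℕ, Order.height y = d := by
    obtain ⟨x, hx, hc⟩ := hA.cl y
    obtain ⟨h1, h2⟩ := hy.2 x hx (Scheme.height_of_isClosed hc)
    rw [← h1.spanFinrank_maximalIdeal] at h2
    exact ⟨_, by exact_mod_cast h2.symm⟩
  obtain ⟨k, K, _, _, _, _, _, _, _, _, _, _, _, hk, hcl⟩ := rBC (ZMod p) (X.residueField y) p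
    fun a ha => ⟨p - 1, Nat.sub_pos_of_lt hp.one_lt, ZMod.pow_card_sub_one_eq_one ha⟩
  have h : Out D.mod := hO
    { F := ZMod p, K₀ := X.residueField y, k := k, K := K, p := p, N := N, η := η, d := d
      M := D.mod, hk := hk, hcl := hcl, reg := THt.reg0 D hy hd }
  have h1 := hH X p y N η c D
  exact ⟨hM X p y N η c D h1 h.main, hP X p y N η c D h1 h⟩

end Pool.Agent.MP_f3836a_nt.PK
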