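import Pool.Agent.MP_f3836a_nt.PK.SpecT

set_option autoImplicit false

/-! A global difference pairs to zero with a cycle. -/

namespace Pool.Agent.MP_f3836a_nt.PK

open AlgebraicGeometry

theorem rPair : RPair := fun X Y φ c hY hφ ⟨a, ha⟩ => by
  classical
  have h0 : ∀ C x, C ∉ hφ.fin.toFinset → PT.ordZ C x (φ C) = 0 := fun C x h => by
    rw [show φ C = 1 by simpa using h, ordZ_one]
  have hU : {x : X | Order.height x = 0 ∧ ∃ C, PT.ordZ C x (φ C) ≠ 0}.Finite :=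
    (hφ.fin.biUnion (t := fun C => {x : X | Order.height x = 0 ∧ PT.ordZ C x (φ C) ≠ 0})
      fun C hC => by
        obtain ⟨h1, y, h2, h3⟩ := hφ.cv C hC
        exact (hY y h2).fin C _ h3 h1 (hφ.ne C)).subset fun x ⟨h1, C, h2⟩ =>
      Set.mem_biUnion (x := C) (fun e => h2 (by rw [e, ordZ_one])) ⟨h1, h2⟩
  have h1 : ∀ (C : X) (β : X → ℚ), ∑ᶠ (x : X) (_ : Order.height x = 0),
      (PT.ordZ C x (φ C) : ℚ) * β x = ∑ x ∈ hU.toFinset, (PT.ordZ C x (φ C) : ℚ) * β x :=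
    fun C β => finsum_cond_eq_sum_of_cond_iff _ fun {x} hx => by
      simp only [Set.Finite.mem_toFinset, Set.mem_ofPred_eq]
      exact ⟨fun h => ⟨h, C, fun e => hx (by rw [e, Int.cast_zero, zero_mul])⟩, fun h => h.1⟩
  have h2 : ∀ C ∈ hφ.fin.toFinset, ∑ x ∈ hU.toFinset,
      (PT.ordZ C x (φ C) : ℚ) * (PT.dg x * c C x) =
        ∑ x ∈ hU.toFinset, (PT.ordZ C x (φ C) : ℚ) * (PT.dg x * a x) := fun C hC => by
    obtain ⟨k1, y, k2, k3⟩ := hφ.cv C (by simpa using hC)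
    have k4 := (hY y k2).deg C _ k3 k1 (hφ.ne C)
    rw [h1] at k4
    rw [← sub_eq_zero, ← Finset.sum_sub_distrib, ← zero_mul (-a C), ← k4, Finset.sum_mul]
    refine Finset.sum_congr rfl fun x hx => ?_
    by_cases h : C ⤳ x
    · rw [ha y k2 C x k3 h k1 (hU.mem_toFinset.1 hx).1]
      ring
    · simp [ordZ_not h]
  unfold PT.pair
  simp only [mul_assoc, h1]
  rw [finsum_eq_sum_of_support_subset (s := hφ.fin.toFinset) _ fun C hC => by_contra fun h =>
    hC (by simp [h0 C _ h]), Finset.sum_congr rfl h2, Finset.sum_comm]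
  refine Finset.sum_eq_zero fun x hx => ?_
  have h3 := hφ.div x (hU.mem_toFinset.1 hx).1
  rw [finsum_eq_sum_of_support_subset (s := hφ.fin.toFinset) _ fun C hC => by_contra fun h =>
    hC (h0 C _ h)] at h3
  rw [← Finset.sum_mul, ← Int.cast_sum, h3, Int.cast_zero, zero_mul]

end Pool.Agent.MP_f3836a_nt.PK
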