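import Pool.Agent.MP_f3836a_nt.PK.MainF
import Pool.Agent.MP_f3836a_nt.PK.GUp1
import Pool.Agent.MP_f3836a_nt.PK.GUp2
import Pool.Agent.MP_f3836a_nt.PK.GFF
import Pool.Agent.MP_f3836a_nt.PK.GFl
import Pool.Agent.MP_f3836a_nt.PK.GReg
import Pool.Agent.MP_f3836a_nt.PK.GLoc
import Pool.Agent.MP_f3836a_nt.PK.GPb1
import Pool.Agent.MP_f3836a_nt.PK.GPb2
import Pool.Agent.MP_f3836a_nt.PK.GPull
import Pool.Agent.MP_f3836a_nt.PK.GFac
import Pool.Agent.MP_f3836a_nt.PK.GCnt1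
import Pool.Agent.MP_f3836a_nt.PK.GCount
import Pool.Agent.MP_f3836a_nt.PK.GCE
import Pool.Agent.MP_f3836a_nt.PK.GProb
import Pool.Agent.MP_f3836a_nt.PK.GDesc
import Pool.Agent.MP_f3836a_nt.PK.GBig
import Pool.Agent.MP_f3836a_nt.PK.GTow
import Pool.Agent.MP_f3836a_nt.PK.GCen
import Pool.Agent.MP_f3836a_nt.PK.GVal
import Pool.Agent.MP_f3836a_nt.PK.GImg
import Pool.Agent.MP_f3836a_nt.PK.GCmp
import Pool.Agent.MP_f3836a_nt.PK.GFam1
import Pool.Agent.MP_f3836a_nt.PK.GFam2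
import Pool.Agent.MP_f3836a_nt.PK.GPushA
import Pool.Agent.MP_f3836a_nt.PK.GNice
import Pool.Agent.MP_f3836a_nt.PK.GPushB
import Pool.Agent.MP_f3836a_nt.PK.GMainS
import Pool.Agent.MP_f3836a_nt.PK.GMainF
import Pool.Agent.MP_f3836a_nt.PK.GCy
import Pool.Agent.MP_f3836a_nt.PK.ARiem
import Pool.Agent.MP_f3836a_nt.PK.ASig
import Pool.Agent.MP_f3836a_nt.PK.APic
import Pool.Agent.MP_f3836a_nt.PK.AIso
import Pool.Agent.MP_f3836a_nt.PK.ADeg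
import Pool.Agent.MP_f3836a_nt.PK.ASum
import Pool.Agent.MP_f3836a_nt.PK.APicB
import Pool.Agent.MP_f3836a_nt.PK.THt
import Pool.Agent.MP_f3836a_nt.PK.TCompM
import Pool.Agent.MP_f3836a_nt.PK.TCompP
import Pool.Agent.MP_f3836a_nt.PK.TAlpha
import Pool.Agent.MP_f3836a_nt.PK.TPair
import Pool.Agent.MP_f3836a_nt.PK.TGlue
import Pool.Agent.MP_f3836a_nt.PK.TFin
import Pool.Agent.MP_f3836a_nt.PK.SPr

set_option autoImplicit false

/-! All rows of parts G and T. -/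

namespace Pool.Agent.MP_f3836a_nt.PK

open AlgebraicGeometry CategoryTheory

universe u

theorem pBas (S : Stp.{u}) : S.Bas :=
  have u1 := rUp1 S
  have fl := rFlB rNorm S u1
  ⟨u1, rUp2 S u1, fl, rRegK rNorm S u1 fl, rLocA rQd _ _ _ _ S.M, rCenH _ _ _ _ S.M,
    fun c' c h hc => pCrvF S.k S.p S.N c'.var (rFF _ _ _ _ c' (u1.cv c' c h hc))⟩

theorem pMainS : RMainS.{u} :=
  rMainS pGeo rImg rCmp rFam1 (rFam2 rChain rExtV rDVsub) (rPushA rExtV rDVsub) rNice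
    (rDescP rCE rProb) (rPushB rBig rTowD rVis)

theorem pPicK : RPicK.{u} := rPicK (rRiem rLow) (rSigF rTrf) rTrf

theorem pOut : ROut := fun S =>
  have b := pBas S
  have pb := rPbA S b (rPb1 rBr2 rQd S b)
  have cn := rCount rFac S b (rCnt1 rNorm S)
  have cy := rCyA S b
  have dg := rDegC rTowD S b cn
  have sp := rSumP S b pb cy dg
  ⟨rMainF rSplit S b (rPullG S b pb) (rLowD S b cy) (pMainS S b cn), b.loc, rPicA S b dg cy sp,
    rPicB rIsoK rTrf rInv pPicK rChain rExtV S b dg cy sp⟩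

theorem pCompB : RCompB := rCompB rHt rCompM rCompP pOut

theorem pFinal3 (N : ℕ) (X : Scheme.{0}) (ι : X ⟶ PT.PN N) [IsClosedImmersion ι] (Y : Set X)
    (hY : ∀ y ∈ Y, PT.Reg y) (φ : ∀ C : X, X.residueField C) (hφ : CycS Y φ)
    (hc : ∀ c, (∀ y ∈ Y, PT.Cob {y} c) → PT.Cob Y c ∨ PT.pair φ c = 0) :
    ∃ n : ℕ, 0 < n ∧ ∃ l : List (Σ y : X, X.residueField y × X.residueField y),
      (∀ a ∈ l, Order.height a.1 = 2 ∧ (∃ y ∈ Y, y ⤳ a.1) ∧ a.2.1 ≠ 0 ∧ a.2.2 ≠ 0) ∧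
      ∀ C : X, Order.height C = 1 → φ C ^ n = (l.map fun a => PT.bd a.1 C a.2.1 a.2.2).prod := by
  obtain ⟨P, fr, h⟩ := @rPrA N X ι ‹_›
  have h1 : ∀ y ∈ Y, CompM y ∧ CompP y := fun y hy => pCompB X N P fr h y (hY y hy)
  exact rFin3 X Y φ hφ fun lam hl => rGlue (rAlS rAlpha) X Y φ lam h1 hφ
    (fun c h2 => (hc c h2).elim (rPair X Y φ c (fun y hy => (h1 y hy).2) hφ) id) hl

end Pool.Agent.MP_f3836a_nt.PK
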