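import Mathlib

set_option autoImplicit false

namespace Pool.Agent.MP_f3836a_nt.PT

open AlgebraicGeometry CategoryTheory IsLocalRing

universe u

/-- Projective `N`-space over the integers. -/
noncomputable def PN (N : ℕ) : Scheme.{0} :=
  letI := MvPolynomial.gradedAlgebra (σ := Fin (N + 1)) (R := ℤ)
  Proj (MvPolynomial.homogeneousSubmodule (Fin (N + 1)) ℤ)

open Classical in
/-- Order of vanishing of `f` along the subring `R` of the field `L`: for `f = a / b` with `a, b`
in `R` it is `length (R / a) - length (R / b)`. -/
noncomputable def ordF {L : Type u} [Field L] (R : Subring L) (f : L) : ℤ :=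
  if h : f ≠ 0 ∧ ∃ ab : R × R, ab.2 ≠ 0 ∧ f * ab.2 = ab.1 then
    ((Ring.ord R h.2.choose.1).toNat : ℤ) - (Ring.ord R h.2.choose.2).toNat
  else 0

section

variable {A L : Type u} [CommRing A] [IsLocalRing A] [Field L]

/-- The valuation ring `W` dominates the image of the local ring `A`. -/
def Dom (e : A →+* L) (W : ValuationSubring L) : Prop :=
  ∀ a, e a ∈ W ∧ (a ∈ maximalIdeal A → e a ∈ W.nonunits)

/-- The map on residue fields. -/
noncomputable def toRes {e : A →+* L} {W : ValuationSubring L} (h : Dom e W) :
    ResidueField A →+* ResidueField W :=
  Ideal.Quotient.lift _ ((residue W).comp (e.codRestrict W fun a => (h a).1)) fun a ha =>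
    (residue_eq_zero_iff _).2 (ValuationSubring.coe_mem_nonunits_iff.1 ((h a).2 ha))

open Classical in
/-- The tame symbol at a discrete valuation ring `W` of `L`. -/
noncomputable def tameW (W : ValuationSubring L) (f g : L) : ResidueField W :=
  if h : (-1) ^ (ordF W.toSubring f * ordF W.toSubring g) * f ^ ordF W.toSubring g /
      g ^ ordF W.toSubring f ∈ W then residue W ⟨_, h⟩ else 0

/-- The boundary map of Rost: the product, over the valuation rings dominating `A`, of the norms
of the tame symbols. -/
noncomputable def bdry (e : A →+* L) (f g : L) : ResidueField A :=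
  ∏ᶠ (W : ValuationSubring L) (h : Dom e W),
    letI := (toRes h).toAlgebra
    Algebra.norm (ResidueField A) (tameW W f g)

end

variable {X : Scheme.{0}}

/-- Restriction of germs at `z` to the residue field of a point `y` with `z` in its closure. The
image is the local ring at `z` of the reduced closure of `y`. -/
noncomputable def ev {y z : X} (h : y ⤳ z) : X.presheaf.stalk z →+* X.residueField y :=
  (X.presheaf.stalkSpecializes h ≫ X.residue y).hom

open Classical in
/-- Order at `z` of a rational function on the closure of `y`. -/
noncomputable def ordZ (y z : X) (f : X.residueField y) : ℤ :=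
  if h : y ⤳ z then ordF (ev h).range f else 0

open Classical in
/-- The component at `z` of the boundary of the symbol of two rational functions on the closure
of `y`. -/
noncomputable def bd (y z : X) (f g : X.residueField y) : X.residueField z :=
  if h : y ⤳ z then bdry (ev h) f g else 1

/-- The point `y` has positive characteristic and its reduced closure is regular. -/
def Reg (y : X) : Prop :=
  ringChar (X.residueField y) ≠ 0 ∧ ∀ (x : X) (h : y ⤳ x), Order.height x = 0 →
    IsRegularLocalRing (ev h).range ∧ ringKrullDim (ev h).range = Order.height y

/-- On the union of the closures of the points of `Y`, the function `c` on pairs (curve, closed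
point of the curve) is a difference `a x - a C`. -/
def Cob (Y : Set X) (c : X → X → ℚ) : Prop :=
  ∃ a : X → ℚ, ∀ y ∈ Y, ∀ C x : X, y ⤳ C → C ⤳ x → Order.height C = 1 → Order.height x = 0 →
    c C x = a x - a C

/-- The degree of a point over the prime field. -/
noncomputable def dg (x : X) : ℕ :=
  Module.finrank (⊥ : Subfield (X.residueField x)) (X.residueField x)

/-- The sum of `c` against the divisors of the functions `φ C`. -/
noncomputable def pair (φ : ∀ C : X, X.residueField C) (c : X → X → ℚ) : ℚ :=
  ∑ᶠ (C : X) (x : X) (_ : Order.height x = 0), ordZ C x (φ C) * dg x * c C x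

end Pool.Agent.MP_f3836a_nt.PT
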