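import Pool.Agent.MP_f3836a_nt.PK.SpecF
import Pool.Agent.MP_f3836a_nt.PK.DefsT

set_option autoImplicit false

/-! A projective variety over a finite field with given local rings, and its extension to the
algebraic closure. -/

namespace Pool.Agent.MP_f3836a_nt.PK

open MvPolynomial IsLocalRing

universe u

theorem ordT_eq {L : Type u} [Field L] (R : Subring L) (f : L) : PT.ordF R f = ordR R f := rfl

/-- the residue map of a valuation ring -/
noncomputable def resW {L : Type u} [Field L] (W : ValuationSubring L) :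
    W.toSubring →+* ResidueField W := residue W

theorem tameW_eq {L : Type u} [Field L] (W : ValuationSubring L) (f g : L) :
    PT.tameW W f g = tameR W.toSubring (resW W) f g := rfl

theorem toRes_residue {A L : Type u} [CommRing A] [IsLocalRing A] [Field L] {e : A →+* L}
    {W : ValuationSubring L} (h : PT.Dom e W) (a : A) :
    PT.toRes h (residue A a) = residue W ⟨e a, (h a).1⟩ := rfl

/-- norm along a homomorphism of fields -/
noncomputable def nrmO {κ κ' : Type u} [Field κ] [Field κ'] (ν : κ →+* κ') (t : κ') : κ :=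
  letI := ν.toAlgebra
  Algebra.norm κ t

theorem bdry_eq {A L : Type u} [CommRing A] [IsLocalRing A] [Field L] (e : A →+* L) (f g : L) :
    PT.bdry e f g = ∏ᶠ (W : ValuationSubring L) (h : PT.Dom e W),
      nrmO (PT.toRes h) (tameR W.toSubring (resW W) f g) := rfl

/-- minimal polynomial along a homomorphism of fields -/
noncomputable def mpO {κ κ' : Type u} [Field κ] [Field κ'] (ν : κ →+* κ') (t : κ') :
    Polynomial κ :=
  letI := ν.toAlgebra
  minpoly κ t

noncomputable def degO {κ κ' : Type u} [Field κ] [Field κ'] (ν : κ →+* κ') (t : κ') : ℕ :=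
  (mpO ν t).natDegree

/-- degree over the prime field -/
noncomputable def dgF (κ : Type u) [Field κ] : ℕ := Module.finrank (⊥ : Subfield κ) κ

theorem exists_theta {k : Type u} [Field k] (p : ℕ) [Fact p.Prime] [CharP k p]
    (hk : ∀ a : k, a ≠ 0 → ∃ n, 0 < n ∧ a ^ n = 1) (s : Set k) (hs : s.Finite) :
    ∃ (θ : k) (n : ℕ), 1 ≤ n ∧ θ ^ p ^ n = θ ∧ s ⊆ Subring.closure {θ} := by
  have key : ∃ θ : k, s ⊆ Subring.closure {θ} := by
    induction s, hs using Set.Finite.induction_on with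
    | empty => exact ⟨0, Set.empty_subset _⟩
    | @insert a s _ _ ih =>
      obtain ⟨θ, h⟩ := ih
      obtain ⟨c, h1, h2⟩ := EFl.common hk a θ
      have h3 : ∀ b : k, (b = 0 ∨ ∃ i : ℕ, b = c ^ i) → b ∈ Subring.closure {c} := by
        rintro b (rfl | ⟨i, rfl⟩)
        · exact zero_mem _
        · exact Subring.pow_mem _ (Subring.subset_closure (Set.mem_singleton c)) i
      refine ⟨c, Set.insert_subset (h3 a h1) (h.trans ?_)⟩
      exact Subring.closure_le.2 (Set.singleton_subset_iff.2 (h3 θ h2))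
  obtain ⟨θ, h⟩ := key
  obtain ⟨n, h1, h2⟩ := BGenA.exists_fix p (hk θ)
  exact ⟨θ, n, h1, h2, h⟩

/-- an element of a compositum involves finitely many generators -/
theorem exists_fin_closure {k L : Type u} [Field L] (E : Set L) (g : k → L) {f : L}
    (h : f ∈ Subfield.closure (E ∪ Set.range g)) :
    ∃ s : Set k, s.Finite ∧ f ∈ Subfield.closure (E ∪ g '' s) := by
  have key : ∀ s t : Set k, Subfield.closure (E ∪ g '' s) ≤ Subfield.closure (E ∪ g '' (s ∪ t)) :=
    fun s t => Subfield.closure_mono (Set.union_subset_union_right _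
      (Set.image_mono Set.subset_union_left))
  induction h using Subfield.closure_induction with
  | mem x hx =>
    rcases hx with hx | ⟨a, rfl⟩
    · exact ⟨∅, Set.finite_empty, Subfield.subset_closure (Or.inl hx)⟩
    · exact ⟨{a}, Set.finite_singleton a, Subfield.subset_closure (Or.inr ⟨a, rfl, rfl⟩)⟩
  | one => exact ⟨∅, Set.finite_empty, one_mem _⟩
  | add x y _ _ hx hy =>
    obtain ⟨s, h1, h2⟩ := hx
    obtain ⟨t, h3, h4⟩ := hy
    exact ⟨s ∪ t, h1.union h3, add_mem (key s t h2) (Set.union_comm t s ▸ key t s h4)⟩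
  | neg x _ hx => exact hx.imp fun s h => ⟨h.1, neg_mem h.2⟩
  | inv x _ hx => exact hx.imp fun s h => ⟨h.1, inv_mem h.2⟩
  | mul x y _ _ hx hy =>
    obtain ⟨s, h1, h2⟩ := hx
    obtain ⟨t, h3, h4⟩ := hy
    exact ⟨s ∪ t, h1.union h3, mul_mem (key s t h2) (Set.union_comm t s ▸ key t s h4)⟩

theorem nrmO_mul {κ κ' : Type u} [Field κ] [Field κ'] (ν : κ →+* κ') (a b : κ') :
    nrmO ν (a * b) = nrmO ν a * nrmO ν b :=
  letI := ν.toAlgebra
  map_mul (Algebra.norm κ) a b

theorem nrmO_one {κ κ' : Type u} [Field κ] [Field κ'] (ν : κ →+* κ') : nrmO ν 1 = 1 :=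
  letI := ν.toAlgebra
  map_one (Algebra.norm κ)

/-- degree of an extension -/
noncomputable def frO {κ κ' : Type u} [Field κ] [Field κ'] (ν : κ →+* κ') : ℕ :=
  letI := ν.toAlgebra
  Module.finrank κ κ'

theorem nrmO_map {κ κ' : Type u} [Field κ] [Field κ'] (ν : κ →+* κ') (x : κ) :
    nrmO ν (ν x) = x ^ frO ν :=
  letI := ν.toAlgebra
  Algebra.norm_algebraMap x

theorem nrmO_ne {κ κ' : Type u} [Field κ] [Field κ'] (ν : κ →+* κ') {a : κ'} (h : a ≠ 0) :
    nrmO ν a ≠ 0 :=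
  left_ne_zero_of_mul_eq_one (by rw [← nrmO_mul, mul_inv_cancel₀ h, nrmO_one])

section
variable {F K₀ : Type u} [Field F] [Field K₀] [Algebra F K₀] {N : ℕ} {η : Fin (N + 1) → K₀}

/-- a curve: not closed, and only closed points above it -/
def Hp.IsCv (c : Hp F η) : Prop := ¬ c.Cl ∧ ∀ y : Hp F η, c.P < y.P → y.Cl

/-- a surface -/
def Hp.IsSf (s : Hp F η) : Prop :=
  (∃ c : Hp F η, s.P < c.P ∧ ¬ c.Cl) ∧ ∀ c : Hp F η, s.P < c.P → c.Cl ∨ c.IsCv

/-- primes of a local ring come from points -/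
theorem exists_hp_q {c : Ctr F η} (hc : c.Good) (q : Ideal c.O) (hq : q.IsPrime) :
    ∃ (s : Hp F η) (h : s.P ≤ c.P), q = EYA.q h := by
  have e : ∀ A : Pol F N, Form A → aeval (fun j => Ideal.Quotient.mk q (c.lx (X j))) A =
      Ideal.Quotient.mk q (c.lx A) := fun A hA => by
    rw [← Ctr.aeval_lx hc hA]
    exact aeval_algebraMap_apply (A := c.O) (c.O ⧸ q) (fun j => c.lx (X j)) A
  obtain ⟨s, hs⟩ := exists_hp (ξ := η) (fun j => Ideal.Quotient.mk q (c.lx (X j)))
    (fun n G hG h => by rw [e G (Form.of hG), (Ctr.lx_eq_zero hc (Form.of hG)).2 h, map_zero])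
    ⟨c.idx, fun h => hq.ne_top (Ideal.eq_top_of_isUnit_mem _ (Ideal.Quotient.eq_zero_iff_mem.1 h)
      ((Ctr.lx_unit hc (Form.of (isHomogeneous_X F _))).2 (Ctr.idx_spec hc).1))⟩
  have hm : ∀ (n : ℕ) (A : Pol F N), A.IsHomogeneous n → (A ∈ s.P ↔ c.lx A ∈ q) := fun n A hA => by
    rw [hs n A hA, e A (Form.of hA), Ideal.Quotient.eq_zero_iff_mem]
  have h : s.P ≤ c.P := s.le_of fun n A hA h =>
    (Ctr.lx_mem_max hc (Form.of hA)).1 (le_maximalIdeal hq.ne_top ((hm n A hA).1 h))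
  refine ⟨s, h, Ideal.ext fun a => ?_⟩
  obtain ⟨n, A, B, hA, hB, hP, e1⟩ := Ctr.exists_lx hc a
  have hu := (Ctr.lx_unit hc (Form.of hB)).2 hP
  rw [← Ideal.mul_unit_mem_iff_mem q hu, ← Ideal.mul_unit_mem_iff_mem (EYA.q h) hu, e1,
    EYA.q_lx h hc hA, hm n A hA]

variable (F η) in
structure IsReg0 (d : ℕ) : Prop where
  gen : GenBy F η
  reg : ∀ x : Hp F η, x.Cl → IsRegularLocalRing x.O ∧ ringKrullDim x.O = d

variable (F η) in
/-- local rings mapping onto the local rings of the variety -/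
structure Mod : Type (u + 1) where
  A : Hp F η → Type u
  [cr : ∀ c, CommRing (A c)]
  [lr : ∀ c, IsLocalRing (A c)]
  π : ∀ c, A c →+* c.O
  e : ∀ s c : Hp F η, s.P ≤ c.P → (A c →+* ResidueField (A s))
  surj : ∀ c, Function.Surjective (π c)
  cmp : ∀ s c (h : s.P ≤ c.P) (a : A c) (b : A s), (π c a : K₀) = π s b →
    e s c h a = residue (A s) b

attribute [instance] Mod.cr Mod.lr

variable (M : Mod F η)

/-- residue field -/
abbrev Mod.κ (c : Hp F η) : Type u := ResidueField (M.A c)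

theorem Mod.mem_max (c : Hp F η) (a : M.A c) :
    M.π c a ∈ maximalIdeal c.O ↔ a ∈ maximalIdeal (M.A c) := by
  have := IsLocalHom.of_surjective (M.π c) (M.surj c)
  rw [mem_maximalIdeal, mem_maximalIdeal, mem_nonunits_iff, mem_nonunits_iff, isUnit_map_iff]

/-- the residue map on the local ring of the variety -/
noncomputable def Mod.r (c : Hp F η) : c.O →+* M.κ c :=
  (M.π c).liftOfSurjective (M.surj c) ⟨residue (M.A c), fun a ha => by
    rw [RingHom.mem_ker] at ha ⊢
    rw [residue_eq_zero_iff, ← M.mem_max, ha]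
    exact zero_mem _⟩

theorem Mod.r_π (c : Hp F η) (a : M.A c) : M.r c (M.π c a) = residue (M.A c) a :=
  RingHom.liftOfSurjective_comp_apply _ _ _ _

theorem Mod.r_surj (c : Hp F η) : Function.Surjective (M.r c) := fun t => by
  obtain ⟨a, rfl⟩ := residue_surjective t
  exact ⟨_, M.r_π c a⟩

theorem Mod.r_eq_zero (c : Hp F η) (b : c.O) : M.r c b = 0 ↔ b ∈ maximalIdeal c.O := by
  obtain ⟨a, rfl⟩ := M.surj c b
  rw [M.r_π, residue_eq_zero_iff, M.mem_max]

theorem Mod.e_eq {s c : Hp F η} (h : s.P ≤ c.P) (a : M.A c) :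
    M.e s c h a = M.r s (Subring.inclusion (EYA.le h) (M.π c a)) := by
  obtain ⟨b, hb⟩ := M.surj s (Subring.inclusion (EYA.le h) (M.π c a))
  rw [← hb, M.r_π]
  exact M.cmp s c h a b (by rw [hb]; rfl)

noncomputable instance Mod.algF (c : Hp F η) : Algebra F (M.κ c) :=
  ((M.r c).comp (algebraMap F c.O)).toAlgebra

theorem Mod.algF_eq (c : Hp F η) (a : F) :
    algebraMap F (M.κ c) a = M.r c (algebraMap F c.O a) := rfl

/-- coordinates of a point in its residue field -/
noncomputable def Mod.co (c : Hp F η) (j : Fin (N + 1)) : M.κ c := M.r c (c.lx (X j))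

theorem Mod.aeval_co (c : Hp F η) {A : Pol F N} (hA : Form A) :
    aeval (M.co c) A = M.r c (c.lx A) := by
  rw [← Ctr.aeval_lx c.good hA]
  exact (map_eval₂Hom _ _ (M.r c) A).symm

theorem Mod.co_zero (c : Hp F η) {n : ℕ} {A : Pol F N} (hA : A.IsHomogeneous n) :
    aeval (M.co c) A = 0 ↔ A ∈ c.P := by
  rw [M.aeval_co c (Form.of hA), M.r_eq_zero, Ctr.lx_mem_max c.good (Form.of hA)]

theorem Mod.co_ne (c : Hp F η) {j : Fin (N + 1)} : M.co c j ≠ 0 ↔ X j ∉ c.P := by
  rw [← M.co_zero c (isHomogeneous_X F j), aeval_X]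

theorem Mod.co_idx (c : Hp F η) : M.co c c.idx = 1 := by
  have : c.lx (X c.idx) = 1 := Subtype.ext (by
    rw [Ctr.coe_lx c.good (Form.of (isHomogeneous_X F _)), c.lo_X, div_self (Ctr.xi_ne c.good)]
    rfl)
  rw [Mod.co, this, map_one]

theorem Mod.r_frac (c : Hp F η) (b : c.O) {n : ℕ} {A B : Pol F N} (hA : A.IsHomogeneous n)
    (hB : B.IsHomogeneous n) (e : (b : K₀) * aeval η B = aeval η A) :
    M.r c b * aeval (M.co c) B = aeval (M.co c) A := by
  rw [M.aeval_co c (Form.of hA), M.aeval_co c (Form.of hB), ← map_mul]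
  exact congrArg _ (Subtype.ext (EYA.lx_frac c.good hA hB e))

/-- restriction of local functions at `c` to the subvariety `s` -/
noncomputable def Mod.rr {s c : Hp F η} (h : s.P ≤ c.P) : c.O →+* M.κ s :=
  (M.r s).comp (Subring.inclusion (EYA.le h))

theorem Mod.e_rr {s c : Hp F η} (h : s.P ≤ c.P) (a : M.A c) : M.e s c h a = M.rr h (M.π c a) :=
  M.e_eq h a

theorem Mod.rr_eq_zero {s c : Hp F η} (h : s.P ≤ c.P) (a : c.O) : M.rr h a = 0 ↔ a ∈ EYA.q h :=
  M.r_eq_zero s _

theorem Mod.range_e {s c : Hp F η} (h : s.P ≤ c.P) : (M.e s c h).range = (M.rr h).range := by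
  ext t
  constructor
  · rintro ⟨a, rfl⟩
    exact ⟨_, (M.e_rr h a).symm⟩
  · rintro ⟨b, rfl⟩
    obtain ⟨a, rfl⟩ := M.surj c b
    exact ⟨a, M.e_rr h a⟩

theorem Mod.rr_frac {s c : Hp F η} (h : s.P ≤ c.P) (b : c.O) {n : ℕ} {A B : Pol F N}
    (hA : A.IsHomogeneous n) (hB : B.IsHomogeneous n) (e : (b : K₀) * aeval η B = aeval η A) :
    M.rr h b * aeval (M.co s) B = aeval (M.co s) A := M.r_frac s _ hA hB e

theorem Mod.rr_lx {s c : Hp F η} (h : s.P ≤ c.P) {n : ℕ} {A : Pol F N} (hA : A.IsHomogeneous n) :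
    M.rr h (c.lx A) = aeval (M.co s) A / M.co s c.idx ^ n := by
  have h1 := M.rr_frac h (c.lx A) hA (isHomogeneous_X_pow c.idx n)
    (by rw [Ctr.coe_lx c.good (Form.of hA)]; exact Ctr.lo_spec c.good hA)
  rw [map_pow, aeval_X] at h1
  exact eq_div_of_mul_eq (pow_ne_zero _ ((M.co_ne s).2 fun h2 => (Ctr.idx_spec c.good).1 (h h2))) h1

theorem Mod.range_le {s c y : Hp F η} (h : s.P ≤ c.P) (h' : c.P ≤ y.P) :
    (M.e s y (h.trans h')).range ≤ (M.e s c h).range := by
  rw [M.range_e, M.range_e]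
  rintro _ ⟨a, rfl⟩
  exact ⟨Subring.inclusion (EYA.le h') a, rfl⟩

theorem Mod.range_refl (c : Hp F η) (h : c.P ≤ c.P) : (M.e c c h).range = ⊤ := by
  rw [M.range_e, eq_top_iff]
  intro t _
  obtain ⟨a, rfl⟩ := M.r_surj c t
  exact ⟨a, rfl⟩

/-- the trivial valuation is centred at the generic point -/
theorem Mod.dom_top {s c : Hp F η} {h : s.P ≤ c.P} (hd : PT.Dom (M.e s c h) ⊤) : s = c := by
  refine Hp.ext_P (le_antisymm h (c.le_of fun n A hA hP => ?_))
  obtain ⟨a, ha⟩ := M.surj c (c.lx A)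
  have h1 := (hd a).2 ((M.mem_max c a).1 (ha ▸ (Ctr.lx_mem_max c.good (Form.of hA)).2 hP))
  rw [← EYA.q_lx h c.good hA, ← M.rr_eq_zero, ← ha, ← M.e_rr]
  by_contra h2
  exact ((ValuationSubring.mem_nonunits_iff_or _).1 h1).elim h2 fun h3 => h3 trivial

open Classical in
/-- order at `c` of a function on `s` -/
noncomputable def Mod.ord (s c : Hp F η) (f : M.κ s) : ℤ :=
  if h : s.P ≤ c.P then ordR (M.e s c h).range f else 0

open Classical in
/-- boundary at `c` of a symbol on `s` -/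
noncomputable def Mod.bd (s c : Hp F η) (f g : M.κ s) : M.κ c :=
  if h : s.P ≤ c.P then PT.bdry (M.e s c h) f g else 1

/-- a surface on which the boundary map is well behaved -/
structure Mod.Nice (s : Hp F η) : Prop where
  sf : s.IsSf
  ne : ∀ (c : Hp F η) (f g : M.κ s), c.IsCv → f ≠ 0 → g ≠ 0 → M.bd s c f g ≠ 0
  fin : ∀ f g : M.κ s, f ≠ 0 → g ≠ 0 → {c : Hp F η | c.IsCv ∧ M.bd s c f g ≠ 1}.Finite
  swap : ∀ (c : Hp F η) (f g : M.κ s), c.IsCv → f ≠ 0 → g ≠ 0 →
    M.bd s c f g * M.bd s c g f = 1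

end

/-- the standing data -/
structure Stp : Type (u + 1) where
  F : Type u
  K₀ : Type u
  k : Type u
  K : Type u
  [fF : Field F]
  [fK₀ : Field K₀]
  [fk : Field k]
  [fK : Field K]
  [fin : Finite F]
  [ac : IsAlgClosed k]
  [a0 : Algebra F K₀]
  [a1 : Algebra F k]
  [a2 : Algebra K₀ K]
  [a3 : Algebra k K]
  [a4 : Algebra F K]
  [t1 : IsScalarTower F K₀ K]
  [t2 : IsScalarTower F k K]
  [alg : Algebra.IsAlgebraic K₀ K]
  p : ℕ
  [pp : Fact p.Prime]
  [ch : CharP k p]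
  N : ℕ
  η : Fin (N + 1) → K₀
  d : ℕ
  M : Mod F η
  hk : ∀ a : k, a ≠ 0 → ∃ n, 0 < n ∧ a ^ n = 1
  hcl : Subfield.closure (Set.range (algebraMap K₀ K) ∪ Set.range (algebraMap k K)) = ⊤
  reg : IsReg0 F η d

attribute [instance] Stp.fF Stp.fK₀ Stp.fk Stp.fK Stp.fin Stp.ac Stp.a0 Stp.a1 Stp.a2 Stp.a3 Stp.a4
  Stp.t1 Stp.t2 Stp.alg Stp.pp Stp.ch

namespace Stp

variable (S : Stp.{u})

/-- points over the finite field -/
abbrev H : Type u := Hp S.F S.η

/-- points over the algebraic closure -/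
abbrev H' : Type u := Hp S.k (up S.K S.η)

theorem gen_up : GenBy S.k (up S.K S.η) := by
  rw [genBy_iff, eq_top_iff, ← S.hcl, Subfield.closure_le]
  rintro _ (⟨g, rfl⟩ | ⟨c, rfl⟩)
  · obtain ⟨n, A, B, hA, hB, h0, h⟩ := S.reg.gen g
    exact ⟨n, map (algebraMap S.F S.k) A, map (algebraMap S.F S.k) B, hA.map _, hB.map _,
      by rw [EFl.aeval_up]; exact (map_ne_zero _).2 h0,
      by rw [EFl.aeval_up, EFl.aeval_up, ← map_mul, h]⟩
  · exact const_mem_rat c

/-- the variety over the algebraic closure -/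
def Y : Var S.k S.N := ⟨S.K, up S.K S.η, S.gen_up⟩

variable {S}

/-- lies over -/
def O (c' : S.H') (c : S.H) : Prop := Ov c'.toCtr c.toCtr

theorem o_und (c' : S.H') : O c' (c'.und S.F) := c'.ov_und

theorem o_iff {c' : S.H'} {c : S.H} : O c' c ↔ c'.und S.F = c :=
  ⟨fun h => Hp.ext_P (le_antisymm (Hp.le_of _ fun n A hA h1 => (h n A hA).2 h1)
    (Hp.le_of _ fun n A hA h1 => (h n A hA).1 h1)), fun h => h ▸ o_und c'⟩

variable {c' : S.H'} {c : S.H}

/-- the map of local rings -/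
noncomputable def inc (h : O c' c) : c.O →+* c'.O :=
  (algebraMap S.K₀ S.K).restrict c.O c'.O fun _ hf => EOv.ov_le h hf

theorem coe_inc (h : O c' c) (a : c.O) : (inc h a : S.K) = algebraMap S.K₀ S.K a := rfl

theorem inc_max (h : O c' c) (a : c.O) :
    inc h a ∈ maximalIdeal c'.O ↔ a ∈ maximalIdeal c.O := by
  obtain ⟨f, h1, h2, -⟩ := EFl.hom h c'.good
  rw [← h2, show inc h a = f a from Subtype.ext (h1 a).symm]

theorem inc_gen (h : O c' c) : EFl.Gen S.k (inc h) := by
  obtain ⟨f, h1, -, h3⟩ := EFl.hom h c'.good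
  rwa [show inc h = f from RingHom.ext fun a => Subtype.ext (h1 a).symm]

/-- the map of residue fields -/
noncomputable def nu (h : O c' c) : S.M.κ c →+* c'.var.K :=
  Ideal.Quotient.lift _ ((residue c'.O).comp ((inc h).comp (S.M.π c))) fun a ha =>
    (residue_eq_zero_iff _).2 ((inc_max h _).2 ((S.M.mem_max c a).2 ha))

theorem nu_r (h : O c' c) (b : c.O) : nu h (S.M.r c b) = residue c'.O (inc h b) := by
  obtain ⟨a, rfl⟩ := S.M.surj c b
  rw [S.M.r_π]
  rfl

theorem nu_frac (h : O c' c) (b : c.O) {n : ℕ} {A B : Pol S.F S.N} (hA : A.IsHomogeneous n)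
    (hB : B.IsHomogeneous n) (e : (b : S.K₀) * aeval S.η B = aeval S.η A) :
    nu h (S.M.r c b) * aeval c'.var.ξ (map (algebraMap S.F S.k) B) =
      aeval c'.var.ξ (map (algebraMap S.F S.k) A) := by
  rw [nu_r]
  exact c'.res_frac _ (hA.map _) (hB.map _) (by
    rw [EFl.aeval_up, EFl.aeval_up, coe_inc, ← map_mul, e])

theorem o_idx (h : O c' c) : c.idx = c'.idx := o_iff.1 h ▸ c'.und_idx

theorem nu_co (h : O c' c) (j : Fin (S.N + 1)) : nu h (S.M.co c j) = c'.var.ξ j := by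
  have h1 := nu_frac h (c.lx (X j)) (isHomogeneous_X _ j) (isHomogeneous_X _ c.idx) (by
    rw [Ctr.coe_lx c.good (Form.of (isHomogeneous_X _ j)), c.lo_X, aeval_X, aeval_X,
      div_mul_cancel₀ _ (Ctr.xi_ne c.good)])
  rw [map_X, map_X, aeval_X, aeval_X, o_idx h] at h1
  exact (mul_one _).symm.trans ((congrArg _ c'.eta_idx.symm).trans h1)

theorem nu_alg (h : O c' c) (a : S.F) :
    nu h (algebraMap S.F _ a) = algebraMap S.k c'.var.K (algebraMap S.F S.k a) := by
  rw [Mod.algF_eq, nu_r]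
  refine congrArg (residue c'.O) (Subtype.ext ?_)
  rw [coe_inc, Ctr.coe_algebraMap, Ctr.coe_algebraMap, ← IsScalarTower.algebraMap_apply,
    ← IsScalarTower.algebraMap_apply]

/-- the closed point under a point -/
noncomputable def pu (x : Pt S.k (up S.K S.η)) : S.H := x.hp.und S.F

theorem mem_pu (x : Pt S.k (up S.K S.η)) {n : ℕ} {A : Pol S.F S.N} (hA : A.IsHomogeneous n) :
    A ∈ (pu x).P ↔ eval x.z (map (algebraMap S.F S.k) A) = 0 := x.mem_hp (hA.map _)

theorem ov_pu (x : Pt S.k (up S.K S.η)) : Ov x.ctr (pu x).toCtr := fun _ _ hA => mem_pu x hA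

theorem o_pu (x : Pt S.k (up S.K S.η)) : O x.hp (pu x) := o_und _

/-- the map of local rings at a rational point -/
noncomputable def fx (x : Pt S.k (up S.K S.η)) : (pu x).O →+* x.ctr.O :=
  (algebraMap S.K₀ S.K).restrict (pu x).O x.ctr.O fun _ hf => EOv.ov_le (ov_pu x) hf

theorem coe_fx (x : Pt S.k (up S.K S.η)) (a : (pu x).O) :
    (fx x a : S.K) = algebraMap S.K₀ S.K a := rfl

theorem fx_max (x : Pt S.k (up S.K S.η)) (a : (pu x).O) :
    fx x a ∈ maximalIdeal x.ctr.O ↔ a ∈ maximalIdeal (pu x).O := by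
  obtain ⟨f, h1, h2, -⟩ := EFl.hom (ov_pu x) x.good
  rw [← h2, show fx x a = f a from Subtype.ext (h1 a).symm]

theorem fx_gen (x : Pt S.k (up S.K S.η)) : EFl.Gen S.k (fx x) := by
  obtain ⟨f, h1, -, h3⟩ := EFl.hom (ov_pu x) x.good
  rwa [show fx x = f from RingHom.ext fun a => Subtype.ext (h1 a).symm]

open Classical in
/-- the closed point under the centre of a place -/
noncomputable def cy (c' : S.H') (P : Place S.k c'.var.K) : S.H :=
  if h : ∃ x : Pt S.k (up S.K S.η), Cen c'.var.ξ x.z P then pu h.choose else c'.und S.F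

/-- number of points over a point -/
noncomputable def nO (c : S.H) : ℕ := {c' : S.H' | O c' c}.ncard

/-- number of rational points over a point -/
noncomputable def nP (y : S.H) : ℕ := {x : Pt S.k (up S.K S.η) | pu x = y}.ncard

/-- a sufficiently general constant -/
def Big (s : Set S.k) (θ : S.k) : Prop :=
  (∃ n, 1 ≤ n ∧ θ ^ S.p ^ n = θ) ∧ s ⊆ Subring.closure {θ}

/-- degree of a constant over the function field -/
noncomputable def D (θ : S.k) : ℕ := (minpoly S.K₀ (algebraMap S.k S.K θ)).natDegree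

end Stp

end Pool.Agent.MP_f3836a_nt.PK
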