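import Pool.Agent.MP_f3836a_nt.PK.SpecG
import Pool.Agent.MP_f3836a_nt.PK.SComp

set_option autoImplicit false

/-! Part T: schemes, any dimension. -/

namespace Pool.Agent.MP_f3836a_nt.PK

open MvPolynomial IsLocalRing AlgebraicGeometry CategoryTheory

theorem evT_eq {X : Scheme.{0}} {y z : X} (h : y ⤳ z) : PT.ev h = PS.ev h := rfl

theorem ordZ_one {X : Scheme.{0}} (C x : X) : PT.ordZ C x 1 = 0 := SComp.ord_one C x

theorem ordZ_not {X : Scheme.{0}} {C x : X} (h : ¬ C ⤳ x) (f : X.residueField C) :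
    PT.ordZ C x f = 0 := dif_neg h

theorem bdT_not {X : Scheme.{0}} {s C : X} (h : ¬ s ⤳ C) (f g : X.residueField s) :
    PT.bd s C f g = 1 := dif_neg h

namespace Dict

variable {X : Scheme.{0}} {p : ℕ} [Fact p.Prime] {y : X} [Algebra (ZMod p) (X.residueField y)]
  {N : ℕ} {η : Fin (N + 1) → X.residueField y} {c : ∀ z : X, y ⤳ z → Hp (ZMod p) η}
  (D : Dict p y η c)

/-- the point of the scheme -/
noncomputable def z (a : Hp (ZMod p) η) : X := (D.surj a).choose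

theorem hz (a : Hp (ZMod p) η) : y ⤳ D.z a := (D.surj a).choose_spec.choose

theorem ez (a : Hp (ZMod p) η) : c (D.z a) (D.hz a) = a := (D.surj a).choose_spec.choose_spec

theorem eO (a : Hp (ZMod p) η) : a.O = (PT.ev (D.hz a)).range := by
  rw [evT_eq, ← D.O, D.ez]

theorem zle {a b : Hp (ZMod p) η} : a.P ≤ b.P ↔ D.z a ⤳ D.z b := by
  rw [← D.le _ (D.hz a) _ (D.hz b), D.ez, D.ez]

theorem z_inj : Function.Injective D.z := fun _ _ e =>
  Hp.ext_P (le_antisymm (D.zle.2 (e ▸ specializes_refl _)) (D.zle.2 (e ▸ specializes_refl _)))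

theorem z_surj {w : X} (h : y ⤳ w) : ∃ a, D.z a = w :=
  ⟨c w h, SComp.c_inj D (congrArg (fun x : Hp (ZMod p) η => x.P) (D.ez _))⟩

theorem cl_iff (a : Hp (ZMod p) η) : a.Cl ↔ IsClosed ({D.z a} : Set X) := by
  rw [← SComp.cl_iff D (D.hz a), D.ez]

/-- the stalks as a model -/
noncomputable def mod : Mod (ZMod p) η where
  A a := X.presheaf.stalk (D.z a)
  π a := (PT.ev (D.hz a)).codRestrict a.O fun t => by rw [D.eO]; exact ⟨t, rfl⟩
  e _ _ h := PT.ev (D.zle.1 h)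
  surj a t := by
    obtain ⟨b, hb⟩ : (t : X.residueField y) ∈ (PT.ev (D.hz a)).range := D.eO a ▸ t.2
    exact ⟨b, Subtype.ext hb⟩
  cmp s a h t b e := by
    have h1 : PS.ev (D.hz s) (sp (D.zle.1 h) t - b) = 0 := by
      rw [map_sub, ← ev_trans, sub_eq_zero]
      exact e
    refine Ideal.Quotient.eq.2 ?_
    rw [mem_maximalIdeal, mem_nonunits_iff]
    exact fun hu => (hu.map (PS.ev (D.hz s))).ne_zero h1

theorem ord_eq (s a : Hp (ZMod p) η) (f : X.residueField (D.z s)) :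
    D.mod.ord s a f = PT.ordZ (D.z s) (D.z a) f := by
  unfold Mod.ord PT.ordZ
  by_cases h : s.P ≤ a.P
  · rw [dif_pos h, dif_pos (D.zle.1 h)]
    rfl
  · rw [dif_neg h, dif_neg fun h' => h (D.zle.2 h')]

theorem bd_eq (s a : Hp (ZMod p) η) (f g : X.residueField (D.z s)) :
    D.mod.bd s a f g = PT.bd (D.z s) (D.z a) f g := by
  unfold Mod.bd PT.bd
  by_cases h : s.P ≤ a.P
  · rw [dif_pos h, dif_pos (D.zle.1 h)]
    rfl
  · rw [dif_neg h, dif_neg fun h' => h (D.zle.2 h')]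
    rfl

theorem dg_eq (a : Hp (ZMod p) η) : dgF (D.mod.κ a) = PT.dg (D.z a) := rfl

/-- dimensions of points -/
structure Ht : Prop where
  cl : ∀ a : Hp (ZMod p) η, a.Cl ↔ Order.height (D.z a) = 0
  cv : ∀ a : Hp (ZMod p) η, a.IsCv ↔ Order.height (D.z a) = 1
  sf : ∀ a : Hp (ZMod p) η, a.IsSf → Order.height (D.z a) = 2

end Dict

/-- everything proved about a model -/
structure Out {F K₀ : Type} [Field F] [Field K₀] [Algebra F K₀] {N : ℕ} {η : Fin (N + 1) → K₀}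
    (M : Mod F η) : Prop where
  main : MainM M
  loc : LocA M
  pa : PicA M
  pb : PicB M

def ROut : Prop := ∀ S : Stp.{0}, Out S.M

section
variable {X : Scheme.{0}}

/-- a point on which the boundary map is well behaved -/
structure NiceS (s : X) : Prop where
  ne : ∀ (C : X) (f g : X.residueField s), Order.height C = 1 → f ≠ 0 → g ≠ 0 → PT.bd s C f g ≠ 0
  fin : ∀ f g : X.residueField s, f ≠ 0 → g ≠ 0 →
    {C : X | Order.height C = 1 ∧ PT.bd s C f g ≠ 1}.Finite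
  swap : ∀ (C : X) (f g : X.residueField s), Order.height C = 1 → f ≠ 0 → g ≠ 0 →
    PT.bd s C f g * PT.bd s C g f = 1

/-- functions on curves of the union with total divisor zero -/
structure CycS (Y : Set X) (φ : ∀ C : X, X.residueField C) : Prop where
  ne : ∀ C, φ C ≠ 0
  fin : {C | φ C ≠ 1}.Finite
  cv : ∀ C, φ C ≠ 1 → Order.height C = 1 ∧ ∃ y ∈ Y, y ⤳ C
  div : ∀ x : X, Order.height x = 0 → ∑ᶠ C, PT.ordZ C x (φ C) = 0

/-- functionals killing boundaries from surfaces of the union -/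
structure KillS (Y : Set X) (lam : ∀ C : X, X.residueField C → ℚ) : Prop where
  add : ∀ C, Addv (lam C)
  bd : ∀ s : X, Order.height s = 2 → (∃ y ∈ Y, y ⤳ s) → NiceS s →
    ∀ f g : X.residueField s, f ≠ 0 → g ≠ 0 →
      ∑ᶠ (C : X) (_ : Order.height C = 1), lam C (PT.bd s C f g) = 0

/-- the theorem on one component -/
def CompM (y : X) : Prop := ∀ φ lam, CycS {y} φ → KillS {y} lam → ∑ᶠ C, lam C (φ C) = 0

/-- divisors on curves of one component -/
structure CompP (y : X) : Prop where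
  omul : ∀ (C x : X) (f g : X.residueField C), y ⤳ C → Order.height C = 1 → f ≠ 0 → g ≠ 0 →
    PT.ordZ C x (f * g) = PT.ordZ C x f + PT.ordZ C x g
  pos : ∀ x : X, y ⤳ x → Order.height x = 0 → 0 < PT.dg x
  fin : ∀ (C : X) (f : X.residueField C), y ⤳ C → Order.height C = 1 → f ≠ 0 →
    {x : X | Order.height x = 0 ∧ PT.ordZ C x f ≠ 0}.Finite
  deg : ∀ (C : X) (f : X.residueField C), y ⤳ C → Order.height C = 1 → f ≠ 0 →
    ∑ᶠ (x : X) (_ : Order.height x = 0), (PT.ordZ C x f : ℚ) * PT.dg x = 0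
  pic : ∀ (C : X) (β : X → ℚ), y ⤳ C → Order.height C = 1 →
    (∀ f : X.residueField C, f ≠ 0 →
      ∑ᶠ (x : X) (_ : Order.height x = 0), (PT.ordZ C x f : ℚ) * β x = 0) →
    ∃ γ : ℚ, ∀ x : X, C ⤳ x → Order.height x = 0 → β x = γ * PT.dg x

end

/-- the shape of the rows about a dictionary -/
def AllD (Φ : ∀ (X : Scheme.{0}) (p : ℕ) [Fact p.Prime] (y : X)
    [Algebra (ZMod p) (X.residueField y)] (N : ℕ) (η : Fin (N + 1) → X.residueField y)
    (c : ∀ z : X, y ⤳ z → Hp (ZMod p) η) (_ : Dict p y η c), Prop) : Prop :=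
  ∀ (X : Scheme.{0}) (p : ℕ) [Fact p.Prime] (y : X) [Algebra (ZMod p) (X.residueField y)] (N : ℕ)
    (η : Fin (N + 1) → X.residueField y) (c : ∀ z : X, y ⤳ z → Hp (ZMod p) η) (D : Dict p y η c),
    Φ X p y N η c D

def RHt : Prop := AllD fun _ _ _ _ _ _ _ _ D => D.Ht

def RCompM : Prop := AllD fun _ _ _ y _ _ _ _ D => D.Ht → MainM D.mod → CompM y

def RCompP : Prop := AllD fun _ _ _ y _ _ _ _ D => D.Ht → Out D.mod → CompP y

def RCompB : Prop := ∀ (X : Scheme.{0}) (N : ℕ) P fr, PrA X N P fr → ∀ y : X, PT.Reg y →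
  CompM y ∧ CompP y

/-- a functional killing cycles comes from a function on points -/
def RAlpha : Prop := ∀ (I Z : Type) (κ : I → Type) [∀ i, Field (κ i)] (o : ∀ i, Z → κ i → ℤ)
  (lam : ∀ i, κ i → ℚ), (∀ i z f g, f ≠ 0 → g ≠ 0 → o i z (f * g) = o i z f + o i z g) →
  (∀ i f, f ≠ 0 → {z | o i z f ≠ 0}.Finite) → (∀ i, Addv (lam i)) →
  (∀ φ : ∀ i, κ i, (∀ i, φ i ≠ 0) → {i | φ i ≠ 1}.Finite → (∀ z, ∑ᶠ i, o i z (φ i) = 0) →
    ∑ᶠ i, lam i (φ i) = 0) →
  ∃ α : Z → ℚ, ∀ i f, f ≠ 0 → lam i f = ∑ᶠ z, (o i z f : ℚ) * α z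

/-- the function on points for one component -/
def RAlS : Prop := ∀ (X : Scheme.{0}) (y : X) (lam : ∀ C : X, X.residueField C → ℚ), CompM y →
  CompP y → KillS {y} lam → ∃ α : X → ℚ, ∀ (C : X) (f : X.residueField C), y ⤳ C →
    Order.height C = 1 → f ≠ 0 →
    lam C f = ∑ᶠ (x : X) (_ : Order.height x = 0), (PT.ordZ C x f : ℚ) * α x

/-- a global difference pairs to zero -/
def RPair : Prop := ∀ (X : Scheme.{0}) (Y : Set X) (φ : ∀ C : X, X.residueField C)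
  (c : X → X → ℚ), (∀ y ∈ Y, CompP y) → CycS Y φ → PT.Cob Y c → PT.pair φ c = 0

def RGlue : Prop := ∀ (X : Scheme.{0}) (Y : Set X) (φ : ∀ C : X, X.residueField C)
  (lam : ∀ C : X, X.residueField C → ℚ), (∀ y ∈ Y, CompM y ∧ CompP y) → CycS Y φ →
  (∀ c, (∀ y ∈ Y, PT.Cob {y} c) → PT.pair φ c = 0) → KillS Y lam → ∑ᶠ C, lam C (φ C) = 0

def RFin3 : Prop := ∀ (X : Scheme.{0}) (Y : Set X) (φ : ∀ C : X, X.residueField C), CycS Y φ →
  (∀ lam, KillS Y lam → ∑ᶠ C, lam C (φ C) = 0) →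
  ∃ n : ℕ, 0 < n ∧ ∃ l : List (Σ y : X, X.residueField y × X.residueField y),
    (∀ a ∈ l, Order.height a.1 = 2 ∧ (∃ y ∈ Y, y ⤳ a.1) ∧ a.2.1 ≠ 0 ∧ a.2.2 ≠ 0) ∧
    ∀ C : X, Order.height C = 1 → φ C ^ n = (l.map fun a => PT.bd a.1 C a.2.1 a.2.2).prod

end Pool.Agent.MP_f3836a_nt.PK
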