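import Pool.Agent.MP_f3836a_nt.PK.SpecF
import Pool.Agent.MP_f3836a_nt.PK.ELen

set_option autoImplicit false

/-! Quotients of regular local rings by a parameter, and normality of regular local rings. -/

namespace Pool.Agent.MP_f3836a_nt.PK

open IsLocalRing

universe u

open ELen in
theorem rRegQ : RRegQ.{u} := by
  intro R _ _ n hd x hx hx'
  classical
  have hn : (maximalIdeal R).spanFinrank = n + 1 := by
    have h := IsRegularLocalRing.spanFinrank_maximalIdeal (R := R)
    rw [hd] at h
    exact_mod_cast h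
  obtain ⟨t, ht, hm⟩ := gen hn hx hx'
  have nt : Ideal.span {x} ≠ ⊤ := fun e =>
    (mem_maximalIdeal x).1 hx (Ideal.span_singleton_eq_top.1 e)
  have := Ideal.Quotient.nontrivial_iff.2 nt
  have sj := Ideal.Quotient.mk_surjective (I := Ideal.span {x})
  have := IsLocalRing.of_surjective' (Ideal.Quotient.mk (Ideal.span {x})) sj
  have le : (maximalIdeal (R ⧸ Ideal.span {x})).spanFinrank ≤ n := by
    rw [← map_maximalIdeal_of_surjective _ sj, hm, Ideal.map_sup, Ideal.map_quotient_self,
      sup_bot_eq, Ideal.map_span]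
    refine (Submodule.spanFinrank_span_le_ncard_of_finite (t.finite_toSet.image _)).trans ?_
    refine (Set.ncard_image_le t.finite_toSet).trans ?_
    rw [Set.ncard_coe_finset, ht]
  have ge : ((n : ℕ) : WithBot ℕ∞) ≤ ringKrullDim (R ⧸ Ideal.span {x}) := by
    have h1 := Ideal.height_le_ringKrullDim_quotient_add_one (p := maximalIdeal R) hx
    rw [maximalIdeal_height_eq_ringKrullDim, hd, Nat.cast_add, Nat.cast_one,
      ENat.WithBot.add_le_add_one_right_iff] at h1
    exact h1
  have reg : IsRegularLocalRing (R ⧸ Ideal.span {x}) :=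
    IsRegularLocalRing.of_spanFinrank_maximalIdeal_le _ (le_trans (by exact_mod_cast le) ge)
  refine ⟨reg, le_antisymm ?_ ge, ?_⟩
  · rw [← IsRegularLocalRing.spanFinrank_maximalIdeal]
    exact_mod_cast le
  · have x0 : x ≠ 0 := fun e => hx' (e ▸ zero_mem _)
    exact (Ideal.span_singleton_prime x0).1 ((Ideal.Quotient.isDomain_iff_prime _).1 (rDom _))

namespace FReg

/-- complete integral closedness, in terms of divisibility -/
def CI (R : Type u) [CommRing R] : Prop :=
  ∀ b c d : R, c ≠ 0 → d ≠ 0 → (∀ n : ℕ, c ^ n ∣ d * b ^ n) → c ∣ b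

theorem shift {R : Type u} [CommRing R] {b c d : R} (h : ∀ n : ℕ, c ^ n ∣ d * b ^ n) (v : R)
    (n : ℕ) : c ^ n ∣ d * (b + c * v) ^ n := by
  rw [add_pow, Finset.mul_sum]
  refine Finset.dvd_sum fun i hi => ?_
  obtain ⟨w, hw⟩ := h i
  have e : n = i + (n - i) := by
    have := Finset.mem_range.1 hi
    omega
  refine ⟨w * v ^ (n - i) * (n.choose i : R), ?_⟩
  calc d * (b ^ i * (c * v) ^ (n - i) * (n.choose i : R))
      = d * b ^ i * c ^ (n - i) * (v ^ (n - i) * (n.choose i : R)) := by ring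
    _ = c ^ (i + (n - i)) * (w * v ^ (n - i) * (n.choose i : R)) := by rw [hw]; ring
    _ = _ := by rw [← e]

theorem strip {R : Type u} [CommRing R] [IsDomain R] {y a x : R} (hy : Prime y) (ha : ¬ y ∣ a)
    (k : ℕ) (h : a ∣ y ^ k * x) : a ∣ x := by
  induction k with
  | zero => simpa using h
  | succ k ih =>
    rw [pow_succ', mul_assoc] at h
    exact ih ((hy.left_dvd_or_dvd_right_of_dvd_mul h).resolve_left ha)

theorem expo {R : Type u} [CommRing R] [IsDomain R] {y x : R} (hy : Prime y) (hx : ¬ y ∣ x)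
    {i k : ℕ} (h : y ^ i ∣ y ^ k * x) : i ≤ k := by
  by_contra hn
  have h1 : y ^ k * y ∣ y ^ k * x := by
    rw [← pow_succ]
    exact (pow_dvd_pow y (by omega)).trans h
  exact hx ((mul_dvd_mul_iff_left (pow_ne_zero k hy.ne_zero)).1 h1)

theorem lift {R : Type u} [CommRing R] [IsDomain R] [IsLocalRing R] [IsNoetherianRing R] {y : R}
    (hy : Prime y) (hq : CI (R ⧸ Ideal.span {y})) : CI R := by
  intro b c d hc hd h
  obtain ⟨s, c0, c1, rfl⟩ := WfDvdMonoid.max_power_factor' hc hy.not_isUnit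
  obtain ⟨r, d0, d1, rfl⟩ := WfDvdMonoid.max_power_factor' hd hy.not_isUnit
  have z : ∀ a : R, Ideal.Quotient.mk (Ideal.span {y}) a = 0 ↔ y ∣ a := fun a => by
    rw [Ideal.Quotient.eq_zero_iff_mem, Ideal.mem_span_singleton]
  have key : ∀ j : ℕ, ∃ v w : R, b = y ^ s * c0 * v + y ^ j * w := by
    intro j
    induction j with
    | zero => exact ⟨0, b, by simp⟩
    | succ j ih =>
      obtain ⟨v, w, e⟩ := ih
      by_cases hw : y ∣ w
      · obtain ⟨w', rfl⟩ := hw
        exact ⟨v, w', by rw [e]; ring⟩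
      have h1 : ∀ n : ℕ, (y ^ s * c0) ^ n ∣ y ^ (r + j * n) * (d0 * w ^ n) := fun n => by
        have h2 := shift h (-v) n
        have e2 : b + y ^ s * c0 * -v = y ^ j * w := by rw [e]; ring
        rw [e2] at h2
        convert h2 using 1
        ring
      have h3 : ∀ n : ℕ, ¬ y ∣ d0 * w ^ n := fun n hn =>
        (hy.dvd_or_dvd hn).elim d1 fun h4 => hw (hy.dvd_of_dvd_pow h4)
      have h5 : s ≤ j := by
        have h6 : y ^ (s * (r + 1)) ∣ (y ^ s * c0) ^ (r + 1) := by
          rw [mul_pow, ← pow_mul]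
          exact dvd_mul_right _ _
        have h7 := expo hy (h3 _) (h6.trans (h1 (r + 1)))
        by_contra hn
        have h8 : (j + 1) * (r + 1) ≤ s * (r + 1) := Nat.mul_le_mul_right _ (by omega)
        nlinarith
      have h9 : ∀ n : ℕ, c0 ^ n ∣ d0 * w ^ n := fun n =>
        strip hy (fun h4 => c1 (hy.dvd_of_dvd_pow h4)) _
          ((pow_dvd_pow_of_dvd (dvd_mul_left _ _) n).trans (h1 n))
      obtain ⟨q, hq'⟩ := hq (Ideal.Quotient.mk _ w) (Ideal.Quotient.mk _ c0)
        (Ideal.Quotient.mk _ d0) (fun e => c1 ((z _).1 e)) (fun e => d1 ((z _).1 e)) fun n => by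
          simpa only [map_pow, map_mul] using map_dvd (Ideal.Quotient.mk (Ideal.span {y})) (h9 n)
      obtain ⟨q, rfl⟩ := Ideal.Quotient.mk_surjective q
      obtain ⟨w', hw'⟩ := (z (w - c0 * q)).1 (by rw [map_sub, map_mul, hq', sub_self])
      obtain ⟨i, rfl⟩ := Nat.exists_eq_add_of_le h5
      refine ⟨v + y ^ i * q, w', ?_⟩
      rw [e, show w = c0 * q + y * w' by rw [← hw']; ring]
      ring
  have nt : Ideal.span {y} ≠ ⊤ := fun e => hy.not_isUnit (Ideal.span_singleton_eq_top.1 e)
  have kr := Ideal.iInf_pow_smul_eq_bot_of_isLocalRing (M := R ⧸ Ideal.span {y ^ s * c0})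
    (Ideal.span {y}) nt
  rw [← Ideal.mem_span_singleton, ← Submodule.Quotient.mk_eq_zero, ← Submodule.mem_bot R, ← kr,
    Submodule.mem_iInf]
  intro j
  obtain ⟨v, w, e⟩ := key j
  have e2 : (Submodule.Quotient.mk b : R ⧸ Ideal.span {y ^ s * c0}) =
      y ^ j • Submodule.Quotient.mk w := by
    rw [← Submodule.Quotient.mk_smul, Submodule.Quotient.eq, Ideal.mem_span_singleton]
    exact ⟨v, by rw [e, smul_eq_mul]; ring⟩
  rw [e2]
  exact Submodule.smul_mem_smul (Ideal.pow_mem_pow (Ideal.mem_span_singleton_self y) j)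
    Submodule.mem_top

theorem ci (n : ℕ) : ∀ (R : Type u) [CommRing R] [IsRegularLocalRing R],
    ringKrullDim R = n → CI R := by
  induction n with
  | zero =>
    intro R _ _ hd b c d hc _ _
    have hn : (maximalIdeal R).spanFinrank = 0 := by
      have h := IsRegularLocalRing.spanFinrank_maximalIdeal (R := R)
      rw [hd] at h
      exact_mod_cast h
    have h0 := (Submodule.spanFinrank_eq_zero_iff_eq_bot (IsNoetherian.noetherian _)).1 hn
    refine IsUnit.dvd ?_
    by_contra hu
    exact hc (by simpa [h0] using (mem_maximalIdeal c).2 hu)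
  | succ n ih =>
    intro R _ _ hd
    have := rDom R
    have hn : (maximalIdeal R).spanFinrank = n + 1 := by
      have h := IsRegularLocalRing.spanFinrank_maximalIdeal (R := R)
      rw [hd] at h
      exact_mod_cast h
    obtain ⟨y, hy, hy'⟩ : ∃ y ∈ maximalIdeal R, y ∉ maximalIdeal R ^ 2 := by
      by_contra hc
      push Not at hc
      have h0 := ELen.nak (I := maximalIdeal R) (by rw [← sq]; exact hc)
      rw [h0, Submodule.spanFinrank_bot] at hn
      omega
    obtain ⟨_, h2, h3⟩ := rRegQ R n hd y hy hy'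
    exact lift h3 (ih _ h2)

end FReg

theorem rNorm : RNorm.{u} := by
  intro R _ _ _
  have hci := FReg.ci _ R (IsRegularLocalRing.spanFinrank_maximalIdeal (R := R)).symm
  refine (isIntegrallyClosed_iff (FractionRing R)).2 fun {x} hx => ?_
  obtain ⟨d, hd, h⟩ := FractionalIdeal.isFractional_of_fg (S := nonZeroDivisors R)
    hx.fg_adjoin_singleton
  obtain ⟨b, c, hc, rfl⟩ := IsFractionRing.div_surjective (A := R) x
  have c0 : algebraMap R (FractionRing R) c ≠ 0 :=
    IsFractionRing.to_map_ne_zero_of_mem_nonZeroDivisors hc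
  obtain ⟨q, rfl⟩ := hci b c d (nonZeroDivisors.ne_zero hc) (nonZeroDivisors.ne_zero hd) fun n => by
    obtain ⟨w, hw⟩ := h _ (pow_mem (Algebra.self_mem_adjoin_singleton R _) n)
    refine ⟨w, IsFractionRing.injective R (FractionRing R) ?_⟩
    rw [map_mul, map_mul, map_pow, map_pow, hw, Algebra.smul_def, div_pow]
    field_simp
  exact ⟨q, by rw [map_mul]; field_simp⟩

end Pool.Agent.MP_f3836a_nt.PK
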