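import Pool.Agent.MP_f3836a_nt.PK.SpecG

set_option autoImplicit false

/-! Degrees of closed points. -/

namespace Pool.Agent.MP_f3836a_nt.PK

open MvPolynomial

universe u

namespace ADeg

theorem dgF_mul {F κ : Type u} [Field F] [Field κ] (α : F →+* κ) : dgF κ = dgF F * frO α := by
  let := α.toAlgebra
  have e : ∀ x : F, x ∈ (⊥ : Subfield F) → α x ∈ (⊥ : Subfield κ) := fun x hx =>
    (bot_le : (⊥ : Subfield F) ≤ Subfield.comap α ⊥) hx
  have b : Function.Bijective (α.restrict (⊥ : Subfield F) (⊥ : Subfield κ) e) :=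
    ⟨RingHom.injective _, fun y => by
      obtain ⟨x, hx, h⟩ := (bot_le : (⊥ : Subfield κ) ≤ Subfield.map α ⊥) y.2
      exact ⟨⟨x, hx⟩, Subtype.ext h⟩⟩
  refine Eq.trans ?_ (Module.finrank_mul_finrank (⊥ : Subfield F) F κ).symm
  exact (Algebra.finrank_eq_of_equiv_equiv (RingEquiv.ofBijective _ b) (RingEquiv.refl κ)
    (RingHom.ext fun _ => rfl)).symm

theorem degO_comp {κ₀ κ₁ κ₂ : Type u} [Field κ₀] [Field κ₁] [Field κ₂] (β : κ₀ →+* κ₁)
    (j : κ₁ →+* κ₂) (θ : κ₁) : degO (j.comp β) (j θ) = degO β θ := by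
  let := β.toAlgebra
  let := (j.comp β).toAlgebra
  exact congrArg Polynomial.natDegree
    (minpoly.algHom_eq ({ j with commutes' := fun _ => rfl } : κ₁ →ₐ[κ₀] κ₂) j.injective θ)

section
variable {k K : Type u} [Field k] [Field K] [Algebra k K] {N : ℕ} {ξ : Fin (N + 1) → K}

theorem lin (x : Pt k ξ) (j : Fin (N + 1)) :
    (X j - C (x.z j) * X x.ctr.idx : Pol k N).IsHomogeneous 1 ∧
      (X j - C (x.z j) * X x.ctr.idx : Pol k N) ∈ x.hp.P := by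
  have h := (isHomogeneous_X k j).sub ((isHomogeneous_X k x.ctr.idx).C_mul (x.z j))
  exact ⟨h, (x.mem_hp h).2 (by simp [x.z_idx.1])⟩

theorem hp_inj : Function.Injective (Pt.hp : Pt k ξ → Hp k ξ) := fun x y h => by
  have e : ∀ j, y.z j = x.z j * y.z x.ctr.idx := fun j => by
    simpa [sub_eq_zero] using (y.mem_hp (lin x j).1).1 (h ▸ (lin x j).2)
  have e1 := e y.ctr.idx
  rw [y.z_idx.1] at e1
  have e2 : x.ctr.idx = y.ctr.idx := le_antisymm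
    (not_lt.1 fun h => left_ne_zero_of_mul_eq_one e1.symm (x.z_idx.2 _ h))
    (not_lt.1 fun h => right_ne_zero_of_mul_eq_one e1.symm (y.z_idx.2 _ h))
  exact Pt.ext (funext fun j => by rw [e j, e2, y.z_idx.1, mul_one])

theorem eta_const (x : Pt k ξ) (j : Fin (N + 1)) :
    ∃ a : k, algebraMap k x.hp.var.K a = x.hp.var.ξ j := by
  have e : ∀ j, x.hp.eta j = algebraMap k _ (x.z j) * x.hp.eta x.ctr.idx := fun j => by
    simpa [sub_eq_zero] using (x.hp.eta_zero (lin x j).1).2 (lin x j).2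
  have e1 := e x.hp.idx
  rw [Hp.eta_idx] at e1
  refine ⟨x.z j * (x.z x.hp.idx)⁻¹, ?_⟩
  rw [map_mul, map_inv₀]
  exact ((e j).trans (congrArg _ (eq_inv_of_mul_eq_one_right e1.symm))).symm

end

open Stp

variable {S : Stp.{u}}

theorem pts (hB : S.Bas) {y : S.H} (hy : y.Cl) :
    {c' : S.H' | O c' y} = Pt.hp '' {x : Pt S.k (up S.K S.η) | pu x = y} := by
  ext c'
  refine ⟨fun h => ?_, ?_⟩
  · obtain ⟨x, rfl⟩ := (hB.u1.pt c').1 ((hB.u1.cl c' y h).2 hy)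
    exact ⟨x, o_iff.1 h, rfl⟩
  · rintro ⟨x, hx, rfl⟩
    exact o_iff.2 hx

theorem key (hT : RTowD.{u}) (hB : S.Bas) (hC : S.CntA) {y : S.H} (hy : y.Cl) :
    ∃ s : Set S.k, s.Finite ∧ ∀ θ, Big s θ → 0 < frO (algebraMap S.F (S.M.κ y)) ∧
      degO (algebraMap S.F S.k) θ * nO y = frO (algebraMap S.F (S.M.κ y)) * D θ := by
  obtain ⟨s, hs, h1⟩ := hC y
  obtain ⟨c', h⟩ := hB.u1.lo y
  obtain ⟨x, rfl⟩ := (hB.u1.pt c').1 ((hB.u1.cl c' y h).2 hy)
  choose a ha using eta_const x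
  refine ⟨s ∪ Set.range a, hs.union (Set.finite_range a), fun θ ⟨⟨n, hn, e⟩, h2⟩ => ?_⟩
  obtain ⟨b1, b2⟩ := hT _ _ _ (algebraMap S.F (S.M.κ y)) (nu h) (algebraMap S.k _ θ)
    ⟨S.p ^ n - 1, Nat.sub_pos_of_lt (Nat.one_lt_pow (by omega) S.pp.out.one_lt), by
      rw [Nat.sub_add_cancel (Nat.one_le_pow _ _ S.pp.out.pos), ← map_pow, e]⟩ fun t => by
    refine Subfield.mem_comap.1 ((?_ : ⊤ ≤ Subfield.comap (nu h) _) (Subfield.mem_top t))
    rw [← hB.u2.fg y, Subfield.closure_le]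
    rintro _ (⟨j, rfl⟩ | ⟨b, rfl⟩)
    · rw [SetLike.mem_coe, Subfield.mem_comap, nu_co, ← ha]
      refine (Subfield.mem_toSubring _ _).1 (Subring.mem_comap.1 ((?_ : Subring.closure {θ} ≤
        Subring.comap (algebraMap S.k _) (Subfield.toSubring _)) (h2 (Or.inr ⟨j, rfl⟩))))
      exact Subring.closure_le.2 (Set.singleton_subset_iff.2 (Subfield.subset_closure (Or.inr rfl)))
    · exact Subfield.subset_closure (Or.inl ⟨b, rfl⟩)
  rw [show (nu h).comp (algebraMap S.F (S.M.κ y)) = (algebraMap S.k _).comp (algebraMap S.F S.k)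
    from RingHom.ext (nu_alg h), degO_comp] at b2
  refine ⟨b1, ?_⟩
  rw [b2, mul_assoc, h1 θ ⟨⟨n, hn, e⟩, Set.subset_union_left.trans h2⟩ _ h]

end ADeg

open ADeg Stp

theorem rDegC : RTowD.{u} → RDegC.{u} := fun hT S hB hC => by
  have a1 : ∀ y : S.H, y.Cl → nP y = nO y := fun y hy => by
    rw [nO, pts hB hy, Set.ncard_image_of_injective _ hp_inj, nP]
  have a2 : ∀ y : S.H, 0 < nO y := fun y => (Set.ncard_pos (hB.u1.fin y)).2 (hB.u1.lo y)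
  refine ⟨fun y hy => ⟨Set.Finite.of_finite_image (pts hB hy ▸ hB.u1.fin y) hp_inj.injOn,
    a1 y hy ▸ a2 y, ?_⟩, ?_⟩
  · obtain ⟨s, hs, h⟩ := key hT hB hC hy
    obtain ⟨θ, n, b1, b2, b3⟩ := exists_theta S.p S.hk s hs
    rw [dgF_mul (algebraMap S.F _)]
    exact Nat.mul_pos Module.finrank_pos (h θ ⟨⟨n, b1, b2⟩, b3⟩).1
  by_cases h0 : ∃ y : S.H, y.Cl
  swap
  · exact ⟨0, fun y hy => absurd ⟨y, hy⟩ h0⟩
  obtain ⟨y₀, h₀⟩ := h0
  refine ⟨dgF (S.M.κ y₀) / nO y₀, fun y hy => ?_⟩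
  obtain ⟨s, hs, h⟩ := key hT hB hC hy
  obtain ⟨s₀, hs₀, h'⟩ := key hT hB hC h₀
  obtain ⟨θ, n, b1, b2, b3⟩ := exists_theta S.p S.hk _ (hs.union hs₀)
  have c1 := (h θ ⟨⟨n, b1, b2⟩, Set.subset_union_left.trans b3⟩).2
  have c2 := (h' θ ⟨⟨n, b1, b2⟩, Set.subset_union_right.trans b3⟩).2
  have c3 : 0 < D θ := minpoly.natDegree_pos (Algebra.IsAlgebraic.isAlgebraic _).isIntegral
  have c4 : frO (algebraMap S.F (S.M.κ y)) * nO y₀ = frO (algebraMap S.F (S.M.κ y₀)) * nO y :=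
    Nat.eq_of_mul_eq_mul_right c3 (by rw [mul_right_comm, ← c1, mul_right_comm, c2, mul_right_comm])
  rw [a1 y hy, div_mul_eq_mul_div, eq_div_iff (Nat.cast_ne_zero.2 (a2 y₀).ne'),
    dgF_mul (algebraMap S.F (S.M.κ y)), dgF_mul (algebraMap S.F (S.M.κ y₀))]
  exact_mod_cast by rw [mul_assoc, c4, mul_assoc]

end Pool.Agent.MP_f3836a_nt.PK
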