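import Pool.Agent.MP_f3836a_nt.PK.SpecB

set_option autoImplicit false

/-! A linear system containing all multiples of given forms generates one-jets. -/

namespace Pool.Agent.MP_f3836a_nt.PK

open MvPolynomial

universe u

namespace BJetG

section
variable {Ω : Type u} [CommRing Ω] {n : ℕ} (z τ : Fin n → Ω)

theorem dEv_add (F G : MvPolynomial (Fin n) Ω) : dEv z (F + G) τ = dEv z F τ + dEv z G τ := by
  simp only [dEv, map_add, add_mul, Finset.sum_add_distrib]

theorem dEv_zero : dEv z 0 τ = 0 := by simp [dEv]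

theorem dEv_mul (F G : MvPolynomial (Fin n) Ω) :
    dEv z (F * G) τ = eval z F * dEv z G τ + dEv z F τ * eval z G := by
  simp only [dEv, pderiv_mul, map_add, map_mul, Finset.mul_sum, Finset.sum_mul,
    ← Finset.sum_add_distrib]
  exact Finset.sum_congr rfl fun j _ => by ring

theorem dEv_C (a : Ω) : dEv z (C a) τ = 0 := by simp [dEv]

theorem dEv_X (j : Fin n) : dEv z (X j) τ = τ j := by
  classical
  simp [dEv, pderiv_X, Pi.single_apply, apply_ite (eval z)]

theorem dEv_pow {i : Fin n} (h : τ i = 0) (e : ℕ) : dEv z (X i ^ e) τ = 0 := by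
  induction e with
  | zero => simpa using dEv_C z τ 1
  | succ e ih => rw [pow_succ, dEv_mul, ih, dEv_X, h, mul_zero, zero_mul, add_zero]

theorem dEv_sum {ι : Type} (s : Finset ι) (F : ι → MvPolynomial (Fin n) Ω) :
    dEv z (∑ j ∈ s, F j) τ = ∑ j ∈ s, dEv z (F j) τ := by
  simp only [dEv, map_sum, Finset.sum_mul]
  exact Finset.sum_comm

end

variable {k : Type u} [Field k] {N m : ℕ} (L : Type u) [Field L] [Algebra k L]
  (B : Fin m → Pol k N)

theorem map_mem {G : Pol k N} (h : G ∈ Submodule.span k (Set.range B)) :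
    map (algebraMap k L) G ∈ Submodule.span L (Set.range fun j => map (algebraMap k L) (B j)) := by
  induction h using Submodule.span_induction with
  | mem x hx => obtain ⟨j, rfl⟩ := hx; exact Submodule.subset_span ⟨j, rfl⟩
  | zero => rw [map_zero]; exact Submodule.zero_mem _
  | add x y _ _ a b => rw [map_add]; exact Submodule.add_mem _ a b
  | smul c x _ a =>
    rw [smul_eq_C_mul, map_mul, map_C, ← smul_eq_C_mul]
    exact Submodule.smul_mem _ _ a

theorem ex_cmb {h : Pol L N}
    (hh : h ∈ Submodule.span L (Set.range fun j => map (algebraMap k L) (B j))) :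
    ∃ b, cmb L B b = h := by
  obtain ⟨b, hb⟩ := (Submodule.mem_span_range_iff_exists_fun L).1 hh
  exact ⟨b, by simpa only [cmb, smul_eq_C_mul] using hb⟩

end BJetG

open BJetG in
theorem rJetG : RExN.{u} → RJetG.{u} := by
  classical
  intro hN k _ _ N n r m 𝒢 A a B hA hB hfin hsm L _ _ i z hz hV
  by_cases h0 : ∃ s, eval z (map (algebraMap k L) (A s)) ≠ 0
  · obtain ⟨s, hs⟩ := h0
    refine Or.inl fun c δ => ?_
    obtain ⟨e, he⟩ : ∃ e, n - a s = e + 1 := ⟨n - a s - 1, by have := (hA s).2; omega⟩
    set F := map (algebraMap k L) (A s) with hF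
    have hm : ∀ j, F * (X i ^ e * X j) ∈
        Submodule.span L (Set.range fun j => map (algebraMap k L) (B j)) := fun j => by
      have := map_mem L B (hB s (X i ^ e * X j)
        (he ▸ (isHomogeneous_X_pow i e).mul (isHomogeneous_X k j)))
      rwa [map_mul, map_mul, map_pow, map_X, map_X] at this
    let μ : Fin (N + 1) → L := fun j => (δ j - eval z (pderiv j F) * (c / eval z F)) / eval z F
    obtain ⟨b, hb⟩ := ex_cmb L B (Submodule.add_mem _
      (Submodule.sum_mem _ fun j (_ : j ∈ Finset.univ) => Submodule.smul_mem _ (μ j) (hm j))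
      (Submodule.smul_mem _ (c / eval z F - ∑ j, μ j * z j) (hm i)))
    simp only [smul_eq_C_mul] at hb
    have e1 : ∑ j, μ j * (eval z F * z j) = eval z F * ∑ j, μ j * z j := by
      rw [Finset.mul_sum]; exact Finset.sum_congr rfl fun j _ => by ring
    refine ⟨b, ?_, fun τ hτ => ?_⟩
    · simp only [hb, map_add, map_sum, map_mul, eval_C, map_pow, eval_X, hz.1, one_pow, one_mul, e1]
      field_simp
      ring
    · have e2 : ∑ j, δ j * τ j = ∑ j, μ j * (eval z F * τ j) + dEv z F τ * (c / eval z F) := by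
        rw [dEv, Finset.sum_mul, ← Finset.sum_add_distrib]
        refine Finset.sum_congr rfl fun j _ => ?_
        simp only [μ]
        field_simp
        ring
      have e3 : ∑ j, μ j * (dEv z F τ * z j) = dEv z F τ * ∑ j, μ j * z j := by
        rw [Finset.mul_sum]; exact Finset.sum_congr rfl fun j _ => by ring
      rw [hb, dEv_add, dEv_sum, e2]
      simp only [dEv_mul, dEv_C, dEv_X, dEv_pow z τ hτ, eval_C, map_mul, map_pow, eval_X, hz.1, hτ,
        one_pow, one_mul, zero_mul, add_zero, mul_zero, zero_add, mul_add, Finset.sum_add_distrib, e3]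
      ring
  · push Not at h0
    obtain ⟨w, hw, rfl⟩ := (hN k N (𝒢 ∪ Finset.univ.image A) L).2 hfin.toFinset
      (fun i z h1 h2 => hfin.mem_toFinset.2 ⟨⟨i, h1⟩, fun G hG => h2 G (by simp [hG]),
        fun s => h2 _ (by simp)⟩) i z hz (by
      rintro _ ⟨G, hG, rfl⟩
      rcases Finset.mem_union.1 (Finset.mem_coe.1 hG) with h | h
      · exact hV _ ⟨G, h, rfl⟩
      · obtain ⟨s, -, rfl⟩ := Finset.mem_image.1 h
        exact h0 s)
    obtain ⟨-, h1, h2⟩ := hfin.mem_toFinset.1 hw
    have hn : Nrm w i := ⟨(algebraMap k L).injective (hz.1.trans (map_one _).symm),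
      fun j hj => (algebraMap k L).injective ((hz.2 j hj).trans (map_zero _).symm)⟩
    obtain ⟨s, τ, hτ, hd⟩ := hsm i w hn h1 h2
    refine Or.inr ⟨w, rfl, ?_⟩
    by_contra hc
    have h3 : ∀ G ∈ Submodule.span k (Set.range B), dEv w G τ = 0 := fun G hG => by
      induction hG using Submodule.span_induction with
      | mem x hx =>
        obtain ⟨j, rfl⟩ := hx
        by_contra h4
        exact hc ⟨j, Or.inr ⟨τ, hτ, h4⟩⟩
      | zero => exact dEv_zero w τ
      | add x y _ _ a b => rw [dEv_add, a, b, add_zero]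
      | smul c x _ a => rw [smul_eq_C_mul, dEv_mul, a, dEv_C, mul_zero, zero_mul, add_zero]
    have h4 := h3 _ (hB s _ (isHomogeneous_X_pow i _))
    rw [dEv_mul, dEv_pow w τ hτ.1, map_pow, eval_X, hn.1, one_pow, mul_zero, zero_add, mul_one] at h4
    exact hd h4

end Pool.Agent.MP_f3836a_nt.PK
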