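import Pool.Agent.MP_f3836a_nt.PK.SpecA

set_option autoImplicit false

/-! Local sections of forms at points and curves. -/

namespace Pool.Agent.MP_f3836a_nt.PK

open MvPolynomial

universe u

abbrev Pol (k : Type u) [Field k] (N : ℕ) : Type u := MvPolynomial (Fin (N + 1)) k

variable {k K : Type u} [Field k] [Field K] [Algebra k K] {N : ℕ} {ξ : Fin (N + 1) → K}

/-- `A` is a form -/
def Form (A : Pol k N) : Prop := A.IsHomogeneous A.totalDegree

theorem Form.of {A : Pol k N} {n : ℕ} (h : A.IsHomogeneous n) : Form A := by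
  by_cases h0 : A = 0
  · subst h0; exact isHomogeneous_zero _ _ _
  · unfold Form; rw [h.totalDegree h0]; exact h

theorem Form.mul {A B : Pol k N} (hA : Form A) (hB : Form B) : Form (A * B) :=
  Form.of (IsHomogeneous.mul hA hB)

/-- some coordinate is not in the prime -/
def Ctr.Good (c : Ctr k ξ) : Prop := ∃ i, X i ∉ c.P

/-- the first coordinate not in the prime -/
noncomputable def Ctr.idx (c : Ctr k ξ) : Fin (N + 1) :=
  Classical.epsilon fun i => X i ∉ c.P ∧ ∀ j < i, X j ∈ c.P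

/-- the local section `A(ξ) / ρ ^ deg A` -/
noncomputable def Ctr.lo (c : Ctr k ξ) (A : Pol k N) : K := aeval ξ A / ξ c.idx ^ A.totalDegree

open Classical in
/-- the local section as an element of the local ring -/
noncomputable def Ctr.lx (c : Ctr k ξ) (A : Pol k N) : c.O :=
  if h : c.lo A ∈ c.O then ⟨c.lo A, h⟩ else 0

theorem Ctr.mem_O (c : Ctr k ξ) (f : K) : f ∈ c.O ↔ ∃ (n : ℕ) (A B : Pol k N),
    A.IsHomogeneous n ∧ B.IsHomogeneous n ∧ B ∉ c.P ∧ f * aeval ξ B = aeval ξ A := Iff.rfl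

theorem Ctr.one_notMem (c : Ctr k ξ) : (1 : Pol k N) ∉ c.P :=
  (Ideal.ne_top_iff_one _).mp c.prime.ne_top

theorem Ctr.aeval_ne (c : Ctr k ξ) {n : ℕ} {B : Pol k N} (hB : B.IsHomogeneous n) (h : B ∉ c.P) :
    aeval ξ B ≠ 0 := fun h0 => h (c.van n B hB h0)

theorem Ctr.const_mem (c : Ctr k ξ) (a : k) : algebraMap k K a ∈ c.O :=
  ⟨0, C a, 1, isHomogeneous_C _ _, isHomogeneous_one _ _, c.one_notMem, by simp⟩

noncomputable instance Ctr.algebra (c : Ctr k ξ) : Algebra k c.O :=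
  ((algebraMap k K).codRestrict c.O c.const_mem).toAlgebra

theorem Ctr.coe_algebraMap (c : Ctr k ξ) (a : k) :
    ((algebraMap k c.O a : c.O) : K) = algebraMap k K a := rfl

instance Ctr.tower (c : Ctr k ξ) : IsScalarTower k c.O K :=
  IsScalarTower.of_algebraMap_eq fun _ => rfl

theorem Ctr.div_mem (c : Ctr k ξ) {n : ℕ} {A B : Pol k N} (hA : A.IsHomogeneous n)
    (hB : B.IsHomogeneous n) (h : B ∉ c.P) : aeval ξ A / aeval ξ B ∈ c.O :=
  ⟨n, A, B, hA, hB, h, div_mul_cancel₀ _ (c.aeval_ne hB h)⟩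

/-- units and nonunits of the local ring -/
theorem Ctr.mem_max_iff (c : Ctr k ξ) (f : c.O) {n : ℕ} {A B : Pol k N} (hA : A.IsHomogeneous n)
    (hB : B.IsHomogeneous n) (hP : B ∉ c.P) (h : (f : K) * aeval ξ B = aeval ξ A) :
    f ∈ IsLocalRing.maximalIdeal c.O ↔ A ∈ c.P := by
  rw [IsLocalRing.mem_maximalIdeal, mem_nonunits_iff]
  constructor
  · intro hf
    by_contra hAP
    have hA0 := c.aeval_ne hA hAP
    have hf0 : (f : K) ≠ 0 := fun h0 => hA0 (by rw [← h, h0, zero_mul])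
    refine hf (IsUnit.of_mul_eq_one ⟨(f : K)⁻¹, n, B, A, hB, hA, hAP, ?_⟩ (Subtype.ext ?_))
    · rw [← h, ← mul_assoc, inv_mul_cancel₀ hf0, one_mul]
    · exact mul_inv_cancel₀ hf0
  · intro hAP hu
    obtain ⟨g, hg⟩ := hu.exists_right_inv
    obtain ⟨m, A', B', hA', hB', hP', h'⟩ := g.2
    have hg' : (f : K) * g = 1 := congrArg Subtype.val hg
    have h1 : aeval ξ (B * B' - A * A') = 0 := by
      simp only [map_sub, map_mul]
      linear_combination (-(aeval ξ B * aeval ξ B')) * hg' + ((g : K) * aeval ξ B') * h +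
        aeval ξ A * h'
    have h2 := c.van (n + m) _ ((hB.mul hB').sub (hA.mul hA')) h1
    have h3 : B * B' ∈ c.P := by
      simpa using c.P.add_mem h2 (c.P.mul_mem_right A' hAP)
    exact (c.prime.mem_or_mem h3).elim hP hP'

theorem Ctr.idx_spec {c : Ctr k ξ} (h : c.Good) : X c.idx ∉ c.P ∧ ∀ j < c.idx, X j ∈ c.P := by
  classical
  refine Classical.epsilon_spec (p := fun i => X i ∉ c.P ∧ ∀ j < i, X j ∈ c.P) ?_
  obtain ⟨i, hi, hmin⟩ := WellFounded.has_min (wellFounded_lt (α := Fin (N + 1)))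
    {i | X i ∉ c.P} h
  exact ⟨i, hi, fun j hj => by_contra fun hn => hmin j hn hj⟩

theorem Ctr.xi_ne {c : Ctr k ξ} (h : c.Good) : ξ c.idx ≠ 0 := by
  simpa using c.aeval_ne (isHomogeneous_X k c.idx) (Ctr.idx_spec h).1

theorem Ctr.pow_notMem {c : Ctr k ξ} (h : c.Good) (n : ℕ) : (X c.idx ^ n : Pol k N) ∉ c.P :=
  fun hh => (Ctr.idx_spec h).1 (c.prime.mem_of_pow_mem n hh)

theorem Ctr.lo_eq (c : Ctr k ξ) {n : ℕ} {A : Pol k N} (hA : A.IsHomogeneous n) :
    c.lo A = aeval ξ A / ξ c.idx ^ n := by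
  by_cases h0 : A = 0
  · simp [h0, Ctr.lo]
  · rw [Ctr.lo, hA.totalDegree h0]

theorem Ctr.lo_spec {c : Ctr k ξ} (h : c.Good) {n : ℕ} {A : Pol k N} (hA : A.IsHomogeneous n) :
    c.lo A * aeval ξ (X c.idx ^ n : Pol k N) = aeval ξ A := by
  rw [c.lo_eq hA, map_pow, aeval_X, div_mul_cancel₀ _ (pow_ne_zero _ (Ctr.xi_ne h))]

theorem Ctr.lo_mem {c : Ctr k ξ} (h : c.Good) {A : Pol k N} (hA : Form A) : c.lo A ∈ c.O :=
  ⟨_, A, X c.idx ^ A.totalDegree, hA, isHomogeneous_X_pow _ _, Ctr.pow_notMem h _,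
    Ctr.lo_spec h hA⟩

theorem Ctr.coe_lx {c : Ctr k ξ} (h : c.Good) {A : Pol k N} (hA : Form A) :
    (c.lx A : K) = c.lo A := by
  rw [Ctr.lx, dif_pos (Ctr.lo_mem h hA)]

theorem Ctr.lo_ne {c : Ctr k ξ} (h : c.Good) {A : Pol k N} (hA : aeval ξ A ≠ 0) : c.lo A ≠ 0 :=
  div_ne_zero hA (pow_ne_zero _ (Ctr.xi_ne h))

theorem Ctr.lo_mul (c : Ctr k ξ) {A B : Pol k N} (hA : Form A) (hB : Form B) :
    c.lo (A * B) = c.lo A * c.lo B := by
  rw [c.lo_eq (IsHomogeneous.mul hA hB), c.lo_eq hA, c.lo_eq hB, map_mul, pow_add,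
    div_mul_div_comm]

theorem Ctr.lo_add (c : Ctr k ξ) {n : ℕ} {A B : Pol k N} (hA : A.IsHomogeneous n)
    (hB : B.IsHomogeneous n) : c.lo (A + B) = c.lo A + c.lo B := by
  rw [c.lo_eq (hA.add hB), c.lo_eq hA, c.lo_eq hB, map_add, add_div]

theorem Ctr.lo_C (c : Ctr k ξ) (a : k) : c.lo (C a : Pol k N) = algebraMap k K a := by
  rw [c.lo_eq (isHomogeneous_C _ a)]; simp

theorem Ctr.lo_X (c : Ctr k ξ) (i : Fin (N + 1)) : c.lo (X i : Pol k N) = ξ i / ξ c.idx := by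
  rw [c.lo_eq (isHomogeneous_X k i)]; simp

theorem Ctr.lx_mul {c : Ctr k ξ} (h : c.Good) {A B : Pol k N} (hA : Form A) (hB : Form B) :
    c.lx (A * B) = c.lx A * c.lx B := Subtype.ext <| by
  rw [Subring.coe_mul, Ctr.coe_lx h hA, Ctr.coe_lx h hB, Ctr.coe_lx h (hA.mul hB), c.lo_mul hA hB]

theorem Ctr.lx_add {c : Ctr k ξ} (h : c.Good) {n : ℕ} {A B : Pol k N} (hA : A.IsHomogeneous n)
    (hB : B.IsHomogeneous n) : c.lx (A + B) = c.lx A + c.lx B := Subtype.ext <| by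
  rw [Subring.coe_add, Ctr.coe_lx h (Form.of hA), Ctr.coe_lx h (Form.of hB),
    Ctr.coe_lx h (Form.of (hA.add hB)), c.lo_add hA hB]

theorem Ctr.lx_C {c : Ctr k ξ} (h : c.Good) (a : k) :
    c.lx (C a : Pol k N) = algebraMap k c.O a := Subtype.ext <| by
  rw [Ctr.coe_lx h (Form.of (isHomogeneous_C _ a)), c.lo_C]; rfl

theorem Ctr.lx_zero (c : Ctr k ξ) : c.lx (0 : Pol k N) = 0 := by
  unfold Ctr.lx
  split_ifs with h
  · exact Subtype.ext (by simp [Ctr.lo])
  · rfl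

theorem Ctr.lx_mem_max {c : Ctr k ξ} (h : c.Good) {A : Pol k N} (hA : Form A) :
    c.lx A ∈ IsLocalRing.maximalIdeal c.O ↔ A ∈ c.P :=
  c.mem_max_iff _ hA (isHomogeneous_X_pow _ _) (Ctr.pow_notMem h _)
    (by rw [Ctr.coe_lx h hA]; exact Ctr.lo_spec h hA)

/-- every element of the local ring is a quotient of local sections -/
theorem Ctr.exists_lx {c : Ctr k ξ} (h : c.Good) (f : c.O) : ∃ (n : ℕ) (A B : Pol k N),
    A.IsHomogeneous n ∧ B.IsHomogeneous n ∧ B ∉ c.P ∧ f * c.lx B = c.lx A := by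
  obtain ⟨n, A, B, hA, hB, hP, hf⟩ := f.2
  refine ⟨n, A, B, hA, hB, hP, Subtype.ext ?_⟩
  rw [Subring.coe_mul, Ctr.coe_lx h (Form.of hA), Ctr.coe_lx h (Form.of hB), c.lo_eq hA,
    c.lo_eq hB, ← hf, mul_div_assoc]

theorem Pt.mem_P (x : Pt k ξ) (A : Pol k N) : A ∈ x.ctr.P ↔ eval x.z A = 0 := Iff.rfl

theorem Pt.good (x : Pt k ξ) : x.ctr.Good := by
  obtain ⟨i, hi, -⟩ := x.norm
  exact ⟨i, by rw [Pt.mem_P, eval_X, hi]; exact one_ne_zero⟩

theorem Pt.z_idx (x : Pt k ξ) : x.z x.ctr.idx = 1 ∧ ∀ j < x.ctr.idx, x.z j = 0 := by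
  obtain ⟨i, hi, hj⟩ := x.norm
  obtain ⟨h1, h2⟩ := Ctr.idx_spec x.good
  rw [Pt.mem_P, eval_X] at h1
  have : x.ctr.idx = i := by
    rcases lt_trichotomy x.ctr.idx i with h | h | h
    · exact absurd (hj _ h) h1
    · exact h
    · have := h2 i h
      rw [Pt.mem_P, eval_X, hi] at this
      exact absurd this one_ne_zero
  rw [this]; exact ⟨hi, hj⟩

@[ext] theorem Pt.ext {x y : Pt k ξ} (h : x.z = y.z) : x = y := by
  cases x; cases y; cases h; rfl

theorem Pt.lx_mem_max (x : Pt k ξ) {A : Pol k N} (hA : Form A) :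
    x.ctr.lx A ∈ IsLocalRing.maximalIdeal x.ctr.O ↔ eval x.z A = 0 :=
  Ctr.lx_mem_max x.good hA

/-- evaluation at a point -/
theorem Pt.exists_ev (x : Pt k ξ) : ∃ ev : x.ctr.O →ₐ[k] k,
    (∀ A : Pol k N, Form A → ev (x.ctr.lx A) = eval x.z A) ∧
    ∀ f, ev f = 0 ↔ f ∈ IsLocalRing.maximalIdeal x.ctr.O := by
  have hs : Function.Bijective (algebraMap k (IsLocalRing.ResidueField x.ctr.O)) := by
    refine ⟨(algebraMap k _).injective, fun r => ?_⟩
    obtain ⟨f, rfl⟩ := IsLocalRing.residue_surjective r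
    obtain ⟨n, A, B, hA, hB, hP, hf⟩ := f.2
    rw [Pt.mem_P] at hP
    refine ⟨eval x.z A / eval x.z B, ?_⟩
    change IsLocalRing.residue _ (algebraMap k x.ctr.O _) = _
    rw [← sub_eq_zero, ← map_sub, IsLocalRing.residue_eq_zero_iff,
      x.ctr.mem_max_iff _ ((hB.C_mul (eval x.z A / eval x.z B)).sub hA) hB hP]
    · rw [Pt.mem_P]; simp [div_mul_cancel₀ _ hP]
    · simp only [AddSubgroupClass.coe_sub, Ctr.coe_algebraMap, map_sub, map_mul, aeval_C]
      linear_combination -hf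
  let e := AlgEquiv.ofBijective (Algebra.ofId k (IsLocalRing.ResidueField x.ctr.O)) hs
  let r : x.ctr.O →ₐ[k] IsLocalRing.ResidueField x.ctr.O :=
    { IsLocalRing.residue x.ctr.O with commutes' := fun _ => rfl }
  have hk : ∀ f, (e.symm.toAlgHom.comp r) f = 0 ↔ f ∈ IsLocalRing.maximalIdeal x.ctr.O := by
    intro f
    rw [← IsLocalRing.residue_eq_zero_iff]
    exact map_eq_zero_iff _ e.symm.injective
  refine ⟨e.symm.toAlgHom.comp r, fun A hA => ?_, hk⟩
  have h1 : (X x.ctr.idx ^ A.totalDegree : Pol k N).IsHomogeneous A.totalDegree :=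
    isHomogeneous_X_pow _ _
  have h2 : x.ctr.lx A - algebraMap k x.ctr.O (eval x.z A) ∈ IsLocalRing.maximalIdeal x.ctr.O := by
    rw [x.ctr.mem_max_iff _ (IsHomogeneous.sub hA (h1.C_mul (eval x.z A))) h1
      (Ctr.pow_notMem x.good _)]
    · rw [Pt.mem_P]; simp [x.z_idx.1]
    · simp only [AddSubgroupClass.coe_sub, Ctr.coe_algebraMap, map_sub, map_mul, aeval_C,
        Ctr.coe_lx x.good hA]
      linear_combination Ctr.lo_spec x.good hA
  have h3 := (hk _).mpr h2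
  rw [map_sub, AlgHom.commutes, sub_eq_zero] at h3
  exact h3

theorem Cv.good (C : Cv k ξ) : C.toCtr.Good := by
  by_contra hn
  have hX : ∀ i, X i ∈ C.P := fun i => by_contra fun h => hn ⟨i, h⟩
  have hf : IsField C.O := by
    rw [IsLocalRing.isField_iff_maximalIdeal_eq, eq_bot_iff]
    intro f hf
    obtain ⟨n, A, B, hA, hB, hP, h⟩ := f.2
    have hn0 : n = 0 := by
      by_contra h0
      apply hP
      have : B ∈ Ideal.span (MvPolynomial.X '' (Set.univ : Set (Fin (N + 1))) : Set (Pol k N)) := by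
        rw [mem_ideal_span_X_image]
        intro m hm
        have hd := hB (mem_support_iff.mp hm)
        by_contra hc
        push Not at hc
        have : m = 0 := Finsupp.ext fun i => hc i (Set.mem_univ i)
        rw [this, map_zero] at hd
        exact h0 hd.symm
      exact (Ideal.span_le.mpr (by rintro _ ⟨i, -, rfl⟩; exact hX i)) this
    subst hn0
    have hAP := (C.toCtr.mem_max_iff f hA hB hP h).mp hf
    have hA0 : A = 0 := by
      by_contra h0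
      have h1 : A = MvPolynomial.C (coeff 0 A) := totalDegree_eq_zero_iff_eq_C.mp (hA.totalDegree h0)
      have h2 : coeff 0 A ≠ 0 := fun h2 => h0 (by rw [h1, h2, map_zero])
      rw [h1] at hAP
      exact C.prime.ne_top (Ideal.eq_top_of_isUnit_mem _ hAP ((IsUnit.mk0 _ h2).map _))
    rw [hA0, map_zero] at h
    exact Subtype.ext ((mul_eq_zero.mp h).resolve_right (C.toCtr.aeval_ne hB hP))
  have := C.dim
  rw [ringKrullDim_eq_zero_of_isField hf] at this
  exact absurd this (by decide)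

theorem Cv.res_of_mem (C : Cv k ξ) (f : C.O) : C.res f = IsLocalRing.residue C.O f := by
  rw [Cv.res, dif_pos f.2]

theorem Cv.res_mul (C : Cv k ξ) {f g : K} (hf : f ∈ C.O) (hg : g ∈ C.O) :
    C.res (f * g) = C.res f * C.res g := by
  rw [C.res_of_mem ⟨f, hf⟩, C.res_of_mem ⟨g, hg⟩, ← map_mul]
  exact C.res_of_mem (⟨f, hf⟩ * ⟨g, hg⟩)

theorem Cv.res_add (C : Cv k ξ) {f g : K} (hf : f ∈ C.O) (hg : g ∈ C.O) :
    C.res (f + g) = C.res f + C.res g := by
  rw [C.res_of_mem ⟨f, hf⟩, C.res_of_mem ⟨g, hg⟩, ← map_add]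
  exact C.res_of_mem (⟨f, hf⟩ + ⟨g, hg⟩)

theorem Cv.res_const (C : Cv k ξ) (a : k) : C.res (algebraMap k K a) = algebraMap k C.κ a :=
  C.res_of_mem (algebraMap k C.O a)

theorem Cv.res_lo_eq_zero (C : Cv k ξ) {A : Pol k N} (hA : Form A) :
    C.res (C.lo A) = 0 ↔ A ∈ C.P := by
  rw [← Ctr.coe_lx C.good hA, C.res_of_mem, IsLocalRing.residue_eq_zero_iff,
    Ctr.lx_mem_max C.good hA]

theorem Pt.On.le {x : Pt k ξ} {C : Cv k ξ} (h : x.On C) : x.ctr.O ≤ C.O := by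
  rintro f ⟨n, A, B, hA, hB, hP, hf⟩
  exact ⟨n, A, B, hA, hB, fun hh => hP (h n B hB hh), hf⟩

end Pool.Agent.MP_f3836a_nt.PK
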