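import Pool.Agent.MP_f3836a_nt.PK.SpecC

set_option autoImplicit false

/-! Existence of smooth forms with prescribed properties. -/

namespace Pool.Agent.MP_f3836a_nt.PK

open MvPolynomial

universe u

namespace CExA

variable {k K : Type u} [Field k] [Field K] [Algebra k K] {N : ℕ} {ξ : Fin (N + 1) → K}

/-- a monomial -/
noncomputable def mon {n : ℕ} (d : Mon N n) : Pol k N := monomial d.1 1

theorem mon_hom {n : ℕ} (d : Mon N n) : (mon d : Pol k N).IsHomogeneous n :=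
  isHomogeneous_monomial _ d.2

theorem mem_span {n : ℕ} {M : Pol k N} (h : M.IsHomogeneous n) :
    M ∈ Submodule.span k (Set.range (mon : Mon N n → Pol k N)) := by
  rw [M.as_sum]
  refine Submodule.sum_mem _ fun d hd => ?_
  rw [show monomial d (coeff d M) = coeff d M • monomial d (1 : k) by simp [smul_monomial]]
  exact Submodule.smul_mem _ _ (Submodule.subset_span
    ⟨⟨d, by rw [Finsupp.degree_eq_weight_one]; exact h (mem_support_iff.1 hd)⟩, rfl⟩)

theorem mul_mem {ι : Type} {n : ℕ} {M A : Pol k N} (h : M.IsHomogeneous n) {F : ι → Pol k N}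
    (e : Mon N n → ι) (he : ∀ d, F (e d) = A * mon d) : A * M ∈ Submodule.span k (Set.range F) := by
  refine Submodule.span_induction (p := fun M _ => A * M ∈ Submodule.span k (Set.range F))
    ?_ (by simp) (fun x y _ _ a b => ?_) (fun c x _ a => ?_) (mem_span h)
  · rintro _ ⟨d, rfl⟩
    exact Submodule.subset_span ⟨e d, he d⟩
  · rw [mul_add]
    exact Submodule.add_mem _ a b
  · rw [mul_smul_comm]
    exact Submodule.smul_mem _ _ a

theorem sum_hom {ι : Type} [Fintype ι] {n : ℕ} {B : ι → Pol k N} (h : ∀ j, (B j).IsHomogeneous n)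
    (a : ι → k) : (∑ j, C (a j) * B j).IsHomogeneous n :=
  IsHomogeneous.sum _ _ _ fun j _ => (h j).C_mul _

theorem avoid (hG : GenA k) {ι : Type} [Fintype ι] {B : ι → Pol k N} (P : Ideal (Pol k N))
    {h : Pol k N} (h1 : h ∈ Submodule.span k (Set.range B)) (h2 : h ∉ P) :
    Gen k ι fun a => ∑ j, C (a j) * B j ∉ P := by
  refine hG.mono _ _ _ (hG.sub ι _ B (P.restrictScalars k) ?_) fun a ha => by
    simpa only [smul_eq_C_mul, Submodule.restrictScalars_mem] using ha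
  by_contra c
  push Not at c
  exact h2 ((Submodule.span_le (p := P.restrictScalars k)).2 (Set.range_subset_iff.2 c) h1)

theorem gen0 (hG : GenA k) (hB : BtA k ξ) {ι : Type} [Fintype ι] {n : ℕ} {B : ι → Pol k N}
    (hn : 1 ≤ n) (hx : Nonempty (Pt k ξ)) (h1 : ∀ j, (B j).IsHomogeneous n) (e : Mon N n → ι)
    (he : ∀ d, B (e d) = mon d) {𝒞 : Set (Cv k ξ)} (h𝒞 : 𝒞.Finite) :
    Gen k ι fun a => Sm ξ (∑ j, C (a j) * B j) ∧ ∀ D ∈ 𝒞, ∑ j, C (a j) * B j ∉ D.P := by
  have h2 : ∀ M : Pol k N, M.IsHomogeneous n → 1 * M ∈ Submodule.span k (Set.range B) :=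
    fun M hM => mul_mem hM e fun d => by rw [he, one_mul]
  refine hG.and _ _ _ (hB.gen ι n 1 B (fun _ => 1) (fun _ => 0) hx hn h1
    (fun _ => ⟨isHomogeneous_one _ _, hn⟩) (fun _ => h2) (by simp) (by simp))
    (hG.all _ _ _ _ h𝒞 fun D _ => avoid hG _ (h2 _ (isHomogeneous_X_pow D.idx n)) ?_)
  rw [one_mul]
  exact Ctr.pow_notMem D.good n

end CExA

open CExA

theorem rExA : RGenA.{u} → RSep0.{u} → RExA.{u} := by
  intro hG hS k K _ _ _ _ p _ _ N ξ 𝒢 _ _ hF _ hB
  replace hG := hG k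
  refine ⟨fun n hn hx 𝒞 h𝒞 => ?_, fun n hn x Y 𝒞 hY hx h𝒞 => ?_⟩
  · obtain ⟨a, h⟩ := hG.ex _ _ (gen0 hG hB hn hx mon_hom id (fun _ => rfl) h𝒞)
    exact ⟨_, sum_hom mon_hom a, h⟩
  let W : Submodule k (Pol k N) :=
    homogeneousSubmodule (Fin (N + 1)) k n ⊓ x.ctr.P.restrictScalars k
  have := FiniteDimensional.span_of_finite k (Set.finite_range (mon : Mon N n → Pol k N))
  have : FiniteDimensional k W := Submodule.finiteDimensional_of_le fun M hM => mem_span hM.1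
  obtain ⟨m, B, hW⟩ := Submodule.fg_iff_exists_fin_generating_family.1
    ((Submodule.fg_iff_finiteDimensional W).2 this)
  have h1 : ∀ j, B j ∈ W := fun j => hW ▸ Submodule.subset_span ⟨j, rfl⟩
  have h2 : ∀ h : Pol k N, h.IsHomogeneous n → eval x.z h = 0 →
      h ∈ Submodule.span k (Set.range B) := fun h a b => hW ▸ ⟨a, b⟩
  obtain ⟨c, hc⟩ := hB.uni n hn
  have g1 : Gen k (Fin m) fun a => Sm ξ (∑ j, C (a j) * B j) :=
    ⟨c, fun S => by rw [Fintype.card_fin]; exact hc x m B (fun j => (h1 j).1) h2 S⟩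
  have g2 := hG.all (Fin m) _ Y (fun y a => ∑ j, C (a j) * B j ∉ y.ctr.P) hY fun y hy => by
    obtain ⟨i, hi⟩ := y.norm
    obtain ⟨h, a, -, b, c⟩ := hS k ⊤ N 1 n (fun _ => x.z) i y.z (fun _ => x.norm) (by simp)
      (by simp) hi (fun _ e => hx (Pt.ext e ▸ hy)) (by omega)
    exact avoid hG _ (h2 h a (b 0)) (by rw [Pt.mem_P, c]; exact one_ne_zero)
  have g3 := hG.all (Fin m) _ 𝒞 (fun D a => ∑ j, C (a j) * B j ∉ D.P) h𝒞 fun D _ => by
    obtain ⟨l, a, b, c⟩ := hF.lin x D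
    refine avoid hG _ (h2 (l * X D.idx ^ (n - 1)) ?_ (by rw [map_mul, b, zero_mul])) fun e =>
      (D.prime.mem_or_mem e).elim c (Ctr.pow_notMem D.good _)
    have := a.mul (isHomogeneous_X_pow (R := k) D.idx (n - 1))
    rwa [show 1 + (n - 1) = n by omega] at this
  obtain ⟨a, h3, h4, h5⟩ := hG.ex _ _ (hG.and _ _ _ g1 (hG.and _ _ _ g2 g3))
  exact ⟨_, sum_hom (fun j => (h1 j).1) a, h3,
    x.ctr.P.sum_mem fun j _ => x.ctr.P.mul_mem_left _ (h1 j).2, h4, h5⟩

theorem rEx4a : RGenA.{u} → REx4a.{u} := by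
  intro hG k K _ _ _ _ p _ _ N ξ 𝒢 _ _ hF hB A B hx hc hs
  replace hG := hG k
  have hA : A.IsHomogeneous A.totalDegree := hc.1
  have hB' : B.IsHomogeneous B.totalDegree := hc.2.1
  generalize A.totalDegree = a at hA
  generalize B.totalDegree = b at hB'
  have e1 : b + (a + 1) = a + b + 1 := by omega
  have g1 := hB.gen (Mon N (a + 1) ⊕ Mon N (b + 1)) (a + b + 1) 2
    (Sum.elim (fun d => B * mon d) fun d => A * mon d) ![A, B] ![a, b] hx (by omega)
    (by
      rintro (d | d)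
      exacts [e1 ▸ hB'.mul (mon_hom d), hA.mul (mon_hom d)])
    (Fin.forall_fin_two.2 ⟨⟨hA, show a < _ by omega⟩, hB', show b < _ by omega⟩)
    (Fin.forall_fin_two.2
      ⟨fun M hM => mul_mem (show a + b + 1 - a = b + 1 by omega ▸ hM) .inr fun _ => rfl,
        fun M hM => mul_mem (show a + b + 1 - b = a + 1 by omega ▸ hM) .inl fun _ => rfl⟩)
    ((hF.zs A B hc).subset fun x h => ⟨h 0, h 1⟩)
    fun x _ => (not_and_or.1 (hs x)).elim (fun h => ⟨0, h⟩) fun h => ⟨1, h⟩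
  have g2 := gen0 hG hB (ι := Mon N (a + 1) ⊕ Mon N (b + 1)) (n := a + 1)
    (B := Sum.elim mon fun _ => 0) (by omega) hx
    (by
      rintro (d | d)
      exacts [mon_hom d, isHomogeneous_zero _ _ _])
    .inl (fun _ => rfl) (hF.cv A hc.1 hc.2.2.1)
  obtain ⟨c, h1, h2, h3⟩ := hG.ex _ _ (hG.and _ _ _ g1 g2)
  simp only [Fintype.sum_sum_type, Sum.elim_inl, Sum.elim_inr, mul_zero, Finset.sum_const_zero,
    add_zero] at h1 h2 h3
  have h4 := sum_hom (mon_hom (k := k)) fun d => c (.inl d)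
  have h5 := sum_hom (mon_hom (k := k)) fun d => c (.inr d)
  refine ⟨a + b + 1, _, _, Form.of h5, e1 ▸ hB'.mul h4, ?_, h2,
    ⟨hc.1, h2.1, hc.2.2.1, h2.2.2.1, h3⟩, ?_⟩
  · rw [mul_comm]
    exact hA.mul h5
  · simpa only [mul_comm _ A, Finset.mul_sum, mul_left_comm] using h1

end Pool.Agent.MP_f3836a_nt.PK
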