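import Pool.Agent.MP_f3836a_nt.PK.SpecD

set_option autoImplicit false

/-! Few rational pencils are not Morse. -/

namespace Pool.Agent.MP_f3836a_nt.PK

open MvPolynomial

universe u

namespace DGood

variable {k K : Type u} [Field k] [Field K] [Algebra k K] {N : ℕ} {ξ : Fin (N + 1) → K}

theorem van_mul {j : ℕ} {g : Pol k N} {z τ υ : Fin (N + 1) → k} (c : k) (h : Van j g z τ υ) :
    Van j (C c * g) z τ υ := by
  unfold Van at h ⊢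
  rw [map_mul]
  exact h.mul_left _

theorem van_scale (h₁ h₂ : Pol k N) {a b : k} (h : a ≠ 0 ∨ b ≠ 0) :
    ∃ a' b' : k, (a' = 1 ∨ b' = 1) ∧ ∀ j z τ υ, Van j (C a * h₁ + C b * h₂) z τ υ →
      Van j (C a' * h₁ + C b' * h₂) z τ υ := by
  have key : ∀ c : k, ∀ j z τ υ, Van j (C a * h₁ + C b * h₂) z τ υ →
      Van j (C (c * a) * h₁ + C (c * b) * h₂) z τ υ := fun c j z τ υ hv => by
    have := van_mul c hv
    rwa [mul_add, ← mul_assoc, ← mul_assoc, ← map_mul, ← map_mul] at this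
  rcases h with h | h
  · exact ⟨_, _, Or.inl (inv_mul_cancel₀ h), key a⁻¹⟩
  · exact ⟨_, _, Or.inr (inv_mul_cancel₀ h), key b⁻¹⟩

theorem good {𝒢 : Finset (Pol k N)} (geo : Geo k ξ 𝒢) {W : Pol k N} {C₀ : Cv k ξ} (hW : Sm ξ W)
    (hC : W ∈ C₀.P) {Ξ : Set (Pt k ξ)} {r n : ℕ} {w : Fin r → Fin (N + 1) → k}
    (hw : ∀ s, ∃ x ∈ Ξ, x.z = w s) {h₁ h₂ : Pol k N} (f₁ : h₁.IsHomogeneous n)
    (f₂ : h₂.IsHomogeneous n) (hb : ¬ BadP (insert W (𝒢 : Set (Pol k N))) w h₁ h₂) :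
    GoodP W Ξ h₁ h₂ := by
  simp only [BadP, not_or] at hb
  obtain ⟨b1, b2, b3⟩ := hb
  have hom : ∀ a b : k, (C a * h₁ + C b * h₂).IsHomogeneous n :=
    fun a b => (f₁.C_mul a).add (f₂.C_mul b)
  have jet : ∀ x : Pt k ξ, eval x.z W = 0 → ∃ l τ υ,
      IsJet (insert W (𝒢 : Set (Pol k N))) x.ctr.idx l x.z τ υ ∧ ∀ (g : Pol k N) (j : ℕ),
        Form g → j ≤ 3 → (g ∈ C₀.P ∨ j ≤ J x W g) → Van j g x.z τ υ := fun x hx => by
    obtain ⟨l, τ, υ, h1, h2⟩ := geo.jet W hW x hx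
    exact ⟨l, τ, υ, h1, fun g j hg hj h => h2 g j hg hj
      ((geo.sm W C₀ hW hC).s1.ge x ((geo.con.on W C₀ hW hC x).2 hx) g j hg h)⟩
  have three : ∀ a b : k, (a ≠ 0 ∨ b ≠ 0) → ∀ x : Pt k ξ, eval x.z W = 0 →
      ¬ (C a * h₁ + C b * h₂ ∈ C₀.P ∨ 3 ≤ J x W (C a * h₁ + C b * h₂)) := fun a b h x hx h' => by
    obtain ⟨l, τ, υ, h1, h2⟩ := jet x hx
    obtain ⟨a', b', h3, h4⟩ := van_scale h₁ h₂ h
    exact b1 ⟨a', b', h3, _, l, _, τ, υ, h1, h4 _ _ _ _ (h2 _ 3 (Form.of (hom a b)) le_rfl h')⟩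
  have cop : ∀ a b : k, (a ≠ 0 ∨ b ≠ 0) → Cop ξ W (C a * h₁ + C b * h₂) := fun a b h => by
    obtain ⟨x, hx⟩ := geo.cv.pt C₀
    have h1 : C a * h₁ + C b * h₂ ∉ C₀.P := fun h' =>
      three a b h x ((geo.con.on W C₀ hW hC x).1 hx) (Or.inl h')
    exact ⟨hW.1, Form.of (hom a b), hW.2.2.1, C₀.toCtr.aeval_ne (hom a b) h1,
      fun C' h' => geo.con.uniq W C₀ C' hW hC h' ▸ h1⟩
  have zero : ∀ a b : k, (a ≠ 0 ∨ b ≠ 0) → ∀ x : Pt k ξ, 2 ≤ J x W (C a * h₁ + C b * h₂) →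
      eval x.z W = 0 := fun a b h x hx => by
    by_contra h'
    have := (geo.ja.zero x _ _ (cop a b h)).2 fun h2 => h' h2.1
    omega
  have off : ∀ x : Pt k ξ, x ∉ Ξ → ∀ s, x.z ≠ w s := fun x hx s e => by
    obtain ⟨y, hy, e'⟩ := hw s
    exact hx (Pt.ext (e.trans e'.symm) ▸ hy)
  refine ⟨cop, fun a b h x => ?_, fun a b h x y hx hy jx jy => ?_, fun x h0 h1 h2 => ?_⟩
  · by_contra h'
    exact three a b h x (zero a b h x (by omega)) (Or.inr (by omega))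
  · by_contra hne
    obtain ⟨l, τ, υ, h1, h2⟩ := jet x (zero a b h x jx)
    obtain ⟨l', τ', υ', h1', h2'⟩ := jet y (zero a b h y jy)
    obtain ⟨a', b', h3, h4⟩ := van_scale h₁ h₂ h
    exact b2 ⟨a', b', h3, _, l, _, τ, υ, _, l', _, τ', υ', h1, h1', fun e => hne (Pt.ext e),
      off x hx, off y hy, h4 _ _ _ _ (h2 _ 2 (Form.of (hom a b)) (by norm_num) (Or.inr jx)),
      h4 _ _ _ _ (h2' _ 2 (Form.of (hom a b)) (by norm_num) (Or.inr jy))⟩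
  · by_contra hx
    refine b3 ⟨_, _, x.z_idx, fun G hG => ?_, off x hx, h1, h2⟩
    rcases hG with rfl | hG
    exacts [h0, (geo.gens.onV x).2 G hG]

end DGood

open DGood in
theorem rGoodCnt : RCntM.{u} → RGoodCnt.{u} := by
  intro hM k K _ _ _ _ p _ _ N ξ 𝒢 _ geo hV d
  classical
  choose! c hc using fun r (hr : r + 3 ≤ 5) => hM k N d 5 r 𝒢 hr
  refine ⟨c 0 + c 1 + c 2, fun e he W C₀ hW hd hC Ξ h2 hrat => ?_⟩
  obtain ⟨-, S, -, hcard, hall⟩ := hV e he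
  obtain ⟨-, -, m, B, hB, hspan, hbij⟩ := hall 5 Ξ hrat (by omega)
  let w : Fin Ξ.card → Fin (N + 1) → k := fun s => (Ξ.equivFin.symm s).1.z
  have hw : ∀ s, ∃ x ∈ (Ξ : Set (Pt k ξ)), x.z = w s := fun s => ⟨_, (Ξ.equivFin.symm s).2, rfl⟩
  have sp : Spans w 5 B :=
    ⟨fun s => ⟨_, (Ξ.equivFin.symm s).1.z_idx⟩,
      fun s t h => Ξ.equivFin.symm.injective (Subtype.ext (Pt.ext h)), fun j => (hB j).1,
      fun j s => (hB j).2.2 _ (Ξ.equivFin.symm s).2, fun h h1 h2 => hspan h h1 fun x hx => by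
        simpa [w] using h2 (Ξ.equivFin ⟨x, hx⟩)⟩
  have key := hc Ξ.card (by omega) W (hd ▸ hW.1) (geo.tan.line W hW) m w B sp S
  have e1 : {a : Fin m → k | ∀ j, a j ∈ S} = ↑(Fintype.piFinset fun _ : Fin m => S) := by
    ext a
    simp
  have e2 : (VF (p ^ e) 5 (Ξ : Set (Pt k ξ))).ncard = S.card ^ m := by
    rw [← hbij.image_eq, hbij.injOn.ncard_image, e1, Set.ncard_coe_finset, Fintype.card_piFinset]
    simp
  have fin : {a : (Fin m → k) × (Fin m → k) | (∀ j, a.1 j ∈ S ∧ a.2 j ∈ S) ∧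
      BadP (insert W (𝒢 : Set (Pol k N))) w (∑ j, C (a.1 j) * B j)
        (∑ j, C (a.2 j) * B j)}.Finite := by
    have : {a : Fin m → k | ∀ j, a j ∈ S}.Finite := e1 ▸ Finset.finite_toSet _
    exact (this.prod this).subset fun a ha => ⟨fun j => (ha.1 j).1, fun j => (ha.1 j).2⟩
  have hle : c Ξ.card ≤ c 0 + c 1 + c 2 := by
    generalize Ξ.card = r at h2
    interval_cases r <;> omega
  rw [e2, ← pow_mul, mul_comm m]
  conv at key => lhs; rw [hcard]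
  refine le_trans (Nat.mul_le_mul_right _ ?_) (key.trans (Nat.mul_le_mul_right _ hle))
  refine le_trans (Set.ncard_le_ncard ?_ (fin.image fun a =>
    (∑ j, C (a.1 j) * B j, ∑ j, C (a.2 j) * B j))) (Set.ncard_image_le fin)
  rintro ⟨h₁, h₂⟩ ⟨a1, a2, a3⟩
  obtain ⟨a, ha, rfl⟩ := hbij.surjOn a1
  obtain ⟨b, hb, rfl⟩ := hbij.surjOn a2
  exact ⟨(a, b), ⟨fun j => ⟨ha j, hb j⟩, by_contra fun h =>
    a3 (good geo hW hC hw a1.1 a2.1 h)⟩, rfl⟩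

end Pool.Agent.MP_f3836a_nt.PK
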