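import Mathlib

set_option autoImplicit false

namespace Pool.Agent.MP_f3836a_nt.PK

open MvPolynomial

universe u

open Classical in
/-- Order of vanishing of `f` along the subring `R` of the field `L`: for `f = a / b` with `a, b`
in `R` it is `length (R / a) - length (R / b)`. -/
noncomputable def ordR {L : Type u} [Field L] (R : Subring L) (f : L) : ℤ :=
  if h : f ≠ 0 ∧ ∃ ab : R × R, ab.2 ≠ 0 ∧ f * ab.2 = ab.1 then
    ((Ring.ord R h.2.choose.1).toNat : ℤ) - (Ring.ord R h.2.choose.2).toNat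
  else 0

section

variable (k : Type u) {K : Type u} [Field k] [Field K] [Algebra k K] {N : ℕ}
  (ξ : Fin (N + 1) → K)

/-- A prime ideal of `k[x_0, ..., x_N]` containing every form that vanishes at `ξ`. -/
structure Ctr where
  P : Ideal (MvPolynomial (Fin (N + 1)) k)
  prime : P.IsPrime
  van : ∀ (n : ℕ) (G : MvPolynomial (Fin (N + 1)) k), G.IsHomogeneous n → aeval ξ G = 0 → G ∈ P

variable {k ξ}

/-- The local ring: all `A(ξ) / B(ξ)` with `A, B` forms of the same degree, `B` not in `P`. -/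
def Ctr.O (c : Ctr k ξ) : Subring K where
  carrier := {f | ∃ (n : ℕ) (A B : MvPolynomial (Fin (N + 1)) k),
    A.IsHomogeneous n ∧ B.IsHomogeneous n ∧ B ∉ c.P ∧ f * aeval ξ B = aeval ξ A}
  zero_mem' := ⟨0, 0, 1, isHomogeneous_zero _ _ _, isHomogeneous_one _ _,
    (Ideal.ne_top_iff_one _).mp c.prime.ne_top, by simp⟩
  one_mem' := ⟨0, 1, 1, isHomogeneous_one _ _, isHomogeneous_one _ _,
    (Ideal.ne_top_iff_one _).mp c.prime.ne_top, by simp⟩
  add_mem' := by
    rintro f g ⟨n, A, B, hA, hB, hP, h⟩ ⟨m, A', B', hA', hB', hP', h'⟩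
    refine ⟨n + m, A * B' + B * A', B * B', (hA.mul hB').add (hB.mul hA'), hB.mul hB',
      fun hh => (c.prime.mem_or_mem hh).elim hP hP', ?_⟩
    simp only [map_mul, map_add]
    linear_combination aeval ξ B' * h + aeval ξ B * h'
  mul_mem' := by
    rintro f g ⟨n, A, B, hA, hB, hP, h⟩ ⟨m, A', B', hA', hB', hP', h'⟩
    refine ⟨n + m, A * A', B * B', hA.mul hA', hB.mul hB',
      fun hh => (c.prime.mem_or_mem hh).elim hP hP', ?_⟩
    simp only [map_mul]
    linear_combination (g * aeval ξ B') * h + aeval ξ A * h'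
  neg_mem' := by
    rintro f ⟨n, A, B, hA, hB, hP, h⟩
    exact ⟨n, -A, B, hA.neg, hB, hP, by simp only [map_neg]; linear_combination -h⟩

instance Ctr.isLocalRing (c : Ctr k ξ) : IsLocalRing c.O := by
  have key : ∀ (f : c.O) (n : ℕ) (A B : MvPolynomial (Fin (N + 1)) k), A.IsHomogeneous n →
      B.IsHomogeneous n → B ∉ c.P → (f : K) * aeval ξ B = aeval ξ A → A ∉ c.P → IsUnit f := by
    intro f n A B hA hB hP h hAP
    have hA0 : aeval ξ A ≠ 0 := fun h0 => hAP (c.van n A hA h0)
    have hf : (f : K) ≠ 0 := fun h0 => hA0 (by rw [← h, h0, zero_mul])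
    refine IsUnit.of_mul_eq_one ⟨(f : K)⁻¹, n, B, A, hB, hA, hAP, ?_⟩ (Subtype.ext ?_)
    · rw [← h, ← mul_assoc, inv_mul_cancel₀ hf, one_mul]
    · exact mul_inv_cancel₀ hf
  refine IsLocalRing.of_isUnit_or_isUnit_one_sub_self fun f => ?_
  obtain ⟨n, A, B, hA, hB, hP, h⟩ := f.2
  by_cases hAP : A ∈ c.P
  · refine Or.inr (key _ n (B - A) B (hB.sub hA) hB hP ?_ fun hh => hP ?_)
    · simp only [map_sub, AddSubgroupClass.coe_sub, OneMemClass.coe_one]
      linear_combination -h
    · simpa using c.P.add_mem hh hAP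
  · exact Or.inl (key f n A B hA hB hP h hAP)

variable (k ξ)

/-- A point of the projective variety `X` in `P^N(k)` with generic point `ξ`, given by its
coordinates with first nonzero coordinate `1`. -/
structure Pt where
  z : Fin (N + 1) → k
  norm : ∃ i, z i = 1 ∧ ∀ j < i, z j = 0
  van : ∀ (n : ℕ) (G : MvPolynomial (Fin (N + 1)) k), G.IsHomogeneous n → aeval ξ G = 0 →
    eval z G = 0

/-- An irreducible curve on `X`: a homogeneous prime whose local ring has dimension one. -/
structure Cv extends Ctr k ξ where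
  hom : ∀ G ∈ P, ∀ n : ℕ, homogeneousComponent n G ∈ P
  dim : ringKrullDim toCtr.O = 1

variable {k ξ}

/-- The local ring of `X` at a point. -/
noncomputable def Pt.ctr (x : Pt k ξ) : Ctr k ξ :=
  ⟨RingHom.ker (eval x.z), RingHom.ker_isPrime _, fun n G hG h => x.van n G hG h⟩

/-- The point `x` lies on the curve `C`. -/
def Pt.On (x : Pt k ξ) (C : Cv k ξ) : Prop :=
  ∀ (n : ℕ) (G : MvPolynomial (Fin (N + 1)) k), G.IsHomogeneous n → G ∈ C.P → eval x.z G = 0

/-- The function field of the curve. -/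
abbrev Cv.κ (C : Cv k ξ) : Type u := IsLocalRing.ResidueField C.O

/-- The valuation of `K` along the curve. -/
noncomputable def Cv.v (C : Cv k ξ) (f : K) : ℤ := ordR C.O f

open Classical in
/-- Restriction of a function to the curve. -/
noncomputable def Cv.res (C : Cv k ξ) (f : K) : C.κ :=
  if h : f ∈ C.O then IsLocalRing.residue C.O ⟨f, h⟩ else 0

/-- The tame symbol along the curve. -/
noncomputable def Cv.tame (C : Cv k ξ) (f g : K) : C.κ :=
  C.res ((-1) ^ (C.v f * C.v g) * f ^ C.v g / g ^ C.v f)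

/-- The local ring of the curve `C` at `x`: the image of the local ring of `X` at `x`. -/
noncomputable def Cv.loc (C : Cv k ξ) (x : Pt k ξ) : Subring C.κ :=
  (x.ctr.O.comap C.O.subtype).map (IsLocalRing.residue C.O)

/-- Order of vanishing at `x` of a function on the curve `C`. -/
noncomputable def Cv.ordAt (C : Cv k ξ) (x : Pt k ξ) (f : C.κ) : ℤ := ordR (C.loc x) f

variable (k ξ)

/-- `K` is the function field of `X`, and `X` is a nonsingular surface. -/
structure IsSurf : Prop where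
  gen : ∀ f : K, ∃ (n : ℕ) (A B : MvPolynomial (Fin (N + 1)) k),
    A.IsHomogeneous n ∧ B.IsHomogeneous n ∧ aeval ξ B ≠ 0 ∧ f * aeval ξ B = aeval ξ A
  reg : ∀ x : Pt k ξ, IsRegularLocalRing x.ctr.O
  dim : ∀ x : Pt k ξ, ringKrullDim x.ctr.O = 2

/-- `φ` is an element of the direct sum of the `k(C)^*` with divisor zero. -/
structure IsCycle (φ : ∀ C : Cv k ξ, C.κ) : Prop where
  ne : ∀ C, φ C ≠ 0
  fin : {C | φ C ≠ 1}.Finite
  div : ∀ x : Pt k ξ, ∑ᶠ (C : Cv k ξ) (_ : x.On C), C.ordAt x (φ C) = 0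

/-- `φ` is the tame symbol of an element of `K_2(K)`. -/
def IsBdry (φ : ∀ C : Cv k ξ, C.κ) : Prop :=
  ∃ l : List (K × K), (∀ a ∈ l, a.1 ≠ 0 ∧ a.2 ≠ 0) ∧
    ∀ C, φ C = (l.map fun a => C.tame a.1 a.2).prod

end

end Pool.Agent.MP_f3836a_nt.PK
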