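import Mathlib

set_option autoImplicit false

namespace Pool.Agent.MP_f3836a_nt.PS

open AlgebraicGeometry CategoryTheory

/-- Projective `N`-space over the integers. -/
noncomputable def PN (N : ℕ) : Scheme.{0} :=
  letI := MvPolynomial.gradedAlgebra (σ := Fin (N + 1)) (R := ℤ)
  Proj (MvPolynomial.homogeneousSubmodule (Fin (N + 1)) ℤ)

open Classical in
/-- Order of vanishing of `f` along the subring `R` of the field `L`: for `f = a / b` with `a, b`
in `R` it is `length (R / a) - length (R / b)`. -/
noncomputable def ordF {L : Type} [Field L] (R : Subring L) (f : L) : ℤ :=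
  if h : f ≠ 0 ∧ ∃ ab : R × R, ab.2 ≠ 0 ∧ f * ab.2 = ab.1 then
    ((Ring.ord R h.2.choose.1).toNat : ℤ) - (Ring.ord R h.2.choose.2).toNat
  else 0

variable {X : Scheme.{0}}

/-- Restriction of germs at `z` to the residue field of a point `y` with `z` in its closure. The
image is the local ring at `z` of the reduced closure of `y`. -/
noncomputable def ev {y z : X} (h : y ⤳ z) : X.presheaf.stalk z →+* X.residueField y :=
  (X.presheaf.stalkSpecializes h ≫ X.residue y).hom

open Classical in
/-- Order at `z` of a rational function on the closure of `y`. -/
noncomputable def ord (y z : X) (f : X.residueField y) : ℤ :=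
  if h : y ⤳ z then ordF (ev h).range f else 0

open Classical in
/-- Value at `z` of a rational function on the closure of `y` that is regular at `z`. -/
noncomputable def val {y z : X} (h : y ⤳ z) (f : X.residueField y) : X.residueField z :=
  if hf : ∃ a, ev h a = f then X.residue z hf.choose else 0

open Classical in
/-- The tame symbol at `z` of two rational functions on the closure of `y`. -/
noncomputable def tame (y z : X) (f g : X.residueField y) : X.residueField z :=
  if h : y ⤳ z then val h ((-1) ^ (ord y z f * ord y z g) * f ^ ord y z g / g ^ ord y z f) else 1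

variable (X) in
/-- The fibre of `X` over `p` is regular of pure dimension two. -/
def GoodFib (p : ℕ) : Prop :=
  ∀ x : X, IsClosed ({x} : Set X) → (p : X.residueField x) = 0 →
    IsRegularLocalRing (X.presheaf.stalk x ⧸ Ideal.span {(p : X.presheaf.stalk x)}) ∧
    ringKrullDim (X.presheaf.stalk x ⧸ Ideal.span {(p : X.presheaf.stalk x)}) = 2

/-- The point `y` lies in a fibre that is regular of pure dimension two. -/
def InGood (y : X) : Prop := ∃ p : ℕ, p.Prime ∧ GoodFib X p ∧ (p : X.residueField y) = 0

end Pool.Agent.MP_f3836a_nt.PS
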