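import Pool.Agent.MP_f3836a_nt.PK.SpecF
import Pool.Agent.MP_f3836a_nt.PK.AllA

set_option autoImplicit false

/-! Weak approximation and the places of the projective line. -/

namespace Pool.Agent.MP_f3836a_nt.PK

open IntermediateField

universe u

namespace FApx

variable {k L : Type u} [Field k] [Field L] [Algebra k L]

/-- `f` vanishes to order at least `n` -/
def VanO (P : Place k L) (n : ℤ) (f : L) : Prop := f = 0 ∨ n ≤ P.ord f

theorem VanO.mono {P : Place k L} {n m : ℤ} {f : L} (hf : VanO P n f) (h : m ≤ n) : VanO P m f :=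
  hf.imp_right h.trans

theorem VanO.add (h : PlA k L) {P : Place k L} {n : ℤ} {f g : L} (hf : VanO P n f)
    (hg : VanO P n g) : VanO P n (f + g) := by
  by_cases f0 : f = 0
  · rwa [f0, zero_add]
  by_cases g0 : g = 0
  · rwa [g0, add_zero]
  by_cases s0 : f + g = 0
  · exact Or.inl s0
  exact Or.inr ((le_min (hf.resolve_left f0) (hg.resolve_left g0)).trans (h.add P f g f0 g0 s0))

theorem VanO.sum (h : PlA k L) {P : Place k L} {n : ℤ} {ι : Type u} (s : Finset ι) (f : ι → L)
    (hf : ∀ i ∈ s, VanO P n (f i)) : VanO P n (∑ i ∈ s, f i) :=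
  Finset.sum_induction f (VanO P n) (fun _ _ => VanO.add h) (Or.inl rfl) hf

theorem VanO.mul (h : PlA k L) {P : Place k L} {n m : ℤ} {f g : L} (hf : VanO P n f)
    (hg : VanO P m g) : VanO P (n + m) (f * g) := by
  by_cases f0 : f = 0
  · exact Or.inl (by rw [f0, zero_mul])
  by_cases g0 : g = 0
  · exact Or.inl (by rw [g0, mul_zero])
  refine Or.inr ?_
  rw [h.mul P f g f0 g0]
  exact add_le_add (hf.resolve_left f0) (hg.resolve_left g0)

theorem single (h : PlA k L) (P : Place k L) (S : Finset (Place k L)) (hP : P ∉ S) (v : L)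
    (hv : VanO P 0 v) : ∃ a : L, VanO P 2 (a - v) ∧ ∀ W ∈ S, VanO W 2 a := by
  obtain ⟨x, x0, x1, x2⟩ := Trans.approx h P S hP
  obtain ⟨m, hm2, hm⟩ : ∃ m : ℕ, 2 ≤ m ∧ ∀ W ∈ S, 2 - W.ord v ≤ m := by
    refine ⟨2 + ∑ W ∈ S, (W.ord v).natAbs, by omega, fun W hW => ?_⟩
    have := Finset.single_le_sum (f := fun W : Place k L => (W.ord v).natAbs)
      (fun _ _ => Nat.zero_le _) hW
    omega
  have hm' : (2 : ℤ) ≤ m := by exact_mod_cast hm2
  have xm : x ^ m ≠ 0 := pow_ne_zero m x0
  obtain ⟨d0, d1⟩ := Trans.ord_add h P one_ne_zero xm (by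
    rw [Trans.ord_one h, Trans.ord_pow h P x0]
    positivity)
  rw [Trans.ord_one h] at d1
  refine ⟨(1 + x ^ m)⁻¹ * v, ?_, fun W hW => ?_⟩
  · have e : (1 + x ^ m)⁻¹ * v - v = (-x ^ m * (1 + x ^ m)⁻¹) * v := by
      field_simp
      ring
    rw [e]
    refine VanO.mul h (n := 2) (m := 0) (Or.inr ?_) hv
    rw [h.mul P _ _ (neg_ne_zero.2 xm) (inv_ne_zero d0), Trans.ord_neg h P xm,
      Trans.ord_inv h P d0, d1, Trans.ord_pow h P x0]
    nlinarith
  · have h1 := x2 W hW
    have h2 := (Trans.ord_add h W xm one_ne_zero (by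
      rw [Trans.ord_one h, Trans.ord_pow h W x0]
      nlinarith)).2
    rw [add_comm, Trans.ord_pow h W x0] at h2
    have h3 : VanO W m (1 + x ^ m)⁻¹ := Or.inr (by
      rw [Trans.ord_inv h W d0, h2]
      nlinarith)
    refine (VanO.mul h h3 (show VanO W (W.ord v) v from Or.inr le_rfl)).mono ?_
    linarith [hm W hW]

theorem uniq {α : Type u} (f : α → ℤ) (hf : (Function.support f).Finite) (h0 : ∀ a, 0 ≤ f a)
    (h1 : ∑ᶠ a, f a = 1) : ∃ a, f a = 1 ∧ ∀ b, f b ≠ 0 → b = a := by
  classical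
  rw [finsum_eq_sum f hf] at h1
  obtain ⟨a, ha, ha0⟩ := Finset.exists_ne_zero_of_sum_ne_zero (by rw [h1]; exact one_ne_zero)
  rw [← Finset.add_sum_erase _ _ ha] at h1
  have h2 : 0 ≤ ∑ x ∈ hf.toFinset.erase a, f x := Finset.sum_nonneg fun b _ => h0 b
  have h3 := h0 a
  refine ⟨a, by omega, fun b hb => by_contra fun hba => hb ?_⟩
  exact (Finset.sum_eq_zero_iff_of_nonneg fun b _ => h0 b).1
    (show ∑ x ∈ hf.toFinset.erase a, f x = 0 by omega) b
    (Finset.mem_erase.2 ⟨hba, hf.mem_toFinset.2 hb⟩)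

theorem one_zero (hB : PlB k L) {T : L} (hT : Transcendental k T) (ht : adjoin k {T} = ⊤) :
    ∃ P : Place k L, P.ord T = 1 ∧ ∀ W : Place k L, 0 < W.ord T → W = P := by
  have h1 := hB.deg T hT
  rw [ht, IntermediateField.finrank_top] at h1
  obtain ⟨P, h2, h3⟩ := uniq (fun P : Place k L => max (P.ord T) 0)
    ((hB.fin T).subset fun P hP h => hP (by simp [h])) (fun _ => le_max_right _ _) h1
  exact ⟨P, by omega, fun W hW => h3 W (by omega)⟩

theorem top_of_mem {E : IntermediateField k (RatFunc k)} (h : RatFunc.X ∈ E) : E = ⊤ := by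
  rw [eq_top_iff, ← RatFunc.adjoin_X, adjoin_simple_le_iff]
  exact h

end FApx

open FApx in
theorem rApx : RApx.{u} := by
  intro k L _ _ _ h s c hs
  classical
  choose π π0 π1 using h.uni
  have hv : ∀ P : Place k L, VanO P 0 (algebraMap k L (c P) + π P) := fun P =>
    VanO.add h (Or.inr (h.con P _).ge) (Or.inr (by rw [π1]; exact zero_le_one))
  choose a a1 a2 using fun P : Place k L =>
    single h P (hs.toFinset.erase P) (Finset.notMem_erase _ _) _ (hv P)
  refine ⟨∑ P ∈ hs.toFinset, a P, fun P hP => ?_⟩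
  have hP' := hs.mem_toFinset.2 hP
  have e : ∑ W ∈ hs.toFinset, a W - algebraMap k L (c P) =
      π P + ((a P - (algebraMap k L (c P) + π P)) + ∑ W ∈ hs.toFinset.erase P, a W) := by
    rw [← Finset.add_sum_erase _ _ hP']
    ring
  have hr := VanO.add h (a1 P) (VanO.sum h (hs.toFinset.erase P) a fun W hW =>
    a2 W P (Finset.mem_erase.2 ⟨(Finset.mem_erase.1 hW).1.symm, hP'⟩))
  rw [e]
  by_cases r0 : (a P - (algebraMap k L (c P) + π P)) + ∑ W ∈ hs.toFinset.erase P, a W = 0
  · rw [r0, add_zero]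
    exact ⟨π0 P, π1 P⟩
  · have := Trans.ord_add h P (π0 P) r0 (by
      have := hr.resolve_left r0
      rw [π1]
      omega)
    rwa [π1] at this

open FApx in
theorem rLine : RLine.{u} := by
  intro k _ _ p _ _
  have hX : Transcendental k (RatFunc.X : RatFunc k) := RatFunc.transcendental_X
  have hff : IsFF k (RatFunc k) := ⟨RatFunc.X, hX, by
    rw [RatFunc.adjoin_X]
    exact FiniteDimensional.of_finrank_eq_succ IntermediateField.finrank_top⟩
  have hA := pPlA k _ hff
  have hB := pPlB k _ p hff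
  have X0 : (RatFunc.X : RatFunc k) ≠ 0 := RatFunc.X_ne_zero
  have ht : ∀ c : k, Transcendental k (RatFunc.X - algebraMap k (RatFunc k) c) := fun c h =>
    hX (by simpa using h.add (isAlgebraic_algebraMap c))
  have hne : ∀ c : k, RatFunc.X - algebraMap k (RatFunc k) c ≠ 0 := fun c e =>
    ht c (e ▸ isAlgebraic_zero)
  choose pl p1 p2 using fun c : k => one_zero hB (ht c) (top_of_mem (by
    have := add_mem (mem_adjoin_simple_self k (RatFunc.X - algebraMap k (RatFunc k) c))
      (IntermediateField.algebraMap_mem _ c)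
    rwa [sub_add_cancel] at this))
  obtain ⟨Q, q1, q2⟩ := one_zero hB (T := (RatFunc.X : RatFunc k)⁻¹)
    (fun h => hX (by simpa using h.inv)) (top_of_mem (by
      have := inv_mem (mem_adjoin_simple_self k (RatFunc.X : RatFunc k)⁻¹)
      rwa [inv_inv] at this))
  rw [Trans.ord_inv hA Q X0] at q1
  have hmem : ∀ c, RatFunc.X ∈ (pl c).V ∧ (pl c).val RatFunc.X = c := by
    intro c
    have h1 : RatFunc.X ∈ (pl c).V := by
      have := add_mem ((hA.mem (pl c) _ (hne c)).2 (by rw [p1]; exact zero_le_one))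
        ((pl c).const c)
      rwa [sub_add_cancel] at this
    exact ⟨h1, (hA.val _ _ h1 c).1 (Or.inr (by rw [p1]; exact zero_lt_one))⟩
  refine ⟨pl, Q, hff, fun P => ?_, fun c c' e => ?_, hne, hmem, p1, fun c c' hc => ?_,
    fun h => ?_, fun c => ?_⟩
  · by_cases h : RatFunc.X ∈ P.V
    · exact Or.inl ⟨_, p2 _ P (((hA.val P _ h _).2 rfl).resolve_left (hne _))⟩
    · refine Or.inr (q2 P ?_)
      rw [hA.mem P _ X0] at h
      rw [Trans.ord_inv hA P X0]
      omega
  · rw [← (hmem c).2, e, (hmem c').2]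
  · have h1 : algebraMap k (RatFunc k) (c - c') ≠ 0 :=
      (map_ne_zero _).2 (sub_ne_zero.2 hc)
    have h2 := (Trans.ord_add hA (pl c) h1 (hne c) (by rw [hA.con, p1]; exact zero_lt_one)).2
    rw [hA.con, map_sub] at h2
    rw [← h2]
    congr 1
    ring
  · rw [hA.mem Q _ X0] at h
    omega
  · by_cases hc : c = 0
    · rw [hc, map_zero, sub_zero]
      omega
    · have h1 : algebraMap k (RatFunc k) (-c) ≠ 0 := (map_ne_zero _).2 (neg_ne_zero.2 hc)
      have h2 := (Trans.ord_add hA Q X0 h1 (by rw [hA.con]; omega)).2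
      rw [map_neg, ← sub_eq_add_neg] at h2
      omega

end Pool.Agent.MP_f3836a_nt.PK
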