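import Pool.Agent.MP_f3836a_nt.PK.SpecF
import Pool.Agent.MP_f3836a_nt.PK.CTanA

set_option autoImplicit false

/-! Tangent spaces of a planar configuration. -/

namespace Pool.Agent.MP_f3836a_nt.PK

open MvPolynomial IsLocalRing

universe u

namespace FBase

theorem one {O R : Type u} [CommRing O] [CommRing R] [IsPrincipalIdealRing R] (r : O →+* R)
    (hr : Function.Surjective r) (J : Ideal O) :
    ∃ t ∈ J, J ≤ Ideal.span {t} ⊔ RingHom.ker r ⊓ J := by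
  obtain ⟨u, hu⟩ := (IsPrincipalIdealRing.principal (J.map r)).principal
  obtain ⟨t, ht, rfl⟩ := (Ideal.mem_map_iff_of_surjective r hr).1
    (hu.ge (Ideal.mem_span_singleton_self u))
  refine ⟨t, ht, fun f hf => ?_⟩
  obtain ⟨c, hc⟩ := Ideal.mem_span_singleton'.1 (hu.le (Ideal.mem_map_of_mem r hf))
  obtain ⟨c, rfl⟩ := hr c
  rw [← add_sub_cancel (c * t) f]
  exact Submodule.add_mem_sup (Ideal.mem_span_singleton'.2 ⟨c, rfl⟩)
    ⟨by rw [SetLike.mem_coe, RingHom.mem_ker, map_sub, map_mul, hc, sub_self],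
      J.sub_mem hf (J.mul_mem_left c ht)⟩

theorem many {O ι : Type u} [CommRing O] (q : ι → Ideal O) (J : Ideal O) (s : Finset ι)
    (h : ∀ a ∈ s, ∀ J : Ideal O, ∃ t ∈ J, J ≤ Ideal.span {t} ⊔ q a ⊓ J) :
    ∃ t : Finset O, t.card ≤ s.card ∧ (∀ a ∈ t, a ∈ J) ∧
      J ≤ Ideal.span (t : Set O) ⊔ s.inf q ⊓ J := by
  classical
  induction s using Finset.induction_on with
  | empty => exact ⟨∅, le_rfl, by simp, by simp⟩
  | insert a s ha ih =>
    obtain ⟨t, h1, h2, h3⟩ := ih fun b hb => h b (Finset.mem_insert_of_mem hb)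
    obtain ⟨v, h4, h5⟩ := h a (Finset.mem_insert_self _ _) (s.inf q ⊓ J)
    refine ⟨insert v t, (Finset.card_insert_le _ _).trans ?_,
      Finset.forall_mem_insert _ _ _ |>.2 ⟨h4.2, h2⟩, h3.trans (sup_le ?_ (h5.trans ?_))⟩
    · rw [Finset.card_insert_of_notMem ha]
      omega
    · exact le_sup_of_le_left (Ideal.span_mono (by simp))
    · rw [Finset.inf_insert, inf_assoc]
      exact sup_le_sup_right (Ideal.span_mono (by simp)) _

variable {k : Type u} [Field k] {N : ℕ} {Z : Var k N} {ι : Type u} {Γ : ι → Var k N}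
  {𝒢 𝒜 : Finset (Pol k N)}

theorem sml (hT : RTanB.{u}) (hG : IsGens Z.ξ 𝒢) (hA : UGens Γ 𝒜) (hC : Conf Γ) (hP : Plan Γ)
    (hZ : ∀ a, (Γ a).Le Z) {i : Fin (N + 1)} {z : Fin (N + 1) → k} (hn : Nrm z i)
    (hz : OnV ((𝒢 : Set (Pol k N)) ∪ 𝒜) z) {r : ℕ} (s : Finset ι) (hs : ∀ a, a ∈ s ↔ (Γ a).On z)
    (hr : s.card ≤ r) : Sml r ((𝒢 : Set (Pol k N)) ∪ 𝒜) z i := by
  have := hC.fin
  obtain ⟨x, rfl, rfl⟩ := hG.pt hn fun G h => hz G (Or.inl h)
  have key : ∀ a, ∃ q : Ideal x.ctr.O, a ∈ s →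
      (∀ J : Ideal x.ctr.O, ∃ t ∈ J, J ≤ Ideal.span {t} ⊔ q ⊓ J) ∧
      ∀ A : Pol k N, Form A → x.ctr.lx A ∈ q → aeval (Γ a).ξ A = 0 := fun a => by
    by_cases ha : a ∈ s
    · obtain ⟨y, hy⟩ := (hs a).1 ha
      obtain ⟨ρ, hρ⟩ := exists_rst (hZ a) x.ctr y.ctr fun _ _ _ => by rw [Pt.mem_P, Pt.mem_P, hy]
      have := hP.sm a y
      refine ⟨RingHom.ker ρ.toRingHom, fun _ => ⟨one _ hρ.surj, fun A hA h => ?_⟩⟩
      rw [← Ctr.lx_eq_zero y.good hA, ← hρ.lx x.good hA]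
      exact h
    · exact ⟨⊥, fun h => (ha h).elim⟩
  choose q hq using key
  obtain ⟨t, h1, h2, h3⟩ := many q (maximalIdeal x.ctr.O) s fun a ha => (hq a ha).1
  refine (hT k Z.K N Z.ξ 𝒢 hG x r).2 𝒜 t (fun G h => ⟨(hA.form G h).1, hz G (Or.inr h)⟩)
    (h1.trans hr) h2 (h3.trans (sup_le_sup_left (fun f hf => ?_) _))
  obtain ⟨n, A, B, hA', hB, hBP, e⟩ := Ctr.exists_lx x.good f
  obtain ⟨U, u1, u2, u3⟩ := exists_sep Γ {a | a ∉ s} (Set.toFinite _) hn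
    fun a ha h => ha ((hs a).2 h)
  have h4 := Ideal.mem_map_of_mem (CTanA.Ph x) (hA.span (U * A) (u1.mul (Form.of hA')) fun a => by
    rw [map_mul]
    by_cases ha : a ∈ s
    · rw [(hq a ha).2 A (Form.of hA') (e ▸ Ideal.mul_mem_right _ _ (Finset.inf_le (f := q) ha hf.1)),
        mul_zero]
    · rw [u2 a ha, zero_mul])
  rw [Ideal.map_span, Set.image_congr fun G h => CTanA.Ph_form x (hA.form G h).1, map_mul,
    CTanA.Ph_form x u1, CTanA.Ph_form x (Form.of hA'), ← e,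
    Ideal.unit_mul_mem_iff_mem _ ((Ctr.lx_unit x.good u1).2 u3),
    Ideal.mul_unit_mem_iff_mem _ ((Ctr.lx_unit x.good (Form.of hB)).2 hBP)] at h4
  exact h4

theorem fin (hC : Conf Γ) : {z | ∃ a b, a ≠ b ∧ (Γ a).On z ∧ (Γ b).On z}.Finite := by
  have := hC.fin
  simp only [Set.ofPred_exists]
  refine Set.finite_iUnion fun a => Set.finite_iUnion fun b => ?_
  by_cases e : a = b
  · simp [e]
  have h : ¬ Sub k (Γ b).ξ (Γ a).ξ := fun h => e (hC.ne a b h)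
  unfold Sub at h
  push Not at h
  obtain ⟨n, G, h1, h2, h3⟩ := h
  refine (((hC.crv a).ca.zs G (Form.of h1) h3).image Pt.z).subset ?_
  rintro _ ⟨-, ⟨x, rfl⟩, y, hy⟩
  exact ⟨x, (hy ▸ y.van n G h1 h2 : eval x.z G = 0), rfl⟩

end FBase

theorem rBase : RTanB.{u} → RBase.{u} := by
  intro hT k _ N Z ι Γ 𝒢 𝒜 hG hA hC hP hZ
  classical
  have := hC.fin
  have hs : ∀ z a, a ∈ (Set.toFinite {a | (Γ a).On z}).toFinset ↔ (Γ a).On z := fun z a =>
    Set.Finite.mem_toFinset _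
  refine ⟨fun i z hn hz => FBase.sml hT hG hA hC hP hZ hn hz _ (hs z) (not_lt.1 fun h => ?_),
    (FBase.fin hC).toFinset, fun i z hn hz h0 => FBase.sml hT hG hA hC hP hZ hn hz _ (hs z)
      (Finset.card_le_one.2 fun a ha b hb => by_contra fun e => h0 ?_)⟩
  · obtain ⟨a, b, c, ha, hb, hc, h1, h2, h3⟩ := Finset.two_lt_card_iff.1 h
    rcases hP.two z a b c ((hs z a).1 ha) ((hs z b).1 hb) ((hs z c).1 hc) with e | e | e
    exacts [h1 e, h2 e, h3 e]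
  · exact (Set.Finite.mem_toFinset _).2 ⟨a, b, e, (hs z a).1 ha, (hs z b).1 hb⟩

end Pool.Agent.MP_f3836a_nt.PK
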