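import Pool.Agent.MP_f3836a_nt.PK.SpecF

set_option autoImplicit false

/-! Birationality from a reduced fibre. -/

namespace Pool.Agent.MP_f3836a_nt.PK

open MvPolynomial IsLocalRing

universe u

namespace FBir

variable {k R S : Type u} [Field k] [CommRing R] [Algebra k R] [CommRing S] [Algebra k S] {N : ℕ}

theorem top {σ : Type} (f : σ → Polynomial R) (hf : ∀ s, (f s).natDegree ≤ 1) {n : ℕ}
    {W : MvPolynomial σ k} (hW : W.IsHomogeneous n) :
    (aeval f W).natDegree ≤ n ∧ (aeval f W).coeff n = aeval (fun s => (f s).coeff 1) W := by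
  classical
  have key : ∀ (d : σ → ℕ) (T : Finset σ), (∏ s ∈ T, f s ^ d s).natDegree ≤ ∑ s ∈ T, d s ∧
      (∏ s ∈ T, f s ^ d s).coeff (∑ s ∈ T, d s) = ∏ s ∈ T, (f s).coeff 1 ^ d s := fun d T => by
    induction T using Finset.induction_on with
    | empty => simp
    | insert a T ha ih =>
      have h1 := Polynomial.natDegree_pow_le_of_le (d a) (hf a)
      have h2 := Polynomial.coeff_pow_of_natDegree_le (m := d a) (hf a)
      rw [mul_one] at h1 h2
      rw [Finset.prod_insert ha, Finset.sum_insert ha, Finset.prod_insert ha,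
        Polynomial.coeff_mul_add_eq_of_natDegree_le h1 ih.1, h2, ih.2]
      exact ⟨Polynomial.natDegree_mul_le_of_le h1 ih.1, rfl⟩
  rw [aeval_def, aeval_def, eval₂_eq, eval₂_eq, Polynomial.finsetSum_coeff]
  refine ⟨Polynomial.natDegree_sum_le_of_forall_le _ _ fun d hd => ?_,
    Finset.sum_congr rfl fun d hd => ?_⟩
  · rw [hW.degree_eq_sum_deg_support hd, Polynomial.algebraMap_apply]
    exact (Polynomial.natDegree_C_mul_le _ _).trans (key d _).1
  · rw [hW.degree_eq_sum_deg_support hd, Polynomial.algebraMap_apply, Polynomial.coeff_C_mul,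
      (key d _).2]

theorem der {n : ℕ} (f : Fin n → Polynomial k) (t : k) (W : MvPolynomial (Fin n) k) :
    (aeval f W).derivative.eval t =
      dEv (fun s => (f s).eval t) W fun s => (f s).derivative.eval t := by
  induction W using MvPolynomial.induction_on with
  | C a => simp [dEv]
  | add p q hp hq =>
    simp only [dEv, map_add, add_mul, Finset.sum_add_distrib, Polynomial.eval_add] at hp hq ⊢
    rw [hp, hq]
  | mul_X p j hp =>
    have e : (aeval f p).eval t = eval (fun s => (f s).eval t) p :=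
      comp_aeval_apply f (Polynomial.aeval t) p
    rw [map_mul, aeval_X, Polynomial.derivative_mul, Polynomial.eval_add, Polynomial.eval_mul,
      Polynomial.eval_mul, hp, e]
    simp only [dEv, Derivation.leibniz, smul_eq_mul, map_add, map_mul, eval_X, pderiv_X, add_mul,
      Finset.sum_add_distrib, Finset.sum_mul]
    symm
    rw [Finset.sum_eq_single j (fun b _ hb => by simp [hb.symm]) (by simp), add_comm]
    simp only [Pi.single_eq_same, map_one, mul_one, add_left_inj]
    exact Finset.sum_congr rfl fun _ _ => by ring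

/-- restriction of a form to a vertical line -/
noncomputable def P (u : Fin (N + 1) → R) (W : Pol k (N + 1 + N)) : Polynomial R :=
  aeval (seg (fun j => Polynomial.C (u j)) Polynomial.X) W

theorem P_map (ψ : Polynomial R →ₐ[k] S) (u : Fin (N + 1) → R) (W : Pol k (N + 1 + N)) :
    ψ (P u W) = aeval (seg (fun j => ψ (Polynomial.C (u j))) (ψ Polynomial.X)) W := by
  rw [P, comp_aeval_apply]
  congr 2
  exact app_ext (fun j => by simp only [seg_fl]) fun j => by simp only [seg_fr, map_mul]

theorem P_top (u : Fin (N + 1) → R) {n : ℕ} {W : Pol k (N + 1 + N)} (hW : W.IsHomogeneous n) :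
    (P u W).natDegree ≤ n ∧ (P u W).coeff n = aeval (app 0 u) W := by
  have := top (seg (fun j => Polynomial.C (u j)) Polynomial.X) (fun s => by
    rcases fl_or_fr s with ⟨j, rfl⟩ | ⟨j, rfl⟩
    · simp
    · rw [seg_fr, mul_comm]
      exact (Polynomial.natDegree_C_mul_le _ _).trans Polynomial.natDegree_X_le) hW
  refine ⟨this.1, this.2.trans ?_⟩
  congr 2
  exact app_ext (fun j => by simp) fun j => by simp

theorem P_eval (x : Fin (N + 1) → k) (W : Pol k (N + 1 + N)) (t : k) :
    (P x W).eval t = eval (seg x t) W := by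
  simpa [aeval_eq_eval] using P_map (Polynomial.aeval t) x W

theorem P_der (x : Fin (N + 1) → k) (W : Pol k (N + 1 + N)) (t : k) :
    (P x W).derivative.eval t = dEv (seg x t) W (app 0 x) := by
  rw [P, der]
  congr 1
  · exact app_ext (fun j => by simp) fun j => by
      rw [seg_fr, seg_fr, Polynomial.eval_mul, Polynomial.eval_X, Polynomial.eval_C]
  · exact app_ext (fun j => by simp) fun j => by simp

open Polynomial in
theorem bez [IsAlgClosed k] {f f' : k[X]} {t : k} (h : f.eval t = 0) (h' : f'.eval t = 0)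
    (hd : f.derivative.eval t ≠ 0) (ho : ∀ a, a ≠ t → f.eval a = 0 → f'.eval a ≠ 0) :
    ∃ A B : k[X], A * f + B * f' = Polynomial.X - Polynomial.C t := by
  obtain ⟨p, rfl⟩ := dvd_iff_isRoot.2 h
  obtain ⟨p', rfl⟩ := dvd_iff_isRoot.2 h'
  obtain ⟨A, B, e⟩ := (isCoprime_iff_aeval_ne_zero_of_isAlgClosed k k p p').2 fun a => by
    rw [Polynomial.coe_aeval_eq_eval, or_iff_not_imp_left, not_not]
    intro h1 h2
    by_cases e : a = t
    · exact hd (by simpa [← e] using h1)
    · exact ho a e (by rw [Polynomial.eval_mul, h1, mul_zero])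
        (by rw [Polynomial.eval_mul, h2, mul_zero])
  exact ⟨A, B, by linear_combination (Polynomial.X - Polynomial.C t) * e⟩

open Polynomial in
theorem nak {O L : Type u} [CommRing O] [IsLocalRing O] [CommRing L] [Algebra O L] (ev : O →+* k)
    (hev : ∀ f, ev f = 0 → f ∈ maximalIdeal O) {g : L} (hg : IsIntegral O g) {H : O[X]} {t : O}
    (h0 : Polynomial.aeval g H = 0) (h1 : H.map ev = (Polynomial.X - Polynomial.C t).map ev) :
    ∃ a, algebraMap O L a = g := by
  have key : ∀ E : O[X], E.map ev = 0 → Polynomial.aeval g E ∈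
      maximalIdeal O • (Algebra.adjoin O {g}).toSubmodule := fun E hE => by
    rw [aeval_eq_sum_range]
    refine Submodule.sum_mem _ fun i _ => Submodule.smul_mem_smul (hev _ ?_)
      (pow_mem (Algebra.self_mem_adjoin_singleton O g) i)
    rw [← Polynomial.coeff_map, hE, Polynomial.coeff_zero]
  refine Submodule.mem_one.1 (Submodule.le_of_le_smul_of_le_jacobson_bot hg.fg_adjoin_singleton
    (maximalIdeal_le_jacobson _) (fun z hz => ?_) (Algebra.self_mem_adjoin_singleton O g))
  rw [Subalgebra.mem_toSubmodule, Algebra.adjoin_singleton_eq_range_aeval] at hz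
  obtain ⟨p, rfl⟩ := hz
  obtain ⟨q, hq⟩ := X_sub_C_dvd_sub_C_eval (p := p) (a := t)
  refine Submodule.mem_sup.2 ⟨_, Submodule.mem_one.2 ⟨p.eval t, rfl⟩, _,
    key ((Polynomial.X - Polynomial.C t - H) * q)
      (by rw [Polynomial.map_mul, Polynomial.map_sub, h1, sub_self, zero_mul]), ?_⟩
  rw [sub_mul, ← hq, map_sub, map_sub, map_mul, h0, Polynomial.aeval_C]
  simp

end FBir

open FBir in
theorem rBir : RBir.{u} := by
  intro k _ _ N x W hW h0
  have a0 : (P x W).coeff W.totalDegree ≠ 0 := by rwa [(P_top x hW).2, aeval_eq_eval]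
  refine ⟨(Polynomial.finite_setOfPred_isRoot (p := P x W) fun e => a0 (by simp [e])).subset
    fun t ht => (P_eval x W t).trans ht, ?_⟩
  intro L _ _ w g t y W' hg hy hW' h1 h2 h3 h4
  have hn : ∃ i, x i = 1 ∧ ∀ j < i, x j = 0 := by
    obtain ⟨s, s1, s2⟩ := y.norm
    rw [hy] at s1 s2
    rcases fl_or_fr s with ⟨i, rfl⟩ | ⟨i, rfl⟩
    · exact ⟨i, by simpa using s1, fun j hj => by simpa using s2 _ (fl_lt_fl.2 hj)⟩
    · have := s2 _ (fl_lt_fr i i)
      rw [seg_fl] at this
      simp [this] at s1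
  let x0 : Pt k w := ⟨x, hn, fun n G hG e => by
    have := y.van n (rename fl G) hG.rename_isHomogeneous (by
      rw [aeval_fl]
      simpa only [seg_fl] using e)
    rw [hy, ← aeval_eq_eval, aeval_fl, aeval_eq_eval] at this
    simpa only [seg_fl] using this⟩
  obtain ⟨ev, e1, e2⟩ := x0.exists_ev
  have hi := Ctr.xi_ne x0.good
  let v : Fin (N + 1) → x0.ctr.O := fun j => x0.ctr.lx (X j)
  have v1 : ∀ j, algebraMap _ L (v j) = w j / w x0.ctr.idx := fun j =>
    (Ctr.coe_lx x0.good (Form.of (isHomogeneous_X k j))).trans (x0.ctr.lo_X j)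
  have v2 : ∀ j, ev (v j) = x j := fun j => (e1 _ (Form.of (isHomogeneous_X k j))).trans (eval_X j)
  have b1 : ∀ G : Pol k (N + 1 + N), Form G → aeval (seg w g) G = 0 →
      Polynomial.aeval g (P v G) = 0 := fun G hG e => by
    have e3 := P_map ((Polynomial.aeval g : Polynomial x0.ctr.O →ₐ[x0.ctr.O] L).restrictScalars k)
      v G
    have e4 := CTanA.aeval_div (ξ := seg w g) hG (w x0.ctr.idx)
    rw [e, zero_div] at e4
    refine e3.trans (Eq.trans ?_ e4)
    congr 2
    exact app_ext (fun j => by simp [v1]) fun j => by simp [v1, mul_div_assoc]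
  have b2 : ∀ G : Pol k (N + 1 + N), (P v G).map (ev : x0.ctr.O →+* k) = P x G := fun G => by
    refine (P_map (Polynomial.mapAlgHom ev) v G).trans ?_
    simp [P, v2]
  obtain ⟨A, B, e⟩ := bez (f := P x W) (f' := P x W') (t := t)
    (by rw [P_eval, ← hy]; exact y.van _ W hW h1) (by rw [P_eval, ← hy]; exact y.van _ W' hW' h2)
    (by rwa [P_der]) fun a ha => by rw [P_eval, P_eval]; exact h4 a ha
  have b3 : IsIntegral x0.ctr.O g := by
    rw [← b2, Polynomial.coeff_map] at a0
    obtain ⟨c, hc⟩ := (notMem_maximalIdeal.1 fun h => a0 ((e2 _).2 h)).exists_left_inv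
    refine ⟨Polynomial.C c * P v W, Polynomial.monic_of_natDegree_le_of_coeff_eq_one _
      ((Polynomial.natDegree_C_mul_le _ _).trans (P_top v hW).1)
      (by rw [Polynomial.coeff_C_mul, hc]), ?_⟩
    rw [← Polynomial.aeval_def, map_mul, b1 W hW h1, mul_zero]
  have b4 : ∀ A : Polynomial k, (A.map (algebraMap k x0.ctr.O)).map (ev : x0.ctr.O →+* k) = A :=
    fun A => by rw [Polynomial.map_map, ev.comp_algebraMap, Algebra.algebraMap_self, Polynomial.map_id]
  obtain ⟨a, ha⟩ := nak (ev : x0.ctr.O →+* k) (fun f => (e2 f).1) b3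
    (H := A.map (algebraMap k _) * P v W + B.map (algebraMap k _) * P v W') (t := algebraMap k _ t)
    (by rw [map_add, map_mul, map_mul, b1 W hW h1, b1 W' hW' h2, mul_zero, mul_zero, add_zero])
    (by
      rw [Polynomial.map_add, Polynomial.map_mul, Polynomial.map_mul, b2, b2, b4, b4, e]
      simp)
  have b5 : g ∈ ESurf.Rat k w := by
    obtain ⟨n, A, B, hA, hB, hP, e⟩ := a.2
    exact ⟨n, A, B, hA, hB, x0.ctr.aeval_ne hB hP, ha ▸ e⟩
  rw [genBy_iff] at hg ⊢
  rw [eq_top_iff, ← hg]
  refine rat_le (i := fl x0.ctr.idx) (by rwa [seg_fl]) _ const_mem_rat fun s => ?_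
  rcases fl_or_fr s with ⟨j, rfl⟩ | ⟨j, rfl⟩
  · rw [seg_fl, seg_fl]
    exact div_mem_rat _ _
  · rw [seg_fl, seg_fr, mul_div_assoc]
    exact mul_mem b5 (div_mem_rat _ _)

end Pool.Agent.MP_f3836a_nt.PK
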