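import Pool.Agent.MP_f3836a_nt.PK.SpecF
import Pool.Agent.MP_f3836a_nt.PK.BCnt
import Pool.Agent.MP_f3836a_nt.PK.BGenS
import Pool.Agent.MP_f3836a_nt.PK.BGen1
import Pool.Agent.MP_f3836a_nt.PK.BExS

set_option autoImplicit false

/-! Bertini for linear systems with base curves. -/

namespace Pool.Agent.MP_f3836a_nt.PK

open MvPolynomial IntermediateField

universe u

namespace FCnt

open BGenS

variable {k : Type u} [Field k] {N m : ℕ}

theorem alg_up {L Ω : Type u} [Field L] [Field Ω] [Algebra k L] [Algebra k Ω] (f : L →ₐ[k] Ω)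
    {y x : L} (h : IsAlgebraic (Algebra.adjoin k {y}) x) :
    IsAlgebraic (Algebra.adjoin k {f y}) (f x) := by
  have hm : ∀ a : Algebra.adjoin k {y}, f a ∈ Algebra.adjoin k {f y} := fun a => by
    rw [← Set.image_singleton, ← AlgHom.map_adjoin]
    exact ⟨a, a.2, rfl⟩
  exact h.ringHom_of_comp_eq
    ((f.comp (Algebra.adjoin k {y}).val).codRestrict (Algebra.adjoin k {f y}) hm) f
    (fun a b e => Subtype.ext (f.injective (congrArg Subtype.val e))) rfl

theorem third (𝒢 : Finset (Pol k N)) (B : Fin m → Pol k N) (Ω : Type u) [Field Ω] [Algebra k Ω]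
    (a : Fin m → Ω) (ha : AlgebraicIndependent k a) (L : IntermediateField k Ω)
    (i l : Fin (N + 1)) (z : Fin (N + 1) → L) (τ : Fin 2 → Fin (N + 1) → L)
    (al : ∀ x ∈ L, IsAlgebraic (Algebra.adjoin k {algebraMap L Ω (z l)}) x)
    (h1 : ∀ τ, Tan (ext Ω 𝒢) (fun j => algebraMap L Ω (z j)) i τ →
      dEv (fun j => algebraMap L Ω (z j)) (cmb Ω B a) τ = 0)
    (ht : ∀ r, Tan (ext L 𝒢) z i (τ r))
    (on : ∀ c₁ c₂ : L, ∃ b : Fin m → L,
      dEv z (cmb L B b) (τ 0) = c₁ ∧ dEv z (cmb L B b) (τ 1) = c₂) : False := by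
  have := rLin k Ω {algebraMap L Ω (z l)} L (by rwa [Finset.coe_singleton]) m 2 a
    (fun r j => algebraMap L Ω (dEv z (map (algebraMap k L) (B j)) (τ r))) ha
    (fun r j => Subtype.prop _) (fun w hw => ?_) fun r => ?_
  · simp at this
  · obtain ⟨b, b1, b2⟩ := on ⟨w 0, hw 0⟩ ⟨w 1, hw 1⟩
    refine ⟨fun j => algebraMap L Ω (b j), fun j => (b j).2, fun r => ?_⟩
    simp only [← map_mul, ← map_sum]
    rw [← dEv_cmb]
    revert r
    exact Fin.forall_fin_two.2 ⟨by rw [b1]; rfl, by rw [b2]; rfl⟩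
  · rw [← h1 (fun j => algebraMap L Ω (τ r j)) ⟨by simp only [(ht r).1, map_zero], ?_⟩, dEv_cmb]
    · exact Finset.sum_congr rfl fun j _ => by rw [map_tow L Ω (B j), dEv_mp]
    · rintro _ ⟨G, hG, rfl⟩
      rw [map_tow L Ω, dEv_mp, (ht r).2 _ ⟨G, hG, rfl⟩, map_zero]

theorem gen {𝒢 : Finset (Pol k N)} {B : Fin m → Pol k N} (hJ : JetGen2 𝒢 B) (Ω : Type u) [Field Ω]
    [Algebra k Ω] (a : Fin m → Ω) (ha : AlgebraicIndependent k a) :
    ¬ Sing (ext Ω 𝒢) (cmb Ω B a) := by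
  rintro ⟨i, z, hn, hV, h0, h1⟩
  let L := adjoin k (Set.range z)
  let z' : Fin (N + 1) → L := fun j => ⟨z j, subset_adjoin k _ (Set.mem_range_self j)⟩
  have hV' : OnV (ext L 𝒢) z' := by
    rintro _ ⟨G, hG, rfl⟩
    apply (algebraMap L Ω).injective
    rw [← eval_mp, ← map_tow, map_zero]
    exact hV _ ⟨G, hG, rfl⟩
  rcases hJ L i z' ⟨Subtype.ext hn.1, fun j hj => Subtype.ext (hn.2 j hj)⟩ hV' with
    h | ⟨w, hw, j, hj⟩ | ⟨l, τ₁, τ₂, al, t1, t2, on⟩
  · exact main 𝒢 B Ω a ha L i z' le_rfl (Subtype.ext hn.1) hV' h0 h1 h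
  · obtain rfl : z = fun j => algebraMap k Ω (w j) :=
      funext fun j => congrArg Subtype.val (congrFun hw j)
    rcases hj with hj | ⟨τ, hτ, hj⟩
    · rw [eval_cmb] at h0
      simp only [eval_mp] at h0
      exact hj (lin0 ha _ h0 j)
    · have h2 := h1 (fun j => algebraMap k Ω (τ j)) ⟨by simp only [hτ.1, map_zero], by
        rintro _ ⟨G, hG, rfl⟩
        rw [dEv_mp, hτ.2 G hG, map_zero]⟩
      rw [dEv_cmb] at h2
      simp only [dEv_mp] at h2
      exact hj (lin0 ha _ h2 j)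
  · refine third 𝒢 B Ω a ha L i l z' ![τ₁, τ₂] (BGen1.alg_adjoin ?_) h1
      (Fin.forall_fin_two.2 ⟨t1, t2⟩) on
    rintro _ ⟨j, rfl⟩
    exact alg_up (IsScalarTower.toAlgHom k L Ω) (y := z' l) (x := z' j) (al j)

end FCnt

open BCnt in
theorem rCntS2 : RCntS2.{u} := by
  intro k _ N n m 𝒢 B hB hJ
  obtain ⟨c, hc⟩ := rExC k _ _ (rExS k N n 𝒢)
  refine ⟨c, fun S => ?_⟩
  have h := hc m (lin B id) (lin_deg B id) (fun Ω _ _ a ha => by
    rw [frm_lin hB]
    exact FCnt.gen hJ Ω a ha) S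
  simpa only [frm_lin hB, cmb_self, ext_self, id, not_not, Fintype.card_fin] using h

end Pool.Agent.MP_f3836a_nt.PK
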