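import Pool.Agent.MP_f3836a_nt.PK.SpecF
import Pool.Agent.MP_f3836a_nt.PK.BGenA
import Pool.Agent.MP_f3836a_nt.PK.CCvA
import Pool.Agent.MP_f3836a_nt.PK.CExA

set_option autoImplicit false

/-! The theorem of Bertini through a planar configuration of curves. -/

namespace Pool.Agent.MP_f3836a_nt.PK

open MvPolynomial IsLocalRing

universe u

namespace FCut

variable {k K : Type u} [Field k] [Field K] [Algebra k K] {N : ℕ} {ξ : Fin (N + 1) → K}
  {𝒢 : Finset (Pol k N)}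

theorem sm_of (hG : IsGens ξ 𝒢) (x₀ : Pt k ξ) {n : ℕ} (hn : 1 ≤ n)
    {h : Pol k N} (hh : h.IsHomogeneous n) (hs : ¬Sing (𝒢 : Set (Pol k N)) h) : Sm ξ h := by
  have h1 : ∀ x : Pt k ξ, ¬x.Sq h := fun x hx => by
    rw [Pt.Sq, ← CTanA.Ph_form x (Form.of hh)] at hx
    exact hs ⟨_, _, (hG.onV x).1, (hG.onV x).2,
      (CTanA.of_Jt x hG (CTanA.tan_zero _ _ _) (CTanA.sq_le x 0 hx)).1,
      fun τ hτ => (CTanA.of_Jt x hG hτ (CTanA.sq_le x τ hx)).2⟩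
  have h2 : aeval ξ h ≠ 0 := fun e => h1 x₀ (by
    have : x₀.ctr.lx h = 0 := (Ctr.lx_eq_zero x₀.good (Form.of hh)).2 e
    rw [Pt.Sq, this]
    exact zero_mem _)
  refine ⟨Form.of hh, ?_, h2, h1⟩
  rwa [hh.totalDegree fun e => h2 (by rw [e, map_zero])]

/-- forms of degree `n` through the curves -/
def Thru {ι : Type u} (Γ : ι → Var k N) (n : ℕ) : Submodule k (Pol k N) where
  carrier := {H | H.IsHomogeneous n ∧ ∀ a, aeval (Γ a).ξ H = 0}
  zero_mem' := ⟨isHomogeneous_zero _ _ _, fun _ => map_zero _⟩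
  add_mem' := fun h h' => ⟨h.1.add h'.1, fun a => by rw [map_add, h.2 a, h'.2 a, add_zero]⟩
  smul_mem' := fun c H h => ⟨by rw [smul_eq_C_mul]; exact h.1.C_mul c,
    fun a => by rw [map_smul, h.2 a, smul_zero]⟩

theorem gens {ι : Type u} (Γ : ι → Var k N) (n : ℕ) :
    ∃ (m : ℕ) (B : Fin m → Pol k N), Submodule.span k (Set.range B) = Thru Γ n := by
  have := FiniteDimensional.span_of_finite k
    (Set.finite_range (CExA.mon : Mon N n → Pol k N))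
  have : FiniteDimensional k (Thru Γ n) :=
    Submodule.finiteDimensional_of_le fun M hM => CExA.mem_span hM.1
  exact Submodule.fg_iff_exists_fin_generating_family.1
    ((Submodule.fg_iff_finiteDimensional _).2 this)

theorem mul_thru {ι : Type u} {Γ : ι → Var k N} {n : ℕ} {A M : Pol k N} (hA : Form A)
    (h0 : ∀ a, aeval (Γ a).ξ A = 0) (hn : A.totalDegree < n)
    (hM : M.IsHomogeneous (n - A.totalDegree)) : A * M ∈ Thru Γ n := by
  refine ⟨?_, fun a => by rw [map_mul, h0 a, zero_mul]⟩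
  have := IsHomogeneous.mul hA hM
  rwa [Nat.add_sub_cancel' hn.le] at this

theorem sat_pow {J : Ideal (Pol k N)} {i : Fin (N + 1)} (h : ∀ G : Pol k N, X i * G ∈ J → G ∈ J)
    (G : Pol k N) (e : ℕ) (hG : G * X i ^ e ∈ J) : G ∈ J := by
  induction e with
  | zero => simpa using hG
  | succ e ih => exact ih (h _ (by rwa [pow_succ, ← mul_assoc, mul_comm] at hG))

end FCut

open FCut in
theorem rCut : RTanB.{u} → RBase.{u} → RJetG2.{u} → RCntS2.{u} → RCut.{u} := by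
  intro hT hB hJ hC k _ _ N d Z ι Γ E hd hZ hc hp hle ⟨a₀⟩ hE
  obtain ⟨𝒢, hG⟩ := rGens k Z.K N Z.ξ
  obtain ⟨𝒜, hA⟩ := exists_ugens Γ
  have hg := rGenA k
  choose! G hG1 hG2 hG3 using fun J hJ => (hE.2 J hJ).2
  obtain ⟨n₁, hn₁⟩ := (𝒜.finite_toSet.image totalDegree).bddAbove
  obtain ⟨n₂, hn₂⟩ := (hE.1.image fun J => (G J).totalDegree).bddAbove
  obtain ⟨m, B, hW⟩ := gens Γ (n₁ + n₂ + 1)
  have h1 : ∀ j, B j ∈ Thru Γ (n₁ + n₂ + 1) := fun j => hW ▸ Submodule.subset_span ⟨j, rfl⟩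
  have dA : ∀ A ∈ 𝒜, A.totalDegree < n₁ + n₂ + 1 := fun A hA' => by
    have : A.totalDegree ≤ n₁ := hn₁ ⟨A, hA', rfl⟩
    omega
  obtain ⟨b1, b2⟩ := hB k N Z ι Γ 𝒢 𝒜 hG hA hc hp hle
  have g1 := hC k N _ m 𝒢 B (fun j => (h1 j).1) (hJ k N (n₁ + n₂ + 1) m 𝒢 𝒜 B
    (fun A hA' => ⟨(hA.form A hA').1, dA A hA'⟩)
    (fun A hA' M hM => hW ▸ mul_thru (hA.form A hA').1 (hA.form A hA').2 (dA A hA') hM)
    (fun i z hn hz hs => by
      obtain ⟨x, rfl, rfl⟩ := hG.pt hn hz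
      have h2 := (hT k Z.K N Z.ξ 𝒢 hG x 2).1 hs
      rw [(hZ x).2] at h2
      have h3 : d ≤ 2 := by exact_mod_cast h2
      omega) b1 b2)
  have g2 := hg.all (Fin m) _ E (fun J a => ∑ j, a j • B j ∉ J.restrictScalars k) hE.1
    fun J hJ' => hg.sub _ _ B _ (by
      by_contra hn
      obtain ⟨i, hi⟩ := (hE.2 J hJ').1
      have h2 : Thru Γ (n₁ + n₂ + 1) ≤ J.restrictScalars k := by
        rw [← hW, Submodule.span_le]
        rintro _ ⟨j, rfl⟩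
        exact by_contra fun h => hn ⟨j, h⟩
      have h3 : (G J).totalDegree ≤ n₂ := hn₂ ⟨J, hJ', rfl⟩
      exact hG3 J hJ' (sat_pow hi _ _ (h2 (mul_thru (hG1 J hJ') (hG2 J hJ') (by omega)
        (isHomogeneous_X_pow i _)))))
  obtain ⟨a, a1, a2⟩ := hg.ex _ _ (hg.and _ _ _ g1 g2)
  have e : ∑ j, C (a j) * B j = ∑ j, a j • B j := by simp only [smul_eq_C_mul]
  have h4 : ∑ j, C (a j) * B j ∈ Thru Γ (n₁ + n₂ + 1) :=
    e ▸ Submodule.sum_mem _ fun j _ => Submodule.smul_mem _ _ (h1 j)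
  have := (hc.crv a₀).ca.inf
  obtain ⟨y⟩ : Nonempty (Pt k (Γ a₀).ξ) := inferInstance
  obtain ⟨x, -⟩ := (hle a₀).on ⟨y, rfl⟩
  exact ⟨_, sm_of hG x (by omega) h4.1 a1, h4.2, fun J hJ' => e ▸ a2 J hJ'⟩

end Pool.Agent.MP_f3836a_nt.PK
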