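import Pool.Agent.MP_f3836a_nt.PK.SpecF

set_option autoImplicit false

/-! Row FDiv: the components of a smooth form on a nonsingular variety. -/

namespace Pool.Agent.MP_f3836a_nt.PK

open MvPolynomial IsLocalRing

universe u

namespace FDiv

variable {k K L : Type u} [Field k] [Field K] [Algebra k K] [Field L] [Algebra k L] {N : ℕ}
  {ξ : Fin (N + 1) → K} {η : Fin (N + 1) → L}

theorem hp (x : Pt k ξ) {y : x.ctr.O} (hy : Prime y) :
    ∃ c : Hp k ξ, ∀ (n : ℕ) (A : Pol k N), A.IsHomogeneous n → (A ∈ c.P ↔ y ∣ x.ctr.lx A) := by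
  have h1 : (Ideal.span {y}).IsPrime := (Ideal.span_singleton_prime hy.ne_zero).2 hy
  have h2 : ∀ A : Pol k N, Form A →
      (aeval (fun j => Ideal.Quotient.mkₐ k (Ideal.span {y}) (x.ctr.lx (X j))) A = 0 ↔
        y ∣ x.ctr.lx A) := fun A hA => by
    rw [← comp_aeval, AlgHom.comp_apply, Ctr.aeval_lx x.good hA, Ideal.Quotient.mkₐ_eq_mk,
      Ideal.Quotient.eq_zero_iff_mem, Ideal.mem_span_singleton]
  obtain ⟨c, hc⟩ := exists_hp (ξ := ξ)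
    (fun j => Ideal.Quotient.mkₐ k (Ideal.span {y}) (x.ctr.lx (X j)))
    (fun n G hG e => by
      rw [h2 G (Form.of hG), (Ctr.lx_eq_zero x.good (Form.of hG)).2 e]
      exact dvd_zero _)
    ⟨x.ctr.idx, fun e => by
      have h3 := (h2 (X x.ctr.idx) (Form.of (isHomogeneous_X k _))).1 (by rwa [aeval_X])
      exact hy.not_unit (isUnit_of_dvd_unit h3
        ((Ctr.lx_unit x.good (Form.of (isHomogeneous_X k _))).2 (Ctr.idx_spec x.good).1))⟩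
  exact ⟨c, fun n A hA => (hc n A hA).trans (h2 A (Form.of hA))⟩

theorem van (h : Sub k ξ η) (v : Pt k η) {W A : Pol k N} (hW : Form W) (hA : Form A)
    (e : aeval η W = 0) (d : (h.pt v).ctr.lx W ∣ (h.pt v).ctr.lx A) : aeval η A = 0 := by
  obtain ⟨r, hr⟩ := h.rst v
  have h1 := map_dvd r d
  rw [hr.lx (h.pt v).good hW, hr.lx (h.pt v).good hA, (Ctr.lx_eq_zero v.good hW).2 e,
    zero_dvd_iff] at h1
  exact (Ctr.lx_eq_zero v.good hA).1 h1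

theorem on (x : Pt k ξ) {W A : Pol k N} (hW : Form W) (hA : Form A) (e : eval x.z W = 0)
    (d : x.ctr.lx W ∣ x.ctr.lx A) : eval x.z A = 0 :=
  (x.lx_mem_max hA).1 (Ideal.mem_of_dvd _ d ((x.lx_mem_max hW).2 e))

theorem key (x : Pt k ξ) {W : Pol k N} (hW : Form W) (e : eval x.z W = 0) (c : Hp k ξ)
    (hc : ∀ (n : ℕ) (A : Pol k N), A.IsHomogeneous n → (A ∈ c.P ↔ x.ctr.lx W ∣ x.ctr.lx A))
    (v : Pt k c.eta) (hv : Prime ((c.sub_eta.pt v).ctr.lx W)) {n : ℕ} {A : Pol k N}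
    (hA : A.IsHomogeneous n) :
    aeval c.eta A = 0 ↔ (c.sub_eta.pt v).ctr.lx W ∣ (c.sub_eta.pt v).ctr.lx A := by
  have e0 : aeval c.eta W = 0 := (c.eta_zero hW).2 ((hc _ W hW).2 dvd_rfl)
  refine ⟨fun h => ?_, van c.sub_eta v hW (Form.of hA) e0⟩
  obtain ⟨c', hc'⟩ := hp (c.sub_eta.pt v) hv
  have h1 : c'.P ≤ x.ctr.P := c'.le_of fun m B hB hP =>
    on x hW (Form.of hB) e ((hc m B hB).1 ((c.eta_zero hB).1
      (van c.sub_eta v hW (Form.of hB) e0 ((hc' m B hB).1 hP))))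
  rw [← hc' n A hA, ← EYA.q_lx h1 x.good hA]
  exact Ideal.mem_of_dvd _ ((hc n A hA).1 ((c.eta_zero hA).1 h))
    ((EYA.q_lx h1 x.good hW).2 ((hc' _ W hW).2 dvd_rfl))

theorem quo (h : Sub k ξ η) (v : Pt k η) {y : (h.pt v).ctr.O}
    (hy : ∀ (n : ℕ) (A : Pol k N), A.IsHomogeneous n → (aeval η A = 0 ↔ y ∣ (h.pt v).ctr.lx A)) :
    Nonempty (((h.pt v).ctr.O ⧸ Ideal.span {y}) ≃+* v.ctr.O) := by
  obtain ⟨r, hr⟩ := h.rst v
  have h1 : Ideal.span {y} = RingHom.ker r.toRingHom := Ideal.ext fun f => by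
    obtain ⟨n, A, B, hA, hB, hP, e⟩ := Ctr.exists_lx (h.pt v).good f
    have hu := (Ctr.lx_unit (h.pt v).good (Form.of hB)).2 hP
    rw [Ideal.mem_span_singleton, ← hu.dvd_mul_right, e, ← hy n A hA,
      ← Ctr.lx_eq_zero v.good (Form.of hA), ← hr.lx (h.pt v).good (Form.of hA), ← e, map_mul,
      (hu.map r).mul_left_eq_zero]
    rfl
  exact ⟨(Ideal.quotEquivOfEq h1).trans (RingHom.quotientKerEquivOfSurjective hr.surj)⟩

end FDiv

theorem rDiv : RRegQ.{u} → RDiv.{u} := by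
  intro hQ k _ N e Z W hZ hW x hx
  have hq : ∀ x : Pt k Z.ξ, eval x.z W = 0 →
      IsRegularLocalRing (x.ctr.O ⧸ Ideal.span {x.ctr.lx W}) ∧
        ringKrullDim (x.ctr.O ⧸ Ideal.span {x.ctr.lx W}) = e ∧ Prime (x.ctr.lx W) := fun x hx => by
    have := (hZ x).1
    exact hQ _ e (hZ x).2 _ ((x.lx_mem_max hW.1).2 hx) (hW.2.2.2 x)
  obtain ⟨c, hc⟩ := FDiv.hp x (hq x hx).2.2
  have e0 : aeval c.eta W = 0 := (c.eta_zero hW.1).2 ((hc _ W hW.1).2 dvd_rfl)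
  have hv : ∀ v : Pt k c.eta, eval (c.sub_eta.pt v).z W = 0 := fun v => v.van _ W hW.1 e0
  refine ⟨c.var, fun v => ?_, c.sub_eta, e0, ⟨⟨x.z, x.norm, fun n G hG h => ?_⟩, rfl⟩, ?_⟩
  · obtain ⟨h1, h2, h3⟩ := hq _ (hv v)
    obtain ⟨φ⟩ := FDiv.quo c.sub_eta v fun n A hA => FDiv.key x hW.1 hx c hc v h3 hA
    exact ⟨IsRegularLocalRing.of_ringEquiv φ, (ringKrullDim_eq_of_ringEquiv φ).symm.trans h2⟩
  · exact FDiv.on x hW.1 (Form.of hG) hx ((hc n G hG).1 ((c.eta_zero hG).1 h))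
  · rintro V hV h0 ⟨z, ⟨v, rfl⟩, v', e'⟩ n A hA h
    have h1 : c.sub_eta.pt v' = Sub.pt hV v := Pt.ext e'
    have h2 := (FDiv.key x hW.1 hx c hc v' (hq _ (hv v')).2.2 hA).1 h
    rw [h1] at h2
    exact FDiv.van hV v hW.1 (Form.of hA) h0 h2

end Pool.Agent.MP_f3836a_nt.PK
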