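import Pool.Agent.MP_f3836a_nt.PK.SpecF
import Pool.Agent.MP_f3836a_nt.PK.BExS

set_option autoImplicit false

/-! Small tangent spaces under extension of the ground field. -/

namespace Pool.Agent.MP_f3836a_nt.PK

open MvPolynomial BExS

universe u

namespace FExN

variable {k : Type u} [Field k] {σ : Type} {N : ℕ} {𝒮 : Se k σ N} {z : Ve k σ (Fin (N + 1))}

theorem sX (hS : IsS k 𝒮) (J : Finset (Fin (N + 1))) :
    IsS k fun Ω _ _ a => 𝒮 Ω a ∪ X '' (J : Set (Fin (N + 1))) := by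
  induction J using Finset.induction_on with
  | empty => simpa using hS
  | insert j J _ ih => simpa [Set.image_insert_eq] using ih.ins (hX j)

theorem eSml (hS : IsS k 𝒮) (hz : IsV k z) (r : ℕ) (i : Fin (N + 1)) :
    IsEx k σ fun Ω _ _ a => Sml r (𝒮 Ω a) (z Ω a) i := by
  refine ExL.exCongr (eAny fun J : {J : Finset (Fin (N + 1)) // J.card ≤ r} => eAll fun l =>
    eKer ((sX hS J.1).ins (hX i)) (hX l) hz) fun Ω _ _ a => ?_
  simp only [Set.forall_mem_insert, Set.mem_union, or_imp, forall_and, Set.forall_mem_image,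
    dEv_X, Sml, Tan, Subtype.exists, exists_prop, and_imp, funext_iff, Pi.zero_apply]
  exact exists_congr fun J => and_congr_right' ⟨fun h τ a b c l => h l τ a b c,
    fun h l τ a b c => h τ a b c l⟩

theorem eNSml (hS : IsS k 𝒮) (hz : IsV k z) (r : ℕ) (i : Fin (N + 1)) :
    IsEx k σ fun Ω _ _ a => ¬ Sml r (𝒮 Ω a) (z Ω a) i := by
  have hτ : IsV k (σ := σ ⊕ Fin (N + 1)) fun _ _ _ b t => b (Sum.inr t) := fun _ => pVar _
  refine ExL.exCongr (eAll fun J : {J : Finset (Fin (N + 1)) // J.card ≤ r} =>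
    eEx (q := fun Ω _ _ a τ => Tan (𝒮 Ω a) (z Ω a) i τ ∧ (∀ j ∈ J.1, τ j = 0) ∧ τ ≠ fun _ => 0) <|
      ExL.exAnd (eTan hS.lift hz.lift hτ i) <|
        ExL.exAnd (ExL.exAllS J.1 _ fun j _ => eEq (hτ j) pZero) (eVne hτ fun _ => pZero))
    fun Ω _ _ a => ?_
  unfold Sml
  push Not
  exact Subtype.forall

end FExN

open FExN in
theorem rExN2 : RExN2.{u} := by
  intro k _ _ N r 𝒮 Ω _ _
  have hz : IsV k (σ := Empty ⊕ Fin (N + 1)) fun _ _ _ b t => b (Sum.inr t) := fun _ => pVar _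
  refine ⟨fun h i z h1 h2 h3 => ?_, fun Z h i z h1 h2 => ?_⟩
  · have hE : IsEx k Empty fun Ω _ _ _ => ∃ i z, Nrm z i ∧ OnV (ext Ω 𝒮) z ∧
        Sml r (ext Ω 𝒮) z i :=
      eAny fun i => eEx (q := fun Ω _ _ _ z => Nrm z i ∧ OnV (ext Ω 𝒮) z ∧ Sml r (ext Ω 𝒮) z i) <|
        ExL.exAnd (eNrm hz i) <| ExL.exAnd (eOnV (sExt 𝒮) hz) (eSml (sExt 𝒮) hz r i)
    obtain ⟨i', z', h4, h5, h6⟩ := rExD k Empty _ hE Ω Empty.elim ⟨i, z, h1, h2, h3⟩
    rw [ext_self] at h5 h6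
    exact h i' z' h4 h5 h6
  · by_contra hn
    have hE : IsEx k Empty fun Ω _ _ _ => ∃ i z, Nrm z i ∧ OnV (ext Ω 𝒮) z ∧
        (∀ w ∈ Z, z ≠ fun j => algebraMap k Ω (w j)) ∧ ¬ Sml r (ext Ω 𝒮) z i :=
      eAny fun i => eEx (q := fun Ω _ _ _ z => Nrm z i ∧ OnV (ext Ω 𝒮) z ∧
        (∀ w ∈ Z, z ≠ fun j => algebraMap k Ω (w j)) ∧ ¬ Sml r (ext Ω 𝒮) z i) <|
        ExL.exAnd (eNrm hz i) <| ExL.exAnd (eOnV (sExt 𝒮) hz) <|
          ExL.exAnd (ExL.exAllS Z _ fun w _ => eVne hz fun j => pConst (w j))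
            (eNSml (sExt 𝒮) hz r i)
    obtain ⟨i', z', h3, h4, h5, h6⟩ := rExD k Empty _ hE Ω Empty.elim
      ⟨i, z, h1, h2, fun w hw e => hn (Or.inl ⟨w, hw, e⟩), fun e => hn (Or.inr e)⟩
    rw [ext_self] at h4 h6
    exact h6 (h i' z' h3 h4 fun hw => h5 z' hw rfl)

end Pool.Agent.MP_f3836a_nt.PK
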