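import Pool.Agent.MP_f3836a_nt.PK.SpecF
import Pool.Agent.MP_f3836a_nt.PK.BReg
import Pool.Agent.MP_f3836a_nt.PK.CCvA

set_option autoImplicit false

/-! The surface carrying a lift of the cycle. -/

namespace Pool.Agent.MP_f3836a_nt.PK

open MvPolynomial IsLocalRing

universe u

namespace FGeo

variable {k : Type u} [Field k] {N : ℕ} {ι : Type u}

theorem cmp {S : Var k N} {Γ : ι → Var k N} {ψ : ∀ a, (Γ a).K} {c : ι → Cv k S.ξ}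
    {ρ : ∀ a, (Γ a).K ≃ₐ[k] (c a).κ} {φ : ∀ C : Cv k S.ξ, C.κ} (h : CD S Γ ψ c ρ φ) (a : ι)
    (i : Fin (N + 1)) (hi : (Γ a).ξ i ≠ 0) : S.ξ i ≠ 0 ∧ ∀ j, S.ξ j / S.ξ i ∈ (c a).O ∧
      (c a).res (S.ξ j / S.ξ i) = ρ a ((Γ a).ξ j / (Γ a).ξ i) := by
  have h1 : (X i : Pol k N) ∉ (c a).P := by
    rwa [h.mem a 1 _ (isHomogeneous_X k i), aeval_X]
  refine ⟨by simpa using (c a).aeval_ne (isHomogeneous_X k i) h1, fun j => ⟨?_, ?_⟩⟩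
  · simpa only [aeval_X] using (c a).div_mem (isHomogeneous_X k j) (isHomogeneous_X k i) h1
  · simpa only [aeval_X] using h.res a 1 _ _ (isHomogeneous_X k j) (isHomogeneous_X k i) h1

theorem mor0 {L : Type u} [Field L] [Algebra k L] {w : Fin (N + 1) → L} (x : Pt k w) :
    w x.ctr.idx ≠ 0 ∧ ∀ j, w j / w x.ctr.idx ∈ x.ctr.O :=
  ⟨Ctr.xi_ne x.good, fun j => x.ctr.lo_X j ▸ Ctr.lo_mem x.good (Form.of (isHomogeneous_X k j))⟩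

theorem mor (hs : RSeg.{u}) {L : Type u} [Field L] [Algebra k L] (w : Fin (N + 1) → L) (T : L)
    (ξ : Fin (N + 1 + N + 1) → L) (h : ξ = seg w T) (y : Pt (N := N + 1 + N) k ξ) :
    ∃ i, w i ≠ 0 ∧ ∀ j, w j / w i ∈ y.ctr.O := by
  subst h
  obtain ⟨x, hx⟩ := (hs k L N w T).pts y
  exact ⟨_, (mor0 x).1, fun j => (hs k L N w T).le x y hx ((mor0 x).2 j)⟩

theorem surf {S : Var k N} (h : S.Reg 2) : IsSurf k S.ξ :=
  ⟨S.gen, fun x => (h x).1, fun x => (h x).2⟩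

theorem cva [IsAlgClosed k] (p : ℕ) [Fact p.Prime] [CharP k p] {S : Var k N} (h : S.Reg 2) :
    CvA k S.ξ := by
  obtain ⟨𝒢, h1⟩ := rGens k S.K N S.ξ
  exact rCvA rReg k S.K p N S.ξ 𝒢 (surf h) h1

end FGeo

open FGeo in
theorem rGeo : RGeoA.{u} → RSurfC.{u} → RSeg.{u} → RGeo.{u} := by
  intro hA hC hS k _ _ p _ _ N Y ι Γ ψ hΓ hle hψ d hd hY hc hι
  rcases hd.eq_or_lt with rfl | hd
  · obtain ⟨c, ρ, φ, h⟩ := hC k p N Y ι Γ ψ hΓ hle hψ (surf hY) (cva p hY)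
    exact ⟨N, Y, Y.ξ, c, ρ, φ, ⟨surf hY, Y.gen, Sub.refl _, fun x => ⟨_, mor0 x⟩⟩,
      h.inj, cmp h, h.cyc, h.val, fun C hC => Or.inl (h.oth C hC)⟩
  obtain ⟨B, g, ψ', S, w, T, h1, h2, h3, h4, h5, h6, h7, h8⟩ :=
    hA k p N Y ι Γ ψ hΓ hle hψ d hd hY hc hι
  obtain ⟨c, ρ, φ, h⟩ := hC k p (N + 1 + N) S (ι ⊕ B) (gc Γ g B) ψ' h1 h8 h2 (surf h4) (cva p h4)
  have hw : ∀ j, S.ξ (fl j) = w j := fun j => by rw [h5, seg_fl]
  refine ⟨N + 1 + N, S, w, fun a => c (Sum.inl a), fun a => ρ (Sum.inl a), φ,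
    ⟨surf h4, h6, h7, mor hS w T _ h5⟩, h.inj.comp Sum.inl_injective, fun a i hi => ?_, h.cyc,
    fun a => (h.val (Sum.inl a)).trans (congrArg (ρ (Sum.inl a)) (h3 a)), fun C hC => ?_⟩
  · have e : ∀ j, (gc Γ g B (Sum.inl a)).ξ (fl j) = (Γ a).ξ j := fun j => seg_fl _ _ j
    obtain ⟨e1, e2⟩ := cmp h (Sum.inl a) (fl i) (by rwa [e])
    refine ⟨hw i ▸ e1, fun j => ?_⟩
    have e3 := e2 (fl j)
    rwa [hw, hw, e, e] at e3
  · obtain ⟨b, rfl⟩ := h.oth C hC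
    rcases b with a | x
    · exact Or.inl ⟨a, rfl⟩
    have e : ∀ j, (gc Γ g B (Sum.inr x)).ξ (fl j) =
        algebraMap k (gc Γ g B (Sum.inr x)).K (x.1.z j) := fun j =>
      seg_fl (fun j => algebraMap k (RatFunc k) (x.1.z j)) RatFunc.X j
    obtain ⟨e1, e2⟩ := cmp h (Sum.inr x) (fl x.1.ctr.idx) (by
      rw [e, x.1.z_idx.1, map_one]
      exact one_ne_zero)
    refine Or.inr ⟨x.1.ctr.idx, hw _ ▸ e1, fun j => ?_⟩
    have e3 := e2 (fl j)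
    rw [hw, hw, e, e, ← map_div₀, AlgEquiv.commutes] at e3
    exact ⟨e3.1, _, e3.2⟩

end Pool.Agent.MP_f3836a_nt.PK
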