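import Pool.Agent.MP_f3836a_nt.PK.SpecF

set_option autoImplicit false

/-! A nonsingular surface through the graphs, birational onto its image. -/

namespace Pool.Agent.MP_f3836a_nt.PK

open MvPolynomial

universe u

namespace FGeoA

variable {k : Type u} [Field k] {N : ℕ}

theorem sat_ker {z : Fin (N + 1) → k} {i : Fin (N + 1)} (h : Nrm z i) :
    Sat (RingHom.ker (eval z) : Ideal (Pol k N)) := ⟨i, fun G hG => by
  rw [RingHom.mem_ker, map_mul, eval_X, h.1, one_mul] at hG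
  exact hG⟩

theorem sat_Kt {z τ : Fin (N + 1) → k} {i : Fin (N + 1)} (h : Nrm z i) : Sat (CTanA.Kt z τ) :=
  ⟨i, fun G hG => CTanA.Kt_cancel (B := X i) (by rw [eval_X, h.1]; exact one_ne_zero)
    (mul_comm (X i) G ▸ hG)⟩

theorem avo_ker {ι : Type u} {Γ : ι → Var k N} (hΓ : Conf Γ) {z : Fin (N + 1) → k}
    {i : Fin (N + 1)} (h : Nrm z i) (hz : ∀ a, ¬ (Γ a).On z) :
    Sat (RingHom.ker (eval z) : Ideal (Pol k N)) ∧ ∃ G : Pol k N, Form G ∧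
      (∀ a, aeval (Γ a).ξ G = 0) ∧ G ∉ (RingHom.ker (eval z) : Ideal (Pol k N)) := by
  have := hΓ.fin
  obtain ⟨U, h1, h2, h3⟩ := exists_sep Γ Set.univ Set.finite_univ h fun a _ => hz a
  exact ⟨sat_ker h, U, h1, fun a => h2 a (Set.mem_univ a), h3⟩

theorem sub_const {K L : Type u} [Field K] [Algebra k K] [Field L] [Algebra k L]
    {ξ : Fin (N + 1) → K} (x : Pt k ξ) : Sub k ξ fun j => algebraMap k L (x.z j) :=
  fun n G hG e => by
    have h := aeval_algebraMap_apply (R := k) (A := k) L x.z G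
    rw [aeval_eq_eval, x.van n G hG e, map_zero] at h
    exact h

end FGeoA

open FGeoA in
theorem rGeoA : RProd.{u} → RGrD.{u} → RGrA.{u} → RGrP.{u} → RGrB.{u} → RGrC.{u} → RStep.{u} →
    RInd.{u} → RBir.{u} → RGeoA.{u} := by
  intro hProd hD hA hP hB hC hStep hInd hBir k _ _ p _ _ N Y ι Γ ψ hΓ hle hψ d hd hY hcon hne
  obtain ⟨B, g, hG⟩ := hD k p N Y ι Γ ψ hΓ hle hψ
  obtain ⟨c1, c2⟩ := hA k p N Y ι Γ ψ hΓ hle hψ B g hG
  have c3 := hP k p N Y ι Γ ψ hΓ hle hψ B g hG c1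
  obtain ⟨ψ', e1, e2⟩ := hB k p N Y ι Γ ψ hΓ hle hψ B g hG c1
  obtain ⟨x, t, ⟨i, hi⟩, ⟨a, ha⟩, m3, m4, G, g1, g2, g3⟩ :=
    hC k p N Y ι Γ ψ hΓ hle hψ B g hG c1 hne
  obtain ⟨Z, z1, z2, z3, z4⟩ := hProd k N d Y hY
  have hne' : Nonempty (ι ⊕ B) := hne.map Sum.inl
  have l0 : ∀ b, (gc Γ g B b).Le Z := by
    rintro (b | b)
    · exact z2 (Γ b).K (Γ b).ξ (g b) (hle b)
    · exact z2 (RatFunc k) (fun j => algebraMap k (RatFunc k) (b.1.z j)) RatFunc.X (sub_const b.1)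
  have ns : ∀ s : k, Nrm (N := N + 1 + N) (seg x s) (fl i) := fun s => hi.app_left _
  obtain ⟨W, Z₁, w1, w2, w3, w4, w5, w6⟩ := hStep k _ d Z _ (gc Γ g B)
    {RingHom.ker (eval (app 0 x)), CTanA.Kt (seg x t) (app 0 x)} (by omega) z1 c1 c3 (c2 hcon) l0
    hne' ⟨Set.toFinite _, by
      rintro J (rfl | rfl)
      · exact avo_ker c1 hi.app_right m3
      · exact ⟨sat_Kt (ns t), G, g1, g2, fun h => g3 h.2⟩⟩
  have w7 : eval (app 0 x) W ≠ 0 := w6 _ (Or.inl rfl)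
  have w8 : dEv (seg x t) W (app 0 x) ≠ 0 := fun h => w6 _ (Or.inr rfl)
    ⟨(((Var.on_iff _ _).1 ((w5 a).on ha)).2 _ W w1 w4), h⟩
  obtain ⟨b1, b2⟩ := hBir k N x W w1 w7
  obtain ⟨e, rfl⟩ : ∃ e, d = e + 1 := ⟨d - 1, by omega⟩
  obtain ⟨W', Z₂, v1, v2, v3, v4, v5, v6⟩ := hStep k _ e Z₁ _ (gc Γ g B)
    ((fun s : k => RingHom.ker (eval (seg x s))) '' {s | s ≠ t ∧ eval (seg x s) W = 0}) (by omega)
    w2 c1 c3 (c2 hcon) w5 hne' ⟨(b1.subset fun s hs => hs.2).image _, by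
      rintro J ⟨s, hs, rfl⟩
      exact avo_ker c1 (ns s) fun b => m4 b s hs.1⟩
  obtain ⟨S, s1, s2, s3⟩ := hInd k _ e Z₂ _ (gc Γ g B) (by omega) v2 c1 c3 (c2 hcon) v5 hne'
  have t1 : Sub k Z₁.ξ S.ξ := Sub.trans v3 s2
  have t0 : Sub k Z.ξ S.ξ := Sub.trans w3 t1
  obtain ⟨y, hy⟩ := (s3 a).on ha
  have h0 : S.ξ (fl i) ≠ 0 := fun h => by
    have := y.van 1 (X (fl i)) (isHomogeneous_X _ _) (by rw [aeval_X, h])
    rw [eval_X, hy, (ns t).1] at this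
    exact one_ne_zero this
  have hS : S.ξ = seg (fun j => S.ξ (fl j)) (S.ξ (fr i) / S.ξ (fl i)) := by
    refine app_ext (fun j => by rw [seg_fl]) fun j => ?_
    have := t0 (1 + 1) (X (fl i) * X (fr j) - X (fl j) * X (fr i))
      (((isHomogeneous_X _ _).mul (isHomogeneous_X _ _)).sub
        ((isHomogeneous_X _ _).mul (isHomogeneous_X _ _))) (by
        simp only [map_sub, map_mul, aeval_X]
        exact sub_eq_zero.2 (z3 i j))
    simp only [map_sub, map_mul, aeval_X] at this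
    rw [seg_fr]
    field_simp
    linear_combination this
  refine ⟨B, g, ψ', S, fun j => S.ξ (fl j), S.ξ (fr i) / S.ξ (fl i), c1, e2, e1, s1, hS, ?_,
    fun n A hA' h => ?_, s3⟩
  · refine b2 S.K _ (S.ξ (fr i) / S.ξ (fl i)) t ⟨y.z, y.norm, ?_⟩ W' ?_ hy v1 ?_ ?_ w8
      fun s hs h => v6 _ ⟨s, ⟨hs, h⟩, rfl⟩
    · rw [← hS]
      exact y.van
    · rw [← hS]
      exact S.gen
    · rw [← hS]
      exact t1 _ W w1 w4
    · rw [← hS]
      exact s2 _ W' v1 v4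
  · rw [← aeval_fl]
    refine t0 n _ hA'.rename_isHomogeneous ?_
    rw [aeval_fl]
    exact z4 n A hA' h

end Pool.Agent.MP_f3836a_nt.PK
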