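import Pool.Agent.MP_f3836a_nt.PK.SpecF

set_option autoImplicit false

/-! Graphs and vertical lines form a configuration, connected when the given one is. -/

namespace Pool.Agent.MP_f3836a_nt.PK

open MvPolynomial

universe u

namespace FGrA

variable {k : Type u} [Field k] {N : ℕ}

section
variable {K L : Type u} [Field K] [Algebra k K] [Field L] [Algebra k L]

theorem down {ξ : Fin (N + 1) → K} {η : Fin (N + 1) → L} {s : K} {t : L}
    (h : Sub (N := N + 1 + N) k (seg ξ s) (seg η t)) : Sub k ξ η := fun n G hG e => by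
  have h1 := h n (rename fl G) hG.rename_isHomogeneous (by
    rw [aeval_fl]
    simpa only [seg_fl] using e)
  rw [aeval_fl] at h1
  simpa only [seg_fl] using h1

theorem ratio {c : Fin (N + 1) → k} {η : Fin (N + 1) → L}
    (h : Sub k (fun j => algebraMap k K (c j)) η) (i j : Fin (N + 1)) :
    algebraMap k L (c i) * η j = algebraMap k L (c j) * η i := by
  have h1 := h 1 (C (c i) * X j - C (c j) * X i)
    (((isHomogeneous_X k j).C_mul _).sub ((isHomogeneous_X k i).C_mul _)) (by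
      simp only [map_sub, map_mul, aeval_C, aeval_X]
      ring)
  simpa only [map_sub, map_mul, aeval_C, aeval_X, sub_eq_zero] using h1

theorem cen_down {η : Fin (N + 1) → L} {g : L} {x : Fin (N + 1) → k} {t : k} {i : Fin (N + 1)}
    {P : Place k L} (hx : Nrm x i) (h : Cen (N := N + 1 + N) (seg η g) (seg x t) P) :
    Cen η x P := by
  obtain ⟨s, h1, h2, h3⟩ := h
  obtain rfl : s = fl i := h1.uniq (hx.app_left _)
  exact ⟨i, hx, by simpa only [seg_fl] using h2, fun j => by simpa only [seg_fl] using h3 (fl j)⟩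

end

theorem on_of_cen {V : Var k N} (h : CenA k V.ξ) {z : Fin (N + 1) → k} {P : Place k V.K}
    (hz : Cen V.ξ z P) : V.On z :=
  (h.ex P).imp fun _ hx => h.uniq _ _ P hx hz

theorem eq_of_ratio {x y : Fin (N + 1) → k} {i j : Fin (N + 1)} (hx : Nrm x i) (hy : Nrm y j)
    (h : ∀ a b, y a * x b = y b * x a) : x = y := by
  have h1 := h j i
  rw [hx.1, hy.1, one_mul] at h1
  obtain rfl : i = j := by
    rcases lt_trichotomy i j with hl | hl | hl
    · rw [hy.2 _ hl, zero_mul] at h1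
      exact absurd h1 one_ne_zero
    · exact hl
    · rw [hx.2 _ hl, mul_zero] at h1
      exact absurd h1 one_ne_zero
  funext b
  simpa only [hx.1, hy.1, one_mul, mul_one] using h i b

variable {K : Type u} [Field K] [Algebra k K] {ξ : Fin (N + 1) → K}

/-- the vertical line passes through all points over its base point -/
theorem lin_on (hS : RSeg.{u}) {pl : k → Place k (RatFunc k)} {Q : Place k (RatFunc k)}
    (hL : LinA k pl Q) (x : Pt k ξ) (hx : CrvF x.lin) (t : k) : x.lin.On (seg x.z t) := by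
  have h1 : Cen (fun j => algebraMap k (RatFunc k) (x.z j)) x.z (pl t) :=
    ⟨_, x.nrm, by simp [x.nrm.1], fun j => Or.inl (by simp [x.nrm.1])⟩
  have h2 := ((hS k (RatFunc k) N _ RatFunc.X).cen hx.pa _ _ h1).1 (hL.mem t).1
  rw [(hL.mem t).2] at h2
  exact on_of_cen hx.ca.cen h2

theorem gr_lin {V : Var k N} (hV : CrvA V) (g : V.K) (x : Pt k ξ) : ¬ (V.gr g).Le x.lin := by
  intro h
  have h1 := ratio (K := RatFunc k) (L := V.K) (c := x.z) (η := V.ξ)
    (down (K := RatFunc k) (L := V.K) (s := RatFunc.X) (t := g) h) x.ctr.idx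
  rw [x.nrm.1, map_one] at h1
  have h2 : V.ξ x.ctr.idx ≠ 0 := fun h0 => by
    obtain ⟨i, hi⟩ := hV.nz
    exact hi (by simpa [h0] using h1 i)
  obtain ⟨j, hj⟩ := hV.tr _ h2
  refine hj ?_
  rw [← one_mul (V.ξ j), h1 j, mul_div_cancel_right₀ _ h2]
  exact isAlgebraic_algebraMap _

theorem lin_gr [Infinite k] {V : Var k N} (hV : CrvA V) (g : V.K) (hg : CrvA (V.gr g))
    (x : Pt k ξ) (hx : ∀ t, x.lin.On (seg x.z t)) : ¬ x.lin.Le (V.gr g) := by
  intro h
  have h1 : ∀ t, ∃ P, Cen (V.gr g).ξ (seg x.z t) P := fun t => by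
    obtain ⟨y, hy⟩ := h.on (hx t)
    exact hy ▸ hg.pt y
  choose P hP using h1
  refine Set.infinite_of_injective_forall_mem (f := P) (fun t t' e => ?_)
    (fun t => cen_down x.nrm (hP t)) (hV.fin x.z)
  have h2 := congrFun (hg.cen.uniq _ _ _ (hP t) (e ▸ hP t')) (fr x.ctr.idx)
  simpa only [seg_fr, x.nrm.1, mul_one] using h2

theorem lin_lin {x y : Pt k ξ} (h : x.lin.Le y.lin) : x = y :=
  Pt.ext (eq_of_ratio x.nrm y.nrm fun a b => (algebraMap k (RatFunc k)).injective (by
    rw [map_mul, map_mul]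
    exact ratio (K := RatFunc k) (c := y.z) (η := fun j => algebraMap k (RatFunc k) (x.z j))
      (down (K := RatFunc k) (L := RatFunc k) (s := RatFunc.X) (t := RatFunc.X) h) a b))

end FGrA

open FGrA in
theorem rGrA : RCrvF.{u} → RLine.{u} → RSeg.{u} → RGrA.{u} := by
  intro hF hL hS k _ _ p _ _ N Y ι Γ ψ hC hY _ B g hG
  obtain ⟨pl, Q, hL⟩ := hL k p
  have c1 : ∀ a, CrvF ((Γ a).gr (g a)) := fun a => hF k p _ _ (hC.crv a).ff
  have c2 : ∀ x : Pt k Y.ξ, CrvF x.lin := fun x => hF k p _ _ hL.ff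
  have on := fun x : Pt k Y.ξ => lin_on hS hL x (c2 x)
  have := hC.fin
  have := hG.fin.to_subtype
  refine ⟨⟨inferInstance, ?_, ?_⟩, fun hc s hs h => ?_⟩
  · rintro (a | x)
    exacts [c1 a, c2 x]
  · rintro (a | x) (b | y) h
    · exact congrArg _ (hC.ne a b (down h))
    · exact absurd h (gr_lin (hC.crv a).ca _ _)
    · exact absurd h (lin_gr (hC.crv b).ca _ (c1 b).ca _ (on x))
    · exact congrArg _ (Subtype.ext (lin_lin h))
  have meet : ∀ (x : B) (a : ι), (Γ a).On x.1.z → (Sum.inl a ∈ s ↔ Sum.inr x ∈ s) := by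
    rintro x a ⟨y, hy⟩
    obtain ⟨P, hP⟩ := (hC.crv a).ca.pt y
    rw [hy] at hP
    have h1 : ((Γ a).gr (g a)).On (seg x.1.z (P.val (g a))) := on_of_cen (c1 a).ca.cen
      (((hS k _ N _ (g a)).cen (hC.crv a).pa _ _ hP).1 (hG.uni x x.2 a P hP).1)
    exact ⟨fun ha => h _ ha _ _ h1 (on x _), fun hx => h _ hx _ _ (on x _) h1⟩
  have all : ∀ a, Sum.inl a ∈ s := by
    refine hc {a | Sum.inl a ∈ s} ?_ fun a ha b z h1 h2 => ?_
    · obtain ⟨a | x, hb⟩ := hs
      · exact ⟨a, hb⟩
      · exact (hG.on x x.2).imp fun a ha => (meet x a ha).2 hb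
    · by_cases e : a = b
      · exact e ▸ ha
      · obtain ⟨x, rfl⟩ := (hY a).on h1
        exact (meet ⟨x, hG.two x a b h1 h2 e⟩ b h2).2 ((meet _ a h1).1 ha)
  rintro (a | x)
  · exact all a
  · exact (hG.on x x.2).elim fun a ha => (meet x a ha).1 (all a)

end Pool.Agent.MP_f3836a_nt.PK
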