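import Pool.Agent.MP_f3836a_nt.PK.SpecF

set_option autoImplicit false

/-! The cycle on the graphs and the vertical lines. -/

namespace Pool.Agent.MP_f3836a_nt.PK

open MvPolynomial IsLocalRing Finset

universe u

namespace FGrB

variable {k : Type u} [Field k] {N : ℕ}

theorem ord_zpow {F : Type u} [Field F] [Algebra k F] (h : PlA k F) (P : Place k F) {f : F}
    (hf : f ≠ 0) (n : ℤ) : P.ord (f ^ n) = n * P.ord f := by
  induction n using Int.induction_on with
  | zero => simpa using h.con P 1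
  | succ n ih => rw [zpow_add_one₀ hf, h.mul P _ _ (zpow_ne_zero _ hf) hf, ih, add_one_mul]
  | pred n ih =>
    have := h.mul P _ _ (zpow_ne_zero (-(n : ℤ) - 1) hf) hf
    rw [← zpow_add_one₀ hf, sub_add_cancel, ih] at this
    linear_combination -this

theorem ord_prod {F : Type u} [Field F] [Algebra k F] (h : PlA k F) (P : Place k F) {σ : Type u}
    (s : Finset σ) {f : σ → F} (hf : ∀ j, f j ≠ 0) (n : σ → ℤ) :
    P.ord (∏ j ∈ s, f j ^ n j) = ∑ j ∈ s, n j * P.ord (f j) := by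
  classical
  induction s using Finset.induction_on with
  | empty => simpa using h.con P 1
  | insert a s ha ih =>
    rw [prod_insert ha, sum_insert ha, h.mul P _ _ (zpow_ne_zero _ (hf a))
      (prod_ne_zero_iff.2 fun j _ => zpow_ne_zero _ (hf j)), ih, ord_zpow h P (hf a)]

open Classical in
theorem line {pl : k → Place k (RatFunc k)} {Q : Place k (RatFunc k)} (hl : LinA k pl Q)
    (hA : PlA k (RatFunc k)) {x : Fin (N + 1) → k} {i : Fin (N + 1)} (hx : Nrm x i)
    (hS : SegA k (fun j => algebraMap k (RatFunc k) (x j)) RatFunc.X)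
    (hC : CenA k (seg (fun j => algebraMap k (RatFunc k) (x j)) RatFunc.X)) {σ : Type u}
    (s : Finset σ) (v : σ → k) (n : σ → ℤ) (h0 : ∑ j ∈ s, n j = 0) (z : Fin (N + 1 + N + 1) → k) :
    ∑ᶠ (P : Place k (RatFunc k))
      (_ : Cen (seg (fun j => algebraMap k (RatFunc k) (x j)) RatFunc.X) z P),
      P.ord (∏ j ∈ s, (RatFunc.X - algebraMap k (RatFunc k) (v j)) ^ (-n j)) =
      -∑ j ∈ s, if z = seg x (v j) then n j else 0 := by
  have c0 : ∀ P, Cen (fun j => algebraMap k (RatFunc k) (x j)) x P := fun P =>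
    ⟨i, hx, by simp [hx.1], fun j => Or.inl (by simp [hx.1])⟩
  have c1 : ∀ c, Cen (seg (fun j => algebraMap k (RatFunc k) (x j)) RatFunc.X) z (pl c) ↔
      z = seg x c := fun c => by
    have := (hS.cen hA _ x (c0 (pl c))).1 (hl.mem c).1
    rw [(hl.mem c).2] at this
    exact ⟨fun h => hC.uniq _ _ _ h this, fun h => h ▸ this⟩
  have c2 : ∀ c c', seg x c = seg x c' → c = c' := fun c c' h => by
    simpa [hx.1] using congrFun h (fr i)
  have c3 := fun P => ord_prod hA P s (fun j => hl.ne (v j)) fun j => -n j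
  have c4 : Q.ord (∏ j ∈ s, (RatFunc.X - algebraMap k (RatFunc k) (v j)) ^ (-n j)) = 0 := by
    simpa only [c3, hl.pole.2, mul_neg, neg_mul, mul_one, neg_neg] using h0
  simp only [finsum_eq_if]
  by_cases h : ∃ c, z = seg x c
  · obtain ⟨c, rfl⟩ := h
    rw [finsum_eq_single _ (pl c), if_pos ((c1 c).2 rfl), c3, ← sum_neg_distrib]
    · refine sum_congr rfl fun j _ => ?_
      by_cases e : c = v j
      · rw [← e, hl.one, if_pos rfl, mul_one]
      · rw [hl.zero _ _ e, if_neg fun h => e (c2 _ _ h), mul_zero, neg_zero]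
    · intro P hP
      obtain ⟨c', rfl⟩ | rfl := hl.all P
      · exact if_neg fun h => hP (congrArg pl (c2 _ _ ((c1 c').1 h)).symm)
      · rw [c4, ite_self]
  · rw [sum_eq_zero fun j _ => if_neg fun e => h ⟨_, e⟩, neg_zero]
    refine finsum_eq_zero_of_forall_eq_zero fun P => ?_
    obtain ⟨c', rfl⟩ | rfl := hl.all P
    · exact if_neg fun e => h ⟨_, (c1 c').1 e⟩
    · rw [c4, ite_self]

open Classical in
theorem sumF {ι : Type u} [Fintype ι] {β : ι → Type u} (o : ∀ a, β a → ℤ) (T : ∀ a, Finset (β a))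
    (hT : ∀ a P, o a P ≠ 0 → P ∈ T a) (p : ∀ a, β a → Prop) :
    ∑ a, ∑ᶠ (P : β a) (_ : p a P), o a P =
      ∑ s ∈ univ.sigma T, if p s.1 s.2 then o s.1 s.2 else 0 := by
  rw [sum_sigma]
  refine sum_congr rfl fun a _ => ?_
  simp only [finsum_eq_if]
  exact finsum_eq_sum_of_support_subset _ fun P h => hT a P fun e => h (by simp [e])

end FGrB

open Classical in
theorem rGrB : RLine.{u} → RSeg.{u} → RGrB.{u} := by
  intro hL hS k _ _ p _ _ N Y ι Γ ψ hC hY hB B g hg hG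
  obtain ⟨pl, Q, hl⟩ := hL k p
  have := hC.fin
  have := Fintype.ofFinite ι
  have := hg.fin.fintype
  obtain ⟨T, hT⟩ : ∃ T : ∀ a, Finset (Place k (Γ a).K), ∀ a P, P ∈ T a ↔ P.ord (ψ a) ≠ 0 :=
    ⟨fun a => ((hC.crv a).pb.fin (ψ a)).toFinset, fun a P => Set.Finite.mem_toFinset _⟩
  obtain ⟨c, hc⟩ : ∃ c : (Σ a, Place k (Γ a).K) → Pt k Y.ξ,
      ∀ s : Σ a, Place k (Γ a).K, Cen (Γ s.1).ξ (c s).z s.2 := by
    choose c hc using fun s : Σ a, Place k (Γ a).K => (hC.crv s.1).ca.cen.ex s.2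
    exact ⟨fun s => Sub.pt (hY s.1) (c s), hc⟩
  have cB : ∀ s ∈ univ.sigma T, c s ∈ B := fun s hs => by_contra fun h =>
    (hT _ _).1 (mem_sigma.1 hs).2 (hg.ord _ _ _ (hc s) h)
  refine ⟨Sum.rec ψ fun x => (∏ s ∈ (univ.sigma T).filter fun s => c s = x,
    (RatFunc.X - algebraMap k (RatFunc k) (s.2.val (g s.1))) ^ (-s.2.ord (ψ s.1)) : RatFunc k),
    fun _ => rfl, ?_, fun z => ?_⟩
  · rintro (a | x)
    · exact hB.ne a
    · exact prod_ne_zero_iff.2 fun s _ => zpow_ne_zero _ (hl.ne _)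
  rw [finsum_eq_sum_of_fintype, Fintype.sum_sum_type]
  have e1 := FGrB.sumF (fun a (P : Place k (Γ a).K) => P.ord (ψ a)) T (fun a P => (hT a P).2)
  have e2 := fun x : B => FGrB.line hl (hG.crv (.inr x)).pa x.1.nrm (hS _ _ _ _ _)
    (hG.crv (.inr x)).ca.cen ((univ.sigma T).filter fun s => c s = x) (fun s => s.2.val (g s.1))
    (fun s => s.2.ord (ψ s.1)) (by
      rw [← hB.div x.1.z, finsum_eq_sum_of_fintype, e1, sum_filter]
      refine sum_congr rfl fun s _ => if_congr ⟨fun h => h ▸ hc s, fun h => Pt.ext ?_⟩ rfl rfl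
      exact (hC.crv s.1).ca.cen.uniq _ _ _ (hc s) h) z
  refine (congrArg₂ (· + ·) (e1 fun a P => Cen (seg (Γ a).ξ (g a)) z P)
    (sum_congr rfl fun x _ => e2 x)).trans ?_
  rw [sum_neg_distrib, add_neg_eq_zero]
  simp only [sum_filter]
  rw [sum_comm]
  refine sum_congr rfl fun s hs => ?_
  have k1 := ((hS k _ N _ (g s.1)).cen (hC.crv s.1).pa _ _ (hc s)).1
    (hg.uni _ (cB s hs) _ _ (hc s)).1
  rw [sum_eq_single ⟨c s, cB s hs⟩ (fun x _ hx => if_neg fun e => hx (Subtype.ext e.symm))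
    fun h => absurd (mem_univ _) h, if_pos rfl]
  exact if_congr ⟨fun h => (hG.crv (.inl s.1)).ca.cen.uniq _ _ _ h k1, fun h => h ▸ k1⟩ rfl rfl

end Pool.Agent.MP_f3836a_nt.PK
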