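import Pool.Agent.MP_f3836a_nt.PK.SpecF

set_option autoImplicit false

/-! Data for the graph construction, and a good point on one of the graphs. -/

namespace Pool.Agent.MP_f3836a_nt.PK

open MvPolynomial IsLocalRing

universe u

namespace FGrD

variable {k : Type u} [Field k] {N : ℕ}

theorem on_of_cen {V : Var k N} (h : CenA k V.ξ) {z : Fin (N + 1) → k} {P : Place k V.K}
    (hP : Cen V.ξ z P) : V.On z := by
  obtain ⟨x, hx⟩ := h.ex P
  exact ⟨x, h.uniq _ _ P hx hP⟩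

theorem fin_cen {V : Var k N} (h : CenA k V.ξ) {s : Set (Place k V.K)} (hs : s.Finite) :
    {z : Fin (N + 1) → k | ∃ P, Cen V.ξ z P ∧ P ∈ s}.Finite := by
  refine (hs.biUnion (t := fun P => {z | Cen V.ξ z P}) fun P _ =>
    Set.Subsingleton.finite fun z hz z' hz' => h.uniq z z' P hz hz').subset ?_
  rintro z ⟨P, h1, h2⟩
  exact Set.mem_biUnion h2 h1

theorem fin_meet {V W : Var k N} (h : CrvA V) (hn : ¬ V.Le W) :
    {z : Fin (N + 1) → k | V.On z ∧ W.On z}.Finite := by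
  have h1 : ∃ (n : ℕ) (G : Pol k N), G.IsHomogeneous n ∧ aeval W.ξ G = 0 ∧ aeval V.ξ G ≠ 0 := by
    by_contra h2
    exact hn fun n G hG e => by_contra fun e' => h2 ⟨n, G, hG, e, e'⟩
  obtain ⟨n, G, hG, e, e'⟩ := h1
  refine ((h.zs G (Form.of hG) e').image fun x => x.z).subset ?_
  rintro z ⟨⟨x, rfl⟩, h2⟩
  exact ⟨x, ((W.on_iff _).1 h2).2 n G hG e, rfl⟩

theorem z_inj {L : Type u} [Field L] [Algebra k L] (η : Fin (N + 1) → L) :
    Function.Injective fun x : Pt k η => x.z := fun _ _ h => Pt.ext h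

variable {ι : Type u}

/-- the bad vectors -/
def Bad (Γ : ι → Var k N) (ψ : ∀ a, (Γ a).K) : Set (Fin (N + 1) → k) :=
  {z | (∃ a b, a ≠ b ∧ (Γ a).On z ∧ (Γ b).On z) ∨
    (∃ a, ∃ y : Pt k (Γ a).ξ, ¬ IsDiscreteValuationRing y.ctr.O ∧ y.z = z) ∨
    ∃ a P, Cen (Γ a).ξ z P ∧ P.ord (ψ a) ≠ 0}

theorem bad_fin {Γ : ι → Var k N} (h : Conf Γ) (ψ : ∀ a, (Γ a).K) : (Bad Γ ψ).Finite := by
  have := h.fin
  have h1 : {z | ∃ a b, a ≠ b ∧ (Γ a).On z ∧ (Γ b).On z}.Finite := by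
    refine (Set.finite_iUnion fun a => Set.finite_iUnion fun b =>
      (?_ : {z | a ≠ b ∧ (Γ a).On z ∧ (Γ b).On z}.Finite)).subset ?_
    · by_cases hab : a = b
      · exact Set.finite_empty.subset fun z hz => hz.1 hab
      · exact (fin_meet (h.crv a).ca fun e => hab (h.ne a b e)).subset fun z hz => hz.2
    · rintro z ⟨a, b, h2⟩
      exact Set.mem_iUnion.2 ⟨a, Set.mem_iUnion.2 ⟨b, h2⟩⟩
  have h2 : {z | ∃ a, ∃ y : Pt k (Γ a).ξ, ¬ IsDiscreteValuationRing y.ctr.O ∧ y.z = z}.Finite := by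
    refine (Set.finite_iUnion fun a => (h.crv a).bb.sing.image fun y => y.z).subset ?_
    rintro z ⟨a, h2⟩
    exact Set.mem_iUnion.2 ⟨a, h2⟩
  have h3 : {z | ∃ a, ∃ P : Place k (Γ a).K, Cen (Γ a).ξ z P ∧ P.ord (ψ a) ≠ 0}.Finite := by
    refine (Set.finite_iUnion fun a => fin_cen (h.crv a).ca.cen ((h.crv a).pb.fin (ψ a))).subset ?_
    rintro z ⟨a, h2⟩
    exact Set.mem_iUnion.2 ⟨a, h2⟩
  exact h1.union (h2.union h3)

theorem val_of_ord {L : Type u} [Field L] [Algebra k L] (h : PlA k L) (P : Place k L) {g : L}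
    {c : k} (h0 : g - algebraMap k L c ≠ 0) (h1 : P.ord (g - algebraMap k L c) = 1) :
    g ∈ P.V ∧ P.val g = c := by
  have h2 : g - algebraMap k L c ∈ P.V := (h.mem P _ h0).2 (by rw [h1]; exact zero_le_one)
  have h3 : g ∈ P.V := by simpa using add_mem h2 (P.const c)
  exact ⟨h3, (h.val P g h3 c).1 (Or.inr (by rw [h1]; exact zero_lt_one))⟩

/-- `w` lies over `x` -/
def Ovr (x : Fin (N + 1) → k) (w : Fin (N + 1 + N + 1) → k) : Prop :=
  (∃ t, w = seg x t) ∨ w = app 0 x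

theorem seg_ne {x x' : Fin (N + 1) → k} {i : Fin (N + 1)} (h : Nrm x i) (t : k) :
    seg x t ≠ app 0 x' := fun e => by
  have h1 := congrFun e (fl i)
  rw [seg_fl, app_fl, h.1] at h1
  exact one_ne_zero h1

theorem Ovr.uniq {x x' : Fin (N + 1) → k} {i i' : Fin (N + 1)} (h : Nrm x i) (h' : Nrm x' i')
    {w : Fin (N + 1 + N + 1) → k} (e : Ovr x w) (e' : Ovr x' w) : x = x' := by
  rcases e with ⟨t, rfl⟩ | rfl <;> rcases e' with ⟨t', e'⟩ | e'
  · exact funext fun j => by simpa using congrFun e' (fl j)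
  · exact absurd e' (seg_ne h t)
  · exact absurd e'.symm (seg_ne h' t')
  · exact funext fun j => by simpa using congrFun e' (fr j)

theorem pt_const {L : Type u} [Field L] [Algebra k L] {z : Fin (N + 1) → k} {i : Fin (N + 1)}
    (h : Nrm z i) (x : Pt k fun j => algebraMap k L (z j)) : x.z = z := by
  have h1 : ∀ j, x.z j = z j * x.z i := fun j => by
    have h2 := x.van 1 (X j - C (z j) * X i)
      ((isHomogeneous_X k j).sub ((isHomogeneous_X k i).C_mul _)) (by simp [h.1])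
    simpa [sub_eq_zero] using h2
  obtain ⟨i', h2, h3⟩ := x.norm
  have h4 := h1 i'
  rw [h2] at h4
  have h5 : i = i' := by
    rcases lt_trichotomy i i' with hl | hl | hl
    · rw [h3 i hl, mul_zero] at h4
      exact absurd h4 one_ne_zero
    · exact hl
    · rw [h.2 i' hl, zero_mul] at h4
      exact absurd h4 one_ne_zero
  subst h5
  exact funext fun j => by rw [h1 j, h2, mul_one]

theorem dEv_fl (z : Fin (N + 1 + N + 1) → k) (x : Fin (N + 1) → k) (F : Pol k N) :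
    dEv z (rename fl F : Pol k (N + 1 + N)) (app 0 x) = 0 := by
  induction F using MvPolynomial.induction_on with
  | C a => rw [rename_C, CTanA.dEv_C]
  | add p q hp hq => rw [map_add, CTanA.dEv_add, hp, hq, add_zero]
  | mul_X p j hp =>
    rw [map_mul, rename_X, CTanA.dEv_mul, hp, CTanA.dEv_X, app_fl, Pi.zero_apply, zero_mul,
      mul_zero, add_zero]

theorem eval_fl (x : Fin (N + 1) → k) (t : k) (F : Pol k N) :
    eval (seg x t) (rename fl F : Pol k (N + 1 + N)) = eval x F := by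
  rw [eval_rename]
  exact congrArg (fun w => eval w F) (funext fun j => seg_fl x t j)

/-- an equation of the graph that is transversal to the vertical line -/
theorem exists_eqn {L : Type u} [Field L] [Algebra k L] {η : Fin (N + 1) → L} {g : L}
    (y : Pt k η) (hg : g ∈ y.ctr.O) (t : k) : ∃ (n : ℕ) (G : Pol k (N + 1 + N)),
    G.IsHomogeneous n ∧ aeval (seg η g) G = 0 ∧ dEv (seg y.z t) G (app 0 y.z) ≠ 0 := by
  obtain ⟨n, A, B, hA, hB, hP, e⟩ := hg
  refine ⟨1 + n, X (fr y.ctr.idx) * rename fl B - rename fl (X y.ctr.idx * A),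
    ((isHomogeneous_X k _).mul hB.rename_isHomogeneous).sub
      ((isHomogeneous_X k _).mul hA).rename_isHomogeneous, ?_, ?_⟩
  · rw [map_sub, map_mul, aeval_fl, aeval_fl, aeval_X, seg_fr]
    simp only [seg_fl, map_mul, aeval_X]
    linear_combination η y.ctr.idx * e
  · rw [CTanA.dEv_sub, CTanA.dEv_mul, dEv_fl, dEv_fl, CTanA.dEv_X, app_fr, eval_fl, y.nrm.1,
      one_mul, mul_zero, add_zero, sub_zero]
    exact hP

end FGrD

open FGrD

theorem rGrD : RApx.{u} → RGrD.{u} := by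
  intro hA k _ _ p _ _ N Y ι Γ ψ hC _ _
  have := hC.fin
  have hZ := bad_fin hC ψ
  let T : Set (Σ a, Place k (Γ a).K) := {q | ∃ z ∈ Bad Γ ψ, Cen (Γ q.1).ξ z q.2}
  have hT1 : ∀ a, {P : Place k (Γ a).K | ∃ z ∈ Bad Γ ψ, Cen (Γ a).ξ z P}.Finite := fun a => by
    refine (hZ.biUnion fun z _ => (hC.crv a).ca.fin z).subset ?_
    rintro P ⟨z, h1, h2⟩
    exact Set.mem_biUnion h1 h2
  have hT : T.Finite := by
    refine (Set.finite_iUnion fun a => (hT1 a).image (Sigma.mk a)).subset ?_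
    rintro ⟨a, P⟩ h
    exact Set.mem_iUnion.2 ⟨a, P, h, rfl⟩
  obtain ⟨c, -, hc⟩ := hT.exists_injOn_of_encard_le (t := (Set.univ : Set k))
    (by rw [Set.infinite_univ.encard_eq]; exact le_top)
  choose g hg using fun a => hA k (Γ a).K (hC.crv a).pa _ (fun P => c ⟨a, P⟩) (hT1 a)
  have hv : ∀ z ∈ Bad Γ ψ, ∀ a (P : Place k (Γ a).K), Cen (Γ a).ξ z P →
      g a ∈ P.V ∧ P.val (g a) = c ⟨a, P⟩ := fun z hz a P hP =>
    val_of_ord (hC.crv a).pa P (hg a P ⟨z, hz, hP⟩).1 (hg a P ⟨z, hz, hP⟩).2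
  refine ⟨{x | x.z ∈ Bad Γ ψ}, g, hZ.preimage (z_inj Y.ξ).injOn, ?_,
    fun x a b ha hb hab => Or.inl ⟨a, b, hab, ha, hb⟩,
    fun x a y e hx => by_contra fun h => hx (Or.inr (Or.inl ⟨a, y, h, e⟩)),
    fun x a P hP hx => by_contra fun h => hx (Or.inr (Or.inr ⟨a, P, hP, h⟩)),
    fun x hx a P hP => ?_, fun x hx a b P Q hP hQ e => ?_⟩
  · rintro x (⟨a, -, -, h, -⟩ | ⟨a, y, -, e⟩ | ⟨a, P, h, -⟩)
    · exact ⟨a, h⟩
    · exact ⟨a, y, e⟩
    · exact ⟨a, on_of_cen (hC.crv a).ca.cen h⟩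
  · obtain ⟨h1, h2⟩ := hv _ hx a P hP
    rw [h2]
    exact ⟨h1, hg a P ⟨_, hx, hP⟩⟩
  · rw [(hv _ hx a P hP).2, (hv _ hx b Q hQ).2] at e
    exact hc ⟨_, hx, hP⟩ ⟨_, hx, hQ⟩ e

theorem rGrC : RSeg.{u} → RGrC.{u} := by
  intro hS k _ _ p _ _ N Y ι Γ ψ hC hLe _ B g hD hG ⟨a⟩
  have := hG.fin
  have hI := (hC.crv a).ca.inf
  have h1 : {y : Pt k (Γ a).ξ | y.z ∈ (fun x : Pt k Y.ξ => x.z) '' B ∪
      {z | ∃ P, Cen (Γ a).ξ z P ∧ P ∈ {P : Place k (Γ a).K | P.ord (g a) ≠ 0}}}.Finite :=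
    ((hD.fin.image _).union (fin_cen (hC.crv a).ca.cen ((hC.crv a).pb.fin (g a)))).preimage
      (z_inj _).injOn
  obtain ⟨y, hy⟩ := h1.infinite_compl.nonempty
  have hB : ∀ x : Pt k Y.ξ, x.z = y.z → x ∉ B := fun x e hx => hy (Or.inl ⟨x, hx, e⟩)
  have hB' : Sub.pt (hLe a) y ∉ B := hB _ rfl
  have hd : IsDiscreteValuationRing y.ctr.O := hD.sm (Sub.pt (hLe a) y) a y rfl hB'
  obtain ⟨P, hP⟩ := (hC.crv a).ca.pt y
  have hO := (hC.crv a).bb.one y P hd hP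
  have hg : g a ∈ P.V := by
    by_cases h0 : g a = 0
    · rw [h0]
      exact zero_mem _
    · exact ((hC.crv a).pa.mem P _ h0).2
        (by_contra fun h => hy (Or.inr ⟨P, hP, fun e => h e.ge⟩))
  have hc : Cen (seg (Γ a).ξ (g a)) (seg y.z (P.val (g a))) P :=
    ((hS k _ N (Γ a).ξ (g a)).cen (hC.crv a).pa P y.z hP).1 hg
  have hon : (gc Γ g B (Sum.inl a)).On (seg y.z (P.val (g a))) :=
    on_of_cen (hG.crv (Sum.inl a)).ca.cen hc
  have key : ∀ b w, Ovr y.z w → (gc Γ g B b).On w →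
      b = Sum.inl a ∧ w = seg y.z (P.val (g a)) := by
    rintro (b | b) w hw ⟨y', rfl⟩
    · obtain ⟨x, hx⟩ := (hS k _ N (Γ b).ξ (g b)).pts y'
      have e : x.z = y.z := Ovr.uniq x.nrm y.nrm hx hw
      have hb : b = a := by_contra fun h => hB' (hD.two _ b a ⟨x, e⟩ ⟨y, rfl⟩ h)
      subst hb
      obtain ⟨Q, hQ⟩ : ∃ Q : Place k (Γ b).K, Cen (seg (Γ b).ξ (g b)) y'.z Q :=
        (hG.crv (Sum.inl b)).ca.pt y'
      have h2 : Cen (Γ b).ξ y.z Q := ((hC.crv b).ca.cen.dom y Q).2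
        (((hS k _ N (Γ b).ξ (g b)).le y y' hw).trans
          (((hG.crv (Sum.inl b)).ca.cen.dom y' Q).1 hQ))
      have h3 : Q = P := Place.ext (ValuationSubring.toSubring_injective
        (((hC.crv b).bb.one y Q hd h2).trans hO.symm))
      subst h3
      exact ⟨rfl, (hG.crv (Sum.inl b)).ca.cen.uniq _ _ Q hQ hc⟩
    · obtain ⟨x, hx⟩ := (hS k (RatFunc k) N (fun j => algebraMap k (RatFunc k) (b.1.z j))
        RatFunc.X).pts y'
      have e : x.z = y.z := Ovr.uniq x.nrm y.nrm hx hw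
      exact absurd b.2 (hB _ ((pt_const b.1.nrm x).symm.trans e))
  refine ⟨y.z, P.val (g a), ⟨_, y.nrm⟩, ⟨_, hon⟩,
    fun b h => seg_ne y.nrm _ (key b _ (Or.inr rfl) h).2.symm, fun b t ht h => ht ?_, ?_⟩
  · have h2 := congrFun (key b _ (Or.inl ⟨t, rfl⟩) h).2 (fr y.ctr.idx)
    rwa [seg_fr, seg_fr, y.nrm.1, mul_one, mul_one] at h2
  · obtain ⟨n, G, h2, h3, h4⟩ := exists_eqn y (g := g a) (hO ▸ hg) (P.val (g a))
    obtain ⟨U, h5, h6, h7⟩ := exists_sep (gc Γ g B) {b | b ≠ Sum.inl a} (Set.toFinite _)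
      (y.nrm.app_left fun j => P.val (g a) * y.z j)
      fun b hb h => hb (key b _ (Or.inl ⟨_, rfl⟩) h).1
    have h8 : eval (seg y.z (P.val (g a))) G = 0 := ((Var.on_iff _ _).1 hon).2 n G h2 h3
    refine ⟨U * G, h5.mul (Form.of h2), fun b => ?_, ?_⟩
    · rw [map_mul]
      by_cases hb : b = Sum.inl a
      · subst hb
        exact mul_eq_zero_of_right _ h3
      · exact mul_eq_zero_of_left (h6 b hb) _
    · rw [CTanA.dEv_mul, h8, mul_zero, zero_add]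
      exact mul_ne_zero h7 h4

end Pool.Agent.MP_f3836a_nt.PK
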