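import Pool.Agent.MP_f3836a_nt.PK.SpecF

set_option autoImplicit false

/-! The graphs and the vertical lines form a planar configuration. -/

namespace Pool.Agent.MP_f3836a_nt.PK

open MvPolynomial IsLocalRing

universe u

namespace FGrP

variable {k : Type u} [Field k] {N : ℕ}

/-- `z` lies above `x` -/
def Abv (z : Fin (N + 1 + N + 1) → k) (x : Fin (N + 1) → k) : Prop :=
  (∃ t, z = seg x t) ∨ z = app 0 x

theorem seg_inj {x : Fin (N + 1) → k} {i : Fin (N + 1)} (h : Nrm x i) {s t : k}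
    (e : seg x s = seg x t) : s = t := by
  have h1 := congrFun e (fr i)
  rwa [seg_fr, seg_fr, h.1, mul_one, mul_one] at h1

theorem seg_ne {x w : Fin (N + 1) → k} {i : Fin (N + 1)} (h : Nrm x i) (t : k) :
    seg x t ≠ app 0 w := fun e => by
  have h1 := congrFun e (fl i)
  rw [seg_fl, app_fl, h.1] at h1
  exact one_ne_zero h1

theorem Abv.uniq {z : Fin (N + 1 + N + 1) → k} {x w : Fin (N + 1) → k} {i j : Fin (N + 1)}
    (hx : Nrm x i) (hw : Nrm w j) (h : Abv z x) (h' : Abv z w) : x = w := by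
  rcases h with ⟨s, rfl⟩ | rfl <;> rcases h' with ⟨t, e⟩ | e
  · funext l
    simpa using congrFun e (fl l)
  · exact absurd e (seg_ne hx s)
  · exact absurd e.symm (seg_ne hw t)
  · funext l
    simpa using congrFun e (fr l)

section
variable {L : Type u} [Field L] [Algebra k L] {η : Fin (N + 1) → L} {g : L}

/-- a place centred at a point of the graph is centred at the point below -/
theorem below (hs : SegA k η g) (h : CenA k η) (h' : CenA (N := N + 1 + N) k (seg η g))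
    (x : Pt k η) (y : Pt (N := N + 1 + N) k (seg η g)) (e : Abv y.z x.z) (P : Place k L)
    (hP : Cen (N := N + 1 + N) (seg η g) y.z P) : Cen η x.z P :=
  (h.dom x P).2 ((hs.le x y e).trans ((h'.dom y P).1 hP))

theorem fin_eq (hs : SegA k η g) (ha : PlA k L) (h' : CenA (N := N + 1 + N) k (seg η g))
    {x : Fin (N + 1) → k} {z : Fin (N + 1 + N + 1) → k} {P : Place k L} (hx : Cen η x P)
    (hz : Cen (N := N + 1 + N) (seg η g) z P) (hg : g ∈ P.V) : z = seg x (P.val g) :=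
  h'.uniq _ _ P hz ((hs.cen ha P x hx).1 hg)

theorem inf_eq (hs : SegA k η g) (ha : PlA k L) (h' : CenA (N := N + 1 + N) k (seg η g))
    {x : Fin (N + 1) → k} {z : Fin (N + 1 + N + 1) → k} {P : Place k L} (hx : Cen η x P)
    (hz : Cen (N := N + 1 + N) (seg η g) z P) (hg : g ∉ P.V) : z = app 0 x :=
  h'.uniq _ _ P hz ((hs.cen ha P x hx).2 hg)

/-- a constant vector has one point -/
theorem pt_const {x : Fin (N + 1) → k} {i : Fin (N + 1)} (h : Nrm x i)
    (w : Pt k fun j => algebraMap k L (x j)) : w.z = x := by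
  have h1 : ∀ j, w.z j = x j * w.z i := fun j => by
    have h2 := w.van 1 (X j - C (x j) * X i)
      ((isHomogeneous_X k j).sub ((isHomogeneous_X k i).C_mul _)) (by simp [h.1])
    simpa [sub_eq_zero] using h2
  have h3 := w.nrm
  have h4 := h1 w.ctr.idx
  rw [h3.1] at h4
  have h5 : w.ctr.idx = i := by
    rcases lt_trichotomy w.ctr.idx i with hl | hl | hl
    · rw [h.2 _ hl, zero_mul] at h4
      exact absurd h4 one_ne_zero
    · exact hl
    · rw [h3.2 _ hl, mul_zero] at h4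
      exact absurd h4 one_ne_zero
  rw [h5] at h3
  funext j
  rw [h1 j, h3.1, mul_one]

theorem cen_const {x : Fin (N + 1) → k} {i : Fin (N + 1)} (h : Nrm x i) (P : Place k L) :
    Cen (fun j => algebraMap k L (x j)) x P :=
  ⟨i, h, by simp [h.1], fun j => Or.inl (by simp [h.1])⟩

end

section
variable {K : Type u} [Field K] [Algebra k K] {ξ : Fin (N + 1) → K}

theorem lin_abv (x : Pt k ξ)
    (hs : SegA k (fun j => algebraMap k (RatFunc k) (x.z j)) RatFunc.X)
    {z : Fin (N + 1 + N + 1) → k} (h : x.lin.On z) : Abv z x.z := by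
  obtain ⟨y, rfl⟩ := h
  obtain ⟨w, e⟩ := hs.pts y
  rw [pt_const x.nrm w] at e
  exact e

/-- the vertical line is nonsingular -/
theorem lin_sm (x : Pt k ξ) {pl : k → Place k (RatFunc k)} {Q : Place k (RatFunc k)}
    (hl : LinA k pl Q) (hs : SegA k (fun j => algebraMap k (RatFunc k) (x.z j)) RatFunc.X)
    (hc : CrvF x.lin) (y : Pt k x.lin.ξ) : IsDiscreteValuationRing y.ctr.O := by
  have ha : PlA k (RatFunc k) := hc.pa
  obtain ⟨P, hP⟩ := hc.ca.pt y
  rcases lin_abv x hs ⟨y, rfl⟩ with ⟨t, e⟩ | e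
  · have key : ∀ R : Place k (RatFunc k), Cen (N := N + 1 + N)
        (seg (fun j => algebraMap k (RatFunc k) (x.z j)) RatFunc.X) y.z R → R = pl t :=
        fun R hR => by
      have h1 : RatFunc.X ∈ R.V := by
        by_contra h1
        exact seg_ne x.nrm t (e.symm.trans (inf_eq hs ha hc.ca.cen (cen_const x.nrm R) hR h1))
      have h2 := seg_inj x.nrm (e.symm.trans (fin_eq hs ha hc.ca.cen (cen_const x.nrm R) hR h1))
      rcases hl.all R with ⟨c, rfl⟩ | rfl
      · rw [h2, (hl.mem c).2]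
      · exact absurd h1 hl.pole.1
    refine hc.bb.dvr y P hP (fun R hR => (key R hR).trans (key P hP).symm)
      (RatFunc.X - algebraMap k (RatFunc k) t : RatFunc k)
      (sub_mem (hs.fin _ t y e) (y.ctr.const_mem t)) (hl.ne t) ?_
    rw [key P hP]
    exact hl.one t
  · have key : ∀ R : Place k (RatFunc k), Cen (N := N + 1 + N)
        (seg (fun j => algebraMap k (RatFunc k) (x.z j)) RatFunc.X) y.z R → R = Q :=
        fun R hR => by
      rcases hl.all R with ⟨c, rfl⟩ | rfl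
      · exact absurd ((fin_eq hs ha hc.ca.cen (cen_const x.nrm _) hR (hl.mem c).1).symm.trans e)
          (seg_ne x.nrm _)
      · rfl
    have h0 : (RatFunc.X : RatFunc k) ≠ 0 := RatFunc.X_ne_zero
    refine hc.bb.dvr y P hP (fun R hR => (key R hR).trans (key P hP).symm)
      (RatFunc.X⁻¹ : RatFunc k) (hs.inf _ y e).2 (inv_ne_zero h0) ?_
    rw [key P hP]
    have h1 := ha.mul Q _ _ h0 (inv_ne_zero h0)
    have h2 := hl.pole.2 0
    have h3 := ha.con Q 1
    rw [map_zero, sub_zero] at h2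
    rw [map_one] at h3
    rw [mul_inv_cancel₀ h0, h3, h2] at h1
    change Q.ord (RatFunc.X⁻¹ : RatFunc k) = 1
    omega

end

variable {ι : Type u} {Y : Var k N} {Γ : ι → Var k N} {ψ : ∀ a, (Γ a).K} {B : Set (Pt k Y.ξ)}
  {g : ∀ a, (Γ a).K}

/-- the graph is nonsingular -/
theorem gr_sm (hd : GD Y Γ ψ B g) (a : ι) (hle : (Γ a).Le Y) (h0 : CrvF (Γ a))
    (hs : SegA k (Γ a).ξ (g a)) (hc : CrvF ((Γ a).gr (g a))) (y : Pt k ((Γ a).gr (g a)).ξ) :
    IsDiscreteValuationRing y.ctr.O := by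
  obtain ⟨x, e⟩ := hs.pts y
  obtain ⟨P, hP⟩ := hc.ca.pt y
  have hb := below hs h0.ca.cen hc.ca.cen x y e
  by_cases hB : Sub.pt hle x ∈ B
  · have hu := hd.uni _ hB a
    have h1 : ∀ R, Cen ((Γ a).gr (g a)).ξ y.z R → y.z = seg x.z (R.val (g a)) := fun R hR =>
      fin_eq hs h0.pa hc.ca.cen (hb R hR) hR (hu R (hb R hR)).1
    refine hc.bb.dvr y P hP (fun R hR => ?_)
      (g a - algebraMap k (Γ a).K (P.val (g a)) : (Γ a).K)
      (sub_mem (hs.fin _ _ y (h1 P hP)) (y.ctr.const_mem _)) (hu P (hb P hP)).2.1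
      (hu P (hb P hP)).2.2
    exact sigma_mk_injective (β := fun a => Place k (Γ a).K) (hd.sep _ hB a a R P (hb R hR)
      (hb P hP) (seg_inj x.nrm ((h1 R hR).symm.trans (h1 P hP))))
  · have h1 := hd.sm (Sub.pt hle x) a x rfl hB
    have h2 := h0.bb.one x P h1 (hb P hP)
    have h3 : (y.ctr.O : Subring (Γ a).K) = x.ctr.O :=
      le_antisymm (((hc.ca.cen.dom y P).1 hP).trans h2.le) (hs.le x y e)
    have h4 : ∀ R : Subring (Γ a).K, R = x.ctr.O → IsDiscreteValuationRing R := by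
      rintro _ rfl
      exact h1
    exact h4 _ h3

/-- different graphs do not meet -/
theorem gr_eq (hd : GD Y Γ ψ B g) (hle : ∀ a, (Γ a).Le Y) (h0 : ∀ a, CrvF (Γ a))
    (hs : ∀ a, SegA k (Γ a).ξ (g a)) (hc : ∀ a, CrvF ((Γ a).gr (g a)))
    {z : Fin (N + 1 + N + 1) → k} {a b : ι} (ha : ((Γ a).gr (g a)).On z)
    (hb : ((Γ b).gr (g b)).On z) : a = b := by
  by_contra hne
  obtain ⟨y, hy⟩ := ha
  obtain ⟨y', hy'⟩ := hb
  obtain ⟨x, e⟩ := (hs a).pts y
  obtain ⟨x', e'⟩ := (hs b).pts y'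
  obtain ⟨P, hP⟩ := (hc a).ca.pt y
  obtain ⟨Q, hQ⟩ := (hc b).ca.pt y'
  have h1 := below (hs a) (h0 a).ca.cen (hc a).ca.cen x y e P hP
  have h2 := below (hs b) (h0 b).ca.cen (hc b).ca.cen x' y' e' Q hQ
  have h3 : x.z = x'.z := Abv.uniq (z := z) x.nrm x'.nrm (hy ▸ e) (hy' ▸ e')
  have hB : Sub.pt (hle a) x ∈ B := hd.two _ a b ⟨x, rfl⟩ ⟨x', h3.symm⟩ hne
  rw [← h3] at h2
  have h4 := fin_eq (hs a) (h0 a).pa (hc a).ca.cen h1 hP (hd.uni _ hB a P h1).1
  have h5 := fin_eq (hs b) (h0 b).pa (hc b).ca.cen h2 hQ (hd.uni _ hB b Q h2).1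
  exact hne (congrArg Sigma.fst (hd.sep _ hB a b P Q h1 h2
    (seg_inj x.nrm (h4.symm.trans ((hy.trans hy'.symm).trans h5)))))

end FGrP

open FGrP in
theorem rGrP : RLine.{u} → RSeg.{u} → RGrP.{u} := by
  intro hL hS k _ _ p _ _ N Y ι Γ ψ hΓ hle _ B g hd hC
  obtain ⟨pl, Q, hl⟩ := hL k p
  have hs : ∀ a, SegA k (Γ a).ξ (g a) := fun a => hS k _ N _ _
  have hc : ∀ a, CrvF ((Γ a).gr (g a)) := fun a => hC.crv (Sum.inl a)
  have h1 : ∀ z a b, (gc Γ g B (Sum.inl a)).On z → (gc Γ g B (Sum.inl b)).On z →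
      (Sum.inl a : ι ⊕ B) = Sum.inl b := fun z a b ha hb =>
    congrArg _ (gr_eq hd hle hΓ.crv hs hc ha hb)
  have h2 : ∀ z a b, (gc Γ g B (Sum.inr a)).On z → (gc Γ g B (Sum.inr b)).On z →
      (Sum.inr a : ι ⊕ B) = Sum.inr b := fun z a b ha hb =>
    congrArg _ (Subtype.ext (Pt.ext (Abv.uniq a.1.nrm b.1.nrm
      (lin_abv a.1 (hS k _ N _ _) ha) (lin_abv b.1 (hS k _ N _ _) hb))))
  refine ⟨?_, ?_⟩
  · rintro (a | x) y
    · exact gr_sm hd a (hle a) (hΓ.crv a) (hs a) (hc a) y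
    · exact lin_sm x.1 hl (hS k _ N _ _) (hC.crv (Sum.inr x)) y
  · rintro z (a | a) (b | b) (c | c) ha hb hc'
    · exact Or.inl (h1 z a b ha hb)
    · exact Or.inl (h1 z a b ha hb)
    · exact Or.inr (Or.inl (h1 z a c ha hc'))
    · exact Or.inr (Or.inr (h2 z b c hb hc'))
    · exact Or.inr (Or.inr (h1 z b c hb hc'))
    · exact Or.inr (Or.inl (h2 z a c ha hc'))
    · exact Or.inl (h2 z a b ha hb)
    · exact Or.inl (h2 z a b ha hb)

end Pool.Agent.MP_f3836a_nt.PK
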