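import Pool.Agent.MP_f3836a_nt.PK.SpecF

set_option autoImplicit false

/-! The induction on the dimension and the reduction to connected configurations. -/

namespace Pool.Agent.MP_f3836a_nt.PK

open MvPolynomial

universe u

namespace FInd

variable {k : Type u} [Field k] {N : ℕ} {ι : Type u} {Γ : ι → Var k N}

theorem on_of_cen {V : Var k N} (h : CrvF V) {z : Fin (N + 1) → k} {P : Place k V.K}
    (hP : Cen V.ξ z P) : V.On z :=
  (h.ca.cen.ex P).elim fun x hx => ⟨x, h.ca.cen.uniq _ _ P hx hP⟩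

theorem term_zero {V : Var k N} (h : CrvF V) {z : Fin (N + 1) → k} (hz : ¬ V.On z) (f : V.K) :
    ∑ᶠ (P : Place k V.K) (_ : Cen V.ξ z P), P.ord f = 0 := by
  classical
  exact finsum_eq_zero_of_forall_eq_zero fun _ =>
    finsum_eq_if.trans (if_neg fun hP => hz (on_of_cen h hP))

theorem conf_sub (h : Conf Γ) (s : Set ι) : Conf fun a : s => Γ a :=
  ⟨have := h.fin; inferInstance, fun a => h.crv a, fun a b e => Subtype.ext (h.ne a b e)⟩

theorem cyc_sub (h : Conf Γ) {ψ : ∀ a, (Γ a).K} (hψ : BCyc Γ ψ) (s : Set ι)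
    (hs : ∀ a ∈ s, ∀ b z, (Γ a).On z → (Γ b).On z → b ∈ s) :
    BCyc (fun a : s => Γ a) fun a => ψ a := by
  classical
  refine ⟨fun a => hψ.ne a, fun z => ?_⟩
  by_cases h0 : ∃ a ∈ s, (Γ a).On z
  · obtain ⟨a, ha, hz⟩ := h0
    refine Eq.trans ?_ (hψ.div z)
    refine (finsum_set_coe_eq_finsum_mem (f := fun b =>
      ∑ᶠ (P : Place k (Γ b).K) (_ : Cen (Γ b).ξ z P), P.ord (ψ b)) s).trans ?_
    refine finsum_congr fun b => ?_
    by_cases hb : b ∈ s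
    · exact finsum_eq_if.trans (if_pos hb)
    · rw [term_zero (h.crv b) fun hbz => hb (hs a ha b z hz hbz)]
      exact finsum_zero
  · exact finsum_eq_zero_of_forall_eq_zero fun a =>
      term_zero (h.crv a) (fun hz => h0 ⟨a, a.2, hz⟩) _

/-- two curves meet -/
def Meet (Γ : ι → Var k N) (a b : ι) : Prop := ∃ z, (Γ a).On z ∧ (Γ b).On z

theorem conn_cls (q : Quot (Meet Γ)) :
    Conn fun a : {a | Quot.mk (Meet Γ) a = q} => Γ a := by
  rintro s ⟨c, hc⟩ hs b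
  have h1 : ∀ a a', Meet Γ a a' → (∃ h, (⟨a, h⟩ : {a | Quot.mk (Meet Γ) a = q}) ∈ s) →
      ∃ h, (⟨a', h⟩ : {a | Quot.mk (Meet Γ) a = q}) ∈ s := by
    rintro a a' ⟨z, h1, h2⟩ ⟨h, ha⟩
    have h3 : Quot.mk (Meet Γ) a' = q := (Quot.sound ⟨z, h1, h2⟩).symm.trans h
    exact ⟨h3, hs _ ha ⟨a', h3⟩ z h1 h2⟩
  have h2 : ∀ a a', Relation.EqvGen (Meet Γ) a a' →
      ((∃ h, (⟨a, h⟩ : {a | Quot.mk (Meet Γ) a = q}) ∈ s) ↔
        ∃ h, (⟨a', h⟩ : {a | Quot.mk (Meet Γ) a = q}) ∈ s) := by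
    intro a a' h
    induction h with
    | rel x y h => exact ⟨h1 x y h, h1 y x (h.imp fun _ h => h.symm)⟩
    | refl x => rfl
    | symm x y _ ih => exact ih.symm
    | trans x y z _ _ ih ih' => exact ih.trans ih'
  obtain ⟨_, h⟩ := (h2 c b (Quot.eqvGen_exact (c.2.trans b.2.symm))).1 ⟨c.2, hc⟩
  exact h

end FInd

open FInd

theorem rStep : RCut.{u} → RDiv.{u} → RStep.{u} := by
  intro hC hD k _ _ N e Z ι Γ E he hZ hΓ hP hc hle hne hE
  obtain ⟨W, hW, h0, hJ⟩ := hC k N (e + 1) Z ι Γ E (by omega) hZ hΓ hP hle hne hE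
  obtain ⟨a⟩ := hne
  have := (hΓ.crv a).ca.inf
  obtain ⟨y⟩ : Nonempty (Pt k (Γ a).ξ) := inferInstance
  obtain ⟨Z', h1, h2, h3, h4, h5⟩ := hD k N e Z W hZ hW (Sub.pt (hle a) y)
    (y.van _ W hW.1 (h0 a))
  refine ⟨W, Z', hW.1, h1, h2, h3, hc {b | (Γ b).Le Z'}
    ⟨a, h5 _ (hle a) (h0 a) ⟨y.z, ⟨y, rfl⟩, h4⟩⟩ fun b hb c z hz hz' => ?_, hJ⟩
  exact h5 _ (hle c) (h0 c) ⟨z, hz', Var.Le.on hb hz⟩

theorem rInd : RStep.{u} → RInd.{u} := by
  intro hS k _ _ N d Z ι Γ hd hZ hΓ hP hc hle hne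
  induction d, hd using Nat.le_induction generalizing Z with
  | base => exact ⟨Z, hZ, fun _ _ _ h => h, hle⟩
  | succ e he ih =>
    obtain ⟨_, Z', -, h1, h2, -, h3, -⟩ := hS k N e Z ι Γ ∅ he hZ hΓ hP hc hle hne
      ⟨Set.finite_empty, fun _ h => h.elim⟩
    obtain ⟨S, h4, h5, h6⟩ := ih Z' h1 h3
    exact ⟨S, h4, fun n G hG e => h5 n G hG (h2 n G hG e), h6⟩

theorem rSplit : RSplit.{u} := by
  classical
  intro k _ N ι Γ ψ t hΓ hψ h
  have := hΓ.fin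
  have := Fintype.ofFinite ι
  have := Fintype.ofFinite (Quot (Meet Γ))
  rw [finsum_eq_sum_of_fintype, ← Fintype.sum_fiberwise (Quot.mk (Meet Γ))]
  refine Finset.sum_eq_zero fun q _ => ?_
  have h1 := h {a | Quot.mk (Meet Γ) a = q} (Quot.exists_rep q) (conf_sub hΓ _) (conn_cls q)
    (cyc_sub hΓ hψ _ fun a ha b z h1 h2 => (Quot.sound ⟨z, h2, h1⟩).trans ha)
  rw [finsum_eq_sum_of_fintype] at h1
  exact h1

end Pool.Agent.MP_f3836a_nt.PK
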