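import Pool.Agent.MP_f3836a_nt.PK.SpecF
import Pool.Agent.MP_f3836a_nt.PK.BJetG
import Pool.Agent.MP_f3836a_nt.PK.Tr

set_option autoImplicit false

/-! A linear system containing all multiples of given forms with base curves. -/

namespace Pool.Agent.MP_f3836a_nt.PK

open MvPolynomial BJetG

universe u

namespace FJet

section
variable {Ω : Type u} [Field Ω] {N : ℕ} {𝒮 𝒯 : Set (Pol Ω N)} {z : Fin (N + 1) → Ω}
  {i : Fin (N + 1)}

theorem dEv_sub (G : Pol Ω N) (τ τ' : Fin (N + 1) → Ω) (c : Ω) :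
    dEv z G (τ' - c • τ) = dEv z G τ' - c * dEv z G τ := by
  simp only [dEv, Finset.mul_sum, ← Finset.sum_sub_distrib, Pi.sub_apply, Pi.smul_apply,
    smul_eq_mul]
  exact Finset.sum_congr rfl fun j _ => by ring

theorem ex_ne {r : ℕ} (h : ¬ Sml r 𝒮 z i) (J : Finset (Fin (N + 1))) (hJ : J.card ≤ r) :
    ∃ τ, Tan 𝒮 z i τ ∧ (∀ j ∈ J, τ j = 0) ∧ τ ≠ 0 := by
  by_contra hc
  refine h ⟨J, hJ, fun τ h1 h2 => ?_⟩
  by_contra h3
  exact hc ⟨τ, h1, h2, h3⟩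

theorem sep {J : Finset (Fin (N + 1))}
    (hJ : ∀ τ, Tan (𝒮 ∪ 𝒯) z i τ → (∀ j ∈ J, τ j = 0) → τ = 0) {τ : Fin (N + 1) → Ω}
    (h1 : Tan 𝒮 z i τ) (h2 : ∀ j ∈ J, τ j = 0) (h3 : τ ≠ 0) : ∃ A ∈ 𝒯, dEv z A τ ≠ 0 := by
  by_contra hc
  refine h3 (hJ τ ⟨h1.1, fun G hG => hG.elim (h1.2 G) fun h => ?_⟩ h2)
  by_contra h4
  exact hc ⟨G, h, h4⟩

theorem dEv_mulX (hz : z i = 1) (A : Pol Ω N) (e : ℕ) {τ : Fin (N + 1) → Ω} (hτ : τ i = 0) :
    dEv z (A * X i ^ e) τ = dEv z A τ := by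
  rw [dEv_mul, dEv_pow z τ hτ, map_pow, eval_X, hz, one_pow, mul_zero, zero_add, mul_one]

/-- two tangent vectors with a triangular system of differentials -/
theorem two {l : Fin (N + 1)} (h : ¬ Sml 2 𝒮 z i)
    (hl : ∀ τ, Tan (𝒮 ∪ 𝒯) z i τ → (∀ j ∈ ({l} : Finset (Fin (N + 1))), τ j = 0) → τ = 0) :
    ∃ τ₁ τ₂, Tan 𝒮 z i τ₁ ∧ Tan 𝒮 z i τ₂ ∧ ∃ A₁ ∈ 𝒯, ∃ A₂ ∈ 𝒯,
      dEv z A₁ τ₁ ≠ 0 ∧ dEv z A₁ τ₂ = 0 ∧ dEv z A₂ τ₂ ≠ 0 := by
  classical
  obtain ⟨τ₁, a1, a2, a3⟩ := ex_ne h {l} (by simp)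
  obtain ⟨p, hp⟩ := Function.ne_iff.1 a3
  obtain ⟨τ', b1, b2, b3⟩ := ex_ne h {l, p} Finset.card_le_two
  obtain ⟨A₁, hA₁, c1⟩ := sep hl a1 a2 a3
  set c := dEv z A₁ τ' / dEv z A₁ τ₁ with hc
  have d1 : Tan 𝒮 z i (τ' - c • τ₁) :=
    ⟨by simp [a1.1, b1.1], fun G hG => by rw [dEv_sub, a1.2 G hG, b1.2 G hG]; simp⟩
  obtain ⟨A₂, hA₂, c2⟩ := sep hl d1 (fun j hj => by
    simp [a2 j hj, b2 j (by simp [Finset.mem_singleton.1 hj])]) fun e => by
    have h1 := congrFun e p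
    simp only [Pi.sub_apply, Pi.smul_apply, smul_eq_mul, b2 p (by simp), zero_sub, Pi.zero_apply,
      neg_eq_zero, mul_eq_zero] at h1
    rw [h1.resolve_right hp, zero_smul, sub_zero] at e
    exact b3 e
  exact ⟨τ₁, _, a1, d1, A₁, hA₁, A₂, hA₂, c1, by rw [dEv_sub, hc, div_mul_cancel₀ _ c1, sub_self],
    c2⟩

end

variable {k : Type u} [Field k] {N m : ℕ} (L : Type u) [Field L] [Algebra k L]
  (B : Fin m → Pol k N)

/-- the jets away from the base locus -/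
theorem off {z : Fin (N + 1) → L} {i : Fin (N + 1)} (hz : z i = 1) {F : Pol L N} {e : ℕ}
    (hs : eval z F ≠ 0) (hm : ∀ j, F * (X i ^ e * X j) ∈
      Submodule.span L (Set.range fun j => map (algebraMap k L) (B j))) (c : L)
    (δ : Fin (N + 1) → L) : ∃ b : Fin m → L, eval z (cmb L B b) = c ∧
      ∀ τ, τ i = 0 → dEv z (cmb L B b) τ = ∑ j, δ j * τ j := by
  let μ : Fin (N + 1) → L := fun j => (δ j - eval z (pderiv j F) * (c / eval z F)) / eval z F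
  obtain ⟨b, hb⟩ := ex_cmb L B (Submodule.add_mem _
    (Submodule.sum_mem _ fun j (_ : j ∈ Finset.univ) => Submodule.smul_mem _ (μ j) (hm j))
    (Submodule.smul_mem _ (c / eval z F - ∑ j, μ j * z j) (hm i)))
  simp only [smul_eq_C_mul] at hb
  have e1 : ∑ j, μ j * (eval z F * z j) = eval z F * ∑ j, μ j * z j := by
    rw [Finset.mul_sum]; exact Finset.sum_congr rfl fun j _ => by ring
  refine ⟨b, ?_, fun τ hτ => ?_⟩
  · simp only [hb, map_add, map_sum, map_mul, eval_C, map_pow, eval_X, hz, one_pow, one_mul, e1]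
    field_simp
    ring
  · have e2 : ∑ j, δ j * τ j = ∑ j, μ j * (eval z F * τ j) + dEv z F τ * (c / eval z F) := by
      rw [dEv, Finset.sum_mul, ← Finset.sum_add_distrib]
      refine Finset.sum_congr rfl fun j _ => ?_
      simp only [μ]
      field_simp
      ring
    have e3 : ∑ j, μ j * (dEv z F τ * z j) = dEv z F τ * ∑ j, μ j * z j := by
      rw [Finset.mul_sum]; exact Finset.sum_congr rfl fun j _ => by ring
    rw [hb, dEv_add, dEv_sum, e2]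
    simp only [dEv_mul, dEv_C, dEv_X, dEv_pow z τ hτ, eval_C, map_mul, map_pow, eval_X, hz, hτ,
      one_pow, one_mul, zero_mul, add_zero, mul_zero, zero_add, mul_add, Finset.sum_add_distrib, e3]
    ring

theorem span_zero {w τ : Fin (N + 1) → k} (h : ∀ j, dEv w (B j) τ = 0) :
    ∀ G ∈ Submodule.span k (Set.range B), dEv w G τ = 0 := fun G hG => by
  induction hG using Submodule.span_induction with
  | mem x hx =>
    obtain ⟨j, rfl⟩ := hx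
    exact h j
  | zero => exact dEv_zero w τ
  | add x y _ _ a b => rw [dEv_add, a, b, add_zero]
  | smul c x _ a => rw [smul_eq_C_mul, dEv_mul, a, dEv_C, mul_zero, zero_mul, add_zero]

end FJet

open FJet in
theorem rJetG2 : RExN2.{u} → RJetG2.{u} := by
  classical
  rintro hN k _ _ N n m 𝒢 𝒜 B hA hB h2 h2' ⟨Z₀, h1⟩ L _ _ i z hz hV
  by_cases h0 : ∃ A ∈ 𝒜, eval z (map (algebraMap k L) A) ≠ 0
  · obtain ⟨A, hA', hs⟩ := h0
    obtain ⟨e, he⟩ : ∃ e, n - A.totalDegree = e + 1 :=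
      ⟨n - A.totalDegree - 1, by have := (hA A hA').2; omega⟩
    refine Or.inl (off L B hz.1 (e := e) hs fun j => ?_)
    have := map_mem L B (hB A hA' (X i ^ e * X j)
      (he ▸ (isHomogeneous_X_pow i e).mul (isHomogeneous_X k j)))
    rwa [map_mul, map_mul, map_pow, map_X, map_X] at this
  push Not at h0
  have eU : ext L (𝒢 ∪ 𝒜) = ext L 𝒢 ∪ ext L 𝒜 := by
    rw [ext, Finset.coe_union, Set.image_union]
    rfl
  have hU : OnV (ext L (𝒢 ∪ 𝒜)) z := by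
    rw [eU]
    rintro G (hG | ⟨A, hA', rfl⟩)
    exacts [hV G hG, h0 A hA']
  refine Or.inr ?_
  rcases (hN k N 1 (𝒢 ∪ 𝒜) L).2 Z₀ (by rwa [Finset.coe_union]) i z hz hU with
    ⟨w, -, rfl⟩ | ⟨J, hJ, hJ'⟩
  · have hn : Nrm w i := ⟨(algebraMap k L).injective (hz.1.trans (map_one _).symm),
      fun j hj => (algebraMap k L).injective ((hz.2 j hj).trans (map_zero _).symm)⟩
    have hw : OnV ((𝒢 : Set (Pol k N)) ∪ 𝒜) w := fun G hG => by
      apply (algebraMap k L).injective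
      rw [map_eval, map_zero]
      exact hU _ ⟨G, by rwa [Finset.coe_union], rfl⟩
    obtain ⟨J, hJ, hJ'⟩ := h2' i w hn hw
    obtain ⟨τ, t1, t2, t3⟩ := ex_ne (h2 i w hn fun G hG => hw G (Or.inl hG)) J hJ
    obtain ⟨A, hA', hd⟩ := sep hJ' t1 t2 t3
    refine Or.inl ⟨w, rfl, ?_⟩
    by_contra hc
    have h4 := span_zero B (w := w) (τ := τ) (fun j => by
      by_contra h4
      exact hc ⟨j, Or.inr ⟨τ, t1, h4⟩⟩) _ (hB A hA' _ (isHomogeneous_X_pow i _))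
    rw [dEv_mulX hn.1 _ _ t1.1] at h4
    exact hd h4
  · obtain ⟨l, hl⟩ := Finset.card_le_one_iff_subset_singleton.1 hJ
    have hl' : ∀ τ, Tan (ext L (𝒢 ∪ 𝒜)) z i τ →
        (∀ j ∈ ({l} : Finset (Fin (N + 1))), τ j = 0) → τ = 0 :=
      fun τ a b => hJ' τ a fun j hj => b j (hl hj)
    have halg := rTr k L (N + 1) ((𝒢 ∪ 𝒜 : Finset (Pol k N)) : Set (Pol k N)) z i {l} hz.1
      (fun G hG => by
        rw [aeval_def, ← eval_map]
        exact hU _ ⟨G, hG, rfl⟩)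
      fun τ a b c => hl' τ ⟨a, by rintro _ ⟨G, hG, rfl⟩; exact c G hG⟩ b
    rw [Finset.coe_singleton, Set.image_singleton] at halg
    rw [eU] at hl'
    obtain ⟨τ₁, τ₂, t1, t2, _, ⟨A₁, hA₁, rfl⟩, _, ⟨A₂, hA₂, rfl⟩, c1, c2, c3⟩ :=
      two ((hN k N 2 𝒢 L).1 h2 i z hz hV) hl'
    refine Or.inr ⟨l, τ₁, τ₂, fun j => halg _ (IntermediateField.subset_adjoin _ _ ⟨j, rfl⟩), t1,
      t2, fun c₁ c₂ => ?_⟩
    have hm : ∀ A ∈ 𝒜, map (algebraMap k L) A * X i ^ (n - A.totalDegree) ∈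
        Submodule.span L (Set.range fun j => map (algebraMap k L) (B j)) := fun A hA' => by
      have := map_mem L B (hB A hA' _ (isHomogeneous_X_pow i _))
      rwa [map_mul, map_pow, map_X] at this
    obtain ⟨b, hb⟩ := ex_cmb L B (Submodule.add_mem _ (Submodule.smul_mem _
      ((c₁ - c₂ / dEv z (map (algebraMap k L) A₂) τ₂ * dEv z (map (algebraMap k L) A₂) τ₁) /
        dEv z (map (algebraMap k L) A₁) τ₁) (hm A₁ hA₁))
      (Submodule.smul_mem _ (c₂ / dEv z (map (algebraMap k L) A₂) τ₂) (hm A₂ hA₂)))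
    simp only [smul_eq_C_mul] at hb
    refine ⟨b, ?_, ?_⟩
    · rw [hb, dEv_add, dEv_mul, dEv_mul z τ₁ (C _), dEv_mulX hz.1 _ _ t1.1, dEv_mulX hz.1 _ _ t1.1,
        dEv_C, dEv_C, eval_C, eval_C]
      field_simp
      ring
    · rw [hb, dEv_add, dEv_mul, dEv_mul z τ₂ (C _), dEv_mulX hz.1 _ _ t2.1, dEv_mulX hz.1 _ _ t2.1,
        dEv_C, dEv_C, eval_C, eval_C, c2]
      field_simp
      ring

end Pool.Agent.MP_f3836a_nt.PK
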