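import Pool.Agent.MP_f3836a_nt.PK.SpecF

set_option autoImplicit false

/-! The product of a nonsingular variety with the line. -/

namespace Pool.Agent.MP_f3836a_nt.PK

open MvPolynomial IsLocalRing

universe u

namespace FProd

/-- a localization of the polynomial ring at a rational point of the closed fibre -/
theorem reg {R S : Type u} [CommRing R] [IsRegularLocalRing R] [CommRing S] [IsDomain S]
    [IsLocalRing S] [IsNoetherianRing S] {d : ℕ} (hd : ringKrullDim R = d)
    (Ψ : Polynomial R →+* S) (inj : Function.Injective Ψ)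
    (sur : ∀ f : S, ∃ p q, IsUnit (Ψ q) ∧ f * Ψ q = Ψ p) (τ : R)
    (h1 : Ψ (Polynomial.X - Polynomial.C τ) ∈ maximalIdeal S)
    (h2 : ∀ a ∈ maximalIdeal R, Ψ (Polynomial.C a) ∈ maximalIdeal S) :
    IsRegularLocalRing S ∧ ringKrullDim S = (d + 1 : ℕ) := by
  have dec : ∀ p : Polynomial R, ∃ p', Ψ p =
      Ψ (Polynomial.X - Polynomial.C τ) * Ψ p' + Ψ (Polynomial.C (p.eval τ)) := fun p => by
    obtain ⟨p', h⟩ := Polynomial.X_sub_C_dvd_sub_C_eval (p := p) (a := τ)
    exact ⟨p', by rw [← map_mul, ← h, ← map_add, sub_add_cancel]⟩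
  let _ := Ψ.toAlgebra
  have loc : IsLocalization ((IsUnit.submonoid S).comap Ψ) S :=
    { map_units := fun q => q.2
      surj := fun f => by
        obtain ⟨p, q, hq, e⟩ := sur f
        exact ⟨(p, ⟨q, hq⟩), e⟩
      exists_of_eq := fun e => ⟨1, by rw [inj e]⟩ }
  have hu : ∀ q : (IsUnit.submonoid S).comap Ψ, IsUnit (Polynomial.evalRingHom τ q) := fun q => by
    obtain ⟨p', e⟩ := dec q
    by_contra h
    have h3 : Ψ q ∈ maximalIdeal S := e ▸ add_mem (Ideal.mul_mem_right _ _ h1) (h2 _ h)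
    exact h3 q.2
  have hr : ∀ p, IsLocalization.lift (S := S) hu (Ψ p) = p.eval τ := IsLocalization.lift_eq hu
  have lo := ringKrullDim_succ_le_of_surjective (IsLocalization.lift (S := S) hu)
    (fun a => ⟨Ψ (Polynomial.C a), by rw [hr, Polynomial.eval_C]⟩)
    (r := Ψ (Polynomial.X - Polynomial.C τ)) (mem_nonZeroDivisors_of_ne_zero
      ((map_ne_zero_iff _ inj).2 (Polynomial.X_sub_C_ne_zero τ))) (by rw [hr]; simp)
  have fg := (maximalIdeal R).fg_of_isNoetherianRing
  have fin := Submodule.FG.finite_generators fg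
  have e : maximalIdeal S = Ideal.span (insert (Ψ (Polynomial.X - Polynomial.C τ))
      ((Ψ.comp Polynomial.C) '' (maximalIdeal R).generators)) := by
    rw [Ideal.span_insert, ← Ideal.map_span, Ideal.span, Ideal.span,
      (maximalIdeal R).span_generators]
    refine le_antisymm (fun f hf => ?_) (sup_le ((Submodule.span_singleton_le_iff_mem _ _).2 h1)
      (Ideal.map_le_iff_le_comap.2 h2))
    obtain ⟨p, q, hq, e⟩ := sur f
    obtain ⟨p', e'⟩ := dec p
    rw [← Ideal.mul_unit_mem_iff_mem _ hq, e, e']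
    refine add_mem (Ideal.mem_sup_left (Ideal.mul_mem_right _ _
      (Submodule.mem_span_singleton_self _))) (Ideal.mem_sup_right
      (Ideal.mem_map_of_mem (Ψ.comp Polynomial.C) ?_))
    by_contra h
    have h3 : Ψ (Polynomial.C (p.eval τ)) ∈ maximalIdeal S := by
      have h4 : Ψ p ∈ maximalIdeal S := e ▸ Ideal.mul_mem_right _ _ hf
      rw [e'] at h4
      exact (Ideal.add_mem_iff_right _ (Ideal.mul_mem_right _ _ h1)).1 h4
    exact h3 (((notMem_maximalIdeal.1 h).map Polynomial.C).map Ψ)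
  have hs : (maximalIdeal R).spanFinrank = d := by
    have := IsRegularLocalRing.spanFinrank_maximalIdeal (R := R)
    rw [hd] at this
    exact_mod_cast this
  have up : (maximalIdeal S).spanFinrank ≤ d + 1 := by
    rw [e]
    refine (Submodule.spanFinrank_span_le_ncard_of_finite ((fin.image _).insert _)).trans
      ((Set.ncard_insert_le _ _).trans (Nat.succ_le_succ ((Set.ncard_image_le fin).trans ?_)))
    rw [Submodule.FG.generators_ncard fg, hs]
  have up' : ((maximalIdeal S).spanFinrank : WithBot ℕ∞) ≤ (d + 1 : ℕ) := by exact_mod_cast up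
  rw [hd] at lo
  have lo' : ((d + 1 : ℕ) : WithBot ℕ∞) ≤ ringKrullDim S := by exact_mod_cast lo
  exact ⟨IsRegularLocalRing.of_spanFinrank_maximalIdeal_le S (up'.trans lo'),
    le_antisymm ((ringKrullDim_le_spanFinrank_maximalIdeal S).trans up') lo'⟩

section
variable {k K F : Type u} [Field k] [Field K] [Field F] [Algebra k K] [Algebra k F] [Algebra K F]
  [IsScalarTower k K F] {N M : ℕ} {ξ : Fin (N + 1) → K} {ζ : Fin (M + 1) → F}
  {u v : Fin (N + 1) → Fin (M + 1)} {a T : F}

theorem aem (ξ : Fin (N + 1) → K) (A : Pol k N) :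
    aeval (fun j => algebraMap K F (ξ j)) A = algebraMap K F (aeval ξ A) :=
  aeval_algebraMap_apply F ξ A

theorem ren (hu : ∀ j, ζ (u j) = a * algebraMap K F (ξ j)) (ha : a ≠ 0) {n : ℕ} {A : Pol k N}
    (hA : A.IsHomogeneous n) :
    aeval ζ (rename u A : Pol k M) = a ^ n * algebraMap K F (aeval ξ A) := by
  have h := CTanA.aeval_div (ξ := ζ ∘ u) hA a
  have e : (fun j => (ζ ∘ u) j / a) = fun j => algebraMap K F (ξ j) := funext fun j => by
    rw [Function.comp_apply, hu, mul_div_cancel_left₀ _ ha]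
  rw [e, aem] at h
  rw [aeval_rename, h, mul_div_cancel₀ _ (pow_ne_zero _ ha)]

/-- the local rings in one chart -/
theorem chart (ha : a ≠ 0) (hT : Transcendental K T)
    (hu : ∀ j, ζ (u j) = a * algebraMap K F (ξ j))
    (hv : ∀ j, ζ (v j) = a * T * algebraMap K F (ξ j))
    (huv : ∀ s, (∃ j, s = u j) ∨ ∃ j, s = v j) (x : Pt k ξ) (y : Pt k ζ) (t : k)
    (yu : ∀ j, y.z (u j) = x.z j) (yv : ∀ j, y.z (v j) = t * x.z j) {d : ℕ}
    (hx : IsRegularLocalRing x.ctr.O ∧ ringKrullDim x.ctr.O = d) :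
    IsRegularLocalRing y.ctr.O ∧ ringKrullDim y.ctr.O = (d + 1 : ℕ) := by
  have := hx.1
  have := Ctr.noeth y.good
  have ev : ∀ A : Pol k N, eval y.z (rename u A : Pol k M) = eval x.z A := fun A => by
    rw [eval_rename, show y.z ∘ u = x.z from funext yu]
  have fr : ∀ {f : K} {n : ℕ} {A B : Pol k N}, A.IsHomogeneous n → B.IsHomogeneous n →
      f * aeval ξ B = aeval ξ A →
      algebraMap K F f * aeval ζ (rename u B : Pol k M) = aeval ζ (rename u A : Pol k M) := by
    intro f n A B hA hB e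
    rw [ren hu ha hA, ren hu ha hB, ← e, map_mul]
    ring
  have hm : ∀ f : x.ctr.O, algebraMap K F f ∈ y.ctr.O := fun ⟨f, n, A, B, hA, hB, hP, e⟩ =>
    ⟨n, rename u A, rename u B, hA.rename_isHomogeneous, hB.rename_isHomogeneous,
      by rwa [Pt.mem_P, ev], fr hA hB e⟩
  let ι : x.ctr.O →+* y.ctr.O := ((algebraMap K F).comp x.ctr.O.subtype).codRestrict _ hm
  have i1 : y.z (u x.ctr.idx) = 1 := by rw [yu, x.z_idx.1]
  have iP : (X (u x.ctr.idx) : Pol k M) ∉ y.ctr.P := by
    rw [Pt.mem_P, eval_X, i1]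
    exact one_ne_zero
  have i0 : algebraMap K F (ξ x.ctr.idx) ≠ 0 := (map_ne_zero _).2 (Ctr.xi_ne x.good)
  have hTm : T ∈ y.ctr.O := ⟨1, X (v x.ctr.idx), X (u x.ctr.idx), isHomogeneous_X _ _,
    isHomogeneous_X _ _, iP, by rw [aeval_X, aeval_X, hu, hv]; ring⟩
  let Ψ : Polynomial x.ctr.O →+* y.ctr.O := Polynomial.eval₂RingHom ι ⟨T, hTm⟩
  have ΨC : ∀ f, (Ψ (Polynomial.C f) : F) = algebraMap K F f := fun f =>
    congrArg Subtype.val (Polynomial.eval₂_C ι _)
  have ΨX : (Ψ Polynomial.X : F) = T := congrArg Subtype.val (Polynomial.eval₂_X ι _)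
  have ΨE : ∀ p, (Ψ p : F) = Polynomial.aeval T (p.map x.ctr.O.subtype) := fun p => by
    rw [Polynomial.aeval_def, Polynomial.eval₂_map]
    exact Polynomial.hom_eval₂ p ι y.ctr.O.subtype _
  have ran : ∀ (n : ℕ) (A : Pol k M), A.IsHomogeneous n →
      ∃ p, (Ψ p : F) * ζ (u x.ctr.idx) ^ n = aeval ζ A := by
    intro n A hA
    have key : ∀ G : Pol k M, ∃ p, (Ψ p : F) = aeval (fun s => ζ s / ζ (u x.ctr.idx)) G := by
      intro G
      induction G using MvPolynomial.induction_on with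
      | C c =>
        exact ⟨Polynomial.C (algebraMap k _ c), by
          rw [ΨC, aeval_C, Ctr.coe_algebraMap, ← IsScalarTower.algebraMap_apply]⟩
      | add p q hp hq =>
        obtain ⟨p', hp⟩ := hp
        obtain ⟨q', hq⟩ := hq
        exact ⟨p' + q', by rw [map_add, Subring.coe_add, hp, hq, map_add]⟩
      | mul_X p s hp =>
        obtain ⟨p', hp⟩ := hp
        have h1 : ∀ j, (Ψ (Polynomial.C (x.ctr.lx (X j))) : F) =
            algebraMap K F (ξ j) / algebraMap K F (ξ x.ctr.idx) := fun j => by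
          rw [ΨC, Ctr.coe_lx x.good (Form.of (isHomogeneous_X k j)), Ctr.lo_X, map_div₀]
        rcases huv s with ⟨j, rfl⟩ | ⟨j, rfl⟩
        · refine ⟨p' * Polynomial.C (x.ctr.lx (X j)), ?_⟩
          rw [map_mul, Subring.coe_mul, hp, h1, map_mul, aeval_X, hu, hu, mul_div_mul_left _ _ ha]
        · refine ⟨p' * (Polynomial.X * Polynomial.C (x.ctr.lx (X j))), ?_⟩
          rw [map_mul, map_mul, Subring.coe_mul, Subring.coe_mul, hp, h1, ΨX, map_mul, aeval_X,
            hu, hv, mul_assoc a, mul_div_mul_left _ _ ha, mul_div_assoc]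
    obtain ⟨p, hp⟩ := key A
    refine ⟨p, ?_⟩
    rw [hp, CTanA.aeval_div hA, div_mul_cancel₀ _ (pow_ne_zero _ ?_)]
    rw [hu]
    exact mul_ne_zero ha i0
  refine reg hx.2 Ψ ((injective_iff_map_eq_zero _).2 fun p hp => ?_) (fun f => ?_)
    (algebraMap k _ t) ?_ fun f hf => ?_
  · have h1 := ΨE p
    rw [hp] at h1
    exact (Polynomial.map_eq_zero_iff Subtype.val_injective).1
      (transcendental_iff.1 hT _ h1.symm)
  · obtain ⟨n, A, B, hA, hB, hP, e⟩ := f.2
    obtain ⟨p, hp⟩ := ran n A hA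
    obtain ⟨q, hq⟩ := ran n B hB
    refine ⟨p, q, ?_, Subtype.ext (mul_right_cancel₀ (pow_ne_zero n (a := ζ (u x.ctr.idx)) ?_) ?_)⟩
    · rw [← notMem_maximalIdeal, y.ctr.mem_max_iff _ hB (isHomogeneous_X_pow (u x.ctr.idx) n)
        (fun h => iP (y.ctr.prime.mem_of_pow_mem n h)) (by rwa [map_pow, aeval_X])]
      exact hP
    · rw [hu]
      exact mul_ne_zero ha i0
    · rw [Subring.coe_mul, mul_assoc, hq, hp, e]
  · rw [y.ctr.mem_max_iff _ ((isHomogeneous_X k (v x.ctr.idx)).sub
      ((isHomogeneous_X k (u x.ctr.idx)).C_mul t)) (isHomogeneous_X _ _) iP]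
    · rw [Pt.mem_P, map_sub, map_mul, eval_C, eval_X, eval_X, yu, yv, sub_self]
    · rw [map_sub, AddSubgroupClass.coe_sub, ΨX, ΨC, Ctr.coe_algebraMap,
        ← IsScalarTower.algebraMap_apply, map_sub, map_mul, aeval_C, aeval_X, aeval_X, hu, hv]
      ring
  · obtain ⟨n, A, B, hA, hB, hP, e⟩ := f.2
    rw [x.ctr.mem_max_iff f hA hB hP e] at hf
    rw [y.ctr.mem_max_iff _ hA.rename_isHomogeneous hB.rename_isHomogeneous
      (by rwa [Pt.mem_P, ev]) (by rw [ΨC]; exact fr hA hB e), Pt.mem_P, ev]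
    exact hf

end

section
variable {k : Type u} [Field k] {N : ℕ}

/-- all coefficients are forms of degree `n` -/
def Hc (n : ℕ) (p : Polynomial (Pol k N)) : Prop := ∀ m, (p.coeff m).IsHomogeneous n

theorem Hc.C {n : ℕ} {A : Pol k N} (h : A.IsHomogeneous n) : Hc n (Polynomial.C A) := fun m => by
  rw [Polynomial.coeff_C]
  split_ifs
  · exact h
  · exact isHomogeneous_zero _ _ _

theorem Hc.mul {a b : ℕ} {p q : Polynomial (Pol k N)} (hp : Hc a p) (hq : Hc b q) :
    Hc (a + b) (p * q) := fun m => by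
  rw [Polynomial.coeff_mul]
  exact IsHomogeneous.sum _ _ _ fun c _ => (hp _).mul (hq _)

theorem Hc.X : Hc 0 (Polynomial.X : Polynomial (Pol k N)) := fun m => by
  rw [Polynomial.coeff_X]
  split_ifs
  · exact isHomogeneous_one _ _
  · exact isHomogeneous_zero _ _ _

theorem Hc.pow {p : Polynomial (Pol k N)} (hp : Hc 1 p) (e : ℕ) : Hc e (p ^ e) := by
  induction e with
  | zero => exact Hc.C (isHomogeneous_one _ _)
  | succ e ih => rw [pow_succ]; exact ih.mul hp

theorem Hc.prod {ι : Type} (s : Finset ι) (f : ι → Polynomial (Pol k N)) (n : ι → ℕ)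
    (h : ∀ i, Hc (n i) (f i)) : Hc (∑ i ∈ s, n i) (∏ i ∈ s, f i) := by
  induction s using Finset.cons_induction with
  | empty => exact Hc.C (isHomogeneous_one _ _)
  | cons a s ha ih =>
    rw [Finset.sum_cons, Finset.prod_cons]
    exact (h a).mul ih

variable (k N) in
/-- the generic Segre substitution -/
noncomputable def gs : Fin (N + 1 + N + 1) → Polynomial (Pol k N) :=
  seg (fun j => Polynomial.C (X j)) Polynomial.X

theorem hc_gs {n : ℕ} {G : Pol k (N + 1 + N)} (hG : G.IsHomogeneous n) :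
    Hc n (aeval (gs k N) G) := fun m => by
  rw [aeval_def, eval₂_eq, Polynomial.finsetSum_coeff]
  refine IsHomogeneous.sum _ _ _ fun d hd => ?_
  have h := (Hc.C (isHomogeneous_C (Fin (N + 1)) (coeff d G))).mul
    (Hc.prod d.support (fun s => gs k N s ^ d s) d fun s => Hc.pow (by
      rcases fl_or_fr s with ⟨j, rfl⟩ | ⟨j, rfl⟩
      · rw [gs, seg_fl]
        exact Hc.C (isHomogeneous_X _ _)
      · rw [gs, seg_fr]
        exact Hc.X.mul (Hc.C (isHomogeneous_X _ _))) _)
  rw [zero_add, ← hG.degree_eq_sum_deg_support hd] at h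
  exact h m

theorem ev_gs {L : Type u} [Field L] [Algebra k L] (η : Fin (N + 1) → L) (g : L)
    (G : Pol k (N + 1 + N)) : aeval (seg η g) G =
      Polynomial.eval₂ (aeval η : Pol k N →ₐ[k] L).toRingHom g (aeval (gs k N) G) := by
  induction G using MvPolynomial.induction_on with
  | C c =>
    rw [aeval_C, aeval_C, Polynomial.algebraMap_apply, Polynomial.eval₂_C]
    exact (AlgHom.commutes _ c).symm
  | add p q hp hq => rw [map_add, map_add, Polynomial.eval₂_add, hp, hq]
  | mul_X p s hp =>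
    rw [map_mul, map_mul, Polynomial.eval₂_mul, hp, aeval_X, aeval_X]
    congr 1
    rcases fl_or_fr s with ⟨j, rfl⟩ | ⟨j, rfl⟩
    · simp [gs]
    · simp [gs, mul_comm g]

theorem sub_seg {K F L : Type u} [Field K] [Field F] [Field L] [Algebra k K] [Algebra k F]
    [Algebra k L] [Algebra K F] [IsScalarTower k K F] {ξ : Fin (N + 1) → K} {T : F}
    (hT : Transcendental K T) {η : Fin (N + 1) → L} (g : L) (h : Sub k ξ η) :
    Sub (N := N + 1 + N) k (seg (fun j => algebraMap K F (ξ j)) T) (seg η g) := by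
  intro n G hG h0
  have e : (aeval fun j => algebraMap K F (ξ j) : Pol k N →ₐ[k] F).toRingHom =
      (algebraMap K F).comp (aeval ξ : Pol k N →ₐ[k] K).toRingHom :=
    RingHom.ext fun A => aeval_algebraMap_apply F ξ A
  rw [ev_gs, e, ← Polynomial.eval₂_map, ← Polynomial.aeval_def] at h0
  have h1 := transcendental_iff.1 hT _ h0
  rw [ev_gs, ← Polynomial.eval_map, show Polynomial.map (aeval η : Pol k N →ₐ[k] L).toRingHom
    (aeval (gs k N) G) = 0 from Polynomial.ext fun m => ?_, Polynomial.eval_zero]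
  have h2 := congrArg (Polynomial.coeff · m) h1
  simp only [Polynomial.coeff_map, Polynomial.coeff_zero] at h2 ⊢
  exact h n _ (hc_gs hG m) h2

theorem sub_zz {K L : Type u} [Field K] [Field L] [Algebra k K] [Algebra k L] :
    Sub k (0 : Fin (N + 1) → K) (0 : Fin (N + 1) → L) := fun n G _ h => by
  rw [aeval_zero] at h ⊢
  rw [(map_eq_zero _).1 h, map_zero]

theorem sub_map {K F : Type u} [Field K] [Field F] [Algebra k K] [Algebra k F] [Algebra K F]
    [IsScalarTower k K F] (ξ : Fin (N + 1) → K) : Sub k ξ fun j => algebraMap K F (ξ j) :=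
  fun n G _ h => by rw [aem, h, map_zero]

end

end FProd

open FProd in
theorem rProd : RSeg.{u} → RProd.{u} := by
  intro hS k _ N d Y hY
  by_cases h0 : Y.ξ = 0
  · refine ⟨⟨k, 0, fun f => ⟨0, C f, 1, isHomogeneous_C _ _, isHomogeneous_one _ _, by simp,
      by simp⟩⟩, fun x => ?_, fun L _ _ η g h => ?_, fun i j => rfl, by rw [h0]; exact sub_zz⟩
    · have := x.van 1 (X x.ctr.idx) (isHomogeneous_X _ _) (by simp)
      rw [eval_X, x.z_idx.1] at this
      exact absurd this one_ne_zero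
    · have e : η = 0 := funext fun j => by
        simpa using h 1 (X j) (isHomogeneous_X _ _) (by simp [h0])
      have e2 : seg η g = 0 := app_ext (fun j => by simp [e]) fun j => by simp [e]
      rw [e2]
      exact sub_zz
  obtain ⟨i, hi⟩ := Function.ne_iff.1 h0
  have hi' : algebraMap Y.K (RatFunc Y.K) (Y.ξ i) ≠ 0 := (map_ne_zero _).2 hi
  have hT : Transcendental Y.K (RatFunc.X : RatFunc Y.K) := RatFunc.transcendental_X
  have hX : (RatFunc.X : RatFunc Y.K) ≠ 0 := RatFunc.X_ne_zero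
  refine ⟨⟨RatFunc Y.K, seg (fun j => algebraMap Y.K _ (Y.ξ j)) RatFunc.X, ?_⟩, fun y => ?_,
    fun L _ _ η g h => sub_seg hT g h, fun i j => ?_, ?_⟩
  · rw [genBy_iff, eq_top_iff]
    intro f _
    have h1 := div_mem_rat (k := k) (N := N + 1 + N)
      (ξ := seg (fun j => algebraMap Y.K (RatFunc Y.K) (Y.ξ j)) RatFunc.X) (fl i) (fr i)
    rw [seg_fl, seg_fr, mul_div_cancel_right₀ _ hi'] at h1
    have h2 : ∀ p : Polynomial Y.K, algebraMap (Polynomial Y.K) (RatFunc Y.K) p ∈
        ESurf.Rat (N := N + 1 + N) k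
          (seg (fun j => algebraMap Y.K (RatFunc Y.K) (Y.ξ j)) RatFunc.X) := fun p => by
      induction p using Polynomial.induction_on with
      | C a =>
        obtain ⟨n, A, B, hA, hB, hB0, e⟩ := Y.gen a
        refine ⟨n, rename fl A, rename fl B, hA.rename_isHomogeneous, hB.rename_isHomogeneous,
          ?_, ?_⟩
        · simp only [aeval_fl, seg_fl, aem]
          exact (map_ne_zero _).2 hB0
        · simp only [aeval_fl, seg_fl, aem]
          rw [← e, map_mul]
          rfl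
      | add p q hp hq => rw [map_add]; exact add_mem hp hq
      | monomial n a h =>
        rw [pow_succ, ← mul_assoc, map_mul, RatFunc.algebraMap_X]
        exact mul_mem h h1
    rw [← f.num_div_denom]
    exact div_mem (h2 _) (h2 _)
  · obtain ⟨x, hx⟩ := (hS k _ N (fun j => algebraMap Y.K (RatFunc Y.K) (Y.ξ j)) RatFunc.X).pts y
    rcases hx with ⟨t, hx⟩ | hx
    · exact chart (u := fl) (v := fr) (a := 1) one_ne_zero hT (fun j => by simp) (fun j => by simp)
        fl_or_fr ((sub_map Y.ξ).pt x) y t (fun j => by rw [hx, seg_fl]; rfl)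
        (fun j => by rw [hx, seg_fr]; rfl) (hY _)
    · exact chart (u := fr) (v := fl) (a := RatFunc.X) (T := RatFunc.X⁻¹) hX
        (fun h => hT (IsAlgebraic.inv_iff.1 h)) (fun j => by simp)
        (fun j => by simp [mul_inv_cancel₀ hX]) (fun s => (fl_or_fr s).symm)
        ((sub_map Y.ξ).pt x) y 0 (fun j => by rw [hx, app_fr]; rfl)
        (fun j => by rw [hx, app_fl, zero_mul]; rfl) (hY _)
  · simp only [seg_fl, seg_fr]
    ring
  · simpa only [seg_fl] using sub_map Y.ξ

end Pool.Agent.MP_f3836a_nt.PK
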