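import Pool.Agent.MP_f3836a_nt.PK.SpecF
import Pool.Agent.MP_f3836a_nt.PK.CCvA

set_option autoImplicit false

/-! Points and local rings of a graph. -/

namespace Pool.Agent.MP_f3836a_nt.PK

open MvPolynomial IsLocalRing

universe u

namespace FSeg

variable {k L : Type u} [Field k] [Field L] [Algebra k L] {N : ℕ} {η : Fin (N + 1) → L} {g : L}

theorem eval_fl (z : Fin (N + 1 + N + 1) → k) (A : Pol k N) :
    eval z (rename fl A : Pol k (N + 1 + N)) = eval (fun j => z (fl j)) A := eval_rename _ _ _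

theorem eval_fr (z : Fin (N + 1 + N + 1) → k) (A : Pol k N) :
    eval z (rename fr A : Pol k (N + 1 + N)) = eval (fun j => z (fr j)) A := eval_rename _ _ _

theorem seg_l (A : Pol k N) : aeval (seg η g) (rename fl A : Pol k (N + 1 + N)) = aeval η A := by
  simp only [aeval_fl, seg_fl]

theorem seg_r {n : ℕ} {A : Pol k N} (hA : A.IsHomogeneous n) :
    aeval (seg η g) (rename fr A : Pol k (N + 1 + N)) = g ^ n * aeval η A := by
  simp only [aeval_fr, seg_fr]
  exact CCvA.aeval_mul hA g η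

theorem nu_mul {V : ValuationSubring L} {a b : L} (ha : a ∈ V) (hb : b ∈ V.nonunits) :
    a * b ∈ V.nonunits := by
  rw [ValuationSubring.mem_nonunits_iff] at hb ⊢
  rw [map_mul]
  exact (mul_le_of_le_one_left' ((V.valuation_le_one_iff a).2 ha)).trans_lt hb

theorem nu_add {V : ValuationSubring L} {a b : L} (ha : a ∈ V.nonunits) (hb : b ∈ V.nonunits) :
    a + b ∈ V.nonunits := by
  rw [ValuationSubring.mem_nonunits_iff] at ha hb ⊢
  exact V.valuation.map_add_lt ha hb

end FSeg

open FSeg in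
theorem rSeg : RSeg.{u} := by
  intro k L _ _ _ N η g
  refine ⟨fun y => ?_, ?_, fun x t y e => ?_, fun x y e => ?_, ?_⟩
  · obtain ⟨s, h1, h2⟩ := y.norm
    rcases fl_or_fr s with ⟨i, rfl⟩ | ⟨i, rfl⟩
    · refine ⟨⟨fun j => y.z (fl j), ⟨i, h1, fun j hj => h2 _ (fl_lt_fl.2 hj)⟩, fun n G hG e => ?_⟩,
        Or.inl ⟨y.z (fr i), app_ext (fun j => by rw [seg_fl]) fun j => ?_⟩⟩
      · rw [← eval_fl]
        exact y.van n _ hG.rename_isHomogeneous (by rw [seg_l, e])
      · have := y.van (1 + 1) (X (fl i) * X (fr j) - X (fl j) * X (fr i))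
          (((isHomogeneous_X _ _).mul (isHomogeneous_X _ _)).sub
            ((isHomogeneous_X _ _).mul (isHomogeneous_X _ _))) (by
            simp only [map_sub, map_mul, aeval_X, seg_fl, seg_fr]
            ring)
        simp only [map_sub, map_mul, eval_X, h1] at this
        rw [seg_fr]
        linear_combination this
    · refine ⟨⟨fun j => y.z (fr j), ⟨i, h1, fun j hj => h2 _ (fr_lt_fr.2 hj)⟩, fun n G hG e => ?_⟩,
        Or.inr (app_ext (fun j => (h2 _ (fl_lt_fr j i)).trans (app_fl 0 _ j).symm)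
          fun j => by rw [app_fr])⟩
      rw [← eval_fr]
      exact y.van n _ hG.rename_isHomogeneous (by rw [seg_r hG, e, mul_zero])
  · rintro x y (⟨t, h⟩ | h) f ⟨n, A, B, hA, hB, hP, e⟩
    · refine ⟨n, rename fl A, rename fl B, hA.rename_isHomogeneous, hB.rename_isHomogeneous,
        fun k1 => hP ?_, by rwa [seg_l, seg_l]⟩
      rw [Pt.mem_P, eval_fl, h] at k1
      simp only [seg_fl] at k1
      exact k1
    · refine ⟨n, rename fr A, rename fr B, hA.rename_isHomogeneous, hB.rename_isHomogeneous,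
        fun k1 => hP ?_, by rw [seg_r hA, seg_r hB, ← e, mul_left_comm]⟩
      rw [Pt.mem_P, eval_fr, h] at k1
      simp only [app_fr] at k1
      exact k1
  · obtain ⟨s, h1, h2⟩ := y.norm
    rcases fl_or_fr s with ⟨i, rfl⟩ | ⟨i, rfl⟩
    · exact ⟨1, X (fr i), X (fl i), isHomogeneous_X _ _, isHomogeneous_X _ _,
        by rw [Pt.mem_P, eval_X, h1]; exact one_ne_zero, by rw [aeval_X, aeval_X, seg_fl, seg_fr]⟩
    · have h3 := h2 _ (fl_lt_fr i i)
      rw [e, seg_fl] at h3
      rw [e, seg_fr, h3, mul_zero] at h1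
      exact absurd h1 zero_ne_one
  · obtain ⟨s, h1, -⟩ := y.norm
    rcases fl_or_fr s with ⟨i, rfl⟩ | ⟨i, rfl⟩
    · rw [e, app_fl] at h1
      exact absurd h1 zero_ne_one
    · have h2 : X (fr i) ∉ y.ctr.P := by
        rw [Pt.mem_P, eval_X, h1]
        exact one_ne_zero
      have h3 := y.ctr.aeval_ne (isHomogeneous_X _ _) h2
      rw [aeval_X, seg_fr] at h3
      have h4 := left_ne_zero_of_mul h3
      exact ⟨h4, 1, X (fl i), X (fr i), isHomogeneous_X _ _, isHomogeneous_X _ _, h2,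
        by rw [aeval_X, aeval_X, seg_fl, seg_fr, inv_mul_cancel_left₀ h4]⟩
  · rintro h P x ⟨i, h1, h2, h3⟩
    simp only [h.zero] at h3
    refine ⟨fun hg => ⟨fl i, h1.app_left _, by rwa [seg_fl], fun s => (h.zero _ _).2 ?_⟩,
      fun hg => ?_⟩
    · rcases fl_or_fr s with ⟨j, rfl⟩ | ⟨j, rfl⟩
      · simpa only [seg_fl] using h3 j
      · have := nu_add (nu_mul hg (h3 j))
          (nu_mul (P.const (x j)) ((h.zero _ _).1 ((h.val P g hg _).2 rfl)))
        rw [seg_fl, seg_fr, seg_fr, map_mul]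
        refine (congrArg (· ∈ P.V.nonunits) ?_).mp this
        ring
    · have g0 : g ≠ 0 := fun e => hg (e ▸ P.V.zero_mem)
      refine ⟨fr i, h1.app_right, by rw [seg_fr]; exact mul_ne_zero g0 h2,
        fun s => (h.zero _ _).2 ?_⟩
      rcases fl_or_fr s with ⟨j, rfl⟩ | ⟨j, rfl⟩
      · have := nu_mul (P.V.add_mem _ _ (P.V.nonunits_subset (h3 j)) (P.const (x j)))
          ((P.V.inv_mem_nonunits_iff (x := g)).2 (Or.inr hg))
        rw [seg_fl, seg_fr, app_fl, Pi.zero_apply, map_zero]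
        refine (congrArg (· ∈ P.V.nonunits) ?_).mp this
        ring
      · rw [seg_fr, seg_fr, app_fr, mul_div_mul_left _ _ g0]
        exact h3 j

end Pool.Agent.MP_f3836a_nt.PK
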