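import Pool.Agent.MP_f3836a_nt.PK.SpecF

set_option autoImplicit false

/-! Curves contained in a nonsingular surface as curves on the surface. -/

namespace Pool.Agent.MP_f3836a_nt.PK

open MvPolynomial IsLocalRing

universe u

namespace FSurf

variable {k : Type u} [Field k] {N : ℕ} {S V : Var k N}

theorem exists_cv (hV : CrvF V) (h : V.Le S) (hS : IsSurf k S.ξ) (hC : CvA k S.ξ) :
    ∃ C : Cv k S.ξ, ∀ (n : ℕ) (A : Pol k N), A.IsHomogeneous n → (A ∈ C.P ↔ aeval V.ξ A = 0) := by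
  have := hV.ca.inf
  obtain ⟨y⟩ : Nonempty (Pt k V.ξ) := inferInstance
  obtain ⟨r, hr⟩ := Sub.rst h y
  have key : ∀ A : Pol k N, Form A →
      ((Sub.pt h y).ctr.lx A ∈ RingHom.ker r ↔ aeval V.ξ A = 0) := fun A hA => by
    rw [RingHom.mem_ker, hr.lx (Pt.good _) hA, Ctr.lx_eq_zero y.good hA]
  have := hS.reg (Sub.pt h y)
  have h0 : RingHom.ker r ≠ ⊥ := fun e => by
    have h1 := ringKrullDim_eq_of_ringEquiv (RingEquiv.ofBijective r
      ⟨(RingHom.injective_iff_ker_eq_bot r).2 e, hr.surj⟩)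
    have h2 := hV.ba.dim y
    rw [Ring.krullDimLE_iff, ← h1, hS.dim] at h2
    exact absurd h2 (by decide)
  have h1 : RingHom.ker r ≠ maximalIdeal _ := fun e => by
    have hi := Ctr.xi_ne y.good
    obtain ⟨j, hj⟩ := hV.ca.tr _ hi
    have hA : (X j - C (y.z j) * X y.ctr.idx : Pol k N).IsHomogeneous 1 :=
      (isHomogeneous_X k j).sub ((isHomogeneous_X k _).C_mul _)
    have h2 := (key _ (Form.of hA)).1 (by
      rw [e, Pt.lx_mem_max _ (Form.of hA), Sub.pt_z]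
      simp [y.z_idx.1])
    simp only [map_sub, map_mul, aeval_X, aeval_C] at h2
    rw [sub_eq_zero.1 h2, mul_div_cancel_right₀ _ hi] at hj
    exact hj (isAlgebraic_algebraMap _)
  obtain ⟨π, hπ, e⟩ := (rReg _ (hS.dim (Sub.pt h y))).2.2.2.1 _ (RingHom.ker_isPrime r) h0 h1
  obtain ⟨C, hx, hC'⟩ := hC.ofP _ π hπ
  exact ⟨C, fun n A hA => by
    rw [← CCvA.res_lx hx hA, ← hC', ← Ideal.mem_span_singleton, ← e, key A (Form.of hA)]⟩

variable {C : Cv k S.ξ}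

theorem exists_rho (h : V.Le S)
    (hm : ∀ (n : ℕ) (A : Pol k N), A.IsHomogeneous n → (A ∈ C.P ↔ aeval V.ξ A = 0)) :
    ∃ ρ : V.K ≃ₐ[k] C.κ, ∀ (n : ℕ) (A B : Pol k N), A.IsHomogeneous n → B.IsHomogeneous n →
      B ∉ C.P → C.res (aeval S.ξ A / aeval S.ξ B) = ρ (aeval V.ξ A / aeval V.ξ B) := by
  let c : Ctr k V.ξ := ⟨RingHom.ker (aeval V.ξ : Pol k N →ₐ[k] V.K), RingHom.ker_isPrime _,
    fun _ _ _ e => e⟩
  obtain ⟨r, hr⟩ := exists_rst h C.toCtr c hm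
  let s : C.O →+* V.K := c.O.subtype.comp r.toRingHom
  have hs : ∀ f, s f = r f := fun _ => rfl
  have : IsLocalHom s := ⟨fun f hf => by
    by_contra hu
    obtain ⟨n, A, B, hA, hB, hP, e⟩ := f.2
    have h1 := (hr.eq_zero f hA hB hP e).2
      ((hm n A hA).1 ((C.mem_max_iff f hA hB hP e).1 ((mem_maximalIdeal f).2 hu)))
    rw [hs, h1] at hf
    exact hf.ne_zero rfl⟩
  let t : C.κ →ₐ[k] V.K :=
    { ResidueField.lift s with
      commutes' := fun a => by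
        change ResidueField.lift s (residue _ (algebraMap k C.O a)) = _
        rw [ResidueField.lift_residue_apply, hs, r.commutes]
        rfl }
  have ht : ∀ f, t (residue _ f) = r f := fun f => ResidueField.lift_residue_apply s f
  have hb : Function.Bijective t := ⟨t.toRingHom.injective, fun g => by
    obtain ⟨f, hf⟩ := hr.surj ⟨g, V.gen g⟩
    exact ⟨residue _ f, by rw [ht, hf]⟩⟩
  refine ⟨(AlgEquiv.ofBijective t hb).symm, fun n A B hA hB hP => ?_⟩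
  rw [AlgEquiv.eq_symm_apply, C.res_of_mem ⟨_, C.div_mem hA hB hP⟩, AlgEquiv.ofBijective_apply, ht,
    eq_div_iff fun e => hP ((hm n B hB).2 e)]
  exact hr.frac _ n A B hA hB hP (div_mul_cancel₀ _ (C.aeval_ne hB hP))

theorem on_iff (hm : ∀ (n : ℕ) (A : Pol k N), A.IsHomogeneous n → (A ∈ C.P ↔ aeval V.ξ A = 0))
    (x : Pt k S.ξ) : x.On C ↔ V.On x.z := by
  rw [Var.on_iff]
  exact ⟨fun h => ⟨x.norm, fun n G hG e => h n G hG ((hm n G hG).2 e)⟩,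
    fun h n G hG e => h.2 n G hG ((hm n G hG).1 e)⟩

theorem loc_eq {ρ : V.K ≃ₐ[k] C.κ}
    (hρ : ∀ (n : ℕ) (A B : Pol k N), A.IsHomogeneous n → B.IsHomogeneous n →
      B ∉ C.P → C.res (aeval S.ξ A / aeval S.ξ B) = ρ (aeval V.ξ A / aeval V.ξ B))
    {x : Pt k S.ξ} (hx : x.On C) {y : Pt k V.ξ} (e : y.z = x.z) :
    C.loc x = y.ctr.O.map (ρ : V.K →+* C.κ) := by
  have hP : ∀ B : Pol k N, B ∈ y.ctr.P ↔ B ∈ x.ctr.P := fun B => by rw [Pt.mem_P, Pt.mem_P, e]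
  ext f
  rw [CVA.mem_loc hx, Subring.mem_map]
  constructor
  · rintro ⟨a, rfl⟩
    obtain ⟨n, A, B, hA, hB, h1, h2⟩ := a.2
    refine ⟨_, y.ctr.div_mem hA hB fun h => h1 ((hP B).1 h), ?_⟩
    rw [eq_div_of_mul_eq (x.ctr.aeval_ne hB h1) h2, hρ n A B hA hB fun h => h1 (hx n B hB h)]
    rfl
  · rintro ⟨a, ⟨n, A, B, hA, hB, h1, h2⟩, rfl⟩
    have h3 : B ∉ x.ctr.P := fun h => h1 ((hP B).2 h)
    refine ⟨⟨_, x.ctr.div_mem hA hB h3⟩, ?_⟩
    rw [eq_div_of_mul_eq (y.ctr.aeval_ne hB h1) h2]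
    exact hρ n A B hA hB fun h => h3 (hx n B hB h)

theorem ord_eq (hV : CrvF V)
    (hm : ∀ (n : ℕ) (A : Pol k N), A.IsHomogeneous n → (A ∈ C.P ↔ aeval V.ξ A = 0))
    {ρ : V.K ≃ₐ[k] C.κ}
    (hρ : ∀ (n : ℕ) (A B : Pol k N), A.IsHomogeneous n → B.IsHomogeneous n →
      B ∉ C.P → C.res (aeval S.ξ A / aeval S.ξ B) = ρ (aeval V.ξ A / aeval V.ξ B))
    (x : Pt k S.ξ) {f : V.K} (hf : f ≠ 0) :
    ∑ᶠ _ : x.On C, C.ordAt x (ρ f) = ∑ᶠ (P : Place k V.K) (_ : Cen V.ξ x.z P), P.ord f := by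
  classical
  by_cases hx : x.On C
  · obtain ⟨y, e⟩ := (on_iff hm x).1 hx
    rw [finsum_eq_if, if_pos hx, Cv.ordAt, loc_eq hρ hx e, ← e, ← hV.ba.ord y f hf]
    exact ordR_map _ _ (Ctr.noeth y.good) (hV.ba.dim y) (V.gen.frac y.good) f
  · rw [finsum_eq_if, if_neg hx, finsum_eq_zero_of_forall_eq_zero fun P => ?_]
    rw [finsum_eq_if, if_neg fun hP => hx ((on_iff hm x).2 ?_)]
    obtain ⟨y, hy⟩ := hV.ca.cen.ex P
    exact ⟨y, hV.ca.cen.uniq _ _ P hy hP⟩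

theorem ordR_one {L : Type u} [Field L] (R : Subring L) : ordR R 1 = 0 := by
  unfold ordR
  split_ifs with h
  · have e : h.2.choose.2 = h.2.choose.1 := Subtype.ext ((one_mul _).symm.trans h.2.choose_spec.2)
    rw [e, sub_self]
  · rfl

theorem extend {ι T : Type u} {β : T → Type u} {c : ι → T} (hc : Function.Injective c)
    (v : ∀ a, β (c a)) (d : ∀ t, β t) :
    ∃ φ : ∀ t, β t, (∀ a, φ (c a) = v a) ∧ ∀ t, φ t ≠ d t → ∃ a, t = c a := by
  have h : ∀ t, ∃ w : β t, (∀ a (e : c a = t), w = e ▸ v a) ∧ (w ≠ d t → ∃ a, t = c a) := fun t => by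
    by_cases h : ∃ a, t = c a
    · obtain ⟨a, rfl⟩ := h
      exact ⟨v a, fun b e => by cases hc e; rfl, fun _ => ⟨a, rfl⟩⟩
    · exact ⟨d t, fun a e => absurd ⟨a, e.symm⟩ h, fun e => absurd rfl e⟩
  choose φ h1 h2 using h
  exact ⟨φ, fun a => h1 _ a rfl, h2⟩

end FSurf

open FSurf

theorem rSurfC : RSurfC.{u} := by
  intro k _ _ p _ _ N S ι Γ ψ hΓ hle hψ hS hC
  choose c hm using fun a => exists_cv (hΓ.crv a) (hle a) hS hC
  choose ρ hρ using fun a => exists_rho (hle a) (hm a)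
  have inj : Function.Injective c := fun a b e =>
    hΓ.ne a b fun n G hG h => (hm a n G hG).1 (e ▸ (hm b n G hG).2 h)
  obtain ⟨φ, h1, h2⟩ := extend (β := fun C : Cv k S.ξ => C.κ) inj (fun a => ρ a (ψ a)) fun _ => 1
  have := hΓ.fin
  refine ⟨c, ρ, φ, inj, hm, hρ, ⟨fun C h => ?_, (Set.finite_range c).subset fun C h => ?_,
    fun x => ?_⟩, h1, h2⟩
  · obtain ⟨a, rfl⟩ := h2 C (h ▸ zero_ne_one)
    rw [h1] at h
    exact hψ.ne a ((map_eq_zero_iff _ (ρ a).injective).1 h)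
  · obtain ⟨a, rfl⟩ := h2 C h
    exact ⟨a, rfl⟩
  · have hs : (Function.support fun C : Cv k S.ξ => ∑ᶠ _ : x.On C, C.ordAt x (φ C)) ⊆
        Set.range c := fun C h => by
      obtain ⟨a, rfl⟩ := h2 C fun e => h (by simp only [e, Cv.ordAt, ordR_one, finsum_zero])
      exact ⟨a, rfl⟩
    rw [← hψ.div x.z, ← Set.indicator_eq_self.2 hs, ← finsum_mem_def, finsum_mem_range inj]
    exact finsum_congr fun a => by rw [h1, ord_eq (hΓ.crv a) (hm a) (hρ a) x (hψ.ne a)]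

end Pool.Agent.MP_f3836a_nt.PK
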