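import Pool.Agent.MP_f3836a_nt.PK.SpecF
import Pool.Agent.MP_f3836a_nt.PK.CTanA
import Pool.Agent.MP_f3836a_nt.PK.BGenS

set_option autoImplicit false

/-! Tangent spaces and generators of the maximal ideal. -/

namespace Pool.Agent.MP_f3836a_nt.PK

open MvPolynomial IsLocalRing

universe u

namespace FTan

open CTanA

variable {k K : Type u} [Field k] [Field K] [Algebra k K] {N : ℕ} {ξ : Fin (N + 1) → K}
  {𝒢 : Finset (Pol k N)} (x : Pt k ξ)

theorem mem_sup (hG : IsGens ξ 𝒢) {J : Finset (Fin (N + 1))}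
    (hJ : ∀ τ, Tan (𝒢 : Set (Pol k N)) x.z x.ctr.idx τ → (∀ j ∈ J, τ j = 0) → τ = 0)
    {A : Pol k N} (h0 : eval x.z A = 0) :
    Ph x A ∈ Ideal.span ((fun j => Ph x (X j - C (x.z j))) '' (J : Set (Fin (N + 1)))) ⊔
      maximalIdeal x.ctr.O ^ 2 := by
  by_contra hn
  obtain ⟨φ, h1, h2⟩ := Submodule.exists_le_ker_of_notMem
    (p := (Ideal.span ((fun j => Ph x (X j - C (x.z j))) '' (J : Set (Fin (N + 1)))) ⊔
      maximalIdeal x.ctr.O ^ 2).restrictScalars k) hn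
  have ht := taylor x φ fun f hf => h2 (Ideal.mem_sup_right hf)
  refine h1 ?_
  have h3 := ht A
  rw [h0, C_0, sub_zero] at h3
  have h4 : (fun j => φ (Ph x (X j - C (x.z j)))) = 0 := by
    refine hJ _ ⟨?_, fun G g => ?_⟩ fun j hj =>
      h2 (Ideal.mem_sup_left (Ideal.subset_span ⟨j, hj, rfl⟩))
    · show φ (Ph x (X x.ctr.idx - C (x.z x.ctr.idx))) = 0
      rw [x.z_idx.1, C_1, Ph_idx, map_zero]
    · rw [← ht G, (hG.onV x).2 G g, C_0, sub_zero]
      have : Ph x G = 0 := Subtype.ext <| by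
        rw [coe_Ph, aeval_div (hG.form G g).1, (hG.form G g).2, zero_div]
        rfl
      rw [this, map_zero]
  rw [h3, h4]
  simp [dEv]

theorem dim_le (hG : IsGens ξ 𝒢) {r : ℕ} (h : Sml r (𝒢 : Set (Pol k N)) x.z x.ctr.idx) :
    ringKrullDim x.ctr.O ≤ r := by
  obtain ⟨J, hr, hJ⟩ := h
  have := Ctr.noeth x.good
  set s : Set x.ctr.O := (fun j => Ph x (X j - C (x.z j))) '' (J : Set (Fin (N + 1))) with hs
  have h1 : maximalIdeal x.ctr.O ≤ Ideal.span s ⊔ maximalIdeal x.ctr.O • maximalIdeal x.ctr.O := by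
    intro f hf
    obtain ⟨A, B, a, b⟩ := Ph_frac x f
    have c : eval x.z A = 0 := (Ph_mem x A).1 (b ▸ Ideal.mul_mem_right _ _ hf)
    have hu : IsUnit (Ph x B) := notMem_maximalIdeal.1 fun h => a ((Ph_mem x B).1 h)
    have h2 := mem_sup x hG hJ c
    rw [← b, Ideal.mul_unit_mem_iff_mem _ hu, sq] at h2
    exact h2
  have h2 : maximalIdeal x.ctr.O ≤ Ideal.span s :=
    Submodule.le_of_le_smul_of_le_jacobson_bot (IsNoetherian.noetherian _)
      (maximalIdeal_le_jacobson _) h1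
  have h3 : maximalIdeal x.ctr.O = Ideal.span s := by
    refine le_antisymm h2 (Ideal.span_le.2 ?_)
    rintro _ ⟨j, -, rfl⟩
    exact t_mem x j
  have h4 : (maximalIdeal x.ctr.O).spanFinrank ≤ r := by
    rw [h3]
    refine (Submodule.spanFinrank_span_le_ncard_of_finite (J.finite_toSet.image _)).trans ?_
    exact (Set.ncard_image_le J.finite_toSet).trans (by rwa [Set.ncard_coe_finset])
  exact (ringKrullDim_le_spanFinrank_maximalIdeal x.ctr.O).trans (by exact_mod_cast h4)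

theorem sml (hG : IsGens ξ 𝒢) {r : ℕ} (𝒜 : Set (Pol k N)) (t : Finset x.ctr.O)
    (hA : ∀ G ∈ 𝒜, Form G ∧ eval x.z G = 0) (hr : t.card ≤ r)
    (ht : ∀ a ∈ t, a ∈ maximalIdeal x.ctr.O)
    (hm : maximalIdeal x.ctr.O ≤ Ideal.span (t : Set x.ctr.O) ⊔ Ideal.span (x.ctr.lx '' 𝒜)) :
    Sml r ((𝒢 : Set (Pol k N)) ∪ 𝒜) x.z x.ctr.idx := by
  choose A B hB hAB using Ph_frac x
  let T := BGenS.tanS ((𝒢 : Set (Pol k N)) ∪ 𝒜) x.z x.ctr.idx
  let L : T →ₗ[k] (t → k) :=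
    { toFun := fun τ a => dEv x.z (A a) τ
      map_add' := fun τ υ => funext fun a => by
        simp only [dEv, Submodule.coe_add, Pi.add_apply, mul_add, Finset.sum_add_distrib]
      map_smul' := fun c τ => funext fun a => by
        simp only [dEv, Submodule.coe_smul, Pi.smul_apply, smul_eq_mul, RingHom.id_apply,
          Finset.mul_sum]
        exact Finset.sum_congr rfl fun _ _ => by ring }
  have hL : Function.Injective L := by
    rw [injective_iff_map_eq_zero]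
    rintro ⟨τ, hτ⟩ h0
    have hτ' : Tan ((𝒢 : Set (Pol k N)) ∪ 𝒜) x.z x.ctr.idx τ := hτ
    have h1 : maximalIdeal x.ctr.O ≤ Jt x τ := by
      refine hm.trans (sup_le (Ideal.span_le.2 fun a ha => ?_) (Ideal.span_le.2 ?_))
      · exact ⟨A a, B a, hB a, hAB a,
          (Ph_mem x _).1 (hAB a ▸ Ideal.mul_mem_right _ _ (ht a ha)), congrFun h0 ⟨a, ha⟩⟩
      · rintro _ ⟨G, g, rfl⟩
        rw [← Ph_form x (hA G g).1]
        exact mem_Jt x ⟨(hA G g).2, hτ'.2 G (Or.inr g)⟩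
    refine Subtype.ext (funext fun j => ?_)
    have h2 := (of_Jt x hG ⟨hτ'.1, fun G g => hτ'.2 G (Or.inl g)⟩ (h1 (t_mem x j))).2
    rwa [dEv_sub, dEv_X, dEv_C, sub_zero] at h2
  obtain ⟨J, h1, h2⟩ := BGenS.exJ T
  refine ⟨J, h1.trans ((LinearMap.finrank_le_finrank_of_injective hL).trans ?_), h2⟩
  rwa [Module.finrank_fintype_fun_eq_card, Fintype.card_coe]

end FTan

theorem rTanB : RTanB.{u} := fun _ _ _ _ _ _ _ _ hG x _ =>
  ⟨FTan.dim_le x hG, fun 𝒜 t => FTan.sml x hG 𝒜 t⟩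

end Pool.Agent.MP_f3836a_nt.PK
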