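import Pool.Agent.MP_f3836a_nt.PK.SpecG

set_option autoImplicit false

/-! Factors of the minimal polynomial of a constant and points over a point. -/

namespace Pool.Agent.MP_f3836a_nt.PK

open MvPolynomial IsLocalRing

universe u

namespace GCnt1

theorem nu_mul {K : Type u} [Field K] {W : ValuationSubring K} {a b : K} (ha : a ∈ W.nonunits)
    (hb : b ∈ W) : a * b ∈ W.nonunits := by
  rw [ValuationSubring.mem_nonunits_iff] at ha ⊢
  rw [map_mul]
  exact (mul_le_of_le_one_right' ((W.valuation_le_one_iff b).2 hb)).trans_lt ha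

theorem cen {k K : Type u} [Field k] [Field K] [Algebra k K] {N : ℕ} {ξ : Fin (N + 1) → K}
    (W : ValuationSubring K) (hk : ∀ a, algebraMap k K a ∈ W) {i : Fin (N + 1)} (hi : ξ i ≠ 0)
    (ht : ∀ j, ξ j / ξ i ∈ W) : ∃ c : Hp k ξ, (∀ (n : ℕ) (A : Pol k N), A.IsHomogeneous n →
      (A ∈ c.P ↔ aeval ξ A / ξ i ^ n ∈ W.nonunits)) ∧
      ∀ f : c.O, (f : K) ∈ W.nonunits → f ∈ maximalIdeal c.O := by
  let _ : Algebra k W := ((algebraMap k K).codRestrict W hk).toAlgebra
  have : IsScalarTower k W K := IsScalarTower.of_algebraMap_eq fun _ => rfl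
  let s : Fin (N + 1) → W := fun j => ⟨_, ht j⟩
  have e : ∀ (n : ℕ) (A : Pol k N), A.IsHomogeneous n →
      ((aeval s A : W) : K) = aeval ξ A / ξ i ^ n := fun n A hA =>
    (aeval_algebraMap_apply K s A).symm.trans (CTanA.aeval_div hA _)
  have e' : ∀ (n : ℕ) (A : Pol k N), A.IsHomogeneous n →
      (aeval (algebraMap W (ResidueField W) ∘ s) A = 0 ↔ aeval ξ A / ξ i ^ n ∈ W.nonunits) :=
    fun n A hA => by
      rw [aeval_algebraMap_apply, ← e n A hA, ValuationSubring.coe_mem_nonunits_iff]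
      exact residue_eq_zero_iff _
  obtain ⟨c, hc⟩ := exists_hp (k := k) (ξ := ξ) (algebraMap W (ResidueField W) ∘ s)
    (fun n G hG h => (e' n G hG).2 (by rw [h, zero_div]; exact zero_mem _))
    ⟨i, by
      rw [Function.comp_apply, show s i = 1 from Subtype.ext (div_self hi), map_one]
      exact one_ne_zero⟩
  refine ⟨c, fun n A hA => (hc n A hA).trans (e' n A hA), fun f hf => ?_⟩
  obtain ⟨n, A, B, hA, hB, hP, h⟩ := f.2
  rw [c.mem_max_iff f hA hB hP h, hc n A hA, e' n A hA, ← h, mul_div_assoc, ← e n B hB]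
  exact nu_mul hf (aeval s B).2

theorem val {R K : Type u} [CommRing R] [Field K] (ψ : R →+* K) (J : Ideal R) (h : J ≠ ⊤)
    (hk : ∀ g, ψ g = 0 → g ∈ J) :
    ∃ W : ValuationSubring K, (∀ g, ψ g ∈ W) ∧ ∀ g ∈ J, ψ g ∈ W.nonunits := by
  obtain ⟨W, h1, h2⟩ := (J.map ψ.rangeRestrict).image_subset_nonunits_valuationSubring fun e => by
    have h3 := (Ideal.eq_top_iff_one _).1 e
    obtain ⟨g, h4, h5⟩ := (Ideal.mem_map_iff_of_surjective _ ψ.rangeRestrict_surjective).1 h3
    have h6 := J.sub_mem h4 (hk (g - 1) (by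
      rw [map_sub, map_one, sub_eq_zero]
      exact congrArg Subtype.val h5))
    rw [sub_sub_cancel] at h6
    exact h ((Ideal.eq_top_iff_one _).2 h6)
  exact ⟨W, fun g => h1 ⟨g, rfl⟩, fun g hg => h2 ⟨_, Ideal.mem_map_of_mem _ hg, rfl⟩⟩

open Stp

variable {S : Stp.{u}}

theorem int (θ : S.k) : IsIntegral S.F θ := by
  by_cases h : θ = 0
  · exact h ▸ isIntegral_zero
  · obtain ⟨n, h1, h2⟩ := S.hk θ h
    exact IsIntegral.of_pow h1 (h2 ▸ isIntegral_one)

theorem dvd (θ : S.k) : minpoly S.K₀ (algebraMap S.k S.K θ) ∣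
    (minpoly S.F θ).map (algebraMap S.F S.K₀) :=
  minpoly.dvd _ _ (by
    rw [Polynomial.aeval_map_algebraMap, Polynomial.aeval_algebraMap_apply, minpoly.aeval,
      map_zero])

theorem lift (hN : RNorm.{u}) (c : S.H) (θ : S.k) : ∃ μ : Polynomial c.O,
    μ.map c.O.subtype = minpoly S.K₀ (algebraMap S.k S.K θ) := by
  obtain ⟨y, h1, h2⟩ := EYA.cl c
  have := (S.reg.reg y h1).1
  have := hN y.O
  have : IsFractionRing y.O S.K₀ := IsFractionRing.of_field _ _ fun f => by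
    obtain ⟨a, b, h3, h4⟩ := S.reg.gen.frac y.good f
    exact ⟨a, b, eq_div_of_mul_eq h3 h4⟩
  obtain ⟨g, hg⟩ := IsIntegrallyClosed.eq_map_mul_C_of_dvd S.K₀
    ((minpoly.monic (int θ)).map (algebraMap S.F y.O))
    (g := minpoly S.K₀ (algebraMap S.k S.K θ)) (by
      rw [Polynomial.map_map]
      exact dvd θ)
  rw [(minpoly.monic (Algebra.IsIntegral.isIntegral _)).leadingCoeff, map_one, mul_one] at hg
  exact ⟨g.map (Subring.inclusion (EYA.le h2)), by rw [Polynomial.map_map, ← hg]; rfl⟩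

theorem ev {c' : S.H'} {c : S.H} (h : O c' c) (θ : S.k) (g : Polynomial c.O) : ∃ f : c'.O,
    (f : S.K) = g.eval₂ ((algebraMap S.K₀ S.K).comp c.O.subtype) (algebraMap S.k S.K θ) ∧
    (g.map (S.M.r c)).eval₂ (nu h) (algebraMap S.k c'.var.K θ) = residue c'.O f :=
  ⟨g.eval₂ (inc h) (algebraMap S.k c'.O θ), Polynomial.hom_eval₂ _ _ c'.O.subtype _, by
    rw [Polynomial.eval₂_map, show (nu h).comp (S.M.r c) = (residue c'.O).comp (inc h) from
      RingHom.ext (nu_r h)]
    exact (Polynomial.hom_eval₂ _ _ _ _).symm⟩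

end GCnt1

open GCnt1 Stp in
theorem rCnt1 : RNorm.{u} → RCnt1.{u} := fun hN S c θ => by
  obtain ⟨μ, hμ⟩ := lift hN c θ
  have hi := c.O.subtype_injective
  have hm : μ.Monic := Polynomial.monic_of_injective hi
    (hμ ▸ minpoly.monic (Algebra.IsIntegral.isIntegral _))
  let ψ := Polynomial.eval₂RingHom ((algebraMap S.K₀ S.K).comp c.O.subtype) (algebraMap S.k S.K θ)
  have hψ : ∀ g, ψ g = 0 ↔ μ ∣ g := fun g => by
    rw [← Polynomial.map_dvd_map _ hi hm, hμ, minpoly.dvd_iff, Polynomial.aeval_def,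
      Polynomial.eval₂_map]
    rfl
  refine ⟨μ.map (S.M.r c), hm.map _, ?_, ?_, fun c' h => ?_, fun m _ h1 h2 => ?_⟩
  · rw [hm.natDegree_map, D, ← hμ, hm.natDegree_map]
  · have h := Polynomial.map_dvd (S.M.r c) ((Polynomial.map_dvd_map _ hi hm).1
      (show _ ∣ ((minpoly S.F θ).map (algebraMap S.F c.O)).map _ by
        rw [hμ, Polynomial.map_map]
        exact dvd θ))
    rwa [Polynomial.map_map] at h
  · obtain ⟨f, h1, h2⟩ := ev h θ μ
    exact h2.trans ((congrArg _ (Subtype.ext (h1.trans ((hψ μ).2 dvd_rfl)) : f = 0)).trans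
      (map_zero _))
  · obtain ⟨W, w1, w2⟩ := val ψ ((Ideal.span {m}).comap (Polynomial.mapRingHom (S.M.r c)))
      (Ideal.comap_ne_top _ (Ideal.span_singleton_ne_top h1.not_isUnit)) fun g hg =>
        Ideal.mem_span_singleton.2 (h2.trans (Polynomial.map_dvd _ ((hψ g).1 hg)))
    have w3 : ∀ a : c.O, algebraMap S.K₀ S.K a ∈ W := fun a => by
      simpa [ψ] using w1 (Polynomial.C a)
    have w4 : ∀ a : c.O, a ∈ maximalIdeal c.O ↔ algebraMap S.K₀ S.K a ∈ W.nonunits := fun a => by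
      refine ⟨fun h => ?_, fun h hu => ?_⟩
      · simpa [ψ] using w2 (Polynomial.C a) (by simp [(S.M.r_eq_zero c a).2 h])
      · obtain ⟨b, hb⟩ := hu.exists_right_inv
        have h3 := nu_mul h (w3 b)
        rw [← map_mul, ← Subring.coe_mul, hb] at h3
        simp [ValuationSubring.mem_nonunits_iff] at h3
    have w5 : ∀ (n : ℕ) (A : Pol S.F S.N), A.IsHomogeneous n → algebraMap S.K₀ S.K (c.lx A) =
        aeval (up S.K S.η) (map (algebraMap S.F S.k) A) / up S.K S.η c.idx ^ n := fun n A hA => by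
      rw [Ctr.coe_lx c.good (Form.of hA), c.lo_eq hA, EFl.aeval_up, map_div₀, map_pow]
      rfl
    obtain ⟨c', k1, k2⟩ := cen (ξ := up S.K S.η) W (EOv.const_mem S.hk W) (i := c.idx)
      ((map_ne_zero _).2 (Ctr.xi_ne c.good)) fun j => by
        simpa [w5 1 _ (isHomogeneous_X _ j)] using w3 (c.lx (X j))
    have h : O c' c := fun n A hA => by
      rw [k1 n _ (hA.map _), ← w5 n A hA, ← w4, Ctr.lx_mem_max c.good (Form.of hA)]
    obtain ⟨g, rfl⟩ := Polynomial.map_surjective _ (S.M.r_surj c) m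
    obtain ⟨f, h3, h4⟩ := ev h θ g
    exact ⟨c', h, h4.trans ((residue_eq_zero_iff _).2
      (k2 f (h3 ▸ w2 g (Ideal.mem_span_singleton_self _))))⟩

end Pool.Agent.MP_f3836a_nt.PK
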