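import Pool.Agent.MP_f3836a_nt.PK.SpecG
import Pool.Agent.MP_f3836a_nt.PK.EDVA

set_option autoImplicit false

/-! Points of the image of a surface, and valuations of curves that are not contracted. -/

namespace Pool.Agent.MP_f3836a_nt.PK

open MvPolynomial IsLocalRing Stp

universe u

namespace GFam2

/-- a root of unity or zero is a constant -/
theorem const {k L : Type u} [Field k] [IsAlgClosed k] [Field L] [Algebra k L] {y : L} {m : ℕ}
    (hm : 0 < m) (h : y ^ (m + 1) = y) : ∃ b : k, y = algebraMap k L b := by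
  have hi : IsIntegral k y := by
    by_cases h0 : y = 0
    · rw [h0]
      exact isIntegral_zero
    · refine IsIntegral.of_pow hm ?_
      rw [mul_right_cancel₀ h0 (((pow_succ y m).symm.trans h).trans (one_mul y).symm)]
      exact isIntegral_one
  obtain ⟨b, hb⟩ := minpoly.mem_range_of_degree_eq_one k y
    (IsAlgClosed.degree_eq_one_of_irreducible k (minpoly.irreducible hi))
  exact ⟨b, hb.symm⟩

theorem cv (h1 : RChain.{u}) (h2 : RExtV.{u}) (h3 : RDVsub.{u}) {S : Stp.{u}} (T : S.Srf)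
    (hB : S.Bas) (hF : T.Fam1) (c : S.H) (hc : T.s.P < c.P) (hn : ¬ c.Cl) : c.IsCv := by
  refine ⟨hn, fun y hy => by_contra fun hy' => ?_⟩
  obtain ⟨W, W₁, hle, hW, hW₁⟩ := h1 _ _ _ (S.M.e T.s y (hc.le.trans hy.le)) (S.M.e T.s c hc.le)
    (S.M.range_le hc.le hy.le)
  have n1 : W₁ ≠ ⊤ := fun e => hc.ne (congrArg (fun t : S.H => t.P) (S.M.dom_top (e ▸ hW₁)))
  have n0 : W ≠ ⊤ := fun e => n1 (top_le_iff.1 (e ▸ hle))
  obtain ⟨W', hW'⟩ := h2 _ _ (algebraMap (S.M.κ T.s) T.V.K) W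
  obtain ⟨C, -, hC⟩ := hF y _ W W' hy' hW n0 hW'
  have hd := h3 _ T.V.K _ C.O _ W (EOv.dv T.sm.surf T.cv C) fun f => by
    rw [hC]
    exact hW' f
  rcases (rDVA _ _ _ _ hd).max W₁.toSubring hle with e | e
  · have e' : W₁ = W := ValuationSubring.toSubring_injective e
    subst e'
    exact hy.ne (congrArg (fun t : S.H => t.P) (hB.cen.uniq _ _ _ _ _ _ hW₁ hW))
  · exact n1 (ValuationSubring.toSubring_injective e)

/-- a curve whose valuation is centred at a closed point is contracted -/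
theorem contr {S : Stp.{u}} (T : S.Srf) (hB : S.Bas) (C : Cv S.k T.V.ξ)
    (W' : ValuationSubring T.V.K) (hW' : W'.toSubring = C.O) (c : S.H) (h : T.s.P ≤ c.P)
    (hd : PT.Dom (S.M.e T.s c h) (W'.comap (algebraMap (S.M.κ T.s) T.V.K))) (hc : c.Cl) :
    Contr C T.w := by
  have hmem : ∀ f, f ∈ W' ↔ f ∈ C.O := fun f => by
    rw [← hW']
    rfl
  have hi : T.w c.idx ≠ 0 := fun e => (Ctr.idx_spec c.good).1 (h ((T.img.mem 1 _
    (isHomogeneous_X _ _)).2 (by rw [map_X, aeval_X, e])))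
  let φ : S.M.A c →+* C.O := ((algebraMap (S.M.κ T.s) T.V.K).comp (S.M.e T.s c h)).codRestrict
    C.O fun a => (hmem _).1 (hd a).1
  have hφ : ∀ a ∈ maximalIdeal (S.M.A c), residue C.O (φ a) = 0 := fun a ha => by
    rw [residue_eq_zero_iff, mem_maximalIdeal, mem_nonunits_iff, CCvA.unit_iff]
    rintro ⟨h0, h1⟩
    rcases (ValuationSubring.mem_nonunits_iff_or _).1 ((hd a).2 ha) with e | e
    · refine h0 ?_
      change algebraMap (S.M.κ T.s) T.V.K (S.M.e T.s c h a) = 0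
      rw [e, map_zero]
    · refine e ?_
      rw [ValuationSubring.mem_comap, map_inv₀, hmem]
      exact h1
  refine ⟨c.idx, hi, fun j => ?_⟩
  obtain ⟨a, ha⟩ := S.M.surj c (c.lx (X j))
  have e1 : T.w j / T.w c.idx = φ a := by
    have h2 := T.img.frac (Subring.inclusion (EYA.le h) (c.lx (X j))) 1 (X j) (X c.idx)
      (isHomogeneous_X _ _) (isHomogeneous_X _ _) (by
        change (c.lx (X j) : S.K₀) * _ = _
        rw [Ctr.coe_lx c.good (Form.of (isHomogeneous_X _ j)), c.lo_X, aeval_X, aeval_X,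
          div_mul_cancel₀ _ (Ctr.xi_ne c.good)])
    rw [map_X, map_X, aeval_X, aeval_X, ← ha, ← S.M.e_eq h a] at h2
    exact (eq_div_of_mul_eq hi h2).symm
  rw [e1]
  refine ⟨(φ a).2, ?_⟩
  obtain ⟨m, hm, e2⟩ := (hB.u2.co c).1 hc j
  rw [Mod.co, ← ha, S.M.r_π, ← sub_eq_zero, ← map_pow, ← map_sub, residue_eq_zero_iff] at e2
  have e3 := hφ _ e2
  rw [map_sub, map_pow, map_sub, map_pow, sub_eq_zero] at e3
  rw [C.res_of_mem]
  exact const hm e3

theorem ex (h1 : RChain.{u}) (h2 : RExtV.{u}) (h3 : RDVsub.{u}) {S : Stp.{u}} (T : S.Srf)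
    (hB : S.Bas) (hF : T.Fam1) (j : T.J) :
    ∃ i : T.I, ∀ f, f ∈ i.2.1 ↔ algebraMap _ T.V.K f ∈ j.1.O := by
  obtain ⟨W', hW'⟩ := (rDVA _ _ _ _ (EOv.dv T.sm.surf T.cv j.1)).val
  obtain ⟨c, h, hd⟩ := hB.cen.ex T.s (W'.comap (algebraMap (S.M.κ T.s) T.V.K))
  have hlt : T.s.P < c.P := lt_of_le_of_ne h fun e => by
    obtain rfl := Hp.ext_P e
    refine EOv.ne_top j.1 ?_
    rw [← hW', eq_top_iff]
    intro x _
    refine EOv.val_top (K₀ := S.M.κ T.s) W' (fun f => ?_) x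
    obtain ⟨a, rfl⟩ : f ∈ (S.M.e T.s T.s h).range := by
      rw [S.M.range_refl]
      trivial
    exact (hd a).1
  refine ⟨⟨⟨c, cv h1 h2 h3 T hB hF c hlt fun hc => j.2 (contr T hB j.1 W' hW' c h hd hc), h⟩,
    ⟨_, hd⟩⟩, fun f => ?_⟩
  rw [← hW']
  rfl

end GFam2

theorem rFam2 : RChain.{u} → RExtV.{u} → RDVsub.{u} → RFam2.{u} := fun h1 h2 h3 _ T hB hF =>
  ⟨GFam2.cv h1 h2 h3 T hB hF, GFam2.ex h1 h2 h3 T hB hF⟩

end Pool.Agent.MP_f3836a_nt.PK
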