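import Pool.Agent.MP_f3836a_nt.PK.AllA
import Pool.Agent.MP_f3836a_nt.PK.FCrv
import Pool.Agent.MP_f3836a_nt.PK.FLow
import Pool.Agent.MP_f3836a_nt.PK.FCond
import Pool.Agent.MP_f3836a_nt.PK.FBr1
import Pool.Agent.MP_f3836a_nt.PK.FHer
import Pool.Agent.MP_f3836a_nt.PK.FBrA
import Pool.Agent.MP_f3836a_nt.PK.FBrB
import Pool.Agent.MP_f3836a_nt.PK.FTan
import Pool.Agent.MP_f3836a_nt.PK.FBase
import Pool.Agent.MP_f3836a_nt.PK.FExN
import Pool.Agent.MP_f3836a_nt.PK.FCnt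
import Pool.Agent.MP_f3836a_nt.PK.FJet
import Pool.Agent.MP_f3836a_nt.PK.FCut
import Pool.Agent.MP_f3836a_nt.PK.FReg
import Pool.Agent.MP_f3836a_nt.PK.FDiv
import Pool.Agent.MP_f3836a_nt.PK.FInd
import Pool.Agent.MP_f3836a_nt.PK.FProd
import Pool.Agent.MP_f3836a_nt.PK.FApx
import Pool.Agent.MP_f3836a_nt.PK.FSeg
import Pool.Agent.MP_f3836a_nt.PK.FGrD
import Pool.Agent.MP_f3836a_nt.PK.FGrA
import Pool.Agent.MP_f3836a_nt.PK.FGrP
import Pool.Agent.MP_f3836a_nt.PK.FGrB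
import Pool.Agent.MP_f3836a_nt.PK.FBir
import Pool.Agent.MP_f3836a_nt.PK.FSurf
import Pool.Agent.MP_f3836a_nt.PK.FGeoA
import Pool.Agent.MP_f3836a_nt.PK.FGeo

set_option autoImplicit false

/-! All rows of part F. -/

namespace Pool.Agent.MP_f3836a_nt.PK

universe u

theorem pCrvF : RCrvF.{u} := fun k _ _ p _ _ N V h =>
  have ha := pPlA k V.K h
  have hb := pPlB k V.K p h
  have c := rCrvA rCenA k N V h ha hb
  have b1 := rBr1 (rCond rLow) k N V h ha hb c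
  have ba := rBrA rHer rApx k N V h ha hb c b1
  ⟨h, ha, hb, c, ba, rBrB rApx k N V h ha hb c b1 ba⟩

theorem pStep : RStep.{u} :=
  rStep (rCut rTanB (rBase rTanB) (rJetG2 rExN2) rCntS2) (rDiv rRegQ)

theorem pGeo : RGeo.{u} :=
  rGeo (rGeoA (rProd rSeg) (rGrD rApx) (rGrA pCrvF rLine rSeg) (rGrP rLine rSeg) (rGrB rLine rSeg)
    (rGrC rSeg) pStep (rInd pStep) rBir) rSurfC rSeg

end Pool.Agent.MP_f3836a_nt.PK
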