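import Pool.Agent.MP_f3836a_nt.PK.SpecD

set_option autoImplicit false

/-! Assembly of the rows. -/

namespace Pool.Agent.MP_f3836a_nt.PK

open MvPolynomial

universe u

/-- the rows of part C -/
structure RowsC : Prop where
  gens : RGens.{u}
  cv : RCvA.{u}
  va : RVA.{u}
  fin : RFinA.{u}
  ja : RJA.{u}
  tan : RTanA.{u}
  jet : RJetA.{u}
  sm1 : RSm1.{u}
  smF : RSmF.{u}
  sm2 : RSm2.{u}
  sm3 : RSm3.{u}
  bt : RBtA.{u}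
  tr : RTrA.{u}
  ex : RExA.{u}
  e4a : REx4a.{u}
  e4b : REx4b.{u}
  conU : RConU.{u}
  conL : RConL.{u}
  conN : RConN.{u}
  con : RConA.{u}

/-- the rows of part D -/
structure RowsD : Prop where
  tame : RTame.{u}
  dual : RDual.{u}
  sym : RSym.{u}
  rep : RRep.{u}
  last : RLast.{u}
  vfa : RVFA.{u}
  smc : RSmCnt.{u}
  good : RGoodCnt.{u}
  sig : RSigA.{u}
  pen1 : RPen1.{u}
  pen2 : RPen2.{u}
  cnt : RCnt.{u}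
  pts : RPts.{u}
  spec : RSpec.{u}
  st3 : RSt3.{u}
  st3b : RSt3b.{u}
  st4 : RSt4.{u}

section
variable (k K : Type u) [Field k] [IsAlgClosed k] [Field K] [Algebra k K] (p : ℕ) [Fact p.Prime]
  [CharP k p] (N : ℕ) (ξ : Fin (N + 1) → K)

include p in
theorem geo_of (c : RowsC.{u}) (𝒢 : Finset (Pol k N)) (hX : IsSurf k ξ) (hG : IsGens ξ 𝒢) :
    Geo k ξ 𝒢 ∧ Ex4a k ξ ∧ Ex4b k ξ := by
  have cv := c.cv k K p N ξ 𝒢 hX hG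
  have va := c.va k K p N ξ 𝒢 hX hG cv
  have fin := c.fin k K p N ξ 𝒢 hX hG cv va
  have ja := c.ja k K p N ξ 𝒢 hX hG cv va fin
  have tan := c.tan k K p N ξ 𝒢 hX hG
  have s1 := c.sm1 k K p N ξ 𝒢 hX hG cv va
  have sm : ∀ (W : Pol k N) (C : Cv k ξ), Sm ξ W → W ∈ C.P → SmA W C := fun W C hW hC =>
    have h1 := s1 W C hW hC
    have h2 := c.smF k K p N ξ 𝒢 hX hG cv va tan W C hW hC h1
    have h3 := c.sm2 k K p N ξ 𝒢 hX hG cv va W C h1 h2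
    ⟨h1, h2, h3, c.sm3 k K p N ξ 𝒢 hX hG cv va fin W C h1 h2 h3⟩
  have bt := c.bt k K p N ξ 𝒢 hX hG tan
  have ex := c.ex k K p N ξ 𝒢 hX hG fin tan bt
  exact ⟨⟨hX, hG, cv, va, fin, ja, tan, c.jet k K p N ξ 𝒢 hX hG, sm, bt, ex,
    c.con k K p N ξ 𝒢 hX hG cv fin ja ex (c.tr k K p N ξ 𝒢 hX hG cv fin ja tan s1) sm
      (c.conU k K p N ξ 𝒢 hX hG cv va fin sm) (c.conL k K p N ξ 𝒢 hX hG fin)
      (c.conN k K p N ξ 𝒢 hX hG fin)⟩,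
    c.e4a k K p N ξ 𝒢 hX hG fin bt, c.e4b k K p N ξ 𝒢 hX hG fin bt⟩

include p in
/-- every functional killing tame symbols kills cycles -/
theorem lam_cycle (c : RowsC.{u}) (d : RowsD.{u}) (hk : ∀ a : k, a ≠ 0 → ∃ n, 0 < n ∧ a ^ n = 1)
    (hX : IsSurf k ξ) (lam : ∀ C : Cv k ξ, C.κ → ℚ) (hl : Lam lam)
    (φ : ∀ C : Cv k ξ, C.κ) (hφ : IsCycle k ξ φ) : ∑ᶠ C, lam C (φ C) = 0 := by
  obtain ⟨𝒢, hG⟩ := c.gens k K N ξ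
  obtain ⟨g, e4a, e4b⟩ := geo_of k K p N ξ c 𝒢 hX hG
  by_cases hP : Nonempty (Pt k ξ)
  · have sym := d.sym k K p N ξ 𝒢 hk g (d.tame k K p N ξ 𝒢 hk g) lam hl
    obtain ⟨ψ, rep⟩ := d.rep k K p N ξ 𝒢 hk g lam hl
    have vfa := d.vfa k K p N ξ 𝒢 hk g
    have smc := d.smc k K p N ξ 𝒢 hk g vfa
    have pts := d.pts k K p N ξ 𝒢 hk g vfa
    have spec := d.spec k K p N ξ 𝒢 hk g vfa pts (d.cnt k K p N ξ 𝒢 hk g vfa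
      (d.good k K p N ξ 𝒢 hk g vfa) (d.pen2 k K p N ξ 𝒢 hk g vfa (d.sig k K p N ξ 𝒢 hk g)
        (d.pen1 k K p N ξ 𝒢 hk g)))
    obtain ⟨α, hα⟩ := d.st3b k K p N ξ 𝒢 hk g vfa smc spec
      (d.st3 k K p N ξ 𝒢 hk g vfa pts smc spec) _ ψ sym rep
    exact d.last k K p N ξ 𝒢 hk g lam α hl (d.st4 k K p N ξ 𝒢 hk g e4a e4b hP _ α sym hα) φ hφ
  · have : IsEmpty (Cv k ξ) := ⟨fun C => hP ⟨(g.cv.pt C).choose⟩⟩
    exact finsum_of_isEmpty _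

include p in
theorem torsion_of (c : RowsC.{u}) (d : RowsD.{u}) (hk : ∀ a : k, a ≠ 0 → ∃ n, 0 < n ∧ a ^ n = 1)
    (hX : IsSurf k ξ) (φ : ∀ C : Cv k ξ, C.κ) (hφ : IsCycle k ξ φ) :
    ∃ n, 0 < n ∧ IsBdry k ξ fun C => φ C ^ n := by
  by_contra hn
  obtain ⟨𝒢, hG⟩ := c.gens k K N ξ
  have g := (geo_of k K p N ξ c 𝒢 hX hG).1
  obtain ⟨lam, hl, hne⟩ := d.dual k K p N ξ 𝒢 hk g (d.tame k K p N ξ 𝒢 hk g) φ hφ.ne hφ.fin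
    fun n h0 hb => hn ⟨n, h0, hb⟩
  exact hne (lam_cycle k K p N ξ c d hk hX lam hl φ hφ)

end

end Pool.Agent.MP_f3836a_nt.PK
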