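import Pool.Agent.MP_f3836a_nt.PK.Basic

set_option autoImplicit false

/-! Part B: two-dimensional regular local rings, generic points, jets. No surface yet. -/

namespace Pool.Agent.MP_f3836a_nt.PK

open MvPolynomial IntermediateField IsLocalRing

universe u

/-- regular local rings of dimension two -/
def RReg : Prop := ∀ (R : Type u) [CommRing R] [IsDomain R] [IsRegularLocalRing R],
  ringKrullDim R = 2 →
  (∃ y ∈ maximalIdeal R, y ∉ maximalIdeal R ^ 2) ∧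
  (∀ y ∈ maximalIdeal R, y ∉ maximalIdeal R ^ 2 → Prime y ∧
    ∃ _ : IsDomain (R ⧸ Ideal.span {y}), IsDiscreteValuationRing (R ⧸ Ideal.span {y})) ∧
  UniqueFactorizationMonoid R ∧
  (∀ I : Ideal R, I.IsPrime → I ≠ ⊥ → I ≠ maximalIdeal R → ∃ π : R, Prime π ∧ I = Ideal.span {π}) ∧
  (∀ π : R, Prime π → Ideal.span {π} ≠ maximalIdeal R ∧ Ring.KrullDimLE 1 (R ⧸ Ideal.span {π})) ∧
  (∀ y ∈ maximalIdeal R, y ∉ maximalIdeal R ^ 2 → ∃ a : R, maximalIdeal R = Ideal.span {a, y} ∧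
    a ∉ Ideal.span {y} ⊔ maximalIdeal R ^ 2)

section
variable {Ω : Type u} [Field Ω] {N : ℕ}

/-- first nonzero coordinate is the `i`-th and equals one -/
def Nrm (z : Fin (N + 1) → Ω) (i : Fin (N + 1)) : Prop := z i = 1 ∧ ∀ j < i, z j = 0

def OnV (𝒢 : Set (Pol Ω N)) (z : Fin (N + 1) → Ω) : Prop := ∀ G ∈ 𝒢, eval z G = 0

/-- tangent vector in the chart `i` -/
def Tan (𝒢 : Set (Pol Ω N)) (z : Fin (N + 1) → Ω) (i : Fin (N + 1)) (τ : Fin (N + 1) → Ω) : Prop :=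
  τ i = 0 ∧ ∀ G ∈ 𝒢, dEv z G τ = 0

/-- `h` vanishes to second order at a point of `V(𝒢)` -/
def Sing (𝒢 : Set (Pol Ω N)) (h : Pol Ω N) : Prop :=
  ∃ i z, Nrm z i ∧ OnV 𝒢 z ∧ eval z h = 0 ∧ ∀ τ, Tan 𝒢 z i τ → dEv z h τ = 0

/-- all tangent spaces have dimension at most one -/
def Line (𝒢 : Set (Pol Ω N)) : Prop :=
  ∀ i z τ τ', Nrm z i → OnV 𝒢 z → Tan 𝒢 z i τ → Tan 𝒢 z i τ' → ∀ a b, τ a * τ' b = τ b * τ' a

noncomputable def arc (z τ υ : Fin (N + 1) → Ω) : Fin (N + 1) → Polynomial Ω := fun j =>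
  Polynomial.C (z j) + Polynomial.C (τ j) * Polynomial.X + Polynomial.C (υ j) * Polynomial.X ^ 2

/-- `G` vanishes to order `j` along the arc -/
def Van (j : ℕ) (G : Pol Ω N) (z τ υ : Fin (N + 1) → Ω) : Prop :=
  Polynomial.X ^ j ∣ aeval (arc z τ υ) G

/-- a normalized jet of order two of the curve `V(𝒢)` -/
def IsJet (𝒢 : Set (Pol Ω N)) (i l : Fin (N + 1)) (z τ υ : Fin (N + 1) → Ω) : Prop :=
  Nrm z i ∧ τ i = 0 ∧ υ i = 0 ∧ τ l = 1 ∧ υ l = 0 ∧ ∀ G ∈ 𝒢, Van 3 G z τ υ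

/-- a member of the pencil has a triple zero -/
def Bad1 (𝒢 : Set (Pol Ω N)) (h₁ h₂ : Pol Ω N) : Prop :=
  ∃ a b : Ω, (a = 1 ∨ b = 1) ∧ ∃ i l z τ υ, IsJet 𝒢 i l z τ υ ∧ Van 3 (C a * h₁ + C b * h₂) z τ υ

/-- a member of the pencil has two double zeros off the base points `w` -/
def Bad2 (𝒢 : Set (Pol Ω N)) {r : ℕ} (w : Fin r → Fin (N + 1) → Ω) (h₁ h₂ : Pol Ω N) : Prop :=
  ∃ a b : Ω, (a = 1 ∨ b = 1) ∧ ∃ i l z τ υ i' l' z' τ' υ', IsJet 𝒢 i l z τ υ ∧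
    IsJet 𝒢 i' l' z' τ' υ' ∧ z ≠ z' ∧ (∀ s, z ≠ w s) ∧ (∀ s, z' ≠ w s) ∧
    Van 2 (C a * h₁ + C b * h₂) z τ υ ∧ Van 2 (C a * h₁ + C b * h₂) z' τ' υ'

/-- an extra base point -/
def Bad3 (𝒢 : Set (Pol Ω N)) {r : ℕ} (w : Fin r → Fin (N + 1) → Ω) (h₁ h₂ : Pol Ω N) : Prop :=
  ∃ i z, Nrm z i ∧ OnV 𝒢 z ∧ (∀ s, z ≠ w s) ∧ eval z h₁ = 0 ∧ eval z h₂ = 0

def BadP (𝒢 : Set (Pol Ω N)) {r : ℕ} (w : Fin r → Fin (N + 1) → Ω) (h₁ h₂ : Pol Ω N) : Prop :=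
  Bad1 𝒢 h₁ h₂ ∨ Bad2 𝒢 w h₁ h₂ ∨ Bad3 𝒢 w h₁ h₂

end

/-- exponents of monomials of degree `n` -/
abbrev Mon (N n : ℕ) : Type := {d : Fin (N + 1) →₀ ℕ // d.degree = n}

instance (N n : ℕ) : Finite (Mon N n) := (Finsupp.finite_of_degree_eq n).to_subtype

noncomputable instance (N n : ℕ) : Fintype (Mon N n) := Fintype.ofFinite _

/-- the form with given coefficients -/
noncomputable def frm {Ω : Type u} [Field Ω] {N n : ℕ} (a : Mon N n → Ω) : Pol Ω N :=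
  ∑ d, monomial d.1 (a d)

section
variable {k : Type u} [Field k] {N : ℕ} (Ω : Type u) [Field Ω] [Algebra k Ω]

/-- extension of scalars of a finite set of polynomials -/
def ext (𝒢 : Finset (Pol k N)) : Set (Pol Ω N) := map (algebraMap k Ω) '' (𝒢 : Set (Pol k N))

/-- linear combination over `Ω` of polynomials over `k` -/
noncomputable def cmb {m : ℕ} (B : Fin m → Pol k N) (a : Fin m → Ω) : Pol Ω N :=
  ∑ j, C (a j) * map (algebraMap k Ω) (B j)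

end

/-- the family `B` generates one-jets, except at `k`-points where some member is nonsingular -/
def JetGen {k : Type u} [Field k] {N m : ℕ} (𝒢 : Finset (Pol k N)) (B : Fin m → Pol k N) : Prop :=
  ∀ (L : Type u) [Field L] [Algebra k L] (i : Fin (N + 1)) (z : Fin (N + 1) → L), Nrm z i →
    OnV (ext L 𝒢) z →
    (∀ (c : L) (δ : Fin (N + 1) → L), ∃ b : Fin m → L, eval z (cmb L B b) = c ∧
      ∀ τ, τ i = 0 → dEv z (cmb L B b) τ = ∑ j, δ j * τ j) ∨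
    ∃ w : Fin (N + 1) → k, (z = fun j => algebraMap k L (w j)) ∧ ∃ j, eval w (B j) ≠ 0 ∨
      ∃ τ, Tan (𝒢 : Set (Pol k N)) w i τ ∧ dEv w (B j) τ ≠ 0

/-- Bertini at the generic point -/
def RGenS : Prop := ∀ (k : Type u) [Field k] (N m : ℕ) (𝒢 : Finset (Pol k N))
  (B : Fin m → Pol k N), JetGen 𝒢 B →
  ∀ (Ω : Type u) [Field Ω] [Algebra k Ω] (a : Fin m → Ω), AlgebraicIndependent k a →
    ¬ Sing (ext Ω 𝒢) (cmb Ω B a)

/-- field of definition of a jet -/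
def RJetF : Prop := ∀ (k : Type u) [Field k] (N : ℕ) (𝒢 : Finset (Pol k N))
  (Ω : Type u) [Field Ω] [Algebra k Ω], Line (ext Ω 𝒢) →
  (∀ i z, Nrm z i → OnV (ext Ω 𝒢) z →
    ∃ l, ∀ j, IsAlgebraic (Algebra.adjoin k {z l}) (z j)) ∧
  ∀ i l z τ υ, IsJet (ext Ω 𝒢) i l z τ υ → OnV (ext Ω 𝒢) z ∧
    ∀ j, τ j ∈ adjoin k (Set.range z) ∧ υ j ∈ adjoin k (Set.range z)

/-- the family `B` spans the forms of degree `n` vanishing at the points `w` -/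
structure Spans {k : Type u} [Field k] {N r m : ℕ} (w : Fin r → Fin (N + 1) → k) (n : ℕ)
    (B : Fin m → Pol k N) : Prop where
  nrm : ∀ s, ∃ i, Nrm (w s) i
  inj : Function.Injective w
  hom : ∀ j, (B j).IsHomogeneous n
  van : ∀ j s, eval (w s) (B j) = 0
  span : ∀ h : Pol k N, h.IsHomogeneous n → (∀ s, eval (w s) h = 0) →
    h ∈ Submodule.span k (Set.range B)

/-- the shape of the three genericity rows -/
def GenBad (bad : ∀ (Ω : Type u) [Field Ω] (N : ℕ) (_ : Set (Pol Ω N)) (r : ℕ)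
    (_ : Fin r → Fin (N + 1) → Ω) (_ _ : Pol Ω N), Prop) : Prop :=
  ∀ (k : Type u) [Field k] (N r m n : ℕ) (𝒢 : Finset (Pol k N)) (w : Fin r → Fin (N + 1) → k)
    (B : Fin m → Pol k N), r + 3 ≤ n → Spans w n B →
    ∀ (Ω : Type u) [Field Ω] [Algebra k Ω] (a a' : Fin m → Ω), Line (ext Ω 𝒢) →
      AlgebraicIndependent k (Sum.elim a a') →
      ¬ bad Ω N (ext Ω 𝒢) r (fun s j => algebraMap k Ω (w s j)) (cmb Ω B a) (cmb Ω B a')

def RGen1 : Prop := GenBad.{u} fun _ _ _ 𝒢 _ _ h₁ h₂ => Bad1 𝒢 h₁ h₂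
def RGen2 : Prop := GenBad.{u} fun _ _ _ 𝒢 _ w h₁ h₂ => Bad2 𝒢 w h₁ h₂
def RGen3 : Prop := GenBad.{u} fun _ _ _ 𝒢 _ w h₁ h₂ => Bad3 𝒢 w h₁ h₂

/-- common tool for the three rows: a form over `L` vanishing at the `w s` is a combination -/
def RCmb : Prop := ∀ (k : Type u) [Field k] (N r m n : ℕ) (w : Fin r → Fin (N + 1) → k)
  (B : Fin m → Pol k N), Spans w n B → ∀ (Ω : Type u) [Field Ω] [Algebra k Ω]
  (L : IntermediateField k Ω) (h : Pol Ω N), h.IsHomogeneous n → (∀ d, coeff d h ∈ L) →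
  (∀ s, eval (fun j => algebraMap k Ω (w s j)) h = 0) →
  ∃ b : Fin m → Ω, (∀ j, b j ∈ L) ∧ h = cmb Ω B b

/-- forms with prescribed orders along one or two arcs, vanishing at given points -/
def RSepF : Prop := ∀ (Ω : Type u) [Field Ω] (L : Subfield Ω) (N r n : ℕ)
  (w : Fin r → Fin (N + 1) → Ω) (i l : Fin (N + 1)) (z τ υ : Fin (N + 1) → Ω),
  (∀ s, ∃ i, Nrm (w s) i) → (∀ s j, w s j ∈ L) → (∀ j, z j ∈ L ∧ τ j ∈ L ∧ υ j ∈ L) →
  Nrm z i → τ i = 0 → υ i = 0 → τ l = 1 → υ l = 0 →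
  ∀ (e : ℕ) (t : Finset (Fin r)), (∀ s ∈ t, w s ≠ z) → t.card + e ≤ n →
  (∃ h : Pol Ω N, h.IsHomogeneous n ∧ (∀ d, coeff d h ∈ L) ∧ (∀ s ∈ t, eval (w s) h = 0) ∧
    Van e h z τ υ ∧ (aeval (arc z τ υ) h).coeff e = 1) ∧
  ∀ (i' : Fin (N + 1)) (z' τ' υ' : Fin (N + 1) → Ω), (∀ j, z' j ∈ L) → Nrm z' i' → z' ≠ z →
    t.card + e + 2 ≤ n →
    ∃ h : Pol Ω N, h.IsHomogeneous n ∧ (∀ d, coeff d h ∈ L) ∧ (∀ s ∈ t, eval (w s) h = 0) ∧
      Van e h z τ υ ∧ (aeval (arc z τ υ) h).coeff e = 1 ∧ Van 2 h z' τ' υ'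

/-- a form vanishing at given points with value one at another point -/
def RSep0 : Prop := ∀ (Ω : Type u) [Field Ω] (L : Subfield Ω) (N r n : ℕ)
  (w : Fin r → Fin (N + 1) → Ω) (i : Fin (N + 1)) (z : Fin (N + 1) → Ω),
  (∀ s, ∃ i, Nrm (w s) i) → (∀ s j, w s j ∈ L) → (∀ j, z j ∈ L) → Nrm z i →
  (∀ s, w s ≠ z) → r ≤ n →
  ∃ h : Pol Ω N, h.IsHomogeneous n ∧ (∀ d, coeff d h ∈ L) ∧ (∀ s, eval (w s) h = 0) ∧ eval z h = 1

def RExS : Prop := ∀ (k : Type u) [Field k] (N n : ℕ) (𝒢 : Finset (Pol k N)),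
  IsEx k (Mon N n) fun Ω _ _ a => Sing (ext Ω 𝒢) (frm a)

def RExM : Prop := ∀ (k : Type u) [Field k] (N w n r : ℕ) (𝒢 : Finset (Pol k N)),
  IsEx k (Mon N w ⊕ (Fin r × Fin (N + 1)) ⊕ Mon N n ⊕ Mon N n) fun Ω _ _ a =>
    BadP (insert (frm fun d => a (.inl d)) (ext Ω 𝒢)) (fun s j => a (.inr (.inl (s, j))))
      (frm fun d => a (.inr (.inr (.inl d)))) (frm fun d => a (.inr (.inr (.inr d))))

/-- two consequences of the Nullstellensatz -/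
def RExN : Prop := ∀ (k : Type u) [Field k] [IsAlgClosed k] (N : ℕ) (𝒢 : Finset (Pol k N))
  (Ω : Type u) [Field Ω] [Algebra k Ω],
  (Line (𝒢 : Set (Pol k N)) → Line (ext Ω 𝒢)) ∧
  ∀ Z : Finset (Fin (N + 1) → k), (∀ i z, Nrm z i → OnV (𝒢 : Set (Pol k N)) z → z ∈ Z) →
    ∀ i z, Nrm z i → OnV (ext Ω 𝒢) z → ∃ w ∈ Z, z = fun j => algebraMap k Ω (w j)

/-- uniform count of singular members -/
def RCntS : Prop := ∀ (k : Type u) [Field k] (N n : ℕ) (𝒢 : Finset (Pol k N)), ∃ c : ℕ,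
  ∀ (m : ℕ) (B : Fin m → Pol k N), (∀ j, (B j).IsHomogeneous n) → JetGen 𝒢 B →
  ∀ S : Finset k, {a : Fin m → k | (∀ j, a j ∈ S) ∧
    Sing (𝒢 : Set (Pol k N)) (∑ j, C (a j) * B j)}.ncard * S.card ≤ c * S.card ^ m

/-- uniform count of bad pencils -/
def RCntM : Prop := ∀ (k : Type u) [Field k] [IsAlgClosed k] (N d n r : ℕ)
  (𝒢 : Finset (Pol k N)), r + 3 ≤ n → ∃ c : ℕ,
  ∀ (W : Pol k N), W.IsHomogeneous d → Line (insert W (𝒢 : Set (Pol k N))) →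
  ∀ (m : ℕ) (w : Fin r → Fin (N + 1) → k) (B : Fin m → Pol k N), Spans w n B →
  ∀ S : Finset k, {a : (Fin m → k) × (Fin m → k) | (∀ j, a.1 j ∈ S ∧ a.2 j ∈ S) ∧
    BadP (insert W (𝒢 : Set (Pol k N))) w (∑ j, C (a.1 j) * B j) (∑ j, C (a.2 j) * B j)}.ncard *
      S.card ≤ c * S.card ^ (2 * m)

/-- a linear system containing all multiples of `A_1, ..., A_r` generates jets -/
def RJetG : Prop := ∀ (k : Type u) [Field k] [IsAlgClosed k] (N n r m : ℕ)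
  (𝒢 : Finset (Pol k N)) (A : Fin r → Pol k N) (a : Fin r → ℕ) (B : Fin m → Pol k N),
  (∀ s, (A s).IsHomogeneous (a s) ∧ a s < n) →
  (∀ s, ∀ M : Pol k N, M.IsHomogeneous (n - a s) → A s * M ∈ Submodule.span k (Set.range B)) →
  {z : Fin (N + 1) → k | (∃ i, Nrm z i) ∧ OnV (𝒢 : Set (Pol k N)) z ∧
    ∀ s, eval z (A s) = 0}.Finite →
  (∀ i z, Nrm z i → OnV (𝒢 : Set (Pol k N)) z → (∀ s, eval z (A s) = 0) →
    ∃ s τ, Tan (𝒢 : Set (Pol k N)) z i τ ∧ dEv z (A s) τ ≠ 0) →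
  JetGen 𝒢 B

/-- `q` holds generically -/
def Gen (k : Type u) (ι : Type) [Fintype ι] (q : (ι → k) → Prop) : Prop :=
  ∃ c : ℕ, ∀ S : Finset k,
    {a : ι → k | (∀ j, a j ∈ S) ∧ ¬ q a}.ncard * S.card ≤ c * S.card ^ Fintype.card ι

structure GenA (k : Type u) [Field k] : Prop where
  and : ∀ (ι : Type) [Fintype ι] (q q' : (ι → k) → Prop), Gen k ι q → Gen k ι q' →
    Gen k ι fun a => q a ∧ q' a
  mono : ∀ (ι : Type) [Fintype ι] (q q' : (ι → k) → Prop), Gen k ι q → (∀ a, q a → q' a) →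
    Gen k ι q'
  all : ∀ (ι : Type) [Fintype ι] (β : Type u) (s : Set β) (q : β → (ι → k) → Prop), s.Finite →
    (∀ b ∈ s, Gen k ι (q b)) → Gen k ι fun a => ∀ b ∈ s, q b a
  ex : ∀ (ι : Type) [Fintype ι] (q : (ι → k) → Prop), Gen k ι q → ∃ a, q a
  sub : ∀ (ι : Type) [Fintype ι] (V : Type u) [AddCommGroup V] [Module k V] (B : ι → V)
    (P : Submodule k V), (∃ j, B j ∉ P) → Gen k ι fun a => ∑ j, a j • B j ∉ P
  equiv : ∀ (ι ι' : Type) [Fintype ι] [Fintype ι'] (e : ι ≃ ι') (q : (ι' → k) → Prop),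
    (Gen k ι fun a => q fun j => a (e.symm j)) → Gen k ι' q

def RGenA : Prop := ∀ (k : Type u) [Field k] [Infinite k], GenA k

/-- finite subsets of the algebraic closure of a finite field -/
def RTow : Prop := ∀ (k : Type u) [Field k] (p : ℕ) [Fact p.Prime] [CharP k p],
  (∀ a : k, a ≠ 0 → ∃ n, 0 < n ∧ a ^ n = 1) → ∀ (s : Set k) (Q : ℕ), s.Finite →
  ∃ r, 1 ≤ r ∧ Q ≤ p ^ r ∧ ∀ a ∈ s, a ^ (p ^ r) ^ 2 = a

end Pool.Agent.MP_f3836a_nt.PK
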