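import Pool.Agent.MP_f3836a_nt.PK.SpecB

set_option autoImplicit false

/-! Part C: the surface. -/

namespace Pool.Agent.MP_f3836a_nt.PK

open MvPolynomial IntermediateField IsLocalRing

universe u

section
variable {k K : Type u} [Field k] [Field K] [Algebra k K] {N : ℕ} {ξ : Fin (N + 1) → K}

variable (ξ) in
/-- coprime forms: nonzero on `X`, no common curve -/
def Cop (A B : Pol k N) : Prop :=
  Form A ∧ Form B ∧ aeval ξ A ≠ 0 ∧ aeval ξ B ≠ 0 ∧ ∀ C : Cv k ξ, A ∈ C.P → B ∉ C.P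

/-- local intersection number -/
noncomputable def J (x : Pt k ξ) (A B : Pol k N) : ℕ :=
  (Module.length x.ctr.O (x.ctr.O ⧸ Ideal.span {x.ctr.lx A, x.ctr.lx B})).toNat

/-- `A` vanishes to second order at `x` -/
def Pt.Sq (x : Pt k ξ) (A : Pol k N) : Prop := x.ctr.lx A ∈ maximalIdeal x.ctr.O ^ 2

variable (ξ) in
/-- smooth form -/
def Sm (W : Pol k N) : Prop :=
  Form W ∧ 1 ≤ W.totalDegree ∧ aeval ξ W ≠ 0 ∧ ∀ x : Pt k ξ, ¬ x.Sq W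

variable (ξ) in
/-- common zeros -/
def Zs (A B : Pol k N) : Set (Pt k ξ) := {x | eval x.z A = 0 ∧ eval x.z B = 0}

variable (ξ) in
/-- generators of the homogeneous ideal of `X` -/
structure IsGens (𝒢 : Finset (Pol k N)) : Prop where
  form : ∀ G ∈ 𝒢, Form G ∧ aeval ξ G = 0
  span : ∀ H : Pol k N, Form H → aeval ξ H = 0 → H ∈ Ideal.span (𝒢 : Set (Pol k N))

theorem IsGens.onV {𝒢 : Finset (Pol k N)} (h : IsGens ξ 𝒢) (x : Pt k ξ) :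
    Nrm x.z x.ctr.idx ∧ OnV (𝒢 : Set (Pol k N)) x.z :=
  ⟨x.z_idx, fun G hG => x.van _ G (h.form G hG).1 (h.form G hG).2⟩

theorem IsGens.pt {𝒢 : Finset (Pol k N)} (h : IsGens ξ 𝒢) {i : Fin (N + 1)} {z : Fin (N + 1) → k}
    (hn : Nrm z i) (hz : OnV (𝒢 : Set (Pol k N)) z) : ∃ x : Pt k ξ, x.z = z ∧ x.ctr.idx = i := by
  let x : Pt k ξ := ⟨z, ⟨i, hn⟩, fun n G hG h0 => by
    have h1 : Ideal.span (𝒢 : Set (Pol k N)) ≤ RingHom.ker (eval z) :=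
      Ideal.span_le.mpr fun G hG => hz G hG
    exact h1 (h.span G (Form.of hG) h0)⟩
  refine ⟨x, rfl, ?_⟩
  obtain ⟨h1, h2⟩ := x.z_idx
  rcases lt_trichotomy x.ctr.idx i with hl | hl | hl
  · exact absurd ((hn.2 _ hl).symm.trans h1) zero_ne_one
  · exact hl
  · exact absurd ((h2 _ hl).symm.trans hn.1) zero_ne_one

/-- degree of a curve: number of zeros of a coordinate -/
noncomputable def Cv.deg (C : Cv k ξ) : ℕ :=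
  (∑ᶠ (x : Pt k ξ) (_ : x.On C), C.ordAt x (C.res (x.ctr.lo (X C.idx)))).toNat

/-- the place `P` of the function field of `C` is the point `x` -/
def Cv.Pl (C : Cv k ξ) (x : Pt k ξ) (P : Place k C.κ) : Prop :=
  x.On C ∧ P.V.toSubring = C.loc x

variable (k ξ)

/-- curves and prime elements of the local rings -/
structure CvA : Prop where
  ext : ∀ C C' : Cv k ξ, C.O = C'.O → C = C'
  pt : ∀ C : Cv k ξ, ∃ x : Pt k ξ, x.On C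
  dvr : ∀ C : Cv k ξ, IsDiscreteValuationRing C.O
  on : ∀ (x : Pt k ξ) (C : Cv k ξ), x.On C → ∃ π : x.ctr.O, Prime π ∧
    (∀ a : x.ctr.O, π ∣ a ↔ C.res a = 0) ∧
    ∀ f : K, f ∈ C.O ↔ ∃ a b : x.ctr.O, ¬ π ∣ b ∧ f * b = a
  ofP : ∀ (x : Pt k ξ) (π : x.ctr.O), Prime π →
    ∃ C : Cv k ξ, x.On C ∧ ∀ a : x.ctr.O, π ∣ a ↔ C.res a = 0
  uniq : ∀ (x : Pt k ξ) (C C' : Cv k ξ), x.On C → x.On C' →
    (∀ a : x.ctr.O, C.res a = 0 ↔ C'.res a = 0) → C = C'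

/-- valuations along curves and orders at points of curves -/
structure VA : Prop where
  mul : ∀ (C : Cv k ξ) (f g : K), f ≠ 0 → g ≠ 0 → C.v (f * g) = C.v f + C.v g
  mem : ∀ (C : Cv k ξ) (f : K), f ≠ 0 → (f ∈ C.O ↔ 0 ≤ C.v f)
  pos : ∀ (C : Cv k ξ) (f : K), f ≠ 0 → f ∈ C.O → (0 < C.v f ↔ C.res f = 0)
  form : ∀ (C : Cv k ξ) (A : Pol k N), Form A → aeval ξ A ≠ 0 →
    0 ≤ C.v (C.lo A) ∧ (0 < C.v (C.lo A) ↔ A ∈ C.P)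
  pow : ∀ (x : Pt k ξ) (C : Cv k ξ), x.On C → ∀ π : x.ctr.O, Prime π →
    (∀ a : x.ctr.O, π ∣ a ↔ C.res a = 0) →
    C.v π = 1 ∧ ∀ (a : x.ctr.O) (j : ℕ), a ≠ 0 → (π ^ j ∣ a ↔ (j : ℤ) ≤ C.v a)
  chg : ∀ (x : Pt k ξ) (C : Cv k ξ), x.On C → ∀ A : Pol k N, Form A → aeval ξ A ≠ 0 →
    C.v (x.ctr.lo A) = C.v (C.lo A)
  loc : ∀ (x : Pt k ξ) (C : Cv k ξ), x.On C →
    (∀ f : C.κ, f ∈ C.loc x ↔ ∃ a : x.ctr.O, C.res a = f) ∧ IsNoetherianRing (C.loc x) ∧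
    Ring.KrullDimLE 1 (C.loc x) ∧ ∀ f : C.κ, ∃ a b : C.loc x, (b : C.κ) ≠ 0 ∧ f * b = a
  omul : ∀ (x : Pt k ξ) (C : Cv k ξ), x.On C → ∀ f g : C.κ, f ≠ 0 → g ≠ 0 →
    C.ordAt x (f * g) = C.ordAt x f + C.ordAt x g
  olen : ∀ (x : Pt k ξ) (C : Cv k ξ), x.On C → ∀ π : x.ctr.O,
    (∀ a : x.ctr.O, π ∣ a ↔ C.res a = 0) → ∀ b : x.ctr.O, ¬ π ∣ b →
    Module.length x.ctr.O (x.ctr.O ⧸ Ideal.span {π, b}) ≠ ⊤ ∧
    C.ordAt x (C.res b) = (Module.length x.ctr.O (x.ctr.O ⧸ Ideal.span {π, b})).toNat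
  frac : ∀ (C : Cv k ξ) (f : C.κ), ∃ (n : ℕ) (A B : Pol k N), A.IsHomogeneous n ∧
    B.IsHomogeneous n ∧ B ∉ C.P ∧ f = C.res (aeval ξ A / aeval ξ B)

/-- finiteness -/
structure FinA : Prop where
  cv : ∀ A : Pol k N, Form A → aeval ξ A ≠ 0 → {C : Cv k ξ | A ∈ C.P}.Finite
  v : ∀ f : K, {C : Cv k ξ | C.v f ≠ 0}.Finite
  pt : ∀ (C : Cv k ξ) (B : Pol k N), Form B → B ∉ C.P →
    {x : Pt k ξ | x.On C ∧ eval x.z B = 0}.Finite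
  thru : ∀ (x : Pt k ξ) (A : Pol k N), Form A → aeval ξ A ≠ 0 → eval x.z A = 0 →
    ∃ C : Cv k ξ, x.On C ∧ A ∈ C.P
  zs : ∀ A B : Pol k N, Cop ξ A B → (Zs ξ A B).Finite
  ord : ∀ (C : Cv k ξ) (f : C.κ), {x : Pt k ξ | x.On C ∧ C.ordAt x f ≠ 0}.Finite
  lin : ∀ (x : Pt k ξ) (C : Cv k ξ), ∃ l : Pol k N, l.IsHomogeneous 1 ∧ eval x.z l = 0 ∧ l ∉ C.P

/-- intersection numbers -/
structure JA : Prop where
  symm : ∀ (x : Pt k ξ) (A B : Pol k N), J x A B = J x B A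
  shear : ∀ (x : Pt k ξ) (n : ℕ) (A B B' D : Pol k N), Form A → Form D → B.IsHomogeneous n →
    B'.IsHomogeneous n → (D * A).IsHomogeneous n → aeval ξ (B' - B - D * A) = 0 →
    J x A B' = J x A B
  mul : ∀ (x : Pt k ξ) (A B B' : Pol k N), Cop ξ A B → Cop ξ A B' →
    J x A (B * B') = J x A B + J x A B'
  zero : ∀ (x : Pt k ξ) (A B : Pol k N), Cop ξ A B → (J x A B = 0 ↔ x ∉ Zs ξ A B)
  fml : ∀ (x : Pt k ξ) (n : ℕ) (G A B : Pol k N), Cop ξ G A → Cop ξ G B → A.IsHomogeneous n →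
    B.IsHomogeneous n → (J x G A : ℤ) - J x G B = ∑ᶠ (C : Cv k ξ) (_ : x.On C),
      C.v (C.lo G) * C.ordAt x (C.res (aeval ξ A / aeval ξ B))

variable (𝒢 : Finset (Pol k N))

/-- tangent vectors and the square of the maximal ideal -/
structure TanA : Prop where
  sq : ∀ (x : Pt k ξ) (A : Pol k N), Form A → (x.Sq A ↔ eval x.z A = 0 ∧
    ∀ τ, Tan (𝒢 : Set (Pol k N)) x.z x.ctr.idx τ → dEv x.z A τ = 0)
  sq2 : ∀ (x : Pt k ξ) (W g : Pol k N), Form W → Form g → eval x.z W = 0 →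
    x.ctr.lx g ∈ Ideal.span {x.ctr.lx W} ⊔ maximalIdeal x.ctr.O ^ 2 →
    eval x.z g = 0 ∧ ∀ τ, Tan (insert W (𝒢 : Set (Pol k N))) x.z x.ctr.idx τ → dEv x.z g τ = 0
  line : ∀ W : Pol k N, Sm ξ W → Line (insert W (𝒢 : Set (Pol k N)))

/-- jets of a smooth curve -/
def JetA : Prop := ∀ W : Pol k N, Sm ξ W → ∀ x : Pt k ξ, eval x.z W = 0 →
  ∃ l τ υ, IsJet (insert W (𝒢 : Set (Pol k N))) x.ctr.idx l x.z τ υ ∧
    ∀ (g : Pol k N) (j : ℕ), Form g → j ≤ 3 →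
      x.ctr.lx g ∈ Ideal.span {x.ctr.lx W} ⊔ maximalIdeal x.ctr.O ^ j → Van j g x.z τ υ

variable {k ξ}

/-- a component of a smooth form: local structure -/
structure Sm1 (W : Pol k N) (C : Cv k ξ) : Prop where
  one : C.v (C.lo W) = 1
  gen : ∀ x : Pt k ξ, x.On C → Prime (x.ctr.lx W) ∧
    ∀ a : x.ctr.O, x.ctr.lx W ∣ a ↔ C.res a = 0
  disj : ∀ (x : Pt k ξ) (C' : Cv k ξ), x.On C → x.On C' → W ∈ C'.P → C' = C
  dvr : ∀ x : Pt k ξ, x.On C → IsDiscreteValuationRing (C.loc x)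
  ordJ : ∀ x : Pt k ξ, x.On C → ∀ B : Pol k N, Form B → B ∉ C.P →
    C.ordAt x (C.res (x.ctr.lo B)) = J x W B
  quo : ∀ x : Pt k ξ, x.On C → ∀ (n : ℕ) (A B : Pol k N), A.IsHomogeneous n → B.IsHomogeneous n →
    A ∉ C.P → B ∉ C.P → C.ordAt x (C.res (aeval ξ A / aeval ξ B)) = (J x W A : ℤ) - J x W B
  ge : ∀ x : Pt k ξ, x.On C → ∀ (g : Pol k N) (j : ℕ), Form g → (g ∈ C.P ∨ j ≤ J x W g) →
    x.ctr.lx g ∈ Ideal.span {x.ctr.lx W} ⊔ maximalIdeal x.ctr.O ^ j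
  le : ∀ x : Pt k ξ, x.On C → ∀ A B : Pol k N, Form A → Form B → A ∉ C.P → B ∉ C.P →
    J x W A ≤ J x W B → x.ctr.lx B ∈ Ideal.span {x.ctr.lx A, x.ctr.lx W}

/-- a component of a smooth form: points are places -/
structure Sm2 (C : Cv k ξ) : Prop where
  pl : ∀ x : Pt k ξ, x.On C → ∃ P, C.Pl x P
  pt : ∀ P : Place k C.κ, ∃ x, C.Pl x P
  inj : ∀ x y P, C.Pl x P → C.Pl y P → x = y
  val : ∀ x P, C.Pl x P → ∀ (n : ℕ) (A B : Pol k N), A.IsHomogeneous n → B.IsHomogeneous n →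
    eval x.z B ≠ 0 → C.res (aeval ξ A / aeval ξ B) ∈ P.V ∧
      P.val (C.res (aeval ξ A / aeval ξ B)) = eval x.z A / eval x.z B

/-- a component of a smooth form: degrees -/
structure Sm3 (W : Pol k N) (C : Cv k ξ) : Prop where
  pos : 1 ≤ C.deg
  deg : ∀ (n : ℕ) (B : Pol k N), B.IsHomogeneous n → B ∉ C.P →
    ∑ᶠ (x : Pt k ξ) (_ : x.On C), J x W B = n * C.deg
  gen : adjoin k (Set.range fun j => C.res (C.lo (X j))) = ⊤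
  two : ∃ i j : Fin (N + 1), ∀ a b : k, (a ≠ 0 ∨ b ≠ 0) →
    (MvPolynomial.C a * X i + MvPolynomial.C b * X j : Pol k N) ∉ C.P

/-- everything about components of smooth forms -/
structure SmA (W : Pol k N) (C : Cv k ξ) : Prop where
  s1 : Sm1 W C
  ff : IsFF k C.κ
  s2 : Sm2 C
  s3 : Sm3 W C

variable (k ξ)

/-- Bertini -/
structure BtA : Prop where
  gen : ∀ (ι : Type) [Fintype ι] (n r : ℕ) (B : ι → Pol k N) (A : Fin r → Pol k N) (a : Fin r → ℕ),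
    Nonempty (Pt k ξ) → 1 ≤ n → (∀ j, (B j).IsHomogeneous n) →
    (∀ s, (A s).IsHomogeneous (a s) ∧ a s < n) →
    (∀ s, ∀ M : Pol k N, M.IsHomogeneous (n - a s) → A s * M ∈ Submodule.span k (Set.range B)) →
    {x : Pt k ξ | ∀ s, eval x.z (A s) = 0}.Finite →
    (∀ x : Pt k ξ, (∀ s, eval x.z (A s) = 0) → ∃ s, ¬ x.Sq (A s)) →
    Gen k ι fun c => Sm ξ (∑ j, C (c j) * B j)
  uni : ∀ n, 2 ≤ n → ∃ c : ℕ, ∀ (x : Pt k ξ) (m : ℕ) (B : Fin m → Pol k N),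
    (∀ j, (B j).IsHomogeneous n) →
    (∀ h : Pol k N, h.IsHomogeneous n → eval x.z h = 0 → h ∈ Submodule.span k (Set.range B)) →
    ∀ S : Finset k, {a : Fin m → k | (∀ j, a j ∈ S) ∧ ¬ Sm ξ (∑ j, C (a j) * B j)}.ncard * S.card ≤
      c * S.card ^ m

/-- a form transversal to a smooth curve -/
def TrA : Prop := ∀ W : Pol k N, Sm ξ W → ∀ n, 1 ≤ n →
  ∃ h : Pol k N, h.IsHomogeneous n ∧ Cop ξ W h ∧ ∀ x : Pt k ξ, J x W h ≤ 1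

/-- existence of smooth forms -/
structure ExA : Prop where
  e0 : ∀ n, 1 ≤ n → Nonempty (Pt k ξ) → ∀ 𝒞 : Set (Cv k ξ), 𝒞.Finite →
    ∃ h : Pol k N, h.IsHomogeneous n ∧ Sm ξ h ∧ ∀ C ∈ 𝒞, h ∉ C.P
  e1 : ∀ n, 2 ≤ n → ∀ (x : Pt k ξ) (Y : Set (Pt k ξ)) (𝒞 : Set (Cv k ξ)), Y.Finite → x ∉ Y →
    𝒞.Finite → ∃ h : Pol k N, h.IsHomogeneous n ∧ Sm ξ h ∧ eval x.z h = 0 ∧
      (∀ y ∈ Y, eval y.z h ≠ 0) ∧ ∀ C ∈ 𝒞, h ∉ C.P

/-- step 4a -/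
def Ex4a : Prop := ∀ A B : Pol k N, Nonempty (Pt k ξ) → Cop ξ A B →
  (∀ x : Pt k ξ, ¬ (x.Sq A ∧ x.Sq B)) →
  ∃ (n : ℕ) (B' D : Pol k N), Form D ∧ (B * B').IsHomogeneous n ∧ (D * A).IsHomogeneous n ∧
    Sm ξ B' ∧ Cop ξ A B' ∧ Sm ξ (B * B' + D * A)

/-- step 4b -/
def Ex4b : Prop := ∀ (A B h : Pol k N) (x : Pt k ξ), Cop ξ A B → Sm ξ h → Cop ξ A h →
  x ∈ Zs ξ A B → (∀ y ∈ Zs ξ A B, y ≠ x → eval y.z h ≠ 0) →
  x.ctr.lx B ∈ Ideal.span {x.ctr.lx A, x.ctr.lx h} →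
  ∃ (n : ℕ) (U D B' : Pol k N), Form D ∧ Form B' ∧ (U * B).IsHomogeneous n ∧
    (D * A).IsHomogeneous n ∧ (h * B').IsHomogeneous n ∧ aeval ξ (U * B - h * B' - D * A) = 0 ∧
    Sm ξ U ∧ Cop ξ A U ∧ ∀ y ∈ Zs ξ A B, eval y.z U ≠ 0

/-- the forms of degree `n` as functions -/
noncomputable def VV (n : ℕ) : Submodule k K :=
  (homogeneousSubmodule (Fin (N + 1)) k n).map (aeval ξ : Pol k N →ₐ[k] K).toLinearMap

/-- upper bound for the Hilbert function from one component -/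
def ConU : Prop := ∀ (W : Pol k N) (C : Cv k ξ), Sm ξ W → W ∈ C.P → ∀ m : ℕ,
  Module.finrank k (VV k ξ (m * W.totalDegree)) ≤
    ∑ j ∈ Finset.range (m + 1), (j * W.totalDegree * C.deg + 1)

/-- lower bound for the Hilbert function from the common zeros of two forms -/
def ConL : Prop := ∀ (W h : Pol k N) (w : ℕ), 1 ≤ w → W.IsHomogeneous w → h.IsHomogeneous w →
  Cop ξ W h → ∀ m : ℕ, (Zs ξ W h).ncard * (m + 1 - (Zs ξ W h).ncard).choose 2 ≤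
    Module.finrank k (VV k ξ (m * w))

/-- a form of positive degree has a zero curve -/
def ConN : Prop := Nonempty (Pt k ξ) → ∀ W : Pol k N, Form W → 1 ≤ W.totalDegree →
  aeval ξ W ≠ 0 → ∃ C : Cv k ξ, W ∈ C.P

/-- the zero set of a smooth form is one curve of bounded degree -/
structure ConA : Prop where
  ex : ∀ W : Pol k N, Sm ξ W → Nonempty (Pt k ξ) → ∃ C : Cv k ξ, W ∈ C.P
  uniq : ∀ (W : Pol k N) (C C' : Cv k ξ), Sm ξ W → W ∈ C.P → W ∈ C'.P → C' = C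
  on : ∀ (W : Pol k N) (C : Cv k ξ), Sm ξ W → W ∈ C.P → ∀ x : Pt k ξ, x.On C ↔ eval x.z W = 0
  bd : ∃ d : ℕ, ∀ (W : Pol k N) (C : Cv k ξ), Sm ξ W → W ∈ C.P → C.deg ≤ W.totalDegree * d

/-- all the geometry used later -/
structure Geo : Prop where
  surf : IsSurf k ξ
  gens : IsGens ξ 𝒢
  cv : CvA k ξ
  va : VA k ξ
  fin : FinA k ξ
  ja : JA k ξ
  tan : TanA k ξ 𝒢
  jet : JetA k ξ 𝒢
  sm : ∀ (W : Pol k N) (C : Cv k ξ), Sm ξ W → W ∈ C.P → SmA W C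
  bt : BtA k ξ
  ex : ExA k ξ
  con : ConA k ξ

end

/-- quantification over all surfaces -/
def All (Φ : ∀ (k K : Type u) [Field k] [Field K] [Algebra k K] (N : ℕ) (_ : Fin (N + 1) → K)
    (_ : Finset (Pol k N)), Prop) : Prop :=
  ∀ (k K : Type u) [Field k] [IsAlgClosed k] [Field K] [Algebra k K] (p : ℕ) [Fact p.Prime]
    [CharP k p] (N : ℕ) (ξ : Fin (N + 1) → K) (𝒢 : Finset (Pol k N)),
    IsSurf k ξ → IsGens ξ 𝒢 → Φ k K N ξ 𝒢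

def RGens : Prop := ∀ (k K : Type u) [Field k] [Field K] [Algebra k K] (N : ℕ)
  (ξ : Fin (N + 1) → K), ∃ 𝒢 : Finset (Pol k N), IsGens ξ 𝒢

def RCvA : Prop := All.{u} fun k _ _ _ _ _ ξ _ => CvA k ξ
def RVA : Prop := All.{u} fun k _ _ _ _ _ ξ _ => CvA k ξ → VA k ξ
def RFinA : Prop := All.{u} fun k _ _ _ _ _ ξ _ => CvA k ξ → VA k ξ → FinA k ξ
def RJA : Prop := All.{u} fun k _ _ _ _ _ ξ _ => CvA k ξ → VA k ξ → FinA k ξ → JA k ξ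
def RTanA : Prop := All.{u} fun k _ _ _ _ _ ξ 𝒢 => TanA k ξ 𝒢
def RJetA : Prop := All.{u} fun k _ _ _ _ _ ξ 𝒢 => JetA k ξ 𝒢
def RSm1 : Prop := All.{u} fun k _ _ _ _ N ξ _ => CvA k ξ → VA k ξ →
  ∀ (W : Pol k N) (C : Cv k ξ), Sm ξ W → W ∈ C.P → Sm1 W C
def RSmF : Prop := All.{u} fun k _ _ _ _ N ξ 𝒢 => CvA k ξ → VA k ξ → TanA k ξ 𝒢 →
  ∀ (W : Pol k N) (C : Cv k ξ), Sm ξ W → W ∈ C.P → Sm1 W C → IsFF k C.κ
def RSm2 : Prop := All.{u} fun k _ _ _ _ N ξ _ => CvA k ξ → VA k ξ →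
  ∀ (W : Pol k N) (C : Cv k ξ), Sm1 W C → IsFF k C.κ → Sm2 C
def RSm3 : Prop := All.{u} fun k _ _ _ _ N ξ _ => CvA k ξ → VA k ξ → FinA k ξ →
  ∀ (W : Pol k N) (C : Cv k ξ), Sm1 W C → IsFF k C.κ → Sm2 C → Sm3 W C
def RBtA : Prop := All.{u} fun k _ _ _ _ _ ξ 𝒢 => TanA k ξ 𝒢 → BtA k ξ
def RTrA : Prop := All.{u} fun k _ _ _ _ N ξ 𝒢 => CvA k ξ → FinA k ξ → JA k ξ → TanA k ξ 𝒢 →
  (∀ (W : Pol k N) (C : Cv k ξ), Sm ξ W → W ∈ C.P → Sm1 W C) → TrA k ξ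
def RExA : Prop := All.{u} fun k _ _ _ _ _ ξ 𝒢 => FinA k ξ → TanA k ξ 𝒢 → BtA k ξ → ExA k ξ
def REx4a : Prop := All.{u} fun k _ _ _ _ _ ξ _ => FinA k ξ → BtA k ξ → Ex4a k ξ
def REx4b : Prop := All.{u} fun k _ _ _ _ _ ξ _ => FinA k ξ → BtA k ξ → Ex4b k ξ
def RConU : Prop := All.{u} fun k _ _ _ _ N ξ _ => CvA k ξ → VA k ξ → FinA k ξ →
  (∀ (W : Pol k N) (C : Cv k ξ), Sm ξ W → W ∈ C.P → SmA W C) → ConU k ξ
def RConL : Prop := All.{u} fun k _ _ _ _ _ ξ _ => FinA k ξ → ConL k ξ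
def RConN : Prop := All.{u} fun k _ _ _ _ _ ξ _ => FinA k ξ → ConN k ξ
def RConA : Prop := All.{u} fun k _ _ _ _ N ξ _ => CvA k ξ → FinA k ξ → JA k ξ → ExA k ξ → TrA k ξ →
  (∀ (W : Pol k N) (C : Cv k ξ), Sm ξ W → W ∈ C.P → SmA W C) →
  ConU k ξ → ConL k ξ → ConN k ξ → ConA k ξ

end Pool.Agent.MP_f3836a_nt.PK
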