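import Pool.Agent.MP_f3836a_nt.PK.SpecD

set_option autoImplicit false

/-! Part E: descent from the algebraic closure. -/

namespace Pool.Agent.MP_f3836a_nt.PK

open MvPolynomial IsLocalRing

universe u

section
variable {L κ : Type u} [Field L] [Field κ]

open Classical in
/-- residue of an element of the field -/
noncomputable def resR (O : Subring L) (r : O →+* κ) (f : L) : κ :=
  if h : f ∈ O then r ⟨f, h⟩ else 0

/-- the element whose residue is the tame symbol -/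
noncomputable def tameE (O : Subring L) (f g : L) : L :=
  (-1) ^ (ordR O f * ordR O g) * f ^ ordR O g / g ^ ordR O f

noncomputable def tameR (O : Subring L) (r : O →+* κ) (f g : L) : κ := resR O r (tameE O f g)

/-- a discrete valuation ring of `L` with residue map `r` -/
structure DV (O : Subring L) (r : O →+* κ) : Prop where
  dvr : IsDiscreteValuationRing O
  frac : ∀ f : L, ∃ a b : O, (b : L) ≠ 0 ∧ f * b = a
  surj : Function.Surjective r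
  ker : ∀ a : O, r a = 0 ↔ ¬ IsUnit a

/-- additive on nonzero elements -/
def Addv (lam : κ → ℚ) : Prop := ∀ f g, f ≠ 0 → g ≠ 0 → lam (f * g) = lam f + lam g

/-- elementary facts -/
structure DVA (O : Subring L) (r : O →+* κ) : Prop where
  mul : ∀ f g : L, f ≠ 0 → g ≠ 0 → ordR O (f * g) = ordR O f + ordR O g
  zpow : ∀ (f : L) (n : ℤ), f ≠ 0 → ordR O (f ^ n) = n * ordR O f
  mem : ∀ f : L, f ≠ 0 → (f ∈ O ↔ 0 ≤ ordR O f)
  uni : ∃ π : L, π ≠ 0 ∧ ordR O π = 1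
  unit : ∀ f : L, f ≠ 0 → ordR O f = 0 → ∃ a : O, IsUnit a ∧ (a : L) = f ∧ resR O r f = r a
  unit' : ∀ a : O, IsUnit a → (a : L) ≠ 0 ∧ ordR O (a : L) = 0
  rmul : ∀ f g : L, f ∈ O → g ∈ O → resR O r (f * g) = resR O r f * resR O r g
  rzpow : ∀ (f : L) (n : ℤ), f ≠ 0 → ordR O f = 0 → resR O r (f ^ n) = resR O r f ^ n
  tE : ∀ f g : L, f ≠ 0 → g ≠ 0 → tameE O f g ≠ 0 ∧ ordR O (tameE O f g) = 0
  ne : ∀ f g : L, f ≠ 0 → g ≠ 0 → tameR O r f g ≠ 0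
  swap : ∀ f g : L, f ≠ 0 → g ≠ 0 → tameR O r f g * tameR O r g f = 1
  one : ∀ f g : L, ordR O f = 0 → ordR O g = 0 → tameR O r f g = 1
  max : ∀ W : Subring L, O ≤ W → W = O ∨ W = ⊤
  val : ∃ W : ValuationSubring L, W.toSubring = O

end

def RDVA : Prop := ∀ (L κ : Type u) [Field L] [Field κ] (O : Subring L) (r : O →+* κ),
  DV O r → DVA O r

/-- extension of additive maps to the rationals -/
def RExt : Prop := ∀ (A B : Type u) [AddCommGroup A] [AddCommGroup B] (f : A →+ B) (g : A →+ ℚ),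
  f.ker ≤ g.ker → ∃ h : B →+ ℚ, ∀ a, h (f a) = g a

/-- invariant under a subgroup of finite index -/
def Adm {G : Type u} [Group G] (F : G → ℚ) : Prop :=
  ∃ H : Subgroup G, H.FiniteIndex ∧ ∀ g, ∀ h ∈ H, F (g * h) = F g

structure Mean {G : Type u} [Group G] (M : (G → ℚ) → ℚ) : Prop where
  add : ∀ F F', Adm F → Adm F' → M (fun g => F g + F' g) = M F + M F'
  smul : ∀ (c : ℚ) F, Adm F → M (fun g => c * F g) = c * M F
  const : ∀ c : ℚ, M (fun _ => c) = c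
  right : ∀ F a, Adm F → M (fun g => F (g * a)) = M F
  sum : ∀ (ι : Type u) (s : Finset ι) (F : ι → G → ℚ), (∀ i ∈ s, Adm (F i)) →
    M (fun g => ∑ i ∈ s, F i g) = ∑ i ∈ s, M (F i)

def RMean : Prop := ∀ (G : Type u) [Group G], ∃ M : (G → ℚ) → ℚ, Mean M

/-- functions of finitely many conjugates are admissible -/
def RAdm : Prop := ∀ (K Ω : Type u) [Field K] [Field Ω] [Algebra K Ω] [Algebra.IsAlgebraic K Ω]
  (s : Set Ω) (F : (Ω ≃ₐ[K] Ω) → ℚ), s.Finite →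
  (∀ σ τ : Ω ≃ₐ[K] Ω, (∀ a ∈ s, σ a = τ a) → F σ = F τ) → Adm F

/-- Bass and Tate: an invariant symbol vanishing on the ground field vanishes -/
def RBT : Prop := ∀ (K Ω : Type u) [Field K] [Field Ω] [Algebra K Ω] [IsAlgClosed Ω]
  [Algebra.IsAlgebraic K Ω] (β : Ω → Ω → ℚ),
  (∀ f f' g, f ≠ 0 → f' ≠ 0 → g ≠ 0 → β (f * f') g = β f g + β f' g) →
  (∀ f g, f ≠ 0 → g ≠ 0 → β f g = -β g f) →
  (∀ f, f ≠ 0 → f ≠ 1 → β f (1 - f) = 0) →
  (∀ (σ : Ω ≃ₐ[K] Ω) f g, f ≠ 0 → g ≠ 0 → β (σ f) (σ g) = β f g) →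
  (∀ a b : K, a ≠ 0 → b ≠ 0 → β (algebraMap K Ω a) (algebraMap K Ω b) = 0) →
  ∀ f g, f ≠ 0 → g ≠ 0 → β f g = 0

/-- valuation data on an algebraic extension -/
structure VD {K Ω κ : Type u} [Field K] [Field Ω] [Algebra K Ω] [Field κ] (O : Subring K)
    (r : O →+* κ) (lam : κ → ℚ) (V : ValuationSubring Ω) (v μ : Ω → ℚ) : Prop where
  vmul : Addv v
  mmul : Addv μ
  mem : ∀ f, f ≠ 0 → (f ∈ V ↔ 0 ≤ v f)
  res : ∀ f : K, f ≠ 0 → v (algebraMap K Ω f) = ordR O f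
  one : ∀ f, f - 1 ∈ V.nonunits → μ f = 0
  lam : ∀ a : O, IsUnit a → μ (algebraMap K Ω a) = lam (r a)

def RVD : Prop := ∀ (K Ω κ : Type u) [Field K] [Field Ω] [Algebra K Ω] [Algebra.IsAlgebraic K Ω]
  [Field κ] (O : Subring K) (r : O →+* κ) (lam : κ → ℚ), DV O r → Addv lam →
  ∃ (V : ValuationSubring Ω) (v μ : Ω → ℚ), VD O r lam V v μ

/-- the rational tame symbol -/
def tt {Ω : Type u} (v μ : Ω → ℚ) (f g : Ω) : ℚ := v g * μ f - v f * μ g

def RBeta : Prop := ∀ (K Ω : Type u) [Field K] [Field Ω] [Algebra K Ω] [IsAlgClosed Ω]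
  [Algebra.IsAlgebraic K Ω] (I : Type u) (κ : I → Type u) [∀ i, Field (κ i)] (O : I → Subring K)
  (r : ∀ i, O i →+* κ i) (lam : ∀ i, κ i → ℚ) (V : I → ValuationSubring Ω) (v μ : I → Ω → ℚ)
  (M : ((Ω ≃ₐ[K] Ω) → ℚ) → ℚ), Mean M → (∀ i, DV (O i) (r i)) →
  (∀ i, VD (O i) (r i) (lam i) (V i) (v i) (μ i)) → (∀ f : K, {i | ordR (O i) f ≠ 0}.Finite) →
  (∀ f g : K, f ≠ 0 → g ≠ 0 → ∑ᶠ i, lam i (tameR (O i) (r i) f g) = 0) →
  ∀ f g : Ω, f ≠ 0 → g ≠ 0 → ∑ᶠ i, M (fun σ => tt (v i) (μ i) (σ f) (σ g)) = 0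

/-- two families of discrete valuation rings, the second lying over the first -/
structure Fam {K₀ K : Type u} [Field K₀] [Field K] [Algebra K₀ K] {I J : Type u}
    {κ : I → Type u} [∀ i, Field (κ i)] {κ' : J → Type u} [∀ j, Field (κ' j)]
    (O : I → Subring K₀) (r : ∀ i, O i →+* κ i) (O' : J → Subring K) (r' : ∀ j, O' j →+* κ' j)
    (b : J → I) : Prop where
  dv : ∀ i, DV (O i) (r i)
  dv' : ∀ j, DV (O' j) (r' j)
  ovr : ∀ j f, f ∈ O (b j) ↔ algebraMap K₀ K f ∈ O' j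
  inj : ∀ j j', O' j = O' j' → j = j'
  lift : ∀ i (W : ValuationSubring K), (∀ f, f ∈ O i ↔ algebraMap K₀ K f ∈ W) →
    ∃ j, b j = i ∧ O' j = W.toSubring
  fin : ∀ f : K, {j | ordR (O' j) f ≠ 0}.Finite

/-- the shape of the rows about two families -/
def AllF (Φ : ∀ (K₀ K : Type u) [Field K₀] [Field K] [Algebra K₀ K] (I J : Type u)
    (κ : I → Type u) [∀ i, Field (κ i)] (κ' : J → Type u) [∀ j, Field (κ' j)]
    (O : I → Subring K₀) (_ : ∀ i, O i →+* κ i) (O' : J → Subring K) (_ : ∀ j, O' j →+* κ' j)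
    (_ : J → I), Prop) : Prop :=
  ∀ (K₀ K : Type u) [Field K₀] [Field K] [Algebra K₀ K] [Algebra.IsAlgebraic K₀ K] (I J : Type u)
    (κ : I → Type u) [∀ i, Field (κ i)] (κ' : J → Type u) [∀ j, Field (κ' j)]
    (O : I → Subring K₀) (r : ∀ i, O i →+* κ i) (O' : J → Subring K) (r' : ∀ j, O' j →+* κ' j)
    (b : J → I), Fam O r O' r' b → Φ K₀ K I J κ κ' O r O' r' b

def RFinI : Prop := AllF.{u} fun K₀ _ _ _ _ _ _ _ _ _ _ O _ _ _ b =>
  (∀ f : K₀, {i | ordR (O i) f ≠ 0}.Finite) ∧ ∀ i, {j | b j = i}.Finite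

/-- descent of functionals killing tame symbols -/
def RDesc : Prop := AllF.{u} fun K₀ K _ _ _ _ _ κ _ κ' _ O r O' r' b =>
  ∀ lam : ∀ i, κ i → ℚ, (∀ i, Addv (lam i)) →
  (∀ f g : K₀, f ≠ 0 → g ≠ 0 → ∑ᶠ i, lam i (tameR (O i) (r i) f g) = 0) →
  ∃ lam' : ∀ j, κ' j → ℚ, (∀ j, Addv (lam' j)) ∧
    (∀ f g : K, f ≠ 0 → g ≠ 0 → ∑ᶠ j, lam' j (tameR (O' j) (r' j) f g) = 0) ∧
    ∀ i (a π : K₀), a ≠ 0 → ordR (O i) a = 0 → ordR (O i) π = 1 →
      ∑ᶠ (j) (_ : b j = i), (ordR (O' j) (algebraMap K₀ K π) : ℚ) *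
        lam' j (resR (O' j) (r' j) (algebraMap K₀ K a)) = lam i (resR (O i) (r i) a)

/-- duality -/
def RDualA : Prop := ∀ (I S : Type u) (κ : I → Type u) [∀ i, Field (κ i)] (t : S → ∀ i, κ i),
  (∀ s i, t s i ≠ 0) → (∀ s, {i | t s i ≠ 1}.Finite) → (∀ s, ∃ s', ∀ i, t s i * t s' i = 1) →
  ∀ φ : ∀ i, κ i, (∀ i, φ i ≠ 0) → {i | φ i ≠ 1}.Finite →
  (∀ lam : ∀ i, κ i → ℚ, (∀ i, Addv (lam i)) → (∀ s, ∑ᶠ i, lam i (t s i) = 0) →
    ∑ᶠ i, lam i (φ i) = 0) →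
  ∃ n : ℕ, 0 < n ∧ ∃ l : List S, ∀ i, φ i ^ n = (l.map fun s => t s i).prod

/-- lengths in an unramified extension of local rings in which ideals contract -/
def RLen : Prop := ∀ (A B : Type u) [CommRing A] [CommRing B] [IsLocalRing A] [IsLocalRing B]
  (f : A →+* B), (maximalIdeal A).map f = maximalIdeal B →
  (∀ I : Ideal A, (I.map f).comap f = I) → ∀ I : Ideal A, Module.length A (A ⧸ I) ≠ ⊤ →
  Module.length B (B ⧸ I.map f) = Module.length A (A ⧸ I)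

/-- regular local rings are domains -/
def RDom : Prop := ∀ (R : Type u) [CommRing R] [IsRegularLocalRing R], IsDomain R

section
variable (F : Type u) {K₀ : Type u} [Field F] [Field K₀] [Algebra F K₀] {N : ℕ}
  (η : Fin (N + 1) → K₀)

/-- a point of the projective scheme `Y` over `F` with generic point `η` -/
structure Hp extends Ctr F η where
  hom : ∀ G ∈ P, ∀ n : ℕ, homogeneousComponent n G ∈ P
  good : toCtr.Good

variable {F η}

/-- closed point -/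
def Hp.Cl (x : Hp F η) : Prop := ∀ y : Hp F η, x.P ≤ y.P → y.P = x.P

/-- a curve as a point -/
def Cv.hp (C : Cv F η) : Hp F η := ⟨C.toCtr, C.hom, C.good⟩

/-- the local ring of the curve at a point, inside a given residue field -/
noncomputable def locR {κ : Type u} [Field κ] (C : Cv F η) (r : C.O →+* κ) (x : Hp F η) :
    Subring κ := (x.O.comap C.O.subtype).map r

variable (F η)

structure IsSurf0 : Prop where
  gen : ∀ f : K₀, ∃ (n : ℕ) (A B : Pol F N),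
    A.IsHomogeneous n ∧ B.IsHomogeneous n ∧ aeval η B ≠ 0 ∧ f * aeval η B = aeval η A
  reg : ∀ x : Hp F η, x.Cl → IsRegularLocalRing x.O ∧ ringKrullDim x.O = 2

/-- points and curves of `Y` -/
structure YA : Prop where
  cl : ∀ c : Hp F η, ∃ x : Hp F η, x.Cl ∧ c.P ≤ x.P
  le : ∀ c x : Hp F η, c.P ≤ x.P → x.O ≤ c.O
  ext : ∀ c c' : Hp F η, c.O = c'.O → c = c'
  on : ∀ (C : Cv F η) (x : Hp F η), x.Cl → C.P ≤ x.P → ∃ π : x.O, Prime π ∧
    (∀ a : x.O, π ∣ a ↔ C.res a = 0) ∧ ∀ f : K₀, f ∈ C.O ↔ ∃ a b : x.O, ¬ π ∣ b ∧ f * b = a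
  dv : ∀ C : Cv F η, DV C.O (residue C.O)
  cv : ∀ c : Hp F η, (∃ C : Cv F η, C.hp = c) ↔ ¬ c.Cl ∧ c.O ≠ ⊤

end

section
variable {F K₀ k K : Type u} [Field F] [Field K₀] [Field k] [Field K] [Algebra F K₀] [Algebra F k]
  [Algebra K₀ K] [Algebra k K] {N : ℕ}

variable (K) in
/-- the generic point after extension of the ground field -/
def up (η : Fin (N + 1) → K₀) : Fin (N + 1) → K := fun j => algebraMap K₀ K (η j)

variable {η : Fin (N + 1) → K₀}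

/-- `c'` lies over `c` -/
def Ov (c' : Ctr k (up K η)) (c : Ctr F η) : Prop :=
  ∀ (n : ℕ) (A : Pol F N), A.IsHomogeneous n → (A ∈ c.P ↔ map (algebraMap F k) A ∈ c'.P)

variable (F k K η)

/-- local structure of the extension at points -/
structure FlA : Prop where
  un : ∀ x : Pt k (up K η), ∃ y : Hp F η, y.Cl ∧ Ov x.ctr y.toCtr
  fl : ∀ (x : Pt k (up K η)) (y : Hp F η), y.Cl → Ov x.ctr y.toCtr →
    ∃ f : y.O →+* x.ctr.O, (∀ a, (f a : K) = algebraMap K₀ K a) ∧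
      (maximalIdeal y.O).map f = maximalIdeal x.ctr.O ∧ ∀ I : Ideal y.O, (I.map f).comap f = I

/-- curves over curves -/
structure OvA (b : Cv k (up K η) → Cv F η) : Prop where
  ov : ∀ C', Ov C'.toCtr (b C').toCtr
  ovr : ∀ C' f, f ∈ (b C').O ↔ algebraMap K₀ K f ∈ C'.O
  lift : ∀ (C : Cv F η) (W : ValuationSubring K), (∀ f, f ∈ C.O ↔ algebraMap K₀ K f ∈ W) →
    ∃ C', b C' = C ∧ C'.O = W.toSubring

end

/-- quantification over all surfaces over `F` with an extension to the algebraic closure -/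
def AllE (Φ : ∀ (F K₀ k K : Type u) [Field F] [Field K₀] [Field k] [Field K] [Algebra F K₀]
    [Algebra F k] [Algebra K₀ K] [Algebra k K] (N : ℕ) (_ : Fin (N + 1) → K₀), Prop) : Prop :=
  ∀ (F K₀ k K : Type u) [Field F] [Field K₀] [Field k] [IsAlgClosed k] [Field K] [Algebra F K₀]
    [Algebra F k] [Algebra K₀ K] [Algebra k K] [Algebra F K] [IsScalarTower F K₀ K]
    [IsScalarTower F k K] [Algebra.IsAlgebraic K₀ K] (p : ℕ) [Fact p.Prime] [CharP k p] (N : ℕ)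
    (η : Fin (N + 1) → K₀),
    (∀ a : k, a ≠ 0 → ∃ n, 0 < n ∧ a ^ n = 1) →
    Subfield.closure (Set.range (algebraMap K₀ K) ∪ Set.range (algebraMap k K)) = ⊤ →
    IsSurf0 F η → Φ F K₀ k K N η

/-- existence of the extension -/
def RBC : Prop := ∀ (F K₀ : Type u) [Field F] [Field K₀] [Algebra F K₀] (p : ℕ) [Fact p.Prime]
  [CharP F p], (∀ a : F, a ≠ 0 → ∃ n, 0 < n ∧ a ^ n = 1) →
  ∃ (k K : Type u) (_ : Field k) (_ : IsAlgClosed k) (_ : Field K) (_ : Algebra F k)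
    (_ : Algebra K₀ K) (_ : Algebra k K) (_ : Algebra F K) (_ : IsScalarTower F K₀ K)
    (_ : IsScalarTower F k K) (_ : CharP k p) (_ : Algebra.IsAlgebraic K₀ K),
    (∀ a : k, a ≠ 0 → ∃ n, 0 < n ∧ a ^ n = 1) ∧
    Subfield.closure (Set.range (algebraMap K₀ K) ∪ Set.range (algebraMap k K)) = ⊤

def RYA : Prop := ∀ (F K₀ : Type u) [Field F] [Field K₀] [Algebra F K₀] (N : ℕ)
  (η : Fin (N + 1) → K₀), IsSurf0 F η → YA F η

def RFlA : Prop := AllE.{u} fun F _ k K _ _ _ _ _ _ _ _ _ η => FlA F k K η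

def RSurfK : Prop := AllE.{u} fun F _ k K _ _ _ _ _ _ _ _ _ η => FlA F k K η → IsSurf k (up K η)

def ROvA : Prop := AllE.{u} fun F _ k K _ _ _ _ _ _ _ _ _ η => YA F η → FlA F k K η →
  IsSurf k (up K η) → CvA k (up K η) → ∃ b, OvA F k K η b

/-- a cycle on `Y` with values in given residue fields -/
structure IsCyc0 {F K₀ : Type u} [Field F] [Field K₀] [Algebra F K₀] {N : ℕ}
    {η : Fin (N + 1) → K₀} {κ : Cv F η → Type u} [∀ C, Field (κ C)] (r : ∀ C : Cv F η, C.O →+* κ C)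
    (φ : ∀ C, κ C) : Prop where
  ne : ∀ C, φ C ≠ 0
  fin : {C | φ C ≠ 1}.Finite
  div : ∀ x : Hp F η, x.Cl → ∑ᶠ (C : Cv F η) (_ : C.P ≤ x.P), ordR (locR C (r C) x) (φ C) = 0

/-- pull back of a cycle -/
def RPull : Prop := AllE.{u} fun F K₀ k K _ _ _ _ _ _ _ _ _ η => YA F η → FlA F k K η →
  IsSurf k (up K η) → CvA k (up K η) → VA k (up K η) → FinA k (up K η) →
  ∀ b, OvA F k K η b → (∀ C, {C' | b C' = C}.Finite) →
  ∀ (κ : Cv F η → Type u) [∀ C, Field (κ C)] (r : ∀ C : Cv F η, C.O →+* κ C) (φ : ∀ C, κ C)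
    (a π : Cv F η → K₀), (∀ C, DV C.O (r C)) → IsCyc0 r φ →
    (∀ C, a C ≠ 0 ∧ C.v (a C) = 0 ∧ resR C.O (r C) (a C) = φ C ∧ (φ C = 1 → a C = 1) ∧
      C.v (π C) = 1) →
    IsCycle k (up K η) fun C' =>
      C'.res (algebraMap K₀ K (a (b C'))) ^ C'.v (algebraMap K₀ K (π (b C')))

/-- the theorem over a subfield of the algebraic closure of a finite field, dual form -/
def RSurfL : Prop := ∀ (F K₀ : Type u) [Field F] [Field K₀] [Algebra F K₀] (p : ℕ) [Fact p.Prime]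
  [CharP F p] (N : ℕ) (η : Fin (N + 1) → K₀), (∀ a : F, a ≠ 0 → ∃ n, 0 < n ∧ a ^ n = 1) →
  IsSurf0 F η → (∀ f : K₀, {C : Cv F η | C.v f ≠ 0}.Finite) ∧
  ∀ (κ : Cv F η → Type u) [∀ C, Field (κ C)] (r : ∀ C : Cv F η, C.O →+* κ C)
    (φ : ∀ C, κ C) (lam : ∀ C, κ C → ℚ), (∀ C, DV C.O (r C)) → IsCyc0 r φ →
    (∀ C, Addv (lam C)) → (∀ f g : K₀, f ≠ 0 → g ≠ 0 → ∑ᶠ C, lam C (tameR C.O (r C) f g) = 0) →
    ∑ᶠ C, lam C (φ C) = 0

end Pool.Agent.MP_f3836a_nt.PK
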