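import Pool.Agent.MP_f3836a_nt.PK.BasicF

set_option autoImplicit false

/-! Part F: curves on a nonsingular variety of any dimension lie, after passing to graphs, on a
nonsingular surface. -/

namespace Pool.Agent.MP_f3836a_nt.PK

open MvPolynomial IsLocalRing IntermediateField

universe u

section
variable {k : Type u} [Field k] {N : ℕ}

/-- nonsingular of dimension `d` -/
def Var.Reg (V : Var k N) (d : ℕ) : Prop :=
  ∀ x : Pt k V.ξ, IsRegularLocalRing x.ctr.O ∧ ringKrullDim x.ctr.O = d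

section
variable {L : Type u} [Field L] [Algebra k L]

/-- the place `P` is centred at the normalized vector `z` -/
def Cen (η : Fin (N + 1) → L) (z : Fin (N + 1) → k) (P : Place k L) : Prop :=
  ∃ i, Nrm z i ∧ η i ≠ 0 ∧ ∀ j, P.Zero (η j / η i - algebraMap k L (z j))

variable (k) in
/-- centres of places -/
structure CenA (η : Fin (N + 1) → L) : Prop where
  ex : ∀ P : Place k L, ∃ x : Pt k η, Cen η x.z P
  uniq : ∀ z z' (P : Place k L), Cen η z P → Cen η z' P → z = z'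
  val : ∀ z (P : Place k L) (n : ℕ) (A B : Pol k N), Cen η z P → A.IsHomogeneous n →
    B.IsHomogeneous n → eval z B ≠ 0 → aeval η B ≠ 0 ∧ aeval η A / aeval η B ∈ P.V ∧
      P.val (aeval η A / aeval η B) = eval z A / eval z B
  dom : ∀ (x : Pt k η) (P : Place k L), Cen η x.z P ↔ x.ctr.O ≤ P.V.toSubring
  max : ∀ (x : Pt k η) (P : Place k L), Cen η x.z P →
    ∀ f : x.ctr.O, f ∈ maximalIdeal x.ctr.O ↔ P.Zero (f : L)

end

/-- points and places of a curve -/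
structure CrvA (V : Var k N) : Prop where
  cen : CenA k V.ξ
  nz : ∃ i, V.ξ i ≠ 0
  tr : ∀ i, V.ξ i ≠ 0 → ∃ j, Transcendental k (V.ξ j / V.ξ i)
  pt : ∀ x : Pt k V.ξ, ∃ P, Cen V.ξ x.z P
  fin : ∀ z : Fin (N + 1) → k, {P | Cen V.ξ z P}.Finite
  zs : ∀ A : Pol k N, Form A → aeval V.ξ A ≠ 0 → {x : Pt k V.ξ | eval x.z A = 0}.Finite
  inf : Infinite (Pt k V.ξ)

/-- conductor -/
def Br1 (V : Var k N) : Prop := ∀ i, V.ξ i ≠ 0 → ∃ h : V.K, h ≠ 0 ∧ ∀ x : Pt k V.ξ, x.z i ≠ 0 →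
  h ∈ x.ctr.O ∧ ∀ f : V.K, (∀ P, Cen V.ξ x.z P → f ∈ P.V) → h * f ∈ x.ctr.O

/-- the order at a point is the sum over the branches -/
structure BrA (V : Var k N) : Prop where
  ord : ∀ (x : Pt k V.ξ) (f : V.K), f ≠ 0 →
    ordR x.ctr.O f = ∑ᶠ (P : Place k V.K) (_ : Cen V.ξ x.z P), P.ord f
  dim : ∀ x : Pt k V.ξ, Ring.KrullDimLE 1 x.ctr.O

/-- nonsingular points -/
structure BrB (V : Var k N) : Prop where
  sing : {x : Pt k V.ξ | ¬ IsDiscreteValuationRing x.ctr.O}.Finite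
  dvr : ∀ (x : Pt k V.ξ) (P : Place k V.K), Cen V.ξ x.z P → (∀ Q, Cen V.ξ x.z Q → Q = P) →
    ∀ t ∈ x.ctr.O, t ≠ 0 → P.ord t = 1 → IsDiscreteValuationRing x.ctr.O
  one : ∀ (x : Pt k V.ξ) (P : Place k V.K), IsDiscreteValuationRing x.ctr.O → Cen V.ξ x.z P →
    P.V.toSubring = x.ctr.O

/-- everything about a curve -/
structure CrvF (V : Var k N) : Prop where
  ff : IsFF k V.K
  pa : PlA k V.K
  pb : PlB k V.K
  ca : CrvA V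
  ba : BrA V
  bb : BrB V

variable {ι : Type u}

/-- finitely many different curves -/
structure Conf (Γ : ι → Var k N) : Prop where
  fin : Finite ι
  crv : ∀ a, CrvF (Γ a)
  ne : ∀ a b, (Γ a).Le (Γ b) → a = b

/-- nonsingular curves, at most two through a point -/
structure Plan (Γ : ι → Var k N) : Prop where
  sm : ∀ a (x : Pt k (Γ a).ξ), IsDiscreteValuationRing x.ctr.O
  two : ∀ z a b c, (Γ a).On z → (Γ b).On z → (Γ c).On z → a = b ∨ a = c ∨ b = c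

/-- connected -/
def Conn (Γ : ι → Var k N) : Prop := ∀ s : Set ι, s.Nonempty →
  (∀ a ∈ s, ∀ b z, (Γ a).On z → (Γ b).On z → b ∈ s) → ∀ b, b ∈ s

/-- functions on the curves with total divisor zero -/
structure BCyc (Γ : ι → Var k N) (ψ : ∀ a, (Γ a).K) : Prop where
  ne : ∀ a, ψ a ≠ 0
  div : ∀ z : Fin (N + 1) → k,
    ∑ᶠ (a : ι) (P : Place k (Γ a).K) (_ : Cen (Γ a).ξ z P), P.ord (ψ a) = 0

/-- the coordinates can be cancelled -/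
def Sat (J : Ideal (Pol k N)) : Prop := ∃ i, ∀ G : Pol k N, X i * G ∈ J → G ∈ J

/-- finitely many linear conditions, each avoided by some form through the curves -/
def Avo (Γ : ι → Var k N) (E : Set (Ideal (Pol k N))) : Prop := E.Finite ∧
  ∀ J ∈ E, Sat J ∧ ∃ G : Pol k N, Form G ∧ (∀ a, aeval (Γ a).ξ G = 0) ∧ G ∉ J

/-- data for the graph construction -/
structure GD (Y : Var k N) (Γ : ι → Var k N) (ψ : ∀ a, (Γ a).K) (B : Set (Pt k Y.ξ))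
    (g : ∀ a, (Γ a).K) : Prop where
  fin : B.Finite
  on : ∀ x ∈ B, ∃ a, (Γ a).On x.z
  two : ∀ (x : Pt k Y.ξ) a b, (Γ a).On x.z → (Γ b).On x.z → a ≠ b → x ∈ B
  sm : ∀ (x : Pt k Y.ξ) a (y : Pt k (Γ a).ξ), y.z = x.z → x ∉ B → IsDiscreteValuationRing y.ctr.O
  ord : ∀ (x : Pt k Y.ξ) a (P : Place k (Γ a).K), Cen (Γ a).ξ x.z P → x ∉ B → P.ord (ψ a) = 0
  uni : ∀ x ∈ B, ∀ a (P : Place k (Γ a).K), Cen (Γ a).ξ x.z P → g a ∈ P.V ∧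
    g a - algebraMap k _ (P.val (g a)) ≠ 0 ∧ P.ord (g a - algebraMap k _ (P.val (g a))) = 1
  sep : ∀ x ∈ B, ∀ a b (P : Place k (Γ a).K) (Q : Place k (Γ b).K), Cen (Γ a).ξ x.z P →
    Cen (Γ b).ξ x.z Q → P.val (g a) = Q.val (g b) →
    (⟨a, P⟩ : Σ a, Place k (Γ a).K) = ⟨b, Q⟩

/-- graphs and vertical lines -/
noncomputable def gc {Y : Var k N} (Γ : ι → Var k N) (g : ∀ a, (Γ a).K) (B : Set (Pt k Y.ξ)) :
    ι ⊕ B → Var k (N + 1 + N) := Sum.elim (fun a => (Γ a).gr (g a)) fun x => x.1.lin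

/-- a good point on one of the curves -/
structure Mark (Γ : ι → Var k (N + 1 + N)) (x : Fin (N + 1) → k) (t : k) : Prop where
  nrm : ∃ i, Nrm x i
  on : ∃ a, (Γ a).On (seg x t)
  inf : ∀ a, ¬ (Γ a).On (app 0 x)
  oth : ∀ a t', t' ≠ t → ¬ (Γ a).On (seg x t')
  tr : ∃ G : Pol k (N + 1 + N), Form G ∧ (∀ a, aeval (Γ a).ξ G = 0) ∧
    dEv (seg x t) G (app 0 x) ≠ 0

/-- the curves as curves on a surface -/
structure CD (S : Var k N) (Γ : ι → Var k N) (ψ : ∀ a, (Γ a).K) (c : ι → Cv k S.ξ)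
    (ρ : ∀ a, (Γ a).K ≃ₐ[k] (c a).κ) (φ : ∀ C : Cv k S.ξ, C.κ) : Prop where
  inj : Function.Injective c
  mem : ∀ a (n : ℕ) (A : Pol k N), A.IsHomogeneous n → (A ∈ (c a).P ↔ aeval (Γ a).ξ A = 0)
  res : ∀ a (n : ℕ) (A B : Pol k N), A.IsHomogeneous n → B.IsHomogeneous n → B ∉ (c a).P →
    (c a).res (aeval S.ξ A / aeval S.ξ B) = ρ a (aeval (Γ a).ξ A / aeval (Γ a).ξ B)
  cyc : IsCycle k S.ξ φ
  val : ∀ a, φ (c a) = ρ a (ψ a)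
  oth : ∀ C, φ C ≠ 1 → ∃ a, C = c a

/-- the curve is contracted by the map given by `w` -/
def Contr {K : Type u} [Field K] [Algebra k K] {M : ℕ} {ξ : Fin (M + 1) → K} (C : Cv k ξ)
    (w : Fin (N + 1) → K) : Prop :=
  ∃ i, w i ≠ 0 ∧ ∀ j, w j / w i ∈ C.O ∧ ∃ b : k, C.res (w j / w i) = algebraMap k C.κ b

/-- a nonsingular surface mapping birationally onto its image in `Y` -/
structure SM (Y : Var k N) {M : ℕ} (S : Var k M) (w : Fin (N + 1) → S.K) : Prop where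
  surf : IsSurf k S.ξ
  gen : GenBy k w
  sub : Sub k Y.ξ w
  mor : ∀ x : Pt k S.ξ, ∃ i, w i ≠ 0 ∧ ∀ j, w j / w i ∈ x.ctr.O

/-- the surface carries a cycle lifting the given one -/
structure SD (Γ : ι → Var k N) (ψ : ∀ a, (Γ a).K) {M : ℕ} (S : Var k M)
    (w : Fin (N + 1) → S.K) (c : ι → Cv k S.ξ) (ρ : ∀ a, (Γ a).K ≃ₐ[k] (c a).κ)
    (φ : ∀ C : Cv k S.ξ, C.κ) : Prop where
  inj : Function.Injective c
  cmp : ∀ a i, (Γ a).ξ i ≠ 0 → w i ≠ 0 ∧ ∀ j, w j / w i ∈ (c a).O ∧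
    (c a).res (w j / w i) = ρ a ((Γ a).ξ j / (Γ a).ξ i)
  cyc : IsCycle k S.ξ φ
  val : ∀ a, φ (c a) = ρ a (ψ a)
  oth : ∀ C, φ C ≠ 1 → (∃ a, C = c a) ∨ Contr C w

variable (k) in
/-- places of the rational function field -/
structure LinA (pl : k → Place k (RatFunc k)) (Q : Place k (RatFunc k)) : Prop where
  ff : IsFF k (RatFunc k)
  all : ∀ P, (∃ c, P = pl c) ∨ P = Q
  inj : Function.Injective pl
  ne : ∀ c : k, RatFunc.X - algebraMap k (RatFunc k) c ≠ 0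
  mem : ∀ c, RatFunc.X ∈ (pl c).V ∧ (pl c).val RatFunc.X = c
  one : ∀ c, (pl c).ord (RatFunc.X - algebraMap k (RatFunc k) c) = 1
  zero : ∀ c c', c ≠ c' → (pl c).ord (RatFunc.X - algebraMap k (RatFunc k) c') = 0
  pole : RatFunc.X ∉ Q.V ∧ ∀ c, Q.ord (RatFunc.X - algebraMap k (RatFunc k) c) = -1

variable (k) in
/-- points and local rings of a graph -/
structure SegA {L : Type u} [Field L] [Algebra k L] (η : Fin (N + 1) → L) (g : L) : Prop where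
  pts : ∀ y : Pt k (seg η g), ∃ x : Pt k η, (∃ t, y.z = seg x.z t) ∨ y.z = app 0 x.z
  le : ∀ (x : Pt k η) (y : Pt k (seg η g)), ((∃ t, y.z = seg x.z t) ∨ y.z = app 0 x.z) →
    x.ctr.O ≤ y.ctr.O
  fin : ∀ (x : Fin (N + 1) → k) (t : k) (y : Pt k (seg η g)), y.z = seg x t → g ∈ y.ctr.O
  inf : ∀ (x : Fin (N + 1) → k) (y : Pt k (seg η g)), y.z = app 0 x → g ≠ 0 ∧ g⁻¹ ∈ y.ctr.O
  cen : PlA k L → ∀ (P : Place k L) (x : Fin (N + 1) → k), Cen η x P →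
    (g ∈ P.V → Cen (seg η g) (seg x (P.val g)) P) ∧ (g ∉ P.V → Cen (seg η g) (app 0 x) P)

end

section
variable {Ω : Type u} [Field Ω] {N : ℕ}

/-- at most `r` coordinates separate tangent vectors -/
def Sml (r : ℕ) (𝒮 : Set (Pol Ω N)) (z : Fin (N + 1) → Ω) (i : Fin (N + 1)) : Prop :=
  ∃ J : Finset (Fin (N + 1)), J.card ≤ r ∧ ∀ τ, Tan 𝒮 z i τ → (∀ j ∈ J, τ j = 0) → τ = 0

end

/-- as `JetGen`, allowing base curves -/
def JetGen2 {k : Type u} [Field k] {N m : ℕ} (𝒢 : Finset (Pol k N)) (B : Fin m → Pol k N) : Prop :=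
  ∀ (L : Type u) [Field L] [Algebra k L] (i : Fin (N + 1)) (z : Fin (N + 1) → L), Nrm z i →
    OnV (ext L 𝒢) z →
    (∀ (c : L) (δ : Fin (N + 1) → L), ∃ b : Fin m → L, eval z (cmb L B b) = c ∧
      ∀ τ, τ i = 0 → dEv z (cmb L B b) τ = ∑ j, δ j * τ j) ∨
    (∃ w : Fin (N + 1) → k, (z = fun j => algebraMap k L (w j)) ∧ ∃ j, eval w (B j) ≠ 0 ∨
      ∃ τ, Tan (𝒢 : Set (Pol k N)) w i τ ∧ dEv w (B j) τ ≠ 0) ∨
    ∃ l τ₁ τ₂, (∀ j, IsAlgebraic (Algebra.adjoin k {z l}) (z j)) ∧ Tan (ext L 𝒢) z i τ₁ ∧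
      Tan (ext L 𝒢) z i τ₂ ∧ ∀ c₁ c₂ : L, ∃ b : Fin m → L,
        dEv z (cmb L B b) τ₁ = c₁ ∧ dEv z (cmb L B b) τ₂ = c₂

def RCenA : Prop := ∀ (k L : Type u) [Field k] [Field L] [Algebra k L] (N : ℕ)
  (η : Fin (N + 1) → L), PlA k L → (∃ i, η i ≠ 0) → CenA k η

/-- the shape of the rows about one curve -/
def AllC (Φ : ∀ (k : Type u) [Field k] (N : ℕ) (_ : Var k N), Prop) : Prop :=
  ∀ (k : Type u) [Field k] [IsAlgClosed k] (N : ℕ) (V : Var k N), IsFF k V.K → PlA k V.K →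
    PlB k V.K → Φ k N V

def RCrvA : Prop := AllC.{u} fun _ _ _ V => CrvA V
def RBr1 : Prop := AllC.{u} fun _ _ _ V => CrvA V → Br1 V
def RBrA : Prop := AllC.{u} fun _ _ _ V => CrvA V → Br1 V → BrA V
def RBrB : Prop := AllC.{u} fun _ _ _ V => CrvA V → Br1 V → BrA V → BrB V

def RCrvF : Prop := ∀ (k : Type u) [Field k] [IsAlgClosed k] (p : ℕ) [Fact p.Prime] [CharP k p]
  (N : ℕ) (V : Var k N), IsFF k V.K → CrvF V

/-- an integral basis inside a given ring -/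
def RLow : Prop := ∀ (k L : Type u) [Field k] [IsAlgClosed k] [Field L] [Algebra k L],
  PlA k L → PlB k L → ∀ (T : L) (A : Subalgebra k L), Transcendental k T → T ∈ A →
  (∀ f : L, ∃ a ∈ A, ∃ b ∈ A, b ≠ 0 ∧ f * b = a) →
  ∃ (c : ℕ) (y : Fin (Module.finrank (adjoin k {T}) L) → L), (∀ l, y l ∈ A) ∧
    LinearIndependent (adjoin k {T}) y ∧ ∀ (P : Place k L) l, (T ∈ P.V → y l ∈ P.V) ∧
      (P.ord T < 0 → c * P.ord T ≤ P.ord (y l))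

/-- the conductor of an affine ring -/
def RCond : Prop := ∀ (k L : Type u) [Field k] [IsAlgClosed k] [Field L] [Algebra k L],
  IsFF k L → PlA k L → PlB k L → ∀ (T : L) (A : Subalgebra k L), Transcendental k T → T ∈ A →
  (∀ f : L, ∃ a ∈ A, ∃ b ∈ A, b ≠ 0 ∧ f * b = a) →
  ∃ h : Polynomial k, h ≠ 0 ∧
    ∀ f : L, (∀ P : Place k L, T ∈ P.V → f ∈ P.V) → Polynomial.aeval T h * f ∈ A

/-- the lemma of Herbrand -/
def RHer : Prop := ∀ (R M : Type u) [CommRing R] [AddCommGroup M] [Module R M]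
  (S : Submodule R M) (a : R), (∀ m : M, a • m = 0 → m = 0) → Module.length R (M ⧸ S) ≠ ⊤ →
  Module.length R (QuotSMulTop a S) = Module.length R (QuotSMulTop a M)

/-- lengths on a reduced union of branches -/
def RBr2 : Prop := ∀ (R : Type u) [CommRing R] [IsLocalRing R] [IsNoetherianRing R]
  (s : Finset (Ideal R)) (a : R),
  (∀ q ∈ s, q.IsPrime ∧ q ≠ maximalIdeal R ∧ Ring.KrullDimLE 1 (R ⧸ q) ∧ a ∉ q) →
  Module.length R (R ⧸ (s.inf id ⊔ Ideal.span {a})) =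
    ∑ q ∈ s, Module.length R (R ⧸ (q ⊔ Ideal.span {a}))

/-- tangent spaces and generators of the maximal ideal -/
def RTanB : Prop := ∀ (k K : Type u) [Field k] [Field K] [Algebra k K] (N : ℕ)
  (ξ : Fin (N + 1) → K) (𝒢 : Finset (Pol k N)), IsGens ξ 𝒢 → ∀ (x : Pt k ξ) (r : ℕ),
  (Sml r (𝒢 : Set (Pol k N)) x.z x.ctr.idx → ringKrullDim x.ctr.O ≤ r) ∧
  ∀ (𝒜 : Set (Pol k N)) (t : Finset x.ctr.O), (∀ G ∈ 𝒜, Form G ∧ eval x.z G = 0) → t.card ≤ r →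
    (∀ a ∈ t, a ∈ maximalIdeal x.ctr.O) →
    maximalIdeal x.ctr.O ≤ Ideal.span (t : Set x.ctr.O) ⊔ Ideal.span (x.ctr.lx '' 𝒜) →
    Sml r ((𝒢 : Set (Pol k N)) ∪ 𝒜) x.z x.ctr.idx

/-- tangent spaces of a planar configuration -/
def RBase : Prop := ∀ (k : Type u) [Field k] (N : ℕ) (Z : Var k N) (ι : Type u)
  (Γ : ι → Var k N) (𝒢 𝒜 : Finset (Pol k N)), IsGens Z.ξ 𝒢 → UGens Γ 𝒜 → Conf Γ → Plan Γ →
  (∀ a, (Γ a).Le Z) →
  (∀ i z, Nrm z i → OnV ((𝒢 : Set (Pol k N)) ∪ 𝒜) z → Sml 2 ((𝒢 : Set (Pol k N)) ∪ 𝒜) z i) ∧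
  ∃ Z₀ : Finset (Fin (N + 1) → k), ∀ i z, Nrm z i → OnV ((𝒢 : Set (Pol k N)) ∪ 𝒜) z → z ∉ Z₀ →
    Sml 1 ((𝒢 : Set (Pol k N)) ∪ 𝒜) z i

/-- two more consequences of the Nullstellensatz -/
def RExN2 : Prop := ∀ (k : Type u) [Field k] [IsAlgClosed k] (N r : ℕ) (𝒮 : Finset (Pol k N))
  (Ω : Type u) [Field Ω] [Algebra k Ω],
  ((∀ i z, Nrm z i → OnV (𝒮 : Set (Pol k N)) z → ¬ Sml r (𝒮 : Set (Pol k N)) z i) →
    ∀ i z, Nrm z i → OnV (ext Ω 𝒮) z → ¬ Sml r (ext Ω 𝒮) z i) ∧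
  ∀ Z₀ : Finset (Fin (N + 1) → k),
    (∀ i z, Nrm z i → OnV (𝒮 : Set (Pol k N)) z → z ∉ Z₀ → Sml r (𝒮 : Set (Pol k N)) z i) →
    ∀ i z, Nrm z i → OnV (ext Ω 𝒮) z →
      (∃ w ∈ Z₀, z = fun j => algebraMap k Ω (w j)) ∨ Sml r (ext Ω 𝒮) z i

def RJetG2 : Prop := ∀ (k : Type u) [Field k] [IsAlgClosed k] (N n m : ℕ)
  (𝒢 𝒜 : Finset (Pol k N)) (B : Fin m → Pol k N), (∀ A ∈ 𝒜, Form A ∧ A.totalDegree < n) →
  (∀ A ∈ 𝒜, ∀ M : Pol k N, M.IsHomogeneous (n - A.totalDegree) →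
    A * M ∈ Submodule.span k (Set.range B)) →
  (∀ i z, Nrm z i → OnV (𝒢 : Set (Pol k N)) z → ¬ Sml 2 (𝒢 : Set (Pol k N)) z i) →
  (∀ i z, Nrm z i → OnV ((𝒢 : Set (Pol k N)) ∪ 𝒜) z → Sml 2 ((𝒢 : Set (Pol k N)) ∪ 𝒜) z i) →
  (∃ Z₀ : Finset (Fin (N + 1) → k), ∀ i z, Nrm z i → OnV ((𝒢 : Set (Pol k N)) ∪ 𝒜) z → z ∉ Z₀ →
    Sml 1 ((𝒢 : Set (Pol k N)) ∪ 𝒜) z i) → JetGen2 𝒢 B

def RCntS2 : Prop := ∀ (k : Type u) [Field k] (N n m : ℕ) (𝒢 : Finset (Pol k N))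
  (B : Fin m → Pol k N), (∀ j, (B j).IsHomogeneous n) → JetGen2 𝒢 B →
  Gen k (Fin m) fun a => ¬ Sing (𝒢 : Set (Pol k N)) (∑ j, C (a j) * B j)

/-- Bertini through a planar configuration -/
def RCut : Prop := ∀ (k : Type u) [Field k] [IsAlgClosed k] (N d : ℕ) (Z : Var k N) (ι : Type u)
  (Γ : ι → Var k N) (E : Set (Ideal (Pol k N))), 3 ≤ d → Z.Reg d → Conf Γ → Plan Γ →
  (∀ a, (Γ a).Le Z) → Nonempty ι → Avo Γ E →
  ∃ W : Pol k N, Sm Z.ξ W ∧ (∀ a, aeval (Γ a).ξ W = 0) ∧ ∀ J ∈ E, W ∉ J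

/-- quotient of a regular local ring by a parameter -/
def RRegQ : Prop := ∀ (R : Type u) [CommRing R] [IsRegularLocalRing R] (e : ℕ),
  ringKrullDim R = (e + 1 : ℕ) → ∀ y ∈ maximalIdeal R, y ∉ maximalIdeal R ^ 2 →
  IsRegularLocalRing (R ⧸ Ideal.span {y}) ∧ ringKrullDim (R ⧸ Ideal.span {y}) = e ∧ Prime y

/-- regular local rings are normal -/
def RNorm : Prop := ∀ (R : Type u) [CommRing R] [IsDomain R] [IsRegularLocalRing R],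
  IsIntegrallyClosed R

/-- components of a smooth form -/
def RDiv : Prop := ∀ (k : Type u) [Field k] (N e : ℕ) (Z : Var k N) (W : Pol k N),
  Z.Reg (e + 1) → Sm Z.ξ W → ∀ x : Pt k Z.ξ, eval x.z W = 0 →
  ∃ Z' : Var k N, Z'.Reg e ∧ Z'.Le Z ∧ aeval Z'.ξ W = 0 ∧ Z'.On x.z ∧
    ∀ V : Var k N, V.Le Z → aeval V.ξ W = 0 → (∃ z, V.On z ∧ Z'.On z) → V.Le Z'

def RStep : Prop := ∀ (k : Type u) [Field k] [IsAlgClosed k] (N e : ℕ) (Z : Var k N) (ι : Type u)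
  (Γ : ι → Var k N) (E : Set (Ideal (Pol k N))), 2 ≤ e → Z.Reg (e + 1) → Conf Γ → Plan Γ →
  Conn Γ → (∀ a, (Γ a).Le Z) → Nonempty ι → Avo Γ E →
  ∃ (W : Pol k N) (Z' : Var k N), Form W ∧ Z'.Reg e ∧ Z'.Le Z ∧ aeval Z'.ξ W = 0 ∧
    (∀ a, (Γ a).Le Z') ∧ ∀ J ∈ E, W ∉ J

def RInd : Prop := ∀ (k : Type u) [Field k] [IsAlgClosed k] (N d : ℕ) (Z : Var k N) (ι : Type u)
  (Γ : ι → Var k N), 2 ≤ d → Z.Reg d → Conf Γ → Plan Γ → Conn Γ → (∀ a, (Γ a).Le Z) →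
  Nonempty ι → ∃ S : Var k N, S.Reg 2 ∧ S.Le Z ∧ ∀ a, (Γ a).Le S

/-- reduction to connected configurations -/
def RSplit : Prop := ∀ (k : Type u) [Field k] (N : ℕ) (ι : Type u) (Γ : ι → Var k N)
  (ψ : ∀ a, (Γ a).K) (t : ι → ℚ), Conf Γ → BCyc Γ ψ →
  (∀ s : Set ι, s.Nonempty → Conf (fun a : s => Γ a) → Conn (fun a : s => Γ a) →
    BCyc (fun a : s => Γ a) (fun a => ψ a) → ∑ᶠ a : s, t a = 0) → ∑ᶠ a, t a = 0

/-- product with the line -/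
def RProd : Prop := ∀ (k : Type u) [Field k] (N d : ℕ) (Y : Var k N), Y.Reg d →
  ∃ Z : Var k (N + 1 + N), Z.Reg (d + 1) ∧
    (∀ (L : Type u) [Field L] [Algebra k L] (η : Fin (N + 1) → L) (g : L), Sub k Y.ξ η →
      Sub k Z.ξ (seg η g)) ∧
    (∀ i j, Z.ξ (fl i) * Z.ξ (fr j) = Z.ξ (fl j) * Z.ξ (fr i)) ∧ Sub k Y.ξ fun j => Z.ξ (fl j)

/-- weak approximation -/
def RApx : Prop := ∀ (k L : Type u) [Field k] [Field L] [Algebra k L], PlA k L →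
  ∀ (s : Set (Place k L)) (c : Place k L → k), s.Finite →
  ∃ g : L, ∀ P ∈ s, g - algebraMap k L (c P) ≠ 0 ∧ P.ord (g - algebraMap k L (c P)) = 1

def RLine : Prop := ∀ (k : Type u) [Field k] [IsAlgClosed k] (p : ℕ) [Fact p.Prime] [CharP k p],
  ∃ pl Q, LinA k pl Q

def RSeg : Prop := ∀ (k L : Type u) [Field k] [Field L] [Algebra k L] (N : ℕ)
  (η : Fin (N + 1) → L) (g : L), SegA k η g

/-- the shape of the rows about configurations on `Y` -/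
def AllQ (Φ : ∀ (k : Type u) [Field k] (N : ℕ) (_ : Var k N) (ι : Type u) (Γ : ι → Var k N)
    (_ : ∀ a, (Γ a).K), Prop) : Prop :=
  ∀ (k : Type u) [Field k] [IsAlgClosed k] (p : ℕ) [Fact p.Prime] [CharP k p] (N : ℕ)
    (Y : Var k N) (ι : Type u) (Γ : ι → Var k N) (ψ : ∀ a, (Γ a).K), Conf Γ →
    (∀ a, (Γ a).Le Y) → BCyc Γ ψ → Φ k N Y ι Γ ψ

def RGrD : Prop := AllQ.{u} fun _ _ _ Y _ Γ ψ => ∃ B g, GD Y Γ ψ B g

def RGrA : Prop := AllQ.{u} fun _ _ _ Y _ Γ ψ => ∀ B g, GD Y Γ ψ B g →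
  Conf (gc Γ g B) ∧ (Conn Γ → Conn (gc Γ g B))

def RGrP : Prop := AllQ.{u} fun _ _ _ Y _ Γ ψ => ∀ B g, GD Y Γ ψ B g → Conf (gc Γ g B) →
  Plan (gc Γ g B)

def RGrB : Prop := AllQ.{u} fun _ _ _ Y _ Γ ψ => ∀ B g, GD Y Γ ψ B g → Conf (gc Γ g B) →
  ∃ ψ' : ∀ b, (gc Γ g B b).K, (∀ a, ψ' (Sum.inl a) = ψ a) ∧ BCyc (gc Γ g B) ψ'

def RGrC : Prop := AllQ.{u} fun _ _ _ Y ι Γ ψ => ∀ B g, GD Y Γ ψ B g → Conf (gc Γ g B) →
  Nonempty ι → ∃ x t, Mark (gc Γ g B) x t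

/-- birationality from a reduced fibre -/
def RBir : Prop := ∀ (k : Type u) [Field k] [IsAlgClosed k] (N : ℕ) (x : Fin (N + 1) → k)
  (W : Pol k (N + 1 + N)), Form W → eval (app 0 x) W ≠ 0 →
  {t : k | eval (seg x t) W = 0}.Finite ∧
  ∀ (L : Type u) [Field L] [Algebra k L] (w : Fin (N + 1) → L) (g : L) (t : k)
    (y : Pt k (seg w g)) (W' : Pol k (N + 1 + N)), GenBy (N := N + 1 + N) k (seg w g) →
    y.z = seg x t → Form W' → aeval (seg w g) W = 0 → aeval (seg w g) W' = 0 →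
    dEv (seg x t) W (app 0 x) ≠ 0 →
    (∀ t', t' ≠ t → eval (seg x t') W = 0 → eval (seg x t') W' ≠ 0) → GenBy k w

def RSurfC : Prop := AllQ.{u} fun k _ _ S _ Γ ψ => IsSurf k S.ξ → CvA k S.ξ →
  ∃ c ρ φ, CD S Γ ψ c ρ φ

def RGeoA : Prop := AllQ.{u} fun k _ N Y ι Γ ψ => ∀ d, 3 ≤ d → Y.Reg d → Conn Γ → Nonempty ι →
  ∃ (B : Set (Pt k Y.ξ)) (g : ∀ a, (Γ a).K) (ψ' : ∀ b, (gc Γ g B b).K) (S : Var k (N + 1 + N))
    (w : Fin (N + 1) → S.K) (T : S.K), Conf (gc Γ g B) ∧ BCyc (gc Γ g B) ψ' ∧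
    (∀ a, ψ' (Sum.inl a) = ψ a) ∧ S.Reg 2 ∧ S.ξ = seg w T ∧ GenBy k w ∧ Sub k Y.ξ w ∧
    ∀ b, (gc Γ g B b).Le S

def RGeo : Prop := AllQ.{u} fun k _ N Y ι Γ ψ => ∀ d, 2 ≤ d → Y.Reg d → Conn Γ → Nonempty ι →
  ∃ (M : ℕ) (S : Var k M) (w : Fin (N + 1) → S.K) (c : ι → Cv k S.ξ)
    (ρ : ∀ a, (Γ a).K ≃ₐ[k] (c a).κ) (φ : ∀ C : Cv k S.ξ, C.κ), SM Y S w ∧ SD Γ ψ S w c ρ φ

end Pool.Agent.MP_f3836a_nt.PK
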