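import Pool.Agent.MP_f3836a_nt.PK.BasicG

set_option autoImplicit false

/-! Part G: descent from the algebraic closure in any dimension, and degrees on curves. -/

namespace Pool.Agent.MP_f3836a_nt.PK

open MvPolynomial IsLocalRing IntermediateField

universe u

/-- a curve has a function field of one variable -/
def RFF : Prop := ∀ (k K : Type u) [Field k] [Field K] [Algebra k K] (N : ℕ)
  (ξ : Fin (N + 1) → K) (c : Hp k ξ), c.IsCv → IsFF k c.var.K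

/-- local rings of a curve have dimension at most one -/
def RQd : Prop := ∀ (k K : Type u) [Field k] [Field K] [Algebra k K] (N : ℕ)
  (ξ : Fin (N + 1) → K) (c : Hp k ξ) (x : Ctr k ξ) (h : c.P ≤ x.P), c.IsCv → x.Good →
  Ring.KrullDimLE 1 (x.O ⧸ EYA.q h)

section
variable {F K₀ : Type u} [Field F] [Field K₀] [Algebra F K₀] {N : ℕ} {η : Fin (N + 1) → K₀}
  (M : Mod F η)

/-- orders on curves -/
structure LocA : Prop where
  rng : ∀ (c y : Hp F η) (h : c.P ≤ y.P), c.IsCv → IsNoetherianRing (M.e c y h).range ∧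
    Ring.KrullDimLE 1 (M.e c y h).range ∧
    ∀ f : M.κ c, ∃ a b : (M.e c y h).range, (b : M.κ c) ≠ 0 ∧ f * b = a
  omul : ∀ (c y : Hp F η) (f g : M.κ c), c.IsCv → f ≠ 0 → g ≠ 0 →
    M.ord c y (f * g) = M.ord c y f + M.ord c y g
  len : ∀ (c y : Hp F η) (h : c.P ≤ y.P) (a : y.O), c.IsCv → a ∉ EYA.q h →
    Module.length y.O (y.O ⧸ (EYA.q h ⊔ Ideal.span {a})) ≠ ⊤ ∧
    M.ord c y (M.rr h a) = (Module.length y.O (y.O ⧸ (EYA.q h ⊔ Ideal.span {a}))).toNat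

/-- centres of valuations -/
structure CenH : Prop where
  ex : ∀ (s : Hp F η) (W : ValuationSubring (M.κ s)), ∃ c h, PT.Dom (M.e s c h) W
  uniq : ∀ (s : Hp F η) (W : ValuationSubring (M.κ s)) c c₁ h h₁, PT.Dom (M.e s c h) W →
    PT.Dom (M.e s c₁ h₁) W → c = c₁

/-- functions on curves with total divisor zero -/
structure Cyc0 (φ : ∀ c, M.κ c) : Prop where
  ne : ∀ c, φ c ≠ 0
  fin : {c | φ c ≠ 1}.Finite
  cv : ∀ c, φ c ≠ 1 → c.IsCv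
  div : ∀ y : Hp F η, y.Cl → ∑ᶠ c, M.ord c y (φ c) = 0

/-- functionals killing boundaries -/
structure Kill (lam : ∀ c, M.κ c → ℚ) : Prop where
  add : ∀ c, Addv (lam c)
  bd : ∀ s, M.Nice s → ∀ f g : M.κ s, f ≠ 0 → g ≠ 0 →
    ∑ᶠ (c : Hp F η) (_ : c.IsCv), lam c (M.bd s c f g) = 0

/-- the theorem, dual form -/
def MainM : Prop := ∀ φ lam, Cyc0 M φ → Kill M lam → ∑ᶠ c, lam c (φ c) = 0

/-- divisors of functions on curves -/
structure PicA : Prop where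
  pos : ∀ y : Hp F η, y.Cl → 0 < dgF (M.κ y)
  fin : ∀ (c : Hp F η) (f : M.κ c), c.IsCv → f ≠ 0 → {y : Hp F η | y.Cl ∧ M.ord c y f ≠ 0}.Finite
  deg : ∀ (c : Hp F η) (f : M.κ c), c.IsCv → f ≠ 0 →
    ∑ᶠ (y : Hp F η) (_ : y.Cl), (M.ord c y f : ℚ) * dgF (M.κ y) = 0

/-- divisor classes of degree zero are torsion -/
def PicB : Prop := ∀ (c : Hp F η) (β : Hp F η → ℚ), c.IsCv →
  (∀ f : M.κ c, f ≠ 0 → ∑ᶠ (y : Hp F η) (_ : y.Cl), (M.ord c y f : ℚ) * β y = 0) →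
  ∃ γ : ℚ, ∀ y : Hp F η, y.Cl → c.P ≤ y.P → β y = γ * dgF (M.κ y)

end

def RLocA : Prop := ∀ (F K₀ : Type u) [Field F] [Field K₀] [Algebra F K₀] (N : ℕ)
  (η : Fin (N + 1) → K₀) (M : Mod F η), LocA M

def RCenH : Prop := ∀ (F K₀ : Type u) [Field F] [Field K₀] [Algebra F K₀] [Finite F] (N : ℕ)
  (η : Fin (N + 1) → K₀) (M : Mod F η), CenH M

/-- valuations dominating a chain -/
def RChain : Prop := ∀ (A B L : Type u) [CommRing A] [IsLocalRing A] [CommRing B] [IsLocalRing B]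
  [Field L] (e : A →+* L) (e' : B →+* L), e.range ≤ e'.range →
  ∃ W W' : ValuationSubring L, W ≤ W' ∧ PT.Dom e W ∧ PT.Dom e' W'

def RExtV : Prop := ∀ (K L : Type u) [Field K] [Field L] (ι : K →+* L) (W : ValuationSubring K),
  ∃ W' : ValuationSubring L, ∀ f, f ∈ W ↔ ι f ∈ W'

def RDVsub : Prop := ∀ (K L κ : Type u) [Field K] [Field L] [Field κ] [Algebra K L]
  [Algebra.IsAlgebraic K L] (O : Subring L) (r : O →+* κ) (W : ValuationSubring K), DV O r →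
  (∀ f, f ∈ W ↔ algebraMap K L f ∈ O) → DV W.toSubring (resW W)

/-- factors of a polynomial irreducible over a finite field have equal degrees -/
def RFac : Prop := ∀ (F κ J : Type u) [Field F] [Finite F] [Field κ] [Algebra F κ]
  (ν : Polynomial F) (μ : Polynomial κ) (m : J → Polynomial κ), Irreducible ν → μ.Monic →
  μ ∣ ν.map (algebraMap F κ) → Function.Injective m →
  (∀ g, g ∈ Set.range m ↔ g.Monic ∧ Irreducible g ∧ g ∣ μ) →
  ∀ j, (m j).natDegree * Nat.card J = μ.natDegree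

/-- a tower of fields -/
def RTowD : Prop := ∀ (κ₀ κ₁ κ₂ : Type u) [Field κ₀] [Field κ₁] [Field κ₂] (α : κ₀ →+* κ₁)
  (ν : κ₁ →+* κ₂) (θ : κ₂), (∃ m, 0 < m ∧ θ ^ (m + 1) = θ) →
  (∀ t, ν t ∈ Subfield.closure (Set.range (ν.comp α) ∪ {θ})) →
  0 < frO α ∧ degO (ν.comp α) θ = frO α * degO ν θ

/-- a constant extension is unramified, and a factor determines the valuation -/
def RCE : Prop := ∀ (K L κ : Type u) [Field K] [Field L] [Field κ] [Algebra K L] (O : Subring K)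
  (r : O →+* κ) (p n : ℕ) (θ : L) (π : K) (m : Polynomial O) (V V' : ValuationSubring L),
  DV O r → p.Prime → (p : L) = 0 → 1 ≤ n → θ ^ p ^ n = θ → ordR O π = 1 → m.Monic →
  Irreducible (m.map r) → (∀ f, f ∈ O ↔ algebraMap K L f ∈ V) →
  (∀ f, f ∈ O ↔ algebraMap K L f ∈ V') → Polynomial.aeval θ (m.map O.subtype) ∈ V.nonunits →
  Polynomial.aeval θ (m.map O.subtype) ∈ V'.nonunits →
  ∀ f ∈ adjoin K {θ}, (f ∈ V ↔ f ∈ V') ∧ (f ∈ V.nonunits → f / algebraMap K L π ∈ V)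

open Classical in
/-- the frequency of a factor -/
def RProb : Prop := ∀ (K Ω κ : Type u) [Field K] [Field Ω] [Field κ] [Algebra K Ω] [IsAlgClosed Ω]
  [Algebra.IsAlgebraic K Ω] (O : Subring K) (r : O →+* κ) (V : ValuationSubring Ω)
  (M : ((Ω ≃ₐ[K] Ω) → ℚ) → ℚ) (p n : ℕ) (θ : Ω) (μ m : Polynomial O), Mean M → DV O r →
  (∀ f, f ∈ O ↔ algebraMap K Ω f ∈ V) → p.Prime → (p : Ω) = 0 → 1 ≤ n → θ ^ p ^ n = θ →
  μ.map O.subtype = minpoly K θ → m.Monic → m.map r ∣ μ.map r →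
  (M fun σ => if Polynomial.aeval (σ θ) (m.map O.subtype) ∈ V.nonunits then 1 else 0) *
    μ.natDegree = m.natDegree

section
variable {K₀ K : Type u} [Field K₀] [Field K] [Algebra K₀ K] {I J : Type u}
  {κ : I → Type u} [∀ i, Field (κ i)] {κ' : J → Type u} [∀ j, Field (κ' j)]

/-- the valuation ring `O' j` is visible on the field generated by `θ` -/
structure Vis (K₀ : Type u) [Field K₀] [Algebra K₀ K] (O' : J → Subring K) (j : J) (θ : K) :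
    Prop where
  one : ∀ j', (∀ f ∈ adjoin K₀ {θ}, f ∈ O' j' ↔ f ∈ O' j) → j' = j
  uni : ∃ π ∈ adjoin K₀ {θ}, π ≠ 0 ∧ ordR (O' j) π = 1

/-- the value of the extended functional on elements of the small residue field -/
def DP (O : I → Subring K₀) (r : ∀ i, O i →+* κ i) (O' : J → Subring K)
    (r' : ∀ j, O' j →+* κ' j) (b : J → I) (lam : ∀ i, κ i → ℚ) (lam' : ∀ j, κ' j → ℚ) : Prop :=
  ∀ (p n : ℕ) (j : J) (θ : K) (ν : κ (b j) →+* κ' j), p.Prime → (p : K) = 0 → 1 ≤ n →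
    θ ^ p ^ n = θ → (∀ a : O (b j), ν (r (b j) a) = resR (O' j) (r' j) (algebraMap K₀ K a)) →
    Vis K₀ O' j θ → ∀ x, x ≠ 0 → ((minpoly K₀ θ).natDegree : ℚ) * lam' j (ν x) =
      degO ν (resR (O' j) (r' j) θ) * lam (b j) x

end

def RDescP : Prop := AllF.{u} fun K₀ K _ _ _ _ _ κ _ κ' _ O r O' r' b =>
  ∀ lam : ∀ i, κ i → ℚ, (∀ i, Addv (lam i)) →
  (∀ f g : K₀, f ≠ 0 → g ≠ 0 → ∑ᶠ i, lam i (tameR (O i) (r i) f g) = 0) →
  ∃ lam' : ∀ j, κ' j → ℚ, (∀ j, Addv (lam' j)) ∧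
    (∀ f g : K, f ≠ 0 → g ≠ 0 → ∑ᶠ j, lam' j (tameR (O' j) (r' j) f g) = 0) ∧
    DP O r O' r' b lam lam'

def RVis : Prop := AllF.{u} fun K₀ K _ _ _ _ _ _ _ _ _ O _ O' _ _ =>
  (∀ i i', O i = O i' → i = i') → ∀ (k : Type u) [Field k] [Algebra k K],
  Subfield.closure (Set.range (algebraMap K₀ K) ∪ Set.range (algebraMap k K)) = ⊤ →
  ∀ j, ∃ s₀ : Set k, s₀.Finite ∧ ∀ θ : k, s₀ ⊆ Subring.closure {θ} →
    Vis K₀ O' j (algebraMap k K θ)

/-- residues of elements of a finitely generated subfield -/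
def RBig : Prop := ∀ (k L : Type u) [Field k] [Field L] [Algebra k L] (N : ℕ)
  (ξ : Fin (N + 1) → L) (c : Ctr k ξ) (E : Set (ResidueField c.O)) (t : Set L), GenBy k ξ →
  c.Good → Subfield.closure (E ∪ Set.range (algebraMap k (ResidueField c.O))) = ⊤ → t.Finite →
  ∃ s₀ : Set k, s₀.Finite ∧ ∀ Φ : Subfield k, s₀ ⊆ Φ → ∀ f : c.O, (f : L) ∈ Subfield.closure t →
    residue c.O f ∈ Subfield.closure (E ∪ algebraMap k (ResidueField c.O) '' Φ)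

/-- the shape of the rows about a function field over the algebraic closure of a finite field -/
def AllL (Φ : ∀ (k L : Type u) [Field k] [Field L] [Algebra k L] (_ : ℕ), Prop) : Prop :=
  ∀ (k L : Type u) [Field k] [IsAlgClosed k] [Field L] [Algebra k L] (p : ℕ) [Fact p.Prime]
    [CharP k p], (∀ a : k, a ≠ 0 → ∃ n, 0 < n ∧ a ^ n = 1) → IsFF k L → PlA k L → PlB k L →
    Φ k L p

/-- the inequality of Riemann -/
def RRiem : Prop := AllL.{u} fun k L _ _ _ _ => ∃ g : ℤ, ∀ E : Place k L →₀ ℤ, g ≤ ∑ᶠ P, E P →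
  ∃ f : L, f ≠ 0 ∧ ∀ P, -E P ≤ P.ord f

/-- transport of places -/
def RTrf : Prop := ∀ (k L L' : Type u) [Field k] [Field L] [Field L'] [Algebra k L] [Algebra k L']
  (τ : L ≃+* L'), (∀ a : k, a ≠ 0 → ∃ n, 0 < n ∧ a ^ n = 1) → PlA k L →
  ∃ e : Place k L ≃ Place k L', ∀ P f, (f ∈ P.V ↔ τ f ∈ (e P).V) ∧ (e P).ord (τ f) = P.ord f

/-- a Frobenius automorphism fixing given places -/
def RSigF : Prop := AllL.{u} fun k L _ _ _ p => ∀ T : Set (Place k L), T.Finite →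
  ∃ (σ : L ≃+* L) (r : ℕ), 1 ≤ r ∧ (∀ a, σ (algebraMap k L a) = algebraMap k L (a ^ p ^ r)) ∧
    (∀ P ∈ T, P.Fix σ) ∧ (∀ f, ∃ m, 0 < m ∧ (σ ^ m) f = f) ∧
    ∀ m, 0 < m → {P : Place k L | P.Fix (σ ^ m)}.Finite

/-- a function on places killing principal divisors is constant -/
def RPicK : Prop := AllL.{u} fun k L _ _ _ _ => ∀ β : Place k L → ℚ,
  (∀ f : L, f ≠ 0 → ∑ᶠ P : Place k L, (P.ord f : ℚ) * β P = 0) → ∀ P Q, β P = β Q

/-- two composita are isomorphic -/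
def RIsoK : Prop := ∀ (κ k L L' : Type u) [Field κ] [Field k] [IsAlgClosed k] [Field L] [Field L']
  [Algebra k L] [Algebra k L'] (ν : κ →+* L) (ν' : κ →+* L'),
  (∀ a : k, a ≠ 0 → ∃ n, 0 < n ∧ a ^ n = 1) →
  Subfield.closure (Set.range ν ∪ Set.range (algebraMap k L)) = ⊤ →
  Subfield.closure (Set.range ν' ∪ Set.range (algebraMap k L')) = ⊤ →
  ∃ τ : L ≃+* L', ∀ x, τ (ν x) = ν' x

/-- an invariant additive map that vanishes on the small field vanishes -/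
def RInv : Prop := ∀ (κ k L : Type u) [Field κ] [Field k] [IsAlgClosed k] [Field L] [Algebra k L]
  (ν : κ →+* L) (B : L → ℚ), (∀ a : k, a ≠ 0 → ∃ n, 0 < n ∧ a ^ n = 1) →
  Subfield.closure (Set.range ν ∪ Set.range (algebraMap k L)) = ⊤ → Addv B →
  (∀ τ : L ≃+* L, (∀ x, τ (ν x) = ν x) → ∀ g, g ≠ 0 → B (τ g) = B g) →
  (∀ x, x ≠ 0 → B (ν x) = 0) → ∀ g, g ≠ 0 → B g = 0

namespace Stp

variable (S : Stp.{u})

/-- points over points -/
structure Up1 : Prop where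
  lo : ∀ c : S.H, ∃ c' : S.H', O c' c
  inc : ∀ (a b : S.H') (c : S.H), a.P ≤ b.P → O a c → O b c → a = b
  fin : ∀ c : S.H, {c' : S.H' | O c' c}.Finite
  pt : ∀ c' : S.H', c'.Cl ↔ ∃ x : Pt S.k (up S.K S.η), x.hp = c'
  cl : ∀ (c' : S.H') (c : S.H), O c' c → (c'.Cl ↔ c.Cl)
  cv : ∀ (c' : S.H') (c : S.H), O c' c → c.IsCv → c'.IsCv

/-- residue fields -/
structure Up2 : Prop where
  gen : ∀ (c' : S.H') (c : S.H) (h : O c' c),
    Subfield.closure (Set.range (nu h) ∪ Set.range (algebraMap S.k c'.var.K)) = ⊤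
  co : ∀ c : S.H, c.Cl ↔ ∀ j, ∃ m, 0 < m ∧ S.M.co c j ^ (m + 1) = S.M.co c j
  fg : ∀ c : S.H,
    Subfield.closure (Set.range (S.M.co c) ∪ Set.range (algebraMap S.F (S.M.κ c))) = ⊤

/-- the extension at rational points -/
structure FlB : Prop where
  max : ∀ x : Pt S.k (up S.K S.η), (maximalIdeal (pu x).O).map (fx x) = maximalIdeal x.ctr.O
  con : ∀ (x : Pt S.k (up S.K S.η)) (I : Ideal (pu x).O), (I.map (fx x)).comap (fx x) = I
  rad : ∀ (x : Pt S.k (up S.K S.η)) (q : Ideal (pu x).O), q.IsPrime → (q.map (fx x)).IsRadical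

/-- basic facts -/
structure Bas : Prop where
  u1 : S.Up1
  u2 : S.Up2
  fl : S.FlB
  reg : S.Y.Reg S.d
  loc : LocA S.M
  cen : CenH S.M
  crv : ∀ (c' : S.H') (c : S.H), O c' c → c.IsCv → CrvF c'.var

/-- lengths upstairs -/
def Pb1 : Prop := ∀ (c : S.H) (x : Pt S.k (up S.K S.η)) (h : c.P ≤ (pu x).P) (a : (pu x).O),
  c.IsCv → a ∉ EYA.q h → S.M.ord c (pu x) (S.M.rr h a) =
    ∑ᶠ (c' : S.H') (_ : O c' c) (h' : c'.P ≤ x.ctr.P),
      ((Module.length x.ctr.O (x.ctr.O ⧸ (EYA.q h' ⊔ Ideal.span {fx x a}))).toNat : ℤ)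

/-- orders upstairs -/
def PbA : Prop := ∀ (c : S.H) (x : Pt S.k (up S.K S.η)) (f : S.M.κ c), c.IsCv → f ≠ 0 →
  ∑ᶠ (c' : S.H') (h : O c' c) (P : Place S.k c'.var.K) (_ : Cen c'.var.ξ x.z P), P.ord (nu h f) =
    S.M.ord c (pu x) f

/-- pull back of a cycle -/
def Pull : Prop := ∀ φ, Cyc0 S.M φ →
  Conf (fun a : {c' : S.H' // φ (c'.und S.F) ≠ 1} => a.1.var) ∧
  BCyc (fun a : {c' : S.H' // φ (c'.und S.F) ≠ 1} => a.1.var)
    fun a => nu (o_und a.1) (φ (a.1.und S.F))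

/-- factors of the minimal polynomial of a constant -/
def Cnt1 : Prop := ∀ (c : S.H) (θ : S.k), ∃ μ : Polynomial (S.M.κ c), μ.Monic ∧
  μ.natDegree = D θ ∧ μ ∣ (minpoly S.F θ).map (algebraMap S.F _) ∧
  (∀ (c' : S.H') (h : O c' c), μ.eval₂ (nu h) (algebraMap S.k c'.var.K θ) = 0) ∧
  ∀ m : Polynomial (S.M.κ c), m.Monic → Irreducible m → m ∣ μ →
    ∃ (c' : S.H') (h : O c' c), m.eval₂ (nu h) (algebraMap S.k c'.var.K θ) = 0

/-- the number of points over a point -/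
def CntA : Prop := ∀ c : S.H, ∃ s₀ : Set S.k, s₀.Finite ∧ ∀ θ, Big s₀ θ →
  ∀ (c' : S.H') (h : O c' c), degO (nu h) (algebraMap S.k c'.var.K θ) * nO c = D θ

/-- places and the closed points under them -/
structure CyA : Prop where
  ex : ∀ (c' : S.H') (c : S.H), O c' c → c.IsCv → ∀ P : Place S.k c'.var.K,
    ∃ x : Pt S.k (up S.K S.η), Cen c'.var.ξ x.z P
  eq : ∀ (c' : S.H') (c : S.H), O c' c → c.IsCv → ∀ (P : Place S.k c'.var.K)
    (x : Pt S.k (up S.K S.η)), Cen c'.var.ξ x.z P → cy c' P = pu x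
  dom : ∀ (c' : S.H') (c : S.H) (h : O c' c), c.IsCv → ∀ P : Place S.k c'.var.K,
    (cy c' P).Cl ∧ ∃ hy : c.P ≤ (cy c' P).P, PT.Dom (S.M.e c (cy c' P) hy) (P.V.comap (nu h))

/-- dimension at most one -/
def Low : Prop := S.d ≤ 1 → (∀ c c₁ : S.H, c.IsCv → c₁.IsCv → c = c₁) ∧
  ∀ (c : S.H) (f : S.M.κ c), c.IsCv → f ≠ 0 → (∀ y : S.H, y.Cl → S.M.ord c y f = 0) →
    ∃ n, 0 < n ∧ f ^ n = 1

/-- degrees of closed points -/
structure DegA : Prop where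
  fin : ∀ y : S.H, y.Cl → {x : Pt S.k (up S.K S.η) | pu x = y}.Finite ∧ 0 < nP y ∧
    0 < dgF (S.M.κ y)
  ex : ∃ γ : ℚ, ∀ y : S.H, y.Cl → (dgF (S.M.κ y) : ℚ) = γ * nP y

/-- sums over closed points as sums over places -/
def SumP : Prop := ∀ (c : S.H) (f : S.M.κ c) (β : S.H → ℚ), c.IsCv → f ≠ 0 →
  {y : S.H | y.Cl ∧ S.M.ord c y f ≠ 0}.Finite ∧
  ∑ᶠ (y : S.H) (_ : y.Cl), (S.M.ord c y f : ℚ) * β y =
    ∑ᶠ (c' : S.H') (h : O c' c) (P : Place S.k c'.var.K),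
      (P.ord (nu h f) : ℚ) * (β (cy c' P) / nP (cy c' P))

variable {S} in
/-- `s` is the point under the image of the map given by `w` -/
structure Img {L : Type u} [Field L] [Algebra S.k L] (w : Fin (S.N + 1) → L) (s : S.H)
    [Algebra (S.M.κ s) L] : Prop where
  mem : ∀ (n : ℕ) (A : Pol S.F S.N), A.IsHomogeneous n →
    (A ∈ s.P ↔ aeval w (map (algebraMap S.F S.k) A) = 0)
  frac : ∀ (b : s.O) (n : ℕ) (A B : Pol S.F S.N), A.IsHomogeneous n → B.IsHomogeneous n →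
    (b : S.K₀) * aeval S.η B = aeval S.η A →
    algebraMap (S.M.κ s) L (S.M.r s b) * aeval w (map (algebraMap S.F S.k) B) =
      aeval w (map (algebraMap S.F S.k) A)
  gen : Subfield.closure
    (Set.range (algebraMap (S.M.κ s) L) ∪ Set.range (algebraMap S.k L)) = ⊤
  alg : Algebra.IsAlgebraic (S.M.κ s) L
  fg : ∃ t : Set L, t.Finite ∧ ∀ f, algebraMap (S.M.κ s) L f ∈ Subfield.closure t

/-- a nonsingular surface over the algebraic closure and the point under its image -/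
structure Srf : Type (u + 1) where
  m : ℕ
  V : Var S.k m
  w : Fin (S.N + 1) → V.K
  s : S.H
  [alg : Algebra (S.M.κ s) V.K]
  sm : SM S.Y V w
  cv : CvA S.k V.ξ
  fin : FinA S.k V.ξ
  img : Img w s

attribute [instance] Srf.alg

variable {S} (T : S.Srf)

instance : Algebra.IsAlgebraic (S.M.κ T.s) T.V.K := T.img.alg

/-- the curve `C` is a lift of `c'` -/
def Srf.Cmp {c' : S.H'} {c : S.H} (h : O c' c) (C : Cv S.k T.V.ξ) (ρ : c'.var.K ≃ₐ[S.k] C.κ) :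
    Prop :=
  ∃ hs : T.s.P ≤ c.P, ∀ b, algebraMap _ T.V.K (S.M.e T.s c hs b) ∈ C.O ∧
    C.res (algebraMap _ T.V.K (S.M.e T.s c hs b)) = ρ (nu h (residue _ b))

/-- valuations centred on curves -/
def Srf.I : Type u :=
  Σ c : {c : S.H // c.IsCv ∧ T.s.P ≤ c.P},
    {W : ValuationSubring (S.M.κ T.s) // PT.Dom (S.M.e T.s c.1 c.2.2) W}

/-- curves that are not contracted -/
def Srf.J : Type u := {C : Cv S.k T.V.ξ // ¬ Contr C T.w}

def Srf.Fm (b : T.J → T.I) : Prop :=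
  Fam (fun i : T.I => i.2.1.toSubring) (fun i => resW i.2.1) (fun j : T.J => j.1.O)
    (fun j => residue j.1.O) b

/-- the functional composed with norms -/
noncomputable def Srf.lamI (lam : ∀ c, S.M.κ c → ℚ) (i : T.I) (t : ResidueField i.2.1) : ℚ :=
  lam i.1.1 (nrmO (PT.toRes i.2.2) t)

def Srf.Fam1 : Prop := ∀ (c : S.H) (h : T.s.P ≤ c.P) (W : ValuationSubring (S.M.κ T.s))
  (W' : ValuationSubring T.V.K), ¬ c.Cl → PT.Dom (S.M.e T.s c h) W → W ≠ ⊤ →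
  (∀ f, f ∈ W ↔ algebraMap _ T.V.K f ∈ W') →
  ∃ C : Cv S.k T.V.ξ, ¬ Contr C T.w ∧ C.O = W'.toSubring

structure Srf.Fam2 : Prop where
  cv : ∀ c : S.H, T.s.P < c.P → ¬ c.Cl → c.IsCv
  ex : ∀ j : T.J, ∃ i : T.I, ∀ f, f ∈ i.2.1 ↔ algebraMap _ T.V.K f ∈ j.1.O

end Stp

open Stp

def RUp1 : Prop := ∀ S : Stp.{u}, S.Up1
def RUp2 : Prop := ∀ S : Stp.{u}, S.Up1 → S.Up2
def RFlB : Prop := ∀ S : Stp.{u}, S.Up1 → S.FlB
def RRegK : Prop := ∀ S : Stp.{u}, S.Up1 → S.FlB → S.Y.Reg S.d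
def RPb1 : Prop := ∀ S : Stp.{u}, S.Bas → S.Pb1
def RPbA : Prop := ∀ S : Stp.{u}, S.Bas → S.Pb1 → S.PbA
def RPullG : Prop := ∀ S : Stp.{u}, S.Bas → S.PbA → S.Pull
def RCnt1 : Prop := ∀ S : Stp.{u}, S.Cnt1
def RCount : Prop := ∀ S : Stp.{u}, S.Bas → S.Cnt1 → S.CntA
def RCyA : Prop := ∀ S : Stp.{u}, S.Bas → S.CyA
def RLowD : Prop := ∀ S : Stp.{u}, S.Bas → S.CyA → S.Low
def RDegC : Prop := ∀ S : Stp.{u}, S.Bas → S.CntA → S.DegA
def RSumP : Prop := ∀ S : Stp.{u}, S.Bas → S.PbA → S.CyA → S.DegA → S.SumP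
def RPicA : Prop := ∀ S : Stp.{u}, S.Bas → S.DegA → S.CyA → S.SumP → PicA S.M
def RPicB : Prop := ∀ S : Stp.{u}, S.Bas → S.DegA → S.CyA → S.SumP → PicB S.M

def RImg : Prop := ∀ S : Stp.{u}, S.Bas → ∀ (L : Type u) [Field L] [Algebra S.k L]
  (w : Fin (S.N + 1) → L), GenBy S.k w → Sub S.k S.Y.ξ w → (∃ i, w i ≠ 0) →
  ∃ (s : S.H) (_ : Algebra (S.M.κ s) L), Img w s

def RCmp : Prop := ∀ (S : Stp.{u}) (T : S.Srf), S.Bas → ∀ (c' : S.H') (c : S.H) (h : O c' c)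
  (C : Cv S.k T.V.ξ) (ρ : c'.var.K ≃ₐ[S.k] C.κ), ¬ c.Cl →
  (∀ i, c'.var.ξ i ≠ 0 → T.w i ≠ 0 ∧ ∀ j, T.w j / T.w i ∈ C.O ∧
    C.res (T.w j / T.w i) = ρ (c'.var.ξ j / c'.var.ξ i)) →
  ¬ Contr C T.w ∧ T.Cmp h C ρ ∧ T.s ≠ c

def RFam1 : Prop := ∀ (S : Stp.{u}) (T : S.Srf), S.Bas → T.Fam1
def RFam2 : Prop := ∀ (S : Stp.{u}) (T : S.Srf), S.Bas → T.Fam1 → T.Fam2

def RPushA : Prop := ∀ (S : Stp.{u}) (T : S.Srf), S.Bas → T.Fam1 → T.Fam2 → T.s.IsSf →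
  (∃ b, T.Fm b) ∧ ∀ i i' : T.I, i.2.1.toSubring = i'.2.1.toSubring → i = i'

def RNice : Prop := ∀ (S : Stp.{u}) (T : S.Srf) (b : T.J → T.I), T.s.IsSf → T.Fm b →
  S.M.Nice T.s ∧ ∀ lam : ∀ c, S.M.κ c → ℚ, (∀ c, Addv (lam c)) → (∀ i, Addv (T.lamI lam i)) ∧
    ∀ f g : S.M.κ T.s, f ≠ 0 → g ≠ 0 →
      ∑ᶠ i : T.I, T.lamI lam i (tameR i.2.1.toSubring (resW i.2.1) f g) =
        ∑ᶠ (c : S.H) (_ : c.IsCv), lam c (S.M.bd T.s c f g)

def RPushB : Prop := ∀ (S : Stp.{u}) (T : S.Srf) (b : T.J → T.I), S.Bas → S.CntA → T.Fm b →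
  (∀ i i' : T.I, i.2.1.toSubring = i'.2.1.toSubring → i = i') →
  ∀ (lam : ∀ c, S.M.κ c → ℚ) (lam' : ∀ j : T.J, j.1.κ → ℚ), (∀ c, Addv (lam c)) →
  DP (fun i : T.I => i.2.1.toSubring) (fun i => resW i.2.1) (fun j : T.J => j.1.O)
    (fun j => residue j.1.O) b (T.lamI lam) lam' →
  ∀ (c' : S.H') (c : S.H) (h : O c' c) (j : T.J) (ρ : c'.var.K ≃ₐ[S.k] j.1.κ), T.Cmp h j.1 ρ →
  ∃ s₀ : Set S.k, s₀.Finite ∧ ∀ θ, Big s₀ θ → ∀ x, x ≠ 0 →
    ((minpoly (S.M.κ T.s) (algebraMap S.k T.V.K θ)).natDegree : ℚ) * nO c *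
      lam' j (ρ (nu h x)) = D θ * lam c x

/-- one connected configuration -/
def MainS (S : Stp.{u}) : Prop := 2 ≤ S.d → ∀ (lam : ∀ c, S.M.κ c → ℚ) (ι : Type u) (u : ι → S.H')
  (x : ∀ a, S.M.κ ((u a).und S.F)), Kill S.M lam → (∀ a, ((u a).und S.F).IsCv) →
  Conf (fun a => (u a).var) → Conn (fun a => (u a).var) →
  BCyc (fun a => (u a).var) (fun a => nu (o_und (u a)) (x a)) → Nonempty ι →
  ∑ᶠ a, lam _ (x a) / nO ((u a).und S.F) = 0

def RMainS : Prop := ∀ S : Stp.{u}, S.Bas → S.CntA → MainS S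

def RMainF : Prop := ∀ S : Stp.{u}, S.Bas → S.Pull → S.Low → MainS S → MainM S.M

end Pool.Agent.MP_f3836a_nt.PK
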