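import Pool.Agent.MP_f3836a_nt.PK.SpecE
import Pool.Agent.MP_f3836a_nt.PK.DefsS

set_option autoImplicit false

/-! Part S: schemes. -/

namespace Pool.Agent.MP_f3836a_nt.PK

open MvPolynomial IsLocalRing AlgebraicGeometry CategoryTheory Pool.Agent.MP_f3836a_nt.PS

theorem ordF_eq {L : Type} [Field L] (R : Subring L) (f : L) : ordF R f = ordR R f := rfl

/-- the map on stalks along a specialization -/
noncomputable def sp {X : Scheme.{0}} {y z : X} (h : y ⤳ z) :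
    X.presheaf.stalk z →+* X.presheaf.stalk y := (X.presheaf.stalkSpecializes h).hom

theorem ev_eq {X : Scheme.{0}} {y z : X} (h : y ⤳ z) (a : X.presheaf.stalk z) :
    ev h a = residue (X.presheaf.stalk y) (sp h a) := rfl

theorem ev_trans {X : Scheme.{0}} {y z w : X} (h : y ⤳ z) (h' : z ⤳ w) (a : X.presheaf.stalk w) :
    ev (h.trans h') a = ev h (sp h' a) := by
  rw [ev_eq, ev_eq, sp, ← X.presheaf.stalkSpecializes_comp h h']; rfl

theorem sp_refl {X : Scheme.{0}} {y : X} (h : y ⤳ y) (a : X.presheaf.stalk y) : sp h a = a := by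
  rw [sp, X.presheaf.stalkSpecializes_refl]; rfl

/-- generizations of a point and primes of its local ring -/
structure SchA (X : Scheme.{0}) : Prop where
  ex : ∀ (z : X) (q : Ideal (X.presheaf.stalk z)), q.IsPrime →
    ∃ (y : X) (h : y ⤳ z), RingHom.ker (ev h) = q
  le : ∀ (y y' z : X) (h : y ⤳ z) (h' : y' ⤳ z), RingHom.ker (ev h) ≤ RingHom.ker (ev h') ↔ y ⤳ y'

def RSchA : Prop := ∀ X : Scheme.{0}, SchA X

/-- `y` is the generic point of a component of the fibre over `p` -/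
def IsGen {X : Scheme.{0}} (p : ℕ) (y : X) : Prop :=
  ∀ (x : X) (h : y ⤳ x), IsClosed ({x} : Set X) →
    RingHom.ker (ev h) = Ideal.span {(p : X.presheaf.stalk x)}

/-- structure of a regular fibre of dimension two -/
structure FibA (X : Scheme.{0}) (p : ℕ) : Prop where
  ex : ∀ z : X, (p : X.residueField z) = 0 → ∃ y, IsGen p y ∧ y ⤳ z
  uniq : ∀ y y' z : X, IsGen p y → IsGen p y' → y ⤳ z → y' ⤳ z → y = y'
  char : ∀ y z : X, IsGen p y → y ⤳ z → (p : X.residueField z) = 0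
  two : ∀ y : X, IsGen p y → Order.height y = 2
  one : ∀ y C : X, IsGen p y → y ⤳ C → (Order.height C = 1 ↔ C ≠ y ∧ ¬ IsClosed ({C} : Set X))
  reg : ∀ (y x : X) (h : y ⤳ x), IsGen p y → IsClosed ({x} : Set X) →
    IsRegularLocalRing (ev h).range ∧ ringKrullDim (ev h).range = 2

def RFibA : Prop := ∀ (X : Scheme.{0}) (p : ℕ), SchA X →
  (∀ z : X, ∃ x : X, z ⤳ x ∧ IsClosed ({x} : Set X)) → GoodFib X p → FibA X p

/-- a closed subscheme of projective space: primes and fractions -/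
structure PrA (X : Scheme.{0}) (N : ℕ) (P : X → Ideal (MvPolynomial (Fin (N + 1)) ℤ))
    (fr : ∀ z : X, MvPolynomial (Fin (N + 1)) ℤ → MvPolynomial (Fin (N + 1)) ℤ →
      X.presheaf.stalk z) : Prop where
  prime : ∀ z, (P z).IsPrime
  hom : ∀ z, ∀ G ∈ P z, ∀ n : ℕ, homogeneousComponent n G ∈ P z
  good : ∀ z, ∃ i, MvPolynomial.X i ∉ P z
  le : ∀ y z, y ⤳ z ↔ P y ≤ P z
  up : ∀ (y : X) (Q : Ideal (MvPolynomial (Fin (N + 1)) ℤ)), Q.IsPrime →
    (∀ G ∈ Q, ∀ n : ℕ, homogeneousComponent n G ∈ Q) → (∃ i, MvPolynomial.X i ∉ Q) → P y ≤ Q →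
    ∃ z, P z = Q
  cl : ∀ z : X, ∃ x : X, z ⤳ x ∧ IsClosed ({x} : Set X)
  surj : ∀ (z : X) (a : X.presheaf.stalk z), ∃ (n : ℕ) (A B : MvPolynomial (Fin (N + 1)) ℤ),
    A.IsHomogeneous n ∧ B.IsHomogeneous n ∧ B ∉ P z ∧ a = fr z A B
  res : ∀ (y z : X) (h : y ⤳ z) (n : ℕ) (A B : MvPolynomial (Fin (N + 1)) ℤ), A.IsHomogeneous n →
    B.IsHomogeneous n → B ∉ P z → sp h (fr z A B) = fr y A B
  add : ∀ (z : X) (n : ℕ) (A A' B : MvPolynomial (Fin (N + 1)) ℤ), A.IsHomogeneous n →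
    A'.IsHomogeneous n → B.IsHomogeneous n → B ∉ P z → fr z (A + A') B = fr z A B + fr z A' B
  mul : ∀ (z : X) (n n' : ℕ) (A B A' B' : MvPolynomial (Fin (N + 1)) ℤ), A.IsHomogeneous n →
    B.IsHomogeneous n → A'.IsHomogeneous n' → B'.IsHomogeneous n' → B ∉ P z → B' ∉ P z →
    fr z (A * A') (B * B') = fr z A B * fr z A' B'
  self : ∀ (z : X) (n : ℕ) (B : MvPolynomial (Fin (N + 1)) ℤ), B.IsHomogeneous n → B ∉ P z →
    fr z B B = 1
  mem : ∀ (z : X) (n : ℕ) (A B : MvPolynomial (Fin (N + 1)) ℤ), A.IsHomogeneous n →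
    B.IsHomogeneous n → B ∉ P z → (fr z A B ∈ maximalIdeal (X.presheaf.stalk z) ↔ A ∈ P z)

def RPrA : Prop := ∀ (N : ℕ) (X : Scheme.{0}) (ι : X ⟶ PN N) [IsClosedImmersion ι],
  ∃ P fr, PrA X N P fr

/-- the closure of a point of characteristic `p` as a projective scheme over the prime field -/
structure Dict {X : Scheme.{0}} (p : ℕ) [Fact p.Prime] (y : X)
    [Algebra (ZMod p) (X.residueField y)] {N : ℕ} (η : Fin (N + 1) → X.residueField y)
    (c : ∀ z : X, y ⤳ z → Hp (ZMod p) η) : Prop where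
  gen : ∀ f : X.residueField y, ∃ (n : ℕ) (A B : Pol (ZMod p) N),
    A.IsHomogeneous n ∧ B.IsHomogeneous n ∧ aeval η B ≠ 0 ∧ f * aeval η B = aeval η A
  O : ∀ z h, (c z h).O = (ev h).range
  le : ∀ z h z' h', (c z h).P ≤ (c z' h').P ↔ z ⤳ z'
  surj : ∀ x : Hp (ZMod p) η, ∃ z h, c z h = x

def RDict : Prop := ∀ (X : Scheme.{0}) (N : ℕ) P fr, PrA X N P fr →
  ∀ (p : ℕ) [Fact p.Prime] (y : X) [Algebra (ZMod p) (X.residueField y)],
    ∃ (η : Fin (N + 1) → X.residueField y) (c : ∀ z : X, y ⤳ z → Hp (ZMod p) η), Dict p y η c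

/-- the theorem on one component -/
structure CompA {X : Scheme.{0}} (y : X) : Prop where
  ne : ∀ (f g : X.residueField y) (C : X), f ≠ 0 → g ≠ 0 → Order.height C = 1 → tame y C f g ≠ 0
  fin : ∀ f g : X.residueField y, f ≠ 0 → g ≠ 0 →
    {C : X | Order.height C = 1 ∧ tame y C f g ≠ 1}.Finite
  swap : ∀ (f g : X.residueField y) (C : X), f ≠ 0 → g ≠ 0 → Order.height C = 1 →
    tame y C f g * tame y C g f = 1
  main : ∀ (φ : ∀ C : X, X.residueField C) (lam : ∀ C : X, X.residueField C → ℚ),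
    (∀ C, φ C ≠ 0) → {C | φ C ≠ 1}.Finite → (∀ C, φ C ≠ 1 → Order.height C = 1 ∧ y ⤳ C) →
    (∀ x : X, IsClosed ({x} : Set X) → ∑ᶠ C, ord C x (φ C) = 0) → (∀ C, Addv (lam C)) →
    (∀ f g : X.residueField y, f ≠ 0 → g ≠ 0 →
      ∑ᶠ (C : X) (_ : Order.height C = 1), lam C (tame y C f g) = 0) →
    ∑ᶠ C, lam C (φ C) = 0

def RComp : Prop := ∀ (X : Scheme.{0}) (N : ℕ) P fr, PrA X N P fr → ∀ p : ℕ, p.Prime → FibA X p →
  ∀ y : X, IsGen p y → CompA y

/-- the final statement -/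
def RFinal : Prop := ∀ (N : ℕ) (X : Scheme.{0}) (ι : X ⟶ PN N) [IsClosedImmersion ι]
    (φ : ∀ C : X, X.residueField C), (∀ C, φ C ≠ 0) → {C | φ C ≠ 1}.Finite →
    (∀ C, φ C ≠ 1 → Order.height C = 1 ∧ InGood C) →
    (∀ x : X, Order.height x = 0 → ∑ᶠ C, ord C x (φ C) = 0) →
    ∃ n : ℕ, 0 < n ∧ ∃ l : List (Σ y : X, X.residueField y × X.residueField y),
      (∀ a ∈ l, Order.height a.1 = 2 ∧ InGood a.1 ∧ a.2.1 ≠ 0 ∧ a.2.2 ≠ 0) ∧
      ∀ C : X, Order.height C = 1 → φ C ^ n = (l.map fun a => tame a.1 C a.2.1 a.2.2).prod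

end Pool.Agent.MP_f3836a_nt.PK
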